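import Mathlib

/-! # MP_747bc0_co, merged modules -/

/-! ### KK.Defs -/
section
/-!
# Katona-Kierstead (MP_747bc0_co) for all `n ≥ n₀(k)`: common definitions

`H : Finset (Finset V)` is a hypergraph on the vertex set `V`, `k`-uniform if `Uni H k`.
Tight paths and cycles are lists of vertices.  Counts are `Set.ncard` of sets of functions
`Fin m → V`.
-/

set_option autoImplicit false

namespace Pool.Agent.KK

variable {V : Type} [Fintype V] [DecidableEq V]

/-- All edges have `k` elements. -/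
def Uni (H : Finset (Finset V)) (k : ℕ) : Prop := ∀ e ∈ H, e.card = k

/-- Neighbourhood of the set `S`: the vertices `v ∉ S` with `S ∪ {v} ∈ H`. -/
def nb (H : Finset (Finset V)) (S : Finset V) : Finset V :=
  Finset.univ.filter fun v => v ∉ S ∧ insert v S ∈ H

/-- The minimum codegree is at least `n / 2`. -/
def Dirac (H : Finset (Finset V)) (k : ℕ) : Prop :=
  ∀ S : Finset V, S.card = k - 1 → Fintype.card V ≤ 2 * (nb H S).card

/-- Every `k` consecutive entries of `l` form an edge. -/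
def Tight (H : Finset (Finset V)) (k : ℕ) (l : List V) : Prop :=
  ∀ s : List V, s <:+: l → s.length = k → s.toFinset ∈ H

/-- Tight path: distinct vertices, every `k` consecutive ones form an edge. -/
def Path (H : Finset (Finset V)) (k : ℕ) (l : List V) : Prop := l.Nodup ∧ Tight H k l

/-- There is a tight Hamilton cycle (a list of all vertices, read cyclically). -/
def Ham (H : Finset (Finset V)) (k : ℕ) : Prop :=
  ∃ l : List V, l.Nodup ∧ (∀ v, v ∈ l) ∧ Tight H k (l ++ l.take (k - 1))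

/-- THE GOAL (`k ≥ 3`; `k = 2` is Dirac's theorem). -/
def Main : Prop :=
  ∀ k : ℕ, 3 ≤ k → ∃ n₀ : ℕ, ∀ (V : Type) [Fintype V] [DecidableEq V] (H : Finset (Finset V)),
    n₀ ≤ Fintype.card V → Uni H k → Dirac H k → Ham H k

/-- Number of `w : Fin m → V` such that `a w b` is a tight path. -/
noncomputable def con (H : Finset (Finset V)) (k m : ℕ) (a b : List V) : ℕ :=
  {w : Fin m → V | Path H k (a ++ List.ofFn w ++ b)}.ncard

/-- The first `r` and the last `r` entries agree. -/
def SameEnds (r : ℕ) (p q : List V) : Prop :=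
  p.take r = q.take r ∧ p.drop (p.length - r) = q.drop (q.length - r)

/-- `p` is a tight path with at least `k - 1` vertices whose initial tuple is in `S` and whose final
tuple is in `T`. -/
def Seg (H : Finset (Finset V)) (k : ℕ) (S T : Set (List V)) (p : List V) : Prop :=
  Path H k p ∧ k - 1 ≤ p.length ∧ p.take (k - 1) ∈ S ∧ p.drop (p.length - (k - 1)) ∈ T

/-- `T` is a set of `(k-1)`-tuples of distinct vertices. -/
def Tup (k : ℕ) (T : Set (List V)) : Prop := ∀ a ∈ T, a.length = k - 1 ∧ a.Nodup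

/-- Any two disjoint tuples of `T` are joined by many tight paths of some bounded length. -/
def Joins (H : Finset (Finset V)) (k : ℕ) (T : Set (List V)) (c : ℝ) (M : ℕ) : Prop :=
  ∀ a ∈ T, ∀ b ∈ T, a.Disjoint b → ∃ m ≤ M, c * (Fintype.card V : ℝ) ^ m ≤ con H k m a b

/-- The same for every residue of the length modulo `k`. -/
def JoinsAll (H : Finset (Finset V)) (k : ℕ) (T : Set (List V)) (c : ℝ) (M : ℕ) : Prop :=
  ∀ a ∈ T, ∀ b ∈ T, a.Disjoint b → ∀ t : ℕ, ∃ m ≤ M, m ≡ t [MOD k] ∧
    c * (Fintype.card V : ℝ) ^ m ≤ con H k m a b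

/-- `u`, cut into pieces of lengths `ls`, is a gadget for the list `y`: the pieces are tight paths
with both end tuples in one class `T i`, and they can be replaced by tight paths with the same end
tuples which together use exactly the vertices of `u` and `y`. -/
def Gad {I : Type} (H : Finset (Finset V)) (k : ℕ) (T : I → Set (List V)) (ls : List ℕ)
    (u y : List V) : Prop :=
  (u ++ y).Nodup ∧ (∀ p ∈ ls.splitLengths u, ∃ i, Seg H k (T i) (T i) p) ∧
    ∃ Q : List (List V),
      List.Forall₂ (fun p q => SameEnds (k - 1) p q ∧ Path H k q) (ls.splitLengths u) Q ∧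
      Q.flatten.Perm (u ++ y)

end Pool.Agent.KK
end

/-! ### KK.StmtsC -/
section
/-!
# Block C: joining, absorbing, covering, assembly (case alpha)

Notation in the docstrings: `n = |V|`, `r = k - 1`.
All statements are independent; a row may use the rows listed in its column `uses` as hypotheses.
-/

set_option autoImplicit false

open scoped BigOperators

namespace Pool.Agent.KK

/-! ## Counting and random selection -/

/-- **FAM** (family lemma).  For `γ ≤ γ₀(M, ξ)` and `n ≥ n₀`: given at most `n ^ e` sets `D` of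
`M`-tuples, each of size `≥ ξ n ^ M`, there is a family `F` of at most `γ n` pairwise disjoint
injective `M`-tuples which has at least `(γ ξ / 8) n` members in every `D`.

PROOF.  `γ₀ = min 1 (ξ / (16 M²))`, `N = ⌊γ n⌋`.  Let `U` run over all functions
`Fin N → (Fin M → V)` (there are `n ^ (M N)`).  (1) For `D` let `h(U)` be the number of `i` with
`U i ∈ D`.  `∑_U 2 ^ (- h(U)) = (n ^ M - |D| / 2) ^ N ≤ n ^ (M N) (1 - ξ / 2) ^ N
≤ n ^ (M N) exp (- ξ N / 2)` (the sum over functions is a product of sums).  Hence at most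
`n ^ (M N) 2 ^ (ξ N / 4) exp (- ξ N / 2) ≤ n ^ (M N) exp (- ξ N / 4)` functions `U` have
`h(U) < ξ N / 4`; over all `D`: at most `n ^ e exp (- ξ N / 4) n ^ (M N) < n ^ (M N) / 2` for large
`n`.  (2) Let `bad(U)` be the number of `i` with `U i` not injective plus the number of pairs
`i < j` with `range (U i) ∩ range (U j) ≠ ∅`.  A tuple is not injective with probability at most
`M² / (2 n)`, two tuples meet with probability at most `M² / n`, so the sum of `bad` over all `U` is
at most `n ^ (M N) (N M² / (2 n) + N² M² / (2 n)) ≤ n ^ (M N) (γ M² / 2 + γ² M² n / 2)`; so at most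
half of all `U` have `bad(U) ≥ γ M² + γ² M² n`.  By (1) and (2) some `U` has `h(U) ≥ ξ N / 4` for
every `D` and `bad(U) < γ M² + γ² M² n`.  Delete the indices `i` with `U i` not injective, and one
index of every intersecting pair; the remaining tuples are injective and pairwise disjoint, hence
distinct (`M > 0`); let `F` be the set of them, `|F| ≤ N ≤ γ n`, and in every `D` there remain at
least `ξ N / 4 - γ M² - γ² M² n ≥ ξ (γ n - 1) / 4 - γ M² - ξ γ n / 16 ≥ γ ξ n / 8` members for
large `n`. -/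
def FamStmt : Prop :=
  ∀ (M e : ℕ) (ξ : ℝ), 0 < M → 0 < ξ → ∃ γ₀ : ℝ, 0 < γ₀ ∧ ∀ γ : ℝ, 0 < γ → γ ≤ γ₀ →
    ∃ n₀ : ℕ, ∀ (V : Type) [Fintype V] [DecidableEq V], n₀ ≤ Fintype.card V →
    ∀ 𝒟 : Finset (Finset (Fin M → V)), (𝒟.card : ℝ) ≤ (Fintype.card V : ℝ) ^ e →
      (∀ D ∈ 𝒟, ξ * (Fintype.card V : ℝ) ^ M ≤ D.card) →
      ∃ F : Finset (Fin M → V), (F.card : ℝ) ≤ γ * Fintype.card V ∧
        (∀ u ∈ F, Function.Injective u) ∧
        (∀ u ∈ F, ∀ v ∈ F, u ≠ v → Disjoint (Set.range u) (Set.range v)) ∧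
        ∀ D ∈ 𝒟, γ * ξ / 8 * Fintype.card V ≤ (D ∩ F).card

/-- **CKQ** (counting complete partite copies).  A set `E` of `r`-tuples with `|E| ≥ ρ n ^ r` has at
least `ρ ^ (q ^ r) n ^ (q r)` families `x : Fin r → Fin q → V` all of whose transversals
`i ↦ x i (g i)`, `g : Fin r → Fin q`, are in `E`.

PROOF.  Induction on `r`; `r = 0`: `n ^ 0 = 1`, `E` is everything or `ρ ≤ 0` (if `0 < ρ` then
`|E| ≥ ρ > 0`, so `E` is the one point set).  Step `r + 1`: for `z : Fin r → V` let
`e(z) = #{v : (v, z) ∈ E}`; for `y : Fin q → V` let `E_y` be the set of `z` with `(y j, z) ∈ E` for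
all `j`.  `∑_y |E_y| = ∑_z e(z) ^ q ≥ n ^ r (ρ n) ^ q` by the power mean inequality
(`∑_z e(z) = |E| ≥ ρ n ^ (r+1)`).  By induction `E_y` has at least
`(|E_y| / n ^ r) ^ (q ^ r) n ^ (q r)` families; sum over `y` and use the power mean inequality again
(exponent `q ^ r ≥ 1`): the sum over the `n ^ q` functions `y` is at least
`n ^ q (ρ ^ q) ^ (q ^ r) n ^ (q r) = ρ ^ (q ^ (r+1)) n ^ (q (r+1))`. -/
def CkqStmt : Prop :=
  ∀ (r q : ℕ) (ρ : ℝ), 0 < q → 0 < ρ → ∀ (V : Type) [Fintype V] [DecidableEq V],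
    0 < Fintype.card V → ∀ E : Set (Fin r → V), ρ * (Fintype.card V : ℝ) ^ r ≤ E.ncard →
    ρ ^ (q ^ r) * (Fintype.card V : ℝ) ^ (q * r) ≤
      ({x : Fin r → Fin q → V | ∀ g : Fin r → Fin q, (fun i => x i (g i)) ∈ E}.ncard : ℝ)

/-- **ERD** (Erdos).  A set `E` of `r`-tuples of elements of `U` with `|E| ≥ ρ n ^ r` contains all
transversals of pairwise disjoint `t`-sets `A 0, ..., A (r-1)`, if `n ≥ n₀(r, t, ρ)`.

PROOF.  By CKQ with `q = t` there are at least `ρ ^ (t ^ r) n ^ (t r)` families `x`; at most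
`(t r)² n ^ (t r - 1)` families `x : Fin r → Fin t → V` are not injective as functions of `(i, j)`;
so for large `n` there is an injective one; `A i = {x i j}`. -/
def ErdStmt : Prop :=
  ∀ (r t : ℕ) (ρ : ℝ), 0 < r → 0 < t → 0 < ρ → ∃ n₀ : ℕ,
    ∀ (V : Type) [Fintype V] [DecidableEq V], n₀ ≤ Fintype.card V →
    ∀ E : Set (Fin r → V), ρ * (Fintype.card V : ℝ) ^ r ≤ E.ncard →
    ∃ A : Fin r → Finset V, (∀ i, (A i).card = t) ∧ (∀ i j, i ≠ j → Disjoint (A i) (A j)) ∧
      ∀ x : Fin r → V, (∀ i, x i ∈ A i) → x ∈ E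

/-! ## Walks and joining -/

/-- Number of walks with `m` steps in the digraph `E`. -/
noncomputable def wk {Ω : Type} [Fintype Ω] (E : Ω → Ω → Prop) : ℕ → Ω → Ω → ℕ
  | 0, s, t => by classical exact if s = t then 1 else 0
  | m + 1, s, t => by classical exact ∑ z : Ω, wk E m s z * (if E z t then 1 else 0)

/-- **REA** (reach lemma).  Digraph `E` on `Ω`, all degrees `≤ N`, at most one walk with exactly `r`
steps between two states, `|U| ≤ C N ^ r`, `U` indecomposable: every `D ⊆ U` sends at least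
`ε N ^ (r+1)` steps into `U \ D`, or `|D| ≤ β N ^ r`, or `|U \ D| ≤ β N ^ r`.  If at least
`c₁ N ^ r` walks with `r` steps lead from `s` into `U` and from `U` to `t` then for some
`m ≤ M` (`m ≥ 2 r`) there are at least `c N ^ (m - r)` walks with `m` steps from `s` to `t`.

PROOF.  For `m ≥ r`: `wk m s z ≤ N ^ (m - r)` (induction on `m`: `wk (m+1) s z'` is the sum of
`wk m s z` over the at most `N` states `z` with `E z z'`).  `θ 0 = c₁ / (2 C)`,
`θ (i+1) = θ i · min 1 (ε / (2 C (i+1)))`.  Let `R i` be the set of `z ∈ U` such that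
`wk m s z ≥ θ i N ^ (m - r)` for some `m` with `r ≤ m ≤ r + i`.  `R i ⊆ R (i+1)`.
`|R 0| ≥ (c₁ / 2) N ^ r`: `∑_{z ∈ U} wk r s z ≥ c₁ N ^ r`, each term is `≤ 1`, the terms `< θ 0`
contribute at most `θ 0 |U| ≤ (c₁ / 2) N ^ r`.  So `|R i| > β N ^ r` for all `i`.  If
`|U \ R i| > β N ^ r` then at least `ε N ^ (r+1)` pairs `(z, z')`, `E z z'`, `z ∈ R i`,
`z' ∈ U \ R i`; the `z'` with less than `(ε / (2 C)) N` such `z` account for at most
`(ε / (2 C)) N |U| ≤ (ε / 2) N ^ (r+1)` pairs; every other `z'` for at most `N`; so there are at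
least `(ε / 2) N ^ r` states `z' ∈ U \ R i` with at least `(ε / (2 C)) N` in-neighbours in `R i`; by
pigeonhole (`i + 1` lengths) one `m` serves `(ε / (2 C (i+1))) N` of them, and
`wk (m+1) s z' ≥ (ε / (2 C (i+1))) N θ i N ^ (m - r) ≥ θ (i+1) N ^ (m + 1 - r)`, so
`z' ∈ R (i+1)`.  So `|R (i+1)| ≥ |R i| + (ε / 2) N ^ r` as long as `|U \ R i| > β N ^ r`, hence
`|U \ R I| ≤ β N ^ r` for `I = ⌈2 C / ε⌉ + 1`.  The same for the reversed digraph: the set `B` of
`z ∈ U` with `wk m' z t ≥ θ I N ^ (m' - r)` for some `m'` in `[r, r + I]` has `|U \ B| ≤ β N ^ r`.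
So `|R I ∩ B| ≥ (u₀ - 2 β) N ^ r`; by pigeonhole at least `(u₀ - 2 β) / (I+1)² N ^ r` states `z`
have the same pair `(m, m')`, and `wk (m + m') s t ≥ ∑_z wk m s z · wk m' z t`. -/
def ReaStmt : Prop :=
  ∀ (r : ℕ) (C ε β c₁ u₀ : ℝ), 0 < C → 0 < ε → 0 < β → 2 * β < c₁ → 2 * β < u₀ →
    ∃ (M : ℕ) (c : ℝ), 0 < c ∧
    ∀ (Ω : Type) [Fintype Ω] (E : Ω → Ω → Prop) (N : ℝ) (U : Set Ω), 0 < N →
      (∀ t, ({z | E z t}.ncard : ℝ) ≤ N) → (∀ s, ({z | E s z}.ncard : ℝ) ≤ N) →
      (∀ s t, wk E r s t ≤ 1) → (U.ncard : ℝ) ≤ C * N ^ r → u₀ * N ^ r ≤ U.ncard →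
      (∀ D ⊆ U, ε * N ^ (r + 1) ≤ ({p : Ω × Ω | p.1 ∈ D ∧ p.2 ∈ U \ D ∧ E p.1 p.2}.ncard : ℝ) ∨
        (D.ncard : ℝ) ≤ β * N ^ r ∨ ((U \ D).ncard : ℝ) ≤ β * N ^ r) →
      ∀ s t : Ω, c₁ * N ^ r ≤ (∑ᶠ z ∈ U, (wk E r s z : ℝ)) →
        c₁ * N ^ r ≤ (∑ᶠ z ∈ U, (wk E r z t : ℝ)) →
        ∃ m ≤ M, 2 * r ≤ m ∧ c * N ^ (m - r) ≤ wk E m s t

section
variable {V : Type} [Fintype V] [DecidableEq V]

/-- States: an ordered tuple of `d + 1 = k - 1` vertices and a time modulo `k = d + 2`. -/
abbrev Sta (V : Type) (d : ℕ) : Type := (Fin (d + 1) → V) × ZMod (d + 2)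

/-- Tight step: forget the first vertex, append a new one which forms an edge with the tuple. -/
def St (H : Finset (Finset V)) {d : ℕ} (s t : Sta V d) : Prop :=
  t.2 = s.2 + 1 ∧ Fin.init t.1 = Fin.tail s.1 ∧
    insert (t.1 (Fin.last d)) (Finset.univ.image s.1) ∈ H

/-- `U` is indecomposable: no `D ⊆ U` with `β n^(k-1) < |D|, |U \ D|` and less than `ε n^k`
steps from `D` to `U \ D`. -/
def Indec (H : Finset (Finset V)) {d : ℕ} (U : Set (Sta V d)) (ε β : ℝ) : Prop :=
  ∀ D ⊆ U, ε * (Fintype.card V : ℝ) ^ (d + 2) ≤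
      ({p : Sta V d × Sta V d | p.1 ∈ D ∧ p.2 ∈ U \ D ∧ St H p.1 p.2}.ncard : ℝ) ∨
    (D.ncard : ℝ) ≤ β * (Fintype.card V : ℝ) ^ (d + 1) ∨
    ((U \ D).ncard : ℝ) ≤ β * (Fintype.card V : ℝ) ^ (d + 1)

/-- Many walks with `k - 1` steps lead from `s` into `U`. -/
def GoodF (H : Finset (Finset V)) {d : ℕ} (U : Set (Sta V d)) (c : ℝ) (s : Sta V d) : Prop :=
  c * (Fintype.card V : ℝ) ^ (d + 1) ≤ ∑ᶠ z ∈ U, (wk (St H) (d + 1) s z : ℝ)

/-- Many walks with `k - 1` steps lead from `U` to `s`. -/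
def GoodB (H : Finset (Finset V)) {d : ℕ} (U : Set (Sta V d)) (c : ℝ) (s : Sta V d) : Prop :=
  c * (Fintype.card V : ℝ) ^ (d + 1) ≤ ∑ᶠ z ∈ U, (wk (St H) (d + 1) z s : ℝ)

end

/-- **WKT** (walks = sequences).  For `m ≥ d + 1` the number of walks with `m` steps from `(a, t)` to
`(b, t')` is the number of `w : Fin (m - (d+1)) → V` such that `a w b` is tight (every `d + 2`
consecutive entries form an edge) if `t' = t + m`, and `0` otherwise.

PROOF.  A walk with `m` steps from `(a, t)` is a sequence `x_1, ..., x_m` of vertices such that every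
window of length `d + 2` of `a x_1 ... x_m` is an edge (as a set; an edge has `d + 2` elements by
`Uni`, so windows have distinct entries), it ends in the tuple of the last `d + 1` entries of
`a x_1 ... x_m` and at time `t + m` (induction on `m`, one step = one more window).  For
`m ≥ d + 1` this last tuple is `x_(m-d), ..., x_m`, so walks to `b` are the sequences `w b`. -/
def WktStmt : Prop :=
  ∀ (d m : ℕ) (V : Type) [Fintype V] [DecidableEq V] (H : Finset (Finset V)), Uni H (d + 2) →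
    d + 1 ≤ m → ∀ (a b : Fin (d + 1) → V) (t t' : ZMod (d + 2)),
      (t' = t + m → wk (St H) m (a, t) (b, t') =
        {w : Fin (m - (d + 1)) → V |
          Tight H (d + 2) (List.ofFn a ++ List.ofFn w ++ List.ofFn b)}.ncard) ∧
      (t' ≠ t + m → wk (St H) m (a, t) (b, t') = 0)

/-- **JON** (joining inside an indecomposable class).

PROOF.  REA with `Ω = Sta V d`, `E = St H`, `N = n`, `r = d + 1`, `C = d + 2`: a state has at most
`n` successors and at most `n` predecessors (the new vertex / the dropped vertex determines it), two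
states are joined by at most one walk with exactly `d + 1` steps (WKT with `m = d + 1`: the only
candidate is `w` empty), `|Ω| = (d + 2) n ^ (d + 1)`.  It gives `m` (`2 (d+1) ≤ m ≤ M`) and at least
`c n ^ (m - (d+1))` walks; by WKT `t' = t + m` and, with `m' = m - (d+1)`, there are at least
`c n ^ m'` functions `w : Fin m' → V` with `a w b` tight.  Remove those for which `a w b` has a
repeated entry: `a`, `b` are injective and disjoint, so a repetition involves an entry of `w`; at most
`(m' + 2 (d+1))² n ^ (m' - 1) ≤ (c / 2) n ^ m'` functions for large `n` (`m' ≥ d + 1 ≥ 1`). -/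
def JonStmt : Prop :=
  ∀ (d : ℕ) (ε β c₁ u₀ : ℝ), 0 < ε → 0 < β → 2 * β < c₁ → 2 * β < u₀ →
    ∃ (M : ℕ) (c : ℝ) (n₀ : ℕ), 0 < c ∧
    ∀ (V : Type) [Fintype V] [DecidableEq V] (H : Finset (Finset V)), n₀ ≤ Fintype.card V →
      Uni H (d + 2) → ∀ U : Set (Sta V d), u₀ * (Fintype.card V : ℝ) ^ (d + 1) ≤ U.ncard →
      Indec H U ε β →
      ∀ (a b : Fin (d + 1) → V) (t t' : ZMod (d + 2)), Function.Injective a →
        Function.Injective b → Disjoint (Set.range a) (Set.range b) →
        GoodF H U c₁ (a, t) → GoodB H U c₁ (b, t') →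
        ∃ m ≤ M, t' = t + m + (d + 1) ∧
          c * (Fintype.card V : ℝ) ^ m ≤ con H (d + 2) m (List.ofFn a) (List.ofFn b)

/-! ## Swap chains and gadgets -/

/-- **CHN** (swap chains of length exactly 4).  `S` a graph on `V` such that of any three vertices two
are adjacent, all degrees are `≥ δ n`, and every partition `(A, V \ A)` with both parts of size
`≥ (δ / 2) n` has at least `κ n²` crossing pairs.  Then any two vertices `y, z` are joined by at least
`c n³` chains `y, v₁, v₂, v₃, z`.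

PROOF.  `κ' = δ² / 16`, `N(x)` = neighbourhood.  For a set `A` the nonadjacent pairs in `A` form a
triangle-free graph, so (Mantel) there are at least `|A|² / 2 - |A|` ordered adjacent pairs in `A`
(*).  CASE A: at least `κ' n²` pairs `(u, w)`, `u ∈ N(y)`, `w ∈ N(z)`, `S u w`.  Let `A` be the set of
`u ∈ N(y)` with at least `κ' n / 2` neighbours in `N(z)`; `|A| ≥ κ' n / 2`; by (*) there are at least
`|A|² / 2 - |A|` ordered pairs `(v, u)` in `A`, `S v u`, and each gives at least `κ' n / 2` chains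
`y, v, u, w, z`.  CASE B: less than `κ' n²` such pairs.  `I = N(y) ∩ N(z)`: by (*) `|I|² / 2 - |I| <
κ' n²`, so `|I| < (δ / 2) n` for large `n`.  Let `W = N(z) \ I ⊆ V \ N(y)`, `|W| ≥ (δ / 2) n`.  The
partition `(N(y), V \ N(y))` has both parts `≥ (δ / 2) n`, so at least `κ n²` pairs `(u, v)`,
`u ∈ N(y)`, `v ∉ N(y)`, `S u v`.  If `v ≠ y`, `w ∈ W`, `w ≠ v`, `w ≠ y` then `v` and `w` are not
adjacent to `y`, so `S v w` (three distinct vertices `y, v, w`), and `y, u, v, w, z` is a chain: at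
least `(κ n² - n) ((δ / 2) n - 2)`. -/
def ChnStmt : Prop :=
  ∀ (δ κ : ℝ), 0 < δ → δ ≤ 1 → 0 < κ → ∃ (c : ℝ) (n₀ : ℕ), 0 < c ∧
    ∀ (V : Type) [Fintype V] [DecidableEq V], n₀ ≤ Fintype.card V →
    ∀ S : V → V → Prop, (∀ x y, S x y → S y x) →
      (∀ x y z, x ≠ y → y ≠ z → x ≠ z → S x y ∨ S y z ∨ S x z) →
      (∀ x, δ * Fintype.card V ≤ {y | S x y}.ncard) →
      (∀ A : Set V, δ / 2 * Fintype.card V ≤ A.ncard → δ / 2 * Fintype.card V ≤ Aᶜ.ncard →
        κ * (Fintype.card V : ℝ) ^ 2 ≤ ({p : V × V | p.1 ∈ A ∧ p.2 ∉ A ∧ S p.1 p.2}.ncard : ℝ)) →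
      ∀ y z : V, c * (Fintype.card V : ℝ) ^ 3 ≤
        ({v : V × V × V | S y v.1 ∧ S v.1 v.2.1 ∧ S v.2.1 v.2.2 ∧ S v.2.2 z}.ncard : ℝ)

/-- `u` and `v` can be exchanged in many segments: at least `c n^(2(k-1))` tuples `p` such that
`p₁ .. p_(k-1) u p_k .. p_(2k-2)` and the same with `v` are tight paths with both end tuples in one
class. -/
def Swp {V I : Type} [Fintype V] [DecidableEq V] (H : Finset (Finset V)) (k : ℕ)
    (T : I → Set (List V)) (c : ℝ) (u v : V) : Prop :=
  c * (Fintype.card V : ℝ) ^ (2 * (k - 1)) ≤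
    ({p : (Fin (k - 1) → V) × (Fin (k - 1) → V) | ∃ i,
      Seg H k (T i) (T i) (List.ofFn p.1 ++ [u] ++ List.ofFn p.2) ∧
      Seg H k (T i) (T i) (List.ofFn p.1 ++ [v] ++ List.ofFn p.2)}.ncard : ℝ)

/-- Lengths of the pieces of a `k`-gadget: `4 k` segments `p u p'` and one block `b b'`. -/
def gadLen (k : ℕ) : List ℕ := List.replicate (4 * k) (2 * (k - 1) + 1) ++ [2 * k]

/-- **GDC** (number of gadgets).  If there are many optional blocks (`b b'` segment, `b z b'` path)
and every two vertices are joined by many swap chains of length 4 then every `k`-tuple `y` has at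
least `c n ^ M` gadgets, `M = (gadLen k).sum`.

PROOF.  Choose an optional block `(b, z, b')` (`≥ c_b n ^ (3k)`), for every `i < k` a chain
`y i = v i 0, v i 1, v i 2, v i 3, v i 4 = z i` with `Swp` consecutive (`≥ c₃ n³` each), and for every
`i < k`, `j = 1..4` a tuple `p i j` exchanging `v i (j-1)` and `v i j` (`≥ c_s n ^ (2(k-1))` each).
The vertex list `u`: the pieces `p₁ v i j p₂` (`i < k`, `1 ≤ j ≤ 4`; here `v i 4 = z i`) followed by
`b b'`; it determines all choices, so there are at least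
`c_b c₃ ^ k c_s ^ (4k) n ^ (3k + 3k + 8k(k-1))` lists `u`, and `M = 4k(2(k-1)+1) + 2k` is the same
exponent.  Remove those with a repetition in `u ++ y` (at most `(M + k)² n ^ (M-1)`, `y` injective).
For the others `Gad` holds: the pieces are segments by `Swp` and by the choice of the block; the
replaced pieces are `p₁ v i (j-1) p₂` and `b z b'`; they have the same first and last `k - 1` entries
and their vertices are all `p`, all `v i j` with `0 ≤ j ≤ 3` (`v i 0 = y i`), `z i = v i 4`, `b`, `b'`: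
exactly `u` and `y`. -/
def GdcStmt : Prop :=
  ∀ (k : ℕ) (c_b c₃ c_s : ℝ), 2 ≤ k → 0 < c_b → 0 < c₃ → 0 < c_s →
    ∃ (c : ℝ) (n₀ : ℕ), 0 < c ∧
    ∀ (V I : Type) [Fintype V] [DecidableEq V] (H : Finset (Finset V)) (T : I → Set (List V)),
      n₀ ≤ Fintype.card V → (∀ i, Tup k (T i)) →
      c_b * (Fintype.card V : ℝ) ^ (3 * k) ≤
        ({b : (Fin k → V) × (Fin k → V) × (Fin k → V) |
          (∃ i, Seg H k (T i) (T i) (List.ofFn b.1 ++ List.ofFn b.2.2)) ∧
          Path H k (List.ofFn b.1 ++ List.ofFn b.2.1 ++ List.ofFn b.2.2)}.ncard : ℝ) →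
      (∀ y z : V, c₃ * (Fintype.card V : ℝ) ^ 3 ≤
        ({v : V × V × V | Swp H k T c_s y v.1 ∧ Swp H k T c_s v.1 v.2.1 ∧
          Swp H k T c_s v.2.1 v.2.2 ∧ Swp H k T c_s v.2.2 z}.ncard : ℝ)) →
      ∀ y : Fin k → V, Function.Injective y →
        c * (Fintype.card V : ℝ) ^ (gadLen k).sum ≤
          ({u : Fin (gadLen k).sum → V |
            Gad H k T (gadLen k) (List.ofFn u) (List.ofFn y)}.ncard : ℝ)

/-! ## Weaving segments together -/

/-- `p₁ w₁ p₂ w₂ p₃ ...` (connectors `w` between consecutive segments `p`; a missing connector is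
empty). -/
def weave {V : Type} : List (List V) → List (List V) → List V
  | [], _ => []
  | [p], _ => p
  | p :: q :: ps, [] => p ++ weave (q :: ps) []
  | p :: q :: ps, w :: ws => p ++ w ++ weave (q :: ps) ws

/-- **RPL** (replacing segments).  If `weave ps ws` is tight, all segments have length `≥ k - 1`, and
each `p` is replaced by a tight `q` with the same first and last `k - 1` entries, then
`weave qs ws` is tight and has the same first and last `k - 1` entries.  Also in the cyclic version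
(last connector `e` leading back to the start).

PROOF.  (`r = k - 1`.)  A window of length `k = r + 1` of `weave qs ws` which is not inside one `q`
meets a connector or two segments; since every `q` has length `≥ r`, a window which contains an entry
outside `q` contains at most `r` entries of `q`, and they are among its first `r` or last `r` entries
(it cannot contain entries on both sides of `q`).  So the window occurs also in `weave ps ws`, where
`q` is replaced by `p` with the same first and last `r` entries.  A clean induction: if `u ++ a` and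
`a ++ v` are tight and `|a| ≥ r` then `u ++ a ++ v` is tight; write `q = a ++ q' ++ b`
(`a`, `b` = first and last `r` entries, overlapping if `|q| < 2 r`). -/
def RplStmt : Prop :=
  ∀ (k : ℕ) (V : Type) [Fintype V] [DecidableEq V] (H : Finset (Finset V)), 2 ≤ k →
    ∀ (ps qs ws : List (List V)), ps ≠ [] →
      List.Forall₂ (fun p q => SameEnds (k - 1) p q ∧ k - 1 ≤ p.length ∧ k - 1 ≤ q.length ∧
        Tight H k q) ps qs →
      (Tight H k (weave ps ws) → Tight H k (weave qs ws) ∧
        SameEnds (k - 1) (weave ps ws) (weave qs ws)) ∧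
      ∀ e : List V, Tight H k (weave ps ws ++ e ++ (weave ps ws).take (k - 1)) →
        Tight H k (weave qs ws ++ e ++ (weave qs ws).take (k - 1))

/-- **GRJ** (greedy joining).  Segments with both ends in `T`, few compared with `c n`, can be joined
to one segment by connectors which avoid a given small set `W`.

PROOF.  Induction on the number of segments: join the last tuple `a` of the path constructed so far
with the first tuple `b` of the next segment (`a`, `b` disjoint, in `T`): `Joins` gives `m ≤ M` and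
`≥ c n ^ m` functions `w` with `a w b` a tight path; at most `m |Z| n ^ (m-1)` of them meet the set
`Z` of all vertices in `W`, in segments or in earlier connectors, `|Z| ≤ |W| + (number of vertices of
the segments) + M (number of segments)`; since `M |Z| < c n` some `w` avoids `Z` (if `m = 0` there is
nothing to avoid).  The longer list is tight by the concatenation lemma in RPL. -/
def GrjStmt : Prop :=
  ∀ (k M : ℕ) (c : ℝ) (V : Type) [Fintype V] [DecidableEq V] (H : Finset (Finset V))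
    (T : Set (List V)), 2 ≤ k → 0 < c → Tup k T → Joins H k T c M →
    ∀ (ps : List (List V)) (W : Finset V), ps ≠ [] → (∀ p ∈ ps, Seg H k T T p) →
      ps.flatten.Nodup →
      (M : ℝ) * (W.card + ps.flatten.length + M * ps.length) < c * Fintype.card V →
      ∃ ws : List (List V), ws.length + 1 = ps.length ∧ (∀ w ∈ ws, w.length ≤ M) ∧
        (∀ w ∈ ws, ∀ v ∈ w, v ∉ W) ∧ (ps.flatten ++ ws.flatten).Nodup ∧
        (weave ps ws).Perm (ps.flatten ++ ws.flatten) ∧ Seg H k T T (weave ps ws)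

/-- `T` contains tuples outside every set of at most `c n` vertices. -/
def Rich {V : Type} [Fintype V] (T : Set (List V)) (c : ℝ) : Prop :=
  ∀ W : Finset V, (W.card : ℝ) ≤ c * Fintype.card V → ∃ a ∈ T, ∀ v ∈ a, v ∉ W

/-- **ABS** (absorbing paths).  For `γ ≤ γ₀` and large `n`: one path `A i` in every class, at most
`γ n` vertices in total, avoiding a given set of at most `C` vertices, such that any `≤ c' γ n`
disjoint `k`-lists outside can be absorbed.

PROOF.  `M' = ls.sum`, `I = Fin q`.  FAM (with `M'`, `e = k`, `ξ = c`) for the demands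
`D_y = {u : Gad ...}`, `y` injective: family `F₀`, `|F₀| ≤ γ' n`, at least `(γ' c / 8) n` members in
every `D_y`; here `γ' = γ / K`, `K = 2 (M' + M ls.length + 1)`.  Let `F` be the set of `u ∈ F₀` which
are disjoint from `W` and which are gadgets for at least one `y`; at least `(γ' c / 8) n - C` members
of every `D_y` remain.  All pieces `ls.splitLengths u`, `u ∈ F`, are segments of some class.  For
`i : I` let `ps i` be the list of all pieces of class `i` (choose one class for every piece) and one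
extra tuple `a i ∈ T i` (by `Rich`, disjoint from everything used).  By GRJ, for one class after the
other, join `ps i` to `A i = weave (ps i) (ws i)`, avoiding `W`, all pieces and all former
connectors; the total number of vertices is at most
`γ' n M' + (number of pieces) M + q (k - 1 + M) ≤ γ n`, and `M · (total) < c n` for small `γ`.
ABSORBING: given lists `y 1, .., y s` (`s ≤ c' γ n`, `c' γ < γ' c / 8` minus a bit; for instance
`c' = c / (32 K)`), choose distinct `u 1, .., u s ∈ F` with `Gad (u j) (y j)` greedily; replace the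
pieces of `u j` by the pieces `Q` of the definition of `Gad`; by RPL the woven lists stay tight with
the same end tuples, and the vertices are those of the `A i` together with the `y j`. -/
def AbsStmt : Prop :=
  ∀ (k M q C : ℕ) (ls : List ℕ) (c : ℝ), 2 ≤ k → 0 < c → 0 < q → 0 < ls.sum →
    ∃ (c' γ₀ : ℝ), 0 < c' ∧ 0 < γ₀ ∧ ∀ γ : ℝ, 0 < γ → γ ≤ γ₀ → ∃ n₀ : ℕ,
    ∀ (V : Type) [Fintype V] [DecidableEq V] (H : Finset (Finset V))
      (T : Fin q → Set (List V)), n₀ ≤ Fintype.card V → (∀ i, Tup k (T i)) →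
      (∀ i, Joins H k (T i) c M) → (∀ i, Rich (T i) c) →
      (∀ y : Fin k → V, Function.Injective y → c * (Fintype.card V : ℝ) ^ ls.sum ≤
        ({u : Fin ls.sum → V | Gad H k T ls (List.ofFn u) (List.ofFn y)}.ncard : ℝ)) →
      ∀ W : Finset V, W.card ≤ C →
      ∃ A : Fin q → List V, (∀ i, Seg H k (T i) (T i) (A i)) ∧
        (List.ofFn A).flatten.Nodup ∧ (∀ i, ∀ v ∈ A i, v ∉ W) ∧
        ((List.ofFn A).flatten.length : ℝ) ≤ γ * Fintype.card V ∧
        ∀ ys : List (List V), (∀ y ∈ ys, y.length = k) →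
          ((List.ofFn A).flatten ++ ys.flatten).Nodup →
          (ys.length : ℝ) ≤ c' * γ * Fintype.card V →
          ∃ B : Fin q → List V, (∀ i, Path H k (B i) ∧ SameEnds (k - 1) (A i) (B i)) ∧
            (List.ofFn B).flatten.Perm ((List.ofFn A).flatten ++ ys.flatten)

/-- **CNF** (connector family).  For `γ ≤ γ₀` and large `n`, given a set `W` of at most `c' n`
vertices, there is a set `F` of pairwise disjoint lists outside `W` with at most `γ n` vertices in
total such that any two disjoint tuples `a, b` of the same class either form a path `a b` or have at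
least `c' γ n` connectors `w ∈ F` (`a w b` a tight path).

PROOF.  For `m = 1, .., M` one after the other apply FAM (tuple length `m`, `ξ = c / 2`) to the
demands `D_(i,a,b)` = set of `w : Fin m → V` with `a w b` a tight path and `w` disjoint from `W` and
from the families for smaller `m`, for all `i`, `a, b ∈ T i` disjoint for which `Joins` provides
exactly this `m`.  (At most `q n ^ (2(k-1)) ≤ n ^ (2k-1)` demands; `|D| ≥ c n ^ m -
m |Z| n ^ (m-1) ≥ (c / 2) n ^ m` if `|Z| ≤ (c / (2 M)) n`.)  The family for `m` has at most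
`(γ / (M (M+1))) n` members, hence at most `(γ / (M+1)) n` vertices.  If `Joins` provides `m = 0` then
`con > 0` says that `a b` is a tight path. -/
def CnfStmt : Prop :=
  ∀ (k M q : ℕ) (c : ℝ), 2 ≤ k → 0 < c →
    ∃ (c' γ₀ : ℝ), 0 < c' ∧ 0 < γ₀ ∧ ∀ γ : ℝ, 0 < γ → γ ≤ γ₀ → ∃ n₀ : ℕ,
    ∀ (V : Type) [Fintype V] [DecidableEq V] (H : Finset (Finset V))
      (T : Fin q → Set (List V)), n₀ ≤ Fintype.card V → (∀ i, Tup k (T i)) →
      (∀ i, Joins H k (T i) c M) →
      ∀ W : Finset V, (W.card : ℝ) ≤ c' * Fintype.card V →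
      ∃ F : List (List V), F.flatten.Nodup ∧ F.Nodup ∧ (∀ w ∈ F, w ≠ []) ∧
        (∀ v ∈ F.flatten, v ∉ W) ∧
        (F.flatten.length : ℝ) ≤ γ * Fintype.card V ∧
        ∀ i, ∀ a ∈ T i, ∀ b ∈ T i, a.Disjoint b → Path H k (a ++ b) ∨
          c' * γ * Fintype.card V ≤ ({w : List V | w ∈ F ∧ Path H k (a ++ w ++ b)}.ncard : ℝ)

/-- **JSQ** (joining a sequence with connectors from a family).  `ps` a list of disjoint segments,
consecutive ones `p, p'` have last tuple and first tuple in a common class; `F` a list of disjoint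
connectors, disjoint from the segments, with at least `ps.length` connectors for every pair of
disjoint tuples of a class which do not form a path directly.  Then `ps` can be joined.

PROOF.  Induction (from the left): for the next pair either use the empty connector or one of the
at least `ps.length` suitable connectors which has not been used (at most `ps.length - 1` are used).
Concatenation lemma as in RPL: `u ++ a`, `a ++ w ++ b`, `b ++ v` tight with `|a|, |b| ≥ k - 1`. -/
def JsqStmt : Prop :=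
  ∀ (k q : ℕ) (V : Type) [Fintype V] [DecidableEq V] (H : Finset (Finset V))
    (T : Fin q → Set (List V)) (F : List (List V)) (ps : List (List V)), 2 ≤ k →
    (∀ i, Tup k (T i)) → F.Nodup → ps ≠ [] →
    (ps.flatten ++ F.flatten).Nodup → (∀ w ∈ F, w ≠ []) →
    (∀ p ∈ ps, Path H k p ∧ k - 1 ≤ p.length) →
    ps.IsChain (fun p p' => ∃ i, p.drop (p.length - (k - 1)) ∈ T i ∧ p'.take (k - 1) ∈ T i) →
    (∀ i, ∀ a ∈ T i, ∀ b ∈ T i, a.Disjoint b → Path H k (a ++ b) ∨
      ps.length ≤ {w : List V | w ∈ F ∧ Path H k (a ++ w ++ b)}.ncard) →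
    ∃ ws : List (List V), ws.length + 1 = ps.length ∧ (∀ w ∈ ws, w = [] ∨ w ∈ F) ∧
      (ps.flatten ++ ws.flatten).Nodup ∧
      (weave ps ws).Perm (ps.flatten ++ ws.flatten) ∧ Path H k (weave ps ws) ∧
      (weave ps ws).take (k - 1) = (ps.head!).take (k - 1) ∧
      (weave ps ws).drop ((weave ps ws).length - (k - 1)) =
        (ps.getLast!).drop ((ps.getLast!).length - (k - 1))

/-! ## Assembly -/

/-- Covering property: outside every set `W` of at most `γ n` vertices there are disjoint segments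
(each with both ends in one class), each with at least `L` vertices, which cover all but `ξ n`
vertices. -/
def Cov {V : Type} [Fintype V] [DecidableEq V] {q : ℕ} (H : Finset (Finset V)) (k : ℕ)
    (T : Fin q → Set (List V)) (γ ξ : ℝ) (L : ℕ) : Prop :=
  ∀ W : Finset V, (W.card : ℝ) ≤ γ * Fintype.card V →
    ∃ ps : List (List V), ps.flatten.Nodup ∧ (∀ v ∈ ps.flatten, v ∉ W) ∧
      (∀ p ∈ ps, L ≤ p.length ∧ ∃ i, Seg H k (T i) (T i) p) ∧
      (Fintype.card V : ℝ) - W.card - ps.flatten.length ≤ ξ * Fintype.card V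

/-- A closed tour through all classes: classes `j 0, ..., j t`, `j 0 = j t = i₀`, every class
occurs, and disjoint crossing paths `x l` from `j l` to `j (l+1)` with at most `C` vertices in
total. -/
def Tour {V : Type} [Fintype V] [DecidableEq V] {q : ℕ} (H : Finset (Finset V)) (k : ℕ)
    (T : Fin q → Set (List V)) (i₀ : Fin q) (C : ℕ) : Prop :=
  ∃ (t : ℕ) (j : ℕ → Fin q) (x : Fin t → List V), j 0 = i₀ ∧ j t = i₀ ∧
    (∀ i, ∃ l ≤ t, j l = i) ∧ (∀ l : Fin t, Seg H k (T (j l)) (T (j (l + 1))) (x l)) ∧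
    (List.ofFn x).flatten.Nodup ∧ (List.ofFn x).flatten.length ≤ C

/-- **ASM** (assembly theorem).  Classes `T i` with `Joins`, one class `i₀` with `JoinsAll`, gadgets
for all `k`-tuples, a closed tour and the covering property give a tight Hamilton cycle.

PROOF.  Constants: `c₁, γ₁₀` from ABS with `C' = C + 2 k + k (M + 1)`, `c₂, γ₂₀` from CNF.  Choose
`γ₁ ≤ γ₁₀`, `2 γ₁ ≤ c₂ / 2`, `3 γ₁ ≤ 1 / 200`; then `γ₂ ≤ γ₂₀` with `γ₂ ≤ c₁ γ₁ k / 4`,
`γ₂ ≤ γ₁`, `ξ = c₁ γ₁ k / 4`, `L` with `2 / L ≤ c₂ γ₂`, `n₀` large (so `C' ≤ γ₁ n`).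
(1) `W₀` = vertices of the crossing paths.  Choose `a, b ∈ T i₀` disjoint from each other and from
`W₀` (`Rich`), and for `t < k` connectors `w t` with `a (w t) b` a tight path, `|w t| ≡ t` mod `k`,
`|w t| ≤ M`, pairwise disjoint and disjoint from `W₀` (`JoinsAll`, greedily).
`W₁ = W₀ ∪ a ∪ b ∪ ⋃ w t`, `|W₁| ≤ C'`.
(2) ABS: paths `A i`, avoiding `W₁`, at most `γ₁ n` vertices.
(3) CNF with `W₂ = W₁ ∪ ⋃ A i`: family `F`, at most `γ₂ n` vertices, `c₂ γ₂ n` connectors for each
pair.
(4) `Cov` with `W₃ = W₂ ∪ F` (at most `(γ₁ + γ₂) n + C' ≤ n / 200`): segments `ps`, at most `n / L` of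
them, uncovered at most `ξ n`.
(5) The sequence of segments: `b`, [group `0`], `x 0`, [group 1], `x 1`, ..., `x (t-1)`, [group `t`],
`a`; here every class `i` is assigned to one index `l(i) ≤ t` with `j (l(i)) = i`, and group `l`
consists of `A i` and all `p ∈ ps` of class `i`, for the `i` with `l(i) = l`.  Consecutive ends lie
in the class `j l`.  Number of segments `≤ n / L + q + t + 2 ≤ c₂ γ₂ n`.  JSQ gives a path `P` from
`b` to `a` through all of them with connectors from `F`.
(6) Let `u = |P|`, `t₀ ≡ n - u` mod `k`, `t₀ < k`.  Close by `w t₀`: `P ++ w t₀ ++ b` is tight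
(first tuple of `P` is `b`).  The vertices outside `P` and `w t₀` are unused connectors, the other
`w t` and the uncovered ones: at most `γ₂ n + k (M+1) + ξ n ≤ c₁ γ₁ k n` and their number is divisible
by `k`; cut them into lists `ys` of length `k`, `|ys| ≤ c₁ γ₁ n`.
(7) ABS: replace `A i` by `B i`.  By RPL (cyclic version, only the segments `A i` are replaced) the
cyclic list stays tight, it is a permutation of all vertices. -/
def AsmStmt : Prop :=
  ∀ (k M q C : ℕ) (ls : List ℕ) (c : ℝ), 2 ≤ k → 0 < c → 0 < q → 0 < ls.sum →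
    ∃ (ξ : ℝ) (L n₀ : ℕ), 0 < ξ ∧
    ∀ (V : Type) [Fintype V] [DecidableEq V] (H : Finset (Finset V))
      (T : Fin q → Set (List V)) (i₀ : Fin q), n₀ ≤ Fintype.card V → (∀ i, Tup k (T i)) →
      (∀ i, Joins H k (T i) c M) → JoinsAll H k (T i₀) c M → (∀ i, Rich (T i) c) →
      (∀ y : Fin k → V, Function.Injective y → c * (Fintype.card V : ℝ) ^ ls.sum ≤
        ({u : Fin ls.sum → V | Gad H k T ls (List.ofFn u) (List.ofFn y)}.ncard : ℝ)) →
      Tour H k T i₀ C → Cov H k T (1 / 200) ξ L → Ham H k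

/-! ## From classes to swaps, blocks, covering -/

/-- Number of `(k-1)`-tuples `f` which form an edge with `u` and with `v`. -/
noncomputable def comm {V : Type} [Fintype V] [DecidableEq V] (H : Finset (Finset V)) (k : ℕ)
    (u v : V) : ℕ :=
  {f : Fin (k - 1) → V | u ∉ Finset.univ.image f ∧ v ∉ Finset.univ.image f ∧
    insert u (Finset.univ.image f) ∈ H ∧ insert v (Finset.univ.image f) ∈ H}.ncard

/-- **SWC** (swaps from common links).

PROOF.  By pigeonhole one class `i` has at least `(ρ / q) n ^ (k-1)` of the tuples; let `E` be the set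
of them.  CKQ with `r = k - 1`, `q = 2`: at least `(ρ / q) ^ (2 ^ (k-1)) n ^ (2(k-1))` families
`x : Fin (k-1) → Fin 2 → V` with all transversals in `E`; at most `(2 k)² n ^ (2(k-1) - 1)` of them
are not injective as functions of both indices (`u`, `v` are never among the entries because every
entry lies on a transversal in `E`).  For the others put `p.1 = x · 0`, `p.2 = x · 1`.  Every window
of length `k` of `p.1 ++ [u] ++ p.2` (length `2k - 1`) contains the middle entry `u`, and the rest of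
it is the transversal with `x j 1` for `j ≤ l` and `x j 0` for `j > l`, so it is an edge; the same for
`v`.  The end tuples `p.1`, `p.2` are in `E`, so in `T i`. -/
def SwcStmt : Prop :=
  ∀ (k q : ℕ) (ρ : ℝ), 2 ≤ k → 0 < q → 0 < ρ → ∃ (c : ℝ) (n₀ : ℕ), 0 < c ∧
    ∀ (V : Type) [Fintype V] [DecidableEq V] (H : Finset (Finset V))
      (T : Fin q → Set (List V)), n₀ ≤ Fintype.card V → Uni H k → (∀ i, Tup k (T i)) →
      ∀ u v : V, ρ * (Fintype.card V : ℝ) ^ (k - 1) ≤
        ({f : Fin (k - 1) → V | (∃ i, List.ofFn f ∈ T i) ∧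
          u ∉ Finset.univ.image f ∧ v ∉ Finset.univ.image f ∧
          insert u (Finset.univ.image f) ∈ H ∧ insert v (Finset.univ.image f) ∈ H}.ncard : ℝ) →
        Swp H k T c u v

/-- The list `l` is an edge with initial and final `(k-1)`-tuple in `T`. -/
def EdgeIn {V : Type} [Fintype V] [DecidableEq V] (H : Finset (Finset V)) (k : ℕ)
    (T : Set (List V)) (l : List V) : Prop :=
  l.Nodup ∧ l.length = k ∧ l.toFinset ∈ H ∧ l.take (k - 1) ∈ T ∧ l.drop 1 ∈ T

/-- **BLK** (optional blocks).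

PROOF.  Pigeonhole for the class, then CKQ with `r = k`, `q = 3` for `E` = tuples `f` with
`EdgeIn H k (T i) (ofFn f)`; remove the non-injective families; `b = x · 0`, `z = x · 1`,
`b' = x · 2`.  Windows of length `k` of `b b'` and of `b z b'` are (rotated) transversals, so they are
edges; first `k - 1` entries of `b`: `take` of a transversal; last `k - 1` entries of `b'`: `drop 1` of
a transversal. -/
def BlkStmt : Prop :=
  ∀ (k q : ℕ) (ρ : ℝ), 2 ≤ k → 0 < q → 0 < ρ → ∃ (c : ℝ) (n₀ : ℕ), 0 < c ∧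
    ∀ (V : Type) [Fintype V] [DecidableEq V] (H : Finset (Finset V))
      (T : Fin q → Set (List V)), n₀ ≤ Fintype.card V → Uni H k → (∀ i, Tup k (T i)) →
      ρ * (Fintype.card V : ℝ) ^ k ≤
        ({f : Fin k → V | ∃ i, EdgeIn H k (T i) (List.ofFn f)}.ncard : ℝ) →
      c * (Fintype.card V : ℝ) ^ (3 * k) ≤
        ({b : (Fin k → V) × (Fin k → V) × (Fin k → V) |
          (∃ i, Seg H k (T i) (T i) (List.ofFn b.1 ++ List.ofFn b.2.2)) ∧
          Path H k (List.ofFn b.1 ++ List.ofFn b.2.1 ++ List.ofFn b.2.2)}.ncard : ℝ)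

/-- `B` is a block of size `s`: disjoint `s`-sets `B 0, ..., B (k-1)`, all transversals (in this
order) are edges with both end tuples in one class. -/
def Block {V : Type} [Fintype V] [DecidableEq V] {q : ℕ} (H : Finset (Finset V)) (k : ℕ)
    (T : Fin q → Set (List V)) (s : ℕ) (B : Fin k → Finset V) : Prop :=
  (∀ j, (B j).card = s) ∧ (∀ i j, i ≠ j → Disjoint (B i) (B j)) ∧
    ∃ i, ∀ x : Fin k → V, (∀ j, x j ∈ B j) → EdgeIn H k (T i) (List.ofFn x)

/-- `S` is an edge which has an ordering with both end tuples in one class. -/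
def OrdIn {V : Type} [Fintype V] [DecidableEq V] {q : ℕ} (H : Finset (Finset V)) (k : ℕ)
    (T : Fin q → Set (List V)) (S : Finset V) : Prop :=
  ∃ i, ∃ l : List V, l.toFinset = S ∧ EdgeIn H k (T i) l

/-- Good neighbours of the tuple `f`. -/
noncomputable def gn {V : Type} [Fintype V] [DecidableEq V] {q : ℕ} (H : Finset (Finset V))
    (k : ℕ) (T : Fin q → Set (List V)) (f : Fin (k - 1) → V) : Finset V := by
  classical exact Finset.univ.filter fun v => OrdIn H k T (insert v (Finset.univ.image f))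

/-- Almost all `(k-1)`-tuples have at least `(1/2 - γ) n` good neighbours. -/
def P3 {V : Type} [Fintype V] [DecidableEq V] {q : ℕ} (H : Finset (Finset V)) (k : ℕ)
    (T : Fin q → Set (List V)) (γ : ℝ) : Prop :=
  ({f : Fin (k - 1) → V | ((gn H k T f).card : ℝ) < (1 / 2 - γ) * Fintype.card V}.ncard : ℝ) ≤
    γ * (Fintype.card V : ℝ) ^ (k - 1)

/-- Almost all `(k-1)`-tuples have a rearrangement in one of the classes. -/
def P2 {V : Type} [Fintype V] [DecidableEq V] {q : ℕ} (k : ℕ) (T : Fin q → Set (List V))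
    (γ : ℝ) : Prop :=
  ({f : Fin (k - 1) → V | ¬ ∃ i, ∃ l ∈ T i, l.toFinset = Finset.univ.image f}.ncard : ℝ) ≤
    γ * (Fintype.card V : ℝ) ^ (k - 1)

/-- **COA** (two new blocks from one old block).

PROOF.  `K = q (k!)`.  For `f` in the given set `E₀` and a good neighbour `v` choose a class `c` and a
permutation `π` of the `k` positions such that the list `(f 0, ..., f (k-2), v)` rearranged by `π` is
`EdgeIn (T c)`.  Among the at least `η t ≥ s K` good neighbours of `f` in `B i` some `s` have the same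
`(c, π)`; the same in `B j`.  So `f` gets the data `(i, j, P, c, π, P', c', π')`, `P ⊆ B i`,
`P' ⊆ B j` of size `s`; there are at most `k² 4 ^ t K²` data, so one of them occurs for a set `E` of at
least `θ / (k² 4 ^ t K²) n ^ (k-1)` tuples `f`.  ERD (`r = k - 1`, sets of size `2 s`): disjoint sets
`W 0, ..., W (k-2)` of size `2 s` with all transversals in `E`; they lie in `U`.  Split every `W l` into
two sets of size `s`; the first halves together with `P`, arranged by `π`, are a block of class `c`;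
the second halves with `P'` and `π'` another one. -/
def CoaStmt : Prop :=
  ∀ (k q t s : ℕ) (η θ : ℝ), 2 ≤ k → 0 < q → 0 < s → 0 < θ → (s * q * k.factorial : ℝ) ≤ η * t →
    ∃ n₀ : ℕ, ∀ (V : Type) [Fintype V] [DecidableEq V] (H : Finset (Finset V))
      (T : Fin q → Set (List V)), n₀ ≤ Fintype.card V → Uni H k → (∀ i, Tup k (T i)) →
      ∀ (B : Fin k → Finset V) (U : Finset V), (∀ j, (B j).card = t) →
        (∀ i j, i ≠ j → Disjoint (B i) (B j)) → (∀ j, Disjoint (B j) U) →
        θ * (Fintype.card V : ℝ) ^ (k - 1) ≤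
          ({f : Fin (k - 1) → V | (∀ l, f l ∈ U) ∧ ∃ i j, i ≠ j ∧
            η * t ≤ ((gn H k T f ∩ B i).card : ℝ) ∧
            η * t ≤ ((gn H k T f ∩ B j).card : ℝ)}.ncard : ℝ) →
        ∃ (i j : Fin k) (P P' W W' : Finset V) (C C' : Fin k → Finset V), i ≠ j ∧
          P ⊆ B i ∧ P' ⊆ B j ∧ W ⊆ U ∧ W' ⊆ U ∧ Disjoint W W' ∧ P.card = s ∧ P'.card = s ∧
          W.card = (k - 1) * s ∧ W'.card = (k - 1) * s ∧
          Block H k T s C ∧ Block H k T s C' ∧
          Finset.univ.biUnion C = P ∪ W ∧ Finset.univ.biUnion C' = P' ∪ W'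

/-- `𝓑` is a list of disjoint blocks of size `s` outside `W`. -/
def Tiling {V : Type} [Fintype V] [DecidableEq V] {q : ℕ} (H : Finset (Finset V)) (k : ℕ)
    (T : Fin q → Set (List V)) (s : ℕ) (W : Finset V) (𝓑 : List (Fin k → Finset V)) : Prop :=
  (∀ B ∈ 𝓑, Block H k T s B) ∧ (∀ B ∈ 𝓑, ∀ j, Disjoint (B j) W) ∧
    𝓑.Pairwise fun B C => ∀ i j, Disjoint (B i) (C j)

/-- **COB** (one round of the covering).  If every tiling with blocks of size `t = ℓ s` leaves more
than `ξ n` vertices uncovered then the maximal number of vertices covered by blocks of size `s` is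
larger than for blocks of size `t` by at least `δ n`, where `δ`, `ℓ` depend only on `k, q, ξ`.

PROOF.  `η = 1 / (10 k)`, `ℓ = ⌈q k! / η⌉ + 1`, `κ = min (1/(100 k)) (ξ ℓ / (16 k))`,
`δ = κ k / (2 ℓ)`, `t = ℓ s`.  Let `𝓑` be a tiling with blocks of size `t` outside `W` with the
maximal number of blocks, `U` the uncovered set outside `W`, `|U| ≥ ξ n`.  No block of size `t` lies
in `U`.  Hence (ERD for `k`-tuples, pigeonhole over classes and orderings) for every fixed `θ' > 0`
and large `n` at most `θ' n ^ k` pairs `(f, v)`, `f ∈ U^(k-1)`, `v ∈ U`, `v` good neighbour of `f`.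
Processing: go through rounds `1, .., m`, `m = ⌈κ n / t⌉`; at every round the remaining uncovered set
`U' ⊆ U` has `|U'| ≥ ξ n / 2` (each round uses `2 (k-1) s` vertices of `U`, in total
`≤ 2 k s (κ n / t + 1) ≤ ξ n / 4`).  By `P3`, for at least `(1/2)(ξ n / 2)^(k-1)` tuples
`f ∈ U'^(k-1)` the good neighbours are at least `(1/2 - γ) n` many and at most `√θ' n` of them are in
`U`, at most `n / 200` in `W`, so (`γ + √θ' ≤ 1/200`) at least `(49/100) n ≥ (49/100) k t |𝓑|` are in
the blocks (`k t |𝓑| ≤ n`); in particular `|𝓑| k t ≥ (49/100) n`.  For such `f` at least `(15/100) |𝓑|` blocks contain at least `(4/10) k t` of them (average), at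
most `m ≤ (5/100) |𝓑|` blocks have been processed (`|𝓑| k t ≥ (49/100) n`), so at least
`(1/10) |𝓑|` unprocessed ones; by double counting some unprocessed block `B` has at least
`(4/10) k t` good neighbours of `f` for at least `θ n ^ (k-1)` tuples `f ∈ U'^(k-1)`,
`θ = (1/20) (ξ/2)^(k-1)`; as `(4/10) k t > t + (k-1) η t` for `k ≥ 3`, two different parts of `B`
contain at least `η t` of them.  COA: two new blocks `C, C'` of size `s`, using `s` vertices of each
of two parts `B i, B j` and `2 (k-1) s` vertices of `U'`.  The rest of `B` contains `ℓ - 1` disjoint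
blocks of size `s` (`(ℓ - 1) s` vertices of every part).  At the end cut every unprocessed block into
`ℓ` blocks of size `s`.  Net gain per processed block: `2 k s - k s = k s`, in total
`m k s ≥ κ n k / ℓ ≥ δ n`. -/
def CobStmt : Prop :=
  ∀ (k q : ℕ) (ξ : ℝ), 3 ≤ k → 0 < q → 0 < ξ → ∃ (ℓ : ℕ) (δ γ : ℝ), 0 < ℓ ∧ 0 < δ ∧ 0 < γ ∧
    ∀ s : ℕ, 0 < s → ∃ n₀ : ℕ, ∀ (V : Type) [Fintype V] [DecidableEq V] (H : Finset (Finset V))
      (T : Fin q → Set (List V)), n₀ ≤ Fintype.card V → Uni H k → (∀ i, Tup k (T i)) →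
      P3 H k T γ → ∀ (W : Finset V), (W.card : ℝ) ≤ 1 / 200 * Fintype.card V →
      ∀ x : ℝ, (∃ 𝓑, Tiling H k T (ℓ * s) W 𝓑 ∧
          x * Fintype.card V ≤ (k * (ℓ * s) * 𝓑.length : ℝ)) →
        (∀ 𝓑, Tiling H k T (ℓ * s) W 𝓑 →
          (k * (ℓ * s) * 𝓑.length : ℝ) + W.card + ξ * Fintype.card V ≤ Fintype.card V) →
        ∃ 𝓑, Tiling H k T s W 𝓑 ∧ (x + δ) * Fintype.card V ≤ (k * s * 𝓑.length : ℝ)

/-- **COV** (covering theorem).

PROOF.  Start with `x = 0` and block size `s_R = ℓ ^ R s₀`, `R = ⌈1/δ⌉ + 1`, `s₀ = L`; apply COB for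
the sizes `ℓ ^ (R-1) s₀, ..., s₀`: as long as no tiling with blocks of the current size leaves at most
`ξ n` vertices uncovered, the guaranteed fraction grows by `δ`; it cannot exceed `1`.  So for some size
`s ≥ L` there is a tiling of all but `ξ n` vertices outside `W`.  Every block of size `s` of class `i`
is the vertex set of the segment `b_(1,1) b_(2,1) ... b_(k,1) b_(1,2) ... b_(k,s)` (`b_(j,·)` = the
elements of `B j`): every window is a rotated transversal, the first `k - 1` entries are the `take` of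
a transversal, the last `k - 1` the `drop 1` of one; it has `k s ≥ L` vertices. -/
def CovStmt : Prop :=
  ∀ (k q L : ℕ) (ξ : ℝ), 3 ≤ k → 0 < q → 0 < ξ → ∃ (γ : ℝ) (n₀ : ℕ), 0 < γ ∧
    ∀ (V : Type) [Fintype V] [DecidableEq V] (H : Finset (Finset V))
      (T : Fin q → Set (List V)), n₀ ≤ Fintype.card V → Uni H k → (∀ i, Tup k (T i)) →
      P3 H k T γ → Cov H k T (1 / 200) ξ L

/-- **ALP** (alpha theorem, abstract form): classes + crossings + one exchange class.

PROOF.  Exchange graph `S u v := μ n ^ (k-1) ≤ comm H k u v`, `μ ≤ 1/8`.  (a) `|L_u| ≥ (1/2 - o(1))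
n ^ (k-1)` for the set `L_u` of `(k-1)`-tuples forming an edge with `u`: choose all but the last entry
arbitrarily (distinct, `≠ u`), then `Dirac`.  So of three distinct vertices two are adjacent
(`3/2 - 1 = 1/2`, one of three intersections is at least `1/6 - o(1) > 1/8`).  (b) Degrees: the sum
over `v` of `comm u v` is the sum over `f ∈ L_u` of the degree of the set of `f`, at least
`(1/4 - o(1)) n ^ k`, every term is `≤ n ^ (k-1)`, so at least `n / 9` vertices `v` have
`comm u v ≥ (1/8) n ^ (k-1)`.  (c) the hypothesis on partitions; so CHN (`δ = 1/9`) gives `c₃ n³`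
chains.  (d) If `S u v`: by `P2` all but `γ n ^ (k-1)` tuples `f` have a rearrangement in some class;
the property counted by `comm` is invariant under rearrangements, a set has `(k-1)!` orderings, hence
at least `((μ - γ) / (k-1)!) n ^ (k-1)` tuples `f` counted by `comm` are in some `T i`; SWC: `Swp`.
(e) `P3` gives at least `(1/4)(1 / k!) n ^ k` tuples `f : Fin k → V` with `EdgeIn`; BLK.  (f) GDC with
(c), (d), (e): gadgets for all `k`-tuples, `ls = gadLen k`.  (g) `Rich` from the size of `T i`: at most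
`(k-1) |W| n ^ (k-2)` tuples meet `W`.  (h) ASM gives `ξ, L`; COV gives `Cov`. -/
def AlpStmt : Prop :=
  ∀ (k M q C : ℕ) (c κ μ : ℝ), 3 ≤ k → 0 < c → 0 < κ → 0 < μ → μ ≤ 1 / 8 → 0 < q →
    ∃ (γ : ℝ) (n₀ : ℕ), 0 < γ ∧
    ∀ (V : Type) [Fintype V] [DecidableEq V] (H : Finset (Finset V))
      (T : Fin q → Set (List V)) (i₀ : Fin q), n₀ ≤ Fintype.card V → Uni H k → Dirac H k →
      (∀ i, Tup k (T i)) → (∀ i, Joins H k (T i) c M) → JoinsAll H k (T i₀) c M →
      (∀ i, c * (Fintype.card V : ℝ) ^ (k - 1) ≤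
        ({f : Fin (k - 1) → V | List.ofFn f ∈ T i}.ncard : ℝ)) →
      P2 k T γ → P3 H k T γ →
      (∀ A : Set V, 1 / 18 * (Fintype.card V : ℝ) ≤ A.ncard →
        1 / 18 * (Fintype.card V : ℝ) ≤ Aᶜ.ncard → κ * (Fintype.card V : ℝ) ^ 2 ≤
          ({p : V × V | p.1 ∈ A ∧ p.2 ∉ A ∧
            μ * (Fintype.card V : ℝ) ^ (k - 1) ≤ comm H k p.1 p.2}.ncard : ℝ)) →
      Tour H k T i₀ C → Ham H k

/-! ## From states to classes of tuples -/

section
variable {V : Type} [Fintype V] [DecidableEq V]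

/-- `U` is `ε'`-closed: at most `ε' n^k` steps leave `U` and at most `ε' n^k` steps enter it. -/
def Closed (H : Finset (Finset V)) {d : ℕ} (U : Set (Sta V d)) (ε' : ℝ) : Prop :=
  ({p : Sta V d × Sta V d | p.1 ∈ U ∧ p.2 ∉ U ∧ St H p.1 p.2}.ncard : ℝ) ≤
      ε' * (Fintype.card V : ℝ) ^ (d + 2) ∧
  ({p : Sta V d × Sta V d | p.1 ∉ U ∧ p.2 ∈ U ∧ St H p.1 p.2}.ncard : ℝ) ≤
      ε' * (Fintype.card V : ℝ) ^ (d + 2)

/-- The tuples of the class `U`: injective, and good (both ways) at some time. -/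
def tups (H : Finset (Finset V)) {d : ℕ} (U : Set (Sta V d)) (c₁ : ℝ) : Set (List V) :=
  {l | ∃ (f : Fin (d + 1) → V) (t : ZMod (d + 2)), l = List.ofFn f ∧ Function.Injective f ∧
    GoodF H U c₁ (f, t) ∧ GoodB H U c₁ (f, t)}

end

/-- **TCL** (classes of tuples).  `c₁ = 2 ^ (- (d+3))`.

PROOF.  `k = d + 2`.  (a) JON with `c₁` gives `Joins` (`M`, `c`), and `JoinsAll` for `i₀`: since
`U i₀` is invariant under time shifts, `GoodF`, `GoodB` hold for all times, so every residue of the
length occurs (`t' = t + m + (d+1)`).  (b) Most states of `U` are good: call `s = (f, t) ∈ U`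
exceptional if more than half of the walks with `d + 1` steps from `s` end outside `U`.  By `Dirac`
every `(d+1)`-set has degree `≥ n/2`, so from an injective `f` there are at least
`(n/2)^(d+1)` walks with `d+1` steps.  The number of walks with at most `d + 1` steps starting in `U`
and leaving `U` at some step is at most `(d + 1) ε' n ^ (d+2) n ^ d` (choose the leaving step; at most
`n` predecessors and successors per step, `d` further steps), so at most
`(d+1) ε' 2 ^ (d+2) n ^ (d+1)` injective states `s ∈ U` are exceptional; the others satisfy `GoodF`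
with `c₁`.  The same for `GoodB` (in-degree of a state = degree of its set).  Non-injective states:
at most `(d+2)³ n ^ d`.  So all but `γ' n ^ (d+1)` states of `U i` are good, `γ'` small with `ε'`
(last conclusion); hence the size bound for `tups` (`u₀ n ^ (d+1)` states of `U i`, at most `d + 2` times).
(c) `P2`: all but `ε' n ^ (d+1)` tuples `g` have a rearrangement `f` with `(f, t)` in some `U i`; those
for which `(f, t)` is not good are at most `q (d+2) (d+1)! γ' n ^ (d+1)`.  `P3`: by hypothesis all but `ε' n ^ k` labelled edges `e` have an ordering `f` and `i`, `t` with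
`(init f, t) ∈ U i`, `(tail f, t+1) ∈ U i`.  The edges for which one of these states is not good are at
most `2 q k! γ' n ^ (d+1) n` (a bad state and one more vertex).  So for all but `γ'' n ^ k` tuples
`e : Fin k → V` with image in `H` the image is `OrdIn`; by averaging all but `√γ'' n ^ (k-1)` tuples
`f : Fin (k-1) → V` have at most `√γ'' n` neighbours `v` which are not good, so at least
`(1/2 - √γ'') n` good ones (`f` injective, `Dirac`). -/
def TclStmt : Prop :=
  ∀ (d q : ℕ) (u₀ β ε : ℝ), 1 ≤ d → 0 < q → 0 < β → 0 < ε → 2 * β < u₀ →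
    2 * β < (1 / 2 : ℝ) ^ (d + 3) →
    ∃ (M : ℕ) (c : ℝ), 0 < c ∧ ∀ γ : ℝ, 0 < γ → ∃ (ε' : ℝ) (n₀ : ℕ), 0 < ε' ∧
    ∀ (V : Type) [Fintype V] [DecidableEq V] (H : Finset (Finset V))
      (U : Fin q → Set (Sta V d)) (i₀ : Fin q), n₀ ≤ Fintype.card V → Uni H (d + 2) →
      Dirac H (d + 2) → (∀ i, u₀ * (Fintype.card V : ℝ) ^ (d + 1) ≤ (U i).ncard) →
      (∀ i, Indec H (U i) ε β) → (∀ i, Closed H (U i) ε') →
      (∀ (f : Fin (d + 1) → V) (t t' : ZMod (d + 2)), (f, t) ∈ U i₀ → (f, t') ∈ U i₀) →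
      ({g : Fin (d + 1) → V | ¬ ∃ (i : Fin q) (f : Fin (d + 1) → V) (t : ZMod (d + 2)),
          Finset.univ.image f = Finset.univ.image g ∧ (f, t) ∈ U i}.ncard : ℝ) ≤
        ε' * (Fintype.card V : ℝ) ^ (d + 1) →
      ({e : Fin (d + 2) → V | Finset.univ.image e ∈ H ∧ ¬ ∃ (i : Fin q) (f : Fin (d + 2) → V)
          (t : ZMod (d + 2)), Finset.univ.image f = Finset.univ.image e ∧
          (Fin.init f, t) ∈ U i ∧ (Fin.tail f, t + 1) ∈ U i}.ncard : ℝ) ≤
        ε' * (Fintype.card V : ℝ) ^ (d + 2) →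
      (∀ i, Tup (d + 2) (tups H (U i) ((1 / 2 : ℝ) ^ (d + 3)))) ∧
      (∀ i, Joins H (d + 2) (tups H (U i) ((1 / 2 : ℝ) ^ (d + 3))) c M) ∧
      JoinsAll H (d + 2) (tups H (U i₀) ((1 / 2 : ℝ) ^ (d + 3))) c M ∧
      (∀ i, c * (Fintype.card V : ℝ) ^ (d + 1) ≤
        ({f : Fin (d + 1) → V |
          List.ofFn f ∈ tups H (U i) ((1 / 2 : ℝ) ^ (d + 3))}.ncard : ℝ)) ∧
      P2 (d + 2) (fun i => tups H (U i) ((1 / 2 : ℝ) ^ (d + 3))) γ ∧
      P3 H (d + 2) (fun i => tups H (U i) ((1 / 2 : ℝ) ^ (d + 3))) γ ∧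
      (∀ i, ({s : Sta V d | s ∈ U i ∧
          List.ofFn s.1 ∉ tups H (U i) ((1 / 2 : ℝ) ^ (d + 3))}.ncard : ℝ) ≤
        γ * (Fintype.card V : ℝ) ^ (d + 1))

end Pool.Agent.KK
end

/-! ### KK.StmtsD -/
section
/-!
# Block D: the case tree, classes from the structure theorem, tour, interfaces

Notation in the docstrings: `n = |V|`, `k = d + 2`.  The type of a tuple or an edge is the number of
its vertices in `X`.
-/

set_option autoImplicit false

open scoped BigOperators

namespace Pool.Agent.KK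

section
variable {V : Type} [Fintype V] [DecidableEq V]

/-- Number of entries in `X`. -/
def xc (X : Finset V) {m : ℕ} (f : Fin m → V) : ℕ := (Finset.univ.filter fun i => f i ∈ X).card

/-- Number of labelled edges of type `j`. -/
noncomputable def td (H : Finset (Finset V)) (k : ℕ) (X : Finset V) (j : ℕ) : ℕ :=
  {f : Fin k → V | Finset.univ.image f ∈ H ∧ xc X f = j}.ncard

/-- The canonical states of type `s`: at the times `0, ..., s-1` (modulo `k`) vertices of `X`, at
the times `s, ..., k-1` vertices outside `X`. -/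
def can (X : Finset V) (d s : ℕ) : Set (Sta V d) :=
  {z | ∀ i : Fin (d + 1), (z.1 i ∈ X ↔ (z.2 + ((i : ℕ) : ZMod (d + 2))).val < s)}

/-- The class of the run of types `a, ..., b`: all states with tuples of the types
`a - 1, ..., b` if `a < b`, the canonical ones if `a = b`. -/
def cls (X : Finset V) (d a b : ℕ) : Set (Sta V d) :=
  if a = b then can X d a else {z | a ≤ xc X z.1 + 1 ∧ xc X z.1 ≤ b}

/-- The structure in case (II): the vertex partition `X, V \ X` and the runs of types
`a i, ..., b i`, `i < q`; between two runs exactly one missing type. -/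
structure Struc (H : Finset (Finset V)) (d : ℕ) (X : Finset V) (q : ℕ) (a b : ℕ → ℕ)
    (μ γ : ℝ) : Prop where
  two_le : 2 ≤ q
  first : a 0 ≤ 1
  le : ∀ i < q, a i ≤ b i
  gap : ∀ i, i + 1 < q → a (i + 1) = b i + 2
  last1 : d + 1 ≤ b (q - 1)
  last2 : b (q - 1) ≤ d + 2
  bal : |(X.card : ℝ) - Fintype.card V / 2| ≤ γ * Fintype.card V
  miss : ∀ j ≤ d + 2, (∀ i < q, ¬ (a i ≤ j ∧ j ≤ b i)) →
    (td H (d + 2) X j : ℝ) ≤ γ * (Fintype.card V : ℝ) ^ (d + 2)
  pres : ∀ i < q, ∀ j, a i ≤ j → j ≤ b i →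
    μ * (Fintype.card V : ℝ) ^ (d + 2) ≤ (td H (d + 2) X j : ℝ)

/-- The exchange condition: across every partition into two parts of size `≥ n / 18` there are at
least `κ n²` pairs of vertices with at least `μ n^(k-1)` common link tuples. -/
def Exch (H : Finset (Finset V)) (k : ℕ) (μ κ : ℝ) : Prop :=
  ∀ A : Set V, 1 / 18 * (Fintype.card V : ℝ) ≤ A.ncard →
    1 / 18 * (Fintype.card V : ℝ) ≤ Aᶜ.ncard → κ * (Fintype.card V : ℝ) ^ 2 ≤
      ({p : V × V | p.1 ∈ A ∧ p.2 ∉ A ∧
        μ * (Fintype.card V : ℝ) ^ (k - 1) ≤ comm H k p.1 p.2}.ncard : ℝ)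

/-- `H` is `η`-close to the parity hypergraph of `(A, V \ A)` with residue `p`, and both parts are
large. -/
def NearPar (H : Finset (Finset V)) (k : ℕ) (A : Finset V) (p : ℕ) (η : ℝ) : Prop :=
  (Fintype.card V : ℝ) / 18 ≤ A.card ∧ (Fintype.card V : ℝ) / 18 ≤ Aᶜ.card ∧
  ({f : Fin k → V | Function.Injective f ∧
    ¬ (Finset.univ.image f ∈ H ↔ xc A f % 2 = p % 2)}.ncard : ℝ) ≤ η * (Fintype.card V : ℝ) ^ k

/-- Supply of crossings from `S` to `T`: either outside every set of `C` vertices, or there are at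
least `k` vertices `z` such that outside every set of `C` vertices not containing `z` there is
one. -/
def Cross (H : Finset (Finset V)) (k : ℕ) (S T : Set (List V)) (C₀ C : ℕ) : Prop :=
  (∀ W : Finset V, W.card ≤ C → ∃ p, Seg H k S T p ∧ p.length ≤ C₀ ∧ ∀ v ∈ p, v ∉ W) ∨
  ∃ Z : Finset V, k ≤ Z.card ∧ ∀ z ∈ Z, ∀ W : Finset V, W.card ≤ C → z ∉ W →
    ∃ p, Seg H k S T p ∧ p.length ≤ C₀ ∧ ∀ v ∈ p, v ∉ W

end

/-! ## The five interfaces -/

/-- **STR** (structure theorem, block B, helper80).  `e` is a fixed function; after that for every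
function `g` there is a finite set of scales `S` such that every `H` has, for some scale
`μ ∈ S`, either all states as one indecomposable class, or a structure whose missing types have
density at most `g μ` while all classes are indecomposable with constant `e μ`. -/
def StrStmt : Prop :=
  ∀ (d : ℕ) (β : ℝ), 1 ≤ d → 0 < β → ∃ e : ℝ → ℝ, (∀ x, 0 < x → 0 < e x) ∧
    ∀ g : ℝ → ℝ, (∀ x, 0 < x → 0 < g x) →
    ∃ (S : Finset ℝ) (n₀ : ℕ), (∀ x ∈ S, 0 < x) ∧
    ∀ (V : Type) [Fintype V] [DecidableEq V] (H : Finset (Finset V)),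
      n₀ ≤ Fintype.card V → Uni H (d + 2) → Dirac H (d + 2) →
      ∃ μ ∈ S, Indec H (Set.univ : Set (Sta V d)) (e μ) β ∨
        ∃ (X : Finset V) (q : ℕ) (a b : ℕ → ℕ), Struc H d X q a b μ (g μ) ∧
          ∀ i < q, Indec H (cls X d (a i) (b i)) (e μ) β

/-- **CRS** (crossings at the gap `j`, block E, helper68): from the tuples of type next below the
gap (almost all canonical states of type `j - 1` have their tuple in `S`) to those next above it
(type `j + 1`, `T`).  The crossing in the other direction is the same statement for `Xᶜ`, `k - j`.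
`C₀` depends only on `d`. -/
def CrsStmt : Prop :=
  ∀ d : ℕ, 1 ≤ d → ∃ C₀ : ℕ, ∀ C : ℕ, ∃ (γ : ℝ) (n₀ : ℕ), 0 < γ ∧
    ∀ (V : Type) [Fintype V] [DecidableEq V] (H : Finset (Finset V)) (X : Finset V) (j : ℕ)
      (S T : Set (List V)), n₀ ≤ Fintype.card V → Uni H (d + 2) → Dirac H (d + 2) →
      1 ≤ j → j ≤ d + 1 → |(X.card : ℝ) - Fintype.card V / 2| ≤ γ * Fintype.card V →
      (td H (d + 2) X j : ℝ) ≤ γ * (Fintype.card V : ℝ) ^ (d + 2) →
      ({z : Sta V d | z ∈ can X d (j - 1) ∧ List.ofFn z.1 ∉ S}.ncard : ℝ) ≤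
        γ * (Fintype.card V : ℝ) ^ (d + 1) →
      ({z : Sta V d | z ∈ can X d (j + 1) ∧ List.ofFn z.1 ∉ T}.ncard : ℝ) ≤
        γ * (Fintype.card V : ℝ) ^ (d + 1) →
      Cross H (d + 2) S T C₀ C

/-- **BET** (beta theorem, helper5 and helper13). -/
def BetStmt : Prop :=
  ∀ k : ℕ, 3 ≤ k → ∃ (η : ℝ) (n₀ : ℕ), 0 < η ∧
    ∀ (V : Type) [Fintype V] [DecidableEq V] (H : Finset (Finset V)) (A : Finset V) (p : ℕ),
      n₀ ≤ Fintype.card V → Uni H k → Dirac H k → NearPar H k A p η → Ham H k

/-- **DIC** (exchange dichotomy).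

PROOF.  Let `μ ≤ 1/8` and `κ` be small, and let `A` violate `Exch`: `|A|, |Aᶜ| ≥ n / 18` and less
than `κ n²` pairs `(u, v)`, `u ∈ A`, `v ∉ A` (call them exchange pairs) have
`comm u v ≥ μ n^(k-1)`.  `L_u` = set of `f : Fin (k-1) → V` with `u ∉ image f` and
`insert u (image f) ∈ H`.  For large `n`, `|L_u| ≥ (1/2 - μ) n^(k-1)`: choose all but the last entry
distinct and `≠ u` (all but `k² n^(k-3)` of the `n^(k-2)` choices), then `Dirac`.  If `(u, v)` is not
an exchange pair then `|L_u ∩ L_v| ≤ μ n^(k-1)`, hence at most `3 μ n^(k-1)` tuples are in neither,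
so `L_v` and the complement of `L_u` differ in at most `4 μ n^(k-1)` tuples.
Choose `v₀ ∉ A` with at most `18 κ n` exchange pairs `(u, v₀)` (average).  Choose `u₀ ∈ A` with
`(u₀, v₀)` not an exchange pair and at most `36 κ n` exchange pairs `(u₀, v)` (at most
`κ n² / (36 κ n) = n / 36` vertices `u₀` violate the second, `18 κ n` the first, fewer than `n / 18`
together).  Let `L` be the complement of `L_(v₀)`.  For all `u ∈ A` but `18 κ n`:
`|L_u Δ L| ≤ 4 μ n^(k-1)`.  For all `v ∉ A` but `36 κ n`: `L_v` differs from the complement of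
`L_(u₀)` in at most `4 μ n^(k-1)` tuples, so from the complement of `L` in at most `8 μ n^(k-1)`.
Let `h(x) = 1` if the image of `x : Fin k → V` is in `H`, `α(v) = 1` if `v ∉ A`, `l(f) = 1` if
`f ∈ L`, all modulo 2.  So `h(x) = l(x without x 0) + α (x 0)` for all but `δ n^k` tuples `x`,
`δ = 8 μ + 54 κ`.  `h' = h + ∑_j α (x j)`: if `x, y` differ only in coordinate `0` then
`h'(x) = h'(y)`, except for `2 δ n^(k+1)` pairs; by symmetry of `h` the same for every coordinate `j`.
Changing the coordinates one by one: `h'(x) = h'(y)` for all but `2 k δ n^(2k)` pairs `(x, y)` of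
tuples (the pair in step `j` is a function of `(x, y)` with all fibres of size `n^(k-1)`).  Choose `y`
with at most `2 k δ n^k` exceptions `x`: `h(x) = ∑_j α (x j) + const = k - xc A x + const`.  So
`η = 2 k δ`. -/
def DicStmt : Prop :=
  ∀ (k : ℕ) (η : ℝ), 3 ≤ k → 0 < η → ∃ (μ κ : ℝ) (n₀ : ℕ), 0 < μ ∧ μ ≤ 1 / 8 ∧ 0 < κ ∧
    ∀ (V : Type) [Fintype V] [DecidableEq V] (H : Finset (Finset V)),
      n₀ ≤ Fintype.card V → Uni H k → Dirac H k → Exch H k μ κ ∨
        ∃ (A : Finset V) (p : ℕ), NearPar H k A p η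

/-! ## Classes from the structure -/

/-- **CLO** (classes are closed).

PROOF.  A step `s → t` is given by the tuple `(s.1, v)` (a labelled edge) and the time of `s`.  Claim:
if `s ∈ cls` and `t ∉ cls`, or `s ∉ cls` and `t ∈ cls` (`cls X d (a i) (b i)`), the type `j` of the
edge is missing; then there are at most `(d + 2)` times and `(d + 3) γ n^(d+2)` labelled edges.
Case `a i < b i`: if `a i ≤ j ≤ b i` then both tuples have a type in `{j - 1, j}`, so both are in the
class.  One of the tuples is in the class, so `a i - 1 ≤ j ≤ b i + 1`.  So if `j` is not in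
`[a i, b i]`, then `j = a i - 1` (`a i ≥ 1`) or `j = b i + 1 ≤ d + 2`; these types are missing (`first`,
`gap`, `last1`; the runs are increasing).  Case `a i = b i = m` (canonical): the letters at all
`d + 1` times of the tuple in the class are canonical; the remaining vertex of the edge is at the
remaining time; if its letter is the canonical one then the other tuple is also in the class;
otherwise the type is `m - 1` or `m + 1`, which is missing as before. -/
def CloStmt : Prop :=
  ∀ (d : ℕ) (V : Type) [Fintype V] [DecidableEq V] (H : Finset (Finset V)) (X : Finset V)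
    (q : ℕ) (a b : ℕ → ℕ) (μ γ : ℝ), Uni H (d + 2) → 0 ≤ γ → Struc H d X q a b μ γ →
    ∀ i < q, Closed H (cls X d (a i) (b i)) ((d + 2) * (d + 3) * γ)

/-- **CVR** (the classes cover all tuples and all edges of present types; sizes).

PROOF.  (1) The intervals `[a i - 1, b i]`, `i < q`, cut with `[0, d + 1]`, are a partition of
`[0, d + 1]`.  Let `g` have type `m`, `a i ≤ m + 1`, `m ≤ b i`.  If `a i < b i`: `(g, 0)` is in the
class.  If `a i = b i = s` then `m = s` or `m + 1 = s`; let `f` be the rearrangement of `g` with the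
entries in `X` first; `m = s`: `(f, 0)` is canonical; `m + 1 = s`: `(f, 1)` is canonical (the times are
`1, ..., d + 1`).  (2) `e` a labelled edge of type `j`, `a i ≤ j ≤ b i`.  If `a i < b i` take `f = e`
(`init`, `tail` have type `j - 1` or `j`).  If `a i = b i = j`: `f` = rearrangement with the entries in
`X` first, `t = 0`: the entry at position (= time) `l` is in `X` iff `l < j`.  So only edges of missing
types are counted: `(d + 3) γ n^(d+2)`.  (3) `|X|, |Xᶜ| ≥ n / 3`, so there are at least `(n / 3)^(d+1)`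
tuples with any prescribed letters; `a i = b i`: the canonical letters at time `0`; `a i < b i`: a
word of weight `m = min (b i) (d + 1)`.  (4) `can X d s ⊆ cls X d a b` for `a ≤ s ≤ b`, `s ≤ d + 2`: a canonical
tuple of type `s` has `s` or `s - 1` entries in `X`.  (5) classes `a < b` do not depend on the time;
`can X d 0` = all tuples outside `X`, `can X d (d + 2)` = all tuples inside `X`. -/
def CvrStmt : Prop :=
  (∀ (d : ℕ) (V : Type) [Fintype V] [DecidableEq V] (H : Finset (Finset V)) (X : Finset V)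
    (q : ℕ) (a b : ℕ → ℕ) (μ γ : ℝ), Uni H (d + 2) → 0 ≤ γ → γ ≤ 1 / 6 →
    Struc H d X q a b μ γ →
    (∀ g : Fin (d + 1) → V, ∃ i < q, ∃ (f : Fin (d + 1) → V) (t : ZMod (d + 2)),
      Finset.univ.image f = Finset.univ.image g ∧ (f, t) ∈ cls X d (a i) (b i)) ∧
    ({e : Fin (d + 2) → V | Finset.univ.image e ∈ H ∧ ¬ ∃ i < q, ∃ (f : Fin (d + 2) → V)
        (t : ZMod (d + 2)), Finset.univ.image f = Finset.univ.image e ∧
        (Fin.init f, t) ∈ cls X d (a i) (b i) ∧ (Fin.tail f, t + 1) ∈ cls X d (a i) (b i)}.ncard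
        : ℝ) ≤ (d + 3) * γ * (Fintype.card V : ℝ) ^ (d + 2) ∧
    ∀ i < q, (1 / 3 : ℝ) ^ (d + 1) * (Fintype.card V : ℝ) ^ (d + 1) ≤
      (cls X d (a i) (b i)).ncard) ∧
  (∀ (d : ℕ) (V : Type) [Fintype V] [DecidableEq V] (X : Finset V) (a b s : ℕ),
    a ≤ s → s ≤ b → s ≤ d + 2 → can X d s ⊆ cls X d a b) ∧
  (∀ (d : ℕ) (V : Type) [Fintype V] [DecidableEq V] (X : Finset V) (a b : ℕ),
    (a < b ∨ b = 0 ∨ a = d + 2) → a ≤ b → ∀ (f : Fin (d + 1) → V) (t t' : ZMod (d + 2)),
      (f, t) ∈ cls X d a b → (f, t') ∈ cls X d a b)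

/-- **TIM** (a class which is invariant under time shifts).

PROOF.  Suppose that all runs are single types, `a 0 = 1` and `b (q-1) = d + 1`.  Then (`gap`)
`a i = 2 i + 1`, so exactly the odd types are present and all even types `≤ d + 2` are missing.  For
`u ∈ X`, `v ∉ X` and `f` counted by `comm u v` the tuples `(u, f)` and `(v, f)` are labelled edges of
consecutive types, so one of them has a missing type.  So the number of triples `(u, v, f)` is at most
`2 (d + 3) γ n^(d+2) · n`.  By `Exch` for `A = X` (`|X|, |Xᶜ| ≥ n / 18` by `bal`) it is at least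
`κ n² · μ' n^(d+1)`.  Contradiction. -/
def TimStmt : Prop :=
  ∀ (d : ℕ) (V : Type) [Fintype V] [DecidableEq V] (H : Finset (Finset V)) (X : Finset V)
    (q : ℕ) (a b : ℕ → ℕ) (μ γ μ' κ : ℝ), 0 < Fintype.card V → Uni H (d + 2) → 0 ≤ γ →
    γ ≤ 1 / 6 → 2 * (d + 3) * γ < κ * μ' → 0 < μ' → Struc H d X q a b μ γ → Exch H (d + 2) μ' κ →
    ∃ i < q, a i < b i ∨ b i = 0 ∨ a i = d + 2

/-- **CSY** (crossing downwards).

PROOF.  `CrsStmt` for `Xᶜ` and `d + 2 - j`: `td H (d+2) Xᶜ (d + 2 - j) = td H (d+2) X j`,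
`|Xᶜ| - n / 2 = n / 2 - |X|`; `(c, t) ∈ can Xᶜ d (d + 2 - s)` iff `(c, t + (d + 2 - s)) ∈ can X d s`
hence the same tuples, and the same number of states (`s = j + 1` and `s = j - 1`). -/
def CsyStmt : Prop :=
  ∀ (d C₀ C n₀ : ℕ) (γ : ℝ),
    (∀ (V : Type) [Fintype V] [DecidableEq V] (H : Finset (Finset V)) (X : Finset V) (j : ℕ)
      (S T : Set (List V)), n₀ ≤ Fintype.card V → Uni H (d + 2) → Dirac H (d + 2) →
      1 ≤ j → j ≤ d + 1 → |(X.card : ℝ) - Fintype.card V / 2| ≤ γ * Fintype.card V →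
      (td H (d + 2) X j : ℝ) ≤ γ * (Fintype.card V : ℝ) ^ (d + 2) →
      ({z : Sta V d | z ∈ can X d (j - 1) ∧ List.ofFn z.1 ∉ S}.ncard : ℝ) ≤
        γ * (Fintype.card V : ℝ) ^ (d + 1) →
      ({z : Sta V d | z ∈ can X d (j + 1) ∧ List.ofFn z.1 ∉ T}.ncard : ℝ) ≤
        γ * (Fintype.card V : ℝ) ^ (d + 1) →
      Cross H (d + 2) S T C₀ C) →
    ∀ (V : Type) [Fintype V] [DecidableEq V] (H : Finset (Finset V)) (X : Finset V) (j : ℕ)
      (S T : Set (List V)), n₀ ≤ Fintype.card V → Uni H (d + 2) → Dirac H (d + 2) →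
      1 ≤ j → j ≤ d + 1 → |(X.card : ℝ) - Fintype.card V / 2| ≤ γ * Fintype.card V →
      (td H (d + 2) X j : ℝ) ≤ γ * (Fintype.card V : ℝ) ^ (d + 2) →
      ({z : Sta V d | z ∈ can X d (j - 1) ∧ List.ofFn z.1 ∉ S}.ncard : ℝ) ≤
        γ * (Fintype.card V : ℝ) ^ (d + 1) →
      ({z : Sta V d | z ∈ can X d (j + 1) ∧ List.ofFn z.1 ∉ T}.ncard : ℝ) ≤
        γ * (Fintype.card V : ℝ) ^ (d + 1) →
      Cross H (d + 2) T S C₀ C

/-- **TOU** (tour from crossings).

PROOF.  The classes in the order `i₀, i₀ + 1, ..., q - 1, q - 2, ..., 0, 1, ..., i₀`: `t = 2 (q - 1)`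
steps between neighbouring classes.  For every step `l` of the second kind (set `Z l`) choose
`z l ∈ Z l`, all distinct: `|Z l| ≥ k ≥ t`.  Let `R` be the set of these `z l`.  Choose the paths `x l`
one after the other, avoiding `W = (R \ {z l}) ∪ (vertices of the earlier paths)`,
`|W| ≤ k + k C₀ ≤ C`; `z l ∉ W` because the earlier paths avoid `z l`. -/
def TouStmt : Prop :=
  ∀ (k q C₀ C : ℕ) (V : Type) [Fintype V] [DecidableEq V] (H : Finset (Finset V))
    (T : Fin q → Set (List V)) (i₀ : Fin q), 2 * (q - 1) ≤ k → k * C₀ + k ≤ C →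
    (∀ i j : Fin q, (i : ℕ) + 1 = j ∨ (j : ℕ) + 1 = i → Cross H k (T i) (T j) C₀ C) →
    Tour H k T i₀ (k * C₀)

/-- Alpha: the exchange condition gives a tight Hamilton cycle. -/
def AlphaStmt : Prop :=
  ∀ (k : ℕ) (μ κ : ℝ), 3 ≤ k → 0 < μ → μ ≤ 1 / 8 → 0 < κ → ∃ n₀ : ℕ,
    ∀ (V : Type) [Fintype V] [DecidableEq V] (H : Finset (Finset V)),
      n₀ ≤ Fintype.card V → Uni H k → Dirac H k → Exch H k μ κ → Ham H k

/-- **ALF** (assembly of alpha): `AlphaStmt` from
`StrStmt, CrsStmt, AlpStmt, TclStmt, CloStmt, CvrStmt, TimStmt, CsyStmt, TouStmt`.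

PROOF.  `d = k - 2`, `β = (1/3)^(d+4)`, `u₀ = (1/3)^(d+1)`, `c₁ = (1/2)^(d+3)`, so `2 β < u₀, c₁`.
`STR` gives `e`.  For `x > 0`, `1 ≤ q ≤ d + 3`: `TCL` (`ε = e x`) gives `M, c`; `CRS` gives `C₀` and, for
`C = k C₀ + k`, constants `γ_C, n_C`; `ALP` with `M, q, C := k C₀, c' = min c .., κ, μ` gives `γ_A, n_A`;
`TCL` with `γ = min γ_A γ_C` gives `ε', n_T`.  `g x` = minimum over `q` of `γ_C`, `1/6`,
`ε' / ((d+2)(d+3))` and `κ μ / (4 (d + 3))` (for `CLO`, `CVR`, `TIM`).  `STR` gives `S, n_S`; `n₀` =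
maximum of `n_S`, `n_C` and of `n_A, n_T` over `x ∈ S`, `q`.  Given `H`: `x ∈ S`.
CASE 1 (all states indecomposable): `q = 1`, `U 0 = univ`: size `(d+2) n^(d+1)`, closed, invariant,
nothing uncovered (`f = g`, `f = e`, `t = 0`); `TCL`; `TOU` with `q = 1`; `ALP`.
CASE 2: `q` runs, `2 (q - 1) ≤ k` (as `a (i+1) ≥ a i + 2`, `b (q-1) ≤ k`), `U i = cls X d (a i) (b i)`;
`CLO`, `CVR`, `TIM` give the hypotheses of `TCL`; `T i = tups H (U i) c₁`.  For the gap
`j = b i + 1`, `1 ≤ j ≤ d + 1`, missing: `can X d (j - 1) ⊆ U i`, `can X d (j + 1) ⊆ U (i + 1)`, so by the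
last conclusion of `TCL` the hypotheses of `CRS` and `CSY` hold (`S = T i`, `T = T (i+1)`): `Cross` in
both directions.  `TOU`: `Tour`.  `ALP`: `Ham`. -/
def AlfStmt : Prop :=
  StrStmt → CrsStmt → AlpStmt → TclStmt → CloStmt → CvrStmt → TimStmt → CsyStmt → TouStmt →
    AlphaStmt

/-- Glue of the two cases. -/
theorem main_of (hA : AlphaStmt) (hB : BetStmt) (hD : DicStmt) : Main := by
  intro k hk
  obtain ⟨η, n₁, hη, hβ⟩ := hB k hk
  obtain ⟨μ, κ, n₂, hμ, hμ8, hκ, hdic⟩ := hD k η hk hη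
  obtain ⟨n₃, hα⟩ := hA k μ κ hk hμ hμ8 hκ
  refine ⟨max n₁ (max n₂ n₃), ?_⟩
  intro V _ _ H hn hU hDi
  rcases hdic V H (le_trans (le_trans (le_max_left _ _) (le_max_right _ _)) hn) hU hDi with h | h
  · exact hα V H (le_trans (le_trans (le_max_right _ _) (le_max_right _ _)) hn) hU hDi h
  · obtain ⟨A, p, hA'⟩ := h
    exact hβ V H A p (le_trans (le_max_left _ _) hn) hU hDi hA'

end Pool.Agent.KK
end

/-! ### KK.BDefs -/
section
/-! MP_747bc0_co, block B (structure of nearly closed systems of states). Definitions.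

Everything is about labelled tuples `a : Fin k → V`, `V` a finite type. A system of states is
`D : Fin k → (Fin k → V) → Prop`, where `D i a` does not depend on the coordinate `a i`
(`Indep D`): `D i` is a set of `(k-1)`-tuples whose missing label is `i`. `E` is the set of
labelled edges (symmetric), `Deg E`: every line contains at least one half edges. -/

namespace Pool.Agent.KK.B

open Function
open scoped Classical

/-- the density of a predicate on a finite type -/
noncomputable def dens {α : Type*} [Fintype α] (P : α → Prop) : ℝ :=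
  ((Finset.univ.filter P).card : ℝ) / (Fintype.card α : ℝ)

variable {k : ℕ} {V : Type} [Fintype V]

/-- `D i` does not depend on the coordinate `i` -/
def Indep (D : Fin k → (Fin k → V) → Prop) : Prop :=
  ∀ (i : Fin k) (a : Fin k → V) (v : V), D i (update a i v) ↔ D i a

/-- `E` is symmetric under permutations of the labels -/
def Symm (E : (Fin k → V) → Prop) : Prop :=
  ∀ (σ : Equiv.Perm (Fin k)) (a : Fin k → V), E (a ∘ σ) ↔ E a

/-- every line contains at least one half edges -/
def Deg (E : (Fin k → V) → Prop) : Prop :=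
  ∀ (a : Fin k → V) (i : Fin k), (1 / 2 : ℝ) ≤ dens (fun v => E (update a i v))

/-- the `k` states of the tuple `e` have the same `D`-value -/
def Mono (D : Fin k → (Fin k → V) → Prop) (e : Fin k → V) : Prop := ∀ i j : Fin k, D i e ↔ D j e

/-- `D` is `ε`-closed: at most `ε n^k` labelled edges are not monochromatic -/
def Closed (E : (Fin k → V) → Prop) (ε : ℝ) (D : Fin k → (Fin k → V) → Prop) : Prop :=
  dens (fun e => E e ∧ ¬ Mono D e) ≤ ε

/-- the symmetric difference of `A` and `B` has density at most `κ` -/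
def near (κ : ℝ) (A B : V → Prop) : Prop := dens (fun v => ¬ (A v ↔ B v)) ≤ κ

/-- `A` is `κ`-near to `B` or to the complement of `B` -/
def pm (κ : ℝ) (A B : V → Prop) : Prop := near κ A B ∨ near κ A (fun v => ¬ B v)

/-- the neighbourhood of the state `(i, a)` -/
def nb (E : (Fin k → V) → Prop) (a : Fin k → V) (i : Fin k) : V → Prop := fun q => E (update a i q)

/-- the state `(i, a)` is good (with respect to the direction `l`) -/
def stG (E : (Fin k → V) → Prop) (D : Fin k → (Fin k → V) → Prop) (β : ℝ) (a : Fin k → V)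
    (i l : Fin k) : Prop :=
  dens (fun q => E (update a i q) ∧ ¬ (D i a ↔ D l (update a i q))) ≤ β

/-- the plane through `a` with directions `i, l` is good -/
def plG (E : (Fin k → V) → Prop) (D : Fin k → (Fin k → V) → Prop) (β : ℝ) (a : Fin k → V)
    (i l : Fin k) : Prop :=
  dens (fun x : V × V => E (update (update a l x.1) i x.2) ∧
    ¬ (D i (update a l x.1) ↔ D l (update a i x.2))) ≤ β ^ 2

/-- the point `a` is typical on its line of direction `m`, for `D i` -/
def lnG (D : Fin k → (Fin k → V) → Prop) (β : ℝ) (a : Fin k → V) (i m : Fin k) : Prop :=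
  (dens (fun z => ¬ D i (update a m z)) ≤ β → D i a) ∧
    (dens (fun z => D i (update a m z)) ≤ β → ¬ D i a)

/-- the good points -/
def G0 (E : (Fin k → V) → Prop) (D : Fin k → (Fin k → V) → Prop) (β : ℝ) (a : Fin k → V) : Prop :=
  ∀ (σ : Equiv.Perm (Fin k)) (i l : Fin k), i ≠ l →
    stG E D β (a ∘ σ) i l ∧ plG E D β (a ∘ σ) i l ∧ lnG D β (a ∘ σ) i l

/-- the plane through `a` with directions `i, l` is split by `D` -/
def Sp (D : Fin k → (Fin k → V) → Prop) (a : Fin k → V) (i l : Fin k) : Prop :=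
  (1 / 4 : ℝ) ≤ dens (fun p => D i (update a l p)) ∧ dens (fun p => D i (update a l p)) ≤ 3 / 4

/-- some labelling of the plane through `a` with free labels `i0, i1` is split -/
def SS (D : Fin k → (Fin k → V) → Prop) (i0 i1 : Fin k) (a : Fin k → V) : Prop :=
  ∃ σ : Equiv.Perm (Fin k), Sp D (a ∘ σ) (σ.symm i0) (σ.symm i1)

/-- iterated typicality: `lev δ G (s+1) a` says `lev δ G s a` and for every label `m` at most a
`δ`-fraction of the points of the line of direction `m` through `a` is not in `lev δ G s` -/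
def lev (δ : ℝ) (G : (Fin k → V) → Prop) : ℕ → (Fin k → V) → Prop
  | 0 => G
  | s + 1 => fun a => lev δ G s a ∧ ∀ m : Fin k, dens (fun z => ¬ lev δ G s (update a m z)) ≤ δ

/-- every line through `a` is, for every `D i`, nearly constant or nearly `± X` -/
def LineDet (κ : ℝ) (X : V → Prop) (D : Fin k → (Fin k → V) → Prop) (a : Fin k → V) : Prop :=
  ∀ i l : Fin k, i ≠ l → dens (fun z => D i (update a l z)) ≤ κ ∨
    dens (fun z => ¬ D i (update a l z)) ≤ κ ∨ pm κ (fun z => D i (update a l z)) X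

/-- the word of `a` with respect to `X` is `W` -/
def wd (X : V → Prop) (W : Fin k → Bool) (a : Fin k → V) : Prop := ∀ l, (X (a l) ↔ W l = true)

/-- the type of `a`: the number of coordinates in `X` -/
noncomputable def typ (X : V → Prop) (a : Fin k → V) : ℕ :=
  (Finset.univ.filter (fun l : Fin k => X (a l))).card

/-- the type of a word -/
def wt (W : Fin k → Bool) : ℕ := (Finset.univ.filter (fun l : Fin k => W l = true)).card

/-- `D` is determined by words up to `ν` -/
def WDet (ν : ℝ) (X : V → Prop) (D : Fin k → (Fin k → V) → Prop) : Prop :=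
  ∀ (i : Fin k) (W : Fin k → Bool), dens (fun a => D i a ∧ wd X W a) ≤ ν ∨
    dens (fun a => ¬ D i a ∧ wd X W a) ≤ ν

/-- `D` is trivial up to `ν` -/
def Triv (ν : ℝ) (D : Fin k → (Fin k → V) → Prop) : Prop :=
  (∀ i, dens (D i) ≤ ν) ∨ (∀ i, dens (fun a => ¬ D i a) ≤ ν)

/-- the density of the labelled edges of type `j` -/
noncomputable def tden (E : (Fin k → V) → Prop) (X : V → Prop) (j : ℕ) : ℝ :=
  dens (fun e => E e ∧ typ X e = j)

/-- the majority value of `D i` on the word `W` -/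
def maj (D : Fin k → (Fin k → V) → Prop) (X : V → Prop) (i : Fin k) (W : Fin k → Bool) : Prop :=
  dens (fun a => ¬ D i a ∧ wd X W a) ≤ dens (fun a => D i a ∧ wd X W a)

end Pool.Agent.KK.B
end

/-! ### KK.BBasic -/
section
/-! MP_747bc0_co, block B: basic facts about `dens` (all proved). -/

namespace Pool.Agent.KK.B

open Function
open scoped Classical

section general

variable {α β γ : Type*} [Fintype α] [Fintype β] [Fintype γ]

theorem dens_eq (P : α → Prop) [DecidablePred P] :
    dens P = ((Finset.univ.filter P).card : ℝ) / (Fintype.card α : ℝ) := by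
  unfold dens
  congr 2
  refine congrArg Finset.card ?_
  ext a
  simp only [Finset.mem_filter]

theorem dens_nonneg (P : α → Prop) : 0 ≤ dens P := by
  unfold dens; positivity

theorem dens_le_one (P : α → Prop) : dens P ≤ 1 := by
  unfold dens
  apply div_le_one_of_le₀ _ (by positivity)
  exact_mod_cast Finset.card_le_univ _

theorem dens_mono {P Q : α → Prop} (h : ∀ a, P a → Q a) : dens P ≤ dens Q := by
  unfold dens
  apply div_le_div_of_nonneg_right _ (by positivity)
  have h1 : Finset.univ.filter P ⊆ Finset.univ.filter Q := by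
    intro a ha
    rw [Finset.mem_filter] at ha ⊢
    exact ⟨ha.1, h a ha.2⟩
  exact_mod_cast Finset.card_le_card h1

theorem dens_congr {P Q : α → Prop} (h : ∀ a, P a ↔ Q a) : dens P = dens Q :=
  le_antisymm (dens_mono fun a => (h a).1) (dens_mono fun a => (h a).2)

theorem dens_or_le (P Q : α → Prop) : dens (fun a => P a ∨ Q a) ≤ dens P + dens Q := by
  rw [dens_eq P, dens_eq Q, dens_eq (fun a => P a ∨ Q a)]
  rw [← add_div]
  apply div_le_div_of_nonneg_right _ (by positivity)
  have h1 : Finset.univ.filter (fun a => P a ∨ Q a) ⊆ Finset.univ.filter P ∪ Finset.univ.filter Q := by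
    intro a ha
    rw [Finset.mem_union, Finset.mem_filter, Finset.mem_filter]
    rw [Finset.mem_filter] at ha
    rcases ha.2 with h | h
    · exact Or.inl ⟨ha.1, h⟩
    · exact Or.inr ⟨ha.1, h⟩
  exact_mod_cast (Finset.card_le_card h1).trans (Finset.card_union_le _ _)

/-- finite union bound -/
theorem dens_exists_le {ι : Type*} [Fintype ι] (P : ι → α → Prop) :
    dens (fun a => ∃ i, P i a) ≤ ∑ i, dens (P i) := by
  rw [dens_eq (fun a => ∃ i, P i a)]
  unfold dens
  rw [← Finset.sum_div]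
  apply div_le_div_of_nonneg_right _ (by positivity)
  have h : Finset.univ.filter (fun a => ∃ i, P i a) ⊆
      Finset.univ.biUnion (fun i => Finset.univ.filter (P i)) := by
    intro a ha
    rw [Finset.mem_filter] at ha
    obtain ⟨i, hi⟩ := ha.2
    exact Finset.mem_biUnion.2 ⟨i, Finset.mem_univ _, Finset.mem_filter.2 ⟨ha.1, hi⟩⟩
  exact_mod_cast (Finset.card_le_card h).trans Finset.card_biUnion_le

theorem dens_split (P Q : α → Prop) : dens P = dens (fun a => P a ∧ Q a) + dens (fun a => P a ∧ ¬ Q a) := by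
  rw [dens_eq P, dens_eq (fun a => P a ∧ Q a), dens_eq (fun a => P a ∧ ¬ Q a)]
  rw [← add_div]
  congr 1
  have h1 : Finset.univ.filter (fun a => P a ∧ Q a) = (Finset.univ.filter P).filter Q := by
    ext a; simp
  have h2 : Finset.univ.filter (fun a => P a ∧ ¬ Q a) = (Finset.univ.filter P).filter (fun a => ¬ Q a) := by
    ext a; simp
  rw [h1, h2]
  exact_mod_cast (Finset.card_filter_add_card_filter_not (s := Finset.univ.filter P) Q).symm

theorem dens_true [Nonempty α] : dens (fun _ : α => True) = 1 := by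
  unfold dens
  rw [Finset.filter_true]
  have : (Fintype.card α : ℝ) ≠ 0 := by exact_mod_cast Fintype.card_ne_zero
  rw [Finset.card_univ]
  exact div_self this

theorem dens_not [Nonempty α] (P : α → Prop) : dens (fun a => ¬ P a) = 1 - dens P := by
  have h := dens_split (fun _ : α => True) P
  rw [dens_true] at h
  have h1 : dens (fun a : α => True ∧ P a) = dens P := dens_congr (by simp)
  have h2 : dens (fun a : α => True ∧ ¬ P a) = dens (fun a => ¬ P a) := dens_congr (by simp)
  rw [h1, h2] at h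
  linarith

theorem exists_of_dens_pos {P : α → Prop} (h : 0 < dens P) : ∃ a, P a := by
  by_contra hc
  push Not at hc
  have : dens P = 0 := by
    unfold dens
    rw [Finset.filter_false_of_mem (fun a _ => hc a)]
    simp
  linarith

theorem dens_false : dens (fun _ : α => False) = 0 := by
  unfold dens; simp

theorem dens_equiv (e : α ≃ β) (P : β → Prop) : dens (fun a => P (e a)) = dens P := by
  unfold dens
  rw [Fintype.card_congr e]
  congr 2
  exact Finset.card_bij (fun a _ => e a) (by simp) (by simp) (by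
    intro b hb
    exact ⟨e.symm b, by simpa using hb, by simp⟩)

/-- Fubini: the density on the product is the average of the densities of the fibres -/
theorem dens_prod (Q : α → β → Prop) :
    dens (fun x : α × β => Q x.1 x.2) = (∑ a, dens (Q a)) / (Fintype.card α : ℝ) := by
  unfold dens
  rw [← Finset.sum_div, div_div, Fintype.card_prod]
  push_cast
  rw [mul_comm (Fintype.card β : ℝ)]
  congr 1
  have h : (Finset.univ.filter (fun x : α × β => Q x.1 x.2)).card =
      ∑ a, (Finset.univ.filter (Q a)).card := by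
    rw [Finset.card_eq_sum_card_fiberwise (f := Prod.fst) (t := Finset.univ) (by simp)]
    refine Finset.sum_congr rfl fun a _ => ?_
    refine Finset.card_bij' (fun x _ => x.2) (fun b _ => (a, b)) ?_ ?_ ?_ ?_
    · intro x hx
      simp only [Finset.mem_filter, Finset.mem_univ, true_and] at hx ⊢
      rw [← hx.2]; exact hx.1
    · intro b hb
      simpa using hb
    · intro x hx
      simp only [Finset.mem_filter, Finset.mem_univ, true_and] at hx
      rw [← hx.2]
    · intro b hb
      rfl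
  rw [h]
  push_cast
  rfl

theorem dens_prod_le {Q : α → β → Prop} {c : ℝ} (hc : 0 ≤ c) (h : ∀ a, dens (Q a) ≤ c) :
    dens (fun x : α × β => Q x.1 x.2) ≤ c := by
  rw [dens_prod]
  rcases isEmpty_or_nonempty α with h0 | h0
  · simp [hc]
  · have h1 : (0 : ℝ) < Fintype.card α := by exact_mod_cast Fintype.card_pos
    rw [div_le_iff₀ h1]
    calc ∑ a, dens (Q a) ≤ ∑ _a : α, c := Finset.sum_le_sum fun a _ => h a
      _ = c * Fintype.card α := by rw [Finset.sum_const, nsmul_eq_mul, Finset.card_univ]; ring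

/-- Markov -/
theorem markov (Q : α → β → Prop) (δ : ℝ) :
    dens (fun a => δ < dens (Q a)) * δ ≤ dens (fun x : α × β => Q x.1 x.2) := by
  rw [dens_prod]
  unfold dens
  rw [div_mul_eq_mul_div]
  apply div_le_div_of_nonneg_right _ (by positivity)
  calc ((Finset.univ.filter fun a => δ < ((Finset.univ.filter (Q a)).card : ℝ) / Fintype.card β).card : ℝ) * δ
      = ∑ _a ∈ Finset.univ.filter (fun a => δ < ((Finset.univ.filter (Q a)).card : ℝ) / Fintype.card β), δ := by
        rw [Finset.sum_const, nsmul_eq_mul]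
    _ ≤ ∑ a ∈ Finset.univ.filter (fun a => δ < ((Finset.univ.filter (Q a)).card : ℝ) / Fintype.card β),
          ((Finset.univ.filter (Q a)).card : ℝ) / Fintype.card β := by
        refine Finset.sum_le_sum fun a ha => ?_
        rw [Finset.mem_filter] at ha
        exact ha.2.le
    _ ≤ ∑ a, ((Finset.univ.filter (Q a)).card : ℝ) / Fintype.card β := by
        refine Finset.sum_le_sum_of_subset_of_nonneg (Finset.filter_subset _ _) fun a _ _ => by positivity

theorem dens_fst (P : α → Prop) [Nonempty β] : dens (fun x : α × β => P x.1) = dens P := by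
  rw [dens_prod (fun a _ => P a)]
  unfold dens
  congr 1
  have h1 : (Fintype.card β : ℝ) ≠ 0 := by exact_mod_cast Fintype.card_ne_zero
  have h2 : ∀ a : α, ((Finset.univ.filter (fun _ : β => P a)).card : ℝ) / Fintype.card β =
      if P a then 1 else 0 := by
    intro a
    by_cases h : P a
    · simp [h, h1]
    · simp [h]
  rw [Finset.sum_congr rfl fun a _ => h2 a]
  simp

end general

section tuples

variable {k : ℕ} {V : Type} [Fintype V]

/-- relabelling does not change densities -/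
theorem dens_perm (σ : Equiv.Perm (Fin k)) (P : (Fin k → V) → Prop) :
    dens (fun a => P (a ∘ σ)) = dens P := by
  have h := dens_equiv (Equiv.arrowCongr σ.symm (Equiv.refl V)) P
  rw [← h]
  rfl

/-- the point of a random line is a random point -/
theorem dens_update (m : Fin k) (P : (Fin k → V) → Prop) :
    dens (fun x : (Fin k → V) × V => P (update x.1 m x.2)) = dens P := by
  rcases isEmpty_or_nonempty V with hV | hV
  · have h1 : IsEmpty ((Fin k → V) × V) := ⟨fun x => hV.elim x.2⟩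
    have h2 : IsEmpty (Fin k → V) := ⟨fun x => hV.elim (x m)⟩
    unfold dens
    simp
  · -- the involution exchanging `a m` and `z`
    let e : ((Fin k → V) × V) ≃ ((Fin k → V) × V) :=
      { toFun := fun x => (update x.1 m x.2, x.1 m)
        invFun := fun x => (update x.1 m x.2, x.1 m)
        left_inv := by intro x; simp
        right_inv := by intro x; simp }
    have h := dens_equiv e (fun x : (Fin k → V) × V => P x.1)
    have h2 : dens (fun x : (Fin k → V) × V => P x.1) = dens P := dens_fst P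
    rw [h2] at h
    exact h

/-- the point of a random plane is a random point -/
theorem dens_update2 (i l : Fin k) (P : (Fin k → V) → Prop) :
    dens (fun x : (Fin k → V) × (V × V) => P (update (update x.1 l x.2.1) i x.2.2)) = dens P := by
  have h1 := dens_update l P
  have h2 : dens (fun x : (Fin k → V) × (V × V) => P (update (update x.1 l x.2.1) i x.2.2)) =
      dens (fun y : ((Fin k → V) × V) × V => P (update (update y.1.1 l y.1.2) i y.2)) :=
    dens_equiv (Equiv.prodAssoc (Fin k → V) V V).symm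
      (fun y : ((Fin k → V) × V) × V => P (update (update y.1.1 l y.1.2) i y.2))
  rw [h2, dens_prod (fun (y : (Fin k → V) × V) (q : V) => P (update (update y.1 l y.2) i q))]
  rcases isEmpty_or_nonempty V with hV | hV
  · have h4 : IsEmpty (Fin k → V) := ⟨fun x => hV.elim (x l)⟩
    unfold dens
    simp
  · have h3 := dens_update i P
    rw [dens_prod (fun (a : Fin k → V) (q : V) => P (update a i q))] at h3
    rw [← h3]
    have hV0 : (Fintype.card V : ℝ) ≠ 0 := by exact_mod_cast Fintype.card_ne_zero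
    have hV1 : (Fintype.card (Fin k → V) : ℝ) ≠ 0 := by exact_mod_cast Fintype.card_ne_zero
    rw [Fintype.card_prod]
    push_cast
    rw [div_eq_div_iff (mul_ne_zero hV1 hV0) hV1]
    have h5 : ∑ y : (Fin k → V) × V, dens (fun q => P (update (update y.1 l y.2) i q)) =
        ∑ y : (Fin k → V) × V, dens (fun q => P (update y.1 i q)) := by
      let e : ((Fin k → V) × V) ≃ ((Fin k → V) × V) :=
        { toFun := fun x => (update x.1 l x.2, x.1 l)
          invFun := fun x => (update x.1 l x.2, x.1 l)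
          left_inv := by intro x; simp
          right_inv := by intro x; simp }
      exact Equiv.sum_comp e (fun y : (Fin k → V) × V => dens (fun q => P (update y.1 i q)))
    rw [h5, Fintype.sum_prod_type]
    simp only [Finset.sum_const, Finset.card_univ, nsmul_eq_mul]
    rw [← Finset.mul_sum]
    ring

end tuples

section more

variable {k : ℕ} {V : Type} [Fintype V]

/-- product density -/
theorem dens_pi (Q : Fin k → V → Prop) : dens (fun a : Fin k → V => ∀ m, Q m (a m)) = ∏ m, dens (Q m) := by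
  unfold dens
  rw [Finset.prod_div_distrib, Fintype.card_fun, Fintype.card_fin, Finset.prod_const, Finset.card_univ,
    Fintype.card_fin]
  push_cast
  congr 1
  rw [← Nat.cast_prod, Nat.cast_inj, ← Fintype.card_piFinset]
  refine congrArg Finset.card ?_
  ext a
  simp

/-- every two distinct labels can be moved to `i0, i1` -/
theorem exists_perm {i l i0 i1 : Fin k} (h : i ≠ l) (h' : i0 ≠ i1) :
    ∃ σ : Equiv.Perm (Fin k), σ i = i0 ∧ σ l = i1 := by
  refine ⟨(Equiv.swap i i0).trans (Equiv.swap (Equiv.swap i i0 l) i1), ?_, ?_⟩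
  · rw [Equiv.trans_apply, Equiv.swap_apply_left]
    apply Equiv.swap_apply_of_ne_of_ne _ h'
    intro h1
    have h2 := (Equiv.swap i i0).injective (a₁ := l) (a₂ := i) (by rw [← h1, Equiv.swap_apply_left])
    exact h h2.symm
  · rw [Equiv.trans_apply, Equiv.swap_apply_left]

theorem update_comp_perm (a : Fin k → V) (σ : Equiv.Perm (Fin k)) (i : Fin k) (v : V) :
    update (a ∘ σ) i v = update a (σ i) v ∘ σ := by
  funext x
  by_cases h : x = i
  · subst h; simp
  · rw [update_of_ne h, comp_apply, comp_apply, update_of_ne (fun h' => h (σ.injective h'))]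

theorem nb_perm {E : (Fin k → V) → Prop} (hE : Symm E) (σ : Equiv.Perm (Fin k)) (a : Fin k → V)
    (i : Fin k) : nb E (a ∘ σ) i = nb E a (σ i) := by
  funext q
  simp only [nb]
  rw [update_comp_perm]
  exact propext (hE σ _)

theorem nb_update_self (E : (Fin k → V) → Prop) (a : Fin k → V) (i : Fin k) (v : V) :
    nb E (update a i v) i = nb E a i := by
  funext q
  simp [nb]

theorem G0_perm (E : (Fin k → V) → Prop) (D : Fin k → (Fin k → V) → Prop) (β : ℝ)
    (σ : Equiv.Perm (Fin k)) (a : Fin k → V) : G0 E D β (a ∘ σ) ↔ G0 E D β a := by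
  constructor
  · intro h τ i l hil
    have h1 := h (τ.trans σ.symm) i l hil
    have h2 : (a ∘ σ) ∘ (τ.trans σ.symm) = a ∘ τ := by
      funext x; simp
    rwa [h2] at h1
  · intro h τ i l hil
    exact h (τ.trans σ) i l hil

theorem G0_self {E : (Fin k → V) → Prop} {D : Fin k → (Fin k → V) → Prop} {β : ℝ}
    {a : Fin k → V} (h : G0 E D β a) {i l : Fin k} (hil : i ≠ l) :
    stG E D β a i l ∧ plG E D β a i l ∧ lnG D β a i l := h 1 i l hil

theorem lev_succ_le {δ : ℝ} {G : (Fin k → V) → Prop} {s : ℕ} {a : Fin k → V}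
    (h : lev δ G (s + 1) a) : lev δ G s a := h.1

theorem lev_le {δ : ℝ} {G : (Fin k → V) → Prop} {s t : ℕ} (hst : s ≤ t) {a : Fin k → V}
    (h : lev δ G t a) : lev δ G s a := by
  induction hst with
  | refl => exact h
  | step _ ih => exact ih (lev_succ_le h)

theorem lev_perm {δ : ℝ} {G : (Fin k → V) → Prop} (hG : ∀ (σ : Equiv.Perm (Fin k)) a, G (a ∘ σ) ↔ G a)
    (s : ℕ) (σ : Equiv.Perm (Fin k)) (a : Fin k → V) : lev δ G s (a ∘ σ) ↔ lev δ G s a := by
  induction s generalizing a with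
  | zero => exact hG σ a
  | succ s ih =>
    simp only [lev]
    rw [ih a]
    refine and_congr Iff.rfl ⟨fun h m => ?_, fun h m => ?_⟩
    · have h1 := h (σ.symm m)
      rw [dens_congr (Q := fun z => ¬ lev δ G s (update a m z)) (fun z => ?_)] at h1
      · exact h1
      · rw [update_comp_perm, ih, Equiv.apply_symm_apply]
    · rw [dens_congr (Q := fun z => ¬ lev δ G s (update a (σ m) z)) (fun z => ?_)]
      · exact h (σ m)
      · rw [update_comp_perm, ih]

end more

section pm

variable {V : Type} [Fintype V] {A B C : V → Prop} {κ κ' : ℝ}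

theorem near_refl (h : 0 ≤ κ) : near κ A A := by
  unfold near
  have : dens (fun v => ¬ (A v ↔ A v)) = dens (fun _ : V => False) := dens_congr (by simp)
  rw [this, dens_false]; exact h

theorem near_symm (h : near κ A B) : near κ B A := by
  unfold near at *
  refine (dens_mono fun v hv => ?_).trans h
  tauto

theorem near_trans (h : near κ A B) (h' : near κ' B C) : near (κ + κ') A C := by
  unfold near at *
  refine (dens_mono (Q := fun v => ¬ (A v ↔ B v) ∨ ¬ (B v ↔ C v)) fun v hv => ?_).trans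
    ((dens_or_le _ _).trans (add_le_add h h'))
  tauto

theorem near_not (h : near κ A B) : near κ (fun v => ¬ A v) (fun v => ¬ B v) := by
  unfold near at *
  refine (dens_mono fun v hv => ?_).trans h
  tauto

theorem near_not' (h : near κ A (fun v => ¬ B v)) : near κ (fun v => ¬ A v) B := by
  unfold near at *
  refine (dens_mono fun v hv => ?_).trans h
  tauto

theorem near_mono (hk : κ ≤ κ') (h : near κ A B) : near κ' A B := le_trans h hk

theorem pm_refl (h : 0 ≤ κ) : pm κ A A := Or.inl (near_refl h)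

theorem pm_symm (h : pm κ A B) : pm κ B A := by
  rcases h with h | h
  · exact Or.inl (near_symm h)
  · exact Or.inr (near_symm (near_not' h))

theorem pm_trans (h : pm κ A B) (h' : pm κ' B C) : pm (κ + κ') A C := by
  rcases h with h | h <;> rcases h' with h' | h'
  · exact Or.inl (near_trans h h')
  · exact Or.inr (near_trans h h')
  · exact Or.inr (near_trans h (near_not h'))
  · refine Or.inl (near_mono le_rfl (near_trans h (near_not' h')))

theorem pm_mono (hk : κ ≤ κ') (h : pm κ A B) : pm κ' A B :=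
  h.imp (near_mono hk) (near_mono hk)

theorem dens_le_of_near (h : near κ A B) : dens A ≤ dens B + κ := by
  unfold near at h
  refine (dens_mono (Q := fun v => B v ∨ ¬ (A v ↔ B v)) fun v hv => ?_).trans
    ((dens_or_le _ _).trans (by linarith))
  tauto

/-- if `A` has density within `κ'` of `1/2` and `pm κ B A` then `B` has density within `κ + κ'` -/
theorem abs_of_pm [Nonempty V] (h : pm κ B A) (h' : |dens A - 1 / 2| ≤ κ') :
    |dens B - 1 / 2| ≤ κ + κ' := by
  rw [abs_le] at h' ⊢
  rcases h with h | h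
  · have h1 := dens_le_of_near h
    have h2 := dens_le_of_near (near_symm h)
    constructor <;> linarith
  · have h1 := dens_le_of_near h
    have h2 := dens_le_of_near (near_symm h)
    rw [dens_not] at h1 h2
    constructor <;> linarith

end pm

end Pool.Agent.KK.B
end

/-! ### KK.StmtsB -/
section
/-! MP_747bc0_co, block B (structure of nearly closed systems of states). Statements with complete
proofs in the docstrings. Everything is self-contained: a finite set `V` (no `n₀`), a symmetric set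
`E` of labelled edges with at least one half edges on every line (`Symm E`, `Deg E`), systems of
states `D` (`Indep D`). `BBasic.lean` has the basic facts (Fubini `dens_prod`, `dens_update`,
`dens_update2`, Markov, `dens_perm`, `pm_trans`, `nb_perm`, `G0_perm`, `lev_perm`, `exists_perm`). -/

namespace Pool.Agent.KK.B

open Function
open scoped Classical

/-- PLT (plane trichotomy). PROOF. Put `G p q := E (update (update a l p) i q)`,
`A p := D i (update a l p)`, `B q := D l (update a i q)`. `Deg` at `update a l p` gives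
`dens (G p) ≥ 1/2` for every `p`; as `i ≠ l`, `update (update a l p) i q = update (update a i q) l p`
(`update_comm`) and `Deg` at `update a i q` gives `dens_p (G p q) ≥ 1/2` for every `q`. `Symm` with
`Equiv.swap i l` gives `G p q ↔ G q p`. Let `bad p := dens_q (G p q ∧ ¬ (A p ↔ B q))`. By `plG` and
`markov` (threshold `β`) `dens {p : β < bad p} ≤ β`.
(1) If `dens A > β` there is `p` with `A p`, `bad p ≤ β`, so `1/2 ≤ dens (G p) ≤ β + dens B`.
If `dens ¬A > β` then `1/2 ≤ β + dens ¬B`. The same with `A, B` exchanged (bad measured in `q`).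
(2) If `dens A ≤ β` then `dens B ≤ β` (otherwise `dens A ≥ 1/2 - β > β`): first alternative. If
`dens ¬A ≤ β`: second alternative. Otherwise `dens A > β`, `dens ¬A > β`, so `|dens B - 1/2| ≤ β`
(`dens_not`), so also `dens B > β`, `dens ¬B > β`, so `|dens A - 1/2| ≤ β`, and `Sp` since
`β ≤ 1/16`.
(3) In the last case: if `bad p ≤ β` and `A p` then `dens (G p ∧ ¬B) ≤ β`, so
`dens (B ∧ ¬ G p) = dens B - dens (B ∧ G p) ≤ (1/2 + β) - (1/2 - β) = 2β`, so
`dens_q ¬ (G p q ↔ B q) ≤ 3β`; if `¬ A p` the same with `¬B`. So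
`dens_(p,q) ¬ (G p q ↔ (A p ↔ B q)) ≤ β + 3β = 4β`. By symmetry of `G`,
`dens_(p,q) ¬ (G p q ↔ (A q ↔ B p)) ≤ 4β`, so `dens_(p,q) ¬ ((A p ↔ B q) ↔ (A q ↔ B p)) ≤ 8β`. With
`c p := (A p ↔ B p)` the last event is `¬ (c p ↔ c q)`, of density `2 κ (1 - κ)`, `κ = dens c`
(`dens_prod`). As `max κ (1 - κ) ≥ 1/2`, `min κ (1 - κ) ≤ 8β`: that is `pm (8β) A B`. -/
def PltStmt : Prop :=
  ∀ (k : ℕ) (V : Type) [Fintype V] [Nonempty V] (E : (Fin k → V) → Prop)
    (D : Fin k → (Fin k → V) → Prop) (β : ℝ) (a : Fin k → V) (i l : Fin k),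
    0 < β → β ≤ 1 / 16 → Symm E → Deg E → i ≠ l → plG E D β a i l →
    (dens (fun p => D i (update a l p)) ≤ β ∧ dens (fun q => D l (update a i q)) ≤ β) ∨
    (dens (fun p => ¬ D i (update a l p)) ≤ β ∧ dens (fun q => ¬ D l (update a i q)) ≤ β) ∨
    (Sp D a i l ∧ |dens (fun p => D i (update a l p)) - 1 / 2| ≤ β ∧
      |dens (fun q => D l (update a i q)) - 1 / 2| ≤ β ∧
      pm (8 * β) (fun p => D i (update a l p)) (fun q => D l (update a i q)))

/-- NSP (the neighbourhood of a good point of a split plane). PROOF. By PLT and `Sp`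
(`dens ∈ [1/4, 3/4]` excludes the first two alternatives) the last alternative of PLT holds. Put
`B q := D l (update a i q)`, `N := nb E a i`, `dens N ≥ 1/2` (`Deg`). If `D i a`, then `stG` says
`dens (N ∧ ¬B) ≤ β`, so `dens (B ∧ ¬N) = dens B - dens (N ∧ B) ≤ (1/2 + β) - (1/2 - β) = 2β` and
`near (3β) N B`. If `¬ D i a`, then `dens (N ∧ B) ≤ β` and in the same way `near (3β) N (¬B)`.
With `pm (8β) A B` and `pm_trans`, `pm_symm`: `pm (11β) N A`. -/
def NspStmt : Prop :=
  ∀ (k : ℕ) (V : Type) [Fintype V] [Nonempty V] (E : (Fin k → V) → Prop)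
    (D : Fin k → (Fin k → V) → Prop) (β : ℝ) (a : Fin k → V) (i l : Fin k),
    0 < β → β ≤ 1 / 16 → Symm E → Deg E → i ≠ l → stG E D β a i l → plG E D β a i l →
    Sp D a i l → pm (11 * β) (nb E a i) (fun p => D i (update a l p)) ∧
      |dens (nb E a i) - 1 / 2| ≤ 12 * β

/-- G0D (almost all points are good). PROOF. For fixed `σ, i ≠ l` let `Q e := E e ∧ ¬ (D i e ↔ D l e)`,
`dens Q ≤ β^3` (`¬ Mono`). By `dens_perm` we may take `σ = 1`.
`stG` fails: `β < dens_q Q (update a i q)` (as `D i a ↔ D i (update a i q)`); by `markov` and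
`dens_update i Q` the density is at most `β^3/β ≤ β`.
`plG` fails: `β^2 < dens_(p,q) Q (update (update a l p) i q)` (by `Indep`
`D i (update a l p) ↔ D i (update (update a l p) i q)` and `D l (update a i q) ↔
D l (update (update a i q) l p)`, `update_comm`); by `markov` and `dens_update2` at most
`β^3/β^2 = β`.
`lnG` fails: either `dens_z (¬ D i (update a l z)) ≤ β` and `¬ D i a`: call this `R a`; by
`dens_update l`, `dens R = dens_(a,z) R (update a l z)` and for fixed `a` the event
`R (update a l z)` implies `¬ D i (update a l z)` and `dens_z' (¬ D i (update a l z')) ≤ β` (as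
`update (update a l z) l z' = update a l z'`), so its density in `z` is `≤ β` (`dens_prod_le`); or
the same with `D i` and `¬ D i` exchanged. Altogether `≤ β + β + 2β = 4β` for each `(σ, i, l)`;
union bound (`dens_exists_le`) over `k! * k^2` triples (`Fintype.card_perm`). -/
def G0dStmt : Prop :=
  ∀ (k : ℕ) (V : Type) [Fintype V] [Nonempty V] (E : (Fin k → V) → Prop)
    (D : Fin k → (Fin k → V) → Prop) (β : ℝ),
    0 < β → β ≤ 1 → Indep D → Closed E (β ^ 3) D →
    dens (fun a => ¬ G0 E D β a) ≤ 4 * (k.factorial : ℝ) * (k : ℝ) ^ 2 * β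

/-- LEV (typical points of every level). PROOF. Induction on `s`. `¬ lev (s+1) a` implies
`¬ lev s a` or, for some `m`, `δ < dens_z (¬ lev s (update a m z))`; by `markov` and
`dens_update m` the latter has density `≤ dens (¬ lev s) / δ`. Union over `m : Fin k`. -/
def LevStmt : Prop :=
  ∀ (k : ℕ) (V : Type) [Fintype V] (G : (Fin k → V) → Prop) (δ : ℝ) (s : ℕ), 0 < δ →
    dens (fun a => ¬ lev δ G s a) ≤ (1 + (k : ℝ) / δ) ^ s * dens (fun a => ¬ G a)

/-- EXC (exchange). `a` is a good point, some labelling of its plane with free labels `i0, i1` is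
split. Then for every other label `m` there is a side `Z` of the partition `{nb, ¬nb}` such that for
almost all `z ∈ Z` the plane of `update a m z` is split as well, with nearly the same partition.
PROOF. Let `σ` be given by `SS`, `b := a ∘ σ`, `i := σ⁻¹ i0`, `l := σ⁻¹ i1`, `m' := σ⁻¹ m` (distinct),
`A u := D i (update b l u)`. Note `update b l u = update a i1 u ∘ σ`, `update b m' z =
update a m z ∘ σ` (`update_comp_perm`). Let `P1 u := Sp D (update b l u) i m'`,
`U1 := {u : A u ∧ ¬ P1 u}`, `U0 := {u : ¬ A u ∧ ¬ P1 u}`,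
`g z := G0 (update a m z) ∧ G0 (update a i1 z)`, `dens (¬g) ≤ 2δ`.
CASE 1: `dens U1 ≤ θ`. All `z` with `A z`, outside `U1` and with `g z`, work: `P1 z` holds. Put
`τ := σ * swap l m'` (apply the swap first): `(update a m z ∘ τ)` takes the value `z` at `l`,
`a i1 = b l` at `m'` and `b x` elsewhere, so `c := update a m z ∘ τ = update (update b l z) m' (b l)`;
`τ i = i0`, `τ m' = i1`. `Sp D c i m' ↔ P1 z` (coordinate `m'` of `c` is overwritten), so
`SS D i0 i1 (update a m z)`. NSP at `c` (plane `i, m'`), at `update b l z` (plane `i, m'`), at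
`update b l z` (plane `i, l`; `Sp` by `Sp D b i l`) and at `b` (plane `i, l`); the points are good by
`G0 (update a m z)`, `G0 (update a i1 z)`, `G0 a` and `G0_perm`; `nb E c i = nb E (update a m z) i0`,
`nb E b i = nb E a i0` (`nb_perm`). Together `pm (44β) (nb E (update a m z) i0) (nb E a i0)`.
So `dens {z : A z ∧ not good} ≤ θ + 2δ`, and by NSP at `b`, `pm (11β) (nb E a i0) A`: with
`Z := nb E a i0` or its complement, `dens {z : Z z ∧ ¬ A z} ≤ 11β` and the total is
`≤ θ + 2δ + 11β ≤ 2θ`.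
CASE 2: `dens U0 ≤ θ`: the same with `¬A`.
CASE 3: `dens U1 > θ`, `dens U0 > θ`. Let `U1' := {u ∈ U1 : G0 (update a i1 u)}`, `dens ≥ θ - δ`.
For `u ∈ U1'` the point `update b l u` is good; its plane `(i, m')` is not split, so by PLT
`dens_z D i (update (update b l u) m' z) ≤ β` or `dens_z ¬D i (...) ≤ β`; the first is excluded by
`lnG` (direction `m'`) since `A u`, i.e. `D i (update b l u)`. So
`dens_z ¬D i (update (update b l u) m' z) ≤ β`. By `dens_prod_le`
`dens_(u,z) (u ∈ U1' ∧ ¬ D i (update (update b l u) m' z)) ≤ β`, so by `markov` (with `z` as the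
first variable; threshold `t := θ/4`), outside a set of `z` of density `≤ 4β/θ`,
`dens_u (u ∈ U1' ∧ ¬D i ..) ≤ θ/4` and `dens_u D i (update (update b m' z) l u) ≥ θ - δ - θ/4 ≥ θ/2 > β`
(`update_comm`). In the same way with `U0'`: `dens_u ¬D i (update (update b m' z) l u) > β`. So for
all `z` outside a set of density `8β/θ + 2δ` (`g z` also holds) the plane `(i, l)` of
`update b m' z = update a m z ∘ σ` is good and by PLT split: `SS D i0 i1 (update a m z)` (with `σ`).
NSP at `update b m' z` (plane `i, l`), at `c' := update (update b l z) l' ..`, precisely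
`c' := (update b l z) ∘ swap l m' = update (update b m' z) l (b m')` (plane `i, l`, the same plane),
`nb E c' i = nb E (update b l z) i` (`nb_perm`, `swap l m' i = i`), at `update b l z` (plane `i, l`
of `b`) and at `b`: `pm (44β)`. `8β/θ + 2δ ≤ 8θ/22 + θ/2 ≤ 2θ`; take `Z := nb E a i0`. -/
def ExcStmt : Prop :=
  ∀ (k : ℕ) (V : Type) [Fintype V] [Nonempty V] (E : (Fin k → V) → Prop)
    (D : Fin k → (Fin k → V) → Prop) (β δ θ : ℝ) (a : Fin k → V) (i0 i1 m : Fin k),
    0 < β → β ≤ 1 / 16 → 0 < θ → θ ≤ 1 / 8 → 0 ≤ δ → δ ≤ θ / 4 → β ≤ θ ^ 2 / 22 →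
    Symm E → Deg E → Indep D → i0 ≠ i1 → m ≠ i0 → m ≠ i1 →
    lev δ (G0 E D β) 1 a → SS D i0 i1 a →
    ∃ Z : V → Prop, (Z = nb E a i0 ∨ Z = fun v => ¬ nb E a i0 v) ∧
      dens (fun z => Z z ∧ ¬ (SS D i0 i1 (update a m z) ∧
        pm (44 * β) (nb E (update a m z) i0) (nb E a i0))) ≤ 2 * θ

/-- CHN (chain: all typical split planes, even of different systems, have the same partition).
PROOF. Induction on `s`.
`M = ∅` (in particular `s = 0`): `a` and `a'` agree off `{i0, i1}`. `σ` from `SS D i0 i1 a`,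
`b = a ∘ σ`, `i = σ⁻¹ i0`, `l = σ⁻¹ i1`. As `2δ < 1` there is `p` with `G0 E D β (update a i1 p)` and
`G0 E D' β (update a' i1 p)` (levels `≥ 1`). NSP at `b` and at `update b l p = update a i1 p ∘ σ`
(same plane): `pm (22β) (nb E a i0) (nb E (update a i1 p) i0)`, the same for `a'`, and
`nb E (update a i1 p) i0 = nb E (update a' i1 p) i0` as these points agree off `i0`. So `pm (44β)`.
STEP (`s + 1`, `M ≠ ∅`): `m ∈ M`, `M' = M.erase m`. EXC for `a` and for `a'` (levels `≥ 1`) gives
`Z`, `Z'`. The set of `w` with `Z w ∧ Z' w` which fail one of: the EXC conclusion for `a` or `a'`,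
`lev (s+1) (update a m w)`, `lev (s+1) (update a' m w)` has density `≤ 4θ + 2δ ≤ 5θ`.
(i) If `dens (Z ∧ Z') > 5θ` choose such a `w` satisfying everything. `update a m w` and
`update a' m w` agree off `M' ∪ {i0, i1}`; induction hypothesis and EXC twice:
`pm (44β + (12θ + 88(s+1)β) + 44β)`.
(ii) If `dens (Z ∧ Z') ≤ 5θ`: `dens Z, dens Z' ≥ 1/2 - 12β` (NSP at `a ∘ σ`, `nb_perm`, `dens_not`).
`dens (¬Z ∧ ¬Z') = 1 - dens Z - dens Z' + dens (Z ∧ Z') ≤ 24β + 5θ`, so
`near (10θ + 24β) Z (¬Z')`, `24β ≤ 2θ`, and `pm (12θ) (nb E a i0) (nb E a' i0)`. -/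
def ChnStmt : Prop :=
  ∀ (k : ℕ) (V : Type) [Fintype V] [Nonempty V] (E : (Fin k → V) → Prop)
    (D D' : Fin k → (Fin k → V) → Prop) (β δ θ : ℝ) (i0 i1 : Fin k) (s : ℕ) (M : Finset (Fin k))
    (a a' : Fin k → V),
    0 < β → β ≤ 1 / 16 → 0 < θ → θ ≤ 1 / 8 → 0 ≤ δ → δ ≤ θ / 4 → β ≤ θ ^ 2 / 22 →
    Symm E → Deg E → Indep D → Indep D' → i0 ≠ i1 → i0 ∉ M → i1 ∉ M → M.card ≤ s →
    lev δ (G0 E D β) (s + 1) a → lev δ (G0 E D' β) (s + 1) a' → SS D i0 i1 a → SS D' i0 i1 a' →
    (∀ x, x ∉ M → x ≠ i0 → x ≠ i1 → a x = a' x) →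
    pm (12 * θ + 88 * ((s : ℝ) + 1) * β) (nb E a i0) (nb E a' i0)

/-- GLB (one partition for all systems). PROOF. Let `i ≠ l`. `a` is good, so `plG E D β a i l`. If
not `Sp D a i l` then PLT gives one of the first two alternatives (`β ≤ 14θ`). Otherwise let `σ` be
as in `exists_perm` with `σ i = i0`, `σ l = i1`, `a' := a ∘ σ⁻¹`, so `a' ∘ σ = a` and
`SS D i0 i1 a'` by `σ`; `lev δ _ k a'` by `lev_perm`, `G0_perm`. CHN with `s := k - 1`,
`M := univ \ {i0, i1}` (card `k - 2`), `D0, a0` and `D, a'`: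
`pm (12θ + 88kβ) (nb E a0 i0) (nb E a' i0)`, `nb E a' i0 = nb E a i` (`nb_perm`), NSP at `a` (plane
`i, l`): `pm (11β) (nb E a i) (fun z => D i (update a l z))`. `88kβ ≤ θ`, `11β ≤ θ`. -/
def GlbStmt : Prop :=
  ∀ (k : ℕ) (V : Type) [Fintype V] [Nonempty V] (E : (Fin k → V) → Prop)
    (D0 D : Fin k → (Fin k → V) → Prop) (β δ θ : ℝ) (i0 i1 : Fin k) (a0 a : Fin k → V),
    0 < β → β ≤ 1 / 16 → 0 < θ → θ ≤ 1 / 8 → 0 ≤ δ → δ ≤ θ / 4 → β ≤ θ ^ 2 / 22 →
    88 * (k : ℝ) * β ≤ θ →
    Symm E → Deg E → Indep D0 → Indep D → i0 ≠ i1 →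
    lev δ (G0 E D0 β) k a0 → SS D0 i0 i1 a0 → lev δ (G0 E D β) k a →
    LineDet (14 * θ) (nb E a0 i0) D a

/-- RES (resampling). PROOF. Fix `i`, write `f a := D i a`. For `l : Fin k` let
`R a z := (X (a l) ↔ X z) ∧ ¬ (f a ↔ f (update a l z))`. CLAIM 1: `dens_(a,z) R ≤ 3κ`. For `l = i`
it is `0` (`Indep`). For `l ≠ i`: by the involution of `dens_update` (apply it to the event on
`(a, z)`, or average over the line) `dens_(a,z) R a z = dens_(a,y,z) R (update a l y) z`, where
`R (update a l y) z` says `(X y ↔ X z) ∧ ¬ (f (update a l y) ↔ f (update a l z))`. If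
`LineDet κ X D a`, then for `φ z := f (update a l z)`: `dens φ ≤ κ` or `dens ¬φ ≤ κ` (then
`dens_(y,z) ¬(φ y ↔ φ z) ≤ 2κ`) or `near κ φ X` or `near κ φ ¬X` (then `(X y ↔ X z)` and
`¬(φ y ↔ φ z)` force `y` or `z` to be one of the exceptions: `≤ 2κ`). So the total is
`≤ κ + 2κ = 3κ`.
CLAIM 2: for `M : Finset (Fin k)` let `pw M a a' x := if x ∈ M then a' x else a x`;
`Q M := dens_(a,a') ((∀ x ∈ M, X (a x) ↔ X (a' x)) ∧ ¬ (f a ↔ f (pw M a a'))) ≤ 3κ * M.card`.
Induction on `M`: `pw (insert l M) a a' = update (pw M a a') l (a' l)`; the event for `insert l M`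
implies the event for `M` or `R (pw M a a') (a' l)` (as `pw M a a' l = a l` for `l ∉ M`). The
bijection `(a, a') ↦ (pw M a a', pw M a' a)` (an involution) and `a' l = (pw M a' a) l` show
`dens_(a,a') R (pw M a a') (a' l) = dens_(a,a') R a (a' l) = dens_(a,z) R a z ≤ 3κ` (the last by
Fubini over the coordinate `l` of `a'`: `dens_update`/`dens_fst` type).
CONCLUSION: `M = univ`, `pw univ a a' = a'`. `x := dens (D i ∧ wd W)`, `y := dens (¬ D i ∧ wd W)`:
`x * y = dens_(a,a') (D i a ∧ wd W a ∧ ¬ D i a' ∧ wd W a') ≤ Q univ ≤ 3kκ ≤ ν^2`, so `x ≤ ν` or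
`y ≤ ν`. -/
def ResStmt : Prop :=
  ∀ (k : ℕ) (V : Type) [Fintype V] [Nonempty V] (X : V → Prop)
    (D : Fin k → (Fin k → V) → Prop) (κ ν : ℝ),
    0 ≤ κ → 0 ≤ ν → 3 * (k : ℝ) * κ ≤ ν ^ 2 → Indep D →
    dens (fun a => ¬ LineDet κ X D a) ≤ κ → WDet ν X D

/-- NTR (no typical split plane: trivial). PROOF. (1) Let `lev δ _ k a`, `i ≠ l`. `σ` with `σ i = i0`,
`σ l = i1`, `a' := a ∘ σ⁻¹`: `lev_perm`, so `¬ SS D i0 i1 a'`, so `¬ Sp D a i l`. PLT: `dens ≤ β` or
`dens ¬ ≤ β` on the line. So `LineDet κ (fun _ => True) D a` (`β ≤ κ`). RES with `X := True`,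
`W := fun _ => true` (`wd` is always true): for every `i`, `dens (D i) ≤ ν` or `dens (¬ D i) ≤ ν`.
(2) `dens (D i) ≤ ν` and `dens (¬ D l) ≤ ν` with `i ≠ l` is impossible: by `markov`, `dens_update`
the set of `a` with `1/2 < dens_p D i (update a l p)` has density `≤ 2ν`, the set of `a` with
`1/2 < dens_q ¬ D l (update a i q)` too, and `¬ lev` has density `≤ κ`; `4ν + κ < 1`
(`κ ≤ ν^2/6`, `ν ≤ 1/8`, `k ≥ 2` because `i0 ≠ i1`). For a remaining `a`, not split, PLT:
`dens_q D l (update a i q) ≤ β`, so `dens ¬ ≥ 1 - β > 1/2`, or `dens_p ¬ D i ≤ β`, contradiction.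
(3) So all `dens (D i) ≤ ν` or all `dens (¬ D i) ≤ ν`. -/
def NtrStmt : Prop :=
  ∀ (k : ℕ) (V : Type) [Fintype V] [Nonempty V] (E : (Fin k → V) → Prop)
    (D : Fin k → (Fin k → V) → Prop) (β δ κ ν : ℝ) (i0 i1 : Fin k),
    0 < β → β ≤ 1 / 16 → β ≤ κ → 3 * (k : ℝ) * κ ≤ ν ^ 2 → 0 < ν → ν ≤ 1 / 8 →
    Symm E → Deg E → Indep D → i0 ≠ i1 →
    dens (fun a => ¬ lev δ (G0 E D β) k a) ≤ κ →
    (∀ a, lev δ (G0 E D β) k a → ¬ SS D i0 i1 a) → Triv ν D

/-- the system of all states of type `≥ j` -/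
noncomputable def TD {k : ℕ} {V : Type} (X : V → Prop) (j : ℕ) : Fin k → (Fin k → V) → Prop :=
  fun i a => j ≤ (Finset.univ.filter (fun l : Fin k => l ≠ i ∧ X (a l))).card

/-- TYP (the system of the states of type `≥ j`). PROOF. `Indep`: the coordinate `i` is not used.
A tuple `e` which is not monochromatic has type exactly `j`: if `TD i e`, `¬ TD l e` then
`typ X e ≥ j` and `typ X e - [X (e l)] ≤ j - 1`, so `typ X e = j`; hence `Closed` with
`tden E X j`. Let `T := univ \ {i0, i1}`, card `k - 2 ≥ j - 1`; choose `J ⊆ T` with card `j - 1`. If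
`X (a m) ↔ m ∈ J` for all `m ∈ T`, then `TD X j i0 (update a i1 p) ↔ X p`, so the plane is split
(`dens X ∈ [3/8, 5/8]`). The density of these `a` is (`dens_pi`) a product of `k - 2` factors
`dens X` or `1 - dens X`, all `≥ 3/8 ≥ 1/4`, and two factors `1`. -/
def TypStmt : Prop :=
  ∀ (k : ℕ) (V : Type) [Fintype V] [Nonempty V] (E : (Fin k → V) → Prop) (X : V → Prop) (j : ℕ)
    (i0 i1 : Fin k), i0 ≠ i1 → 1 ≤ j → j ≤ k - 1 → |dens X - 1 / 2| ≤ 1 / 8 →
    Indep (TD (k := k) X j) ∧ Closed E (tden E X j) (TD (k := k) X j) ∧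
    (1 / 4 : ℝ) ^ k ≤ dens (fun a : Fin k → V => Sp (TD X j) a i0 i1 ∧
      ∀ p, (TD X j i0 (update a i1 p) ↔ X p))

/-- UNI (a missing type determines all closed systems). PROOF. We may assume `ν ≤ 1/8` (`WDet` is
monotone in `ν`). Constants: `κ := ν^2/(3k)`, `θ := κ/15` (so `θ ≤ 1/8`), `δ := θ/4`,
`C := 4 k! k^2 (1 + k/δ)^k`, `β` positive with `β ≤ 1/16`, `β ≤ θ^2/22`, `88kβ ≤ θ`, `Cβ ≤ κ`,
`Cβ < (1/4)^k`, `ε := β^3`. By G0D and LEV every `ε`-closed system has
`dens (¬ lev δ (G0 ..) k) ≤ Cβ`. Let `i0 := 0`, `i1 := 1` (`k ≥ 2`). TYP: `TD X j` is `ε`-closed, and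
as `Cβ < (1/4)^k` there is `a0` with `lev δ (G0 E (TD X j) β) k a0`, `Sp (TD X j) a0 i0 i1` (so `SS`
with `σ = 1`) and `TD X j i0 (update a0 i1 p) ↔ X p`. NSP at `a0`: `pm (11β) (nb E a0 i0) X`. GLB:
for every `a` with `lev δ (G0 E D β) k a`, `LineDet (14θ) (nb E a0 i0) D a`, hence
`LineDet κ X D a` (`14θ + 11β ≤ 15θ ≤ κ`, `pm_trans`). RES. -/
def UniStmt : Prop :=
  ∀ (k : ℕ) (ν : ℝ), 2 ≤ k → 0 < ν → ∃ ε : ℝ, 0 < ε ∧
    ∀ (V : Type) [Fintype V] [Nonempty V] (E : (Fin k → V) → Prop) (X : V → Prop) (j : ℕ),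
      Symm E → Deg E → 1 ≤ j → j ≤ k - 1 → |dens X - 1 / 2| ≤ ε → tden E X j ≤ ε →
      ∀ D : Fin k → (Fin k → V) → Prop, Indep D → Closed E ε D → WDet ν X D

/-- GBX (a non-trivial closed system gives the partition). PROOF. `Triv` and `WDet` are monotone in
`ν`, so we may assume `ν ≤ 1/8`. Constants `κ, θ, δ, C, β, ε` as in UNI with also `12β ≤ ν`,
`β ≤ κ`. By NTR (contrapositive) for `D0` there is `a0` with `lev δ (G0 E D0 β) k a0` and
`SS D0 i0 i1 a0`. `X := nb E a0 i0`; `|dens X - 1/2| ≤ 12β` by NSP at `a0 ∘ σ` (`σ` from `SS`) and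
`nb_perm`. GLB: `LineDet (14θ) X D a` for every `a` with `lev δ (G0 E D β) k a`. RES. -/
def GbxStmt : Prop :=
  ∀ (k : ℕ) (ν : ℝ), 2 ≤ k → 0 < ν → ∃ ε : ℝ, 0 < ε ∧
    ∀ (V : Type) [Fintype V] [Nonempty V] (E : (Fin k → V) → Prop)
      (D0 : Fin k → (Fin k → V) → Prop), Symm E → Deg E → Indep D0 → Closed E ε D0 → ¬ Triv ν D0 →
      ∃ X : V → Prop, |dens X - 1 / 2| ≤ ν ∧
        ∀ D : Fin k → (Fin k → V) → Prop, Indep D → Closed E ε D → WDet ν X D

/-- MIS (a word on which the majority values of two labels differ has a missing type). PROOF. Say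
`maj i W` and `¬ maj l W`. By `WDet` and `maj`: `dens (¬ D i ∧ wd W) ≤ ν`, `dens (D l ∧ wd W) ≤ ν`.
A tuple `e` with `E e`, `wd X W e` is not monochromatic, or `¬ D i e`, or `D l e`. So
`dens (E ∧ wd W) ≤ ε + 2ν`. If `wt W' = wt W` there is a permutation `σ` with `W' = W ∘ σ`, and
`dens (E ∧ wd W') = dens (E ∧ wd W)` (`dens_perm`, `Symm`). `tden E X (wt W)` is the sum over the
at most `2^k` words `W'` with `wt W' = wt W` of `dens (E ∧ wd W')` (`dens_exists_le`). -/
def MisStmt : Prop :=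
  ∀ (k : ℕ) (V : Type) [Fintype V] [Nonempty V] (E : (Fin k → V) → Prop)
    (D : Fin k → (Fin k → V) → Prop) (X : V → Prop) (ε ν : ℝ) (i l : Fin k) (W : Fin k → Bool),
    Symm E → Closed E ε D → WDet ν X D → ¬ (maj D X i W ↔ maj D X l W) →
    tden E X (wt W) ≤ 2 ^ k * (ε + 2 * ν)

/-- MIN (the majority value of `D i` does not depend on the letter `i`). PROOF. For a predicate `P`
with `P (update a i v) ↔ P a` and `c b := dens (fun v => (X v ↔ b = true))` one has
`dens (P ∧ wd W) = c (W i) * dens (P ∧ ∀ l ≠ i, (X (a l) ↔ W l = true))`: write `wd X W a` as the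
last condition and `X (a i) ↔ W i = true`, replace `a i` by an independent `z` (`dens_update i`,
`dens_prod`). `c b > 0` as `0 < dens X < 1`. Apply it to `D i` and `¬ D i`. -/
def MinStmt : Prop :=
  ∀ (k : ℕ) (V : Type) [Fintype V] [Nonempty V] (D : Fin k → (Fin k → V) → Prop) (X : V → Prop)
    (i : Fin k) (W : Fin k → Bool) (b : Bool), Indep D → 0 < dens X → dens X < 1 →
    (maj D X i (update W i b) ↔ maj D X i W)

/-- WGR (word graph; `F t`: type `t` is missing). PROOF. For `W` with `¬ F (wt W)` let `ψ W` be the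
common value of `φ i W`. If `W, W'` differ only at `m` and both types are not missing then
`ψ W ↔ φ m W ↔ φ m W' ↔ ψ W'`. FIRST PART: let all types in `[a, b]`, `a < b`, be present. If `W`
has type in `[a, b]` and `W p = true`, `W q = false`, the word `W'` with these two letters exchanged
satisfies `ψ W ↔ ψ W'` (go through the word with both letters false if `wt W > a`, through the
word with both letters true if `wt W = a < b`). So `ψ` has the same value on all words of the same
type in `[a, b]` (exchange letters until they are equal; induction on the number of differences),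
and on neighbouring types (change one letter). SECOND PART: `k ≥ 3`, `[a, b] = [1, k-1]`, `1 < k-1`
if `k ≥ 3`. So `ψ` is constant on types `1, .., k-1`. If `wt W = 0`: `φ i W ↔ φ i (update W i true)`,
type 1. If `wt W = k`: `φ i W ↔ φ i (update W i false)`, type `k-1`. -/
def WgrStmt : Prop :=
  ∀ (k : ℕ) (φ : Fin k → (Fin k → Bool) → Prop) (F : ℕ → Prop),
    (∀ i W b, φ i (update W i b) ↔ φ i W) → (∀ W, ¬ F (wt W) → ∀ i l, (φ i W ↔ φ l W)) →
    (∀ a b : ℕ, a < b → (∀ t, a ≤ t → t ≤ b → ¬ F t) → ∀ W W', a ≤ wt W → wt W ≤ b →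
      a ≤ wt W' → wt W' ≤ b → ∀ i l, (φ i W ↔ φ l W')) ∧
    (3 ≤ k → (∀ t, 1 ≤ t → t ≤ k - 1 → ¬ F t) → ∀ W W' i l, (φ i W ↔ φ l W'))

/-- MSX (a non-trivial closed system gives a missing type). PROOF. Let `ν' := min ν (1/8) / 4^(k+1)`,
`ε'` from GBX for `ν'`, `ε := min ε' ν'`. `¬ Triv ν D0` implies `¬ Triv ν' D0`. Let `X` be from GBX,
`WDet ν' X D0`, `|dens X - 1/2| ≤ ν' ≤ 1/8`. Suppose `tden E X j > ν` for all `1 ≤ j ≤ k-1`. As
`2^k (ε + 2ν') ≤ ν`, MIS gives `maj D0 X i W ↔ maj D0 X l W` if `1 ≤ wt W ≤ k-1`. MIN and WGR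
(second part, `F t := ¬ (1 ≤ t ∧ t ≤ k-1)`): `maj D0 X i W` is constant in `i, W`. If it is true,
`dens (¬ D0 i) ≤ sum over W of dens (¬ D0 i ∧ wd W) ≤ 2^k ν' ≤ ν` for all `i` (each `a` has a word
`W l := decide (X (a l))`); if it is false, `dens (D0 i) ≤ 2^k ν'`. So `Triv ν D0`,
contradiction. -/
def MsxStmt : Prop :=
  ∀ (k : ℕ) (ν : ℝ), 3 ≤ k → 0 < ν → ∃ ε : ℝ, 0 < ε ∧
    ∀ (V : Type) [Fintype V] [Nonempty V] (E : (Fin k → V) → Prop)
      (D0 : Fin k → (Fin k → V) → Prop), Symm E → Deg E → Indep D0 → Closed E ε D0 → ¬ Triv ν D0 →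
      ∃ (X : V → Prop) (j : ℕ), 1 ≤ j ∧ j ≤ k - 1 ∧ |dens X - 1 / 2| ≤ ν ∧ tden E X j ≤ ν

/-- NBR (the types next to a missing type are nearly complete). PROOF. We may assume `ν ≤ 1`, because
otherwise the right sides are `≥ 1`. Fix `i`, `s a := card {l | l ≠ i ∧ X (a l)}`. FIRST PART:
`dens_(a,q) (s a = j ∧ ¬ X q ∧ E (update a i q)) = dens_e (s e = j ∧ ¬ X (e i) ∧ E e) ≤ tden ≤ ν`
(`dens_update i`). `markov` with threshold `√ν`: outside a set of `a` of density `≤ √ν`,
`dens_q (s a = j ∧ ¬ X q ∧ E (update a i q)) ≤ √ν`; for such `a` with `s a = j`: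
`dens_q (X q ∧ E ..) ≥ 1/2 - √ν` (`Deg`), so `dens_q (X q ∧ ¬ E ..) ≤ dens X - 1/2 + √ν ≤ ν + √ν`.
So `dens_(a,q) (s a = j ∧ X q ∧ ¬ E (update a i q)) ≤ √ν + ν + √ν ≤ 3√ν`, i.e.
`dens_e (s e = j ∧ X (e i) ∧ ¬ E e) ≤ 3√ν`. A tuple with `typ X e = j + 1` has some `i` with
`X (e i)`, and then `s e = j`. Union over `i`. SECOND PART: the same with `s a = j - 1`, `X q` in
the place of `¬ X q`, and conversely; a tuple with `typ X e = j - 1 < k` has some `i` with
`¬ X (e i)`. -/
def NbrStmt : Prop :=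
  ∀ (k : ℕ) (V : Type) [Fintype V] [Nonempty V] (E : (Fin k → V) → Prop) (X : V → Prop) (j : ℕ)
    (ν : ℝ), 1 ≤ k → Deg E → 0 < ν → |dens X - 1 / 2| ≤ ν → tden E X j ≤ ν →
    dens (fun e => typ X e = j + 1 ∧ ¬ E e) ≤ 3 * (k : ℝ) * Real.sqrt ν ∧
    (1 ≤ j → j ≤ k → dens (fun e => typ X e = j - 1 ∧ ¬ E e) ≤ 3 * (k : ℝ) * Real.sqrt ν)

/-- STR (THE STRUCTURE THEOREM of block B). `b` = wanted precision as a function of the scale `μ`,
`h` = closedness needed for it, `g` = arbitrary (later) growth function.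
PROOF. Let `εU ν'` be the `ε` of UNI and `εM ν'` that of MSX (`choose`). Put
`b' x := min (b x) (x / 2^(k+3))`, `h x := min (εU (b' x)) (x / 2^(k+3))` (for `x > 0`, otherwise
`1`). Given `g`, `ν`: `ν_0 := min ν 1`, `ν_(m+1) := min` of `ν_m / 2`, `g ν_m`, `(g ν_m / (3k))^2`,
`εU (b' ν_m)`, `(1 / (8 k 4^k))^2`. `K := k + 2`, `c0 := min (εM ν_K) ν_K`, `S := {ν_0, .., ν_K}`.
If every `c0`-closed `Indep` system is `ν`-trivial: (I). Otherwise some `D0` is `c0`-closed and not
`ν`-trivial, so not `ν_K`-trivial, and MSX gives `X, j0` with `|dens X - 1/2| ≤ ν_K`,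
`tden E X j0 ≤ ν_K`. The `k + 1` numbers `tden E X j`, `0 ≤ j ≤ k`, miss one of the `k + 2` disjoint
intervals `(ν_(m+1), ν_m)`, `0 ≤ m ≤ k + 1`. Take this `m`, `μ := ν_m`,
`F := {j ≤ k : tden E X j ≤ ν_(m+1)}`; `j0 ∈ F`; `μ ∈ S`. For `j ∈ F`: `tden ≤ ν_(m+1) ≤ g μ`;
for `j ∉ F`: `tden ≥ μ`. NBR with `ν_(m+1)`: `3k √ν_(m+1) ≤ g μ`. Two consecutive `j, j+1 ∈ F`:
`dens (typ = j+1) ≤ ν_(m+1) + 3k √ν_(m+1) < (1/4)^k`, but `dens (typ = j+1) ≥ (3/8)^k` (`dens_pi`,
one word of type `j + 1 ≤ k`). If `D` is `h μ`-closed, UNI with `b' μ` (as `tden E X j0 ≤ ν_K ≤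
ν_(m+1) ≤ εU (b' μ)`, same for `|dens X - 1/2|`) gives `WDet (b' μ) X D`, and if
`maj D X i W ↔ maj D X l W` fails, MIS gives `tden E X (wt W) ≤ 2^k (h μ + 2 b' μ) ≤ 3μ/8 < μ`, so
`wt W ∈ F` (`wt W ≤ k`). -/
def StrStmt : Prop :=
  ∀ k : ℕ, 3 ≤ k → ∀ b : ℝ → ℝ, (∀ x, 0 < x → 0 < b x) →
    ∃ h : ℝ → ℝ, (∀ x, 0 < x → 0 < h x) ∧ ∀ g : ℝ → ℝ, (∀ x, 0 < x → 0 < g x) → ∀ ν : ℝ, 0 < ν →
    ∃ (c0 : ℝ) (S : Finset ℝ), 0 < c0 ∧ (∀ x ∈ S, 0 < x ∧ x ≤ ν) ∧
    ∀ (V : Type) [Fintype V] [Nonempty V] (E : (Fin k → V) → Prop),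
      Symm E → Deg E →
      (∀ D : Fin k → (Fin k → V) → Prop, Indep D → Closed E c0 D → Triv ν D) ∨
      ∃ (X : V → Prop) (μ : ℝ) (F : Finset ℕ), μ ∈ S ∧ |dens X - 1 / 2| ≤ g μ ∧
        (∀ j ∈ F, j ≤ k) ∧ (∃ j ∈ F, 1 ≤ j ∧ j ≤ k - 1) ∧ (∀ j ∈ F, j + 1 ∉ F) ∧
        (∀ j ∈ F, tden E X j ≤ g μ) ∧ (∀ j, j ≤ k → j ∉ F → μ ≤ tden E X j) ∧
        (∀ j ∈ F, dens (fun e => typ X e = j + 1 ∧ ¬ E e) ≤ g μ) ∧
        (∀ j ∈ F, 1 ≤ j → dens (fun e => typ X e = j - 1 ∧ ¬ E e) ≤ g μ) ∧
        ∀ D : Fin k → (Fin k → V) → Prop, Indep D → Closed E (h μ) D → WDet (b μ) X D ∧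
          ∀ W : Fin k → Bool, wt W ∉ F → ∀ i l, (maj D X i W ↔ maj D X l W)

end Pool.Agent.KK.B
end

/-! ### KK.StmtsB2 -/
section
/-! MP_747bc0_co, block B, second part: the bridge from the structure theorem `B.StrStmt` (labelled
tuples) to `KK.StrStmt` of `StmtsD` (states `Sta V d`, `k = d + 2`). -/

namespace Pool.Agent.KK.B

open Function
open scoped Classical

section
variable {V : Type} [Fintype V] [DecidableEq V] {d : ℕ}

/-- labelled edges of `H` -/
def LE (H : Finset (Finset V)) (e : Fin (d + 2) → V) : Prop := Finset.univ.image e ∈ H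

/-- the augmented edge relation: all non-injective tuples are added -/
def augE (H : Finset (Finset V)) (e : Fin (d + 2) → V) : Prop := Injective e → Finset.univ.image e ∈ H

/-- the state of the labelled tuple `a` with missing label `i`: the coordinates
`i + 1, ..., i + d + 1`, at time `i + 1` (so the coordinate `j` of a state `(f, t)` has the label
`t + j`, and the missing label is `t - 1`) -/
def stOf (i : Fin (d + 2)) (a : Fin (d + 2) → V) : Sta V d :=
  (fun j => a (i + 1 + j.castSucc), (i + 1 : Fin (d + 2)))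

/-- the system of states of a set of states -/
def sys (U : Set (Sta V d)) : Fin (d + 2) → (Fin (d + 2) → V) → Prop := fun i a => stOf i a ∈ U

/-- the number of steps from `A` to `B` -/
noncomputable def stp (H : Finset (Finset V)) (A B : Set (Sta V d)) : ℝ :=
  ({p : Sta V d × Sta V d | p.1 ∈ A ∧ p.2 ∈ B ∧ St H p.1 p.2}.ncard : ℝ)

end

/-- AUG (the augmented relation). PROOF. `Symm`: injectivity and the image are invariant under
relabelling. `Deg`: if `a` is injective on the labels `≠ i`, let `S` be the image of these labels,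
`S.card = d + 1 = k - 1`, and by `Dirac` at least `n/2` vertices `v ∉ S` have `insert v S ∈ H`, which
is the image of `update a i v`. Otherwise `update a i v` is never injective and the density is `1`.
Last part: `augE e ∧ P e` implies `LE e ∧ P e` or `e` is not injective; for fixed `i ≠ j` the tuples
with `e i = e j` have density `1/n` (`dens_update`/`dens_prod`), at most `(d+2)^2` pairs. -/
def AugStmt : Prop :=
  ∀ (d : ℕ) (V : Type) [Fintype V] [DecidableEq V] [Nonempty V] (H : Finset (Finset V)),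
    Uni H (d + 2) → Dirac H (d + 2) →
    Symm (augE (d := d) H) ∧ Deg (augE (d := d) H) ∧
    ∀ P : (Fin (d + 2) → V) → Prop, dens (fun e => augE H e ∧ P e) ≤
      dens (fun e => LE H e ∧ P e) + ((d : ℝ) + 2) ^ 2 / (Fintype.card V : ℝ)

/-- CNV (dictionary). PROOF. (1) The labels `i + 1 + j`, `0 ≤ j ≤ d`, are exactly the labels `≠ i`,
so `stOf i a` does not depend on `a i`. (2) For every `i` the map `a ↦ (stOf i a, a i)` is a bijection
of `Fin (d+2) → V` onto (states at time `i + 1`) × `V`; sum over `i` (times `i + 1` run through all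
of `Fin (d+2) = ZMod (d+2)`). (3) `(e, i) ↦ (stOf i e, stOf (i+1) e)` is a bijection of
`{(e, i) | LE H e}` onto the pairs `(s, s')` with `St H s s'`: `init` of the second is `tail` of the
first, its last entry is `e (i + 2 + d) = e i`, and `insert (e i) (image of the others) = image e`;
conversely `s = (f, t)`, `s' = (f', t + 1)` determine `i = t - 1`, `e (t + j) = f j`,
`e (t - 1) = f' (last)`. It restricts to the pairs in `A × B`. -/
def CnvStmt : Prop :=
  ∀ (d : ℕ) (V : Type) [Fintype V] [DecidableEq V] [Nonempty V] (H : Finset (Finset V)),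
    Uni H (d + 2) →
    (∀ U : Set (Sta V d), Indep (sys U) ∧
      (U.ncard : ℝ) = (∑ i, dens (sys U i)) * (Fintype.card V : ℝ) ^ (d + 1)) ∧
    ∀ A B : Set (Sta V d), stp H A B =
      (∑ i, dens (fun e => LE H e ∧ sys A i e ∧ sys B (i + 1) e)) * (Fintype.card V : ℝ) ^ (d + 2)

/-- CNC (closedness in both languages). PROOF. From CNV (3). If `e` is not monochromatic for
`sys D` there is `i` with `sys D i e` and `¬ sys D (i + 1) e` (go around the cycle from a label with
`D` to a label without); so `dens (LE ∧ ¬ Mono) n^(d+2) ≤ stp H D Dᶜ ≤ stp H D (U \ D) + stp H U Uᶜ`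
(`Dᶜ = (U \ D) ∪ Uᶜ`, `D ⊆ U`). -/
def CncStmt : Prop :=
  ∀ (d : ℕ) (V : Type) [Fintype V] [DecidableEq V] [Nonempty V] (H : Finset (Finset V))
    (U : Set (Sta V d)), Uni H (d + 2) →
    ∀ D ⊆ U, dens (fun e => LE H e ∧ ¬ Mono (sys D) e) * (Fintype.card V : ℝ) ^ (d + 2) ≤
      stp H D (U \ D) + stp H U Uᶜ

/-- CLI (the explicit classes are indecomposable). The last hypothesis is the last conclusion of
`StrStmt` with `b μ = b₀`, `h μ = h` and `E = augE H`.
PROOF. Let `D ⊆ U := cls X d a b` with `stp H D (U \ D) < ε n^k`. By CNC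
`dens (LE ∧ ¬ Mono (sys D)) ≤ ε + ε1`, so by AUG `sys D` is `h`-closed for
`augE H` (`ε + ε1 + k^2/n ≤ h`), `Indep` by CNV. So `WDet b₀ X (sys D)` and `maj (sys D) X i W` does
not depend on `i` if `wt W ∉ F`. Let `𝒲` be the set of words `W` with `a ≤ wt W ≤ b`, and, if
`a = b`, `W l = decide (l.val < a)` (this word has type `a ≤ d + 2`). CLAIM: `maj (sys D) X i W` is the
same for all `i` and all `W ∈ 𝒲`: for `a = b` there is one word; for `a < b` it is the first part of
WGR (with `φ i W := maj (sys D) X i W` and MIN).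
If it is true: `dens (¬ sys D i ∧ wd W) ≤ b₀` for `W ∈ 𝒲` and all `i`. Now `sys U i x` means that the
word of `x` off the label `i`, completed by a suitable letter `c` at `i`, is in `𝒲`: the state
`stOf i x` has the entries `x l`, `l ≠ i`; its type `s` satisfies `a ≤ s + 1`, `s ≤ b`, so `s` or
`s + 1` is in `[a, b]`; for `a = b` the definition of `can` says `x l ∈ X ↔ l.val < a` for all `l ≠ i`
(the label of the coordinate `j` is `i + 1 + j`, which is the value in the definition of `can`). As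
`sys D i` does not depend on the coordinate `i`, for every `W ∈ 𝒲` the set of `x` with `¬ sys D i x`
whose word agrees with `W` off `i` has density at most `b₀ / (3/8) ≤ 3 b₀` (as in MIN:
`dens (P ∧ wd W) = c (W i) * dens (P ∧ off i)`, `c (W i) = dens X` or `1 - dens X`, `≥ 3/8`).
So `dens (sys U i ∧ ¬ sys D i) ≤ 2^(d+2) * 3 b₀` and by CNV (for `U \ D`)
`(U \ D).ncard ≤ (d+2) 2^(d+2) 3 b₀ n^(d+1) ≤ β n^(d+1)`. If it is false, the same for
`D.ncard` (`D ⊆ U`). -/
def CliStmt : Prop :=
  ∀ (d : ℕ) (V : Type) [Fintype V] [DecidableEq V] [Nonempty V] (H : Finset (Finset V))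
    (X : Finset V) (F : Finset ℕ) (a b : ℕ) (h b₀ β ε ε1 : ℝ), Uni H (d + 2) → Dirac H (d + 2) →
    |dens (fun v => v ∈ X) - 1 / 2| ≤ 1 / 8 → a ≤ b → b ≤ d + 2 →
    (∀ t, a ≤ t → t ≤ b → t ∉ F) → 0 ≤ b₀ → 0 < ε →
    3 * ((d : ℝ) + 2) * 2 ^ (d + 2) * b₀ ≤ β →
    ε + ε1 + ((d : ℝ) + 2) ^ 2 / (Fintype.card V : ℝ) ≤ h →
    stp H (cls X d a b) (cls X d a b)ᶜ ≤ ε1 * (Fintype.card V : ℝ) ^ (d + 2) →
    (∀ D : Fin (d + 2) → (Fin (d + 2) → V) → Prop, Indep D → Closed (augE H) h D →
      WDet b₀ (fun v => v ∈ X) D ∧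
      ∀ W : Fin (d + 2) → Bool, wt W ∉ F → ∀ i l,
        (maj D (fun v => v ∈ X) i W ↔ maj D (fun v => v ∈ X) l W)) →
    Indec H (cls X d a b) ε β

/-- CLU (alternative (I): the class of all states). PROOF. `D ⊆ univ` with
`stp H D Dᶜ < ε n^k`: as in CLI `sys D` is `(ε + k^2/n)`-closed for `augE H` (`stp H univ univᶜ = 0`),
hence `ν`-trivial, and by CNV `D.ncard` or `Dᶜ.ncard` is at most `(d+2) ν n^(d+1) ≤ β n^(d+1)`. -/
def CluStmt : Prop :=
  ∀ (d : ℕ) (V : Type) [Fintype V] [DecidableEq V] [Nonempty V] (H : Finset (Finset V))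
    (c0 ν β ε : ℝ), Uni H (d + 2) → Dirac H (d + 2) → 0 < ε →
    ((d : ℝ) + 2) * ν ≤ β → ε + ((d : ℝ) + 2) ^ 2 / (Fintype.card V : ℝ) ≤ c0 →
    (∀ D : Fin (d + 2) → (Fin (d + 2) → V) → Prop, Indep D → Closed (augE H) c0 D → Triv ν D) →
    Indec H (Set.univ : Set (Sta V d)) ε β

/-- RUN (the runs of present types). PROOF. Pure combinatorics of a set `F ⊆ [0, k]` without two
consecutive elements, `k ≥ 2`. Let `a 0` be the smallest element of `[0, k] \ F` (`0` or `1`), and,
given `a i`, let `b i` be the largest number `≤ k` with `[a i, b i]` disjoint from `F`; if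
`b i + 1 < k` then `b i + 1 ∈ F`, `b i + 2 ∉ F`, `a (i+1) := b i + 2`; if `b i + 1 ≥ k` stop,
`q := i + 1`. (Or: induction on `k`, or use the increasing enumeration of `F ∩ [1, k-1]`:
`F ∩ [1, k-1] = {f_1 < .. < f_(q-1)}`, `b i = f_(i+1) - 1`, `a i = f_i + 1`, with `a 0 = 0` or `1`
according to `0 ∉ F` or `0 ∈ F`, `b (q-1) = k` or `k - 1`.) `q ≥ 2` because `F` meets `[1, k-1]`. -/
def RunStmt : Prop :=
  ∀ (k : ℕ) (F : Finset ℕ), 2 ≤ k → (∀ j ∈ F, j ≤ k) → (∀ j ∈ F, j + 1 ∉ F) →
    (∃ j ∈ F, 1 ≤ j ∧ j ≤ k - 1) →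
    ∃ (q : ℕ) (a b : ℕ → ℕ), 2 ≤ q ∧ a 0 ≤ 1 ∧ (∀ i < q, a i ≤ b i) ∧
      (∀ i, i + 1 < q → a (i + 1) = b i + 2) ∧ k - 1 ≤ b (q - 1) ∧ b (q - 1) ≤ k ∧
      (∀ j ≤ k, (∀ i < q, ¬ (a i ≤ j ∧ j ≤ b i)) → j ∈ F) ∧
      (∀ i < q, b i ≤ k ∧ ∀ j, a i ≤ j → j ≤ b i → j ∉ F)

/-- BRG (bridge): `KK.StrStmt` from `B.StrStmt`, AUG, CLI, CLU, RUN and `KK.CloStmt`.
PROOF. `k = d + 2 ≥ 3`. `b₀ := β / (3 k 2^k)`, `h` from `B.StrStmt` with `b := fun _ => b₀`,
`e x := min (h (2 x) / 4) x` for `x > 0` (and `1` otherwise). Given `g`, put for `y > 0`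
`g' y := min (1/8) (min (g (y/2)) (h y / (4 (d+2) (d+3))))` (and `1` otherwise), `ν := β / k`;
`B.StrStmt` gives `c0, S₀`. `S := {c0/2} ∪ {y/2 : y ∈ S₀}`. `n₀ ≥ 1` so large that
`k^2 / n₀ ≤ c0/2` and, for all `y ∈ S₀`, `k^2 / n₀ ≤ h y / 4` and `k^2 / n₀ ≤ y/2`. Apply it to
`augE H` (AUG).
(I): `μ := c0/2`, `e μ ≤ c0/2`; CLU with `ε = e μ`.
(II): `y ∈ S₀`, `μ := y/2`, `X' := univ.filter X`, RUN gives `q, a, b`. `Struc H d X' q a b μ (g' y)`:
`bal`: `X'.card = dens X * n`. `td H (d+2) X' j = dens (LE ∧ typ X = j) n^(d+2)` (`Set.ncard` of a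
filter; `xc X' f = typ X f`). `miss`: `j ∈ F`, `LE ∧ typ = j` implies `augE ∧ typ = j`,
`tden ≤ g' y`. `pres`: `j ∉ F`, `j ≤ b i ≤ k`: `y ≤ tden (augE) ≤ dens (LE ∧ typ = j) + k^2/n`, so
`≥ y/2`. `KK.CloStmt` gives `KK.Closed H (cls X' d (a i) (b i)) ((d+2) (d+3) g' y)`, so
`ε1 := (d+2) (d+3) g' y ≤ h y / 4`. CLI with `ε = e μ ≤ h y / 4`, `|dens X - 1/2| ≤ g' y ≤ 1/8`.
Finally `Struc` with `g' y` implies `Struc` with `g μ = g (y/2) ≥ g' y`. -/
def BrgStmt : Prop :=
  StrStmt → AugStmt → CliStmt → CluStmt → RunStmt → KK.CloStmt → KK.StrStmt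

end Pool.Agent.KK.B
end

/-! ### KK.StmtsE -/
section
/-!
# Block E (crossings of a gap), author helper68

`V = X ∪ Xᶜ`, uniformity `k = p + q + 2`, the missing type is `(p+1, q+1)` (that many letters `X`
and `Y = Xᶜ`).  Every row is `theorem Exx : StmtExx` with earlier statements as hypotheses.
All densities are densities inside a box `∏ c i`.
-/

set_option autoImplicit false

namespace Pool.Agent.KK.E

/-! ## Definitions -/

section Defs

variable {V : Type} [Fintype V] [DecidableEq V]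

/-- Density of the event `P` among the functions `f` with `f i ∈ c i` for all `i`. -/
noncomputable def dens {ι : Type} [Fintype ι] (c : ι → Finset V) (P : (ι → V) → Prop) : ℝ :=
  ({f : ι → V | (∀ i, f i ∈ c i) ∧ P f}.ncard : ℝ) / ∏ i, ((c i).card : ℝ)

/-- Average of `F` over the functions `f` with `f i ∈ c i` for all `i`. -/
noncomputable def avg {ι : Type} [Fintype ι] [DecidableEq ι] (c : ι → Finset V)
    (F : (ι → V) → ℝ) : ℝ :=
  (∑ f ∈ Fintype.piFinset c, F f) / ∏ i, ((c i).card : ℝ)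

/-- The letter `true` stands for `X`, `false` for the complement. -/
def sd (X : Finset V) (b : Bool) : Finset V := if b then X else Xᶜ

/-- `a` letters `X` and `b` letters `Y`. -/
def lets (X : Finset V) (a b : ℕ) : Fin a ⊕ Fin b → Finset V :=
  Sum.elim (fun _ => X) (fun _ => Xᶜ)

/-- `D(M; a, b)`: the density of the edges among the sets `M ∪ {x_1..x_a} ∪ {y_1..y_b}`. -/
noncomputable def D (H : Finset (Finset V)) (X M : Finset V) (a b : ℕ) : ℝ :=
  dens (lets X a b) fun f => M ∪ Finset.univ.image f ∈ H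

/-- `Mix(M; a, b)`: the density of `(Q, x, y)`, `Q` with `a` letters `X` and `b` letters `Y`, for
which both `M ∪ Q ∪ {x}` and `M ∪ Q ∪ {y}` are edges (`x ∈ X`, `y ∈ Y`). -/
noncomputable def Mix (H : Finset (Finset V)) (X M : Finset V) (a b : ℕ) : ℝ :=
  dens (Sum.elim (lets X a b) (fun t : Bool => sd X t)) fun f =>
    insert (f (Sum.inr true)) (M ∪ Finset.univ.image fun i => f (Sum.inl i)) ∈ H ∧
    insert (f (Sum.inr false)) (M ∪ Finset.univ.image fun i => f (Sum.inl i)) ∈ H

/-- `M` is non-normal for the missing type `(p+1, q+1)`: it can be completed to this type and the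
density of the completions that are edges exceeds `η |M|`. -/
def Non (H : Finset (Finset V)) (X : Finset V) (p q : ℕ) (η : ℕ → ℝ) (M : Finset V) : Prop :=
  (M ∩ X).card ≤ p + 1 ∧ (M \ X).card ≤ q + 1 ∧
    η M.card < D H X M (p + 1 - (M ∩ X).card) (q + 1 - (M \ X).card)

/-- Minimal non-normal set. -/
def Mst (H : Finset (Finset V)) (X : Finset V) (p q : ℕ) (η : ℕ → ℝ) (M : Finset V) : Prop :=
  Non H X p q η M ∧ ∀ M' : Finset V, M' ⊂ M → ¬ Non H X p q η M'

/-- Box with letters `l` in which some positions are fixed by `o`. -/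
def bx (X : Finset V) {ι : Type} (l : ι → Bool) (o : ι → Option V) : ι → Finset V :=
  fun i => (o i).elim (sd X (l i)) fun v => {v}

/-- Standing assumptions: uniform, codegree at least `n/2`, `X` and its complement have
`(1 ± δ) n / 2` elements, `n` is large. -/
structure Amb (H : Finset (Finset V)) (X : Finset V) (p q B : ℕ) (δ : ℝ) : Prop where
  uni : Uni H (p + q + 2)
  dirac : Dirac H (p + q + 2)
  pos : 0 < δ
  small : δ ≤ 1 / 10
  lo : (1 - δ) * (Fintype.card V : ℝ) / 2 ≤ (X.card : ℝ)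
  hi : (X.card : ℝ) ≤ (1 + δ) * (Fintype.card V : ℝ) / 2
  lo' : (1 - δ) * (Fintype.card V : ℝ) / 2 ≤ ((Xᶜ).card : ℝ)
  hi' : ((Xᶜ).card : ℝ) ≤ (1 + δ) * (Fintype.card V : ℝ) / 2
  big : 100 * ((p + q + 2 : ℕ) : ℝ) ^ 2 * ((B + p + q + 2 : ℕ) : ℝ) ≤ δ * (Fintype.card V : ℝ)

/-- The tuple `f` (with `p+1` letters `X` and `q+1` letters `Y`, or any other letters) is generic:
injective, outside `W`, and its image contains no non-normal set. -/
def Gen (H : Finset (Finset V)) (X : Finset V) (p q : ℕ) (η : ℕ → ℝ) (W A : Finset V) {ι : Type}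
    [Fintype ι] (f : ι → V) : Prop :=
  Function.Injective f ∧ (∀ i, f i ∉ A ∪ W) ∧
    ∀ N : Finset V, N ⊆ A ∪ Finset.univ.image f → ¬ Non H X p q η N

/-- `R x`: the image of `f` without the letter `y₀ = f (inr 0)`. -/
def Rx {p q : ℕ} (f : Fin (p + 1) ⊕ Fin (q + 1) → V) : Finset V :=
  (Finset.univ.filter fun i => i ≠ Sum.inr 0).image f

/-- `R y`: the image of `f` without the letter `x₀ = f (inl 0)`. -/
def Ry {p q : ℕ} (f : Fin (p + 1) ⊕ Fin (q + 1) → V) : Finset V :=
  (Finset.univ.filter fun i => i ≠ Sum.inl 0).image f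

/-- Start pattern `Y^q X^p Y`. -/
def low (p q : ℕ) : List Bool := List.replicate q false ++ List.replicate p true ++ [false]

/-- End pattern `X Y^q X^p`. -/
def high (p q : ℕ) : List Bool := true :: (List.replicate q false ++ List.replicate p true)

/-- The tuples with pattern `w` outside the set `S` have density at most `β`. -/
def Alm (X : Finset V) (w : List Bool) (S : Set (List V)) (β : ℝ) : Prop :=
  dens (fun i : Fin w.length => sd X (w.get i)) (fun a => List.ofFn a ∉ S) ≤ β

/-- Crossing from `S` to `T` that contains `M` and avoids `F`. -/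
def Cr (H : Finset (Finset V)) (k : ℕ) (S T : Set (List V)) (M F : Finset V) (l : List V) : Prop :=
  Path H k l ∧ l.length = 3 * k - 2 ∧ l.take (k - 1) ∈ S ∧ l.drop (2 * k - 1) ∈ T ∧
    M ⊆ l.toFinset ∧ Disjoint l.toFinset F

end Defs

/-- The constants. `k = p + q + 2`. -/
structure Cst (k B : ℕ) (η θ : ℕ → ℝ) (h δ : ℝ) : Prop where
  pos : ∀ i, i ≤ k → 0 < η i
  half : ∀ i, i ≤ k → η i ≤ 1 / 2
  hpos : 0 < h
  hsmall : h ≤ 1 / (8 * (k : ℝ) * 2 ^ k)
  step : ∀ i, i < k → 8 * (k : ℝ) * 4 ^ k * ((B : ℝ) + 1) * η i ≤ η (i + 1)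
  tpos : ∀ i, 1 ≤ i → i < k → 0 < θ i
  tsmall : ∀ i, 1 ≤ i → i < k → θ i ≤ (η i * h / (16 * (k : ℝ))) ^ 3
  eta_theta : ∀ i, 1 ≤ i → i < k → 16 * (k : ℝ) * η (i - 1) ≤ (θ i) ^ (2 ^ k)
  dpos : 0 < δ
  dsmall : 100 * (k : ℝ) * 4 ^ k * ((B : ℝ) + 1) * δ ≤ η 0 * h

/-! ## Rows: calculus of densities -/

/-- **E01** Elementary properties of `dens` for a box with nonempty sides.
PROOF. The box is finite with `∏ |c i| > 0` elements (`Fintype.card_piFinset`, ncard of the set =
card of a filter of `Fintype.piFinset c`, classical decidability); monotonicity = `ncard_le_ncard`,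
union bound = `ncard_union_le`, complement = disjoint union of the box. -/
def StmtE01 : Prop :=
  ∀ (V : Type) [Fintype V] [DecidableEq V] (ι : Type) [Fintype ι] (c : ι → Finset V),
    (∀ i, (c i).Nonempty) →
    (∀ P : (ι → V) → Prop, 0 ≤ dens c P ∧ dens c P ≤ 1) ∧
    (∀ P Q : (ι → V) → Prop, (∀ f, (∀ i, f i ∈ c i) → P f → Q f) → dens c P ≤ dens c Q) ∧
    (∀ P Q : (ι → V) → Prop, dens c (fun f => P f ∨ Q f) ≤ dens c P + dens c Q) ∧
    (∀ P : (ι → V) → Prop, dens c P + dens c (fun f => ¬ P f) = 1) ∧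
    (∀ P : (ι → V) → Prop, 0 < dens c P → ∃ f, (∀ i, f i ∈ c i) ∧ P f) ∧
    (∀ (T : Type) [Fintype T] (P : T → (ι → V) → Prop),
      dens c (fun f => ∃ t, P t f) ≤ ∑ t, dens c (P t))

/-- **E02** Pull-back along an injection `φ` of index types (marginals and re-indexing at once).
PROOF. `f ↦ (f ∘ φ, f restricted to the complement of range φ)` is a bijection of the box `c` with
`box (c ∘ φ) × box (c restricted to the complement)`; the event depends on the first component only,
the second box has `∏_{i ∉ range φ} |c i| > 0` elements, which cancels.  (In Lean: the equivalence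
`Equiv.piEquivPiSubtypeProd (· ∈ range φ)` + `Equiv.ofInjective`, or count fibres of
`f ↦ f ∘ φ`: `Finset.card_eq_sum_card_fiberwise`, every fibre has the same cardinality.) -/
def StmtE02 : Prop :=
  ∀ (V : Type) [Fintype V] [DecidableEq V] (ι κ : Type) [Fintype ι] [Fintype κ]
    (c : ι → Finset V) (φ : κ → ι), (∀ i, (c i).Nonempty) → Function.Injective φ →
    ∀ P : (κ → V) → Prop, dens c (fun f => P (f ∘ φ)) = dens (c ∘ φ) P

/-- **E03** Fubini and Markov for `Sum` index types.
PROOF. (1) `Equiv.sumArrowEquivProdArrow`, sum over the first component, `∏` over `Sum` splits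
(`Fintype.prod_sum_type`).  (2) Markov: the average of `dens d (..) ≥ τ · 1[..]`.
(3) the average of `1[A f] · dens d (..) ≤ τ · 1[A f]`. -/
def StmtE03 : Prop :=
  ∀ (V : Type) [Fintype V] [DecidableEq V] (ι κ : Type) [Fintype ι] [DecidableEq ι] [Fintype κ]
    (c : ι → Finset V) (d : κ → Finset V), (∀ i, (c i).Nonempty) → (∀ i, (d i).Nonempty) →
    (∀ P : (ι ⊕ κ → V) → Prop,
      dens (Sum.elim c d) P = avg c (fun f => dens d (fun g => P (Sum.elim f g)))) ∧
    (∀ (P : (ι ⊕ κ → V) → Prop) (τ : ℝ), 0 < τ →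
      τ * dens c (fun f => τ < dens d (fun g => P (Sum.elim f g))) ≤ dens (Sum.elim c d) P) ∧
    (∀ (A : (ι → V) → Prop) (P : (ι ⊕ κ → V) → Prop) (τ : ℝ), 0 ≤ τ →
      (∀ f, (∀ i, f i ∈ c i) → A f → dens d (fun g => P (Sum.elim f g)) ≤ τ) →
      dens (Sum.elim c d) (fun h => A (h ∘ Sum.inl) ∧ P h) ≤ τ * dens c A)

/-- **E04** Degenerate tuples in a box with fixed positions: few.
PROOF. `bx X l o`: a position `i` with `o i = none` is generic, its side has at least `n/3`
elements.  If the event fails, either `f i ∈ W` for a generic `i` (density `≤ |W| / |c i| ≤ 3|W|/n`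
each, E02 with `κ = Unit`), or `f i = f i'`, `i ≠ i'`; by hypothesis at least one of them, say `i`,
is generic; for fixed `f i'` at most one value: density `≤ 1/|c i| ≤ 3/n` (E02 with `κ = Bool`, or
E03).  Union bound over at most `m` and `m^2` events. -/
def StmtE04 : Prop :=
  ∀ (V : Type) [Fintype V] [DecidableEq V] (ι : Type) [Fintype ι] (X W : Finset V)
    (l : ι → Bool) (o : ι → Option V),
    0 < Fintype.card V →
    (∀ b, (Fintype.card V : ℝ) ≤ 3 * ((sd X b).card : ℝ)) →
    (∀ i i' v, o i = some v → o i' = some v → i = i') →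
    dens (bx X l o) (fun f => ¬ (Function.Injective f ∧ ∀ i, o i = none → f i ∉ W)) ≤
      3 * ((Fintype.card ι : ℝ) ^ 2 + (Fintype.card ι : ℝ) * (W.card : ℝ)) / (Fintype.card V : ℝ)

/-- **E05** Window density: in the box `bx X l o` the density of the event the image of the window
`w` is an edge is `D(M; a, b)`, `M` the set of fixed vertices in the window, `a`, `b` the numbers of
its generic positions with letter `X`, `Y`.
PROOF. Choose bijections `Fin a ≃ {i ∈ w | o i = none, l i = true}`, `Fin b ≃ {.. false}`; together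
an injection `φ : Fin a ⊕ Fin b → ι` with `bx X l o ∘ φ = lets X a b`; for `f` in the box the image of
`w` is `M ∪ image (f ∘ φ)` (fixed positions have `f i = v`).  Apply E02. -/
def StmtE05 : Prop :=
  ∀ (V : Type) [Fintype V] [DecidableEq V] (ι : Type) [Fintype ι] [DecidableEq ι]
    (H : Finset (Finset V)) (X M : Finset V) (l : ι → Bool) (o : ι → Option V) (w : Finset ι)
    (a b : ℕ), X.Nonempty → (Xᶜ).Nonempty →
    (∀ v, v ∈ M ↔ ∃ i ∈ w, o i = some v) →
    (w.filter fun i => o i = none ∧ l i = true).card = a →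
    (w.filter fun i => o i = none ∧ l i = false).card = b →
    dens (bx X l o) (fun f => w.image f ∈ H) = D H X M a b

/-- **E06** Codegree: `D(M; a+1, b) + D(M; a, b+1) ≥ 1 - 3δ` if `|M| + a + b + 1 = k`.
PROOF. For `Q` in the box `lets X a b` put `S = M ∪ Q`.  If `Q` is injective and disjoint from `M`,
`|S| = k-1`, so `|N(S)| ≥ n/2` and `#{x ∈ X : S ∪ x ∈ H} + #{y ∉ X : S ∪ y ∈ H} = |N(S)| ≥ n/2`
(`x ∈ S` gives no edge, by `Uni`).  Averaging (E03 with `κ = Unit`, re-index `Fin (a+1) ≃ Fin a ⊕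
Unit` by E02): `|X| D(M;a+1,b) + |Y| D(M;a,b+1) ≥ (n/2)(1 - deg)`, `deg ≤ 3 (k^2 + k·k)/n ≤ δ` (E04
with `W = M`, `o = none`).  As `|X|, |Y| ≤ (1+δ) n/2`: `(1+δ)(D + D') ≥ 1 - δ`, hence
`D + D' ≥ (1-δ)/(1+δ) ≥ 1 - 3δ`. -/
def StmtE06 : Prop :=
  ∀ (V : Type) [Fintype V] [DecidableEq V] (H : Finset (Finset V)) (X M : Finset V)
    (p q B a b : ℕ) (δ : ℝ), Amb H X p q B δ → M.card + a + b + 1 = p + q + 2 →
    1 - 3 * δ ≤ D H X M (a + 1) b + D H X M a (b + 1)

/-- **E07** Symmetry `X ↔ Xᶜ`.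
PROOF. Re-index by `Sum.swap` (E02 for the bijection `Equiv.sumComm`), `Xᶜᶜ = X`,
`M ∩ Xᶜ = M \ X`, `M \ Xᶜ = M ∩ X`; for `Mix` also swap `Bool`. -/
def StmtE07 : Prop :=
  ∀ (V : Type) [Fintype V] [DecidableEq V] (H : Finset (Finset V)) (X : Finset V), X.Nonempty →
    (Xᶜ).Nonempty →
    (∀ M a b, D H Xᶜ M b a = D H X M a b) ∧
    (∀ M a b, Mix H Xᶜ M b a = Mix H X M a b) ∧
    (∀ p q η M, Non H Xᶜ q p η M ↔ Non H X p q η M) ∧
    (∀ p q η M, Mst H Xᶜ q p η M ↔ Mst H X p q η M) ∧
    (∀ p q B δ, Amb H X p q B δ → Amb H Xᶜ q p B δ)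

/-- **E08** Hybrid isoperimetry.  `A`, `B` disjoint events; the product of their densities is at most
the sum over the coordinates `i` of the density of (`f ∈ A`, `f` with coordinate `i` re-sampled
`∈ B`), plus `|ι|` times the density of the rest.
PROOF. Independent `f ∈ A`, `g ∈ B`; order the coordinates `1..m`, `h_t` = first `t` coordinates from
`g`, the others from `f`; `h_0 = f ∈ A`, `h_m = g ∉ A`.  At the first `t` with `h_t ∉ A`: either
`h_t ∈ B` (and `h_(t-1) ∈ A`, they differ in coordinate `t`; the pair `(h_(t-1), g_t)` is uniform) or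
`h_t` is in the rest (`h_t` is uniform).  Union bound.  (Lean: induction over a `Finset s` of
coordinates for the statement `P(f ∈ A, hybrid_s ∉ A) ≤ Σ_{i ∈ s} (flux_i + rest)`, or induction on
`m` for `ι = Fin m` and E02; measure preservation of `(f, g) ↦ (h_t, g_t)` is E02 on the index type
`ι ⊕ ι`.) -/
def StmtE08 : Prop :=
  ∀ (V : Type) [Fintype V] [DecidableEq V] (ι : Type) [Fintype ι] [DecidableEq ι]
    (c : ι → Finset V) (A B : (ι → V) → Prop), (∀ i, (c i).Nonempty) → (∀ f, A f → ¬ B f) →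
    dens c A * dens c B ≤
      (∑ i, dens (Sum.elim c (fun _ : Unit => c i))
        (fun g => A (g ∘ Sum.inl) ∧ B (Function.update (g ∘ Sum.inl) i (g (Sum.inr ()))))) +
      (Fintype.card ι : ℝ) * dens c (fun f => ¬ A f ∧ ¬ B f)

/-- **E09** Growth of an up-set: `q_(j+1) (1 - q_(j+1)) ≤ (j+1) (q_(j+1) - q_j)`, where `q_i` is the
probability that `i` random elements of `X` form a set in the up-set `U`.
PROOF. E08 for `A f = U (image f)`, `B = ¬ A`: the rest is empty.  If `A f` and `¬ A (update f i z)`,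
then `¬ U (image of f on the coordinates ≠ i)` (up-set), so the `i`-th term is at most
`q_(j+1) - P(U (image of f on the coordinates ≠ i)) = q_(j+1) - q_j` (E02 for
`Fin.succAbove i : Fin j → Fin (j+1)`). -/
def StmtE09 : Prop :=
  ∀ (V : Type) [Fintype V] [DecidableEq V] (X : Finset V) (U : Finset V → Prop) (j : ℕ),
    X.Nonempty → (∀ S S', S ⊆ S' → U S → U S') →
    dens (fun _ : Fin (j + 1) => X) (fun f => U (Finset.univ.image f)) *
        (1 - dens (fun _ : Fin (j + 1) => X) (fun f => U (Finset.univ.image f))) ≤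
      ((j : ℝ) + 1) * (dens (fun _ : Fin (j + 1) => X) (fun f => U (Finset.univ.image f)) -
        dens (fun _ : Fin j => X) (fun f => U (Finset.univ.image f)))

/-- **E10** Trichotomy: a set `M` with `D(M; a, b+1) ≥ η₀` and `Mix(M; a, b) ≤ θ` small is flipped:
`D(M; a+1, b) ≤ h`.
PROOF. `Q` in the box `lets X a b`; `u(Q)` = density in `X` of the `x` with `M Q x ∈ H`, `w(Q)` the
same in `Y`.  If `Q` is injective and disjoint from `M` then `u + w ≥ 1 - δ` (codegree,
`|X|,|Y| ≤ (1+δ)n/2`); otherwise `u = w = 0`, density `≤ δ` (E04).  `τ := η₀ h/(16k)`,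
`A' = {w ≥ τ, u < τ}`, `B' = {u ≥ τ, w < τ}`.  `Mix = avg (u w) ≥ τ^2 P(u ≥ τ, w ≥ τ)`, so
`P(u ≥ τ, w ≥ τ) ≤ θ/τ^2 ≤ τ` (as `θ ≤ τ^3`).  Rest outside `A' ∪ B'`: `≤ τ + δ` (if `u, w < τ` then
degenerate).  FLUX of coordinate `i` (E08): fix the other coordinates `Q'`; `Z_A`, `Z_B` = values of
the coordinate for which the tuple is in `A'`, `B'`.  If the coordinate has letter `Y`: for
`z ∈ Z_A`, `y ∈ Z_B`: `M Q' z y ∈ H` for at most `τ|Y| |Z_B|` pairs (because `w(Q' y) < τ`) and
`∉ H` for at most `(τ + δ)|Y| |Z_A|` pairs (because `w(Q' z) ≥ 1 - δ - τ`), so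
`|Z_A||Z_B| ≤ (2τ+δ)|Y|^2`.  Letter `X`: `∈ H` for at most `τ |X| |Z_A|` pairs, `∉ H` for at most
`(τ+δ)|X| |Z_B|` pairs: same bound.  So flux `≤ 2τ + δ` and E08 gives
`P(A') P(B') ≤ k (2τ + δ) + k (τ + δ) ≤ 5 k τ` (`δ ≤ τ`).  `D(M;a,b+1) = avg w ≤ P(A') + τ + τ`, so
`P(A') ≥ η₀ - 2τ ≥ η₀/2`, `P(B') ≤ 10 k τ/η₀ = 10 h/16`, `D(M;a+1,b) = avg u ≤ P(B') + 2τ ≤ h`. -/
def StmtE10 : Prop :=
  ∀ (V : Type) [Fintype V] [DecidableEq V] (H : Finset (Finset V)) (X M : Finset V)
    (p q B a b : ℕ) (δ η₀ θ h : ℝ), Amb H X p q B δ → M.card + a + b + 1 = p + q + 2 →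
    0 < η₀ → η₀ ≤ 1 → 0 < h → h ≤ 1 →
    θ ≤ (η₀ * h / (16 * ((p + q + 2 : ℕ) : ℝ))) ^ 3 →
    δ ≤ η₀ * h / (16 * ((p + q + 2 : ℕ) : ℝ)) →
    η₀ ≤ D H X M a (b + 1) → Mix H X M a b ≤ θ → D H X M (a + 1) b ≤ h

/-- **E11** Markov: a normal set is completed to a non-normal set by few tuples.
PROOF. `s`, `t` = numbers of letters `X`, `Y` in `l`.  If `(M ∩ X).card > p+1` or
`(M \ X).card > q+1` the event is empty.  Otherwise `a = p+1-|M ∩ X|`, `b = q+1-|M \ X|`, and
`D(M;a,b) ≤ η |M|` since `M` is normal.  If the event is not empty, `s ≤ a`, `t ≤ b`, and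
`D(M; a, b)` = average over `z` of `D(M ∪ z; a-s, b-t)` (E02 for a bijection
`Fin a ⊕ Fin b ≃ ι ⊕ (Fin (a-s) ⊕ Fin (b-t))` respecting letters, E03(1)); Markov (E03(2)) with
`τ = η(|M| + |ι|)`. -/
def StmtE11 : Prop :=
  ∀ (V : Type) [Fintype V] [DecidableEq V] (ι : Type) [Fintype ι] (H : Finset (Finset V))
    (X M : Finset V) (p q : ℕ) (η : ℕ → ℝ) (l : ι → Bool), X.Nonempty → (Xᶜ).Nonempty →
    0 ≤ η M.card → 0 < η (M.card + Fintype.card ι) → ¬ Non H X p q η M →
    dens (fun i => sd X (l i)) (fun z => (M ∪ Finset.univ.image z).card =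
        M.card + Fintype.card ι ∧ Non H X p q η (M ∪ Finset.univ.image z)) ≤
      η M.card / η (M.card + Fintype.card ι)

/-- **E12** Most completions of a set `A`, all of whose subsets are normal, are generic over `A`.
PROOF. `¬ Gen` implies: `z` not injective or `z i ∈ A ∪ W` for some `i` (density `≤ δ` by E04 with
`o = none`, `|A ∪ W| ≤ B + 2k`, and `Amb.big`), or: `z` injective, outside `A`, and there are
`A' ⊆ A` and a nonempty set `J` of coordinates with `Non (A' ∪ z_J)` (`J` nonempty because all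
subsets of `A` are normal).  For fixed `A'`, `J`: E02 for the inclusion of `J` and E11:
`≤ η |A'| / η (|A'| + |J|) ≤ ρ`.  At most `2^|A| 2^|ι| ≤ 2^k` pairs. -/
def StmtE12 : Prop :=
  ∀ (V : Type) [Fintype V] [DecidableEq V] (ι : Type) [Fintype ι] (H : Finset (Finset V))
    (X A W : Finset V) (p q B : ℕ) (δ ρ : ℝ) (η : ℕ → ℝ) (l : ι → Bool), Amb H X p q B δ →
    (∀ i, i ≤ p + q + 2 → 0 < η i) → 0 ≤ ρ →
    (∀ i i', i < i' → i' ≤ p + q + 2 → η i ≤ ρ * η i') →
    A.card + Fintype.card ι ≤ p + q + 2 → W.card ≤ B + (p + q + 2) + 1 →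
    (∀ A' : Finset V, A' ⊆ A → ¬ Non H X p q η A') →
    dens (fun i => sd X (l i)) (fun z => ¬ Gen H X p q η W A z) ≤ 2 ^ (p + q + 2) * ρ + δ

/-- Assumption (GA) of the supply lemma: every minimal non-normal set outside `F'` is mono-coloured
and flipped. -/
def GA {V : Type} [Fintype V] [DecidableEq V] (H : Finset (Finset V)) (X : Finset V) (p q : ℕ)
    (η : ℕ → ℝ) (h : ℝ) (F' : Finset V) : Prop :=
  ∀ M : Finset V, Mst H X p q η M → Disjoint M F' →
    (M ⊆ X ∧ D H X M (p + 2 - M.card) q ≤ h) ∨ (M ⊆ Xᶜ ∧ D H X M p (q + 2 - M.card) ≤ h)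

/-- **E13** The inequality of a single vertex `v ∈ X`: for random `f` (letters `X^(p+1) Y^(q+1)`)
the density of (generic, `v + R y` is an edge) is at most the density of (generic, `v + R x` is not
an edge).
PROOF. `𝓜` = minimal non-normal sets `M ⊆ X` disjoint from `F'`; `U S := ∃ A ⊆ S, v ∉ A,
insert v A ∈ 𝓜` (up-set); `q_i` = its density for `i` letters `X` (E09).
(1) If `f` is generic (`Gen` with `A = ∅`, `W = F'`), `v ∉ im f` and `insert v (R y) ∈ H`, then
`e = insert v (R y)` has type `(p+1, q+1)`, `D(e; 0, 0) = 1 > η k`, so `e` is non-normal and contains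
a minimal non-normal set `M`; `v ∈ M` (otherwise `M ⊆ im f`), `M` is disjoint from `F'`, so by (GA)
mono-coloured and `M ⊆ X`; thus `U {x_1..x_p}` (the letters `X` other than `x_0`): density `≤ q_p`
(E02 for the injection `i ↦ inl (i.succ)`).
(2) If `U {x_0..x_p}` and `f` generic, `v ∉ im f`, `insert v (R x) ∉ H`: this is the event on the
right.  So right side `≥ q_(p+1) - P(U {x_0..x_p}, bad)`, bad = (`¬ Gen` or `v ∈ im f` or
`insert v (R x) ∈ H`).  For `I ⊆ Fin (p+1)` let `E_I`: `f` injective on `I`, `v ∉ f(I)`,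
`insert v (f(I)) ∈ 𝓜`.  `U {x_0..x_p}` is the union of the `E_I`, and `P(E_I) ≤ q_(p+1)`.  Given
`f` on `I` with `E_I`, `A = f(I)`: all subsets of `A` are proper subsets of `insert v A`, so normal;
E12 for the other coordinates (`ι` = complement of `inl '' I`, `W = F' ∪ {v}`,
`|A| + |ι| = k`): `¬ Gen` or `v ∈ im f` has conditional density `≤ 2^k ρ + δ`, `ρ = 1/(8k4^k)`
(`Cst.step`); and `insert v (R x) ∈ H` has conditional density `D(insert v A; p+1-|A|, q) ≤ h` by
(GA) (`p + 2 - |insert v A| = p+1-|A|`; E05 or E02).  So (E03(3)) `P(E_I, bad) ≤ (h + 2^k ρ + δ)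
P(E_I)` and `P(U, bad) ≤ 2^(p+1) (h + 2^k ρ + δ) q_(p+1) ≤ 2^k · 3/(8k 2^k) q_(p+1) ≤
q_(p+1)/(2(p+1))`.
(3) `q_(p+1) ≤ 1/2`: `I = ∅` is impossible (`{v}` is normal), and for `I ≠ ∅` E11 with `M = {v}`
gives `P(E_I) ≤ η 1/η(|I|+1) ≤ ρ`; `2^k ρ ≤ 1/2`.  E09 (`j = p`):
`q_(p+1) - q_p ≥ q_(p+1)(1 - q_(p+1))/(p+1) ≥ q_(p+1)/(2(p+1)) ≥ P(U, bad)`.
So left side `≤ q_p ≤ q_(p+1) - P(U, bad) ≤` right side. -/
def StmtE13 : Prop :=
  ∀ (V : Type) [Fintype V] [DecidableEq V] (H : Finset (Finset V)) (X F' : Finset V)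
    (p q B : ℕ) (δ h : ℝ) (η θ : ℕ → ℝ) (v : V), Amb H X p q B δ →
    Cst (p + q + 2) B η θ h δ → GA H X p q η h F' → F'.card ≤ B + (p + q + 2) →
    ¬ Non H X p q η ∅ → v ∈ X → v ∉ F' → ¬ Non H X p q η {v} →
    dens (lets X (p + 1) (q + 1)) (fun f => Gen H X p q η F' ∅ f ∧
        v ∉ Finset.univ.image f ∧ insert v (Ry f) ∈ H) ≤
      dens (lets X (p + 1) (q + 1)) (fun f => Gen H X p q η F' ∅ f ∧
        v ∉ Finset.univ.image f ∧ insert v (Rx f) ∉ H)

/-- **E14** Exact count.  `Σ_v (P(gen, v ∉ im f, v+Rx ∈ H) + P(gen, v ∉ im f, v+Ry ∈ H)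
- P(gen, v ∉ im f)) ≥ k P(gen)`.
PROOF. For each generic `f` (`Gen` with `A = ∅`): `im f` has `k` elements and is not an edge
(otherwise it is non-normal, as `D(im f; 0, 0) = 1 > η k`, `η k ≤ 1/2`).  `|N(R x)|, |N(R y)| ≥ n/2`,
`|R x| = |R y| = k-1`, neither contains an element of `im f` (`insert y_0 (R x) = im f ∉ H`, the
other elements lie in `R x`).  So `#{v ∉ im f : v + R x ∈ H} + #{v ∉ im f : v + R y ∈ H} ≥ n` and
`#{v ∉ im f} = n - k`.  Sum over `f`, exchange the sums (dens = counting / constant). -/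
def StmtE14 : Prop :=
  ∀ (V : Type) [Fintype V] [DecidableEq V] (H : Finset (Finset V)) (X F' : Finset V)
    (p q : ℕ) (η : ℕ → ℝ), Uni H (p + q + 2) → Dirac H (p + q + 2) →
    X.Nonempty → (Xᶜ).Nonempty → η (p + q + 2) < 1 →
    ((p + q + 2 : ℕ) : ℝ) * dens (lets X (p + 1) (q + 1)) (fun f => Gen H X p q η F' ∅ f) ≤
      ∑ v : V,
        (dens (lets X (p + 1) (q + 1)) (fun f => Gen H X p q η F' ∅ f ∧
            v ∉ Finset.univ.image f ∧ insert v (Rx f) ∈ H) +
          dens (lets X (p + 1) (q + 1)) (fun f => Gen H X p q η F' ∅ f ∧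
            v ∉ Finset.univ.image f ∧ insert v (Ry f) ∈ H) -
          dens (lets X (p + 1) (q + 1)) (fun f => Gen H X p q η F' ∅ f ∧
            v ∉ Finset.univ.image f))

/-- Good minimal non-normal sets: bi-coloured or mixed. -/
def GoodM {V : Type} [Fintype V] [DecidableEq V] (H : Finset (Finset V)) (X : Finset V) (p q : ℕ)
    (η θ : ℕ → ℝ) (M : Finset V) : Prop :=
  Mst H X p q η M ∧
    (((M ∩ X).Nonempty ∧ (M \ X).Nonempty) ∨
      (M.Nonempty ∧ M ⊆ X ∧ M.card ≤ p + 1 ∧ θ M.card < Mix H X M (p + 1 - M.card) q) ∨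
      (M.Nonempty ∧ M ⊆ Xᶜ ∧ M.card ≤ q + 1 ∧ θ M.card < Mix H X M p (q + 1 - M.card)))

/-- No flipped vertices. -/
def NF {V : Type} [Fintype V] [DecidableEq V] (H : Finset (Finset V)) (X : Finset V) (p q : ℕ) :
    Prop :=
  (∀ v ∈ X, 1 / 4 ≤ D H X {v} (p + 1) q) ∧ (∀ v ∉ X, 1 / 4 ≤ D H X {v} p (q + 1))

/-- **E15** SUPPLY LEMMA.  Either at least `k` vertices `z` with `{z}` good, or every set `F` with
at most `B` elements is avoided by a good set.
PROOF. `C` = vertices `v` with `Non {v}`.  Each `{v}`, `v ∈ C`, is minimal (∅ is normal) and good: if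
`v ∈ X` and `Mix H X {v} p q ≤ θ 1`, then E10 (`M = {v}`, `a = p`, `b = q`, `η₀ = η 1 <
D(v; p, q+1)`) gives `D(v; p+1, q) ≤ h < 1/4`, against (NF); `v ∉ X` by symmetry (E07).  If
`|C| ≥ k` we are done.  Otherwise let `F' = F ∪ C`, `|F'| ≤ B + k`, and suppose no good set is
disjoint from `F` (so none is disjoint from `F'`).  Then (GA) holds: let `M` be minimal non-normal,
disjoint from `F'`; `M ≠ ∅`; not bi-coloured, so `M ⊆ X` (then `|M| ≤ p+1` by `Non`, and
`Mix H X M (p+1-|M|) q ≤ θ |M|`, E10 with `a = p+1-|M|`, `b = q` gives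
`D(M; p+2-|M|, q) ≤ h`) or `M ⊆ Xᶜ` (symmetric).  Now E14; P(gen) ≥ 1/2 by E12 with `A = ∅`
(`2^k ρ + δ ≤ 1/2`).  The term of `v` in the sum of E14 is: for `v ∉ F'`: `≤ 0` by E13 (`v ∈ X`:
P(gen, v ∉ im, v+Rx ∉ H) = P(gen, v ∉ im) - P(gen, v ∉ im, v+Rx ∈ H)); `v ∉ X`: E13 for
`(Xᶜ, q, p)` and the re-indexing `Sum.swap`); for `v ∈ C`: `≤ P(gen)`; for `v ∈ F \ C`: `≤ η 1`
(`v ∈ X`: the first density is at most the third one, the second one is at most
`D({v}; p, q+1) ≤ η 1`, `v` being normal; `v ∉ X` symmetric).  So `k P(gen) ≤ (k-1) P(gen) + B η 1`,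
`1/2 ≤ P(gen) ≤ B η 1 ≤ 1/16`, contradiction. -/
def StmtE15 : Prop :=
  ∀ (V : Type) [Fintype V] [DecidableEq V] (H : Finset (Finset V)) (X : Finset V)
    (p q B : ℕ) (δ h : ℝ) (η θ : ℕ → ℝ), Amb H X p q B δ → Cst (p + q + 2) B η θ h δ →
    NF H X p q → D H X ∅ (p + 1) (q + 1) ≤ η 0 →
    (∃ Z : Finset V, Z.card = p + q + 2 ∧ ∀ z ∈ Z, GoodM H X p q η θ {z}) ∨
      ∀ F : Finset V, F.card ≤ B → ∃ M, GoodM H X p q η θ M ∧ Disjoint M F

/-! ## Rows: the gadgets -/

/-- **E16** A function with all windows in `H` gives a tight path.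
PROOF. `List.nodup_ofFn`; an infix `s` of `List.ofFn f` of length `k` is
`(List.ofFn f).drop a |>.take k` for some `a` with `a + k ≤ m`; its `toFinset` is the image of the
window `[a, a+k)`. -/
def StmtE16 : Prop :=
  ∀ (V : Type) [Fintype V] [DecidableEq V] (H : Finset (Finset V)) (k m : ℕ) (f : Fin m → V),
    Function.Injective f →
    (∀ a : ℕ, a + k ≤ m →
      ((Finset.univ.filter fun i : Fin m => a ≤ (i : ℕ) ∧ (i : ℕ) < a + k).image f) ∈ H) →
    Path H k (List.ofFn f)

/-- **E17** Ordinary windows: a normal set `M'` (completable to the missing type) and a window of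
type one step away from the missing one: almost all completions are edges.
PROOF. E06 with `(a, b) = (p+1-|M' ∩ X|, q-|M' \ X|)` resp. `(p-|M' ∩ X|, q+1-|M' \ X|)`, the other
summand is `D(M'; p+1-|M' ∩ X|, q+1-|M' \ X|) ≤ η |M'|`. -/
def StmtE17 : Prop :=
  ∀ (V : Type) [Fintype V] [DecidableEq V] (H : Finset (Finset V)) (X M' : Finset V)
    (p q B : ℕ) (δ : ℝ) (η : ℕ → ℝ), Amb H X p q B δ → ¬ Non H X p q η M' →
    (M' ∩ X).card ≤ p + 1 → (M' \ X).card ≤ q + 1 →
    ((M' \ X).card ≤ q → 1 - 3 * δ - η M'.card ≤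
      D H X M' (p + 2 - (M' ∩ X).card) (q - (M' \ X).card)) ∧
    ((M' ∩ X).card ≤ p → 1 - 3 * δ - η M'.card ≤
      D H X M' (p - (M' ∩ X).card) (q + 2 - (M' \ X).card))

/-- The letters of a crossing: `Y^q X^p Y | Y^(q+1) X^(p+1) | X Y^q X^p`. -/
def word (p q : ℕ) : List Bool :=
  low p q ++ (List.replicate (q + 1) false ++ List.replicate (p + 1) true) ++ high p q

/-- **E18** Letter counts in the windows of `word p q` (length `3k-2`): the windows starting before
`k-1` have `p` letters `X`, the one starting at `k-1` has `p+1`, the later ones `p+2`.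
PROOF. The first `2k-2` letters `Y^q X^p Y Y^(q+1) X^p` are `k`-periodic with `p` letters `X` in a
period; the letters from `k` on, `Y^q X^(p+1) X Y^q X^p`, are `k`-periodic with `p+2` letters `X` in
a period. Use `getD` and explicit formulas for the letters (`i < q`, `i < q+p`, ..), then count. -/
def StmtE18 : Prop :=
  ∀ p q a : ℕ, a + (p + q + 2) ≤ 3 * (p + q + 2) - 2 →
    (word p q).length = 3 * (p + q + 2) - 2 ∧
    ((Finset.range (p + q + 2)).filter fun i => (word p q).getD (a + i) false = true).card =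
      (if a < p + q + 1 then p else if a = p + q + 1 then p + 1 else p + 2)

/-- **E19** Crossing with a bi-coloured minimal non-normal set.
PROOF. `k = p+q+2`, `μ = |M|`, `M ∩ X` and `M \ X` nonempty.  Positions `Fin (3k-2)` with letters
`word p q`; fixed positions: `k-1, …, k-2+|M \ X|` carry the elements of `M \ X` (these positions have
letter `Y`, `|M \ X| ≤ q+1`), `2k-1-|M ∩ X|, …, 2k-2` carry the elements of `M ∩ X`
(`|M ∩ X| ≤ p+1`).  Box `bx X l o`.  The window starting at `k-1` contains all of `M`; by E05/E18 its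
density is `D(M; p+1-|M ∩ X|, q+1-|M \ X|) > η μ`.  A window starting at `a < k-1` does not contain
position `2k-2`, its fixed vertices form a proper subset `M'` of `M`, it has `p` letters `X`: by
E05/E18 its density is `D(M'; p-|M' ∩ X|, q+2-|M' \ X|) ≥ 1-3δ-η(μ-1)` (E17; `M'` is normal;
`|M' ∩ X| ≤ p` because the window has only `p` letters `X`; `η` is increasing).  A window starting at
`a > k-1` misses position `k-1` and has `p+2` letters `X`: the same with E17(1).  The first `k-1`
positions have pattern `low p q`, the last `k-1` pattern `high p q`, no fixed position among them: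
failing densities `≤ β` (E02).  Not injective or generic vertex in `F ∪ M`: `≤ δ` (E04, `Amb.big`).
Total failing density `≤ 2k(3δ + η(μ-1)) + 2β + δ < η μ` by `Cst` (`β ≤ δ`).  So some `f` has all
properties (E01); `List.ofFn f` is the crossing (E16). -/
def StmtE19 : Prop :=
  ∀ (V : Type) [Fintype V] [DecidableEq V] (H : Finset (Finset V)) (X M F : Finset V)
    (p q B : ℕ) (δ h β : ℝ) (η θ : ℕ → ℝ) (S T : Set (List V)), Amb H X p q B δ →
    Cst (p + q + 2) B η θ h δ → β ≤ δ → Mst H X p q η M → (M ∩ X).Nonempty →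
    (M \ X).Nonempty → F.card ≤ B → Disjoint M F → Alm X (low p q) S β →
    Alm X (high p q) T β → ∃ l, Cr H (p + q + 2) S T M F l

/-- **E20** Blow-up with two copies of every vertex (iterated Cauchy-Schwarz / Jensen).
PROOF. Induction over the coordinates: doubling one coordinate `i` replaces the density `d` of an
event by at least `d^2` (for fixed other coordinates the density of `z` with `D` is squared, the
average of squares is at least the square of the average).  After doubling all `m` coordinates: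
`≥ d^(2^m)`.  (Lean: induction on `m` for `ι = Fin m` with an additional parameter box, or on a
`Finset` of doubled coordinates.) -/
def StmtE20 : Prop :=
  ∀ (V : Type) [Fintype V] [DecidableEq V] (ι : Type) [Fintype ι] (c : ι → Finset V)
    (P : (ι → V) → Prop) (d : ℝ), (∀ i, (c i).Nonempty) → 0 ≤ d → d ≤ dens c P →
    d ^ (2 ^ Fintype.card ι) ≤
      dens (fun z : ι × Bool => c z.1) (fun g => ∀ s : ι → Bool, P fun i => g (i, s i))

/-- **E21** Crossing with a mixed minimal non-normal set inside `X`.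
PROOF. `μ = |M|`, `1 ≤ μ ≤ p+1`.  Positions and letters as in E19, but now the fixed positions are
only `2k-1-μ, …, 2k-2` (letters `X`), in any order of `M`.  The windows containing all of `M` are
those starting at `k-1, …, 2k-1-μ`.  Blow-up: the event `P` of the triples `(Q, x, y)` of `Mix`,
index type `(Fin (p+1-μ) ⊕ Fin q) ⊕ Bool` (`≤ k` coordinates, as `p+1-μ+q+2 ≤ k`), density `> θ μ`;
E20: the density of blow-ups with two copies is `≥ (θ μ)^(2^k)` (`θ μ ≤ 1`).  Place: `y` (copy 0) at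
position `k-1`, `x` (copy 0) at position `2k-1`, the copies 0 of `Q` at positions `k, …, 2k-2-μ`
(letters `Y^q X^(p+1-μ)`), the copies 1 of `Q`, in the same order, at positions `2k, …, 3k-2-μ`
(letters `Y^q X^(p+1-μ)`).  The window starting at `k-1` is `M ∪ Q⁰ ∪ y`, the window starting at
`k-1+i`, `1 ≤ i ≤ k-μ`, is `M ∪ x ∪` (copy 1 of the first `i-1` coordinates of `Q`, copy 0 of the
others): edges.  So the event all windows containing `M` are edges has density `≥ (θ μ)^(2^k)` in
the box (E02 for the injection of the used positions).  Every other window contains a proper subset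
of `M` and has `p` (start `< k-1`) or `p+2` (start `> 2k-1-μ`) letters `X`; failing density
`≤ 3δ + η(μ-1)` (E05, E17, E18).  Ends, injectivity, `F` as in E19.  Total failing
`≤ 2k(3δ + η(μ-1)) + 2β + δ < (θ μ)^(2^k)` by `Cst.eta_theta`, `Cst.dsmall`
(`100 k δ ≤ η 0 ≤ η (μ-1)`). -/
def StmtE21 : Prop :=
  ∀ (V : Type) [Fintype V] [DecidableEq V] (H : Finset (Finset V)) (X M F : Finset V)
    (p q B : ℕ) (δ h β : ℝ) (η θ : ℕ → ℝ) (S T : Set (List V)), Amb H X p q B δ →
    Cst (p + q + 2) B η θ h δ → β ≤ δ → Mst H X p q η M → M.Nonempty → M ⊆ X →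
    M.card ≤ p + 1 → θ M.card < Mix H X M (p + 1 - M.card) q → F.card ≤ B → Disjoint M F →
    Alm X (low p q) S β → Alm X (high p q) T β → ∃ l, Cr H (p + q + 2) S T M F l

/-- **E22** Reversal and exchange of colours: the case `M ⊆ Xᶜ`.
PROOF. Apply E21 to `(Xᶜ, q, p)` (E07) and the sets `S₁ = {a | a.reverse ∈ T}`,
`T₁ = {a | a.reverse ∈ S}`: the pattern `low q p` for `Xᶜ` is `X^p Y^q X` in letters of `X`, the
reverse of `high p q = X Y^q X^p`; `high q p` for `Xᶜ` is `Y X^p Y^q`, the reverse of `low p q`.  So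
`Alm Xᶜ (low q p) S₁ β` follows from `Alm X (high p q) T β` (re-index by `Fin.rev`, E02), and the
other one in the same way.  The reverse of the resulting path is the crossing (`Path` is invariant
under `List.reverse`: infixes of the reverse are reverses of infixes;
`(l.reverse).take (k-1) = (l.drop (2k-1)).reverse` because `l.length = 3k-2`). -/
def StmtE22 : Prop :=
  ∀ (V : Type) [Fintype V] [DecidableEq V] (H : Finset (Finset V)) (X M F : Finset V)
    (p q B : ℕ) (δ h β : ℝ) (η θ : ℕ → ℝ) (S T : Set (List V)), Amb H X p q B δ →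
    Cst (p + q + 2) B η θ h δ → β ≤ δ → Mst H X p q η M → M.Nonempty → M ⊆ Xᶜ →
    M.card ≤ q + 1 → θ M.card < Mix H X M p (q + 1 - M.card) → F.card ≤ B → Disjoint M F →
    Alm X (low p q) S β → Alm X (high p q) T β → ∃ l, Cr H (p + q + 2) S T M F l

/-! ## Rows: constants, choice of the partition, final theorems -/

/-- **E23** Constants.
PROOF. `h = 1/(8 k 2^k)`.  `G x = min (x/(8k4^k(B+1))) (((x h/(16k))^3)^(2^k)/(16k))`, which is
positive and at most `x` for `0 < x ≤ 1/2`; `e 0 = 1/2`, `e (i+1) = G (e i)`, `η μ = e (k - μ)`,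
`θ i = (η i h/(16k))^3`, `δ₀ = η 0 · h/(100 k 4^k (B+1))`. -/
def StmtE23 : Prop :=
  ∀ k B : ℕ, 2 ≤ k → ∃ (η θ : ℕ → ℝ) (h δ₀ : ℝ), 0 < δ₀ ∧ δ₀ ≤ 1 / 10 ∧
    ∀ δ, 0 < δ → δ ≤ δ₀ → Cst k B η θ h δ

/-- **E24** Choice of the partition: after moving few vertices there are no flipped vertices.
PROOF. `X' = {v | D H X {v} p (q+1) ≤ D H X {v} (p+1) q}`.  By E06 (`M = {v}`, `a = p`, `b = q`) the
sum of the two densities is `≥ 1 - 3δ`, the larger one is `≥ 1/2 - 2δ`.  `v ∈ X \ X'`:
`D(v; p, q+1) ≥ 1/2 - 2δ ≥ 1/3`, and the average of `D(v; p, q+1)` over `v ∈ X` is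
`D(∅; p+1, q+1) ≤ ε` (E02, E03), so `|X \ X'| ≤ 3ε |X|`; `v ∈ X' \ X`: `D(v; p+1, q) ≥ 1/3`, average
over `v ∉ X` again `D(∅; p+1, q+1)`, so `|X' \ X| ≤ 3ε |Xᶜ|`.  Together `|X Δ X'| ≤ 3ε n`.
CHANGE OF THE BOX: for two boxes with sides `c i`, `c' i`, `|c i|, |c' i| ≥ n/4` and
`|c i Δ c' i| ≤ 3εn`, the densities of the same event differ by at most `24 ε m`, `m` = number of
coordinates (replace one coordinate at a time: for fixed other coordinates
`| |c ∩ P|/|c| - |c' ∩ P|/|c'| | ≤ 2 |c Δ c'|/min(|c|,|c'|) ≤ 24 ε`).  So with `X'` instead of `X`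
every `D`, `Alm` density changes by at most `24 k ε`. -/
def StmtE24 : Prop :=
  ∀ (V : Type) [Fintype V] [DecidableEq V] (H : Finset (Finset V)) (X : Finset V)
    (p q B : ℕ) (δ ε : ℝ), Amb H X p q B δ → 0 ≤ ε → 100 * ((p + q + 2 : ℕ) : ℝ) * ε ≤ δ →
    δ ≤ 1 / 40 → D H X ∅ (p + 1) (q + 1) ≤ ε →
    ∃ X' : Finset V, NF H X' p q ∧ Amb H X' p q B (4 * δ) ∧
      D H X' ∅ (p + 1) (q + 1) ≤ ε + δ ∧
      ∀ (w : List Bool) (S : Set (List V)) (β : ℝ), w.length ≤ p + q + 2 → Alm X w S β →
        Alm X' w S (β + δ)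

/-- **E25** ONE GAP.  Every set `F` with at most `B` elements is avoided by a crossing from `S` to
`T`, or there are `k` vertices each of which lies in such crossings.
PROOF. Take `η, θ, h, δ₀` from E23, `ε = δ₀/(1000 k)`-small, apply E24 (with `δ = δ₀/8`-ish), then
E15 for `X'`; a good `M` gives a crossing by E19 / E21 / E22 (`Alm X'` from `Alm X`). -/
def StmtE25 : Prop :=
  ∀ p q B : ℕ, ∃ ε : ℝ, 0 < ε ∧ ∃ n₀ : ℕ, ∀ (V : Type) [Fintype V] [DecidableEq V]
    (H : Finset (Finset V)) (X : Finset V), n₀ ≤ Fintype.card V → Uni H (p + q + 2) →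
    Dirac H (p + q + 2) → |(X.card : ℝ) - (Fintype.card V : ℝ) / 2| ≤ ε * Fintype.card V →
    D H X ∅ (p + 1) (q + 1) ≤ ε → ∀ S T : Set (List V), Alm X (low p q) S ε →
    Alm X (high p q) T ε →
    (∃ Z : Finset V, Z.card = p + q + 2 ∧ ∀ z ∈ Z, ∀ F : Finset V, F.card ≤ B → z ∉ F →
        ∃ l, Cr H (p + q + 2) S T {z} F l) ∨
      ∀ F : Finset V, F.card ≤ B → ∃ l, Cr H (p + q + 2) S T ∅ F l

/-- **E26** ALL GAPS.  `J` = set of gaps `j`, `1 ≤ j ≤ k-1`, `2|J| ≤ k`; `S j`, `T j` = classes below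
and above the gap.  There are pairwise disjoint crossings `up j : S j → T j` and
`dn j : T j → S j`.
PROOF. E25 with `p = j-1`, `q = k-1-j`, `B = 3k^2`, for `(S j, T j)` and for
`({a | a.reverse ∈ S j}, {a | a.reverse ∈ T j})` (the reversed paths go from `T j` to `S j`).  Call
`(j, up)`, `(j, down)` a task; at most `k` tasks.  For the tasks in the first alternative of E25
choose distinct vertices `z_t` greedily (`k` candidates each).  Then construct the crossings one after
the other: task `t` avoids all vertices of the crossings constructed before and all `z_s`, `s ≠ t`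
(at most `(k-1)(3k-2) + k ≤ B` vertices; `z_t` is not among them, as the earlier crossings avoid
it). -/
def StmtE26 : Prop :=
  ∀ k : ℕ, 3 ≤ k → ∃ ε : ℝ, 0 < ε ∧ ∃ n₀ : ℕ, ∀ (V : Type) [Fintype V] [DecidableEq V]
    (H : Finset (Finset V)) (X : Finset V) (J : Finset ℕ) (S T : ℕ → Set (List V)),
    n₀ ≤ Fintype.card V → Uni H k → Dirac H k →
    |(X.card : ℝ) - (Fintype.card V : ℝ) / 2| ≤ ε * Fintype.card V → 2 * J.card ≤ k →
    (∀ j ∈ J, 1 ≤ j ∧ j + 1 ≤ k ∧ D H X ∅ j (k - j) ≤ ε ∧
      Alm X (low (j - 1) (k - 1 - j)) (S j) ε ∧ Alm X (high (j - 1) (k - 1 - j)) (T j) ε ∧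
      Alm X (low (j - 1) (k - 1 - j)).reverse (S j) ε ∧
      Alm X (high (j - 1) (k - 1 - j)).reverse (T j) ε) →
    ∃ up dn : ℕ → List V,
      (∀ j ∈ J, Cr H k (S j) (T j) ∅ ∅ (up j) ∧ Cr H k (T j) (S j) ∅ ∅ (dn j)) ∧
      (∀ i ∈ J, ∀ j ∈ J, List.Disjoint (up i) (dn j)) ∧
      (∀ i ∈ J, ∀ j ∈ J, i ≠ j → List.Disjoint (up i) (up j) ∧ List.Disjoint (dn i) (dn j))

end Pool.Agent.KK.E
end

/-! ### KK.StmtsE2 -/
section
/-!
# Block E, bridge to the case tree (replaces E26)
-/

set_option autoImplicit false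

namespace Pool.Agent.KK.E

/-- **E_CRS** `CrsStmt` (StmtsD) from `StmtE25`.
PROOF.  `k = d + 2`, `C₀ = 3 k - 2`.  For every `j` with `1 ≤ j ≤ d + 1` put `p = j - 1`,
`q = d + 1 - j` (`p + q + 2 = d + 2`) and take `ε_j`, `n_j` from E25 for `(p, q, B = C)`; `γ` =
minimum over `j` of `ε_j / 3 ^ k` (and `≤ 1/6`), `n₀` = maximum of the `n_j` and `1`.  `|X|`, `|Xᶜ| ≥ n/3` as
`γ ≤ 1/6`.
(1) `D H X ∅ (p+1) (q+1) ≤ ε`: re-index `Fin (p+1) ⊕ Fin (q+1) ≃ Fin k`; the counted functions are
labelled edges with exactly `j` entries in `X`, at most `td H k X j ≤ γ n ^ k` of them; the box has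
`|X| ^ (p+1) |Xᶜ| ^ (q+1) ≥ (n/3) ^ k` elements.
(2) `Alm X (low p q) S ε`: if `a : Fin (k-1) → V` has the letters `low p q = Y^q X^p Y` then
`(a, j + 1) ∈ can X d (j - 1)`: the time of position `i` is `j + 1 + i = p + 2 + i` modulo
`k = p + q + 2`; for `i < q` it is in `[p+2, k-1]` (letter Y), for `q ≤ i < q + p` it is `i - q < p`
(letter X), for `i = q + p` it is `p` (letter Y).  So the number of such `a` with `ofFn a ∉ S` is at
most `γ n ^ (d+1)`, the box has at least `(n/3) ^ (d+1)` elements.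
(3) `Alm X (high p q) T ε`: letters `X Y^q X^p`, `(a, j) ∈ can X d (j + 1)`: time of position `i` is
`p + 1 + i`: `i = 0`: `p + 1 < j + 1` (X); `1 ≤ i ≤ q`: in `[p+2, k-1]` (Y); `i > q`: `i - q - 1 < p`
(X).
(4) E25 gives `Cross` literally: a path `l` with `Cr H k S T M F l` is a `Seg H k S T` of length
`3k-2 = C₀` avoiding `F` (`l.drop (l.length - (k-1)) = l.drop (2k-1)`). -/
def StmtECRS : Prop := StmtE25 → Pool.Agent.KK.CrsStmt

end Pool.Agent.KK.E
end

/-! ### KK.BetaDefs -/
section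
/-!
# Block BETA: the full parity case.  Definitions.

Slots: a slot is a fixed vertex `inl v` or a letter `inr b` (`true` means: a vertex of `X`).  The
cyclic list of slots prescribes the Hamilton cycle partially; the rest is found by the local lemma
for random bijections.
-/

set_option autoImplicit false

namespace Pool.Agent.KK

variable {V : Type} [Fintype V] [DecidableEq V]

/-- A fixed vertex or a letter. -/
abbrev Slot (V : Type) : Type := V ⊕ Bool

/-- The vertex `w` may be put into the slot. -/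
def Fit (X : Finset V) : Slot V → V → Prop
  | Sum.inl v, w => v = w
  | Sum.inr b, w => (w ∈ X ↔ b = true)

/-- Number of free slots. -/
def fr (s : List (Slot V)) : ℕ := s.countP Sum.isRight

/-- The fixed vertices, in order. -/
def fx (s : List (Slot V)) : List V := s.filterMap Sum.getLeft?

/-- Number of slots that carry a vertex of `X`. -/
def cX (X : Finset V) (s : List (Slot V)) : ℕ :=
  s.countP fun x => match x with
    | Sum.inl v => decide (v ∈ X)
    | Sum.inr b => b

/-- Completions of the window `s` which are not edges. -/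
def BadC (H : Finset (Finset V)) (X : Finset V) (s : List (Slot V)) : Set (List V) :=
  {e | List.Forall₂ (Fit X) s e ∧ e.Nodup ∧ e.toFinset ∉ H}

/-- Completions of the window `s` which are edges. -/
def GoodC (H : Finset (Finset V)) (X : Finset V) (s : List (Slot V)) : Set (List V) :=
  {e | List.Forall₂ (Fit X) s e ∧ e.Nodup ∧ e.toFinset ∈ H}

/-- At most `ε n ^ fr s` completions of `s` are not edges (for `fr s = 0` and `ε < 1`: the fixed
window is an edge). -/
def OKs (H : Finset (Finset V)) (X : Finset V) (ε : ℝ) (s : List (Slot V)) : Prop :=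
  ((BadC H X s).ncard : ℝ) ≤ ε * (Fintype.card V : ℝ) ^ fr s

/-- All windows of length `k` of `L` are fine. -/
def OKl (H : Finset (Finset V)) (X : Finset V) (k : ℕ) (ε : ℝ) (L : List (Slot V)) : Prop :=
  ∀ s : List (Slot V), s <:+: L → s.length = k → OKs H X ε s

/-- A word as a list of free slots. -/
def fw (u : List Bool) : List (Slot V) := u.map Sum.inr

/-- A list of vertices as a list of fixed slots. -/
def vx (l : List V) : List (Slot V) := l.map Sum.inl

/-- Number of letters X. -/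
def wt (u : List Bool) : ℕ := u.count true

/-- `H` is near the parity hypergraph `{e : |e ∩ X| = p mod 2}`, at every vertex: for every vertex
`v` and every word `u₁ v u₂` of length `k`, at most `γ n ^ (k-1)` completions are non-edges if the
parity is `p`, and at most so many are edges if the parity is not `p`. -/
def Near (H : Finset (Finset V)) (X : Finset V) (k p : ℕ) (γ : ℝ) : Prop :=
  ∀ (v : V) (u₁ u₂ : List Bool), u₁.length + 1 + u₂.length = k →
    ((wt (u₁ ++ decide (v ∈ X) :: u₂) % 2 = p →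
        ((BadC H X (fw u₁ ++ Sum.inl v :: fw u₂)).ncard : ℝ) ≤
          γ * (Fintype.card V : ℝ) ^ (k - 1)) ∧
      (wt (u₁ ++ decide (v ∈ X) :: u₂) % 2 ≠ p →
        ((GoodC H X (fw u₁ ++ Sum.inl v :: fw u₂)).ncard : ℝ) ≤
          γ * (Fintype.card V : ℝ) ^ (k - 1)))

/-- All windows of the word `u` have parity `p`. -/
def Rt (k p : ℕ) (u : List Bool) : Prop :=
  ∀ s : List Bool, s <:+: u → s.length = k → wt s % 2 = p

/-- UNLIMITED SUPPLY of gadgets of shape `uL c uR`: outside every set `Z` of at most `K` vertices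
there are distinct vertices `l` with letters `c` such that all windows of `uL l uR` are fine. -/
def Sup (H : Finset (Finset V)) (X : Finset V) (k : ℕ) (ε : ℝ) (K : ℕ)
    (uL c uR : List Bool) : Prop :=
  ∀ Z : Finset V, Z.card ≤ K → ∃ l : List V, l.Nodup ∧ (∀ v ∈ l, v ∉ Z) ∧
    l.map (fun v => decide (v ∈ X)) = c ∧ OKl H X k ε (fw uL ++ vx l ++ fw uR)

/-- The cyclic word `w` (of length `k`), read from the class `a`: letter at time `i` is
`w[(a + i) mod k]`; the word of the times `0, .., m-1`. -/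
def per (w : List Bool) (a m : ℕ) : List Bool :=
  (List.range m).map fun i => w.getD ((a + i) % w.length) false

/-- The word with `t` letters X followed by `k - t` letters Y. -/
def blk (k t : ℕ) : List Bool := List.replicate t true ++ List.replicate (k - t) false

/-- Adjacent right moves at level `t` are unlimited: for every cyclic word `w` of length `k` and
weight `t` which has X at the class `k-1` and Y at the class `0`, the gadget which exchanges these
two letters (the time `k-1` is the first changed letter): before the time `k-1` the word `w`, from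
this time on the word `w'` (Y at `k-1`, X at `0`); fixed vertices at the times `0, .., k-1`. -/
def RMoves (H : Finset (Finset V)) (X : Finset V) (k : ℕ) (ε : ℝ) (K t : ℕ) : Prop :=
  ∀ m : List Bool, m.length = k - 2 → wt m + 1 = t →
    Sup H X k ε K (m ++ [true]) (false :: m ++ [false]) (true :: m)

/-- Adjacent left moves at level `t`: Y at the class `k-1` and X at the class `0` are exchanged. -/
def LMoves (H : Finset (Finset V)) (X : Finset V) (k : ℕ) (ε : ℝ) (K t : ℕ) : Prop :=
  ∀ m : List Bool, m.length = k - 2 → wt m + 1 = t →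
    Sup H X k ε K (m ++ [false]) (true :: m ++ [true]) (false :: m)

end Pool.Agent.KK
end

/-! ### KK.StmtsBeta -/
section
/-!
# Block BETA: statements (full parity case), author helper5

Plan.  `H` is near the parity hypergraph `{e : |e ∩ X| = p mod 2}` at every vertex.  A wrong type is
a number `j` with `j % 2 ≠ p`.  Gadgets for every wrong type `j` (`GadgetStmt`, helper13) give
closed words through the levels `j-1` and `j+1` (words: `RconStmt`, `LoopRStmt`, `LoopPStmt`,
`LoopStmt`, `TourStmt`); a closed word whose gadgets have unlimited supply gives a Hamilton cycle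
(`AsmStmt`, `BulkStmt`: local lemma for random bijections).
-/

set_option autoImplicit false

namespace Pool.Agent.KK

/-! ## Kinds of gadgets at the wrong type `j` -/

/-- FAR FLIPS at `j`.  Classes `0, .., k-1`; `m₁` = letters of the classes `1, .., d-1`, `m₂` = letters
of the classes `d+1, .., k-1` (`d = m₁.length + 1`), the classes `0` and `d` are flipped from Y to X:
a fixed vertex of `Y` at time `0`, a fixed vertex of `X` at time `d`, all windows containing both are
fixed: the fixed times are `d-k+1, .., k-1`.  Before: period `Y m₁ Y m₂`, afterwards period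
`X m₁ X m₂`. -/
def KindP (V : Type) [Fintype V] [DecidableEq V] (H : Finset (Finset V)) (X : Finset V) (k : ℕ)
    (ε : ℝ) (K j : ℕ) : Prop :=
  ∀ m₁ m₂ : List Bool, m₁.length + m₂.length + 2 = k → wt m₁ + wt m₂ + 1 = j →
    Sup H X k ε K (m₂ ++ false :: m₁ ++ [false]).tail (m₂ ++ false :: m₁ ++ true :: m₂)
      (true :: m₁ ++ true :: m₂).dropLast

/-- RIGHT MOVES at the level `j+1` and a crossing from the contiguous word of level `j-1` to some
word of level `j+1`. -/
def KindR (V : Type) [Fintype V] [DecidableEq V] (H : Finset (Finset V)) (X : Finset V) (k : ℕ)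
    (ε : ℝ) (K j : ℕ) : Prop :=
  j + 2 ≤ k ∧ RMoves H X k ε K (j + 1) ∧ ∃ (a : ℕ) (c uR : List Bool), 1 ≤ c.length ∧ c.length ≤ 2 * k ∧
    uR.length = k - 1 ∧ (wt uR = j ∨ wt uR = j + 1) ∧
    Sup H X k ε K (per (blk k (j - 1)) a (k - 1)) c uR

/-- LEFT MOVES at the level `j-1` and a crossing from some word of level `j-1` to the contiguous word
of level `j+1`. -/
def KindL (V : Type) [Fintype V] [DecidableEq V] (H : Finset (Finset V)) (X : Finset V) (k : ℕ)
    (ε : ℝ) (K j : ℕ) : Prop :=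
  2 ≤ j ∧ LMoves H X k ε K (j - 1) ∧ ∃ (a : ℕ) (uL c : List Bool), 1 ≤ c.length ∧ c.length ≤ 2 * k ∧
    uL.length = k - 1 ∧ (wt uL + 1 = j ∨ wt uL + 2 = j) ∧
    Sup H X k ε K uL c (per (blk k (j + 1)) a (k - 1))

/-- GADGETS (author of the rows: helper13).  For `k ≥ 3` and `ε > 0`, `K`: if `γ` is small and `n`
large, every `H` with codegree `≥ n/2` which is near parity has one of the three kinds of gadgets at
every wrong type `1 ≤ j ≤ k-1`.

PROOF.  A set `Q`, `1 ≤ |Q| ≤ k-1`, is NORMAL if at most `β_|Q| n^(k-|Q|)` completions of types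
`j-1, j+1` are non-edges and at most so many of type `j` are edges (`β_1 ≪ β_2 ≪ .. ≪ β_(k-1) ≪ ε`;
all vertices are normal).  DENSITY: if `Q` is not normal and type `j` is feasible for `Q` then at least
`c β_|Q| n^(k-|Q|)` sets of type `j` above `Q` are edges (remove `x ∈ X` from a missing set of type
`j+1`, or `y ∈ Y` from a missing one of type `j-1`; codegree `≥ n/2`, `|X|, |Y| = n/2` up to small).
EXACT COUNT: `R` with `k-2` elements, `j-1` of them in `X`, `x ∈ X`, `y ∈ Y`, generic
(`R ∪ {x,y}` hereditarily normal and not an edge): `N(Rx)` and `N(Ry)` avoid `R ∪ {x,y}`, so they have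
at least `k` common elements `w`.  For a bounded set `Z` and each `z ∈ Z` the number of triples with
`w = z` is small (`z` is normal), so some generic triple avoids `Z` and has all its `w` outside `Z`.
Let `w ∈ Y` (the case `w ∈ X` is the mirror image: exchange `X` and `Y`, `j` and `k-j`, reverse all
words).  Then `e = R ∪ {x,w}` is an edge of type `j` and `R ∪ {y,w}` an edge of type `j-1`.
CASE P: `e` contains a minimal non-normal set `M = {m_Y, m_X}` (one vertex of each colour).  Far flips: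
blow-up (`erdosInj`) of the dense family of the `Q` with `M ∪ Q` an edge of type `j`: all windows
containing `M` are transversals; the other windows contain at most one element of `M` and generic
vertices.
CASE B: a minimal non-normal set `M ⊆ e` with both colours and at least 3 elements.  Single window
gadget: take a generic edge `e' ⊇ M` of type `j`, order it with its first and last element in `M`; every
other window does not contain `M`.  Ends `(Y first, X last)`: crossing between any word of level `j-1`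
and the word with the classes `k-1, 0` flipped: from contiguous to contiguous words.  Ends `(X,X)`:
`LMoves`, ends `(Y,Y)`: `RMoves`.  So KindL or KindR (`j = 1`: `M` has one vertex of `X`, so two of `Y`:
KindR; `j = k-1`: KindL).
CASE 0: no non-normal subset of `e`: the same with `e' = e`, `M = e` (KindR if `j + 2 ≤ k`, else KindL).
CASE C: all minimal non-normal subsets of `e` are contained in `Y`, so they contain `w` and are in
`R_Y ∪ {w}`.  Single window gadgets with ends `(Y,Y)`: `RMoves (j+1)`.  CROSSING: order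
`R = (r_1, .., r_(k-2))`, first the elements of `Y`, then the `j-1` elements of `X`, `S_i = R` without
`r_1, .., r_i`, `Q_i = S_i ∪ {w}`; `Q_i` is normal for `S_i ⊆ X`.
(G0) all `Q_i` normal: fixed list `x r_1 .. r_(k-2) w`: on its left level `j+1`, on its right level `j-1`,
both contiguous; reverse it.
Otherwise let `Q_i` be the last one which is not normal, `r' = r_(i+1) ∈ Y`.
(G1) `Q_i` has density `≥ β` both of edges of type `j-1` and of type `j`: MIXED LEMMA (below): there are
generic `Q ⊆ Y`, `x' ∈ X`, `y' ∈ Y` with `Q_i ∪ Q ∪ {y'}`, `Q_i ∪ Q ∪ {x'}` edges: fixed list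
`y' r' Q (Q_i - r' in its order, w last) x'` (`k+1` vertices).  Left: level `j-1` contiguous.  Right:
classes of `y'` and `r'` flipped to X.
(G2) `Q_i` has density `< β` of edges of type `j-1` (so type `j` is nearly full above `Q_i`): let `h < i` be
the last index for which the density of type `j-1` above `Q_h` is at least `β_|Q_h|`, or `h = -1`
(`ρ = y`, `ρ ∪ Q_0` is an edge of type `j-1`); `ρ = r_(h+1)` for `h ≥ 0`.  Take generic `Q' ⊆ Y` with
`ρ ∪ Q' ∪ Q_(h+1)` an edge of type `j-1`: fixed list `ρ Q' Q_(h+1)` (`w` last).  Left: contiguous,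
level `j-1`.  Right: after `ρ` comes X, windows containing `Q_(h+1), .., Q_i` have type `j`
(nearly full), after `r'` comes X: level `j+1`, classes of `ρ` and `r'` flipped.
In all cases KindR.
MIXED LEMMA: `A` any set, `|A| ≤ k-1`, with densities `≥ β` of edges of type `j-1` and of type `j`
above `A`: then for a positive density of `Q` (`A ∪ Q` of size `k-1` and type `j-1`) both `N(AQ) ∩ X` and
`N(AQ) ∩ Y` have at least `β' n` elements.  (Otherwise almost every `Q` is one sided, since its degree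
is `≥ n/2`; being Y-sided is almost invariant under the exchange of one element of `Y` (look at the
common edge or non-edge of type `j-1`) and X-sided under the exchange of one element of `X`, hence it is
almost constant, against the two densities.)
PIGEONHOLE: finitely many shapes; a shape without supply has a blocking set of size `K`; avoid the union of
all blocking sets. -/
def GadgetStmt : Prop :=
  ∀ k : ℕ, 3 ≤ k → ∀ (ε : ℝ) (K : ℕ), 0 < ε → ∃ γ : ℝ, 0 < γ ∧ ∃ n₀ : ℕ,
    ∀ (V : Type) [Fintype V] [DecidableEq V] (H : Finset (Finset V)) (X : Finset V) (p : ℕ),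
      n₀ ≤ Fintype.card V → Uni H k → Dirac H k → p < 2 → Near H X k p γ →
      ∀ j : ℕ, 1 ≤ j → j + 1 ≤ k → j % 2 ≠ p →
        KindP V H X k ε K j ∨ KindR V H X k ε K j ∨ KindL V H X k ε K j

end Pool.Agent.KK
end

/-! ### KK.VDefs -/
section
/-!
# Block BETA, atypical vertices: interface (author helper5)

`Tok` = connectors (each can be used once), `Pas` = neutral insertions at the base level, `GadStmt` =
all gadgets at one gap `j`, proved in the language of block E.
-/

set_option autoImplicit false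

namespace Pool.Agent.KK

variable {V : Type} [Fintype V] [DecidableEq V]

/-- SUPPLY THROUGH `z`: outside every set `Z` of at most `K` vertices, `z ∉ Z`, there are distinct
vertices `l ∋ z` with letters `c` such that all windows of `uL l uR` are fine. -/
def SupT (H : Finset (Finset V)) (X : Finset V) (k : ℕ) (ε K : ℝ) (z : V)
    (uL c uR : List Bool) : Prop :=
  ∀ Z : Finset V, (Z.card : ℝ) ≤ K → z ∉ Z → ∃ l : List V, l.Nodup ∧ z ∈ l ∧ (∀ v ∈ l, v ∉ Z) ∧
    l.map (fun v => decide (v ∈ X)) = c ∧ OKl H X k ε (fw uL ++ vx l ++ fw uR)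

/-- CONNECTOR at `j`: `m₁` = letters of the classes `1, .., d-1`, `m₂` = letters of the classes
`d+1, .., k-1` (`d = m₁.length + 1`); the classes `0` and `d` are flipped from Y to X: the vertex `z`
at time `0`, a fixed vertex of `Y` at time `d - k`, a fixed vertex of `X` at time `d`; all windows
containing `z` are fixed: the fixed times are `1-k, .., k-1`.  Before: period `Y m₁ Y m₂`,
afterwards period `X m₁ X m₂`. -/
def Tok (H : Finset (Finset V)) (X : Finset V) (k : ℕ) (ε K : ℝ) (j : ℕ) (z : V) : Prop :=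
  ∀ m₁ m₂ : List Bool, m₁.length + m₂.length + 2 = k → wt m₁ + wt m₂ + 1 = j →
    SupT H X k ε K z (m₁ ++ false :: m₂ ++ [false]).tail
      (m₁ ++ false :: m₂ ++ decide (z ∈ X) :: (m₁ ++ true :: m₂))
      (true :: m₁ ++ true :: m₂).dropLast

/-- PASS of the vertex `v` at the level `t`: `v` takes the place of its letter in the periodic word
`b m b m b ..` of weight `t`; all windows containing `v` are fixed. -/
def Pas (H : Finset (Finset V)) (X : Finset V) (k : ℕ) (ε K : ℝ) (t : ℕ) (v : V) : Prop :=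
  ∀ m : List Bool, m.length + 1 = k → wt (decide (v ∈ X) :: m) = t →
    SupT H X k ε K v (m ++ [decide (v ∈ X)]).tail (m ++ decide (v ∈ X) :: m)
      (decide (v ∈ X) :: m).dropLast

/-- GADGETS OF ONE GAP (block E language, file StmtsG).  `X` = the partition of E24 without flipped
vertices, minus the connectors; `κ` does not depend on `ρ` (the closeness of `X` and `X₀`). -/
def GadStmt : Prop :=
  ∀ k : ℕ, 3 ≤ k → ∀ (ε : ℝ) (K : ℕ), 0 < ε → ∃ κ : ℝ, 0 < κ ∧ ∀ ρ : ℝ, 0 < ρ →
    ∃ γ : ℝ, 0 < γ ∧ ∃ n₀ : ℕ,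
    ∀ (V : Type) [Fintype V] [DecidableEq V] (H : Finset (Finset V)) (X₀ : Finset V) (j : ℕ),
      n₀ ≤ Fintype.card V → Uni H k → Dirac H k → 1 ≤ j → j + 1 ≤ k →
      |(X₀.card : ℝ) - (Fintype.card V : ℝ) / 2| ≤ γ * (Fintype.card V : ℝ) →
      ({f : Fin k → V | Finset.univ.image f ∈ H ∧
        (Finset.univ.filter fun i => f i ∈ X₀).card = j}.ncard : ℝ) ≤
          γ * (Fintype.card V : ℝ) ^ k →
      ∃ X : Finset V, ((symmDiff X X₀).card : ℝ) ≤ ρ * (Fintype.card V : ℝ) ∧
        (2 ≤ j → ∀ v : V, Pas H X k ε (κ * (Fintype.card V : ℝ)) (j - 1) v) ∧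
        ((∃ C : Finset V, k ≤ C.card ∧ ∀ z ∈ C, Tok H X k ε K j z) ∨
          KindP V H X k ε K j ∨ KindR V H X k ε K j ∨ KindL V H X k ε K j)

end Pool.Agent.KK
end

/-! ### KK.StmtsW -/
section
/-!
# Block BETA: local lemma, assembly and words (author helper5)

`H` arbitrary, `X` a set of vertices, `X` = letter `true`, the complement `Y` = letter `false`.
-/

set_option autoImplicit false

namespace Pool.Agent.KK

/-! ## Part 1: bulk (lopsided local lemma) -/

/-- CYC (cyclic windows).  PROOF.  The list `L ++ L.take (k-1)` has `n + k - 1` entries; an infix of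
length `k` starts at some `i` with `i + k ≤ n + k - 1`, i.e. `i < n`, and its entries are
`L[(i + j) mod n]`, the entries of `(L.rotate i).take k`. -/
def CycStmt : Prop :=
  ∀ (α : Type) (L : List α) (k : ℕ), 1 ≤ k → k ≤ L.length → ∀ s : List α,
    (s <:+: L ++ L.take (k - 1) ∧ s.length = k) ↔ ∃ i < L.length, s = (L.rotate i).take k

/-- FIB (a first filling).  PROOF.  Colour the positions by their slots and the vertices by
`v ↦ inl v` if `v` is fixed and `v ↦ inr (decide (v ∈ X))` otherwise.  A colour `inl v` has one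
position and one vertex (the fixed vertices are distinct) or none; the colour `inr true` has
`cX X L - #(fixed vertices in X) = |X| - #(fixed in X)` positions and as many vertices; the colour
`inr false` has the rest, `n - |X| - #(fixed outside X)`.  Equal fibres give a bijection
(`Equiv.ofFiberEquiv` or counting). -/
def FibStmt : Prop :=
  ∀ (V : Type) [Fintype V] [DecidableEq V] (X : Finset V) (L : List (Slot V)),
    L.length = Fintype.card V → (fx L).Nodup → cX X L = X.card →
    ∃ σ : Fin L.length ≃ V, ∀ i, (if σ i ∈ fx L then (Sum.inl (σ i) : Slot V)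
      else Sum.inr (decide (σ i ∈ X))) = L.get i

/-- BULK.  A cyclic list of slots with few fixed vertices, all windows fine, and such that for every
non-fixed vertex `v` and every completely free window, the completions through `v` are fine, can be
completed to a Hamilton cycle.

PROOF.  Local lemma for random bijections (`Pool.Agent.THC.H5.lll` with `pr_le`, file
`Helper5_THC/Lll.lean`; or `lll_bij` of `Helper27_THC/Lll.lean`).  Positions `Fin n`, colours as in
FIB (fixed positions get a colour of their own, so the bijection extends the prescription).  EVENTS: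
for every `i < n` with window `s_i = (L.rotate i).take k` (CYC), `fr s_i ≥ 1`, and every
`e ∈ BadC H X s_i` whose entries at the free slots are not fixed vertices: the event which assigns
`e_j` to the position `i + j` for the free slots `j`.  Probability `≤ (2/N)^(fr s_i)`, `N ≥ n/8` the
smallest size of a class `{v not fixed, v ∈ X}`, `{v not fixed, v ∉ X}` (`n/4 - ε n`), so a window has
total probability `≤ ε n^(fr) (16/n)^(fr) ≤ 16^k ε`.  Conflicting events share a position (at most
`2k` windows) or a vertex `v` (at most `k` vertices): completely free windows through `v` at slot `j`: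
at most `n k` pairs, each `≤ ε n^(k-1) (16/n)^k`, together `≤ k 16^k ε`; windows with at least one
fixed slot: at most `k · #fixed ≤ k ε n`, completions through `v`: `≤ k n^(fr-1)`, together
`≤ k^2 16^k ε`.  So the sum is `≤ (2k + k (k + k^2)) 16^k ε ≤ 1/4` for small `ε`.  The bijection `σ`
which avoids all events: every window `e = σ(i), .., σ(i+k-1)` fits `s_i` and is nodup; if
`e.toFinset ∉ H` it is a bad completion: if `fr s_i ≥ 1` its event happens, contradiction; if
`fr s_i = 0` then `OKs` says `#BadC ≤ ε < 1`, so `BadC` is empty (it is finite), contradiction.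
`l = List.ofFn σ` and CYC give `Ham`. -/
def BulkStmt : Prop :=
  ∀ k : ℕ, 2 ≤ k → ∃ ε : ℝ, 0 < ε ∧ ε < 1 ∧ ∃ n₀ : ℕ,
    ∀ (V : Type) [Fintype V] [DecidableEq V] (H : Finset (Finset V)) (X : Finset V)
      (L : List (Slot V)), n₀ ≤ Fintype.card V → L.length = Fintype.card V → (fx L).Nodup →
      ((fx L).length : ℝ) ≤ ε * (Fintype.card V : ℝ) → cX X L = X.card →
      Fintype.card V ≤ 4 * X.card → 4 * X.card ≤ 3 * Fintype.card V →
      OKl H X k ε (L ++ L.take (k - 1)) →
      (∀ (v : V) (u₁ u₂ : List Bool), u₁.length + 1 + u₂.length = k → v ∉ fx L →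
        (fw u₁ ++ Sum.inr (decide (v ∈ X)) :: fw u₂ : List (Slot V)) <:+: L ++ L.take (k - 1) →
        ((BadC H X (fw u₁ ++ Sum.inl v :: fw u₂)).ncard : ℝ) ≤
          ε * (Fintype.card V : ℝ) ^ (k - 1)) →
      Ham H k

/-! ## Part 2: plans and their realisation -/

/-- `Pl u v N a q`: there is a plan which starts after the `k-1` free letters `u`, appends `N` slots,
`a` of them for vertices of `X`, uses `q` gadgets (each with unlimited supply), and ends with the
`k-1` free letters `v`.  All completely free windows have parity `p`. -/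
inductive Pl (V : Type) [Fintype V] [DecidableEq V] (H : Finset (Finset V)) (X : Finset V)
    (k p : ℕ) (ε : ℝ) (K : ℕ) : List Bool → List Bool → ℕ → ℕ → ℕ → Prop
  | nil (u : List Bool) : u.length = k - 1 → Pl V H X k p ε K u u 0 0 0
  | letter (u v : List Bool) (N a q : ℕ) (b : Bool) : Pl V H X k p ε K u v N a q →
      wt (v ++ [b]) % 2 = p → Pl V H X k p ε K u (v ++ [b]).tail (N + 1) (a + wt [b]) q
  | gadget (u v : List Bool) (N a q : ℕ) (c uR : List Bool) : Pl V H X k p ε K u v N a q →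
      1 ≤ c.length → c.length ≤ 2 * k → uR.length = k - 1 → Sup H X k ε K v c uR →
      Pl V H X k p ε K u uR (N + c.length + (k - 1)) (a + wt c + wt uR) (q + 1)

/-- NEA (free windows).  PROOF.  Sum `Near` over the vertex in the first slot:
`BadC (fw (b :: u)) ` is the disjoint union over the `v` with `(v ∈ X ↔ b)` of the sets
`BadC (inl v :: fw u)` (same lists), so at most `n · γ n^(k-1)`. -/
def NeaStmt : Prop :=
  ∀ (V : Type) [Fintype V] [DecidableEq V] (H : Finset (Finset V)) (X : Finset V) (k p : ℕ)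
    (γ : ℝ), 1 ≤ k → 0 ≤ γ → Near H X k p γ → ∀ u : List Bool, u.length = k → wt u % 2 = p →
    ((BadC H X (fw u)).ncard : ℝ) ≤ γ * (Fintype.card V : ℝ) ^ k

/-- REA (realisation of a plan).  PROOF.  Induction on the plan (the hypothesis `2 k q ≤ K` passes to
shorter plans).  Letter step: append `inr b`; the new windows of length `k` of `fw u ++ L` end at the
new slot and equal `fw (v ++ [b])`, since the last `k-1` slots of `fw u ++ L` are `fw v`; fine by NEA
(`γ ≤ ε`).  Gadget step: take `l` from `Sup` outside the set `Z` of the vertices already fixed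
(`≤ 2 k q ≤ K`), append `vx l ++ fw uR`; a new window ends in `l` or `uR`, so it is contained in the
last `k-1` old slots and the new ones: an infix of `fw v ++ vx l ++ fw uR`. -/
def RezStmt : Prop :=
  ∀ (V : Type) [Fintype V] [DecidableEq V] (H : Finset (Finset V)) (X : Finset V) (k p : ℕ)
    (γ ε : ℝ) (K : ℕ), 1 ≤ k → 0 ≤ γ → γ ≤ ε → Near H X k p γ →
    ∀ (u v : List Bool) (N a q : ℕ), Pl V H X k p ε K u v N a q → 2 * k * q ≤ K →
    ∃ L : List (Slot V), L.length = N ∧ cX X L = a ∧ (fx L).Nodup ∧ (fx L).length ≤ 2 * k * q ∧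
      u.length = k - 1 ∧ v.length = k - 1 ∧ fw v <:+ fw u ++ L ∧ OKl H X k ε (fw u ++ L) ∧
      ∀ s : List Bool, (fw s : List (Slot V)) <:+: fw u ++ L → s.length = k → wt s % 2 = p

/-- ASM (a closed plan gives a Hamilton cycle).  Uses CYC (if wanted), REA, BULK.  PROOF.  Take `ε`
from BULK.  REA gives `L`; since `N = n ≥ k - 1` and the plan is closed, the last `k-1` slots of `L`
are `fw u`; a window of `L ++ L.take (k-1)` is a window of `L` or of
`fw u ++ L.take (k-1)`, in both cases of `fw u ++ L`.  So all windows are fine, and the completely free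
ones have parity `p`: the vertex condition of BULK is `Near` (`γ ≤ ε`).  The number of fixed vertices is
`≤ 2 k q ≤ K ≤ ε n`. -/
def AssStmt : Prop :=
  ∀ k : ℕ, 2 ≤ k → ∃ ε : ℝ, 0 < ε ∧ ε < 1 ∧ ∀ K : ℕ, ∃ n₀ : ℕ,
    ∀ (V : Type) [Fintype V] [DecidableEq V] (H : Finset (Finset V)) (X : Finset V) (p : ℕ)
      (γ : ℝ), n₀ ≤ Fintype.card V → 0 ≤ γ → γ ≤ ε → Near H X k p γ →
      Fintype.card V ≤ 4 * X.card → 4 * X.card ≤ 3 * Fintype.card V →
      ∀ (u : List Bool) (q : ℕ), Pl V H X k p ε K u u (Fintype.card V) X.card q → 2 * k * q ≤ K →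
      Ham H k

/-! ## Part 3: calculus of plans -/

/-- TRA (composition).  PROOF.  Induction on the second plan. -/
def TraStmt : Prop :=
  ∀ (V : Type) [Fintype V] [DecidableEq V] (H : Finset (Finset V)) (X : Finset V) (k p : ℕ)
    (ε : ℝ) (K : ℕ) (u v w : List Bool) (N N' a a' q q' : ℕ),
    Pl V H X k p ε K u v N a q → Pl V H X k p ε K v w N' a' q' →
    Pl V H X k p ε K u w (N + N') (a + a') (q + q')

/-- PER (periodic stretch).  PROOF.  Induction on `m`; a letter step appends the letter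
`w[(a + m + k - 1) mod k]` to the context `per w (a + m) (k - 1)`; the window is a rotation of `w`, of
weight `wt w`; `per w b (m+1) = per w b m ++ [letter]`. -/
def PerStmt : Prop :=
  ∀ (V : Type) [Fintype V] [DecidableEq V] (H : Finset (Finset V)) (X : Finset V) (k p : ℕ)
    (ε : ℝ) (K : ℕ) (w : List Bool) (a m : ℕ), 1 ≤ k → w.length = k → wt w % 2 = p →
    Pl V H X k p ε K (per w a (k - 1)) (per w (a + m) (k - 1)) m (wt (per w (a + k - 1) m)) 0

/-- PWT (elementary facts on periodic words).  PROOF.  Unfold; a full period is a rotation of `w`;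
`per` is periodic in `a` with period `k`; rotations of `w`; reversal. -/
def PwtStmt : Prop :=
  (∀ (w : List Bool) (a : ℕ), wt (per w a w.length) = wt w) ∧
  (∀ (w : List Bool) (a m : ℕ), per w (a + w.length) m = per w a m) ∧
  (∀ (w : List Bool) (a m : ℕ), (per w a m).length = m) ∧
  (∀ (w : List Bool) (a m m' : ℕ), per w a (m + m') = per w a m ++ per w (a + m) m') ∧
  (∀ (w : List Bool) (a b m : ℕ), 1 ≤ w.length → per (per w a w.length) b m = per w (a + b) m) ∧
  (∀ (w : List Bool) (m : ℕ), m ≤ w.length → per w 0 m = w.take m) ∧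
  (∀ (w : List Bool) (a m : ℕ), 1 ≤ w.length → ∃ b : ℕ, (per w a m).reverse = per w.reverse b m)

/-- BLR (contiguous words are symmetric).  PROOF.  `blk k t` reversed is the rotation of `blk k t` by
`t` (k-t letters Y, then t letters X); the complement of `blk k t` is the rotation of
`blk k (k - t)`. -/
def BlrStmt : Prop :=
  ∀ (k t : ℕ), t ≤ k → 1 ≤ k →
    (∀ a m : ℕ, ∃ b : ℕ, (per (blk k t) a m).reverse = per (blk k t) b m) ∧
    (∀ a m : ℕ, ∃ b : ℕ, (per (blk k t) a m).map not = per (blk k (k - t)) b m) ∧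
    (blk k t).length = k ∧ wt (blk k t) = t

/-- SRV (reversal).  PROOF.  Reverse `l`; `BadC` of a reversed window is the set of the reversed
completions (`toFinset` and `Nodup` do not change), infixes of the reversed list are the reversed
infixes. -/
def SrvStmt : Prop :=
  ∀ (V : Type) [Fintype V] [DecidableEq V] (H : Finset (Finset V)) (X : Finset V) (k : ℕ)
    (ε : ℝ) (K : ℕ) (uL c uR : List Bool), Sup H X k ε K uL c uR →
    Sup H X k ε K uR.reverse c.reverse uL.reverse

/-- SCO (complement).  PROOF.  `Fit Xᶜ (inr !b) w ↔ Fit X (inr b) w`. -/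
def ScoStmt : Prop :=
  ∀ (V : Type) [Fintype V] [DecidableEq V] (H : Finset (Finset V)) (X : Finset V) (k : ℕ)
    (ε : ℝ) (K : ℕ) (uL c uR : List Bool), Sup H X k ε K uL c uR ↔
    Sup H Xᶜ k ε K (uL.map not) (c.map not) (uR.map not)

/-- PCO (plans and complement).  Uses SCO.  PROOF.  Induction on the plan; a window of length `k` and
weight `w` becomes one of weight `k - w`, whose parity is `(k - p) mod 2`, i.e. `(k + p) mod 2`. -/
def PcoStmt : Prop :=
  ∀ (V : Type) [Fintype V] [DecidableEq V] (H : Finset (Finset V)) (X : Finset V) (k p : ℕ)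
    (ε : ℝ) (K : ℕ) (u v : List Bool) (N a q : ℕ), 1 ≤ k → p < 2 →
    Pl V H X k p ε K u v N a q → a ≤ N ∧
      Pl V H Xᶜ k ((k + p) % 2) ε K (u.map not) (v.map not) N (N - a) q

/-! ## Part 4: right moves -/

/-- RST (one right move in absolute time).  `W` of length `k`, X at the class `c - 1` (at `k-1` if
`c = 0`) and Y at the class `c`, `W'` with these two letters exchanged.

PROOF.  `RMoves` with `m` = letters of the classes `c+1, .., c+k-2`.  Letter steps (PER) from the
context at time `0` to the context at time `c+1` (`c+1` letters); this is `m ++ [X]`.  The gadget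
(`k` fixed vertices at the times `k+c, .., 2k+c-1`, then the `k-1` letters `X m`): context
`per W' c (k-1)` at time `2k+c`.  Letter steps up to time `3k` (`k-c` letters).  All in all `3k` slots.
The word is `W` before the time `2k+c-1` and `W'` from this time on; the number of X at the times
`k-1, .., 4k-2` is `3 wt W`, minus 1 if `c = k-1`: other classes 3 times each; class `c-1`: once (X only
before the change), class `c`: X at `2k+c` and, if `c ≤ k-2`, at `3k+c`. -/
def RstStmt : Prop :=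
  ∀ (V : Type) [Fintype V] [DecidableEq V] (H : Finset (Finset V)) (X : Finset V) (k p : ℕ)
    (ε : ℝ) (K : ℕ) (W W' : List Bool) (c : ℕ), 2 ≤ k → W.length = k → W'.length = k → c < k →
    wt W % 2 = p → RMoves H X k ε K (wt W) →
    W.getD ((c + k - 1) % k) false = true → W.getD c true = false →
    (∀ i < k, W'.getD i false =
      if i = c then true else if i = (c + k - 1) % k then false else W.getD i false) →
    Pl V H X k p ε K (per W 0 (k - 1)) (per W' 0 (k - 1)) (3 * k)
      (3 * wt W - if c + 1 = k then 1 else 0) 1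

/-- height functions of period `(k, t)` -/
def Hgt (k t : ℕ) (h : ℤ → ℤ) : Prop :=
  (∀ x, h (x + 1) = h x ∨ h (x + 1) = h x + 1) ∧ ∀ x, h (x + k) = h x + t

/-- the word of a height function -/
noncomputable def wd (k : ℕ) (h : ℤ → ℤ) : List Bool :=
  (List.range k).map fun i => decide (h ((i : ℤ) + 1) = h (i : ℤ) + 1)

/-- HLO (lowering).  PROOF.  Let `M > 0` be the maximum of `h - h'` (periodic).  At a maximum point
`x`: if `h (x+1) = h x + 1` then `x+1` is a maximum point; since `t < k` we reach a maximum point with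
`h (x+1) = h x`.  If then `h (x-1) = h x`, the point `x-1` is a maximum point with the same property;
since `t > 0` we reach one with `h (x-1) = h x - 1`.  Take its class `c`, `0 ≤ c < k`.  The function
`h - 1` at the class `c` is a height function `≥ h'`. -/
def HloStmt : Prop :=
  ∀ (k t : ℕ) (h h' : ℤ → ℤ), 0 < t → t < k → Hgt k t h → Hgt k t h' → (∀ x, h' x ≤ h x) →
    (∃ x, h' x ≠ h x) → ∃ c : ℕ, c < k ∧ h c = h ((c : ℤ) - 1) + 1 ∧ h ((c : ℤ) + 1) = h c ∧
      Hgt k t (fun x => if (k : ℤ) ∣ x - c then h x - 1 else h x) ∧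
      ∀ x, h' x ≤ if (k : ℤ) ∣ x - c then h x - 1 else h x

/-- HWD (words and heights).  PROOF.  The number of `x` in `[0,k)` with `h (x+1) = h x + 1` is
`h k - h 0 = t`.  For `W` take `h x = ⌊x/k⌋ t +` number of X among the first `x mod k` letters; two
height functions `h, h'` satisfy `h' - C ≤ h` for `C = t + |h' 0 - h 0|`, here `h 0 = h' 0 = 0`. -/
def HwdStmt : Prop :=
  (∀ (k t : ℕ) (h : ℤ → ℤ), Hgt k t h → (wd k h).length = k ∧ wt (wd k h) = t) ∧
  (∀ (W : List Bool), 1 ≤ W.length → ∃ h : ℤ → ℤ, Hgt W.length (wt W) h ∧ wd W.length h = W ∧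
    h 0 = 0 ∧ ∀ x : ℤ, 0 ≤ x → x < W.length → 0 ≤ h x ∧ h x ≤ wt W)

/-- RCH (a chain of right moves).  Uses HLO, HWD, RST, TRA.  PROOF.  Induction on
`D = ∑_(x<k) (h x - h' x)`.  If `D = 0` then `h = h'` (periodicity) and the plan is empty.  Otherwise
HLO; the word of the lowered function is `W'` of RST, with `3k` slots and `3t - [c = k-1]` letters X. -/
def RchStmt : Prop :=
  ∀ (V : Type) [Fintype V] [DecidableEq V] (H : Finset (Finset V)) (X : Finset V) (k p t : ℕ)
    (ε : ℝ) (K : ℕ) (h h' : ℤ → ℤ), 2 ≤ k → 0 < t → t < k → t % 2 = p →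
    RMoves H X k ε K t → Hgt k t h → Hgt k t h' → (∀ x, h' x ≤ h x) →
    ∃ D a : ℕ, (D : ℤ) = ∑ x ∈ Finset.range k, (h x - h' x) ∧
      (a : ℤ) = 3 * t * D - (h ((k : ℤ) - 1) - h' ((k : ℤ) - 1)) ∧
      Pl V H X k p ε K (per (wd k h) 0 (k - 1)) (per (wd k h') 0 (k - 1)) (3 * k * D) a D

/-- RCON (all words of a level with right moves are connected, with both parities).  Uses RCH, HWD.
PROOF.  `h, h'` for `W, W'` from HWD; use `h' - t` and `h' - t - 1`: both are `≤ h`, the sums `D` are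
at most `k (2t + 1) ≤ 2 k^2`, and `e = h (k-1) - h' (k-1) + t (+ 1)`, `0 ≤ e ≤ 2t + 1`. -/
def RconStmt : Prop :=
  ∀ (V : Type) [Fintype V] [DecidableEq V] (H : Finset (Finset V)) (X : Finset V) (k p t : ℕ)
    (ε : ℝ) (K : ℕ) (W W' : List Bool) (δ : ℕ), 2 ≤ k → 0 < t → t < k → t % 2 = p →
    RMoves H X k ε K t → W.length = k → W'.length = k → wt W = t → wt W' = t → δ < 2 →
    ∃ M a e q : ℕ, q ≤ 2 * k ^ 2 ∧ M ≤ 6 * k ^ 2 ∧ a + e = t * M ∧ e ≤ 2 * k ∧ e % 2 = δ ∧
      Pl V H X k p ε K (per W 0 (k - 1)) (per W' 0 (k - 1)) (k * M) a q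

/-! ## Part 5: far flips -/

/-- PUP (far flips upwards in absolute time, both counts).  `W` of weight `j - 1` with Y at the
classes `c₁ ≠ c₂`, `W'` = `W` with X there.

PROOF.  Let `d = (c₂ - c₁) mod k`, `m₁` = letters of `W` at the classes `c₁+1, .., c₁+d-1`, `m₂` =
letters at `c₁+d+1, .., c₁+k-1`.  Fixed vertex of `Y` at the time `2k + c₁`, of `X` at the time
`2k + c₁ + d`.  Letter steps from the context at time `0` to the context at time `c₁ + d + 2` (which is
the left context of the gadget), gadget (`2k-1-d` fixed vertices, `k-1` letters), context at time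
`3k + c₁`, letter steps to time `4k`.  The number of X at the times `k-1, .., 5k-2` is
`4 (j-1) + (2 - [c₁ = k-1]) + (3 - [c₂ = k-1] - [c₂ < c₁])`: the class `c₁` has X from the time
`3k + c₁`, the class `c₂` from the time `2k + c₁ + d`.  Exchanging the roles of `c₁` and `c₂` changes
this number by exactly 1. -/
def PupStmt : Prop :=
  ∀ (V : Type) [Fintype V] [DecidableEq V] (H : Finset (Finset V)) (X : Finset V) (k p j : ℕ)
    (ε : ℝ) (K : ℕ) (W W' : List Bool) (c₁ c₂ : ℕ), 2 ≤ k → W.length = k → W'.length = k →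
    c₁ < k → c₂ < k → c₁ ≠ c₂ → wt W + 1 = j → wt W % 2 = p → KindP V H X k ε K j →
    W.getD c₁ true = false → W.getD c₂ true = false →
    (∀ i < k, W'.getD i false = if i = c₁ ∨ i = c₂ then true else W.getD i false) →
    ∃ a : ℕ, a ≤ 4 * k ∧ Pl V H X k p ε K (per W 0 (k - 1)) (per W' 0 (k - 1)) (4 * k) a 1 ∧
      Pl V H X k p ε K (per W 0 (k - 1)) (per W' 0 (k - 1)) (4 * k) (a + 1) 1

/-- PDN (far flips downwards).  PROOF.  The same with the reversed gadget (SRV): a fixed vertex of `X`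
first, the vertex of `Y` at distance `d` later. -/
def PdnStmt : Prop :=
  ∀ (V : Type) [Fintype V] [DecidableEq V] (H : Finset (Finset V)) (X : Finset V) (k p j : ℕ)
    (ε : ℝ) (K : ℕ) (W W' : List Bool) (c₁ c₂ : ℕ), 2 ≤ k → W.length = k → W'.length = k →
    c₁ < k → c₂ < k → c₁ ≠ c₂ → wt W + 1 = j → wt W % 2 = p → KindP V H X k ε K j →
    W.getD c₁ true = false → W.getD c₂ true = false →
    (∀ i < k, W'.getD i false = if i = c₁ ∨ i = c₂ then true else W.getD i false) →
    ∃ a : ℕ, a ≤ 4 * k ∧ Pl V H X k p ε K (per W' 0 (k - 1)) (per W 0 (k - 1)) (4 * k) a 1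

/-! ## Part 6: loops -/

/-- The conclusion of the loop statements: every length `N` and number `a` of X in the open cone
between the levels `j-1` and `j+1` is realised by a closed plan at the contiguous word of level `t`,
with a bounded number of gadgets. -/
def Loops (V : Type) [Fintype V] [DecidableEq V] (H : Finset (Finset V)) (X : Finset V)
    (k p : ℕ) (ε : ℝ) (K j t K₀ : ℕ) : Prop :=
  ∀ N a : ℕ, (j - 1) * N + K₀ ≤ k * a → k * a + K₀ ≤ (j + 1) * N →
    ∃ q ≤ K₀, Pl V H X k p ε K (per (blk k t) 0 (k - 1)) (per (blk k t) 0 (k - 1)) N a q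

/-- GLU (arithmetic of loops).  Base word `w` of weight `s` (context `u = per w 0 (k-1)`), another word
`w'` of weight `s'`, `|s - s'| = 2`.  If for every residue `r` and parity `δ` there are plans from `u`
to `u' = per w' 0 (k-1)` and back with total length `N₀ ≡ r mod k` and such that
`a₀ - s (N₀ - r)/k` has parity `δ`, all sizes bounded by `B`, then all `(N, a)` in the open cone are
realised.  PROOF.  Insert `M'` periods of `w'` and `M''` periods of `w` (PER, TRA):
`N = N₀ + k (M' + M'')`, `a = a₀ + s' M' + s M''`.  Given `(N, a)` take `r = N mod k`,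
`M = (N - N₀)/k` (`N ≥ N₀` since the cone condition gives `2 N ≥ 2 K₀`),
`a - a₀ - s M = (s' - s) M'` with `0 ≤ M' ≤ M` by the cone conditions and an even left side by the
choice of `δ`. -/
def GluStmt : Prop :=
  ∀ k B : ℕ, 2 ≤ k → ∃ K₀ : ℕ, B ≤ K₀ ∧
    ∀ (V : Type) [Fintype V] [DecidableEq V] (H : Finset (Finset V)) (X : Finset V) (p : ℕ)
      (ε : ℝ) (K j t t' : ℕ) (w' : List Bool), (t + 1 = j ∧ t' = j + 1) ∨ (t = j + 1 ∧ t' + 1 = j) →
      j + 1 ≤ k → t % 2 = p → w'.length = k → wt w' = t' →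
      (∀ r δ : ℕ, r < k → δ < 2 → ∃ N₁ a₁ q₁ N₂ a₂ q₂ : ℕ, N₁ + N₂ ≤ B ∧ q₁ + q₂ ≤ B ∧
        a₁ + a₂ ≤ B ∧ (N₁ + N₂) % k = r ∧ (a₁ + a₂ + t * ((N₁ + N₂) / k)) % 2 = δ ∧
        Pl V H X k p ε K (per (blk k t) 0 (k - 1)) (per w' 0 (k - 1)) N₁ a₁ q₁ ∧
        Pl V H X k p ε K (per w' 0 (k - 1)) (per (blk k t) 0 (k - 1)) N₂ a₂ q₂) →
      Loops V H X k p ε K j t K₀

/-- LOR (loops from KindR, both bases).  Uses RCON, PER, TRA, SRV, BLR, PWT, GLU.
PROOF.  `s = j-1`, `t' = j+1`; crossing `uL c uR`, `uL = per (blk k s) α (k-1)`; `W₁ = uR ++ [b]`,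
`W₂ = uR.reverse ++ [b]` of weight `j+1` (`b` = false if `wt uR = j+1`, true if `wt uR = j`).
BASE `s`: letters from the base to `uL` (`α mod k` of them), gadget, context `per W₁ 0 (k-1)`, `ρ`
letters (context `per W₁ ρ (k-1) = per (per W₁ ρ k) 0 (k-1)`): this is the plan to
`w' = per W₁ ρ k`; back: RCON with parity `δ'` to `W₂`, reversed gadget (SRV), context
`uL.reverse = per (blk k s) β (k-1)` (BLR), `(k - β mod k)` letters to the base.  `ρ < k` arbitrary:
every residue of the length; `δ'` arbitrary: every parity of `a + s (N/k)` (RCON contributes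
`a = t' M - e`, `N = k M`, `t' = s + 2`).  Apply GLU with `w' = W₁` and `ρ` letters counted in the way
back (`RCON` from `per W₁ ρ k`).  BASE `j+1`: from `blk k (j+1)` RCON to `W₂`, reversed gadget, letters
to the context `per (blk k s) 0 (k-1)`, `w' = blk k s`; back: letters to `uL`, gadget, `ρ` letters,
RCON from `per W₁ ρ k` to `blk k (j+1)`. -/
def LorStmt : Prop :=
  ∀ k : ℕ, 3 ≤ k → ∃ K₀ : ℕ,
    ∀ (V : Type) [Fintype V] [DecidableEq V] (H : Finset (Finset V)) (X : Finset V) (p : ℕ)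
      (ε : ℝ) (K j : ℕ), 1 ≤ j → j + 1 ≤ k → (j + 1) % 2 = p → KindR V H X k ε K j →
      Loops V H X k p ε K j (j - 1) K₀ ∧ Loops V H X k p ε K j (j + 1) K₀

/-- LOP (loops from KindP, both bases).  Uses PUP, PDN, PER, TRA, BLR, PWT, GLU.
PROOF.  BASE `s = j-1`, `s ≥ 1`: PUP at the classes `s, s+1` of `blk k s` (weight `s+2 = j+1 ≤ k`):
word `blk k (s+2)`, which is `w'`; back: PDN removes the classes `0, s+1` (leaves the classes
`1, .., s`, the rotation of `blk k s` by one) or the classes `s, s+1` (leaves `blk k s`).  One round with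
the first choice, then one letter step fewer/more: the context `per (blk k s) 0 (k-1)` returns at the
times `≡ 1 mod k`.  Repeat it `r` times (in the plan to `w'`: `r` complete rounds first) for the residue
`r`; the two counts of PUP give both parities.  `s = 0`: the word is constant, any number of letters may
be inserted at the base.  BASE `j+1`: from `blk k (j+1)` PDN at the classes `j-1, j` to `blk k (j-1)`
(weight `j - 1`), which is `w'`, back PUP; rotation by one (if `j + 1 < k`): PDN removes the classes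
`0, 1`, PUP adds the classes `1, j+1`; `j + 1 = k`: constant word. -/
def LopStmt : Prop :=
  ∀ k : ℕ, 3 ≤ k → ∃ K₀ : ℕ,
    ∀ (V : Type) [Fintype V] [DecidableEq V] (H : Finset (Finset V)) (X : Finset V) (p : ℕ)
      (ε : ℝ) (K j : ℕ), 1 ≤ j → j + 1 ≤ k → (j + 1) % 2 = p → KindP V H X k ε K j →
      Loops V H X k p ε K j (j - 1) K₀ ∧ Loops V H X k p ε K j (j + 1) K₀

/-- LOL (KindL is KindR for the complement).  Uses SCO, SRV, PCO, BLR, LOR.
PROOF.  `KindL H X j → KindR H Xᶜ (k - j)`: `LMoves X (j-1)` becomes `RMoves Xᶜ (k-j+1)` (complement of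
`m`), the crossing is complemented and reversed.  LOR for `Xᶜ`, `k - j`, `(k+p)%2`; PCO back: the
context `per (blk k (k-t)) 0 (k-1)` becomes `per (blk k t) b (k-1)` for some `b` (BLR), a rotation;
conjugate by `b` letter steps (and `k - b mod k` back: total length `k` more).  The cone conditions
correspond: `a ↦ N - a`. -/
def LolStmt : Prop :=
  ∀ k : ℕ, 3 ≤ k → ∃ K₀ : ℕ,
    ∀ (V : Type) [Fintype V] [DecidableEq V] (H : Finset (Finset V)) (X : Finset V) (p : ℕ)
      (ε : ℝ) (K j : ℕ), 1 ≤ j → j + 1 ≤ k → p < 2 → (j + 1) % 2 = p → KindL V H X k ε K j →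
      Loops V H X k p ε K j (j - 1) K₀ ∧ Loops V H X k p ε K j (j + 1) K₀

/-! ## Part 7: the tour and the theorem -/

/-- SIZ (the two parts have nearly equal size).  PROOF.  Suppose `|X| < (1/2 - η) n`, so the
complement `Y` has more than `n/2` elements.  Let `i = 0` if `p = 1` and `i = 1` if `p = 0`; fix a vertex
`z`, in `Y` if `i = 0` and in `X` if `i = 1` (both are nonempty).  For every set `S ∋ z` of `k-1`
vertices whose other `k-2` vertices are in `Y`: `|N(S)| ≥ n/2`, so at least `η n` elements of `N(S)` are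
in `Y`: edges through `z` with exactly `i` vertices in `X`, `i % 2 ≠ p`.  There are at least
`(n/4)^(k-2)` ordered such `S`, so at least `(n/4)^(k-2) η n` lists in
`GoodC (Sum.inl z :: fw (k-1 letters false))`, against `Near` for `γ < η / 4^(k-2)`.
For `|X| > (1/2 + η) n` apply this to `Xᶜ` (`Near H Xᶜ k ((k + p) % 2) γ`). -/
def SizStmt : Prop :=
  ∀ k : ℕ, 3 ≤ k → ∀ η : ℝ, 0 < η → ∃ γ : ℝ, 0 < γ ∧ ∃ n₀ : ℕ,
    ∀ (V : Type) [Fintype V] [DecidableEq V] (H : Finset (Finset V)) (X : Finset V) (p : ℕ),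
      n₀ ≤ Fintype.card V → Dirac H k → p < 2 → Near H X k p γ → X.Nonempty → Xᶜ.Nonempty →
      (1 / 2 - η) * (Fintype.card V : ℝ) ≤ X.card ∧
      (X.card : ℝ) ≤ (1 / 2 + η) * (Fintype.card V : ℝ)

/-- TOU (the tour).  Uses TRA.  PROOF.  If `k` is odd or `k/2 % 2 ≠ p`: there is `j` with `j % 2 ≠ p`,
`2 (j-1) < k < 2 (j+1)` (`j = k/2` or `(k ± 1)/2`), `1 ≤ j ≤ k-1`; the cone of `j` contains
`(n, |X|)` for large `n`, since `k |X| = k n/2 ± k η n` and `η < 1/(4k)`: apply `Loops j (j-1)`.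
If `k = 2 T` and `T % 2 = p` (`T ≥ 2`): `Loops (T+1) T` and `Loops (T-1) T` at the common base
`blk k T`: `N₁ = n/2`, `a₁` = the integer part of `(2 T + 1) N₁ / (2 k)`, `N₂ = n - N₁`,
`a₂ = |X| - a₁`; both are in the open cones; compose. -/
def TurStmt : Prop :=
  ∀ k K₀ : ℕ, 3 ≤ k → ∃ n₀ : ℕ,
    ∀ (V : Type) [Fintype V] [DecidableEq V] (H : Finset (Finset V)) (X : Finset V) (p : ℕ)
      (ε : ℝ) (K : ℕ), n₀ ≤ Fintype.card V → p < 2 →
      (1 / 2 - 1 / (8 * (k : ℝ))) * (Fintype.card V : ℝ) ≤ X.card →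
      (X.card : ℝ) ≤ (1 / 2 + 1 / (8 * (k : ℝ))) * (Fintype.card V : ℝ) →
      (∀ j : ℕ, 1 ≤ j → j + 1 ≤ k → j % 2 ≠ p →
        Loops V H X k p ε K j (j - 1) K₀ ∧ Loops V H X k p ε K j (j + 1) K₀) →
      ∃ (u : List Bool) (q : ℕ), q ≤ 2 * K₀ ∧
        Pl V H X k p ε K u u (Fintype.card V) X.card q

/-- BETA, the theorem of this block.  Uses GadgetStmt, SIZ, LOR, LOP, LOL, TOU, ASM.  PROOF.  `ε` from
ASM; `K₀` the maximum of the constants of LOR, LOP, LOL (`Loops` is monotone in `K₀`);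
`K = 4 k K₀`; `γ` the minimum of `ε`, the `γ` of SIZ for `η = 1/(8k)` and the `γ` of GadgetStmt for
`(ε, K)` (`Near` is monotone in `γ`). -/
def BetaStmt : Prop :=
  ∀ k : ℕ, 3 ≤ k → ∃ γ : ℝ, 0 < γ ∧ ∃ n₀ : ℕ,
    ∀ (V : Type) [Fintype V] [DecidableEq V] (H : Finset (Finset V)) (X : Finset V) (p : ℕ),
      n₀ ≤ Fintype.card V → Uni H k → Dirac H k → p < 2 → X.Nonempty → Xᶜ.Nonempty →
      Near H X k p γ → Ham H k

end Pool.Agent.KK
end

/-! ### KK.StmtsV -/
section
/-!
# Block BETA: atypical vertices, tokens, pass stage, top level (author helper5)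

`Rea` = semantic realisability (replaces `RezStmt`, `AssStmt`).  The main gap is `j`, the base level is
`t = j - 1`, `1 ≤ t`, `2 (j - 1) ≤ k < 2 (j + 1)` (after complementing).
-/

set_option autoImplicit false

namespace Pool.Agent.KK

/-! ## Definitions -/

section
variable {V : Type} [Fintype V] [DecidableEq V]

/-- The vertices outside `D` are near the parity hypergraph (only the half of `Near` which is needed:
few completions of windows of parity `p` are non-edges). -/
def NearO (H : Finset (Finset V)) (X : Finset V) (k p : ℕ) (γ : ℝ) (D : Finset V) : Prop :=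
  ∀ v ∉ D, ∀ u₁ u₂ : List Bool, u₁.length + 1 + u₂.length = k →
    wt (u₁ ++ decide (v ∈ X) :: u₂) % 2 = p →
      ((BadC H X (fw u₁ ++ Sum.inl v :: fw u₂)).ncard : ℝ) ≤ γ * (Fintype.card V : ℝ) ^ (k - 1)

/-- Completely free windows of parity `p` are fine. -/
def FW (H : Finset (Finset V)) (X : Finset V) (k p : ℕ) (ε : ℝ) : Prop :=
  ∀ s : List Bool, s.length = k → wt s % 2 = p → OKs H X ε (fw s)

/-- `L` is a good list of slots after the `k-1` free letters `u`, ending with the free letters `v`. -/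
def Lst (H : Finset (Finset V)) (X : Finset V) (k p : ℕ) (ε : ℝ) (u v : List Bool)
    (L : List (Slot V)) : Prop :=
  u.length = k - 1 ∧ v.length = k - 1 ∧ (fx L).Nodup ∧ fw v <:+ fw u ++ L ∧
    OKl H X k ε (fw u ++ L) ∧
    ∀ s : List Bool, (fw s : List (Slot V)) <:+: fw u ++ L → s.length = k → wt s % 2 = p

/-- REALISABILITY.  Outside every set `Z` of at most `K` vertices which is disjoint from `D` there is
a good list of slots from `u` to `v`, with `N` slots, `a` of them for `X`, at most `q` fixed vertices,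
among them all vertices of `D`. -/
def Rea (H : Finset (Finset V)) (X : Finset V) (k p : ℕ) (ε K : ℝ) (D : Finset V) (q : ℕ)
    (u v : List Bool) (N a : ℕ) : Prop :=
  ∀ Z : Finset V, Disjoint Z D → (Z.card : ℝ) ≤ K → ∃ L : List (Slot V), L.length = N ∧
    cX X L = a ∧ (fx L).length ≤ q ∧ (∀ x ∈ fx L, x ∉ Z) ∧ (∀ x ∈ D, x ∈ fx L) ∧
    Lst H X k p ε u v L

/-- The context at the beginning of a period of `w`. -/
def cx (k : ℕ) (w : List Bool) : List Bool := per w 0 (k - 1)

/-- All `(N, a)` in the open cone between the levels `j-1` and `j+1`, `N ≡ r mod k`, are realised by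
closed lists at the word `w`. -/
def MainL (H : Finset (Finset V)) (X : Finset V) (k p : ℕ) (ε K : ℝ) (D : Finset V)
    (q K₀ j : ℕ) (w : List Bool) (r : ℕ) : Prop :=
  ∀ N a : ℕ, N % k = r → (j - 1) * N + K₀ ≤ k * a → k * a + K₀ ≤ (j + 1) * N →
    Rea H X k p ε K D q (cx k w) (cx k w) N a

/-- Excursions downwards from the word `w` of weight `j+1` to the level `j-1` (about `M` periods
there), of length divisible by `k`. -/
def Exd (H : Finset (Finset V)) (X : Finset V) (k p : ℕ) (ε K : ℝ) (D : Finset V)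
    (q R₀ j : ℕ) (w : List Bool) : Prop :=
  ∀ M : ℕ, ∃ N a : ℕ, N % k = 0 ∧ N ≤ k * M + R₀ ∧
    |(k : ℤ) * a - (j + 1) * N + 2 * k * M| ≤ R₀ ∧
    Rea H X k p ε K D q (cx k w) (cx k w) N a

end

/-! ## Part 1: realisability -/

/-- NEO (free windows).  PROOF.  Sum over the vertex in the first slot (`BadC (fw (b :: u))` is the
union over the `v` with `(v ∈ X ↔ b)` of `BadC (inl v :: fw u)`): `v ∉ D` contributes at most
`γ n^(k-1)`, `v ∈ D` at most `n^(k-1)`. -/
def NeoStmt : Prop :=
  ∀ (V : Type) [Fintype V] [DecidableEq V] (H : Finset (Finset V)) (X D : Finset V) (k p : ℕ)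
    (γ ρ ε : ℝ), 1 ≤ k → 0 ≤ γ → NearO H X k p γ D →
    (D.card : ℝ) ≤ ρ * (Fintype.card V : ℝ) → γ + ρ ≤ ε → FW H X k p ε

/-- REL (plans are realisable).  PROOF.  As `RezStmt` (`Helper3_KK/REA.lean`): induction on the plan for
the statement with `Z` fixed; a letter step appends `inr b`, the new window is `fw (v ++ [b])`; a gadget
step uses `Sup` outside `Z ∪ fx L`, of size `≤ K' + 2 k q ≤ K`. -/
def RelStmt : Prop :=
  ∀ (V : Type) [Fintype V] [DecidableEq V] (H : Finset (Finset V)) (X : Finset V) (k p : ℕ)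
    (ε : ℝ) (K : ℕ) (u v : List Bool) (N a q : ℕ) (K' : ℝ), 1 ≤ k → FW H X k p ε →
    Pl V H X k p ε K u v N a q → K' + 2 * k * q ≤ K →
    Rea H X k p ε K' ∅ (2 * k * q) u v N a

/-- CMO (composition and monotonicity).  PROOF.  Composition: the first list avoids `Z ∪ D'`, the second one
avoids `Z ∪ fx L₁` (disjoint from `D'`).  A window of `fw u ++ L₁ ++ L₂` is an infix of
`fw u ++ L₁` or of `fw v ++ L₂`, because `fw v` is a suffix of length `k-1` of `fw u ++ L₁`. -/
def CmoStmt : Prop :=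
  (∀ (V : Type) [Fintype V] [DecidableEq V] (H : Finset (Finset V)) (X : Finset V) (k p : ℕ)
    (ε : ℝ) (u v w : List Bool) (L L' : List (Slot V)), 1 ≤ k →
    Lst H X k p ε u v L → Lst H X k p ε v w L' → (∀ x ∈ fx L, x ∉ fx L') →
    Lst H X k p ε u w (L ++ L')) ∧
  (∀ (V : Type) [Fintype V] [DecidableEq V] (H : Finset (Finset V)) (X D D' : Finset V)
    (k p : ℕ) (ε K K' : ℝ) (q q' : ℕ) (u v w : List Bool) (N N' a a' : ℕ), 1 ≤ k →
    Rea H X k p ε K D q u v N a → Rea H X k p ε K D' q' v w N' a' → Disjoint D D' →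
    K' + q + D'.card ≤ K → Rea H X k p ε K' (D ∪ D') (q + q') u w (N + N') (a + a')) ∧
  (∀ (V : Type) [Fintype V] [DecidableEq V] (H : Finset (Finset V)) (X D : Finset V)
    (k p : ℕ) (ε ε' K K' : ℝ) (q q' : ℕ) (u v : List Bool) (N a : ℕ),
    Rea H X k p ε K D q u v N a → ε ≤ ε' → K' ≤ K → q ≤ q' →
    Rea H X k p ε' K' D q' u v N a)

/-- TKR (a special gadget is realisable).  PROOF.  `L = vx l ++ fw uR`, `fx L = l`; no window of length
`k` of `fw uL ++ L` is completely free, since `uL`, `uR` have `k-1` letters and `l` is not empty. -/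
def TkrStmt : Prop :=
  ∀ (V : Type) [Fintype V] [DecidableEq V] (H : Finset (Finset V)) (X : Finset V) (k p : ℕ)
    (ε K : ℝ) (z : V) (uL c uR : List Bool), 1 ≤ k → uL.length = k - 1 → uR.length = k - 1 →
    1 ≤ c.length → SupT H X k ε K z uL c uR →
    Rea H X k p ε K {z} c.length uL uR (c.length + (k - 1)) (wt c + wt uR)

/-- SRT (reversal and complement of special gadgets, complement of connectors).  PROOF.  As `SrvStmt`,
`ScoStmt` (`Helper42_KK/W1.lean`).  Third part: for `Xᶜ`, `k-j` and `m₁, m₂` apply `Tok` of `X` to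
`(m₂.map not).reverse`, `(m₁.map not).reverse`, complement and reverse. -/
def SrtStmt : Prop :=
  (∀ (V : Type) [Fintype V] [DecidableEq V] (H : Finset (Finset V)) (X : Finset V) (k : ℕ)
    (ε K : ℝ) (z : V) (uL c uR : List Bool), SupT H X k ε K z uL c uR →
    SupT H X k ε K z uR.reverse c.reverse uL.reverse) ∧
  (∀ (V : Type) [Fintype V] [DecidableEq V] (H : Finset (Finset V)) (X : Finset V) (k : ℕ)
    (ε K : ℝ) (z : V) (uL c uR : List Bool), SupT H X k ε K z uL c uR ↔
    SupT H Xᶜ k ε K z (uL.map not) (c.map not) (uR.map not)) ∧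
  (∀ (V : Type) [Fintype V] [DecidableEq V] (H : Finset (Finset V)) (X : Finset V) (k j : ℕ)
    (ε K : ℝ) (z : V), 1 ≤ j → j + 1 ≤ k → Tok H X k ε K j z → Tok H Xᶜ k ε K (k - j) z)

/-- LAB (change of the partition).  PROOF.  (1) A window `s` of length `k` with `f ≤ k` free slots: a
completion which is bad for `X'` is bad for `X` or has a vertex of `X Δ X'` in a free slot: at most
`f · ρ n · n^(f-1)` of the latter (none if `f = 0`).  (2) Only fixed slots count differently.
(3) Pigeonhole: if no `a'` with `a ≤ a' + q`, `a' ≤ a + q` works, there is for each of these at most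
`2 q + 1` numbers a set `Z_a'` (disjoint from `D`, at most `K'` vertices) without a list; the union has
at most `(2 q + 1) K' ≤ K` vertices, a list for `X` outside the union is good for `X'` by (1) and has,
by (2), one of these counts. -/
def LabStmt : Prop :=
  (∀ (V : Type) [Fintype V] [DecidableEq V] (H : Finset (Finset V)) (X X' : Finset V) (k : ℕ)
    (ε ρ : ℝ) (L : List (Slot V)), 0 ≤ ρ →
    ((symmDiff X X').card : ℝ) ≤ ρ * (Fintype.card V : ℝ) → OKl H X k ε L →
    OKl H X' k (ε + k * ρ) L) ∧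
  (∀ (V : Type) [Fintype V] [DecidableEq V] (X X' : Finset V) (L : List (Slot V)),
    cX X L ≤ cX X' L + (fx L).length) ∧
  (∀ (V : Type) [Fintype V] [DecidableEq V] (H : Finset (Finset V)) (X X' D : Finset V)
    (k p : ℕ) (ε ρ K K' : ℝ) (q : ℕ) (u v : List Bool) (N a : ℕ), 0 ≤ ρ → 0 ≤ K' →
    ((symmDiff X X').card : ℝ) ≤ ρ * (Fintype.card V : ℝ) →
    Rea H X k p ε K D q u v N a → (2 * q + 1) * K' ≤ K →
    ∃ a' : ℕ, a ≤ a' + q ∧ a' ≤ a + q ∧ Rea H X' k p (ε + k * ρ) K' D q u v N a')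

/-! ## Part 2: pass stage and closing -/

/-- PST (a pass is a loop of four periods).  Uses REL, CMO, TKR (and `PerStmt`, `PwtStmt`, `TraStmt`).
PROOF.  `b = decide (v ∈ X)`, class `i < k` with letter `b` (`1 ≤ t ≤ k-1`), `m = per w (i+1) (k-1)`.
Times: `v` at `2k + i`, fixed times `k+i+1, .., 3k+i-1`.  Letter steps from the context at time `0` to
the context at time `i+2` (`i+2` letters, PER), which is `(m ++ [b]).tail`; the gadget (TKR, `2k-1` fixed
vertices and `k-1` letters), context `per w i (k-1)`; `k-i` letters.  Together `4k` slots, which carry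
the letters of the periodic word at the times `k-1, .., 5k-2`: `4t` letters X. -/
def PstStmt : Prop :=
  ∀ (V : Type) [Fintype V] [DecidableEq V] (H : Finset (Finset V)) (X : Finset V) (k p t : ℕ)
    (ε K K' : ℝ) (w : List Bool) (v : V), 2 ≤ k → FW H X k p ε → w.length = k → wt w = t →
    1 ≤ t → t + 1 ≤ k → t % 2 = p → Pas H X k ε K t v → K' + 2 * k ≤ K → 0 ≤ K' →
    Rea H X k p ε K' {v} (2 * k) (cx k w) (cx k w) (4 * k) (4 * t)

/-- ABQ (all vertices of `D` are passed).  Uses CMO.  PROOF.  Induction on `D`.  `D = insert v D'`: the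
list `L'` for `D'`; if `v ∈ Z ∪ fx L'` append a free list (second hypothesis, `Z ∪ fx L'` instead of
`Z`), otherwise a pass of `v`.  Sizes: `|Z ∪ fx L'| ≤ |Z| + 2 k |D'| ≤ K`. -/
def AbqStmt : Prop :=
  ∀ (V : Type) [Fintype V] [DecidableEq V] (H : Finset (Finset V)) (X D : Finset V) (k p t : ℕ)
    (ε K : ℝ) (u : List Bool), 1 ≤ k → u.length = k - 1 →
    (∀ v ∈ D, Rea H X k p ε K {v} (2 * k) u u (4 * k) (4 * t)) →
    Rea H X k p ε K ∅ 0 u u (4 * k) (4 * t) →
    ∀ Z : Finset V, (Z.card : ℝ) + 2 * k * D.card ≤ K → ∃ L : List (Slot V),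
      L.length = 4 * k * D.card ∧ cX X L = 4 * t * D.card ∧ (fx L).length ≤ 2 * k * D.card ∧
      (∀ x ∈ fx L, x ∉ Z) ∧ (∀ x ∈ D, x ∈ Z ∨ x ∈ fx L) ∧ Lst H X k p ε u u L

/-- CLZ (closing).  Uses BUL (`Helper34_KK/BUL.lean`), CYC.  PROOF.  As `AssStmt`
(`Helper97_KK/ASM.lean`): the last `k-1` slots of `L` are `fw u`, a window of `L ++ L.take (k-1)` is an
infix of `fw u ++ L`; so all windows are fine, the completely free ones have parity `p`, and for
`v ∉ fx L`, so `v ∉ D`, `NearO` is the vertex condition of BULK. -/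
def ClzStmt : Prop :=
  ∀ k : ℕ, 2 ≤ k → ∃ ε : ℝ, 0 < ε ∧ ε < 1 ∧ ∃ n₀ : ℕ,
    ∀ (V : Type) [Fintype V] [DecidableEq V] (H : Finset (Finset V)) (X D : Finset V) (p : ℕ)
      (γ : ℝ) (u : List Bool) (L : List (Slot V)), n₀ ≤ Fintype.card V → γ ≤ ε →
      NearO H X k p γ D → (∀ x ∈ D, x ∈ fx L) → L.length = Fintype.card V →
      ((fx L).length : ℝ) ≤ ε * (Fintype.card V : ℝ) → cX X L = X.card →
      Fintype.card V ≤ 4 * X.card → 4 * X.card ≤ 3 * Fintype.card V →
      Lst H X k p ε u u L → Ham H k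

/-- FIN (from a closed realisable plan to a Hamilton cycle).  Uses NEO, REL, PER, PWT, CMO, PST, ABQ, CLZ.
PROOF.  `ε` from CLZ, `ρ = min (ε/2) (min (κ/(16k)) (ε/(16 k)))`.  `FW H X k p ε` by NEO
(`ε/2 + ρ ≤ ε`).  The main list `L₀` (`Rea` with `Z = ∅`), then ABQ with `Z = fx L₀`, `|Z| ≤ Q`,
`K = κ n - 2k`: `Q + 2 k |D| + 2k ≤ κ n` for large `n`; hypotheses of ABQ by PST and by PER, REL (four
free periods, `q = 0`).  `L = L₀ ++ L₁`: length `n`, `|X|` slots for `X`, `D ⊆ fx L`,
`(fx L).length ≤ Q + 2 k |D| ≤ ε n`.  CLZ. -/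
def FinStmt : Prop :=
  ∀ k : ℕ, 3 ≤ k → ∃ ε : ℝ, 0 < ε ∧ ε < 1 ∧ ∀ κ : ℝ, 0 < κ → ∃ ρ : ℝ, 0 < ρ ∧ ∀ Q : ℕ,
    ∃ n₀ : ℕ, ∀ (V : Type) [Fintype V] [DecidableEq V] (H : Finset (Finset V))
      (X D D₁ : Finset V) (p t q N a : ℕ) (w : List Bool), n₀ ≤ Fintype.card V →
      NearO H X k p (ε / 2) D → (D.card : ℝ) ≤ ρ * (Fintype.card V : ℝ) →
      Fintype.card V ≤ 4 * X.card → 4 * X.card ≤ 3 * Fintype.card V →
      w.length = k → wt w = t → 1 ≤ t → t + 1 ≤ k → t % 2 = p →
      (∀ v, Pas H X k ε (κ * (Fintype.card V : ℝ)) t v) → q ≤ Q →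
      Rea H X k p ε 0 D₁ q (cx k w) (cx k w) N a →
      N + 4 * k * D.card = Fintype.card V → a + 4 * t * D.card = X.card → Ham H k

/-! ## Part 3: tokens -/

/-- PUT (flips upwards by a connector, both counts).  Uses REL, CMO, TKR, PER, PWT.
PROOF.  As `PupStmt` (`Helper60_KKB/PUP.lean`).  `z` at the class `c₁`, time `2k + c₁`; fixed times
`k+c₁+1, .., 3k+c₁-1`; `m₁` = letters of `W` at the classes `c₁+1, .., c₂-1`, `m₂` = letters at
`c₂+1, .., c₁-1` (cyclically).  `c₁+2` letters from the context at time `0` to the left context, the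
gadget (`2k-1` fixed vertices, `k-1` letters), context `per W' c₁ (k-1)` at time `3k + c₁`, `k - c₁`
letters.  Number of X: `4 wt W + [z ∈ X] + 2 - [c₁ = k-1] + 3 - [c₂ = k-1] - [c₂ < c₁]`.  Exchanging the
roles of `c₁` and `c₂` changes this number by exactly 1. -/
def PutStmt : Prop :=
  ∀ (V : Type) [Fintype V] [DecidableEq V] (H : Finset (Finset V)) (X : Finset V) (k p j : ℕ)
    (ε K K' : ℝ) (W W' : List Bool) (c₁ c₂ : ℕ) (z : V), 2 ≤ k → FW H X k p ε →
    W.length = k → W'.length = k → c₁ < k → c₂ < k → c₁ ≠ c₂ → wt W + 1 = j → wt W % 2 = p →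
    Tok H X k ε K j z → W.getD c₁ true = false → W.getD c₂ true = false →
    (∀ i < k, W'.getD i false = if i = c₁ ∨ i = c₂ then true else W.getD i false) →
    K' + 2 * k ≤ K → 0 ≤ K' →
    ∃ a : ℕ, a + 1 ≤ 4 * k ∧ Rea H X k p ε K' {z} (2 * k) (cx k W) (cx k W') (4 * k) a ∧
      Rea H X k p ε K' {z} (2 * k) (cx k W) (cx k W') (4 * k) (a + 1)

/-- PDT (flips downwards by a connector).  Uses SRT, REL, CMO, TKR, PER, PWT.  PROOF.  The same times with the
reversed gadget (SRT): `Tok` for `m₁` = reversed letters of the classes `c₂+1, .., c₁-1`, `m₂` =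
reversed letters of the classes `c₁+1, .., c₂-1`. -/
def PdtStmt : Prop :=
  ∀ (V : Type) [Fintype V] [DecidableEq V] (H : Finset (Finset V)) (X : Finset V) (k p j : ℕ)
    (ε K K' : ℝ) (W W' : List Bool) (c₁ c₂ : ℕ) (z : V), 2 ≤ k → FW H X k p ε →
    W.length = k → W'.length = k → c₁ < k → c₂ < k → c₁ ≠ c₂ → wt W + 1 = j → wt W % 2 = p →
    Tok H X k ε K j z → W.getD c₁ true = false → W.getD c₂ true = false →
    (∀ i < k, W'.getD i false = if i = c₁ ∨ i = c₂ then true else W.getD i false) →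
    K' + 2 * k ≤ K → 0 ≤ K' →
    ∃ a : ℕ, a ≤ 4 * k ∧ Rea H X k p ε K' {z} (2 * k) (cx k W') (cx k W) (4 * k) a

/-- WRD (base words).  PROOF.  `L = k / gcd k r`, `t = A L + m`, `m < L`.  The positions `i` with letter X:
`A` complete cycles of the map `i ↦ i + r` on the residues modulo `k` (each has `L` elements, there are
`gcd k r` of them) and, if `m > 0`, `m` consecutive elements `x, x + r, .., x + (m-1) r` of another
cycle; `c = x - r`, `c' = x + (m-1) r`.  If `m = 0` the word is invariant, `c = c'` any Y.  `d` = another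
Y (there are `k - t ≥ 2`). -/
def WrdStmt : Prop :=
  ∀ k t r : ℕ, t + 2 ≤ k → r < k → ∃ (W : List Bool) (c c' d : ℕ),
    W.length = k ∧ wt W = t ∧ c < k ∧ c' < k ∧ d < k ∧ d ≠ c ∧ d ≠ c' ∧
    W.getD d true = false ∧ W.getD c true = false ∧
    ((c = c' ∧ ∀ i < k, W.getD ((i + r) % k) false = W.getD i false) ∨
      (c ≠ c' ∧ W.getD c' false = true ∧ ∀ i < k, W.getD ((i + r) % k) false =
        if i = c then true else if i = c' then false else W.getD i false))

/-- MTO (loops with two tokens, every residue).  Uses WRD, PUT, PDT, REL, CMO, PER, PWT.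
PROOF.  `r' = (k - r) % k`, WRD for `t = j - 1` and `r'`: `W, c, c', d`.  `z₁` flips up `c, d` (`4k`
slots, `a₁` or `a₁ + 1`), `M'` periods of `W₁ = W + c + d`, `z₂` flips down `c', d` (`4k` slots, `a₂`):
now the word is `W` rotated by `r'`, so `k - r'` letters lead to the context `cx k W` (again with
`a₃` letters X); `M''` periods of `W`.  `N = N₀ + k (M' + M'')`, `N₀ = 9k - r'`,
`a = a₀ + δ + (j+1) M' + (j-1) M''`, `δ ∈ {0, 1}` free.  Given `(N, a)`: `M = (N - N₀)/k`,
`a - a₀ - (j-1) M = 2 M' + δ`; the cone conditions with `K₀ = 100 k^3` give `0 ≤ M' ≤ M`. -/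
def MtoStmt : Prop :=
  ∀ k : ℕ, 3 ≤ k → ∃ K₀ : ℕ, ∀ (V : Type) [Fintype V] [DecidableEq V] (H : Finset (Finset V))
    (X : Finset V) (p j r : ℕ) (ε K K' : ℝ) (z₁ z₂ : V), 1 ≤ j → j + 1 ≤ k → (j + 1) % 2 = p →
    r < k → z₁ ≠ z₂ → FW H X k p ε → Tok H X k ε K j z₁ → Tok H X k ε K j z₂ → 0 ≤ K' →
    K' + K₀ ≤ K → ∃ w : List Bool, w.length = k ∧ wt w = j - 1 ∧
      MainL H X k p ε K' {z₁, z₂} K₀ K₀ j w r

/-- EXT (excursion downwards with two tokens, at any word).  Uses PUT, PDT, REL, CMO, PER, PWT.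
PROOF.  `w` of weight `j+1 ≥ 2`, two X at the classes `c, d`, `w₁ = w` with Y there.  `z₁` flips down
`c, d`, `M` periods of `w₁`, `z₂` flips up `c, d`.  `N = 8k + k M`, `a = a₁ + a₂ + (j-1) M`. -/
def ExtStmt : Prop :=
  ∀ k : ℕ, 3 ≤ k → ∃ R₀ : ℕ, ∀ (V : Type) [Fintype V] [DecidableEq V] (H : Finset (Finset V))
    (X : Finset V) (p j : ℕ) (ε K K' : ℝ) (z₁ z₂ : V) (w : List Bool), 1 ≤ j → j + 1 ≤ k →
    (j + 1) % 2 = p → z₁ ≠ z₂ → FW H X k p ε → Tok H X k ε K j z₁ → Tok H X k ε K j z₂ →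
    0 ≤ K' → K' + R₀ ≤ K → w.length = k → wt w = j + 1 →
    Exd H X k p ε K' {z₁, z₂} R₀ R₀ j w

/-- MKI (loops from the kinds of unlimited gadgets).  Uses LOR, LOP, LOL, REL, BLR.  PROOF.  `Loops` at the
base `j-1` resp. `j+1` (`K₀` = maximum of the three constants; `Loops` is monotone in `K₀`); REL: at
most `2 k K₀` fixed vertices.  Second part: `N = k (M + 2 K₀)`,
`a = (j+1)(M + 2 K₀) - (2 M + K₀)`. -/
def MkiStmt : Prop :=
  ∀ k : ℕ, 3 ≤ k → ∃ K₀ : ℕ, ∀ (V : Type) [Fintype V] [DecidableEq V] (H : Finset (Finset V))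
    (X : Finset V) (p j : ℕ) (ε : ℝ) (K : ℕ) (K' : ℝ), 1 ≤ j → j + 1 ≤ k → p < 2 →
    (j + 1) % 2 = p → FW H X k p ε →
    (KindP V H X k ε K j ∨ KindR V H X k ε K j ∨ KindL V H X k ε K j) → 0 ≤ K' → K' + K₀ ≤ K →
    (∀ r, MainL H X k p ε K' ∅ K₀ K₀ j (blk k (j - 1)) r) ∧
    Exd H X k p ε K' ∅ K₀ K₀ j (blk k (j + 1))

/-! ## Part 4: from `NearPar` -/

/-- NPA (elementary facts on `NearPar`).  PROOF.  (1) `xc Aᶜ f = k - xc A f`.  (2) Replace `p` by `p % 2`.
(3) Type `j` wrong: `image f ∈ H` has `k` elements, so `f` is injective and is counted in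
`NearPar`. -/
def NpaStmt : Prop :=
  ∀ (V : Type) [Fintype V] [DecidableEq V] (H : Finset (Finset V)) (A : Finset V) (k p : ℕ)
    (η : ℝ), Uni H k → NearPar H k A p η →
    NearPar H k Aᶜ ((k + p) % 2) η ∧ NearPar H k A (p % 2) η ∧
    ∀ j : ℕ, j % 2 ≠ p % 2 →
      ({f : Fin k → V | Finset.univ.image f ∈ H ∧
        (Finset.univ.filter fun i => f i ∈ A).card = j}.ncard : ℝ) ≤
          η * (Fintype.card V : ℝ) ^ k

/-- NPS (sizes).  PROOF.  Let `t ∈ {0, 1}`, and consider the functions `f : Fin (k-1) → V` which are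
injective and have exactly `t` entries in `A` (the first `t`): at least `(n/20)^(k-1)` for large `n`.
For each of them `|N(f)| ≥ n/2`.  If `t % 2 = p % 2`, every `v ∈ N(f) ∩ A` gives an injective tuple
(`Fin.snoc f v`) of wrong type `t + 1` in `H`: so `(n/20)^(k-1) (n/2 - |Aᶜ|) ≤ η n^k`.  If
`t % 2 ≠ p % 2`, every `v ∈ N(f) ∩ Aᶜ` gives one of wrong type `t`:
`(n/20)^(k-1) (n/2 - |A|) ≤ η n^k`.  So `|A|, |Aᶜ| ≥ n/2 - 20^(k-1) η n`. -/
def NpsStmt : Prop :=
  ∀ k : ℕ, 3 ≤ k → ∃ n₀ : ℕ, ∀ (V : Type) [Fintype V] [DecidableEq V] (H : Finset (Finset V))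
    (A : Finset V) (p : ℕ) (η : ℝ), n₀ ≤ Fintype.card V → Uni H k → Dirac H k →
    NearPar H k A p η →
    |(A.card : ℝ) - (Fintype.card V : ℝ) / 2| ≤ 20 ^ k * η * (Fintype.card V : ℝ)

/-- NPO (few atypical vertices).  PROOF.  For a vertex `v` let `b(v)` be the number of the tuples of
`NearPar` which contain `v`; `∑ b(v) ≤ k η n^k`, so at most `k η n / γ` vertices have
`b(v) > γ n^(k-1)`.  `D` = these vertices and `X Δ A`.  For `v ∉ D` a completion `e` of
`fw u₁ ++ inl v :: fw u₂` for `X` which is not an edge (parity `p`) either has a vertex of `X Δ A` in a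
free slot (at most `(k-1) ρ n · n^(k-2)`) or fits `A`, then the tuple `e` is one of `NearPar`
containing `v`. -/
def NpoStmt : Prop :=
  ∀ (V : Type) [Fintype V] [DecidableEq V] (H : Finset (Finset V)) (A X : Finset V) (k p : ℕ)
    (η γ ρ : ℝ), 2 ≤ k → p < 2 → 0 ≤ η → 0 < γ → 0 ≤ ρ → NearPar H k A p η →
    ((symmDiff X A).card : ℝ) ≤ ρ * (Fintype.card V : ℝ) →
    ∃ D : Finset V, (D.card : ℝ) ≤ (k * η / γ + ρ) * (Fintype.card V : ℝ) ∧
      NearO H X k p (γ + k * ρ) D

/-! ## Part 5: top level -/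

/-- ONE (one gap).  PROOF.  `E = k |X| - (j-1) n` etc.: `N = n - 4 k |D|`, `a = |X| - 4 (j-1) |D|`,
`k a - (j-1) N = k |X| - (j-1) n ≥ K₀` and `(j+1) N - k a = (j+1) n - k |X| - 8 k |D| ≥ K₀`, because
`||X| - n/2| ≤ ρ n`, `|D| ≤ ρ n`, `2 (j-1) < k < 2 (j+1)`, `ρ ≤ 1/(100 k)`, `n` large. -/
def OneStmt : Prop :=
  ∀ k K₀ : ℕ, 3 ≤ k → ∃ n₀ : ℕ, ∀ (n x D j : ℕ), n₀ ≤ n → 1 ≤ j → j + 1 ≤ k →
    2 * (j - 1) < k → k < 2 * (j + 1) →
    |(x : ℝ) - (n : ℝ) / 2| ≤ 1 / (100 * k) * (n : ℝ) → (D : ℝ) ≤ 1 / (100 * k) * (n : ℝ) →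
    ∃ N a : ℕ, N + 4 * k * D = n ∧ a + 4 * (j - 1) * D = x ∧ (j - 1) * N + K₀ ≤ k * a ∧
      k * a + K₀ ≤ (j + 1) * N

/-- TWO (two gaps, arithmetic).  `k = 2 T`, `E = k x - T n`.  PROOF.  `M` = the smallest natural number with
`E + 2 k M ≥ K₀ + R`; given `N', a'` with `|k a' - T N' + 2 k M| ≤ R` and `N' ≤ k M + R` put
`N = n - 4 k D - N'`, `a = x - 4 T D - a'`: `k a - T N = E - (k a' - T N') ≥ E + 2 k M - R ≥ K₀`, and it
is `≤ E + 2 k M + R ≤ max E 0 + K₀ + 2 R + 2 k ≤ 2 N - K₀` for large `n`, as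
`|E| ≤ n / 100 · k / k ..`, `M ≤ (|E| + K₀ + R)/(2k) + 1`; `N, a ≥ 0` similarly. -/
def TwoStmt : Prop :=
  ∀ k T K₀ R : ℕ, 3 ≤ k → k = 2 * T → ∃ n₀ : ℕ, ∀ (n x D : ℕ), n₀ ≤ n →
    |(x : ℝ) - (n : ℝ) / 2| ≤ 1 / (100 * k) * (n : ℝ) → (D : ℝ) ≤ 1 / (100 * k) * (n : ℝ) →
    ∃ M : ℕ, ∀ N' a' : ℕ, N' ≤ k * M + R →
      |(k : ℤ) * a' - T * N' + 2 * k * M| ≤ R →
      ∃ N a : ℕ, N + N' + 4 * k * D = n ∧ a + a' + 4 * T * D = x ∧ T * N + K₀ ≤ k * a ∧
        k * a + K₀ ≤ (T + 2) * N

/-- BEH (the theorem for `NearPar`).  Uses GadStmt, FIN, NEO, CMO, SRT, LAB, MTO, EXT, MKI, NPA, NPS, NPO,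
ONE, TWO.

PROOF.  CONSTANTS.  `ε` from FIN; `K₀` = maximum of the constants of MTO, EXT, MKI; `Q` and `K`
sufficiently large (`Q = 10 k (K₀ + 1)`, `K = 100 k (K₀ + 1)^2`); `κ` from GAD for `(ε/4, K)`; `ρ₁` from FIN
for `κ`; `ρ = min ρ₁ (ε/(16 k)) (1/(100 k)) / 8`; `γ` from GAD for `ρ`; `η` small: `20^k η ≤ min γ ρ`,
`k η/(ε/16) ≤ ρ`.
CASE 1: `k` odd or `k = 2T`, `T % 2 ≠ p`.  After replacing `(A, p)` by `(Aᶜ, (k + p) % 2)` if
necessary (NPA; `k = 2T + 1`, `T % 2 ≠ p`) there is `j` with `2 ≤ j`, `j + 1 ≤ k`, `(j + 1) % 2 = p`,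
`2 (j - 1) < k < 2 (j + 1)` (`j = T + 1` for `k = 2T + 1`, `T % 2 = p`; `j = T` for `k = 2T`).  GAD for
`(A, j)`: `X`.  NPO for `X`: `D`, `|D| ≤ 2 ρ n`, NearO with `ε/16 + k ρ ≤ ε/8`; FW with `ε/4` (NEO).
ONE gives `(N, a)`.  If GAD gives a kind: MKI, otherwise choose two different connectors: MTO for
`r = N % k`.  FIN (monotonicity CMO: `ε/4 ≤ ε`).
CASE 2: `k = 2T`, `T % 2 = p`, `T ≥ 2`.  Main gap `T + 1`, base level `T`.
(2a) GAD for `(A, T+1)` gives a kind.  GAD for `(A, T-1)` gives `X_s`, a kind or connectors: MKI or EXT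
(two different connectors; word `blk k T`) give `Exd` for `X_s`; LAB: for `X` with unknown count
(`symmDiff X X_s ≤ 2 ρ n`).  TWO gives `M`, then `(N', a')` from `Exd` and LAB, then `(N, a)`; MKI for
`(N, a)`; CMO composes them; FIN.
(2b) GAD for `(Aᶜ, T+1)` gives a kind: (2a) for `Aᶜ` (`(k + p) % 2 = p`).
(2c) Both give connectors: `z₁, z₂` from `(A, T+1)` and `z₃, z₄` from `(Aᶜ, T+1)`, all different
(`k ≥ 4`); by SRT `z₃, z₄` are connectors for the complement at `k - (T+1) = T - 1`.  MTO for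
`r = n % k` gives the word `w` of weight `T`, EXT for `z₃, z₄` and this word gives `Exd`; since `N'` is
divisible by `k`, `N % k = n % k`.  The rest as in (2a). -/
def BehStmt : Prop := BetStmt

end Pool.Agent.KK
end

/-! ### KK.StmtsG -/
section
/-!
# Block G (gadgets at one gap in slot form), author helper68

`k = p + q + 2`, the missing type is `(p+1, q+1)`, `j = p + 1`.  No parity assumption.  Uses the
definitions and rows of StmtsE (`D`, `Mix`, `Non`, `Mst`, `Amb`, `Cst`, `GoodM`, `NF`, ...) and the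
slots of BetaDefs (`BadC`, `OKs`, `OKl`, `Sup`, `RMoves`, `LMoves`, `KindP`, `KindR`, `KindL`).
Every row is `theorem gxx : StmtGxx` with earlier statements as hypotheses.
-/

set_option autoImplicit false

namespace Pool.Agent.KK.E

/-! ## Definitions -/

/-- TWO-SIDED SUPPLY THROUGH `z`: outside every set `Z` of at most `κ` vertices, `z ∉ Z`, there are
lists `l₁`, `l₂` with letters `m`, `m'` such that all windows of `uL l₁ z l₂ uR` are fine. -/
def Two {V : Type} [Fintype V] [DecidableEq V] (H : Finset (Finset V)) (X : Finset V) (k : ℕ)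
    (ε κ : ℝ) (z : V) (m m' uL uR : List Bool) : Prop :=
  ∀ Z : Finset V, (Z.card : ℝ) ≤ κ → z ∉ Z →
    ∃ l₁ l₂ : List V, l₁.map (fun v => decide (v ∈ X)) = m ∧
      l₂.map (fun v => decide (v ∈ X)) = m' ∧ (l₁ ++ z :: l₂).Nodup ∧
      (∀ u ∈ l₁ ++ z :: l₂, u ∉ Z) ∧
      OKl H X k ε (fw uL ++ vx (l₁ ++ z :: l₂) ++ fw uR)

/-- Constants with the additional parameter `ε`. -/
structure CstG (k B : ℕ) (η θ : ℕ → ℝ) (h δ ε : ℝ) : Prop where
  cst : Cst k B η θ h δ
  epos : 0 < ε
  eone : ε ≤ 1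
  stepG : ∀ i, i < k → 32 * (k : ℝ) * η i ≤ ε * η (i + 1)
  thetaG : ∀ i, 1 ≤ i → i < k → 32 * (k : ℝ) * η (i - 1) ≤ ε * (θ i) ^ (2 ^ k)
  delG : 100 * (k : ℝ) * δ ≤ ε * η 0

/-! ## Rows -/

/-- **G01** Bad completions of a window with fixed vertices, by `D`.
PROOF. A list `e ∈ BadC H X s` is determined by its entries at the free slots, a function `f` in the
box of the letters of the free slots, and `e.toFinset = (fixed vertices) ∪ image f ∉ H`.  Re-index the
free slots with letter `true` by `Fin a`, `a = s.count (inr true)`, those with letter `false` by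
`Fin b` (E02): at most `(1 - D H X M a b) |X|^a |Xᶜ|^b ≤ (1 - D) n^(a+b)` lists, `a + b = fr s`. -/
def StmtG01 : Prop :=
  ∀ (V : Type) [Fintype V] [DecidableEq V] (H : Finset (Finset V)) (X : Finset V)
    (s : List (Slot V)), X.Nonempty → (Xᶜ).Nonempty →
    ((BadC H X s).ncard : ℝ) ≤
      (1 - D H X (fx s).toFinset (s.count (Sum.inr true)) (s.count (Sum.inr false))) *
        (Fintype.card V : ℝ) ^ fr s

/-- **G02** Markov: fixing some generic vertices.
PROOF. `D(M; a+s, b+t)` is the average over `z` in the box of `l` of `D(M ∪ image z; a, b)` (the same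
event; E02 for a bijection `Fin (a+s) ⊕ Fin (b+t) ≃ ι ⊕ (Fin a ⊕ Fin b)` respecting letters,
E03(1)).  So the average of `1 - D(M ∪ image z; a, b) ≥ 0` is `1 - D(M; a+s, b+t)`; Markov. -/
def StmtG02 : Prop :=
  ∀ (V : Type) [Fintype V] [DecidableEq V] (ι : Type) [Fintype ι] (H : Finset (Finset V))
    (X M : Finset V) (l : ι → Bool) (a b s t : ℕ) (ε : ℝ), X.Nonempty → (Xᶜ).Nonempty →
    0 < ε → (Finset.univ.filter fun i => l i = true).card = s →
    (Finset.univ.filter fun i => l i = false).card = t →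
    ε * dens (fun i => sd X (l i)) (fun z => D H X (M ∪ Finset.univ.image z) a b < 1 - ε) ≤
      1 - D H X M (a + s) (b + t)

/-- **G00** GENERAL SUPPLY LEMMA.  `k = p+q+2`; a block of `L ≤ 3k` positions with letters `c` between
the free letters `uL`, `uR`; `o` fixes some vertices; `P` is an event of density `≥ τ` for the block.
Every window of length `k` of `uL c uR` (start `a`; the block occupies `k-1, .., k-2+L`) is CORE
(inside the block, an edge as soon as `P f`) or ORDINARY (weight `p` or `p+2`, its fixed vertices have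
the letters `c` and form a normal set with at most `p+1` elements in `X` and `q+1` outside).
PROOF. Box `bx X (c.getD · false) o`.  (1) `P`: density `≥ τ`.  (2) Not injective, or a generic position
in `Z` or equal to a fixed vertex: density `≤ 3(L^2 + L(|Z| + L))/n ≤ δ + (9/100) τ` (E04 for
`W = Z ∪ fixed vertices`, `Amb.big`, `|Z| ≤ κ`).  (3) An ordinary window `a` with at least one position
outside the block (otherwise it is completely fixed, see below): fixed vertices `M' ∪ image z`, `z` =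
generic positions of the block in the window (some injection `ι → Fin L`), `s`, `t` their numbers of
letters X, Y, `a'`, `b'` the numbers of free letters of the window.  Weight `p`:
`D(M'; a'+s, b'+t) = D(M'; p-|M' ∩ X|, q+2-|M' \ X|) ≥ 1 - 3δ - η |M'|` (E17(2), `|M' ∩ X| ≤ p` because
the window has only `p` letters X); weight `p+2`: E17(1).  So by G02 (and E02) outside a density
`(3δ + e₀)/ε` we have `D(M' ∪ image z; a', b') ≥ 1 - ε`, and then `OKs` by G01.  This includes
ordinary windows inside the block (`a' = b' = 0`).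
(4) At most `L + k - 1 ≤ 4k` windows: total failing density
`≤ δ + (9/100) τ + 4k (3δ + e₀)/ε < τ`.  (5) A core window is an edge and completely fixed:
`BadC` is empty.  Take `f` in the box with all properties. -/
def StmtG00 : Prop :=
  ∀ (V : Type) [Fintype V] [DecidableEq V] (H : Finset (Finset V)) (X Z : Finset V)
    (p q B L : ℕ) (δ ε τ e₀ : ℝ) (η : ℕ → ℝ) (c uL uR : List Bool) (o : Fin L → Option V)
    (P : (Fin L → V) → Prop), Amb H X p q B δ → 0 < ε → ε ≤ 1 → 0 < τ → 0 ≤ e₀ →
    c.length = L → L ≤ 3 * (p + q + 2) → uL.length = p + q + 1 → uR.length = p + q + 1 →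
    (∀ i i' v, o i = some v → o i' = some v → i = i') → (∀ i v, o i = some v → v ∉ Z) →
    τ ≤ dens (bx X (fun i : Fin L => c.getD i false) o) P →
    (∀ a : ℕ, a + (p + q + 2) ≤ L + 2 * (p + q + 1) →
      ((p + q + 1 ≤ a ∧ a + (p + q + 2) ≤ L + (p + q + 1) ∧
          ∀ f : Fin L → V, (∀ i, f i ∈ bx X (fun i : Fin L => c.getD i false) o i) → P f →
            (Finset.univ.filter fun i : Fin L => a ≤ (i : ℕ) + (p + q + 1) ∧
              (i : ℕ) + (p + q + 1) < a + (p + q + 2)).image f ∈ H) ∨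
        ((wt (((uL ++ c ++ uR).drop a).take (p + q + 2)) = p ∨
            wt (((uL ++ c ++ uR).drop a).take (p + q + 2)) = p + 2) ∧
          (∀ (i : Fin L) (v : V), a ≤ (i : ℕ) + (p + q + 1) →
            (i : ℕ) + (p + q + 1) < a + (p + q + 2) → o i = some v →
            (v ∈ X ↔ c.getD i false = true)) ∧
          ∀ M' : Finset V, (∀ v, v ∈ M' ↔ ∃ i : Fin L, a ≤ (i : ℕ) + (p + q + 1) ∧
            (i : ℕ) + (p + q + 1) < a + (p + q + 2) ∧ o i = some v) →
            ¬ Non H X p q η M' ∧ (M' ∩ X).card ≤ p + 1 ∧ (M' \ X).card ≤ q + 1 ∧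
              η M'.card ≤ e₀))) →
    (Z.card : ℝ) ≤ τ / (100 * ((p + q + 2 : ℕ) : ℝ)) * (Fintype.card V : ℝ) →
    32 * ((p + q + 2 : ℕ) : ℝ) * e₀ ≤ ε * τ → 100 * ((p + q + 2 : ℕ) : ℝ) * δ ≤ ε * τ →
    ∃ f : Fin L → V, Function.Injective f ∧ (∀ i, f i ∉ Z) ∧
      (∀ i v, o i = some v → f i = v) ∧
      (∀ i, o i = none → (f i ∈ X ↔ c.getD i false = true)) ∧ P f ∧
      OKl H X (p + q + 2) ε (fw uL ++ vx (List.ofFn f) ++ fw uR)

/-- **G03** SINGLE WINDOW GADGET.  `c` = letters of the window (`p+1` letters X), `o` places the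
minimal non-normal set `M` into the window, the first and the last position are occupied.
PROOF. G00 with `L = k`, `P f` = (image of `f` is an edge), `τ = η |M|`, `e₀ = η (|M|-1)`: the density of
`P` is `D(M; p+1-|M ∩ X|, q+1-|M \ X|) > η |M|` (E05, `Non`).  The window starting at `k-1` is core.  Every
other window misses the first or the last position of the block, so its fixed vertices form a proper
subset of `M`, which is normal; `η` is increasing (`Cst.step`); weights by hypothesis.  Numbers: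
`stepG`, `delG`, `|Z| ≤ B` and `Amb.big` (`B ≤ δ n/(100 k^2) ≤ τ n/(100 k)`). -/
def StmtG03 : Prop :=
  ∀ (V : Type) [Fintype V] [DecidableEq V] (H : Finset (Finset V)) (X M Z : Finset V)
    (p q B : ℕ) (δ h ε : ℝ) (η θ : ℕ → ℝ) (c uL uR : List Bool)
    (o : Fin (p + q + 2) → Option V), Amb H X p q B δ → CstG (p + q + 2) B η θ h δ ε →
    Mst H X p q η M → Z.card ≤ B → Disjoint M Z →
    c.length = p + q + 2 → wt c = p + 1 → uL.length = p + q + 1 → uR.length = p + q + 1 →
    (∀ a, a < p + q + 1 → wt (((uL ++ c).drop a).take (p + q + 2)) = p ∨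
      wt (((uL ++ c).drop a).take (p + q + 2)) = p + 2) →
    (∀ a, 1 ≤ a → a ≤ p + q + 1 → wt (((c ++ uR).drop a).take (p + q + 2)) = p ∨
      wt (((c ++ uR).drop a).take (p + q + 2)) = p + 2) →
    (∀ v, v ∈ M ↔ ∃ i, o i = some v) → (∀ i i' v, o i = some v → o i' = some v → i = i') →
    (∀ i v, o i = some v → (v ∈ X ↔ c.getD i false = true)) →
    (o 0 ≠ none) → (o (Fin.last (p + q + 1)) ≠ none) →
    ∃ l : List V, l.Nodup ∧ (∀ v ∈ l, v ∉ Z) ∧ (∀ v ∈ M, v ∈ l) ∧
      l.map (fun v => decide (v ∈ X)) = c ∧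
      OKl H X (p + q + 2) ε (fw uL ++ vx l ++ fw uR)

/-- **G04** Placing `M` in a window with prescribed first and last element.
PROOF. `M ∩ X` has at most as many elements as `c` has letters `true`, `M \ X` at most as many as `c`
has letters `false`; put `m₁` first, `m₂` last, and the other elements injectively into the remaining
positions of their letter. -/
def StmtG04 : Prop :=
  ∀ (V : Type) [Fintype V] [DecidableEq V] (X M : Finset V) (p q : ℕ) (c : List Bool)
    (m₁ m₂ : V), c.length = p + q + 2 → wt c = p + 1 → (M ∩ X).card ≤ p + 1 →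
    (M \ X).card ≤ q + 1 → m₁ ∈ M → m₂ ∈ M → m₁ ≠ m₂ →
    (m₁ ∈ X ↔ c.getD 0 false = true) → (m₂ ∈ X ↔ c.getD (p + q + 1) false = true) →
    ∃ o : Fin (p + q + 2) → Option V, o 0 = some m₁ ∧ o (Fin.last (p + q + 1)) = some m₂ ∧
      (∀ v, v ∈ M ↔ ∃ i, o i = some v) ∧ (∀ i i' v, o i = some v → o i' = some v → i = i') ∧
      ∀ i v, o i = some v → (v ∈ X ↔ c.getD i false = true)

/-- **G05** RIGHT MOVES AND LEFT MOVES.
PROOF. (R) `m.length = k-2`, `wt m = p+1`: G03 with `c = false :: m ++ [false]` (weight `p+1`),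
`uL = m ++ [true]`, `uR = true :: m`, `o` from G04 for two elements `m₁ ≠ m₂` of `M \ X`.  The windows
of `uL ++ c = m ++ [true] ++ false :: m ++ [false]` starting at `a < k-1` contain `true :: false` and
rotated `m`, or, for `a = k-2`, `[true] ++ false :: m`: weight `p+2`; those of
`c ++ uR = false :: m ++ [false] ++ true :: m` starting at `1 ≤ a ≤ k-1` have weight `p+2`, too.
(L) `wt m + 1 = p` (so `p ≥ 1`): `c = true :: m ++ [true]`, `uL = m ++ [false]`, `uR = false :: m`,
weight `p` of all other windows, `m₁ ≠ m₂` in `M ∩ X`. -/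
def StmtG05 : Prop :=
  ∀ (V : Type) [Fintype V] [DecidableEq V] (H : Finset (Finset V)) (X M Z : Finset V)
    (p q B : ℕ) (δ h ε : ℝ) (η θ : ℕ → ℝ) (m : List Bool), Amb H X p q B δ →
    CstG (p + q + 2) B η θ h δ ε → Mst H X p q η M → Z.card ≤ B → Disjoint M Z →
    m.length = p + q →
    ((2 ≤ (M \ X).card → wt m = p + 1 → ∃ l : List V, l.Nodup ∧ (∀ v ∈ l, v ∉ Z) ∧
      l.map (fun v => decide (v ∈ X)) = false :: m ++ [false] ∧
      OKl H X (p + q + 2) ε (fw (m ++ [true]) ++ vx l ++ fw (true :: m))) ∧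
    (2 ≤ (M ∩ X).card → wt m + 1 = p → ∃ l : List V, l.Nodup ∧ (∀ v ∈ l, v ∉ Z) ∧
      l.map (fun v => decide (v ∈ X)) = true :: m ++ [true] ∧
      OKl H X (p + q + 2) ε (fw (m ++ [false]) ++ vx l ++ fw (false :: m))))

/-- **G06** CROSSING with a bi-coloured `M`: letters `Y^(q+1) X^(p+1)` between `low p q` and
`high p q`.
PROOF. G03 with `c = Y^(q+1) X^(p+1)`, `uL = low p q`, `uR = high p q`; first element of `M` in
`M \ X`, last one in `M ∩ X` (G04).  The window weights are E18 (`word p q = uL ++ c ++ uR`). -/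
def StmtG06 : Prop :=
  ∀ (V : Type) [Fintype V] [DecidableEq V] (H : Finset (Finset V)) (X M Z : Finset V)
    (p q B : ℕ) (δ h ε : ℝ) (η θ : ℕ → ℝ), Amb H X p q B δ →
    CstG (p + q + 2) B η θ h δ ε → Mst H X p q η M → Z.card ≤ B → Disjoint M Z →
    (M ∩ X).Nonempty → (M \ X).Nonempty →
    ∃ l : List V, l.Nodup ∧ (∀ v ∈ l, v ∉ Z) ∧
      l.map (fun v => decide (v ∈ X)) =
        List.replicate (q + 1) false ++ List.replicate (p + 1) true ∧
      OKl H X (p + q + 2) ε (fw (low p q) ++ vx l ++ fw (high p q))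

/-- **G07** FAR FLIPS with a bi-coloured pair `M = {y₀, x₀}`.
PROOF. G00 with the block of the times `d-k+1, .., k-1` (`d = m₁.length + 1`, `L = 2k-1-d`),
`c = m₂ ++ false :: m₁ ++ true :: m₂`, `y₀` at time `0` (position `m₂.length`), `x₀` at time `d`.
`E` = event on `(Fin p ⊕ Fin q)` that `M ∪ Q` is an edge; density `D(M; p, q) > η 2`.  Blow-up (E20,
`p+q ≤ k` coordinates): density `≥ (η 2)^(2^k) =: τ` for two copies; the classes of `m₂` use copy 0 before
time `0` and copy 1 after time `d`, the classes of `m₁` copy 0; `P f` = (all windows of the block which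
contain both positions are edges), density `≥ τ` (E02 for the injection of the used copies, E05-like
re-indexing).  Windows containing times `0` and `d` (starts `d-k+1, .., 0`) are core (inside the block).
The other windows contain at most one of `y₀, x₀` (normal, `M` is minimal), the ones
ending before time `d` have weight `p`, the ones starting after time `0` have weight `p+2`.
`e₀ = η 1`.  Numbers: `thetaG 2` (`2 < k` because `1 ≤ p+q`; `θ 2 ≤ η 2`), `delG`. -/
def StmtG07 : Prop :=
  ∀ (V : Type) [Fintype V] [DecidableEq V] (H : Finset (Finset V)) (X M Z : Finset V)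
    (p q B : ℕ) (δ h ε : ℝ) (η θ : ℕ → ℝ) (m₁ m₂ : List Bool), 1 ≤ p + q →
    Amb H X p q B δ → CstG (p + q + 2) B η θ h δ ε → Mst H X p q η M → Z.card ≤ B →
    Disjoint M Z → (M ∩ X).card = 1 → (M \ X).card = 1 →
    m₁.length + m₂.length = p + q → wt m₁ + wt m₂ = p →
    ∃ l : List V, l.Nodup ∧ (∀ v ∈ l, v ∉ Z) ∧
      l.map (fun v => decide (v ∈ X)) = m₂ ++ false :: m₁ ++ true :: m₂ ∧
      OKl H X (p + q + 2) ε (fw (m₂ ++ false :: m₁ ++ [false]).tail ++ vx l ++
        fw (true :: m₁ ++ true :: m₂).dropLast)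

/-- **G08** FAR FLIP with a connector `z` (either colour; `Z` may have linear size).
PROOF. G00 with `L = 2k-1`, `c = (m₁ ++ false :: m₂) ++ decide (z ∈ X) :: (m₁ ++ true :: m₂)`, `o` fixes only
`z`, at position `k-1` (time `0`).  `E` = event of `Mix H X {z} p q`
(letters of `Q` = letters of `m₁ ++ m₂`: `p` letters X, `q` letters Y; plus `x`, `y`): density
`> θ 1`; `k` coordinates; blow-up (E20) `≥ (θ 1)^(2^k) =: τ`: copies 0 before `z`, copies 1 after `z`; the
class `d = m₁.length + 1` carries `y` before `z` and `x` after `z`; `P f` = (all windows of the block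
which contain `z` are edges): such a window is `z ∪` (transversal of the `Q` classes) `∪ y` (if it ends
before time `d`) or `∪ x`, so `P` has density `≥ τ` (E02).  All windows inside the block contain `z`:
core.  The other windows have weight `p` (before) or `p+2` (after) and no fixed vertex, `∅` is
normal, `e₀ = η 0`.  Numbers: `thetaG 1`, `delG`.  Cut `List.ofFn f` into
`l₁ ++ z :: l₂`. -/
def StmtG08 : Prop :=
  ∀ (V : Type) [Fintype V] [DecidableEq V] (H : Finset (Finset V)) (X : Finset V)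
    (p q B : ℕ) (δ h ε κ : ℝ) (η θ : ℕ → ℝ) (z : V) (m₁ m₂ : List Bool), 1 ≤ p + q →
    Amb H X p q B δ → CstG (p + q + 2) B η θ h δ ε → ¬ Non H X p q η ∅ →
    θ 1 < Mix H X {z} p q → m₁.length + m₂.length = p + q → wt m₁ + wt m₂ = p →
    κ ≤ (θ 1) ^ (2 ^ (p + q + 2)) / (100 * ((p + q + 2 : ℕ) : ℝ)) * (Fintype.card V : ℝ) →
    Two H X (p + q + 2) ε κ z (m₁ ++ false :: m₂) (m₁ ++ true :: m₂)
      (m₁ ++ false :: m₂ ++ [false]).tail (true :: m₁ ++ true :: m₂).dropLast

/-- **G09** CROSSING with a mixed `M ⊆ X`.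
PROOF. G00; slot version of E21: `μ = |M|`, `L = 2k-μ`, the block consists of the positions
`k-1, .., 3k-2-μ` of E21: `y`, copies 0 of `Q` (letters `Y^q X^(p+1-μ)`), `M` (fixed by `o`, any order), `x`,
copies 1 of `Q`.  `P f` = (all windows of the block containing `M` are edges; `k-μ+1` windows, all inside the
block): density `≥ (θ μ)^(2^k) =: τ` (E20, E02, as in E21).  Free letters: `low p q` before, and afterwards
the `k-1` letters `X^(μ+1) Y^q X^p` cut to length `k-1`; the letters of `uL c uR` from position `k` on are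
`k`-periodic with weight `p+2`.  Every other window contains a proper
subset of `M` (normal) and has weight `p` (starts before `k-1`) or `p+2`; `e₀ = η (μ-1)`.  Numbers:
`thetaG μ` (`μ ≤ p+1 < k`), `delG`. -/
def StmtG09 : Prop :=
  ∀ (V : Type) [Fintype V] [DecidableEq V] (H : Finset (Finset V)) (X M Z : Finset V)
    (p q B : ℕ) (δ h ε : ℝ) (η θ : ℕ → ℝ), Amb H X p q B δ →
    CstG (p + q + 2) B η θ h δ ε → Mst H X p q η M → Z.card ≤ B → Disjoint M Z →
    M.Nonempty → M ⊆ X → M.card ≤ p + 1 → θ M.card < Mix H X M (p + 1 - M.card) q →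
    ∃ l : List V, l.Nodup ∧ (∀ v ∈ l, v ∉ Z) ∧
      l.map (fun v => decide (v ∈ X)) =
        List.replicate (q + 1) false ++ List.replicate (p + 2) true ++
          List.replicate q false ++ List.replicate (p + 1 - M.card) true ∧
      OKl H X (p + q + 2) ε (fw (low p q) ++ vx l ++
        fw ((List.replicate (M.card + 1) true ++ List.replicate q false ++
          List.replicate p true).take (p + q + 1)))

/-- **G10** PASS (neutral insertion) of an arbitrary vertex `v` as the letter `b` in the periodic word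
`b m` of weight `p` or `p+2`, if the density `D(v; letters of m)` of its link is at least `τ`.
PROOF. G00 with `L = 2k-1`, `c = m ++ b :: m`, `o` fixes only `v` at position `k-1`.  The density of the
`Q` with the letters `m` and `v ∪ Q ∈ H` is `≥ τ`; blow-up (E20, `k-1` coordinates): `≥ τ^(2^k)`; copies 0
before `v`, copies 1 after `v`; `P f` = (all windows of the block are edges; each is `v` plus a
transversal): core.  The other windows have weight `wt (b :: m)` and no fixed vertex (`∅` is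
normal); `e₀ = η 0`.  Cut `List.ofFn f` into `l₁ ++ v :: l₂`. -/
def StmtG10 : Prop :=
  ∀ (V : Type) [Fintype V] [DecidableEq V] (H : Finset (Finset V)) (X : Finset V)
    (p q B : ℕ) (δ ε κ τ : ℝ) (η : ℕ → ℝ) (v : V) (b : Bool) (m : List Bool), 1 ≤ p + q →
    Amb H X p q B δ → ¬ Non H X p q η ∅ → 0 < ε → ε ≤ 1 → 0 < τ → τ ≤ 1 → 0 ≤ η 0 →
    m.length = p + q + 1 → (wt (b :: m) = p ∨ wt (b :: m) = p + 2) →
    τ ≤ D H X {v} (m.count true) (m.count false) →
    κ ≤ τ ^ (2 ^ (p + q + 2)) / (100 * ((p + q + 2 : ℕ) : ℝ)) * (Fintype.card V : ℝ) →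
    32 * ((p + q + 2 : ℕ) : ℝ) * η 0 ≤ ε * τ ^ (2 ^ (p + q + 2)) →
    100 * ((p + q + 2 : ℕ) : ℝ) * δ ≤ ε * τ ^ (2 ^ (p + q + 2)) →
    Two H X (p + q + 2) ε κ v m m (m ++ [b]).tail (b :: m).dropLast

/-- **G11** EXCEPTIONAL VERTICES are few.
PROOF. `C = {v | Non {v}}`.  The average of `D({v}; p, q+1)` over `v ∈ X` is `D(∅; p+1, q+1)` and the
average of `D({v}; p+1, q)` over `v ∉ X` is the same number (E02, E03); Markov in `X` and in `Xᶜ`. -/
def StmtG11 : Prop :=
  ∀ (V : Type) [Fintype V] [DecidableEq V] (H : Finset (Finset V)) (X : Finset V)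
    (p q : ℕ) (η : ℕ → ℝ), X.Nonempty → (Xᶜ).Nonempty → 0 < η 1 →
    ∃ C : Finset V, (∀ v, v ∈ C ↔ Non H X p q η {v}) ∧
      (C.card : ℝ) * η 1 ≤ D H X ∅ (p + 1) (q + 1) * (Fintype.card V : ℝ)

/-- **G12** Choice of the partition (E24 with the size of the change).  PROOF.  As E24
(`|X Δ X'| ≤ 3 ε n ≤ δ n`). -/
def StmtG12 : Prop :=
  ∀ (V : Type) [Fintype V] [DecidableEq V] (H : Finset (Finset V)) (X : Finset V)
    (p q B : ℕ) (δ ε : ℝ), Amb H X p q B δ → 0 ≤ ε → 100 * ((p + q + 2 : ℕ) : ℝ) * ε ≤ δ →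
    δ ≤ 1 / 40 → D H X ∅ (p + 1) (q + 1) ≤ ε →
    ∃ X' : Finset V, (((X \ X') ∪ (X' \ X)).card : ℝ) ≤ δ * (Fintype.card V : ℝ) ∧
      NF H X' p q ∧ Amb H X' p q B (4 * δ) ∧ D H X' ∅ (p + 1) (q + 1) ≤ ε + δ

/-- **G13** Constants.
PROOF. As E23 with `G x = min (ε x/(8k4^k(B+1)·32)) (ε ((x h/(16k))^3)^(2^k)/(32k))`,
`δ₀ = ε η 0 h/(100 k 4^k (B+1))`. -/
def StmtG13 : Prop :=
  ∀ (k B : ℕ) (ε : ℝ), 2 ≤ k → 0 < ε → ε ≤ 1 →
    ∃ (η θ : ℕ → ℝ) (h δ₀ : ℝ), 0 < δ₀ ∧ δ₀ ≤ 1 / 10 ∧
      ∀ δ, 0 < δ → δ ≤ δ₀ → CstG k B η θ h δ ε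

/-- Complement and reversal of the gadget existence, for the case `M ⊆ Xᶜ`:
**G14** CROSSING with a mixed `M ⊆ Xᶜ`.
PROOF. G09 for `(Xᶜ, q, p)` (E07); complement of letters (`Fit Xᶜ (inr !b) w ↔ Fit X (inr b) w`, so
`BadC H Xᶜ (s with complemented letters) = BadC H X s`) and reversal (`BadC` of the reversed window =
reversed lists): left free letters: reversed complement of `(Y^(μ+1) X^p Y^q).take (k-1)` in the
`Xᶜ`-letters .., i.e. `((X^p.. )` as displayed; right free letters: complement of `low q p` reversed,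
which is `high p q`. -/
def StmtG14 : Prop :=
  ∀ (V : Type) [Fintype V] [DecidableEq V] (H : Finset (Finset V)) (X M Z : Finset V)
    (p q B : ℕ) (δ h ε : ℝ) (η θ : ℕ → ℝ), Amb H X p q B δ →
    CstG (p + q + 2) B η θ h δ ε → Mst H X p q η M → Z.card ≤ B → Disjoint M Z →
    M.Nonempty → M ⊆ Xᶜ → M.card ≤ q + 1 → θ M.card < Mix H X M p (q + 1 - M.card) →
    ∃ l : List V, l.Nodup ∧ (∀ v ∈ l, v ∉ Z) ∧
      l.map (fun v => decide (v ∈ X)) =
        List.replicate (q + 1 - M.card) false ++ List.replicate p true ++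
          List.replicate (q + 2) false ++ List.replicate (p + 1) true ∧
      OKl H X (p + q + 2) ε (fw ((List.replicate (M.card + 1) false ++ List.replicate p true ++
          List.replicate q false).take (p + q + 1)).reverse ++ vx l ++ fw (high p q))

/-- **G15** KINDS.  From the second alternative of E15 (with few connectors) to the kinds of gadgets.
PROOF. `B = (p+q+5)(K+1)`; classes of good sets `M`: (a) bi-coloured with two
elements, (b) `2 ≤ |M \ X|` and bi-coloured, (c) `2 ≤ |M ∩ X|` and bi-coloured, (d_μ) mixed, `M ⊆ X`,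
`|M| = μ`, `2 ≤ μ ≤ p+1`, (e_μ) mixed, `M ⊆ Xᶜ`, `|M| = μ`, `2 ≤ μ ≤ q+1`, (f) `|M| = 1`: then `M ⊆ C`, excluded if `F ⊇ C`.
PIGEONHOLE: if each of the `3+p+q` classes had a set of at most `K` vertices which
meets all its members, the union of these sets and `C` would meet all
good sets.  So one class has members outside every set of `K` vertices.  (a): G07 gives `KindP`.
(b): `KindR`: `RMoves` at level `p+2` by G05(R) (`j + 2 ≤ k`, i.e. `1 ≤ q`, because
`2 ≤ |M \ X| ≤ q+1`), crossing by G06 (`low p q = per (blk k p) a (k-1)` with `a = p+2`: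
letters at the classes `p+2, .., k-1` (Y^q), `0, .., p-1` (X^p), `p` (Y); `wt (high p q) = p+1 = j`).
(c): `KindL`: G05(L) (`2 ≤ j` because `2 ≤ |M ∩ X| ≤ p+1`), crossing by G06
(`high p q = per (blk k (p+2)) (p+1) (k-1)`, `wt (low p q) = p`, `p + 1 = j`).
(d_μ): `KindL`: G05(L) (all of `M` in `X`), crossing by G09 (right letters
`X^(μ+1) Y^q X^p` cut `= per (blk k (p+2)) (p+1-μ) (k-1)`).  (e_μ): `KindR`: G05(R), crossing by G14
(left letters: the reverse of `(Y^(μ+1) X^p Y^q).take (k-1)` is a piece of the periodic word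
`blk k p` by the symmetry of contiguous words; right letters `high p q`).  Lengths of `c`: at most
`2 k`. -/
def StmtG15 : Prop :=
  ∀ (V : Type) [Fintype V] [DecidableEq V] (H : Finset (Finset V)) (X C : Finset V)
    (p q K : ℕ) (δ h ε : ℝ) (η θ : ℕ → ℝ), 1 ≤ p + q →
    Amb H X p q ((p + q + 5) * (K + 1)) δ →
    CstG (p + q + 2) ((p + q + 5) * (K + 1)) η θ h δ ε → ¬ Non H X p q η ∅ →
    (∀ v, v ∈ C ↔ Non H X p q η {v}) → C.card ≤ p + q + 2 →
    (∀ F : Finset V, F.card ≤ (p + q + 5) * (K + 1) →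
        ∃ M, GoodM H X p q η θ M ∧ Disjoint M F) →
    KindP V H X (p + q + 2) ε K (p + 1) ∨ KindR V H X (p + q + 2) ε K (p + 1) ∨
      KindL V H X (p + q + 2) ε K (p + 1)

/-- **G17** CHANGE OF THE PARTITION outside a small set `C`.
PROOF. `OKs H X ε s → OKs H X' (2 ε) s`: `BadC H X' s ⊆ BadC H X s ∪ {e | some free entry in C}`; the
second set has at most `k |C| n^(fr s - 1) ≤ ε n^(fr s)` elements (equality of the two sets if
`fr s = 0`).  For `Sup` and `Two` apply the supply to `Z ∪ C`: the letters of the fixed vertices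
(except `z`) agree for `X` and `X'`. -/
def StmtG17 : Prop :=
  ∀ (V : Type) [Fintype V] [DecidableEq V] (H : Finset (Finset V)) (X X' C : Finset V)
    (k : ℕ) (ε : ℝ), (∀ v, v ∉ C → (v ∈ X ↔ v ∈ X')) → 0 < ε →
    (k : ℝ) * (C.card : ℝ) ≤ ε * (Fintype.card V : ℝ) →
    (∀ (K K₀ : ℕ) (uL c uR : List Bool), C.card ≤ K₀ → Sup H X k ε (K + K₀) uL c uR →
      Sup H X' k (2 * ε) K uL c uR) ∧
    (∀ (κ κ' : ℝ) (z : V) (m m' uL uR : List Bool), κ' + (C.card : ℝ) ≤ κ →
      Two H X k ε κ z m m' uL uR →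
      SupT H X' k (2 * ε) κ' z uL (m ++ decide (z ∈ X') :: m') uR)

/-- **G16** GAP THEOREM = `GadStmt` of VDefs (output of block G).
PROOF. `j = p + 1`, `k = p + q + 2`.  `ε₁ = min ε 1 / 4`; constants from G13 with
`B = (p+q+5)(K+k+1)`, `ε₁`; `κ = (θ 1)^(2^k)/(200 k)` (`θ 1 ≤ η 1 ≤ 1/4`).  Given `ρ`:
`δ ≤ δ₀/8` with `4 δ` also below `ρ η 1/8`, `ε₁ η 1/(8 k)`, `κ η 1/8`; `γ` small (`γ 3^k ≤ δ/(200k)`,
`γ ≤ δ/4`), `n₀` from `Amb.big`.  `D H X₀ ∅ (p+1) (q+1) ≤ 3^k γ` (as in E_CRS).  G12 gives `X₁` (NF,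
`Amb` with `4δ`, `∅` normal because `D ≤ 3^k γ + δ ≤ η 0`).  G11: `C`,
`|C| ≤ ((3^k γ + δ)/η 1) n`, so `k |C| ≤ ε₁ n` and `|C| ≤ κ n`, `|C| ≤ ρ n/2`.  `X = X₁ \ C`;
`|X Δ X₀| ≤ ρ n`.
PASS at level `j - 1 = p ≥ 1`: `v ∈ X`: `v ∈ X₁` is normal, letter `true`, `m` has `p-1` letters X and
`q+2` letters Y: `D({v}; p-1, q+2) ≥ 1/2` (E17(2)); `v ∉ X`: letter `false`, `m` has `p` letters X and
`q+1` letters Y: `D({v}; p, q+1) ≥ 1/4` if `v ∉ X₁` (NF), `> η 1` if `v ∈ X₁ ∩ C` (`Non`).  In all
cases G10 with `τ = η 1` (`θ 1 ≤ η 1`, `thetaG 1`, `delG`), then G17.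
E15 for `X₁`: first alternative: `GoodM {z}` is mixed: `θ 1 < Mix H X₁ {z} p q` (both colours,
`p+1-1 = p`, `q+1-1 = q`): G08 and G17 give `Tok H X k (2 ε₁) K j z` for large `n`.  Second
alternative: if `|C| ≥ k` then again (as in the proof of E15 every `{v}`, `v ∈ C`, is good: E10, NF):
`Tok`; otherwise G15 with `K + k` in place of `K`, and G17 for `Sup` (`K₀ = k`).  Everything is
monotone in `ε` and `K`. -/
def StmtG16 : Prop :=
  StmtE01 → StmtE02 → StmtE03 → StmtE07 → StmtE10 → StmtE15 → StmtE17 → StmtG08 → StmtG10 →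
    StmtG11 → StmtG12 → StmtG13 → StmtG15 → StmtG17 → Pool.Agent.KK.GadStmt

end Pool.Agent.KK.E
end
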