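import Pool.Agent.KKM.Base

/-! # MP_747bc0_co, merged modules -/

/-! ### Helper91_KK.BEH -/
section
/-!
# BEH: the theorem for `NearPar` (squad KK, block BETA part 2)
-/

set_option autoImplicit false

namespace Pool.Agent.KK.H91

section mono
variable {V : Type} [Fintype V] [DecidableEq V]

theorem okl_mono {H : Finset (Finset V)} {X : Finset V} {k : ℕ} {ε ε' : ℝ}
    {L : List (Slot V)} (h : ε ≤ ε') (hL : OKl H X k ε L) : OKl H X k ε' L := by
  intro s hs hk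
  have h1 := hL s hs hk
  unfold OKs at h1 ⊢
  exact h1.trans (mul_le_mul_of_nonneg_right h (by positivity))

theorem supT_mono {H : Finset (Finset V)} {X : Finset V} {k : ℕ} {ε ε' K K' : ℝ} {z : V}
    {uL c uR : List Bool} (h : ε ≤ ε') (hK : K' ≤ K) (hS : SupT H X k ε K z uL c uR) :
    SupT H X k ε' K' z uL c uR := by
  intro Z hZ hz
  obtain ⟨l, h1, h2, h3, h4, h5⟩ := hS Z (hZ.trans hK) hz
  exact ⟨l, h1, h2, h3, h4, okl_mono h h5⟩

theorem pas_mono {H : Finset (Finset V)} {X : Finset V} {k : ℕ} {ε ε' K K' : ℝ} {t : ℕ} {v : V}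
    (h : ε ≤ ε') (hK : K' ≤ K) (hS : Pas H X k ε K t v) : Pas H X k ε' K' t v := by
  intro m hm hw
  exact supT_mono h hK (hS m hm hw)

theorem mainL_mono (hCmo : CmoStmt) {H : Finset (Finset V)} {X D : Finset V}
    {k p : ℕ} {ε ε' K K' : ℝ} {q q' K₀ K₀' j r : ℕ} {w : List Bool}
    (h : MainL H X k p ε K D q K₀ j w r) (hε : ε ≤ ε') (hK : K' ≤ K) (hq : q ≤ q')
    (h0 : K₀ ≤ K₀') : MainL H X k p ε' K' D q' K₀' j w r := by
  intro N a hN h1 h2
  exact hCmo.2.2 V H X D k p ε ε' K K' q q' _ _ N a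
    (h N a hN (le_trans (Nat.add_le_add_left h0 _) h1) (le_trans (Nat.add_le_add_left h0 _) h2))
    hε hK hq

theorem exd_mono (hCmo : CmoStmt) {H : Finset (Finset V)} {X D : Finset V}
    {k p : ℕ} {ε ε' K K' : ℝ} {q q' R₀ R₀' j : ℕ} {w : List Bool}
    (h : Exd H X k p ε K D q R₀ j w) (hε : ε ≤ ε') (hK : K' ≤ K) (hq : q ≤ q')
    (h0 : R₀ ≤ R₀') : Exd H X k p ε' K' D q' R₀' j w := by
  intro M
  obtain ⟨N, a, h1, h2, h3, h4⟩ := h M
  refine ⟨N, a, h1, h2.trans (Nat.add_le_add_left h0 _), h3.trans (by exact_mod_cast h0), ?_⟩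
  exact hCmo.2.2 V H X D k p ε ε' K K' q q' _ _ N a h4 hε hK hq

end mono

/-- MTO, EXT, MKI with one constant. -/
theorem common (hCmo : CmoStmt) (hMto : MtoStmt) (hExt : ExtStmt) (hMki : MkiStmt) (k : ℕ)
    (hk : 3 ≤ k) : ∃ K₀ : ℕ,
    (∀ (V : Type) [Fintype V] [DecidableEq V] (H : Finset (Finset V))
      (X : Finset V) (p j r : ℕ) (ε K K' : ℝ) (z₁ z₂ : V), 1 ≤ j → j + 1 ≤ k → (j + 1) % 2 = p →
      r < k → z₁ ≠ z₂ → FW H X k p ε → Tok H X k ε K j z₁ → Tok H X k ε K j z₂ → 0 ≤ K' →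
      K' + K₀ ≤ K → ∃ w : List Bool, w.length = k ∧ wt w = j - 1 ∧
      MainL H X k p ε K' {z₁, z₂} K₀ K₀ j w r) ∧
    (∀ (V : Type) [Fintype V] [DecidableEq V] (H : Finset (Finset V))
      (X : Finset V) (p j : ℕ) (ε K K' : ℝ) (z₁ z₂ : V) (w : List Bool), 1 ≤ j → j + 1 ≤ k →
      (j + 1) % 2 = p → z₁ ≠ z₂ → FW H X k p ε → Tok H X k ε K j z₁ → Tok H X k ε K j z₂ →
      0 ≤ K' → K' + K₀ ≤ K → w.length = k → wt w = j + 1 →
      Exd H X k p ε K' {z₁, z₂} K₀ K₀ j w) ∧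
    (∀ (V : Type) [Fintype V] [DecidableEq V] (H : Finset (Finset V))
      (X : Finset V) (p j : ℕ) (ε : ℝ) (K : ℕ) (K' : ℝ), 1 ≤ j → j + 1 ≤ k → p < 2 →
      (j + 1) % 2 = p → FW H X k p ε →
      (KindP V H X k ε K j ∨ KindR V H X k ε K j ∨ KindL V H X k ε K j) → 0 ≤ K' → K' + K₀ ≤ K →
      (∀ r, MainL H X k p ε K' ∅ K₀ K₀ j (blk k (j - 1)) r) ∧
      Exd H X k p ε K' ∅ K₀ K₀ j (blk k (j + 1))) := by
  obtain ⟨K1, h1⟩ := hMto k hk
  obtain ⟨K2, h2⟩ := hExt k hk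
  obtain ⟨K3, h3⟩ := hMki k hk
  have e1 : K1 ≤ K1 + K2 + K3 := by omega
  have e2 : K2 ≤ K1 + K2 + K3 := by omega
  have e3 : K3 ≤ K1 + K2 + K3 := by omega
  have f1 : (K1 : ℝ) ≤ ((K1 + K2 + K3 : ℕ) : ℝ) := by exact_mod_cast e1
  have f2 : (K2 : ℝ) ≤ ((K1 + K2 + K3 : ℕ) : ℝ) := by exact_mod_cast e2
  have f3 : (K3 : ℝ) ≤ ((K1 + K2 + K3 : ℕ) : ℝ) := by exact_mod_cast e3
  refine ⟨K1 + K2 + K3, ?_, ?_, ?_⟩
  · intro V _ _ H X p j r ε K K' z₁ z₂ a1 a2 a3 a4 a5 a6 a7 a8 a9 a10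
    obtain ⟨w, hw1, hw2, hw3⟩ := h1 V H X p j r ε K K' z₁ z₂ a1 a2 a3 a4 a5 a6 a7 a8 a9
      (by linarith)
    exact ⟨w, hw1, hw2, mainL_mono hCmo hw3 le_rfl le_rfl e1 e1⟩
  · intro V _ _ H X p j ε K K' z₁ z₂ w a1 a2 a3 a4 a5 a6 a7 a8 a9 a10 a11
    exact exd_mono hCmo (h2 V H X p j ε K K' z₁ z₂ w a1 a2 a3 a4 a5 a6 a7 a8 (by linarith) a10 a11)
      le_rfl le_rfl e2 e2
  · intro V _ _ H X p j ε K K' a1 a2 a3 a4 a5 a6 a7 a8
    obtain ⟨b1, b2⟩ := h3 V H X p j ε K K' a1 a2 a3 a4 a5 a6 a7 (by linarith)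
    exact ⟨fun r => mainL_mono hCmo (b1 r) le_rfl le_rfl e3 e3,
      exd_mono hCmo b2 le_rfl le_rfl e3 e3⟩

section sd
variable {V : Type} [Fintype V] [DecidableEq V]

theorem card_le_sd (X A : Finset V) : X.card ≤ A.card + (symmDiff X A).card := by
  have h : X ⊆ A ∪ symmDiff X A := by
    intro x hx
    by_cases hA : x ∈ A
    · exact Finset.mem_union_left _ hA
    · exact Finset.mem_union_right _ (Finset.mem_symmDiff.2 (Or.inl ⟨hx, hA⟩))
  exact (Finset.card_le_card h).trans (Finset.card_union_le _ _)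

theorem sd_tri (X Y A : Finset V) :
    (symmDiff X Y).card ≤ (symmDiff X A).card + (symmDiff Y A).card := by
  have h : symmDiff X Y ⊆ symmDiff X A ∪ symmDiff Y A := by
    intro x hx
    rw [Finset.mem_union, Finset.mem_symmDiff, Finset.mem_symmDiff]
    rw [Finset.mem_symmDiff] at hx
    tauto
  exact (Finset.card_le_card h).trans (Finset.card_union_le _ _)

theorem sd_compl (X A : Finset V) : symmDiff Xᶜ A = symmDiff X Aᶜ := by
  ext x
  rw [Finset.mem_symmDiff, Finset.mem_symmDiff, Finset.mem_compl, Finset.mem_compl]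
  tauto

theorem two_of_card {C : Finset V} {m : ℕ} (hC : m + 2 ≤ C.card) {B : Finset V}
    (hB : B.card ≤ m) : ∃ x ∈ C, ∃ y ∈ C, x ≠ y ∧ x ∉ B ∧ y ∉ B := by
  have h1 : 1 < (C \ B).card := by
    have := Finset.le_card_sdiff B C
    omega
  obtain ⟨x, hx, y, hy, hxy⟩ := Finset.one_lt_card.1 h1
  rw [Finset.mem_sdiff] at hx hy
  exact ⟨x, hx.1, y, hy.1, hxy, hx.2, hy.2⟩

end sd

theorem beh (hGad : GadStmt) (hFin : FinStmt) (hNeo : NeoStmt) (hCmo : CmoStmt)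
    (hSrt : SrtStmt) (hLab : LabStmt) (hMto : MtoStmt) (hExt : ExtStmt) (hMki : MkiStmt)
    (hNpa : NpaStmt) (hNps : NpsStmt) (hNpo : NpoStmt) (hOne : OneStmt) (hTwo : TwoStmt)
    (hBlr : BlrStmt) : BehStmt := by
  intro k hk
  obtain ⟨ε, hε0, hε1, hfin⟩ := hFin k hk
  obtain ⟨K₀, hmto, hext, hmki⟩ := common hCmo hMto hExt hMki k hk
  obtain ⟨K, hK⟩ : ∃ K : ℕ, K = (2 * K₀ + 1) * (K₀ + 2) + K₀ := ⟨_, rfl⟩
  have hKR : (K : ℝ) = (2 * K₀ + 1) * (K₀ + 2) + K₀ := by rw [hK]; push_cast; ring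
  obtain ⟨κ, hκ, hgad⟩ := hGad k hk (ε / 4) K (by positivity)
  obtain ⟨ρ₁, hρ₁, hfin2⟩ := hfin κ hκ
  have hkR : (3 : ℝ) ≤ k := by exact_mod_cast hk
  have hk0 : (0 : ℝ) < k := by linarith
  obtain ⟨ρ, hρ, hρa, hρb, hρc⟩ : ∃ ρ : ℝ, 0 < ρ ∧ 2 * ρ ≤ ρ₁ ∧ k * ρ ≤ ε / 32 ∧
      2 * ρ ≤ 1 / (200 * k) := by
    refine ⟨min (ρ₁ / 2) (min (ε / (32 * k)) (1 / (400 * k))), by positivity, ?_, ?_, ?_⟩
    · have := min_le_left (ρ₁ / 2) (min (ε / (32 * k)) (1 / (400 * k)))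
      linarith
    · have h1 : min (ρ₁ / 2) (min (ε / (32 * k)) (1 / (400 * k))) ≤ ε / (32 * k) :=
        (min_le_right _ _).trans (min_le_left _ _)
      calc (k : ℝ) * min (ρ₁ / 2) (min (ε / (32 * k)) (1 / (400 * k)))
          ≤ k * (ε / (32 * k)) := mul_le_mul_of_nonneg_left h1 hk0.le
        _ = ε / 32 := by field_simp
    · have h1 : min (ρ₁ / 2) (min (ε / (32 * k)) (1 / (400 * k))) ≤ 1 / (400 * k) :=
        (min_le_right _ _).trans (min_le_right _ _)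
      calc 2 * min (ρ₁ / 2) (min (ε / (32 * k)) (1 / (400 * k)))
          ≤ 2 * (1 / (400 * k)) := by linarith
        _ = 1 / (200 * k) := by field_simp; norm_num
  obtain ⟨γ, hγ, n₁, hgad2⟩ := hgad ρ hρ
  obtain ⟨n₂, hfin3⟩ := hfin2 (2 * K₀)
  obtain ⟨n₃, hone⟩ := hOne k K₀ hk
  obtain ⟨n₄, htwo⟩ : ∃ n₄ : ℕ, ∀ T : ℕ, k = 2 * T → ∀ (n x D : ℕ), n₄ ≤ n →
      |(x : ℝ) - (n : ℝ) / 2| ≤ 1 / (100 * k) * (n : ℝ) → (D : ℝ) ≤ 1 / (100 * k) * (n : ℝ) →
      ∃ M : ℕ, ∀ N' a' : ℕ, N' ≤ k * M + (K₀ + k * K₀) →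
      |(k : ℤ) * a' - T * N' + 2 * k * M| ≤ (K₀ + k * K₀ : ℕ) →
      ∃ N a : ℕ, N + N' + 4 * k * D = n ∧ a + a' + 4 * T * D = x ∧ T * N + K₀ ≤ k * a ∧
        k * a + K₀ ≤ (T + 2) * N := by
    by_cases hT : k = 2 * (k / 2)
    · obtain ⟨n₄, h₄⟩ := hTwo k (k / 2) K₀ (K₀ + k * K₀) hk hT
      refine ⟨n₄, fun T hT' => ?_⟩
      have : T = k / 2 := by omega
      subst this
      exact h₄
    · exact ⟨0, fun T hT' => absurd (by omega) hT⟩
  obtain ⟨n₅, hnps⟩ := hNps k hk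
  obtain ⟨η, hη, hηa, hηb, hηc, hηd⟩ : ∃ η : ℝ, 0 < η ∧ 20 ^ k * η ≤ γ ∧ 20 ^ k * η ≤ ρ ∧
      k * η / (ε / 16) ≤ ρ ∧ η ≤ γ := by
    have h20 : (0 : ℝ) < 20 ^ k := by positivity
    have h20' : (1 : ℝ) ≤ 20 ^ k := one_le_pow₀ (by norm_num)
    refine ⟨min (γ / 20 ^ k) (min (ρ / 20 ^ k) (ρ * ε / (16 * k))), by positivity, ?_, ?_, ?_, ?_⟩
    · have h1 := min_le_left (γ / 20 ^ k) (min (ρ / 20 ^ k) (ρ * ε / (16 * k)))
      calc (20 : ℝ) ^ k * min (γ / 20 ^ k) (min (ρ / 20 ^ k) (ρ * ε / (16 * k)))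
          ≤ 20 ^ k * (γ / 20 ^ k) := mul_le_mul_of_nonneg_left h1 h20.le
        _ = γ := by field_simp
    · have h1 : min (γ / 20 ^ k) (min (ρ / 20 ^ k) (ρ * ε / (16 * k))) ≤ ρ / 20 ^ k :=
        (min_le_right _ _).trans (min_le_left _ _)
      calc (20 : ℝ) ^ k * min (γ / 20 ^ k) (min (ρ / 20 ^ k) (ρ * ε / (16 * k)))
          ≤ 20 ^ k * (ρ / 20 ^ k) := mul_le_mul_of_nonneg_left h1 h20.le
        _ = ρ := by field_simp
    · have h1 : min (γ / 20 ^ k) (min (ρ / 20 ^ k) (ρ * ε / (16 * k))) ≤ ρ * ε / (16 * k) :=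
        (min_le_right _ _).trans (min_le_right _ _)
      rw [div_le_iff₀ (by positivity)]
      calc (k : ℝ) * min (γ / 20 ^ k) (min (ρ / 20 ^ k) (ρ * ε / (16 * k)))
          ≤ k * (ρ * ε / (16 * k)) := mul_le_mul_of_nonneg_left h1 hk0.le
        _ = ρ * (ε / 16) := by field_simp
    · have h1 := min_le_left (γ / 20 ^ k) (min (ρ / 20 ^ k) (ρ * ε / (16 * k)))
      exact h1.trans (div_le_self hγ.le h20')
  have hρk : ρ ≤ ε / 32 := by nlinarith
  have h100 : 2 * ρ ≤ 1 / (100 * (k : ℝ)) := by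
    refine hρc.trans ?_
    rw [div_le_div_iff₀ (by positivity) (by positivity)]
    nlinarith
  have h600 : 2 * ρ ≤ 1 / 600 := by
    refine hρc.trans ?_
    rw [div_le_div_iff₀ (by positivity) (by positivity)]
    nlinarith
  -- data of a partition close to A
  have hdat : ∀ (V : Type) [Fintype V] [DecidableEq V] (H : Finset (Finset V)) (A X : Finset V)
      (p : ℕ), p < 2 → n₅ ≤ Fintype.card V → Uni H k → Dirac H k → NearPar H k A p η →
      ((symmDiff X A).card : ℝ) ≤ ρ * (Fintype.card V : ℝ) →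
      (∃ D : Finset V, (D.card : ℝ) ≤ 2 * ρ * (Fintype.card V : ℝ) ∧ NearO H X k p (ε / 8) D) ∧
      FW H X k p (ε / 4) ∧
      |(X.card : ℝ) - (Fintype.card V : ℝ) / 2| ≤ 2 * ρ * (Fintype.card V : ℝ) := by
    intro V _ _ H A X p hp hn hU hDi hNP hX
    have hn0 : (0 : ℝ) ≤ (Fintype.card V : ℝ) := by positivity
    obtain ⟨D, hD1, hD2⟩ := hNpo V H A X k p η (ε / 16) ρ (by omega) hp hη.le (by positivity)
      hρ.le hNP hX
    have hD3 : (D.card : ℝ) ≤ 2 * ρ * (Fintype.card V : ℝ) :=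
      hD1.trans (mul_le_mul_of_nonneg_right (by linarith) hn0)
    have hD4 : NearO H X k p (ε / 8) D := by
      intro v hv u₁ u₂ hu hw
      refine (hD2 v hv u₁ u₂ hu hw).trans ?_
      exact mul_le_mul_of_nonneg_right (by linarith) (by positivity)
    refine ⟨⟨D, hD3, hD4⟩, ?_, ?_⟩
    · exact hNeo V H X D k p (ε / 8) (2 * ρ) (ε / 4) (by omega) (by positivity) hD4 hD3
        (by linarith)
    · have hA := hnps V H A p η hn hU hDi hNP
      have hA' : |(A.card : ℝ) - (Fintype.card V : ℝ) / 2| ≤ ρ * (Fintype.card V : ℝ) :=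
        hA.trans (mul_le_mul_of_nonneg_right hηb hn0)
      have h1 : (X.card : ℝ) ≤ A.card + (symmDiff X A).card := by
        exact_mod_cast card_le_sd X A
      have h2 : (A.card : ℝ) ≤ X.card + (symmDiff X A).card := by
        have := card_le_sd A X
        rw [symmDiff_comm] at this
        exact_mod_cast this
      rw [abs_le] at hA' ⊢
      constructor <;> linarith [hA'.1, hA'.2]
  -- GAD for a partition A
  have hG : ∀ (V : Type) [Fintype V] [DecidableEq V] (H : Finset (Finset V)) (A : Finset V)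
      (p j : ℕ), n₁ ≤ Fintype.card V → n₅ ≤ Fintype.card V → Uni H k → Dirac H k →
      NearPar H k A p η → 1 ≤ j → j + 1 ≤ k → j % 2 ≠ p % 2 →
      ∃ X : Finset V, ((symmDiff X A).card : ℝ) ≤ ρ * (Fintype.card V : ℝ) ∧
        (2 ≤ j → ∀ v : V, Pas H X k ε (κ * (Fintype.card V : ℝ)) (j - 1) v) ∧
        ((∃ C : Finset V, k ≤ C.card ∧ ∀ z ∈ C, Tok H X k (ε / 4) K j z) ∨
          (KindP V H X k (ε / 4) K j ∨ KindR V H X k (ε / 4) K j ∨
            KindL V H X k (ε / 4) K j)) := by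
    intro V _ _ H A p j hn1 hn5 hU hDi hNP hj1 hj2 hjp
    have hn0 : (0 : ℝ) ≤ (Fintype.card V : ℝ) := by positivity
    have hA := hnps V H A p η hn5 hU hDi hNP
    have hA' : |(A.card : ℝ) - (Fintype.card V : ℝ) / 2| ≤ γ * (Fintype.card V : ℝ) :=
      hA.trans (mul_le_mul_of_nonneg_right hηa hn0)
    have hc := (hNpa V H A k p η hU hNP).2.2 j hjp
    have hc' := hc.trans (mul_le_mul_of_nonneg_right hηd (by positivity))
    obtain ⟨X, hX1, hX2, hX3⟩ := hgad2 V H A j hn1 hU hDi hj1 hj2 hA' hc'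
    exact ⟨X, hX1, fun h v => pas_mono (by linarith) le_rfl (hX2 h v), hX3⟩
  -- CASE 1
  have hcase1 : ∀ (V : Type) [Fintype V] [DecidableEq V] (H : Finset (Finset V)) (A : Finset V)
      (p j : ℕ), p < 2 → n₁ ≤ Fintype.card V → n₂ ≤ Fintype.card V → n₃ ≤ Fintype.card V →
      n₅ ≤ Fintype.card V → Uni H k → Dirac H k → NearPar H k A p η →
      2 ≤ j → j + 1 ≤ k → (j + 1) % 2 = p → 2 * (j - 1) < k → k < 2 * (j + 1) → Ham H k := by
    intro V _ _ H A p j hp hn1 hn2 hn3 hn5 hU hDi hNP hj1 hj2 hjp hj3 hj4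
    have hn0 : (0 : ℝ) ≤ (Fintype.card V : ℝ) := by positivity
    have g1 : 1 ≤ j - 1 := by omega
    have g2 : j - 1 + 1 ≤ k := by omega
    have g3 : (j - 1) % 2 = p := by omega
    obtain ⟨X, hX1, hX2, hX3⟩ := hG V H A p j hn1 hn5 hU hDi hNP (by omega) hj2 (by omega)
    obtain ⟨⟨D, hD1, hD2⟩, hFW, hXc⟩ := hdat V H A X p hp hn5 hU hDi hNP hX1
    have hXc' : |(X.card : ℝ) - (Fintype.card V : ℝ) / 2| ≤ 1 / (100 * k) * (Fintype.card V : ℝ) :=
      hXc.trans (mul_le_mul_of_nonneg_right h100 hn0)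
    have hDc' : (D.card : ℝ) ≤ 1 / (100 * k) * (Fintype.card V : ℝ) :=
      hD1.trans (mul_le_mul_of_nonneg_right h100 hn0)
    obtain ⟨N, a, hN, ha, hc1, hc2⟩ := hone (Fintype.card V) X.card D.card j hn3 (by omega) hj2
      hj3 hj4 hXc' hDc'
    have hKK : (0 : ℝ) + (K₀ : ℝ) ≤ (K : ℝ) := by
      rw [hKR]; nlinarith [(Nat.cast_nonneg K₀ : (0 : ℝ) ≤ K₀)]
    obtain ⟨D₁, w, hw1, hw2, hw3⟩ : ∃ (D₁ : Finset V) (w : List Bool), w.length = k ∧
        wt w = j - 1 ∧ MainL H X k p (ε / 4) 0 D₁ K₀ K₀ j w (N % k) := by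
      rcases hX3 with ⟨C, hC1, hC2⟩ | hX3
      · obtain ⟨z₁, hz1, z₂, hz2, hz, -, -⟩ := two_of_card (m := 0) (B := ∅)
          (show 0 + 2 ≤ C.card by omega) (by simp)
        obtain ⟨w, hw1, hw2, hw3⟩ := hmto V H X p j (N % k) (ε / 4) K 0 z₁ z₂ (by omega) hj2 hjp
          (Nat.mod_lt _ (by omega)) hz hFW (hC2 z₁ hz1) (hC2 z₂ hz2) le_rfl hKK
        exact ⟨_, w, hw1, hw2, hw3⟩
      · have h := (hmki V H X p j (ε / 4) K 0 (by omega) hj2 hp hjp hFW hX3 le_rfl hKK).1 (N % k)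
        have hb := hBlr k (j - 1) (by omega) (by omega)
        exact ⟨_, _, hb.2.2.1, hb.2.2.2, h⟩
    have hRea := hw3 N a rfl hc1 hc2
    have hRea' := hCmo.2.2 V H X D₁ k p (ε / 4) ε 0 0 K₀ (2 * K₀) _ _ N a hRea (by linarith)
      le_rfl (by omega)
    have hD2' : NearO H X k p (ε / 2) D := by
      intro v hv u₁ u₂ hu hw
      refine (hD2 v hv u₁ u₂ hu hw).trans ?_
      exact mul_le_mul_of_nonneg_right (by linarith) (by positivity)
    have hDρ : (D.card : ℝ) ≤ ρ₁ * (Fintype.card V : ℝ) :=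
      hD1.trans (mul_le_mul_of_nonneg_right hρa hn0)
    rw [abs_le] at hXc
    have hXlo : Fintype.card V ≤ 4 * X.card := by
      have h1 : 2 * ρ * (Fintype.card V : ℝ) ≤ 1 / 600 * (Fintype.card V : ℝ) :=
        mul_le_mul_of_nonneg_right h600 hn0
      have h2 : (Fintype.card V : ℝ) ≤ 4 * (X.card : ℝ) := by linarith [hXc.1]
      exact_mod_cast h2
    have hXhi : 4 * X.card ≤ 3 * Fintype.card V := by
      have h1 : 2 * ρ * (Fintype.card V : ℝ) ≤ 1 / 600 * (Fintype.card V : ℝ) :=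
        mul_le_mul_of_nonneg_right h600 hn0
      have h2 : 4 * (X.card : ℝ) ≤ 3 * (Fintype.card V : ℝ) := by linarith [hXc.2]
      exact_mod_cast h2
    exact hfin3 V H X D D₁ p (j - 1) (2 * K₀) N a w hn2 hD2' hDρ hXlo hXhi hw1 hw2 g1
      g2 g3 (hX2 hj1) le_rfl hRea' hN ha
  -- CASE 2, the common end
  have hcase2 : ∀ (V : Type) [Fintype V] [DecidableEq V] (H : Finset (Finset V)) (A X Xs D₁ D₂ : Finset V)
      (p T : ℕ) (w : List Bool), p < 2 → k = 2 * T → T % 2 = p → n₂ ≤ Fintype.card V → n₄ ≤ Fintype.card V →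
      n₅ ≤ Fintype.card V → Uni H k → Dirac H k → NearPar H k A p η →
      ((symmDiff X A).card : ℝ) ≤ ρ * (Fintype.card V : ℝ) →
      ((symmDiff Xs A).card : ℝ) ≤ ρ * (Fintype.card V : ℝ) →
      (∀ v : V, Pas H X k ε (κ * (Fintype.card V : ℝ)) T v) → w.length = k → wt w = T →
      Disjoint D₁ D₂ → D₂.card ≤ 2 →
      MainL H X k p (ε / 4) (K₀ + 2) D₁ K₀ K₀ (T + 1) w (Fintype.card V % k) →
      Exd H Xs k p (ε / 4) ((2 * K₀ + 1) * (K₀ + 2)) D₂ K₀ K₀ (T - 1) w → Ham H k := by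
    intro V _ _ H A X Xs D₁ D₂ p T w hp hkT hTp hn2 hn4 hn5 hU hDi hNP hX1 hXs1 hPas hw1 hw2 hdis
      hD2c hML hEx
    have hn0 : (0 : ℝ) ≤ (Fintype.card V : ℝ) := by positivity
    obtain ⟨⟨D, hD1, hD2⟩, -, hXc⟩ := hdat V H A X p hp hn5 hU hDi hNP hX1
    have hXc' : |(X.card : ℝ) - (Fintype.card V : ℝ) / 2| ≤ 1 / (100 * k) * (Fintype.card V : ℝ) :=
      hXc.trans (mul_le_mul_of_nonneg_right h100 hn0)
    have hDc' : (D.card : ℝ) ≤ 1 / (100 * k) * (Fintype.card V : ℝ) :=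
      hD1.trans (mul_le_mul_of_nonneg_right h100 hn0)
    obtain ⟨M, hM⟩ := htwo T hkT (Fintype.card V) X.card D.card hn4 hXc' hDc'
    obtain ⟨N', a₀, hN'k, hN'M, ha₀, hRea0⟩ := hEx M
    have hsd : ((symmDiff Xs X).card : ℝ) ≤ 2 * ρ * (Fintype.card V : ℝ) := by
      have h1 : ((symmDiff Xs X).card : ℝ) ≤ (symmDiff Xs A).card + (symmDiff X A).card := by
        exact_mod_cast sd_tri Xs X A
      linarith
    obtain ⟨a', ha1, ha2, hRea1⟩ := hLab.2.2 V H Xs X D₂ k p (ε / 4) (2 * ρ)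
      ((2 * K₀ + 1) * (K₀ + 2)) (K₀ + 2) K₀ _ _ N' a₀ (by positivity) (by positivity) hsd hRea0
      (by push_cast; linarith)
    have hT1 : 1 ≤ T := by omega
    have hcast : ((T - 1 : ℕ) : ℤ) + 1 = (T : ℤ) := by
      have : T - 1 + 1 = T := by omega
      exact_mod_cast this
    rw [hcast] at ha₀
    have habs : |(k : ℤ) * a' - T * N' + 2 * k * M| ≤ (K₀ + k * K₀ : ℕ) := by
      have hz1 : (a₀ : ℤ) ≤ a' + K₀ := by exact_mod_cast ha1
      have hz2 : (a' : ℤ) ≤ a₀ + K₀ := by exact_mod_cast ha2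
      have hk0' : (0 : ℤ) ≤ k := by positivity
      have hz3 : (k : ℤ) * a₀ ≤ k * (a' + K₀) := mul_le_mul_of_nonneg_left hz1 hk0'
      have hz4 : (k : ℤ) * a' ≤ k * (a₀ + K₀) := mul_le_mul_of_nonneg_left hz2 hk0'
      rw [abs_le] at ha₀ ⊢
      push_cast
      constructor <;> nlinarith [ha₀.1, ha₀.2]
    obtain ⟨N, a, hN, ha, hc1, hc2⟩ := hM N' a' (by nlinarith [Nat.zero_le (k * K₀)]) habs
    have hNmod : N % k = Fintype.card V % k := by
      have h1 : (k : ℕ) ∣ N' + 4 * k * D.card := by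
        refine Dvd.dvd.add (Nat.dvd_of_mod_eq_zero hN'k) ?_
        exact ⟨4 * D.card, by ring⟩
      obtain ⟨c, hc⟩ := h1
      have h2 : Fintype.card V = N + k * c := by omega
      rw [h2, Nat.add_mul_mod_self_left]
    have hReaM := hML N a hNmod (by simpa using hc1) (by simpa [add_assoc] using hc2)
    have hReaM' := hCmo.2.2 V H X D₁ k p (ε / 4) ε (K₀ + 2) (K₀ + 2) K₀ K₀ _ _ N a hReaM
      (by linarith) le_rfl le_rfl
    have hReaE' := hCmo.2.2 V H X D₂ k p (ε / 4 + k * (2 * ρ)) ε (K₀ + 2) (K₀ + 2) K₀ K₀ _ _ N' a'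
      hRea1 (by nlinarith) le_rfl le_rfl
    have hD2R : (D₂.card : ℝ) ≤ 2 := by exact_mod_cast hD2c
    have hRea := hCmo.2.1 V H X D₁ D₂ k p ε (K₀ + 2) 0 K₀ K₀ _ _ _ N N' a a' (by omega) hReaM'
      hReaE' hdis (by linarith)
    have hD2' : NearO H X k p (ε / 2) D := by
      intro v hv u₁ u₂ hu hw
      refine (hD2 v hv u₁ u₂ hu hw).trans ?_
      exact mul_le_mul_of_nonneg_right (by linarith) (by positivity)
    have hDρ : (D.card : ℝ) ≤ ρ₁ * (Fintype.card V : ℝ) :=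
      hD1.trans (mul_le_mul_of_nonneg_right hρa hn0)
    rw [abs_le] at hXc
    have hXlo : Fintype.card V ≤ 4 * X.card := by
      have h1 : 2 * ρ * (Fintype.card V : ℝ) ≤ 1 / 600 * (Fintype.card V : ℝ) :=
        mul_le_mul_of_nonneg_right h600 hn0
      have h2 : (Fintype.card V : ℝ) ≤ 4 * (X.card : ℝ) := by linarith [hXc.1]
      exact_mod_cast h2
    have hXhi : 4 * X.card ≤ 3 * Fintype.card V := by
      have h1 : 2 * ρ * (Fintype.card V : ℝ) ≤ 1 / 600 * (Fintype.card V : ℝ) :=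
        mul_le_mul_of_nonneg_right h600 hn0
      have h2 : 4 * (X.card : ℝ) ≤ 3 * (Fintype.card V : ℝ) := by linarith [hXc.2]
      exact_mod_cast h2
    exact hfin3 V H X D (D₁ ∪ D₂) p T (K₀ + K₀) (N + N') (a + a') w hn2 hD2' hDρ hXlo hXhi hw1 hw2
      (by omega) (by omega) hTp hPas (by omega) hRea (by omega) (by omega)
  -- CASE 2a
  have hcase2a : ∀ (V : Type) [Fintype V] [DecidableEq V] (H : Finset (Finset V)) (A X : Finset V)
      (p T : ℕ), p < 2 → k = 2 * T → T % 2 = p → n₁ ≤ Fintype.card V → n₂ ≤ Fintype.card V →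
      n₄ ≤ Fintype.card V → n₅ ≤ Fintype.card V → Uni H k → Dirac H k → NearPar H k A p η →
      ((symmDiff X A).card : ℝ) ≤ ρ * (Fintype.card V : ℝ) →
      (∀ v : V, Pas H X k ε (κ * (Fintype.card V : ℝ)) T v) →
      (KindP V H X k (ε / 4) K (T + 1) ∨ KindR V H X k (ε / 4) K (T + 1) ∨
            KindL V H X k (ε / 4) K (T + 1)) → Ham H k := by
    intro V _ _ H A X p T hp hkT hTp hn1 hn2 hn4 hn5 hU hDi hNP hX1 hPas hKd
    have hn0 : (0 : ℝ) ≤ (Fintype.card V : ℝ) := by positivity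
    have hK₀R : (0 : ℝ) ≤ (K₀ : ℝ) := by positivity
    obtain ⟨-, hFW, -⟩ := hdat V H A X p hp hn5 hU hDi hNP hX1
    obtain ⟨Xs, hXs1, -, hXs3⟩ := hG V H A p (T - 1) hn1 hn5 hU hDi hNP (by omega) (by omega)
      (by omega)
    obtain ⟨-, hFWs, -⟩ := hdat V H A Xs p hp hn5 hU hDi hNP hXs1
    have hML := (hmki V H X p (T + 1) (ε / 4) K (K₀ + 2) (by omega) (by omega) hp (by omega) hFW
      hKd (by positivity) (by rw [hKR]; nlinarith)).1 (Fintype.card V % k)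
    have hb := hBlr k T (by omega) (by omega)
    have e1 : T + 1 - 1 = T := by omega
    have e2 : T - 1 + 1 = T := by omega
    rw [e1] at hML
    rcases hXs3 with ⟨C, hC1, hC2⟩ | hXs3
    · obtain ⟨z₁, hz1, z₂, hz2, hz, -, -⟩ := two_of_card (m := 0) (B := ∅)
          (show 0 + 2 ≤ C.card by omega) (by simp)
      have hEx := hext V H Xs p (T - 1) (ε / 4) K ((2 * K₀ + 1) * (K₀ + 2)) z₁ z₂ (blk k T)
        (by omega) (by omega) (by omega) hz hFWs (hC2 z₁ hz1) (hC2 z₂ hz2) (by positivity)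
        (by rw [hKR]) hb.2.2.1 (by rw [e2]; exact hb.2.2.2)
      exact hcase2 V H A X Xs ∅ {z₁, z₂} p T (blk k T) hp hkT hTp hn2 hn4 hn5 hU hDi hNP hX1 hXs1
        hPas hb.2.2.1 hb.2.2.2 (Finset.disjoint_empty_left _) Finset.card_le_two hML hEx
    · have hEx := (hmki V H Xs p (T - 1) (ε / 4) K ((2 * K₀ + 1) * (K₀ + 2)) (by omega) (by omega)
        hp (by omega) hFWs hXs3 (by positivity) (by rw [hKR])).2
      rw [e2] at hEx
      exact hcase2 V H A X Xs ∅ ∅ p T (blk k T) hp hkT hTp hn2 hn4 hn5 hU hDi hNP hX1 hXs1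
        hPas hb.2.2.1 hb.2.2.2 (Finset.disjoint_empty_left _) (by simp) hML hEx
  refine ⟨η, max n₁ (max n₂ (max n₃ (max n₄ n₅))), hη, ?_⟩
  intro V _ _ H A p₀ hn hU hDi hNP₀
  have hn1 : n₁ ≤ Fintype.card V := le_trans (le_max_left _ _) hn
  have hn' := le_trans (le_max_right _ _) hn
  have hn2 : n₂ ≤ Fintype.card V := le_trans (le_max_left _ _) hn'
  have hn'' := le_trans (le_max_right _ _) hn'
  have hn3 : n₃ ≤ Fintype.card V := le_trans (le_max_left _ _) hn''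
  have hn''' := le_trans (le_max_right _ _) hn''
  have hn4 : n₄ ≤ Fintype.card V := le_trans (le_max_left _ _) hn'''
  have hn5 : n₅ ≤ Fintype.card V := le_trans (le_max_right _ _) hn'''
  have hNP : NearPar H k A (p₀ % 2) η := (hNpa V H A k p₀ η hU hNP₀).2.1
  obtain ⟨p, hp⟩ : ∃ p, p = p₀ % 2 := ⟨_, rfl⟩
  rw [← hp] at hNP
  have hp2 : p < 2 := by omega
  have hNPc : NearPar H k Aᶜ ((k + p) % 2) η := (hNpa V H A k p η hU hNP).1
  rcases Nat.even_or_odd' k with ⟨T, hT | hT⟩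
  · by_cases hTp : T % 2 = p
    · -- two gaps
      have hkp : (k + p) % 2 = p := by omega
      rw [hkp] at hNPc
      obtain ⟨X, hX1, hX2, hX3⟩ := hG V H A p (T + 1) hn1 hn5 hU hDi hNP (by omega) (by omega)
        (by omega)
      have e1 : T + 1 - 1 = T := by omega
      have hPas := hX2 (by omega)
      rw [e1] at hPas
      rcases hX3 with ⟨C, hC1, hC2⟩ | hX3
      swap
      · exact hcase2a V H A X p T hp2 hT hTp hn1 hn2 hn4 hn5 hU hDi hNP hX1 hPas hX3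
      obtain ⟨X', hX1', hX2', hX3'⟩ := hG V H Aᶜ p (T + 1) hn1 hn5 hU hDi hNPc (by omega)
        (by omega) (by omega)
      have hPas' := hX2' (by omega)
      rw [e1] at hPas'
      rcases hX3' with ⟨C', hC1', hC2'⟩ | hX3'
      swap
      · exact hcase2a V H Aᶜ X' p T hp2 hT hTp hn1 hn2 hn4 hn5 hU hDi hNPc hX1' hPas' hX3'
      have hXs1 : ((symmDiff X'ᶜ A).card : ℝ) ≤ ρ * (Fintype.card V : ℝ) := by
        rw [sd_compl]; exact hX1'
      obtain ⟨z₁, hz1, z₂, hz2, hz, -, -⟩ := two_of_card (m := 0) (B := ∅)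
          (show 0 + 2 ≤ C.card by omega) (by simp)
      obtain ⟨z₃, hz3, z₄, hz4, hz', hz3', hz4'⟩ := two_of_card (m := 2) (B := {z₁, z₂})
          (show 2 + 2 ≤ C'.card by omega) Finset.card_le_two
      obtain ⟨-, hFW, -⟩ := hdat V H A X p hp2 hn5 hU hDi hNP hX1
      obtain ⟨-, hFWs, -⟩ := hdat V H A X'ᶜ p hp2 hn5 hU hDi hNP hXs1
      have hK₀R : (0 : ℝ) ≤ (K₀ : ℝ) := by positivity
      obtain ⟨w, hw1, hw2, hML⟩ := hmto V H X p (T + 1) (Fintype.card V % k) (ε / 4) K (K₀ + 2)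
        z₁ z₂ (by omega) (by omega) (by omega) (Nat.mod_lt _ (by omega)) hz hFW (hC2 z₁ hz1)
        (hC2 z₂ hz2) (by positivity) (by rw [hKR]; nlinarith)
      rw [e1] at hw2
      have e3 : k - (T + 1) = T - 1 := by omega
      have e2 : T - 1 + 1 = T := by omega
      have ht3 := hSrt.2.2 V H X' k (T + 1) (ε / 4) K z₃ (by omega) (by omega) (hC2' z₃ hz3)
      have ht4 := hSrt.2.2 V H X' k (T + 1) (ε / 4) K z₄ (by omega) (by omega) (hC2' z₄ hz4)
      rw [e3] at ht3 ht4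
      have hEx := hext V H X'ᶜ p (T - 1) (ε / 4) K ((2 * K₀ + 1) * (K₀ + 2)) z₃ z₄ w
        (by omega) (by omega) (by omega) hz' hFWs ht3 ht4 (by positivity)
        (by rw [hKR]) hw1 (by rw [e2]; exact hw2)
      refine hcase2 V H A X X'ᶜ {z₁, z₂} {z₃, z₄} p T w hp2 hT hTp hn2 hn4 hn5 hU hDi hNP hX1
        hXs1 hPas hw1 hw2 ?_ Finset.card_le_two hML hEx
      rw [Finset.disjoint_right]
      intro x hx
      rw [Finset.mem_insert, Finset.mem_singleton] at hx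
      rcases hx with rfl | rfl
      · exact hz3'
      · exact hz4'
    · exact hcase1 V H A p T hp2 hn1 hn2 hn3 hn5 hU hDi hNP (by omega) (by omega) (by omega)
        (by omega) (by omega)
  · by_cases hTp : T % 2 = p
    · exact hcase1 V H A p (T + 1) hp2 hn1 hn2 hn3 hn5 hU hDi hNP (by omega) (by omega) (by omega)
        (by omega) (by omega)
    · exact hcase1 V H Aᶜ ((k + p) % 2) (T + 1) (by omega) hn1 hn2 hn3 hn5 hU hDi hNPc (by omega)
        (by omega) (by omega) (by omega) (by omega)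

end Pool.Agent.KK.H91
end
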