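import Pool.Agent.KKM.Base

/-! # MP_747bc0_co, merged modules -/

/-! ### Helper3_KK.PWT -/
section
/-! MP_747bc0_co, squad KK, block BETA, rows PWT BLR PER: periodic words. -/

set_option autoImplicit false

namespace Pool.Agent.KK.H3

theorem per_length (w : List Bool) (a m : ℕ) : (per w a m).length = m := by
  simp [per]

theorem per_getD (w : List Bool) (a m i : ℕ) (hi : i < m) (x : Bool) :
    (per w a m).getD i x = w.getD ((a + i) % w.length) false := by
  rw [List.getD_eq_getElem _ _ (by rw [per_length]; exact hi)]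
  simp [per]

theorem per_get (w : List Bool) (a m i : ℕ) (hi : i < (per w a m).length) :
    (per w a m)[i] = w.getD ((a + i) % w.length) false := by
  simp [per]

theorem per_rotate (w : List Bool) (a : ℕ) : per w a w.length = w.rotate a := by
  refine List.ext_getElem ?_ fun i h1 h2 => ?_
  · rw [per_length, List.length_rotate]
  · rw [per_get, List.getElem_rotate]
    rw [per_length] at h1
    have h3 : (a + i) % w.length < w.length := Nat.mod_lt _ (by omega)
    rw [List.getD_eq_getElem _ _ h3]
    congr 2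
    omega

theorem wt_perm {u v : List Bool} (h : u.Perm v) : wt u = wt v := h.count_eq true

theorem wt_per (w : List Bool) (a : ℕ) : wt (per w a w.length) = wt w := by
  rw [per_rotate]
  exact wt_perm (List.rotate_perm w a)

theorem per_period (w : List Bool) (a m : ℕ) : per w (a + w.length) m = per w a m := by
  unfold per
  refine List.map_congr_left fun i _ => ?_
  have : (a + w.length + i) % w.length = (a + i) % w.length := by
    rw [show a + w.length + i = a + i + w.length by omega, Nat.add_mod_right]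
  rw [this]

theorem per_add (w : List Bool) (a m m' : ℕ) :
    per w a (m + m') = per w a m ++ per w (a + m) m' := by
  unfold per
  rw [List.range_add, List.map_append, List.map_map]
  congr 1
  refine List.map_congr_left fun i _ => ?_
  simp [Nat.add_assoc]

theorem per_per (w : List Bool) (a b m : ℕ) (hw : 1 ≤ w.length) :
    per (per w a w.length) b m = per w (a + b) m := by
  refine List.ext_getElem ?_ fun i h1 h2 => ?_
  · rw [per_length, per_length]
  · rw [per_get, per_get, per_length, per_getD _ _ _ _ (Nat.mod_lt _ hw)]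
    congr 1
    rw [Nat.add_mod_mod]
    congr 1
    omega

theorem per_take (w : List Bool) (m : ℕ) (hm : m ≤ w.length) : per w 0 m = w.take m := by
  refine List.ext_getElem ?_ fun i h1 h2 => ?_
  · rw [per_length, List.length_take]
    omega
  · rw [per_get, List.getElem_take]
    rw [per_length] at h1
    have h3 : (0 + i) % w.length = i := by
      rw [Nat.zero_add]
      exact Nat.mod_eq_of_lt (by omega)
    rw [h3, List.getD_eq_getElem _ _ (by omega)]

theorem per_reverse (w : List Bool) (a m : ℕ) (hw : 1 ≤ w.length) :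
    ∃ b : ℕ, (per w a m).reverse = per w.reverse b m := by
  refine ⟨(w.length - 1) * (a + m), ?_⟩
  obtain ⟨n, hn⟩ : ∃ n, n = w.length := ⟨_, rfl⟩
  refine List.ext_getElem ?_ fun i h1 h2 => ?_
  · rw [List.length_reverse, per_length, per_length]
  · rw [List.length_reverse, per_length] at h1
    rw [List.getElem_reverse, per_get, per_get, List.length_reverse, per_length, ← hn]
    rw [← hn] at hw
    have hx : ((n - 1) * (a + m) + i) % n < n := Nat.mod_lt _ hw
    have hy : (a + (m - 1 - i)) % n < n := Nat.mod_lt _ hw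
    have hsum : ((n - 1) * (a + m) + i) % n + (a + (m - 1 - i)) % n + 1 = n := by
      have h3 : (((n - 1) * (a + m) + i) % n + (a + (m - 1 - i)) % n + 1) % n = 0 := by
        rw [Nat.add_mod, ← Nat.add_mod ((n - 1) * (a + m) + i), ← Nat.add_mod]
        have h4 : (n - 1) * (a + m) + i + (a + (m - 1 - i)) + 1 = n * (a + m) := by
          obtain ⟨n', rfl⟩ : ∃ n', n = n' + 1 := ⟨n - 1, by omega⟩
          have h5 : n' + 1 - 1 = n' := by omega
          rw [h5, Nat.add_mul, Nat.one_mul]
          omega
        rw [h4]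
        exact Nat.mul_mod_right _ _
      have h5 := Nat.dvd_of_mod_eq_zero h3
      obtain ⟨q, hq⟩ := h5
      have hq1 : q = 1 := by
        rcases q with _ | _ | q
        · omega
        · rfl
        · exfalso
          have : n * (q + 1 + 1) = n * q + n + n := by ring
          rw [this] at hq
          omega
      rw [hq1, Nat.mul_one] at hq
      exact hq
    have h6 : ((n - 1) * (a + m) + i) % n = n - 1 - (a + (m - 1 - i)) % n := by omega
    rw [h6, List.getD_eq_getElem _ _ (by rw [← hn]; exact hy),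
      List.getD_eq_getElem _ _ (by rw [List.length_reverse, ← hn]; omega), List.getElem_reverse]
    congr 1
    rw [← hn]
    omega

theorem pwt : PwtStmt :=
  ⟨wt_per, per_period, per_length, per_add, fun w a b m hw => per_per w a b m hw,
    fun w m hm => per_take w m hm, fun w a m hw => per_reverse w a m hw⟩

theorem per_map_not (w : List Bool) (a m : ℕ) (hw : 1 ≤ w.length) :
    (per w a m).map not = per (w.map not) a m := by
  refine List.ext_getElem ?_ fun i h1 h2 => ?_
  · rw [List.length_map, per_length, per_length]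
  · rw [List.getElem_map, per_get, per_get, List.length_map]
    have h3 : (a + i) % w.length < w.length := Nat.mod_lt _ hw
    rw [List.getD_eq_getElem _ _ h3, List.getD_eq_getElem _ _ (by rw [List.length_map]; exact h3),
      List.getElem_map]

theorem blk_length {k t : ℕ} (ht : t ≤ k) : (blk k t).length = k := by
  unfold blk
  rw [List.length_append, List.length_replicate, List.length_replicate]
  omega

theorem blk_rot {k t : ℕ} (ht : t ≤ k) :
    per (blk k t) t k = List.replicate (k - t) false ++ List.replicate t true := by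
  have h1 := per_rotate (blk k t) t
  rw [blk_length ht] at h1
  rw [h1]
  have h2 := List.rotate_append_length_eq (List.replicate t true) (List.replicate (k - t) false)
  rw [List.length_replicate] at h2
  exact h2

theorem blr : BlrStmt := by
  intro k t ht hk
  refine ⟨fun a m => ?_, fun a m => ?_, blk_length ht, ?_⟩
  · obtain ⟨b, hb⟩ := per_reverse (blk k t) a m (by rw [blk_length ht]; exact hk)
    refine ⟨t + b, ?_⟩
    have h1 : (blk k t).reverse = per (blk k t) t k := by
      rw [blk_rot ht]
      unfold blk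
      rw [List.reverse_append, List.reverse_replicate, List.reverse_replicate]
    have h2 := per_per (blk k t) t b m (by rw [blk_length ht]; exact hk)
    rw [blk_length ht] at h2
    rw [hb, h1, h2]
  · refine ⟨(k - t) + a, ?_⟩
    rw [per_map_not _ _ _ (by rw [blk_length ht]; exact hk)]
    have ht' : k - t ≤ k := Nat.sub_le _ _
    have h1 : (blk k t).map not = per (blk k (k - t)) (k - t) k := by
      rw [blk_rot ht']
      unfold blk
      rw [List.map_append, List.map_replicate, List.map_replicate]
      congr 2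
      omega
    have h2 := per_per (blk k (k - t)) (k - t) a m (by rw [blk_length ht']; exact hk)
    rw [blk_length ht'] at h2
    rw [h1, h2]
  · unfold wt blk
    rw [List.count_append, List.count_replicate_self, List.count_replicate]
    simp

theorem per_succ (w : List Bool) (a m : ℕ) :
    per w a (m + 1) = per w a m ++ [w.getD ((a + m) % w.length) false] := by
  rw [per_add]
  congr 1

theorem per_tail (w : List Bool) (a m : ℕ) : (per w a (m + 1)).tail = per w (a + 1) m := by
  rw [Nat.add_comm m 1, per_add]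
  have : per w a 1 = [w.getD ((a + 0) % w.length) false] := rfl
  rw [this]
  rfl

theorem per_ : PerStmt := by
  intro V _ _ H X k p ε K w a m hk hw hp
  induction m with
  | zero => exact Pl.nil _ (per_length _ _ _)
  | succ m ih =>
    have h1 : per w (a + m) (k - 1) ++ [w.getD ((a + m + (k - 1)) % w.length) false] =
        per w (a + m) (k - 1 + 1) := (per_succ w (a + m) (k - 1)).symm
    have h2 : k - 1 + 1 = k := by omega
    have h3 := Pl.letter _ _ _ _ _ (w.getD ((a + m + (k - 1)) % w.length) false) ih (by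
      rw [h1, h2]
      have h4 := wt_per w (a + m)
      rw [hw] at h4
      rw [h4]
      exact hp)
    rw [h1, per_tail] at h3
    have h5 : wt (per w (a + k - 1) (m + 1)) =
        wt (per w (a + k - 1) m) + wt [w.getD ((a + m + (k - 1)) % w.length) false] := by
      rw [per_succ]
      unfold wt
      rw [List.count_append]
      congr 3
      have : a + k - 1 + m = a + m + (k - 1) := by omega
      rw [this]
    rw [h5]
    exact h3

end Pool.Agent.KK.H3
end

/-! ### Helper61_KK.GLU -/
section
/-!
# KK, row GLU: arithmetic of loops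
-/

set_option autoImplicit false

namespace Pool.Agent.KK.H61

open Pool.Agent.KK

theorem length_blk {k t : ℕ} (h : t ≤ k) : (blk k t).length = k := by
  simp [blk]; omega

theorem wt_blk (k t : ℕ) : wt (blk k t) = t := by
  simp [blk, wt, List.count_replicate]

theorem per_add_mul (hPwt : PwtStmt) (w : List Bool) (a m M : ℕ) :
    per w (a + w.length * M) m = per w a m := by
  induction M with
  | zero => simp
  | succ M ih =>
    have e : a + w.length * (M + 1) = (a + w.length * M) + w.length := by ring
    rw [e, hPwt.2.1, ih]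

theorem wt_per_mul (hPwt : PwtStmt) (w : List Bool) (a M : ℕ) :
    wt (per w a (w.length * M)) = wt w * M := by
  induction M with
  | zero => simp [per, wt]
  | succ M ih =>
    have e : w.length * (M + 1) = w.length * M + w.length := by ring
    rw [e, hPwt.2.2.2.1]
    have h1 := hPwt.1 w (a + w.length * M)
    unfold wt at h1 ih ⊢
    rw [List.count_append, ih, h1]; ring

/-- a stretch of full periods -/
theorem periods (hPer : PerStmt) (hPwt : PwtStmt) (V : Type) [Fintype V] [DecidableEq V]
    (H : Finset (Finset V)) (X : Finset V) (k p : ℕ) (ε : ℝ) (K : ℕ) (w : List Bool) (M : ℕ)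
    (hk : 1 ≤ k) (hw : w.length = k) (hp : wt w % 2 = p) :
    Pl V H X k p ε K (per w 0 (k - 1)) (per w 0 (k - 1)) (k * M) (wt w * M) 0 := by
  have h1 := hPer V H X k p ε K w 0 (k * M) hk hw hp
  rw [← hw] at h1
  rw [per_add_mul hPwt, wt_per_mul hPwt, hw] at h1
  exact h1

theorem glu (hPer : PerStmt) (hPwt : PwtStmt) (hTra : TraStmt) : GluStmt := by
  intro k B hk
  refine ⟨k * B, by nlinarith, ?_⟩
  intro V _ _ H X p ε K j t t' w' hcase hjk htp hw'len hw'wt hplans N a hlow hupp
  have hB : k * B ≤ N := by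
    have h1 : 1 ≤ j := by omega
    have h2 : (j - 1) * N + 2 * N = (j + 1) * N := by
      obtain ⟨i, rfl⟩ := Nat.exists_eq_add_of_le h1
      have : 1 + i - 1 = i := by omega
      rw [this]; ring
    omega
  obtain ⟨N₁, a₁, q₁, N₂, a₂, q₂, hN, hq, ha, hr, hδ, hP1, hP2⟩ :=
    hplans (N % k) ((a + t * (N / k)) % 2) (Nat.mod_lt _ (by omega)) (Nat.mod_lt _ (by omega))
  have htk : t ≤ k := by omega
  -- number of periods
  have hBk : B ≤ k * B := by nlinarith
  have hNk : (N₁ + N₂) + k * (N / k - (N₁ + N₂) / k) = N := by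
    have h1 := Nat.div_add_mod N k
    have h2 := Nat.div_add_mod (N₁ + N₂) k
    have h3 : (N₁ + N₂) / k ≤ N / k := Nat.div_le_div_right (by omega)
    rw [Nat.mul_sub]
    have h4 : k * ((N₁ + N₂) / k) ≤ k * (N / k) := Nat.mul_le_mul_left _ h3
    omega
  set M := N / k - (N₁ + N₂) / k with hM
  have hdiv : N / k = M + (N₁ + N₂) / k := by
    have h3 : (N₁ + N₂) / k ≤ N / k := Nat.div_le_div_right (by omega)
    omega
  have hpar : (a₁ + a₂ + t * M) % 2 = a % 2 := by
    rw [hdiv] at hδ
    generalize (N₁ + N₂) / k = D at hδ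
    have h1 : (a₁ + a₂ + t * D + (t * D + t * M)) % 2 = (a + t * (M + D) + (t * D + t * M)) % 2 := by
      omega
    have e1 : a₁ + a₂ + t * D + (t * D + t * M) = (a₁ + a₂ + t * M) + 2 * (t * D) := by ring
    have e2 : a + t * (M + D) + (t * D + t * M) = a + 2 * (t * (M + D)) := by ring
    rw [e1, e2] at h1
    omega
  -- existence of `M'`
  have hM' : ∃ M' M'' : ℕ, M' + M'' = M ∧ a₁ + a₂ + t' * M' + t * M'' = a := by
    have hlowz : ((j : ℤ) - 1) * N + k * B ≤ k * a := by
      have h1 : 1 ≤ j := by omega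
      have : (((j - 1 : ℕ) : ℤ)) * N + k * B ≤ k * a := by exact_mod_cast hlow
      rwa [Nat.cast_sub h1] at this
    have huppz : (k : ℤ) * a + k * B ≤ (j + 1) * N := by exact_mod_cast hupp
    have hNz : ((N₁ + N₂ : ℕ) : ℤ) + k * M = N := by exact_mod_cast hNk
    have hN0 : (0 : ℤ) ≤ ((N₁ + N₂ : ℕ) : ℤ) := by positivity
    have hNB : ((N₁ + N₂ : ℕ) : ℤ) ≤ B := by exact_mod_cast hN
    have haz : (((a₁ + a₂ : ℕ)) : ℤ) ≤ B := by exact_mod_cast ha
    have hkz : (0 : ℤ) < k := by positivity
    have hB0 : (0 : ℤ) ≤ B := by positivity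
    have hjkz : (j : ℤ) + 1 ≤ k := by exact_mod_cast hjk
    have hM0 : (0 : ℤ) ≤ M := by positivity
    have hj1 : (1 : ℤ) ≤ j := by
      have h1 : 1 ≤ j := by omega
      exact_mod_cast h1
    set A : ℤ := (((a₁ + a₂ : ℕ)) : ℤ) with hA
    set n0 : ℤ := ((N₁ + N₂ : ℕ) : ℤ) with hn0
    have hL : A + (j - 1) * M ≤ a := by
      have h1 : (k : ℤ) * (A + (j - 1) * M) ≤ k * a := by
        have h2 : (k : ℤ) * A ≤ k * B := by nlinarith
        have h3 : ((j : ℤ) - 1) * (k * M) ≤ (j - 1) * N := by
          have : (k : ℤ) * M ≤ N := by linarith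
          nlinarith
        have h4 : (k : ℤ) * (A + (j - 1) * M) = k * A + (j - 1) * (k * M) := by ring
        linarith
      exact le_of_mul_le_mul_left h1 hkz
    have hU : (a : ℤ) ≤ A + (j + 1) * M := by
      have hA0 : 0 ≤ A := by positivity
      have h1 : (k : ℤ) * a ≤ k * (A + (j + 1) * M) := by
        have h2 : ((j : ℤ) + 1) * N = (j + 1) * n0 + (j + 1) * (k * M) := by rw [← hNz]; ring
        have h3 : ((j : ℤ) + 1) * n0 ≤ k * B := by
          calc ((j : ℤ) + 1) * n0 ≤ k * n0 := mul_le_mul_of_nonneg_right hjkz hN0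
            _ ≤ k * B := mul_le_mul_of_nonneg_left hNB hkz.le
        have h5 : 0 ≤ (k : ℤ) * A := by positivity
        have h4 : (k : ℤ) * (A + (j + 1) * M) = k * A + (j + 1) * (k * M) := by ring
        linarith
      exact le_of_mul_le_mul_left h1 hkz
    rcases hcase with ⟨h1, h2⟩ | ⟨h1, h2⟩
    · -- `t = j - 1`, `t' = j + 1`
      have htz : (j : ℤ) = t + 1 := by exact_mod_cast h1.symm
      rw [htz] at hL hU
      have hL' : a₁ + a₂ + t * M ≤ a := by
        have : ((a₁ + a₂ + t * M : ℕ) : ℤ) ≤ a := by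
          push_cast [hA] at hL ⊢
          linarith
        exact_mod_cast this
      have hU' : a ≤ a₁ + a₂ + (t + 2) * M := by
        have : (a : ℤ) ≤ ((a₁ + a₂ + (t + 2) * M : ℕ) : ℤ) := by
          push_cast [hA] at hU ⊢
          linarith
        exact_mod_cast this
      obtain ⟨M', hM'⟩ : ∃ M', a = a₁ + a₂ + t * M + 2 * M' :=
        ⟨(a - (a₁ + a₂ + t * M)) / 2, by omega⟩
      have hM'M : M' ≤ M := by
        have e : (t + 2) * M = t * M + 2 * M := by ring
        omega
      refine ⟨M', M - M', by omega, ?_⟩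
      obtain ⟨L, hL2⟩ := Nat.exists_eq_add_of_le hM'M
      have : M - M' = L := by omega
      rw [this, hM', hL2]
      have h3 : t' = t + 2 := by omega
      rw [h3]; ring
    · have htz : (j : ℤ) = t - 1 := by
        have : (t : ℤ) = j + 1 := by exact_mod_cast h1
        linarith
      have ht2 : 2 ≤ t := by omega
      obtain ⟨s, rfl⟩ : ∃ s, t = s + 2 := ⟨t - 2, by omega⟩
      have hs : t' = s := by omega
      rw [htz] at hL hU
      have hL' : a₁ + a₂ + s * M ≤ a := by
        have : ((a₁ + a₂ + s * M : ℕ) : ℤ) ≤ a := by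
          push_cast [hA] at hL ⊢
          linarith
        exact_mod_cast this
      have hU' : a ≤ a₁ + a₂ + (s + 2) * M := by
        have : (a : ℤ) ≤ ((a₁ + a₂ + (s + 2) * M : ℕ) : ℤ) := by
          push_cast [hA] at hU ⊢
          linarith
        exact_mod_cast this
      obtain ⟨M', hM'⟩ : ∃ M', a + 2 * M' = a₁ + a₂ + (s + 2) * M :=
        ⟨(a₁ + a₂ + (s + 2) * M - a) / 2, by omega⟩
      have hM'M : M' ≤ M := by
        have e : (s + 2) * M = s * M + 2 * M := by ring
        omega
      refine ⟨M', M - M', by omega, ?_⟩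
      obtain ⟨L, hL2⟩ := Nat.exists_eq_add_of_le hM'M
      have : M - M' = L := by omega
      rw [this, hs]
      rw [hL2] at hM'
      have e : (s + 2) * (M' + L) = s * M' + (s + 2) * L + 2 * M' := by ring
      omega
  obtain ⟨M', M'', hMM, haa⟩ := hM'
  have hwb : wt (blk k t) % 2 = p := by rw [wt_blk]; exact htp
  have hw2 : wt w' % 2 = p := by rw [hw'wt]; omega
  have P1 := periods hPer hPwt V H X k p ε K (blk k t) M'' (by omega) (length_blk htk) hwb
  have P2 := periods hPer hPwt V H X k p ε K w' M' (by omega) hw'len hw2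
  have Q1 := hTra _ _ _ _ _ _ _ _ _ _ _ _ _ _ _ _ P1 hP1
  have Q2 := hTra _ _ _ _ _ _ _ _ _ _ _ _ _ _ _ _ Q1 P2
  have Q3 := hTra _ _ _ _ _ _ _ _ _ _ _ _ _ _ _ _ Q2 hP2
  refine ⟨0 + q₁ + 0 + q₂, by omega, ?_⟩
  have eN : k * M'' + N₁ + k * M' + N₂ = N := by
    have : k * M'' + k * M' = k * M := by rw [← hMM]; ring
    omega
  have ea : wt (blk k t) * M'' + a₁ + wt w' * M' + a₂ = a := by
    rw [wt_blk, hw'wt]; omega
  rw [eN, ea] at Q3
  exact Q3

end Pool.Agent.KK.H61
end

/-! ### Helper92_KK.MTO -/
section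
/-!
# KK block BETA, row MTO: loops with two connectors, every residue
-/

set_option autoImplicit false

namespace Pool.Agent.KK.H92

theorem getD_ind {W : List Bool} {i : ℕ} (h : i < W.length) (a b : Bool) :
    W.getD i a = W.getD i b := by
  rw [List.getD_eq_getElem _ _ h, List.getD_eq_getElem _ _ h]

/-- the word of a function -/
def word (k : ℕ) (f : ℕ → Bool) : List Bool := (List.range k).map f

theorem word_length (k : ℕ) (f : ℕ → Bool) : (word k f).length = k := by
  unfold word
  rw [List.length_map, List.length_range]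

theorem word_getD (k : ℕ) (f : ℕ → Bool) {i : ℕ} (h : i < k) (a : Bool) :
    (word k f).getD i a = f i := by
  rw [List.getD_eq_getElem _ _ (by rw [word_length]; exact h)]
  unfold word
  rw [List.getElem_map, List.getElem_range]

theorem word_wt (k : ℕ) (f : ℕ → Bool) :
    wt (word k f) = ((Finset.range k).filter fun i => f i = true).card := by
  induction k with
  | zero => simp [word, wt]
  | succ k ih =>
    unfold word wt at ih ⊢
    rw [List.range_succ, List.map_append, List.count_append, ih, Finset.range_add_one,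
      Finset.filter_insert]
    by_cases h : f k = true
    · rw [if_pos h, Finset.card_insert_of_notMem]
      · simp [h]
      · intro h1
        have := (Finset.mem_filter.1 h1).1
        rw [Finset.mem_range] at this
        omega
    · rw [if_neg h]
      simp [h]

theorem word_self (W : List Bool) : word W.length (fun i => W.getD i false) = W := by
  apply List.ext_getElem
  · rw [word_length]
  · intro i h1 h2
    have h3 := word_getD W.length (fun i => W.getD i false) h2 false
    rw [List.getD_eq_getElem _ _ h1, List.getD_eq_getElem _ _ h2] at h3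
    exact h3

theorem wt_eq (W : List Bool) :
    wt W = ((Finset.range W.length).filter fun i => W.getD i false = true).card := by
  have h := word_wt W.length (fun i => W.getD i false)
  rw [word_self] at h
  exact h

/-- adding two letters -/
theorem wt_add_two {k : ℕ} {W : List Bool} (hW : W.length = k) {c d : ℕ} (hc : c < k) (hd : d < k)
    (hdc : d ≠ c) (h1 : W.getD c false = false) (h2 : W.getD d false = false) :
    wt (word k fun i => if i = c ∨ i = d then true else W.getD i false) = wt W + 2 := by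
  subst hW
  rw [word_wt, wt_eq W]
  have e1 : ((Finset.range W.length).filter fun i =>
      (if i = c ∨ i = d then true else W.getD i false) = true) =
      insert c (insert d ((Finset.range W.length).filter fun i => W.getD i false = true)) := by
    ext i
    rw [Finset.mem_filter, Finset.mem_insert, Finset.mem_insert, Finset.mem_filter,
      Finset.mem_range]
    constructor
    · rintro ⟨h3, h4⟩
      by_cases h5 : i = c
      · exact Or.inl h5
      · by_cases h6 : i = d
        · exact Or.inr (Or.inl h6)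
        · rw [if_neg (by rintro (h | h); exacts [h5 h, h6 h])] at h4
          exact Or.inr (Or.inr ⟨h3, h4⟩)
    · rintro (h3 | h3 | ⟨h3, h4⟩)
      · rw [h3]
        exact ⟨hc, if_pos (Or.inl rfl)⟩
      · rw [h3]
        exact ⟨hd, if_pos (Or.inr rfl)⟩
      · refine ⟨h3, ?_⟩
        by_cases h5 : i = c ∨ i = d
        · rw [if_pos h5]
        · rw [if_neg h5]
          exact h4
  rw [e1, Finset.card_insert_of_notMem, Finset.card_insert_of_notMem]
  · intro h
    have := (Finset.mem_filter.1 h).2
    rw [h2] at this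
    cases this
  · intro h
    rcases Finset.mem_insert.1 h with h | h
    · exact hdc h.symm
    · have := (Finset.mem_filter.1 h).2
      rw [h1] at this
      cases this

section

variable {V : Type} [Fintype V] [DecidableEq V]

/-- a free stretch -/
theorem free_rea (rel : RelStmt) {H : Finset (Finset V)} {X : Finset V} {k p : ℕ} {ε : ℝ}
    (hk : 1 ≤ k) (hF : FW H X k p ε) (K' : ℝ) {u v : List Bool} {N a : ℕ}
    (h : ∀ K : ℕ, Pl V H X k p ε K u v N a 0) : Rea H X k p ε K' ∅ 0 u v N a := by
  have h1 := rel V H X k p ε ⌈K'⌉₊ u v N a 0 K' hk hF (h _) (by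
    have := Nat.le_ceil K'
    push_cast
    linarith)
  rw [Nat.mul_zero] at h1
  exact h1

end

/-- **MTO** -/
theorem mto (wrd : WrdStmt) (put : PutStmt) (pdt : PdtStmt) (rel : RelStmt) (cmo : CmoStmt) :
    MtoStmt := by
  have per := Pool.Agent.KK.H3.per_
  have pwt := Pool.Agent.KK.H3.pwt
  intro k hk
  refine ⟨100 * k ^ 3, ?_⟩
  intro V _ _ H X p j r ε K K' z₁ z₂ hj hjk hp hr hz hF hT₁ hT₂ hK' hKK
  obtain ⟨W, c, c', d, hWl, hWw, hc, hc', hd, hdc, hdc', hWd, hWc, hrot⟩ :=
    wrd k (j - 1) ((k - r) % k) (by omega) (Nat.mod_lt _ (by omega))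
  set r' : ℕ := (k - r) % k with hr'
  have hr'k : r' < k := Nat.mod_lt _ (by omega)
  have hWd' : W.getD d false = false := by
    rw [getD_ind (by rw [hWl]; exact hd) false true]
    exact hWd
  have hWc' : W.getD c false = false := by
    rw [getD_ind (by rw [hWl]; exact hc) false true]
    exact hWc
  -- the three words
  set W₁ : List Bool := word k fun i => if i = c ∨ i = d then true else W.getD i false with hW₁
  have hW₁l : W₁.length = k := word_length _ _
  have hW₁w : wt W₁ = j + 1 := by
    rw [hW₁, wt_add_two hWl hc hd hdc hWc' hWd', hWw]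
    omega
  have hW₁g : ∀ i < k, W₁.getD i false = if i = c ∨ i = d then true else W.getD i false := by
    intro i hi
    rw [hW₁, word_getD k _ hi]
  set W₂ : List Bool := Pool.Agent.KK.per W r' k with hW₂
  have hW₂l : W₂.length = k := Pool.Agent.KK.H3.per_length _ _ _
  have hW₂w : wt W₂ = j - 1 := by
    rw [hW₂, ← hWl, pwt.1, hWw]
  have hW₂g : ∀ (b : Bool) (i : ℕ), i < k → W₂.getD i b = W.getD ((i + r') % k) false := by
    intro b i hi
    rw [hW₂, Pool.Agent.KK.H3.per_getD W r' k i hi b, hWl, add_comm r' i]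
  have hp1 : (j - 1) % 2 = p := by omega
  have hk1 : 1 ≤ k := by omega
  have hkR : (3 : ℝ) ≤ k := by exact_mod_cast hk
  have hk3 : (100 : ℝ) * k ≤ 100 * (k : ℝ) ^ 3 := by nlinarith [mul_pos (by linarith : (0 : ℝ) < k) (by linarith : (0 : ℝ) < k)]
  have hKK' : K' + 100 * (k : ℝ) ≤ K := by
    have : ((100 * k ^ 3 : ℕ) : ℝ) = 100 * (k : ℝ) ^ 3 := by push_cast; ring
    rw [this] at hKK
    linarith
  -- flips
  obtain ⟨a₁, ha₁, hP1, hP1'⟩ := put V H X k p j ε K (K' + 20 * k) W W₁ c d z₁ (by omega) hF hWl
    hW₁l hc hd (Ne.symm hdc) (by omega) (by rw [hWw]; exact hp1) hT₁ hWc hWd hW₁g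
    (by linarith) (by positivity)
  have hW₂c' : W₂.getD c' true = false := by
    rw [hW₂g true c' hc']
    rcases hrot with ⟨h1, h2⟩ | ⟨h1, h2, h3⟩
    · rw [h2 c' hc', ← h1]
      exact hWc'
    · rw [h3 c' hc', if_neg (Ne.symm h1), if_pos rfl]
  have hW₂d : W₂.getD d true = false := by
    rw [hW₂g true d hd]
    rcases hrot with ⟨h1, h2⟩ | ⟨h1, h2, h3⟩
    · rw [h2 d hd]
      exact hWd'
    · rw [h3 d hd, if_neg hdc, if_neg hdc']
      exact hWd'
  have hW₁₂ : ∀ i < k, W₁.getD i false = if i = c' ∨ i = d then true else W₂.getD i false := by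
    intro i hi
    rw [hW₁g i hi, hW₂g false i hi]
    rcases hrot with ⟨h1, h2⟩ | ⟨h1, h2, h3⟩
    · rw [h2 i hi, ← h1]
    · rw [h3 i hi]
      by_cases e1 : i = d
      · rw [if_pos (Or.inr e1), if_pos (Or.inr e1)]
      · by_cases e2 : i = c
        · rw [if_pos (Or.inl e2), if_neg (by
            rintro (h | h)
            · exact h1 (e2 ▸ h)
            · exact e1 h), if_pos e2]
        · rw [if_neg (by rintro (h | h); exacts [e2 h, e1 h]), if_neg e2]
          by_cases e3 : i = c'
          · rw [if_pos (Or.inl e3), e3]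
            exact h2
          · rw [if_neg (by rintro (h | h); exacts [e3 h, e1 h]), if_neg e3]
  obtain ⟨a₂, ha₂, hP3⟩ := pdt V H X k p j ε K (K' + 20 * k) W₂ W₁ c' d z₂ (by omega) hF hW₂l
    hW₁l hc' hd (Ne.symm hdc') (by omega) (by rw [hW₂w]; exact hp1) hT₂ hW₂c' hW₂d hW₁₂
    (by linarith) (by positivity)
  -- rotation back to the base
  set a₃ : ℕ := wt (Pool.Agent.KK.per W (r' + k - 1) (k - r')) with ha₃
  have ha₃k : a₃ ≤ k := by
    have h1 : a₃ ≤ (Pool.Agent.KK.per W (r' + k - 1) (k - r')).length := by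
      rw [ha₃]
      unfold wt
      exact List.count_le_length
    rw [Pool.Agent.KK.H3.per_length] at h1
    omega
  have hcx2 : cx k W₂ = Pool.Agent.KK.per W r' (k - 1) := by
    unfold cx
    rw [hW₂, ← hWl, pwt.2.2.2.2.1 W r' 0 (W.length - 1) (by rw [hWl]; exact hk1), add_zero]
  have hcx0 : Pool.Agent.KK.per W (r' + (k - r')) (k - 1) = cx k W := by
    unfold cx
    have h1 : r' + (k - r') = 0 + W.length := by
      rw [hWl]
      omega
    rw [h1, pwt.2.1]
  have hP4 : ∀ K : ℕ, Pl V H X k p ε K (cx k W₂) (cx k W) (k - r') a₃ 0 := by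
    intro K
    have h1 := per V H X k p ε K W r' (k - r') hk1 hWl (by rw [hWw]; exact hp1)
    rw [hcx0, ← hcx2] at h1
    exact h1
  refine ⟨W, hWl, hWw, ?_⟩
  intro N a hN hlow hupp
  -- arithmetic
  have hk2 : k ^ 2 ≤ k ^ 3 := Nat.pow_le_pow_right hk1 (by norm_num)
  have hkk2 : k ≤ k ^ 2 := by nlinarith
  obtain ⟨i, rfl⟩ : ∃ i, j = i + 1 := ⟨j - 1, by omega⟩
  have hi1 : i + 1 - 1 = i := rfl
  rw [hi1] at hlow hWw
  have hN1 : 100 * k ^ 3 ≤ N := by
    have e1 : (i + 1 + 1) * N = i * N + 2 * N := by ring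
    omega
  have hN0 : (9 * k - r') % k = r := by
    by_cases h0 : r = 0
    · have h1 : r' = 0 := by
        rw [hr', h0, Nat.sub_zero, Nat.mod_self]
      rw [h1, h0, Nat.sub_zero]
      exact Nat.mul_mod_left 9 k
    · have h1 : r' = k - r := by
        rw [hr']
        exact Nat.mod_eq_of_lt (by omega)
      have h2 : 9 * k - r' = r + 8 * k := by omega
      rw [h2, Nat.add_mul_mod_self_right]
      exact Nat.mod_eq_of_lt hr
  obtain ⟨M, hM⟩ : ∃ M, N = 9 * k - r' + k * M := by
    have h1 : 9 * k - r' ≤ N := by omega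
    have h2 : (N - (9 * k - r')) % k = 0 := by
      have h3 : N % k = (9 * k - r') % k := by rw [hN, hN0]
      exact Nat.sub_mod_eq_zero_of_mod_eq h3
    obtain ⟨M, hM⟩ := Nat.dvd_of_mod_eq_zero h2
    exact ⟨M, by omega⟩
  have hE : ∃ δ M' : ℕ, δ < 2 ∧ M' ≤ M ∧ a = (a₁ + a₂ + a₃) + i * M + 2 * M' + δ := by
    have ha0 : a₁ + a₂ + a₃ ≤ 9 * k := by omega
    have hb1 : k * (a₁ + a₂ + a₃ + i * M) ≤ k * a := by
      have e1 : k * (a₁ + a₂ + a₃) ≤ k * (9 * k) := Nat.mul_le_mul_left _ ha0
      have e2 : k * (i * M) ≤ i * N := by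
        have : k * M ≤ N := by omega
        calc k * (i * M) = i * (k * M) := by ring
          _ ≤ i * N := Nat.mul_le_mul_left _ this
      nlinarith
    have hb2 : a₁ + a₂ + a₃ + i * M ≤ a := Nat.le_of_mul_le_mul_left hb1 (by omega)
    have hb3 : k * a ≤ k * (a₁ + a₂ + a₃ + i * M + 2 * M) := by
      -- (i+2) N = i N + 2 N
      have e1 : (i + 1 + 1) * N = (i + 2) * (9 * k - r') + k * (i * M + 2 * M) := by
        rw [hM]
        ring
      have e2 : (i + 2) * (9 * k - r') ≤ k * (9 * k) :=
        Nat.mul_le_mul (by omega) (by omega)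
      nlinarith
    have hb4 : a ≤ a₁ + a₂ + a₃ + i * M + 2 * M := Nat.le_of_mul_le_mul_left hb3 (by omega)
    refine ⟨(a - (a₁ + a₂ + a₃ + i * M)) % 2, (a - (a₁ + a₂ + a₃ + i * M)) / 2,
      Nat.mod_lt _ (by norm_num), by omega, by omega⟩
  obtain ⟨δ, M', hδ, hM', ha⟩ := hE
  -- first flip with the right count
  have hQ1 : Rea H X k p ε (K' + 20 * k) {z₁} (2 * k) (cx k W) (cx k W₁) (4 * k) (a₁ + δ) := by
    have h1 : δ = 0 ∨ δ = 1 := by omega
    rcases h1 with h1 | h1
    · rw [h1, add_zero]
      exact hP1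
    · rw [h1]
      exact hP1'
  have hQ2 : Rea H X k p ε (K' + 20 * k) ∅ 0 (cx k W₁) (cx k W₁) (k * M') ((i + 2) * M') := by
    apply free_rea rel hk1 hF
    intro K
    have h1 := Pool.Agent.KK.H61.periods per pwt V H X k p ε K W₁ M' hk1 hW₁l
      (by rw [hW₁w]; exact hp)
    rw [hW₁w] at h1
    exact h1
  have hQ4 : Rea H X k p ε (K' + 10 * k) ∅ 0 (cx k W₂) (cx k W) (k - r') a₃ :=
    free_rea rel hk1 hF _ hP4
  have hQ5 : Rea H X k p ε (K' + 5 * k) ∅ 0 (cx k W) (cx k W) (k * (M - M')) (i * (M - M')) := by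
    apply free_rea rel hk1 hF
    intro K
    have h1 := Pool.Agent.KK.H61.periods per pwt V H X k p ε K W (M - M') hk1 hWl
      (by rw [hWw]; exact hp1)
    rw [hWw] at h1
    exact h1
  obtain ⟨_, hcmp, hmono⟩ := cmo
  have hC12 := hcmp V H X {z₁} ∅ k p ε (K' + 20 * k) (K' + 15 * k) (2 * k) 0 _ _ _ _ _ _ _ hk1
    hQ1 hQ2 (Finset.disjoint_empty_right _) (by
      rw [Finset.card_empty]
      push_cast
      linarith)
  have hQ3 : Rea H X k p ε (K' + 15 * k) {z₂} (2 * k) (cx k W₁) (cx k W₂) (4 * k) a₂ :=
    hmono V H X {z₂} k p ε ε (K' + 20 * k) (K' + 15 * k) (2 * k) (2 * k) _ _ _ _ hP3 le_rfl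
      (by linarith) le_rfl
  have hC123 := hcmp V H X ({z₁} ∪ ∅) {z₂} k p ε (K' + 15 * k) (K' + 10 * k) (2 * k + 0) (2 * k)
    _ _ _ _ _ _ _ hk1 hC12 hQ3 (by
      rw [Finset.union_empty, Finset.disjoint_singleton]
      exact hz) (by
      rw [Finset.card_singleton]
      push_cast
      linarith)
  have hC1234 := hcmp V H X ({z₁} ∪ ∅ ∪ {z₂}) ∅ k p ε (K' + 10 * k) (K' + 5 * k)
    (2 * k + 0 + 2 * k) 0 _ _ _ _ _ _ _ hk1 hC123 hQ4 (Finset.disjoint_empty_right _) (by
      rw [Finset.card_empty]
      push_cast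
      linarith)
  have hfin := hcmp V H X ({z₁} ∪ ∅ ∪ {z₂} ∪ ∅) ∅ k p ε (K' + 5 * k) K'
    (2 * k + 0 + 2 * k + 0) 0 _ _ _ _ _ _ _ hk1 hC1234 hQ5 (Finset.disjoint_empty_right _) (by
      rw [Finset.card_empty]
      push_cast
      linarith)
  have hD : ({z₁} ∪ ∅ ∪ {z₂} ∪ ∅ ∪ ∅ : Finset V) = {z₁, z₂} := by
    rw [Finset.union_empty, Finset.union_empty, Finset.union_empty]
    rfl
  rw [hD] at hfin
  have hNN : 4 * k + k * M' + 4 * k + (k - r') + k * (M - M') = N := by
    have h1 : k * M' + k * (M - M') = k * M := by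
      rw [← Nat.mul_add]
      congr 1
      omega
    omega
  have haa : a₁ + δ + (i + 2) * M' + a₂ + a₃ + i * (M - M') = a := by
    have h1 : i * M' + i * (M - M') = i * M := by
      rw [← Nat.mul_add]
      congr 1
      omega
    have h2 : (i + 2) * M' = i * M' + 2 * M' := by ring
    omega
  rw [hNN, haa] at hfin
  exact hmono V H X {z₁, z₂} k p ε ε K' K' _ _ _ _ _ _ hfin le_rfl le_rfl (by omega)

end Pool.Agent.KK.H92
end
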