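import Pool.Agent.KKM.Base

/-! # MP_747bc0_co, merged modules -/

/-! ### Helper39_KK.RES -/
section
/-! MP_747bc0_co, squad KK, block B, row RES: resampling. -/

set_option autoImplicit false

namespace Pool.Agent.KK.B.H39

open Function
open scoped Classical

section general

variable {α β : Type*} [Fintype α] [Fintype β]

theorem dens_swap (Q : α → β → Prop) :
    dens (fun x : α × β => Q x.1 x.2) = dens (fun x : β × α => Q x.2 x.1) :=
  dens_equiv (Equiv.prodComm α β) (fun x : β × α => Q x.2 x.1)

theorem dens_snd (P : β → Prop) [Nonempty α] : dens (fun x : α × β => P x.2) = dens P := by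
  rw [dens_swap (fun (_ : α) (b : β) => P b)]
  exact dens_fst P

theorem dens_mul (A : α → Prop) (B : β → Prop) :
    dens (fun x : α × β => A x.1 ∧ B x.2) = dens A * dens B := by
  rw [dens_prod (fun a b => A a ∧ B b)]
  have h : ∀ a : α, dens (fun b : β => A a ∧ B b) = if A a then dens B else 0 := by
    intro a
    by_cases h : A a
    · rw [if_pos h]
      exact dens_congr (fun b => by simp [h])
    · rw [if_neg h, ← dens_false (α := β)]
      exact dens_congr (fun b => by simp [h])
  rw [Finset.sum_congr rfl (fun a _ => h a), ← Finset.sum_filter, Finset.sum_const, nsmul_eq_mul]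
  unfold dens
  ring

end general

section tuples

variable {k : ℕ} {V : Type} [Fintype V]

/-- the marginal of one coordinate -/
theorem dens_coord [Nonempty V] (l : Fin k) (P : V → Prop) :
    dens (fun a : Fin k → V => P (a l)) = dens P := by
  rw [← dens_update l (fun a : Fin k → V => P (a l))]
  have h : dens (fun x : (Fin k → V) × V => P (update x.1 l x.2 l)) =
      dens (fun x : (Fin k → V) × V => P x.2) := dens_congr (fun x => by rw [update_self])
  rw [h]
  exact dens_snd P

/-- resampling one coordinate of the first point -/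
theorem dens_pair (l : Fin k) (Q : (Fin k → V) → V → Prop) :
    dens (fun x : (Fin k → V) × V => Q x.1 x.2) =
      dens (fun x : (Fin k → V) × (V × V) => Q (update x.1 l x.2.1) x.2.2) := by
  have h1 : dens (fun x : (Fin k → V) × (V × V) => Q (update x.1 l x.2.1) x.2.2) =
      dens (fun x : V × ((Fin k → V) × V) => Q (update x.2.1 l x.2.2) x.1) := by
    let e : ((Fin k → V) × (V × V)) ≃ (V × ((Fin k → V) × V)) :=
      { toFun := fun x => (x.2.2, (x.1, x.2.1))
        invFun := fun x => (x.2.1, (x.2.2, x.1))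
        left_inv := fun x => rfl
        right_inv := fun x => rfl }
    exact dens_equiv e (fun x : V × ((Fin k → V) × V) => Q (update x.2.1 l x.2.2) x.1)
  rw [h1, dens_swap, dens_prod (fun (z : V) (a : Fin k → V) => Q a z),
    dens_prod (fun (z : V) (x : (Fin k → V) × V) => Q (update x.1 l x.2) z)]
  congr 1
  refine Finset.sum_congr rfl (fun z _ => ?_)
  exact (dens_update l (fun a => Q a z)).symm

/-- exceptional set -/
theorem dens_exc [Nonempty V] {φ X Ex : V → Prop} {κ : ℝ} (hE : dens Ex ≤ κ)
    (h : ∀ y z, (X y ↔ X z) → ¬ (φ y ↔ φ z) → Ex y ∨ Ex z) :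
    dens (fun x : V × V => (X x.1 ↔ X x.2) ∧ ¬ (φ x.1 ↔ φ x.2)) ≤ 2 * κ := by
  refine (dens_mono (Q := fun x : V × V => Ex x.1 ∨ Ex x.2)
    (fun x hx => h x.1 x.2 hx.1 hx.2)).trans ((dens_or_le _ _).trans ?_)
  rw [dens_fst, dens_snd]
  linarith

theorem dens_line [Nonempty V] {φ X : V → Prop} {κ : ℝ}
    (h : dens φ ≤ κ ∨ dens (fun z => ¬ φ z) ≤ κ ∨ pm κ φ X) :
    dens (fun x : V × V => (X x.1 ↔ X x.2) ∧ ¬ (φ x.1 ↔ φ x.2)) ≤ 2 * κ := by
  rcases h with h | h | h | h
  · exact dens_exc h (fun y z _ h2 => by tauto)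
  · exact dens_exc h (fun y z _ h2 => by
      show ¬ φ y ∨ ¬ φ z
      tauto)
  · exact dens_exc h (fun y z h1 h2 => by
      show ¬ (φ y ↔ X y) ∨ ¬ (φ z ↔ X z)
      tauto)
  · exact dens_exc h (fun y z h1 h2 => by
      show ¬ (φ y ↔ ¬ X y) ∨ ¬ (φ z ↔ ¬ X z)
      tauto)

/-- claim 1 -/
theorem claim1 [Nonempty V] {X : V → Prop} {D : Fin k → (Fin k → V) → Prop} {κ : ℝ}
    (hκ : 0 ≤ κ) (hI : Indep D) (hL : dens (fun a => ¬ LineDet κ X D a) ≤ κ) (i l : Fin k) :
    dens (fun x : (Fin k → V) × V =>
      (X (x.1 l) ↔ X x.2) ∧ ¬ (D i x.1 ↔ D i (update x.1 l x.2))) ≤ 3 * κ := by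
  by_cases hil : i = l
  · subst hil
    have h : dens (fun x : (Fin k → V) × V =>
        (X (x.1 i) ↔ X x.2) ∧ ¬ (D i x.1 ↔ D i (update x.1 i x.2))) = 0 := by
      rw [← dens_false (α := (Fin k → V) × V)]
      refine dens_congr (fun x => ?_)
      constructor
      · intro hx
        exact hx.2 (hI i x.1 x.2).symm
      · intro hx
        exact hx.elim
    rw [h]
    linarith
  · rw [dens_pair l (fun (a : Fin k → V) (z : V) =>
      (X (a l) ↔ X z) ∧ ¬ (D i a ↔ D i (update a l z)))]
    have h1 : dens (fun x : (Fin k → V) × (V × V) =>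
        (X (update x.1 l x.2.1 l) ↔ X x.2.2) ∧
          ¬ (D i (update x.1 l x.2.1) ↔ D i (update (update x.1 l x.2.1) l x.2.2))) ≤
        dens (fun x : (Fin k → V) × (V × V) => ¬ LineDet κ X D x.1) +
        dens (fun x : (Fin k → V) × (V × V) => LineDet κ X D x.1 ∧ ((X x.2.1 ↔ X x.2.2) ∧
          ¬ (D i (update x.1 l x.2.1) ↔ D i (update x.1 l x.2.2)))) := by
      refine (dens_mono (fun x hx => ?_)).trans (dens_or_le _ _)
      by_cases h : LineDet κ X D x.1
      · right
        rw [update_self, update_idem] at hx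
        exact ⟨h, hx⟩
      · exact Or.inl h
    refine h1.trans ?_
    have h2 : dens (fun x : (Fin k → V) × (V × V) => ¬ LineDet κ X D x.1) ≤ κ := by
      rw [dens_fst (β := V × V) (fun a : Fin k → V => ¬ LineDet κ X D a)]
      exact hL
    have h3 : dens (fun x : (Fin k → V) × (V × V) => LineDet κ X D x.1 ∧ ((X x.2.1 ↔ X x.2.2) ∧
          ¬ (D i (update x.1 l x.2.1) ↔ D i (update x.1 l x.2.2)))) ≤ 2 * κ := by
      refine dens_prod_le (Q := fun (a : Fin k → V) (y : V × V) => LineDet κ X D a ∧
        ((X y.1 ↔ X y.2) ∧ ¬ (D i (update a l y.1) ↔ D i (update a l y.2)))) (by linarith) ?_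
      intro a
      by_cases h : LineDet κ X D a
      · refine (dens_mono (fun y hy => hy.2)).trans ?_
        exact dens_line (φ := fun z => D i (update a l z)) (h i l hil)
      · refine (dens_mono (Q := fun _ => False) (fun y hy => h hy.1)).trans ?_
        rw [dens_false]
        linarith
    linarith

/-- the mixture of two points -/
def pw (M : Finset (Fin k)) (a a' : Fin k → V) : Fin k → V := fun x => if x ∈ M then a' x else a x

theorem pw_pw (M : Finset (Fin k)) (a a' : Fin k → V) : pw M (pw M a a') (pw M a' a) = a := by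
  funext x
  unfold pw
  by_cases h : x ∈ M <;> simp [h]

theorem pw_insert {M : Finset (Fin k)} {l : Fin k} (a a' : Fin k → V) :
    pw (insert l M) a a' = update (pw M a a') l (a' l) := by
  funext x
  unfold pw
  by_cases h : x = l
  · subst h
    simp
  · rw [update_of_ne h]
    simp [h]

theorem pw_apply {M : Finset (Fin k)} {l : Fin k} (hl : l ∉ M) (a a' : Fin k → V) :
    pw M a a' l = a l := by
  unfold pw
  simp [hl]

/-- claim 2 -/
theorem claim2 [Nonempty V] {X : V → Prop} {D : Fin k → (Fin k → V) → Prop} {κ : ℝ}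
    (hκ : 0 ≤ κ) (hI : Indep D) (hL : dens (fun a => ¬ LineDet κ X D a) ≤ κ) (i : Fin k)
    (M : Finset (Fin k)) :
    dens (fun x : (Fin k → V) × (Fin k → V) =>
      (∀ l ∈ M, (X (x.1 l) ↔ X (x.2 l))) ∧ ¬ (D i x.1 ↔ D i (pw M x.1 x.2))) ≤
      3 * κ * M.card := by
  induction M using Finset.induction_on with
  | empty =>
    have h : dens (fun x : (Fin k → V) × (Fin k → V) =>
        (∀ l ∈ (∅ : Finset (Fin k)), (X (x.1 l) ↔ X (x.2 l))) ∧
          ¬ (D i x.1 ↔ D i (pw ∅ x.1 x.2))) = 0 := by
      rw [← dens_false (α := (Fin k → V) × (Fin k → V))]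
      refine dens_congr (fun x => ?_)
      constructor
      · intro hx
        apply hx.2
        have : pw ∅ x.1 x.2 = x.1 := by
          funext y
          unfold pw
          simp
        rw [this]
      · intro hx
        exact hx.elim
    rw [h]
    simp
  | insert l M hl ih =>
    have h1 : dens (fun x : (Fin k → V) × (Fin k → V) =>
        (∀ l' ∈ insert l M, (X (x.1 l') ↔ X (x.2 l'))) ∧
          ¬ (D i x.1 ↔ D i (pw (insert l M) x.1 x.2))) ≤
        dens (fun x : (Fin k → V) × (Fin k → V) =>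
          (∀ l ∈ M, (X (x.1 l) ↔ X (x.2 l))) ∧ ¬ (D i x.1 ↔ D i (pw M x.1 x.2))) +
        dens (fun x : (Fin k → V) × (Fin k → V) =>
          (X (pw M x.1 x.2 l) ↔ X (x.2 l)) ∧
            ¬ (D i (pw M x.1 x.2) ↔ D i (update (pw M x.1 x.2) l (x.2 l)))) := by
      refine (dens_mono (fun x hx => ?_)).trans (dens_or_le _ _)
      by_cases h : D i x.1 ↔ D i (pw M x.1 x.2)
      · right
        refine ⟨?_, ?_⟩
        · rw [pw_apply hl]
          exact hx.1 l (Finset.mem_insert_self _ _)
        · have h2 := hx.2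
          rw [pw_insert] at h2
          intro h3
          exact h2 (h.trans h3)
      · left
        exact ⟨fun l' hl' => hx.1 l' (Finset.mem_insert_of_mem hl'), h⟩
    have h2 : dens (fun x : (Fin k → V) × (Fin k → V) =>
          (X (pw M x.1 x.2 l) ↔ X (x.2 l)) ∧
            ¬ (D i (pw M x.1 x.2) ↔ D i (update (pw M x.1 x.2) l (x.2 l)))) =
        dens (fun x : (Fin k → V) × (Fin k → V) =>
          (X (x.1 l) ↔ X (x.2 l)) ∧ ¬ (D i x.1 ↔ D i (update x.1 l (x.2 l)))) := by
      let e : ((Fin k → V) × (Fin k → V)) ≃ ((Fin k → V) × (Fin k → V)) :=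
        { toFun := fun x => (pw M x.1 x.2, pw M x.2 x.1)
          invFun := fun x => (pw M x.1 x.2, pw M x.2 x.1)
          left_inv := fun x => Prod.ext (pw_pw M x.1 x.2) (pw_pw M x.2 x.1)
          right_inv := fun x => Prod.ext (pw_pw M x.1 x.2) (pw_pw M x.2 x.1) }
      have h3 := dens_equiv e (fun x : (Fin k → V) × (Fin k → V) =>
          (X (x.1 l) ↔ X (x.2 l)) ∧ ¬ (D i x.1 ↔ D i (update x.1 l (x.2 l))))
      rw [← h3]
      refine dens_congr (fun x => ?_)
      show _ ↔ (X (pw M x.1 x.2 l) ↔ X (pw M x.2 x.1 l)) ∧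
        ¬ (D i (pw M x.1 x.2) ↔ D i (update (pw M x.1 x.2) l (pw M x.2 x.1 l)))
      rw [pw_apply hl x.2 x.1]
    have h3 : dens (fun x : (Fin k → V) × (Fin k → V) =>
          (X (x.1 l) ↔ X (x.2 l)) ∧ ¬ (D i x.1 ↔ D i (update x.1 l (x.2 l)))) =
        dens (fun x : (Fin k → V) × V =>
          (X (x.1 l) ↔ X x.2) ∧ ¬ (D i x.1 ↔ D i (update x.1 l x.2))) := by
      rw [dens_prod (fun (a a' : Fin k → V) =>
          (X (a l) ↔ X (a' l)) ∧ ¬ (D i a ↔ D i (update a l (a' l)))),
        dens_prod (fun (a : Fin k → V) (z : V) =>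
          (X (a l) ↔ X z) ∧ ¬ (D i a ↔ D i (update a l z)))]
      congr 1
      refine Finset.sum_congr rfl (fun a _ => ?_)
      exact dens_coord l (fun z => (X (a l) ↔ X z) ∧ ¬ (D i a ↔ D i (update a l z)))
    have h4 := claim1 hκ hI hL i l
    rw [h2, h3] at h1
    refine h1.trans ?_
    rw [Finset.card_insert_of_notMem hl]
    push_cast
    linarith

end tuples

/-- row B_RES -/
theorem res_row : ResStmt := by
  intro k V _ _ X D κ ν hκ hν h3 hI hL i W
  by_contra hno
  rw [not_or, not_le, not_le] at hno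
  obtain ⟨h1, h2⟩ := hno
  have h4 := claim2 hκ hI hL i Finset.univ
  have h5 : dens (fun a => D i a ∧ wd X W a) * dens (fun a => ¬ D i a ∧ wd X W a) ≤
      3 * κ * k := by
    rw [← dens_mul]
    refine (dens_mono (fun x hx => ?_)).trans (h4.trans (le_of_eq ?_))
    · refine ⟨fun l _ => (hx.1.2 l).trans (hx.2.2 l).symm, ?_⟩
      have h6 : pw Finset.univ x.1 x.2 = x.2 := by
        funext y
        unfold pw
        simp
      rw [h6]
      intro h7
      exact hx.2.1 (h7.1 hx.1.1)
    · rw [Finset.card_univ, Fintype.card_fin]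
  have h6 : ν * ν < dens (fun a => D i a ∧ wd X W a) * dens (fun a => ¬ D i a ∧ wd X W a) :=
    mul_lt_mul'' h1 h2 hν hν
  nlinarith

end Pool.Agent.KK.B.H39
end

/-! ### Helper3_KK.NTR -/
section
/-! MP_747bc0_co, squad KK, row B_NTR: no typical split plane means trivial. -/

namespace Pool.Agent.KK.B.H3

open Function
open scoped Classical

theorem ntr (hPlt : PltStmt) (hRes : ResStmt) : NtrStmt := by
  intro k V _ _ E D β δ κ ν i0 i1 hβ0 hβ16 hβκ hκν hν0 hν8 hE hDeg hInd hne hlev hSS
  have hκ0 : 0 ≤ κ := hβ0.le.trans hβκ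
  have hk1 : (1 : ℝ) ≤ k := by
    have : 0 < k := lt_of_le_of_lt (Nat.zero_le _) i0.2
    exact_mod_cast this
  have hκ3 : 3 * κ ≤ ν ^ 2 := by
    refine le_trans ?_ hκν
    nlinarith
  -- (1) planes are not split
  have key : ∀ a, lev δ (G0 E D β) k a → ∀ i l : Fin k, i ≠ l →
      (dens (fun p => D i (update a l p)) ≤ β ∧ dens (fun q => D l (update a i q)) ≤ β) ∨
      (dens (fun p => ¬ D i (update a l p)) ≤ β ∧ dens (fun q => ¬ D l (update a i q)) ≤ β) := by
    intro a ha i l hil
    have hG : G0 E D β a := lev_le (Nat.zero_le k) ha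
    have hns : ¬ Sp D a i l := by
      obtain ⟨σ, h1, h2⟩ := exists_perm hil hne
      intro hSp
      refine hSS (a ∘ σ.symm) ((lev_perm (G0_perm E D β) k σ.symm a).2 ha) ⟨σ, ?_⟩
      have h3 : (a ∘ σ.symm) ∘ σ = a := by
        funext x
        simp
      rw [h3, ← h1, ← h2, Equiv.symm_apply_apply, Equiv.symm_apply_apply]
      exact hSp
    rcases hPlt k V E D β a i l hβ0 hβ16 hE hDeg hil (G0_self hG hil).2.1 with h | h | h
    · exact Or.inl h
    · exact Or.inr h
    · exact absurd h.1 hns
  -- (2) every `D i` is nearly constant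
  have hW : WDet ν (fun _ : V => True) D := by
    refine hRes k V (fun _ => True) D κ ν hκ0 hν0.le hκν hInd ?_
    refine (dens_mono fun a ha => ?_).trans hlev
    intro hl
    refine ha fun i l hil => ?_
    rcases key a hl i l hil with h | h
    · exact Or.inl (h.1.trans hβκ)
    · exact Or.inr (Or.inl (h.1.trans hβκ))
  have hone : ∀ i, dens (D i) ≤ ν ∨ dens (fun a => ¬ D i a) ≤ ν := by
    intro i
    have hwd : ∀ a : Fin k → V, wd (fun _ : V => True) (fun _ => true) a := by
      intro a l
      simp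
    rcases hW i (fun _ => true) with h | h
    · left
      exact (dens_mono fun a ha => ⟨ha, hwd a⟩).trans h
    · right
      exact (dens_mono fun a ha => ⟨ha, hwd a⟩).trans h
  -- (3) the constants agree
  have hagree : ∀ i l : Fin k, i ≠ l → dens (D i) ≤ ν → dens (fun a => ¬ D l a) ≤ ν → False := by
    intro i l hil h1 h2
    have m1 := markov (fun (a : Fin k → V) (p : V) => D i (update a l p)) (1 / 2)
    have e1 := dens_update l (D i)
    have m2 := markov (fun (a : Fin k → V) (q : V) => ¬ D l (update a i q)) (1 / 2)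
    have e2 := dens_update i (fun a => ¬ D l a)
    have b1 : dens (fun a : Fin k → V => 1 / 2 < dens (fun p => D i (update a l p))) ≤ 2 * ν := by
      have : dens (fun x : (Fin k → V) × V => D i (update x.1 l x.2)) ≤ ν := e1.le.trans h1
      linarith
    have b2 : dens (fun a : Fin k → V => 1 / 2 < dens (fun q => ¬ D l (update a i q))) ≤
        2 * ν := by
      have : dens (fun x : (Fin k → V) × V => ¬ D l (update x.1 i x.2)) ≤ ν := e2.le.trans h2
      linarith
    have b3 : dens (fun a : Fin k → V => ¬ lev δ (G0 E D β) k a ∨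
        (1 / 2 < dens (fun p => D i (update a l p)) ∨
          1 / 2 < dens (fun q => ¬ D l (update a i q)))) ≤ κ + (2 * ν + 2 * ν) :=
      (dens_or_le _ _).trans (add_le_add hlev ((dens_or_le _ _).trans (add_le_add b1 b2)))
    have b4 : κ + (2 * ν + 2 * ν) < 1 := by nlinarith
    have b5 : 0 < dens (fun a : Fin k → V => ¬ (¬ lev δ (G0 E D β) k a ∨
        (1 / 2 < dens (fun p => D i (update a l p)) ∨
          1 / 2 < dens (fun q => ¬ D l (update a i q))))) := by
      rw [dens_not]
      linarith
    obtain ⟨a, ha⟩ := exists_of_dens_pos b5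
    have ha1 : lev δ (G0 E D β) k a := by
      by_contra hh
      exact ha (Or.inl hh)
    have ha2 : dens (fun p => D i (update a l p)) ≤ 1 / 2 := by
      by_contra hh
      exact ha (Or.inr (Or.inl (not_le.1 hh)))
    have ha3 : dens (fun q => ¬ D l (update a i q)) ≤ 1 / 2 := by
      by_contra hh
      exact ha (Or.inr (Or.inr (not_le.1 hh)))
    rcases key a ha1 i l hil with h | h
    · have h3 := h.2
      rw [dens_not] at ha3
      linarith
    · have h3 := h.1
      rw [dens_not] at h3
      linarith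
  rcases hone i0 with h | h
  · left
    intro l
    by_cases hl : l = i0
    · rw [hl]
      exact h
    · rcases hone l with h1 | h1
      · exact h1
      · exact (hagree i0 l (Ne.symm hl) h h1).elim
  · right
    intro l
    by_cases hl : l = i0
    · rw [hl]
      exact h
    · rcases hone l with h1 | h1
      · exact (hagree l i0 hl h1 h).elim
      · exact h1

end Pool.Agent.KK.B.H3
end

/-! ### Helper40_KK.MixA -/
section
/-!
# Squad KK, block E, row MIX, part A: letters, windows, fixed positions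
-/

set_option autoImplicit false

namespace Pool.Agent.KK.E.H40

open Pool.Agent.KK Pool.Agent.KK.E

/-- letters of the crossing -/
def ltr (p q i : ℕ) : Bool :=
  decide ((q ≤ i ∧ i < p + q) ∨ (p + 2 * q + 2 ≤ i ∧ i ≤ 2 * p + 2 * q + 3) ∨
    (2 * p + 3 * q + 4 ≤ i ∧ i < 3 * p + 3 * q + 4))

lemma word_getD (p q i : ℕ) : (word p q).getD i false = ltr p q i := by
  unfold word low high ltr
  simp only [List.getD_eq_getElem?_getD, List.getElem?_append, List.length_append,
    List.length_replicate, List.length_cons, List.length_nil, List.getElem?_replicate,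
    List.getElem?_cons]
  split_ifs <;> simp <;> omega

lemma low_length (p q : ℕ) : (low p q).length = p + q + 1 := by
  unfold low; simp; omega

lemma high_length (p q : ℕ) : (high p q).length = p + q + 1 := by
  unfold high; simp; omega

lemma low_get (p q : ℕ) (i : Fin (low p q).length) : (low p q).get i = ltr p q i := by
  have h1 := word_getD p q i
  have hi := i.2
  rw [← h1]
  unfold word
  rw [List.append_assoc, List.getD_append _ _ _ _ hi, List.getD_eq_getElem _ _ hi]
  rfl

lemma high_get (p q : ℕ) (i : Fin (high p q).length) :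
    (high p q).get i = ltr p q (2 * p + 2 * q + 3 + i) := by
  have h1 := word_getD p q (2 * p + 2 * q + 3 + i)
  have hi := i.2
  have hl := low_length p q
  rw [← h1]
  unfold word
  have h2 : (low p q ++ (List.replicate (q + 1) false ++ List.replicate (p + 1) true)).length =
      2 * p + 2 * q + 3 := by
    rw [List.length_append, hl]; simp; omega
  rw [List.getD_append_right _ _ _ _ (by omega), h2]
  have h3 : 2 * p + 2 * q + 3 + (i : ℕ) - (2 * p + 2 * q + 3) = i := by omega
  rw [h3, List.getD_eq_getElem _ _ hi]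
  rfl

/-- the window starting at `a` -/
def win (p q a : ℕ) : Finset (Fin (3 * (p + q + 2) - 2)) :=
  Finset.univ.filter fun i => a ≤ (i : ℕ) ∧ (i : ℕ) < a + (p + q + 2)

lemma mem_win {p q a : ℕ} {i : Fin (3 * (p + q + 2) - 2)} :
    i ∈ win p q a ↔ a ≤ (i : ℕ) ∧ (i : ℕ) < a + (p + q + 2) := by
  simp [win]

lemma card_win {p q a : ℕ} (ha : a + (p + q + 2) ≤ 3 * (p + q + 2) - 2) :
    (win p q a).card = p + q + 2 := by
  have h1 : (win p q a).card = (Finset.range (p + q + 2)).card := by
    symm
    refine Finset.card_bij (fun i hi => ⟨a + i, by rw [Finset.mem_range] at hi; omega⟩) ?_ ?_ ?_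
    · intro i hi
      rw [Finset.mem_range] at hi
      rw [mem_win]
      exact ⟨by simp, by simp only; omega⟩
    · intro i hi j hj hij
      have := congrArg Fin.val hij
      simp only at this
      omega
    · intro j hj
      rw [mem_win] at hj
      exact ⟨j - a, by rw [Finset.mem_range]; omega, by apply Fin.ext; simp only; omega⟩
  rw [h1, Finset.card_range]

/-- number of the letters `X` in the window -/
lemma card_true (h18 : StmtE18) {p q a : ℕ} (ha : a + (p + q + 2) ≤ 3 * (p + q + 2) - 2) :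
    ((win p q a).filter fun i : Fin (3 * (p + q + 2) - 2) => ltr p q (i : ℕ) = true).card =
      (if a < p + q + 1 then p else if a = p + q + 1 then p + 1 else p + 2) := by
  rw [← (h18 p q a ha).2]
  symm
  refine Finset.card_bij (fun i hi => ⟨a + i, by
    rw [Finset.mem_filter, Finset.mem_range] at hi; omega⟩) ?_ ?_ ?_
  · intro i hi
    rw [Finset.mem_filter, Finset.mem_range, word_getD] at hi
    rw [Finset.mem_filter, mem_win]
    exact ⟨⟨by simp, by simp only; omega⟩, hi.2⟩
  · intro i hi j hj hij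
    have := congrArg Fin.val hij
    simp only at this
    omega
  · intro j hj
    rw [Finset.mem_filter, mem_win] at hj
    have h1 : a + ((j : ℕ) - a) = j := by omega
    refine ⟨j - a, ?_, by apply Fin.ext; simp only; omega⟩
    rw [Finset.mem_filter, Finset.mem_range, word_getD, h1]
    exact ⟨by omega, hj.2⟩

variable {V : Type} [Fintype V] [DecidableEq V]

/-- positions of the elements of `M` -/
structure Fx (p q : ℕ) (M : Finset V) (o : Fin (3 * (p + q + 2) - 2) → Option V) : Prop where
  none : ∀ i : Fin (3 * (p + q + 2) - 2), o i = none ↔ ¬ (2 * p + 2 * q + 3 ≤ (i : ℕ) + M.card ∧ (i : ℕ) < 2 * p + 2 * q + 3)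
  inj : ∀ i i' v, o i = some v → o i' = some v → i = i'
  mem : ∀ v, v ∈ M ↔ ∃ i, o i = some v

omit [Fintype V] [DecidableEq V] in
lemma exists_Fx (p q : ℕ) (M : Finset V) (hM : M.card ≤ p + 1) : ∃ o, Fx p q M o := by
  classical
  let e := M.equivFin.symm
  let o : Fin (3 * (p + q + 2) - 2) → Option V := fun i =>
    if h : 2 * p + 2 * q + 3 ≤ (i : ℕ) + M.card ∧ (i : ℕ) < 2 * p + 2 * q + 3 then
      some (e ⟨(i : ℕ) + M.card - (2 * p + 2 * q + 3), by omega⟩ : V) else none
  have ho : ∀ i : Fin (3 * (p + q + 2) - 2), (h : 2 * p + 2 * q + 3 ≤ (i : ℕ) + M.card ∧ (i : ℕ) < 2 * p + 2 * q + 3) →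
      o i = some (e ⟨(i : ℕ) + M.card - (2 * p + 2 * q + 3), by omega⟩ : V) := fun i h => by
    simp only [o]; rw [dif_pos h]
  have ho' : ∀ i : Fin (3 * (p + q + 2) - 2), ¬ (2 * p + 2 * q + 3 ≤ (i : ℕ) + M.card ∧ (i : ℕ) < 2 * p + 2 * q + 3) →
      o i = none := fun i h => by
    simp only [o]; rw [dif_neg h]
  refine ⟨o, ?_, ?_, ?_⟩
  · intro i
    constructor
    · intro h h'
      rw [ho i h'] at h
      exact Option.some_ne_none _ h
    · exact ho' i
  · intro i i' v h h'
    have h1 : 2 * p + 2 * q + 3 ≤ (i : ℕ) + M.card ∧ (i : ℕ) < 2 * p + 2 * q + 3 := by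
      by_contra hcon
      rw [ho' i hcon] at h
      exact Option.some_ne_none _ h.symm
    have h2 : 2 * p + 2 * q + 3 ≤ (i' : ℕ) + M.card ∧ (i' : ℕ) < 2 * p + 2 * q + 3 := by
      by_contra hcon
      rw [ho' i' hcon] at h'
      exact Option.some_ne_none _ h'.symm
    rw [ho i h1] at h
    rw [ho i' h2] at h'
    have h3 := h.trans h'.symm
    rw [Option.some_inj] at h3
    have h4 := e.injective (Subtype.ext h3)
    have h5 := congrArg Fin.val h4
    simp only at h5
    apply Fin.ext
    omega
  · intro v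
    constructor
    · intro hv
      obtain ⟨j, hj⟩ := e.surjective ⟨v, hv⟩
      have hjlt := j.2
      have h1 : 2 * p + 2 * q + 3 - M.card + (j : ℕ) < 3 * (p + q + 2) - 2 := by omega
      refine ⟨⟨2 * p + 2 * q + 3 - M.card + (j : ℕ), h1⟩, ?_⟩
      rw [ho _ ⟨by show 2 * p + 2 * q + 3 ≤ 2 * p + 2 * q + 3 - M.card + (j : ℕ) + M.card; omega,
        by show 2 * p + 2 * q + 3 - M.card + (j : ℕ) < 2 * p + 2 * q + 3; omega⟩]
      have h2 : (⟨(((⟨2 * p + 2 * q + 3 - M.card + (j : ℕ), h1⟩ : Fin (3 * (p + q + 2) - 2)) : ℕ)) +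
          M.card - (2 * p + 2 * q + 3), by simp only; omega⟩ : Fin M.card) = j := by
        apply Fin.ext
        simp only
        omega
      rw [h2, hj]
    · rintro ⟨i, hi⟩
      by_cases h : 2 * p + 2 * q + 3 ≤ (i : ℕ) + M.card ∧ (i : ℕ) < 2 * p + 2 * q + 3
      · rw [ho i h, Option.some_inj] at hi
        rw [← hi]
        exact (e _).2
      · rw [ho' i h] at hi
        exact absurd hi.symm (Option.some_ne_none _)

end Pool.Agent.KK.E.H40
end

/-! ### Helper40_KK.MixB -/
section
/-!
# Squad KK, block E, row MIX, part B: ordinary windows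
-/

set_option autoImplicit false

namespace Pool.Agent.KK.E.H40

open Pool.Agent.KK Pool.Agent.KK.E

variable {V : Type} [Fintype V] [DecidableEq V]

/-- the fixed vertices in the window -/
def fixW (p q a : ℕ) (M : Finset V) (o : Fin (3 * (p + q + 2) - 2) → Option V) : Finset V :=
  M.filter fun v => ∃ i ∈ win p q a, o i = some v

omit [Fintype V] in
lemma mem_fixW {p q a : ℕ} {M : Finset V} {o : Fin (3 * (p + q + 2) - 2) → Option V}
    (h : Fx p q M o) (v : V) : v ∈ fixW p q a M o ↔ ∃ i ∈ win p q a, o i = some v := by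
  unfold fixW
  rw [Finset.mem_filter]
  constructor
  · exact fun h' => h'.2
  · intro h'
    refine ⟨?_, h'⟩
    obtain ⟨i, _, hi⟩ := h'
    exact (h.mem v).mpr ⟨i, hi⟩

omit [Fintype V] in
lemma card_fixW {p q a : ℕ} {M : Finset V} {o : Fin (3 * (p + q + 2) - 2) → Option V}
    (h : Fx p q M o) :
    (fixW p q a M o).card = ((win p q a).filter fun i => o i ≠ none).card := by
  symm
  refine Finset.card_bij (fun i hi => (o i).get
    (Option.isSome_iff_ne_none.mpr (Finset.mem_filter.mp hi).2)) ?_ ?_ ?_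
  · intro i hi
    rw [mem_fixW h]
    exact ⟨i, (Finset.mem_filter.mp hi).1, (Option.some_get _).symm⟩
  · intro i hi j hj hij
    refine h.inj i j _ (Option.some_get
      (Option.isSome_iff_ne_none.mpr (Finset.mem_filter.mp hi).2)).symm ?_
    rw [hij]
    exact (Option.some_get _).symm
  · intro v hv
    rw [mem_fixW h] at hv
    obtain ⟨i, hi, hi'⟩ := hv
    have h1 : i ∈ (win p q a).filter fun i => o i ≠ none := by
      rw [Finset.mem_filter, hi']
      exact ⟨hi, Option.some_ne_none _⟩
    refine ⟨i, h1, ?_⟩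
    apply Option.some_injective
    rw [Option.some_get]
    exact hi'

omit [Fintype V] [DecidableEq V] in
lemma fixed_letter {p q : ℕ} {M : Finset V} {o : Fin (3 * (p + q + 2) - 2) → Option V}
    (h : Fx p q M o) (hM : M.card ≤ p + 1) {i : Fin (3 * (p + q + 2) - 2)} (hi : o i ≠ none) :
    ltr p q (i : ℕ) = true := by
  have h1 : 2 * p + 2 * q + 3 ≤ (i : ℕ) + M.card ∧ (i : ℕ) < 2 * p + 2 * q + 3 := by
    by_contra hcon
    exact hi ((h.none i).mpr hcon)
  unfold ltr
  rw [decide_eq_true_iff]
  omega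

omit [Fintype V] in
lemma fix_counts {p q a c : ℕ} {M : Finset V} {o : Fin (3 * (p + q + 2) - 2) → Option V}
    (h : Fx p q M o) (hM : M.card ≤ p + 1) (ha : a + (p + q + 2) ≤ 3 * (p + q + 2) - 2)
    (hc : ((win p q a).filter fun i : Fin (3 * (p + q + 2) - 2) =>
      ltr p q (i : ℕ) = true).card = c) :
    (fixW p q a M o).card ≤ c ∧
    ((win p q a).filter fun i => o i = none ∧ ltr p q (i : ℕ) = true).card =
      c - (fixW p q a M o).card ∧
    ((win p q a).filter fun i => o i = none ∧ ltr p q (i : ℕ) = false).card =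
      (p + q + 2) - c := by
  have hsub : ((win p q a).filter fun i => o i ≠ none) ⊆
      ((win p q a).filter fun i : Fin (3 * (p + q + 2) - 2) => ltr p q (i : ℕ) = true) := by
    intro i hi
    rw [Finset.mem_filter] at hi ⊢
    exact ⟨hi.1, fixed_letter h hM hi.2⟩
  have hcard := card_fixW (a := a) h
  refine ⟨?_, ?_, ?_⟩
  · rw [hcard, ← hc]
    exact Finset.card_le_card hsub
  · rw [hcard, ← hc, ← Finset.card_sdiff_of_subset hsub]
    congr 1
    ext i
    simp only [Finset.mem_filter, Finset.mem_sdiff, not_and, not_not]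
    tauto
  · have h9 : (p + q + 2) - c = (win p q a).card - ((win p q a).filter
        fun i : Fin (3 * (p + q + 2) - 2) => ltr p q (i : ℕ) = true).card := by
      rw [card_win ha, hc]
    refine Eq.trans ?_ h9.symm
    rw [← Finset.card_sdiff_of_subset (Finset.filter_subset _ _)]
    congr 1
    ext i
    simp only [Finset.mem_filter, Finset.mem_sdiff, not_and, Bool.not_eq_true]
    constructor
    · rintro ⟨h1, h2, h3⟩
      exact ⟨h1, fun _ => h3⟩
    · rintro ⟨h1, h2⟩
      have h3 := h2 h1
      refine ⟨h1, ?_, h3⟩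
      by_contra hcon
      rw [fixed_letter h hM hcon] at h3
      exact Bool.noConfusion h3

/-- `η` is increasing -/
lemma eta_mono {k B : ℕ} {η θ : ℕ → ℝ} {h δ : ℝ} (hC : Cst k B η θ h δ) (hk : 1 ≤ k) {i j : ℕ}
    (hij : i ≤ j) (hj : j ≤ k) : η i ≤ η j := by
  induction j with
  | zero =>
    have : i = 0 := by omega
    rw [this]
  | succ j ih =>
    rcases Nat.lt_or_ge i (j + 1) with h1 | h1
    · refine (ih (by omega) (by omega)).trans ?_
      have h2 := hC.step j (by omega)
      have h3 := hC.pos j (by omega)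
      refine le_trans ?_ h2
      have h4 : (1 : ℝ) ≤ 8 * (k : ℝ) * 4 ^ k * ((B : ℝ) + 1) := by
        have h5 : (1 : ℝ) ≤ (k : ℝ) := by exact_mod_cast hk
        have h6 : (1 : ℝ) ≤ 4 ^ k := one_le_pow₀ (by norm_num)
        have h7 : (1 : ℝ) ≤ (B : ℝ) + 1 := by
          have : (0 : ℝ) ≤ B := Nat.cast_nonneg B
          linarith
        have h8 : (1 : ℝ) ≤ 8 * (k : ℝ) := by linarith
        have h9 : (1 : ℝ) ≤ 8 * (k : ℝ) * 4 ^ k := one_le_mul_of_one_le_of_one_le h8 h6
        exact one_le_mul_of_one_le_of_one_le h9 h7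
      nlinarith
    · have : i = j + 1 := by omega
      rw [this]

/-- **Ordinary windows.** -/
theorem ordinary (h05 : StmtE05) (h17 : StmtE17) (h18 : StmtE18) {H : Finset (Finset V)}
    {X M : Finset V} {p q B : ℕ} {δ h : ℝ} {η θ : ℕ → ℝ} (hA : Amb H X p q B δ)
    (hC : Cst (p + q + 2) B η θ h δ) (hMst : Mst H X p q η M) (hne : M.Nonempty) (hMX : M ⊆ X)
    (hMp : M.card ≤ p + 1) (hX : X.Nonempty) (hX' : (Xᶜ).Nonempty)
    {o : Fin (3 * (p + q + 2) - 2) → Option V} (hF : Fx p q M o) {a : ℕ}
    (ha : a + (p + q + 2) ≤ 3 * (p + q + 2) - 2)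
    (hord : a < p + q + 1 ∨ 2 * p + 2 * q + 3 < a + M.card) :
    1 - 3 * δ - η (M.card - 1) ≤
      dens (bx X (fun i : Fin (3 * (p + q + 2) - 2) => ltr p q (i : ℕ)) o)
        (fun f => (win p q a).image f ∈ H) := by
  have hMpos : 1 ≤ M.card := Finset.card_pos.mpr hne
  set M' := fixW p q a M o with hM'
  have hsub : M' ⊆ M := Finset.filter_subset _ _
  -- a fixed position outside the window
  have hout : ∃ i : Fin (3 * (p + q + 2) - 2), i ∉ win p q a ∧ o i ≠ none := by
    rcases hord with h1 | h1
    · refine ⟨⟨2 * p + 2 * q + 2, by omega⟩, ?_, ?_⟩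
      · rw [mem_win]
        show ¬ (a ≤ 2 * p + 2 * q + 2 ∧ 2 * p + 2 * q + 2 < a + (p + q + 2))
        omega
      · intro hcon
        refine (hF.none _).mp hcon ?_
        show 2 * p + 2 * q + 3 ≤ 2 * p + 2 * q + 2 + M.card ∧ 2 * p + 2 * q + 2 < 2 * p + 2 * q + 3
        omega
    · refine ⟨⟨2 * p + 2 * q + 3 - M.card, by omega⟩, ?_, ?_⟩
      · rw [mem_win]
        show ¬ (a ≤ 2 * p + 2 * q + 3 - M.card ∧ 2 * p + 2 * q + 3 - M.card < a + (p + q + 2))
        omega
      · intro hcon
        refine (hF.none _).mp hcon ?_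
        show 2 * p + 2 * q + 3 ≤ 2 * p + 2 * q + 3 - M.card + M.card ∧
          2 * p + 2 * q + 3 - M.card < 2 * p + 2 * q + 3
        omega
  have hss : M' ⊂ M := by
    refine Finset.ssubset_iff_subset_ne.mpr ⟨hsub, fun heq => ?_⟩
    obtain ⟨i, hi, hi'⟩ := hout
    obtain ⟨v, hv⟩ := Option.ne_none_iff_exists'.mp hi'
    have h1 : v ∈ M := (hF.mem v).mpr ⟨i, hv⟩
    rw [← heq, hM', mem_fixW hF] at h1
    obtain ⟨j, hj, hj'⟩ := h1
    rw [hF.inj i j v hv hj'] at hi
    exact hi hj
  have hnon : ¬ Non H X p q η M' := hMst.2 M' hss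
  have hcard : M'.card ≤ M.card - 1 := by
    have := Finset.card_lt_card hss
    omega
  have hMX' : M' ⊆ X := hsub.trans hMX
  have hin : M' ∩ X = M' := Finset.inter_eq_left.mpr hMX'
  have hsd : M' \ X = ∅ := Finset.sdiff_eq_empty_iff_subset.mpr hMX'
  have h17' := h17 V H X M' p q B δ η hA hnon (by rw [hin]; omega) (by rw [hsd]; simp)
  rw [hin, hsd, Finset.card_empty] at h17'
  have hη : η M'.card ≤ η (M.card - 1) := eta_mono hC (by omega) hcard (by omega)
  have h05' := fun b c hb hc => h05 V (Fin (3 * (p + q + 2) - 2)) H X M'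
    (fun i : Fin (3 * (p + q + 2) - 2) => ltr p q (i : ℕ)) o (win p q a) b c hX hX'
    (fun v => mem_fixW hF v) hb hc
  rcases hord with h1 | h1
  · have hc := card_true h18 ha
    rw [if_pos h1] at hc
    obtain ⟨c1, c2, c3⟩ := fix_counts hF hMp ha hc
    rw [h05' _ _ c2 c3]
    have h2 := h17'.2 c1
    have h3 : p + q + 2 - p = q + 2 - 0 := by omega
    rw [h3]
    exact le_trans (by linarith) h2
  · have hc := card_true h18 ha
    rw [if_neg (by omega), if_neg (by omega)] at hc
    obtain ⟨c1, c2, c3⟩ := fix_counts hF hMp ha hc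
    rw [h05' _ _ c2 c3]
    have h2 := h17'.1 (by omega)
    have h3 : p + q + 2 - (p + 2) = q - 0 := by omega
    rw [h3]
    exact le_trans (by linarith) h2

end Pool.Agent.KK.E.H40
end

/-! ### Helper40_KK.MixC -/
section
/-!
# Squad KK, block E, row MIX, part C: the windows containing all of `M`
-/

set_option autoImplicit false

namespace Pool.Agent.KK.E.H40

open Pool.Agent.KK Pool.Agent.KK.E

variable {V : Type} [Fintype V] [DecidableEq V]

/-- rank of a coordinate of `Q`: the letters `Y` come first -/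
def rk {a q : ℕ} : Fin a ⊕ Fin q → ℕ := Sum.elim (fun t => q + (t : ℕ)) (fun t => (t : ℕ))

lemma rk_lt {a q : ℕ} (t : Fin a ⊕ Fin q) : rk t < q + a := by
  rcases t with t | t
  · have := t.2; simp only [rk, Sum.elim_inl]; omega
  · have := t.2; simp only [rk, Sum.elim_inr]; omega

lemma rk_inj {a q : ℕ} {t t' : Fin a ⊕ Fin q} (h : rk t = rk t') : t = t' := by
  rcases t with t | t <;> rcases t' with t' | t' <;>
    simp only [rk, Sum.elim_inl, Sum.elim_inr] at h
  · exact congrArg Sum.inl (Fin.ext (by omega))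
  · have := t'.2; omega
  · have := t.2; omega
  · exact congrArg Sum.inr (Fin.ext h)

lemma rk_surj {a q j : ℕ} (hj : j < q + a) : ∃ t : Fin a ⊕ Fin q, rk t = j := by
  by_cases h : j < q
  · exact ⟨Sum.inr ⟨j, h⟩, rfl⟩
  · refine ⟨Sum.inl ⟨j - q, by omega⟩, ?_⟩
    show q + (j - q) = j
    omega

/-- the placement of the used coordinates -/
def plc (p q a : ℕ) (ha : a ≤ p) : ((Fin a ⊕ Fin q) × Bool) ⊕ Bool → Fin (3 * (p + q + 2) - 2)
  | Sum.inl (t, c) => ⟨(if c then 2 * (p + q + 2) else p + q + 2) + rk t, by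
      have := rk_lt t; split_ifs <;> omega⟩
  | Sum.inr c => ⟨if c then 2 * p + 2 * q + 3 else p + q + 1, by split_ifs <;> omega⟩

lemma plc_inl {p q a : ℕ} (ha : a ≤ p) (t : Fin a ⊕ Fin q) (c : Bool) :
    ((plc p q a ha (Sum.inl (t, c))) : ℕ) =
      (if c then 2 * (p + q + 2) else p + q + 2) + rk t := rfl

lemma plc_inr {p q a : ℕ} (ha : a ≤ p) (c : Bool) :
    ((plc p q a ha (Sum.inr c)) : ℕ) = if c then 2 * p + 2 * q + 3 else p + q + 1 := rfl

lemma plc_injective {p q a : ℕ} (ha : a ≤ p) : Function.Injective (plc p q a ha) := by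
  intro x y hxy
  have h := congrArg Fin.val hxy
  rcases x with ⟨t, c⟩ | c <;> rcases y with ⟨t', c'⟩ | c'
  · rw [plc_inl, plc_inl] at h
    have h1 := rk_lt t
    have h2 := rk_lt t'
    have h3 : c = c' := by
      rcases c with _ | _ <;> rcases c' with _ | _
      · rfl
      · simp only [if_true, if_false, Bool.false_eq_true] at h; omega
      · simp only [if_true, if_false, Bool.false_eq_true] at h; omega
      · rfl
    subst h3
    rw [rk_inj (Nat.add_left_cancel h)]
  · rw [plc_inl, plc_inr] at h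
    have h1 := rk_lt t
    exfalso
    rcases c with _ | _ <;> rcases c' with _ | _ <;>
      simp only [if_true, if_false, Bool.false_eq_true] at h <;> omega
  · rw [plc_inl, plc_inr] at h
    have h1 := rk_lt t'
    exfalso
    rcases c with _ | _ <;> rcases c' with _ | _ <;>
      simp only [if_true, if_false, Bool.false_eq_true] at h <;> omega
  · rw [plc_inr, plc_inr] at h
    rcases c with _ | _ <;> rcases c' with _ | _
    · rfl
    · simp only [if_true, if_false, Bool.false_eq_true] at h; omega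
    · simp only [if_true, if_false, Bool.false_eq_true] at h; omega
    · rfl

/-- the event on the used coordinates -/
def PE (H : Finset (Finset V)) (M : Finset V) {a q : ℕ}
    (g : ((Fin a ⊕ Fin q) × Bool) ⊕ Bool → V) : Prop :=
  ∀ s : Fin a ⊕ Fin q → Bool,
    insert (g (Sum.inr true)) (M ∪ Finset.univ.image fun i => g (Sum.inl (i, s i))) ∈ H ∧
    insert (g (Sum.inr false)) (M ∪ Finset.univ.image fun i => g (Sum.inl (i, s i))) ∈ H

/-- **Windows containing all of `M`.** -/
theorem full_windows {H : Finset (Finset V)} {X M : Finset V} {p q : ℕ}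
    {o : Fin (3 * (p + q + 2) - 2) → Option V} (hF : Fx p q M o) (hM1 : 1 ≤ M.card)
    {a : ℕ} (haM : a + M.card = p + 1) (hap : a ≤ p) {l : Fin (3 * (p + q + 2) - 2) → Bool}
    {f : Fin (3 * (p + q + 2) - 2) → V} (hf : ∀ i, f i ∈ bx X l o i)
    (hP : PE H M (f ∘ plc p q a hap)) {c : ℕ} (hc1 : p + q + 1 ≤ c)
    (hc2 : c + M.card ≤ 2 * p + 2 * q + 3) : (win p q c).image f ∈ H := by
  have hfix : ∀ i v, o i = some v → f i = v := by
    intro i v hi
    have h1 := hf i
    unfold bx at h1
    rw [hi] at h1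
    simpa using h1
  have hMpos : ∀ v ∈ M, ∃ i : Fin (3 * (p + q + 2) - 2), f i = v ∧
      2 * p + 2 * q + 3 ≤ (i : ℕ) + M.card ∧ (i : ℕ) < 2 * p + 2 * q + 3 := by
    intro v hv
    obtain ⟨i, hi⟩ := (hF.mem v).mp hv
    refine ⟨i, hfix i v hi, ?_⟩
    by_contra hcon
    rw [(hF.none i).mpr hcon] at hi
    exact Option.some_ne_none _ hi.symm
  have hfM : ∀ i : Fin (3 * (p + q + 2) - 2), 2 * p + 2 * q + 3 ≤ (i : ℕ) + M.card →
      (i : ℕ) < 2 * p + 2 * q + 3 → f i ∈ M := by
    intro i h1 h2
    have h3 : o i ≠ none := fun hcon => (hF.none i).mp hcon ⟨h1, h2⟩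
    obtain ⟨v, hv⟩ := Option.ne_none_iff_exists'.mp h3
    rw [hfix i v hv]
    exact (hF.mem v).mpr ⟨i, hv⟩
  have hval : ∀ (i j : Fin (3 * (p + q + 2) - 2)), (i : ℕ) = j → f i = f j :=
    fun i j h => congrArg f (Fin.ext h)
  rcases Nat.eq_or_lt_of_le hc1 with h1 | h1
  · -- the window starting at `k - 1`
    have h2 := (hP (fun _ => false)).2
    have h3 : (win p q c).image f = insert ((f ∘ plc p q a hap) (Sum.inr false))
        (M ∪ Finset.univ.image fun i => (f ∘ plc p q a hap) (Sum.inl (i, false))) := by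
      ext v
      simp only [Finset.mem_image, Finset.mem_insert, Finset.mem_union, Finset.mem_univ, true_and,
        mem_win, Function.comp_apply]
      constructor
      · rintro ⟨i, ⟨hi1, hi2⟩, rfl⟩
        by_cases h4 : (i : ℕ) = p + q + 1
        · exact Or.inl (hval _ _ (by rw [plc_inr]; simpa using h4))
        · by_cases h5 : (i : ℕ) + M.card < 2 * p + 2 * q + 3
          · obtain ⟨t, ht⟩ := rk_surj (a := a) (q := q) (j := (i : ℕ) - (p + q + 2)) (by omega)
            refine Or.inr (Or.inr ⟨t, hval _ _ ?_⟩)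
            rw [plc_inl, ht]
            simp only [Bool.false_eq_true, if_false]
            omega
          · exact Or.inr (Or.inl (hfM i (by omega) (by omega)))
      · rintro (h4 | h4 | ⟨t, h4⟩)
        · refine ⟨plc p q a hap (Sum.inr false), ?_, h4.symm⟩
          rw [plc_inr]
          simp only [Bool.false_eq_true, if_false]
          omega
        · obtain ⟨i, hi, hi1, hi2⟩ := hMpos v h4
          exact ⟨i, by omega, hi⟩
        · refine ⟨plc p q a hap (Sum.inl (t, false)), ?_, h4⟩
          have h5 := rk_lt t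
          rw [plc_inl]
          simp only [Bool.false_eq_true, if_false]
          omega
    rw [h3]
    exact h2
  · -- the windows starting later
    have h2 := (hP (fun t => decide (rk t + (p + q + 2) < c))).1
    have h3 : (win p q c).image f = insert ((f ∘ plc p q a hap) (Sum.inr true))
        (M ∪ Finset.univ.image fun i =>
          (f ∘ plc p q a hap) (Sum.inl (i, decide (rk i + (p + q + 2) < c)))) := by
      ext v
      simp only [Finset.mem_image, Finset.mem_insert, Finset.mem_union, Finset.mem_univ, true_and,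
        mem_win, Function.comp_apply]
      constructor
      · rintro ⟨i, ⟨hi1, hi2⟩, rfl⟩
        by_cases h4 : (i : ℕ) = 2 * p + 2 * q + 3
        · exact Or.inl (hval _ _ (by rw [plc_inr]; simpa using h4))
        · by_cases h5 : (i : ℕ) + M.card < 2 * p + 2 * q + 3
          · obtain ⟨t, ht⟩ := rk_surj (a := a) (q := q) (j := (i : ℕ) - (p + q + 2)) (by omega)
            refine Or.inr (Or.inr ⟨t, hval _ _ ?_⟩)
            have h6 : ¬ (rk t + (p + q + 2) < c) := by omega
            rw [plc_inl]
            simp only [h6, decide_false, Bool.false_eq_true, if_false]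
            omega
          · by_cases h7 : (i : ℕ) < 2 * p + 2 * q + 3
            · exact Or.inr (Or.inl (hfM i (by omega) h7))
            · obtain ⟨t, ht⟩ := rk_surj (a := a) (q := q) (j := (i : ℕ) - 2 * (p + q + 2))
                (by omega)
              refine Or.inr (Or.inr ⟨t, hval _ _ ?_⟩)
              have h6 : rk t + (p + q + 2) < c := by omega
              rw [plc_inl]
              simp only [h6, decide_true, if_true]
              omega
      · rintro (h4 | h4 | ⟨t, h4⟩)
        · refine ⟨plc p q a hap (Sum.inr true), ?_, h4.symm⟩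
          rw [plc_inr]
          simp only [if_true]
          omega
        · obtain ⟨i, hi, hi1, hi2⟩ := hMpos v h4
          exact ⟨i, by omega, hi⟩
        · refine ⟨_, ?_, h4⟩
          have h5 := rk_lt t
          rw [plc_inl]
          by_cases h6 : rk t + (p + q + 2) < c
          · simp only [h6, decide_true, if_true]
            omega
          · simp only [h6, decide_false, Bool.false_eq_true, if_false]
            omega
    rw [h3]
    exact h2

/-- **The density of the event.** -/
theorem dens_PE (h01 : StmtE01) (h02 : StmtE02) (h20 : StmtE20) {H : Finset (Finset V)}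
    {X M : Finset V} {p q : ℕ} (hX : X.Nonempty) (hX' : (Xᶜ).Nonempty)
    {o : Fin (3 * (p + q + 2) - 2) → Option V} (hF : Fx p q M o) (hM1 : 1 ≤ M.card)
    {a : ℕ} (haM : a + M.card = p + 1) (hap : a ≤ p) {d : ℝ} (hd0 : 0 ≤ d) (hd1 : d ≤ 1)
    (hd : d ≤ Mix H X M a q) :
    d ^ (2 ^ (p + q + 2)) ≤
      dens (bx X (fun i : Fin (3 * (p + q + 2) - 2) => ltr p q (i : ℕ)) o)
        (fun f => PE H M (f ∘ plc p q a hap)) := by
  have hsd : ∀ b, (sd X b).Nonempty := by
    intro b
    unfold sd
    split_ifs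
    · exact hX
    · exact hX'
  have hlets : ∀ i, (lets X a q i).Nonempty := by
    intro i
    rcases i with i | i
    · exact hX
    · exact hX'
  set cM : (Fin a ⊕ Fin q) ⊕ Bool → Finset V :=
    Sum.elim (lets X a q) (fun t : Bool => sd X t) with hcM
  have hcMne : ∀ i, (cM i).Nonempty := by
    intro i
    rcases i with i | i
    · exact hlets i
    · exact hsd i
  have h1 := h20 V ((Fin a ⊕ Fin q) ⊕ Bool) cM
    (fun f => insert (f (Sum.inr true)) (M ∪ Finset.univ.image fun i => f (Sum.inl i)) ∈ H ∧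
      insert (f (Sum.inr false)) (M ∪ Finset.univ.image fun i => f (Sum.inl i)) ∈ H) d hcMne hd0 hd
  have hcard : Fintype.card ((Fin a ⊕ Fin q) ⊕ Bool) ≤ p + q + 2 := by
    simp only [Fintype.card_sum, Fintype.card_fin, Fintype.card_bool]
    omega
  have h2 : d ^ (2 ^ (p + q + 2)) ≤ d ^ (2 ^ Fintype.card ((Fin a ⊕ Fin q) ⊕ Bool)) :=
    pow_le_pow_of_le_one hd0 hd1 (Nat.pow_le_pow_right (by norm_num) hcard)
  refine h2.trans (h1.trans ?_)
  let ψ : ((Fin a ⊕ Fin q) × Bool) ⊕ Bool → ((Fin a ⊕ Fin q) ⊕ Bool) × Bool :=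
    Sum.elim (fun x => (Sum.inl x.1, x.2)) (fun b => (Sum.inr b, false))
  have hψ : Function.Injective ψ := by
    intro x y hxy
    rcases x with ⟨t, c⟩ | c <;> rcases y with ⟨t', c'⟩ | c' <;>
      simp only [ψ, Sum.elim_inl, Sum.elim_inr, Prod.mk.injEq, Sum.inl.injEq, Sum.inr.injEq,
        reduceCtorEq, false_and, and_true] at hxy
    · rw [hxy.1, hxy.2]
    · rw [hxy]
  have hbig : ∀ z : ((Fin a ⊕ Fin q) ⊕ Bool) × Bool,
      ((fun z : ((Fin a ⊕ Fin q) ⊕ Bool) × Bool => cM z.1) z).Nonempty := fun z => hcMne z.1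
  have h3 := (h01 V (((Fin a ⊕ Fin q) ⊕ Bool) × Bool) (fun z => cM z.1) hbig).2.1
    (fun g => ∀ s : (Fin a ⊕ Fin q) ⊕ Bool → Bool,
      insert ((fun i => g (i, s i)) (Sum.inr true))
        (M ∪ Finset.univ.image fun i => (fun i => g (i, s i)) (Sum.inl i)) ∈ H ∧
      insert ((fun i => g (i, s i)) (Sum.inr false))
        (M ∪ Finset.univ.image fun i => (fun i => g (i, s i)) (Sum.inl i)) ∈ H)
    (fun g => PE H M (g ∘ ψ)) (by
      intro g _ hg s
      exact hg (Sum.elim s (fun _ => false)))
  refine h3.trans (le_of_eq ?_)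
  rw [h02 V (((Fin a ⊕ Fin q) ⊕ Bool) × Bool) (((Fin a ⊕ Fin q) × Bool) ⊕ Bool)
    (fun z => cM z.1) ψ hbig hψ (PE H M)]
  have hbx : ∀ i, (bx X (fun i : Fin (3 * (p + q + 2) - 2) => ltr p q (i : ℕ)) o i).Nonempty := by
    intro i
    unfold bx
    rcases o i with _ | v
    · exact hsd _
    · exact ⟨v, by simp⟩
  rw [h02 V (Fin (3 * (p + q + 2) - 2)) (((Fin a ⊕ Fin q) × Bool) ⊕ Bool) _ (plc p q a hap) hbx
    (plc_injective hap) (PE H M)]
  congr 1
  funext x
  simp only [Function.comp_apply]
  have hnone : o (plc p q a hap x) = none := by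
    rw [hF.none]
    rcases x with ⟨t, c⟩ | c
    · have h5 := rk_lt t
      rw [plc_inl]
      rcases c with _ | _ <;> simp only [Bool.false_eq_true, if_true, if_false] <;> omega
    · rw [plc_inr]
      rcases c with _ | _ <;> simp only [Bool.false_eq_true, if_true, if_false] <;> omega
  unfold bx
  rw [hnone]
  show cM (ψ x).1 = sd X (ltr p q ((plc p q a hap x : Fin _) : ℕ))
  rcases x with ⟨t, c⟩ | c
  · rw [plc_inl]
    rcases t with t | t
    · have h5 := t.2
      have h6 : ltr p q ((if c then 2 * (p + q + 2) else p + q + 2) +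
          rk (Sum.inl t : Fin a ⊕ Fin q)) = true := by
        unfold ltr
        rw [decide_eq_true_iff]
        simp only [rk, Sum.elim_inl]
        rcases c with _ | _ <;> simp only [Bool.false_eq_true, if_true, if_false] <;> omega
      rw [h6]
      rfl
    · have h5 := t.2
      have h6 : ltr p q ((if c then 2 * (p + q + 2) else p + q + 2) +
          rk (Sum.inr t : Fin a ⊕ Fin q)) = false := by
        unfold ltr
        rw [decide_eq_false_iff_not]
        simp only [rk, Sum.elim_inr]
        rcases c with _ | _ <;> simp only [Bool.false_eq_true, if_true, if_false] <;> omega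
      rw [h6]
      rfl
  · rw [plc_inr]
    rcases c with _ | _
    · have h6 : ltr p q (if (false : Bool) then 2 * p + 2 * q + 3 else p + q + 1) = false := by
        unfold ltr
        rw [decide_eq_false_iff_not]
        simp only [Bool.false_eq_true, if_false]
        omega
      rw [h6]
      rfl
    · have h6 : ltr p q (if (true : Bool) then 2 * p + 2 * q + 3 else p + q + 1) = true := by
        unfold ltr
        rw [decide_eq_true_iff]
        simp only [if_true]
        omega
      rw [h6]
      rfl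

end Pool.Agent.KK.E.H40
end

/-! ### Helper40_KK.E_MIX -/
section
/-!
# Squad KK, block E, row MIX: crossing with a mixed minimal non-normal set
-/

set_option autoImplicit false

namespace Pool.Agent.KK.E.H40

open Pool.Agent.KK Pool.Agent.KK.E

variable {V : Type} [Fintype V] [DecidableEq V]

/-- positions of the start -/
def ph1 (p q : ℕ) : Fin (low p q).length → Fin (3 * (p + q + 2) - 2) := fun i =>
  ⟨(i : ℕ), by have := i.2; have := low_length p q; omega⟩

/-- positions of the end -/
def ph2 (p q : ℕ) : Fin (high p q).length → Fin (3 * (p + q + 2) - 2) := fun i =>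
  ⟨2 * p + 2 * q + 3 + (i : ℕ), by have := i.2; have := high_length p q; omega⟩

lemma ph1_inj (p q : ℕ) : Function.Injective (ph1 p q) := by
  intro i j h
  have := congrArg Fin.val h
  exact Fin.ext this

lemma ph2_inj (p q : ℕ) : Function.Injective (ph2 p q) := by
  intro i j h
  have h1 := congrArg Fin.val h
  have h2 : 2 * p + 2 * q + 3 + (i : ℕ) = 2 * p + 2 * q + 3 + (j : ℕ) := h1
  exact Fin.ext (by omega)

omit [Fintype V] [DecidableEq V] in
lemma take_ofFn (p q : ℕ) (f : Fin (3 * (p + q + 2) - 2) → V) :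
    (List.ofFn f).take (p + q + 2 - 1) = List.ofFn (f ∘ ph1 p q) := by
  have hl := low_length p q
  apply List.ext_getElem
  · simp only [List.length_take, List.length_ofFn]
    omega
  · intro i h1 h2
    rw [List.getElem_take, List.getElem_ofFn, List.getElem_ofFn]
    rfl

omit [Fintype V] [DecidableEq V] in
lemma drop_ofFn (p q : ℕ) (f : Fin (3 * (p + q + 2) - 2) → V) :
    (List.ofFn f).drop (2 * (p + q + 2) - 1) = List.ofFn (f ∘ ph2 p q) := by
  have hl := high_length p q
  apply List.ext_getElem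
  · simp only [List.length_drop, List.length_ofFn]
    omega
  · intro i h1 h2
    rw [List.getElem_drop, List.getElem_ofFn, List.getElem_ofFn]
    refine congrArg f (Fin.ext ?_)
    show 2 * (p + q + 2) - 1 + i = 2 * p + 2 * q + 3 + i
    omega

lemma amb_nonempty {H : Finset (Finset V)} {X : Finset V} {p q B : ℕ} {δ : ℝ}
    (hA : Amb H X p q B δ) : 0 < Fintype.card V ∧ X.Nonempty ∧ (Xᶜ).Nonempty ∧
      ∀ b, (Fintype.card V : ℝ) ≤ 3 * ((sd X b).card : ℝ) := by
  have h1 := hA.big
  have h2 := hA.pos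
  have h3 := hA.small
  have hk : (1 : ℝ) ≤ ((p + q + 2 : ℕ) : ℝ) := by
    exact_mod_cast (by omega : 1 ≤ p + q + 2)
  have hk' : (1 : ℝ) ≤ ((B + p + q + 2 : ℕ) : ℝ) := by
    exact_mod_cast (by omega : 1 ≤ B + p + q + 2)
  have h4 : (0 : ℝ) < 100 * ((p + q + 2 : ℕ) : ℝ) ^ 2 * ((B + p + q + 2 : ℕ) : ℝ) := by positivity
  have hn : (0 : ℝ) < (Fintype.card V : ℝ) := by
    by_contra hcon
    have h5 : (Fintype.card V : ℝ) ≤ 0 := not_lt.mp hcon
    nlinarith
  have h5 := hA.lo
  have h6 := hA.lo'
  have h7 : (Fintype.card V : ℝ) ≤ 3 * (X.card : ℝ) := by nlinarith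
  have h8 : (Fintype.card V : ℝ) ≤ 3 * ((Xᶜ).card : ℝ) := by nlinarith
  refine ⟨by exact_mod_cast hn, ?_, ?_, ?_⟩
  · rw [← Finset.card_pos]
    have : (0 : ℝ) < (X.card : ℝ) := by linarith
    exact_mod_cast this
  · rw [← Finset.card_pos]
    have : (0 : ℝ) < ((Xᶜ).card : ℝ) := by linarith
    exact_mod_cast this
  · intro b
    unfold sd
    split_ifs
    · exact h7
    · exact h8

/-- degenerate tuples -/
lemma dens_deg (h04 : StmtE04) {H : Finset (Finset V)} {X M F : Finset V} {p q B : ℕ} {δ : ℝ}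
    (hA : Amb H X p q B δ) (hFB : F.card ≤ B) {o : Fin (3 * (p + q + 2) - 2) → Option V}
    (hF : Fx p q M o) (l : Fin (3 * (p + q + 2) - 2) → Bool) :
    dens (bx X l o) (fun f => ¬ (Function.Injective f ∧ ∀ i, o i = none → f i ∉ F)) ≤ δ := by
  obtain ⟨hn, _, _, h3⟩ := amb_nonempty hA
  refine (h04 V (Fin (3 * (p + q + 2) - 2)) X F l o hn h3 hF.inj).trans ?_
  have hn' : (0 : ℝ) < (Fintype.card V : ℝ) := by exact_mod_cast hn
  rw [div_le_iff₀ hn']
  refine le_trans ?_ hA.big
  rw [Fintype.card_fin]
  set K : ℝ := ((p + q + 2 : ℕ) : ℝ) with hK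
  have hK1 : (1 : ℝ) ≤ K := by
    rw [hK]; exact_mod_cast (by omega : 1 ≤ p + q + 2)
  have h4 : ((3 * (p + q + 2) - 2 : ℕ) : ℝ) ≤ 3 * K := by
    have : ((3 * (p + q + 2) - 2 : ℕ) : ℝ) ≤ ((3 * (p + q + 2) : ℕ) : ℝ) := by
      exact_mod_cast Nat.sub_le _ _
    refine this.trans (le_of_eq ?_)
    rw [hK]; push_cast; ring
  have h5 : (0 : ℝ) ≤ ((3 * (p + q + 2) - 2 : ℕ) : ℝ) := Nat.cast_nonneg _
  have h6 : (F.card : ℝ) ≤ (B : ℝ) := by exact_mod_cast hFB
  have h7 : ((B + p + q + 2 : ℕ) : ℝ) = (B : ℝ) + K := by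
    rw [hK]; push_cast; ring
  have hB : (0 : ℝ) ≤ (B : ℝ) := Nat.cast_nonneg _
  have hF0 : (0 : ℝ) ≤ (F.card : ℝ) := Nat.cast_nonneg _
  rw [h7]
  have h8 : ((3 * (p + q + 2) - 2 : ℕ) : ℝ) ^ 2 ≤ 9 * K ^ 2 := by nlinarith
  have h9 : ((3 * (p + q + 2) - 2 : ℕ) : ℝ) * (F.card : ℝ) ≤ 3 * K * B := by
    exact mul_le_mul h4 h6 hF0 (by linarith)
  have h10 : K * B ≤ K ^ 2 * B := mul_le_mul_of_nonneg_right (by nlinarith) hB
  have h11 : K ^ 2 ≤ K ^ 3 := by nlinarith
  have h12 : (0 : ℝ) ≤ K ^ 2 * B := by positivity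
  have h13 : (0 : ℝ) ≤ K ^ 3 := by positivity
  have h14 : 100 * K ^ 2 * ((B : ℝ) + K) = 100 * (K ^ 2 * B) + 100 * K ^ 3 := by ring
  rw [h14]
  nlinarith

/-- the ends -/
lemma dens_low (h02 : StmtE02) {X M : Finset V} {p q : ℕ} {β : ℝ} {S : Set (List V)}
    {o : Fin (3 * (p + q + 2) - 2) → Option V} (hF : Fx p q M o) (hMp : M.card ≤ p + 1)
    (hbx : ∀ i, (bx X (fun i : Fin (3 * (p + q + 2) - 2) => ltr p q (i : ℕ)) o i).Nonempty)
    (hS : Alm X (low p q) S β) :
    dens (bx X (fun i : Fin (3 * (p + q + 2) - 2) => ltr p q (i : ℕ)) o)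
      (fun f => List.ofFn (f ∘ ph1 p q) ∉ S) ≤ β := by
  rw [h02 V (Fin (3 * (p + q + 2) - 2)) (Fin (low p q).length) _ (ph1 p q) hbx (ph1_inj p q)
    (fun a => List.ofFn a ∉ S)]
  have h1 : (bx X (fun i : Fin (3 * (p + q + 2) - 2) => ltr p q (i : ℕ)) o) ∘ ph1 p q =
      fun i : Fin (low p q).length => sd X ((low p q).get i) := by
    funext i
    have hi := i.2
    have hl := low_length p q
    have hnone : o (ph1 p q i) = none := by
      rw [hF.none]
      show ¬ (2 * p + 2 * q + 3 ≤ (i : ℕ) + M.card ∧ (i : ℕ) < 2 * p + 2 * q + 3)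
      omega
    simp only [Function.comp_apply]
    unfold bx
    rw [hnone, low_get]
    rfl
  rw [h1]
  exact hS

lemma dens_high (h02 : StmtE02) {X M : Finset V} {p q : ℕ} {β : ℝ} {T : Set (List V)}
    {o : Fin (3 * (p + q + 2) - 2) → Option V} (hF : Fx p q M o)
    (hbx : ∀ i, (bx X (fun i : Fin (3 * (p + q + 2) - 2) => ltr p q (i : ℕ)) o i).Nonempty)
    (hT : Alm X (high p q) T β) :
    dens (bx X (fun i : Fin (3 * (p + q + 2) - 2) => ltr p q (i : ℕ)) o)
      (fun f => List.ofFn (f ∘ ph2 p q) ∉ T) ≤ β := by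
  rw [h02 V (Fin (3 * (p + q + 2) - 2)) (Fin (high p q).length) _ (ph2 p q) hbx (ph2_inj p q)
    (fun a => List.ofFn a ∉ T)]
  have h1 : (bx X (fun i : Fin (3 * (p + q + 2) - 2) => ltr p q (i : ℕ)) o) ∘ ph2 p q =
      fun i : Fin (high p q).length => sd X ((high p q).get i) := by
    funext i
    have hnone : o (ph2 p q i) = none := by
      rw [hF.none]
      show ¬ (2 * p + 2 * q + 3 ≤ 2 * p + 2 * q + 3 + (i : ℕ) + M.card ∧
        2 * p + 2 * q + 3 + (i : ℕ) < 2 * p + 2 * q + 3)
      omega
    simp only [Function.comp_apply]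
    unfold bx
    rw [hnone, high_get]
    rfl
  rw [h1]
  exact hT

/-- the final inequality between the constants -/
lemma numbers {p q B : ℕ} {η θ : ℕ → ℝ} {h δ β : ℝ} (hC : Cst (p + q + 2) B η θ h δ)
    (hβ : β ≤ δ) {m : ℕ} (hm1 : 1 ≤ m) (hm2 : m < p + q + 2) :
    0 < θ m ∧ θ m ≤ 1 ∧
    δ + (β + (β + ((2 * p + 2 * q + 3 : ℕ) : ℝ) * (3 * δ + η (m - 1)))) <
      (θ m) ^ (2 ^ (p + q + 2)) := by
  set K : ℝ := ((p + q + 2 : ℕ) : ℝ) with hK
  have hK1 : (1 : ℝ) ≤ K := by
    rw [hK]; exact_mod_cast (by omega : 1 ≤ p + q + 2)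
  have h4k : (1 : ℝ) ≤ 4 ^ (p + q + 2) := one_le_pow₀ (by norm_num)
  have h2k : (1 : ℝ) ≤ 2 ^ (p + q + 2) := one_le_pow₀ (by norm_num)
  have hh1 : h ≤ 1 := by
    refine hC.hsmall.trans ?_
    rw [div_le_one (by positivity)]
    rw [← hK]
    nlinarith
  have hh0 := hC.hpos
  have ht := hC.tpos m hm1 hm2
  have hη0 := hC.pos m (by omega)
  have hη1 := hC.half m (by omega)
  have hts := hC.tsmall m hm1 hm2
  have ht1 : θ m ≤ 1 := by
    refine hts.trans (pow_le_one₀ ?_ ?_)
    · positivity
    · rw [div_le_one (by positivity)]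
      rw [← hK]
      nlinarith
  refine ⟨ht, ht1, ?_⟩
  have hE := hC.pos (m - 1) (by omega)
  have h1 := hC.eta_theta m hm1 hm2
  rw [← hK] at h1
  have h2 := hC.dsmall
  rw [← hK] at h2
  have h3 := eta_mono hC (by omega) (Nat.zero_le (m - 1)) (by omega)
  have h0 := hC.pos 0 (by omega)
  have hδ := hC.dpos
  have hB : (0 : ℝ) ≤ (B : ℝ) := Nat.cast_nonneg _
  have h5 : 100 * K * δ ≤ η (m - 1) := by
    have h6 : 100 * K * δ ≤ 100 * K * 4 ^ (p + q + 2) * ((B : ℝ) + 1) * δ := by
      have h7 : (1 : ℝ) ≤ 4 ^ (p + q + 2) * ((B : ℝ) + 1) :=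
        one_le_mul_of_one_le_of_one_le h4k (by linarith)
      have h8 : 0 ≤ 100 * K * δ := by positivity
      nlinarith
    have h9 : η 0 * h ≤ η 0 := by nlinarith
    linarith
  have h6 : ((2 * p + 2 * q + 3 : ℕ) : ℝ) ≤ 2 * K := by
    rw [hK]
    have : ((2 * p + 2 * q + 3 : ℕ) : ℝ) ≤ ((2 * (p + q + 2) : ℕ) : ℝ) := by
      exact_mod_cast (by omega : 2 * p + 2 * q + 3 ≤ 2 * (p + q + 2))
    refine this.trans (le_of_eq ?_)
    push_cast; ring
  have h7 : ((2 * p + 2 * q + 3 : ℕ) : ℝ) * (3 * δ + η (m - 1)) ≤ 2 * K * (3 * δ + η (m - 1)) :=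
    mul_le_mul_of_nonneg_right h6 (by linarith)
  have h8 : η (m - 1) ≤ K * η (m - 1) := by nlinarith
  have h9 : δ ≤ K * δ := by nlinarith
  refine lt_of_lt_of_le ?_ h1
  have h10 : 2 * K * (3 * δ + η (m - 1)) = 6 * (K * δ) + 2 * (K * η (m - 1)) := by ring
  have h11 : 16 * K * η (m - 1) = 16 * (K * η (m - 1)) := by ring
  have h12 : 100 * K * δ = 100 * (K * δ) := by ring
  have h13 : 0 < K * η (m - 1) := by positivity
  rw [h12] at h5
  rw [h11]
  rw [h10] at h7
  linarith

/-- **Row MIX.** -/
theorem e_mix (h01 : StmtE01) (h02 : StmtE02) (h04 : StmtE04) (h05 : StmtE05) (h16 : StmtE16)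
    (h17 : StmtE17) (h18 : StmtE18) (h20 : StmtE20) : StmtE21 := by
  intro V _ _ H X M F p q B δ h β η θ S T hA hC hβ hMst hne hMX hMp hMix hFB hMF hS hT
  have hM1 : 1 ≤ M.card := Finset.card_pos.mpr hne
  obtain ⟨o, hF⟩ := exists_Fx p q M hMp
  obtain ⟨hn, hX, hX', hsd3⟩ := amb_nonempty hA
  have haM : (p + 1 - M.card) + M.card = p + 1 := by omega
  have hap : p + 1 - M.card ≤ p := by omega
  obtain ⟨ht0, ht1, hnum⟩ := numbers hC hβ hM1 (by omega : M.card < p + q + 2)
  have hPE := dens_PE h01 h02 h20 hX hX' hF hM1 haM hap ht0.le ht1 hMix.le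
  have hbx : ∀ i, (bx X (fun i : Fin (3 * (p + q + 2) - 2) => ltr p q (i : ℕ)) o i).Nonempty := by
    intro i
    unfold bx
    rcases o i with _ | v
    · show (sd X (ltr p q i)).Nonempty
      unfold sd
      split_ifs
      · exact hX
      · exact hX'
    · exact ⟨v, by simp⟩
  obtain ⟨e1, e2, e3, e4, e5, e6⟩ := h01 V (Fin (3 * (p + q + 2) - 2))
    (bx X (fun i : Fin (3 * (p + q + 2) - 2) => ltr p q (i : ℕ)) o) hbx
  -- the events
  have hB1 := dens_deg h04 hA hFB hF (fun i : Fin (3 * (p + q + 2) - 2) => ltr p q (i : ℕ))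
  have hB2 := dens_low h02 hF hMp hbx hS
  have hB3 := dens_high h02 hF hbx hT
  let W := {t : Fin (2 * p + 2 * q + 3) // (t : ℕ) < p + q + 1 ∨
    2 * p + 2 * q + 3 < (t : ℕ) + M.card}
  have hB4 : dens (bx X (fun i : Fin (3 * (p + q + 2) - 2) => ltr p q (i : ℕ)) o)
      (fun f => ∃ t : W, (win p q (t : Fin (2 * p + 2 * q + 3))).image f ∉ H) ≤
      ((2 * p + 2 * q + 3 : ℕ) : ℝ) * (3 * δ + η (M.card - 1)) := by
    refine (e6 W (fun t f => (win p q (t : Fin (2 * p + 2 * q + 3))).image f ∉ H)).trans ?_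
    have h2 : ∀ t : W, dens (bx X (fun i : Fin (3 * (p + q + 2) - 2) => ltr p q (i : ℕ)) o)
        (fun f => (win p q (t : Fin (2 * p + 2 * q + 3))).image f ∉ H) ≤
        3 * δ + η (M.card - 1) := by
      intro t
      have h3 := ordinary h05 h17 h18 hA hC hMst hne hMX hMp hX hX' hF
        (a := ((t : Fin (2 * p + 2 * q + 3)) : ℕ)) (by have := t.1.2; omega) t.2
      have h4 := e4 (fun f => (win p q (t : Fin (2 * p + 2 * q + 3))).image f ∈ H)
      linarith
    have h3 : (Fintype.card W : ℝ) ≤ ((2 * p + 2 * q + 3 : ℕ) : ℝ) := by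
      have h4 := Fintype.card_subtype_le (fun t : Fin (2 * p + 2 * q + 3) =>
        (t : ℕ) < p + q + 1 ∨ 2 * p + 2 * q + 3 < (t : ℕ) + M.card)
      rw [Fintype.card_fin] at h4
      exact_mod_cast h4
    have h4 : 0 ≤ 3 * δ + η (M.card - 1) := by
      have := hC.pos (M.card - 1) (by omega)
      have := hC.dpos
      linarith
    calc _ ≤ ∑ _t : W, (3 * δ + η (M.card - 1)) := Finset.sum_le_sum fun t _ => h2 t
      _ = (Fintype.card W : ℝ) * (3 * δ + η (M.card - 1)) := by
          rw [Finset.sum_const, nsmul_eq_mul, Finset.card_univ]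
      _ ≤ _ := mul_le_mul_of_nonneg_right h3 h4
  -- a good function
  have hex : ∃ f : Fin (3 * (p + q + 2) - 2) → V,
      (∀ i, f i ∈ bx X (fun i : Fin (3 * (p + q + 2) - 2) => ltr p q (i : ℕ)) o i) ∧
      PE H M (f ∘ plc p q (p + 1 - M.card) hap) ∧
      (Function.Injective f ∧ ∀ i, o i = none → f i ∉ F) ∧
      List.ofFn (f ∘ ph1 p q) ∈ S ∧ List.ofFn (f ∘ ph2 p q) ∈ T ∧
      ∀ t : W, (win p q (t : Fin (2 * p + 2 * q + 3))).image f ∈ H := by
    by_contra hcon
    push Not at hcon
    have h1 := e2 (fun f => PE H M (f ∘ plc p q (p + 1 - M.card) hap))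
      (fun f => (¬ (Function.Injective f ∧ ∀ i, o i = none → f i ∉ F)) ∨
        (List.ofFn (f ∘ ph1 p q) ∉ S ∨ (List.ofFn (f ∘ ph2 p q) ∉ T ∨
          ∃ t : W, (win p q (t : Fin (2 * p + 2 * q + 3))).image f ∉ H))) (by
        intro f hf hP
        by_contra hc
        push Not at hc
        obtain ⟨t, ht⟩ := hcon f hf hP hc.1 hc.2.1 hc.2.2.1
        exact ht (hc.2.2.2 t))
    have h2 := e3 (fun f => ¬ (Function.Injective f ∧ ∀ i, o i = none → f i ∉ F))
      (fun f => List.ofFn (f ∘ ph1 p q) ∉ S ∨ (List.ofFn (f ∘ ph2 p q) ∉ T ∨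
          ∃ t : W, (win p q (t : Fin (2 * p + 2 * q + 3))).image f ∉ H))
    have h3 := e3 (fun f => List.ofFn (f ∘ ph1 p q) ∉ S)
      (fun f => List.ofFn (f ∘ ph2 p q) ∉ T ∨
          ∃ t : W, (win p q (t : Fin (2 * p + 2 * q + 3))).image f ∉ H)
    have h4 := e3 (fun f => List.ofFn (f ∘ ph2 p q) ∉ T)
      (fun f => ∃ t : W, (win p q (t : Fin (2 * p + 2 * q + 3))).image f ∉ H)
    linarith
  obtain ⟨f, hf, hP, ⟨hinj, hFo⟩, hfS, hfT, hW⟩ := hex
  have hfix : ∀ i v, o i = some v → f i = v := by
    intro i v hi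
    have h1 := hf i
    unfold bx at h1
    rw [hi] at h1
    simpa using h1
  refine ⟨List.ofFn f, ?_, List.length_ofFn, ?_, ?_, ?_, ?_⟩
  · refine h16 V H (p + q + 2) (3 * (p + q + 2) - 2) f hinj ?_
    intro c hc
    by_cases h1 : c < p + q + 1 ∨ 2 * p + 2 * q + 3 < c + M.card
    · exact hW ⟨⟨c, by omega⟩, h1⟩
    · rw [not_or, not_lt, not_lt] at h1
      exact full_windows hF hM1 haM hap hf hP h1.1 h1.2
  · rw [take_ofFn]
    exact hfS
  · rw [drop_ofFn]
    exact hfT
  · intro v hv
    obtain ⟨i, hi⟩ := (hF.mem v).mp hv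
    rw [List.mem_toFinset, List.mem_ofFn]
    exact ⟨i, hfix i v hi⟩
  · rw [Finset.disjoint_left]
    intro v hv
    rw [List.mem_toFinset, List.mem_ofFn] at hv
    obtain ⟨i, rfl⟩ := hv
    rcases hoi : o i with _ | v
    · exact hFo i hoi
    · rw [hfix i v hoi]
      exact Finset.disjoint_left.mp hMF ((hF.mem v).mpr ⟨i, hoi⟩)

end Pool.Agent.KK.E.H40
end

/-! ### Helper65_KK.TIM -/
section
/-!
# Squad KK, row TIM: a class which is invariant under time shifts
-/

set_option autoImplicit false

open scoped BigOperators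

namespace Pool.Agent.KK.H65

open Pool.Agent.KK

theorem xc_cons {V : Type} [Fintype V] [DecidableEq V] (X : Finset V) {m : ℕ} (v : V)
    (f : Fin m → V) :
    xc X (Fin.cons v f : Fin (m + 1) → V) = (if v ∈ X then 1 else 0) + xc X f := by
  unfold xc
  rw [Finset.card_filter, Finset.card_filter, Fin.sum_univ_succ]
  rfl

theorem image_cons {V : Type} [Fintype V] [DecidableEq V] {m : ℕ} (v : V)
    (f : Fin m → V) :
    Finset.univ.image (Fin.cons v f : Fin (m + 1) → V) = insert v (Finset.univ.image f) := by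
  ext x
  rw [Finset.mem_insert, Finset.mem_image, Finset.mem_image]
  constructor
  · rintro ⟨i, -, hi⟩
    refine Fin.cases (fun h => Or.inl h.symm) (fun j h => Or.inr ⟨j, Finset.mem_univ _, h⟩) i hi
  · rintro (h | ⟨j, -, h⟩)
    · exact ⟨0, Finset.mem_univ _, h.symm⟩
    · exact ⟨j.succ, Finset.mem_univ _, h⟩

theorem xc_le {V : Type} [Fintype V] [DecidableEq V] (X : Finset V) {m : ℕ} (f : Fin m → V) :
    xc X f ≤ m := by
  unfold xc
  refine (Finset.card_filter_le _ _).trans ?_
  rw [Finset.card_univ, Fintype.card_fin]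

theorem tim : TimStmt := by
  classical
  intro d V _ _ H X q a b μ γ μ' κ hn hU hγ hγ6 hlt hμ' hS hE
  by_contra hcon
  push Not at hcon
  have hn' : (0 : ℝ) < Fintype.card V := by exact_mod_cast hn
  -- the runs are single types
  have hab : ∀ i < q, a i = b i := fun i hi => le_antisymm (hS.le i hi) ((hcon i hi).1)
  have hq := hS.two_le
  have ha : ∀ i < q, a i = 2 * i + 1 := by
    intro i
    induction i with
    | zero =>
      intro h
      have h1 := hS.first
      have h2 := (hcon 0 h).2.1
      have h3 := hab 0 h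
      omega
    | succ i ih =>
      intro h
      have h1 := ih (by omega)
      have h2 := hS.gap i h
      have h3 := hab i (by omega)
      omega
  -- all even types are missing
  have hmiss : ∀ j ≤ d + 2, Even j →
      (td H (d + 2) X j : ℝ) ≤ γ * (Fintype.card V : ℝ) ^ (d + 2) := by
    intro j hj hj2
    refine hS.miss j hj fun i hi h => ?_
    have h1 := ha i hi
    have h2 := hab i hi
    obtain ⟨m, hm⟩ := hj2
    omega
  -- the bad labelled edges
  obtain ⟨B, hB⟩ : ∃ B : Finset (Fin (d + 2) → V),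
      B = Finset.univ.filter fun e => Finset.univ.image e ∈ H ∧ Even (xc X e) := ⟨_, rfl⟩
  have hBc : (B.card : ℝ) ≤ (d + 3) * (γ * (Fintype.card V : ℝ) ^ (d + 2)) := by
    have h1 : B ⊆ ((Finset.range (d + 3)).filter Even).biUnion fun j =>
        Finset.univ.filter fun e : Fin (d + 2) → V => Finset.univ.image e ∈ H ∧ xc X e = j := by
      intro e he
      rw [hB, Finset.mem_filter] at he
      rw [Finset.mem_biUnion]
      refine ⟨xc X e, ?_, ?_⟩
      · rw [Finset.mem_filter, Finset.mem_range]
        exact ⟨by have := xc_le X e; omega, he.2.2⟩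
      · rw [Finset.mem_filter]
        exact ⟨Finset.mem_univ _, he.2.1, rfl⟩
    have h2 : (B.card : ℝ) ≤ ∑ j ∈ (Finset.range (d + 3)).filter Even,
        (td H (d + 2) X j : ℝ) := by
      have h3 := (Finset.card_le_card h1).trans Finset.card_biUnion_le
      have h4 : ∀ j, (Finset.univ.filter fun e : Fin (d + 2) → V =>
          Finset.univ.image e ∈ H ∧ xc X e = j).card = td H (d + 2) X j := by
        intro j
        unfold td
        rw [Set.ncard_eq_toFinset_card']
        congr 1
        ext e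
        rw [Finset.mem_filter, Set.mem_toFinset]
        exact ⟨fun h => h.2, fun h => ⟨Finset.mem_univ _, h⟩⟩
      simp only [h4] at h3
      exact_mod_cast h3
    refine h2.trans ?_
    calc ∑ j ∈ (Finset.range (d + 3)).filter Even, (td H (d + 2) X j : ℝ)
        ≤ ∑ _j ∈ (Finset.range (d + 3)).filter Even, γ * (Fintype.card V : ℝ) ^ (d + 2) := by
          refine Finset.sum_le_sum fun j hj => ?_
          rw [Finset.mem_filter, Finset.mem_range] at hj
          exact hmiss j (by omega) hj.2
      _ = (((Finset.range (d + 3)).filter Even).card : ℝ) *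
          (γ * (Fintype.card V : ℝ) ^ (d + 2)) := by rw [Finset.sum_const, nsmul_eq_mul]
      _ ≤ ((d : ℝ) + 3) * (γ * (Fintype.card V : ℝ) ^ (d + 2)) := by
          refine mul_le_mul_of_nonneg_right ?_ (by positivity)
          have h5 : ((Finset.range (d + 3)).filter Even).card ≤ d + 3 := by
            refine (Finset.card_filter_le _ _).trans ?_
            rw [Finset.card_range]
          exact_mod_cast h5
  -- the exchange pairs
  have hcard : (X.card : ℝ) + (Xᶜ.card : ℝ) = Fintype.card V := by
    exact_mod_cast Finset.card_add_card_compl X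
  have hbal := abs_le.1 hS.bal
  have hγn : γ * (Fintype.card V : ℝ) ≤ 1 / 6 * Fintype.card V :=
    mul_le_mul_of_nonneg_right hγ6 hn'.le
  have hX1 : 1 / 18 * (Fintype.card V : ℝ) ≤ ((X : Set V).ncard : ℝ) := by
    rw [Set.ncard_coe_finset]
    linarith [hbal.1]
  have hX2 : 1 / 18 * (Fintype.card V : ℝ) ≤ ((X : Set V)ᶜ.ncard : ℝ) := by
    rw [← Finset.coe_compl, Set.ncard_coe_finset]
    linarith [hbal.2]
  have hP := hE (X : Set V) hX1 hX2
  obtain ⟨P, hPd⟩ : ∃ P : Finset (V × V), P = Finset.univ.filter fun p : V × V =>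
      p.1 ∈ (X : Set V) ∧ p.2 ∉ (X : Set V) ∧
        μ' * (Fintype.card V : ℝ) ^ (d + 2 - 1) ≤ comm H (d + 2) p.1 p.2 := ⟨_, rfl⟩
  have hP' : κ * (Fintype.card V : ℝ) ^ 2 ≤ (P.card : ℝ) := by
    have h1 : {p : V × V | p.1 ∈ (X : Set V) ∧ p.2 ∉ (X : Set V) ∧
        μ' * (Fintype.card V : ℝ) ^ (d + 2 - 1) ≤ comm H (d + 2) p.1 p.2}.ncard = P.card := by
      rw [← Set.ncard_coe_finset, hPd]
      congr 1
      ext p
      rw [Finset.coe_filter]
      exact ⟨fun h => ⟨Finset.mem_univ _, h⟩, fun h => h.2⟩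
    rw [h1] at hP
    exact hP
  -- the common link tuples
  obtain ⟨cm, hcm⟩ : ∃ cm : V × V → Finset (Fin (d + 1) → V), cm = fun p =>
      Finset.univ.filter fun f => p.1 ∉ Finset.univ.image f ∧ p.2 ∉ Finset.univ.image f ∧
        insert p.1 (Finset.univ.image f) ∈ H ∧ insert p.2 (Finset.univ.image f) ∈ H := ⟨_, rfl⟩
  have hcmc : ∀ p ∈ P, μ' * (Fintype.card V : ℝ) ^ (d + 1) ≤ ((cm p).card : ℝ) := by
    intro p hp
    rw [hPd, Finset.mem_filter] at hp
    have h1 : comm H (d + 2) p.1 p.2 = (cm p).card := by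
      rw [← Set.ncard_coe_finset, hcm]
      unfold comm
      congr 1
      ext f
      rw [Finset.coe_filter]
      exact ⟨fun h => ⟨Finset.mem_univ _, h⟩, fun h => h.2⟩
    rw [← h1]
    exact hp.2.2.2
  have hT : (P.card : ℝ) * (μ' * (Fintype.card V : ℝ) ^ (d + 1)) ≤
      ((P.sigma cm).card : ℝ) := by
    rw [Finset.card_sigma]
    push_cast
    calc (P.card : ℝ) * (μ' * (Fintype.card V : ℝ) ^ (d + 1))
        = ∑ _p ∈ P, μ' * (Fintype.card V : ℝ) ^ (d + 1) := by
          rw [Finset.sum_const, nsmul_eq_mul]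
      _ ≤ ∑ p ∈ P, ((cm p).card : ℝ) := Finset.sum_le_sum hcmc
  -- the injection
  have hinj : (P.sigma cm).card ≤
      ((Finset.univ : Finset Bool) ×ˢ ((Finset.univ : Finset V) ×ˢ B)).card := by
    refine Finset.card_le_card_of_injOn (fun t : (_ : V × V) × (Fin (d + 1) → V) =>
      if Even (xc X t.2) then (true, t.1.1, (Fin.cons t.1.2 t.2 : Fin (d + 2) → V))
      else (false, t.1.2, (Fin.cons t.1.1 t.2 : Fin (d + 2) → V))) ?_ ?_
    · rintro ⟨⟨u, v⟩, f⟩ ht
      have ht' := Finset.mem_sigma.1 (Finset.mem_coe.1 ht)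
      have h1 := ht'.1
      have h2 := ht'.2
      rw [hPd, Finset.mem_filter] at h1
      rw [hcm] at h2
      have h2' := (Finset.mem_filter.1 h2).2
      have hu : u ∈ X := h1.2.1
      have hv : v ∉ X := h1.2.2.1
      by_cases hev : Even (xc X f)
      · simp only [hev, if_true]
        refine Finset.mem_coe.2 (Finset.mem_product.2 ⟨Finset.mem_univ _,
          Finset.mem_product.2 ⟨Finset.mem_univ _, ?_⟩⟩)
        rw [hB]
        refine Finset.mem_filter.2 ⟨Finset.mem_univ _, ?_, ?_⟩
        · rw [image_cons]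
          exact h2'.2.2.2
        · rw [xc_cons, if_neg hv, zero_add]
          exact hev
      · simp only [hev, if_false]
        refine Finset.mem_coe.2 (Finset.mem_product.2 ⟨Finset.mem_univ _,
          Finset.mem_product.2 ⟨Finset.mem_univ _, ?_⟩⟩)
        rw [hB]
        refine Finset.mem_filter.2 ⟨Finset.mem_univ _, ?_, ?_⟩
        · rw [image_cons]
          exact h2'.2.2.1
        · rw [xc_cons, if_pos hu]
          rw [Nat.not_even_iff_odd] at hev
          exact Odd.one_add hev
    · rintro ⟨⟨u, v⟩, f⟩ _ ⟨⟨u', v'⟩, f'⟩ _ h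
      by_cases hev : Even (xc X f) <;> by_cases hev' : Even (xc X f')
      · simp only [hev, hev', if_true, Prod.mk.injEq, true_and] at h
        obtain ⟨h1, h2⟩ := h
        have h3 := Fin.cons_injective2 h2
        obtain ⟨h3, h4⟩ := h3
        subst h1 h3 h4
        rfl
      · simp only [hev, hev', if_true, if_false, Prod.mk.injEq] at h
        exact absurd h.1 (by decide)
      · simp only [hev, hev', if_true, if_false, Prod.mk.injEq] at h
        exact absurd h.1 (by decide)
      · simp only [hev, hev', if_false, Prod.mk.injEq, true_and] at h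
        obtain ⟨h1, h2⟩ := h
        have h3 := Fin.cons_injective2 h2
        obtain ⟨h3, h4⟩ := h3
        subst h1 h3 h4
        rfl
  have hprod : ((Finset.univ : Finset Bool) ×ˢ ((Finset.univ : Finset V) ×ˢ B)).card =
      2 * (Fintype.card V * B.card) := by
    rw [Finset.card_product, Finset.card_product, Finset.card_univ, Finset.card_univ,
      Fintype.card_bool]
  have hinj' : ((P.sigma cm).card : ℝ) ≤ 2 * (Fintype.card V * B.card) := by
    rw [hprod] at hinj
    exact_mod_cast hinj
  -- the contradiction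
  have h1 : κ * (Fintype.card V : ℝ) ^ 2 * (μ' * (Fintype.card V : ℝ) ^ (d + 1)) ≤
      2 * (Fintype.card V * ((d + 3) * (γ * (Fintype.card V : ℝ) ^ (d + 2)))) := by
    calc κ * (Fintype.card V : ℝ) ^ 2 * (μ' * (Fintype.card V : ℝ) ^ (d + 1))
        ≤ (P.card : ℝ) * (μ' * (Fintype.card V : ℝ) ^ (d + 1)) :=
          mul_le_mul_of_nonneg_right hP' (by positivity)
      _ ≤ ((P.sigma cm).card : ℝ) := hT
      _ ≤ 2 * (Fintype.card V * B.card) := hinj'
      _ ≤ _ := by gcongr
  have h2 : 0 < (Fintype.card V : ℝ) ^ (d + 3) := by positivity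
  have h3 : κ * μ' * (Fintype.card V : ℝ) ^ (d + 3) ≤
      2 * (d + 3) * γ * (Fintype.card V : ℝ) ^ (d + 3) := by
    calc κ * μ' * (Fintype.card V : ℝ) ^ (d + 3)
        = κ * (Fintype.card V : ℝ) ^ 2 * (μ' * (Fintype.card V : ℝ) ^ (d + 1)) := by ring
      _ ≤ 2 * (Fintype.card V * ((d + 3) * (γ * (Fintype.card V : ℝ) ^ (d + 2)))) := h1
      _ = 2 * (d + 3) * γ * (Fintype.card V : ℝ) ^ (d + 3) := by ring
  exact absurd (le_of_mul_le_mul_right h3 h2) (not_le.2 hlt)

end Pool.Agent.KK.H65
end

/-! ### Helper90_KK.ABQ -/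
section
/-!
# Squad KK, block BETA, row ABQ: all vertices of `D` are passed
-/

set_option autoImplicit false
set_option linter.unusedSectionVars false

namespace Pool.Agent.KK.H90

variable {V : Type} [Fintype V] [DecidableEq V]

theorem fx_app (s t : List (Slot V)) : fx (s ++ t) = fx s ++ fx t := by
  unfold fx
  exact List.filterMap_append

theorem cX_app (X : Finset V) (s t : List (Slot V)) : cX X (s ++ t) = cX X s + cX X t := by
  unfold cX
  exact List.countP_append

theorem lst_nil (H : Finset (Finset V)) (X : Finset V) (k p : ℕ) (ε : ℝ) (u : List Bool)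
    (hk : 1 ≤ k) (hu : u.length = k - 1) : Lst H X k p ε u u [] := by
  refine ⟨hu, hu, List.nodup_nil, ?_, ?_, ?_⟩
  · rw [List.append_nil]
  · intro s hs hsk
    rw [List.append_nil] at hs
    have h1 := hs.length_le
    unfold fw at h1
    rw [List.length_map, hu, hsk] at h1
    omega
  · intro s hs hsk
    rw [List.append_nil] at hs
    have h1 := hs.length_le
    unfold fw at h1
    rw [List.length_map, List.length_map, hu, hsk] at h1
    omega

/-- ABQ -/
theorem abq (hCmo : CmoStmt) : AbqStmt := by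
  intro V _ _ H X D k p t ε K u hk hu
  induction D using Finset.induction_on with
  | empty =>
    intro _ _ Z _
    refine ⟨[], ?_, ?_, ?_, ?_, ?_, lst_nil H X k p ε u hk hu⟩
    · simp
    · simp [cX]
    · simp [fx]
    · intro x hx; simp [fx] at hx
    · intro x hx; simp at hx
  | insert v D hv ih =>
    intro hD hfree Z hZ
    rw [Finset.card_insert_of_notMem hv] at hZ ⊢
    have hZ' : (Z.card : ℝ) + 2 * k * D.card ≤ K := by
      push_cast at hZ
      have : (0 : ℝ) ≤ 2 * (k : ℝ) := by positivity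
      linarith
    obtain ⟨L, hL1, hL2, hL3, hL4, hL5, hL6⟩ := ih
      (fun x hx => hD x (Finset.mem_insert_of_mem hx)) hfree Z hZ'
    set Z₂ : Finset V := Z ∪ (fx L).toFinset with hZ₂
    have hZ₂c : (Z₂.card : ℝ) ≤ K := by
      have h1 : Z₂.card ≤ Z.card + 2 * k * D.card :=
        (Finset.card_union_le _ _).trans (add_le_add le_rfl ((List.toFinset_card_le _).trans hL3))
      have h2 : (Z₂.card : ℝ) ≤ ((Z.card + 2 * k * D.card : ℕ) : ℝ) := by exact_mod_cast h1
      refine h2.trans ?_
      push_cast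
      exact hZ'
    have key : ∃ L' : List (Slot V), L'.length = 4 * k ∧ cX X L' = 4 * t ∧
        (fx L').length ≤ 2 * k ∧ (∀ x ∈ fx L', x ∉ Z₂) ∧ (v ∈ Z ∨ v ∈ fx L ∨ v ∈ fx L') ∧
        Lst H X k p ε u u L' := by
      by_cases hvZ : v ∈ Z₂
      · obtain ⟨L', h1, h2, h3, h4, _, h6⟩ := hfree Z₂ (Finset.disjoint_empty_right _) hZ₂c
        refine ⟨L', h1, h2, h3.trans (Nat.zero_le _), h4, ?_, h6⟩
        rw [hZ₂, Finset.mem_union, List.mem_toFinset] at hvZ
        rcases hvZ with h | h
        · exact Or.inl h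
        · exact Or.inr (Or.inl h)
      · obtain ⟨L', h1, h2, h3, h4, h5, h6⟩ := hD v (Finset.mem_insert_self _ _) Z₂
          (Finset.disjoint_singleton_right.2 hvZ) hZ₂c
        exact ⟨L', h1, h2, h3, h4, Or.inr (Or.inr (h5 v (Finset.mem_singleton_self _))), h6⟩
    obtain ⟨L', h1, h2, h3, h4, h5, h6⟩ := key
    have h7 := hCmo.1 V H X k p ε u u u L L' hk hL6 h6 (fun x hx hx' => h4 x hx' (by
      rw [hZ₂, Finset.mem_union, List.mem_toFinset]
      exact Or.inr hx))
    refine ⟨L ++ L', ?_, ?_, ?_, ?_, ?_, h7⟩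
    · rw [List.length_append, hL1, h1]; ring
    · rw [cX_app, hL2, h2]; ring
    · rw [fx_app, List.length_append]
      calc (fx L).length + (fx L').length ≤ 2 * k * D.card + 2 * k := add_le_add hL3 h3
        _ = _ := by ring
    · intro x hx
      rw [fx_app, List.mem_append] at hx
      rcases hx with hx | hx
      · exact hL4 x hx
      · intro hxZ
        exact h4 x hx (by rw [hZ₂, Finset.mem_union]; exact Or.inl hxZ)
    · intro x hx
      rw [fx_app, List.mem_append]
      rw [Finset.mem_insert] at hx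
      rcases hx with rfl | hx
      · exact h5
      · rcases hL5 x hx with h | h
        · exact Or.inl h
        · exact Or.inr (Or.inl h)

end Pool.Agent.KK.H90
end

/-! ### Helper33_KK.G_MKV -/
section
/-!
# Squad KK: row G_MKV (Markov for fixed generic vertices)
-/

set_option autoImplicit false
set_option linter.unusedSectionVars false

namespace Pool.Agent.KK.E.H33

open Pool.Agent.KK Pool.Agent.KK.E

/-- a letter preserving equivalence -/
theorem exists_equiv {κ κ' : Type} [Fintype κ] [Fintype κ'] (c : κ → Bool) (c' : κ' → Bool)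
    (h1 : (Finset.univ.filter fun i => c i = true).card =
      (Finset.univ.filter fun i => c' i = true).card)
    (h2 : (Finset.univ.filter fun i => c i = false).card =
      (Finset.univ.filter fun i => c' i = false).card) :
    ∃ e : κ ≃ κ', ∀ i, c' (e i) = c i := by
  classical
  have e1 : {i // c i = true} ≃ {i // c' i = true} := by
    refine Fintype.equivOfCardEq ?_
    rw [Fintype.card_subtype, Fintype.card_subtype]
    exact h1
  have e2 : {i // ¬ c i = true} ≃ {i // ¬ c' i = true} := by
    refine Fintype.equivOfCardEq ?_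
    rw [Fintype.card_subtype, Fintype.card_subtype]
    simp only [Bool.not_eq_true]
    exact h2
  refine ⟨(Equiv.sumCompl fun i => c i = true).symm.trans
    ((Equiv.sumCongr e1 e2).trans (Equiv.sumCompl fun i => c' i = true)), fun i => ?_⟩
  by_cases hi : c i = true
  · rw [Equiv.trans_apply, Equiv.sumCompl_symm_apply_of_pos (p := fun i => c i = true) hi, Equiv.trans_apply,
      Equiv.sumCongr_apply, Sum.map_inl, Equiv.sumCompl_apply_inl, hi]
    exact (e1 ⟨i, hi⟩).2
  · rw [Equiv.trans_apply, Equiv.sumCompl_symm_apply_of_neg (p := fun i => c i = true) hi, Equiv.trans_apply,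
      Equiv.sumCongr_apply, Sum.map_inr, Equiv.sumCompl_apply_inr]
    have h3 := (e2 ⟨i, hi⟩).2
    rw [Bool.not_eq_true] at h3 hi
    rw [h3, hi]

variable {V : Type} [Fintype V] [DecidableEq V]

/-- re-indexing of an event that depends on the image only -/
theorem reindex (hE02 : StmtE02) {κ κ' : Type} [Fintype κ] [Fintype κ'] (X : Finset V)
    (hX : X.Nonempty) (hX' : (Xᶜ).Nonempty) (c : κ → Bool) (c' : κ' → Bool)
    (h1 : (Finset.univ.filter fun i => c i = true).card =
      (Finset.univ.filter fun i => c' i = true).card)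
    (h2 : (Finset.univ.filter fun i => c i = false).card =
      (Finset.univ.filter fun i => c' i = false).card) (Q : Finset V → Prop) :
    dens (fun i => sd X (c i)) (fun f => Q (Finset.univ.image f)) =
      dens (fun i => sd X (c' i)) (fun f => Q (Finset.univ.image f)) := by
  obtain ⟨e, he⟩ := exists_equiv c c' h1 h2
  have hne : ∀ i, (sd X (c' i)).Nonempty := by
    intro i
    unfold sd
    split_ifs
    · exact hX
    · exact hX'
  have h3 := hE02 V κ' κ (fun i => sd X (c' i)) e hne e.injective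
    (fun f => Q (Finset.univ.image f))
  have h4 : (fun i => sd X (c' i)) ∘ e = fun i => sd X (c i) := by
    funext i
    show sd X (c' (e i)) = sd X (c i)
    rw [he]
  rw [h4] at h3
  rw [← h3]
  congr 1
  funext f
  have h5 : Finset.univ.image (f ∘ e) = Finset.univ.image f := by
    ext v
    simp only [Finset.mem_image, Finset.mem_univ, true_and, Function.comp_apply]
    constructor
    · rintro ⟨i, hi⟩
      exact ⟨e i, hi⟩
    · rintro ⟨i, hi⟩
      exact ⟨e.symm i, by rw [e.apply_symm_apply]; exact hi⟩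
  rw [h5]

theorem card_filter_sum {α β : Type} [Fintype α] [Fintype β] (P : α ⊕ β → Prop)
    [DecidablePred P] : (Finset.univ.filter P).card =
      (Finset.univ.filter fun a => P (Sum.inl a)).card +
        (Finset.univ.filter fun b => P (Sum.inr b)).card := by
  rw [Finset.card_filter, Finset.card_filter, Finset.card_filter, Fintype.sum_sum_type]

/-- the letters of `lets` -/
def lb {a b : ℕ} : Fin a ⊕ Fin b → Bool := Sum.elim (fun _ => true) (fun _ => false)

theorem lets_eq (X : Finset V) (a b : ℕ) : lets X a b = fun i => sd X (lb i) := by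
  funext i
  rcases i with i | i
  · rfl
  · rfl

theorem card_lb_true (a b : ℕ) :
    (Finset.univ.filter fun i : Fin a ⊕ Fin b => lb i = true).card = a := by
  rw [card_filter_sum]
  simp [lb]

theorem card_lb_false (a b : ℕ) :
    (Finset.univ.filter fun i : Fin a ⊕ Fin b => lb i = false).card = b := by
  rw [card_filter_sum]
  simp [lb]

/-- `D` over any index type -/
theorem D_eq (hE02 : StmtE02) {κ : Type} [Fintype κ] (H : Finset (Finset V)) (X M : Finset V)
    (hX : X.Nonempty) (hX' : (Xᶜ).Nonempty) (c : κ → Bool) (a b : ℕ)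
    (h1 : (Finset.univ.filter fun i => c i = true).card = a)
    (h2 : (Finset.univ.filter fun i => c i = false).card = b) :
    dens (fun i => sd X (c i)) (fun f => M ∪ Finset.univ.image f ∈ H) = D H X M a b := by
  unfold D
  rw [lets_eq]
  exact reindex hE02 X hX hX' c lb (by rw [h1, card_lb_true]) (by rw [h2, card_lb_false])
    (fun S => M ∪ S ∈ H)

theorem image_elim {ι κ : Type} [Fintype ι] [Fintype κ] (z : ι → V) (g : κ → V) :
    Finset.univ.image (Sum.elim z g) = Finset.univ.image z ∪ Finset.univ.image g := by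
  ext v
  simp only [Finset.mem_image, Finset.mem_univ, true_and, Finset.mem_union]
  constructor
  · rintro ⟨i | i, hi⟩
    · exact Or.inl ⟨i, hi⟩
    · exact Or.inr ⟨i, hi⟩
  · rintro (⟨i, hi⟩ | ⟨i, hi⟩)
    · exact ⟨Sum.inl i, hi⟩
    · exact ⟨Sum.inr i, hi⟩

/-- **G02** -/
theorem g_mkv (hE01 : StmtE01) (hE02 : StmtE02) (hE03 : StmtE03) : StmtG02 := by
  classical
  intro V _ _ ι _ H X M l a b s t ε hX hX' hε hs ht
  have hne : ∀ c : Bool, (sd X c).Nonempty := by
    intro c
    unfold sd
    split_ifs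
    · exact hX
    · exact hX'
  have k1 : (Finset.univ.filter fun i : ι ⊕ (Fin a ⊕ Fin b) => Sum.elim l lb i = true).card =
      (Finset.univ.filter fun i => l i = true).card +
        (Finset.univ.filter fun i : Fin a ⊕ Fin b => lb i = true).card :=
    card_filter_sum fun i : ι ⊕ (Fin a ⊕ Fin b) => Sum.elim l lb i = true
  have k2 : (Finset.univ.filter fun i : ι ⊕ (Fin a ⊕ Fin b) => Sum.elim l lb i = false).card =
      (Finset.univ.filter fun i => l i = false).card +
        (Finset.univ.filter fun i : Fin a ⊕ Fin b => lb i = false).card :=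
    card_filter_sum fun i : ι ⊕ (Fin a ⊕ Fin b) => Sum.elim l lb i = false
  have h1 : D H X M (a + s) (b + t) =
      dens (Sum.elim (fun i => sd X (l i)) (lets X a b))
        (fun f : ι ⊕ (Fin a ⊕ Fin b) → V => M ∪ Finset.univ.image f ∈ H) := by
    have h2 := D_eq (κ := ι ⊕ (Fin a ⊕ Fin b)) hE02 H X M hX hX' (Sum.elim l lb) (a + s) (b + t)
      (by rw [k1, hs, card_lb_true, add_comm])
      (by rw [k2, ht, card_lb_false, add_comm])
    rw [← h2]
    congr 1
    funext i
    rcases i with i | i
    · rfl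
    · rw [lets_eq]
      rfl
  have hnl : ∀ i, (lets X a b i).Nonempty := by
    intro i
    rw [lets_eq]
    exact hne _
  have hc : ∀ i, ((Sum.elim (fun i => sd X (l i)) (lets X a b) :
      ι ⊕ (Fin a ⊕ Fin b) → Finset V) i).Nonempty := by
    rintro (i | i)
    · exact hne _
    · exact hnl i
  have h3 := (hE01 V (ι ⊕ (Fin a ⊕ Fin b)) (Sum.elim (fun i => sd X (l i)) (lets X a b)) hc).2.2.2.1
    (fun f => M ∪ Finset.univ.image f ∈ H)
  have h4 := (hE03 V ι (Fin a ⊕ Fin b) (fun i => sd X (l i)) (lets X a b)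
    (fun i => hne _) hnl).2.1 (fun f => ¬ (M ∪ Finset.univ.image f ∈ H)) ε hε
  have h5 : dens (fun i => sd X (l i)) (fun z => D H X (M ∪ Finset.univ.image z) a b < 1 - ε) ≤
      dens (fun i => sd X (l i)) (fun f => ε < dens (lets X a b)
        (fun g => ¬ (M ∪ Finset.univ.image (Sum.elim f g) ∈ H))) := by
    refine (hE01 V ι (fun i => sd X (l i)) (fun i => hne _)).2.1 _ _ fun z _ hz => ?_
    have h6 := (hE01 V (Fin a ⊕ Fin b) (lets X a b) hnl).2.2.2.1
      (fun g => (M ∪ Finset.univ.image z) ∪ Finset.univ.image g ∈ H)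
    have h7 : (fun g : Fin a ⊕ Fin b → V => ¬ (M ∪ Finset.univ.image (Sum.elim z g) ∈ H)) =
        fun g => ¬ ((M ∪ Finset.univ.image z) ∪ Finset.univ.image g ∈ H) := by
      funext g
      rw [image_elim, Finset.union_assoc]
    rw [h7]
    unfold D at hz
    linarith
  have h8 := mul_le_mul_of_nonneg_left h5 hε.le
  rw [h1]
  linarith

end Pool.Agent.KK.E.H33
end

/-! ### Helper33_KK.G_SWG -/
section
/-!
# Squad KK: row G_SWG (single window gadget)
-/

set_option autoImplicit false
set_option linter.unusedSectionVars false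

namespace Pool.Agent.KK.E.H33

open Pool.Agent.KK Pool.Agent.KK.E

/-- the letters of a list by position -/
theorem ofFn_getD {k : ℕ} (c : List Bool) (h : c.length = k) :
    List.ofFn (fun i : Fin k => c.getD i false) = c := by
  subst h
  refine List.ext_getElem (by simp) fun i h1 h2 => ?_
  simp only [List.getElem_ofFn]
  rw [List.getD_eq_getElem _ _ h2]

/-- number of positions with letter X -/
theorem count_letters {k : ℕ} (c : List Bool) (h : c.length = k) (b : Bool) :
    (Finset.univ.filter fun i : Fin k => c.getD i false = b).card = c.count b := by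
  have h1 : (Finset.univ.filter fun i : Fin k =>
      List.Vector.get (⟨c, h⟩ : List.Vector Bool k) i = b).card = c.count b :=
    Fin.card_filter_univ_eq_vector_get_eq_count b (⟨c, h⟩ : List.Vector Bool k)
  rw [← h1]
  congr 1
  ext i
  simp only [Finset.mem_filter, Finset.mem_univ, true_and]
  have h2 : List.Vector.get (⟨c, h⟩ : List.Vector Bool k) i = c.getD i false := by
    subst h
    rw [List.getD_eq_getElem _ _ i.2]
    rfl
  rw [h2]

variable {V : Type} [Fintype V] [DecidableEq V]

theorem count_fixed {k : ℕ} (o : Fin k → Option V) (l : Fin k → Bool) (X M : Finset V) (b : Bool)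
    (hM : ∀ v, v ∈ M ↔ ∃ i, o i = some v) (hinj : ∀ i i' v, o i = some v → o i' = some v → i = i')
    (hl : ∀ i v, o i = some v → (v ∈ X ↔ l i = true)) :
    (Finset.univ.filter fun i => o i = none ∧ l i = b).card =
      (Finset.univ.filter fun i => l i = b).card -
        (M.filter fun v => (decide (v ∈ X)) = b).card := by
  classical
  have hl' : ∀ i v, o i = some v → decide (v ∈ X) = l i := by
    intro i v hi
    have h := hl i v hi
    by_cases hv : v ∈ X
    · rw [decide_eq_true hv, h.1 hv]
    · rw [decide_eq_false hv]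
      cases hli : l i
      · rfl
      · exact absurd (h.2 hli) hv
  have h1 : (Finset.univ.filter fun i => l i = b ∧ ¬ o i = none).card =
      (M.filter fun v => (decide (v ∈ X)) = b).card := by
    have e1 : (Finset.univ.filter fun i => l i = b ∧ ¬ o i = none).image o =
        (M.filter fun v => (decide (v ∈ X)) = b).image some := by
      ext x
      simp only [Finset.mem_image, Finset.mem_filter, Finset.mem_univ, true_and]
      constructor
      · rintro ⟨i, ⟨hi1, hi2⟩, rfl⟩
        obtain ⟨v, hv⟩ := Option.ne_none_iff_exists'.1 hi2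
        exact ⟨v, ⟨(hM v).2 ⟨i, hv⟩, by rw [hl' i v hv]; exact hi1⟩, hv.symm⟩
      · rintro ⟨v, ⟨hv1, hv2⟩, rfl⟩
        obtain ⟨i, hi⟩ := (hM v).1 hv1
        exact ⟨i, ⟨by rw [← hl' i v hi]; exact hv2, by rw [hi]; simp⟩, hi⟩
    have e2 : ((Finset.univ.filter fun i => l i = b ∧ ¬ o i = none).image o).card =
        (Finset.univ.filter fun i => l i = b ∧ ¬ o i = none).card := by
      refine Finset.card_image_of_injOn ?_
      intro i hi j _ hij
      have hi' := (Finset.mem_filter.1 (Finset.mem_coe.1 hi)).2.2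
      obtain ⟨v, hv⟩ := Option.ne_none_iff_exists'.1 hi'
      exact hinj i j v hv (by rw [← hij]; exact hv)
    rw [← e2, e1, Finset.card_image_of_injective _ (Option.some_injective V)]
  have h2 : (Finset.univ.filter fun i => l i = b).card =
      (Finset.univ.filter fun i => o i = none ∧ l i = b).card +
        (Finset.univ.filter fun i => l i = b ∧ ¬ o i = none).card := by
    rw [← Finset.card_filter_add_card_filter_not (s := Finset.univ.filter fun i => l i = b)
      (fun i => o i = none), Finset.filter_filter, Finset.filter_filter]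
    congr 2
    ext i
    simp only [Finset.mem_filter, Finset.mem_univ, true_and]
    tauto
  rw [← h1]
  omega

/-- **G03** -/
theorem g_swg (_hE01 : StmtE01) (hE05 : StmtE05) (hG00 : StmtG00) : StmtG03 := by
  classical
  intro V _ _ H X M Z p q B δ h ε η θ c uL uR o hA hC hMst hZB hMZ hcl hcw huL huR hwL hwR hM
    hinj hlet ho0 hol
  obtain ⟨⟨hMX, hMY, hMd⟩, hMmin⟩ := hMst
  have hk : 0 < p + q + 2 := by omega
  have hcard : M.card = (M ∩ X).card + (M \ X).card := by
    rw [Finset.card_inter_add_card_sdiff]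
  have hMk : M.card ≤ p + q + 2 := by omega
  obtain ⟨v0, hv0⟩ := Option.ne_none_iff_exists'.1 ho0
  obtain ⟨v1, hv1⟩ := Option.ne_none_iff_exists'.1 hol
  have hv0M : v0 ∈ M := (hM v0).2 ⟨0, hv0⟩
  have hv1M : v1 ∈ M := (hM v1).2 ⟨_, hv1⟩
  have hM1 : 1 ≤ M.card := Finset.card_pos.2 ⟨v0, hv0M⟩
  -- numbers
  have hkR : (1 : ℝ) ≤ ((p + q + 2 : ℕ) : ℝ) := by exact_mod_cast hk
  have hpos := hC.cst.pos
  have hmono1 : ∀ i, i < p + q + 2 → η i ≤ η (i + 1) := by
    intro i hi
    have h1 := hC.cst.step i hi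
    have h2 := hpos i hi.le
    have h3 : (1 : ℝ) ≤ 8 * ((p + q + 2 : ℕ) : ℝ) * 4 ^ (p + q + 2) * ((B : ℝ) + 1) := by
      have e1 : (1 : ℝ) ≤ 4 ^ (p + q + 2) := one_le_pow₀ (by norm_num)
      have e2 : (0 : ℝ) ≤ B := Nat.cast_nonneg _
      have e3 : (1 : ℝ) ≤ 8 * ((p + q + 2 : ℕ) : ℝ) := by linarith
      have e4 : (1 : ℝ) ≤ 8 * ((p + q + 2 : ℕ) : ℝ) * 4 ^ (p + q + 2) := by nlinarith
      nlinarith
    nlinarith
  have hmono : ∀ i j, i ≤ j → j ≤ p + q + 2 → η i ≤ η j := by
    intro i j hij
    induction j, hij using Nat.le_induction with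
    | base => intro _; exact le_rfl
    | succ j hij ih =>
      intro hj
      exact (ih (by omega)).trans (hmono1 j (by omega))
  have hτ : 0 < η M.card := hpos _ hMk
  have hτ0 : η 0 ≤ η M.card := hmono _ _ (Nat.zero_le _) hMk
  have he₀ : 0 ≤ η (M.card - 1) := (hpos _ (by omega)).le
  have hX : X.Nonempty ∧ (Xᶜ).Nonempty := by
    have h1 := hA.big
    have h2 := hA.pos
    have h3 := hA.small
    have h4 := hA.lo
    have h5 := hA.lo'
    have h6 : (0 : ℝ) < Fintype.card V := by
      rcases lt_or_ge (0 : ℝ) (Fintype.card V : ℝ) with h7 | h7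
      · exact h7
      · exfalso
        have h8 : δ * (Fintype.card V : ℝ) ≤ 0 := mul_nonpos_of_nonneg_of_nonpos h2.le h7
        have h9 : (0 : ℝ) < 100 * ((p + q + 2 : ℕ) : ℝ) ^ 2 * ((B + p + q + 2 : ℕ) : ℝ) := by
          positivity
        linarith
    have h10 : 0 < (1 - δ) * (Fintype.card V : ℝ) / 2 := by
      have : 0 < 1 - δ := by linarith
      positivity
    constructor
    · rw [← Finset.card_pos]
      exact_mod_cast h10.trans_le h4
    · rw [← Finset.card_pos]
      exact_mod_cast h10.trans_le h5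
  have hcT : (Finset.univ.filter fun i : Fin (p + q + 2) => c.getD i false = true).card =
      p + 1 := by
    rw [count_letters c hcl]
    exact hcw
  have hcF : (Finset.univ.filter fun i : Fin (p + q + 2) => c.getD i false = false).card =
      q + 1 := by
    have h1 := Finset.card_filter_add_card_filter_not
      (s := (Finset.univ : Finset (Fin (p + q + 2)))) (fun i => c.getD i false = true)
    rw [hcT, Finset.card_univ, Fintype.card_fin] at h1
    have h2 : (Finset.univ.filter fun i : Fin (p + q + 2) => ¬ c.getD i false = true) =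
        Finset.univ.filter fun i : Fin (p + q + 2) => c.getD i false = false := by
      ext i
      simp
    rw [h2] at h1
    omega
  have hMT : (M.filter fun v => (decide (v ∈ X)) = true) = M ∩ X := by
    ext v
    simp
  have hMF : (M.filter fun v => (decide (v ∈ X)) = false) = M \ X := by
    ext v
    simp
  -- density of the event
  have hdens : dens (bx X (fun i : Fin (p + q + 2) => c.getD i false) o)
      (fun f => Finset.univ.image f ∈ H) =
        D H X M (p + 1 - (M ∩ X).card) (q + 1 - (M \ X).card) := by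
    refine hE05 V (Fin (p + q + 2)) H X M (fun i => c.getD i false) o Finset.univ _ _ hX.1 hX.2
      (fun v => ?_) ?_ ?_
    · rw [hM v]
      simp
    · rw [count_fixed o (fun i => c.getD i false) X M true hM hinj hlet, hcT, hMT]
    · rw [count_fixed o (fun i => c.getD i false) X M false hM hinj hlet, hcF, hMF]
  have hres := hG00 V H X Z p q B (p + q + 2) δ ε (η M.card) (η (M.card - 1)) η c uL uR o
    (fun f => Finset.univ.image f ∈ H) hA hC.epos hC.eone hτ he₀ hcl (by omega) huL huR hinj
    (fun i v hi hvZ => Finset.disjoint_left.1 hMZ ((hM v).2 ⟨i, hi⟩) hvZ)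
    (by rw [hdens]; exact hMd.le) (by
      intro a ha
      rcases lt_trichotomy a (p + q + 1) with hlt | heq | hgt
      · right
        refine ⟨?_, fun i v _ _ hi => hlet i v hi, ?_⟩
        · have h1 : (((uL ++ c ++ uR).drop a).take (p + q + 2)) =
              (((uL ++ c).drop a).take (p + q + 2)) := by
            rw [List.drop_append_of_le_length (by rw [List.length_append]; omega),
              List.take_append_of_le_length (by
                rw [List.length_drop, List.length_append]; omega)]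
          rw [h1]
          exact hwL a hlt
        · intro M' hM'
          have hss : M' ⊂ M := by
            refine (Finset.ssubset_iff_of_subset fun v hv => ?_).2 ⟨v1, hv1M, fun hv => ?_⟩
            · obtain ⟨i, _, _, hi⟩ := (hM' v).1 hv
              exact (hM v).2 ⟨i, hi⟩
            · obtain ⟨i, _, hi2, hi⟩ := (hM' v1).1 hv
              have h2 := hinj i _ v1 hi hv1
              rw [h2, Fin.val_last] at hi2
              omega
          have h3 := Finset.card_lt_card hss
          exact ⟨hMmin M' hss, (Finset.card_le_card (Finset.inter_subset_inter_right hss.1)).trans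
            hMX, (Finset.card_le_card (Finset.sdiff_subset_sdiff hss.1 (Finset.Subset.refl X))).trans
            hMY, hmono _ _ (by omega) (by omega)⟩
      · left
        refine ⟨heq.ge, by omega, fun f _ hf => ?_⟩
        have h1 : (Finset.univ.filter fun i : Fin (p + q + 2) => a ≤ (i : ℕ) + (p + q + 1) ∧
            (i : ℕ) + (p + q + 1) < a + (p + q + 2)) = Finset.univ := by
          ext i
          simp only [Finset.mem_filter, Finset.mem_univ, true_and, iff_true]
          have := i.2
          omega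
        rw [h1]
        exact hf
      · right
        refine ⟨?_, fun i v _ _ hi => hlet i v hi, ?_⟩
        · have h1 : (((uL ++ c ++ uR).drop a).take (p + q + 2)) =
              (((c ++ uR).drop (a - (p + q + 1))).take (p + q + 2)) := by
            rw [List.append_assoc]
            have h2 : a = uL.length + (a - (p + q + 1)) := by omega
            conv_lhs => rw [h2, List.drop_length_add_append]
          rw [h1]
          exact hwR (a - (p + q + 1)) (by omega) (by omega)
        · intro M' hM'
          have hss : M' ⊂ M := by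
            refine (Finset.ssubset_iff_of_subset fun v hv => ?_).2 ⟨v0, hv0M, fun hv => ?_⟩
            · obtain ⟨i, _, _, hi⟩ := (hM' v).1 hv
              exact (hM v).2 ⟨i, hi⟩
            · obtain ⟨i, hi1, _, hi⟩ := (hM' v0).1 hv
              have h2 := hinj i _ v0 hi hv0
              rw [h2] at hi1
              simp at hi1
              omega
          have h3 := Finset.card_lt_card hss
          exact ⟨hMmin M' hss, (Finset.card_le_card (Finset.inter_subset_inter_right hss.1)).trans
            hMX, (Finset.card_le_card (Finset.sdiff_subset_sdiff hss.1 (Finset.Subset.refl X))).trans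
            hMY, hmono _ _ (by omega) (by omega)⟩)
    (by
      have h1 := hA.big
      have h2 := hC.delG
      have h3 : (Z.card : ℝ) ≤ B := by exact_mod_cast hZB
      have hV : (0 : ℝ) ≤ (Fintype.card V : ℝ) := Nat.cast_nonneg _
      have h4 : (B : ℝ) ≤ ((B + p + q + 2 : ℕ) : ℝ) := by push_cast; linarith [
        (Nat.cast_nonneg p : (0 : ℝ) ≤ p), (Nat.cast_nonneg q : (0 : ℝ) ≤ q)]
      have h5 : δ ≤ η M.card := by
        have e1 : ε * η 0 ≤ η 0 := by
          have := hC.eone
          have := (hpos 0 (by omega)).le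
          nlinarith
        have e2 : δ ≤ 100 * ((p + q + 2 : ℕ) : ℝ) * δ := by
          have := hA.pos
          nlinarith
        linarith
      rw [div_mul_eq_mul_div, le_div_iff₀ (by positivity)]
      have h6 : (Z.card : ℝ) * (100 * ((p + q + 2 : ℕ) : ℝ)) ≤
          100 * ((p + q + 2 : ℕ) : ℝ) ^ 2 * ((B + p + q + 2 : ℕ) : ℝ) := by
        have e1 : (Z.card : ℝ) ≤ ((B + p + q + 2 : ℕ) : ℝ) := h3.trans h4
        have e2 : ((p + q + 2 : ℕ) : ℝ) ≤ ((p + q + 2 : ℕ) : ℝ) ^ 2 := by nlinarith
        have e3 : (0 : ℝ) ≤ ((B + p + q + 2 : ℕ) : ℝ) := Nat.cast_nonneg _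
        calc (Z.card : ℝ) * (100 * ((p + q + 2 : ℕ) : ℝ))
            ≤ ((B + p + q + 2 : ℕ) : ℝ) * (100 * ((p + q + 2 : ℕ) : ℝ)) :=
              mul_le_mul_of_nonneg_right e1 (by positivity)
          _ ≤ ((B + p + q + 2 : ℕ) : ℝ) * (100 * ((p + q + 2 : ℕ) : ℝ) ^ 2) :=
              mul_le_mul_of_nonneg_left (by linarith) e3
          _ = _ := by ring
      exact h6.trans (h1.trans (mul_le_mul_of_nonneg_right h5 hV)))
    (by
      have h1 := hC.stepG (M.card - 1) (by omega)
      rw [Nat.sub_add_cancel hM1] at h1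
      exact h1)
    (hC.delG.trans (mul_le_mul_of_nonneg_left hτ0 hC.epos.le))
  obtain ⟨f, f1, f2, f3, f4, _, f6⟩ := hres
  refine ⟨List.ofFn f, List.nodup_ofFn.2 f1, ?_, ?_, ?_, f6⟩
  · intro v hv
    obtain ⟨i, rfl⟩ := (List.mem_ofFn' _ _).1 hv
    exact f2 i
  · intro v hv
    obtain ⟨i, hi⟩ := (hM v).1 hv
    exact (List.mem_ofFn' _ _).2 ⟨i, f3 i v hi⟩
  · rw [List.map_ofFn]
    conv_rhs => rw [← ofFn_getD c hcl]
    congr 1
    funext i
    show decide (f i ∈ X) = c.getD i false
    have key : f i ∈ X ↔ c.getD i false = true := by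
      rcases hoi : o i with _ | v
      · exact f4 i hoi
      · rw [f3 i v hoi]
        exact hlet i v hoi
    by_cases hfi : f i ∈ X
    · rw [decide_eq_true hfi, key.1 hfi]
    · rw [decide_eq_false hfi]
      cases hci : c.getD i false
      · rfl
      · exact absurd (key.2 hci) hfi

end Pool.Agent.KK.E.H33
end

/-! ### Helper52_KK.G_PLA -/
section
set_option autoImplicit false

namespace Pool.Agent.KK.E.H52

theorem card_filter_getD (c : List Bool) :
    ∀ n : ℕ, c.length = n → (Finset.univ.filter fun i : Fin n => c.getD i false = true).card =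
      c.count true := by
  induction c with
  | nil =>
    intro n hn
    subst hn
    rfl
  | cons x c ih =>
    intro n hn
    cases n with
    | zero => simp at hn
    | succ n =>
      have h1 : c.length = n := by simpa using hn
      rw [Fin.card_filter_univ_succ]
      have h2 : (Finset.univ.filter fun i : Fin n =>
          (x :: c).getD ((i.succ : Fin (n + 1)) : ℕ) false = true).card = c.count true := by
        rw [← ih n h1]
        refine congrArg Finset.card ?_
        ext i
        simp
      rw [h2]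
      cases x <;> simp

theorem exists_phi {V : Type} [DecidableEq V] (X M : Finset V) (p q : ℕ)
    (c : List Bool) (hc : c.length = p + q + 2) (hw : c.count true = p + 1)
    (h1 : (M ∩ X).card ≤ p + 1) (h2 : (M \ X).card ≤ q + 1) :
    ∃ φ : V → Fin (p + q + 2), (∀ v ∈ M, ∀ w ∈ M, φ v = φ w → v = w) ∧
      ∀ v ∈ M, (v ∈ X ↔ c.getD (φ v) false = true) := by
  have ht := card_filter_getD c _ hc
  rw [hw] at ht
  have hf : (Finset.univ.filter fun i : Fin (p + q + 2) => ¬ c.getD i false = true).card = q + 1 := by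
    have h3 := Finset.card_filter_add_card_filter_not (s := (Finset.univ : Finset (Fin (p + q + 2))))
      (fun i => c.getD i false = true)
    rw [ht, Finset.card_univ, Fintype.card_fin] at h3
    omega
  have c1 : Fintype.card (M ∩ X : Finset V) ≤ Fintype.card
      (Finset.univ.filter fun i : Fin (p + q + 2) => c.getD i false = true : Finset _) := by
    rw [Fintype.card_coe, Fintype.card_coe, ht]
    exact h1
  have c2 : Fintype.card (M \ X : Finset V) ≤ Fintype.card
      (Finset.univ.filter fun i : Fin (p + q + 2) => ¬ c.getD i false = true : Finset _) := by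
    rw [Fintype.card_coe, Fintype.card_coe, hf]
    exact h2
  obtain ⟨e1⟩ := Function.Embedding.nonempty_of_card_le c1
  obtain ⟨e2⟩ := Function.Embedding.nonempty_of_card_le c2
  obtain ⟨φ, hφ⟩ : ∃ φ : V → Fin (p + q + 2), φ = fun v =>
      if h : v ∈ M ∩ X then (e1 ⟨v, h⟩ : Fin (p + q + 2))
      else if h' : v ∈ M \ X then (e2 ⟨v, h'⟩ : Fin (p + q + 2)) else 0 := ⟨_, rfl⟩
  have hφ1 : ∀ v (h : v ∈ M ∩ X), φ v = (e1 ⟨v, h⟩ : Fin (p + q + 2)) := by
    intro v h
    rw [hφ]
    exact dif_pos h
  have hφ2 : ∀ v (h : v ∈ M \ X), φ v = (e2 ⟨v, h⟩ : Fin (p + q + 2)) := by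
    intro v h
    rw [hφ]
    have h' : v ∉ M ∩ X := by
      intro h'
      rw [Finset.mem_inter] at h'
      rw [Finset.mem_sdiff] at h
      exact h.2 h'.2
    show (if h : v ∈ M ∩ X then (e1 ⟨v, h⟩ : Fin (p + q + 2))
      else if h' : v ∈ M \ X then (e2 ⟨v, h'⟩ : Fin (p + q + 2)) else 0) = _
    rw [dif_neg h', dif_pos h]
  have hlet : ∀ v ∈ M, (v ∈ X ↔ c.getD (φ v) false = true) := by
    intro v hv
    by_cases hX : v ∈ X
    · have h := Finset.mem_inter.2 ⟨hv, hX⟩
      rw [hφ1 v h]
      have h3 := (e1 ⟨v, h⟩).2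
      rw [Finset.mem_filter] at h3
      exact ⟨fun _ => h3.2, fun _ => hX⟩
    · have h := Finset.mem_sdiff.2 ⟨hv, hX⟩
      rw [hφ2 v h]
      have h3 := (e2 ⟨v, h⟩).2
      rw [Finset.mem_filter] at h3
      exact ⟨fun h4 => absurd h4 hX, fun h4 => absurd h4 h3.2⟩
  refine ⟨φ, ?_, hlet⟩
  intro v hv w hw hvw
  have h5 : v ∈ X ↔ w ∈ X := by rw [hlet v hv, hlet w hw, hvw]
  by_cases hX : v ∈ X
  · have hv' := Finset.mem_inter.2 ⟨hv, hX⟩
    have hw' := Finset.mem_inter.2 ⟨hw, h5.1 hX⟩
    rw [hφ1 v hv', hφ1 w hw'] at hvw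
    exact congrArg Subtype.val (e1.injective (Subtype.ext hvw))
  · have hv' := Finset.mem_sdiff.2 ⟨hv, hX⟩
    have hw' := Finset.mem_sdiff.2 ⟨hw, fun h => hX (h5.2 h)⟩
    rw [hφ2 v hv', hφ2 w hw'] at hvw
    exact congrArg Subtype.val (e2.injective (Subtype.ext hvw))

theorem g_pla : StmtG04 := by
  classical
  intro V _ _ X M p q c m₁ m₂ hc hw h1 h2 hm1 hm2 hne hx1 hx2
  obtain ⟨φ, hinj, hlet⟩ := exists_phi X M p q c hc hw h1 h2
  -- first exchange
  obtain ⟨φ1, hφ1⟩ : ∃ φ1 : V → Fin (p + q + 2), φ1 = fun v => Equiv.swap (φ m₁) 0 (φ v) := ⟨_, rfl⟩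
  have hinj1 : ∀ v ∈ M, ∀ w ∈ M, φ1 v = φ1 w → v = w := by
    intro v hv w hw' h
    rw [hφ1] at h
    exact hinj v hv w hw' ((Equiv.swap (φ m₁) 0).injective h)
  have hsw : ∀ (i j x : Fin (p + q + 2)), (c.getD i false = true ↔ c.getD j false = true) →
      (c.getD (Equiv.swap i j x) false = true ↔ c.getD x false = true) := by
    intro i j x hij
    by_cases hxi : x = i
    · subst hxi
      rw [Equiv.swap_apply_left]
      exact hij.symm
    · by_cases hxj : x = j
      · subst hxj
        rw [Equiv.swap_apply_right]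
        exact hij
      · rw [Equiv.swap_apply_of_ne_of_ne hxi hxj]
  have hlet1 : ∀ v ∈ M, (v ∈ X ↔ c.getD (φ1 v) false = true) := by
    intro v hv
    rw [hφ1]
    show v ∈ X ↔ c.getD (Equiv.swap (φ m₁) 0 (φ v)) false = true
    rw [hsw, hlet v hv]
    rw [← hlet m₁ hm1]
    exact hx1
  have hφ1m : φ1 m₁ = 0 := by
    rw [hφ1]
    exact Equiv.swap_apply_left _ _
  -- second exchange
  obtain ⟨φ2, hφ2⟩ : ∃ φ2 : V → Fin (p + q + 2),
      φ2 = fun v => Equiv.swap (φ1 m₂) (Fin.last (p + q + 1)) (φ1 v) := ⟨_, rfl⟩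
  have hinj2 : ∀ v ∈ M, ∀ w ∈ M, φ2 v = φ2 w → v = w := by
    intro v hv w hw' h
    rw [hφ2] at h
    exact hinj1 v hv w hw' ((Equiv.swap (φ1 m₂) (Fin.last (p + q + 1))).injective h)
  have hlet2 : ∀ v ∈ M, (v ∈ X ↔ c.getD (φ2 v) false = true) := by
    intro v hv
    rw [hφ2]
    show v ∈ X ↔ c.getD (Equiv.swap (φ1 m₂) (Fin.last (p + q + 1)) (φ1 v)) false = true
    rw [hsw, hlet1 v hv]
    rw [← hlet1 m₂ hm2]
    exact hx2
  have hφ2m : φ2 m₂ = Fin.last (p + q + 1) := by
    rw [hφ2]
    exact Equiv.swap_apply_left _ _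
  have hφ2m' : φ2 m₁ = 0 := by
    rw [hφ2]
    show Equiv.swap (φ1 m₂) (Fin.last (p + q + 1)) (φ1 m₁) = 0
    rw [hφ1m]
    apply Equiv.swap_apply_of_ne_of_ne
    · intro h
      rw [← hφ1m] at h
      exact hne (hinj1 m₁ hm1 m₂ hm2 h)
    · intro h
      have h3 := congrArg Fin.val h
      simp at h3
  obtain ⟨o, ho⟩ : ∃ o : Fin (p + q + 2) → Option V, o = fun i =>
      if h : ∃ v ∈ M, φ2 v = i then some h.choose else none := ⟨_, rfl⟩
  have ho1 : ∀ v ∈ M, o (φ2 v) = some v := by
    intro v hv
    have h : ∃ w ∈ M, φ2 w = φ2 v := ⟨v, hv, rfl⟩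
    have h3 : o (φ2 v) = some h.choose := by
      rw [ho]
      exact dif_pos h
    rw [h3]
    exact congrArg some (hinj2 _ h.choose_spec.1 v hv h.choose_spec.2)
  have ho2 : ∀ i v, o i = some v → v ∈ M ∧ φ2 v = i := by
    intro i v h
    by_cases hex : ∃ v ∈ M, φ2 v = i
    · have h3 : o i = some hex.choose := by
        rw [ho]
        exact dif_pos hex
      rw [h3, Option.some_inj] at h
      rw [← h]
      exact hex.choose_spec
    · have h3 : o i = none := by
        rw [ho]
        exact dif_neg hex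
      rw [h3] at h
      cases h
  refine ⟨o, ?_, ?_, ?_, ?_, ?_⟩
  · rw [← hφ2m']
    exact ho1 m₁ hm1
  · rw [← hφ2m]
    exact ho1 m₂ hm2
  · intro v
    constructor
    · intro hv
      exact ⟨φ2 v, ho1 v hv⟩
    · rintro ⟨i, hi⟩
      exact (ho2 i v hi).1
  · intro i i' v hi hi'
    rw [← (ho2 i v hi).2, ← (ho2 i' v hi').2]
  · intro i v hi
    obtain ⟨h3, h4⟩ := ho2 i v hi
    rw [hlet2 v h3, h4]

end Pool.Agent.KK.E.H52
end

/-! ### Helper76_KK.G_TOK -/
section
/-!
# Squad KK: row G_TOK (far flip with a connector)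
-/

set_option autoImplicit false
set_option linter.unusedSectionVars false

namespace Pool.Agent.KK.E.H76

open Pool.Agent.KK Pool.Agent.KK.E Pool.Agent.KK.E.H40 Pool.Agent.KK.E.H33

/-! ## Words -/

theorem wt_app (u v : List Bool) : wt (u ++ v) = wt u + wt v := List.count_append ..

/-- windows of a periodic word -/
theorem wt_win (A : List Bool) (a : ℕ) (ha : a + 2 ≤ A.length) :
    wt (((A.tail ++ A.dropLast).drop a).take A.length) = wt A := by
  have h1 : A.tail ++ A.dropLast = (A.drop 1) ++ A.take (A.length - 1) := by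
    rw [List.drop_one, List.dropLast_eq_take]
  rw [h1, List.drop_append_of_le_length (by rw [List.length_drop]; omega), List.drop_drop,
    List.take_append, List.take_of_length_le (by rw [List.length_drop]; omega),
    List.length_drop, List.take_take, wt_app]
  have h3 : min (A.length - (A.length - (1 + a))) (A.length - 1) = a + 1 := by omega
  rw [h3]
  have h4 : wt (A.take (a + 1)) + wt (A.drop (a + 1)) = wt A := by
    rw [← wt_app, List.take_append_drop]
  rw [Nat.add_comm 1 a]
  omega

/-- the places of the letters of `m₁ ++ m₂` in `m₁ ++ y :: m₂` -/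
theorem exists_hp (p q : ℕ) (m₁ m₂ : List Bool) (hl : m₁.length + m₂.length = p + q)
    (hw : wt m₁ + wt m₂ = p) :
    ∃ hp : Fin p ⊕ Fin q → ℕ, Function.Injective hp ∧
      (∀ t, hp t < p + q + 1 ∧ hp t ≠ m₁.length) ∧
      (∀ h, h < p + q + 1 → h ≠ m₁.length → ∃ t, hp t = h) ∧
      ∀ t (y : Bool), (m₁ ++ y :: m₂).getD (hp t) false = t.isLeft := by
  classical
  have hlm : (m₁ ++ m₂).length = p + q := by rw [List.length_append, hl]
  have hT : (Finset.univ.filter fun i : Fin (p + q) => (m₁ ++ m₂).getD i false = true).card =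
      p := by
    rw [count_letters _ hlm, List.count_append]
    exact hw
  have hF : (Finset.univ.filter fun i : Fin (p + q) => (m₁ ++ m₂).getD i false = false).card =
      q := by
    have h1 := Finset.card_filter_add_card_filter_not
      (s := (Finset.univ : Finset (Fin (p + q)))) (fun i => (m₁ ++ m₂).getD i false = true)
    rw [hT, Finset.card_univ, Fintype.card_fin] at h1
    have h2 : (Finset.univ.filter fun i : Fin (p + q) => ¬ (m₁ ++ m₂).getD i false = true) =
        Finset.univ.filter fun i : Fin (p + q) => (m₁ ++ m₂).getD i false = false := by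
      ext i
      simp
    rw [h2] at h1
    omega
  let eT := Finset.equivFinOfCardEq hT
  let eF := Finset.equivFinOfCardEq hF
  let e : Fin p ⊕ Fin q → Fin (p + q) := Sum.elim (fun t => (eT.symm t).1) (fun t => (eF.symm t).1)
  have heT : ∀ t, (m₁ ++ m₂).getD (e (Sum.inl t)) false = true := fun t =>
    (Finset.mem_filter.1 (eT.symm t).2).2
  have heF : ∀ t, (m₁ ++ m₂).getD (e (Sum.inr t)) false = false := fun t =>
    (Finset.mem_filter.1 (eF.symm t).2).2
  have heI : Function.Injective e := by
    intro x y hxy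
    rcases x with x | x <;> rcases y with y | y
    · exact congrArg Sum.inl (eT.symm.injective (Subtype.ext hxy))
    · have h1 := heT x
      rw [hxy, heF y] at h1
      exact absurd h1 (by decide)
    · have h1 := heF x
      rw [hxy, heT y] at h1
      exact absurd h1 (by decide)
    · exact congrArg Sum.inr (eF.symm.injective (Subtype.ext hxy))
  have heS : ∀ r : Fin (p + q), ∃ t, e t = r := by
    intro r
    cases hr : (m₁ ++ m₂).getD r false
    · exact ⟨Sum.inr (eF ⟨r, Finset.mem_filter.2 ⟨Finset.mem_univ _, hr⟩⟩), by simp [e]⟩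
    · exact ⟨Sum.inl (eT ⟨r, Finset.mem_filter.2 ⟨Finset.mem_univ _, hr⟩⟩), by simp [e]⟩
  refine ⟨fun t => if ((e t : Fin (p + q)) : ℕ) < m₁.length then e t else e t + 1, ?_, ?_, ?_, ?_⟩
  · intro x y hxy
    apply heI
    apply Fin.ext
    simp only at hxy
    split_ifs at hxy <;> omega
  · intro t
    have := (e t).2
    simp only
    split_ifs <;> omega
  · intro h h1 h2
    by_cases h3 : h < m₁.length
    · obtain ⟨t, ht⟩ := heS ⟨h, by omega⟩
      refine ⟨t, ?_⟩
      simp only [ht]
      rw [if_pos h3]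
    · obtain ⟨t, ht⟩ := heS ⟨h - 1, by omega⟩
      refine ⟨t, ?_⟩
      simp only [ht]
      rw [if_neg (by omega)]
      omega
  · intro t y
    have h1 : (m₁ ++ m₂).getD (e t) false = t.isLeft := by
      rcases t with t | t
      · exact heT t
      · exact heF t
    rw [← h1]
    simp only
    split_ifs with h2
    · rw [List.getD_append _ _ _ _ h2, List.getD_append _ _ _ _ h2]
    · rw [List.getD_append_right _ _ _ _ (by omega), List.getD_append_right _ _ _ _ (by omega)]
      have h3 : (e t : ℕ) + 1 - m₁.length = ((e t : ℕ) - m₁.length) + 1 := by omega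
      rw [h3, List.getD_cons_succ]

variable {V : Type} [Fintype V] [DecidableEq V]

/-- density of the event in any box that contains the used coordinates -/
theorem dens_PE' (h01 : StmtE01) (h02 : StmtE02) (h20 : StmtE20) {H : Finset (Finset V)}
    {X M : Finset V} {a q : ℕ} (hX : X.Nonempty) (hX' : (Xᶜ).Nonempty) {ι : Type} [Fintype ι]
    (b : ι → Finset V) (hb : ∀ i, (b i).Nonempty)
    (φ : ((Fin a ⊕ Fin q) × Bool) ⊕ Bool → ι) (hφ : Function.Injective φ)
    (hbl : ∀ t c, b (φ (Sum.inl (t, c))) = sd X t.isLeft) (hbr : ∀ c, b (φ (Sum.inr c)) = sd X c)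
    {d : ℝ} (hd0 : 0 ≤ d) (hd : d ≤ Mix H X M a q) :
    d ^ (2 ^ (a + q + 2)) ≤ dens b (fun f => PE H M (f ∘ φ)) := by
  have hsd : ∀ b, (sd X b).Nonempty := by
    intro b
    unfold sd
    split_ifs
    · exact hX
    · exact hX'
  have hlets : ∀ i, (lets X a q i).Nonempty := by
    intro i
    rcases i with i | i
    · exact hX
    · exact hX'
  set cM : (Fin a ⊕ Fin q) ⊕ Bool → Finset V :=
    Sum.elim (lets X a q) (fun t : Bool => sd X t) with hcM
  have hcMne : ∀ i, (cM i).Nonempty := by
    intro i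
    rcases i with i | i
    · exact hlets i
    · exact hsd i
  have h1 := h20 V ((Fin a ⊕ Fin q) ⊕ Bool) cM
    (fun f => insert (f (Sum.inr true)) (M ∪ Finset.univ.image fun i => f (Sum.inl i)) ∈ H ∧
      insert (f (Sum.inr false)) (M ∪ Finset.univ.image fun i => f (Sum.inl i)) ∈ H) d hcMne hd0 hd
  have hcard : Fintype.card ((Fin a ⊕ Fin q) ⊕ Bool) = a + q + 2 := by
    simp only [Fintype.card_sum, Fintype.card_fin, Fintype.card_bool]
  rw [hcard] at h1
  refine h1.trans ?_
  let ψ : ((Fin a ⊕ Fin q) × Bool) ⊕ Bool → ((Fin a ⊕ Fin q) ⊕ Bool) × Bool :=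
    Sum.elim (fun x => (Sum.inl x.1, x.2)) (fun b => (Sum.inr b, false))
  have hψ : Function.Injective ψ := by
    intro x y hxy
    rcases x with ⟨t, c⟩ | c <;> rcases y with ⟨t', c'⟩ | c' <;>
      simp only [ψ, Sum.elim_inl, Sum.elim_inr, Prod.mk.injEq, Sum.inl.injEq, Sum.inr.injEq,
        reduceCtorEq, false_and, and_true] at hxy
    · rw [hxy.1, hxy.2]
    · rw [hxy]
  have hbig : ∀ z : ((Fin a ⊕ Fin q) ⊕ Bool) × Bool,
      ((fun z : ((Fin a ⊕ Fin q) ⊕ Bool) × Bool => cM z.1) z).Nonempty := fun z => hcMne z.1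
  have h3 := (h01 V (((Fin a ⊕ Fin q) ⊕ Bool) × Bool) (fun z => cM z.1) hbig).2.1
    (fun g => ∀ s : (Fin a ⊕ Fin q) ⊕ Bool → Bool,
      insert ((fun i => g (i, s i)) (Sum.inr true))
        (M ∪ Finset.univ.image fun i => (fun i => g (i, s i)) (Sum.inl i)) ∈ H ∧
      insert ((fun i => g (i, s i)) (Sum.inr false))
        (M ∪ Finset.univ.image fun i => (fun i => g (i, s i)) (Sum.inl i)) ∈ H)
    (fun g => PE H M (g ∘ ψ)) (by
      intro g _ hg s
      exact hg (Sum.elim s (fun _ => false)))
  refine h3.trans (le_of_eq ?_)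
  rw [h02 V (((Fin a ⊕ Fin q) ⊕ Bool) × Bool) (((Fin a ⊕ Fin q) × Bool) ⊕ Bool)
    (fun z => cM z.1) ψ hbig hψ (PE H M)]
  rw [h02 V ι (((Fin a ⊕ Fin q) × Bool) ⊕ Bool) b φ hb hφ (PE H M)]
  congr 1
  funext x
  rcases x with ⟨t, c⟩ | c
  · rw [Function.comp_apply, Function.comp_apply, hbl]
    rcases t with t | t <;> rfl
  · rw [Function.comp_apply, Function.comp_apply, hbr]
    rfl


/-- **G08** -/
theorem g_tok (h01 : StmtE01) (h02 : StmtE02) (h20 : StmtE20) (h00 : StmtG00) : StmtG08 := by
  classical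
  intro V _ _ H X p q B δ h ε κ η θ z m₁ m₂ hpq hA hC hNon hMix hl hw hκ Z hZ hzZ
  obtain ⟨_, hX, hX', _⟩ := amb_nonempty hA
  have hθ0 : 0 < θ 1 := hC.cst.tpos 1 le_rfl (by omega)
  have hη0 : 0 < η 0 := hC.cst.pos 0 (by omega)
  have hτ : 0 < (θ 1) ^ (2 ^ (p + q + 2)) := pow_pos hθ0 _
  obtain ⟨hp, hpI, hp1, hp2, hp3⟩ := exists_hp p q m₁ m₂ hl hw
  have hm1 : m₁.length < p + q + 1 := by omega
  have hLl : (m₁ ++ false :: m₂).length = p + q + 1 := by
    rw [List.length_append, List.length_cons]; omega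
  have hRl : (m₁ ++ true :: m₂).length = p + q + 1 := by
    rw [List.length_append, List.length_cons]; omega
  obtain ⟨c, hc⟩ : ∃ c, c = (m₁ ++ false :: m₂) ++ decide (z ∈ X) :: (m₁ ++ true :: m₂) :=
    ⟨_, rfl⟩
  have hcl : c.length = 2 * p + 2 * q + 3 := by
    rw [hc, List.length_append, List.length_cons, hLl, hRl]; omega
  have hc1 : ∀ i, i < p + q + 1 → c.getD i false = (m₁ ++ false :: m₂).getD i false := by
    intro i hi
    rw [hc, List.getD_append _ _ _ _ (by omega)]
  have hc2 : c.getD (p + q + 1) false = decide (z ∈ X) := by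
    rw [hc, List.getD_append_right _ _ _ _ (by omega), hLl, Nat.sub_self, List.getD_cons_zero]
  have hc3 : ∀ i, c.getD (p + q + 2 + i) false = (m₁ ++ true :: m₂).getD i false := by
    intro i
    have h1 : p + q + 2 + i - (p + q + 1) = i + 1 := by omega
    rw [hc, List.getD_append_right _ _ _ _ (by omega), hLl, h1, List.getD_cons_succ]
  let o : Fin (2 * p + 2 * q + 3) → Option V := fun i =>
    if (i : ℕ) = p + q + 1 then some z else none
  have ho1 : ∀ i v, o i = some v → (i : ℕ) = p + q + 1 ∧ v = z := by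
    intro i v hi
    by_cases h1 : (i : ℕ) = p + q + 1
    · have h2 : o i = some z := if_pos h1
      rw [h2, Option.some_inj] at hi
      exact ⟨h1, hi.symm⟩
    · have h2 : o i = none := if_neg h1
      rw [h2] at hi
      exact absurd hi.symm (Option.some_ne_none _)
  have ho2 : ∀ i : Fin (2 * p + 2 * q + 3), (i : ℕ) ≠ p + q + 1 → o i = none := fun i h1 =>
    if_neg h1
  have ho3 : ∀ i : Fin (2 * p + 2 * q + 3), (i : ℕ) = p + q + 1 → o i = some z := fun i h1 =>
    if_pos h1
  let φ : ((Fin p ⊕ Fin q) × Bool) ⊕ Bool → Fin (2 * p + 2 * q + 3) :=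
    Sum.elim (fun x => ⟨(if x.2 then p + q + 2 else 0) + hp x.1, by
      have := (hp1 x.1).1; split_ifs <;> omega⟩)
      (fun b => ⟨(if b then p + q + 2 else 0) + m₁.length, by split_ifs <;> omega⟩)
  have hφl : ∀ t b, ((φ (Sum.inl (t, b)) : Fin _) : ℕ) = (if b then p + q + 2 else 0) + hp t :=
    fun _ _ => rfl
  have hφr : ∀ b, ((φ (Sum.inr b) : Fin _) : ℕ) = (if b then p + q + 2 else 0) + m₁.length :=
    fun _ => rfl
  have hφI : Function.Injective φ := by
    intro x y hxy
    have hv := congrArg Fin.val hxy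
    rcases x with ⟨t, b⟩ | b <;> rcases y with ⟨t', b'⟩ | b'
    · rw [hφl, hφl] at hv
      have h1 := (hp1 t).1
      have h2 := (hp1 t').1
      have h3 : b = b' := by
        rcases b with _ | _ <;> rcases b' with _ | _ <;>
          simp only [if_true, if_false, Bool.false_eq_true] at hv <;> first | rfl | omega
      subst h3
      rw [hpI (Nat.add_left_cancel hv)]
    · rw [hφl, hφr] at hv
      have h1 := hp1 t
      exfalso
      rcases b with _ | _ <;> rcases b' with _ | _ <;>
        simp only [if_true, if_false, Bool.false_eq_true] at hv <;> omega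
    · rw [hφl, hφr] at hv
      have h1 := hp1 t'
      exfalso
      rcases b with _ | _ <;> rcases b' with _ | _ <;>
        simp only [if_true, if_false, Bool.false_eq_true] at hv <;> omega
    · rw [hφr, hφr] at hv
      rcases b with _ | _ <;> rcases b' with _ | _ <;>
        simp only [if_true, if_false, Bool.false_eq_true] at hv <;> first | rfl | omega
  have hsd : ∀ b, (sd X b).Nonempty := by
    intro b
    unfold sd
    split_ifs
    · exact hX
    · exact hX'
  have hbx : ∀ i, (bx X (fun i : Fin (2 * p + 2 * q + 3) => c.getD i false) o i).Nonempty := by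
    intro i
    unfold bx
    rcases o i with _ | v
    · exact hsd _
    · exact ⟨v, by simp⟩
  have hbl : ∀ t b, bx X (fun i : Fin (2 * p + 2 * q + 3) => c.getD i false) o
      (φ (Sum.inl (t, b))) = sd X t.isLeft := by
    intro t b
    have h1 := hp1 t
    unfold bx
    rw [ho2 _ (by rw [hφl]; split_ifs <;> omega)]
    change sd X (c.getD ((φ (Sum.inl (t, b)) : Fin _) : ℕ) false) = _
    rw [hφl]
    rcases b with _ | _
    · simp only [if_false, Bool.false_eq_true, Nat.zero_add]
      rw [hc1 _ h1.1, hp3]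
    · simp only [if_true]
      rw [hc3, hp3]
  have hbr : ∀ b, bx X (fun i : Fin (2 * p + 2 * q + 3) => c.getD i false) o
      (φ (Sum.inr b)) = sd X b := by
    intro b
    unfold bx
    rw [ho2 _ (by rw [hφr]; split_ifs <;> omega)]
    change sd X (c.getD ((φ (Sum.inr b) : Fin _) : ℕ) false) = _
    rw [hφr]
    rcases b with _ | _
    · simp only [if_false, Bool.false_eq_true, Nat.zero_add]
      rw [hc1 _ hm1, List.getD_append_right _ _ _ _ le_rfl, Nat.sub_self, List.getD_cons_zero]
    · simp only [if_true]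
      rw [hc3, List.getD_append_right _ _ _ _ le_rfl, Nat.sub_self, List.getD_cons_zero]
  have hPE := dens_PE' (M := {z}) h01 h02 h20 hX hX' _ hbx φ hφI hbl hbr hθ0.le hMix.le
  have hwin : ∀ f : Fin (2 * p + 2 * q + 3) → V,
      (∀ i, f i ∈ bx X (fun i : Fin (2 * p + 2 * q + 3) => c.getD i false) o i) →
      PE H {z} (f ∘ φ) → ∀ a, p + q + 1 ≤ a → a ≤ 2 * p + 2 * q + 2 →
      (Finset.univ.filter fun i : Fin (2 * p + 2 * q + 3) => a ≤ (i : ℕ) + (p + q + 1) ∧
        (i : ℕ) + (p + q + 1) < a + (p + q + 2)).image f ∈ H := by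
    intro f hf hP a ha1 ha2
    have hfz : ∀ i : Fin (2 * p + 2 * q + 3), (i : ℕ) = p + q + 1 → f i = z := by
      intro i hi
      have h1 := hf i
      unfold bx at h1
      rw [ho3 i hi] at h1
      simpa using h1
    obtain ⟨b, hb⟩ : ∃ b, a = p + q + 1 + b := ⟨a - (p + q + 1), by omega⟩
    have hb2 : b ≤ p + q + 1 := by omega
    have key : ∀ cc : Bool, (cc = true ↔ m₁.length < b) →
        (Finset.univ.filter fun i : Fin (2 * p + 2 * q + 3) => a ≤ (i : ℕ) + (p + q + 1) ∧
          (i : ℕ) + (p + q + 1) < a + (p + q + 2)).image f =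
        insert ((f ∘ φ) (Sum.inr cc)) ({z} ∪ Finset.univ.image fun t =>
          (f ∘ φ) (Sum.inl (t, decide (hp t < b)))) := by
      intro cc hcc
      have hval : ∀ (i j : Fin (2 * p + 2 * q + 3)), (i : ℕ) = j → f i = f j :=
        fun i j h => congrArg f (Fin.ext h)
      ext v
      simp only [Finset.mem_image, Finset.mem_insert, Finset.mem_union, Finset.mem_univ, true_and,
        Finset.mem_filter, Finset.mem_singleton, Function.comp_apply]
      constructor
      · rintro ⟨i, ⟨hi1, hi2⟩, rfl⟩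
        have hi3 := i.2
        rcases lt_trichotomy (i : ℕ) (p + q + 1) with h1 | h1 | h1
        · by_cases h2 : (i : ℕ) = m₁.length
          · left
            apply hval
            rw [hφr]
            have h3 : cc = false := by
              rw [← Bool.not_eq_true, hcc]
              omega
            rw [h3]
            simp only [if_false, Bool.false_eq_true]
            omega
          · obtain ⟨t, ht⟩ := hp2 i h1 h2
            right
            right
            refine ⟨t, hval _ _ ?_⟩
            have h3 : decide (hp t < b) = false := decide_eq_false (by omega)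
            rw [hφl, h3, ht]
            simp only [if_false, Bool.false_eq_true]
            omega
        · exact Or.inr (Or.inl (hfz i h1))
        · by_cases h2 : (i : ℕ) - (p + q + 2) = m₁.length
          · left
            apply hval
            rw [hφr]
            have h3 : cc = true := by
              rw [hcc]
              omega
            rw [h3]
            simp only [if_true]
            omega
          · obtain ⟨t, ht⟩ := hp2 ((i : ℕ) - (p + q + 2)) (by omega) h2
            right
            right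
            refine ⟨t, hval _ _ ?_⟩
            have h3 : decide (hp t < b) = true := decide_eq_true (by omega)
            rw [hφl, h3, ht]
            simp only [if_true]
            omega
      · rintro (h4 | h4 | ⟨t, h4⟩)
        · refine ⟨φ (Sum.inr cc), ?_, h4.symm⟩
          rw [hφr]
          rcases cc with _ | _
          · have h5 : ¬ m₁.length < b := fun h => absurd (hcc.2 h) (by decide)
            simp only [if_false, Bool.false_eq_true]
            omega
          · have h5 : m₁.length < b := hcc.1 rfl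
            simp only [if_true]
            omega
        · exact ⟨⟨p + q + 1, by omega⟩, ⟨by simp only; omega, by simp only; omega⟩,
            by rw [h4]; exact hfz _ rfl⟩
        · refine ⟨_, ?_, h4⟩
          have h5 := hp1 t
          rw [hφl]
          by_cases h6 : hp t < b
          · simp only [h6, decide_true, if_true]
            omega
          · simp only [h6, decide_false, Bool.false_eq_true, if_false]
            omega
    have h2 := hP (fun t => decide (hp t < b))
    by_cases h3 : m₁.length < b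
    · rw [key true ⟨fun _ => h3, fun _ => rfl⟩]
      exact h2.1
    · rw [key false ⟨fun h => absurd h (by decide), fun h => absurd h h3⟩]
      exact h2.2
  have hdens : (θ 1) ^ (2 ^ (p + q + 2)) ≤
      dens (bx X (fun i : Fin (2 * p + 2 * q + 3) => c.getD i false) o)
      (fun f => ∀ a, p + q + 1 ≤ a → a ≤ 2 * p + 2 * q + 2 →
      (Finset.univ.filter fun i : Fin (2 * p + 2 * q + 3) => a ≤ (i : ℕ) + (p + q + 1) ∧
        (i : ℕ) + (p + q + 1) < a + (p + q + 2)).image f ∈ H) :=
    hPE.trans ((h01 V (Fin (2 * p + 2 * q + 3)) _ hbx).2.1 _ _ hwin)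
  have hfull1 : (m₁ ++ false :: m₂ ++ [false]).length = p + q + 2 := by
    rw [List.length_append, hLl]; rfl
  have hfull2 : (true :: m₁ ++ true :: m₂).length = p + q + 2 := by
    rw [List.cons_append, List.length_cons, hRl]
  have hwA : wt (m₁ ++ false :: m₂ ++ [false]) = p := by
    have h1 : wt (m₁ ++ false :: m₂ ++ [false]) = wt m₁ + wt m₂ := by
      unfold wt
      simp
    rw [h1, hw]
  have hwB : wt (true :: m₁ ++ true :: m₂) = p + 2 := by
    have h1 : wt (true :: m₁ ++ true :: m₂) = wt m₁ + wt m₂ + 2 := by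
      unfold wt
      simp
      omega
    rw [h1, hw]
  have hres := h00 V H X Z p q B (2 * p + 2 * q + 3) δ ε ((θ 1) ^ (2 ^ (p + q + 2))) (η 0) η c
    (m₁ ++ false :: m₂ ++ [false]).tail (true :: m₁ ++ true :: m₂).dropLast o
    (fun f => ∀ a, p + q + 1 ≤ a → a ≤ 2 * p + 2 * q + 2 →
      (Finset.univ.filter fun i : Fin (2 * p + 2 * q + 3) => a ≤ (i : ℕ) + (p + q + 1) ∧
        (i : ℕ) + (p + q + 1) < a + (p + q + 2)).image f ∈ H)
    hA hC.epos hC.eone hτ hη0.le hcl (by omega)
    (by rw [List.length_tail, hfull1]; omega) (by rw [List.length_dropLast, hfull2]; omega)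
    (fun i i' v hi hi' => Fin.ext ((ho1 i v hi).1.trans (ho1 i' v hi').1.symm))
    (fun i v hi => by rw [(ho1 i v hi).2]; exact hzZ) hdens
    (by
      intro a ha
      by_cases hcore : p + q + 1 ≤ a ∧ a ≤ 2 * p + 2 * q + 2
      · left
        exact ⟨hcore.1, by omega, fun f _ hP => hP a hcore.1 hcore.2⟩
      · right
        refine ⟨?_, ?_, ?_⟩
        · rcases Nat.lt_or_ge a (p + q + 1) with h1 | h1
          · left
            have h2 : ((((m₁ ++ false :: m₂ ++ [false]).tail ++ c ++
                (true :: m₁ ++ true :: m₂).dropLast).drop a).take (p + q + 2)) =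
                (((m₁ ++ false :: m₂ ++ [false]).tail ++
                  (m₁ ++ false :: m₂ ++ [false]).dropLast).drop a).take
                  (m₁ ++ false :: m₂ ++ [false]).length := by
              rw [hfull1, List.dropLast_concat, hc]
              have e1 : (m₁ ++ false :: m₂ ++ [false]).tail ++
                  ((m₁ ++ false :: m₂) ++ decide (z ∈ X) :: (m₁ ++ true :: m₂)) ++
                  (true :: m₁ ++ true :: m₂).dropLast =
                  ((m₁ ++ false :: m₂ ++ [false]).tail ++ (m₁ ++ false :: m₂)) ++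
                  (decide (z ∈ X) :: (m₁ ++ true :: m₂) ++
                    (true :: m₁ ++ true :: m₂).dropLast) := by
                simp only [List.append_assoc]
              have e2 : ((m₁ ++ false :: m₂ ++ [false]).tail ++ (m₁ ++ false :: m₂)).length =
                  2 * p + 2 * q + 2 := by
                rw [List.length_append, List.length_tail, hfull1, hLl]; omega
              rw [e1, List.drop_append_of_le_length (by rw [e2]; omega),
                List.take_append_of_le_length (by rw [List.length_drop, e2]; omega)]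
            rw [h2, wt_win _ a (by rw [hfull1]; omega), hwA]
          · right
            have h3 : 2 * p + 2 * q + 3 ≤ a := by
              by_contra hcon
              exact hcore ⟨h1, by omega⟩
            obtain ⟨b, hb⟩ : ∃ b, a = 2 * p + 2 * q + 3 + b := ⟨a - (2 * p + 2 * q + 3), by omega⟩
            have e1 : (m₁ ++ false :: m₂ ++ [false]).tail ++ c ++
                (true :: m₁ ++ true :: m₂).dropLast =
                ((m₁ ++ false :: m₂ ++ [false]).tail ++ (m₁ ++ false :: m₂) ++
                  [decide (z ∈ X)]) ++ ((true :: m₁ ++ true :: m₂).tail ++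
                  (true :: m₁ ++ true :: m₂).dropLast) := by
              rw [hc]
              simp only [List.append_assoc, List.cons_append, List.tail_cons, List.nil_append,
                List.singleton_append]
            have e2 : ((m₁ ++ false :: m₂ ++ [false]).tail ++ (m₁ ++ false :: m₂) ++
                [decide (z ∈ X)]).length = 2 * p + 2 * q + 3 := by
              rw [List.length_append, List.length_append, List.length_tail, hfull1, hLl]
              simp only [List.length_cons, List.length_nil]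
              omega
            have h2 : ((((m₁ ++ false :: m₂ ++ [false]).tail ++ c ++
                (true :: m₁ ++ true :: m₂).dropLast).drop a).take (p + q + 2)) =
                (((true :: m₁ ++ true :: m₂).tail ++
                  (true :: m₁ ++ true :: m₂).dropLast).drop b).take
                  (true :: m₁ ++ true :: m₂).length := by
              rw [e1, hb, ← e2, List.drop_length_add_append, hfull2]
            rw [h2, wt_win _ b (by rw [hfull2]; omega), hwB]
        · intro i v _ _ hi
          obtain ⟨h1, h2⟩ := ho1 i v hi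
          rw [h1, h2, hc2]
          simp
        · intro M' hM'
          have h1 : M' = ∅ := by
            rw [Finset.eq_empty_iff_forall_notMem]
            intro v hv
            obtain ⟨i, hi1, hi2, hi3⟩ := (hM' v).1 hv
            have h2 := (ho1 i v hi3).1
            apply hcore
            omega
          rw [h1]
          exact ⟨hNon, by simp, by simp, le_rfl⟩)
    (hZ.trans hκ)
    (by
      have h1 := hC.thetaG 1 le_rfl (by omega)
      exact h1)
    (by
      have h1 := hC.thetaG 1 le_rfl (by omega)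
      have h2 := hC.delG
      have h3 := hC.eone
      have h4 : ε * η 0 ≤ η 0 := by nlinarith
      have hK1 : (1 : ℝ) ≤ ((p + q + 2 : ℕ) : ℝ) := by
        exact_mod_cast (by omega : 1 ≤ p + q + 2)
      have h5 : η 0 ≤ 32 * ((p + q + 2 : ℕ) : ℝ) * η 0 := by nlinarith
      have h6 : η (1 - 1) = η 0 := rfl
      rw [h6] at h1
      linarith)
  obtain ⟨f, f1, f2, f3, f4, _, f6⟩ := hres
  have hcut : List.ofFn f = (List.ofFn f).take (p + q + 1) ++ z ::
      (List.ofFn f).drop (p + q + 2) := by
    have hlen : p + q + 1 < (List.ofFn f).length := by rw [List.length_ofFn]; omega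
    have h1 := List.take_append_drop (p + q + 1) (List.ofFn f)
    rw [List.drop_eq_getElem_cons hlen, List.getElem_ofFn,
      f3 ⟨p + q + 1, by omega⟩ z (ho3 _ rfl)] at h1
    exact h1.symm
  have hmap : (List.ofFn f).map (fun v => decide (v ∈ X)) = c := by
    rw [List.map_ofFn]
    conv_rhs => rw [← ofFn_getD c hcl]
    congr 1
    funext i
    show decide (f i ∈ X) = c.getD i false
    have key : f i ∈ X ↔ c.getD i false = true := by
      rcases hoi : o i with _ | v
      · exact f4 i hoi
      · rw [f3 i v hoi]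
        obtain ⟨h1, h2⟩ := ho1 i v hoi
        rw [h1, h2, hc2]
        simp
    by_cases hfi : f i ∈ X
    · rw [decide_eq_true hfi, key.1 hfi]
    · rw [decide_eq_false hfi]
      cases hci : c.getD i false
      · rfl
      · exact absurd (key.2 hci) hfi
  refine ⟨(List.ofFn f).take (p + q + 1), (List.ofFn f).drop (p + q + 2), ?_, ?_, ?_, ?_, ?_⟩
  · rw [List.map_take, hmap, hc, ← hLl, List.take_left]
  · rw [List.map_drop, hmap, hc]
    have e1 : p + q + 2 = (m₁ ++ false :: m₂).length + 1 := by rw [hLl]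
    rw [e1, List.drop_length_add_append]
    rfl
  · rw [← hcut]
    exact List.nodup_ofFn.2 f1
  · rw [← hcut]
    intro u hu
    obtain ⟨i, rfl⟩ := (List.mem_ofFn' _ _).1 hu
    exact f2 i
  · rw [← hcut]
    exact f6

end Pool.Agent.KK.E.H76
end

/-! ### Helper44_KK.G_CRM -/
section
/-!
# Squad KK, block G, row G_CRM: crossing with a mixed set in slot form
-/

set_option autoImplicit false

namespace Pool.Agent.KK.E.H44

open Pool.Agent.KK Pool.Agent.KK.E Pool.Agent.KK.E.H40

/-! ## Letters -/

/-- letters of the block -/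
def lb (p q μ i : ℕ) : Bool :=
  decide ((q + 1 ≤ i ∧ i < p + q + 3) ∨ (p + 2 * q + 3 ≤ i ∧ i + μ < 2 * p + 2 * q + 4))

/-- the block -/
def cw (p q μ : ℕ) : List Bool :=
  List.replicate (q + 1) false ++ List.replicate (p + 2) true ++
    List.replicate q false ++ List.replicate (p + 1 - μ) true

/-- the letters behind the block -/
def rw' (p q μ : ℕ) : List Bool :=
  (List.replicate (μ + 1) true ++ List.replicate q false ++ List.replicate p true).take (p + q + 1)

lemma cw_length {p q μ : ℕ} (h : μ ≤ p + 1) : (cw p q μ).length + μ = 2 * (p + q + 2) := by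
  unfold cw; simp only [List.length_append, List.length_replicate]; omega

lemma rw'_length (p q μ : ℕ) : (rw' p q μ).length = p + q + 1 := by
  unfold rw'
  simp only [List.length_take, List.length_append, List.length_replicate]; omega

lemma cw_getD {p q μ : ℕ} (h : μ ≤ p + 1) (i : ℕ) : (cw p q μ).getD i false = lb p q μ i := by
  unfold cw lb
  simp only [List.getD_eq_getElem?_getD, List.getElem?_append, List.length_append,
    List.length_replicate, List.getElem?_replicate]
  split_ifs <;> simp <;> omega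

/-- letters of the whole word -/
def lw (p q j : ℕ) : Bool :=
  decide ((q ≤ j ∧ j < p + q) ∨ (p + 2 * q + 2 ≤ j ∧ j < 2 * p + 2 * q + 4) ∨
    (2 * p + 3 * q + 4 ≤ j ∧ j < 3 * p + 3 * q + 6) ∨ 3 * p + 4 * q + 6 ≤ j)

/-- the whole word -/
def ww (p q μ : ℕ) : List Bool := low p q ++ cw p q μ ++ rw' p q μ

lemma ww_length {p q μ : ℕ} (h : μ ≤ p + 1) :
    (ww p q μ).length + μ = 4 * p + 4 * q + 6 := by
  unfold ww
  have h1 := cw_length (q := q) h
  have h2 := rw'_length p q μ
  have h3 := low_length p q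
  simp only [List.length_append]
  omega

lemma ww_get {p q μ : ℕ} (h : μ ≤ p + 1) (j : ℕ) (hj : j + μ < 4 * p + 4 * q + 6) :
    (ww p q μ)[j]? = some (lw p q j) := by
  unfold ww cw rw' low lw
  simp only [List.getElem?_append, List.length_append, List.getElem?_take,
    List.length_replicate, List.length_cons, List.length_nil, List.getElem?_replicate,
    List.getElem?_cons]
  split_ifs <;> first | (exfalso; omega) | (simp; done) | (simp; omega)

/-- number of the letters `X` before the position `j` -/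
def pc (p q j : ℕ) : ℕ :=
  min (j - q) p + min (j - (p + 2 * q + 2)) (p + 2) + min (j - (2 * p + 3 * q + 4)) (p + 2) +
    (j - (3 * p + 4 * q + 6))

lemma min_succ (s w j : ℕ) :
    min (j + 1 - s) w = min (j - s) w + (if s ≤ j ∧ j < s + w then 1 else 0) := by
  split_ifs <;> omega

lemma pc_succ (p q j : ℕ) : pc p q (j + 1) = pc p q j + (if lw p q j = true then 1 else 0) := by
  have h4 : j + 1 - (3 * p + 4 * q + 6) =
      (j - (3 * p + 4 * q + 6)) + (if 3 * p + 4 * q + 6 ≤ j then 1 else 0) := by
    split_ifs <;> omega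
  have h5 : (if lw p q j = true then 1 else 0) = (if q ≤ j ∧ j < q + p then 1 else 0) +
      (if p + 2 * q + 2 ≤ j ∧ j < p + 2 * q + 2 + (p + 2) then 1 else 0) +
      (if 2 * p + 3 * q + 4 ≤ j ∧ j < 2 * p + 3 * q + 4 + (p + 2) then 1 else 0) +
      (if 3 * p + 4 * q + 6 ≤ j then 1 else 0) := by
    unfold lw
    by_cases c1 : q ≤ j ∧ j < q + p
    · rw [if_pos (by rw [decide_eq_true_iff]; omega), if_pos c1, if_neg (by omega),
        if_neg (by omega), if_neg (by omega)]
    · by_cases c2 : p + 2 * q + 2 ≤ j ∧ j < p + 2 * q + 2 + (p + 2)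
      · rw [if_pos (by rw [decide_eq_true_iff]; omega), if_neg c1, if_pos c2,
          if_neg (by omega), if_neg (by omega)]
      · by_cases c3 : 2 * p + 3 * q + 4 ≤ j ∧ j < 2 * p + 3 * q + 4 + (p + 2)
        · rw [if_pos (by rw [decide_eq_true_iff]; omega), if_neg c1, if_neg c2,
            if_pos c3, if_neg (by omega)]
        · by_cases c4 : 3 * p + 4 * q + 6 ≤ j
          · rw [if_pos (by rw [decide_eq_true_iff]; omega), if_neg c1, if_neg c2,
              if_neg c3, if_pos c4]
          · rw [if_neg (by rw [decide_eq_true_iff]; omega), if_neg c1, if_neg c2,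
              if_neg c3, if_neg c4]
  rw [h5]
  unfold pc
  rw [min_succ, min_succ, min_succ, h4]
  ring

lemma wt_take {p q μ : ℕ} (h : μ ≤ p + 1) (j : ℕ) (hj : j + μ ≤ 4 * p + 4 * q + 6) :
    wt ((ww p q μ).take j) = pc p q j := by
  induction j with
  | zero => simp [wt, pc]
  | succ j ih =>
    have h1 := ih (by omega)
    have h2 := ww_get (q := q) h j (by omega)
    rw [List.take_add_one, h2]
    unfold wt at h1 ⊢
    rw [List.count_append, h1]
    rw [pc_succ]
    simp only [Option.toList_some, List.count_singleton, beq_iff_eq]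

lemma wt_win {p q μ : ℕ} (h : μ ≤ p + 1) (a : ℕ)
    (ha : a + (p + q + 2) + μ ≤ 4 * p + 4 * q + 6) :
    (a < p + q + 1 → wt (((ww p q μ).drop a).take (p + q + 2)) = p) ∧
    (p + q + 2 ≤ a → wt (((ww p q μ).drop a).take (p + q + 2)) = p + 2) := by
  have h1 := wt_take h (a + (p + q + 2)) ha
  have h2 := wt_take (q := q) h a (by omega)
  rw [List.take_add] at h1
  unfold wt at h1 h2 ⊢
  rw [List.count_append, h2] at h1
  unfold pc at h1
  constructor
  · intro h3
    omega
  · intro h3
    omega

/-! ## Fixed positions -/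

variable {V : Type} [Fintype V] [DecidableEq V]

/-- positions of the elements of `M` in the block -/
structure Fy (p q L : ℕ) (M : Finset V) (o : Fin L → Option V) : Prop where
  none : ∀ i : Fin L, o i = none ↔ ¬ (p + q + 2 ≤ (i : ℕ) + M.card ∧ (i : ℕ) < p + q + 2)
  inj : ∀ i i' v, o i = some v → o i' = some v → i = i'
  mem : ∀ v, v ∈ M ↔ ∃ i, o i = some v

omit [Fintype V] [DecidableEq V] in
lemma exists_Fy (p q L : ℕ) (M : Finset V) (hM : M.card ≤ p + 1) (hM1 : 1 ≤ M.card)
    (hL : L + M.card = 2 * (p + q + 2)) : ∃ o, Fy p q L M o := by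
  obtain ⟨o', ho'⟩ := exists_Fx p q M hM
  refine ⟨fun i => o' ⟨(i : ℕ) + (p + q + 1), by have := i.2; omega⟩, ?_, ?_, ?_⟩
  · intro i
    rw [ho'.none]
    simp only
    constructor
    · intro h1 h2; exact h1 (by omega)
    · intro h1 h2; exact h1 (by omega)
  · intro i i' v h1 h2
    have h3 := congrArg Fin.val (ho'.inj _ _ v h1 h2)
    simp only at h3
    exact Fin.ext (by omega)
  · intro v
    rw [ho'.mem]
    constructor
    · rintro ⟨j, hj⟩
      have h1 : 2 * p + 2 * q + 3 ≤ (j : ℕ) + M.card ∧ (j : ℕ) < 2 * p + 2 * q + 3 := by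
        by_contra hcon
        rw [(ho'.none j).mpr hcon] at hj
        exact Option.some_ne_none _ hj.symm
      refine ⟨⟨(j : ℕ) - (p + q + 1), by omega⟩, ?_⟩
      rw [← hj]
      refine congrArg o' (Fin.ext ?_)
      simp only
      omega
    · rintro ⟨i, hi⟩
      exact ⟨_, hi⟩

/-- the placement of the used coordinates in the block -/
def plb (p q a L : ℕ) (hL : 2 * q + a + p + 3 ≤ L) : ((Fin a ⊕ Fin q) × Bool) ⊕ Bool → Fin L
  | Sum.inl (t, c) => ⟨(if c then p + q + 3 else 1) + rk t, by
      have := rk_lt t; split_ifs <;> omega⟩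
  | Sum.inr c => ⟨if c then p + q + 2 else 0, by split_ifs <;> omega⟩

lemma plb_inl {p q a L : ℕ} (hL : 2 * q + a + p + 3 ≤ L) (t : Fin a ⊕ Fin q) (c : Bool) :
    ((plb p q a L hL (Sum.inl (t, c))) : ℕ) = (if c then p + q + 3 else 1) + rk t := rfl

lemma plb_inr {p q a L : ℕ} (hL : 2 * q + a + p + 3 ≤ L) (c : Bool) :
    ((plb p q a L hL (Sum.inr c)) : ℕ) = if c then p + q + 2 else 0 := rfl

lemma plb_injective {p q a L : ℕ} (ha : a ≤ p) (hL : 2 * q + a + p + 3 ≤ L) :
    Function.Injective (plb p q a L hL) := by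
  intro x y hxy
  have h := congrArg Fin.val hxy
  rcases x with ⟨t, c⟩ | c <;> rcases y with ⟨t', c'⟩ | c'
  · rw [plb_inl, plb_inl] at h
    have h1 := rk_lt t
    have h2 := rk_lt t'
    have h3 : c = c' := by
      rcases c with _ | _ <;> rcases c' with _ | _
      · rfl
      · simp only [if_true, if_false, Bool.false_eq_true] at h; omega
      · simp only [if_true, if_false, Bool.false_eq_true] at h; omega
      · rfl
    subst h3
    rw [rk_inj (Nat.add_left_cancel h)]
  · rw [plb_inl, plb_inr] at h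
    have h1 := rk_lt t
    exfalso
    rcases c with _ | _ <;> rcases c' with _ | _ <;>
      simp only [if_true, if_false, Bool.false_eq_true] at h <;> omega
  · rw [plb_inl, plb_inr] at h
    have h1 := rk_lt t'
    exfalso
    rcases c with _ | _ <;> rcases c' with _ | _ <;>
      simp only [if_true, if_false, Bool.false_eq_true] at h <;> omega
  · rw [plb_inr, plb_inr] at h
    rcases c with _ | _ <;> rcases c' with _ | _
    · rfl
    · simp only [if_true, if_false, Bool.false_eq_true] at h; omega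
    · simp only [if_true, if_false, Bool.false_eq_true] at h; omega
    · rfl

/-- the window of the block starting at the absolute position `c` -/
def wb (p q L c : ℕ) : Finset (Fin L) :=
  Finset.univ.filter fun i : Fin L => c ≤ (i : ℕ) + (p + q + 1) ∧
    (i : ℕ) + (p + q + 1) < c + (p + q + 2)

lemma mem_wb {p q L c : ℕ} {i : Fin L} :
    i ∈ wb p q L c ↔ c ≤ (i : ℕ) + (p + q + 1) ∧ (i : ℕ) + (p + q + 1) < c + (p + q + 2) := by
  simp [wb]

/-- **Windows containing all of `M`.** -/
theorem core_windows {H : Finset (Finset V)} {X M : Finset V} {p q L : ℕ}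
    {o : Fin L → Option V} (hF : Fy p q L M o) (hM1 : 1 ≤ M.card)
    (hLM : L + M.card = 2 * (p + q + 2))
    {a : ℕ} (haM : a + M.card = p + 1) {l : Fin L → Bool}
    {f : Fin L → V} (hf : ∀ i, f i ∈ bx X l o i) (hL : 2 * q + a + p + 3 ≤ L)
    (hP : PE H M (f ∘ plb p q a L hL)) {c : ℕ} (hc1 : p + q + 1 ≤ c)
    (hc2 : c + M.card ≤ 2 * p + 2 * q + 3) : (wb p q L c).image f ∈ H := by
  have hfix : ∀ i v, o i = some v → f i = v := by
    intro i v hi
    have h1 := hf i
    unfold bx at h1
    rw [hi] at h1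
    simpa using h1
  have hMpos : ∀ v ∈ M, ∃ i : Fin L, f i = v ∧
      p + q + 2 ≤ (i : ℕ) + M.card ∧ (i : ℕ) < p + q + 2 := by
    intro v hv
    obtain ⟨i, hi⟩ := (hF.mem v).mp hv
    refine ⟨i, hfix i v hi, ?_⟩
    by_contra hcon
    rw [(hF.none i).mpr hcon] at hi
    exact Option.some_ne_none _ hi.symm
  have hfM : ∀ i : Fin L, p + q + 2 ≤ (i : ℕ) + M.card →
      (i : ℕ) < p + q + 2 → f i ∈ M := by
    intro i h1 h2
    have h3 : o i ≠ none := fun hcon => (hF.none i).mp hcon ⟨h1, h2⟩
    obtain ⟨v, hv⟩ := Option.ne_none_iff_exists'.mp h3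
    rw [hfix i v hv]
    exact (hF.mem v).mpr ⟨i, hv⟩
  have hval : ∀ (i j : Fin L), (i : ℕ) = j → f i = f j :=
    fun i j h => congrArg f (Fin.ext h)
  rcases Nat.eq_or_lt_of_le hc1 with h1 | h1
  · -- the window starting at `k - 1`
    have h2 := (hP (fun _ => false)).2
    have h3 : (wb p q L c).image f = insert ((f ∘ plb p q a L hL) (Sum.inr false))
        (M ∪ Finset.univ.image fun i => (f ∘ plb p q a L hL) (Sum.inl (i, false))) := by
      ext v
      simp only [Finset.mem_image, Finset.mem_insert, Finset.mem_union, Finset.mem_univ, true_and,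
        mem_wb, Function.comp_apply]
      constructor
      · rintro ⟨i, ⟨hi1, hi2⟩, rfl⟩
        by_cases h4 : (i : ℕ) = 0
        · exact Or.inl (hval _ _ (by rw [plb_inr]; simpa using h4))
        · by_cases h5 : (i : ℕ) + M.card < p + q + 2
          · obtain ⟨t, ht⟩ := rk_surj (a := a) (q := q) (j := (i : ℕ) - 1) (by omega)
            refine Or.inr (Or.inr ⟨t, hval _ _ ?_⟩)
            rw [plb_inl, ht]
            simp only [Bool.false_eq_true, if_false]
            omega
          · exact Or.inr (Or.inl (hfM i (by omega) (by omega)))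
      · rintro (h4 | h4 | ⟨t, h4⟩)
        · refine ⟨plb p q a L hL (Sum.inr false), ?_, h4.symm⟩
          rw [plb_inr]
          simp only [Bool.false_eq_true, if_false]
          omega
        · obtain ⟨i, hi, hi1, hi2⟩ := hMpos v h4
          exact ⟨i, by omega, hi⟩
        · refine ⟨plb p q a L hL (Sum.inl (t, false)), ?_, h4⟩
          have h5 := rk_lt t
          rw [plb_inl]
          simp only [Bool.false_eq_true, if_false]
          omega
    rw [h3]
    exact h2
  · -- the windows starting later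
    have h2 := (hP (fun t => decide (rk t + (p + q + 2) < c))).1
    have h3 : (wb p q L c).image f = insert ((f ∘ plb p q a L hL) (Sum.inr true))
        (M ∪ Finset.univ.image fun i =>
          (f ∘ plb p q a L hL) (Sum.inl (i, decide (rk i + (p + q + 2) < c)))) := by
      ext v
      simp only [Finset.mem_image, Finset.mem_insert, Finset.mem_union, Finset.mem_univ, true_and,
        mem_wb, Function.comp_apply]
      constructor
      · rintro ⟨i, ⟨hi1, hi2⟩, rfl⟩
        by_cases h4 : (i : ℕ) = p + q + 2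
        · exact Or.inl (hval _ _ (by rw [plb_inr]; simpa using h4))
        · by_cases h5 : (i : ℕ) + M.card < p + q + 2
          · obtain ⟨t, ht⟩ := rk_surj (a := a) (q := q) (j := (i : ℕ) - 1) (by omega)
            refine Or.inr (Or.inr ⟨t, hval _ _ ?_⟩)
            have h6 : ¬ (rk t + (p + q + 2) < c) := by omega
            rw [plb_inl]
            simp only [h6, decide_false, Bool.false_eq_true, if_false]
            omega
          · by_cases h7 : (i : ℕ) < p + q + 2
            · exact Or.inr (Or.inl (hfM i (by omega) h7))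
            · obtain ⟨t, ht⟩ := rk_surj (a := a) (q := q) (j := (i : ℕ) - (p + q + 3))
                (by omega)
              refine Or.inr (Or.inr ⟨t, hval _ _ ?_⟩)
              have h6 : rk t + (p + q + 2) < c := by omega
              rw [plb_inl]
              simp only [h6, decide_true, if_true]
              omega
      · rintro (h4 | h4 | ⟨t, h4⟩)
        · refine ⟨plb p q a L hL (Sum.inr true), ?_, h4.symm⟩
          rw [plb_inr]
          simp only [if_true]
          omega
        · obtain ⟨i, hi, hi1, hi2⟩ := hMpos v h4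
          exact ⟨i, by omega, hi⟩
        · refine ⟨_, ?_, h4⟩
          have h5 := rk_lt t
          rw [plb_inl]
          by_cases h6 : rk t + (p + q + 2) < c
          · simp only [h6, decide_true, if_true]
            omega
          · simp only [h6, decide_false, Bool.false_eq_true, if_false]
            omega
    rw [h3]
    exact h2

/-- **The density of the event.** -/
theorem dens_PB (h01 : StmtE01) (h02 : StmtE02) (h20 : StmtE20) {H : Finset (Finset V)}
    {X M : Finset V} {p q L : ℕ} (hX : X.Nonempty) (hX' : (Xᶜ).Nonempty)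
    {o : Fin L → Option V} (hF : Fy p q L M o) (hM1 : 1 ≤ M.card)
    (hLM : L + M.card = 2 * (p + q + 2))
    {a : ℕ} (haM : a + M.card = p + 1) (hL : 2 * q + a + p + 3 ≤ L) {d : ℝ} (hd0 : 0 ≤ d)
    (hd1 : d ≤ 1) (hd : d ≤ Mix H X M a q) :
    d ^ (2 ^ (p + q + 2)) ≤
      dens (bx X (fun i : Fin L => (cw p q M.card).getD (i : ℕ) false) o)
        (fun f => PE H M (f ∘ plb p q a L hL)) := by
  have hsd : ∀ b, (sd X b).Nonempty := by
    intro b
    unfold sd
    split_ifs
    · exact hX
    · exact hX'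
  have hlets : ∀ i, (lets X a q i).Nonempty := by
    intro i
    rcases i with i | i
    · exact hX
    · exact hX'
  set cM : (Fin a ⊕ Fin q) ⊕ Bool → Finset V :=
    Sum.elim (lets X a q) (fun t : Bool => sd X t) with hcM
  have hcMne : ∀ i, (cM i).Nonempty := by
    intro i
    rcases i with i | i
    · exact hlets i
    · exact hsd i
  have h1 := h20 V ((Fin a ⊕ Fin q) ⊕ Bool) cM
    (fun f => insert (f (Sum.inr true)) (M ∪ Finset.univ.image fun i => f (Sum.inl i)) ∈ H ∧
      insert (f (Sum.inr false)) (M ∪ Finset.univ.image fun i => f (Sum.inl i)) ∈ H) d hcMne hd0 hd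
  have hcard : Fintype.card ((Fin a ⊕ Fin q) ⊕ Bool) ≤ p + q + 2 := by
    simp only [Fintype.card_sum, Fintype.card_fin, Fintype.card_bool]
    omega
  have h2 : d ^ (2 ^ (p + q + 2)) ≤ d ^ (2 ^ Fintype.card ((Fin a ⊕ Fin q) ⊕ Bool)) :=
    pow_le_pow_of_le_one hd0 hd1 (Nat.pow_le_pow_right (by norm_num) hcard)
  refine h2.trans (h1.trans ?_)
  let ψ : ((Fin a ⊕ Fin q) × Bool) ⊕ Bool → ((Fin a ⊕ Fin q) ⊕ Bool) × Bool :=
    Sum.elim (fun x => (Sum.inl x.1, x.2)) (fun b => (Sum.inr b, false))
  have hψ : Function.Injective ψ := by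
    intro x y hxy
    rcases x with ⟨t, c⟩ | c <;> rcases y with ⟨t', c'⟩ | c' <;>
      simp only [ψ, Sum.elim_inl, Sum.elim_inr, Prod.mk.injEq, Sum.inl.injEq, Sum.inr.injEq,
        reduceCtorEq, false_and, and_true] at hxy
    · rw [hxy.1, hxy.2]
    · rw [hxy]
  have hbig : ∀ z : ((Fin a ⊕ Fin q) ⊕ Bool) × Bool,
      ((fun z : ((Fin a ⊕ Fin q) ⊕ Bool) × Bool => cM z.1) z).Nonempty := fun z => hcMne z.1
  have h3 := (h01 V (((Fin a ⊕ Fin q) ⊕ Bool) × Bool) (fun z => cM z.1) hbig).2.1
    (fun g => ∀ s : (Fin a ⊕ Fin q) ⊕ Bool → Bool,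
      insert ((fun i => g (i, s i)) (Sum.inr true))
        (M ∪ Finset.univ.image fun i => (fun i => g (i, s i)) (Sum.inl i)) ∈ H ∧
      insert ((fun i => g (i, s i)) (Sum.inr false))
        (M ∪ Finset.univ.image fun i => (fun i => g (i, s i)) (Sum.inl i)) ∈ H)
    (fun g => PE H M (g ∘ ψ)) (by
      intro g _ hg s
      exact hg (Sum.elim s (fun _ => false)))
  refine h3.trans (le_of_eq ?_)
  rw [h02 V (((Fin a ⊕ Fin q) ⊕ Bool) × Bool) (((Fin a ⊕ Fin q) × Bool) ⊕ Bool)
    (fun z => cM z.1) ψ hbig hψ (PE H M)]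
  have hbx : ∀ i, (bx X (fun i : Fin L => (cw p q M.card).getD (i : ℕ) false) o i).Nonempty := by
    intro i
    unfold bx
    rcases o i with _ | v
    · exact hsd _
    · exact ⟨v, by simp⟩
  rw [h02 V (Fin L) (((Fin a ⊕ Fin q) × Bool) ⊕ Bool) _ (plb p q a L hL) hbx
    (plb_injective (by omega) hL) (PE H M)]
  congr 1
  funext x
  simp only [Function.comp_apply]
  have hnone : o (plb p q a L hL x) = none := by
    rw [hF.none]
    rcases x with ⟨t, c⟩ | c
    · have h5 := rk_lt t
      rw [plb_inl]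
      rcases c with _ | _ <;> simp only [Bool.false_eq_true, if_true, if_false] <;> omega
    · rw [plb_inr]
      rcases c with _ | _ <;> simp only [Bool.false_eq_true, if_true, if_false] <;> omega
  unfold bx
  rw [hnone]
  show cM (ψ x).1 = sd X ((cw p q M.card).getD ((plb p q a L hL x : Fin L) : ℕ) false)
  rw [cw_getD (by omega)]
  rcases x with ⟨t, c⟩ | c
  · rw [plb_inl]
    rcases t with t | t
    · have h5 := t.2
      have h6 : lb p q M.card ((if c then p + q + 3 else 1) +
          rk (Sum.inl t : Fin a ⊕ Fin q)) = true := by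
        unfold lb
        rw [decide_eq_true_iff]
        simp only [rk, Sum.elim_inl]
        rcases c with _ | _ <;> simp only [Bool.false_eq_true, if_true, if_false] <;> omega
      rw [h6]
      rfl
    · have h5 := t.2
      have h6 : lb p q M.card ((if c then p + q + 3 else 1) +
          rk (Sum.inr t : Fin a ⊕ Fin q)) = false := by
        unfold lb
        rw [decide_eq_false_iff_not]
        simp only [rk, Sum.elim_inr]
        rcases c with _ | _ <;> simp only [Bool.false_eq_true, if_true, if_false] <;> omega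
      rw [h6]
      rfl
  · rw [plb_inr]
    rcases c with _ | _
    · have h6 : lb p q M.card (if (false : Bool) then p + q + 2 else 0) = false := by
        unfold lb
        rw [decide_eq_false_iff_not]
        simp only [Bool.false_eq_true, if_false]
        omega
      rw [h6]
      rfl
    · have h6 : lb p q M.card (if (true : Bool) then p + q + 2 else 0) = true := by
        unfold lb
        rw [decide_eq_true_iff]
        simp only [if_true]
        omega
      rw [h6]
      rfl

/-! ## The row -/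

theorem g_crm (h01 : StmtE01) (h02 : StmtE02) (_h18 : StmtE18) (h20 : StmtE20)
    (h00 : StmtG00) : StmtG09 := by
  intro V _ _ H X M Z p q B δ h ε η θ hA hG hMst hZB hMZ hne hMX hMp hmix
  have hM1 : 1 ≤ M.card := Finset.card_pos.mpr hne
  have hC := hG.cst
  have hk : (2 : ℝ) ≤ ((p + q + 2 : ℕ) : ℝ) := by
    have : (2 : ℕ) ≤ p + q + 2 := by omega
    exact_mod_cast this
  -- numbers
  have hθpos : 0 < θ M.card := hC.tpos _ hM1 (by omega)
  have hηM := hC.pos M.card (by omega)
  have hηM' := hC.half M.card (by omega)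
  have hθ1 : θ M.card ≤ 1 := by
    have h1 := hC.tsmall M.card hM1 (by omega)
    refine h1.trans ?_
    have hh := hC.hsmall
    have hh0 := hC.hpos
    have h2 : h ≤ 1 := by
      refine hh.trans ?_
      rw [div_le_one (by positivity)]
      have h3 : (1 : ℝ) ≤ 2 ^ (p + q + 2) := one_le_pow₀ (by norm_num)
      nlinarith
    have h4 : η M.card * h / (16 * ((p + q + 2 : ℕ) : ℝ)) ≤ 1 := by
      rw [div_le_one (by positivity)]
      nlinarith
    have h5 : 0 ≤ η M.card * h / (16 * ((p + q + 2 : ℕ) : ℝ)) := by positivity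
    exact pow_le_one₀ h5 h4
  set τ : ℝ := (θ M.card) ^ (2 ^ (p + q + 2)) with hτ
  have hτpos : 0 < τ := pow_pos hθpos _
  have hτ1 : τ ≤ 1 := pow_le_one₀ hθpos.le hθ1
  have he1 := hG.thetaG M.card hM1 (by omega)
  have hη0 : 0 < η 0 := hC.pos 0 (by omega)
  have hηmono : η 0 ≤ η (M.card - 1) := eta_mono hC (by omega) (by omega) (by omega)
  have hδ := hG.delG
  have hε := hG.epos
  have hε1 := hG.eone
  have hδτ : 100 * ((p + q + 2 : ℕ) : ℝ) * δ ≤ ε * τ := by
    have h1 : ε * η 0 ≤ ε * η (M.card - 1) := mul_le_mul_of_nonneg_left hηmono hε.le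
    have h2 : ε * η (M.card - 1) ≤ 1 * η (M.card - 1) :=
      mul_le_mul_of_nonneg_right hε1 (by linarith)
    have h3 : 1 * η (M.card - 1) ≤ 32 * ((p + q + 2 : ℕ) : ℝ) * η (M.card - 1) :=
      mul_le_mul_of_nonneg_right (by linarith) (by linarith)
    linarith
  have hn0 : (0 : ℝ) ≤ (Fintype.card V : ℝ) := Nat.cast_nonneg _
  have hZ : (Z.card : ℝ) ≤ τ / (100 * ((p + q + 2 : ℕ) : ℝ)) * (Fintype.card V : ℝ) := by
    have hbig := hA.big
    have h1 : (Z.card : ℝ) ≤ (B : ℝ) := by exact_mod_cast hZB
    have h2 : (B : ℝ) ≤ ((B + p + q + 2 : ℕ) : ℝ) := by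
      have : B ≤ B + p + q + 2 := by omega
      exact_mod_cast this
    have hB0 : (0 : ℝ) ≤ (B : ℝ) := Nat.cast_nonneg _
    have h3 : (B : ℝ) ≤ δ * (Fintype.card V : ℝ) := by
      have h4 : (1 : ℝ) ≤ 100 * ((p + q + 2 : ℕ) : ℝ) ^ 2 := by nlinarith
      have h5 : 1 * ((B + p + q + 2 : ℕ) : ℝ) ≤
          100 * ((p + q + 2 : ℕ) : ℝ) ^ 2 * ((B + p + q + 2 : ℕ) : ℝ) :=
        mul_le_mul_of_nonneg_right h4 (Nat.cast_nonneg _)
      linarith
    have h4 : δ ≤ τ / (100 * ((p + q + 2 : ℕ) : ℝ)) := by
      rw [le_div_iff₀ (by positivity)]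
      have h5 : ε * τ ≤ 1 * τ := mul_le_mul_of_nonneg_right hε1 hτpos.le
      linarith
    have h5 : δ * (Fintype.card V : ℝ) ≤
        τ / (100 * ((p + q + 2 : ℕ) : ℝ)) * (Fintype.card V : ℝ) :=
      mul_le_mul_of_nonneg_right h4 hn0
    linarith
  -- nonempty sides
  have hnpos : (0 : ℝ) < (Fintype.card V : ℝ) := by
    have h1 : 0 < Fintype.card V := by
      obtain ⟨v, _⟩ := hne
      exact Fintype.card_pos_iff.mpr ⟨v⟩
    exact_mod_cast h1
  have hX : X.Nonempty := hne.mono hMX
  have hX' : (Xᶜ).Nonempty := by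
    rw [← Finset.card_pos]
    have h1 := hA.lo'
    have h2 := hA.small
    have h3 : (0 : ℝ) < ((Xᶜ).card : ℝ) := by
      refine lt_of_lt_of_le ?_ h1
      have : (0 : ℝ) < 1 - δ := by linarith
      positivity
    exact_mod_cast h3
  -- the positions
  obtain ⟨L, hL⟩ : ∃ L, L + M.card = 2 * (p + q + 2) := ⟨2 * (p + q + 2) - M.card, by omega⟩
  obtain ⟨o, ho⟩ := exists_Fy p q L M hMp hM1 hL
  have hcwl : (cw p q M.card).length = L := by
    have := cw_length (q := q) hMp
    omega
  have hLa : 2 * q + (p + 1 - M.card) + p + 3 ≤ L := by omega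
  have hlett : ∀ (i : Fin L) (v : V), o i = some v →
      (v ∈ X ↔ (cw p q M.card).getD (i : ℕ) false = true) := by
    intro i v hi
    have h1 : v ∈ X := hMX ((ho.mem v).mpr ⟨i, hi⟩)
    have h2 : p + q + 2 ≤ (i : ℕ) + M.card ∧ (i : ℕ) < p + q + 2 := by
      by_contra hcon
      rw [(ho.none i).mpr hcon] at hi
      exact Option.some_ne_none _ hi.symm
    rw [cw_getD hMp]
    refine ⟨fun _ => ?_, fun _ => h1⟩
    unfold lb
    rw [decide_eq_true_iff]
    omega
  have hlen : ∀ a : ℕ, a + (p + q + 2) ≤ L + 2 * (p + q + 1) →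
      a + (p + q + 2) + M.card ≤ 4 * p + 4 * q + 6 := by intro a ha; omega
  obtain ⟨f, hinj, hfZ, hfo, hfl, _, hOK⟩ := h00 V H X Z p q B L δ ε τ (η (M.card - 1)) η
    (cw p q M.card) (low p q) (rw' p q M.card) o
    (fun f => PE H M (f ∘ plb p q (p + 1 - M.card) L hLa)) hA hε hε1 hτpos
    (by linarith) hcwl (by omega) (low_length p q) (rw'_length p q _) ho.inj
    (by
      intro i v hi hv
      exact Finset.disjoint_left.mp hMZ ((ho.mem v).mpr ⟨i, hi⟩) hv)
    (dens_PB h01 h02 h20 hX hX' ho hM1 hL (by omega) hLa hθpos.le hθ1 hmix.le)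
    (by
      intro a ha
      have hw := wt_win hMp a (hlen a ha)
      by_cases hcore : p + q + 1 ≤ a ∧ a + M.card ≤ 2 * p + 2 * q + 3
      · refine Or.inl ⟨hcore.1, by omega, ?_⟩
        intro f hf hPf
        exact core_windows ho hM1 hL (by omega) hf hLa hPf hcore.1 hcore.2
      · refine Or.inr ⟨?_, fun i v _ _ hi => hlett i v hi, ?_⟩
        · by_cases h1 : a < p + q + 1
          · exact Or.inl (hw.1 h1)
          · exact Or.inr (hw.2 (by omega))
        · intro M' hM'
          have hsub : M' ⊆ M := by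
            intro v hv
            obtain ⟨i, _, _, hi⟩ := (hM' v).mp hv
            exact (ho.mem v).mpr ⟨i, hi⟩
          -- a fixed position outside the window
          have hout : ∃ i : Fin L, ¬ (a ≤ (i : ℕ) + (p + q + 1) ∧
              (i : ℕ) + (p + q + 1) < a + (p + q + 2)) ∧ o i ≠ none := by
            by_cases h1 : a < p + q + 1
            · refine ⟨⟨p + q + 1, by omega⟩, ?_, ?_⟩
              · simp only
                omega
              · intro hcon
                refine (ho.none _).mp hcon ?_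
                simp only
                omega
            · refine ⟨⟨p + q + 2 - M.card, by omega⟩, ?_, ?_⟩
              · simp only
                omega
              · intro hcon
                refine (ho.none _).mp hcon ?_
                simp only
                omega
          have hss : M' ⊂ M := by
            refine Finset.ssubset_iff_subset_ne.mpr ⟨hsub, fun heq => ?_⟩
            obtain ⟨i, hi, hi'⟩ := hout
            obtain ⟨v, hv⟩ := Option.ne_none_iff_exists'.mp hi'
            have h1 : v ∈ M := (ho.mem v).mpr ⟨i, hv⟩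
            rw [← heq] at h1
            obtain ⟨j, hj1, hj2, hj'⟩ := (hM' v).mp h1
            rw [ho.inj i j v hv hj'] at hi
            exact hi ⟨hj1, hj2⟩
          have hcard : M'.card < M.card := Finset.card_lt_card hss
          have hMX' : M' ⊆ X := hsub.trans hMX
          have hsd : M' \ X = ∅ := Finset.sdiff_eq_empty_iff_subset.mpr hMX'
          refine ⟨hMst.2 M' hss, ?_, ?_, eta_mono hC (by omega) (by omega) (by omega)⟩
          · have := Finset.card_le_card (Finset.inter_subset_left : M' ∩ X ⊆ M')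
            omega
          · rw [hsd]
            simp)
    hZ he1 hδτ
  refine ⟨List.ofFn f, List.nodup_ofFn.mpr hinj, ?_, ?_, hOK⟩
  · intro v hv
    obtain ⟨i, rfl⟩ := (List.mem_ofFn' f v).mp hv
    exact hfZ i
  · show List.map (fun v => decide (v ∈ X)) (List.ofFn f) = cw p q M.card
    refine List.ext_getElem (by rw [List.length_map, List.length_ofFn, hcwl]) ?_
    intro i h1 h2
    rw [List.getElem_map, List.getElem_ofFn]
    have h3 : i < L := by omega
    have h4 : (cw p q M.card).getD i false = (cw p q M.card)[i] := List.getD_eq_getElem _ _ h2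
    have h5 : (f ⟨i, h3⟩ ∈ X ↔ (cw p q M.card).getD i false = true) := by
      by_cases h6 : o ⟨i, h3⟩ = none
      · exact hfl ⟨i, h3⟩ h6
      · obtain ⟨v, hv⟩ := Option.ne_none_iff_exists'.mp h6
        rw [hfo _ _ hv]
        exact hlett _ _ hv
    rw [← h4]
    rcases hb : (cw p q M.card).getD i false with _ | _
    · rw [decide_eq_false_iff_not, h5, hb]
      simp
    · rw [decide_eq_true_iff, h5, hb]

end Pool.Agent.KK.E.H44
end
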