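import Pool.Agent.KKM.Base

/-! # MP_747bc0_co, merged modules -/

/-! ### Helper70_KK.TYP -/
section
/-! MP_747bc0_co, block B, row TYP: the system of the states of type at least `j`. -/

namespace Pool.Agent.KK.B.H70

open Function
open scoped Classical

theorem td_indep {k : ℕ} {V : Type} (X : V → Prop) (j : ℕ) (i : Fin k) (a : Fin k → V) (v : V) :
    TD X j i (update a i v) ↔ TD X j i a := by
  unfold TD
  have h : Finset.univ.filter (fun l : Fin k => l ≠ i ∧ X (update a i v l)) =
      Finset.univ.filter (fun l : Fin k => l ≠ i ∧ X (a l)) := by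
    ext l
    rw [Finset.mem_filter, Finset.mem_filter]
    refine and_congr Iff.rfl ?_
    constructor
    · rintro ⟨h1, h2⟩
      rw [update_of_ne h1] at h2
      exact ⟨h1, h2⟩
    · rintro ⟨h1, h2⟩
      rw [update_of_ne h1]
      exact ⟨h1, h2⟩
  rw [h]

theorem td_le_typ {k : ℕ} {V : Type} (X : V → Prop) {j : ℕ} {i : Fin k} {e : Fin k → V}
    (h : TD X j i e) : j ≤ typ X e := by
  unfold TD at h
  refine h.trans ?_
  unfold typ
  apply Finset.card_le_card
  intro l hl
  rw [Finset.mem_filter] at hl ⊢
  exact ⟨hl.1, hl.2.2⟩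

theorem typ_le_of_not_td {k : ℕ} {V : Type} (X : V → Prop) {j : ℕ} {i : Fin k} {e : Fin k → V}
    (h : ¬ TD X j i e) : typ X e ≤ j := by
  unfold TD at h
  push Not at h
  have h1 : typ X e ≤ (insert i (Finset.univ.filter (fun l : Fin k => l ≠ i ∧ X (e l)))).card := by
    unfold typ
    apply Finset.card_le_card
    intro l hl
    rw [Finset.mem_filter] at hl
    rw [Finset.mem_insert, Finset.mem_filter]
    by_cases hli : l = i
    · exact Or.inl hli
    · exact Or.inr ⟨hl.1, hli, hl.2⟩
  have h2 := Finset.card_insert_le i (Finset.univ.filter (fun l : Fin k => l ≠ i ∧ X (e l)))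
  omega

theorem not_mono_typ {k : ℕ} {V : Type} [Fintype V] (X : V → Prop) {j : ℕ} {e : Fin k → V}
    (h : ¬ Mono (TD X j) e) : typ X e = j := by
  unfold Mono at h
  push Not at h
  obtain ⟨i, l, h1⟩ := h
  rcases h1 with ⟨h2, h3⟩ | ⟨h2, h3⟩
  · exact le_antisymm (typ_le_of_not_td X h3) (td_le_typ X h2)
  · exact le_antisymm (typ_le_of_not_td X h2) (td_le_typ X h3)

theorem typ' : TypStmt := by
  intro k V _ _ E X j i0 i1 h01 hj1 hjk hX
  have hX' := abs_le.1 hX
  refine ⟨fun i a v => td_indep X j i a v, ?_, ?_⟩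
  · unfold Closed tden
    apply dens_mono
    intro e he
    exact ⟨he.1, not_mono_typ X he.2⟩
  · -- the set J
    have hT : j - 1 ≤ ((Finset.univ.erase i0).erase i1).card := by
      rw [Finset.card_erase_of_mem (Finset.mem_erase.2 ⟨h01.symm, Finset.mem_univ _⟩),
        Finset.card_erase_of_mem (Finset.mem_univ _), Finset.card_univ, Fintype.card_fin]
      omega
    obtain ⟨J, hJT, hJc⟩ := Finset.exists_subset_card_eq hT
    have hJ0 : i0 ∉ J := fun h => by
      have := hJT h
      rw [Finset.mem_erase, Finset.mem_erase] at this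
      exact this.2.1 rfl
    have hJ1 : i1 ∉ J := fun h => by
      have := hJT h
      rw [Finset.mem_erase] at this
      exact this.1 rfl
    obtain ⟨Q, hQ⟩ : ∃ Q : Fin k → V → Prop, Q = fun m v => m ≠ i0 → m ≠ i1 → (X v ↔ m ∈ J) :=
      ⟨_, rfl⟩
    have hQd : ∀ m, (1 / 4 : ℝ) ≤ dens (Q m) := by
      intro m
      by_cases hm : m ∈ J
      · refine le_trans ?_ (dens_mono (P := X) (Q := Q m) fun v hv => ?_)
        · linarith
        · rw [hQ]
          intro _ _
          exact ⟨fun _ => hm, fun _ => hv⟩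
      · refine le_trans ?_ (dens_mono (P := fun v => ¬ X v) (Q := Q m) fun v hv => ?_)
        · rw [dens_not]
          linarith
        · rw [hQ]
          intro _ _
          exact ⟨fun h => absurd h hv, fun h => absurd h hm⟩
    have h1 : (1 / 4 : ℝ) ^ k ≤ dens (fun a : Fin k → V => ∀ m, Q m (a m)) := by
      rw [dens_pi]
      calc (1 / 4 : ℝ) ^ k = ∏ _m : Fin k, (1 / 4 : ℝ) := by
            rw [Finset.prod_const, Finset.card_univ, Fintype.card_fin]
        _ ≤ ∏ m, dens (Q m) := Finset.prod_le_prod (fun _ _ => by norm_num) fun m _ => hQd m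
    refine h1.trans (dens_mono fun a ha => ?_)
    have key : ∀ p, (TD X j i0 (update a i1 p) ↔ X p) := by
      intro p
      unfold TD
      by_cases hp : X p
      · have h2 : Finset.univ.filter (fun l : Fin k => l ≠ i0 ∧ X (update a i1 p l)) =
            insert i1 J := by
          ext l
          rw [Finset.mem_filter, Finset.mem_insert]
          by_cases hl1 : l = i1
          · subst hl1
            rw [update_self]
            exact ⟨fun _ => Or.inl rfl, fun _ => ⟨Finset.mem_univ _, h01.symm, hp⟩⟩
          · rw [update_of_ne hl1]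
            constructor
            · rintro ⟨-, h3, h4⟩
              have h5 := ha l
              rw [hQ] at h5
              exact Or.inr ((h5 h3 hl1).1 h4)
            · rintro (h3 | h3)
              · exact absurd h3 hl1
              · have hl0 : l ≠ i0 := fun h => hJ0 (h ▸ h3)
                have h5 := ha l
                rw [hQ] at h5
                exact ⟨Finset.mem_univ _, hl0, (h5 hl0 hl1).2 h3⟩
        rw [h2, Finset.card_insert_of_notMem hJ1, hJc]
        exact ⟨fun _ => hp, fun _ => by omega⟩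
      · have h2 : Finset.univ.filter (fun l : Fin k => l ≠ i0 ∧ X (update a i1 p l)) = J := by
          ext l
          rw [Finset.mem_filter]
          by_cases hl1 : l = i1
          · subst hl1
            rw [update_self]
            exact ⟨fun h => absurd h.2.2 hp, fun h => absurd h hJ1⟩
          · rw [update_of_ne hl1]
            constructor
            · rintro ⟨-, h3, h4⟩
              have h5 := ha l
              rw [hQ] at h5
              exact (h5 h3 hl1).1 h4
            · intro h3
              have hl0 : l ≠ i0 := fun h => hJ0 (h ▸ h3)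
              have h5 := ha l
              rw [hQ] at h5
              exact ⟨Finset.mem_univ _, hl0, (h5 hl0 hl1).2 h3⟩
        rw [h2, hJc]
        exact ⟨fun h => by omega, fun h => absurd h hp⟩
    refine ⟨?_, key⟩
    unfold Sp
    have h3 : dens (fun p => TD X j i0 (update a i1 p)) = dens X := dens_congr key
    rw [h3]
    constructor <;> linarith

end Pool.Agent.KK.B.H70
end

/-! ### Helper70_KK.MIN -/
section
/-! MP_747bc0_co, block B, row MIN: the majority value does not depend on the missing letter. -/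

namespace Pool.Agent.KK.B.H70

open Function
open scoped Classical

theorem dens_and {α β : Type*} [Fintype α] [Fintype β] (R : α → Prop) (S : β → Prop) :
    dens (fun x : α × β => R x.1 ∧ S x.2) = dens R * dens S := by
  rw [dens_prod (fun a z => R a ∧ S z)]
  have h : ∀ a, dens (fun z => R a ∧ S z) = if R a then dens S else 0 := by
    intro a
    by_cases ha : R a
    · rw [if_pos ha]
      exact dens_congr fun z => ⟨fun h => h.2, fun h => ⟨ha, h⟩⟩
    · rw [if_neg ha, ← dens_false (α := β)]
      exact dens_congr fun z => ⟨fun h => ha h.1, fun h => h.elim⟩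
  rw [Finset.sum_congr rfl fun a _ => h a, ← Finset.sum_filter, Finset.sum_const, nsmul_eq_mul]
  conv_rhs => rw [dens_eq R]
  ring

theorem dens_wd {k : ℕ} {V : Type} [Fintype V] (X : V → Prop) (i : Fin k) (W : Fin k → Bool)
    (P : (Fin k → V) → Prop) (hP : ∀ a v, P (update a i v) ↔ P a) :
    dens (fun a => P a ∧ wd X W a) =
      dens (fun a : Fin k → V => P a ∧ ∀ l, l ≠ i → (X (a l) ↔ W l = true)) *
        dens (fun v => (X v ↔ W i = true)) := by
  rw [← dens_and, ← dens_update i (fun a => P a ∧ wd X W a)]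
  apply dens_congr
  rintro ⟨a, z⟩
  show (P (update a i z) ∧ wd X W (update a i z)) ↔ _
  constructor
  · rintro ⟨h1, h2⟩
    refine ⟨⟨(hP a z).1 h1, fun l hl => ?_⟩, ?_⟩
    · have := h2 l
      rwa [update_of_ne hl] at this
    · have := h2 i
      rwa [update_self] at this
  · rintro ⟨⟨h1, h2⟩, h3⟩
    refine ⟨(hP a z).2 h1, fun l => ?_⟩
    by_cases hl : l = i
    · subst hl
      rw [update_self]
      exact h3
    · rw [update_of_ne hl]
      exact h2 l hl

theorem minT : MinStmt := by
  intro k V _ _ D X i W b hI h0 h1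
  have hc : ∀ c : Bool, 0 < dens (fun v => (X v ↔ c = true)) := by
    intro c
    cases c
    · have h2 : dens (fun v => (X v ↔ false = true)) = dens (fun v => ¬ X v) :=
        dens_congr fun v => by simp
      rw [h2, dens_not]
      linarith
    · have h2 : dens (fun v => (X v ↔ true = true)) = dens X := dens_congr fun v => by simp
      rw [h2]
      exact h0
  have key : ∀ W : Fin k → Bool, maj D X i W ↔
      dens (fun a : Fin k → V => ¬ D i a ∧ ∀ l, l ≠ i → (X (a l) ↔ W l = true)) ≤
      dens (fun a : Fin k → V => D i a ∧ ∀ l, l ≠ i → (X (a l) ↔ W l = true)) := by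
    intro W
    unfold maj
    rw [dens_wd X i W (fun a => ¬ D i a) (fun a v => not_congr (hI i a v)),
      dens_wd X i W (D i) (fun a v => hI i a v)]
    exact mul_le_mul_iff_left₀ (hc (W i))
  rw [key, key]
  have h2 : ∀ P : (Fin k → V) → Prop,
      dens (fun a : Fin k → V => P a ∧ ∀ l, l ≠ i → (X (a l) ↔ (update W i b) l = true)) =
      dens (fun a : Fin k → V => P a ∧ ∀ l, l ≠ i → (X (a l) ↔ W l = true)) := by
    intro P
    apply dens_congr
    intro a
    refine and_congr Iff.rfl (forall_congr' fun l => ?_)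
    constructor
    · intro h hl
      have := h hl
      rwa [update_of_ne hl] at this
    · intro h hl
      rw [update_of_ne hl]
      exact h hl
  rw [h2 (fun a => ¬ D i a), h2 (D i)]

end Pool.Agent.KK.B.H70
end

/-! ### Helper70_KK.WGR -/
section
/-! MP_747bc0_co, block B, row WGR: the word graph. -/

namespace Pool.Agent.KK.B.H70

open Function
open scoped Classical

/-- number of differences -/
noncomputable def dif {k : ℕ} (W W' : Fin k → Bool) : ℕ :=
  (Finset.univ.filter (fun l : Fin k => W l ≠ W' l)).card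

theorem wt_true {k : ℕ} {W : Fin k → Bool} {q : Fin k} (h : W q = false) :
    wt (update W q true) = wt W + 1 := by
  unfold wt
  have h1 : Finset.univ.filter (fun l : Fin k => (update W q true) l = true) =
      insert q (Finset.univ.filter (fun l : Fin k => W l = true)) := by
    ext l
    rw [Finset.mem_insert, Finset.mem_filter, Finset.mem_filter]
    by_cases hl : l = q
    · subst hl
      simp
    · rw [update_of_ne hl]
      simp [hl]
  rw [h1, Finset.card_insert_of_notMem]
  rw [Finset.mem_filter, h]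
  simp

theorem wt_false {k : ℕ} {W : Fin k → Bool} {p : Fin k} (h : W p = true) :
    wt (update W p false) + 1 = wt W := by
  have h1 := wt_true (W := update W p false) (q := p) (by simp)
  rw [update_idem] at h1
  have h2 : update W p true = W := by
    rw [← h, update_eq_self]
  rw [h2] at h1
  exact h1.symm

theorem dif_lt {k : ℕ} {W W' : Fin k → Bool} {q : Fin k} (h : W q ≠ W' q) :
    dif (update W q (W' q)) W' < dif W W' := by
  unfold dif
  apply Finset.card_lt_card
  rw [Finset.ssubset_iff_of_subset]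
  · refine ⟨q, Finset.mem_filter.2 ⟨Finset.mem_univ _, h⟩, ?_⟩
    rw [Finset.mem_filter, update_self]
    simp
  · intro l hl
    rw [Finset.mem_filter] at hl ⊢
    refine ⟨Finset.mem_univ _, ?_⟩
    by_cases hlq : l = q
    · subst hlq
      exact h
    · have := hl.2
      rwa [update_of_ne hlq] at this

theorem exists_gain {k : ℕ} {W W' : Fin k → Bool} (h : wt W ≤ wt W') (hne : W ≠ W') :
    ∃ q, W q = false ∧ W' q = true := by
  by_contra hcon
  push Not at hcon
  apply hne
  have h1 : Finset.univ.filter (fun l : Fin k => W' l = true) ⊆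
      Finset.univ.filter (fun l : Fin k => W l = true) := by
    intro l hl
    rw [Finset.mem_filter] at hl ⊢
    refine ⟨Finset.mem_univ _, ?_⟩
    by_contra h2
    have h3 : W l = false := by
      cases hW : W l
      · rfl
      · exact absurd hW h2
    exact hcon l h3 hl.2
  have h2 := Finset.eq_of_subset_of_card_le h1 h
  funext l
  have h3 : W' l = true ↔ W l = true := by
    have h4 : l ∈ Finset.univ.filter (fun l : Fin k => W' l = true) ↔
        l ∈ Finset.univ.filter (fun l : Fin k => W l = true) := by rw [h2]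
    rw [Finset.mem_filter, Finset.mem_filter] at h4
    exact ⟨fun h => (h4.1 ⟨Finset.mem_univ _, h⟩).2, fun h => (h4.2 ⟨Finset.mem_univ _, h⟩).2⟩
  cases hW : W l <;> cases hW' : W' l
  · rfl
  · exact absurd (h3.1 hW') (by rw [hW]; simp)
  · exact absurd (h3.2 hW) (by rw [hW']; simp)
  · rfl

theorem wgr_first {k : ℕ} (φ : Fin k → (Fin k → Bool) → Prop) (F : ℕ → Prop)
    (hφ : ∀ i W b, φ i (update W i b) ↔ φ i W) (hF : ∀ W, ¬ F (wt W) → ∀ i l, (φ i W ↔ φ l W))
    (a b : ℕ) (hab : a < b) (hp : ∀ t, a ≤ t → t ≤ b → ¬ F t) :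
    ∀ n : ℕ, ∀ W W' : Fin k → Bool, dif W W' ≤ n → a ≤ wt W → wt W ≤ b → a ≤ wt W' → wt W' ≤ b →
      ∀ i l, (φ i W ↔ φ l W') := by
  intro n
  induction n with
  | zero =>
    intro W W' hd h1 h2 h3 h4 i l
    have hWW : W = W' := by
      funext x
      by_contra hx
      have h5 : 0 < dif W W' := by
        unfold dif
        exact Finset.card_pos.2 ⟨x, Finset.mem_filter.2 ⟨Finset.mem_univ _, hx⟩⟩
      omega
    subst hWW
    exact hF W (hp _ h1 h2) i l
  | succ n ih =>
    intro W W' hd h1 h2 h3 h4 i l
    by_cases hWW : W = W'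
    · subst hWW
      exact hF W (hp _ h1 h2) i l
    · have step : ∀ q : Fin k, ∀ c : Bool, W q ≠ W' q → W' q = c → a ≤ wt (update W q c) →
          wt (update W q c) ≤ b → (φ i W ↔ φ l W') := by
        intro q c hq hc h5 h6
        have h7 : (φ i W ↔ φ q W) := hF W (hp _ h1 h2) i q
        have h8 : (φ q (update W q c) ↔ φ q W) := hφ q W c
        have h9 := dif_lt hq
        rw [hc] at h9
        have h10 := ih (update W q c) W' (by omega) h5 h6 h3 h4 q l
        exact h7.trans (h8.symm.trans h10)
      by_cases hc : wt W ≤ wt W' ∧ wt W < b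
      · obtain ⟨q, hq1, hq2⟩ := exists_gain hc.1 hWW
        have h5 := wt_true hq1
        exact step q true (by rw [hq1, hq2]; simp) hq2 (by omega) (by omega)
      · have hc1 : wt W' ≤ wt W := by
          by_contra h5
          push Not at h5
          exact hc ⟨h5.le, by omega⟩
        have hc2 : a < wt W := by
          by_contra h5
          push Not at h5
          exact hc ⟨by omega, by omega⟩
        obtain ⟨p, hp1, hp2⟩ := exists_gain hc1 (Ne.symm hWW)
        have h5 := wt_false hp2
        exact step p false (by rw [hp1, hp2]; simp) hp1 (by omega) (by omega)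

theorem wgr : WgrStmt := by
  intro k φ F hφ hF
  have h1 : ∀ a b : ℕ, a < b → (∀ t, a ≤ t → t ≤ b → ¬ F t) → ∀ W W' : Fin k → Bool, a ≤ wt W →
      wt W ≤ b → a ≤ wt W' → wt W' ≤ b → ∀ i l, (φ i W ↔ φ l W') := by
    intro a b hab hp W W' h2 h3 h4 h5
    exact wgr_first φ F hφ hF a b hab hp (dif W W') W W' le_rfl h2 h3 h4 h5
  refine ⟨h1, ?_⟩
  intro hk hp W W' i l
  have hwk : ∀ W : Fin k → Bool, wt W ≤ k := by
    intro W
    unfold wt
    refine (Finset.card_le_univ _).trans ?_
    rw [Fintype.card_fin]
  have key : ∀ (W : Fin k → Bool) (i : Fin k), ∃ W1 : Fin k → Bool, 1 ≤ wt W1 ∧ wt W1 ≤ k - 1 ∧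
      (φ i W ↔ φ i W1) := by
    intro W i
    have hwW := hwk W
    by_cases h0 : wt W = 0
    · refine ⟨update W i true, ?_, ?_, (hφ i W true).symm⟩
      · have h2 : W i = false := by
          cases hWi : W i
          · rfl
          · exfalso
            have h3 : 0 < wt W := by
              unfold wt
              exact Finset.card_pos.2 ⟨i, Finset.mem_filter.2 ⟨Finset.mem_univ _, hWi⟩⟩
            omega
        rw [wt_true h2]
        omega
      · have h2 : W i = false := by
          cases hWi : W i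
          · rfl
          · exfalso
            have h3 : 0 < wt W := by
              unfold wt
              exact Finset.card_pos.2 ⟨i, Finset.mem_filter.2 ⟨Finset.mem_univ _, hWi⟩⟩
            omega
        rw [wt_true h2]
        omega
    · by_cases hk1 : wt W = k
      · have h2 : W i = true := by
          cases hWi : W i
          · exfalso
            have h3 := wt_true hWi
            have h4 := hwk (update W i true)
            omega
          · rfl
        have h3 := wt_false h2
        exact ⟨update W i false, by omega, by omega, (hφ i W false).symm⟩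
      · exact ⟨W, by omega, by omega, Iff.rfl⟩
  obtain ⟨W1, ha, hb, hc⟩ := key W i
  obtain ⟨W2, hd, he, hf⟩ := key W' l
  have h2 := h1 1 (k - 1) (by omega) hp W1 W2 ha hb hd he i l
  exact hc.trans (h2.trans hf.symm)

end Pool.Agent.KK.B.H70
end

/-! ### Helper45_KK.GBX -/
section
/-! MP_747bc0_co, block B, row GBX: a non-trivial closed system gives the partition. -/

namespace Pool.Agent.KK.B.H45

open Function
open scoped Classical

/-- the constants of UNI and GBX -/
theorem consts (k : ℕ) (ν : ℝ) (hk : 2 ≤ k) (hν : 0 < ν) (hν8 : ν ≤ 1 / 8) :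
    ∃ κ θ δ β : ℝ, 0 < κ ∧ 0 < θ ∧ 0 < δ ∧ 0 < β ∧ κ = ν ^ 2 / (3 * (k : ℝ)) ∧ θ ≤ 1 / 8 ∧
      15 * θ ≤ κ ∧ δ ≤ θ / 4 ∧ β ≤ 1 / 16 ∧ β ≤ θ ^ 2 / 22 ∧ 88 * (k : ℝ) * β ≤ θ ∧
      (1 + (k : ℝ) / δ) ^ k * (4 * (k.factorial : ℝ) * (k : ℝ) ^ 2 * β) ≤ κ ∧
      12 * β ≤ ν ∧ β ≤ κ := by
  have hk0 : (2 : ℝ) ≤ (k : ℝ) := by exact_mod_cast hk
  have hkp : (0 : ℝ) < (k : ℝ) := by linarith
  obtain ⟨κ, hκ⟩ : ∃ κ : ℝ, κ = ν ^ 2 / (3 * (k : ℝ)) := ⟨_, rfl⟩
  have hκ0 : 0 < κ := by rw [hκ]; positivity
  have hκ1 : κ ≤ 1 := by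
    rw [hκ, div_le_one (by positivity)]
    nlinarith
  obtain ⟨C, hC⟩ : ∃ C : ℝ, C = (1 + (k : ℝ) / (κ / 60)) ^ k *
      (4 * (k.factorial : ℝ) * (k : ℝ) ^ 2) := ⟨_, rfl⟩
  have hC0 : 0 < C := by
    have h1 : (0 : ℝ) < (k.factorial : ℝ) := by exact_mod_cast Nat.factorial_pos k
    rw [hC]; positivity
  obtain ⟨β, hβ⟩ : ∃ β : ℝ, β = min (min (1 / 16) ((κ / 15) ^ 2 / 22))
      (min (min ((κ / 15) / (88 * (k : ℝ))) (κ / C)) (min (ν / 12) κ)) := ⟨_, rfl⟩
  have hβ0 : 0 < β := by
    rw [hβ]
    refine lt_min (lt_min (by norm_num) (by positivity))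
      (lt_min (lt_min (by positivity) (by positivity)) (lt_min (by positivity) hκ0))
  have b1 : β ≤ 1 / 16 := by rw [hβ]; exact (min_le_left _ _).trans (min_le_left _ _)
  have b2 : β ≤ (κ / 15) ^ 2 / 22 := by rw [hβ]; exact (min_le_left _ _).trans (min_le_right _ _)
  have b3 : β ≤ (κ / 15) / (88 * (k : ℝ)) := by
    rw [hβ]; exact (min_le_right _ _).trans ((min_le_left _ _).trans (min_le_left _ _))
  have b4 : β ≤ κ / C := by
    rw [hβ]; exact (min_le_right _ _).trans ((min_le_left _ _).trans (min_le_right _ _))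
  have b5 : β ≤ ν / 12 := by
    rw [hβ]; exact (min_le_right _ _).trans ((min_le_right _ _).trans (min_le_left _ _))
  have b6 : β ≤ κ := by
    rw [hβ]; exact (min_le_right _ _).trans ((min_le_right _ _).trans (min_le_right _ _))
  refine ⟨κ, κ / 15, κ / 60, β, hκ0, by positivity, by positivity, hβ0, hκ, by linarith,
    by linarith, by linarith, b1, b2, ?_, ?_, by linarith, b6⟩
  · rw [le_div_iff₀ (by positivity)] at b3
    linarith
  · rw [le_div_iff₀ hC0] at b4
    calc (1 + (k : ℝ) / (κ / 60)) ^ k * (4 * (k.factorial : ℝ) * (k : ℝ) ^ 2 * β)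
        = β * C := by rw [hC]; ring
      _ ≤ κ := b4

theorem gbx (hNsp : NspStmt) (hG0d : G0dStmt) (hLev : LevStmt) (hGlb : GlbStmt) (hRes : ResStmt)
    (hNtr : NtrStmt) : GbxStmt := by
  intro k ν0 hk hν0
  obtain ⟨ν, hν⟩ : ∃ ν : ℝ, ν = min ν0 (1 / 8) := ⟨_, rfl⟩
  have hνp : 0 < ν := by rw [hν]; exact lt_min hν0 (by norm_num)
  have hν8 : ν ≤ 1 / 8 := by rw [hν]; exact min_le_right _ _
  have hνν : ν ≤ ν0 := by rw [hν]; exact min_le_left _ _
  obtain ⟨κ, θ, δ, β, hκ, hθ, hδ, hβ, hκe, hθ8, h15, hδθ, b1, b2, b3, b4, b5, b6⟩ :=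
    consts k ν hk hνp hν8
  have hkp : (0 : ℝ) < (k : ℝ) := by
    have : 0 < k := by omega
    exact_mod_cast this
  have h3k : 3 * (k : ℝ) * κ ≤ ν ^ 2 := by
    rw [hκe]
    refine le_of_eq ?_
    field_simp
  refine ⟨β ^ 3, by positivity, ?_⟩
  intro V _ _ E D0 hS hDeg hI0 hC0 hT0
  have hlevD : ∀ D : Fin k → (Fin k → V) → Prop, Indep D → Closed E (β ^ 3) D →
      dens (fun a => ¬ lev δ (G0 E D β) k a) ≤ κ := by
    intro D hI hC
    have h1 := hG0d k V E D β hβ (by linarith) hI hC
    have h2 := hLev k V (G0 E D β) δ k hδ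
    refine h2.trans (le_trans ?_ b4)
    apply mul_le_mul_of_nonneg_left h1
    positivity
  have h01 : (⟨0, by omega⟩ : Fin k) ≠ ⟨1, by omega⟩ := by
    intro h
    have := congrArg Fin.val h
    simp at this
  have hT : ¬ Triv ν D0 := by
    intro h
    apply hT0
    rcases h with h | h
    · exact Or.inl fun i => (h i).trans hνν
    · exact Or.inr fun i => (h i).trans hνν
  have hex : ∃ a0 : Fin k → V, lev δ (G0 E D0 β) k a0 ∧ SS D0 ⟨0, by omega⟩ ⟨1, by omega⟩ a0 := by
    by_contra hcon
    push Not at hcon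
    exact hT (hNtr k V E D0 β δ κ ν ⟨0, by omega⟩ ⟨1, by omega⟩ hβ b1 b6 h3k hνp hν8 hS hDeg hI0
      h01 (hlevD D0 hI0 hC0) hcon)
  obtain ⟨a0, hlev0, hSS⟩ := hex
  refine ⟨nb E a0 ⟨0, by omega⟩, ?_, ?_⟩
  · obtain ⟨σ, hσ⟩ := hSS
    have hG : G0 E D0 β a0 := lev_le (Nat.zero_le k) hlev0
    have hne : σ.symm (⟨0, by omega⟩ : Fin k) ≠ σ.symm ⟨1, by omega⟩ := by
      intro h; exact h01 (σ.symm.injective h)
    obtain ⟨hst, hpl, -⟩ := hG σ _ _ hne
    have h := (hNsp k V E D0 β (a0 ∘ σ) _ _ hβ b1 hS hDeg hne hst hpl hσ).2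
    rw [nb_perm hS, Equiv.apply_symm_apply] at h
    linarith
  · intro D hI hC i W
    have hLD : dens (fun a => ¬ LineDet κ (nb E a0 ⟨0, by omega⟩) D a) ≤ κ := by
      refine le_trans (dens_mono ?_) (hlevD D hI hC)
      intro a ha hla
      apply ha
      have h := hGlb k V E D0 D β δ θ ⟨0, by omega⟩ ⟨1, by omega⟩ a0 a hβ b1 hθ hθ8 hδ.le hδθ b2 b3
        hS hDeg hI0 hI h01 hlev0 hSS hla
      intro i l hil
      rcases h i l hil with h | h | h
      · exact Or.inl (h.trans (by linarith))
      · exact Or.inr (Or.inl (h.trans (by linarith)))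
      · exact Or.inr (Or.inr (pm_mono (by linarith) h))
    have h := hRes k V (nb E a0 ⟨0, by omega⟩) D κ ν hκ.le hνp.le h3k hI hLD i W
    rcases h with h | h
    · exact Or.inl (h.trans hνν)
    · exact Or.inr (h.trans hνν)

end Pool.Agent.KK.B.H45
end

/-! ### Helper91_KK.CLI -/
section
/-! MP_747bc0_co, block B, row CLI: the explicit classes are indecomposable. -/

set_option autoImplicit false

namespace Pool.Agent.KK.B.H91

open Function
open scoped Classical

theorem dens_letter_ge {V : Type} [Fintype V] [Nonempty V] {X : V → Prop}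
    (hX : |dens X - 1 / 2| ≤ 1 / 8) (c : Bool) : 3 / 8 ≤ dens (fun v => (X v ↔ c = true)) := by
  rw [abs_le] at hX
  cases c
  · have h2 : dens (fun v => (X v ↔ false = true)) = dens (fun v => ¬ X v) :=
      dens_congr fun v => by simp
    rw [h2, dens_not]
    linarith [hX.2]
  · have h2 : dens (fun v => (X v ↔ true = true)) = dens X := dens_congr fun v => by simp
    rw [h2]
    linarith [hX.1]

/-- the words of the run -/
def Wds {k : ℕ} (a b : ℕ) (W : Fin k → Bool) : Prop :=
  a ≤ wt W ∧ wt W ≤ b ∧ (a = b → ∀ l : Fin k, (W l = true ↔ l.val < a))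

theorem neg_one_eq_last {d : ℕ} : (-1 : Fin (d + 2)) = Fin.last (d + 1) := by
  rw [neg_eq_iff_add_eq_zero]
  ext
  simp only [Fin.val_add, Fin.val_one, Fin.val_last, Fin.val_zero]
  have h : 1 + (d + 1) = d + 2 := by omega
  rw [h, Nat.mod_self]

theorem castSucc_ne_neg_one {d : ℕ} (i : Fin (d + 2)) (j : Fin (d + 1)) :
    i + 1 + j.castSucc ≠ i := by
  intro h
  have h2 : (1 + j.castSucc : Fin (d + 2)) = 0 := by
    have h3 : i + (1 + j.castSucc) = i + 0 := by
      rw [← add_assoc, h, add_zero]
    exact add_left_cancel h3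
  have h3 : (-1 : Fin (d + 2)) = j.castSucc := neg_eq_iff_add_eq_zero.2 h2
  rw [neg_one_eq_last] at h3
  exact (Fin.castSucc_lt_last j).ne h3.symm

/-- type of the state = number of letters off the label `i` -/
theorem typ_stOf {V : Type} [Fintype V] {d : ℕ} (X : V → Prop) (i : Fin (d + 2))
    (x : Fin (d + 2) → V) :
    typ X (stOf i x).1 = (Finset.univ.filter (fun l : Fin (d + 2) => l ≠ i ∧ X (x l))).card := by
  unfold typ stOf
  refine Finset.card_bij (fun j _ => i + 1 + j.castSucc) ?_ ?_ ?_
  · intro j hj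
    rw [Finset.mem_filter] at hj ⊢
    exact ⟨Finset.mem_univ _, castSucc_ne_neg_one i j, hj.2⟩
  · intro j _ j' _ h
    have h1 := add_left_cancel h
    exact Fin.castSucc_injective _ h1
  · intro l hl
    rw [Finset.mem_filter] at hl
    have h4 : (-1 : Fin (d + 2)) = Fin.last (d + 1) := neg_one_eq_last
    have h5 : l - (i + 1) ≠ Fin.last (d + 1) := by
      rw [← h4]
      intro h
      apply hl.2.1
      have : l = -1 + (i + 1) := by rw [← h]; abel
      rw [this]
      abel
    obtain ⟨j, hj⟩ := Fin.exists_castSucc_eq.2 h5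
    refine ⟨j, ?_, ?_⟩
    · rw [Finset.mem_filter]
      refine ⟨Finset.mem_univ _, ?_⟩
      show X (x (i + 1 + j.castSucc))
      rw [hj]
      have : i + 1 + (l - (i + 1)) = l := by abel
      rw [this]
      exact hl.2.2
    · show i + 1 + j.castSucc = l
      rw [hj]
      abel

theorem exists_lab {d : ℕ} (i l : Fin (d + 2)) (h : l ≠ i) :
    ∃ j : Fin (d + 1), i + 1 + j.castSucc = l := by
  have h4 : (-1 : Fin (d + 2)) = Fin.last (d + 1) := neg_one_eq_last
  have h5 : l - (i + 1) ≠ Fin.last (d + 1) := by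
    rw [← h4]
    intro h'
    apply h
    have : l = -1 + (i + 1) := by rw [← h']; abel
    rw [this]
    abel
  obtain ⟨j, hj⟩ := Fin.exists_castSucc_eq.2 h5
  refine ⟨j, ?_⟩
  rw [hj]
  abel

theorem xc_eq_typ {V : Type} [Fintype V] [DecidableEq V] (X : Finset V) {m : ℕ} (f : Fin m → V) :
    xc X f = typ (fun v => v ∈ X) f := by
  unfold xc typ
  congr 1
  ext i
  simp

theorem lab_val {V : Type} {d : ℕ} (i : Fin (d + 2)) (x : Fin (d + 2) → V) (j : Fin (d + 1)) :
    ((stOf i x).2 + ((j : ℕ) : ZMod (d + 2))).val = (i + 1 + j.castSucc : Fin (d + 2)).val := by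
  have h : ((j : ℕ) : ZMod (d + 2)) = (j.castSucc : Fin (d + 2)) := by
    apply ZMod.val_injective
    rw [ZMod.val_natCast, Nat.mod_eq_of_lt (by omega)]
    rfl
  rw [h]
  rfl

/-- description of the states of a class -/
theorem mem_cls_stOf {V : Type} [Fintype V] [DecidableEq V] {d : ℕ} (X : Finset V) (a b : ℕ)
    (i : Fin (d + 2)) (x : Fin (d + 2) → V) (h : stOf i x ∈ cls X d a b) :
    (a < b → a ≤ typ (fun v => v ∈ X) (stOf i x).1 + 1 ∧ typ (fun v => v ∈ X) (stOf i x).1 ≤ b) ∧
    (a = b → ∀ j : Fin (d + 1), (x (i + 1 + j.castSucc) ∈ X ↔ (i + 1 + j.castSucc).val < a)) := by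
  unfold cls at h
  by_cases hab : a = b
  · rw [if_pos hab] at h
    refine ⟨fun h' => absurd hab h'.ne, fun _ j => ?_⟩
    have h1 := h j
    rw [lab_val] at h1
    exact h1
  · rw [if_neg hab] at h
    refine ⟨fun _ => ?_, fun h' => absurd h' hab⟩
    obtain ⟨h1, h2⟩ := h
    rw [xc_eq_typ] at h1 h2
    exact ⟨h1, h2⟩

/-- every state of the class has a word in `Wds a b` off the label `i` -/
theorem exists_word {V : Type} [Fintype V] [DecidableEq V] {d : ℕ} (X : Finset V) (a b : ℕ)
    (hab : a ≤ b) (hb : b ≤ d + 2) (i : Fin (d + 2)) (x : Fin (d + 2) → V)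
    (h : sys (cls X d a b) i x) :
    ∃ W : Fin (d + 2) → Bool, Wds a b W ∧ ∀ l, l ≠ i → (x l ∈ X ↔ W l = true) := by
  obtain ⟨h12, h3⟩ := mem_cls_stOf X a b i x h
  obtain ⟨s, hs0⟩ : ∃ s, s = typ (fun v => v ∈ X) (stOf i x).1 := ⟨_, rfl⟩
  rw [← hs0] at h12
  have hs : s = (Finset.univ.filter (fun l : Fin (d + 2) => l ≠ i ∧ x l ∈ X)).card := by
    rw [hs0, typ_stOf]
    congr 1
    ext l
    simp
  by_cases hab' : a = b
  · refine ⟨fun l => decide (l.val < a), ⟨?_, ?_, fun _ l => by simp⟩, ?_⟩
    · have : wt (fun l : Fin (d + 2) => decide (l.val < a)) = a := by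
        unfold wt
        have h5 : (Finset.univ.filter (fun l : Fin (d + 2) => decide (l.val < a) = true)) =
            Finset.univ.filter (fun l : Fin (d + 2) => l.val < a) := by
          ext l; simp
        rw [h5, Fin.card_filter_val_lt]
        omega
      omega
    · have : wt (fun l : Fin (d + 2) => decide (l.val < a)) = a := by
        unfold wt
        have h5 : (Finset.univ.filter (fun l : Fin (d + 2) => decide (l.val < a) = true)) =
            Finset.univ.filter (fun l : Fin (d + 2) => l.val < a) := by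
          ext l; simp
        rw [h5, Fin.card_filter_val_lt]
        omega
      omega
    · intro l hl
      obtain ⟨j, hj⟩ := exists_lab i l hl
      have h6 := h3 hab' j
      rw [hj] at h6
      simpa using h6
  · have hlt : a < b := lt_of_le_of_ne hab hab'
    obtain ⟨h1, h2⟩ := h12 hlt
    have hc : ∀ c : Bool, wt (update (fun l => decide (x l ∈ X)) i c) = s + c.toNat := by
      intro c
      unfold wt
      cases c
      · simp only [Bool.toNat_false, add_zero, hs]
        congr 1
        ext l
        rw [Finset.mem_filter, Finset.mem_filter]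
        by_cases hl : l = i
        · subst hl; simp
        · rw [update_of_ne hl]; simp [hl]
      · have h5 : (Finset.univ.filter
            (fun l => update (fun l => decide (x l ∈ X)) i true l = true)) =
            insert i (Finset.univ.filter (fun l : Fin (d + 2) => l ≠ i ∧ x l ∈ X)) := by
          ext l
          rw [Finset.mem_filter, Finset.mem_insert, Finset.mem_filter]
          by_cases hl : l = i
          · subst hl; simp
          · rw [update_of_ne hl]; simp [hl]
        rw [h5, Finset.card_insert_of_notMem (by simp)]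
        simp [hs]
    by_cases has : a ≤ s
    · refine ⟨update (fun l => decide (x l ∈ X)) i false, ⟨?_, ?_, fun h => absurd h hab'⟩, ?_⟩
      · rw [hc]; simpa using has
      · rw [hc]; simpa using h2
      · intro l hl
        rw [update_of_ne hl]; simp
    · refine ⟨update (fun l => decide (x l ∈ X)) i true, ⟨?_, ?_, fun h => absurd h hab'⟩, ?_⟩
      · rw [hc]
        simp only [Bool.toNat_true]
        exact h1
      · rw [hc]
        simp only [Bool.toNat_true]
        omega
      · intro l hl
        rw [update_of_ne hl]; simp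

/-- a set of states inside the class with few tuples on every word of the run is small -/
theorem small_of_words {V : Type} [Fintype V] [DecidableEq V] [Nonempty V] {d : ℕ} {X : Finset V}
    (hX : |dens (fun v => v ∈ X) - 1 / 2| ≤ 1 / 8) {a b : ℕ} (hab : a ≤ b) (hb : b ≤ d + 2) {b₀ : ℝ}
    (hb₀ : 0 ≤ b₀) (i : Fin (d + 2)) (P : (Fin (d + 2) → V) → Prop)
    (hP : ∀ x v, P (update x i v) ↔ P x) (hPU : ∀ x, P x → sys (cls X d a b) i x)
    (hW : ∀ W, Wds a b W → dens (fun x => P x ∧ wd (fun v => v ∈ X) W x) ≤ b₀) :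
    dens P ≤ 2 ^ (d + 2) * (3 * b₀) := by
  have h1 : dens P ≤ dens (fun x => ∃ W : Fin (d + 2) → Bool,
      (Wds a b W ∧ P x ∧ ∀ l, l ≠ i → (x l ∈ X ↔ W l = true))) := by
    apply dens_mono
    intro x hx
    obtain ⟨W, hW1, hW2⟩ := exists_word X a b hab hb i x (hPU x hx)
    exact ⟨W, hW1, hx, hW2⟩
  refine h1.trans ((dens_exists_le _).trans ?_)
  have h2 : ∀ W : Fin (d + 2) → Bool, dens (fun x : Fin (d + 2) → V =>
      (Wds a b W ∧ P x ∧ ∀ l, l ≠ i → (x l ∈ X ↔ W l = true))) ≤ 3 * b₀ := by
    intro W
    by_cases hWW : Wds a b W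
    · have h3 := hW W hWW
      rw [H70.dens_wd (fun v => v ∈ X) i W P hP] at h3
      have h4 := dens_letter_ge hX (W i)
      have h5 : dens (fun x : Fin (d + 2) → V =>
          (Wds a b W ∧ P x ∧ ∀ l, l ≠ i → (x l ∈ X ↔ W l = true))) ≤
          dens (fun x : Fin (d + 2) → V => P x ∧ ∀ l, l ≠ i → (x l ∈ X ↔ W l = true)) :=
        dens_mono fun x hx => hx.2
      have h6 := dens_nonneg
        (fun x : Fin (d + 2) → V => P x ∧ ∀ l, l ≠ i → (x l ∈ X ↔ W l = true))
      nlinarith
    · have h3 : dens (fun x : Fin (d + 2) → V =>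
          (Wds a b W ∧ P x ∧ ∀ l, l ≠ i → (x l ∈ X ↔ W l = true))) = 0 := by
        rw [← dens_false (α := Fin (d + 2) → V)]
        exact dens_congr fun x => ⟨fun h => hWW h.1, fun h => h.elim⟩
      rw [h3]
      positivity
  refine (Finset.sum_le_sum fun W _ => h2 W).trans ?_
  rw [Finset.sum_const, nsmul_eq_mul, Finset.card_univ, Fintype.card_fun, Fintype.card_bool,
    Fintype.card_fin]
  push_cast
  exact le_rfl

theorem cli (hA : AugStmt) (hCv : CnvStmt) (hCc : CncStmt) : CliStmt := by
  intro d V _ _ _ H X F a b h b₀ β ε ε1 hU hDir hX hab hbk hpres hb₀ hε hβ hh hUU hdet D hDU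
  by_cases hst : ε * (Fintype.card V : ℝ) ^ (d + 2) ≤ stp H D (cls X d a b \ D)
  · exact Or.inl hst
  right
  rw [not_le] at hst
  have hn : (0 : ℝ) < (Fintype.card V : ℝ) := by exact_mod_cast Fintype.card_pos
  -- `sys D` is closed
  have h1 := hCc d V H (cls X d a b) hU D hDU
  have h2 : dens (fun e => LE H e ∧ ¬ Mono (sys D) e) ≤ ε + ε1 := by
    have hpos : (0 : ℝ) < (Fintype.card V : ℝ) ^ (d + 2) := by positivity
    have : dens (fun e => LE H e ∧ ¬ Mono (sys D) e) * (Fintype.card V : ℝ) ^ (d + 2) ≤
        (ε + ε1) * (Fintype.card V : ℝ) ^ (d + 2) := by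
      rw [add_mul]
      linarith
    exact le_of_mul_le_mul_right this hpos
  have hcl : Closed (augE H) h (sys D) := by
    unfold Closed
    refine ((hA d V H hU hDir).2.2 (fun e => ¬ Mono (sys D) e)).trans ?_
    linarith
  have hind : Indep (sys D) := ((hCv d V H hU).1 D).1
  obtain ⟨hwd, hmaj⟩ := hdet (sys D) hind hcl
  have hX' := hX
  rw [abs_le] at hX'
  have hX0 : 0 < dens (fun v => v ∈ X) := by linarith [hX'.1]
  have hX1 : dens (fun v => v ∈ X) < 1 := by linarith [hX'.2]
  -- the majority value is constant on the words of the run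
  have hword : ∀ W : Fin (d + 2) → Bool, Wds a b W → ∀ W' : Fin (d + 2) → Bool, Wds a b W' →
      ∀ i l, (maj (sys D) (fun v => v ∈ X) i W ↔ maj (sys D) (fun v => v ∈ X) l W') := by
    intro W hW W' hW' i l
    by_cases hab' : a = b
    · have hWW : W = W' := by
        funext m
        have h3 := hW.2.2 hab' m
        have h4 := hW'.2.2 hab' m
        rw [Bool.eq_iff_iff, h3, h4]
      subst hWW
      apply hmaj
      apply hpres _ hW.1
      exact hW.2.1
    · have hlt : a < b := lt_of_le_of_ne hab hab'
      have hwgr := (H70.wgr (d + 2) (fun i W => maj (sys D) (fun v => v ∈ X) i W) (fun t => t ∈ F)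
        (fun i W b => H70.minT (d + 2) V (sys D) (fun v => v ∈ X) i W b hind hX0 hX1)
        (fun W hW => hmaj W hW)).1
      exact hwgr a b hlt hpres W W' hW.1 hW.2.1 hW'.1 hW'.2.1 i l
  have hcount : ∀ U : Set (Sta V d), (∀ i, dens (sys U i) ≤ 2 ^ (d + 2) * (3 * b₀)) →
      (U.ncard : ℝ) ≤ β * (Fintype.card V : ℝ) ^ (d + 1) := by
    intro U hU'
    rw [((hCv d V H hU).1 U).2]
    apply mul_le_mul_of_nonneg_right _ (by positivity)
    refine (Finset.sum_le_sum fun i _ => hU' i).trans ?_
    rw [Finset.sum_const, nsmul_eq_mul, Finset.card_univ, Fintype.card_fin]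
    push_cast
    linarith
  by_cases hex : ∃ (i : Fin (d + 2)) (W : Fin (d + 2) → Bool), Wds a b W ∧ maj (sys D) (fun v => v ∈ X) i W
  · -- majority value true: `U \ D` is small
    right
    obtain ⟨i0, W0, hW0, hm0⟩ := hex
    apply hcount
    intro i
    apply small_of_words hX hab hbk hb₀ i (sys (cls X d a b \ D) i)
    · intro x v
      exact ((hCv d V H hU).1 _).1 i x v
    · intro x hx
      exact hx.1
    · intro W hW
      have h3 : maj (sys D) (fun v => v ∈ X) i W := (hword W0 hW0 W hW i0 i).1 hm0
      have h4 : dens (fun x => ¬ sys D i x ∧ wd (fun v => v ∈ X) W x) ≤ b₀ := by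
        rcases hwd i W with h5 | h5
        · exact h3.trans h5
        · exact h5
      refine (dens_mono fun x hx => ?_).trans h4
      exact ⟨hx.1.2, hx.2⟩
  · -- majority value false: `D` is small
    left
    apply hcount
    intro i
    apply small_of_words hX hab hbk hb₀ i (sys D i)
    · intro x v
      exact hind i x v
    · intro x hx
      exact hDU hx
    · intro W hW
      have h3 : ¬ maj (sys D) (fun v => v ∈ X) i W := fun h => hex ⟨i, W, hW, h⟩
      unfold maj at h3
      rw [not_le] at h3
      rcases hwd i W with h5 | h5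
      · exact h5
      · exact h3.le.trans h5

end Pool.Agent.KK.B.H91
end

/-! ### Helper8_KK.E_GRO -/
section
/-! Squad KK, row E_GRO (StmtE09): growth of an up-set. -/

set_option autoImplicit false

namespace Pool.Agent.KK.E.H8

open Pool.Agent.KK Pool.Agent.KK.E

/-- additivity of the density -/
theorem dens_diff {V : Type} [Fintype V] {ι : Type} [Fintype ι] (c : ι → Finset V)
    (P Q : (ι → V) → Prop) (h : ∀ f, Q f → P f) :
    dens c (fun f => P f ∧ ¬ Q f) + dens c Q = dens c P := by
  unfold dens
  rw [← add_div, ← Nat.cast_add, ← Set.ncard_union_eq]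
  · have : {f : ι → V | (∀ i, f i ∈ c i) ∧ P f ∧ ¬ Q f} ∪ {f : ι → V | (∀ i, f i ∈ c i) ∧ Q f} =
        {f : ι → V | (∀ i, f i ∈ c i) ∧ P f} := by
      ext f
      constructor
      · rintro (⟨h1, h2, -⟩ | ⟨h1, h2⟩)
        · exact ⟨h1, h2⟩
        · exact ⟨h1, h f h2⟩
      · rintro ⟨h1, h2⟩
        by_cases hq : Q f
        · exact Or.inr ⟨h1, hq⟩
        · exact Or.inl ⟨h1, h2, hq⟩
    rw [this]
  · rw [Set.disjoint_left]
    rintro f ⟨-, -, h2⟩ ⟨-, h4⟩
    exact h2 h4

theorem e_gro (hE01 : StmtE01) (hE02 : StmtE02) (hE08 : StmtE08) : StmtE09 := by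
  classical
  intro V _ _ X U j hX hU
  set A : (Fin (j + 1) → V) → Prop := fun f => U (Finset.univ.image f) with hA
  obtain ⟨-, hmono, -, hcomp, -, -⟩ := hE01 V (Fin (j + 1)) (fun _ => X) (fun _ => hX)
  have h8 := hE08 V (Fin (j + 1)) (fun _ => X) A (fun f => ¬ A f) (fun _ => hX)
    (fun f h h' => h' h)
  have hB : dens (fun _ : Fin (j + 1) => X) (fun f => ¬ A f) =
      1 - dens (fun _ : Fin (j + 1) => X) A := by
    have := hcomp A
    linarith
  have h0 : dens (fun _ : Fin (j + 1) => X) (fun f => ¬ A f ∧ ¬ ¬ A f) = 0 := by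
    unfold dens
    have : {f : Fin (j + 1) → V | (∀ i, f i ∈ X) ∧ ¬ A f ∧ ¬ ¬ A f} = ∅ := by
      ext f
      simp only [Set.mem_empty_iff_false, iff_false]
      rintro ⟨-, h1, h2⟩
      exact h2 h1
    rw [this]
    simp
  rw [hB, h0, mul_zero, add_zero] at h8
  refine h8.trans ?_
  have hterm : ∀ i : Fin (j + 1),
      dens (Sum.elim (fun _ : Fin (j + 1) => X) (fun _ : Unit => X))
        (fun g => A (g ∘ Sum.inl) ∧
          ¬ A (Function.update (g ∘ Sum.inl) i (g (Sum.inr ())))) ≤
      dens (fun _ : Fin (j + 1) => X) A -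
        dens (fun _ : Fin j => X) (fun f => U (Finset.univ.image f)) := by
    intro i
    have hne : ∀ x : Fin (j + 1) ⊕ Unit,
        (Sum.elim (fun _ : Fin (j + 1) => X) (fun _ : Unit => X) x).Nonempty := by
      rintro (x | x)
      · exact hX
      · exact hX
    obtain ⟨-, hmono', -, -, -, -⟩ := hE01 V (Fin (j + 1) ⊕ Unit)
      (Sum.elim (fun _ : Fin (j + 1) => X) (fun _ : Unit => X)) hne
    have e1 := hE02 V (Fin (j + 1) ⊕ Unit) (Fin (j + 1))
      (Sum.elim (fun _ : Fin (j + 1) => X) (fun _ : Unit => X)) Sum.inl hne Sum.inl_injective A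
    have e2 := hE02 V (Fin (j + 1) ⊕ Unit) (Fin j)
      (Sum.elim (fun _ : Fin (j + 1) => X) (fun _ : Unit => X)) (fun x => Sum.inl (i.succAbove x))
      hne (Sum.inl_injective.comp Fin.succAbove_right_injective)
      (fun f => U (Finset.univ.image f))
    have c1 : (Sum.elim (fun _ : Fin (j + 1) => X) (fun _ : Unit => X)) ∘
        (Sum.inl : Fin (j + 1) → Fin (j + 1) ⊕ Unit) = fun _ => X := rfl
    have c2 : (Sum.elim (fun _ : Fin (j + 1) => X) (fun _ : Unit => X)) ∘
        (fun x : Fin j => (Sum.inl (i.succAbove x) : Fin (j + 1) ⊕ Unit)) = fun _ => X := rfl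
    rw [c1] at e1
    rw [c2] at e2
    have h1 := dens_diff (Sum.elim (fun _ : Fin (j + 1) => X) (fun _ : Unit => X))
      (fun g => A (g ∘ Sum.inl))
      (fun g => U (Finset.univ.image (g ∘ fun x : Fin j =>
        (Sum.inl (i.succAbove x) : Fin (j + 1) ⊕ Unit)))) (by
        intro g hg
        refine hU _ _ ?_ hg
        intro v hv
        obtain ⟨x, -, rfl⟩ := Finset.mem_image.1 hv
        exact Finset.mem_image.2 ⟨i.succAbove x, Finset.mem_univ _, rfl⟩)
    rw [e1, e2] at h1
    have h2 := hmono' (fun g => A (g ∘ Sum.inl) ∧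
          ¬ A (Function.update (g ∘ Sum.inl) i (g (Sum.inr ()))))
      (fun g => A (g ∘ Sum.inl) ∧ ¬ U (Finset.univ.image (g ∘ fun x : Fin j =>
        (Sum.inl (i.succAbove x) : Fin (j + 1) ⊕ Unit)))) (by
        rintro g - ⟨h3, h4⟩
        refine ⟨h3, fun h5 => h4 (hU _ _ ?_ h5)⟩
        intro v hv
        obtain ⟨x, -, rfl⟩ := Finset.mem_image.1 hv
        refine Finset.mem_image.2 ⟨i.succAbove x, Finset.mem_univ _, ?_⟩
        rw [Function.update_of_ne (Fin.succAbove_ne i x)]
        rfl)
    linarith
  refine (Finset.sum_le_sum fun i _ => hterm i).trans ?_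
  rw [Finset.sum_const, Finset.card_univ, Fintype.card_fin, nsmul_eq_mul]
  push_cast
  exact le_refl _

end Pool.Agent.KK.E.H8
end

/-! ### Helper37_KK.E_WRD -/
section
/-!
# Squad KK, row E_WRD (StmtE18)
-/

set_option autoImplicit false

namespace Pool.Agent.KK.E.H37

theorem word_length (p q : ℕ) : (word p q).length = 3 * (p + q + 2) - 2 := by
  simp only [word, low, high, List.length_append, List.length_replicate, List.length_cons,
    List.length_nil]
  omega

theorem word_getD (p q i : ℕ) : (word p q).getD i false = true ↔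
    (q ≤ i ∧ i < q + p) ∨ (2 * q + p + 2 ≤ i ∧ i < 2 * q + 2 * p + 4) ∨
      (2 * p + 3 * q + 4 ≤ i ∧ i < 3 * p + 3 * q + 4) := by
  have h : (word p q).getD i false = (if (q ≤ i ∧ i < q + p) ∨
      (2 * q + p + 2 ≤ i ∧ i < 2 * q + 2 * p + 4) ∨
      (2 * p + 3 * q + 4 ≤ i ∧ i < 3 * p + 3 * q + 4) then true else false) := by
    rw [List.getD_eq_getElem?_getD]
    simp only [word, low, high, List.getElem?_append, List.getElem?_replicate,
      List.getElem?_cons, List.length_append, List.length_replicate, List.length_cons,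
      List.length_nil]
    split_ifs <;> first | omega | rfl
  rw [h]
  simp

theorem e_wrd : StmtE18 := by
  intro p q a ha
  refine ⟨word_length p q, ?_⟩
  simp only [word_getD]
  split_ifs with h1 h2
  · have e : ((Finset.range (p + q + 2)).filter fun i => (q ≤ a + i ∧ a + i < q + p) ∨
        (2 * q + p + 2 ≤ a + i ∧ a + i < 2 * q + 2 * p + 4) ∨
        (2 * p + 3 * q + 4 ≤ a + i ∧ a + i < 3 * p + 3 * q + 4)) =
        Finset.Ico (q - a) (q + p - a) ∪ Finset.Ico (2 * q + p + 2 - a) (p + q + 2) := by
      ext i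
      simp only [Finset.mem_filter, Finset.mem_range, Finset.mem_union, Finset.mem_Ico]
      omega
    rw [e, Finset.card_union_of_disjoint, Nat.card_Ico, Nat.card_Ico]
    · omega
    · rw [Finset.disjoint_left]
      intro i
      simp only [Finset.mem_Ico]
      omega
  · have e : ((Finset.range (p + q + 2)).filter fun i => (q ≤ a + i ∧ a + i < q + p) ∨
        (2 * q + p + 2 ≤ a + i ∧ a + i < 2 * q + 2 * p + 4) ∨
        (2 * p + 3 * q + 4 ≤ a + i ∧ a + i < 3 * p + 3 * q + 4)) =
        Finset.Ico (q + 1) (p + q + 2) := by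
      ext i
      simp only [Finset.mem_filter, Finset.mem_range, Finset.mem_Ico]
      omega
    rw [e, Nat.card_Ico]
    omega
  · have e : ((Finset.range (p + q + 2)).filter fun i => (q ≤ a + i ∧ a + i < q + p) ∨
        (2 * q + p + 2 ≤ a + i ∧ a + i < 2 * q + 2 * p + 4) ∨
        (2 * p + 3 * q + 4 ≤ a + i ∧ a + i < 3 * p + 3 * q + 4)) =
        Finset.Ico (2 * q + p + 2 - a) (2 * q + 2 * p + 4 - a) ∪
          Finset.Ico (2 * p + 3 * q + 4 - a) (p + q + 2) := by
      ext i
      simp only [Finset.mem_filter, Finset.mem_range, Finset.mem_union, Finset.mem_Ico]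
      omega
    rw [e, Finset.card_union_of_disjoint, Nat.card_Ico, Nat.card_Ico]
    · omega
    · rw [Finset.disjoint_left]
      intro i
      simp only [Finset.mem_Ico]
      omega

end Pool.Agent.KK.E.H37
end

/-! ### Helper97_KK.BLK -/
section
/-! Squad KK, row BLK (helper97). -/

set_option autoImplicit false

open scoped BigOperators

namespace Pool.Agent.KK.H97

/-- Few functions are not injective. -/
theorem ncard_noninj {α V : Type} [Fintype α] [DecidableEq α] [Fintype V] :
    {f : α → V | ¬ Function.Injective f}.ncard ≤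
      (Fintype.card α) ^ 2 * (Fintype.card V) ^ (Fintype.card α - 1) := by
  classical
  have h1 : {f : α → V | ¬ Function.Injective f}.ncard =
      (Finset.univ.filter fun f : α → V => ¬ Function.Injective f).card := by
    rw [Set.ncard_eq_toFinset_card']
    congr 1
    ext f
    simp
  rw [h1]
  have h2 : (Finset.univ.filter fun f : α → V => ¬ Function.Injective f) ⊆
      (Finset.univ.filter fun p : α × α => p.1 ≠ p.2).biUnion fun p =>
        Finset.univ.filter fun f : α → V => f p.1 = f p.2 := by
    intro f hf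
    rw [Finset.mem_filter] at hf
    have := hf.2
    unfold Function.Injective at this
    push Not at this
    obtain ⟨a, b, h, hne⟩ := this
    rw [Finset.mem_biUnion]
    exact ⟨(a, b), by simpa using hne, by simpa using h⟩
  refine (Finset.card_le_card h2).trans ?_
  refine (Finset.card_biUnion_le_card_mul _ _ ((Fintype.card V) ^ (Fintype.card α - 1)) ?_).trans ?_
  · rintro ⟨a, b⟩ hab
    have hne : a ≠ b := by simpa using hab
    have hcard : ((Fintype.card V) ^ (Fintype.card α - 1)) = Fintype.card ({x : α // x ≠ b} → V) := by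
      rw [Fintype.card_fun]
      congr 1
      have := Set.card_ne_eq b
      rw [← this]
      rfl
    rw [hcard, ← Finset.card_univ]
    refine Finset.card_le_card_of_injOn (fun f x => f x.1) (fun _ _ => Finset.mem_univ _) ?_
    intro f hf g hg hfg
    have hf' : f a = f b := by simpa using hf
    have hg' : g a = g b := by simpa using hg
    funext x
    by_cases hx : x = b
    · subst hx
      rw [← hf', ← hg']
      exact congrFun hfg ⟨a, hne⟩
    · exact congrFun hfg ⟨x, hx⟩
  · apply Nat.mul_le_mul_right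
    refine (Finset.card_le_univ _).trans ?_
    rw [Fintype.card_prod, sq]

variable {V : Type}

/-- Windows of a list which runs cyclically through `k` columns are rotated transversals. -/
theorem window [DecidableEq V] {k : ℕ} (hk : 0 < k) (H : Finset (Finset V)) (X : Fin k → ℕ → V)
    (hE : ∀ g : Fin k → ℕ, (Finset.univ.image fun i => X i (g i)) ∈ H) (l : List V)
    (hl : ∀ t (ht : t < l.length), l[t] = X ⟨t % k, Nat.mod_lt _ hk⟩ (t / k)) : Tight H k l := by
  intro s hs hsk
  obtain ⟨a, b, rfl⟩ := hs
  set p := a.length with hp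
  set g : Fin k → ℕ := fun i => (p + (k - 1) - i.1) / k with hg
  have hs : ∀ j (hj : j < s.length), s[j] = X ⟨(p + j) % k, Nat.mod_lt _ hk⟩ ((p + j) / k) := by
    intro j hj
    have h1 : p + j < (a ++ s ++ b).length := by
      simp only [List.length_append]
      omega
    rw [← hl (p + j) h1]
    rw [List.getElem_append_left (by simp only [List.length_append]; omega)]
    rw [List.getElem_append_right (by omega)]
    congr 1
    omega
  have hset : s.toFinset = Finset.univ.image fun i => X i (g i) := by
    ext v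
    rw [List.mem_toFinset, List.mem_iff_getElem, Finset.mem_image]
    constructor
    · rintro ⟨j, hj, rfl⟩
      refine ⟨⟨(p + j) % k, Nat.mod_lt _ hk⟩, Finset.mem_univ _, ?_⟩
      rw [hs j hj]
      have h3 : g ⟨(p + j) % k, Nat.mod_lt _ hk⟩ = (p + j) / k := by
        simp only [hg]
        have h4 := Nat.mod_add_div (p + j) k
        have h5 := Nat.mod_lt (p + j) hk
        set u := (p + j) / k with hu
        set i := (p + j) % k with hi
        rw [Nat.div_eq_iff hk]
        have h6 : k * u = u * k := Nat.mul_comm _ _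
        constructor
        · omega
        · omega
      rw [h3]
    · rintro ⟨i, _, rfl⟩
      have hi := i.2
      have h4 := Nat.mod_add_div (p + (k - 1) - i.1) k
      have h5 := Nat.mod_lt (p + (k - 1) - i.1) hk
      have hgi : g i = (p + (k - 1) - i.1) / k := rfl
      rw [← hgi] at h4
      have h6 : k * g i = g i * k := Nat.mul_comm _ _
      have h7 : p ≤ g i * k + i.1 := by omega
      have h8 : g i * k + i.1 < p + k := by omega
      refine ⟨g i * k + i.1 - p, by omega, ?_⟩
      rw [hs _ (by omega)]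
      have h9 : p + (g i * k + i.1 - p) = i.1 + k * g i := by omega
      have h10 : (p + (g i * k + i.1 - p)) % k = i.1 := by
        rw [h9, Nat.add_mul_mod_self_left, Nat.mod_eq_of_lt hi]
      have h11 : (p + (g i * k + i.1 - p)) / k = g i := by
        rw [h9, Nat.add_mul_div_left _ _ hk, Nat.div_eq_of_lt hi, Nat.zero_add]
      rw [h11]
      congr 1
      exact Fin.ext h10
  rw [hset]
  exact hE g

/-- The list is without repetitions if the columns and heights determine the entries. -/
theorem nodup_of {k m : ℕ} (hk : 0 < k) (X : Fin k → ℕ → V)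
    (hX : ∀ i j u v, u < m → v < m → X i u = X j v → i = j ∧ u = v) (l : List V)
    (hlen : l.length = m * k)
    (hl : ∀ t (ht : t < l.length), l[t] = X ⟨t % k, Nat.mod_lt _ hk⟩ (t / k)) : l.Nodup := by
  rw [List.nodup_iff_injective_get]
  intro s t hst
  have hs := hl s.1 s.2
  have ht := hl t.1 t.2
  have h1 : l[s.1] = l[t.1] := hst
  rw [hs, ht] at h1
  have bs : s.1 / k < m := by
    rw [Nat.div_lt_iff_lt_mul hk]
    have := s.2
    omega
  have bt : t.1 / k < m := by
    rw [Nat.div_lt_iff_lt_mul hk]
    have := t.2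
    omega
  obtain ⟨h2, h3⟩ := hX _ _ _ _ bs bt h1
  have h4 : s.1 % k = t.1 % k := congrArg Fin.val h2
  apply Fin.ext
  rw [← Nat.mod_add_div s.1 k, ← Nat.mod_add_div t.1 k, h4, h3]

theorem dm {k t u : ℕ} (h1 : u * k ≤ t) (h2 : t < (u + 1) * k) :
    t % k = t - u * k ∧ t / k = u := by
  have hk : 0 < k := by
    rcases Nat.eq_zero_or_pos k with rfl | h
    · simp at h2
    · exact h
  have h3 : t / k = u := by
    rw [Nat.div_eq_iff hk]
    have : (u + 1) * k = u * k + k := by ring
    constructor
    · omega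
    · omega
  refine ⟨?_, h3⟩
  have h4 := Nat.mod_add_div t k
  rw [h3] at h4
  have h5 : k * u = u * k := Nat.mul_comm _ _
  omega

theorem blk (hCKQ : CkqStmt) : BlkStmt := by
  intro k q ρ hk hq hρ
  have hk0 : 0 < k := by omega
  have hqR : (0 : ℝ) < q := by exact_mod_cast hq
  set c0 : ℝ := (ρ / q) ^ (3 ^ k) with hc0
  have hc0p : 0 < c0 := by positivity
  refine ⟨c0 / 2, ⌈18 * (k : ℝ) ^ 2 / c0⌉₊ + 1, by positivity, ?_⟩
  intro V _ _ H T hn hU hT hρE
  have hn1 : 18 * (k : ℝ) ^ 2 / c0 ≤ (Fintype.card V : ℝ) := by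
    refine (Nat.le_ceil _).trans ?_
    exact_mod_cast (Nat.le_succ _).trans hn
  have hn0 : 0 < Fintype.card V := by omega
  have hnR : (0 : ℝ) < Fintype.card V := by exact_mod_cast hn0
  set N : ℝ := (Fintype.card V : ℝ) with hN
  -- pigeonhole
  obtain ⟨i, hi⟩ : ∃ i : Fin q, ρ / q * N ^ k ≤
      ({f : Fin k → V | EdgeIn H k (T i) (List.ofFn f)}.ncard : ℝ) := by
    by_contra hcon
    push Not at hcon
    have h1 : {f : Fin k → V | ∃ i, EdgeIn H k (T i) (List.ofFn f)} =
        ⋃ i : Fin q, {f : Fin k → V | EdgeIn H k (T i) (List.ofFn f)} := by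
      ext f
      simp
    have h2 : ({f : Fin k → V | ∃ i, EdgeIn H k (T i) (List.ofFn f)}.ncard : ℝ) ≤
        ∑ i : Fin q, ({f : Fin k → V | EdgeIn H k (T i) (List.ofFn f)}.ncard : ℝ) := by
      rw [h1]
      exact_mod_cast Set.ncard_iUnion_le_of_fintype _
    have h3 : ∑ i : Fin q, ({f : Fin k → V | EdgeIn H k (T i) (List.ofFn f)}.ncard : ℝ) <
        ∑ _i : Fin q, ρ / q * N ^ k := by
      apply Finset.sum_lt_sum_of_nonempty
      · exact ⟨⟨0, hq⟩, Finset.mem_univ _⟩
      · intro i _
        exact hcon i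
    rw [Finset.sum_const, Finset.card_univ, Fintype.card_fin, nsmul_eq_mul] at h3
    have h4 : (q : ℝ) * (ρ / q * N ^ k) = ρ * N ^ k := by
      field_simp
    linarith
  set E : Set (Fin k → V) := {f : Fin k → V | EdgeIn H k (T i) (List.ofFn f)} with hE
  have h1 := hCKQ k 3 (ρ / q) (by norm_num) (by positivity) V hn0 E hi
  rw [← hc0, ← hN] at h1
  set A : Set (Fin k → Fin 3 → V) := {x | ∀ g : Fin k → Fin 3, (fun i => x i (g i)) ∈ E} with hA
  set B : Set (Fin k → Fin 3 → V) :=
    {x | ¬ Function.Injective (fun p : Fin k × Fin 3 => x p.1 p.2)} with hB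
  set W : Set ((Fin k → V) × (Fin k → V) × (Fin k → V)) := {b |
          (∃ i, Seg H k (T i) (T i) (List.ofFn b.1 ++ List.ofFn b.2.2)) ∧
          Path H k (List.ofFn b.1 ++ List.ofFn b.2.1 ++ List.ofFn b.2.2)} with hW
  have hAB : A.ncard ≤ (A \ B).ncard + B.ncard := by
    have h : A ⊆ (A \ B) ∪ B := by
      intro x hx
      by_cases hb : x ∈ B
      · exact Or.inr hb
      · exact Or.inl ⟨hx, hb⟩
    exact (Set.ncard_le_ncard h (Set.toFinite _)).trans (Set.ncard_union_le _ _)
  have hBc : B.ncard ≤ (3 * k) ^ 2 * (Fintype.card V) ^ (3 * k - 1) := by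
    have h := ncard_noninj (α := Fin k × Fin 3) (V := V)
    have hc : Fintype.card (Fin k × Fin 3) = 3 * k := by
      rw [Fintype.card_prod, Fintype.card_fin, Fintype.card_fin]
      ring
    rw [hc] at h
    refine le_trans ?_ h
    refine Set.ncard_le_ncard_of_injOn (fun x p => x p.1 p.2) ?_ ?_ (Set.toFinite _)
    · intro x hx
      exact hx
    · intro x _ y _ hxy
      funext a b
      exact congrFun hxy (a, b)
  have hWc : (A \ B).ncard ≤ W.ncard := by
    refine Set.ncard_le_ncard_of_injOn
      (fun x => ((fun i => x i 0), (fun i => x i 1), (fun i => x i 2))) ?_ ?_ (Set.toFinite _)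
    · rintro x ⟨hxA, hxB⟩
      have hinj : Function.Injective (fun p : Fin k × Fin 3 => x p.1 p.2) := by
        by_contra hc
        exact hxB hc
      have hxE : ∀ g : Fin k → Fin 3, EdgeIn H k (T i) (List.ofFn fun i => x i (g i)) :=
        fun g => hxA g
      have himg : ∀ g : Fin k → Fin 3, (Finset.univ.image fun i => x i (g i)) ∈ H := by
        intro g
        have := (hxE g).2.2.1
        have e : (List.ofFn fun i => x i (g i)).toFinset = Finset.univ.image fun i => x i (g i) := by
          ext v
          simp [List.mem_ofFn]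
        rwa [e] at this
      have hinj' : ∀ a b u v, x a u = x b v → a = b ∧ u = v := by
        intro a b u v h
        have := @hinj (a, u) (b, v) h
        simpa using this
      -- the long list
      set l3 := List.ofFn (fun i => x i 0) ++ List.ofFn (fun i => x i 1) ++
        List.ofFn (fun i => x i 2) with hl3
      set X3 : Fin k → ℕ → V := fun i u => x i (if u = 0 then 0 else if u = 1 then 1 else 2) with hX3
      have e3 : ∀ t (ht : t < l3.length), l3[t] = X3 ⟨t % k, Nat.mod_lt _ hk0⟩ (t / k) := by
        intro t ht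
        have ht3 : t < 3 * k := by
          have : l3.length = 3 * k := by
            simp only [hl3, List.length_append, List.length_ofFn]
            ring
          omega
        rcases Nat.lt_or_ge t k with h | h
        · obtain ⟨d1, d2⟩ := @dm k t 0 (by omega) (by omega)
          have q1 : (⟨t % k, Nat.mod_lt _ hk0⟩ : Fin k) = ⟨t, h⟩ := Fin.ext (by simp only [d1]; omega)
          rw [q1, d2]
          simp only [hl3, hX3, if_true]
          rw [List.getElem_append_left (by simp only [List.length_append, List.length_ofFn]; omega),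
            List.getElem_append_left (by simp only [List.length_ofFn]; omega), List.getElem_ofFn]
        · rcases Nat.lt_or_ge t (2 * k) with h' | h'
          · obtain ⟨d1, d2⟩ := @dm k t 1 (by omega) (by omega)
            have q1 : (⟨t % k, Nat.mod_lt _ hk0⟩ : Fin k) = ⟨t - k, by omega⟩ :=
              Fin.ext (by simp only [d1]; omega)
            rw [q1, d2]
            simp only [hl3, hX3, one_ne_zero, if_false, if_true]
            rw [List.getElem_append_left (by simp only [List.length_append, List.length_ofFn]; omega),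
              List.getElem_append_right (by simp only [List.length_ofFn]; omega), List.getElem_ofFn]
            simp only [List.length_ofFn]
          · obtain ⟨d1, d2⟩ := @dm k t 2 (by omega) (by omega)
            have q1 : (⟨t % k, Nat.mod_lt _ hk0⟩ : Fin k) = ⟨t - (k + k), by omega⟩ :=
              Fin.ext (by simp only [d1]; omega)
            rw [q1, d2]
            simp only [hl3, hX3]
            rw [List.getElem_append_right
              (by simp only [List.length_append, List.length_ofFn]; omega), List.getElem_ofFn]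
            simp only [List.length_append, List.length_ofFn]
            norm_num
      set l2 := List.ofFn (fun i => x i 0) ++ List.ofFn (fun i => x i 2) with hl2
      set X2 : Fin k → ℕ → V := fun i u => x i (if u = 0 then 0 else 2) with hX2
      have e2 : ∀ t (ht : t < l2.length), l2[t] = X2 ⟨t % k, Nat.mod_lt _ hk0⟩ (t / k) := by
        intro t ht
        have ht2 : t < 2 * k := by
          have : l2.length = 2 * k := by
            simp only [hl2, List.length_append, List.length_ofFn]
            ring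
          omega
        rcases Nat.lt_or_ge t k with h | h
        · obtain ⟨d1, d2⟩ := @dm k t 0 (by omega) (by omega)
          have q1 : (⟨t % k, Nat.mod_lt _ hk0⟩ : Fin k) = ⟨t, h⟩ := Fin.ext (by simp only [d1]; omega)
          rw [q1, d2]
          simp only [hl2, hX2, if_true]
          rw [List.getElem_append_left (by simp only [List.length_ofFn]; omega), List.getElem_ofFn]
        · obtain ⟨d1, d2⟩ := @dm k t 1 (by omega) (by omega)
          have q1 : (⟨t % k, Nat.mod_lt _ hk0⟩ : Fin k) = ⟨t - k, by omega⟩ :=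
            Fin.ext (by simp only [d1]; omega)
          rw [q1, d2]
          simp only [hl2, hX2, one_ne_zero, if_false]
          rw [List.getElem_append_right (by simp only [List.length_ofFn]; omega), List.getElem_ofFn]
          simp only [List.length_ofFn]
      have len3 : l3.length = 3 * k := by
        simp only [hl3, List.length_append, List.length_ofFn]
        ring
      have len2 : l2.length = 2 * k := by
        simp only [hl2, List.length_append, List.length_ofFn]
        ring
      have path3 : Path H k l3 := by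
        refine ⟨nodup_of (m := 3) hk0 X3 ?_ l3 len3 e3, window hk0 H X3 (fun g => himg _) l3 e3⟩
        intro a b u v hu hv h
        obtain ⟨h1, h2⟩ := hinj' _ _ _ _ h
        refine ⟨h1, ?_⟩
        interval_cases u <;> interval_cases v <;> simp_all
      have path2 : Path H k l2 := by
        refine ⟨nodup_of (m := 2) hk0 X2 ?_ l2 len2 e2, window hk0 H X2 (fun g => himg _) l2 e2⟩
        intro a b u v hu hv h
        obtain ⟨h1, h2⟩ := hinj' _ _ _ _ h
        refine ⟨h1, ?_⟩
        interval_cases u <;> interval_cases v <;> simp_all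
      refine ⟨⟨i, path2, by rw [len2]; omega, ?_, ?_⟩, path3⟩
      · have h := (hxE (fun _ => 0)).2.2.2.1
        change l2.take (k - 1) ∈ T i
        rw [hl2, List.take_append_of_le_length (by rw [List.length_ofFn]; omega)]
        exact h
      · have h := (hxE (fun _ => 2)).2.2.2.2
        change l2.drop (l2.length - (k - 1)) ∈ T i
        rw [len2]
        have e : 2 * k - (k - 1) = (List.ofFn (fun i => x i 0)).length + 1 := by
          rw [List.length_ofFn]; omega
        rw [e, hl2, List.drop_append]
        simp only [List.length_ofFn]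
        have e1 : List.drop (k + 1) (List.ofFn fun i => x i 0) = [] := by
          apply List.drop_eq_nil_of_le
          rw [List.length_ofFn]; omega
        have e2' : k + 1 - k = 1 := by omega
        rw [e1, e2', List.nil_append]
        exact h
    · intro x _ y _ hxy
      simp only [Prod.mk.injEq] at hxy
      obtain ⟨h0, h1, h2⟩ := hxy
      funext a b
      fin_cases b
      · exact congrFun h0 a
      · exact congrFun h1 a
      · exact congrFun h2 a
  -- numbers
  have hfin : (A.ncard : ℝ) ≤ (W.ncard : ℝ) + (3 * k) ^ 2 * N ^ (3 * k - 1) := by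
    have h : A.ncard ≤ W.ncard + (3 * k) ^ 2 * (Fintype.card V) ^ (3 * k - 1) := by omega
    have h' : (A.ncard : ℝ) ≤ ((W.ncard + (3 * k) ^ 2 * (Fintype.card V) ^ (3 * k - 1) : ℕ) : ℝ) := by
      exact_mod_cast h
    push_cast at h'
    exact h'
  have hpow : N ^ (3 * k) = N ^ (3 * k - 1) * N := by
    rw [← pow_succ]
    congr 1
    omega
  have h5 : 9 * (k : ℝ) ^ 2 ≤ c0 / 2 * N := by
    rw [div_le_iff₀ hc0p] at hn1
    nlinarith
  have h6 : (3 * (k : ℝ)) ^ 2 * N ^ (3 * k - 1) ≤ c0 / 2 * N ^ (3 * k) := by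
    rw [hpow]
    have hp : 0 ≤ N ^ (3 * k - 1) := by positivity
    nlinarith [mul_le_mul_of_nonneg_right h5 hp]
  have h7 : c0 * N ^ (3 * k) ≤ (A.ncard : ℝ) := h1
  nlinarith

end Pool.Agent.KK.H97
end
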