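import Pool.Agent.KKM.Base

/-! # MP_747bc0_co, merged modules -/

/-! ### Helper31_KK.G0D -/
section
/-! Squad KK, row B_G0D: almost all points are good. -/

set_option autoImplicit false

namespace Pool.Agent.KK.B.H31

open Function
open scoped Classical

variable {k : ℕ} {V : Type} [Fintype V]

theorem st_le {E : (Fin k → V) → Prop} {D : Fin k → (Fin k → V) → Prop} {β : ℝ} (hβ : 0 < β)
    (hβ1 : β ≤ 1) (hI : Indep D) (hC : Closed E (β ^ 3) D) (i l : Fin k) :
    dens (fun a => ¬ stG E D β a i l) ≤ β := by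
  have hQ : dens (fun e => E e ∧ ¬ (D i e ↔ D l e)) ≤ β ^ 3 :=
    (dens_mono fun e he => ⟨he.1, fun h => he.2 (h i l)⟩).trans hC
  have h1 := markov (fun (a : Fin k → V) (q : V) => (fun e => E e ∧ ¬ (D i e ↔ D l e))
    (update a i q)) β
  rw [dens_update i (fun e => E e ∧ ¬ (D i e ↔ D l e))] at h1
  have h2 : dens (fun a => ¬ stG E D β a i l) ≤ dens (fun a => β < dens ((fun (a : Fin k → V)
      (q : V) => (fun e => E e ∧ ¬ (D i e ↔ D l e)) (update a i q)) a)) := by
    refine dens_mono fun a ha => ?_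
    unfold stG at ha
    rw [not_le] at ha
    refine ha.trans_le (le_of_eq (dens_congr fun q => ?_))
    show (E (update a i q) ∧ ¬ (D i a ↔ D l (update a i q))) ↔
      (E (update a i q) ∧ ¬ (D i (update a i q) ↔ D l (update a i q)))
    rw [hI i a q]
  have h3 : dens (fun a => ¬ stG E D β a i l) * β ≤ β ^ 3 :=
    (mul_le_mul_of_nonneg_right h2 hβ.le).trans (h1.trans hQ)
  have h4 : β ^ 3 ≤ β * β := by nlinarith [mul_pos hβ hβ]
  exact le_of_mul_le_mul_right (h3.trans h4) hβ

theorem pl_le {E : (Fin k → V) → Prop} {D : Fin k → (Fin k → V) → Prop} {β : ℝ} (hβ : 0 < β)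
    (hI : Indep D) (hC : Closed E (β ^ 3) D) {i l : Fin k} (hil : i ≠ l) :
    dens (fun a => ¬ plG E D β a i l) ≤ β := by
  have hQ : dens (fun e => E e ∧ ¬ (D i e ↔ D l e)) ≤ β ^ 3 :=
    (dens_mono fun e he => ⟨he.1, fun h => he.2 (h i l)⟩).trans hC
  have h1 := markov (fun (a : Fin k → V) (x : V × V) => (fun e => E e ∧ ¬ (D i e ↔ D l e))
    (update (update a l x.1) i x.2)) (β ^ 2)
  rw [dens_update2 i l (fun e => E e ∧ ¬ (D i e ↔ D l e))] at h1
  have h2 : dens (fun a => ¬ plG E D β a i l) ≤ dens (fun a => β ^ 2 < dens ((fun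
      (a : Fin k → V) (x : V × V) => (fun e => E e ∧ ¬ (D i e ↔ D l e))
      (update (update a l x.1) i x.2)) a)) := by
    refine dens_mono fun a ha => ?_
    unfold plG at ha
    rw [not_le] at ha
    refine ha.trans_le (le_of_eq (dens_congr fun x => ?_))
    show (E (update (update a l x.1) i x.2) ∧ ¬ (D i (update a l x.1) ↔ D l (update a i x.2))) ↔
      (E (update (update a l x.1) i x.2) ∧ ¬ (D i (update (update a l x.1) i x.2) ↔
        D l (update (update a l x.1) i x.2)))
    have e1 := hI i (update a l x.1) x.2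
    have e2 : D l (update (update a l x.1) i x.2) ↔ D l (update a i x.2) := by
      rw [update_comm hil.symm]
      exact hI l (update a i x.2) x.1
    rw [e1, e2]
  have hb2 : 0 < β ^ 2 := by positivity
  have h3 : dens (fun a => ¬ plG E D β a i l) * β ^ 2 ≤ β * β ^ 2 :=
    (mul_le_mul_of_nonneg_right h2 hb2.le).trans ((h1.trans hQ).trans (le_of_eq (by ring)))
  exact le_of_mul_le_mul_right h3 hb2

theorem ln_half {P : (Fin k → V) → Prop} {β : ℝ} (hβ : 0 < β) (l : Fin k) :
    dens (fun a => dens (fun z => P (update a l z)) ≤ β ∧ P a) ≤ β := by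
  rw [← dens_update l (fun a => dens (fun z => P (update a l z)) ≤ β ∧ P a)]
  refine dens_prod_le (Q := fun (a : Fin k → V) (z : V) =>
    dens (fun z' => P (update (update a l z) l z')) ≤ β ∧ P (update a l z)) hβ.le fun a => ?_
  by_cases h : dens (fun z' => P (update a l z')) ≤ β
  · exact (dens_mono fun z hz => hz.2).trans h
  · refine (dens_mono (Q := fun _ => False) fun z hz => ?_).trans (by rw [dens_false]; exact hβ.le)
    apply h
    have h1 := hz.1
    simp only [update_idem] at h1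
    exact h1

theorem ln_le {D : Fin k → (Fin k → V) → Prop} {β : ℝ} (hβ : 0 < β) (i l : Fin k) :
    dens (fun a => ¬ lnG D β a i l) ≤ 2 * β := by
  have h1 := ln_half (P := fun a => ¬ D i a) hβ l
  have h2 := ln_half (P := fun a => D i a) hβ l
  refine (dens_mono (Q := fun a => (dens (fun z => ¬ D i (update a l z)) ≤ β ∧ ¬ D i a) ∨
    (dens (fun z => D i (update a l z)) ≤ β ∧ D i a)) fun a ha => ?_).trans
    ((dens_or_le _ _).trans (by linarith))
  unfold lnG at ha
  by_contra hcon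
  push Not at hcon
  exact ha ⟨hcon.1, hcon.2⟩

/-- G0D -/
theorem g0d : G0dStmt := by
  intro k V _ _ E D β hβ hβ1 hI hC
  obtain ⟨P, hP⟩ : ∃ P : (Equiv.Perm (Fin k) × Fin k × Fin k) → (Fin k → V) → Prop,
      P = fun x a => x.2.1 ≠ x.2.2 ∧ ¬ (stG E D β (a ∘ x.1) x.2.1 x.2.2 ∧
        plG E D β (a ∘ x.1) x.2.1 x.2.2 ∧ lnG D β (a ∘ x.1) x.2.1 x.2.2) := ⟨_, rfl⟩
  have h1 : dens (fun a => ¬ G0 E D β a) ≤ dens (fun a => ∃ x, P x a) := by
    refine dens_mono fun a ha => ?_
    unfold G0 at ha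
    push Not at ha
    obtain ⟨σ, i, l, hil, h⟩ := ha
    refine ⟨(σ, i, l), ?_⟩
    rw [hP]
    exact ⟨hil, fun hh => h hh.1 hh.2.1 hh.2.2⟩
  have h2 : ∀ x, dens (P x) ≤ 4 * β := by
    rintro ⟨σ, i, l⟩
    by_cases hil : i = l
    · refine (dens_mono (Q := fun _ => False) fun a ha => ?_).trans
        (by rw [dens_false]; positivity)
      rw [hP] at ha
      exact ha.1 hil
    · have e1 := st_le hβ hβ1 hI hC i l
      have e2 := pl_le hβ hI hC hil
      have e3 := ln_le (D := D) hβ i l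
      rw [← dens_perm σ] at e1 e2 e3
      refine (dens_mono (Q := fun a => (¬ stG E D β (a ∘ σ) i l ∨ ¬ plG E D β (a ∘ σ) i l) ∨
        ¬ lnG D β (a ∘ σ) i l) fun a ha => ?_).trans
        ((dens_or_le _ _).trans ?_)
      · rw [hP] at ha
        have h3 := ha.2
        by_contra hcon
        push Not at hcon
        exact h3 ⟨hcon.1.1, hcon.1.2, hcon.2⟩
      · have h4 := dens_or_le (fun a => ¬ stG E D β (a ∘ σ) i l)
          (fun a => ¬ plG E D β (a ∘ σ) i l)
        linarith
  refine h1.trans ((dens_exists_le P).trans ((Finset.sum_le_sum fun x _ => h2 x).trans ?_))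
  rw [Finset.sum_const, Finset.card_univ, Fintype.card_prod, Fintype.card_prod,
    Fintype.card_perm, Fintype.card_fin, nsmul_eq_mul]
  push_cast
  apply le_of_eq
  ring

end Pool.Agent.KK.B.H31
end

/-! ### Helper40_KK.EXC -/
section
/-!
# Squad KK, block B, row EXC: the exchange lemma
-/

set_option autoImplicit false

namespace Pool.Agent.KK.B.H40

open Function Pool.Agent.KK.B
open scoped Classical

variable {k : ℕ} {V : Type} [Fintype V]

/-- the conclusion of the exchange lemma for one point `z` -/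
def Gd (E : (Fin k → V) → Prop) (D : Fin k → (Fin k → V) → Prop) (β : ℝ) (b : Fin k → V)
    (i l m : Fin k) (z : V) : Prop :=
  SS D i l (update b m z) ∧ pm (44 * β) (nb E (update b m z) i) (nb E b i)

omit [Fintype V] in
lemma swap_update (b : Fin k → V) {l m : Fin k} (hlm : l ≠ m) (z : V) :
    update b m z ∘ (Equiv.swap l m) = update (update b l z) m (b l) := by
  funext x
  rw [comp_apply]
  by_cases h1 : x = m
  · subst h1
    rw [Equiv.swap_apply_right, update_self, update_of_ne hlm]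
  · by_cases h2 : x = l
    · subst h2
      rw [Equiv.swap_apply_left, update_self, update_of_ne hlm, update_self]
    · rw [Equiv.swap_apply_of_ne_of_ne h2 h1, update_of_ne h1, update_of_ne h1, update_of_ne h2]

/-- two good points on split lines with the same traces have the same neighbourhoods up to
`22 β` -/
lemma pm22 (hNsp : NspStmt) [Nonempty V] {E : (Fin k → V) → Prop}
    {D : Fin k → (Fin k → V) → Prop} {β : ℝ} (h0 : 0 < β) (h1 : β ≤ 1 / 16) (hS : Symm E)
    (hD : Deg E) {a c : Fin k → V} {i l : Fin k} (hil : i ≠ l) (ha : G0 E D β a)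
    (hc : G0 E D β c) (hsp : Sp D a i l)
    (hac : (fun p => D i (update a l p)) = (fun p => D i (update c l p))) :
    pm (22 * β) (nb E a i) (nb E c i) := by
  have hsp' : Sp D c i l := by
    unfold Sp at hsp ⊢
    rw [← hac]
    exact hsp
  obtain ⟨p1, p2, _⟩ := G0_self ha hil
  obtain ⟨q1, q2, _⟩ := G0_self hc hil
  have h3 := (hNsp k V E D β a i l h0 h1 hS hD hil p1 p2 hsp).1
  have h4 := (hNsp k V E D β c i l h0 h1 hS hD hil q1 q2 hsp').1
  rw [← hac] at h4
  have h5 := pm_trans h3 (pm_symm h4)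
  exact pm_mono (by linarith) h5

/-- Case 1: a split plane in the directions `i, m` -/
lemma good1 (hNsp : NspStmt) [Nonempty V] {E : (Fin k → V) → Prop}
    {D : Fin k → (Fin k → V) → Prop} {β : ℝ} (h0 : 0 < β) (h1 : β ≤ 1 / 16) (hS : Symm E)
    (hD : Deg E) {b : Fin k → V} {i l m : Fin k} (hil : i ≠ l) (him : i ≠ m) (hlm : l ≠ m)
    (hb : G0 E D β b) (hsp : Sp D b i l) {z : V} (hm : G0 E D β (update b m z))
    (hl : G0 E D β (update b l z)) (hP : Sp D (update b l z) i m) : Gd E D β b i l m z := by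
  have hc := swap_update b hlm z
  have hsw : Equiv.swap l m i = i := Equiv.swap_apply_of_ne_of_ne hil him
  have hfun : (fun p => D i (update (update b m z ∘ (Equiv.swap l m)) m p)) =
      (fun p => D i (update (update b l z) m p)) := by
    funext p
    rw [hc, update_idem]
  have hG : G0 E D β (update b m z ∘ (Equiv.swap l m)) := (G0_perm E D β _ _).mpr hm
  have hspc : Sp D (update b m z ∘ (Equiv.swap l m)) i m := by
    unfold Sp at hP ⊢
    rw [hfun]
    exact hP
  refine ⟨⟨Equiv.swap l m, ?_⟩, ?_⟩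
  · rw [Equiv.symm_swap, hsw, Equiv.swap_apply_left]
    exact hspc
  · have h2 := pm22 hNsp h0 h1 hS hD him hG hl hspc hfun
    rw [nb_perm hS, hsw] at h2
    have hfun2 : (fun p => D i (update (update b l z) l p)) = (fun p => D i (update b l p)) := by
      funext p
      rw [update_idem]
    have hsp2 : Sp D (update b l z) i l := by
      unfold Sp at hsp ⊢
      rw [hfun2]
      exact hsp
    have h3 := pm22 hNsp h0 h1 hS hD hil hl hb hsp2 hfun2
    exact pm_mono (by linarith) (pm_trans h2 h3)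

/-- Case 3: the plane in the directions `i, l` is split over `z` -/
lemma good3 (hNsp : NspStmt) [Nonempty V] {E : (Fin k → V) → Prop}
    {D : Fin k → (Fin k → V) → Prop} {β : ℝ} (h0 : 0 < β) (h1 : β ≤ 1 / 16) (hS : Symm E)
    (hD : Deg E) {b : Fin k → V} {i l m : Fin k} (hil : i ≠ l) (him : i ≠ m) (hlm : l ≠ m)
    (hb : G0 E D β b) (hsp : Sp D b i l) {z : V} (hm : G0 E D β (update b m z))
    (hl : G0 E D β (update b l z)) (hP : Sp D (update b m z) i l) : Gd E D β b i l m z := by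
  have hc := swap_update b hlm.symm z
  have hsw : Equiv.swap m l i = i := Equiv.swap_apply_of_ne_of_ne him hil
  have hfun : (fun p => D i (update (update b m z) l p)) =
      (fun p => D i (update (update b l z ∘ (Equiv.swap m l)) l p)) := by
    funext p
    rw [hc, update_idem]
  have hG : G0 E D β (update b l z ∘ (Equiv.swap m l)) := (G0_perm E D β _ _).mpr hl
  refine ⟨⟨1, hP⟩, ?_⟩
  have h2 := pm22 hNsp h0 h1 hS hD hil hm hG hP hfun
  rw [nb_perm hS, hsw] at h2
  have hfun2 : (fun p => D i (update (update b l z) l p)) = (fun p => D i (update b l p)) := by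
    funext p
    rw [update_idem]
  have hsp2 : Sp D (update b l z) i l := by
    unfold Sp at hsp ⊢
    rw [hfun2]
    exact hsp
  have h3 := pm22 hNsp h0 h1 hS hD hil hl hb hsp2 hfun2
  exact pm_mono (by linarith) (pm_trans h2 h3)

/-- the counting of case 3: if many `u` in a set `U` have nearly full fibres then most `z` have a
large fibre -/
lemma fibre {U : V → Prop} {F : V → V → Prop} {β θ ε : ℝ} (hθ : 0 < θ) (hβ : 0 ≤ β)
    (hU : ε ≤ dens U) (hF : ∀ u, U u → dens (fun z => ¬ F u z) ≤ β) :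
    dens (fun z => dens (fun u => F u z) < ε - θ / 4) ≤ 4 * β / θ := by
  have h1 : dens (fun x : V × V => (fun u z => U u ∧ ¬ F u z) x.1 x.2) ≤ β := by
    refine dens_prod_le (α := V) (β := V) (Q := fun u z => U u ∧ ¬ F u z) hβ fun u => ?_
    by_cases hu : U u
    · refine (dens_mono fun z hz => ?_).trans (hF u hu)
      exact hz.2
    · refine (dens_mono (Q := fun _ : V => False) fun z hz => hu hz.1).trans ?_
      rw [dens_false]
      exact hβ
  have h2 : dens (fun x : V × V => (fun z u => U u ∧ ¬ F u z) x.1 x.2) ≤ β := by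
    have h3 := dens_equiv (Equiv.prodComm V V) (fun x : V × V => U x.1 ∧ ¬ F x.1 x.2)
    exact le_trans (le_of_eq h3) h1
  have h4 := markov (fun z u => U u ∧ ¬ F u z) (θ / 4)
  have h5 : dens (fun z => θ / 4 < dens (fun u => U u ∧ ¬ F u z)) ≤ 4 * β / θ := by
    rw [le_div_iff₀ hθ]
    have h6 := h4.trans h2
    linarith
  refine (dens_mono fun z hz => ?_).trans h5
  have h7 := dens_split U (fun u => F u z)
  have h8 : dens (fun u => U u ∧ F u z) ≤ dens (fun u => F u z) := dens_mono fun u hu => hu.2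
  have h9 : dens (fun u => F u z) < ε - θ / 4 := hz
  show θ / 4 < dens (fun u => U u ∧ ¬ F u z)
  linarith

/-- **The exchange lemma at `b`.** -/
theorem exc_core (hPlt : PltStmt) (hNsp : NspStmt) [Nonempty V] {E : (Fin k → V) → Prop}
    {D : Fin k → (Fin k → V) → Prop} {β δ θ : ℝ} (h0 : 0 < β) (h1 : β ≤ 1 / 16) (hθ : 0 < θ)
    (hθ1 : θ ≤ 1 / 8) (hδθ : δ ≤ θ / 4) (hβθ : β ≤ θ ^ 2 / 22) (hS : Symm E)
    (hD : Deg E) {b : Fin k → V} {i l m : Fin k} (hil : i ≠ l) (him : i ≠ m) (hlm : l ≠ m)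
    (hb : G0 E D β b) (hsp : Sp D b i l)
    (hgl : dens (fun z => ¬ G0 E D β (update b l z)) ≤ δ)
    (hgm : dens (fun z => ¬ G0 E D β (update b m z)) ≤ δ) :
    ∃ Z : V → Prop, (Z = nb E b i ∨ Z = fun v => ¬ nb E b i v) ∧
      dens (fun z => Z z ∧ ¬ Gd E D β b i l m z) ≤ 2 * θ := by
  have hβθ' : 22 * β ≤ θ ^ 2 := by linarith
  have hθsq : θ ^ 2 ≤ θ / 8 := by nlinarith
  obtain ⟨p1, p2, p3⟩ := G0_self hb hil
  have hnb := (hNsp k V E D β b i l h0 h1 hS hD hil p1 p2 hsp).1
  have hg : dens (fun z => ¬ G0 E D β (update b m z) ∨ ¬ G0 E D β (update b l z)) ≤ 2 * δ :=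
    (dens_or_le _ _).trans (by linarith)
  by_cases hc1 : dens (fun u => D i (update b l u) ∧ ¬ Sp D (update b l u) i m) ≤ θ
  · -- case 1
    have h2 : dens (fun z => D i (update b l z) ∧ ¬ Gd E D β b i l m z) ≤ θ + 2 * δ := by
      refine (dens_mono (Q := fun z => (D i (update b l z) ∧ ¬ Sp D (update b l z) i m) ∨
        (¬ G0 E D β (update b m z) ∨ ¬ G0 E D β (update b l z))) fun z hz => ?_).trans
        ((dens_or_le _ _).trans (add_le_add hc1 hg))
      by_contra hcon
      push Not at hcon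
      exact hz.2 (good1 hNsp h0 h1 hS hD hil him hlm hb hsp hcon.2.1 hcon.2.2 (hcon.1 hz.1))
    rcases hnb with hn | hn
    · refine ⟨nb E b i, Or.inl rfl, ?_⟩
      unfold near at hn
      refine (dens_mono (Q := fun z => (¬ (nb E b i z ↔ D i (update b l z))) ∨
        (D i (update b l z) ∧ ¬ Gd E D β b i l m z)) fun z hz => ?_).trans
        ((dens_or_le _ _).trans ((add_le_add hn h2).trans (by linarith)))
      by_cases h3 : D i (update b l z)
      · exact Or.inr ⟨h3, hz.2⟩
      · exact Or.inl fun h4 => h3 (h4.mp hz.1)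
    · refine ⟨fun v => ¬ nb E b i v, Or.inr rfl, ?_⟩
      unfold near at hn
      refine (dens_mono (Q := fun z => (¬ (nb E b i z ↔ ¬ D i (update b l z))) ∨
        (D i (update b l z) ∧ ¬ Gd E D β b i l m z)) fun z hz => ?_).trans
        ((dens_or_le _ _).trans ((add_le_add hn h2).trans (by linarith)))
      by_cases h3 : D i (update b l z)
      · exact Or.inr ⟨h3, hz.2⟩
      · exact Or.inl fun h4 => hz.1 (h4.mpr h3)
  · by_cases hc2 : dens (fun u => ¬ D i (update b l u) ∧ ¬ Sp D (update b l u) i m) ≤ θ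
    · -- case 2
      have h2 : dens (fun z => ¬ D i (update b l z) ∧ ¬ Gd E D β b i l m z) ≤ θ + 2 * δ := by
        refine (dens_mono (Q := fun z => (¬ D i (update b l z) ∧ ¬ Sp D (update b l z) i m) ∨
          (¬ G0 E D β (update b m z) ∨ ¬ G0 E D β (update b l z))) fun z hz => ?_).trans
          ((dens_or_le _ _).trans (add_le_add hc2 hg))
        by_contra hcon
        push Not at hcon
        exact hz.2 (good1 hNsp h0 h1 hS hD hil him hlm hb hsp hcon.2.1 hcon.2.2 (hcon.1 hz.1))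
      rcases hnb with hn | hn
      · refine ⟨fun v => ¬ nb E b i v, Or.inr rfl, ?_⟩
        unfold near at hn
        refine (dens_mono (Q := fun z => (¬ (nb E b i z ↔ D i (update b l z))) ∨
          (¬ D i (update b l z) ∧ ¬ Gd E D β b i l m z)) fun z hz => ?_).trans
          ((dens_or_le _ _).trans ((add_le_add hn h2).trans (by linarith)))
        by_cases h3 : D i (update b l z)
        · exact Or.inl fun h4 => hz.1 (h4.mpr h3)
        · exact Or.inr ⟨h3, hz.2⟩
      · refine ⟨nb E b i, Or.inl rfl, ?_⟩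
        unfold near at hn
        refine (dens_mono (Q := fun z => (¬ (nb E b i z ↔ ¬ D i (update b l z))) ∨
          (¬ D i (update b l z) ∧ ¬ Gd E D β b i l m z)) fun z hz => ?_).trans
          ((dens_or_le _ _).trans ((add_le_add hn h2).trans (by linarith)))
        by_cases h3 : D i (update b l z)
        · exact Or.inl fun h4 => (h4.mp hz.1) h3
        · exact Or.inr ⟨h3, hz.2⟩
    · -- case 3
      rw [not_le] at hc1 hc2
      have hU1 : θ - δ ≤ dens (fun u => (D i (update b l u) ∧ ¬ Sp D (update b l u) i m) ∧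
          G0 E D β (update b l u)) := by
        have h2 := dens_split (fun u => D i (update b l u) ∧ ¬ Sp D (update b l u) i m)
          (fun u => G0 E D β (update b l u))
        have h3 : dens (fun u => (D i (update b l u) ∧ ¬ Sp D (update b l u) i m) ∧
            ¬ G0 E D β (update b l u)) ≤ δ := (dens_mono fun u hu => hu.2).trans hgl
        linarith
      have hU0 : θ - δ ≤ dens (fun u => (¬ D i (update b l u) ∧ ¬ Sp D (update b l u) i m) ∧
          G0 E D β (update b l u)) := by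
        have h2 := dens_split (fun u => ¬ D i (update b l u) ∧ ¬ Sp D (update b l u) i m)
          (fun u => G0 E D β (update b l u))
        have h3 : dens (fun u => (¬ D i (update b l u) ∧ ¬ Sp D (update b l u) i m) ∧
            ¬ G0 E D β (update b l u)) ≤ δ := (dens_mono fun u hu => hu.2).trans hgl
        linarith
      have hF1 := fibre (F := fun u z => D i (update (update b l u) m z)) hθ h0.le hU1
        (fun u hu => by
          obtain ⟨⟨hA, hP⟩, hG⟩ := hu
          obtain ⟨_, q2, q3⟩ := G0_self hG him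
          rcases hPlt k V E D β (update b l u) i m h0 h1 hS hD him q2 with h2 | h2 | h2
          · exact absurd hA (q3.2 h2.1)
          · exact h2.1
          · exact absurd h2.1 hP)
      have hF0 := fibre (F := fun u z => ¬ D i (update (update b l u) m z)) hθ h0.le hU0
        (fun u hu => by
          obtain ⟨⟨hA, hP⟩, hG⟩ := hu
          obtain ⟨_, q2, q3⟩ := G0_self hG him
          rcases hPlt k V E D β (update b l u) i m h0 h1 hS hD him q2 with h2 | h2 | h2
          · simp only [not_not]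
            exact h2.1
          · exact absurd (q3.1 h2.1) hA
          · exact absurd h2.1 hP)
      refine ⟨nb E b i, Or.inl rfl, ?_⟩
      have hfin : 4 * β / θ + 4 * β / θ + 2 * δ ≤ 2 * θ := by
        have h2 : β / θ ≤ θ / 22 := by
          rw [div_le_iff₀ hθ]
          nlinarith
        have h3 : 4 * β / θ = 4 * (β / θ) := by ring
        rw [h3]
        linarith
      have hF1' : dens (fun z => dens (fun u => D i (update (update b l u) m z)) <
        θ - δ - θ / 4) ≤ 4 * β / θ := hF1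
      have hF0' : dens (fun z => dens (fun u => ¬ D i (update (update b l u) m z)) <
        θ - δ - θ / 4) ≤ 4 * β / θ := hF0
      have hor1 := dens_or_le (fun z => dens (fun u => D i (update (update b l u) m z)) <
        θ - δ - θ / 4) (fun z => dens (fun u => ¬ D i (update (update b l u) m z)) <
        θ - δ - θ / 4)
      have hor2 := dens_or_le (fun z => (dens (fun u => D i (update (update b l u) m z)) <
        θ - δ - θ / 4) ∨ (dens (fun u => ¬ D i (update (update b l u) m z)) <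
        θ - δ - θ / 4)) (fun z => ¬ G0 E D β (update b m z) ∨ ¬ G0 E D β (update b l z))
      have hmono : dens (fun z => nb E b i z ∧ ¬ Gd E D β b i l m z) ≤
          dens (fun z => ((dens (fun u => D i (update (update b l u) m z)) < θ - δ - θ / 4) ∨
            (dens (fun u => ¬ D i (update (update b l u) m z)) < θ - δ - θ / 4)) ∨
            (¬ G0 E D β (update b m z) ∨ ¬ G0 E D β (update b l z))) := ?_
      · linarith
      refine dens_mono fun z hz => ?_
      by_contra hcon
      push Not at hcon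
      obtain ⟨⟨h2, h3⟩, h4, h5⟩ := hcon
      refine hz.2 (good3 hNsp h0 h1 hS hD hil him hlm hb hsp h4 h5 ?_)
      have hcomm : ∀ u, update (update b l u) m z = update (update b m z) l u := fun u =>
        update_comm hlm _ _ _
      simp only [hcomm] at h2 h3
      obtain ⟨_, q2, _⟩ := G0_self h4 hil
      rcases hPlt k V E D β (update b m z) i l h0 h1 hS hD hil q2 with h6 | h6 | h6
      · exfalso; have := h6.1; linarith
      · exfalso; have := h6.1; linarith
      · exact h6.1

/-- **Row EXC.** -/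
theorem exc (hPlt : PltStmt) (hNsp : NspStmt) : ExcStmt := by
  intro k V _ _ E D β δ θ a i0 i1 m h0 h1 hθ hθ1 hδ hδθ hβθ hS hD _ h01 hm0 hm1 hlev hss
  obtain ⟨σ, hσ⟩ := hss
  obtain ⟨hG, hGm⟩ := hlev
  have hi : σ (σ.symm i0) = i0 := Equiv.apply_symm_apply _ _
  have hl : σ (σ.symm i1) = i1 := Equiv.apply_symm_apply _ _
  have hm : σ (σ.symm m) = m := Equiv.apply_symm_apply _ _
  have hlevl : dens (fun z => ¬ G0 E D β (update (a ∘ σ) (σ.symm i1) z)) ≤ δ := by
    refine (dens_mono fun z hz => ?_).trans (hGm i1)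
    rw [update_comp_perm, hl, G0_perm] at hz
    exact hz
  have hlevm : dens (fun z => ¬ G0 E D β (update (a ∘ σ) (σ.symm m) z)) ≤ δ := by
    refine (dens_mono fun z hz => ?_).trans (hGm m)
    rw [update_comp_perm, hm, G0_perm] at hz
    exact hz
  obtain ⟨Z, hZ, hZ'⟩ := exc_core hPlt hNsp h0 h1 hθ hθ1 hδθ hβθ hS hD
    (b := a ∘ σ) (i := σ.symm i0) (l := σ.symm i1) (m := σ.symm m)
    (fun h => h01 (σ.symm.injective h)) (fun h => hm0 (σ.symm.injective h).symm)
    (fun h => hm1 (σ.symm.injective h).symm) ((G0_perm E D β σ a).mpr hG) hσ hlevl hlevm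
  rw [nb_perm hS, hi] at hZ
  refine ⟨Z, hZ, (dens_mono fun z hz => ?_).trans hZ'⟩
  refine ⟨hz.1, fun hgd => hz.2 ?_⟩
  obtain ⟨⟨τ, hτ⟩, hpm⟩ := hgd
  have hup : update (a ∘ σ) (σ.symm m) z = update a m z ∘ σ := by
    rw [update_comp_perm, hm]
  rw [hup] at hτ hpm
  rw [nb_perm hS, nb_perm hS, hi] at hpm
  exact ⟨⟨τ.trans σ, hτ⟩, hpm⟩

end Pool.Agent.KK.B.H40
end

/-! ### Helper62_KK.E_MAR -/
section
/-!
# KK row E_MAR (statement E11): a normal set is completed to a non-normal set by few tuples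
-/

set_option autoImplicit false

open scoped BigOperators

namespace Pool.Agent.KK.E.H62

variable {V : Type} [Fintype V] [DecidableEq V]

/-- the letters of `Fin a ⊕ Fin b` -/
def col (a b : ℕ) : Fin a ⊕ Fin b → Bool := Sum.elim (fun _ => true) (fun _ => false)

theorem lets_eq (X : Finset V) (a b : ℕ) (x : Fin a ⊕ Fin b) : lets X a b x = sd X (col a b x) := by
  rcases x with x | x <;> simp [lets, col, sd]

theorem card_col (a b : ℕ) (c : Bool) :
    Fintype.card {x : Fin a ⊕ Fin b // col a b x = c} = if c = true then a else b := by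
  classical
  rw [Fintype.card_congr Equiv.subtypeSum, Fintype.card_sum]
  cases c <;> simp [col]

theorem cnt {ι : Type} [Fintype ι] (X M : Finset V) (l : ι → Bool) (z : ι → V)
    (hz : ∀ i, z i ∈ sd X (l i))
    (hc : (M ∪ Finset.univ.image z).card = M.card + Fintype.card ι) :
    ((M ∪ Finset.univ.image z) ∩ X).card =
      (M ∩ X).card + (Finset.univ.filter fun i => l i = true).card ∧
    ((M ∪ Finset.univ.image z) \ X).card =
      (M \ X).card + (Finset.univ.filter fun i => l i = false).card := by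
  classical
  have h1 := Finset.card_union_add_card_inter M (Finset.univ.image z)
  have h2 : (Finset.univ.image z).card ≤ Fintype.card ι := Finset.card_image_le
  have h3 : (Finset.univ.image z).card = Fintype.card ι := by omega
  have h4 : (M ∩ Finset.univ.image z).card = 0 := by omega
  have hdis : Disjoint M (Finset.univ.image z) :=
    Finset.disjoint_iff_inter_eq_empty.2 (Finset.card_eq_zero.1 h4)
  have hinj : Function.Injective z := by
    have := Finset.card_image_iff.1 (by rw [h3]; rfl : (Finset.univ.image z).card =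
      (Finset.univ : Finset ι).card)
    intro i j hij
    exact this (Finset.mem_coe.2 (Finset.mem_univ i)) (Finset.mem_coe.2 (Finset.mem_univ j)) hij
  have hX : ∀ i, z i ∈ X ↔ l i = true := by
    intro i
    have h := hz i
    unfold sd at h
    by_cases hl : l i = true
    · rw [if_pos hl] at h
      exact ⟨fun _ => hl, fun _ => h⟩
    · rw [if_neg hl] at h
      rw [Finset.mem_compl] at h
      exact ⟨fun h' => absurd h' h, fun h' => absurd h' hl⟩
  constructor
  · have e1 : (M ∪ Finset.univ.image z) ∩ X = (M ∩ X) ∪ (Finset.univ.image z ∩ X) :=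
      Finset.union_inter_distrib_right _ _ _
    have e2 : Finset.univ.image z ∩ X = (Finset.univ.filter fun i => l i = true).image z := by
      ext v
      simp only [Finset.mem_inter, Finset.mem_image, Finset.mem_univ, true_and,
        Finset.mem_filter]
      constructor
      · rintro ⟨⟨i, rfl⟩, h⟩
        exact ⟨i, (hX i).1 h, rfl⟩
      · rintro ⟨i, h, rfl⟩
        exact ⟨⟨i, rfl⟩, (hX i).2 h⟩
    rw [e1, Finset.card_union_of_disjoint, e2, Finset.card_image_of_injective _ hinj]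
    exact Finset.disjoint_of_subset_left Finset.inter_subset_left
      (Finset.disjoint_of_subset_right Finset.inter_subset_left hdis)
  · have e1 : (M ∪ Finset.univ.image z) \ X = (M \ X) ∪ (Finset.univ.image z \ X) :=
      Finset.union_sdiff_distrib _ _ _
    have e2 : Finset.univ.image z \ X = (Finset.univ.filter fun i => l i = false).image z := by
      ext v
      simp only [Finset.mem_sdiff, Finset.mem_image, Finset.mem_univ, true_and,
        Finset.mem_filter]
      constructor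
      · rintro ⟨⟨i, rfl⟩, h⟩
        refine ⟨i, ?_, rfl⟩
        rw [hX i] at h
        simpa using h
      · rintro ⟨i, h, rfl⟩
        refine ⟨⟨i, rfl⟩, ?_⟩
        rw [hX i, h]
        simp
    rw [e1, Finset.card_union_of_disjoint, e2, Finset.card_image_of_injective _ hinj]
    exact Finset.disjoint_of_subset_left Finset.sdiff_subset
      (Finset.disjoint_of_subset_right Finset.sdiff_subset hdis)

/-- **E_MAR**. -/
theorem e_mar (h01 : StmtE01) (h02 : StmtE02) (h03 : StmtE03) : StmtE11 := by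
  classical
  intro V _ _ ι _ H X M p q η l hX hY hη hτ hM
  set c : ι → Finset V := fun i => sd X (l i) with hcdef
  have hsd : ∀ b, (sd X b).Nonempty := by
    intro b
    cases b
    · simpa [sd] using hY
    · simpa [sd] using hX
  have hcn : ∀ i, (c i).Nonempty := fun i => hsd _
  obtain ⟨d0, dmono, -, -, dex, -⟩ := h01 V ι c hcn
  set ev : (ι → V) → Prop := fun z => (M ∪ Finset.univ.image z).card =
        M.card + Fintype.card ι ∧ Non H X p q η (M ∪ Finset.univ.image z) with hev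
  have hR : 0 ≤ η M.card / η (M.card + Fintype.card ι) := div_nonneg hη hτ.le
  by_cases h0 : 0 < dens c ev
  swap
  · exact (not_lt.1 h0).trans hR
  obtain ⟨z₀, hz₀, hzc, hzN⟩ := dex ev h0
  set s := (Finset.univ.filter fun i => l i = true).card with hs
  set t := (Finset.univ.filter fun i => l i = false).card with ht
  obtain ⟨c1, c2⟩ := cnt X M l z₀ hz₀ hzc
  obtain ⟨n1, n2, -⟩ := hzN
  rw [c1] at n1
  rw [c2] at n2
  set a := p + 1 - (M ∩ X).card with ha
  set b := q + 1 - (M \ X).card with hb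
  have hsa : s ≤ a := by omega
  have htb : t ≤ b := by omega
  have hD : D H X M a b ≤ η M.card := by
    by_contra hlt
    exact hM ⟨by omega, by omega, not_le.1 hlt⟩
  -- the bijection of the index types
  let col1 : ι ⊕ (Fin (a - s) ⊕ Fin (b - t)) → Bool := Sum.elim l (col (a - s) (b - t))
  have hcard : ∀ x : Bool, Fintype.card {y // col1 y = x} = Fintype.card {y // col a b y = x} := by
    intro x
    have e1 : Fintype.card {y // col1 y = x} = Fintype.card {i // l i = x} +
        Fintype.card {y // col (a - s) (b - t) y = x} := by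
      rw [Fintype.card_congr (Equiv.subtypeSum (p := fun y => col1 y = x)), Fintype.card_sum]
      rfl
    rw [e1, card_col, card_col, Fintype.card_subtype]
    cases x
    · rw [← ht]
      simp only [Bool.false_eq_true, if_false]
      omega
    · rw [← hs]
      simp only [if_true]
      omega
  let e : (ι ⊕ (Fin (a - s) ⊕ Fin (b - t))) ≃ (Fin a ⊕ Fin b) :=
    Equiv.ofFiberEquiv (f := col1) (g := col a b) fun x => Fintype.equivOfCardEq (hcard x)
  have he : ∀ y, col a b (e y) = col1 y := fun y => Equiv.ofFiberEquiv_map _ y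
  have hbox : (lets X a b) ∘ e = Sum.elim c (lets X (a - s) (b - t)) := by
    funext y
    rw [Function.comp, lets_eq, he]
    rcases y with i | y
    · rfl
    · change sd X (col (a - s) (b - t) y) = lets X (a - s) (b - t) y
      rw [lets_eq]
  have hln : ∀ a b : ℕ, ∀ i, (lets X a b i).Nonempty := by
    intro a b i
    rw [lets_eq]
    exact hsd _
  let P : (ι ⊕ (Fin (a - s) ⊕ Fin (b - t)) → V) → Prop := fun f => M ∪ Finset.univ.image f ∈ H
  have hpull := h02 V (Fin a ⊕ Fin b) (ι ⊕ (Fin (a - s) ⊕ Fin (b - t))) (lets X a b) e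
    (hln a b) e.injective P
  rw [hbox] at hpull
  have hDe : dens (Sum.elim c (lets X (a - s) (b - t))) P = D H X M a b := by
    rw [← hpull]
    unfold D
    congr 1
    funext f
    change (M ∪ Finset.univ.image (f ∘ e) ∈ H) = (M ∪ Finset.univ.image f ∈ H)
    have : Finset.univ.image (f ∘ e) = Finset.univ.image f := by
      rw [← Finset.image_image, Finset.image_univ_equiv]
    rw [this]
  obtain ⟨-, mk, -⟩ := h03 V ι (Fin (a - s) ⊕ Fin (b - t)) c (lets X (a - s) (b - t)) hcn
    (hln _ _)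
  have hmk := mk P (η (M.card + Fintype.card ι)) hτ
  rw [hDe] at hmk
  have hle : dens c ev ≤ dens c (fun f => η (M.card + Fintype.card ι) <
      dens (lets X (a - s) (b - t)) (fun g => P (Sum.elim f g))) := by
    apply dmono
    rintro z hz ⟨hzc', hzN'⟩
    obtain ⟨c1', c2'⟩ := cnt X M l z hz hzc'
    obtain ⟨m1, m2, m3⟩ := hzN'
    rw [hzc', c1', c2'] at m3
    have e1 : p + 1 - ((M ∩ X).card + (Finset.univ.filter fun i => l i = true).card) = a - s := by
      omega
    have e2 : q + 1 - ((M \ X).card + (Finset.univ.filter fun i => l i = false).card) = b - t := by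
      omega
    rw [e1, e2] at m3
    have e3 : D H X (M ∪ Finset.univ.image z) (a - s) (b - t) =
        dens (lets X (a - s) (b - t)) (fun g => P (Sum.elim z g)) := by
      unfold D
      congr 1
      funext g
      change ((M ∪ Finset.univ.image z) ∪ Finset.univ.image g ∈ H) =
        (M ∪ Finset.univ.image (Sum.elim z g) ∈ H)
      have : Finset.univ.image (Sum.elim z g) = Finset.univ.image z ∪ Finset.univ.image g := by
        ext v
        simp only [Finset.mem_image, Finset.mem_univ, true_and, Finset.mem_union, Sum.exists,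
          Sum.elim_inl, Sum.elim_inr]
      rw [this, Finset.union_assoc]
    rw [← e3]
    exact m3
  rw [le_div_iff₀ hτ, mul_comm]
  calc η (M.card + Fintype.card ι) * dens c ev
      ≤ η (M.card + Fintype.card ι) * dens c (fun f => η (M.card + Fintype.card ι) <
          dens (lets X (a - s) (b - t)) (fun g => P (Sum.elim f g))) :=
        mul_le_mul_of_nonneg_left hle hτ.le
    _ ≤ D H X M a b := hmk
    _ ≤ η M.card := hD

end Pool.Agent.KK.E.H62
end

/-! ### Helper37_KK.E_ORD -/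
section
/-!
# Squad KK, row E_ORD (StmtE17)
-/

set_option autoImplicit false

namespace Pool.Agent.KK.E.H37

theorem e_ord (h6 : StmtE06) : StmtE17 := by
  intro V _ _ H X M' p q B δ η hA hN hp hq
  have hc : (M' ∩ X).card + (M' \ X).card = M'.card := Finset.card_inter_add_card_sdiff M' X
  have hD : D H X M' (p + 1 - (M' ∩ X).card) (q + 1 - (M' \ X).card) ≤ η M'.card := by
    by_contra h
    exact hN ⟨hp, hq, not_le.1 h⟩
  refine ⟨fun h => ?_, fun h => ?_⟩
  · have h1 := h6 V H X M' p q B (p + 1 - (M' ∩ X).card) (q - (M' \ X).card) δ hA (by omega)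
    have e1 : p + 1 - (M' ∩ X).card + 1 = p + 2 - (M' ∩ X).card := by omega
    have e2 : q - (M' \ X).card + 1 = q + 1 - (M' \ X).card := by omega
    rw [e1, e2] at h1
    linarith
  · have h1 := h6 V H X M' p q B (p - (M' ∩ X).card) (q + 1 - (M' \ X).card) δ hA (by omega)
    have e1 : p - (M' ∩ X).card + 1 = p + 1 - (M' ∩ X).card := by omega
    have e2 : q + 1 - (M' \ X).card + 1 = q + 2 - (M' \ X).card := by omega
    rw [e1, e2] at h1
    linarith

end Pool.Agent.KK.E.H37
end

/-! ### Helper13_KK.Count -/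
section
/-!
Squad KK (MP_747bc0_co), block K: counting library. Everything is proved; `n = Fintype.card V`,
counts are `Set.ncard`.
-/

set_option autoImplicit false

namespace Pool.Agent.KK

open Finset Function

/-! ### Cardinalities of sets of pairs and of functions -/

theorem ncard_equiv {α β : Type} (e : α ≃ β) (S : Set α) (T : Set β)
    (h : ∀ x, x ∈ S ↔ e x ∈ T) : S.ncard = T.ncard :=
  Nat.card_congr (e.subtypeEquiv h)

theorem ncard_fib {A B : Type} [Fintype A] [Fintype B] (D : Set (A × B)) :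
    D.ncard = ∑ a, {b | (a, b) ∈ D}.ncard := by
  have h : D ≃ Σ x : A, {y : B | (x, y) ∈ D} := Equiv.setProdEquivSigma D
  have h1 : D.ncard = Nat.card (Σ x : A, {y : B | (x, y) ∈ D}) := Nat.card_congr h
  rw [h1, Nat.card_sigma]
  rfl

theorem ncard_fib' {A B : Type} [Fintype A] [Fintype B] (D : Set (A × B)) :
    D.ncard = ∑ b, {a | (a, b) ∈ D}.ncard := by
  rw [ncard_equiv (Equiv.prodComm A B) D {p | (p.2, p.1) ∈ D} (fun x => Iff.rfl), ncard_fib]
  rfl

theorem ncard_pi {ι B : Type} [Fintype ι] [Fintype B] (S : ι → Set B) :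
    {g : ι → B | ∀ j, g j ∈ S j}.ncard = ∏ j, (S j).ncard := by
  have h : {g : ι → B | ∀ j, g j ∈ S j} ≃ ∀ j, S j :=
    Equiv.subtypePiEquivPi (p := fun j b => b ∈ S j)
  have h1 : {g : ι → B | ∀ j, g j ∈ S j}.ncard = Nat.card (∀ j, S j) := Nat.card_congr h
  rw [h1, Nat.card_pi]
  rfl

theorem ncard_pow {ι B : Type} [Fintype ι] [Fintype B] (S : Set B) :
    {g : ι → B | ∀ j, g j ∈ S}.ncard = S.ncard ^ Fintype.card ι := by
  rw [ncard_pi fun _ => S, prod_const, card_univ]

theorem ncard_univ_fun {ι B : Type} [Fintype ι] [Fintype B] :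
    (Set.univ : Set (ι → B)).ncard = Fintype.card B ^ Fintype.card ι := by
  classical
  rw [Set.ncard_univ, Nat.card_eq_fintype_card, Fintype.card_fun]

/-! ### K1: the theorem of Erdos on complete `k`-partite hypergraphs (homomorphism form) -/

/-- Power mean: `t`-fold blow-up of the second coordinate. -/
theorem fiber_pow {A B : Type} [Fintype A] [Fintype B] (D : Set (A × B)) (t : ℕ) (d : ℝ)
    (hd : 0 ≤ d) (hD : d * (Fintype.card A * Fintype.card B) ≤ D.ncard) :
    d ^ t * (Fintype.card A * (Fintype.card B : ℝ) ^ t) ≤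
      {p : A × (Fin t → B) | ∀ j, (p.1, p.2 j) ∈ D}.ncard := by
  have h1 : {p : A × (Fin t → B) | ∀ j, (p.1, p.2 j) ∈ D}.ncard =
      ∑ a, {b | (a, b) ∈ D}.ncard ^ t := by
    rw [ncard_fib]
    refine sum_congr rfl fun a _ => ?_
    have h2 := ncard_pow (ι := Fin t) {b | (a, b) ∈ D}
    rw [Fintype.card_fin] at h2
    exact h2
  rw [h1]
  push_cast
  rw [ncard_fib] at hD
  push_cast at hD
  obtain ⟨f, hf⟩ : ∃ f : A → ℝ, f = fun a => ({b | (a, b) ∈ D}.ncard : ℝ) := ⟨_, rfl⟩
  have hf0 : ∀ a ∈ (univ : Finset A), 0 ≤ f a := by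
    intro a _
    rw [hf]
    exact Nat.cast_nonneg _
  have e1 : ∑ a, (({b | (a, b) ∈ D}.ncard : ℝ)) = ∑ a, f a := by rw [hf]
  have e2 : ∑ a, (({b | (a, b) ∈ D}.ncard : ℝ)) ^ t = ∑ a, f a ^ t := by rw [hf]
  rw [e1] at hD
  rw [e2]
  cases t with
  | zero => simp
  | succ s =>
    rcases isEmpty_or_nonempty A with hA | hA
    · simp
    · have hA0 : (0 : ℝ) < Fintype.card A := by exact_mod_cast Fintype.card_pos
      have h4 : (∑ a, f a) ^ (s + 1) / (Fintype.card A : ℝ) ^ s ≤ ∑ a, f a ^ (s + 1) := by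
        have := pow_sum_div_card_le_sum_pow (s := (univ : Finset A)) (f := f) hf0 s
        rwa [card_univ] at this
      refine le_trans ?_ h4
      rw [le_div_iff₀ (pow_pos hA0 s)]
      have h5 : (d * (Fintype.card A * Fintype.card B)) ^ (s + 1) ≤ (∑ a, f a) ^ (s + 1) :=
        pow_le_pow_left₀ (by positivity) hD _
      refine le_trans (le_of_eq ?_) h5
      rw [mul_pow, mul_pow]
      ring

/-- Exchange of the last two components. -/
def eqv3 (A B C : Type) : (A × B) × C ≃ (A × C) × B where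
  toFun q := ((q.1.1, q.2), q.1.2)
  invFun q := ((q.1.1, q.2), q.1.2)
  left_inv _ := rfl
  right_inv _ := rfl

/-- `(A × B) × (Fin k → B) ≃ A × (Fin (k + 1) → B)`. -/
def eqvc (A B : Type) (k : ℕ) : (A × B) × (Fin k → B) ≃ A × (Fin (k + 1) → B) :=
  (Equiv.prodAssoc A B _).trans ((Equiv.refl A).prodCongr (Fin.consEquiv (fun _ => B)))

/-- K1: blow-up of the coordinates `Fin k`, with a parameter type `A` (not blown up). -/
theorem erdosA (k t : ℕ) : ∀ (A V : Type) [Fintype A] [Fintype V] (D : Set (A × (Fin k → V)))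
    (d : ℝ), 0 ≤ d → d * (Fintype.card A * (Fintype.card V : ℝ) ^ k) ≤ D.ncard →
    d ^ (t ^ k) * (Fintype.card A * (Fintype.card V : ℝ) ^ (k * t)) ≤
      {p : A × (Fin k → Fin t → V) | ∀ s : Fin k → Fin t, (p.1, fun i => p.2 i (s i)) ∈ D}.ncard := by
  induction k with
  | zero =>
    intro A V _ _ D d hd hD
    rw [pow_zero, pow_one, Nat.zero_mul, pow_zero]
    rw [pow_zero] at hD
    have h1 : D.ncard =
        {p : A × (Fin 0 → Fin t → V) | ∀ s : Fin 0 → Fin t, (p.1, fun i => p.2 i (s i)) ∈ D}.ncard := by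
      refine ncard_equiv ((Equiv.refl A).prodCongr (Equiv.ofUnique _ _)) _ _ ?_
      rintro ⟨a, x⟩
      have h2 : ∀ (y : Fin 0 → Fin t → V) (s : Fin 0 → Fin t), (fun i => y i (s i)) = x :=
        fun y s => Subsingleton.elim _ _
      constructor
      · intro h s
        change (a, fun i => _) ∈ D
        rw [h2]
        exact h
      · intro h
        have h3 : (a, fun i => (Equiv.ofUnique (Fin 0 → V) (Fin 0 → Fin t → V) x) i
          ((default : Fin 0 → Fin t) i)) ∈ D := h default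
        rw [h2] at h3
        exact h3
    rw [← h1]
    exact hD
  | succ k ih =>
    intro A V _ _ D d hd hD
    obtain ⟨n, hn⟩ : ∃ n : ℝ, n = Fintype.card V := ⟨_, rfl⟩
    obtain ⟨D1, hD1⟩ : ∃ D1 : Set ((A × V) × (Fin k → V)),
        D1 = {q | (q.1.1, (Fin.cons q.1.2 q.2 : Fin (k + 1) → V)) ∈ D} := ⟨_, rfl⟩
    have c1 : D1.ncard = D.ncard := by
      rw [hD1]
      exact ncard_equiv (eqvc A V k) _ _ fun x => Iff.rfl
    have i1 := ih (A × V) V D1 d hd (by
      rw [c1]
      refine le_trans (le_of_eq ?_) hD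
      rw [Fintype.card_prod]
      push_cast
      ring)
    obtain ⟨D2, hD2⟩ : ∃ D2 : Set ((A × V) × (Fin k → Fin t → V)),
        D2 = {p | ∀ s : Fin k → Fin t, (p.1, fun i => p.2 i (s i)) ∈ D1} := ⟨_, rfl⟩
    rw [← hD2] at i1
    obtain ⟨D3, hD3⟩ : ∃ D3 : Set ((A × (Fin k → Fin t → V)) × V),
        D3 = {q | ((q.1.1, q.2), q.1.2) ∈ D2} := ⟨_, rfl⟩
    have c3 : D2.ncard = D3.ncard := by
      rw [hD3]
      exact ncard_equiv (eqv3 A V (Fin k → Fin t → V)) _ _ fun x => Iff.rfl
    have i2 := fiber_pow D3 t (d ^ (t ^ k)) (by positivity) (by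
      rw [← c3]
      refine le_trans (le_of_eq ?_) i1
      rw [Fintype.card_prod, Fintype.card_prod, Fintype.card_fun, Fintype.card_fun]
      push_cast
      rw [Fintype.card_fin, Fintype.card_fin, ← pow_mul, mul_comm t k]
      ring)
    have c4 : {p : (A × (Fin k → Fin t → V)) × (Fin t → V) | ∀ j, (p.1, p.2 j) ∈ D3}.ncard =
        {p : A × (Fin (k + 1) → Fin t → V) |
          ∀ s : Fin (k + 1) → Fin t, (p.1, fun i => p.2 i (s i)) ∈ D}.ncard := by
      refine ncard_equiv ((eqv3 A (Fin k → Fin t → V) (Fin t → V)).trans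
        (eqvc A (Fin t → V) k)) _ _ ?_
      rintro ⟨⟨a, x⟩, y⟩
      have h2 : ∀ (s : Fin (k + 1) → Fin t),
          (fun i => (Fin.cons y x : Fin (k + 1) → Fin t → V) i (s i)) =
            (Fin.cons (y (s 0)) (fun i => x i (s i.succ)) : Fin (k + 1) → V) := by
        intro s
        funext i
        refine Fin.cases ?_ (fun i => ?_) i
        · rfl
        · rfl
      constructor
      · intro h s
        change (a, fun i => (Fin.cons y x : Fin (k + 1) → Fin t → V) i (s i)) ∈ D
        rw [h2]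
        have h3 := h (s 0)
        rw [hD3] at h3
        change ((a, y (s 0)), x) ∈ D2 at h3
        rw [hD2] at h3
        have h4 := h3 (fun i => s i.succ)
        rw [hD1] at h4
        exact h4
      · intro h j
        rw [hD3]
        change ((a, y j), x) ∈ D2
        rw [hD2]
        intro s
        rw [hD1]
        change (a, (Fin.cons (y j) (fun i => x i (s i)) : Fin (k + 1) → V)) ∈ D
        have h3 : (a, fun i => (Fin.cons y x : Fin (k + 1) → Fin t → V) i
          ((Fin.cons j s : Fin (k + 1) → Fin t) i)) ∈ D := h (Fin.cons j s)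
        rw [h2] at h3
        exact h3
    rw [c4] at i2
    refine le_trans (le_of_eq ?_) i2
    rw [Fintype.card_prod, Fintype.card_fun, Fintype.card_fun, Fintype.card_fin, Fintype.card_fin,
      ← pow_mul, ← pow_succ]
    push_cast
    rw [Nat.add_mul, Nat.one_mul, pow_add, mul_comm k t, pow_mul]
    ring

/-- K1: `t`-fold blow-ups of a set of `k`-tuples of density `d` have density at least
`d ^ (t ^ k)`. -/
theorem erdos (k t : ℕ) (V : Type) [Fintype V] (D : Set (Fin k → V)) (d : ℝ) (hd : 0 ≤ d)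
    (hD : d * (Fintype.card V : ℝ) ^ k ≤ D.ncard) :
    d ^ (t ^ k) * (Fintype.card V : ℝ) ^ (k * t) ≤
      {x : Fin k → Fin t → V | ∀ s : Fin k → Fin t, (fun i => x i (s i)) ∈ D}.ncard := by
  have h1 := erdosA k t Unit V {p | p.2 ∈ D} d hd (by
    rw [Fintype.card_unit, Nat.cast_one, one_mul]
    refine le_trans hD (le_of_eq ?_)
    rw [ncard_equiv (Equiv.punitProd (Fin k → V)) {p : Unit × (Fin k → V) | p.2 ∈ D} D
      fun x => Iff.rfl])
  rw [Fintype.card_unit, Nat.cast_one, one_mul] at h1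
  refine le_trans h1 (le_of_eq ?_)
  rw [ncard_equiv (Equiv.punitProd (Fin k → Fin t → V))
    {p : Unit × (Fin k → Fin t → V) | ∀ s : Fin k → Fin t, (p.1, fun i => p.2 i (s i)) ∈
      {p : Unit × (Fin k → V) | p.2 ∈ D}}
    {x : Fin k → Fin t → V | ∀ s : Fin k → Fin t, (fun i => x i (s i)) ∈ D} fun x => Iff.rfl]

/-! ### K2: tuples which are not injective, or meet a small set -/

theorem ncard_union_bound {α J : Type} [Finite α] (s : Finset J) (S : J → Set α) :
    (⋃ j ∈ s, S j).ncard ≤ ∑ j ∈ s, (S j).ncard := by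
  classical
  induction s using Finset.induction_on with
  | empty => simp
  | insert a s ha ih =>
    rw [Finset.set_biUnion_insert, Finset.sum_insert ha]
    exact le_trans (Set.ncard_union_le _ _) (Nat.add_le_add_left ih _)

/-- Functions whose value at `i` is determined by the other values. -/
theorem ncard_dep {ι V : Type} [Fintype ι] [DecidableEq ι] [Fintype V] (i : ι)
    (φ : (ι → V) → V) (hφ : ∀ f g : ι → V, (∀ j, j ≠ i → f j = g j) → φ f = φ g) :
    {f : ι → V | f i = φ f}.ncard ≤ Fintype.card V ^ (Fintype.card ι - 1) := by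
  have h1 : {f : ι → V | f i = φ f}.ncard ≤ (Set.univ : Set ({x // x ≠ i} → V)).ncard := by
    refine Set.ncard_le_ncard_of_injOn (fun f x => f x.1) (fun _ _ => Set.mem_univ _) ?_
    intro f hf g hg h
    have h2 : ∀ j, j ≠ i → f j = g j := fun j hj => congrFun h ⟨j, hj⟩
    funext j
    by_cases hj : j = i
    · rw [hj]
      have hf' : f i = φ f := hf
      have hg' : g i = φ g := hg
      rw [hf', hg']
      exact hφ f g h2
    · exact h2 j hj
  rw [ncard_univ_fun] at h1
  have h3 : Fintype.card {x // x ≠ i} = Fintype.card ι - 1 := by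
    rw [Fintype.card_subtype_compl, Fintype.card_subtype_eq]
  rwa [h3] at h1

/-- K2: at most `(m ^ 2 + m |W|) n ^ (m - 1)` functions are not injective or meet `W`. -/
theorem ninj {ι V : Type} [Fintype ι] [DecidableEq ι] [Fintype V] (W : Finset V) :
    {f : ι → V | ¬ (Injective f ∧ ∀ i, f i ∉ W)}.ncard ≤
      (Fintype.card ι ^ 2 + Fintype.card ι * W.card) *
        Fintype.card V ^ (Fintype.card ι - 1) := by
  classical
  have h1 : {f : ι → V | ¬ (Injective f ∧ ∀ i, f i ∉ W)} ⊆
      (⋃ p ∈ (univ : Finset (ι × ι)), {f : ι → V | p.1 ≠ p.2 ∧ f p.1 = f p.2}) ∪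
      (⋃ p ∈ (univ : Finset ι) ×ˢ W, {f : ι → V | f p.1 = p.2}) := by
    intro f hf
    by_cases h : Injective f
    · right
      have h2 : ∃ i, f i ∈ W := by
        by_contra hc
        push Not at hc
        exact hf ⟨h, hc⟩
      obtain ⟨i, hi⟩ := h2
      exact Set.mem_biUnion (show (i, f i) ∈ (univ : Finset ι) ×ˢ W from
        Finset.mem_product.2 ⟨mem_univ _, hi⟩) rfl
    · left
      unfold Injective at h
      push Not at h
      obtain ⟨i, j, hij, hne⟩ := h
      exact Set.mem_biUnion (Finset.mem_coe.2 (mem_univ (i, j))) ⟨hne, hij⟩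
  refine le_trans (Set.ncard_le_ncard h1 (Set.toFinite _)) (le_trans (Set.ncard_union_le _ _) ?_)
  rw [add_mul]
  refine Nat.add_le_add (le_trans (ncard_union_bound _ _) ?_) (le_trans (ncard_union_bound _ _) ?_)
  · have h2 : ∀ p ∈ (univ : Finset (ι × ι)), {f : ι → V | p.1 ≠ p.2 ∧ f p.1 = f p.2}.ncard ≤
        Fintype.card V ^ (Fintype.card ι - 1) := by
      intro p _
      by_cases hp : p.1 = p.2
      · have : {f : ι → V | p.1 ≠ p.2 ∧ f p.1 = f p.2} = ∅ := by
          ext f
          constructor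
          · intro h
            exact absurd hp h.1
          · intro h
            exact absurd h (Set.notMem_empty f)
        rw [this, Set.ncard_empty]
        exact Nat.zero_le _
      · refine le_trans (Set.ncard_le_ncard (t := {f : ι → V | f p.1 = (fun g => g p.2) f})
          (fun f hf => hf.2) (Set.toFinite _)) ?_
        exact ncard_dep p.1 (fun g => g p.2) fun f g h => h p.2 (fun h2 => hp h2.symm)
    refine le_trans (Finset.sum_le_card_nsmul _ _ _ h2) ?_
    rw [card_univ, Fintype.card_prod, smul_eq_mul, sq]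
  · have h2 : ∀ p ∈ (univ : Finset ι) ×ˢ W, {f : ι → V | f p.1 = p.2}.ncard ≤
        Fintype.card V ^ (Fintype.card ι - 1) := by
      intro p _
      exact ncard_dep p.1 (fun _ => p.2) fun f g h => rfl
    refine le_trans (Finset.sum_le_card_nsmul _ _ _ h2) ?_
    rw [card_product, card_univ, smul_eq_mul]

/-- K2': a set of tuples of density `d` contains many injective tuples avoiding `W`. -/
theorem injAvoid {ι V : Type} [Fintype ι] [DecidableEq ι] [Fintype V] (W : Finset V)
    (D : Set (ι → V)) (d : ℝ) (hι : 0 < Fintype.card ι)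
    (hD : d * (Fintype.card V : ℝ) ^ Fintype.card ι ≤ D.ncard)
    (hn : 2 * ((Fintype.card ι : ℝ) ^ 2 + Fintype.card ι * W.card) ≤ d * Fintype.card V) :
    d / 2 * (Fintype.card V : ℝ) ^ Fintype.card ι ≤
      {f | f ∈ D ∧ Injective f ∧ ∀ i, f i ∉ W}.ncard := by
  have h1 : D.ncard ≤ {f | f ∈ D ∧ Injective f ∧ ∀ i, f i ∉ W}.ncard +
      {f : ι → V | ¬ (Injective f ∧ ∀ i, f i ∉ W)}.ncard := by
    refine le_trans (Set.ncard_le_ncard (t := {f | f ∈ D ∧ Injective f ∧ ∀ i, f i ∉ W} ∪
      {f : ι → V | ¬ (Injective f ∧ ∀ i, f i ∉ W)}) ?_ (Set.toFinite _)) (Set.ncard_union_le _ _)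
    intro f hf
    by_cases h : Injective f ∧ ∀ i, f i ∉ W
    · left
      exact ⟨hf, h⟩
    · right
      exact h
  have h2 := ninj (ι := ι) W
  have h1' : (D.ncard : ℝ) ≤ {f | f ∈ D ∧ Injective f ∧ ∀ i, f i ∉ W}.ncard +
      {f : ι → V | ¬ (Injective f ∧ ∀ i, f i ∉ W)}.ncard := by exact_mod_cast h1
  have h2' : ({f : ι → V | ¬ (Injective f ∧ ∀ i, f i ∉ W)}.ncard : ℝ) ≤
      ((Fintype.card ι : ℝ) ^ 2 + Fintype.card ι * W.card) *
        (Fintype.card V : ℝ) ^ (Fintype.card ι - 1) := by exact_mod_cast h2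
  have h3 : (Fintype.card V : ℝ) ^ Fintype.card ι =
      Fintype.card V * (Fintype.card V : ℝ) ^ (Fintype.card ι - 1) := by
    rw [← pow_succ', Nat.sub_add_cancel hι]
  have hn0 : 0 ≤ (Fintype.card V : ℝ) ^ (Fintype.card ι - 1) := by positivity
  have h4 := mul_le_mul_of_nonneg_right hn hn0
  rw [h3] at hD ⊢
  nlinarith

/-! ### K3, K4: averaging and pigeonhole -/

theorem sum_ind {A : Type} [Fintype A] (G : Set A) [DecidablePred (· ∈ G)] :
    ∑ a, (if a ∈ G then (1 : ℝ) else 0) = G.ncard := by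
  classical
  rw [Finset.sum_boole, Set.ncard_eq_toFinset_card']
  congr 2
  ext a
  simp

/-- K3: at least `d / 2 |A|` fibres have density at least `d / 2`. -/
theorem fiber_avg {A B : Type} [Fintype A] [Fintype B] (D : Set (A × B)) (d : ℝ)
    (hB : 0 < Fintype.card B) (hD : d * (Fintype.card A * Fintype.card B) ≤ D.ncard) :
    d / 2 * Fintype.card A ≤
      {a | d / 2 * Fintype.card B ≤ {b | (a, b) ∈ D}.ncard}.ncard := by
  classical
  have hA0 : (0 : ℝ) ≤ Fintype.card A := Nat.cast_nonneg _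
  have hB0 : (0 : ℝ) < Fintype.card B := by exact_mod_cast hB
  rcases lt_or_ge d 0 with hd | hd
  · refine le_trans ?_ (Nat.cast_nonneg _)
    nlinarith
  obtain ⟨G, hG⟩ : ∃ G : Set A, G = {a | d / 2 * Fintype.card B ≤ {b | (a, b) ∈ D}.ncard} :=
    ⟨_, rfl⟩
  rw [← hG]
  have h1 : ∀ a, ({b | (a, b) ∈ D}.ncard : ℝ) ≤
      (if a ∈ G then (1 : ℝ) else 0) * Fintype.card B + d / 2 * Fintype.card B := by
    intro a
    by_cases ha : a ∈ G
    · rw [if_pos ha, one_mul]
      have h2 : {b | (a, b) ∈ D}.ncard ≤ Nat.card B := Set.ncard_le_card _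
      rw [Nat.card_eq_fintype_card] at h2
      have h3 : ({b | (a, b) ∈ D}.ncard : ℝ) ≤ Fintype.card B := by exact_mod_cast h2
      have h4 : 0 ≤ d / 2 * (Fintype.card B : ℝ) := by positivity
      linarith
    · rw [if_neg ha, zero_mul, zero_add]
      rw [hG] at ha
      exact le_of_lt (not_le.1 ha)
  rw [ncard_fib] at hD
  push_cast at hD
  have h2 := Finset.sum_le_sum fun a (_ : a ∈ (univ : Finset A)) => h1 a
  rw [Finset.sum_add_distrib, ← Finset.sum_mul, sum_ind, Finset.sum_const, card_univ,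
    nsmul_eq_mul] at h2
  have h3 : d / 2 * Fintype.card A * Fintype.card B ≤ (G.ncard : ℝ) * Fintype.card B := by
    nlinarith
  exact le_of_mul_le_mul_right h3 hB0

/-- K4: pigeonhole. -/
theorem pigeon {α J : Type} [Finite α] [Fintype J] [Nonempty J] (D : Set α) (S : J → Set α)
    (h : ∀ x ∈ D, ∃ j, x ∈ S j) :
    ∃ j, (D.ncard : ℝ) ≤ Fintype.card J * (D ∩ S j).ncard := by
  classical
  have h1 : D ⊆ ⋃ j ∈ (univ : Finset J), D ∩ S j := by
    intro x hx
    obtain ⟨j, hj⟩ := h x hx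
    exact Set.mem_biUnion (Finset.mem_coe.2 (mem_univ j)) ⟨hx, hj⟩
  have h2 := le_trans (Set.ncard_le_ncard h1 (Set.toFinite _)) (ncard_union_bound _ _)
  obtain ⟨j, _, hj⟩ := Finset.exists_max_image (univ : Finset J) (fun j => (D ∩ S j).ncard)
    univ_nonempty
  refine ⟨j, ?_⟩
  have h3 := le_trans h2 (Finset.sum_le_card_nsmul _ _ _ hj)
  rw [card_univ, smul_eq_mul] at h3
  exact_mod_cast h3

/-! ### K1'': injective blow-ups avoiding a set -/

/-- Reading a function of two arguments as a function of the pair. -/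
def unc {k t : ℕ} {V : Type} (x : Fin k → Fin t → V) : Fin k × Fin t → V := fun p => x p.1 p.2

/-- K1'': for large `n` there are many injective `t`-fold blow-ups avoiding `W`. -/
theorem erdosInj (k t : ℕ) (hk : 0 < k) (ht : 0 < t) (V : Type) [Fintype V] (W : Finset V)
    (D : Set (Fin k → V)) (d : ℝ) (hd : 0 ≤ d) (hD : d * (Fintype.card V : ℝ) ^ k ≤ D.ncard)
    (hn : 2 * (((k * t : ℕ) : ℝ) ^ 2 + ((k * t : ℕ) : ℝ) * W.card) ≤
      d ^ (t ^ k) * Fintype.card V) :
    d ^ (t ^ k) / 2 * (Fintype.card V : ℝ) ^ (k * t) ≤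
      {x : Fin k → Fin t → V | (∀ s : Fin k → Fin t, (fun i => x i (s i)) ∈ D) ∧
        Injective (unc x) ∧ ∀ i j, x i j ∉ W}.ncard := by
  classical
  have h1 := erdos k t V D d hd hD
  obtain ⟨B, hB⟩ : ∃ B : Set (Fin k × Fin t → V),
    B = {y | ∀ s : Fin k → Fin t, (fun i => y (i, s i)) ∈ D} := ⟨_, rfl⟩
  have e1 : {x : Fin k → Fin t → V | ∀ s : Fin k → Fin t, (fun i => x i (s i)) ∈ D}.ncard =
      B.ncard := by
    rw [hB]
    exact ncard_equiv (Equiv.curry (Fin k) (Fin t) V).symm _ _ fun x => Iff.rfl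
  have hc : Fintype.card (Fin k × Fin t) = k * t := by
    rw [Fintype.card_prod, Fintype.card_fin, Fintype.card_fin]
  have h2 := injAvoid (ι := Fin k × Fin t) W B (d ^ (t ^ k)) (by
    rw [hc]
    exact Nat.mul_pos hk ht) (by
    rw [hc, ← e1]
    exact h1) (by
    rw [hc]
    exact hn)
  rw [hc] at h2
  refine le_trans h2 (le_of_eq ?_)
  congr 1
  refine ncard_equiv (Equiv.curry (Fin k) (Fin t) V) _ _ fun y => ?_
  rw [hB]
  constructor
  · rintro ⟨h3, h4, h5⟩
    exact ⟨h3, h4, fun i j => h5 (i, j)⟩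
  · rintro ⟨h3, h4, h5⟩
    exact ⟨h3, h4, fun p => h5 p.1 p.2⟩

/-! ### K5: isoperimetry of the tuple graph -/

/-- The steps out of `F` (change of one coordinate). -/
def outSet {m : ℕ} {V : Type} (F : Set (Fin m → V)) : Set ((Fin m → V) × Fin m × V) :=
  {p | p.1 ∈ F ∧ Function.update p.1 p.2.1 p.2.2 ∉ F}

/-- `y` below `j`, `x` from `j` on. -/
def mix {m : ℕ} {V : Type} (x y : Fin m → V) (j : ℕ) : Fin m → V :=
  fun i => if i.1 < j then y i else x i

theorem mix_succ {m : ℕ} {V : Type} (x y : Fin m → V) (j : Fin m) :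
    mix x y (j.1 + 1) = Function.update (mix x y j.1) j (y j) := by
  funext i
  unfold mix
  by_cases h : i = j
  · rw [h, Function.update_self, if_pos (Nat.lt_succ_self _)]
  · rw [Function.update_of_ne h]
    have h1 : i.1 ≠ j.1 := fun h2 => h (Fin.ext h2)
    by_cases h2 : i.1 < j.1
    · rw [if_pos h2, if_pos (by omega)]
    · rw [if_neg h2, if_neg (by omega)]

theorem exists_step {m : ℕ} {V : Type} {F : Set (Fin m → V)} {x y : Fin m → V} (hx : x ∈ F)
    (hy : y ∉ F) : ∃ j : Fin m, mix x y j.1 ∈ F ∧ mix x y (j.1 + 1) ∉ F := by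
  classical
  have h1 : ∃ j, mix x y j ∉ F := by
    refine ⟨m, ?_⟩
    have : mix x y m = y := by
      funext i
      unfold mix
      rw [if_pos i.2]
    rwa [this]
  have h2 := Nat.find_spec h1
  have h3 : Nat.find h1 ≤ m := Nat.find_min' h1 (by
    have : mix x y m = y := by
      funext i
      unfold mix
      rw [if_pos i.2]
    rwa [this])
  have h4 : Nat.find h1 ≠ 0 := by
    intro h
    rw [h] at h2
    have : mix x y 0 = x := by
      funext i
      unfold mix
      rw [if_neg (Nat.not_lt_zero _)]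
    rw [this] at h2
    exact h2 hx
  obtain ⟨j, hj⟩ := Nat.exists_eq_succ_of_ne_zero h4
  refine ⟨⟨j, by omega⟩, ?_, ?_⟩
  · have := Nat.find_min h1 (m := j) (by omega)
    exact not_not.1 this
  · have h5 : mix x y (j + 1) ∉ F := by rw [← Nat.succ_eq_add_one, ← hj]; exact h2
    exact h5

/-- K5: `|F| (n ^ m - |F|) ≤ |steps out of F| n ^ (m - 1)`. -/
theorem iso {m : ℕ} {V : Type} [Fintype V] (F : Set (Fin m → V)) :
    F.ncard * Fᶜ.ncard ≤ (outSet F).ncard * Fintype.card V ^ (m - 1) := by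
  classical
  rw [← Set.ncard_prod]
  have hch : ∀ p : (Fin m → V) × (Fin m → V), ∃ j : Option (Fin m), p ∈ F ×ˢ Fᶜ →
      ∃ j' : Fin m, j = some j' ∧ mix p.1 p.2 j'.1 ∈ F ∧ mix p.1 p.2 (j'.1 + 1) ∉ F := by
    intro p
    by_cases hp : p ∈ F ×ˢ Fᶜ
    · obtain ⟨j, hj⟩ := exists_step (x := p.1) (y := p.2) hp.1 hp.2
      exact ⟨some j, fun _ => ⟨j, rfl, hj⟩⟩
    · exact ⟨none, fun h => absurd h hp⟩
  choose J hJ using hch
  obtain ⟨T, hT⟩ : ∃ T : Set (((Fin m → V) × Fin m × V) × (Fin m → V)),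
      T = {q | q.1 ∈ outSet F ∧ q.2 q.1.2.1 = q.1.2.2} := ⟨_, rfl⟩
  have h1 : (F ×ˢ Fᶜ).ncard ≤ T.ncard := by
    rcases Set.eq_empty_or_nonempty (F ×ˢ Fᶜ) with h0 | ⟨p0, hp0⟩
    · rw [h0, Set.ncard_empty]
      exact Nat.zero_le _
    obtain ⟨j0, _⟩ := hJ p0 hp0
    obtain ⟨g, hg⟩ : ∃ g : (Fin m → V) × (Fin m → V) → ((Fin m → V) × Fin m × V) × (Fin m → V),
        g = fun p => ((mix p.1 p.2 ((J p).getD j0).1, (J p).getD j0, p.2 ((J p).getD j0)),
          fun i => if i.1 < ((J p).getD j0).1 then p.1 i else p.2 i) := ⟨_, rfl⟩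
    refine Set.ncard_le_ncard_of_injOn g ?_ ?_ (Set.toFinite _)
    · rintro p hp
      obtain ⟨j, hj, hj1, hj2⟩ := hJ p hp
      rw [hg, hT]
      refine ⟨⟨?_, ?_⟩, ?_⟩
      · change mix p.1 p.2 ((J p).getD j0).1 ∈ F
        rw [hj]
        exact hj1
      · change Function.update (mix p.1 p.2 ((J p).getD j0).1) ((J p).getD j0)
          (p.2 ((J p).getD j0)) ∉ F
        rw [hj, ← mix_succ]
        exact hj2
      · change (if (((J p).getD j0)).1 < ((J p).getD j0).1 then _ else _) = _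
        rw [if_neg (lt_irrefl _)]
    · rintro p hp q hq h
      rw [hg] at h
      obtain ⟨j, hj, hj1, hj2⟩ := hJ p hp
      obtain ⟨j', hj', hj1', hj2'⟩ := hJ q hq
      have e1 : mix p.1 p.2 ((J p).getD j0).1 = mix q.1 q.2 ((J q).getD j0).1 :=
        congrArg (fun z => z.1.1) h
      have e2 : (J p).getD j0 = (J q).getD j0 := congrArg (fun z => z.1.2.1) h
      have e3 : p.2 ((J p).getD j0) = q.2 ((J q).getD j0) := congrArg (fun z => z.1.2.2) h
      have e4 : (fun i : Fin m => if i.1 < ((J p).getD j0).1 then p.1 i else p.2 i) =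
        fun i : Fin m => if i.1 < ((J q).getD j0).1 then q.1 i else q.2 i :=
        congrArg (fun z => z.2) h
      rw [← e2] at e1 e3 e4
      refine Prod.ext ?_ ?_
      · funext i
        by_cases hi : i.1 < ((J p).getD j0).1
        · have := congrFun e4 i
          change (if i.1 < ((J p).getD j0).1 then p.1 i else p.2 i) =
            (if i.1 < ((J p).getD j0).1 then q.1 i else q.2 i) at this
          rw [if_pos hi, if_pos hi] at this
          exact this
        · have := congrFun e1 i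
          unfold mix at this
          rw [if_neg hi, if_neg hi] at this
          exact this
      · funext i
        by_cases hi : i.1 < ((J p).getD j0).1
        · have := congrFun e1 i
          unfold mix at this
          rw [if_pos hi, if_pos hi] at this
          exact this
        · have := congrFun e4 i
          change (if i.1 < ((J p).getD j0).1 then p.1 i else p.2 i) =
            (if i.1 < ((J p).getD j0).1 then q.1 i else q.2 i) at this
          rw [if_neg hi, if_neg hi] at this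
          exact this
  refine le_trans h1 ?_
  rw [ncard_fib]
  have h2 : ∀ p : (Fin m → V) × Fin m × V, {r | (p, r) ∈ T}.ncard ≤
      if p ∈ outSet F then Fintype.card V ^ (m - 1) else 0 := by
    intro p
    by_cases hp : p ∈ outSet F
    · rw [if_pos hp]
      refine le_trans (Set.ncard_le_ncard (t := {f : Fin m → V | f p.2.1 = (fun _ => p.2.2) f})
        (fun r hr => ?_) (Set.toFinite _)) ?_
      · have hr' : (p, r) ∈ T := hr
        rw [hT] at hr'
        exact hr'.2
      · have h3 := ncard_dep (V := V) p.2.1 (fun _ => p.2.2) fun f g h => rfl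
        rwa [Fintype.card_fin] at h3
    · rw [if_neg hp]
      have : {r | (p, r) ∈ T} = ∅ := by
        ext r
        constructor
        · intro hr
          have hr' : (p, r) ∈ T := hr
          rw [hT] at hr'
          exact absurd hr'.1 hp
        · intro hr
          exact absurd hr (Set.notMem_empty r)
      rw [this, Set.ncard_empty]
  refine le_trans (Finset.sum_le_sum fun p _ => h2 p) ?_
  rw [← Finset.sum_filter, Finset.sum_const, smul_eq_mul]
  refine Nat.mul_le_mul_right _ (le_of_eq ?_)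
  rw [Set.ncard_eq_toFinset_card']
  congr 1
  ext p
  simp

/-! ### K6: Chernoff bound -/

/-- K6: few sequences hit `D` (density `p`) at most `p L / 4` times. -/
theorem chernoff {A : Type} [Fintype A] (L : ℕ) (D : Set A) (p : ℝ)
    (hD : p * Fintype.card A ≤ D.ncard) :
    ({ω : Fin L → A | 4 * ({j | ω j ∈ D}.ncard : ℝ) ≤ p * L}.ncard : ℝ) ≤
      Real.exp (-(p * L / 4)) * (Fintype.card A : ℝ) ^ L := by
  classical
  obtain ⟨w, hw⟩ : ∃ w : A → ℝ, w = fun a => if a ∈ D then (1 / 2 : ℝ) else 1 := ⟨_, rfl⟩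
  have hA : (0 : ℝ) ≤ Fintype.card A := Nat.cast_nonneg _
  have hw0 : ∀ a, 0 < w a := by
    intro a
    rw [hw]
    by_cases h : a ∈ D
    · simp only [h, if_true]
      norm_num
    · simp only [h, if_false]
      norm_num
  have hsum : ∑ a, w a = Fintype.card A - D.ncard / 2 := by
    have h1 : ∀ a, w a = 1 - 1 / 2 * (if a ∈ D then (1 : ℝ) else 0) := by
      intro a
      rw [hw]
      by_cases h : a ∈ D
      · simp only [h, if_true]
        norm_num
      · simp only [h, if_false]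
        norm_num
    rw [Finset.sum_congr rfl fun a _ => h1 a, Finset.sum_sub_distrib, Finset.sum_const,
      card_univ, nsmul_eq_mul, mul_one, ← Finset.mul_sum, sum_ind]
    ring
  have hexp : ∑ a, w a ≤ Fintype.card A * Real.exp (-(p / 2)) := by
    rw [hsum]
    have h1 : -(p / 2) + 1 ≤ Real.exp (-(p / 2)) := Real.add_one_le_exp _
    have h2 := mul_le_mul_of_nonneg_left h1 hA
    nlinarith
  have htot : ∑ ω : Fin L → A, ∏ j, w (ω j) ≤
      (Fintype.card A : ℝ) ^ L * Real.exp (-(p * L / 2)) := by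
    rw [← Fintype.sum_pow]
    refine le_trans (pow_le_pow_left₀ (Finset.sum_nonneg fun a _ => (hw0 a).le) hexp L) ?_
    rw [mul_pow, ← Real.exp_nat_mul]
    refine le_of_eq ?_
    congr 2
    ring
  obtain ⟨Bd, hBd⟩ : ∃ Bd : Set (Fin L → A),
      Bd = {ω | 4 * ({j | ω j ∈ D}.ncard : ℝ) ≤ p * L} := ⟨_, rfl⟩
  rw [← hBd]
  have hbad : ∀ ω ∈ Bd, Real.exp (-(p * L / 4)) ≤ ∏ j, w (ω j) := by
    intro ω hω
    rw [hBd] at hω
    have hω' : 4 * ({j | ω j ∈ D}.ncard : ℝ) ≤ p * L := hω
    have h1 : Real.exp (-({j | ω j ∈ D}.ncard : ℝ)) ≤ ∏ j, w (ω j) := by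
      have h2 : ({j | ω j ∈ D}.ncard : ℝ) = ∑ j, (if j ∈ {j | ω j ∈ D} then (1 : ℝ) else 0) :=
        (sum_ind _).symm
      rw [h2, ← Finset.sum_neg_distrib, Real.exp_sum]
      refine Finset.prod_le_prod (fun j _ => (Real.exp_pos _).le) fun j _ => ?_
      rw [hw]
      by_cases h : ω j ∈ D
      · rw [if_pos (show j ∈ {j | ω j ∈ D} from h)]
        simp only [h, if_true]
        rw [Real.exp_neg, one_div]
        have h3 : (2 : ℝ) ≤ Real.exp 1 := by
          have := Real.add_one_le_exp (1 : ℝ)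
          linarith
        exact inv_anti₀ (by norm_num) h3
      · rw [if_neg (show j ∉ {j | ω j ∈ D} from h)]
        simp only [h, if_false]
        rw [neg_zero, Real.exp_zero]
    refine le_trans (Real.exp_le_exp.2 ?_) h1
    linarith
  have h3 : (Bd.ncard : ℝ) * Real.exp (-(p * L / 4)) ≤ ∑ ω : Fin L → A, ∏ j, w (ω j) := by
    rw [← sum_ind Bd, Finset.sum_mul]
    refine Finset.sum_le_sum fun ω _ => ?_
    by_cases h : ω ∈ Bd
    · rw [if_pos h, one_mul]
      exact hbad ω h
    · rw [if_neg h, zero_mul]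
      exact Finset.prod_nonneg fun j _ => (hw0 _).le
  have h4 := le_trans h3 htot
  have h5 : Real.exp (-(p * L / 2)) = Real.exp (-(p * L / 4)) * Real.exp (-(p * L / 4)) := by
    rw [← Real.exp_add]
    congr 1
    ring
  rw [h5] at h4
  have h6 := Real.exp_pos (-(p * L / 4))
  refine le_of_mul_le_mul_right ?_ h6
  linarith

end Pool.Agent.KK
end

/-! ### Helper13_KK.Family -/
section
/-!
Squad KK (MP_747bc0_co), block K: the family lemma.
-/

set_option autoImplicit false

namespace Pool.Agent.KK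

open Finset Function

/-- The ordered pairs of different indices whose tuples meet. -/
def meets {L m : ℕ} {V : Type} (ω : Fin L → Fin m → V) : Set (Fin L × Fin L) :=
  {p | p.1 ≠ p.2 ∧ ∃ i j, ω p.1 i = ω p.2 j}

theorem ncard_meet {L m : ℕ} {V : Type} [Fintype V] (a b : Fin L) (hab : a ≠ b) (i j : Fin m) :
    {ω : Fin L → Fin m → V | ω a i = ω b j}.ncard ≤ Fintype.card V ^ (L * m - 1) := by
  have h1 := ncard_dep (V := V) (ι := Fin L × Fin m) (a, i) (fun g => g (b, j))
    fun f g h => h (b, j) (fun h2 => hab (congrArg Prod.fst h2).symm)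
  rw [Fintype.card_prod, Fintype.card_fin, Fintype.card_fin] at h1
  refine le_trans (le_of_eq ?_) h1
  exact ncard_equiv (Equiv.curry (Fin L) (Fin m) V).symm _ _ fun x => Iff.rfl

theorem sum_meets {L m : ℕ} {V : Type} [Fintype V] :
    ∑ ω : Fin L → Fin m → V, (meets ω).ncard ≤ (L * m) ^ 2 * Fintype.card V ^ (L * m - 1) := by
  classical
  have h1 : ∀ ω : Fin L → Fin m → V, (meets ω).ncard ≤
      ∑ q ∈ (univ : Finset ((Fin L × Fin L) × (Fin m × Fin m))),
        if q.1.1 ≠ q.1.2 ∧ ω q.1.1 q.2.1 = ω q.1.2 q.2.2 then 1 else 0 := by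
    intro ω
    rw [← Finset.card_filter]
    have h2 : (meets ω).ncard = (univ.filter fun p : Fin L × Fin L => p ∈ meets ω).card := by
      rw [Set.ncard_eq_toFinset_card']
      congr 1
      ext p
      simp
    rw [h2]
    refine Finset.card_le_card_of_surjOn (fun q => q.1) ?_
    intro p hp
    have hp' : p ∈ meets ω := (Finset.mem_filter.1 (Finset.mem_coe.1 hp)).2
    obtain ⟨h3, i, j, h4⟩ := hp'
    exact ⟨(p, (i, j)), Finset.mem_coe.2 (Finset.mem_filter.2 ⟨mem_univ _, h3, h4⟩), rfl⟩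
  refine le_trans (Finset.sum_le_sum fun ω _ => h1 ω) ?_
  rw [Finset.sum_comm]
  have h5 : ∀ q ∈ (univ : Finset ((Fin L × Fin L) × (Fin m × Fin m))),
      ∑ ω : Fin L → Fin m → V, (if q.1.1 ≠ q.1.2 ∧ ω q.1.1 q.2.1 = ω q.1.2 q.2.2 then 1 else 0) ≤
        Fintype.card V ^ (L * m - 1) := by
    intro q _
    rw [← Finset.card_filter]
    by_cases hq : q.1.1 = q.1.2
    · have : (univ.filter fun ω : Fin L → Fin m → V =>
          q.1.1 ≠ q.1.2 ∧ ω q.1.1 q.2.1 = ω q.1.2 q.2.2) = ∅ := by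
        rw [Finset.filter_eq_empty_iff]
        intro ω _ h
        exact h.1 hq
      rw [this, Finset.card_empty]
      exact Nat.zero_le _
    · refine le_trans (le_of_eq ?_) (ncard_meet q.1.1 q.1.2 hq q.2.1 q.2.2)
      rw [Set.ncard_eq_toFinset_card']
      congr 1
      ext ω
      simp [hq]
  refine le_trans (Finset.sum_le_card_nsmul _ _ _ h5) ?_
  rw [card_univ, Fintype.card_prod, Fintype.card_prod, Fintype.card_prod, Fintype.card_fin,
    Fintype.card_fin, smul_eq_mul]
  exact le_of_eq (by ring)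

/-- The core of the family lemma, for fixed `L` and `V`. -/
theorem family_core {m L : ℕ} {V I : Type} [Fintype V] [Fintype I] (hm : 0 < m) (hL : 0 < L)
    (hV : 0 < Fintype.card V) (ξ : ℝ) (hξ : 0 < ξ) (D : I → Set (Fin m → V))
    (hD : ∀ i, ξ * (Fintype.card V : ℝ) ^ m ≤ (D i).ncard)
    (h1 : (Fintype.card I : ℝ) * Real.exp (-(ξ * L / 4)) ≤ 1 / 2)
    (h2 : 32 * (m : ℝ) ^ 2 * L ≤ ξ * Fintype.card V) :
    ∃ F : Finset (Fin m → V), F.card ≤ L ∧ (∀ f ∈ F, ∃ i, f ∈ D i) ∧
      (∀ f ∈ F, ∀ g ∈ F, f ≠ g → ∀ a b, f a ≠ g b) ∧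
      ∀ i, ξ * L / 8 ≤ ({f | f ∈ F ∧ f ∈ D i}.ncard : ℝ) := by
  classical
  have hn0 : (0 : ℝ) < Fintype.card V := by exact_mod_cast hV
  have hL0 : (0 : ℝ) < L := by exact_mod_cast hL
  have hm0 : (0 : ℝ) < m := by exact_mod_cast hm
  obtain ⟨T, hT⟩ : ∃ T : ℝ, T = (Fintype.card V : ℝ) ^ (L * m) := ⟨_, rfl⟩
  have hT0 : 0 < T := by rw [hT]; positivity
  -- bad events of Chernoff type
  obtain ⟨B1, hB1⟩ : ∃ B1 : I → Set (Fin L → Fin m → V),
      B1 = fun i => {ω | 4 * ({j | ω j ∈ D i}.ncard : ℝ) ≤ ξ * L} := ⟨_, rfl⟩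
  have c1 : ∀ i, ((B1 i).ncard : ℝ) ≤ Real.exp (-(ξ * L / 4)) * T := by
    intro i
    have := chernoff (A := Fin m → V) L (D i) ξ (by
      rw [Fintype.card_fun, Fintype.card_fin]
      push_cast
      exact hD i)
    rw [Fintype.card_fun, Fintype.card_fin] at this
    push_cast at this
    rw [hB1, hT, mul_comm L m, pow_mul]
    exact this
  -- bad event of Markov type
  obtain ⟨B2, hB2⟩ : ∃ B2 : Set (Fin L → Fin m → V),
      B2 = {ω | ξ * L / 8 < ((meets ω).ncard : ℝ)} := ⟨_, rfl⟩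
  have c2 : (B2.ncard : ℝ) ≤ T / 4 := by
    have h3 : (B2.ncard : ℝ) * (ξ * L / 8) ≤ ∑ ω : Fin L → Fin m → V, ((meets ω).ncard : ℝ) := by
      rw [← sum_ind B2, Finset.sum_mul]
      refine Finset.sum_le_sum fun ω _ => ?_
      by_cases h : ω ∈ B2
      · rw [if_pos h, one_mul]
        rw [hB2] at h
        exact le_of_lt h
      · rw [if_neg h, zero_mul]
        exact Nat.cast_nonneg _
    have h4 : (∑ ω : Fin L → Fin m → V, ((meets ω).ncard : ℝ)) ≤
        ((L : ℝ) * m) ^ 2 * (Fintype.card V : ℝ) ^ (L * m - 1) := by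
      have := sum_meets (L := L) (m := m) (V := V)
      exact_mod_cast this
    have h5 : T = Fintype.card V * (Fintype.card V : ℝ) ^ (L * m - 1) := by
      rw [hT, ← pow_succ', Nat.sub_add_cancel (Nat.mul_pos hL hm)]
    have h6 : 0 ≤ (Fintype.card V : ℝ) ^ (L * m - 1) := by positivity
    have h7 : ((L : ℝ) * m) ^ 2 * (Fintype.card V : ℝ) ^ (L * m - 1) ≤ T / 4 * (ξ * L / 8) := by
      rw [h5]
      have h8 := mul_le_mul_of_nonneg_right h2 (mul_nonneg hL0.le h6)
      nlinarith
    refine le_of_mul_le_mul_right (le_trans h3 (le_trans h4 h7)) (by positivity)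
  -- a good sequence
  have c3 : ∃ ω : Fin L → Fin m → V, (∀ i, ω ∉ B1 i) ∧ ω ∉ B2 := by
    by_contra hc
    push Not at hc
    have h3 : (Set.univ : Set (Fin L → Fin m → V)) ⊆ (⋃ i ∈ (univ : Finset I), B1 i) ∪ B2 := by
      intro ω _
      by_cases h : ∀ i, ω ∉ B1 i
      · right
        exact hc ω h
      · left
        push Not at h
        obtain ⟨i, hi⟩ := h
        exact Set.mem_biUnion (Finset.mem_coe.2 (mem_univ i)) hi
    have h4 := le_trans (Set.ncard_le_ncard h3 (Set.toFinite _)) (Set.ncard_union_le _ _)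
    have h5 := le_trans h4 (Nat.add_le_add_right (ncard_union_bound _ _) _)
    have h6 : (Set.univ : Set (Fin L → Fin m → V)).ncard = Fintype.card V ^ (L * m) := by
      rw [Set.ncard_univ, Nat.card_eq_fintype_card, Fintype.card_fun, Fintype.card_fun,
        Fintype.card_fin, Fintype.card_fin, ← pow_mul, mul_comm]
    rw [h6] at h5
    have h7 : T ≤ (∑ i, ((B1 i).ncard : ℝ)) + B2.ncard := by
      rw [hT]
      exact_mod_cast h5
    have h8 : ∑ i, ((B1 i).ncard : ℝ) ≤ Fintype.card I * (Real.exp (-(ξ * L / 4)) * T) := by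
      refine le_trans (Finset.sum_le_card_nsmul _ _ _ fun i _ => c1 i) ?_
      rw [card_univ, nsmul_eq_mul]
    have h9 := mul_le_mul_of_nonneg_right h1 hT0.le
    nlinarith
  obtain ⟨ω, hω1, hω2⟩ := c3
  -- the good indices
  obtain ⟨K, hK⟩ : ∃ K : Finset (Fin L),
      K = univ.filter fun a => (∃ i, ω a ∈ D i) ∧ ∀ b, (a, b) ∉ meets ω := ⟨_, rfl⟩
  have hinj : ∀ a ∈ K, ∀ b, a ≠ b → ∀ i j, ω a i ≠ ω b j := by
    intro a ha b hab i j h
    rw [hK] at ha
    exact (Finset.mem_filter.1 ha).2.2 b ⟨hab, i, j, h⟩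
  refine ⟨K.image ω, le_trans Finset.card_image_le ?_, ?_, ?_, ?_⟩
  · refine le_trans (Finset.card_le_univ K) ?_
    rw [Fintype.card_fin]
  · intro f hf
    obtain ⟨a, ha, rfl⟩ := Finset.mem_image.1 hf
    rw [hK] at ha
    exact (Finset.mem_filter.1 ha).2.1
  · intro f hf g hg hfg i j
    obtain ⟨a, ha, rfl⟩ := Finset.mem_image.1 hf
    obtain ⟨b, hb, rfl⟩ := Finset.mem_image.1 hg
    exact hinj a ha b (fun h => hfg (by rw [h])) i j
  · intro i
    have h3 : {j | ω j ∈ D i} ⊆ {j | j ∈ K ∧ ω j ∈ D i} ∪ {j | ∃ b, (j, b) ∈ meets ω} := by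
      intro j hj
      by_cases h : ∃ b, (j, b) ∈ meets ω
      · right
        exact h
      · left
        push Not at h
        refine ⟨?_, hj⟩
        rw [hK]
        exact Finset.mem_filter.2 ⟨mem_univ _, ⟨i, hj⟩, h⟩
    have h4 := le_trans (Set.ncard_le_ncard h3 (Set.toFinite _)) (Set.ncard_union_le _ _)
    have h5 : {j | ∃ b, (j, b) ∈ meets ω}.ncard ≤ (meets ω).ncard := by
      have h6 : {j | ∃ b, (j, b) ∈ meets ω} = Prod.fst '' meets ω := by
        ext j
        constructor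
        · rintro ⟨b, hb⟩
          exact ⟨(j, b), hb, rfl⟩
        · rintro ⟨⟨j', b⟩, hb, rfl⟩
          exact ⟨b, hb⟩
      rw [h6]
      exact Set.ncard_image_le (Set.toFinite _)
    have h7 : {j | j ∈ K ∧ ω j ∈ D i}.ncard ≤ {f | f ∈ K.image ω ∧ f ∈ D i}.ncard := by
      refine Set.ncard_le_ncard_of_injOn ω ?_ ?_ (Set.toFinite _)
      · rintro j ⟨hj1, hj2⟩
        exact ⟨Finset.mem_image_of_mem _ hj1, hj2⟩
      · rintro a ⟨ha, _⟩ b ⟨hb, _⟩ h
        by_contra hab
        exact hinj a ha b hab ⟨0, hm⟩ ⟨0, hm⟩ (congrFun h ⟨0, hm⟩)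
    have h8 : ξ * L < 4 * ({j | ω j ∈ D i}.ncard : ℝ) := by
      have := hω1 i
      rw [hB1] at this
      exact not_le.1 this
    have h9 : ((meets ω).ncard : ℝ) ≤ ξ * L / 8 := by
      rw [hB2] at hω2
      exact not_lt.1 hω2
    have h10 : ({j | ω j ∈ D i}.ncard : ℝ) ≤
        {f | f ∈ K.image ω ∧ f ∈ D i}.ncard + (meets ω).ncard := by
      exact_mod_cast le_trans h4 (Nat.add_le_add h7 h5)
    linarith

theorem pow_mul_exp_small (c : ℕ) (b : ℝ) (hb : 0 < b) :
    ∃ n₀ : ℕ, ∀ n : ℕ, n₀ ≤ n → (n : ℝ) ^ c * Real.exp (-(b * n)) ≤ 1 / 2 := by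
  have h1 := Real.tendsto_pow_mul_exp_neg_atTop_nhds_zero c
  have h2 : Filter.Tendsto (fun n : ℕ => b * (n : ℝ)) Filter.atTop Filter.atTop :=
    Filter.Tendsto.const_mul_atTop hb tendsto_natCast_atTop_atTop
  have h3 := (h1.comp h2).eventually (gt_mem_nhds (show (0 : ℝ) < b ^ c / 2 by positivity))
  obtain ⟨n₀, hn₀⟩ := Filter.eventually_atTop.1 h3
  refine ⟨n₀, fun n hn => ?_⟩
  have h4 : (b * (n : ℝ)) ^ c * Real.exp (-(b * n)) < b ^ c / 2 := hn₀ n hn
  rw [mul_pow] at h4
  have h5 : 0 < b ^ c := by positivity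
  have h6 : b ^ c * ((n : ℝ) ^ c * Real.exp (-(b * n))) ≤ b ^ c * (1 / 2) := by linarith
  exact le_of_mul_le_mul_left h6 h5

/-- K7, FAMILY LEMMA: polynomially many sets of `m`-tuples of density `ξ` are all hit linearly often
by one family of at most `γ n` pairwise disjoint tuples. -/
theorem family (m c : ℕ) (hm : 0 < m) (ξ γ : ℝ) (hξ : 0 < ξ) (hγ : 0 < γ)
    (hγξ : 32 * (m : ℝ) ^ 2 * γ ≤ ξ) :
    ∃ n₀ : ℕ, ∀ (V I : Type) [Fintype V] [Fintype I], n₀ ≤ Fintype.card V →
      Fintype.card I ≤ Fintype.card V ^ c → ∀ D : I → Set (Fin m → V),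
      (∀ i, ξ * (Fintype.card V : ℝ) ^ m ≤ (D i).ncard) →
      ∃ F : Finset (Fin m → V), (F.card : ℝ) ≤ γ * Fintype.card V ∧ (∀ f ∈ F, ∃ i, f ∈ D i) ∧
        (∀ f ∈ F, ∀ g ∈ F, f ≠ g → ∀ a b, f a ≠ g b) ∧
        ∀ i, ξ * γ * Fintype.card V / 16 ≤ ({f | f ∈ F ∧ f ∈ D i}.ncard : ℝ) := by
  obtain ⟨n₁, hn₁⟩ := pow_mul_exp_small c (ξ * γ / 8) (by positivity)
  obtain ⟨n₂, hn₂⟩ := exists_nat_ge (2 / γ)
  refine ⟨max n₁ (max n₂ 1), ?_⟩
  intro V I _ _ hV hI D hD
  obtain ⟨n, hn⟩ : ∃ n : ℕ, n = Fintype.card V := ⟨_, rfl⟩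
  rw [← hn] at hV hI hD ⊢
  have h1 : n₁ ≤ n := le_trans (le_max_left _ _) hV
  have h2 : n₂ ≤ n := le_trans (le_trans (le_max_left _ _) (le_max_right _ _)) hV
  have h3 : 1 ≤ n := le_trans (le_trans (le_max_right _ _) (le_max_right _ _)) hV
  have h2' : 2 / γ ≤ n := le_trans hn₂ (by exact_mod_cast h2)
  rw [div_le_iff₀ hγ] at h2'
  have hn0 : (0 : ℝ) < n := by exact_mod_cast h3
  obtain ⟨L, hL⟩ : ∃ L : ℕ, L = ⌊γ * n⌋₊ := ⟨_, rfl⟩
  have hL1 : (L : ℝ) ≤ γ * n := by
    rw [hL]
    exact Nat.floor_le (by positivity)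
  have hL2 : γ * n < L + 1 := by
    rw [hL]
    exact Nat.lt_floor_add_one _
  have hL3 : γ * n / 2 ≤ L := by linarith
  have hL4 : (0 : ℝ) < L := lt_of_lt_of_le (by positivity) hL3
  obtain ⟨F, hF1, hF2, hF3, hF4⟩ := family_core hm (by exact_mod_cast hL4)
    (by rw [← hn]; exact h3) ξ hξ D (by rw [← hn]; exact hD) (by
      have h4 : (Fintype.card I : ℝ) ≤ (n : ℝ) ^ c := by exact_mod_cast hI
      have h5 : Real.exp (-(ξ * L / 4)) ≤ Real.exp (-(ξ * γ / 8 * n)) := by
        refine Real.exp_le_exp.2 ?_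
        nlinarith
      exact le_trans (mul_le_mul h4 h5 (Real.exp_pos _).le (by positivity)) (hn₁ n h1)) (by
      rw [← hn]
      have h4 : 0 ≤ 32 * (m : ℝ) ^ 2 := by positivity
      have h5 := mul_le_mul_of_nonneg_left hL1 h4
      nlinarith)
  refine ⟨F, ?_, hF2, hF3, fun i => ?_⟩
  · have : (F.card : ℝ) ≤ L := by exact_mod_cast hF1
    linarith
  · refine le_trans ?_ (hF4 i)
    nlinarith

end Pool.Agent.KK
end

/-! ### Helper74_KK.K -/
section
/-! Rows FAM, CKQ, ERD of squad KK from the counting library of helper13. -/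

set_option autoImplicit false

namespace Pool.Agent.KK.H74

open Pool.Agent.KK Finset Function

/-- The core of the family lemma, for fixed `L` and `V`. -/
theorem family_core' {m L : ℕ} {V I : Type} [Fintype V] [Fintype I] (hm : 0 < m) (hL : 0 < L)
    (hV : 0 < Fintype.card V) (ξ : ℝ) (hξ : 0 < ξ) (D : I → Set (Fin m → V))
    (hD : ∀ i, ξ * (Fintype.card V : ℝ) ^ m ≤ (D i).ncard)
    (h1 : (Fintype.card I : ℝ) * Real.exp (-(ξ * L / 4)) ≤ 1 / 2)
    (h2 : 64 * (m : ℝ) ^ 2 * L ≤ ξ * Fintype.card V) :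
    ∃ F : Finset (Fin m → V), F.card ≤ L ∧ (∀ f ∈ F, ∃ i, f ∈ D i) ∧
      (∀ f ∈ F, ∀ g ∈ F, f ≠ g → ∀ a b, f a ≠ g b) ∧
      ∀ i, 3 * (ξ * L / 16) ≤ ({f | f ∈ F ∧ f ∈ D i}.ncard : ℝ) := by
  classical
  have hn0 : (0 : ℝ) < Fintype.card V := by exact_mod_cast hV
  have hL0 : (0 : ℝ) < L := by exact_mod_cast hL
  have hm0 : (0 : ℝ) < m := by exact_mod_cast hm
  obtain ⟨T, hT⟩ : ∃ T : ℝ, T = (Fintype.card V : ℝ) ^ (L * m) := ⟨_, rfl⟩
  have hT0 : 0 < T := by rw [hT]; positivity
  -- bad events of Chernoff type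
  obtain ⟨B1, hB1⟩ : ∃ B1 : I → Set (Fin L → Fin m → V),
      B1 = fun i => {ω | 4 * ({j | ω j ∈ D i}.ncard : ℝ) ≤ ξ * L} := ⟨_, rfl⟩
  have c1 : ∀ i, ((B1 i).ncard : ℝ) ≤ Real.exp (-(ξ * L / 4)) * T := by
    intro i
    have := chernoff (A := Fin m → V) L (D i) ξ (by
      rw [Fintype.card_fun, Fintype.card_fin]
      push_cast
      exact hD i)
    rw [Fintype.card_fun, Fintype.card_fin] at this
    push_cast at this
    rw [hB1, hT, mul_comm L m, pow_mul]
    exact this
  -- bad event of Markov type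
  obtain ⟨B2, hB2⟩ : ∃ B2 : Set (Fin L → Fin m → V),
      B2 = {ω | ξ * L / 16 < ((meets ω).ncard : ℝ)} := ⟨_, rfl⟩
  have c2 : (B2.ncard : ℝ) ≤ T / 4 := by
    have h3 : (B2.ncard : ℝ) * (ξ * L / 16) ≤ ∑ ω : Fin L → Fin m → V, ((meets ω).ncard : ℝ) := by
      rw [← sum_ind B2, Finset.sum_mul]
      refine Finset.sum_le_sum fun ω _ => ?_
      by_cases h : ω ∈ B2
      · rw [if_pos h, one_mul]
        rw [hB2] at h
        exact le_of_lt h
      · rw [if_neg h, zero_mul]
        exact Nat.cast_nonneg _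
    have h4 : (∑ ω : Fin L → Fin m → V, ((meets ω).ncard : ℝ)) ≤
        ((L : ℝ) * m) ^ 2 * (Fintype.card V : ℝ) ^ (L * m - 1) := by
      have := sum_meets (L := L) (m := m) (V := V)
      exact_mod_cast this
    have h5 : T = Fintype.card V * (Fintype.card V : ℝ) ^ (L * m - 1) := by
      rw [hT, ← pow_succ', Nat.sub_add_cancel (Nat.mul_pos hL hm)]
    have h6 : 0 ≤ (Fintype.card V : ℝ) ^ (L * m - 1) := by positivity
    have h7 : ((L : ℝ) * m) ^ 2 * (Fintype.card V : ℝ) ^ (L * m - 1) ≤ T / 4 * (ξ * L / 16) := by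
      rw [h5]
      have h8 := mul_le_mul_of_nonneg_right h2 (mul_nonneg hL0.le h6)
      nlinarith
    refine le_of_mul_le_mul_right (le_trans h3 (le_trans h4 h7)) (by positivity)
  -- a good sequence
  have c3 : ∃ ω : Fin L → Fin m → V, (∀ i, ω ∉ B1 i) ∧ ω ∉ B2 := by
    by_contra hc
    push Not at hc
    have h3 : (Set.univ : Set (Fin L → Fin m → V)) ⊆ (⋃ i ∈ (univ : Finset I), B1 i) ∪ B2 := by
      intro ω _
      by_cases h : ∀ i, ω ∉ B1 i
      · right
        exact hc ω h
      · left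
        push Not at h
        obtain ⟨i, hi⟩ := h
        exact Set.mem_biUnion (Finset.mem_coe.2 (mem_univ i)) hi
    have h4 := le_trans (Set.ncard_le_ncard h3 (Set.toFinite _)) (Set.ncard_union_le _ _)
    have h5 := le_trans h4 (Nat.add_le_add_right (ncard_union_bound _ _) _)
    have h6 : (Set.univ : Set (Fin L → Fin m → V)).ncard = Fintype.card V ^ (L * m) := by
      rw [Set.ncard_univ, Nat.card_eq_fintype_card, Fintype.card_fun, Fintype.card_fun,
        Fintype.card_fin, Fintype.card_fin, ← pow_mul, mul_comm]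
    rw [h6] at h5
    have h7 : T ≤ (∑ i, ((B1 i).ncard : ℝ)) + B2.ncard := by
      rw [hT]
      exact_mod_cast h5
    have h8 : ∑ i, ((B1 i).ncard : ℝ) ≤ Fintype.card I * (Real.exp (-(ξ * L / 4)) * T) := by
      refine le_trans (Finset.sum_le_card_nsmul _ _ _ fun i _ => c1 i) ?_
      rw [card_univ, nsmul_eq_mul]
    have h9 := mul_le_mul_of_nonneg_right h1 hT0.le
    nlinarith
  obtain ⟨ω, hω1, hω2⟩ := c3
  -- the good indices
  obtain ⟨K, hK⟩ : ∃ K : Finset (Fin L),
      K = univ.filter fun a => (∃ i, ω a ∈ D i) ∧ ∀ b, (a, b) ∉ meets ω := ⟨_, rfl⟩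
  have hinj : ∀ a ∈ K, ∀ b, a ≠ b → ∀ i j, ω a i ≠ ω b j := by
    intro a ha b hab i j h
    rw [hK] at ha
    exact (Finset.mem_filter.1 ha).2.2 b ⟨hab, i, j, h⟩
  refine ⟨K.image ω, le_trans Finset.card_image_le ?_, ?_, ?_, ?_⟩
  · refine le_trans (Finset.card_le_univ K) ?_
    rw [Fintype.card_fin]
  · intro f hf
    obtain ⟨a, ha, rfl⟩ := Finset.mem_image.1 hf
    rw [hK] at ha
    exact (Finset.mem_filter.1 ha).2.1
  · intro f hf g hg hfg i j
    obtain ⟨a, ha, rfl⟩ := Finset.mem_image.1 hf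
    obtain ⟨b, hb, rfl⟩ := Finset.mem_image.1 hg
    exact hinj a ha b (fun h => hfg (by rw [h])) i j
  · intro i
    have h3 : {j | ω j ∈ D i} ⊆ {j | j ∈ K ∧ ω j ∈ D i} ∪ {j | ∃ b, (j, b) ∈ meets ω} := by
      intro j hj
      by_cases h : ∃ b, (j, b) ∈ meets ω
      · right
        exact h
      · left
        push Not at h
        refine ⟨?_, hj⟩
        rw [hK]
        exact Finset.mem_filter.2 ⟨mem_univ _, ⟨i, hj⟩, h⟩
    have h4 := le_trans (Set.ncard_le_ncard h3 (Set.toFinite _)) (Set.ncard_union_le _ _)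
    have h5 : {j | ∃ b, (j, b) ∈ meets ω}.ncard ≤ (meets ω).ncard := by
      have h6 : {j | ∃ b, (j, b) ∈ meets ω} = Prod.fst '' meets ω := by
        ext j
        constructor
        · rintro ⟨b, hb⟩
          exact ⟨(j, b), hb, rfl⟩
        · rintro ⟨⟨j', b⟩, hb, rfl⟩
          exact ⟨b, hb⟩
      rw [h6]
      exact Set.ncard_image_le (Set.toFinite _)
    have h7 : {j | j ∈ K ∧ ω j ∈ D i}.ncard ≤ {f | f ∈ K.image ω ∧ f ∈ D i}.ncard := by
      refine Set.ncard_le_ncard_of_injOn ω ?_ ?_ (Set.toFinite _)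
      · rintro j ⟨hj1, hj2⟩
        exact ⟨Finset.mem_image_of_mem _ hj1, hj2⟩
      · rintro a ⟨ha, _⟩ b ⟨hb, _⟩ h
        by_contra hab
        exact hinj a ha b hab ⟨0, hm⟩ ⟨0, hm⟩ (congrFun h ⟨0, hm⟩)
    have h8 : ξ * L < 4 * ({j | ω j ∈ D i}.ncard : ℝ) := by
      have := hω1 i
      rw [hB1] at this
      exact not_le.1 this
    have h9 : ((meets ω).ncard : ℝ) ≤ ξ * L / 16 := by
      rw [hB2] at hω2
      exact not_lt.1 hω2
    have h10 : ({j | ω j ∈ D i}.ncard : ℝ) ≤
        {f | f ∈ K.image ω ∧ f ∈ D i}.ncard + (meets ω).ncard := by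
      exact_mod_cast le_trans h4 (Nat.add_le_add h7 h5)
    linarith


theorem fam : FamStmt := by
  intro M e ξ hM hξ
  have hM0 : (0 : ℝ) < M := by exact_mod_cast hM
  refine ⟨3 * ξ / 4 / (64 * (M : ℝ) ^ 2), by positivity, ?_⟩
  intro γ hγ hγ0
  rw [le_div_iff₀ (by positivity)] at hγ0
  obtain ⟨n₁, hn₁⟩ := pow_mul_exp_small e (3 * ξ / 4 * γ / 8) (by positivity)
  obtain ⟨n₂, hn₂⟩ := exists_nat_ge (9 / γ)
  obtain ⟨n₃, hn₃⟩ := exists_nat_ge (4 * (M : ℝ) ^ 2 / ξ)
  refine ⟨max n₁ (max n₂ (max n₃ 1)), ?_⟩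
  intro V _ _ hV 𝒟 h𝒟 hD
  classical
  obtain ⟨n, hn⟩ : ∃ n : ℕ, n = Fintype.card V := ⟨_, rfl⟩
  rw [← hn] at hV h𝒟 hD ⊢
  have h1 : n₁ ≤ n := le_trans (le_max_left _ _) hV
  have h2 : n₂ ≤ n := le_trans (le_trans (le_max_left _ _) (le_max_right _ _)) hV
  have h3 : n₃ ≤ n := le_trans (le_trans (le_trans (le_max_left _ _) (le_max_right _ _))
    (le_max_right _ _)) hV
  have h4 : 1 ≤ n := le_trans (le_trans (le_trans (le_max_right _ _) (le_max_right _ _))
    (le_max_right _ _)) hV
  have hn0 : (0 : ℝ) < n := by exact_mod_cast h4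
  have h2' : 9 ≤ γ * n := by
    have : 9 / γ ≤ n := le_trans hn₂ (by exact_mod_cast h2)
    rw [div_le_iff₀ hγ] at this
    linarith
  have h3' : 4 * (M : ℝ) ^ 2 ≤ ξ * n := by
    have : 4 * (M : ℝ) ^ 2 / ξ ≤ n := le_trans hn₃ (by exact_mod_cast h3)
    rw [div_le_iff₀ hξ] at this
    linarith
  obtain ⟨L, hL⟩ : ∃ L : ℕ, L = ⌊γ * n⌋₊ := ⟨_, rfl⟩
  have hL1 : (L : ℝ) ≤ γ * n := by
    rw [hL]
    exact Nat.floor_le (by positivity)
  have hL2 : γ * n < L + 1 := by
    rw [hL]
    exact Nat.lt_floor_add_one _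
  have hL4 : (0 : ℝ) < L := by linarith
  let D' : {D // D ∈ 𝒟} → Set (Fin M → V) := fun i => {f | f ∈ i.1 ∧ Injective f}
  have hD' : ∀ i, 3 * ξ / 4 * (Fintype.card V : ℝ) ^ M ≤ (D' i).ncard := by
    intro i
    rw [← hn]
    have c1 := hD i.1 i.2
    have c2 : i.1.card ≤ (D' i).ncard + {f : Fin M → V | ¬ (Injective f ∧ ∀ j, f j ∉ (∅ : Finset V))}.ncard := by
      rw [← Set.ncard_coe_finset]
      refine le_trans (Set.ncard_le_ncard ?_ (Set.toFinite _)) (Set.ncard_union_le _ _)
      intro f hf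
      by_cases h : Injective f
      · left
        exact ⟨hf, h⟩
      · right
        exact fun h' => h h'.1
    have c3 := ninj (ι := Fin M) (V := V) ∅
    rw [Fintype.card_fin, Finset.card_empty, Nat.mul_zero, Nat.add_zero, ← hn] at c3
    have c4 : (i.1.card : ℝ) ≤ (D' i).ncard + (M : ℝ) ^ 2 * (n : ℝ) ^ (M - 1) := by
      exact_mod_cast le_trans c2 (Nat.add_le_add_left c3 _)
    have c5 : (n : ℝ) ^ M = n * (n : ℝ) ^ (M - 1) := by
      rw [← pow_succ', Nat.sub_add_cancel hM]
    have c6 : 0 ≤ (n : ℝ) ^ (M - 1) := by positivity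
    have c7 : (M : ℝ) ^ 2 * (n : ℝ) ^ (M - 1) ≤ ξ / 4 * (n : ℝ) ^ M := by
      rw [c5]
      have := mul_le_mul_of_nonneg_right h3' c6
      nlinarith
    nlinarith
  obtain ⟨F, hF1, hF2, hF3, hF4⟩ := family_core' (L := L) hM (by exact_mod_cast hL4)
    (by rw [← hn]; exact h4) (3 * ξ / 4) (by positivity) D' hD' (by
      have c1 : (Fintype.card {D // D ∈ 𝒟} : ℝ) ≤ (n : ℝ) ^ e := by
        rw [Fintype.card_coe]
        exact h𝒟
      have c2 : Real.exp (-(3 * ξ / 4 * L / 4)) ≤ Real.exp (-(3 * ξ / 4 * γ / 8 * n)) := by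
        refine Real.exp_le_exp.2 ?_
        have : γ * n / 2 ≤ L := by linarith
        nlinarith
      exact le_trans (mul_le_mul c1 c2 (Real.exp_pos _).le (by positivity)) (hn₁ n h1)) (by
      rw [← hn]
      have c1 : 0 ≤ 64 * (M : ℝ) ^ 2 := by positivity
      have c2 := mul_le_mul_of_nonneg_left hL1 c1
      nlinarith)
  refine ⟨F, ?_, ?_, ?_, ?_⟩
  · have : (F.card : ℝ) ≤ L := by exact_mod_cast hF1
    linarith
  · intro u hu
    obtain ⟨i, hi⟩ := hF2 u hu
    exact hi.2
  · intro u hu v hv huv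
    rw [Set.disjoint_left]
    rintro x ⟨a, rfl⟩ ⟨b, hb⟩
    exact hF3 u hu v hv huv a b hb.symm
  · intro D hDm
    have c1 := hF4 ⟨D, hDm⟩
    have c2 : {f | f ∈ F ∧ f ∈ D' ⟨D, hDm⟩}.ncard ≤ (D ∩ F).card := by
      rw [← Set.ncard_coe_finset]
      refine Set.ncard_le_ncard ?_ (Set.toFinite _)
      rintro f ⟨hf1, hf2⟩
      rw [Finset.coe_inter]
      exact ⟨hf2.1, hf1⟩
    have c3 : ({f | f ∈ F ∧ f ∈ D' ⟨D, hDm⟩}.ncard : ℝ) ≤ ((D ∩ F).card : ℝ) := by
      exact_mod_cast c2
    have c4 : 8 / 9 * (γ * n) ≤ L := by linarith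
    have c5 := mul_le_mul_of_nonneg_left c4 hξ.le
    nlinarith

theorem ckq : CkqStmt := by
  intro r q ρ _ hρ V _ _ _ E hE
  have h := erdos r q V E ρ hρ.le hE
  rw [mul_comm q r]
  exact h

theorem erd : ErdStmt := by
  intro r t ρ hr ht hρ
  obtain ⟨n₁, hn₁⟩ := exists_nat_ge (2 * ((r * t : ℕ) : ℝ) ^ 2 / ρ ^ (t ^ r))
  refine ⟨max n₁ 1, ?_⟩
  intro V _ _ hV E hE
  classical
  have hp : 0 < ρ ^ (t ^ r) := by positivity
  have h1 : 2 * ((r * t : ℕ) : ℝ) ^ 2 ≤ ρ ^ (t ^ r) * Fintype.card V := by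
    have : 2 * ((r * t : ℕ) : ℝ) ^ 2 / ρ ^ (t ^ r) ≤ Fintype.card V :=
      le_trans hn₁ (by exact_mod_cast le_trans (le_max_left _ _) hV)
    rw [div_le_iff₀ hp] at this
    linarith
  have hn0 : (0 : ℝ) < Fintype.card V := by
    have : 1 ≤ Fintype.card V := le_trans (le_max_right _ _) hV
    exact_mod_cast this
  have h2 := erdosInj r t hr ht V ∅ E ρ hρ.le hE (by
    rw [Finset.card_empty, Nat.cast_zero, mul_zero, add_zero]
    exact h1)
  have h3 : 0 < ρ ^ (t ^ r) / 2 * (Fintype.card V : ℝ) ^ (r * t) := by positivity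
  have h4 := lt_of_lt_of_le h3 h2
  have h5 := Set.nonempty_of_ncard_ne_zero (by
    intro h
    rw [h] at h4
    simp at h4 : {x : Fin r → Fin t → V | (∀ s : Fin r → Fin t, (fun i => x i (s i)) ∈ E) ∧
        Injective (unc x) ∧ ∀ i j, x i j ∉ (∅ : Finset V)}.ncard ≠ 0)
  obtain ⟨x, hx1, hx2, _⟩ := h5
  refine ⟨fun i => univ.image (x i), ?_, ?_, ?_⟩
  · intro i
    rw [Finset.card_image_of_injective, Finset.card_univ, Fintype.card_fin]
    intro a b hab
    have : ((i, a) : Fin r × Fin t) = (i, b) := hx2 hab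
    exact congrArg Prod.snd this
  · intro i j hij
    rw [Finset.disjoint_left]
    intro v hv hv'
    obtain ⟨a, _, rfl⟩ := Finset.mem_image.1 hv
    obtain ⟨b, _, hb⟩ := Finset.mem_image.1 hv'
    have : ((j, b) : Fin r × Fin t) = (i, a) := hx2 hb
    exact hij (congrArg Prod.fst this).symm
  · intro y hy
    have h6 : ∀ i, ∃ a, x i a = y i := by
      intro i
      obtain ⟨a, _, ha⟩ := Finset.mem_image.1 (hy i)
      exact ⟨a, ha⟩
    choose s hs using h6
    have h7 : (fun i => x i (s i)) = y := funext hs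
    rw [← h7]
    exact hx1 s

end Pool.Agent.KK.H74
end

/-! ### Helper86_KK.REA -/
section
/-!
# Squad KK, row REA: the reach lemma
-/

set_option autoImplicit false

open scoped BigOperators
open Finset

namespace Pool.Agent.KK.H86

open scoped Classical

section walks

variable {Ω : Type} [Fintype Ω] (E : Ω → Ω → Prop)

theorem wk_zero (s t : Ω) : wk E 0 s t = if s = t then 1 else 0 := rfl

theorem wk_succ (m : ℕ) (s t : Ω) :
    wk E (m + 1) s t = ∑ z : Ω, wk E m s z * (if E z t then 1 else 0) := rfl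

/-- composition of walks -/
theorem wk_add (a b : ℕ) (s t : Ω) :
    wk E (a + b) s t = ∑ z : Ω, wk E a s z * wk E b z t := by
  induction b generalizing t with
  | zero =>
    rw [add_zero, Finset.sum_eq_single t]
    · rw [wk_zero, if_pos rfl, mul_one]
    · intro z _ hz
      rw [wk_zero, if_neg hz, mul_zero]
    · intro h
      exact absurd (Finset.mem_univ _) h
  | succ b ih =>
    rw [← add_assoc, wk_succ]
    simp_rw [ih, wk_succ, Finset.sum_mul, Finset.mul_sum]
    rw [Finset.sum_comm]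
    refine Finset.sum_congr rfl fun z _ => Finset.sum_congr rfl fun y _ => ?_
    ring

theorem wk_one (s t : Ω) : wk E 1 s t = if E s t then 1 else 0 := by
  rw [wk_succ, Finset.sum_eq_single s]
  · rw [wk_zero, if_pos rfl, one_mul]
  · intro z _ hz
    rw [wk_zero, if_neg (Ne.symm hz), zero_mul]
  · intro h
    exact absurd (Finset.mem_univ _) h

/-- reversed walks -/
theorem wk_rev (m : ℕ) (s t : Ω) : wk (fun x y => E y x) m t s = wk E m s t := by
  induction m generalizing s with
  | zero =>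
    rw [wk_zero, wk_zero]
    by_cases h : s = t
    · rw [if_pos h, if_pos h.symm]
    · rw [if_neg h, if_neg (Ne.symm h)]
  | succ m ih =>
    rw [add_comm m 1, wk_add E 1 m s t, add_comm 1 m, wk_succ]
    refine Finset.sum_congr rfl fun z _ => ?_
    rw [ih z, wk_one, mul_comm]

/-- many predecessors with many walks -/
theorem wk_ge (m : ℕ) (s t : Ω) (S : Finset Ω) (x : ℝ) (hS : ∀ z ∈ S, E z t)
    (hx : ∀ z ∈ S, x ≤ wk E m s z) : S.card * x ≤ wk E (m + 1) s t := by
  rw [wk_succ]
  push_cast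
  calc (S.card : ℝ) * x = ∑ z ∈ S, x := by rw [Finset.sum_const, nsmul_eq_mul]
    _ ≤ ∑ z ∈ S, (wk E m s z : ℝ) * (if E z t then 1 else 0) := by
        refine Finset.sum_le_sum fun z hz => ?_
        rw [if_pos (hS z hz), mul_one]
        exact hx z hz
    _ ≤ ∑ z : Ω, (wk E m s z : ℝ) * (if E z t then 1 else 0) := by
        refine Finset.sum_le_sum_of_subset_of_nonneg (Finset.subset_univ _) fun z _ _ => ?_
        exact mul_nonneg (Nat.cast_nonneg _) (by split_ifs <;> norm_num)

end walks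

section reach

variable {Ω : Type} [Fintype Ω] (E : Ω → Ω → Prop)

/-- the states which are reached by many walks -/
noncomputable def RR (r : ℕ) (θ q N : ℝ) (s : Ω) (U : Finset Ω) (i : ℕ) : Finset Ω :=
  U.filter fun z => ∃ j ≤ i, θ * q ^ i * N ^ j ≤ wk E (r + j) s z

theorem reach (r I : ℕ) (C ε β c₁ N q : ℝ) (hC : 0 < C) (hε : 0 < ε)
    (hβ : 0 < β) (hc : 2 * β < c₁) (hN : 0 < N) (hI : 2 * C / ε < I)
    (hq0 : 0 < q) (hq1 : q ≤ 1) (hq2 : (I + 1) * q ≤ ε / (2 * C)) (U : Finset Ω)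
    (hin : ∀ t, ((univ.filter fun z => E z t).card : ℝ) ≤ N) (h1 : ∀ s t, wk E r s t ≤ 1)
    (hU : (U.card : ℝ) ≤ C * N ^ r)
    (hD : ∀ D ⊆ U, ε * N ^ (r + 1) ≤ (((D ×ˢ (U \ D)).filter fun p => E p.1 p.2).card : ℝ) ∨
      (D.card : ℝ) ≤ β * N ^ r ∨ ((U \ D).card : ℝ) ≤ β * N ^ r)
    (s : Ω) (hs : c₁ * N ^ r ≤ ∑ z ∈ U, (wk E r s z : ℝ)) :
    ((U \ RR E r (c₁ / (2 * C)) q N s U I).card : ℝ) ≤ β * N ^ r := by
  have hNr : 0 < N ^ r := pow_pos hN r
  have hc0 : 0 < c₁ := by linarith
  obtain ⟨θ, hθ⟩ : ∃ θ : ℝ, θ = c₁ / (2 * C) := ⟨_, rfl⟩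
  rw [← hθ]
  have hθ0 : 0 < θ := by rw [hθ]; positivity
  obtain ⟨R, hR⟩ : ∃ R : ℕ → Finset Ω, R = RR E r θ q N s U := ⟨_, rfl⟩
  rw [← hR]
  have hRm : ∀ i z, z ∈ R i ↔ z ∈ U ∧ ∃ j ≤ i, θ * q ^ i * N ^ j ≤ wk E (r + j) s z := by
    intro i z
    rw [hR]
    unfold RR
    rw [mem_filter]
  have hRU : ∀ i, R i ⊆ U := fun i z hz => ((hRm i z).1 hz).1
  have hmono : ∀ i, R i ⊆ R (i + 1) := by
    intro i z hz
    obtain ⟨h1, j, hj, h2⟩ := (hRm i z).1 hz
    refine (hRm _ _).2 ⟨h1, j, by omega, le_trans ?_ h2⟩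
    have h3 : q ^ (i + 1) ≤ q ^ i := pow_le_pow_of_le_one hq0.le hq1 (by omega)
    have h4 : 0 ≤ N ^ j := (pow_pos hN j).le
    exact mul_le_mul_of_nonneg_right (mul_le_mul_of_nonneg_left h3 hθ0.le) h4
  -- the beginning
  have hstart : β * N ^ r < (R 0).card := by
    have h2 : ∑ z ∈ U, (wk E r s z : ℝ) ≤ (R 0).card + θ * U.card := by
      have h3 : ∑ z ∈ U, (wk E r s z : ℝ) = ∑ z ∈ R 0, (wk E r s z : ℝ) +
          ∑ z ∈ U \ R 0, (wk E r s z : ℝ) := by
        rw [add_comm, Finset.sum_sdiff (hRU 0)]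
      have h4 : ∑ z ∈ R 0, (wk E r s z : ℝ) ≤ (R 0).card := by
        calc ∑ z ∈ R 0, (wk E r s z : ℝ) ≤ ∑ z ∈ R 0, (1 : ℝ) :=
              Finset.sum_le_sum fun z _ => by exact_mod_cast h1 s z
          _ = (R 0).card := by rw [Finset.sum_const, nsmul_eq_mul, mul_one]
      have h5 : ∑ z ∈ U \ R 0, (wk E r s z : ℝ) ≤ θ * U.card := by
        calc ∑ z ∈ U \ R 0, (wk E r s z : ℝ) ≤ ∑ z ∈ U \ R 0, θ := by
              refine Finset.sum_le_sum fun z hz => ?_
              obtain ⟨hz1, hz2⟩ := Finset.mem_sdiff.1 hz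
              by_contra hcon
              push Not at hcon
              apply hz2
              refine (hRm _ _).2 ⟨hz1, 0, le_refl _, ?_⟩
              rw [pow_zero, pow_zero, mul_one, mul_one, add_zero]
              exact hcon.le
          _ = (U \ R 0).card * θ := by rw [Finset.sum_const, nsmul_eq_mul]
          _ ≤ U.card * θ := by
              refine mul_le_mul_of_nonneg_right ?_ hθ0.le
              exact_mod_cast Finset.card_le_card Finset.sdiff_subset
          _ = θ * U.card := mul_comm _ _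
      linarith
    have h3 : θ * U.card ≤ c₁ / 2 * N ^ r := by
      calc θ * U.card ≤ θ * (C * N ^ r) := mul_le_mul_of_nonneg_left hU hθ0.le
        _ = c₁ / 2 * N ^ r := by rw [hθ]; field_simp
    nlinarith
  -- the step
  have hstep : ∀ i ≤ I, β * N ^ r < ((U \ R i).card : ℝ) → β * N ^ r < (R i).card →
      ((R i).card : ℝ) + ε / 2 * N ^ r ≤ (R (i + 1)).card := by
    intro i hi hlt hlt'
    have hP : ε * N ^ (r + 1) ≤
        ((((R i) ×ˢ (U \ R i)).filter fun p => E p.1 p.2).card : ℝ) := by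
      rcases hD (R i) (hRU i) with h | h | h
      · exact h
      · exact absurd h (not_le.2 hlt')
      · exact absurd h (not_le.2 hlt)
    -- the number of the steps into `z`
    obtain ⟨d, hd⟩ : ∃ d : Ω → Finset Ω, d = fun z' => (R i).filter fun z => E z z' := ⟨_, rfl⟩
    have hdN : ∀ z', ((d z').card : ℝ) ≤ N := by
      intro z'
      refine le_trans ?_ (hin z')
      rw [hd]
      exact_mod_cast Finset.card_le_card (Finset.filter_subset_filter _ (Finset.subset_univ _))
    have hPsum : ((((R i) ×ˢ (U \ R i)).filter fun p => E p.1 p.2).card : ℝ) =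
        ∑ z' ∈ U \ R i, ((d z').card : ℝ) := by
      rw [Finset.card_filter, Finset.sum_product_right]
      push_cast
      refine Finset.sum_congr rfl fun z' _ => ?_
      rw [hd, Finset.card_filter]
      push_cast
      rfl
    obtain ⟨G, hG⟩ : ∃ G : Finset Ω, G = (U \ R i).filter fun z' => ε / (2 * C) * N ≤ (d z').card :=
      ⟨_, rfl⟩
    have hGU : G ⊆ U \ R i := by
      rw [hG]
      exact Finset.filter_subset _ _
    have hGcard : ε / 2 * N ^ r ≤ G.card := by
      have h2 : ∑ z' ∈ U \ R i, ((d z').card : ℝ) ≤ G.card * N + ε / (2 * C) * N * U.card := by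
        have h3 : ∑ z' ∈ U \ R i, ((d z').card : ℝ) = ∑ z' ∈ G, ((d z').card : ℝ) +
            ∑ z' ∈ (U \ R i) \ G, ((d z').card : ℝ) := by
          rw [add_comm, Finset.sum_sdiff hGU]
        have h4 : ∑ z' ∈ G, ((d z').card : ℝ) ≤ G.card * N := by
          calc ∑ z' ∈ G, ((d z').card : ℝ) ≤ ∑ z' ∈ G, N := Finset.sum_le_sum fun z _ => hdN z
            _ = G.card * N := by rw [Finset.sum_const, nsmul_eq_mul]
        have h5 : ∑ z' ∈ (U \ R i) \ G, ((d z').card : ℝ) ≤ ε / (2 * C) * N * U.card := by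
          calc ∑ z' ∈ (U \ R i) \ G, ((d z').card : ℝ) ≤ ∑ z' ∈ (U \ R i) \ G, ε / (2 * C) * N := by
                refine Finset.sum_le_sum fun z hz => ?_
                obtain ⟨hz1, hz2⟩ := Finset.mem_sdiff.1 hz
                by_contra hcon
                push Not at hcon
                apply hz2
                rw [hG]
                exact Finset.mem_filter.2 ⟨hz1, hcon.le⟩
            _ = (((U \ R i) \ G).card : ℝ) * (ε / (2 * C) * N) := by
                rw [Finset.sum_const, nsmul_eq_mul]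
            _ ≤ (U.card : ℝ) * (ε / (2 * C) * N) := by
                refine mul_le_mul_of_nonneg_right ?_ (by positivity)
                exact_mod_cast Finset.card_le_card
                  (Finset.sdiff_subset.trans Finset.sdiff_subset)
            _ = ε / (2 * C) * N * U.card := mul_comm _ _
        linarith
      have h3 : ε / (2 * C) * N * U.card ≤ ε / 2 * N ^ (r + 1) := by
        calc ε / (2 * C) * N * U.card ≤ ε / (2 * C) * N * (C * N ^ r) :=
              mul_le_mul_of_nonneg_left hU (by positivity)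
          _ = ε / 2 * N ^ (r + 1) := by rw [pow_succ]; field_simp
      rw [hPsum] at hP
      have h4 : ε / 2 * N ^ (r + 1) ≤ G.card * N := by linarith
      have h5 : (ε / 2 * N ^ r) * N ≤ G.card * N := by
        calc (ε / 2 * N ^ r) * N = ε / 2 * N ^ (r + 1) := by rw [pow_succ]; ring
          _ ≤ _ := h4
      exact le_of_mul_le_mul_right h5 hN
    -- the elements of `G` are reached
    have hGR : G ⊆ R (i + 1) := by
      intro z' hz'
      rw [hG, Finset.mem_filter] at hz'
      obtain ⟨hz1, hz2⟩ := hz'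
      have hz1' := (Finset.mem_sdiff.1 hz1).1
      obtain ⟨S, hS⟩ : ∃ S : ℕ → Finset Ω,
        S = fun j => (d z').filter fun z => θ * q ^ i * N ^ j ≤ wk E (r + j) s z := ⟨_, rfl⟩
      have hcov : d z' ⊆ (Finset.range (i + 1)).biUnion S := by
        intro z hz
        have hz3 : z ∈ R i := by
          rw [hd] at hz
          exact (Finset.mem_filter.1 hz).1
        obtain ⟨-, j, hj, h⟩ := (hRm i z).1 hz3
        rw [Finset.mem_biUnion]
        refine ⟨j, Finset.mem_range.2 (by omega), ?_⟩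
        rw [hS]
        exact Finset.mem_filter.2 ⟨hz, h⟩
      have hj : ∃ j ∈ Finset.range (i + 1), q * N ≤ (S j).card := by
        by_contra hcon
        push Not at hcon
        have h2 : ((d z').card : ℝ) ≤ ∑ j ∈ Finset.range (i + 1), ((S j).card : ℝ) := by
          exact_mod_cast (Finset.card_le_card hcov).trans Finset.card_biUnion_le
        have h3 : ∑ j ∈ Finset.range (i + 1), ((S j).card : ℝ) <
            ∑ j ∈ Finset.range (i + 1), q * N :=
          Finset.sum_lt_sum_of_nonempty ⟨0, Finset.mem_range.2 (by omega)⟩ hcon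
        rw [Finset.sum_const, Finset.card_range, nsmul_eq_mul] at h3
        have h4 : ((i + 1 : ℕ) : ℝ) * (q * N) ≤ ε / (2 * C) * N := by
          have h5 : ((i + 1 : ℕ) : ℝ) ≤ I + 1 := by
            push_cast
            have : (i : ℝ) ≤ I := by exact_mod_cast hi
            linarith
          calc ((i + 1 : ℕ) : ℝ) * (q * N) ≤ (I + 1) * (q * N) :=
                mul_le_mul_of_nonneg_right h5 (by positivity)
            _ = ((I + 1) * q) * N := by ring
            _ ≤ ε / (2 * C) * N := mul_le_mul_of_nonneg_right hq2 hN.le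
        linarith
      obtain ⟨j, hj, hjc⟩ := hj
      refine (hRm _ _).2 ⟨hz1', j + 1, by
        have := Finset.mem_range.1 hj
        omega, ?_⟩
      have h2 := wk_ge E (r + j) s z' (S j) (θ * q ^ i * N ^ j)
        (by
          intro z hz
          rw [hS] at hz
          have h3 := (Finset.mem_filter.1 hz).1
          rw [hd] at h3
          exact (Finset.mem_filter.1 h3).2)
        (by
          intro z hz
          rw [hS] at hz
          exact (Finset.mem_filter.1 hz).2)
      refine le_trans ?_ h2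
      have h3 : 0 ≤ θ * q ^ i * N ^ j := by positivity
      calc θ * q ^ (i + 1) * N ^ (j + 1) = (q * N) * (θ * q ^ i * N ^ j) := by
            rw [pow_succ, pow_succ]; ring
        _ ≤ (S j).card * (θ * q ^ i * N ^ j) := mul_le_mul_of_nonneg_right hjc h3
    have hdis : Disjoint (R i) G := by
      rw [Finset.disjoint_left]
      intro z hz hzG
      exact (Finset.mem_sdiff.1 (hGU hzG)).2 hz
    have hun : R i ∪ G ⊆ R (i + 1) := Finset.union_subset (hmono i) hGR
    have h2 := Finset.card_le_card hun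
    rw [Finset.card_union_of_disjoint hdis] at h2
    have h3 : ((R i).card : ℝ) + G.card ≤ (R (i + 1)).card := by exact_mod_cast h2
    linarith
  -- the induction
  have hind : ∀ i ≤ I, ((U \ R i).card : ℝ) ≤ β * N ^ r ∨
      (β * N ^ r < (R i).card ∧ i * (ε / 2 * N ^ r) ≤ (R i).card) := by
    intro i
    induction i with
    | zero =>
      intro _
      right
      refine ⟨hstart, ?_⟩
      push_cast
      rw [zero_mul]
      exact Nat.cast_nonneg _
    | succ i ih =>
      intro hi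
      rcases ih (by omega) with h | ⟨h, h'⟩
      · left
        refine le_trans ?_ h
        exact_mod_cast Finset.card_le_card (Finset.sdiff_subset_sdiff (Finset.Subset.refl _)
          (hmono i))
      · by_cases h2 : ((U \ R i).card : ℝ) ≤ β * N ^ r
        · left
          refine le_trans ?_ h2
          exact_mod_cast Finset.card_le_card (Finset.sdiff_subset_sdiff (Finset.Subset.refl _)
            (hmono i))
        · right
          have h3 := hstep i (by omega) (not_le.1 h2) h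
          have h4 : 0 < ε / 2 * N ^ r := by positivity
          refine ⟨by linarith, ?_⟩
          push_cast
          linarith
  rcases hind I le_rfl with h | ⟨-, h⟩
  · exact h
  · exfalso
    have h2 : ((R I).card : ℝ) ≤ C * N ^ r := by
      refine le_trans ?_ hU
      exact_mod_cast Finset.card_le_card (hRU I)
    have h3 : (I : ℝ) * (ε / 2 * N ^ r) ≤ C * N ^ r := h.trans h2
    have h4 : (I : ℝ) * (ε / 2) ≤ C := by
      refine le_of_mul_le_mul_right ?_ hNr
      calc (I : ℝ) * (ε / 2) * N ^ r = I * (ε / 2 * N ^ r) := by ring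
        _ ≤ C * N ^ r := h3
    rw [div_lt_iff₀ hε] at hI
    linarith

end reach

theorem rea : ReaStmt := by
  intro r C ε β c₁ u₀ hC hε hβ hc hu
  obtain ⟨I, hI⟩ := exists_nat_gt (2 * C / ε)
  obtain ⟨q, hq⟩ : ∃ q : ℝ, q = min 1 (ε / (2 * C * (I + 1))) := ⟨_, rfl⟩
  have hI0 : (0 : ℝ) ≤ I := Nat.cast_nonneg _
  have hq0 : 0 < q := by
    rw [hq]
    exact lt_min one_pos (by positivity)
  have hq1 : q ≤ 1 := by
    rw [hq]
    exact min_le_left _ _
  have hq2 : (I + 1) * q ≤ ε / (2 * C) := by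
    have h1 : q ≤ ε / (2 * C * (I + 1)) := by
      rw [hq]
      exact min_le_right _ _
    calc (I + 1) * q ≤ (I + 1) * (ε / (2 * C * (I + 1))) :=
          mul_le_mul_of_nonneg_left h1 (by positivity)
      _ = ε / (2 * C) := by field_simp
  have hc0 : 0 < c₁ := by linarith
  obtain ⟨θ, hθ⟩ : ∃ θ : ℝ, θ = c₁ / (2 * C) := ⟨_, rfl⟩
  have hθ0 : 0 < θ := by rw [hθ]; positivity
  have hu0 : 0 < u₀ - 2 * β := by linarith
  refine ⟨2 * (r + I), (u₀ - 2 * β) / (I + 1) ^ 2 * (θ * q ^ I) ^ 2, by positivity, ?_⟩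
  intro Ω _ E N U hN hin hout h1 hU hu₀ hD s t hs ht
  have hNr : 0 < N ^ r := pow_pos hN r
  -- finite sets
  obtain ⟨U', hU'⟩ : ∃ U' : Finset Ω, U' = U.toFinset := ⟨_, rfl⟩
  have hmU : ∀ z, z ∈ U' ↔ z ∈ U := by
    intro z
    rw [hU', Set.mem_toFinset]
  have hnc : ∀ p : Ω → Prop, ({z | p z} : Set Ω).ncard = (univ.filter fun z => p z).card := by
    intro p
    rw [Set.ncard_eq_toFinset_card']
    congr 1
    ext z
    simp
  have hUc : U.ncard = U'.card := by rw [Set.ncard_eq_toFinset_card', hU']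
  have hUc1 : (U'.card : ℝ) ≤ C * N ^ r := by rw [← hUc]; exact hU
  have hin' : ∀ t, ((univ.filter fun z => E z t).card : ℝ) ≤ N := by
    intro t
    rw [← hnc]
    exact hin t
  have hout' : ∀ s, ((univ.filter fun z => E s z).card : ℝ) ≤ N := by
    intro s
    rw [← hnc]
    exact hout s
  have hD1 : ∀ D ⊆ U', ε * N ^ (r + 1) ≤
      (((D ×ˢ (U' \ D)).filter fun p => E p.1 p.2).card : ℝ) ∨
      (D.card : ℝ) ≤ β * N ^ r ∨ ((U' \ D).card : ℝ) ≤ β * N ^ r := by
    intro D hDU
    have h2 := hD (D : Set Ω) (fun z hz => (hmU z).1 (hDU hz))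
    have e1 : ({p : Ω × Ω | p.1 ∈ (D : Set Ω) ∧ p.2 ∈ U \ (D : Set Ω) ∧ E p.1 p.2} :
        Set (Ω × Ω)).ncard = ((D ×ˢ (U' \ D)).filter fun p => E p.1 p.2).card := by
      rw [← Set.ncard_coe_finset]
      congr 1
      ext p
      simp only [Set.mem_setOf_eq, Finset.mem_coe, Set.mem_sdiff, Finset.mem_filter,
        Finset.mem_product, Finset.mem_sdiff, hmU]
      tauto
    have e2 : (U \ (D : Set Ω)).ncard = (U' \ D).card := by
      rw [← Set.ncard_coe_finset]
      congr 1
      ext z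
      simp only [Set.mem_sdiff, Finset.mem_coe, Finset.mem_sdiff, hmU]
    rw [e1, e2, Set.ncard_coe_finset] at h2
    exact h2
  have hD2 : ∀ D ⊆ U', ε * N ^ (r + 1) ≤
      (((D ×ˢ (U' \ D)).filter fun p => E p.2 p.1).card : ℝ) ∨
      (D.card : ℝ) ≤ β * N ^ r ∨ ((U' \ D).card : ℝ) ≤ β * N ^ r := by
    intro D hDU
    have h2 := hD1 (U' \ D) Finset.sdiff_subset
    rw [Finset.sdiff_sdiff_eq_self hDU] at h2
    have e1 : (((U' \ D) ×ˢ D).filter fun p => E p.1 p.2).card =
        ((D ×ˢ (U' \ D)).filter fun p => E p.2 p.1).card := by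
      refine Finset.card_bij (fun p _ => (p.2, p.1)) ?_ ?_ ?_
      · rintro ⟨a, b⟩ h
        simp only [Finset.mem_filter, Finset.mem_product] at h ⊢
        exact ⟨⟨h.1.2, h.1.1⟩, h.2⟩
      · rintro ⟨a, b⟩ _ ⟨a', b'⟩ _ h
        simp only [Prod.mk.injEq] at h
        simp [h.1, h.2]
      · rintro ⟨a, b⟩ h
        refine ⟨(b, a), ?_, rfl⟩
        simp only [Finset.mem_filter, Finset.mem_product] at h ⊢
        exact ⟨⟨h.1.2, h.1.1⟩, h.2⟩
    rw [e1] at h2
    rcases h2 with h | h | h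
    · exact Or.inl h
    · exact Or.inr (Or.inr h)
    · exact Or.inr (Or.inl h)
  have hs' : c₁ * N ^ r ≤ ∑ z ∈ U', (wk E r s z : ℝ) := by
    rw [finsum_mem_eq_toFinset_sum] at hs
    rw [hU']
    exact hs
  have ht' : c₁ * N ^ r ≤ ∑ z ∈ U', (wk (fun x y => E y x) r t z : ℝ) := by
    rw [finsum_mem_eq_toFinset_sum] at ht
    rw [hU']
    refine ht.trans (le_of_eq ?_)
    exact Finset.sum_congr rfl fun z _ => by rw [wk_rev]
  have hA := reach E r I C ε β c₁ N q hC hε hβ hc hN hI hq0 hq1 hq2 U' hin' h1 hUc1 hD1 s hs'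
  have hB := reach (fun x y => E y x) r I C ε β c₁ N q hC hε hβ hc hN hI hq0 hq1 hq2 U' hout'
    (fun a b => by rw [wk_rev]; exact h1 b a) hUc1 hD2 t ht'
  rw [← hθ] at hA hB
  obtain ⟨A, hAdef⟩ : ∃ A, A = RR E r θ q N s U' I := ⟨_, rfl⟩
  obtain ⟨B, hBdef⟩ : ∃ B, B = RR (fun x y => E y x) r θ q N t U' I := ⟨_, rfl⟩
  rw [← hAdef] at hA
  rw [← hBdef] at hB
  have hAm : ∀ z ∈ A, z ∈ U' ∧ ∃ j ≤ I, θ * q ^ I * N ^ j ≤ wk E (r + j) s z := by
    intro z hz
    rw [hAdef] at hz
    exact Finset.mem_filter.1 hz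
  have hBm : ∀ z ∈ B, z ∈ U' ∧ ∃ j ≤ I, θ * q ^ I * N ^ j ≤ wk E (r + j) z t := by
    intro z hz
    rw [hBdef] at hz
    obtain ⟨h2, j, hj, h3⟩ := Finset.mem_filter.1 hz
    refine ⟨h2, j, hj, ?_⟩
    rwa [wk_rev] at h3
  -- the intersection
  have hAB : (u₀ - 2 * β) * N ^ r ≤ (A ∩ B).card := by
    have h2 : U' ⊆ (A ∩ B) ∪ ((U' \ A) ∪ (U' \ B)) := by
      intro z hz
      simp only [Finset.mem_union, Finset.mem_inter, Finset.mem_sdiff]
      tauto
    have h3 := (Finset.card_le_card h2).trans ((Finset.card_union_le _ _).trans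
      (Nat.add_le_add_left (Finset.card_union_le _ _) _))
    have h4 : (U'.card : ℝ) ≤ (A ∩ B).card + ((U' \ A).card + (U' \ B).card) := by
      exact_mod_cast h3
    rw [hUc] at hu₀
    nlinarith
  -- pigeonhole
  obtain ⟨S, hS⟩ : ∃ S : ℕ × ℕ → Finset Ω, S = fun p => (A ∩ B).filter fun z =>
    θ * q ^ I * N ^ p.1 ≤ wk E (r + p.1) s z ∧ θ * q ^ I * N ^ p.2 ≤ wk E (r + p.2) z t := ⟨_, rfl⟩
  obtain ⟨J, hJ⟩ : ∃ J : Finset (ℕ × ℕ), J = Finset.range (I + 1) ×ˢ Finset.range (I + 1) :=
    ⟨_, rfl⟩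
  have hcov : A ∩ B ⊆ J.biUnion S := by
    intro z hz
    obtain ⟨hzA, hzB⟩ := Finset.mem_inter.1 hz
    obtain ⟨-, j, hj, h2⟩ := hAm z hzA
    obtain ⟨-, j', hj', h3⟩ := hBm z hzB
    rw [Finset.mem_biUnion]
    refine ⟨(j, j'), ?_, ?_⟩
    · rw [hJ, Finset.mem_product, Finset.mem_range, Finset.mem_range]
      exact ⟨by omega, by omega⟩
    · rw [hS]
      exact Finset.mem_filter.2 ⟨hz, h2, h3⟩
  have hJc : (J.card : ℝ) = (I + 1) ^ 2 := by
    rw [hJ, Finset.card_product, Finset.card_range]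
    push_cast
    ring
  have hex : ∃ p ∈ J, (u₀ - 2 * β) / (I + 1) ^ 2 * N ^ r ≤ (S p).card := by
    by_contra hcon
    push Not at hcon
    have h2 : ((A ∩ B).card : ℝ) ≤ ∑ p ∈ J, ((S p).card : ℝ) := by
      exact_mod_cast (Finset.card_le_card hcov).trans Finset.card_biUnion_le
    have hne : J.Nonempty := by
      rw [hJ]
      exact ⟨(0, 0), by simp⟩
    have h3 := Finset.sum_lt_sum_of_nonempty hne hcon
    rw [Finset.sum_const, nsmul_eq_mul, hJc] at h3
    have h4 : ((I : ℝ) + 1) ^ 2 * ((u₀ - 2 * β) / (I + 1) ^ 2 * N ^ r) =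
        (u₀ - 2 * β) * N ^ r := by field_simp
    rw [h4] at h3
    linarith
  obtain ⟨⟨j, j'⟩, hp, hcard⟩ := hex
  rw [hJ, Finset.mem_product, Finset.mem_range, Finset.mem_range] at hp
  obtain ⟨hj, hj'⟩ := hp
  change j < I + 1 at hj
  change j' < I + 1 at hj'
  refine ⟨(r + j) + (r + j'), by omega, by omega, ?_⟩
  have hx : 0 ≤ θ * q ^ I * N ^ j := by positivity
  have hx' : 0 ≤ θ * q ^ I * N ^ j' := by positivity
  have h2 : ((S (j, j')).card : ℝ) * ((θ * q ^ I * N ^ j) * (θ * q ^ I * N ^ j')) ≤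
      wk E (r + j + (r + j')) s t := by
    rw [wk_add]
    push_cast
    calc ((S (j, j')).card : ℝ) * ((θ * q ^ I * N ^ j) * (θ * q ^ I * N ^ j')) =
          ∑ z ∈ S (j, j'), ((θ * q ^ I * N ^ j) * (θ * q ^ I * N ^ j')) := by
            rw [Finset.sum_const, nsmul_eq_mul]
      _ ≤ ∑ z ∈ S (j, j'), (wk E (r + j) s z : ℝ) * (wk E (r + j') z t : ℝ) := by
            refine Finset.sum_le_sum fun z hz => ?_
            rw [hS] at hz
            obtain ⟨-, h3, h4⟩ := Finset.mem_filter.1 hz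
            exact mul_le_mul h3 h4 hx' (le_trans hx h3)
      _ ≤ ∑ z : Ω, (wk E (r + j) s z : ℝ) * (wk E (r + j') z t : ℝ) :=
            Finset.sum_le_sum_of_subset_of_nonneg (Finset.subset_univ _) fun z _ _ => by positivity
  refine le_trans ?_ h2
  have e1 : (r + j) + (r + j') - r = r + j + j' := by omega
  rw [e1]
  calc (u₀ - 2 * β) / (I + 1) ^ 2 * (θ * q ^ I) ^ 2 * N ^ (r + j + j') =
        ((u₀ - 2 * β) / (I + 1) ^ 2 * N ^ r) * ((θ * q ^ I * N ^ j) * (θ * q ^ I * N ^ j')) := by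
          rw [pow_add, pow_add]; ring
    _ ≤ (S (j, j')).card * ((θ * q ^ I * N ^ j) * (θ * q ^ I * N ^ j')) :=
        mul_le_mul_of_nonneg_right hcard (mul_nonneg hx hx')

end Pool.Agent.KK.H86
end

/-! ### Helper62_KK.WKT -/
section
/-!
# KK row WKT: walks of states are sequences of vertices
-/

set_option autoImplicit false

open scoped BigOperators

namespace Pool.Agent.KK.H62

/-- One step may also be split off at the beginning of a walk. -/
theorem wk_succ' {Ω : Type} [Fintype Ω] (E : Ω → Ω → Prop) (m : ℕ) :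
    ∀ s t : Ω, wk E (m + 1) s t = ∑ z : Ω, (by classical exact if E s z then 1 else 0) * wk E m z t := by
  classical
  induction m with
  | zero =>
    intro s t
    simp only [wk]
    rw [Finset.sum_eq_single s, Finset.sum_eq_single t]
    · simp
    · intro b _ hb; simp [hb]
    · intro h; exact absurd (Finset.mem_univ _) h
    · intro b _ hb; simp [hb.symm]
    · intro h; exact absurd (Finset.mem_univ _) h
  | succ m ih =>
    intro s t
    have h1 : wk E (m + 1 + 1) s t = ∑ z : Ω, wk E (m + 1) s z * (if E z t then 1 else 0) := by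
      rw [wk]
    rw [h1]
    have h2 : ∀ z : Ω, wk E (m + 1) z t = ∑ y : Ω, wk E m z y * (if E y t then 1 else 0) := by
      intro z; rw [wk]
    simp only [h2, Finset.mul_sum]
    rw [Finset.sum_comm]
    refine Finset.sum_congr rfl fun z _ => ?_
    rw [ih, Finset.sum_mul]
    refine Finset.sum_congr rfl fun y _ => ?_
    ring

variable {V : Type} [Fintype V] [DecidableEq V]

/-- Tightness of a walk, read from the start. -/
def Q (H : Finset (Finset V)) {d : ℕ} : (Fin (d + 1) → V) → List V → Prop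
  | _, [] => True
  | a, v :: l => insert v (Finset.univ.image a) ∈ H ∧ Q H (Fin.snoc (Fin.tail a) v : Fin (d + 1) → V) l

/-- Final tuple of a walk. -/
def en {d : ℕ} : (Fin (d + 1) → V) → List V → (Fin (d + 1) → V)
  | a, [] => a
  | a, v :: l => en (Fin.snoc (Fin.tail a) v : Fin (d + 1) → V) l

theorem tight_cons (H : Finset (Finset V)) (k : ℕ) (x : V) (l : List V) :
    Tight H k (x :: l) ↔ ((x :: l).length < k ∨ ((x :: l).take k).toFinset ∈ H) ∧ Tight H k l := by
  constructor
  · intro h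
    refine ⟨?_, fun s hs hl => h s (List.infix_cons_iff.2 (Or.inr hs)) hl⟩
    rcases lt_or_ge (x :: l).length k with h1 | h1
    · exact Or.inl h1
    · exact Or.inr (h _ (List.take_prefix k _).isInfix (by rw [List.length_take]; omega))
  · rintro ⟨h1, h2⟩ s hs hl
    rcases List.infix_cons_iff.1 hs with h3 | h3
    · have h4 : s = (x :: l).take k := by
        rw [← hl]; exact List.prefix_iff_eq_take.1 h3
      rcases h1 with h1 | h1
      · have := h3.length_le; omega
      · rw [h4]; exact h1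
    · exact h2 s h3 hl

theorem ofFn_snoc {d : ℕ} (c : Fin d → V) (v : V) :
    List.ofFn (Fin.snoc c v : Fin (d + 1) → V) = List.ofFn c ++ [v] := by
  rw [List.ofFn_succ']
  simp [List.concat_eq_append]

theorem Q_iff (H : Finset (Finset V)) {d : ℕ} (l : List V) : ∀ a : Fin (d + 1) → V,
    Q H a l ↔ Tight H (d + 2) (List.ofFn a ++ l) := by
  induction l with
  | nil =>
    intro a
    simp only [Q, List.append_nil, true_iff]
    intro s hs hl
    have := hs.length_le
    rw [List.length_ofFn] at this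
    omega
  | cons v l ih =>
    intro a
    rw [Q, ih, ofFn_snoc, List.ofFn_succ (f := a), List.cons_append, tight_cons]
    have e1 : List.ofFn (fun i : Fin d => a i.succ) = List.ofFn (Fin.tail a) := rfl
    rw [e1]
    have e2 : List.ofFn (Fin.tail a) ++ [v] ++ l = List.ofFn (Fin.tail a) ++ v :: l := by simp
    rw [e2]
    have e3 : (a 0 :: (List.ofFn (Fin.tail a) ++ v :: l)).take (d + 2) =
        a 0 :: (List.ofFn (Fin.tail a) ++ [v]) := by
      rw [List.take_succ_cons, List.take_append, List.length_ofFn]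
      have : d + 1 - d = 1 := by omega
      rw [this, List.take_of_length_le (by rw [List.length_ofFn]; omega)]
      simp
    rw [e3]
    have e4 : (a 0 :: (List.ofFn (Fin.tail a) ++ [v])).toFinset =
        insert v (Finset.univ.image a) := by
      have : a 0 :: (List.ofFn (Fin.tail a) ++ [v]) = List.ofFn a ++ [v] := by
        rw [List.ofFn_succ (f := a)]; rfl
      rw [this]
      ext x
      simp only [List.mem_toFinset, List.mem_append, List.mem_ofFn, List.mem_singleton,
        Finset.mem_insert, Finset.mem_image, Finset.mem_univ, true_and]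
      tauto
    rw [e4]
    have e5 : ¬ (a 0 :: (List.ofFn (Fin.tail a) ++ v :: l)).length < d + 2 := by
      simp
    simp [e5]

theorem ofFn_en {d : ℕ} (l : List V) : ∀ a : Fin (d + 1) → V,
    List.ofFn (en a l) = (List.ofFn a ++ l).drop l.length := by
  induction l with
  | nil => intro a; simp [en]
  | cons v l ih =>
    intro a
    rw [en, ih, ofFn_snoc, List.ofFn_succ (f := a), List.cons_append, List.length_cons,
      List.drop_succ_cons]
    have e1 : List.ofFn (fun i : Fin d => a i.succ) = List.ofFn (Fin.tail a) := rfl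
    rw [e1]
    simp

theorem wk_eq (H : Finset (Finset V)) {d : ℕ} (m : ℕ) : ∀ (a b : Fin (d + 1) → V)
    (t t' : ZMod (d + 2)), wk (St H) m (a, t) (b, t') =
      {x : Fin m → V | Q H a (List.ofFn x) ∧ en a (List.ofFn x) = b ∧ t' = t + m}.ncard := by
  classical
  induction m with
  | zero =>
    intro a b t t'
    simp only [wk]
    by_cases h : (a, t) = (b, t')
    · rw [if_pos h]
      obtain ⟨h1, h2⟩ := Prod.mk.inj h
      subst h1 h2
      have : {x : Fin 0 → V | Q H a (List.ofFn x) ∧ en a (List.ofFn x) = a ∧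
          t = t + ((0 : ℕ) : ZMod (d + 2))} = {Fin.elim0} := by
        ext x
        simp only [Set.mem_ofPred_eq, Set.mem_singleton_iff]
        constructor
        · intro _; exact Subsingleton.elim _ _
        · intro _; simp [Q, en]
      rw [this, Set.ncard_singleton]
    · rw [if_neg h]
      symm
      rw [Set.ncard_eq_zero]
      ext x
      simp only [Set.mem_ofPred_eq, Set.mem_empty_iff_false, iff_false]
      rintro ⟨-, h2, h3⟩
      apply h
      rw [List.ofFn_zero] at h2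
      simp only [en] at h2
      simp only [Nat.cast_zero, add_zero] at h3
      rw [h2, h3]
  | succ m ih =>
    intro a b t t'
    rw [wk_succ']
    have h1 : ∀ z : Sta V d, (if St H (a, t) z then 1 else 0) * wk (St H) m z (b, t') =
        ∑ v : V, if z = ((Fin.snoc (Fin.tail a) v : Fin (d + 1) → V), t + 1) ∧
          insert v (Finset.univ.image a) ∈ H then
          wk (St H) m ((Fin.snoc (Fin.tail a) v : Fin (d + 1) → V), t + 1) (b, t') else 0 := by
      intro z
      by_cases hz : St H (a, t) z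
      · obtain ⟨hz1, hz2, hz3⟩ := hz
        rw [Finset.sum_eq_single (z.1 (Fin.last d))]
        · have hz4 : z = ((Fin.snoc (Fin.tail a) (z.1 (Fin.last d)) : Fin (d + 1) → V), t + 1) := by
            apply Prod.ext
            · change z.1 = Fin.snoc (Fin.tail a) (z.1 (Fin.last d))
              have : Fin.init z.1 = Fin.tail a := hz2
              rw [← this, Fin.snoc_init_self]
            · exact hz1
          rw [if_pos ⟨hz1, hz2, hz3⟩, if_pos ⟨hz4, hz3⟩, ← hz4, one_mul]
        · intro v _ hv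
          rw [if_neg]
          rintro ⟨h, -⟩
          apply hv
          rw [h]
          simp
        · intro h; exact absurd (Finset.mem_univ _) h
      · rw [if_neg hz, zero_mul]
        symm
        apply Finset.sum_eq_zero
        intro v _
        rw [if_neg]
        rintro ⟨h, h'⟩
        apply hz
        rw [h]
        refine ⟨rfl, ?_, ?_⟩
        · simp
        · simpa using h'
    rw [Finset.sum_congr rfl fun z _ => h1 z, Finset.sum_comm]
    have h2 : ∀ v : V, (∑ z : Sta V d, if z = ((Fin.snoc (Fin.tail a) v : Fin (d + 1) → V), t + 1) ∧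
          insert v (Finset.univ.image a) ∈ H then
          wk (St H) m ((Fin.snoc (Fin.tail a) v : Fin (d + 1) → V), t + 1) (b, t') else 0) =
        {x : Fin m → V | Q H a (List.ofFn (Fin.cons v x : Fin (m + 1) → V)) ∧
          en a (List.ofFn (Fin.cons v x : Fin (m + 1) → V)) = b ∧
            t' = t + ((m + 1 : ℕ) : ZMod (d + 2))}.ncard := by
      intro v
      rw [Finset.sum_eq_single ((Fin.snoc (Fin.tail a) v : Fin (d + 1) → V), t + 1)]
      · by_cases hv : insert v (Finset.univ.image a) ∈ H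
        · rw [if_pos ⟨rfl, hv⟩, ih]
          congr 1
          ext x
          simp only [Set.mem_ofPred_eq, List.ofFn_succ, Fin.cons_zero, Fin.cons_succ, Q, en, hv,
            true_and]
          have : t + 1 + (m : ZMod (d + 2)) = t + ((m + 1 : ℕ) : ZMod (d + 2)) := by
            push_cast; ring
          rw [this]
        · rw [if_neg (fun h => hv h.2)]
          symm
          rw [Set.ncard_eq_zero]
          ext x
          simp only [Set.mem_ofPred_eq, List.ofFn_succ, Fin.cons_zero, Fin.cons_succ, Q, en, hv,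
            false_and, Set.mem_empty_iff_false]
      · intro z _ hz
        rw [if_neg (fun h => hz h.1)]
      · intro h; exact absurd (Finset.mem_univ _) h
    rw [Finset.sum_congr rfl fun v _ => h2 v]
    -- now the fibres over the first entry
    have h3 : ∀ P : (Fin (m + 1) → V) → Prop,
        ∑ v : V, {x : Fin m → V | P (Fin.cons v x)}.ncard = {y : Fin (m + 1) → V | P y}.ncard := by
      intro P
      have e1 : ∀ v : V, {x : Fin m → V | P (Fin.cons v x)}.ncard =
          Fintype.card {x : Fin m → V // P (Fin.cons v x)} := by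
        intro v
        rw [← Nat.card_coe_set_eq, Nat.card_eq_fintype_card]
        rfl
      have e2 : {y : Fin (m + 1) → V | P y}.ncard = Fintype.card {y : Fin (m + 1) → V // P y} := by
        rw [← Nat.card_coe_set_eq, Nat.card_eq_fintype_card]
        rfl
      rw [Finset.sum_congr rfl fun v _ => e1 v, e2, ← Fintype.card_sigma]
      refine Fintype.card_congr ⟨fun p => ⟨Fin.cons p.1 p.2.1, p.2.2⟩,
        fun y => ⟨y.1 0, ⟨Fin.tail y.1, by rw [Fin.cons_self_tail]; exact y.2⟩⟩, ?_, ?_⟩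
      · rintro ⟨v, x, hx⟩
        rfl
      · rintro ⟨y, hy⟩
        exact Subtype.ext (Fin.cons_self_tail y)
    exact h3 fun y => Q H a (List.ofFn y) ∧ en a (List.ofFn y) = b ∧
      t' = t + ((m + 1 : ℕ) : ZMod (d + 2))

/-- **WKT**. -/
theorem wkt : WktStmt := by
  classical
  intro d m V _ _ H _ hm a b t t'
  refine ⟨fun ht => ?_, fun ht => ?_⟩
  · rw [wk_eq]
    obtain ⟨n, rfl⟩ : ∃ n, m = n + (d + 1) := ⟨m - (d + 1), by omega⟩
    have e0 : n + (d + 1) - (d + 1) = n := by omega
    rw [e0]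
    symm
    have key : ∀ w : Fin n → V, List.ofFn (Fin.append w b) = List.ofFn w ++ List.ofFn b := by
      intro w; rw [List.ofFn_fin_append]
    refine Set.ncard_congr (fun w _ => Fin.append w b) ?_ ?_ ?_
    · intro w hw
      refine ⟨?_, ?_, ht⟩
      · rw [Q_iff, key, ← List.append_assoc]
        exact hw
      · apply List.ofFn_injective
        rw [ofFn_en, key, List.length_append, List.length_ofFn, List.length_ofFn,
          ← List.append_assoc, List.drop_append, List.length_append, List.length_ofFn,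
          List.length_ofFn]
        have : n + (d + 1) - (d + 1 + n) = 0 := by omega
        rw [this, List.drop_zero, List.drop_of_length_le (by simp; omega)]
        rfl
    · intro w w' _ _ h
      funext i
      have := congrFun h (Fin.castAdd (d + 1) i)
      simpa using this
    · intro y hy
      obtain ⟨hy1, hy2, -⟩ := hy
      refine ⟨fun i => y (Fin.castAdd (d + 1) i), ?_, ?_⟩
      all_goals
        have hb : b = fun i => y (Fin.natAdd n i) := by
          have h := ofFn_en (List.ofFn y) a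
          rw [hy2] at h
          have h' : y = Fin.append (fun i => y (Fin.castAdd (d + 1) i))
              (fun i => y (Fin.natAdd n i)) := by
            rw [Fin.append_castAdd_natAdd]
          rw [h', List.ofFn_fin_append, List.length_append, List.length_ofFn, List.length_ofFn,
            ← List.append_assoc, List.drop_append, List.length_append, List.length_ofFn,
            List.length_ofFn] at h
          have h4 : n + (d + 1) - (d + 1 + n) = 0 := by omega
          rw [h4, List.drop_zero, List.drop_of_length_le (by simp; omega)] at h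
          exact List.ofFn_injective (by simpa using h)
      · have h' : y = Fin.append (fun i => y (Fin.castAdd (d + 1) i)) b := by
          rw [hb, Fin.append_castAdd_natAdd]
        change Tight H (d + 2) _
        rw [Q_iff, h', List.ofFn_fin_append, ← List.append_assoc] at hy1
        exact hy1
      · rw [hb, Fin.append_castAdd_natAdd]
  · rw [wk_eq, Set.ncard_eq_zero]
    ext x
    simp only [Set.mem_ofPred_eq, Set.mem_empty_iff_false, iff_false]
    rintro ⟨-, -, h⟩
    exact ht h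

end Pool.Agent.KK.H62
end

/-! ### Helper91_KK.COA -/
section
/-! Squad KK, row COA (helper91): two new blocks from one old block. -/

set_option autoImplicit false

open scoped BigOperators

namespace Pool.Agent.KK.H91

open Function

theorem exists_perm {n : ℕ} {V : Type} (g h : Fin n → V) (hh : Injective h)
    (hr : ∀ j, ∃ i, g i = h j) : ∃ π : Equiv.Perm (Fin n), g ∘ π = h := by
  choose p hp using hr
  have hinj : Injective p := fun a b hab => hh (by rw [← hp a, ← hp b, hab])
  exact ⟨Equiv.ofBijective p (Finite.injective_iff_bijective.1 hinj), funext hp⟩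

theorem mem_gn {V : Type} [Fintype V] [DecidableEq V] {q : ℕ} (H : Finset (Finset V))
    (k : ℕ) (T : Fin q → Set (List V)) (f : Fin (k - 1) → V) (v : V) :
    v ∈ gn H k T f ↔ OrdIn H k T (insert v (Finset.univ.image f)) := by
  classical
  unfold gn
  simp

theorem ordIn_perm {V : Type} [Fintype V] [DecidableEq V] {q r : ℕ} (H : Finset (Finset V))
    (T : Fin q → Set (List V)) (f : Fin r → V) (v : V)
    (h : OrdIn H (r + 1) T (insert v (Finset.univ.image f))) :
    ∃ (c : Fin q) (π : Equiv.Perm (Fin (r + 1))),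
      EdgeIn H (r + 1) (T c) (List.ofFn ((Fin.snoc f v : Fin (r + 1) → V) ∘ π)) := by
  obtain ⟨c, l, hl, hE⟩ := h
  have hlen : l.length = r + 1 := hE.2.1
  have hnd : l.Nodup := hE.1
  let h : Fin (r + 1) → V := fun j => l.get (Fin.cast hlen.symm j)
  have hl2 : List.ofFn h = l := by
    apply List.ext_get
    · simp [hlen]
    · intro n h1 h2
      rw [List.get_ofFn]
      rfl
  have hh : Injective h := by
    intro a b hab
    have := hnd.injective_get hab
    simpa using this
  have hr : ∀ j, ∃ i, (Fin.snoc f v : Fin (r + 1) → V) i = h j := by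
    intro j
    have hm : h j ∈ l.toFinset := by
      rw [List.mem_toFinset]
      exact List.get_mem _ _
    rw [hl, Finset.mem_insert, Finset.mem_image] at hm
    rcases hm with hm | ⟨i, -, hi⟩
    · exact ⟨Fin.last r, by rw [Fin.snoc_last, hm]⟩
    · exact ⟨Fin.castSucc i, by rw [Fin.snoc_castSucc, hi]⟩
  obtain ⟨π, hπ⟩ := exists_perm _ h hh hr
  exact ⟨c, π, by rw [hπ, hl2]; exact hE⟩

/-- Choice of a set `P` with constant data. -/
theorem exists_P {V : Type} [Fintype V] [DecidableEq V] {q r s : ℕ} (H : Finset (Finset V))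
    (T : Fin q → Set (List V)) (f : Fin r → V) (S : Finset V)
    (hS : ∀ v ∈ S, OrdIn H (r + 1) T (insert v (Finset.univ.image f))) (hq : 0 < q)
    (hc : s * q * (r + 1).factorial ≤ S.card) :
    ∃ (P : Finset V) (c : Fin q) (π : Equiv.Perm (Fin (r + 1))), P ⊆ S ∧ P.card = s ∧
      ∀ v ∈ P, EdgeIn H (r + 1) (T c) (List.ofFn ((Fin.snoc f v : Fin (r + 1) → V) ∘ π)) := by
  classical
  have : Nonempty (Fin q) := ⟨⟨0, hq⟩⟩
  have h1 : ∀ v : V, ∃ d : Fin q × Equiv.Perm (Fin (r + 1)), v ∈ S →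
      EdgeIn H (r + 1) (T d.1) (List.ofFn ((Fin.snoc f v : Fin (r + 1) → V) ∘ d.2)) := by
    intro v
    by_cases hv : v ∈ S
    · obtain ⟨c, π, h⟩ := ordIn_perm H T f v (hS v hv)
      exact ⟨(c, π), fun _ => h⟩
    · exact ⟨Classical.arbitrary _, fun h => absurd h hv⟩
  choose φ hφ using h1
  have hcard : (Finset.univ : Finset (Fin q × Equiv.Perm (Fin (r + 1)))).card * s ≤ S.card := by
    rw [Finset.card_univ, Fintype.card_prod, Fintype.card_fin, Fintype.card_perm, Fintype.card_fin]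
    calc q * (r + 1).factorial * s = s * q * (r + 1).factorial := by ring
      _ ≤ S.card := hc
  obtain ⟨d, -, hd⟩ := Finset.exists_le_card_fiber_of_mul_le_card_of_maps_to
    (f := φ) (fun v _ => Finset.mem_univ _) Finset.univ_nonempty hcard
  obtain ⟨P, hP, hPc⟩ := Finset.exists_subset_card_eq hd
  refine ⟨P, d.1, d.2, fun v hv => (Finset.mem_filter.1 (hP hv)).1, hPc, fun v hv => ?_⟩
  obtain ⟨hv1, hv2⟩ := Finset.mem_filter.1 (hP hv)
  have := hφ v hv1
  rw [hv2] at this
  exact this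

/-- Construction of a block from sets `A l`, `P`. -/
theorem block_of {V : Type} [Fintype V] [DecidableEq V] {q r s : ℕ} (H : Finset (Finset V))
    (T : Fin q → Set (List V)) (A : Fin r → Finset V) (P : Finset V) (c : Fin q)
    (π : Equiv.Perm (Fin (r + 1))) (hA : ∀ l, (A l).card = s) (hP : P.card = s)
    (hd : ∀ i j, i ≠ j → Disjoint (A i) (A j)) (hdP : ∀ l, Disjoint (A l) P)
    (hE : ∀ x : Fin r → V, (∀ l, x l ∈ A l) → ∀ v ∈ P,
      EdgeIn H (r + 1) (T c) (List.ofFn ((Fin.snoc x v : Fin (r + 1) → V) ∘ π))) :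
    ∃ C : Fin (r + 1) → Finset V, Block H (r + 1) T s C ∧
      Finset.univ.biUnion C = P ∪ Finset.univ.biUnion A := by
  classical
  let G : Fin (r + 1) → Finset V := Fin.snoc (α := fun _ => Finset V) A P
  have hG1 : ∀ l : Fin r, G l.castSucc = A l := fun l => Fin.snoc_castSucc (α := fun _ => Finset V) _ _ _
  have hG2 : G (Fin.last r) = P := Fin.snoc_last (α := fun _ => Finset V) _ _
  have hGd : ∀ a b, a ≠ b → Disjoint (G a) (G b) := by
    intro a b
    refine Fin.lastCases ?_ (fun a => ?_) a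
    · refine Fin.lastCases ?_ (fun b => ?_) b
      · intro h; exact absurd rfl h
      · intro _
        rw [hG1, hG2]
        exact (hdP b).symm
    · refine Fin.lastCases ?_ (fun b => ?_) b
      · intro _
        rw [hG1, hG2]
        exact hdP a
      · intro h
        rw [hG1, hG1]
        exact hd a b fun h' => h (by rw [h'])
  have hGc : ∀ a, (G a).card = s := by
    intro a
    refine Fin.lastCases ?_ (fun a => ?_) a
    · rw [hG2]; exact hP
    · rw [hG1]; exact hA a
  refine ⟨fun j => G (π j), ⟨fun j => hGc _, fun i j hij => hGd _ _ fun h => hij (π.injective h),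
    c, fun y hy => ?_⟩, ?_⟩
  · let g : Fin (r + 1) → V := fun m => y (π.symm m)
    have hg : ∀ m, g m ∈ G m := by
      intro m
      have := hy (π.symm m)
      simpa using this
    have hx : ∀ l : Fin r, g l.castSucc ∈ A l := fun l => by rw [← hG1]; exact hg _
    have hv : g (Fin.last r) ∈ P := by rw [← hG2]; exact hg _
    have h := hE (fun l => g l.castSucc) hx _ hv
    have hsn : (Fin.snoc (fun l : Fin r => g l.castSucc) (g (Fin.last r)) : Fin (r + 1) → V) = g := by
      funext m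
      refine Fin.lastCases ?_ (fun a => ?_) m
      · rw [Fin.snoc_last]
      · rw [Fin.snoc_castSucc]
    rw [hsn] at h
    have hgy : g ∘ π = y := by
      funext m
      simp [g]
    rw [hgy] at h
    exact h
  · ext v
    rw [Finset.mem_union, Finset.mem_biUnion, Finset.mem_biUnion]
    constructor
    · rintro ⟨j, -, hj⟩
      have key : ∀ m : Fin (r + 1), v ∈ G m → v ∈ P ∨ ∃ a ∈ (Finset.univ : Finset (Fin r)), v ∈ A a := by
        intro m
        refine Fin.lastCases ?_ (fun a => ?_) m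
        · rw [hG2]; exact fun h => Or.inl h
        · rw [hG1]; exact fun h => Or.inr ⟨a, Finset.mem_univ _, h⟩
      exact key _ hj
    · rintro (h | ⟨a, -, h⟩)
      · refine ⟨π.symm (Fin.last r), Finset.mem_univ _, ?_⟩
        show v ∈ G (π (π.symm (Fin.last r)))
        rw [Equiv.apply_symm_apply, hG2]
        exact h
      · refine ⟨π.symm a.castSucc, Finset.mem_univ _, ?_⟩
        show v ∈ G (π (π.symm a.castSucc))
        rw [Equiv.apply_symm_apply, hG1]
        exact h

/-- Number of data. -/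
def N0 (r q t : ℕ) : ℕ :=
  (r + 1) * ((r + 1) * (2 ^ ((r + 1) * t) * (2 ^ ((r + 1) * t) *
    (q * (q * ((r + 1).factorial * (r + 1).factorial))))))

theorem core (erd : ErdStmt) (r q t s : ℕ) (η θ : ℝ) (hr : 0 < r) (hq : 0 < q) (hs : 0 < s)
    (hθ : 0 < θ) (hst : (s * q * (r + 1).factorial : ℝ) ≤ η * t) :
    ∃ n₀ : ℕ, ∀ (V : Type) [Fintype V] [DecidableEq V] (H : Finset (Finset V))
      (T : Fin q → Set (List V)), n₀ ≤ Fintype.card V →
      ∀ (B : Fin (r + 1) → Finset V) (U : Finset V), (∀ j, (B j).card = t) →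
        (∀ i j, i ≠ j → Disjoint (B i) (B j)) → (∀ j, Disjoint (B j) U) →
        θ * (Fintype.card V : ℝ) ^ r ≤
          ({f : Fin r → V | (∀ l, f l ∈ U) ∧ ∃ i j, i ≠ j ∧
            η * t ≤ ((gn H (r + 1) T f ∩ B i).card : ℝ) ∧
            η * t ≤ ((gn H (r + 1) T f ∩ B j).card : ℝ)}.ncard : ℝ) →
        ∃ (i j : Fin (r + 1)) (P P' W W' : Finset V) (C C' : Fin (r + 1) → Finset V), i ≠ j ∧
          P ⊆ B i ∧ P' ⊆ B j ∧ W ⊆ U ∧ W' ⊆ U ∧ Disjoint W W' ∧ P.card = s ∧ P'.card = s ∧
          W.card = r * s ∧ W'.card = r * s ∧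
          Block H (r + 1) T s C ∧ Block H (r + 1) T s C' ∧
          Finset.univ.biUnion C = P ∪ W ∧ Finset.univ.biUnion C' = P' ∪ W' := by
  classical
  have hN : 0 < N0 r q t := by
    unfold N0
    positivity
  have hρ : 0 < θ / N0 r q t := by positivity
  obtain ⟨n₀, hn₀⟩ := erd r (2 * s) (θ / N0 r q t) hr (by omega) hρ
  refine ⟨n₀, ?_⟩
  intro V _ _ H T hn B U hBc hBd hBU hE0
  set E₀ : Set (Fin r → V) := {f : Fin r → V | (∀ l, f l ∈ U) ∧ ∃ i j, i ≠ j ∧
            η * t ≤ ((gn H (r + 1) T f ∩ B i).card : ℝ) ∧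
            η * t ≤ ((gn H (r + 1) T f ∩ B j).card : ℝ)} with hE₀def
  let D := Fin (r + 1) × Fin (r + 1) × Finset V × Finset V × Fin q × Fin q ×
    Equiv.Perm (Fin (r + 1)) × Equiv.Perm (Fin (r + 1))
  let Pw : Finset (Finset V) := (Finset.univ.biUnion B).powerset
  let DD : Finset D := Finset.univ ×ˢ (Finset.univ ×ˢ (Pw ×ˢ (Pw ×ˢ (Finset.univ ×ˢ
    (Finset.univ ×ˢ (Finset.univ ×ˢ Finset.univ))))))
  have hPw : Pw.card = 2 ^ ((r + 1) * t) := by
    show (Finset.univ.biUnion B).powerset.card = _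
    rw [Finset.card_powerset, Finset.card_biUnion (fun i _ j _ hij => hBd i j hij),
      Finset.sum_congr rfl (fun j _ => hBc j), Finset.sum_const, Finset.card_univ, Fintype.card_fin,
      smul_eq_mul]
  have hDD : DD.card = N0 r q t := by
    show (Finset.univ ×ˢ (Finset.univ ×ˢ (Pw ×ˢ (Pw ×ˢ (Finset.univ ×ˢ
      (Finset.univ ×ˢ (Finset.univ ×ˢ Finset.univ))))))).card = _
    rw [Finset.card_product, Finset.card_product, Finset.card_product, Finset.card_product,
      Finset.card_product, Finset.card_product, Finset.card_product, hPw, Finset.card_univ,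
      Fintype.card_fin, Finset.card_univ, Fintype.card_fin, Finset.card_univ, Fintype.card_perm,
      Fintype.card_fin]
    rfl
  let R : (Fin r → V) → D → Prop := fun f d =>
    d.1 ≠ d.2.1 ∧ d.2.2.1 ⊆ B d.1 ∧ d.2.2.1.card = s ∧ d.2.2.2.1 ⊆ B d.2.1 ∧
      d.2.2.2.1.card = s ∧
      (∀ v ∈ d.2.2.1, EdgeIn H (r + 1) (T d.2.2.2.2.1)
        (List.ofFn ((Fin.snoc f v : Fin (r + 1) → V) ∘ d.2.2.2.2.2.2.1))) ∧
      (∀ v ∈ d.2.2.2.1, EdgeIn H (r + 1) (T d.2.2.2.2.2.1)
        (List.ofFn ((Fin.snoc f v : Fin (r + 1) → V) ∘ d.2.2.2.2.2.2.2)))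
  have hchoose : ∀ f ∈ E₀, ∃ d ∈ DD, R f d := by
    rintro f ⟨-, i, j, hij, hi, hj⟩
    have hcast : ∀ m : Fin (r + 1), η * t ≤ ((gn H (r + 1) T f ∩ B m).card : ℝ) →
        s * q * (r + 1).factorial ≤ (gn H (r + 1) T f ∩ B m).card := by
      intro m hm
      have : ((s * q * (r + 1).factorial : ℕ) : ℝ) ≤ ((gn H (r + 1) T f ∩ B m).card : ℝ) := by
        push_cast
        exact hst.trans hm
      exact_mod_cast this
    have hord : ∀ m : Fin (r + 1), ∀ v ∈ gn H (r + 1) T f ∩ B m,
        OrdIn H (r + 1) T (insert v (Finset.univ.image f)) := by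
      intro m v hv
      exact (mem_gn H (r + 1) T f v).1 (Finset.mem_inter.1 hv).1
    obtain ⟨P, c, π, hP1, hP2, hP3⟩ := exists_P H T f _ (hord i) hq (hcast i hi)
    obtain ⟨P', c', π', hP1', hP2', hP3'⟩ := exists_P H T f _ (hord j) hq (hcast j hj)
    have hPB : P ⊆ B i := fun v hv => (Finset.mem_inter.1 (hP1 hv)).2
    have hPB' : P' ⊆ B j := fun v hv => (Finset.mem_inter.1 (hP1' hv)).2
    refine ⟨(i, j, P, P', c, c', π, π'), ?_, hij, hPB, hP2, hPB', hP2', hP3, hP3'⟩
    have hm1 : P ∈ Pw := Finset.mem_powerset.2 (hPB.trans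
      (Finset.subset_biUnion_of_mem B (Finset.mem_univ i)))
    have hm2 : P' ∈ Pw := Finset.mem_powerset.2 (hPB'.trans
      (Finset.subset_biUnion_of_mem B (Finset.mem_univ j)))
    exact Finset.mem_product.2 ⟨Finset.mem_univ _, Finset.mem_product.2 ⟨Finset.mem_univ _,
      Finset.mem_product.2 ⟨hm1, Finset.mem_product.2 ⟨hm2, Finset.mem_product.2
      ⟨Finset.mem_univ _, Finset.mem_product.2 ⟨Finset.mem_univ _, Finset.mem_product.2
      ⟨Finset.mem_univ _, Finset.mem_univ _⟩⟩⟩⟩⟩⟩⟩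
  have hDne : DD.Nonempty := by
    rw [← Finset.card_pos, hDD]; exact hN
  obtain ⟨d₀, hd₀⟩ := hDne
  have hch2 : ∀ f : Fin r → V, ∃ d : D, f ∈ E₀ → d ∈ DD ∧ R f d := by
    intro f
    by_cases hf : f ∈ E₀
    · obtain ⟨d, h1, h2⟩ := hchoose f hf
      exact ⟨d, fun _ => ⟨h1, h2⟩⟩
    · exact ⟨d₀, fun h => absurd h hf⟩
  choose φ hφ using hch2
  have hfin : E₀.Finite := Set.toFinite _
  have hE0' : θ * (Fintype.card V : ℝ) ^ r ≤ (hfin.toFinset.card : ℝ) := by
    rw [← Set.ncard_eq_toFinset_card E₀ hfin]; exact hE0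
  have hpg : DD.card • (θ / N0 r q t * (Fintype.card V : ℝ) ^ r) ≤ (hfin.toFinset.card : ℝ) := by
    rw [hDD, nsmul_eq_mul]
    have : (N0 r q t : ℝ) ≠ 0 := by exact_mod_cast hN.ne'
    calc (N0 r q t : ℝ) * (θ / N0 r q t * (Fintype.card V : ℝ) ^ r)
        = θ * (Fintype.card V : ℝ) ^ r := by field_simp
      _ ≤ _ := hE0'
  obtain ⟨d, -, hd⟩ := Finset.exists_le_card_fiber_of_nsmul_le_card_of_maps_to
    (f := φ) (fun f hf => (hφ f (hfin.mem_toFinset.1 hf)).1) ⟨d₀, hd₀⟩ hpg
  obtain ⟨A, hA1, hA2, hA3⟩ := hn₀ V hn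
    ((hfin.toFinset.filter fun f => φ f = d : Finset (Fin r → V)) : Set (Fin r → V)) (by
      rw [Set.ncard_coe_finset]; exact hd)
  have hA3' : ∀ x : Fin r → V, (∀ i, x i ∈ A i) → x ∈ E₀ ∧ R x d := by
    intro x hx
    have h := hA3 x hx
    rw [Finset.mem_coe, Finset.mem_filter] at h
    have h1 := hfin.mem_toFinset.1 h.1
    have h2 := (hφ x h1).2
    rw [h.2] at h2
    exact ⟨h1, h2⟩
  have hAne : ∀ l, (A l).Nonempty := fun l => by
    rw [← Finset.card_pos, hA1]; omega
  choose a ha using hAne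
  have hRd : R a d := (hA3' a ha).2
  obtain ⟨e1, e2, e3, e4, e5, -, -⟩ := hRd
  have hAU : ∀ l, A l ⊆ U := by
    intro l v hv
    have h := (hA3' (Function.update a l v) (fun i => by
      by_cases hi : i = l
      · subst hi; rw [Function.update_self]; exact hv
      · rw [Function.update_of_ne hi]; exact ha i)).1
    have h2 := h.1 l
    rw [Function.update_self] at h2
    exact h2
  have hsplit : ∀ l, ∃ A1 : Finset V, A1 ⊆ A l ∧ A1.card = s := fun l =>
    Finset.exists_subset_card_eq (by rw [hA1]; omega)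
  choose A1 hA1s hA1c using hsplit
  let A2 : Fin r → Finset V := fun l => A l \ A1 l
  have hA2s : ∀ l, A2 l ⊆ A l := fun l => Finset.sdiff_subset
  have hA2c : ∀ l, (A2 l).card = s := by
    intro l
    show (A l \ A1 l).card = s
    rw [Finset.card_sdiff_of_subset (hA1s l), hA1, hA1c]; omega
  have hd1 : ∀ i j, i ≠ j → Disjoint (A1 i) (A1 j) := fun i j hij =>
    Finset.disjoint_of_subset_left (hA1s i) (Finset.disjoint_of_subset_right (hA1s j) (hA2 i j hij))
  have hd2 : ∀ i j, i ≠ j → Disjoint (A2 i) (A2 j) := fun i j hij =>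
    Finset.disjoint_of_subset_left (hA2s i) (Finset.disjoint_of_subset_right (hA2s j) (hA2 i j hij))
  have hUP : ∀ l, Disjoint (A1 l) d.2.2.1 := fun l =>
    Finset.disjoint_of_subset_left ((hA1s l).trans (hAU l))
      (Finset.disjoint_of_subset_right e2 (hBU _).symm)
  have hUP' : ∀ l, Disjoint (A2 l) d.2.2.2.1 := fun l =>
    Finset.disjoint_of_subset_left ((hA2s l).trans (hAU l))
      (Finset.disjoint_of_subset_right e4 (hBU _).symm)
  obtain ⟨C, hC1, hC2⟩ := block_of H T A1 d.2.2.1 d.2.2.2.2.1 d.2.2.2.2.2.2.1 hA1c e3 hd1 hUP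
    (fun x hx v hv => (hA3' x fun l => hA1s l (hx l)).2.2.2.2.2.2.1 v hv)
  obtain ⟨C', hC1', hC2'⟩ := block_of H T A2 d.2.2.2.1 d.2.2.2.2.2.1 d.2.2.2.2.2.2.2 hA2c e5 hd2
    hUP' (fun x hx v hv => (hA3' x fun l => hA2s l (hx l)).2.2.2.2.2.2.2 v hv)
  refine ⟨d.1, d.2.1, d.2.2.1, d.2.2.2.1, Finset.univ.biUnion A1, Finset.univ.biUnion A2, C, C', e1,
    e2, e4, ?_, ?_, ?_, e3, e5, ?_, ?_, hC1, hC1', hC2, hC2'⟩
  · exact Finset.biUnion_subset.2 fun l _ => (hA1s l).trans (hAU l)
  · exact Finset.biUnion_subset.2 fun l _ => (hA2s l).trans (hAU l)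
  · rw [Finset.disjoint_biUnion_left]
    intro i _
    rw [Finset.disjoint_biUnion_right]
    intro j _
    by_cases hij : i = j
    · subst hij
      exact Finset.disjoint_sdiff
    · exact Finset.disjoint_of_subset_left (hA1s i)
        (Finset.disjoint_of_subset_right (hA2s j) (hA2 i j hij))
  · rw [Finset.card_biUnion (fun i _ j _ hij => hd1 i j hij),
      Finset.sum_congr rfl (fun j _ => hA1c j), Finset.sum_const, Finset.card_univ,
      Fintype.card_fin, smul_eq_mul]
  · rw [Finset.card_biUnion (fun i _ j _ hij => hd2 i j hij),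
      Finset.sum_congr rfl (fun j _ => hA2c j), Finset.sum_const, Finset.card_univ,
      Fintype.card_fin, smul_eq_mul]

/-- COA. -/
theorem coa (erd : ErdStmt) : CoaStmt := by
  intro k q t s η θ hk hq hs hθ hst
  obtain ⟨r, rfl⟩ : ∃ r, k = r + 1 := ⟨k - 1, by omega⟩
  obtain ⟨n₀, h⟩ := core erd r q t s η θ (by omega) hq hs hθ hst
  refine ⟨n₀, ?_⟩
  intro V _ _ H T hn _ _ B U h1 h2 h3 h4
  exact h V H T hn B U h1 h2 h3 h4

end Pool.Agent.KK.H91
end

/-! ### Helper16_KK.Abs -/
section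
/-!
# KK row TCL, part 1: most states of a closed set stay in it
-/

set_option autoImplicit false

open scoped BigOperators

namespace Pool.Agent.KK.H16

section abs

variable {Ω : Type} [Fintype Ω]

/-- walks of the reversed digraph -/
theorem wk_rev (E : Ω → Ω → Prop) (m : ℕ) : ∀ s t : Ω,
    wk (fun x y => E y x) m s t = wk E m t s := by
  classical
  induction m with
  | zero =>
    intro s t
    simp only [wk]
    by_cases h : s = t
    · rw [if_pos h, if_pos h.symm]
    · rw [if_neg h, if_neg (Ne.symm h)]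
  | succ m ih =>
    intro s t
    rw [H62.wk_succ' E m t s]
    have h1 : wk (fun x y => E y x) (m + 1) s t =
        ∑ z : Ω, wk (fun x y => E y x) m s z * (if E t z then 1 else 0) := by
      rw [wk]
    rw [h1]
    refine Finset.sum_congr rfl fun z _ => ?_
    rw [ih, mul_comm]

open Classical in
theorem wk_succ_real (E : Ω → Ω → Prop) (m : ℕ) (s t : Ω) :
    (wk E (m + 1) s t : ℝ) = ∑ z : Ω, (wk E m s z : ℝ) * (if E z t then 1 else 0) := by
  rw [wk]
  push_cast
  rfl

theorem card_filter_real (p : Ω → Prop) [DecidablePred p] :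
    (∑ z : Ω, (if p z then (1 : ℝ) else 0)) = ({z | p z}.ncard : ℝ) := by
  rw [Finset.sum_boole, Set.ncard_eq_toFinset_card']
  congr 2
  ext z
  simp

open Classical in
theorem in_total (E : Ω → Ω → Prop) {N : ℝ} (hN : 0 ≤ N)
    (hin : ∀ t, ({z | E z t}.ncard : ℝ) ≤ N) (m : ℕ) : ∀ t : Ω,
    ∑ s : Ω, (wk E m s t : ℝ) ≤ N ^ m := by
  induction m with
  | zero =>
    intro t
    rw [pow_zero]
    have h1 : ∀ s : Ω, (wk E 0 s t : ℝ) = if s = t then 1 else 0 := by
      intro s
      simp only [wk]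
      by_cases h : s = t
      · rw [if_pos h, if_pos h, Nat.cast_one]
      · rw [if_neg h, if_neg h, Nat.cast_zero]
    rw [Finset.sum_congr rfl fun s _ => h1 s]
    simp
  | succ m ih =>
    intro t
    have h1 : ∑ s : Ω, (wk E (m + 1) s t : ℝ) =
        ∑ z : Ω, (∑ s : Ω, (wk E m s z : ℝ)) * (if E z t then 1 else 0) := by
      rw [Finset.sum_congr rfl fun s _ => wk_succ_real E m s t, Finset.sum_comm]
      refine Finset.sum_congr rfl fun z _ => ?_
      rw [Finset.sum_mul]
    rw [h1]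
    calc ∑ z : Ω, (∑ s : Ω, (wk E m s z : ℝ)) * (if E z t then 1 else 0)
        ≤ ∑ z : Ω, N ^ m * (if E z t then 1 else 0) := by
          refine Finset.sum_le_sum fun z _ => ?_
          refine mul_le_mul_of_nonneg_right (ih z) ?_
          split_ifs
          · exact zero_le_one
          · exact le_rfl
      _ = N ^ m * ({z | E z t}.ncard : ℝ) := by
          rw [← Finset.mul_sum, card_filter_real]
      _ ≤ N ^ m * N := mul_le_mul_of_nonneg_left (hin t) (pow_nonneg hN m)
      _ = N ^ (m + 1) := by rw [pow_succ]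

open Classical in
theorem out_lower (E : Ω → Ω → Prop) {N : ℝ} (I : Set Ω)
    (hI : ∀ s ∈ I, N / 2 ≤ ({z | z ∈ I ∧ E s z}.ncard : ℝ)) (hN : 0 ≤ N) (m : ℕ) (s : Ω)
    (hs : s ∈ I) :
    (N / 2) ^ m ≤ ∑ z : Ω, (if z ∈ I then (wk E m s z : ℝ) else 0) := by
  induction m with
  | zero =>
    rw [pow_zero]
    have h1 : (if s ∈ I then (wk E 0 s s : ℝ) else 0) = 1 := by
      rw [if_pos hs]
      simp [wk]
    rw [← h1]
    refine Finset.single_le_sum (f := fun z => if z ∈ I then (wk E 0 s z : ℝ) else 0) ?_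
      (Finset.mem_univ s)
    intro z _
    split_ifs
    · exact Nat.cast_nonneg _
    · exact le_rfl
  | succ m ih =>
    have h1 : ∑ z : Ω, (if z ∈ I then (wk E (m + 1) s z : ℝ) else 0) =
        ∑ y : Ω, (wk E m s y : ℝ) * ({z | z ∈ I ∧ E y z}.ncard : ℝ) := by
      have h2 : ∀ z : Ω, (if z ∈ I then (wk E (m + 1) s z : ℝ) else 0) =
          ∑ y : Ω, (wk E m s y : ℝ) * (if z ∈ I ∧ E y z then 1 else 0) := by
        intro z
        by_cases hz : z ∈ I
        · rw [if_pos hz, wk_succ_real]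
          refine Finset.sum_congr rfl fun y _ => ?_
          by_cases hy : E y z
          · rw [if_pos hy, if_pos ⟨hz, hy⟩]
          · rw [if_neg hy, if_neg (fun h => hy h.2)]
        · rw [if_neg hz]
          symm
          refine Finset.sum_eq_zero fun y _ => ?_
          rw [if_neg (fun h => hz h.1), mul_zero]
      rw [Finset.sum_congr rfl fun z _ => h2 z, Finset.sum_comm]
      refine Finset.sum_congr rfl fun y _ => ?_
      rw [← Finset.mul_sum, card_filter_real]
    rw [h1, pow_succ]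
    calc (N / 2) ^ m * (N / 2) ≤
        (∑ z : Ω, (if z ∈ I then (wk E m s z : ℝ) else 0)) * (N / 2) :=
          mul_le_mul_of_nonneg_right ih (by positivity)
      _ = ∑ z : Ω, (if z ∈ I then (wk E m s z : ℝ) else 0) * (N / 2) := Finset.sum_mul _ _ _
      _ ≤ _ := by
          refine Finset.sum_le_sum fun z _ => ?_
          by_cases hz : z ∈ I
          · rw [if_pos hz]
            exact mul_le_mul_of_nonneg_left (hI z hz) (Nat.cast_nonneg _)
          · rw [if_neg hz, zero_mul]
            positivity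

open Classical in
/-- walks with `m` steps from `U` which end outside -/
noncomputable def lk (E : Ω → Ω → Prop) (U : Set Ω) (m : ℕ) : ℝ :=
  ∑ s : Ω, ∑ z : Ω, (if s ∈ U ∧ z ∉ U then (wk E m s z : ℝ) else 0)

open Classical in
theorem lk_zero (E : Ω → Ω → Prop) (U : Set Ω) : lk E U 0 = 0 := by
  unfold lk
  refine Finset.sum_eq_zero fun s _ => Finset.sum_eq_zero fun z _ => ?_
  by_cases h : s ∈ U ∧ z ∉ U
  · rw [if_pos h]
    simp only [wk]
    rw [if_neg, Nat.cast_zero]
    rintro rfl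
    exact h.2 h.1
  · rw [if_neg h]

open Classical in
theorem lk_succ (E : Ω → Ω → Prop) (U : Set Ω) {N : ℝ} (hN : 0 ≤ N)
    (hin : ∀ t, ({z | E z t}.ncard : ℝ) ≤ N) (hout : ∀ s, ({z | E s z}.ncard : ℝ) ≤ N) (m : ℕ) :
    lk E U (m + 1) ≤ N * lk E U m +
      N ^ m * ({p : Ω × Ω | p.1 ∈ U ∧ p.2 ∉ U ∧ E p.1 p.2}.ncard : ℝ) := by
  -- number of steps from `y` to the complement
  have h1 : lk E U (m + 1) = ∑ y : Ω, (∑ s : Ω, (if s ∈ U then (wk E m s y : ℝ) else 0)) *
      ({z | z ∉ U ∧ E y z}.ncard : ℝ) := by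
    unfold lk
    have h2 : ∀ s z : Ω, (if s ∈ U ∧ z ∉ U then (wk E (m + 1) s z : ℝ) else 0) =
        ∑ y : Ω, (if s ∈ U then (wk E m s y : ℝ) else 0) *
          (if z ∉ U ∧ E y z then 1 else 0) := by
      intro s z
      by_cases hs : s ∈ U
      · by_cases hz : z ∉ U
        · rw [if_pos ⟨hs, hz⟩, wk_succ_real]
          refine Finset.sum_congr rfl fun y _ => ?_
          rw [if_pos hs]
          by_cases hy : E y z
          · rw [if_pos hy, if_pos ⟨hz, hy⟩]
          · rw [if_neg hy, if_neg (fun h => hy h.2)]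
        · rw [if_neg (fun h => hz h.2)]
          symm
          refine Finset.sum_eq_zero fun y _ => ?_
          have hz' : ¬ (z ∉ U ∧ E y z) := fun h => hz h.1
          rw [if_neg hz', mul_zero]
      · rw [if_neg (fun h => hs h.1)]
        symm
        refine Finset.sum_eq_zero fun y _ => ?_
        rw [if_neg hs, zero_mul]
    rw [Finset.sum_congr rfl fun s _ => Finset.sum_congr rfl fun z _ => h2 s z]
    have h3 : ∀ s : Ω, ∑ z : Ω, ∑ y : Ω, (if s ∈ U then (wk E m s y : ℝ) else 0) *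
          (if z ∉ U ∧ E y z then 1 else 0) =
        ∑ y : Ω, (if s ∈ U then (wk E m s y : ℝ) else 0) * ({z | z ∉ U ∧ E y z}.ncard : ℝ) := by
      intro s
      rw [Finset.sum_comm]
      refine Finset.sum_congr rfl fun y _ => ?_
      rw [← Finset.mul_sum, card_filter_real]
    rw [Finset.sum_congr rfl fun s _ => h3 s, Finset.sum_comm]
    refine Finset.sum_congr rfl fun y _ => ?_
    rw [Finset.sum_mul]
  have ha : ∀ y : Ω, 0 ≤ ∑ s : Ω, (if s ∈ U then (wk E m s y : ℝ) else 0) := by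
    intro y
    refine Finset.sum_nonneg fun s _ => ?_
    split_ifs
    · exact Nat.cast_nonneg _
    · exact le_rfl
  have hb : ∀ y : Ω, ∑ s : Ω, (if s ∈ U then (wk E m s y : ℝ) else 0) ≤ N ^ m := by
    intro y
    refine le_trans (Finset.sum_le_sum fun s _ => ?_) (in_total E hN hin m y)
    split_ifs
    · exact le_rfl
    · exact Nat.cast_nonneg _
  have hc : ∀ y : Ω, ({z | z ∉ U ∧ E y z}.ncard : ℝ) ≤ N := by
    intro y
    refine le_trans ?_ (hout y)
    have h3 : {z | z ∉ U ∧ E y z}.ncard ≤ {z | E y z}.ncard :=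
      Set.ncard_le_ncard (fun z (hz : z ∉ U ∧ E y z) => hz.2)
    exact_mod_cast h3
  have hd : lk E U m = ∑ y : Ω, (if y ∉ U then
      ∑ s : Ω, (if s ∈ U then (wk E m s y : ℝ) else 0) else 0) := by
    unfold lk
    rw [Finset.sum_comm]
    refine Finset.sum_congr rfl fun y _ => ?_
    by_cases hy : y ∉ U
    · rw [if_pos hy]
      refine Finset.sum_congr rfl fun s _ => ?_
      by_cases hs : s ∈ U
      · rw [if_pos ⟨hs, hy⟩, if_pos hs]
      · rw [if_neg (fun h => hs h.1), if_neg hs]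
    · rw [if_neg hy]
      refine Finset.sum_eq_zero fun s _ => ?_
      rw [if_neg (fun h => hy h.2)]
  have he : ({p : Ω × Ω | p.1 ∈ U ∧ p.2 ∉ U ∧ E p.1 p.2}.ncard : ℝ) =
      ∑ y : Ω, (if y ∉ U then 0 else ({z | z ∉ U ∧ E y z}.ncard : ℝ)) := by
    rw [ncard_fib]
    push_cast
    refine Finset.sum_congr rfl fun y _ => ?_
    by_cases hy : y ∉ U
    · rw [if_pos hy]
      have : {b | (y, b) ∈ {p : Ω × Ω | p.1 ∈ U ∧ p.2 ∉ U ∧ E p.1 p.2}} = ∅ := by
        ext b
        simp only [Set.mem_ofPred_eq, Set.mem_empty_iff_false, iff_false]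
        exact fun h => hy h.1
      rw [this, Set.ncard_empty, Nat.cast_zero]
    · rw [if_neg hy]
      congr 2
      ext b
      simp only [Set.mem_ofPred_eq]
      exact ⟨fun h => h.2, fun h => ⟨not_not.1 hy, h⟩⟩
  rw [h1, hd, he, Finset.mul_sum, Finset.mul_sum, ← Finset.sum_add_distrib]
  refine Finset.sum_le_sum fun y _ => ?_
  by_cases hy : y ∉ U
  · rw [if_pos hy, if_pos hy, mul_zero, add_zero, mul_comm]
    exact mul_le_mul_of_nonneg_right (hc y) (ha y)
  · rw [if_neg hy, if_neg hy, mul_zero, zero_add]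
    exact mul_le_mul_of_nonneg_right (hb y) (Nat.cast_nonneg _)

theorem lk_le (E : Ω → Ω → Prop) (U : Set Ω) {N : ℝ} (hN : 0 ≤ N)
    (hin : ∀ t, ({z | E z t}.ncard : ℝ) ≤ N) (hout : ∀ s, ({z | E s z}.ncard : ℝ) ≤ N) (m : ℕ) :
    lk E U (m + 1) ≤ (m + 1) * N ^ m *
      ({p : Ω × Ω | p.1 ∈ U ∧ p.2 ∉ U ∧ E p.1 p.2}.ncard : ℝ) := by
  induction m with
  | zero =>
    have h := lk_succ E U hN hin hout 0
    rw [lk_zero, mul_zero, zero_add] at h
    simpa using h
  | succ m ih =>
    have h := lk_succ E U hN hin hout (m + 1)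
    have h2 := mul_le_mul_of_nonneg_left ih hN
    refine le_trans h ?_
    push_cast
    have h3 : N * (((m : ℝ) + 1) * N ^ m *
        ({p : Ω × Ω | p.1 ∈ U ∧ p.2 ∉ U ∧ E p.1 p.2}.ncard : ℝ)) =
        ((m : ℝ) + 1) * N ^ (m + 1) *
        ({p : Ω × Ω | p.1 ∈ U ∧ p.2 ∉ U ∧ E p.1 p.2}.ncard : ℝ) := by
      rw [pow_succ]
      ring
    rw [h3] at h2
    linarith

open Classical in
/-- few states of a closed set `U` lead mostly out of it -/
theorem few_bad (E : Ω → Ω → Prop) {N : ℝ} (hN : 0 < N) (U I : Set Ω) (d : ℕ) {ε' : ℝ}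
    (hin : ∀ t, ({z | E z t}.ncard : ℝ) ≤ N) (hout : ∀ s, ({z | E s z}.ncard : ℝ) ≤ N)
    (hI : ∀ s ∈ I, N / 2 ≤ ({z | z ∈ I ∧ E s z}.ncard : ℝ))
    (hU : ({p : Ω × Ω | p.1 ∈ U ∧ p.2 ∉ U ∧ E p.1 p.2}.ncard : ℝ) ≤ ε' * N ^ (d + 2)) :
    ({s | s ∈ U ∧ s ∈ I ∧ ¬ (1 / 2 : ℝ) ^ (d + 3) * N ^ (d + 1) ≤
      ∑ᶠ z ∈ U, (wk E (d + 1) s z : ℝ)}.ncard : ℝ) ≤
      (d + 1) * 2 ^ (d + 2) * ε' * N ^ (d + 1) := by
  set B : Set Ω := {s | s ∈ U ∧ s ∈ I ∧ ¬ (1 / 2 : ℝ) ^ (d + 3) * N ^ (d + 1) ≤
      ∑ᶠ z ∈ U, (wk E (d + 1) s z : ℝ)} with hB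
  have hfs : ∀ s : Ω, ∑ᶠ z ∈ U, (wk E (d + 1) s z : ℝ) =
      ∑ z : Ω, (if z ∈ U then (wk E (d + 1) s z : ℝ) else 0) := by
    intro s
    have h1 : ∀ z : Ω, ∑ᶠ (_ : z ∈ U), (wk E (d + 1) s z : ℝ) =
        if z ∈ U then (wk E (d + 1) s z : ℝ) else 0 := fun z => finsum_eq_if
    rw [finsum_congr h1, finsum_eq_sum_of_fintype]
  -- every bad state has many walks to the outside
  have hkey : ∀ s ∈ B, (1 / 2 : ℝ) ^ (d + 2) * N ^ (d + 1) ≤
      ∑ z : Ω, (if s ∈ U ∧ z ∉ U then (wk E (d + 1) s z : ℝ) else 0) := by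
    intro s hs
    obtain ⟨hsU, hsI, hs3⟩ := hs
    rw [hfs] at hs3
    push Not at hs3
    have h1 := out_lower E I hI hN.le (d + 1) s hsI
    have h2 : ∑ z : Ω, (if z ∈ I then (wk E (d + 1) s z : ℝ) else 0) ≤
        ∑ z : Ω, (if z ∈ U then (wk E (d + 1) s z : ℝ) else 0) +
        ∑ z : Ω, (if s ∈ U ∧ z ∉ U then (wk E (d + 1) s z : ℝ) else 0) := by
      rw [← Finset.sum_add_distrib]
      refine Finset.sum_le_sum fun z _ => ?_
      have h0 : (0 : ℝ) ≤ (wk E (d + 1) s z : ℝ) := Nat.cast_nonneg _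
      by_cases hz : z ∈ U
      · by_cases hi : z ∈ I
        · simp [hz, hi]
        · simp [hz, hi]
      · by_cases hi : z ∈ I
        · simp [hz, hi, hsU]
        · simp [hz, hi, hsU]
    have h3 : (N / 2) ^ (d + 1) = (1 / 2 : ℝ) ^ (d + 1) * N ^ (d + 1) := by
      rw [div_eq_mul_one_div, mul_comm, mul_pow]
    have h4 : (0 : ℝ) ≤ (1 / 2 : ℝ) ^ (d + 1) * N ^ (d + 1) := by positivity
    have h5 : (1 / 2 : ℝ) ^ (d + 3) * N ^ (d + 1) =
        (1 / 4) * ((1 / 2 : ℝ) ^ (d + 1) * N ^ (d + 1)) := by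
      rw [pow_add (1 / 2 : ℝ) (d + 1) 2]
      ring
    have h6 : (1 / 2 : ℝ) ^ (d + 2) * N ^ (d + 1) =
        (1 / 2) * ((1 / 2 : ℝ) ^ (d + 1) * N ^ (d + 1)) := by
      rw [pow_add (1 / 2 : ℝ) (d + 1) 1]
      ring
    rw [h3] at h1
    rw [h5] at hs3
    rw [h6]
    linarith
  -- sum over the bad states
  have h7 : (B.ncard : ℝ) * ((1 / 2 : ℝ) ^ (d + 2) * N ^ (d + 1)) ≤ lk E U (d + 1) := by
    have h8 : (B.ncard : ℝ) = ∑ s : Ω, (if s ∈ B then (1 : ℝ) else 0) := by
      exact (card_filter_real (fun s => s ∈ B)).symm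
    rw [h8, Finset.sum_mul]
    unfold lk
    refine Finset.sum_le_sum fun s _ => ?_
    by_cases hs : s ∈ B
    · rw [if_pos hs, one_mul]
      exact hkey s hs
    · rw [if_neg hs, zero_mul]
      refine Finset.sum_nonneg fun z _ => ?_
      split_ifs
      · exact Nat.cast_nonneg _
      · exact le_rfl
  have h9 := lk_le E U hN.le hin hout d
  have h10 : ((d : ℝ) + 1) * N ^ d *
      ({p : Ω × Ω | p.1 ∈ U ∧ p.2 ∉ U ∧ E p.1 p.2}.ncard : ℝ) ≤
      ((d : ℝ) + 1) * N ^ d * (ε' * N ^ (d + 2)) :=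
    mul_le_mul_of_nonneg_left hU (by positivity)
  have h11 : (B.ncard : ℝ) * ((1 / 2 : ℝ) ^ (d + 2) * N ^ (d + 1)) ≤
      ((d : ℝ) + 1) * N ^ d * (ε' * N ^ (d + 2)) := le_trans h7 (le_trans h9 h10)
  have h12 : (0 : ℝ) < (1 / 2 : ℝ) ^ (d + 2) * N ^ (d + 1) := by positivity
  have h13 : ((d : ℝ) + 1) * N ^ d * (ε' * N ^ (d + 2)) =
      ((d + 1) * 2 ^ (d + 2) * ε' * N ^ (d + 1)) * ((1 / 2 : ℝ) ^ (d + 2) * N ^ (d + 1)) := by
    have h14 : (2 : ℝ) ^ (d + 2) * (1 / 2 : ℝ) ^ (d + 2) = 1 := by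
      rw [← mul_pow]
      norm_num
    have h15 : N ^ d * N ^ (d + 2) = N ^ (d + 1) * N ^ (d + 1) := by
      rw [← pow_add, ← pow_add]
      congr 1
      omega
    calc ((d : ℝ) + 1) * N ^ d * (ε' * N ^ (d + 2)) =
        ((d : ℝ) + 1) * ε' * (N ^ d * N ^ (d + 2)) := by ring
      _ = ((d : ℝ) + 1) * ε' * (N ^ (d + 1) * N ^ (d + 1)) *
          ((2 : ℝ) ^ (d + 2) * (1 / 2 : ℝ) ^ (d + 2)) := by rw [h14, h15, mul_one]
      _ = _ := by ring
  rw [h13] at h11
  exact le_of_mul_le_mul_right h11 h12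

end abs

end Pool.Agent.KK.H16
end

/-! ### Helper16_KK.Deg -/
section
/-!
# KK row TCL, part 2: degrees of the states, few bad states
-/

set_option autoImplicit false
set_option linter.unusedSectionVars false

open scoped BigOperators

namespace Pool.Agent.KK.H16

section st

variable {V : Type} [Fintype V] [DecidableEq V] (H : Finset (Finset V)) {d : ℕ}

theorem out_le (s : Sta V d) : ({z | St H s z}.ncard : ℝ) ≤ Fintype.card V := by
  have h : {z | St H s z}.ncard ≤ (Set.univ : Set V).ncard := by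
    refine Set.ncard_le_ncard_of_injOn (fun z => z.1 (Fin.last d)) (fun _ _ => Set.mem_univ _) ?_
    rintro z ⟨h1, h2, -⟩ z' ⟨h1', h2', -⟩ h
    have h' : z.1 (Fin.last d) = z'.1 (Fin.last d) := h
    have e1 : z.1 = z'.1 := by
      have q1 : (Fin.snoc (Fin.init z.1) (z.1 (Fin.last d)) : Fin (d + 1) → V) = z.1 :=
        Fin.snoc_init_self z.1
      have q2 : (Fin.snoc (Fin.init z'.1) (z'.1 (Fin.last d)) : Fin (d + 1) → V) = z'.1 :=
        Fin.snoc_init_self z'.1
      rw [← q1, ← q2, h2, h2', h']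
    exact Prod.ext e1 (by rw [h1, h1'])
  rw [Set.ncard_univ, Nat.card_eq_fintype_card] at h
  exact_mod_cast h

theorem in_le (t : Sta V d) : ({z | St H z t}.ncard : ℝ) ≤ Fintype.card V := by
  have h : {z | St H z t}.ncard ≤ (Set.univ : Set V).ncard := by
    refine Set.ncard_le_ncard_of_injOn (fun z => z.1 0) (fun _ _ => Set.mem_univ _) ?_
    rintro z ⟨h1, h2, -⟩ z' ⟨h1', h2', -⟩ h
    have h' : z.1 0 = z'.1 0 := h
    have e1 : z.1 = z'.1 := by
      have q1 : (Fin.cons (z.1 0) (Fin.tail z.1) : Fin (d + 1) → V) = z.1 :=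
        Fin.cons_self_tail z.1
      have q2 : (Fin.cons (z'.1 0) (Fin.tail z'.1) : Fin (d + 1) → V) = z'.1 :=
        Fin.cons_self_tail z'.1
      rw [← q1, ← q2, ← h2, ← h2', h']
    exact Prod.ext e1 (add_right_cancel (h1.symm.trans h1'))
  rw [Set.ncard_univ, Nat.card_eq_fintype_card] at h
  exact_mod_cast h

theorem image_snoc {m : ℕ} (g : Fin m → V) (v : V) :
    Finset.univ.image (Fin.snoc g v : Fin (m + 1) → V) = insert v (Finset.univ.image g) := by
  ext x
  simp only [Finset.mem_image, Finset.mem_univ, true_and, Finset.mem_insert]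
  constructor
  · rintro ⟨i, rfl⟩
    refine Fin.lastCases ?_ (fun j => ?_) i
    · left
      rw [Fin.snoc_last]
    · right
      exact ⟨j, by rw [Fin.snoc_castSucc]⟩
  · rintro (rfl | ⟨j, rfl⟩)
    · exact ⟨Fin.last m, Fin.snoc_last _ _⟩
    · exact ⟨j.castSucc, Fin.snoc_castSucc _ _ _⟩

theorem image_cons {m : ℕ} (g : Fin m → V) (v : V) :
    Finset.univ.image (Fin.cons v g : Fin (m + 1) → V) = insert v (Finset.univ.image g) := by
  ext x
  simp only [Finset.mem_image, Finset.mem_univ, true_and, Finset.mem_insert]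
  constructor
  · rintro ⟨i, rfl⟩
    refine Fin.cases ?_ (fun j => ?_) i
    · left
      rw [Fin.cons_zero]
    · right
      exact ⟨j, by rw [Fin.cons_succ]⟩
  · rintro (rfl | ⟨j, rfl⟩)
    · exact ⟨0, Fin.cons_zero _ _⟩
    · exact ⟨j.succ, Fin.cons_succ _ _ _⟩

theorem dirac_inj (hD : Dirac H (d + 2)) (f : Fin (d + 1) → V) (hf : Function.Injective f) :
    (Fintype.card V : ℝ) / 2 ≤ ((nb H (Finset.univ.image f)).card : ℝ) := by
  have h1 : (Finset.univ.image f).card = d + 2 - 1 := by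
    rw [Finset.card_image_of_injective _ hf, Finset.card_univ, Fintype.card_fin]
    rfl
  have h2 := hD _ h1
  have h3 : (Fintype.card V : ℝ) ≤ 2 * ((nb H (Finset.univ.image f)).card : ℝ) := by
    exact_mod_cast h2
  linarith

theorem out_ge (hD : Dirac H (d + 2)) (s : Sta V d) (hs : Function.Injective s.1) :
    (Fintype.card V : ℝ) / 2 ≤
      ({z : Sta V d | z ∈ {z : Sta V d | Function.Injective z.1} ∧ St H s z}.ncard : ℝ) := by
  refine le_trans (dirac_inj H hD s.1 hs) ?_
  have h : (nb H (Finset.univ.image s.1)).card ≤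
      {z : Sta V d | z ∈ {z : Sta V d | Function.Injective z.1} ∧ St H s z}.ncard := by
    rw [← Set.ncard_coe_finset]
    refine Set.ncard_le_ncard_of_injOn
      (fun v => ((Fin.snoc (Fin.tail s.1) v : Fin (d + 1) → V), s.2 + 1)) ?_ ?_
    · intro v hv
      have hv' := Finset.mem_coe.1 hv
      unfold nb at hv'
      rw [Finset.mem_filter] at hv'
      obtain ⟨-, hv1, hv2⟩ := hv'
      refine ⟨?_, rfl, Fin.init_snoc _ _, ?_⟩
      · change Function.Injective (Fin.snoc (Fin.tail s.1) v : Fin (d + 1) → V)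
        rw [Fin.snoc_injective_iff]
        refine ⟨fun i j hij => Fin.succ_injective _ (hs hij), ?_⟩
        rintro ⟨i, hi⟩
        exact hv1 (Finset.mem_image.2 ⟨i.succ, Finset.mem_univ _, hi⟩)
      · change insert ((Fin.snoc (Fin.tail s.1) v : Fin (d + 1) → V) (Fin.last d))
          (Finset.univ.image s.1) ∈ H
        rw [Fin.snoc_last]
        exact hv2
    · intro v _ w _ h
      have h1 := congrArg (fun z : Sta V d => z.1 (Fin.last d)) h
      simpa using h1
  exact_mod_cast h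

theorem in_ge (hD : Dirac H (d + 2)) (s : Sta V d) (hs : Function.Injective s.1) :
    (Fintype.card V : ℝ) / 2 ≤
      ({z : Sta V d | z ∈ {z : Sta V d | Function.Injective z.1} ∧ St H z s}.ncard : ℝ) := by
  refine le_trans (dirac_inj H hD s.1 hs) ?_
  have hins : ∀ u : V, insert (s.1 (Fin.last d))
      (Finset.univ.image (Fin.cons u (Fin.init s.1) : Fin (d + 1) → V)) =
      insert u (Finset.univ.image s.1) := by
    intro u
    rw [image_cons, Finset.insert_comm, ← image_snoc, Fin.snoc_init_self]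
  have h : (nb H (Finset.univ.image s.1)).card ≤
      {z : Sta V d | z ∈ {z : Sta V d | Function.Injective z.1} ∧ St H z s}.ncard := by
    rw [← Set.ncard_coe_finset]
    refine Set.ncard_le_ncard_of_injOn
      (fun v => ((Fin.cons v (Fin.init s.1) : Fin (d + 1) → V), s.2 - 1)) ?_ ?_
    · intro v hv
      have hv' := Finset.mem_coe.1 hv
      unfold nb at hv'
      rw [Finset.mem_filter] at hv'
      obtain ⟨-, hv1, hv2⟩ := hv'
      refine ⟨?_, (sub_add_cancel _ _).symm,
        (Fin.tail_cons (α := fun _ => V) v (Fin.init s.1)).symm, ?_⟩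
      · change Function.Injective (Fin.cons v (Fin.init s.1) : Fin (d + 1) → V)
        rw [Fin.cons_injective_iff]
        refine ⟨?_, fun i j hij => Fin.castSucc_injective _ (hs hij)⟩
        rintro ⟨i, hi⟩
        exact hv1 (Finset.mem_image.2 ⟨i.castSucc, Finset.mem_univ _, hi⟩)
      · change insert (s.1 (Fin.last d))
          (Finset.univ.image (Fin.cons v (Fin.init s.1) : Fin (d + 1) → V)) ∈ H
        rw [hins]
        exact hv2
    · intro v _ w _ h
      have h1 := congrArg (fun z : Sta V d => z.1 0) h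
      simpa using h1
  exact_mod_cast h

/-- number of tuples with a repetition -/
theorem ninj_tuples (m : ℕ) :
    ({f : Fin (m + 1) → V | ¬ Function.Injective f}.ncard : ℝ) ≤
      ((m : ℝ) + 1) ^ 2 * (Fintype.card V : ℝ) ^ m := by
  have h := ninj (ι := Fin (m + 1)) (V := V) ∅
  have h1 : {f : Fin (m + 1) → V | ¬ Function.Injective f} =
      {f : Fin (m + 1) → V | ¬ (Function.Injective f ∧ ∀ i, f i ∉ (∅ : Finset V))} := by
    ext f
    simp
  rw [h1]
  simp only [Finset.card_empty, mul_zero, add_zero, Fintype.card_fin, Nat.add_sub_cancel] at h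
  have h2 : (({f : Fin (m + 1) → V |
      ¬ (Function.Injective f ∧ ∀ i, f i ∉ (∅ : Finset V))}.ncard : ℕ) : ℝ) ≤
      (((m + 1) ^ 2 * Fintype.card V ^ m : ℕ) : ℝ) := by
    exact_mod_cast h
  push_cast at h2
  exact h2

/-- number of states whose tuple has a repetition -/
theorem ninj_states :
    ({s : Sta V d | ¬ Function.Injective s.1}.ncard : ℝ) ≤
      ((d : ℝ) + 2) * (((d : ℝ) + 1) ^ 2 * (Fintype.card V : ℝ) ^ d) := by
  have h1 : {s : Sta V d | ¬ Function.Injective s.1}.ncard =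
      ∑ _t : ZMod (d + 2), {f : Fin (d + 1) → V | ¬ Function.Injective f}.ncard := by
    rw [ncard_fib']
    rfl
  rw [h1, Finset.sum_const, Finset.card_univ, ZMod.card, nsmul_eq_mul]
  push_cast
  exact mul_le_mul_of_nonneg_left (ninj_tuples d) (by positivity)

/-- the bad states of `U` -/
def Bad (U : Set (Sta V d)) : Set (Sta V d) :=
  {s | s ∈ U ∧ List.ofFn s.1 ∉ tups H U ((1 / 2 : ℝ) ^ (d + 3))}

theorem bad_le (hD : Dirac H (d + 2)) (U : Set (Sta V d)) {ε' : ℝ} (hU : Closed H U ε')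
    (hV : 0 < Fintype.card V) :
    ((Bad H U).ncard : ℝ) ≤
      ((d : ℝ) + 2) * (((d : ℝ) + 1) ^ 2 * (Fintype.card V : ℝ) ^ d) +
      2 * (((d : ℝ) + 1) * 2 ^ (d + 2) * ε' * (Fintype.card V : ℝ) ^ (d + 1)) := by
  have hN : (0 : ℝ) < Fintype.card V := by exact_mod_cast hV
  set I : Set (Sta V d) := {z : Sta V d | Function.Injective z.1} with hI
  set B1 : Set (Sta V d) := {s | s ∈ U ∧ s ∈ I ∧
    ¬ (1 / 2 : ℝ) ^ (d + 3) * (Fintype.card V : ℝ) ^ (d + 1) ≤
      ∑ᶠ z ∈ U, (wk (St H) (d + 1) s z : ℝ)} with hB1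
  set B2 : Set (Sta V d) := {s | s ∈ U ∧ s ∈ I ∧
    ¬ (1 / 2 : ℝ) ^ (d + 3) * (Fintype.card V : ℝ) ^ (d + 1) ≤
      ∑ᶠ z ∈ U, (wk (fun x y => St H y x) (d + 1) s z : ℝ)} with hB2
  have h1 : (B1.ncard : ℝ) ≤ ((d : ℝ) + 1) * 2 ^ (d + 2) * ε' * (Fintype.card V : ℝ) ^ (d + 1) :=
    few_bad (St H) hN U I d (in_le H) (out_le H) (fun s hs => out_ge H hD s hs) hU.1
  have h2 : (B2.ncard : ℝ) ≤ ((d : ℝ) + 1) * 2 ^ (d + 2) * ε' * (Fintype.card V : ℝ) ^ (d + 1) := by
    refine few_bad (fun x y => St H y x) hN U I d (out_le H) (in_le H)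
      (fun s hs => in_ge H hD s hs) ?_
    have h3 : {p : Sta V d × Sta V d | p.1 ∈ U ∧ p.2 ∉ U ∧ St H p.2 p.1}.ncard =
        {p : Sta V d × Sta V d | p.1 ∉ U ∧ p.2 ∈ U ∧ St H p.1 p.2}.ncard :=
      ncard_equiv (Equiv.prodComm _ _) _ _ (fun x => ⟨fun h => ⟨h.2.1, h.1, h.2.2⟩,
        fun h => ⟨h.2.1, h.1, h.2.2⟩⟩)
    rw [h3]
    exact hU.2
  have hsub : Bad H U ⊆ {s : Sta V d | ¬ Function.Injective s.1} ∪ (B1 ∪ B2) := by
    rintro s ⟨hsU, hs⟩
    by_cases hinj : Function.Injective s.1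
    · right
      by_contra hcon
      apply hs
      refine ⟨s.1, s.2, rfl, hinj, ?_, ?_⟩
      · by_contra h
        exact hcon (Or.inl ⟨hsU, hinj, h⟩)
      · by_contra h
        refine hcon (Or.inr ⟨hsU, hinj, fun h' => h ?_⟩)
        unfold GoodB
        have e1 : ∑ᶠ z ∈ U, (wk (fun x y => St H y x) (d + 1) s z : ℝ) =
            ∑ᶠ z ∈ U, (wk (St H) (d + 1) z (s.1, s.2) : ℝ) := by
          refine finsum_congr fun z => ?_
          rw [wk_rev]
        rw [← e1]
        exact h'
    · exact Or.inl hinj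
  have h4 : ((Bad H U).ncard : ℝ) ≤
      ({s : Sta V d | ¬ Function.Injective s.1}.ncard : ℝ) + ((B1.ncard : ℝ) + B2.ncard) := by
    have h5 := Set.ncard_le_ncard hsub
    have h6 := Set.ncard_union_le {s : Sta V d | ¬ Function.Injective s.1} (B1 ∪ B2)
    have h7 := Set.ncard_union_le B1 B2
    have h8 : (Bad H U).ncard ≤
      {s : Sta V d | ¬ Function.Injective s.1}.ncard + (B1.ncard + B2.ncard) := by omega
    exact_mod_cast h8
  have h9 := ninj_states (V := V) (d := d)
  linarith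

end st

end Pool.Agent.KK.H16
end

/-! ### Helper16_KK.Asm -/
section
/-!
# KK row TCL, part 3: tuples and edges without a good ordering
-/

set_option autoImplicit false
set_option linter.unusedSectionVars false

open scoped BigOperators

namespace Pool.Agent.KK.H16

section cnt

variable {V : Type} [Fintype V] [DecidableEq V]

theorem exists_comp {m m' : ℕ} (f : Fin m → V) (g : Fin m' → V)
    (h : Finset.univ.image g ⊆ Finset.univ.image f) : ∃ σ : Fin m' → Fin m, f ∘ σ = g := by
  have h1 : ∀ i, ∃ j, f j = g i := by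
    intro i
    have h2 := h (Finset.mem_image_of_mem g (Finset.mem_univ i))
    rw [Finset.mem_image] at h2
    obtain ⟨j, -, hj⟩ := h2
    exact ⟨j, hj⟩
  choose σ hσ using h1
  exact ⟨σ, funext hσ⟩

theorem ncard_img2 {A B C : Type} [Finite A] [Finite B] (S : Set A) (F : A → B → C) :
    {c | ∃ a ∈ S, ∃ b, F a b = c}.ncard ≤ S.ncard * Nat.card B := by
  have h : {c | ∃ a ∈ S, ∃ b, F a b = c} = (fun p : A × B => F p.1 p.2) '' (S ×ˢ Set.univ) := by
    ext c
    constructor
    · rintro ⟨a, ha, b, hb⟩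
      exact ⟨(a, b), ⟨ha, Set.mem_univ _⟩, hb⟩
    · rintro ⟨p, hp, hc⟩
      exact ⟨p.1, hp.1, p.2, hc⟩
  rw [h]
  refine le_trans (Set.ncard_image_le) ?_
  rw [Set.ncard_prod, Set.ncard_univ]

end cnt

section asm

variable {V : Type} [Fintype V] [DecidableEq V] (H : Finset (Finset V)) {d q : ℕ}

theorem ofFn_mem_tups {U : Set (Sta V d)} {s : Sta V d} (hs : s ∈ U) (hb : s ∉ Bad H U) :
    List.ofFn s.1 ∈ tups H U ((1 / 2 : ℝ) ^ (d + 3)) := by
  by_contra h
  exact hb ⟨hs, h⟩

theorem toFinset_ofFn {m : ℕ} (f : Fin m → V) :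
    (List.ofFn f).toFinset = Finset.univ.image f := by
  ext x
  simp [List.mem_ofFn]

/-- tuples without a rearrangement in a class -/
theorem p2_part (U : Fin q → Set (Sta V d)) {b0 e0 : ℝ}
    (hbad : ∀ i, ((Bad H (U i)).ncard : ℝ) ≤ b0)
    (hA : ({g : Fin (d + 1) → V | ¬ ∃ (i : Fin q) (f : Fin (d + 1) → V) (t : ZMod (d + 2)),
          Finset.univ.image f = Finset.univ.image g ∧ (f, t) ∈ U i}.ncard : ℝ) ≤ e0) :
    ({g : Fin (d + 1) → V | ¬ ∃ i, ∃ l ∈ tups H (U i) ((1 / 2 : ℝ) ^ (d + 3)),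
      l.toFinset = Finset.univ.image g}.ncard : ℝ) ≤
      e0 + q * (b0 * ((d : ℝ) + 1) ^ (d + 1)) := by
  classical
  set A : Set (Fin (d + 1) → V) := {g | ¬ ∃ (i : Fin q) (f : Fin (d + 1) → V) (t : ZMod (d + 2)),
          Finset.univ.image f = Finset.univ.image g ∧ (f, t) ∈ U i} with hAdef
  set B : Fin q → Set (Fin (d + 1) → V) := fun i =>
    {g | ∃ s ∈ Bad H (U i), ∃ σ : Fin (d + 1) → Fin (d + 1), s.1 ∘ σ = g} with hB
  have hsub : {g : Fin (d + 1) → V | ¬ ∃ i, ∃ l ∈ tups H (U i) ((1 / 2 : ℝ) ^ (d + 3)),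
      l.toFinset = Finset.univ.image g} ⊆ A ∪ ⋃ i ∈ (Finset.univ : Finset (Fin q)), B i := by
    intro g hg
    by_cases hgA : g ∈ A
    · exact Or.inl hgA
    · right
      have hgA' : ∃ (i : Fin q) (f : Fin (d + 1) → V) (t : ZMod (d + 2)),
          Finset.univ.image f = Finset.univ.image g ∧ (f, t) ∈ U i := by
        by_contra h
        exact hgA h
      obtain ⟨i, f, t, hfg, hft⟩ := hgA'
      rw [Set.mem_iUnion₂]
      refine ⟨i, Finset.mem_univ i, ?_⟩
      have hbd : ((f, t) : Sta V d) ∈ Bad H (U i) := by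
        by_contra hb
        exact hg ⟨i, List.ofFn f, ofFn_mem_tups H hft hb, by rw [toFinset_ofFn, hfg]⟩
      obtain ⟨σ, hσ⟩ := exists_comp f g (le_of_eq hfg.symm)
      exact ⟨(f, t), hbd, σ, hσ⟩
  have h1 := Set.ncard_le_ncard hsub
  have h2 := Set.ncard_union_le A (⋃ i ∈ (Finset.univ : Finset (Fin q)), B i)
  have h3 := ncard_union_bound (Finset.univ : Finset (Fin q)) B
  have h4 : ∀ i, ((B i).ncard : ℝ) ≤ b0 * ((d : ℝ) + 1) ^ (d + 1) := by
    intro i
    have h5 := ncard_img2 (Bad H (U i)) (fun s (σ : Fin (d + 1) → Fin (d + 1)) => s.1 ∘ σ)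
    have h6 : Nat.card (Fin (d + 1) → Fin (d + 1)) = (d + 1) ^ (d + 1) := by
      rw [Nat.card_eq_fintype_card, Fintype.card_fun, Fintype.card_fin]
    rw [h6] at h5
    have h7 : ((B i).ncard : ℝ) ≤ ((Bad H (U i)).ncard : ℝ) * ((d : ℝ) + 1) ^ (d + 1) := by
      exact_mod_cast h5
    exact le_trans h7 (mul_le_mul_of_nonneg_right (hbad i) (by positivity))
  have h8 : ((∑ i : Fin q, (B i).ncard : ℕ) : ℝ) ≤ q * (b0 * ((d : ℝ) + 1) ^ (d + 1)) := by
    push_cast
    refine le_trans (Finset.sum_le_sum fun i _ => h4 i) ?_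
    rw [Finset.sum_const, Finset.card_univ, Fintype.card_fin, nsmul_eq_mul]
  have h9 : ({g : Fin (d + 1) → V | ¬ ∃ i, ∃ l ∈ tups H (U i) ((1 / 2 : ℝ) ^ (d + 3)),
      l.toFinset = Finset.univ.image g}.ncard : ℝ) ≤
      (A.ncard : ℝ) + ((∑ i : Fin q, (B i).ncard : ℕ) : ℝ) := by
    exact_mod_cast le_trans h1 (le_trans h2 (Nat.add_le_add_left h3 _))
  linarith

/-- edges without a good ordering -/
theorem e1_part (hH : Uni H (d + 2)) (U : Fin q → Set (Sta V d)) {b0 e0 : ℝ}
    (hbad : ∀ i, ((Bad H (U i)).ncard : ℝ) ≤ b0)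
    (hA : ({e : Fin (d + 2) → V | Finset.univ.image e ∈ H ∧ ¬ ∃ (i : Fin q)
        (f : Fin (d + 2) → V) (t : ZMod (d + 2)), Finset.univ.image f = Finset.univ.image e ∧
          (Fin.init f, t) ∈ U i ∧ (Fin.tail f, t + 1) ∈ U i}.ncard : ℝ) ≤ e0) :
    ({e : Fin (d + 2) → V | Finset.univ.image e ∈ H ∧
      ¬ OrdIn H (d + 2) (fun i => tups H (U i) ((1 / 2 : ℝ) ^ (d + 3)))
        (Finset.univ.image e)}.ncard : ℝ) ≤
      e0 + q * (2 * (b0 * Fintype.card V * ((d : ℝ) + 2) ^ (d + 2))) := by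
  classical
  set A : Set (Fin (d + 2) → V) := {e | Finset.univ.image e ∈ H ∧ ¬ ∃ (i : Fin q)
        (f : Fin (d + 2) → V) (t : ZMod (d + 2)), Finset.univ.image f = Finset.univ.image e ∧
          (Fin.init f, t) ∈ U i ∧ (Fin.tail f, t + 1) ∈ U i} with hAdef
  set B : Fin q → Set (Fin (d + 2) → V) := fun i =>
    {g | ∃ p ∈ (Bad H (U i)) ×ˢ (Set.univ : Set V), ∃ σ : Fin (d + 2) → Fin (d + 2),
      (Fin.snoc p.1.1 p.2 : Fin (d + 2) → V) ∘ σ = g} with hB
  set C : Fin q → Set (Fin (d + 2) → V) := fun i =>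
    {g | ∃ p ∈ (Bad H (U i)) ×ˢ (Set.univ : Set V), ∃ σ : Fin (d + 2) → Fin (d + 2),
      (Fin.cons p.2 p.1.1 : Fin (d + 2) → V) ∘ σ = g} with hC
  have hsub : {e : Fin (d + 2) → V | Finset.univ.image e ∈ H ∧
      ¬ OrdIn H (d + 2) (fun i => tups H (U i) ((1 / 2 : ℝ) ^ (d + 3)))
        (Finset.univ.image e)} ⊆ A ∪ ⋃ i ∈ (Finset.univ : Finset (Fin q)), (B i ∪ C i) := by
    rintro e ⟨heH, heO⟩
    by_cases heA : e ∈ A
    · exact Or.inl heA
    · right
      have heA' : ∃ (i : Fin q) (f : Fin (d + 2) → V) (t : ZMod (d + 2)),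
          Finset.univ.image f = Finset.univ.image e ∧
          (Fin.init f, t) ∈ U i ∧ (Fin.tail f, t + 1) ∈ U i := by
        by_contra h
        exact heA ⟨heH, h⟩
      obtain ⟨i, f, t, hfe, hf1, hf2⟩ := heA'
      rw [Set.mem_iUnion₂]
      refine ⟨i, Finset.mem_univ i, ?_⟩
      obtain ⟨σ, hσ⟩ := exists_comp f e (le_of_eq hfe.symm)
      by_cases hb1 : ((Fin.init f, t) : Sta V d) ∈ Bad H (U i)
      · left
        refine ⟨((Fin.init f, t), f (Fin.last (d + 1))), ⟨hb1, Set.mem_univ _⟩, σ, ?_⟩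
        have h1 : (Fin.snoc (Fin.init f) (f (Fin.last (d + 1))) : Fin (d + 2) → V) = f :=
          Fin.snoc_init_self f
        change (Fin.snoc (Fin.init f) (f (Fin.last (d + 1))) : Fin (d + 2) → V) ∘ σ = e
        rw [h1, hσ]
      · by_cases hb2 : ((Fin.tail f, t + 1) : Sta V d) ∈ Bad H (U i)
        · right
          refine ⟨((Fin.tail f, t + 1), f 0), ⟨hb2, Set.mem_univ _⟩, σ, ?_⟩
          have h1 : (Fin.cons (f 0) (Fin.tail f) : Fin (d + 2) → V) = f := Fin.cons_self_tail f
          change (Fin.cons (f 0) (Fin.tail f) : Fin (d + 2) → V) ∘ σ = e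
          rw [h1, hσ]
        · exfalso
          apply heO
          have hinj : Function.Injective f := by
            have h1 := hH _ heH
            rw [← hfe] at h1
            have h2 : (Finset.univ.image f).card = (Finset.univ : Finset (Fin (d + 2))).card := by
              rw [h1, Finset.card_univ, Fintype.card_fin]
            have h3 := Finset.card_image_iff.1 h2
            exact fun x y hxy => h3 (Finset.mem_coe.2 (Finset.mem_univ x))
              (Finset.mem_coe.2 (Finset.mem_univ y)) hxy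
          refine ⟨i, List.ofFn f, by rw [toFinset_ofFn, hfe], List.nodup_ofFn.2 hinj,
            List.length_ofFn, by rw [toFinset_ofFn, hfe]; exact heH, ?_, ?_⟩
          · have h1 : (List.ofFn f).take (d + 2 - 1) = List.ofFn (Fin.init f) := by
              have h2 : (Fin.snoc (Fin.init f) (f (Fin.last (d + 1))) : Fin (d + 2) → V) = f :=
                Fin.snoc_init_self f
              have h3 : List.ofFn f = List.ofFn (Fin.init f) ++ [f (Fin.last (d + 1))] := by
                rw [← H62.ofFn_snoc, h2]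
              rw [h3, List.take_append_of_le_length (by rw [List.length_ofFn]; omega),
                List.take_of_length_le (by rw [List.length_ofFn]; omega)]
            rw [h1]
            exact ofFn_mem_tups H hf1 hb1
          · have h1 : (List.ofFn f).drop 1 = List.ofFn (Fin.tail f) := by
              rw [List.ofFn_succ, List.drop_succ_cons, List.drop_zero]
              rfl
            rw [h1]
            exact ofFn_mem_tups H hf2 hb2
  have h1 := Set.ncard_le_ncard hsub
  have h2 := Set.ncard_union_le A (⋃ i ∈ (Finset.univ : Finset (Fin q)), (B i ∪ C i))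
  have h3 := ncard_union_bound (Finset.univ : Finset (Fin q)) (fun i => B i ∪ C i)
  have h6 : Nat.card (Fin (d + 2) → Fin (d + 2)) = (d + 2) ^ (d + 2) := by
    rw [Nat.card_eq_fintype_card, Fintype.card_fun, Fintype.card_fin]
  have h6' : ∀ i, ((Bad H (U i)) ×ˢ (Set.univ : Set V)).ncard =
      (Bad H (U i)).ncard * Fintype.card V := by
    intro i
    rw [Set.ncard_prod, Set.ncard_univ, Nat.card_eq_fintype_card]
  have h7 : ∀ i, ((Bad H (U i)).ncard : ℝ) * Fintype.card V * ((d : ℝ) + 2) ^ (d + 2) ≤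
      b0 * Fintype.card V * ((d : ℝ) + 2) ^ (d + 2) := fun i =>
    mul_le_mul_of_nonneg_right (mul_le_mul_of_nonneg_right (hbad i) (Nat.cast_nonneg _))
      (by positivity)
  have h4 : ∀ i, ((B i ∪ C i).ncard : ℝ) ≤
      2 * (b0 * Fintype.card V * ((d : ℝ) + 2) ^ (d + 2)) := by
    intro i
    have h5 := ncard_img2 ((Bad H (U i)) ×ˢ (Set.univ : Set V))
      (fun p (σ : Fin (d + 2) → Fin (d + 2)) => (Fin.snoc p.1.1 p.2 : Fin (d + 2) → V) ∘ σ)
    have h5' := ncard_img2 ((Bad H (U i)) ×ˢ (Set.univ : Set V))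
      (fun p (σ : Fin (d + 2) → Fin (d + 2)) => (Fin.cons p.2 p.1.1 : Fin (d + 2) → V) ∘ σ)
    rw [h6, h6' i] at h5 h5'
    have h8 : ((B i).ncard : ℝ) ≤
        ((Bad H (U i)).ncard : ℝ) * Fintype.card V * ((d : ℝ) + 2) ^ (d + 2) := by
      exact_mod_cast h5
    have h9 : ((C i).ncard : ℝ) ≤
        ((Bad H (U i)).ncard : ℝ) * Fintype.card V * ((d : ℝ) + 2) ^ (d + 2) := by
      exact_mod_cast h5'
    have h10 : ((B i ∪ C i).ncard : ℝ) ≤ ((B i).ncard : ℝ) + ((C i).ncard : ℝ) := by
      exact_mod_cast Set.ncard_union_le (B i) (C i)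
    have h11 := h7 i
    linarith
  have h8 : ((∑ i : Fin q, (B i ∪ C i).ncard : ℕ) : ℝ) ≤
      q * (2 * (b0 * Fintype.card V * ((d : ℝ) + 2) ^ (d + 2))) := by
    push_cast
    refine le_trans (Finset.sum_le_sum fun i _ => h4 i) ?_
    rw [Finset.sum_const, Finset.card_univ, Fintype.card_fin, nsmul_eq_mul]
  have h9 : ({e : Fin (d + 2) → V | Finset.univ.image e ∈ H ∧
      ¬ OrdIn H (d + 2) (fun i => tups H (U i) ((1 / 2 : ℝ) ^ (d + 3)))
        (Finset.univ.image e)}.ncard : ℝ) ≤
      (A.ncard : ℝ) + ((∑ i : Fin q, (B i ∪ C i).ncard : ℕ) : ℝ) := by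
    exact_mod_cast le_trans h1 (le_trans h2 (Nat.add_le_add_left h3 _))
  linarith

open Classical in
/-- tuples with few good neighbours -/
theorem p3_part (hD : Dirac H (d + 2)) (hV : 0 < Fintype.card V) (T : Fin q → Set (List V))
    {γ e1 : ℝ} (hγ : 0 < γ)
    (hE : ({e : Fin (d + 2) → V | Finset.univ.image e ∈ H ∧
      ¬ OrdIn H (d + 2) T (Finset.univ.image e)}.ncard : ℝ) ≤ e1) :
    ({f : Fin (d + 1) → V | ((gn H (d + 2) T f).card : ℝ) <
      (1 / 2 - γ) * Fintype.card V}.ncard : ℝ) ≤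
      ((d : ℝ) + 1) ^ 2 * (Fintype.card V : ℝ) ^ d + e1 / (γ * Fintype.card V) := by
  have hN : (0 : ℝ) < Fintype.card V := by exact_mod_cast hV
  set E : Set (Fin (d + 2) → V) := {e | Finset.univ.image e ∈ H ∧
      ¬ OrdIn H (d + 2) T (Finset.univ.image e)} with hEdef
  set F : Set (Fin (d + 1) → V) := {f | γ * Fintype.card V ≤
    ({v : V | (Fin.snoc f v : Fin (d + 2) → V) ∈ E}.ncard : ℝ)} with hF
  have hsub : {f : Fin (d + 1) → V | ((gn H (d + 2) T f).card : ℝ) <
      (1 / 2 - γ) * Fintype.card V} ⊆ {f : Fin (d + 1) → V | ¬ Function.Injective f} ∪ F := by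
    intro f hf
    by_cases hinj : Function.Injective f
    · right
      have h1 := dirac_inj H hD f hinj
      have h2 : ((nb H (Finset.univ.image f) : Finset V) : Set V) ⊆
          ((gn H (d + 2) T f : Finset V) : Set V) ∪ {v : V | (Fin.snoc f v : Fin (d + 2) → V) ∈ E} := by
        intro v hv
        have hv' := Finset.mem_coe.1 hv
        unfold nb at hv'
        rw [Finset.mem_filter] at hv'
        by_cases ho : OrdIn H (d + 2) T (insert v (Finset.univ.image f))
        · left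
          rw [Finset.mem_coe]
          unfold gn
          rw [Finset.mem_filter]
          exact ⟨Finset.mem_univ _, ho⟩
        · right
          refine ⟨?_, ?_⟩
          · rw [image_snoc]
            exact hv'.2.2
          · rw [image_snoc]
            exact ho
      have h3 := Set.ncard_le_ncard h2
      have h4 := Set.ncard_union_le ((gn H (d + 2) T f : Finset V) : Set V)
        {v : V | (Fin.snoc f v : Fin (d + 2) → V) ∈ E}
      rw [Set.ncard_coe_finset] at h3 h4
      have h5 : ((nb H (Finset.univ.image f)).card : ℝ) ≤ ((gn H (d + 2) T f).card : ℝ) +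
          ({v : V | (Fin.snoc f v : Fin (d + 2) → V) ∈ E}.ncard : ℝ) := by
        exact_mod_cast le_trans h3 h4
      have h6 : ((gn H (d + 2) T f).card : ℝ) < (1 / 2 - γ) * Fintype.card V := hf
      change γ * Fintype.card V ≤ ({v : V | (Fin.snoc f v : Fin (d + 2) → V) ∈ E}.ncard : ℝ)
      have h7 : (1 / 2 - γ) * (Fintype.card V : ℝ) = (Fintype.card V : ℝ) / 2 -
        γ * Fintype.card V := by ring
      rw [h7] at h6
      linarith
    · exact Or.inl hinj
  -- the set F
  have hFle : (F.ncard : ℝ) * (γ * Fintype.card V) ≤ (E.ncard : ℝ) := by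
    have h1 : {p : (Fin (d + 1) → V) × V | (Fin.snoc p.1 p.2 : Fin (d + 2) → V) ∈ E}.ncard ≤
        E.ncard := by
      refine Set.ncard_le_ncard_of_injOn (fun p => (Fin.snoc p.1 p.2 : Fin (d + 2) → V))
        (fun p hp => hp) ?_
      intro p _ p' _ h
      have h2 := congrArg Fin.init h
      have h3 := congrFun h (Fin.last (d + 1))
      simp only [Fin.init_snoc, Fin.snoc_last] at h2 h3
      exact Prod.ext h2 h3
    have h4 : ({p : (Fin (d + 1) → V) × V | (Fin.snoc p.1 p.2 : Fin (d + 2) → V) ∈ E}.ncard : ℝ) =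
        ∑ f : Fin (d + 1) → V, ({v : V | (Fin.snoc f v : Fin (d + 2) → V) ∈ E}.ncard : ℝ) := by
      rw [ncard_fib]
      push_cast
      rfl
    have h5 : (F.ncard : ℝ) = ∑ f : Fin (d + 1) → V, (if f ∈ F then (1 : ℝ) else 0) :=
      (card_filter_real (fun f => f ∈ F)).symm
    have h6 : (F.ncard : ℝ) * (γ * Fintype.card V) ≤
        ∑ f : Fin (d + 1) → V, ({v : V | (Fin.snoc f v : Fin (d + 2) → V) ∈ E}.ncard : ℝ) := by
      rw [h5, Finset.sum_mul]
      refine Finset.sum_le_sum fun f _ => ?_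
      by_cases hf : f ∈ F
      · rw [if_pos hf, one_mul]
        exact hf
      · rw [if_neg hf, zero_mul]
        exact Nat.cast_nonneg _
    have h7 : ({p : (Fin (d + 1) → V) × V | (Fin.snoc p.1 p.2 : Fin (d + 2) → V) ∈ E}.ncard : ℝ) ≤
        (E.ncard : ℝ) := by exact_mod_cast h1
    rw [← h4] at h6
    exact le_trans h6 h7
  have h8 : (F.ncard : ℝ) ≤ e1 / (γ * Fintype.card V) := by
    rw [le_div_iff₀ (by positivity)]
    exact le_trans hFle hE
  have h9 := ninj_tuples (V := V) d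
  have h10 : ({f : Fin (d + 1) → V | ((gn H (d + 2) T f).card : ℝ) <
      (1 / 2 - γ) * Fintype.card V}.ncard : ℝ) ≤
      ({f : Fin (d + 1) → V | ¬ Function.Injective f}.ncard : ℝ) + (F.ncard : ℝ) := by
    exact_mod_cast le_trans (Set.ncard_le_ncard hsub) (Set.ncard_union_le _ _)
  linarith

/-- many tuples -/
theorem size_part (U : Set (Sta V d)) {b0 u1 : ℝ} (hbad : ((Bad H U).ncard : ℝ) ≤ b0)
    (hU : u1 ≤ (U.ncard : ℝ)) :
    u1 - b0 ≤ ((d : ℝ) + 2) * ({f : Fin (d + 1) → V |
      List.ofFn f ∈ tups H U ((1 / 2 : ℝ) ^ (d + 3))}.ncard : ℝ) := by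
  set S : Set (Fin (d + 1) → V) := {f | List.ofFn f ∈ tups H U ((1 / 2 : ℝ) ^ (d + 3))} with hS
  have hsub : U ⊆ Bad H U ∪ (S ×ˢ (Set.univ : Set (ZMod (d + 2)))) := by
    intro s hs
    by_cases hb : s ∈ Bad H U
    · exact Or.inl hb
    · exact Or.inr ⟨ofFn_mem_tups H hs hb, Set.mem_univ _⟩
  have h1 := le_trans (Set.ncard_le_ncard hsub) (Set.ncard_union_le _ _)
  rw [Set.ncard_prod, Set.ncard_univ, Nat.card_eq_fintype_card, ZMod.card] at h1
  have h2 : (U.ncard : ℝ) ≤ ((Bad H U).ncard : ℝ) + (S.ncard : ℝ) * ((d : ℝ) + 2) := by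
    exact_mod_cast h1
  linarith

theorem wk_shift (m : ℕ) (a b : Fin (d + 1) → V) (t t' δ : ZMod (d + 2)) :
    wk (St H) m (a, t + δ) (b, t' + δ) = wk (St H) m (a, t) (b, t') := by
  rw [H62.wk_eq, H62.wk_eq]
  congr 1
  ext x
  simp only [Set.mem_ofPred_eq]
  have h : t' + δ = t + δ + (m : ZMod (d + 2)) ↔ t' = t + (m : ZMod (d + 2)) := by
    constructor
    · intro h
      have h1 : t' + δ = (t + m) + δ := by rw [h]; ring
      exact add_right_cancel h1
    · intro h
      rw [h]
      ring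
  rw [h]

/-- goodness does not depend on the time if the class is invariant under time shifts -/
theorem good_shift {U : Set (Sta V d)}
    (hU : ∀ (f : Fin (d + 1) → V) (t t' : ZMod (d + 2)), (f, t) ∈ U → (f, t') ∈ U) {c : ℝ}
    (f : Fin (d + 1) → V) (t t' : ZMod (d + 2)) :
    (GoodF H U c (f, t) → GoodF H U c (f, t')) ∧ (GoodB H U c (f, t) → GoodB H U c (f, t')) := by
  let e : Sta V d ≃ Sta V d := Equiv.prodCongr (Equiv.refl _) (Equiv.addRight (t' - t))
  have he : ∀ z : Sta V d, e z = (z.1, z.2 + (t' - t)) := fun z => rfl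
  have hmem : ∀ z : Sta V d, (e z ∈ U) = (z ∈ U) := by
    intro z
    apply propext
    rw [he]
    exact ⟨fun h => hU _ _ _ h, fun h => hU _ _ _ h⟩
  have ht : t' = t + (t' - t) := by ring
  constructor
  · intro h
    unfold GoodF at h ⊢
    have h1 : ∑ᶠ z ∈ U, (wk (St H) (d + 1) (f, t') z : ℝ) =
        ∑ᶠ z ∈ U, (wk (St H) (d + 1) (f, t) z : ℝ) := by
      rw [← finsum_comp_equiv e]
      refine finsum_congr fun z => ?_
      have h2 : wk (St H) (d + 1) (f, t') (e z) = wk (St H) (d + 1) (f, t) z := by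
        rw [he]
        have h3 := wk_shift H (d + 1) f z.1 t z.2 (t' - t)
        rw [← ht] at h3
        exact h3
      rw [h2, hmem]
    rw [h1]
    exact h
  · intro h
    unfold GoodB at h ⊢
    have h1 : ∑ᶠ z ∈ U, (wk (St H) (d + 1) z (f, t') : ℝ) =
        ∑ᶠ z ∈ U, (wk (St H) (d + 1) z (f, t) : ℝ) := by
      rw [← finsum_comp_equiv e]
      refine finsum_congr fun z => ?_
      have h2 : wk (St H) (d + 1) (e z) (f, t') = wk (St H) (d + 1) z (f, t) := by
        rw [he]
        have h3 := wk_shift H (d + 1) z.1 f z.2 t (t' - t)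
        rw [← ht] at h3
        exact h3
      rw [h2, hmem]
    rw [h1]
    exact h

end asm

end Pool.Agent.KK.H16
end

/-! ### Helper16_KK.TCL -/
section
/-!
# KK row TCL: from states to classes of tuples
-/

set_option autoImplicit false
set_option linter.unusedSectionVars false

open scoped BigOperators

namespace Pool.Agent.KK.H16

theorem consts (d q : ℕ) (u₀ γ : ℝ) (hq : 0 < q) (hu : 0 < u₀) (hγ : 0 < γ) :
    ∃ γ' ε' : ℝ, 0 < γ' ∧ 0 < ε' ∧ γ' ≤ γ ∧ γ' ≤ u₀ / 2 ∧
      (q : ℝ) * (γ' * ((d : ℝ) + 1) ^ (d + 1)) ≤ γ / 2 ∧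
      (q : ℝ) * (2 * (γ' * ((d : ℝ) + 2) ^ (d + 2))) ≤ γ ^ 2 / 4 ∧
      2 * (((d : ℝ) + 1) * 2 ^ (d + 2) * ε') ≤ γ' / 2 ∧ ε' ≤ γ / 2 ∧ ε' ≤ γ ^ 2 / 4 := by
  have hq' : (0 : ℝ) < q := by exact_mod_cast hq
  have hA : (0 : ℝ) < q * ((d : ℝ) + 1) ^ (d + 1) := by positivity
  have hB : (0 : ℝ) < q * (2 * ((d : ℝ) + 2) ^ (d + 2)) := by positivity
  have hC : (0 : ℝ) < 2 * (((d : ℝ) + 1) * 2 ^ (d + 2)) := by positivity
  set γ' : ℝ := min (min γ (u₀ / 2)) (min (γ / 2 / (q * ((d : ℝ) + 1) ^ (d + 1)))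
    (γ ^ 2 / 4 / (q * (2 * ((d : ℝ) + 2) ^ (d + 2))))) with hγ'
  have hpos : 0 < γ' := by
    rw [hγ']
    refine lt_min (lt_min hγ (by positivity)) (lt_min (by positivity) (by positivity))
  set ε' : ℝ := min (γ' / 2 / (2 * (((d : ℝ) + 1) * 2 ^ (d + 2)))) (min (γ / 2) (γ ^ 2 / 4))
    with hε'
  have hposε : 0 < ε' := by
    rw [hε']
    exact lt_min (by positivity) (lt_min (by positivity) (by positivity))
  refine ⟨γ', ε', hpos, hposε, le_trans (min_le_left _ _) (min_le_left _ _),
    le_trans (min_le_left _ _) (min_le_right _ _), ?_, ?_, ?_,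
    le_trans (min_le_right _ _) (min_le_left _ _),
    le_trans (min_le_right _ _) (min_le_right _ _)⟩
  · have h : γ' ≤ γ / 2 / (q * ((d : ℝ) + 1) ^ (d + 1)) :=
      le_trans (min_le_right _ _) (min_le_left _ _)
    rw [le_div_iff₀ hA] at h
    calc (q : ℝ) * (γ' * ((d : ℝ) + 1) ^ (d + 1)) = γ' * (q * ((d : ℝ) + 1) ^ (d + 1)) := by ring
      _ ≤ γ / 2 := h
  · have h : γ' ≤ γ ^ 2 / 4 / (q * (2 * ((d : ℝ) + 2) ^ (d + 2))) :=
      le_trans (min_le_right _ _) (min_le_right _ _)
    rw [le_div_iff₀ hB] at h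
    calc (q : ℝ) * (2 * (γ' * ((d : ℝ) + 2) ^ (d + 2))) =
        γ' * (q * (2 * ((d : ℝ) + 2) ^ (d + 2))) := by ring
      _ ≤ γ ^ 2 / 4 := h
  · have h : ε' ≤ γ' / 2 / (2 * (((d : ℝ) + 1) * 2 ^ (d + 2))) := min_le_left _ _
    rw [le_div_iff₀ hC] at h
    calc 2 * (((d : ℝ) + 1) * 2 ^ (d + 2) * ε') = ε' * (2 * (((d : ℝ) + 1) * 2 ^ (d + 2))) := by
          ring
      _ ≤ γ' / 2 := h

theorem disj_of_list {V : Type} {m m' : ℕ} (f : Fin m → V) (g : Fin m' → V)
    (h : (List.ofFn f).Disjoint (List.ofFn g)) : Disjoint (Set.range f) (Set.range g) := by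
  rw [Set.disjoint_left]
  rintro x ⟨i, rfl⟩ ⟨j, hj⟩
  exact h (List.mem_ofFn.2 ⟨i, rfl⟩) (List.mem_ofFn.2 ⟨j, hj⟩)

theorem tcl (hJ : JonStmt) : TclStmt := by
  intro d q u₀ β ε hd hq hβ hε hu hβ2
  obtain ⟨M, cJ, nJ, hcJ, hJON⟩ := hJ d ε β ((1 / 2 : ℝ) ^ (d + 3)) u₀ hε hβ hβ2 hu
  have hu0 : 0 < u₀ := by linarith
  refine ⟨M, min cJ (u₀ / (2 * ((d : ℝ) + 2))), lt_min hcJ (by positivity), ?_⟩
  intro γ hγ
  obtain ⟨γ', ε', hγ', hε', h1, h2, h3, h4, h5, h6, h7⟩ := consts d q u₀ γ hq hu0 hγ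
  obtain ⟨na, hna⟩ := exists_nat_ge (((d : ℝ) + 2) * ((d : ℝ) + 1) ^ 2 / (γ' / 2))
  obtain ⟨nb', hnb⟩ := exists_nat_ge (((d : ℝ) + 1) ^ 2 / (γ / 2))
  refine ⟨ε', max (max nJ 1) (max na nb'), hε', ?_⟩
  intro V _ _ H U i₀ hn hUni hD hsize hInd hCl hshift hA hE
  have hn1 : nJ ≤ Fintype.card V := le_trans (le_trans (le_max_left _ _) (le_max_left _ _)) hn
  have hn2 : 0 < Fintype.card V := le_trans (le_trans (le_max_right _ _) (le_max_left _ _)) hn
  have hn3 : na ≤ Fintype.card V := le_trans (le_trans (le_max_left _ _) (le_max_right _ _)) hn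
  have hn4 : nb' ≤ Fintype.card V := le_trans (le_trans (le_max_right _ _) (le_max_right _ _)) hn
  have hN : (0 : ℝ) < Fintype.card V := by exact_mod_cast hn2
  have hN3 : ((d : ℝ) + 2) * ((d : ℝ) + 1) ^ 2 ≤ γ' / 2 * (Fintype.card V : ℝ) := by
    have h : ((d : ℝ) + 2) * ((d : ℝ) + 1) ^ 2 / (γ' / 2) ≤ (Fintype.card V : ℝ) :=
      le_trans hna (by exact_mod_cast hn3)
    rw [div_le_iff₀ (by positivity)] at h
    linarith
  have hN4 : ((d : ℝ) + 1) ^ 2 ≤ γ / 2 * (Fintype.card V : ℝ) := by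
    have h : ((d : ℝ) + 1) ^ 2 / (γ / 2) ≤ (Fintype.card V : ℝ) :=
      le_trans hnb (by exact_mod_cast hn4)
    rw [div_le_iff₀ (by positivity)] at h
    linarith
  set N : ℝ := (Fintype.card V : ℝ) with hNdef
  -- the bad states
  have hbad : ∀ i, ((Bad H (U i)).ncard : ℝ) ≤ γ' * N ^ (d + 1) := by
    intro i
    have h := bad_le H hD (U i) (hCl i) hn2
    have e1 : ((d : ℝ) + 2) * (((d : ℝ) + 1) ^ 2 * N ^ d) ≤ γ' / 2 * N ^ (d + 1) := by
      calc ((d : ℝ) + 2) * (((d : ℝ) + 1) ^ 2 * N ^ d) =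
          (((d : ℝ) + 2) * ((d : ℝ) + 1) ^ 2) * N ^ d := by ring
        _ ≤ (γ' / 2 * N) * N ^ d := mul_le_mul_of_nonneg_right hN3 (by positivity)
        _ = γ' / 2 * N ^ (d + 1) := by ring
    have e2 : 2 * (((d : ℝ) + 1) * 2 ^ (d + 2) * ε' * N ^ (d + 1)) ≤ γ' / 2 * N ^ (d + 1) := by
      calc 2 * (((d : ℝ) + 1) * 2 ^ (d + 2) * ε' * N ^ (d + 1)) =
          (2 * (((d : ℝ) + 1) * 2 ^ (d + 2) * ε')) * N ^ (d + 1) := by ring
        _ ≤ γ' / 2 * N ^ (d + 1) := mul_le_mul_of_nonneg_right h5 (by positivity)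
    rw [← hNdef] at h
    linarith
  have hJoin : ∀ (i : Fin q) (a b : Fin (d + 1) → V) (t t' : ZMod (d + 2)), Function.Injective a →
        Function.Injective b → Disjoint (Set.range a) (Set.range b) →
        GoodF H (U i) ((1 / 2 : ℝ) ^ (d + 3)) (a, t) →
        GoodB H (U i) ((1 / 2 : ℝ) ^ (d + 3)) (b, t') →
        ∃ m ≤ M, t' = t + m + (d + 1) ∧
          min cJ (u₀ / (2 * ((d : ℝ) + 2))) * N ^ m ≤
            con H (d + 2) m (List.ofFn a) (List.ofFn b) := by
    intro i a b t t' ha hb hab hF hB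
    obtain ⟨m, hm, ht, hc⟩ := hJON V H hn1 hUni (U i) (hsize i) (hInd i) a b t t' ha hb hab hF hB
    refine ⟨m, hm, ht, le_trans ?_ hc⟩
    exact mul_le_mul_of_nonneg_right (min_le_left _ _) (by positivity)
  refine ⟨?_, ?_, ?_, ?_, ?_, ?_, ?_⟩
  · -- Tup
    rintro i a ⟨f, t, rfl, hf, -, -⟩
    exact ⟨List.length_ofFn, List.nodup_ofFn.2 hf⟩
  · -- Joins
    rintro i a ⟨f, t, rfl, hf, hfF, -⟩ b ⟨g, t', rfl, hg, -, hgB⟩ hab
    obtain ⟨m, hm, -, hc⟩ := hJoin i f g t t' hf hg (disj_of_list f g hab) hfF hgB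
    exact ⟨m, hm, hc⟩
  · -- JoinsAll
    rintro a ⟨f, t, rfl, hf, hfF, -⟩ b ⟨g, t', rfl, hg, -, hgB⟩ hab s
    have hF0 := (good_shift H hshift (c := (1 / 2 : ℝ) ^ (d + 3)) f t 0).1 hfF
    have hB0 := (good_shift H hshift (c := (1 / 2 : ℝ) ^ (d + 3)) g t'
      ((s : ZMod (d + 2)) + (d + 1))).2 hgB
    obtain ⟨m, hm, ht, hc⟩ := hJoin i₀ f g 0 ((s : ZMod (d + 2)) + (d + 1)) hf hg
      (disj_of_list f g hab) hF0 hB0
    refine ⟨m, hm, ?_, hc⟩
    rw [zero_add] at ht
    have ht' : ((m : ℕ) : ZMod (d + 2)) = ((s : ℕ) : ZMod (d + 2)) := (add_right_cancel ht).symm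
    exact (ZMod.natCast_eq_natCast_iff _ _ _).1 ht'
  · -- size
    intro i
    have h := size_part H (U i) (hbad i) (hsize i)
    have hge : u₀ / 2 * N ^ (d + 1) ≤ u₀ * N ^ (d + 1) - γ' * N ^ (d + 1) := by
      have h8 : γ' * N ^ (d + 1) ≤ u₀ / 2 * N ^ (d + 1) :=
        mul_le_mul_of_nonneg_right h2 (by positivity)
      linarith
    have h9 : u₀ / 2 * N ^ (d + 1) ≤ ((d : ℝ) + 2) * ({f : Fin (d + 1) → V |
      List.ofFn f ∈ tups H (U i) ((1 / 2 : ℝ) ^ (d + 3))}.ncard : ℝ) := by
      exact le_trans hge h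
    have h10 : min cJ (u₀ / (2 * ((d : ℝ) + 2))) * N ^ (d + 1) ≤
        u₀ / (2 * ((d : ℝ) + 2)) * N ^ (d + 1) :=
      mul_le_mul_of_nonneg_right (min_le_right _ _) (by positivity)
    refine le_trans h10 ?_
    have h11 : u₀ / (2 * ((d : ℝ) + 2)) * N ^ (d + 1) =
        (u₀ / 2 * N ^ (d + 1)) / ((d : ℝ) + 2) := by
      field_simp
    rw [h11, div_le_iff₀ (by positivity)]
    linarith
  · -- P2
    have h := p2_part H U hbad hA
    have h8 : ε' * N ^ (d + 1) + q * (γ' * N ^ (d + 1) * ((d : ℝ) + 1) ^ (d + 1)) ≤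
        γ * N ^ (d + 1) := by
      calc ε' * N ^ (d + 1) + q * (γ' * N ^ (d + 1) * ((d : ℝ) + 1) ^ (d + 1)) =
          (ε' + q * (γ' * ((d : ℝ) + 1) ^ (d + 1))) * N ^ (d + 1) := by ring
        _ ≤ γ * N ^ (d + 1) := mul_le_mul_of_nonneg_right (by linarith) (by positivity)
    exact le_trans h h8
  · -- P3
    have h := e1_part H hUni U hbad hE
    have h8 : ε' * N ^ (d + 2) + q * (2 * (γ' * N ^ (d + 1) * N * ((d : ℝ) + 2) ^ (d + 2))) ≤
        γ ^ 2 / 2 * N ^ (d + 2) := by
      calc ε' * N ^ (d + 2) + q * (2 * (γ' * N ^ (d + 1) * N * ((d : ℝ) + 2) ^ (d + 2))) =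
          (ε' + q * (2 * (γ' * ((d : ℝ) + 2) ^ (d + 2)))) * N ^ (d + 2) := by ring
        _ ≤ γ ^ 2 / 2 * N ^ (d + 2) := mul_le_mul_of_nonneg_right (by linarith) (by positivity)
    have h9 := p3_part H hD hn2 (fun i => tups H (U i) ((1 / 2 : ℝ) ^ (d + 3))) hγ
      (le_trans h h8)
    have h10 : γ ^ 2 / 2 * N ^ (d + 2) / (γ * N) = γ / 2 * N ^ (d + 1) := by
      rw [div_eq_iff (by positivity)]
      ring
    have h11 : ((d : ℝ) + 1) ^ 2 * N ^ d ≤ γ / 2 * N ^ (d + 1) := by
      calc ((d : ℝ) + 1) ^ 2 * N ^ d ≤ (γ / 2 * N) * N ^ d :=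
          mul_le_mul_of_nonneg_right hN4 (by positivity)
        _ = γ / 2 * N ^ (d + 1) := by ring
    rw [← hNdef, h10] at h9
    have h12 : ((d : ℝ) + 1) ^ 2 * N ^ d + γ / 2 * N ^ (d + 1) ≤ γ * N ^ (d + 1) := by linarith
    exact le_trans h9 h12
  · intro i
    refine le_trans (hbad i) ?_
    exact mul_le_mul_of_nonneg_right h1 (by positivity)

end Pool.Agent.KK.H16
end

/-! ### Helper84_KK.G_KND -/
section
set_option autoImplicit false

namespace Pool.Agent.KK.E.H84

open Pool.Agent.KK Pool.Agent.KK.E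

theorem blk_getD (k t i : ℕ) : (blk k t).getD i false = decide (i < t) := by
  unfold blk
  rw [List.getD_eq_getElem?_getD]
  by_cases h : i < t
  · rw [List.getElem?_append_left (by simpa using h)]
    simp [h]
  · rw [List.getElem?_append_right (by simpa using h)]
    simp only [List.getElem?_replicate, List.length_replicate]
    split_ifs <;> simp [h]

theorem per_blk (k t a m : ℕ) (ht : t ≤ k) :
    per (blk k t) a m = (List.range m).map fun i => decide ((a + i) % k < t) := by
  unfold per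
  apply List.map_congr_left
  intro i _
  rw [blk_getD]
  congr 2
  have : (blk k t).length = k := by simp [blk]; omega
  rw [this]

theorem low_per (p q : ℕ) : low p q = per (blk (p + q + 2) p) (p + 2) (p + q + 1) := by
  rw [per_blk _ _ _ _ (by omega)]
  apply List.ext_getElem
  · simp [low]; omega
  · intro i h1 h2
    have hi : i < p + q + 1 := by simpa using h2
    simp only [low, List.getElem_append, List.getElem_replicate, List.length_append,
      List.length_replicate, List.getElem_singleton, List.getElem_map, List.getElem_range]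
    have key : (p + 2 + i) % (p + q + 2) = if i < q then p + 2 + i else i - q := by
      split_ifs with h
      · exact Nat.mod_eq_of_lt (by omega)
      · have : p + 2 + i = (i - q) + (p + q + 2) := by omega
        rw [this, Nat.add_mod_right]
        exact Nat.mod_eq_of_lt (by omega)
    rw [key]
    split_ifs <;> symm <;> simp <;> omega

theorem high_per (p q : ℕ) : high p q = per (blk (p + q + 2) (p + 2)) (p + 1) (p + q + 1) := by
  rw [per_blk _ _ _ _ (by omega)]
  have e : high p q = [true] ++ List.replicate q false ++ List.replicate p true := by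
    simp [high]
  rw [e]
  apply List.ext_getElem
  · simp; omega
  · intro i h1 h2
    have hi : i < p + q + 1 := by simpa using h2
    simp only [List.getElem_append, List.getElem_replicate, List.length_append,
      List.length_replicate, List.getElem_singleton, List.getElem_map, List.getElem_range,
      List.length_singleton]
    have key : (p + 1 + i) % (p + q + 2) = if i < q + 1 then p + 1 + i else i - q - 1 := by
      split_ifs with h
      · exact Nat.mod_eq_of_lt (by omega)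
      · have : p + 1 + i = (i - q - 1) + (p + q + 2) := by omega
        rw [this, Nat.add_mod_right]
        exact Nat.mod_eq_of_lt (by omega)
    rw [key]
    split_ifs <;> symm <;> simp <;> omega

theorem mixR_per (p q μ : ℕ) (hμ : μ ≤ p + 1) :
    (List.replicate (μ + 1) true ++ List.replicate q false ++
      List.replicate p true).take (p + q + 1) =
      per (blk (p + q + 2) (p + 2)) (p + 1 - μ) (p + q + 1) := by
  rw [per_blk _ _ _ _ (by omega)]
  apply List.ext_getElem
  · simp; omega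
  · intro i h1 h2
    have hi : i < p + q + 1 := by simpa using h2
    simp only [List.getElem_take, List.getElem_append, List.getElem_replicate, List.length_append,
      List.length_replicate, List.getElem_map, List.getElem_range]
    have key : (p + 1 - μ + i) % (p + q + 2) =
        if i < μ + 1 + q then p + 1 - μ + i else i - μ - q - 1 := by
      split_ifs with h
      · exact Nat.mod_eq_of_lt (by omega)
      · have : p + 1 - μ + i = (i - μ - q - 1) + (p + q + 2) := by omega
        rw [this, Nat.add_mod_right]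
        exact Nat.mod_eq_of_lt (by omega)
    rw [key]
    split_ifs <;> symm <;> simp <;> omega

theorem mixL_per (p q μ : ℕ) (hμ : μ ≤ q + 1) :
    ((List.replicate (μ + 1) false ++ List.replicate p true ++
      List.replicate q false).take (p + q + 1)).reverse =
      per (blk (p + q + 2) p) (p + 2 + μ) (p + q + 1) := by
  rw [per_blk _ _ _ _ (by omega)]
  apply List.ext_getElem
  · simp
  · intro i h1 h2
    have hi : i < p + q + 1 := by simpa using h2
    have hlen : ((List.replicate (μ + 1) false ++ List.replicate p true ++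
      List.replicate q false).take (p + q + 1)).length = p + q + 1 := by
      simp
    simp only [List.getElem_reverse, hlen, List.getElem_take, List.getElem_append,
      List.getElem_replicate, List.length_append,
      List.length_replicate, List.getElem_map, List.getElem_range]
    have key : (p + 2 + μ + i) % (p + q + 2) =
        if μ + i < q then p + 2 + μ + i else μ + i - q := by
      split_ifs with h
      · exact Nat.mod_eq_of_lt (by omega)
      · have : p + 2 + μ + i = (μ + i - q) + (p + q + 2) := by omega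
        rw [this, Nat.add_mod_right]
        exact Nat.mod_eq_of_lt (by omega)
    rw [key]
    split_ifs <;> symm <;> simp <;> omega

theorem wt_low (p q : ℕ) : wt (low p q) = p := by
  simp [wt, low, List.count_replicate]

theorem wt_high (p q : ℕ) : wt (high p q) = p + 1 := by
  simp [wt, high, List.count_replicate]

theorem len_low (p q : ℕ) : (low p q).length = p + q + 1 := by
  simp [low]; omega

theorem len_high (p q : ℕ) : (high p q).length = p + q + 1 := by
  simp [high]; omega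

/-- Pigeonhole over finitely many classes. -/
theorem pig {V ι : Type} [DecidableEq V] [Fintype ι] (cls : ι → Finset V → Prop) (C : Finset V)
    (K B : ℕ) (hB : Fintype.card ι * K + C.card ≤ B) (P : Finset V → Prop)
    (hP : ∀ F : Finset V, F.card ≤ B → ∃ M, P M ∧ Disjoint M F)
    (hcls : ∀ M, P M → Disjoint M C → ∃ i, cls i M) :
    ∃ i, ∀ Z : Finset V, Z.card ≤ K → ∃ M, P M ∧ cls i M ∧ Disjoint M Z := by
  classical
  by_contra hcon
  push Not at hcon
  choose Z hZ hZ' using hcon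
  have hcard : (Finset.univ.biUnion Z ∪ C).card ≤ B := by
    refine le_trans (Finset.card_union_le _ _) (le_trans (Nat.add_le_add_right ?_ _) hB)
    exact Finset.card_biUnion_le_card_mul _ _ K (fun i _ => hZ i)
  obtain ⟨M, hM, hMF⟩ := hP _ hcard
  rw [Finset.disjoint_union_right] at hMF
  obtain ⟨i, hi⟩ := hcls M hM hMF.2
  exact hZ' i M hM hi (Finset.disjoint_of_subset_right
    (Finset.subset_biUnion_of_mem Z (Finset.mem_univ i)) hMF.1)

theorem g_knd (h05 : StmtG05) (h06 : StmtG06) (h07 : StmtG07) (h09 : StmtG09) (h14 : StmtG14) :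
    StmtG15 := by
  classical
  intro V _ _ H X C p q K δ h ε η θ hpq hA hCst h0 hC hCc hgood
  set B : ℕ := (p + q + 5) * (K + 1) with hB
  have hKB : ∀ Z : Finset V, Z.card ≤ K → Z.card ≤ B := by
    intro Z hZ
    have h1 : K ≤ B := by
      rw [hB]
      nlinarith
    omega
  let cls : Fin 3 ⊕ (Fin p ⊕ Fin q) → Finset V → Prop := fun i M =>
    match i with
    | Sum.inl 0 => (M ∩ X).card = 1 ∧ (M \ X).card = 1
    | Sum.inl 1 => 2 ≤ (M \ X).card ∧ (M ∩ X).Nonempty
    | Sum.inl 2 => 2 ≤ (M ∩ X).card ∧ (M \ X).Nonempty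
    | Sum.inr (Sum.inl μ) => M ⊆ X ∧ M.card = (μ : ℕ) + 2 ∧
        θ M.card < Mix H X M (p + 1 - M.card) q
    | Sum.inr (Sum.inr μ) => M ⊆ Xᶜ ∧ M.card = (μ : ℕ) + 2 ∧
        θ M.card < Mix H X M p (q + 1 - M.card)
  have hpig := pig cls C K B (by
    simp only [Fintype.card_sum, Fintype.card_fin]
    rw [hB]
    nlinarith) (fun M => GoodM H X p q η θ M) hgood (by
    rintro M ⟨hMst, hcase⟩ hMC
    rcases hcase with ⟨h1, h2⟩ | ⟨h1, h2, h3, h4⟩ | ⟨h1, h2, h3, h4⟩
    · have c1 := h1.card_pos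
      have c2 := h2.card_pos
      by_cases d1 : 2 ≤ (M ∩ X).card
      · exact ⟨Sum.inl 2, d1, h2⟩
      · by_cases d2 : 2 ≤ (M \ X).card
        · exact ⟨Sum.inl 1, d2, h1⟩
        · exact ⟨Sum.inl 0, by omega, by omega⟩
    · have c1 := h1.card_pos
      by_cases d1 : 2 ≤ M.card
      · exact ⟨Sum.inr (Sum.inl ⟨M.card - 2, by omega⟩), h2, by simp; omega, h4⟩
      · exfalso
        obtain ⟨v, rfl⟩ := Finset.card_eq_one.mp (by omega : M.card = 1)
        exact (Finset.disjoint_left.mp hMC (Finset.mem_singleton_self v)) ((hC v).mpr hMst.1)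
    · have c1 := h1.card_pos
      by_cases d1 : 2 ≤ M.card
      · exact ⟨Sum.inr (Sum.inr ⟨M.card - 2, by omega⟩), h2, by simp; omega, h4⟩
      · exfalso
        obtain ⟨v, rfl⟩ := Finset.card_eq_one.mp (by omega : M.card = 1)
        exact (Finset.disjoint_left.mp hMC (Finset.mem_singleton_self v)) ((hC v).mpr hMst.1))
  obtain ⟨i, hi⟩ := hpig
  have hNon : ∀ M, GoodM H X p q η θ M → (M ∩ X).card ≤ p + 1 ∧ (M \ X).card ≤ q + 1 :=
    fun M hM => ⟨hM.1.1.1, hM.1.1.2.1⟩
  match i with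
  | Sum.inl 0 =>
    left
    intro m₁ m₂ hlen hwt Z hZ
    obtain ⟨M, hM, ⟨c1, c2⟩, hMZ⟩ := hi Z hZ
    exact h07 V H X M Z p q B δ h ε η θ m₁ m₂ hpq hA hCst hM.1 (hKB Z hZ) hMZ c1 c2 (by omega)
      (by omega)
  | Sum.inl 1 =>
    right; left
    refine ⟨?_, ?_, ?_⟩
    · obtain ⟨M, hM, ⟨c1, c2⟩, hMZ⟩ := hi ∅ (by simp)
      have := (hNon M hM).2
      omega
    · intro m hm hw Z hZ
      obtain ⟨M, hM, ⟨c1, c2⟩, hMZ⟩ := hi Z hZ
      exact (h05 V H X M Z p q B δ h ε η θ m hA hCst hM.1 (hKB Z hZ) hMZ (by omega)).1 c1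
        (by omega)
    · refine ⟨p + 2, List.replicate (q + 1) false ++ List.replicate (p + 1) true, high p q, ?_, ?_,
        ?_, ?_, ?_⟩
      · simp; omega
      · simp; omega
      · rw [len_high]; omega
      · left; rw [wt_high]
      · have e1 : per (blk (p + q + 2) (p + 1 - 1)) (p + 2) (p + q + 2 - 1) = low p q := by
          rw [low_per]; congr 1
        rw [e1]
        intro Z hZ
        obtain ⟨M, hM, ⟨c1, c2⟩, hMZ⟩ := hi Z hZ
        exact h06 V H X M Z p q B δ h ε η θ hA hCst hM.1 (hKB Z hZ) hMZ c2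
          (Finset.card_pos.mp (by omega))
  | Sum.inl 2 =>
    right; right
    refine ⟨?_, ?_, ?_⟩
    · obtain ⟨M, hM, ⟨c1, c2⟩, hMZ⟩ := hi ∅ (by simp)
      have := (hNon M hM).1
      omega
    · intro m hm hw Z hZ
      obtain ⟨M, hM, ⟨c1, c2⟩, hMZ⟩ := hi Z hZ
      exact (h05 V H X M Z p q B δ h ε η θ m hA hCst hM.1 (hKB Z hZ) hMZ (by omega)).2 c1
        (by omega)
    · refine ⟨p + 1, low p q, List.replicate (q + 1) false ++ List.replicate (p + 1) true, ?_, ?_,
        ?_, ?_, ?_⟩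
      · simp; omega
      · simp; omega
      · rw [len_low]; omega
      · left; rw [wt_low]
      · have e1 : per (blk (p + q + 2) (p + 1 + 1)) (p + 1) (p + q + 2 - 1) = high p q := by
          rw [high_per]; congr 1
        rw [e1]
        intro Z hZ
        obtain ⟨M, hM, ⟨c1, c2⟩, hMZ⟩ := hi Z hZ
        exact h06 V H X M Z p q B δ h ε η θ hA hCst hM.1 (hKB Z hZ) hMZ
          (Finset.card_pos.mp (by omega)) c2
  | Sum.inr (Sum.inl μ) =>
    have hμ := μ.isLt
    right; right
    refine ⟨by omega, ?_, ?_⟩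
    · intro m hm hw Z hZ
      obtain ⟨M, hM, ⟨c1, c2, c3⟩, hMZ⟩ := hi Z hZ
      exact (h05 V H X M Z p q B δ h ε η θ m hA hCst hM.1 (hKB Z hZ) hMZ (by omega)).2
        (by rw [Finset.inter_eq_left.mpr c1]; omega) (by omega)
    · refine ⟨p + 1 - ((μ : ℕ) + 2), low p q, List.replicate (q + 1) false ++
        List.replicate (p + 2) true ++ List.replicate q false ++
          List.replicate (p + 1 - ((μ : ℕ) + 2)) true, ?_, ?_, ?_, ?_, ?_⟩
      · simp; omega
      · simp; omega
      · rw [len_low]; omega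
      · left; rw [wt_low]
      · have e1 : per (blk (p + q + 2) (p + 1 + 1)) (p + 1 - ((μ : ℕ) + 2)) (p + q + 2 - 1) =
            (List.replicate ((μ : ℕ) + 2 + 1) true ++ List.replicate q false ++
              List.replicate p true).take (p + q + 1) := by
          rw [mixR_per p q ((μ : ℕ) + 2) (by omega)]; congr 1
        rw [e1]
        intro Z hZ
        obtain ⟨M, hM, ⟨c1, c2, c3⟩, hMZ⟩ := hi Z hZ
        rw [← c2]
        exact h09 V H X M Z p q B δ h ε η θ hA hCst hM.1 (hKB Z hZ) hMZ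
          (Finset.card_pos.mp (by omega)) c1 (by omega) c3
  | Sum.inr (Sum.inr μ) =>
    have hμ := μ.isLt
    right; left
    refine ⟨by omega, ?_, ?_⟩
    · intro m hm hw Z hZ
      obtain ⟨M, hM, ⟨c1, c2, c3⟩, hMZ⟩ := hi Z hZ
      have c4 : M \ X = M := by
        rw [Finset.sdiff_eq_self_iff_disjoint]
        exact Finset.disjoint_left.mpr fun v hv hvX => (Finset.mem_compl.mp (c1 hv)) hvX
      exact (h05 V H X M Z p q B δ h ε η θ m hA hCst hM.1 (hKB Z hZ) hMZ (by omega)).1
        (by rw [c4]; omega) (by omega)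
    · refine ⟨p + 2 + ((μ : ℕ) + 2), List.replicate (q + 1 - ((μ : ℕ) + 2)) false ++
        List.replicate p true ++ List.replicate (q + 2) false ++ List.replicate (p + 1) true,
        high p q, ?_, ?_, ?_, ?_, ?_⟩
      · simp; omega
      · simp; omega
      · rw [len_high]; omega
      · left; rw [wt_high]
      · have e1 : per (blk (p + q + 2) (p + 1 - 1)) (p + 2 + ((μ : ℕ) + 2)) (p + q + 2 - 1) =
            ((List.replicate ((μ : ℕ) + 2 + 1) false ++ List.replicate p true ++
              List.replicate q false).take (p + q + 1)).reverse := by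
          rw [mixL_per p q ((μ : ℕ) + 2) (by omega)]; congr 1
        rw [e1]
        intro Z hZ
        obtain ⟨M, hM, ⟨c1, c2, c3⟩, hMZ⟩ := hi Z hZ
        rw [← c2]
        exact h14 V H X M Z p q B δ h ε η θ hA hCst hM.1 (hKB Z hZ) hMZ
          (Finset.card_pos.mp (by omega)) c1 (by omega) c3

end Pool.Agent.KK.E.H84
end
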