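import Pool.Agent.KKM.Base

/-! # MP_747bc0_co, merged modules -/

/-! ### Helper80_KK.STR -/
section
/-! MP_747bc0_co, block B, row STR: the structure theorem. -/

namespace Pool.Agent.KK.B.H80

open Function
open scoped Classical

theorem wdet_mono' {k : ℕ} {V : Type} [Fintype V] {ν ν' : ℝ} (h : ν ≤ ν') {X : V → Prop}
    {D : Fin k → (Fin k → V) → Prop} (hW : WDet ν X D) : WDet ν' X D := by
  intro i W
  rcases hW i W with h1 | h1
  · exact Or.inl (h1.trans h)
  · exact Or.inr (h1.trans h)

theorem triv_mono {k : ℕ} {V : Type} [Fintype V] {ν ν' : ℝ} (h : ν ≤ ν')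
    {D : Fin k → (Fin k → V) → Prop} (hT : Triv ν D) : Triv ν' D := by
  rcases hT with h1 | h1
  · exact Or.inl fun i => (h1 i).trans h
  · exact Or.inr fun i => (h1 i).trans h

/-- the minimum of five numbers -/
theorem ex_min5' {c1 c2 c3 c4 c5 : ℝ} (h1 : 0 < c1) (h2 : 0 < c2) (h3 : 0 < c3) (h4 : 0 < c4)
    (h5 : 0 < c5) : ∃ x : ℝ, 0 < x ∧ x ≤ c1 ∧ x ≤ c2 ∧ x ≤ c3 ∧ x ≤ c4 ∧ x ≤ c5 := by
  refine ⟨min c1 (min c2 (min c3 (min c4 c5))), ?_, ?_, ?_, ?_, ?_, ?_⟩
  · exact lt_min h1 (lt_min h2 (lt_min h3 (lt_min h4 h5)))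
  · exact min_le_left _ _
  · exact (min_le_right _ _).trans (min_le_left _ _)
  · exact (min_le_right _ _).trans ((min_le_right _ _).trans (min_le_left _ _))
  · exact (min_le_right _ _).trans ((min_le_right _ _).trans ((min_le_right _ _).trans
      (min_le_left _ _)))
  · exact (min_le_right _ _).trans ((min_le_right _ _).trans ((min_le_right _ _).trans
      (min_le_right _ _)))

/-- the sequence of scales -/
theorem ex_seq (f : ℝ → ℝ) (hf : ∀ x, 0 < x → 0 < f x) (ν : ℝ) (hν : 0 < ν) :
    ∃ u : ℕ → ℝ, u 0 = ν ∧ (∀ m, 0 < u m) ∧ ∀ m, u (m + 1) = f (u m) := by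
  refine ⟨fun m => f^[m] ν, rfl, ?_, ?_⟩
  · intro m
    induction m with
    | zero => exact hν
    | succ m ih =>
      show 0 < f^[m + 1] ν
      rw [Function.iterate_succ_apply']
      exact hf _ ih
  · intro m
    exact Function.iterate_succ_apply' f m ν

/-- pigeonhole for the scales: `n` numbers miss one of `n + 1` disjoint intervals -/
theorem pigeon (u : ℕ → ℝ) (hu : ∀ m, u (m + 1) ≤ u m) (n : ℕ) (t : ℕ → ℝ) :
    ∃ m ≤ n, ∀ j < n, ¬ (u (m + 1) < t j ∧ t j < u m) := by
  by_contra hcon
  push Not at hcon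
  have h1 : ∀ m : Fin (n + 1), ∃ j : Fin n, u (m + 1) < t j ∧ t j < u m := by
    intro m
    obtain ⟨j, hj, h⟩ := hcon m (Nat.lt_succ_iff.1 m.2)
    exact ⟨⟨j, hj⟩, h⟩
  choose c hc using h1
  have hanti : ∀ a b : ℕ, a ≤ b → u b ≤ u a := by
    intro a b hab
    induction hab with
    | refl => exact le_rfl
    | step _ ih => exact (hu _).trans ih
  have hinj : Function.Injective c := by
    intro a b hab
    by_contra hne
    have h2 := hc a
    have h3 := hc b
    rw [hab] at h2
    rcases lt_or_gt_of_ne (fun h : (a : ℕ) = b => hne (Fin.ext h)) with h4 | h4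
    · have h5 := hanti (a + 1) b h4
      linarith [h2.1, h3.2]
    · have h5 := hanti (b + 1) a h4
      linarith [h3.1, h2.2]
  have h6 := Fintype.card_le_of_injective c hinj
  rw [Fintype.card_fin, Fintype.card_fin] at h6
  omega

/-- the density of the tuples of a given type -/
theorem dens_typ {k : ℕ} {V : Type} [Fintype V] [Nonempty V] (X : V → Prop)
    (hX : |dens X - 1 / 2| ≤ 1 / 8) (j : ℕ) (hj : j ≤ k) :
    (1 / 4 : ℝ) ^ k ≤ dens (fun a : Fin k → V => typ X a = j) := by
  have hX' := abs_le.1 hX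
  obtain ⟨J, -, hJc⟩ := Finset.exists_subset_card_eq (s := (Finset.univ : Finset (Fin k)))
    (n := j) (by rw [Finset.card_univ, Fintype.card_fin]; exact hj)
  have h1 : (1 / 4 : ℝ) ^ k ≤ dens (fun a : Fin k → V => ∀ m, (X (a m) ↔ m ∈ J)) := by
    rw [dens_pi (fun (m : Fin k) (v : V) => (X v ↔ m ∈ J))]
    calc (1 / 4 : ℝ) ^ k = ∏ _m : Fin k, (1 / 4 : ℝ) := by
          rw [Finset.prod_const, Finset.card_univ, Fintype.card_fin]
      _ ≤ ∏ m : Fin k, dens (fun v => (X v ↔ m ∈ J)) := by
          refine Finset.prod_le_prod (fun _ _ => by norm_num) fun m _ => ?_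
          by_cases hm : m ∈ J
          · have h2 : dens (fun v => (X v ↔ m ∈ J)) = dens X :=
              dens_congr fun v => ⟨fun h => h.2 hm, fun h => ⟨fun _ => hm, fun _ => h⟩⟩
            rw [h2]
            linarith
          · have h2 : dens (fun v => (X v ↔ m ∈ J)) = dens (fun v => ¬ X v) :=
              dens_congr fun v => ⟨fun h hx => hm (h.1 hx), fun h => ⟨fun hx => absurd hx h,
                fun h' => absurd h' hm⟩⟩
            rw [h2, dens_not]
            linarith
  refine h1.trans (dens_mono fun a ha => ?_)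
  unfold typ
  rw [← hJc]
  congr 1
  ext m
  rw [Finset.mem_filter]
  exact ⟨fun h => (ha m).1 h.2, fun h => ⟨Finset.mem_univ _, (ha m).2 h⟩⟩

theorem str (uni : UniStmt) (msx : MsxStmt) (mis : MisStmt) (nbr : NbrStmt) : StrStmt := by
  intro k hk b hb
  have hkR : (3 : ℝ) ≤ k := by exact_mod_cast hk
  have hk0 : (0 : ℝ) < k := by linarith
  have hU : ∀ x : ℝ, ∃ ε : ℝ, 0 < ε ∧ (0 < x →
      ∀ (V : Type) [Fintype V] [Nonempty V] (E : (Fin k → V) → Prop) (X : V → Prop) (j : ℕ),
      Symm E → Deg E → 1 ≤ j → j ≤ k - 1 → |dens X - 1 / 2| ≤ ε → tden E X j ≤ ε →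
      ∀ D : Fin k → (Fin k → V) → Prop, Indep D → Closed E ε D → WDet x X D) := by
    intro x
    by_cases hx : 0 < x
    · obtain ⟨ε, hε, h⟩ := uni k x (by omega) hx
      exact ⟨ε, hε, fun _ => h⟩
    · exact ⟨1, one_pos, fun h => absurd h hx⟩
  choose εU hεU hUspec using hU
  obtain ⟨b', hb'⟩ : ∃ b' : ℝ → ℝ, b' = fun x => min (b x) (x / 2 ^ (k + 3)) := ⟨_, rfl⟩
  have hb'pos : ∀ x, 0 < x → 0 < b' x := by
    intro x hx
    rw [hb']
    exact lt_min (hb x hx) (by positivity)
  have hb'b : ∀ x, b' x ≤ b x := by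
    intro x
    rw [hb']
    exact min_le_left _ _
  have hb'x : ∀ x, b' x ≤ x / 2 ^ (k + 3) := by
    intro x
    rw [hb']
    exact min_le_right _ _
  refine ⟨fun x => if 0 < x then min (εU (b' x)) (x / 2 ^ (k + 3)) else 1, ?_, ?_⟩
  · intro x hx
    show 0 < (if 0 < x then min (εU (b' x)) (x / 2 ^ (k + 3)) else 1)
    rw [if_pos hx]
    exact lt_min (hεU _) (by positivity)
  intro g hg ν hν
  -- the step of the scales
  have hstep : ∀ x : ℝ, ∃ y : ℝ, (0 < x → 0 < y ∧ y ≤ x / 2 ∧ y ≤ g x ∧ y ≤ (g x / (3 * k)) ^ 2 ∧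
      y ≤ εU (b' x) ∧ y ≤ (1 / (8 * k * 4 ^ k)) ^ 2) := by
    intro x
    by_cases hx : 0 < x
    · have hgx := hg x hx
      obtain ⟨y, h0, h1, h2, h3, h4, h5⟩ := ex_min5' (c1 := x / 2) (c2 := g x)
        (c3 := (g x / (3 * k)) ^ 2) (c4 := εU (b' x)) (c5 := (1 / (8 * k * 4 ^ k)) ^ 2)
        (by positivity) hgx (by positivity) (hεU _) (by positivity)
      exact ⟨y, fun _ => ⟨h0, h1, h2, h3, h4, h5⟩⟩
    · exact ⟨0, fun h => absurd h hx⟩
  choose f hf using hstep
  obtain ⟨u, hu0, hupos, husucc⟩ := ex_seq f (fun x hx => (hf x hx).1) (min ν 1)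
    (lt_min hν one_pos)
  have hu : ∀ m, u (m + 1) ≤ u m / 2 ∧ u (m + 1) ≤ g (u m) ∧
      u (m + 1) ≤ (g (u m) / (3 * k)) ^ 2 ∧ u (m + 1) ≤ εU (b' (u m)) ∧
      u (m + 1) ≤ (1 / (8 * k * 4 ^ k)) ^ 2 := by
    intro m
    rw [husucc m]
    exact (hf (u m) (hupos m)).2
  have hanti1 : ∀ m, u (m + 1) ≤ u m := by
    intro m
    have h1 := (hu m).1
    have h2 := hupos m
    linarith
  have hanti : ∀ a b : ℕ, a ≤ b → u b ≤ u a := by
    intro a b hab
    induction hab with
    | refl => exact le_rfl
    | step _ ih => exact (hanti1 _).trans ih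
  have huν : ∀ m, u m ≤ ν := by
    intro m
    refine (hanti 0 m (Nat.zero_le m)).trans ?_
    rw [hu0]
    exact min_le_left _ _
  have hu1 : ∀ m, u m ≤ 1 := by
    intro m
    refine (hanti 0 m (Nat.zero_le m)).trans ?_
    rw [hu0]
    exact min_le_right _ _
  obtain ⟨εM, hεM, hM⟩ := msx k (u (k + 2)) hk (hupos _)
  refine ⟨min εM (u (k + 2)), (Finset.range (k + 3)).image u, lt_min hεM (hupos _), ?_, ?_⟩
  · intro x hx
    obtain ⟨m, _, rfl⟩ := Finset.mem_image.1 hx
    exact ⟨hupos m, huν m⟩
  intro V _ _ E hS hD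
  by_cases hI : ∀ D : Fin k → (Fin k → V) → Prop, Indep D → Closed E (min εM (u (k + 2))) D →
      Triv ν D
  · exact Or.inl hI
  right
  push Not at hI
  obtain ⟨D0, hI0, hC0, hT0⟩ := hI
  obtain ⟨X, j0, hj01, hj0k, hX, htj0⟩ := hM V E D0 hS hD hI0 (le_trans hC0 (min_le_left _ _))
    (fun h => hT0 (triv_mono (huν _) h))
  obtain ⟨m, hmk, hm⟩ := pigeon u hanti1 (k + 1) (fun j => tden E X j)
  have hK : u (k + 2) ≤ u (m + 1) := hanti _ _ (by omega)
  obtain ⟨h2, hgm, hg2, hεm, h8⟩ := hu m
  have hpos := hupos (m + 1)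
  have hsq : Real.sqrt (u (m + 1)) ≤ 1 / (8 * k * 4 ^ k) := by
    rw [← Real.sqrt_sq (show (0 : ℝ) ≤ 1 / (8 * k * 4 ^ k) by positivity)]
    exact Real.sqrt_le_sqrt h8
  have hsqg : 3 * (k : ℝ) * Real.sqrt (u (m + 1)) ≤ g (u m) := by
    have hgx := hg _ (hupos m)
    have h3 : Real.sqrt (u (m + 1)) ≤ g (u m) / (3 * k) := by
      rw [← Real.sqrt_sq (show (0 : ℝ) ≤ g (u m) / (3 * k) by positivity)]
      exact Real.sqrt_le_sqrt hg2
    rw [le_div_iff₀ (by positivity)] at h3
    linarith
  have hXm : |dens X - 1 / 2| ≤ u (m + 1) := hX.trans hK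
  have hX8 : |dens X - 1 / 2| ≤ 1 / 8 := by
    refine hXm.trans (h8.trans ?_)
    have h4 : (1 : ℝ) ≤ 4 ^ k := one_le_pow₀ (by norm_num)
    have h5 : (8 : ℝ) ≤ 8 * k * 4 ^ k := by nlinarith
    have h6 : (1 / (8 * k * 4 ^ k) : ℝ) ≤ 1 / 8 := one_div_le_one_div_of_le (by norm_num) h5
    have h7 : (0 : ℝ) ≤ 1 / (8 * k * 4 ^ k) := by positivity
    nlinarith
  obtain ⟨F, hF⟩ : ∃ F : Finset ℕ, F = (Finset.range (k + 1)).filter
    (fun j => tden E X j ≤ u (m + 1)) := ⟨_, rfl⟩
  have memF : ∀ j, j ∈ F ↔ j < k + 1 ∧ tden E X j ≤ u (m + 1) := by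
    intro j
    rw [hF, Finset.mem_filter, Finset.mem_range]
  have hlarge : ∀ j, j ≤ k → j ∉ F → u m ≤ tden E X j := by
    intro j hjk hjF
    rw [memF] at hjF
    push Not at hjF
    have h3 := hjF (by omega)
    by_contra h4
    push Not at h4
    exact hm j (by omega) ⟨h3, h4⟩
  have hj0F : j0 ∈ F := (memF j0).2 ⟨by omega, htj0.trans hK⟩
  refine ⟨X, u m, F, Finset.mem_image_of_mem u (Finset.mem_range.2 (by omega)), hXm.trans hgm, ?_,
    ⟨j0, hj0F, hj01, hj0k⟩, ?_, ?_, hlarge, ?_, ?_, ?_⟩
  · intro j hj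
    have := ((memF j).1 hj).1
    omega
  · -- no two consecutive elements
    intro j hj hj'
    rw [memF] at hj hj'
    have h3 := (nbr k V E X j (u (m + 1)) (by omega) hD hpos hXm hj.2).1
    have h4 := dens_typ (k := k) X hX8 (j + 1) (by omega)
    have h5 : dens (fun a : Fin k → V => typ X a = j + 1) ≤
        tden E X (j + 1) + dens (fun e => typ X e = j + 1 ∧ ¬ E e) := by
      unfold tden
      refine (dens_mono fun e he => ?_).trans (dens_or_le _ _)
      by_cases hE : E e
      · exact Or.inl ⟨hE, he⟩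
      · exact Or.inr ⟨he, hE⟩
    have h6 := hj'.2
    have h7 : u (m + 1) ≤ Real.sqrt (u (m + 1)) := by
      have h9 := Real.mul_self_sqrt hpos.le
      have h10 : Real.sqrt (u (m + 1)) ≤ 1 := Real.sqrt_le_one.2 (hu1 _)
      have h11 := Real.sqrt_nonneg (u (m + 1))
      nlinarith
    have h12 : (1 / (8 * k * 4 ^ k) : ℝ) = (1 / 4 : ℝ) ^ k / (8 * k) := by
      rw [div_pow, one_pow]
      field_simp
    rw [h12, le_div_iff₀ (by positivity)] at hsq
    have h13 : (0 : ℝ) < (1 / 4 : ℝ) ^ k := by positivity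
    have h14 := Real.sqrt_nonneg (u (m + 1))
    nlinarith
  · intro j hj
    exact ((memF j).1 hj).2.trans hgm
  · intro j hj
    exact (nbr k V E X j (u (m + 1)) (by omega) hD hpos hXm ((memF j).1 hj).2).1.trans hsqg
  · intro j hj hj1
    have h3 := (memF j).1 hj
    exact ((nbr k V E X j (u (m + 1)) (by omega) hD hpos hXm h3.2).2 hj1 (by omega)).trans hsqg
  · intro D hID hCD
    have hCD' : Closed E (min (εU (b' (u m))) (u m / 2 ^ (k + 3))) D := by
      have h3 : (if 0 < u m then min (εU (b' (u m))) (u m / 2 ^ (k + 3)) else 1) =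
          min (εU (b' (u m))) (u m / 2 ^ (k + 3)) := if_pos (hupos m)
      have h4 : Closed E (if 0 < u m then min (εU (b' (u m))) (u m / 2 ^ (k + 3)) else 1) D := hCD
      rwa [h3] at h4
    have hW := hUspec (b' (u m)) (hb'pos _ (hupos m)) V E X j0 hS hD hj01 hj0k (hXm.trans hεm)
      ((htj0.trans hK).trans hεm) D hID (le_trans hCD' (min_le_left _ _))
    refine ⟨wdet_mono' (hb'b _) hW, ?_⟩
    intro W hWF i l
    by_contra hne
    have h5 := mis k V E D X (u m / 2 ^ (k + 3)) (b' (u m)) i l W hS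
      (le_trans hCD' (min_le_right _ _)) hW hne
    have hwk : wt W ≤ k := by
      unfold wt
      refine (Finset.card_le_univ _).trans ?_
      rw [Fintype.card_fin]
    have h6 := hlarge (wt W) hwk hWF
    have h7 := hb'x (u m)
    have h9 : (2 : ℝ) ^ (k + 3) = 8 * 2 ^ k := by rw [pow_add]; norm_num; ring
    have h10 := hupos m
    have h11 : (2 : ℝ) ^ k * (u m / 2 ^ (k + 3) + 2 * b' (u m)) ≤ 3 / 8 * u m := by
      have h12 : (0 : ℝ) < 2 ^ k := by positivity
      calc (2 : ℝ) ^ k * (u m / 2 ^ (k + 3) + 2 * b' (u m))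
          ≤ (2 : ℝ) ^ k * (u m / 2 ^ (k + 3) + 2 * (u m / 2 ^ (k + 3))) := by
            apply mul_le_mul_of_nonneg_left _ h12.le
            linarith
        _ = 3 / 8 * u m := by
            rw [h9]
            field_simp
            ring
    linarith

end Pool.Agent.KK.B.H80
end

/-! ### Helper19_KK.CNV -/
section
/-! Squad KK, row B_CNV: dictionary between states and labelled tuples. -/

set_option autoImplicit false

namespace Pool.Agent.KK.B.H19

open Function
open scoped Classical

section
variable {V : Type} {d : ℕ}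

theorem idx_last (i : Fin (d + 2)) : i + 1 + Fin.last (d + 1) = i := by
  rw [add_assoc, add_comm 1, Fin.last_add_one, add_zero]

theorem idx_step (i : Fin (d + 2)) (m m' : Fin (d + 2)) (h : m + 1 = m') :
    i + 1 + 1 + m = i + 1 + m' := by
  rw [← h, add_assoc (i + 1), add_comm 1 m]

/-- value of the next state at the last coordinate -/
theorem st_last (i : Fin (d + 2)) (e : Fin (d + 2) → V) :
    (stOf (i + 1) e).1 (Fin.last d) = e i := by
  show e (i + 1 + 1 + (Fin.last d).castSucc) = e i
  rw [idx_step i _ (Fin.last (d + 1)) (by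
    rw [Fin.coeSucc_eq_succ, Fin.succ_last]), idx_last]

theorem st_init (i : Fin (d + 2)) (e : Fin (d + 2) → V) :
    Fin.init (stOf (i + 1) e).1 = Fin.tail (stOf i e).1 := by
  funext j
  show e (i + 1 + 1 + (j.castSucc).castSucc) = e (i + 1 + (j.succ).castSucc)
  rw [idx_step i _ ((j.succ).castSucc) (by
    rw [Fin.coeSucc_eq_succ, Fin.succ_castSucc])]

theorem st_time (i : Fin (d + 2)) (e : Fin (d + 2) → V) :
    (stOf (i + 1) e).2 = (stOf i e).2 + 1 := rfl

/-- the map `(i, a) ↦ (stOf i a, a i)` -/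
def Phi (q : Fin (d + 2) × (Fin (d + 2) → V)) : Sta V d × V := (stOf q.1 q.2, q.2 q.1)

theorem phi_inj : Injective (Phi (V := V) (d := d)) := by
  rintro ⟨i, a⟩ ⟨i', a'⟩ h
  have h1 : stOf i a = stOf i' a' := congrArg Prod.fst h
  have h2 : a i = a' i' := congrArg Prod.snd h
  have h3 : i + 1 = i' + 1 := congrArg Prod.snd h1
  have h4 : i = i' := add_right_cancel h3
  subst h4
  have h5 : (fun j : Fin (d + 1) => a (i + 1 + j.castSucc)) =
      fun j : Fin (d + 1) => a' (i + 1 + j.castSucc) := congrArg Prod.fst h1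
  have h6 : ∀ m : Fin (d + 2), a (i + 1 + m) = a' (i + 1 + m) := by
    intro m
    refine Fin.lastCases ?_ (fun j => ?_) m
    · rw [idx_last]
      exact h2
    · exact congrFun h5 j
  have h7 : a = a' := by
    funext l
    have := h6 (l - (i + 1))
    rwa [add_sub_cancel] at this
  rw [h7]

theorem phi_surj : Surjective (Phi (V := V) (d := d)) := by
  rintro ⟨⟨f, t⟩, v⟩
  have ht : ∀ t : Fin (d + 2), t - 1 + 1 = t := fun t => sub_add_cancel t 1
  refine ⟨((show Fin (d + 2) from t) - 1,
    fun l => (Fin.snoc (α := fun _ => V) f v : Fin (d + 2) → V) (l - (show Fin (d + 2) from t))), ?_⟩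
  have e1 : (fun j : Fin (d + 1) => (Fin.snoc (α := fun _ => V) f v : Fin (d + 2) → V)
      ((show Fin (d + 2) from t) - 1 + 1 + j.castSucc - (show Fin (d + 2) from t))) = f := by
    funext j
    rw [ht, add_sub_cancel_left, Fin.snoc_castSucc]
  have e2 : (Fin.snoc (α := fun _ => V) f v : Fin (d + 2) → V)
      ((show Fin (d + 2) from t) - 1 - (show Fin (d + 2) from t)) = v := by
    have key : ∀ t : Fin (d + 2), t - 1 - t = Fin.last (d + 1) := by
      intro t
      have h := Fin.last_add_one (d + 1)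
      have h' : Fin.last (d + 1) = -1 := eq_neg_of_add_eq_zero_left h
      rw [h', sub_right_comm, sub_self, zero_sub]
    rw [key, Fin.snoc_last]
  exact Prod.ext (Prod.ext e1 (ht _)) e2

variable [Fintype V] [DecidableEq V]

omit [Fintype V] in
theorem image_eq (i : Fin (d + 2)) (e : Fin (d + 2) → V) :
    insert (e i) (Finset.univ.image (stOf i e).1) = Finset.univ.image e := by
  ext v
  rw [Finset.mem_insert, Finset.mem_image, Finset.mem_image]
  constructor
  · rintro (h | ⟨j, -, h⟩)
    · exact ⟨i, Finset.mem_univ _, h.symm⟩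
    · exact ⟨_, Finset.mem_univ _, h⟩
  · rintro ⟨l, -, h⟩
    have hl : l = i + 1 + (l - (i + 1)) := by rw [add_sub_cancel]
    revert hl
    refine Fin.lastCases (motive := fun m => l = i + 1 + m → _) ?_ (fun j => ?_) (l - (i + 1))
    · intro hl
      rw [idx_last] at hl
      left
      rw [← h, hl]
    · intro hl
      right
      refine ⟨j, Finset.mem_univ _, ?_⟩
      rw [← h, hl]
      rfl

theorem st_iff (H : Finset (Finset V)) (i : Fin (d + 2)) (e : Fin (d + 2) → V) :
    St H (stOf i e) (stOf (i + 1) e) ↔ LE H e := by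
  unfold St LE
  rw [st_last, st_init, image_eq]
  constructor
  · rintro ⟨-, -, h⟩
    exact h
  · intro h
    exact ⟨st_time i e, rfl, h⟩

/-- the map `(i, e) ↦ (stOf i e, stOf (i + 1) e)` -/
def Psi (q : Fin (d + 2) × (Fin (d + 2) → V)) : Sta V d × Sta V d :=
  (stOf q.1 q.2, stOf (q.1 + 1) q.2)

omit [Fintype V] [DecidableEq V] in
theorem psi_inj : Injective (Psi (V := V) (d := d)) := by
  rintro ⟨i, a⟩ ⟨i', a'⟩ h
  apply phi_inj
  have h1 : stOf i a = stOf i' a' := congrArg Prod.fst h
  have h2 : stOf (i + 1) a = stOf (i' + 1) a' := congrArg Prod.snd h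
  have h3 : a i = a' i' := by
    rw [← st_last i a, ← st_last i' a', h2]
  exact Prod.ext h1 h3

omit [Fintype V] in
theorem psi_range (H : Finset (Finset V)) (p : Sta V d × Sta V d) (hp : St H p.1 p.2) :
    p ∈ Set.range (Psi (V := V) (d := d)) := by
  obtain ⟨s, s'⟩ := p
  obtain ⟨h1, h2, -⟩ := hp
  obtain ⟨⟨i, e⟩, he⟩ := phi_surj (d := d) (s, s'.1 (Fin.last d))
  have h3 : stOf i e = s := congrArg Prod.fst he
  have h4 : e i = s'.1 (Fin.last d) := congrArg Prod.snd he
  refine ⟨(i, e), Prod.ext h3 (Prod.ext ?_ ?_)⟩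
  · show (stOf (i + 1) e).1 = s'.1
    have a1 := st_init i e
    have a2 := st_last i e
    funext j
    refine Fin.lastCases ?_ (fun j => ?_) j
    · rw [a2, h4]
    · have a3 := congrFun a1 j
      have a4 := congrFun h2 j
      rw [h3] at a3
      exact a3.trans a4.symm
  · show (stOf (i + 1) e).2 = s'.2
    rw [st_time, h3]
    exact h1.symm

end

theorem ncard_prod_sum {ι α : Type} [Fintype ι] [Fintype α] (P : ι → α → Prop) :
    (({q : ι × α | P q.1 q.2}.ncard : ℕ) : ℝ) = ∑ i, ((Finset.univ.filter (P i)).card : ℝ) := by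
  rw [Set.ncard_eq_toFinset_card']
  have h1 : ({q : ι × α | P q.1 q.2}.toFinset) =
      Finset.univ.filter (fun q : ι × α => P q.1 q.2) := by
    ext q
    simp
  rw [h1, Finset.card_filter, Fintype.sum_prod_type]
  push_cast
  refine Finset.sum_congr rfl fun i _ => ?_
  rw [Finset.card_filter]
  push_cast
  rfl

theorem dens_mul {V : Type} [Fintype V] [Nonempty V] {k : ℕ} (P : (Fin k → V) → Prop) :
    dens P * (Fintype.card V : ℝ) ^ k = ((Finset.univ.filter P).card : ℝ) := by
  unfold dens
  have h : (Fintype.card (Fin k → V) : ℝ) = (Fintype.card V : ℝ) ^ k := by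
    rw [Fintype.card_fun, Fintype.card_fin]
    push_cast
    rfl
  rw [h]
  have hn : (0 : ℝ) < (Fintype.card V : ℝ) ^ k := pow_pos (by exact_mod_cast Fintype.card_pos) k
  exact div_mul_cancel₀ _ hn.ne'

theorem cnv : CnvStmt := by
  intro d V _ _ _ H hH
  have hn : (0 : ℝ) < (Fintype.card V : ℝ) := by exact_mod_cast Fintype.card_pos
  refine ⟨fun U => ⟨?_, ?_⟩, ?_⟩
  · intro i a v
    have h : stOf i (update a i v) = stOf i a := by
      refine Prod.ext ?_ rfl
      funext j
      show update a i v (i + 1 + j.castSucc) = a (i + 1 + j.castSucc)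
      rw [update_of_ne]
      intro h
      have h1 : i + 1 + j.castSucc = i + 1 + Fin.last (d + 1) := by rw [idx_last, h]
      have h2 := add_left_cancel h1
      exact (Fin.castSucc_lt_last j).ne h2
    show stOf i (update a i v) ∈ U ↔ stOf i a ∈ U
    rw [h]
  · have h1 := ncard_prod_sum (fun (i : Fin (d + 2)) (a : Fin (d + 2) → V) => stOf i a ∈ U)
    have h2 : {q : Fin (d + 2) × (Fin (d + 2) → V) | stOf q.1 q.2 ∈ U} =
        Phi ⁻¹' (U ×ˢ (Set.univ : Set V)) := by
      ext q
      simp [Phi]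
    rw [h2, Set.ncard_preimage_of_injective_subset_range phi_inj
      (fun p _ => phi_surj p), Set.ncard_prod, Set.ncard_univ, Nat.card_eq_fintype_card] at h1
    have h3 : (∑ i, dens (sys U i)) * (Fintype.card V : ℝ) ^ (d + 2) =
        (U.ncard : ℝ) * Fintype.card V := by
      rw [Finset.sum_mul]
      push_cast at h1
      rw [h1]
      exact Finset.sum_congr rfl fun i _ => dens_mul _
    have h4 : (∑ i, dens (sys U i)) * (Fintype.card V : ℝ) ^ (d + 1) * Fintype.card V =
        (U.ncard : ℝ) * Fintype.card V := by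
      rw [← h3]
      ring
    exact (mul_right_cancel₀ hn.ne' h4).symm
  · intro A B
    have h1 := ncard_prod_sum (fun (i : Fin (d + 2)) (e : Fin (d + 2) → V) =>
      LE H e ∧ sys A i e ∧ sys B (i + 1) e)
    have h2 : {q : Fin (d + 2) × (Fin (d + 2) → V) | LE H q.2 ∧ sys A q.1 q.2 ∧
        sys B (q.1 + 1) q.2} = Psi ⁻¹' {p : Sta V d × Sta V d | p.1 ∈ A ∧ p.2 ∈ B ∧ St H p.1 p.2} := by
      ext q
      show LE H q.2 ∧ stOf q.1 q.2 ∈ A ∧ stOf (q.1 + 1) q.2 ∈ B ↔
        stOf q.1 q.2 ∈ A ∧ stOf (q.1 + 1) q.2 ∈ B ∧ St H (stOf q.1 q.2) (stOf (q.1 + 1) q.2)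
      rw [st_iff]
      tauto
    rw [h2, Set.ncard_preimage_of_injective_subset_range psi_inj
      (fun p hp => psi_range H p hp.2.2)] at h1
    unfold stp
    rw [h1, Finset.sum_mul]
    exact Finset.sum_congr rfl fun i _ => (dens_mul _).symm

end Pool.Agent.KK.B.H19
end

/-! ### Helper41_KK.CLO -/
section
/-!
# Squad KK, row CLO: the classes of the runs are closed
-/

set_option autoImplicit false

namespace Pool.Agent.KK.H41

/-- the runs are increasing -/
theorem runs {V : Type} [Fintype V] [DecidableEq V] {H : Finset (Finset V)} {d : ℕ} {X : Finset V}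
    {q : ℕ} {a b : ℕ → ℕ} {μ γ : ℝ} (h : Struc H d X q a b μ γ) :
    ∀ i' i, i < i' → i' < q → b i + 2 ≤ a i'
  | 0, i, hi, _ => absurd hi (Nat.not_lt_zero _)
  | m + 1, i, hi, hm => by
      have h1 := h.gap m hm
      rcases Nat.lt_succ_iff_lt_or_eq.1 hi with h2 | h2
      · have h3 := runs h m i h2 (by omega)
        have h4 := h.le m (by omega)
        omega
      · rw [h2, h1]

theorem b_le {V : Type} [Fintype V] [DecidableEq V] {H : Finset (Finset V)} {d : ℕ} {X : Finset V}
    {q : ℕ} {a b : ℕ → ℕ} {μ γ : ℝ} (h : Struc H d X q a b μ γ) {i : ℕ} (hi : i < q) :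
    b i ≤ d + 2 := by
  have h0 := h.last2
  rcases Nat.lt_or_ge i (q - 1) with h1 | h1
  · have h2 := runs h (q - 1) i h1 (by omega)
    have h3 := h.le (q - 1) (by omega)
    omega
  · have h2 : i = q - 1 := by omega
    rw [h2]
    exact h0

theorem missing {V : Type} [Fintype V] [DecidableEq V] {H : Finset (Finset V)} {d : ℕ}
    {X : Finset V} {q : ℕ} {a b : ℕ → ℕ} {μ γ : ℝ} (h : Struc H d X q a b μ γ) {i : ℕ} (hi : i < q)
    {j : ℕ} (hj : j + 1 = a i ∨ j = b i + 1) : ∀ i' < q, ¬ (a i' ≤ j ∧ j ≤ b i') := by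
  intro i' hi'
  have h0 := h.le i hi
  rcases lt_trichotomy i' i with h1 | h1 | h1
  · have h2 := runs h i i' h1 hi
    omega
  · rw [h1]
    omega
  · have h2 := runs h i' i h1 hi'
    omega

/-- number of canonical positions -/
theorem card_can (d m : ℕ) (hm : m ≤ d + 2) (τ : ZMod (d + 2)) :
    (Finset.univ.filter fun l : Fin (d + 2) => (τ + ((l : ℕ) : ZMod (d + 2))).val < m).card =
      m := by
  let g : Fin (d + 2) → Fin (d + 2) := fun l =>
    ⟨(τ + ((l : ℕ) : ZMod (d + 2))).val, ZMod.val_lt _⟩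
  have hg : Function.Injective g := by
    intro l l' h
    have h1 : (τ + ((l : ℕ) : ZMod (d + 2))).val = (τ + ((l' : ℕ) : ZMod (d + 2))).val :=
      congrArg Fin.val h
    have h2 := ZMod.val_injective _ h1
    have h3 := add_left_cancel h2
    have h4 := congrArg ZMod.val h3
    rw [ZMod.val_natCast_of_lt l.isLt, ZMod.val_natCast_of_lt l'.isLt] at h4
    exact Fin.ext h4
  have hb : Function.Bijective g := ⟨hg, Finite.surjective_of_injective hg⟩
  have h1 : (Finset.univ.filter fun l : Fin (d + 2) =>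
      (τ + ((l : ℕ) : ZMod (d + 2))).val < m).card =
      (Finset.univ.filter fun x : Fin (d + 2) => (x : ℕ) < m).card := by
    apply Finset.card_bij (fun l _ => g l)
    · intro l hl
      exact Finset.mem_filter.2 ⟨Finset.mem_univ _, (Finset.mem_filter.1 hl).2⟩
    · intro l _ l' _ h
      exact hg h
    · intro x hx
      obtain ⟨l, rfl⟩ := hb.2 x
      exact ⟨l, Finset.mem_filter.2 ⟨Finset.mem_univ _, (Finset.mem_filter.1 hx).2⟩, rfl⟩
  rw [h1]
  have h2 : (Finset.univ.filter fun x : Fin (d + 2) => (x : ℕ) < m).card =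
      (Finset.range m).card := by
    apply Finset.card_bij (fun (x : Fin (d + 2)) _ => (x : ℕ))
    · intro x hx
      exact Finset.mem_range.2 (Finset.mem_filter.1 hx).2
    · intro x _ x' _ h
      exact Fin.ext h
    · intro x hx
      rw [Finset.mem_range] at hx
      exact ⟨⟨x, by omega⟩, Finset.mem_filter.2 ⟨Finset.mem_univ _, hx⟩, rfl⟩
  rw [h2, Finset.card_range]

/-- one wrong letter changes the type by one -/
theorem one_wrong {n : ℕ} (P Q : Fin n → Prop) [DecidablePred P] [DecidablePred Q] (l₀ : Fin n)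
    (h0 : ¬ (P l₀ ↔ Q l₀)) (h : ∀ l, l ≠ l₀ → (P l ↔ Q l)) :
    (Finset.univ.filter P).card + 1 = (Finset.univ.filter Q).card ∨
      (Finset.univ.filter P).card = (Finset.univ.filter Q).card + 1 := by
  by_cases hP : P l₀
  · right
    have hQ : ¬ Q l₀ := fun hQ => h0 ⟨fun _ => hQ, fun _ => hP⟩
    have h1 : Finset.univ.filter P = insert l₀ (Finset.univ.filter Q) := by
      ext l
      rw [Finset.mem_insert, Finset.mem_filter, Finset.mem_filter]
      by_cases hl : l = l₀
      · rw [hl]
        exact ⟨fun _ => Or.inl rfl, fun _ => ⟨Finset.mem_univ _, hP⟩⟩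
      · rw [h l hl]
        exact ⟨Or.inr, fun h2 => h2.resolve_left hl⟩
    rw [h1, Finset.card_insert_of_notMem]
    rw [Finset.mem_filter]
    exact fun h2 => hQ h2.2
  · left
    have hQ : Q l₀ := by
      by_contra hQ
      exact h0 ⟨fun h1 => absurd h1 hP, fun h1 => absurd h1 hQ⟩
    have h1 : Finset.univ.filter Q = insert l₀ (Finset.univ.filter P) := by
      ext l
      rw [Finset.mem_insert, Finset.mem_filter, Finset.mem_filter]
      by_cases hl : l = l₀
      · rw [hl]
        exact ⟨fun _ => Or.inl rfl, fun _ => ⟨Finset.mem_univ _, hQ⟩⟩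
      · rw [h l hl]
        exact ⟨Or.inr, fun h2 => h2.resolve_left hl⟩
    rw [h1, Finset.card_insert_of_notMem]
    rw [Finset.mem_filter]
    exact fun h2 => hP h2.2

theorem xc_init {V : Type} [DecidableEq V] (X : Finset V) {m : ℕ} (f : Fin (m + 1) → V) :
    xc X (fun i => f (Fin.castSucc i)) ≤ xc X f ∧ xc X f ≤ xc X (fun i => f (Fin.castSucc i)) + 1 := by
  unfold xc
  rw [Finset.card_filter, Finset.card_filter, Fin.sum_univ_castSucc]
  beta_reduce
  split_ifs <;> omega

theorem xc_tail {V : Type} [DecidableEq V] (X : Finset V) {m : ℕ} (f : Fin (m + 1) → V) :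
    xc X (fun i => f (Fin.succ i)) ≤ xc X f ∧ xc X f ≤ xc X (fun i => f (Fin.succ i)) + 1 := by
  unfold xc
  rw [Finset.card_filter, Finset.card_filter, Fin.sum_univ_succ]
  beta_reduce
  split_ifs <;> omega

/-- the type of an edge leading out of the class or into it -/
theorem type_of {V : Type} [DecidableEq V] (X : Finset V) (d a b : ℕ) (hab : a ≤ b)
    (hb : b ≤ d + 2) (f : Fin (d + 2) → V) (τ : ZMod (d + 2))
    (h : ¬ (((fun i : Fin (d + 1) => f (Fin.castSucc i)), τ) ∈ cls X d a b ↔
      ((fun i : Fin (d + 1) => f (Fin.succ i)), τ + 1) ∈ cls X d a b)) :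
    xc X f + 1 = a ∨ xc X f = b + 1 := by
  classical
  by_cases hE : a = b
  · unfold cls at h
    rw [if_pos hE] at h
    have hc1 : (((fun i : Fin (d + 1) => f (Fin.castSucc i)), τ) ∈ can X d a ↔
        ∀ l : Fin (d + 2), l ≠ Fin.last (d + 1) →
          (f l ∈ X ↔ (τ + ((l : ℕ) : ZMod (d + 2))).val < a)) := by
      constructor
      · intro h1 l hl
        obtain ⟨i, rfl⟩ := Fin.exists_castSucc_eq.2 hl
        exact h1 i
      · intro h1 i
        exact h1 (Fin.castSucc i) (Fin.castSucc_lt_last i).ne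
    have hc2 : (((fun i : Fin (d + 1) => f (Fin.succ i)), τ + 1) ∈ can X d a ↔
        ∀ l : Fin (d + 2), l ≠ 0 →
          (f l ∈ X ↔ (τ + ((l : ℕ) : ZMod (d + 2))).val < a)) := by
      constructor
      · intro h1 l hl
        obtain ⟨i, rfl⟩ := Fin.exists_succ_eq.2 hl
        have h2 := h1 i
        have h3 : τ + (((Fin.succ i : Fin (d + 2)) : ℕ) : ZMod (d + 2)) =
            τ + 1 + ((i : ℕ) : ZMod (d + 2)) := by
          rw [Fin.val_succ]
          push_cast
          ring
        rw [h3]
        exact h2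
      · intro h1 i
        have h2 := h1 (Fin.succ i) (Fin.succ_ne_zero i)
        have h3 : τ + (((Fin.succ i : Fin (d + 2)) : ℕ) : ZMod (d + 2)) =
            τ + 1 + ((i : ℕ) : ZMod (d + 2)) := by
          rw [Fin.val_succ]
          push_cast
          ring
        rw [h3] at h2
        exact h2
    rw [hc1, hc2] at h
    have key : ∃ l₀ : Fin (d + 2), ¬ (f l₀ ∈ X ↔ (τ + ((l₀ : ℕ) : ZMod (d + 2))).val < a) ∧
        ∀ l, l ≠ l₀ → (f l ∈ X ↔ (τ + ((l : ℕ) : ZMod (d + 2))).val < a) := by
      by_cases h1 : ∀ l : Fin (d + 2), l ≠ Fin.last (d + 1) →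
          (f l ∈ X ↔ (τ + ((l : ℕ) : ZMod (d + 2))).val < a)
      · refine ⟨Fin.last (d + 1), ?_, h1⟩
        intro h2
        apply h
        refine ⟨fun _ l _ => ?_, fun _ => h1⟩
        by_cases hl : l = Fin.last (d + 1)
        · rw [hl]
          exact h2
        · exact h1 l hl
      · have h3 : ∀ l : Fin (d + 2), l ≠ 0 →
            (f l ∈ X ↔ (τ + ((l : ℕ) : ZMod (d + 2))).val < a) := by
          by_contra h4
          exact h ⟨fun h5 => absurd h5 h1, fun h5 => absurd h5 h4⟩
        refine ⟨0, ?_, h3⟩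
        intro h2
        apply h1
        intro l _
        by_cases hl : l = 0
        · rw [hl]
          exact h2
        · exact h3 l hl
    obtain ⟨l₀, h1, h2⟩ := key
    have h3 := one_wrong (fun l : Fin (d + 2) => f l ∈ X)
      (fun l : Fin (d + 2) => (τ + ((l : ℕ) : ZMod (d + 2))).val < a) l₀ h1 h2
    rw [card_can d a (by omega) τ] at h3
    unfold xc
    rw [← hE]
    exact h3
  · unfold cls at h
    rw [if_neg hE] at h
    have h1 := xc_init X f
    have h2 := xc_tail X f
    simp only [Set.mem_ofPred_eq] at h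
    omega

theorem clo : CloStmt := by
  intro d V _ _ H X q a b μ γ hU hγ hS i hi
  classical
  let J : Finset ℕ := (Finset.range (d + 3)).filter fun j => ∀ i' < q, ¬ (a i' ≤ j ∧ j ≤ b i')
  let S : Finset (Fin (d + 2) → V) :=
    Finset.univ.filter fun f => Finset.univ.image f ∈ H ∧ xc X f ∈ J
  have hn0 : (0 : ℝ) ≤ (Fintype.card V : ℝ) ^ (d + 2) := by positivity
  have hScard : (S.card : ℝ) ≤ (d + 3) * (γ * (Fintype.card V : ℝ) ^ (d + 2)) := by
    have h1 : S.card = ∑ j ∈ J, (S.filter fun f => xc X f = j).card :=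
      Finset.card_eq_sum_card_fiberwise fun f hf => (Finset.mem_filter.1 hf).2.2
    rw [h1]
    push_cast
    calc ∑ j ∈ J, ((S.filter fun f => xc X f = j).card : ℝ) ≤
          ∑ j ∈ J, γ * (Fintype.card V : ℝ) ^ (d + 2) := by
          refine Finset.sum_le_sum fun j hj => ?_
          obtain ⟨hj1, hj2⟩ := Finset.mem_filter.1 hj
          have hj3 : j ≤ d + 2 := by
            have := Finset.mem_range.1 hj1
            omega
          refine le_trans ?_ (hS.miss j hj3 hj2)
          have h2 : ((S.filter fun f => xc X f = j : Finset _) : Set (Fin (d + 2) → V)) ⊆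
              {f : Fin (d + 2) → V | Finset.univ.image f ∈ H ∧ xc X f = j} := by
            intro f hf
            obtain ⟨hf1, hf2⟩ := Finset.mem_filter.1 (Finset.mem_coe.1 hf)
            exact ⟨(Finset.mem_filter.1 hf1).2.1, hf2⟩
          have h3 := Set.ncard_le_ncard h2 (Set.toFinite _)
          rw [Set.ncard_coe_finset] at h3
          exact_mod_cast h3
      _ = J.card * (γ * (Fintype.card V : ℝ) ^ (d + 2)) := by
          rw [Finset.sum_const, nsmul_eq_mul]
      _ ≤ (d + 3) * (γ * (Fintype.card V : ℝ) ^ (d + 2)) := by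
          apply mul_le_mul_of_nonneg_right _ (by positivity)
          have h2 : J.card ≤ d + 3 := by
            refine (Finset.card_filter_le _ _).trans ?_
            rw [Finset.card_range]
          exact_mod_cast h2
  let B : Set (Sta V d × Sta V d) := {p | St H p.1 p.2 ∧
    ¬ (p.1 ∈ cls X d (a i) (b i) ↔ p.2 ∈ cls X d (a i) (b i))}
  have hB : (B.ncard : ℝ) ≤ (d + 2) * (d + 3) * γ * (Fintype.card V : ℝ) ^ (d + 2) := by
    let Φ : Sta V d × Sta V d → (Fin (d + 2) → V) × ZMod (d + 2) := fun p =>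
      (Fin.snoc p.1.1 (p.2.1 (Fin.last d)), p.1.2)
    have hs : ∀ p : Sta V d × Sta V d, St H p.1 p.2 →
        p.1 = ((fun i : Fin (d + 1) => (Φ p).1 (Fin.castSucc i)), (Φ p).2) ∧
        p.2 = ((fun i : Fin (d + 1) => (Φ p).1 (Fin.succ i)), (Φ p).2 + 1) ∧
        Finset.univ.image (Φ p).1 ∈ H := by
      rintro ⟨⟨s, τ⟩, t, τ'⟩ ⟨h1, h2, h3⟩
      simp only at h1 h2 h3
      have e1 : ∀ i : Fin (d + 1),
          (Fin.snoc s (t (Fin.last d)) : Fin (d + 2) → V) (Fin.castSucc i) = s i := fun i =>
        Fin.snoc_castSucc (α := fun _ => V) _ _ _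
      have e2 : (Fin.snoc s (t (Fin.last d)) : Fin (d + 2) → V) (Fin.last (d + 1)) =
          t (Fin.last d) := Fin.snoc_last (α := fun _ => V) _ _
      refine ⟨?_, ?_, ?_⟩
      · refine Prod.ext ?_ rfl
        funext i
        exact (e1 i).symm
      · refine Prod.ext ?_ h1
        funext i
        show t i = (Fin.snoc s (t (Fin.last d)) : Fin (d + 2) → V) (Fin.succ i)
        refine Fin.lastCases ?_ (fun i => ?_) i
        · exact e2.symm
        · have h4 := congrFun h2 i
          have h5 : Fin.init t i = t (Fin.castSucc i) := rfl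
          rw [← h5, h4, Fin.succ_castSucc, e1]
          rfl
      · show Finset.univ.image (Fin.snoc s (t (Fin.last d)) : Fin (d + 2) → V) ∈ H
        have h4 : Finset.univ.image (Fin.snoc s (t (Fin.last d)) : Fin (d + 2) → V) =
            insert (t (Fin.last d)) (Finset.univ.image s) := by
          ext v
          rw [Finset.mem_insert, Finset.mem_image, Finset.mem_image]
          constructor
          · rintro ⟨l, -, hl⟩
            rcases Fin.eq_castSucc_or_eq_last l with ⟨i, rfl⟩ | rfl
            · rw [e1] at hl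
              exact Or.inr ⟨i, Finset.mem_univ _, hl⟩
            · rw [e2] at hl
              exact Or.inl hl.symm
          · rintro (hv | ⟨i, -, hi⟩)
            · exact ⟨Fin.last (d + 1), Finset.mem_univ _, by rw [e2, hv]⟩
            · exact ⟨Fin.castSucc i, Finset.mem_univ _, by rw [e1, hi]⟩
        rw [h4]
        exact h3
    have hmaps : ∀ p ∈ B, Φ p ∈ (S : Set (Fin (d + 2) → V)) ×ˢ (Set.univ : Set (ZMod (d + 2))) := by
      intro p hp
      obtain ⟨h1, h2⟩ := hp
      obtain ⟨e1, e2, e3⟩ := hs p h1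
      refine ⟨?_, Set.mem_univ _⟩
      rw [e1, e2] at h2
      have h3 := type_of X d (a i) (b i) (hS.le i hi) (b_le hS hi) (Φ p).1 (Φ p).2 h2
      refine Finset.mem_coe.2 (Finset.mem_filter.2 ⟨Finset.mem_univ _, e3, Finset.mem_filter.2
        ⟨?_, missing hS hi h3⟩⟩)
      rw [Finset.mem_range]
      have h4 : xc X (Φ p).1 ≤ d + 2 := by
        refine (Finset.card_filter_le _ _).trans ?_
        rw [Finset.card_univ, Fintype.card_fin]
      omega
    have hinj : Set.InjOn Φ B := by
      intro p hp p' hp' h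
      obtain ⟨e1, e2, -⟩ := hs p hp.1
      obtain ⟨e1', e2', -⟩ := hs p' hp'.1
      refine Prod.ext ?_ ?_
      · rw [e1, e1', h]
      · rw [e2, e2', h]
    have h1 := Set.ncard_le_ncard_of_injOn Φ hmaps hinj (Set.toFinite _)
    rw [Set.ncard_prod, Set.ncard_coe_finset, Set.ncard_univ, Nat.card_zmod] at h1
    calc (B.ncard : ℝ) ≤ ((S.card * (d + 2) : ℕ) : ℝ) := by exact_mod_cast h1
      _ = S.card * (d + 2) := by push_cast; ring
      _ ≤ (d + 3) * (γ * (Fintype.card V : ℝ) ^ (d + 2)) * (d + 2) :=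
          mul_le_mul_of_nonneg_right hScard (by positivity)
      _ = _ := by ring
  constructor
  · refine le_trans ?_ hB
    have h1 : {p : Sta V d × Sta V d | p.1 ∈ cls X d (a i) (b i) ∧ p.2 ∉ cls X d (a i) (b i) ∧
        St H p.1 p.2} ⊆ B := by
      rintro p ⟨h1, h2, h3⟩
      exact ⟨h3, fun h => h2 (h.1 h1)⟩
    exact_mod_cast Set.ncard_le_ncard h1 (Set.toFinite _)
  · refine le_trans ?_ hB
    have h1 : {p : Sta V d × Sta V d | p.1 ∉ cls X d (a i) (b i) ∧ p.2 ∈ cls X d (a i) (b i) ∧
        St H p.1 p.2} ⊆ B := by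
      rintro p ⟨h1, h2, h3⟩
      exact ⟨h3, fun h => h1 (h.2 h2)⟩
    exact_mod_cast Set.ncard_le_ncard h1 (Set.toFinite _)

end Pool.Agent.KK.H41
end

/-! ### Helper2_KK.E_GEN -/
section
set_option autoImplicit false

namespace Pool.Agent.KK.E.H2

open Finset

theorem e_gen (h1 : StmtE01) (h2 : StmtE02) (h4 : StmtE04) (h11 : StmtE11) : StmtE12 := by
  classical
  intro V _ _ ι _ H X A W p q B δ ρ η l hamb hη hρ hstep hcard hW hA
  set k : ℕ := p + q + 2 with hk
  have hk2 : 2 ≤ k := by omega
  have hkR : (2 : ℝ) ≤ (k : ℝ) := by exact_mod_cast hk2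
  have hδ0 := hamb.pos
  have hδ1 := hamb.small
  have hbig := hamb.big
  have hn0 : 0 < (Fintype.card V : ℝ) := by
    by_contra hcon
    have h0 : (Fintype.card V : ℝ) = 0 := le_antisymm (not_lt.1 hcon) (Nat.cast_nonneg _)
    rw [h0, mul_zero] at hbig
    have h3 : (0 : ℝ) < 100 * ((p + q + 2 : ℕ) : ℝ) ^ 2 * ((B + p + q + 2 : ℕ) : ℝ) := by
      have : (0 : ℝ) < ((p + q + 2 : ℕ) : ℝ) := by positivity
      have h5 : (0 : ℝ) < ((B + p + q + 2 : ℕ) : ℝ) := by positivity
      positivity
    linarith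
  have hn : 0 < Fintype.card V := by exact_mod_cast hn0
  have hlo := hamb.lo
  have hlo' := hamb.lo'
  have hX0 : (0 : ℝ) < (X.card : ℝ) := by nlinarith
  have hX0' : (0 : ℝ) < ((Xᶜ).card : ℝ) := by nlinarith
  have hXn : X.Nonempty := Finset.card_pos.1 (by exact_mod_cast hX0)
  have hXn' : (Xᶜ).Nonempty := Finset.card_pos.1 (by exact_mod_cast hX0')
  have hsdn : ∀ b, (sd X b).Nonempty := by
    intro b
    cases b
    · simpa [sd] using hXn'
    · simpa [sd] using hXn
  have hsd3 : ∀ b, (Fintype.card V : ℝ) ≤ 3 * ((sd X b).card : ℝ) := by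
    intro b
    cases b
    · have : (sd X false) = Xᶜ := by simp [sd]
      rw [this]; nlinarith
    · have : (sd X true) = X := by simp [sd]
      rw [this]; nlinarith
  have hcne : ∀ i, ((fun i => sd X (l i)) i : Finset V).Nonempty := fun i => hsdn (l i)
  obtain ⟨e1, e2, e3, -, -, e6⟩ := h1 V ι (fun i => sd X (l i)) hcne
  -- the two parts
  have hpart1 : dens (fun i => sd X (l i))
      (fun f => ¬ (Function.Injective f ∧ ∀ i, (fun _ : ι => (none : Option V)) i = none →
        f i ∉ A ∪ W)) ≤ δ := by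
    have h := h4 V ι X (A ∪ W) l (fun _ => none) hn hsd3 (by intro i i' v hv; simp at hv)
    have hbx : bx X l (fun _ : ι => (none : Option V)) = fun i => sd X (l i) := by
      funext i; simp [bx]
    rw [hbx] at h
    refine h.trans ?_
    rw [div_le_iff₀ hn0]
    have hcu : ((A ∪ W).card : ℝ) ≤ (A.card : ℝ) + (W.card : ℝ) := by
      exact_mod_cast Finset.card_union_le A W
    have hm : (A.card : ℝ) + (Fintype.card ι : ℝ) ≤ (k : ℝ) := by exact_mod_cast hcard
    have hWR : (W.card : ℝ) ≤ (B : ℝ) + (k : ℝ) + 1 := by exact_mod_cast hW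
    have hm0 : (0 : ℝ) ≤ (Fintype.card ι : ℝ) := Nat.cast_nonneg _
    have hA0 : (0 : ℝ) ≤ (A.card : ℝ) := Nat.cast_nonneg _
    have hB0 : (0 : ℝ) ≤ (B : ℝ) := Nat.cast_nonneg _
    have hb2 : 100 * (k : ℝ) ^ 2 * ((B : ℝ) + (k : ℝ)) ≤ δ * (Fintype.card V : ℝ) := by
      have : ((B + p + q + 2 : ℕ) : ℝ) = (B : ℝ) + (k : ℝ) := by
        rw [hk]; push_cast; ring
      rw [← this]; exact hbig
    have hmk : (Fintype.card ι : ℝ) ≤ (k : ℝ) := by linarith
    have hs1 : (Fintype.card ι : ℝ) ^ 2 + (Fintype.card ι : ℝ) * ((A ∪ W).card : ℝ) ≤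
        (k : ℝ) * ((B : ℝ) + 2 * (k : ℝ) + 1) := by
      have : (Fintype.card ι : ℝ) + ((A ∪ W).card : ℝ) ≤ (B : ℝ) + 2 * (k : ℝ) + 1 := by linarith
      calc (Fintype.card ι : ℝ) ^ 2 + (Fintype.card ι : ℝ) * ((A ∪ W).card : ℝ)
          = (Fintype.card ι : ℝ) * ((Fintype.card ι : ℝ) + ((A ∪ W).card : ℝ)) := by ring
        _ ≤ (k : ℝ) * ((B : ℝ) + 2 * (k : ℝ) + 1) := by
            apply mul_le_mul hmk this (by positivity) (by positivity)
    have hs2 : 3 * ((k : ℝ) * ((B : ℝ) + 2 * (k : ℝ) + 1)) ≤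
        100 * (k : ℝ) ^ 2 * ((B : ℝ) + (k : ℝ)) := by
      nlinarith [mul_nonneg hB0 (by linarith : (0 : ℝ) ≤ (k : ℝ)), mul_nonneg hB0 (by
        positivity : (0 : ℝ) ≤ (k : ℝ) ^ 2), mul_pos (by linarith : (0 : ℝ) < (k : ℝ))
        (by linarith : (0 : ℝ) < (k : ℝ)), pow_pos (by linarith : (0 : ℝ) < (k : ℝ)) 3,
        mul_nonneg (by linarith : (0 : ℝ) ≤ (k : ℝ) - 2) (mul_nonneg hB0
          (by linarith : (0 : ℝ) ≤ (k : ℝ))), mul_nonneg (by linarith : (0 : ℝ) ≤ (k : ℝ) - 2)
          (by positivity : (0 : ℝ) ≤ (k : ℝ) ^ 2)]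
    nlinarith
  -- second part
  let P : ({A' // A' ∈ A.powerset} × Finset ι) → (ι → V) → Prop := fun t z =>
    t.2.Nonempty ∧ (t.1.1 ∪ t.2.image z).card = t.1.1.card + t.2.card ∧
      Non H X p q η (t.1.1 ∪ t.2.image z)
  have hP : ∀ t, dens (fun i => sd X (l i)) (P t) ≤ ρ := by
    rintro ⟨⟨A', hA'⟩, J⟩
    rw [Finset.mem_powerset] at hA'
    by_cases hJ : J.Nonempty
    · have hφ : Function.Injective (Subtype.val : {x // x ∈ J} → ι) := Subtype.val_injective
      have himg : ∀ z : ι → V, (Finset.univ : Finset {x // x ∈ J}).image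
          (z ∘ (Subtype.val : {x // x ∈ J} → ι)) = J.image z := by
        intro z
        ext v
        simp
      have hE := h2 V ι {x // x ∈ J} (fun i => sd X (l i)) Subtype.val hcne hφ
        (fun z => (A' ∪ Finset.univ.image z).card = A'.card + Fintype.card {x // x ∈ J} ∧
          Non H X p q η (A' ∪ Finset.univ.image z))
      have hcJ : Fintype.card {x // x ∈ J} = J.card := Fintype.card_coe J
      have hle1 : A'.card ≤ A.card := Finset.card_le_card hA'
      have hle2 : J.card ≤ Fintype.card ι := Finset.card_le_univ J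
      have hJ1 : 0 < J.card := Finset.card_pos.2 hJ
      have h11' := h11 V {x // x ∈ J} H X A' p q η (l ∘ Subtype.val) hXn hXn'
        (hη _ (by omega)).le (by rw [hcJ]; exact hη _ (by omega)) (hA A' hA')
      have hpos : 0 < η (A'.card + J.card) := hη _ (by omega)
      have hst := hstep A'.card (A'.card + J.card) (by omega) (by omega)
      refine (e2 (P ⟨⟨A', _⟩, J⟩) (fun f => (A' ∪ Finset.univ.image
        (f ∘ (Subtype.val : {x // x ∈ J} → ι))).card = A'.card + Fintype.card {x // x ∈ J} ∧
          Non H X p q η (A' ∪ Finset.univ.image (f ∘ (Subtype.val : {x // x ∈ J} → ι)))) ?_).trans ?_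
      · intro f _ hf
        rw [himg, hcJ]
        exact ⟨hf.2.1, hf.2.2⟩
      · rw [hE]
        refine (le_trans (le_of_eq ?_) h11').trans ?_
        · rfl
        · rw [hcJ, div_le_iff₀ hpos]
          exact hst
    · refine le_trans (le_of_eq ?_) hρ
      have h0 : dens (fun i => sd X (l i)) (P ⟨⟨A', by rw [Finset.mem_powerset]; exact hA'⟩, J⟩) =
          0 := by
        have : {f : ι → V | (∀ i, f i ∈ sd X (l i)) ∧
            P ⟨⟨A', by rw [Finset.mem_powerset]; exact hA'⟩, J⟩ f} = ∅ := by
          ext f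
          simp only [Set.mem_setOf_eq, Set.mem_empty_iff_false, iff_false, not_and]
          intro _ hf
          exact hJ hf.1
        unfold dens
        rw [this]
        simp
      exact h0
  have hsum : dens (fun i => sd X (l i)) (fun f => ∃ t, P t f) ≤ 2 ^ k * ρ := by
    refine (e6 _ P).trans ?_
    refine (Finset.sum_le_sum fun t _ => hP t).trans ?_
    rw [Finset.sum_const, nsmul_eq_mul, Finset.card_univ, Fintype.card_prod, Fintype.card_finset,
      Fintype.card_coe, Finset.card_powerset]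
    apply mul_le_mul_of_nonneg_right _ hρ
    push_cast
    rw [← pow_add]
    apply pow_le_pow_right₀ (by norm_num) hcard
  refine (e2 _ (fun f => (∃ t, P t f) ∨ ¬ (Function.Injective f ∧
    ∀ i, (fun _ : ι => (none : Option V)) i = none → f i ∉ A ∪ W)) ?_).trans ?_
  · intro f _ hG
    by_cases hinj : Function.Injective f ∧
      ∀ i, (fun _ : ι => (none : Option V)) i = none → f i ∉ A ∪ W
    · left
      obtain ⟨hi, ho⟩ := hinj
      have ho' : ∀ i, f i ∉ A ∪ W := fun i => ho i rfl
      have hex : ∃ N : Finset V, N ⊆ A ∪ Finset.univ.image f ∧ Non H X p q η N := by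
        by_contra hcon
        apply hG
        refine ⟨hi, ho', ?_⟩
        intro N hN hnon
        exact hcon ⟨N, hN, hnon⟩
      obtain ⟨N, hN, hnon⟩ := hex
      have hdec : (N ∩ A) ∪ (Finset.univ.filter fun i => f i ∈ N).image f = N := by
        ext v
        simp only [Finset.mem_union, Finset.mem_inter, Finset.mem_image, Finset.mem_filter,
          Finset.mem_univ, true_and]
        constructor
        · rintro (⟨hv, -⟩ | ⟨i, hi1, rfl⟩)
          · exact hv
          · exact hi1
        · intro hv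
          rcases Finset.mem_union.1 (hN hv) with hvA | hvf
          · exact Or.inl ⟨hv, hvA⟩
          · obtain ⟨i, -, rfl⟩ := Finset.mem_image.1 hvf
            exact Or.inr ⟨i, hv, rfl⟩
      refine ⟨⟨⟨N ∩ A, Finset.mem_powerset.2 Finset.inter_subset_right⟩,
        Finset.univ.filter fun i => f i ∈ N⟩, ?_, ?_, ?_⟩
      · rw [Finset.nonempty_iff_ne_empty]
        intro he
        have he' : (Finset.univ.filter fun i => f i ∈ N) = ∅ := he
        rw [he', Finset.image_empty, Finset.union_empty] at hdec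
        exact hA N (by rw [← hdec]; exact Finset.inter_subset_right) hnon
      · rw [Finset.card_union_of_disjoint, Finset.card_image_of_injective _ hi]
        rw [Finset.disjoint_left]
        intro v hv hv'
        obtain ⟨i, -, rfl⟩ := Finset.mem_image.1 hv'
        exact ho' i (Finset.mem_union_left _ (Finset.mem_inter.1 hv).2)
      · show Non H X p q η ((N ∩ A) ∪ (Finset.univ.filter fun i => f i ∈ N).image f)
        rw [hdec]
        exact hnon
    · exact Or.inr hinj
  · refine (e3 _ _).trans ?_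
    exact add_le_add hsum hpart1

end Pool.Agent.KK.E.H2
end

/-! ### Helper77_KK.E_CNT -/
section
/-!
# E14: the exact count
-/

set_option autoImplicit false

open Finset

namespace Pool.Agent.KK.E.H77

/-- the density as a sum of indicators -/
theorem dens_eq {V ι : Type} [Fintype V] [DecidableEq V] [Fintype ι] [DecidableEq ι]
    (c : ι → Finset V) (P : (ι → V) → Prop) [DecidablePred P] :
    dens c P = (∑ f ∈ Fintype.piFinset c, if P f then (1 : ℝ) else 0) /
      ∏ i, ((c i).card : ℝ) := by
  unfold dens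
  have h : {f : ι → V | (∀ i, f i ∈ c i) ∧ P f} =
      (((Fintype.piFinset c).filter P : Finset (ι → V)) : Set (ι → V)) := by
    ext f
    simp
  rw [h, Set.ncard_coe_finset, Finset.sum_boole]

theorem D_zero {V : Type} [Fintype V] [DecidableEq V] (H : Finset (Finset V)) (X M : Finset V)
    (hM : M ∈ H) : D H X M 0 0 = 1 := by
  classical
  unfold D
  rw [dens_eq]
  have h : ∀ f : Fin 0 ⊕ Fin 0 → V, (if M ∪ Finset.univ.image f ∈ H then (1 : ℝ) else 0) = 1 := by
    intro f
    have : (Finset.univ.image f) = ∅ := by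
      rw [Finset.image_eq_empty]
      exact Finset.univ_eq_empty
    rw [this, Finset.union_empty, if_pos hM]
  rw [Finset.sum_congr rfl fun f _ => h f]
  simp

section

variable {V : Type} [Fintype V] [DecidableEq V] {H : Finset (Finset V)} {X F' : Finset V}
  {p q : ℕ} {η : ℕ → ℝ}

/-- the image of a generic tuple is not an edge -/
theorem im_notMem (hη : η (p + q + 2) < 1) {f : Fin (p + 1) ⊕ Fin (q + 1) → V}
    (hf : ∀ i, f i ∈ lets X (p + 1) (q + 1) i) (hg : Gen H X p q η F' ∅ f) :
    Finset.univ.image f ∉ H := by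
  intro hH
  obtain ⟨hi, -, hn⟩ := hg
  apply hn (Finset.univ.image f) (by simp)
  have h1 : (Finset.univ.image f) ∩ X = Finset.univ.image fun i : Fin (p + 1) => f (Sum.inl i) := by
    ext v
    simp only [Finset.mem_inter, Finset.mem_image, Finset.mem_univ, true_and]
    constructor
    · rintro ⟨⟨i, rfl⟩, hv⟩
      rcases i with i | i
      · exact ⟨i, rfl⟩
      · have := hf (Sum.inr i)
        simp only [lets, Sum.elim_inr, Finset.mem_compl] at this
        exact absurd hv this
    · rintro ⟨i, rfl⟩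
      exact ⟨⟨_, rfl⟩, hf (Sum.inl i)⟩
  have h2 : (Finset.univ.image f) \ X = Finset.univ.image fun i : Fin (q + 1) => f (Sum.inr i) := by
    ext v
    simp only [Finset.mem_sdiff, Finset.mem_image, Finset.mem_univ, true_and]
    constructor
    · rintro ⟨⟨i, rfl⟩, hv⟩
      rcases i with i | i
      · exact absurd (hf (Sum.inl i)) hv
      · exact ⟨i, rfl⟩
    · rintro ⟨i, rfl⟩
      have := hf (Sum.inr i)
      simp only [lets, Sum.elim_inr, Finset.mem_compl] at this
      exact ⟨⟨_, rfl⟩, this⟩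
  have c1 : ((Finset.univ.image f) ∩ X).card = p + 1 := by
    have hj : Function.Injective fun i : Fin (p + 1) => f (Sum.inl i) := hi.comp Sum.inl_injective
    rw [h1, Finset.card_image_of_injective _ hj, Finset.card_univ, Fintype.card_fin]
  have c2 : ((Finset.univ.image f) \ X).card = q + 1 := by
    have hj : Function.Injective fun i : Fin (q + 1) => f (Sum.inr i) := hi.comp Sum.inr_injective
    rw [h2, Finset.card_image_of_injective _ hj, Finset.card_univ, Fintype.card_fin]
  have c3 : (Finset.univ.image f).card = p + q + 2 := by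
    rw [Finset.card_image_of_injective _ hi, Finset.card_univ, Fintype.card_sum, Fintype.card_fin,
      Fintype.card_fin]
    ring
  refine ⟨c1.le, c2.le, ?_⟩
  rw [c1, c2, c3, Nat.sub_self, Nat.sub_self, D_zero H X _ hH]
  exact hη

/-- the neighbourhood of the image without one vertex has no element in the image -/
theorem nb_sub (hη : η (p + q + 2) < 1) {f : Fin (p + 1) ⊕ Fin (q + 1) → V}
    (hf : ∀ i, f i ∈ lets X (p + 1) (q + 1) i) (hg : Gen H X p q η F' ∅ f)
    (j : Fin (p + 1) ⊕ Fin (q + 1)) :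
    nb H ((Finset.univ.filter fun i => i ≠ j).image f) ⊆
      Finset.univ.filter fun v => v ∉ Finset.univ.image f ∧
        insert v ((Finset.univ.filter fun i => i ≠ j).image f) ∈ H := by
  intro v hv
  unfold nb at hv
  rw [Finset.mem_filter] at hv
  obtain ⟨-, hv1, hv2⟩ := hv
  rw [Finset.mem_filter]
  refine ⟨Finset.mem_univ _, ?_, hv2⟩
  intro hv3
  rw [Finset.mem_image] at hv3
  obtain ⟨i, -, rfl⟩ := hv3
  by_cases hij : i = j
  · subst hij
    apply im_notMem hη hf hg
    have : insert (f i) ((Finset.univ.filter fun l => l ≠ i).image f) = Finset.univ.image f := by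
      rw [← Finset.image_insert]
      congr 1
      ext l
      simp only [Finset.mem_insert, Finset.mem_filter, Finset.mem_univ, true_and, iff_true]
      exact em _
    rwa [this] at hv2
  · apply hv1
    rw [Finset.mem_image]
    exact ⟨i, by simp [hij], rfl⟩

theorem count_f (hD : Dirac H (p + q + 2)) (hη : η (p + q + 2) < 1)
    {f : Fin (p + 1) ⊕ Fin (q + 1) → V}
    (hf : ∀ i, f i ∈ lets X (p + 1) (q + 1) i) (hg : Gen H X p q η F' ∅ f)
    (j : Fin (p + 1) ⊕ Fin (q + 1)) :
    Fintype.card V ≤ 2 * (Finset.univ.filter fun v => v ∉ Finset.univ.image f ∧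
        insert v ((Finset.univ.filter fun i => i ≠ j).image f) ∈ H).card := by
  have h1 : ((Finset.univ.filter fun i => i ≠ j).image f).card = p + q + 2 - 1 := by
    rw [Finset.card_image_of_injective _ hg.1, Finset.filter_ne', Finset.card_erase_of_mem
      (Finset.mem_univ _), Finset.card_univ, Fintype.card_sum, Fintype.card_fin, Fintype.card_fin]
    omega
  have h2 := hD _ h1
  have h3 := Finset.card_le_card (nb_sub hη hf hg j)
  omega

end

theorem e_cnt : StmtE14 := by
  classical
  intro V _ _ H X F' p q η _ hD hX hXc hη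
  have hcn : ∀ i, (lets X (p + 1) (q + 1) i).Nonempty := by
    rintro (i | i)
    · exact hX
    · exact hXc
  have hPpos : 0 < ∏ i, ((lets X (p + 1) (q + 1) i).card : ℝ) :=
    Finset.prod_pos fun i _ => by exact_mod_cast (hcn i).card_pos
  simp only [dens_eq]
  rw [← mul_div_assoc]
  simp only [← add_div, ← sub_div]
  rw [← Finset.sum_div]
  apply div_le_div_of_nonneg_right _ hPpos.le
  simp only [← Finset.sum_add_distrib, ← Finset.sum_sub_distrib]
  rw [Finset.sum_comm, Finset.mul_sum]
  apply Finset.sum_le_sum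
  intro f hf
  rw [Fintype.mem_piFinset] at hf
  by_cases hg : Gen H X p q η F' ∅ f
  · simp only [hg, true_and, if_true, mul_one]
    rw [Finset.sum_sub_distrib, Finset.sum_add_distrib, Finset.sum_boole, Finset.sum_boole,
      Finset.sum_boole]
    have h1 := count_f hD hη hf hg (Sum.inr 0)
    have h2 := count_f hD hη hf hg (Sum.inl 0)
    have h3 : (Finset.univ.filter fun v => v ∉ Finset.univ.image f).card + (p + q + 2) =
        Fintype.card V := by
      have h4 : (Finset.univ.filter fun v => v ∉ Finset.univ.image f) =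
          (Finset.univ.image f)ᶜ := by
        ext v
        simp
      rw [h4, Finset.card_compl, Finset.card_image_of_injective _ hg.1, Finset.card_univ,
        Fintype.card_sum, Fintype.card_fin, Fintype.card_fin]
      have h5 := Fintype.card_le_of_injective f hg.1
      rw [Fintype.card_sum, Fintype.card_fin, Fintype.card_fin] at h5
      omega
    have h6 : p + q + 2 + (Finset.univ.filter fun v => v ∉ Finset.univ.image f).card ≤
        (Finset.univ.filter fun v => v ∉ Finset.univ.image f ∧ insert v (Rx f) ∈ H).card +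
        (Finset.univ.filter fun v => v ∉ Finset.univ.image f ∧ insert v (Ry f) ∈ H).card := by
      unfold Rx Ry
      omega
    have h7 : ((p + q + 2 + (Finset.univ.filter fun v => v ∉ Finset.univ.image f).card : ℕ) : ℝ) ≤
        (((Finset.univ.filter fun v => v ∉ Finset.univ.image f ∧ insert v (Rx f) ∈ H).card +
        (Finset.univ.filter fun v => v ∉ Finset.univ.image f ∧ insert v (Ry f) ∈ H).card : ℕ) : ℝ) := by
      exact_mod_cast h6
    push_cast at h7 ⊢
    linarith
  · simp [hg]

end Pool.Agent.KK.E.H77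
end

/-! ### Helper77_KK.E_PAR -/
section
/-!
# E24: choice of the partition
-/

set_option autoImplicit false

open Finset

namespace Pool.Agent.KK.E.H77

section Weights

variable {V ι : Type} [Fintype V] [DecidableEq V] [Fintype ι] [DecidableEq ι]

/-- the uniform weights of a set -/
noncomputable def wt (A : Finset V) (v : V) : ℝ := if v ∈ A then 1 / (A.card : ℝ) else 0

omit [Fintype V] in
theorem wt_nonneg (A : Finset V) (v : V) : 0 ≤ wt A v := by
  unfold wt
  split_ifs <;> positivity

theorem sum_wt {A : Finset V} (hA : A.Nonempty) : ∑ v, wt A v = 1 := by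
  unfold wt
  rw [Finset.sum_ite_mem, Finset.univ_inter, Finset.sum_const, nsmul_eq_mul]
  have : (A.card : ℝ) ≠ 0 := by exact_mod_cast hA.card_pos.ne'
  field_simp

theorem dens_wt (c : ι → Finset V) (P : (ι → V) → Prop) [DecidablePred P] :
    dens c P = ∑ f : ι → V, (if P f then (1 : ℝ) else 0) * ∏ i, wt (c i) (f i) := by
  rw [dens_eq, Finset.sum_div, ← Finset.sum_subset (Finset.subset_univ (Fintype.piFinset c))]
  · apply Finset.sum_congr rfl
    intro f hf
    rw [Fintype.mem_piFinset] at hf
    have : ∏ i, wt (c i) (f i) = 1 / ∏ i, ((c i).card : ℝ) := by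
      rw [one_div, ← Finset.prod_inv_distrib]
      apply Finset.prod_congr rfl
      intro i _
      unfold wt
      rw [if_pos (hf i), one_div]
    rw [this, mul_one_div]
  · intro f _ hf
    rw [Fintype.mem_piFinset] at hf
    push Not at hf
    obtain ⟨i, hi⟩ := hf
    have : ∏ i, wt (c i) (f i) = 0 := by
      apply Finset.prod_eq_zero (Finset.mem_univ i)
      unfold wt
      rw [if_neg hi]
    rw [this, mul_zero]

omit [DecidableEq V] in
/-- total variation of product measures -/
theorem tv (u w : ι → V → ℝ) (hu : ∀ i v, 0 ≤ u i v) (hw : ∀ i v, 0 ≤ w i v)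
    (hu1 : ∀ i, ∑ v, u i v = 1) (hw1 : ∀ i, ∑ v, w i v = 1) (s : Finset ι) :
    ∑ f : ι → V, |∏ i, u i (f i) - ∏ i, (if i ∈ s then w i (f i) else u i (f i))| ≤
      ∑ i ∈ s, ∑ v, |u i v - w i v| := by
  induction s using Finset.induction_on with
  | empty => simp
  | insert j s hj ih =>
    rw [Finset.sum_insert hj]
    set G : ι → V → ℝ := fun i v => if i = j then |u j v - w j v| else
      if i ∈ s then w i v else u i v with hG
    have key : ∀ f : ι → V, |∏ i, (if i ∈ s then w i (f i) else u i (f i)) -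
        ∏ i, (if i ∈ insert j s then w i (f i) else u i (f i))| = ∏ i, G i (f i) := by
      intro f
      rw [← Finset.mul_prod_erase univ (fun i => if i ∈ s then w i (f i) else u i (f i))
          (Finset.mem_univ j),
        ← Finset.mul_prod_erase univ (fun i => if i ∈ insert j s then w i (f i) else u i (f i))
          (Finset.mem_univ j),
        ← Finset.mul_prod_erase univ (fun i => G i (f i)) (Finset.mem_univ j)]
      have e1 : ∏ i ∈ univ.erase j, (if i ∈ insert j s then w i (f i) else u i (f i)) =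
          ∏ i ∈ univ.erase j, (if i ∈ s then w i (f i) else u i (f i)) := by
        apply Finset.prod_congr rfl
        intro i hi
        have hij := Finset.ne_of_mem_erase hi
        simp [hij]
      have e2 : ∏ i ∈ univ.erase j, G i (f i) =
          ∏ i ∈ univ.erase j, (if i ∈ s then w i (f i) else u i (f i)) := by
        apply Finset.prod_congr rfl
        intro i hi
        have hij := Finset.ne_of_mem_erase hi
        simp [hG, hij]
      have e3 : 0 ≤ ∏ i ∈ univ.erase j, (if i ∈ s then w i (f i) else u i (f i)) := by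
        apply Finset.prod_nonneg
        intro i _
        split_ifs
        · exact hw _ _
        · exact hu _ _
      rw [e1, e2, if_neg hj, if_pos (Finset.mem_insert_self j s), ← sub_mul, abs_mul,
        abs_of_nonneg e3]
      simp [hG]
    have sumG : ∑ f : ι → V, ∏ i, G i (f i) = ∑ v, |u j v - w j v| := by
      have h1 := Finset.prod_univ_sum (fun _ : ι => (Finset.univ : Finset V)) G
      rw [Fintype.piFinset_univ] at h1
      rw [← h1, Finset.prod_eq_single j]
      · simp [hG]
      · intro i _ hij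
        simp only [hG, if_neg hij]
        split_ifs
        · exact hw1 i
        · exact hu1 i
      · intro h
        exact absurd (Finset.mem_univ j) h
    calc ∑ f : ι → V, |∏ i, u i (f i) - ∏ i, (if i ∈ insert j s then w i (f i) else u i (f i))|
        ≤ ∑ f : ι → V, (∏ i, G i (f i) + |∏ i, u i (f i) -
            ∏ i, (if i ∈ s then w i (f i) else u i (f i))|) := by
          apply Finset.sum_le_sum
          intro f _
          rw [← key f, add_comm]
          exact abs_sub_le _ _ _
      _ ≤ _ := by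
          rw [Finset.sum_add_distrib, sumG]
          gcongr

/-- change of the box -/
theorem change (c c' : ι → Finset V) (τ : ℝ) (hc : ∀ i, (c i).Nonempty)
    (hc' : ∀ i, (c' i).Nonempty) (hτ : ∀ i, ∑ v, |wt (c i) v - wt (c' i) v| ≤ τ)
    (P : (ι → V) → Prop) : |dens c P - dens c' P| ≤ (Fintype.card ι : ℝ) * τ := by
  classical
  rw [dens_wt, dens_wt, ← Finset.sum_sub_distrib]
  calc |∑ f : ι → V, ((if P f then (1 : ℝ) else 0) * ∏ i, wt (c i) (f i) -
        (if P f then (1 : ℝ) else 0) * ∏ i, wt (c' i) (f i))|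
      ≤ ∑ f : ι → V, |(if P f then (1 : ℝ) else 0) * ∏ i, wt (c i) (f i) -
        (if P f then (1 : ℝ) else 0) * ∏ i, wt (c' i) (f i)| := Finset.abs_sum_le_sum_abs _ _
    _ ≤ ∑ f : ι → V, |∏ i, wt (c i) (f i) - ∏ i, (if i ∈ (univ : Finset ι) then wt (c' i) (f i)
          else wt (c i) (f i))| := by
        apply Finset.sum_le_sum
        intro f _
        simp only [Finset.mem_univ, if_true]
        split_ifs
        · rw [one_mul, one_mul]
        · rw [zero_mul, zero_mul, sub_zero, abs_zero]
          exact abs_nonneg _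
    _ ≤ ∑ i ∈ (univ : Finset ι), ∑ v, |wt (c i) v - wt (c' i) v| :=
        tv (fun i => wt (c i)) (fun i => wt (c' i)) (fun i => wt_nonneg _) (fun i => wt_nonneg _)
          (fun i => sum_wt (hc i)) (fun i => sum_wt (hc' i)) univ
    _ ≤ ∑ i ∈ (univ : Finset ι), τ := Finset.sum_le_sum fun i _ => hτ i
    _ = _ := by rw [Finset.sum_const, Finset.card_univ, nsmul_eq_mul]

omit [Fintype ι] [DecidableEq ι] in
theorem wt_diff (A A' : Finset V) (n ε : ℝ) (hn : 0 < n) (hA : n / 4 ≤ (A.card : ℝ))
    (hA' : n / 4 ≤ (A'.card : ℝ))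
    (hd : ((A \ A').card : ℝ) + ((A' \ A).card : ℝ) ≤ 3 * ε * n) :
    ∑ v, |wt A v - wt A' v| ≤ 24 * ε := by
  have ha : (0 : ℝ) < A.card := by linarith
  have ha' : (0 : ℝ) < A'.card := by linarith
  have h1 : ∀ v, |wt A v - wt A' v| ≤ (if v ∈ A \ A' then 4 / n else 0) +
      (if v ∈ A' \ A then 4 / n else 0) +
      (if v ∈ A ∩ A' then |1 / (A.card : ℝ) - 1 / (A'.card : ℝ)| else 0) := by
    intro v
    have i1 : 1 / (A.card : ℝ) ≤ 4 / n := by
      rw [div_le_div_iff₀ ha hn]
      linarith
    have i2 : 1 / (A'.card : ℝ) ≤ 4 / n := by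
      rw [div_le_div_iff₀ ha' hn]
      linarith
    unfold wt
    by_cases hv : v ∈ A <;> by_cases hv' : v ∈ A'
    · simp [hv, hv']
    · simp only [hv, hv', if_true, if_false, Finset.mem_sdiff, Finset.mem_inter, not_true, not_false_iff,
        and_true, and_false, sub_zero, add_zero]
      rw [abs_of_nonneg (by positivity)]
      exact i1
    · simp only [hv, hv', if_true, if_false, Finset.mem_sdiff, Finset.mem_inter, not_true, not_false_iff,
        and_true, and_false, zero_sub, add_zero, zero_add, abs_neg]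
      rw [abs_of_nonneg (by positivity)]
      exact i2
    · simp [hv, hv']
  have h2 : ∑ v, |wt A v - wt A' v| ≤ ((A \ A').card : ℝ) * (4 / n) +
      ((A' \ A).card : ℝ) * (4 / n) +
      ((A ∩ A').card : ℝ) * |1 / (A.card : ℝ) - 1 / (A'.card : ℝ)| := by
    refine (Finset.sum_le_sum fun v _ => h1 v).trans ?_
    rw [Finset.sum_add_distrib, Finset.sum_add_distrib, Finset.sum_ite_mem, Finset.sum_ite_mem,
      Finset.sum_ite_mem, Finset.univ_inter, Finset.univ_inter, Finset.univ_inter,
      Finset.sum_const, Finset.sum_const, Finset.sum_const, nsmul_eq_mul, nsmul_eq_mul,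
      nsmul_eq_mul]
  have h3 : ((A ∩ A').card : ℝ) * |1 / (A.card : ℝ) - 1 / (A'.card : ℝ)| ≤
      (((A \ A').card : ℝ) + ((A' \ A).card : ℝ)) * (4 / n) := by
    have e1 : (A.card : ℝ) = ((A ∩ A').card : ℝ) + ((A \ A').card : ℝ) := by
      exact_mod_cast (Finset.card_inter_add_card_sdiff A A').symm
    have e2 : (A'.card : ℝ) = ((A ∩ A').card : ℝ) + ((A' \ A).card : ℝ) := by
      rw [Finset.inter_comm]
      exact_mod_cast (Finset.card_inter_add_card_sdiff A' A).symm
    have e3 : 1 / (A.card : ℝ) - 1 / (A'.card : ℝ) =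
        (((A' \ A).card : ℝ) - ((A \ A').card : ℝ)) / ((A.card : ℝ) * (A'.card : ℝ)) := by
      rw [div_sub_div _ _ ha.ne' ha'.ne']
      congr 1
      linarith
    have e4 : |((A' \ A).card : ℝ) - ((A \ A').card : ℝ)| ≤
        ((A \ A').card : ℝ) + ((A' \ A).card : ℝ) := by
      rw [abs_le]
      constructor
      · have := (Nat.cast_nonneg (A' \ A).card : (0 : ℝ) ≤ _)
        linarith
      · have := (Nat.cast_nonneg (A \ A').card : (0 : ℝ) ≤ _)
        linarith
    rw [e3, abs_div, abs_of_pos (mul_pos ha ha')]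
    calc ((A ∩ A').card : ℝ) * (|((A' \ A).card : ℝ) - ((A \ A').card : ℝ)| /
          ((A.card : ℝ) * (A'.card : ℝ)))
        ≤ (A.card : ℝ) * ((((A \ A').card : ℝ) + ((A' \ A).card : ℝ)) /
          ((A.card : ℝ) * (A'.card : ℝ))) := by
          gcongr
          exact Finset.inter_subset_left
      _ = (((A \ A').card : ℝ) + ((A' \ A).card : ℝ)) * (1 / (A'.card : ℝ)) := by
          field_simp
      _ ≤ _ := by
          gcongr ?_ * ?_
          rw [div_le_div_iff₀ ha' hn]
          linarith
  have h4 : ∑ v, |wt A v - wt A' v| ≤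
      (((A \ A').card : ℝ) + ((A' \ A).card : ℝ)) * (8 / n) := by
    refine h2.trans ?_
    have : (8 : ℝ) / n = 4 / n + 4 / n := by ring
    rw [this]
    nlinarith [h3]
  refine h4.trans ?_
  calc (((A \ A').card : ℝ) + ((A' \ A).card : ℝ)) * (8 / n) ≤ (3 * ε * n) * (8 / n) := by
        gcongr
    _ = 24 * ε := by
        field_simp
        ring

end Weights

section Averages

variable {V : Type} [Fintype V] [DecidableEq V]

theorem D_nonneg (H : Finset (Finset V)) (X M : Finset V) (a b : ℕ) : 0 ≤ D H X M a b := by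
  unfold D dens
  positivity

omit [Fintype V] [DecidableEq V] in
theorem avg_unit (X : Finset V) (F : (Unit → V) → ℝ) :
    avg (fun _ : Unit => X) F = (∑ v ∈ X, F fun _ => v) / (X.card : ℝ) := by
  unfold avg
  have h1 : ∏ _i : Unit, (X.card : ℝ) = X.card := by simp
  have h2 : ∑ f ∈ Fintype.piFinset (fun _ : Unit => X), F f = ∑ v ∈ X, F fun _ => v := by
    refine Finset.sum_bij' (fun f _ => f ()) (fun v _ => fun _ => v) ?_ ?_ ?_ ?_ ?_
    · intro f hf
      rw [Fintype.mem_piFinset] at hf
      exact hf ()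
    · intro v hv
      rw [Fintype.mem_piFinset]
      exact fun _ => hv
    · intro f _
      rfl
    · intro v _
      rfl
    · intro f _
      rfl
  rw [h1, h2]

theorem avg1 (h02 : StmtE02) (h03 : StmtE03) (H : Finset (Finset V)) (X : Finset V) (p q : ℕ)
    (hX : X.Nonempty) (hXc : (Xᶜ).Nonempty) :
    D H X ∅ (p + 1) (q + 1) = (∑ v ∈ X, D H X {v} p (q + 1)) / (X.card : ℝ) := by
  classical
  let φ : Unit ⊕ (Fin p ⊕ Fin (q + 1)) → Fin (p + 1) ⊕ Fin (q + 1) :=
    Sum.elim (fun _ => Sum.inl 0) (Sum.elim (fun i => Sum.inl i.succ) Sum.inr)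
  have hφ : Function.Injective φ := by
    rintro (⟨⟩ | i | i) (⟨⟩ | j | j) h <;> simp [φ, Fin.succ_ne_zero, (Fin.succ_ne_zero _).symm] at h ⊢
    · exact h
    · exact h
  have hs : Function.Surjective φ := by
    rintro (i | i)
    · induction i using Fin.cases with
      | zero => exact ⟨Sum.inl (), rfl⟩
      | succ i => exact ⟨Sum.inr (Sum.inl i), rfl⟩
    · exact ⟨Sum.inr (Sum.inr i), rfl⟩
  have hl : lets X (p + 1) (q + 1) ∘ φ = Sum.elim (fun _ : Unit => X) (lets X p (q + 1)) := by
    funext i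
    rcases i with i | i | i <;> rfl
  have hne : ∀ i, (lets X (p + 1) (q + 1) i).Nonempty := by
    rintro (i | i)
    · exact hX
    · exact hXc
  have hne' : ∀ i, (lets X p (q + 1) i).Nonempty := by
    rintro (i | i)
    · exact hX
    · exact hXc
  unfold D
  have e1 : (fun f : Fin (p + 1) ⊕ Fin (q + 1) → V => ∅ ∪ univ.image f ∈ H) =
      fun f => (fun g : Unit ⊕ (Fin p ⊕ Fin (q + 1)) → V => univ.image g ∈ H) (f ∘ φ) := by
    funext f
    have : univ.image (f ∘ φ) = univ.image f := by
      rw [← Finset.image_image, Finset.image_univ_of_surjective hs]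
    simp only [Finset.empty_union, this]
  rw [e1, h02 V _ _ (lets X (p + 1) (q + 1)) φ hne hφ
    (fun g : Unit ⊕ (Fin p ⊕ Fin (q + 1)) → V => univ.image g ∈ H), hl,
    (h03 V Unit _ (fun _ : Unit => X) (lets X p (q + 1)) (fun _ => hX) hne').1, avg_unit]
  congr 1
  apply Finset.sum_congr rfl
  intro v _
  congr 1
  funext g
  have : univ.image (Sum.elim (fun _ : Unit => v) g) = {v} ∪ univ.image g := by
    ext x
    simp only [Finset.mem_image, Finset.mem_univ, true_and, Finset.mem_union,
      Finset.mem_singleton]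
    constructor
    · rintro ⟨i | i, rfl⟩
      · exact Or.inl rfl
      · exact Or.inr ⟨i, rfl⟩
    · rintro (rfl | ⟨i, rfl⟩)
      · exact ⟨Sum.inl (), rfl⟩
      · exact ⟨Sum.inr i, rfl⟩
  rw [this]

theorem avg2 (h02 : StmtE02) (h03 : StmtE03) (H : Finset (Finset V)) (X : Finset V) (p q : ℕ)
    (hX : X.Nonempty) (hXc : (Xᶜ).Nonempty) :
    D H X ∅ (p + 1) (q + 1) = (∑ v ∈ Xᶜ, D H X {v} (p + 1) q) / ((Xᶜ).card : ℝ) := by
  classical
  let φ : Unit ⊕ (Fin (p + 1) ⊕ Fin q) → Fin (p + 1) ⊕ Fin (q + 1) :=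
    Sum.elim (fun _ => Sum.inr 0) (Sum.elim Sum.inl (fun i => Sum.inr i.succ))
  have hφ : Function.Injective φ := by
    rintro (⟨⟩ | i | i) (⟨⟩ | j | j) h <;> simp [φ, Fin.succ_ne_zero, (Fin.succ_ne_zero _).symm] at h ⊢
    · exact h
    · exact h
  have hs : Function.Surjective φ := by
    rintro (i | i)
    · exact ⟨Sum.inr (Sum.inl i), rfl⟩
    · induction i using Fin.cases with
      | zero => exact ⟨Sum.inl (), rfl⟩
      | succ i => exact ⟨Sum.inr (Sum.inr i), rfl⟩
  have hl : lets X (p + 1) (q + 1) ∘ φ = Sum.elim (fun _ : Unit => Xᶜ) (lets X (p + 1) q) := by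
    funext i
    rcases i with i | i | i <;> rfl
  have hne : ∀ i, (lets X (p + 1) (q + 1) i).Nonempty := by
    rintro (i | i)
    · exact hX
    · exact hXc
  have hne' : ∀ i, (lets X (p + 1) q i).Nonempty := by
    rintro (i | i)
    · exact hX
    · exact hXc
  unfold D
  have e1 : (fun f : Fin (p + 1) ⊕ Fin (q + 1) → V => ∅ ∪ univ.image f ∈ H) =
      fun f => (fun g : Unit ⊕ (Fin (p + 1) ⊕ Fin q) → V => univ.image g ∈ H) (f ∘ φ) := by
    funext f
    have : univ.image (f ∘ φ) = univ.image f := by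
      rw [← Finset.image_image, Finset.image_univ_of_surjective hs]
    simp only [Finset.empty_union, this]
  rw [e1, h02 V _ _ (lets X (p + 1) (q + 1)) φ hne hφ
    (fun g : Unit ⊕ (Fin (p + 1) ⊕ Fin q) → V => univ.image g ∈ H), hl,
    (h03 V Unit _ (fun _ : Unit => Xᶜ) (lets X (p + 1) q) (fun _ => hXc) hne').1, avg_unit]
  congr 1
  apply Finset.sum_congr rfl
  intro v _
  congr 1
  funext g
  have : univ.image (Sum.elim (fun _ : Unit => v) g) = {v} ∪ univ.image g := by
    ext x
    simp only [Finset.mem_image, Finset.mem_univ, true_and, Finset.mem_union,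
      Finset.mem_singleton]
    constructor
    · rintro ⟨i | i, rfl⟩
      · exact Or.inl rfl
      · exact Or.inr ⟨i, rfl⟩
    · rintro (rfl | ⟨i, rfl⟩)
      · exact ⟨Sum.inl (), rfl⟩
      · exact ⟨Sum.inr i, rfl⟩
  rw [this]

end Averages

theorem e_par (h02 : StmtE02) (h03 : StmtE03) (h06 : StmtE06) : StmtE24 := by
  classical
  intro V _ _ H X p q B δ ε hA hε hεδ hδ hD0
  set n : ℝ := (Fintype.card V : ℝ) with hn
  have hδ0 := hA.pos
  have hk2 : (2 : ℝ) ≤ ((p + q + 2 : ℕ) : ℝ) := by
    have : 2 ≤ p + q + 2 := by omega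
    exact_mod_cast this
  set k : ℝ := ((p + q + 2 : ℕ) : ℝ) with hk
  have hkε : k * ε ≤ δ / 100 := by linarith
  have hε2 : 2 * ε ≤ k * ε := mul_le_mul_of_nonneg_right hk2 hε
  have hn0 : 0 < n := by
    have h1 := hA.big
    have h2 : (0 : ℝ) < ((B + p + q + 2 : ℕ) : ℝ) := by
      have : 0 < B + p + q + 2 := by omega
      exact_mod_cast this
    have h3 : 0 < 100 * k ^ 2 * ((B + p + q + 2 : ℕ) : ℝ) := by positivity
    have h4 : 0 < δ * n := lt_of_lt_of_le h3 h1
    exact (mul_pos_iff_of_pos_left hδ0).1 h4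
  have lo := hA.lo
  have hi := hA.hi
  have lo' := hA.lo'
  have hi' := hA.hi'
  rw [← hn] at lo hi lo' hi'
  have hδn : δ * n ≤ n / 40 := by nlinarith
  have hδn0 : 0 < δ * n := mul_pos hδ0 hn0
  have hεn : ε * n ≤ δ * n / 200 := by nlinarith
  have hεn0 : 0 ≤ ε * n := mul_nonneg hε hn0.le
  have hX0 : (0 : ℝ) < X.card := by nlinarith
  have hXc0 : (0 : ℝ) < (Xᶜ).card := by nlinarith
  have hXne : X.Nonempty := Finset.card_pos.1 (by exact_mod_cast hX0)
  have hXcne : (Xᶜ).Nonempty := Finset.card_pos.1 (by exact_mod_cast hXc0)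
  have hsum : (X.card : ℝ) + ((Xᶜ).card : ℝ) = n := by
    rw [hn]
    exact_mod_cast Finset.card_add_card_compl X
  set X' : Finset V := univ.filter fun v => D H X {v} p (q + 1) ≤ D H X {v} (p + 1) q with hX'
  have h6 : ∀ v : V, 1 - 3 * δ ≤ D H X {v} (p + 1) q + D H X {v} p (q + 1) := fun v =>
    h06 V H X {v} p q B p q δ hA (by rw [Finset.card_singleton]; ring)
  have inX : ∀ v ∈ X', 9 / 20 ≤ D H X {v} (p + 1) q := by
    intro v hv
    rw [hX', Finset.mem_filter] at hv
    have := h6 v
    linarith [hv.2]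
  have outX : ∀ v, v ∉ X' → 9 / 20 ≤ D H X {v} p (q + 1) := by
    intro v hv
    rw [hX', Finset.mem_filter] at hv
    push Not at hv
    have := h6 v
    linarith [hv (Finset.mem_univ v)]
  have s1 : ((X \ X').card : ℝ) ≤ 3 * (ε * X.card) := by
    have a1 := avg1 h02 h03 H X p q hXne hXcne
    have a2 : ∑ v ∈ X, D H X {v} p (q + 1) ≤ ε * X.card := by
      rw [a1, div_le_iff₀ hX0] at hD0
      exact hD0
    have a3 : ((X \ X').card : ℝ) * (9 / 20) ≤ ∑ v ∈ X, D H X {v} p (q + 1) := by
      calc ((X \ X').card : ℝ) * (9 / 20) = ∑ v ∈ X \ X', (9 / 20 : ℝ) := by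
            rw [Finset.sum_const, nsmul_eq_mul]
        _ ≤ ∑ v ∈ X \ X', D H X {v} p (q + 1) :=
            Finset.sum_le_sum fun v hv => outX v (Finset.mem_sdiff.1 hv).2
        _ ≤ _ := Finset.sum_le_sum_of_subset_of_nonneg Finset.sdiff_subset
            fun v _ _ => D_nonneg _ _ _ _ _
    have a4 : 0 ≤ ε * (X.card : ℝ) := by positivity
    linarith
  have s2 : ((X' \ X).card : ℝ) ≤ 3 * (ε * (Xᶜ).card) := by
    have a1 := avg2 h02 h03 H X p q hXne hXcne
    have a2 : ∑ v ∈ Xᶜ, D H X {v} (p + 1) q ≤ ε * (Xᶜ).card := by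
      rw [a1, div_le_iff₀ hXc0] at hD0
      exact hD0
    have a3 : ((X' \ X).card : ℝ) * (9 / 20) ≤ ∑ v ∈ Xᶜ, D H X {v} (p + 1) q := by
      calc ((X' \ X).card : ℝ) * (9 / 20) = ∑ v ∈ X' \ X, (9 / 20 : ℝ) := by
            rw [Finset.sum_const, nsmul_eq_mul]
        _ ≤ ∑ v ∈ X' \ X, D H X {v} (p + 1) q :=
            Finset.sum_le_sum fun v hv => inX v (Finset.mem_sdiff.1 hv).1
        _ ≤ _ := by
            apply Finset.sum_le_sum_of_subset_of_nonneg _ fun v _ _ => D_nonneg _ _ _ _ _
            intro v hv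
            rw [Finset.mem_compl]
            exact (Finset.mem_sdiff.1 hv).2
    have a4 : 0 ≤ ε * ((Xᶜ).card : ℝ) := by positivity
    linarith
  have s3 : ((X \ X').card : ℝ) + ((X' \ X).card : ℝ) ≤ 3 * ε * n := by
    rw [← hsum]
    linarith
  have p1 : (0 : ℝ) ≤ ((X \ X').card : ℝ) := Nat.cast_nonneg _
  have p2 : (0 : ℝ) ≤ ((X' \ X).card : ℝ) := Nat.cast_nonneg _
  have e1 : (X.card : ℝ) = ((X ∩ X').card : ℝ) + ((X \ X').card : ℝ) := by
    exact_mod_cast (Finset.card_inter_add_card_sdiff X X').symm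
  have e2 : (X'.card : ℝ) = ((X ∩ X').card : ℝ) + ((X' \ X).card : ℝ) := by
    rw [Finset.inter_comm]
    exact_mod_cast (Finset.card_inter_add_card_sdiff X' X).symm
  have hsum' : (X'.card : ℝ) + ((X'ᶜ).card : ℝ) = n := by
    rw [hn]
    exact_mod_cast Finset.card_add_card_compl X'
  have c1 : Xᶜ \ X'ᶜ = X' \ X := by
    ext v
    simp only [Finset.mem_sdiff, Finset.mem_compl, not_not]
    exact and_comm
  have c2 : X'ᶜ \ Xᶜ = X \ X' := by
    ext v
    simp only [Finset.mem_sdiff, Finset.mem_compl, not_not]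
    exact and_comm
  have hτ : ∀ b : Bool, ∑ v, |wt (sd X b) v - wt (sd X' b) v| ≤ 24 * ε := by
    intro b
    cases b
    · simp only [sd, Bool.false_eq_true, if_false]
      apply wt_diff Xᶜ X'ᶜ n ε hn0
      · linarith
      · linarith
      · rw [c1, c2]
        linarith
    · simp only [sd, if_true]
      apply wt_diff X X' n ε hn0
      · linarith
      · linarith
      · exact s3
  have hne : ∀ b : Bool, (sd X b).Nonempty := by
    intro b
    cases b
    · exact hXcne
    · exact hXne
  have hne' : ∀ b : Bool, (sd X' b).Nonempty := by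
    intro b
    cases b
    · apply Finset.card_pos.1
      have : (0 : ℝ) < (X'ᶜ).card := by linarith
      exact_mod_cast this
    · apply Finset.card_pos.1
      have : (0 : ℝ) < X'.card := by linarith
      exact_mod_cast this
  have hl : ∀ (Z : Finset V) (a b : ℕ) (i : Fin a ⊕ Fin b), lets Z a b i =
      sd Z (Sum.elim (fun _ => true) (fun _ => false) i) := by
    intro Z a b i
    rcases i with i | i <;> rfl
  have hch : ∀ (M : Finset V) (a b : ℕ), a + b ≤ p + q + 2 →
      |D H X M a b - D H X' M a b| ≤ δ := by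
    intro M a b hab
    have h1 := change (lets X a b) (lets X' a b) (24 * ε)
      (fun i => by rw [hl]; exact hne _) (fun i => by rw [hl]; exact hne' _)
      (fun i => by rw [hl, hl]; exact hτ _) (fun f => M ∪ Finset.univ.image f ∈ H)
    rw [Fintype.card_sum, Fintype.card_fin, Fintype.card_fin] at h1
    refine h1.trans ?_
    have h2 : ((a + b : ℕ) : ℝ) ≤ k := by
      rw [hk]
      exact_mod_cast hab
    have h3 : ((a + b : ℕ) : ℝ) * (24 * ε) ≤ k * (24 * ε) :=
      mul_le_mul_of_nonneg_right h2 (by positivity)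
    linarith
  refine ⟨X', ⟨?_, ?_⟩, ?_, ?_, ?_⟩
  · intro v hv
    have h1 := inX v hv
    have h2 := abs_le.1 (hch {v} (p + 1) q (by omega))
    linarith [h2.2]
  · intro v hv
    have h1 := outX v hv
    have h2 := abs_le.1 (hch {v} p (q + 1) (by omega))
    linarith [h2.2]
  · refine ⟨hA.uni, hA.dirac, by linarith, by linarith, ?_, ?_, ?_, ?_, ?_⟩
    · rw [← hn]
      linarith
    · rw [← hn]
      linarith
    · rw [← hn]
      linarith
    · rw [← hn]
      linarith
    · have := hA.big
      rw [← hn] at this ⊢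
      linarith
  · have h2 := abs_le.1 (hch ∅ (p + 1) (q + 1) (by omega))
    linarith [h2.1]
  · intro w S β hw hS
    unfold Alm at hS ⊢
    have h1 := change (fun i : Fin w.length => sd X (w.get i)) (fun i => sd X' (w.get i)) (24 * ε)
      (fun i => hne _) (fun i => hne' _) (fun i => hτ _) (fun a => List.ofFn a ∉ S)
    rw [Fintype.card_fin] at h1
    have h2 : (w.length : ℝ) ≤ k := by
      rw [hk]
      exact_mod_cast hw
    have h3 : (w.length : ℝ) * (24 * ε) ≤ k * (24 * ε) :=
      mul_le_mul_of_nonneg_right h2 (by positivity)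
    have h4 := abs_le.1 (h1.trans h3)
    linarith [h4.1]

end Pool.Agent.KK.E.H77
end

/-! ### Helper31_KK.SWC -/
section
/-! Squad KK, row SWC: swaps from common links. -/

set_option autoImplicit false

namespace Pool.Agent.KK.H31

open Pool.Agent.KK

theorem mem_drop_ofFn {V : Type} {m : ℕ} (a : Fin m → V) (t : ℕ) (w : V) :
    w ∈ (List.ofFn a).drop t ↔ ∃ j : Fin m, t ≤ j ∧ a j = w := by
  constructor
  · intro h
    obtain ⟨i, hi, h1⟩ := List.mem_iff_getElem.1 h
    rw [List.getElem_drop, List.getElem_ofFn] at h1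
    rw [List.length_drop, List.length_ofFn] at hi
    exact ⟨⟨t + i, by omega⟩, by simp, h1⟩
  · rintro ⟨j, hj, rfl⟩
    rw [List.mem_iff_getElem]
    refine ⟨j - t, ?_, ?_⟩
    · rw [List.length_drop, List.length_ofFn]
      have := j.2
      omega
    · rw [List.getElem_drop, List.getElem_ofFn]
      congr 1
      ext
      simp only
      omega

theorem mem_take_ofFn {V : Type} {m : ℕ} (a : Fin m → V) (t : ℕ) (w : V) :
    w ∈ (List.ofFn a).take t ↔ ∃ j : Fin m, (j : ℕ) < t ∧ a j = w := by
  constructor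
  · intro h
    obtain ⟨i, hi, h1⟩ := List.mem_iff_getElem.1 h
    rw [List.getElem_take, List.getElem_ofFn] at h1
    rw [List.length_take, List.length_ofFn] at hi
    exact ⟨⟨i, by omega⟩, by simp only; omega, h1⟩
  · rintro ⟨j, hj, rfl⟩
    rw [List.mem_iff_getElem]
    refine ⟨j, ?_, ?_⟩
    · rw [List.length_take, List.length_ofFn]
      have := j.2
      omega
    · rw [List.getElem_take, List.getElem_ofFn]

/-- the number of functions which are not injective -/
theorem not_inj {J V : Type} [Fintype J] [DecidableEq J] [Fintype V] :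
    ({x : J → V | ¬ Function.Injective x}.ncard) ≤
      (Fintype.card J) ^ 2 * (Fintype.card V) ^ (Fintype.card J - 1) := by
  classical
  have h1 : {x : J → V | ¬ Function.Injective x} ⊆
      ⋃ p ∈ (Finset.univ : Finset (J × J)), {x : J → V | p.1 ≠ p.2 ∧ x p.1 = x p.2} := by
    intro x hx
    rw [Set.mem_setOf_eq, Function.Injective] at hx
    push Not at hx
    obtain ⟨a, b, h, hab⟩ := hx
    exact Set.mem_biUnion (Finset.mem_coe.2 (Finset.mem_univ (a, b))) ⟨hab, h⟩
  have h2 : ∀ p : J × J, ({x : J → V | p.1 ≠ p.2 ∧ x p.1 = x p.2}.ncard) ≤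
      (Fintype.card V) ^ (Fintype.card J - 1) := by
    intro p
    by_cases hp : p.1 = p.2
    · have : {x : J → V | p.1 ≠ p.2 ∧ x p.1 = x p.2} = ∅ := by
        ext x
        simp [hp]
      rw [this, Set.ncard_empty]
      exact Nat.zero_le _
    · have h3 : Set.InjOn (fun (x : J → V) (j : {j : J // j ≠ p.2}) => x j)
          {x : J → V | p.1 ≠ p.2 ∧ x p.1 = x p.2} := by
        intro x hx y hy hxy
        funext j
        by_cases hj : j = p.2
        · rw [hj, ← hx.2, ← hy.2]
          exact congrFun hxy ⟨p.1, hp⟩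
        · exact congrFun hxy ⟨j, hj⟩
      have h4 := Set.ncard_le_ncard_of_injOn (t := (Set.univ : Set ({j : J // j ≠ p.2} → V)))
        _ (fun _ _ => Set.mem_univ _) h3 Set.finite_univ
      refine h4.trans (le_of_eq ?_)
      rw [Set.ncard_univ, Nat.card_eq_fintype_card, Fintype.card_fun]
      congr 1
      rw [Fintype.card_subtype_compl]
      simp
  calc ({x : J → V | ¬ Function.Injective x}.ncard)
      ≤ (⋃ p ∈ (Finset.univ : Finset (J × J)),
          {x : J → V | p.1 ≠ p.2 ∧ x p.1 = x p.2}).ncard :=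
        Set.ncard_le_ncard h1 (Set.toFinite _)
    _ ≤ ∑ p : J × J, ({x : J → V | p.1 ≠ p.2 ∧ x p.1 = x p.2}.ncard) :=
        Finset.set_ncard_biUnion_le _ _
    _ ≤ ∑ _p : J × J, (Fintype.card V) ^ (Fintype.card J - 1) :=
        Finset.sum_le_sum fun p _ => h2 p
    _ = (Fintype.card J) ^ 2 * (Fintype.card V) ^ (Fintype.card J - 1) := by
        rw [Finset.sum_const, smul_eq_mul, Finset.card_univ, Fintype.card_prod, sq]

/-- the windows of `A u B` -/
theorem window {V : Type} {A B s : List V} {u : V} {m : ℕ} (hA : A.length = m)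
    (hB : B.length = m) (hs : s <:+: A ++ [u] ++ B) (hl : s.length = m + 1) :
    ∃ t, t ≤ m ∧ s = A.drop t ++ (u :: B.take t) := by
  obtain ⟨pre, suf, h⟩ := hs
  have hlen := congrArg List.length h
  simp only [List.length_append, List.length_cons, List.length_nil] at hlen
  have ht : pre.length ≤ m := by omega
  refine ⟨pre.length, ht, ?_⟩
  have h1 : s = ((A ++ [u] ++ B).drop pre.length).take (m + 1) := by
    rw [← h, List.append_assoc, List.drop_left, ← hl, List.take_left]
  have h2 : (A ++ [u] ++ B).drop pre.length = A.drop pre.length ++ (u :: B) := by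
    rw [List.append_assoc, List.drop_append_of_le_length (by omega)]
    rfl
  have h3 : m + 1 = (A.drop pre.length).length + (pre.length + 1) := by
    rw [List.length_drop]
    omega
  rw [h1, h2, h3, List.take_length_add_append, List.take_succ_cons]

theorem seg_of {V : Type} [Fintype V] [DecidableEq V] {H : Finset (Finset V)} {m : ℕ}
    {T : Set (List V)} {u : V} {x : Fin m → Fin 2 → V}
    (hx : ∀ g : Fin m → Fin 2, List.ofFn (fun i => x i (g i)) ∈ T ∧
      u ∉ Finset.univ.image (fun i => x i (g i)) ∧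
      insert u (Finset.univ.image (fun i => x i (g i))) ∈ H)
    (hinj : Function.Injective (fun p : Fin m × Fin 2 => x p.1 p.2)) :
    Seg H (m + 1) T T (List.ofFn (fun i => x i 0) ++ [u] ++ List.ofFn (fun i => x i 1)) := by
  have hlA : (List.ofFn (fun i => x i 0)).length = m := List.length_ofFn
  have hlB : (List.ofFn (fun i => x i 1)).length = m := List.length_ofFn
  have hlen : (List.ofFn (fun i => x i 0) ++ [u] ++ List.ofFn (fun i => x i 1)).length =
      m + 1 + m := by
    rw [List.length_append, List.length_append, hlA, hlB]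
    rfl
  have hu : ∀ (i : Fin m) (e : Fin 2), x i e ≠ u := by
    intro i e h
    apply (hx fun _ => e).2.1
    rw [Finset.mem_image]
    exact ⟨i, Finset.mem_univ _, h⟩
  refine ⟨⟨?_, ?_⟩, ?_, ?_, ?_⟩
  · rw [List.append_assoc, List.nodup_append]
    refine ⟨?_, ?_, ?_⟩
    · rw [List.nodup_ofFn]
      intro i j h
      exact congrArg Prod.fst (hinj (a₁ := (i, 0)) (a₂ := (j, 0)) h)
    · rw [List.singleton_append, List.nodup_cons]
      refine ⟨?_, ?_⟩
      · rw [List.mem_ofFn]
        rintro ⟨i, hi⟩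
        exact hu i 1 hi
      · rw [List.nodup_ofFn]
        intro i j h
        exact congrArg Prod.fst (hinj (a₁ := (i, 1)) (a₂ := (j, 1)) h)
    · intro a ha b hb hab
      rw [List.mem_ofFn] at ha
      obtain ⟨i, rfl⟩ := ha
      rw [List.singleton_append, List.mem_cons, List.mem_ofFn] at hb
      rcases hb with hb | ⟨j, hj⟩
      · exact hu i 0 (hab.trans hb)
      · have h1 := congrArg Prod.snd (hinj (a₁ := (i, 0)) (a₂ := (j, 1)) (hab.trans hj.symm))
        exact absurd h1 (by simp)
  · intro s hs hl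
    obtain ⟨t, ht, rfl⟩ := window hlA hlB hs hl
    have h1 := (hx fun i => if (i : ℕ) < t then 1 else 0).2.2
    have h2 : (List.drop t (List.ofFn fun i => x i 0) ++
        u :: List.take t (List.ofFn fun i => x i 1)).toFinset =
        insert u (Finset.univ.image fun i => x i (if (i : ℕ) < t then 1 else 0)) := by
      ext w
      rw [List.mem_toFinset, List.mem_append, List.mem_cons, mem_drop_ofFn, mem_take_ofFn,
        Finset.mem_insert, Finset.mem_image]
      constructor
      · rintro (⟨j, hj, h⟩ | h | ⟨j, hj, h⟩)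
        · refine Or.inr ⟨j, Finset.mem_univ _, ?_⟩
          rw [if_neg (by omega)]
          exact h
        · exact Or.inl h
        · refine Or.inr ⟨j, Finset.mem_univ _, ?_⟩
          rw [if_pos hj]
          exact h
      · rintro (h | ⟨j, -, h⟩)
        · exact Or.inr (Or.inl h)
        · by_cases hj : (j : ℕ) < t
          · rw [if_pos hj] at h
            exact Or.inr (Or.inr ⟨j, hj, h⟩)
          · rw [if_neg hj] at h
            exact Or.inl ⟨j, by omega, h⟩
    rw [h2]
    exact h1
  · rw [hlen]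
    omega
  · have h1 : (m + 1 - 1) = (List.ofFn fun i => x i 0).length := by rw [hlA]; rfl
    rw [List.append_assoc, h1, List.take_left]
    exact (hx fun _ => 0).1
  · have h1 : (List.ofFn (fun i => x i 0) ++ [u] ++ List.ofFn (fun i => x i 1)).length -
        (m + 1 - 1) = (List.ofFn (fun i => x i 0) ++ [u]).length := by
      rw [hlen, List.length_append, hlA]
      simp
    rw [h1, List.drop_left]
    exact (hx fun _ => 1).1

/-- SWC -/
theorem swc (ckq : CkqStmt) : SwcStmt := by
  intro k q ρ hk hq hρ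
  obtain ⟨m, rfl⟩ : ∃ m, k = m + 1 := ⟨k - 1, by omega⟩
  obtain ⟨β, hβ⟩ : ∃ β : ℝ, β = (ρ / q) ^ (2 ^ m) := ⟨_, rfl⟩
  have hq' : (0 : ℝ) < q := by exact_mod_cast hq
  have hβ0 : 0 < β := by
    rw [hβ]
    exact pow_pos (div_pos hρ hq') _
  obtain ⟨n₀, hn₀⟩ := exists_nat_ge (2 * ((m * 2 : ℕ) : ℝ) ^ 2 / β)
  refine ⟨β / 2, n₀ + 1, by positivity, ?_⟩
  intro V _ _ H T hn hU hT u v hF
  classical
  have hm : m + 1 - 1 = m := by omega
  rw [hm] at hF
  have hn1 : (1 : ℝ) ≤ Fintype.card V := by
    have : 1 ≤ Fintype.card V := by omega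
    exact_mod_cast this
  have hn0 : (n₀ : ℝ) ≤ Fintype.card V := by
    have : n₀ ≤ Fintype.card V := by omega
    exact_mod_cast this
  -- the popular class
  obtain ⟨P, hP⟩ : ∃ P : (Fin m → V) → Prop, P = fun f =>
      u ∉ Finset.univ.image f ∧ v ∉ Finset.univ.image f ∧
        insert u (Finset.univ.image f) ∈ H ∧ insert v (Finset.univ.image f) ∈ H := ⟨_, rfl⟩
  have hpig : ∃ i : Fin q, ρ / q * (Fintype.card V : ℝ) ^ m ≤
      ({f : Fin m → V | List.ofFn f ∈ T i ∧ P f}.ncard : ℝ) := by
    by_contra hcon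
    push Not at hcon
    have h1 : {f : Fin m → V | (∃ i, List.ofFn f ∈ T i) ∧
          u ∉ Finset.univ.image f ∧ v ∉ Finset.univ.image f ∧
          insert u (Finset.univ.image f) ∈ H ∧ insert v (Finset.univ.image f) ∈ H} ⊆
        ⋃ i ∈ (Finset.univ : Finset (Fin q)), {f : Fin m → V | List.ofFn f ∈ T i ∧ P f} := by
      rintro f ⟨⟨i, hi⟩, hf⟩
      refine Set.mem_biUnion (Finset.mem_coe.2 (Finset.mem_univ i)) ⟨hi, ?_⟩
      rw [hP]
      exact hf
    have h2 := (Set.ncard_le_ncard h1 (Set.toFinite _)).trans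
      (Finset.set_ncard_biUnion_le _ _)
    have h3 : (({f : Fin m → V | (∃ i, List.ofFn f ∈ T i) ∧
          u ∉ Finset.univ.image f ∧ v ∉ Finset.univ.image f ∧
          insert u (Finset.univ.image f) ∈ H ∧ insert v (Finset.univ.image f) ∈ H}.ncard : ℕ) : ℝ) ≤
        ∑ i : Fin q, ({f : Fin m → V | List.ofFn f ∈ T i ∧ P f}.ncard : ℝ) := by
      exact_mod_cast h2
    have h4 : ∑ i : Fin q, ({f : Fin m → V | List.ofFn f ∈ T i ∧ P f}.ncard : ℝ) <
        ∑ _i : Fin q, ρ / q * (Fintype.card V : ℝ) ^ m := by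
      refine Finset.sum_lt_sum_of_nonempty ⟨⟨0, hq⟩, Finset.mem_univ _⟩ fun i _ => hcon i
    rw [Finset.sum_const, Finset.card_univ, Fintype.card_fin, nsmul_eq_mul] at h4
    have h5 : (q : ℝ) * (ρ / q * (Fintype.card V : ℝ) ^ m) = ρ * (Fintype.card V : ℝ) ^ m := by
      field_simp
    rw [h5] at h4
    exact absurd hF (not_le.2 (lt_of_le_of_lt h3 h4))
  obtain ⟨i, hi⟩ := hpig
  have hX := ckq m 2 (ρ / q) (by norm_num) (div_pos hρ hq') V (by
    have : 1 ≤ Fintype.card V := by omega
    omega) _ hi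
  rw [← hβ] at hX
  obtain ⟨X, hXe⟩ : ∃ X : Set (Fin m → Fin 2 → V), X = {x | ∀ g : Fin m → Fin 2,
    (fun i => x i (g i)) ∈ {f : Fin m → V | List.ofFn f ∈ T i ∧ P f}} := ⟨_, rfl⟩
  rw [← hXe] at hX
  obtain ⟨N, hN⟩ : ∃ N : Set (Fin m → Fin 2 → V), N = {x |
    ¬ Function.Injective (fun p : Fin m × Fin 2 => x p.1 p.2)} := ⟨_, rfl⟩
  have hNc : N.ncard ≤ (m * 2) ^ 2 * (Fintype.card V) ^ (m * 2 - 1) := by
    have h1 := not_inj (J := Fin m × Fin 2) (V := V)
    rw [Fintype.card_prod, Fintype.card_fin, Fintype.card_fin] at h1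
    refine le_trans ?_ h1
    refine Set.ncard_le_ncard_of_injOn (fun x (p : Fin m × Fin 2) => x p.1 p.2) ?_ ?_
      (Set.toFinite _)
    · intro x hx
      rw [hN] at hx
      exact hx
    · intro x _ y _ hxy
      funext a b
      exact congrFun hxy (a, b)
  have hsub : (X \ N).ncard ≤ {p : (Fin m → V) × (Fin m → V) | ∃ i,
      Seg H (m + 1) (T i) (T i) (List.ofFn p.1 ++ [u] ++ List.ofFn p.2) ∧
      Seg H (m + 1) (T i) (T i) (List.ofFn p.1 ++ [v] ++ List.ofFn p.2)}.ncard := by
    refine Set.ncard_le_ncard_of_injOn (fun x => (fun i => x i 0, fun i => x i 1)) ?_ ?_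
      (Set.toFinite _)
    · rintro x ⟨hx, hx'⟩
      rw [hXe] at hx
      rw [hN, Set.mem_setOf_eq, not_not] at hx'
      refine ⟨i, ?_, ?_⟩
      · refine seg_of (x := x) (fun g => ?_) hx'
        have h1 := hx g
        rw [hP] at h1
        exact ⟨h1.1, h1.2.1, h1.2.2.2.1⟩
      · refine seg_of (x := x) (fun g => ?_) hx'
        have h1 := hx g
        rw [hP] at h1
        exact ⟨h1.1, h1.2.2.1, h1.2.2.2.2⟩
    · intro x _ y _ hxy
      have h1 := (Prod.ext_iff.1 hxy).1
      have h2 := (Prod.ext_iff.1 hxy).2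
      funext a b
      fin_cases b
      · exact congrFun h1 a
      · exact congrFun h2 a
  have hdiff : X.ncard ≤ (X \ N).ncard + N.ncard := by
    have h1 := Set.ncard_le_ncard (s := X) (t := (X \ N) ∪ N) (by
      intro x hx
      by_cases h : x ∈ N
      · exact Or.inr h
      · exact Or.inl ⟨hx, h⟩) (Set.toFinite _)
    exact h1.trans (Set.ncard_union_le _ _)
  have hNr : (N.ncard : ℝ) ≤ β / 2 * (Fintype.card V : ℝ) ^ (m * 2) := by
    rcases Nat.eq_zero_or_pos m with h0 | h0
    · have h1 : N.ncard = 0 := by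
        have h2 : (m * 2) ^ 2 * (Fintype.card V) ^ (m * 2 - 1) = 0 := by
          rw [h0]
          simp
        omega
      rw [h1]
      have h3 : (0 : ℝ) ≤ β / 2 * (Fintype.card V : ℝ) ^ (m * 2) := by positivity
      simpa using h3
    · have h1 : (N.ncard : ℝ) ≤ ((m * 2 : ℕ) : ℝ) ^ 2 * (Fintype.card V : ℝ) ^ (m * 2 - 1) := by
        exact_mod_cast hNc
      have h2 : (Fintype.card V : ℝ) ^ (m * 2) =
          (Fintype.card V : ℝ) ^ (m * 2 - 1) * Fintype.card V := by
        rw [← pow_succ]
        congr 1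
        omega
      have h3 : ((m * 2 : ℕ) : ℝ) ^ 2 ≤ β / 2 * Fintype.card V := by
        have h4 := hn₀.trans hn0
        rw [div_le_iff₀ hβ0] at h4
        linarith
      rw [h2]
      calc (N.ncard : ℝ) ≤ ((m * 2 : ℕ) : ℝ) ^ 2 * (Fintype.card V : ℝ) ^ (m * 2 - 1) := h1
        _ ≤ (β / 2 * Fintype.card V) * (Fintype.card V : ℝ) ^ (m * 2 - 1) :=
          mul_le_mul_of_nonneg_right h3 (by positivity)
        _ = _ := by ring
  unfold Swp
  rw [hm]
  have hfin : (X.ncard : ℝ) ≤ ((X \ N).ncard : ℝ) + (N.ncard : ℝ) := by exact_mod_cast hdiff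
  have hsub' : ((X \ N).ncard : ℝ) ≤ ({p : (Fin m → V) × (Fin m → V) | ∃ i,
      Seg H (m + 1) (T i) (T i) (List.ofFn p.1 ++ [u] ++ List.ofFn p.2) ∧
      Seg H (m + 1) (T i) (T i) (List.ofFn p.1 ++ [v] ++ List.ofFn p.2)}.ncard : ℝ) := by
    exact_mod_cast hsub
  refine le_trans ?_ hsub'
  rw [mul_comm 2 m] at hX ⊢
  linarith

end Pool.Agent.KK.H31
end

/-! ### Helper76_KK.NPA -/
section
/-!
# Squad KK, NPA: elementary facts on `NearPar`
-/

set_option autoImplicit false

namespace Pool.Agent.KK.H76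

theorem xc_compl' {V : Type} [Fintype V] [DecidableEq V] (X : Finset V) {m : ℕ} (f : Fin m → V) :
    xc Xᶜ f + xc X f = m := by
  unfold xc
  have h := Finset.card_filter_add_card_filter_not (s := (Finset.univ : Finset (Fin m)))
    (fun i => f i ∈ X)
  rw [Finset.card_univ, Fintype.card_fin] at h
  have e : (Finset.univ.filter fun i => f i ∈ Xᶜ) = Finset.univ.filter fun i => ¬ f i ∈ X := by
    refine Finset.filter_congr fun i _ => ?_
    rw [Finset.mem_compl]
  rw [e]
  omega

/-- NPA -/
theorem npa : NpaStmt := by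
  intro V _ _ H A k p η hU hN
  obtain ⟨h1, h2, h3⟩ := hN
  refine ⟨⟨h2, ?_, ?_⟩, ⟨h1, h2, ?_⟩, fun j hj => ?_⟩
  · rw [compl_compl]
    exact h1
  · refine le_trans (le_of_eq ?_) h3
    congr 2
    ext f
    have h4 := xc_compl' A f
    have h5 : xc Aᶜ f % 2 = (k + p) % 2 % 2 ↔ xc A f % 2 = p % 2 := by omega
    simp only [Set.mem_setOf_eq, h5]
  · refine le_trans (le_of_eq ?_) h3
    congr 2
    ext f
    simp only [Set.mem_setOf_eq, Nat.mod_mod]
  · refine le_trans ?_ h3
    refine Nat.cast_le.2 (Set.ncard_le_ncard ?_ (Set.toFinite _))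
    rintro f ⟨hf, hfj⟩
    have hinj : Function.Injective f := by
      have h4 : (Finset.univ.image f).card = (Finset.univ : Finset (Fin k)).card := by
        rw [hU _ hf, Finset.card_univ, Fintype.card_fin]
      have h5 := Finset.card_image_iff.1 h4
      intro a b hab
      exact h5 (Finset.mem_coe.2 (Finset.mem_univ a)) (Finset.mem_coe.2 (Finset.mem_univ b)) hab
    refine ⟨hinj, fun h6 => hj ?_⟩
    have h7 := h6.1 hf
    rw [← h7]
    unfold xc
    rw [hfj]

end Pool.Agent.KK.H76
end

/-! ### Helper52_KK.G_MOV -/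
section
set_option autoImplicit false

namespace Pool.Agent.KK.E.H52

theorem win_eq (m r : List Bool) (x y : Bool) (a : ℕ) (ha : a ≤ m.length) :
    ((m ++ x :: y :: (m ++ r)).drop a).take (m.length + 2) = m.drop a ++ x :: y :: m.take a := by
  rw [List.drop_append_of_le_length ha, List.take_append]
  have h1 : (m.drop a).length = m.length - a := List.length_drop
  have h2 : m.length + 2 - (m.drop a).length = a + 2 := by
    rw [h1]; omega
  rw [h2, List.take_of_length_le (by rw [h1]; omega), List.take_succ_cons, List.take_succ_cons,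
    List.take_append_of_le_length ha]

theorem wt_win (m r : List Bool) (x y : Bool) (a n : ℕ) (ha : a ≤ m.length)
    (hn : n = m.length + 2) :
    wt (((m ++ x :: y :: (m ++ r)).drop a).take n) = wt m + wt [x, y] := by
  rw [hn, win_eq m r x y a ha]
  unfold wt
  have h1 : m.count true = (m.take a).count true + (m.drop a).count true := by
    rw [← List.count_append, List.take_append_drop]
  rw [List.count_append, h1]
  have h2 : (x :: y :: m.take a) = [x, y] ++ m.take a := rfl
  rw [h2, List.count_append]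
  omega

theorem two_mem {V : Type} [DecidableEq V] {S : Finset V} (h : 2 ≤ S.card) :
    ∃ a ∈ S, ∃ b ∈ S, a ≠ b := by
  obtain ⟨a, ha, b, hb, hab⟩ := Finset.one_lt_card.1 h
  exact ⟨a, ha, b, hb, hab⟩

/-- both kinds of moves -/
theorem g_mov_aux (h03 : StmtG03) (h04 : StmtG04) (V : Type) [Fintype V] [DecidableEq V]
    (H : Finset (Finset V)) (X M Z : Finset V)
    (p q B : ℕ) (δ h ε : ℝ) (η θ : ℕ → ℝ) (m : List Bool) (x : Bool) (hA : Amb H X p q B δ)
    (hC : CstG (p + q + 2) B η θ h δ ε) (hM : Mst H X p q η M) (hZ : Z.card ≤ B)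
    (hMZ : Disjoint M Z) (hm : m.length = p + q) (m₁ m₂ : V) (hm1 : m₁ ∈ M) (hm2 : m₂ ∈ M)
    (hne : m₁ ≠ m₂) (hx1 : m₁ ∈ X ↔ x = true) (hx2 : m₂ ∈ X ↔ x = true)
    (hw1 : wt (x :: m ++ [x]) = p + 1) (hw2 : wt m + wt [!x, x] = p ∨ wt m + wt [!x, x] = p + 2) :
    ∃ l : List V, l.Nodup ∧ (∀ v ∈ l, v ∉ Z) ∧
      l.map (fun v => decide (v ∈ X)) = x :: m ++ [x] ∧
      OKl H X (p + q + 2) ε (fw (m ++ [!x]) ++ vx l ++ fw ((!x) :: m)) := by
  have hlen : (x :: m ++ [x]).length = p + q + 2 := by
    simp [hm]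
  have hlast : (x :: m ++ [x]).getD (p + q + 1) false = x := by
    have e1 : (x :: m ++ [x]) = (x :: m) ++ [x] := rfl
    rw [e1, List.getD_append_right _ _ _ _ (by simp [hm])]
    simp [hm]
  obtain ⟨o, ho0, hol, hoM, hoi, holet⟩ := h04 V X M p q (x :: m ++ [x]) m₁ m₂ hlen hw1
    hM.1.1 hM.1.2.1 hm1 hm2 hne (by
      rw [hx1]
      simp) (by
      rw [hlast, hx2])
  obtain ⟨l, hl1, hl2, _, hl4, hl5⟩ := h03 V H X M Z p q B δ h ε η θ (x :: m ++ [x])
    (m ++ [!x]) ((!x) :: m) o hA hC hM hZ hMZ hlen hw1 (by simp [hm]) (by simp [hm])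
    (by
      intro a ha
      have e1 : (m ++ [!x]) ++ (x :: m ++ [x]) = m ++ (!x) :: x :: (m ++ [x]) := by simp
      rw [e1, wt_win m [x] (!x) x a (p + q + 2) (by omega) (by omega)]
      exact hw2)
    (by
      intro a ha1 ha2
      obtain ⟨a', rfl⟩ : ∃ a', a = a' + 1 := ⟨a - 1, by omega⟩
      have e1 : (x :: m ++ [x]) ++ ((!x) :: m) = x :: (m ++ x :: (!x) :: (m ++ [])) := by simp
      rw [e1, List.drop_succ_cons, wt_win m [] x (!x) a' (p + q + 2) (by omega) (by omega)]
      have e2 : wt [x, !x] = wt [!x, x] := by cases x <;> rfl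
      rw [e2]
      exact hw2)
    hoM hoi holet (by rw [ho0]; simp) (by rw [hol]; simp)
  exact ⟨l, hl1, hl2, hl4, hl5⟩

theorem g_mov (h03 : StmtG03) (h04 : StmtG04) : StmtG05 := by
  intro V _ _ H X M Z p q B δ h ε η θ m hA hC hM hZ hMZ hm
  constructor
  · intro hc hw
    obtain ⟨m₁, hm1, m₂, hm2, hne⟩ := two_mem hc
    rw [Finset.mem_sdiff] at hm1 hm2
    have hwt : m.count true = p + 1 := hw
    have h1 := g_mov_aux h03 h04 V H X M Z p q B δ h ε η θ m false hA hC hM hZ hMZ hm m₁ m₂
      hm1.1 hm2.1 hne (by simp [hm1.2]) (by simp [hm2.2])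
      (by
        unfold wt
        simp [hwt])
      (by
        right
        unfold wt
        rw [hwt]
        rfl)
    exact h1
  · intro hc hw
    obtain ⟨m₁, hm1, m₂, hm2, hne⟩ := two_mem hc
    rw [Finset.mem_inter] at hm1 hm2
    have hwt : m.count true + 1 = p := hw
    have h1 := g_mov_aux h03 h04 V H X M Z p q B δ h ε η θ m true hA hC hM hZ hMZ hm m₁ m₂
      hm1.1 hm2.1 hne (by simp [hm1.2]) (by simp [hm2.2])
      (by
        unfold wt
        simp
        omega)
      (by
        left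
        unfold wt
        exact hwt)
    exact h1

end Pool.Agent.KK.E.H52
end

/-! ### Helper19_KK.G_PAS -/
section
/-!
# Squad KK, row G_PAS: pass of an arbitrary vertex (G10)
-/

set_option autoImplicit false

namespace Pool.Agent.KK.E.H19

open Pool.Agent.KK Pool.Agent.KK.E

/-! ## Periodic words -/

theorem wt_append (u v : List Bool) : wt (u ++ v) = wt u + wt v := by
  unfold wt
  exact List.count_append

/-- windows of a periodic word -/
theorem wt_window (w : List Bool) : ∀ (n a : ℕ), a + w.length ≤ n * w.length →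
    wt ((((List.replicate n w).flatten).drop a).take w.length) = wt w := by
  intro n
  induction n with
  | zero =>
    intro a h
    have h1 : w.length = 0 := by omega
    rw [List.length_eq_zero_iff] at h1
    subst h1
    simp
  | succ n ih =>
    intro a h
    rw [List.replicate_succ, List.flatten_cons]
    have h0 : (n + 1) * w.length = n * w.length + w.length := by ring
    by_cases ha : w.length ≤ a
    · have h1 : (w ++ (List.replicate n w).flatten).drop a =
          ((List.replicate n w).flatten).drop (a - w.length) := by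
        rw [List.drop_append, List.drop_eq_nil_of_le ha, List.nil_append]
      rw [h1]
      apply ih
      omega
    · push Not at ha
      rcases n with _ | n
      · have h2 : a = 0 := by omega
        subst h2
        simp
      · rw [List.replicate_succ, List.flatten_cons]
        have h3 : (w ++ (w ++ (List.replicate n w).flatten)).drop a =
            w.drop a ++ (w ++ (List.replicate n w).flatten) := by
          rw [List.drop_append_of_le_length ha.le]
        rw [h3, List.take_append, List.take_of_length_le (by rw [List.length_drop]; omega),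
          List.length_drop]
        have h4 : w.length - (w.length - a) = a := by omega
        rw [h4, List.take_append_of_le_length ha.le, wt_append]
        have h5 : wt w = wt (w.take a) + wt (w.drop a) := by
          rw [← wt_append, List.take_append_drop]
        omega

/-- the word of the pass is a factor of a periodic word -/
theorem word_eq (b : Bool) (m : List Bool) (hm : m ≠ []) (a : ℕ)
    (ha : a + (m.length + 1) ≤ 4 * m.length + 1) :
    wt ((((m ++ [b]).tail ++ (m ++ b :: m) ++ (b :: m).dropLast).drop a).take (m.length + 1)) =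
      wt (b :: m) := by
  obtain ⟨m0, mt, rfl⟩ := List.exists_cons_of_ne_nil hm
  set w : List Bool := b :: (m0 :: mt) with hw
  have hwl : w.length = (m0 :: mt).length + 1 := rfl
  have h1 : (List.replicate 4 w).flatten =
      b :: m0 :: ((((m0 :: mt) ++ [b]).tail ++ ((m0 :: mt) ++ b :: (m0 :: mt)) ++
        (b :: (m0 :: mt)).dropLast) ++ [(b :: (m0 :: mt)).getLast (by simp)]) := by
    have h2 : (b :: (m0 :: mt)).dropLast ++ [(b :: (m0 :: mt)).getLast (by simp)] =
        b :: (m0 :: mt) := List.dropLast_append_getLast (by simp)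
    rw [List.append_assoc, h2]
    simp [List.replicate_succ, hw]
  have h3 := wt_window w 4 (a + 2) (by rw [hwl]; omega)
  rw [h1, hwl] at h3
  have h4 : ((b :: m0 :: ((((m0 :: mt) ++ [b]).tail ++ ((m0 :: mt) ++ b :: (m0 :: mt)) ++
        (b :: (m0 :: mt)).dropLast) ++ [(b :: (m0 :: mt)).getLast (by simp)])).drop (a + 2)) =
      (((((m0 :: mt) ++ [b]).tail ++ ((m0 :: mt) ++ b :: (m0 :: mt)) ++
        (b :: (m0 :: mt)).dropLast).drop a) ++ [(b :: (m0 :: mt)).getLast (by simp)]) := by
    rw [List.drop_succ_cons, List.drop_succ_cons, List.drop_append_of_le_length]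
    simp only [List.length_append, List.length_tail, List.length_cons, List.length_nil,
      List.length_dropLast] at ha ⊢
    omega
  rw [h4, List.take_append_of_le_length] at h3
  · exact h3
  · simp only [List.length_append, List.length_tail, List.length_cons, List.length_nil,
      List.length_dropLast, List.length_drop] at ha ⊢
    omega

/-! ## The link density on `Fin (k-1)` -/

theorem card_letters (m : List Bool) (n : ℕ) (hn : m.length = n) (t : Bool) :
    (Finset.univ.filter fun i : Fin n => m.getD i false = t).card = m.count t := by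
  subst hn
  have h := Fin.card_filter_univ_eq_vector_get_eq_count t (⟨m, rfl⟩ : List.Vector Bool m.length)
  have h2 : List.Vector.toList (⟨m, rfl⟩ : List.Vector Bool m.length) = m := rfl
  rw [h2] at h
  rw [← h]
  congr 1
  ext i
  rw [Finset.mem_filter, Finset.mem_filter]
  have h3 : m.getD i false = List.Vector.get (⟨m, rfl⟩ : List.Vector Bool m.length) i := by
    rw [List.getD_eq_getElem _ _ i.2]
    rfl
  rw [h3]

theorem exists_letters (m : List Bool) (n : ℕ) (hn : m.length = n) :
    ∃ φ : Fin (m.count true) ⊕ Fin (m.count false) → Fin n, Function.Bijective φ ∧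
      (∀ i, m.getD (φ (Sum.inl i)) false = true) ∧ ∀ i, m.getD (φ (Sum.inr i)) false = false := by
  have c1 : Fintype.card {i : Fin n // m.getD i false = true} = m.count true := by
    rw [Fintype.card_subtype]
    exact card_letters m n hn true
  have c2 : Fintype.card {i : Fin n // ¬ m.getD i false = true} = m.count false := by
    rw [Fintype.card_subtype, ← card_letters m n hn false]
    congr 1
    ext i
    simp
  let e1 : Fin (m.count true) ≃ {i : Fin n // m.getD i false = true} :=
    Fintype.equivOfCardEq (by rw [Fintype.card_fin, c1])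
  let e2 : Fin (m.count false) ≃ {i : Fin n // ¬ m.getD i false = true} :=
    Fintype.equivOfCardEq (by rw [Fintype.card_fin, c2])
  refine ⟨(Equiv.sumCongr e1 e2).trans (Equiv.sumCompl _), Equiv.bijective _, ?_, ?_⟩
  · intro i
    exact (e1 i).2
  · intro i
    have := (e2 i).2
    simpa using this

theorem link_dens {V : Type} [Fintype V] [DecidableEq V] (h02 : StmtE02) (H : Finset (Finset V))
    (X : Finset V) (hX : X.Nonempty) (hX' : (Xᶜ).Nonempty) (v : V) (m : List Bool) (n : ℕ)
    (hn : m.length = n) :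
    dens (fun i : Fin n => sd X (m.getD i false)) (fun f => {v} ∪ Finset.univ.image f ∈ H) =
      D H X {v} (m.count true) (m.count false) := by
  obtain ⟨φ, hφ, h1, h2⟩ := exists_letters m n hn
  have hne : ∀ i : Fin n, ((fun i : Fin n => sd X (m.getD i false)) i).Nonempty := by
    intro i
    show (sd X (m.getD i false)).Nonempty
    unfold sd
    split_ifs
    · exact hX
    · exact hX'
  have h := h02 V (Fin n) (Fin (m.count true) ⊕ Fin (m.count false))
    (fun i : Fin n => sd X (m.getD i false)) φ hne hφ.injective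
    (fun f => {v} ∪ Finset.univ.image f ∈ H)
  have e1 : ((fun i : Fin n => sd X (m.getD i false)) ∘ φ) =
      lets X (m.count true) (m.count false) := by
    funext z
    rcases z with i | i
    · show sd X (m.getD (φ (Sum.inl i)) false) = X
      rw [h1 i]
      rfl
    · show sd X (m.getD (φ (Sum.inr i)) false) = Xᶜ
      rw [h2 i]
      rfl
  rw [e1] at h
  unfold D
  rw [← h]
  congr 1
  funext f
  have e2 : Finset.univ.image (f ∘ φ) = Finset.univ.image f := by
    ext u
    simp only [Finset.mem_image, Finset.mem_univ, true_and, Function.comp_apply]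
    constructor
    · rintro ⟨z, hz⟩
      exact ⟨φ z, hz⟩
    · rintro ⟨i, hi⟩
      obtain ⟨z, rfl⟩ := hφ.surjective i
      exact ⟨z, hi⟩
  rw [e2]

/-! ## The pass -/

theorem g_pas (h01 : StmtE01) (h02 : StmtE02) (h20 : StmtE20) (h00 : StmtG00) : StmtG10 := by
  intro V _ _ H X p q B δ ε κ τ η v b m hpq hA hnon hε hε1 hτ hτ1 hη0 hml hwt hD hκ he0 hδ Z hZ hvZ
  have hAp := hA.pos
  -- the box
  have hbig := hA.big
  have hn0 : (0 : ℝ) < (Fintype.card V : ℝ) := by
    by_contra hcon
    have h1 : (Fintype.card V : ℝ) = 0 := le_antisymm (not_lt.1 hcon) (by positivity)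
    rw [h1, mul_zero] at hbig
    have h2 : (0 : ℝ) < 100 * ((p + q + 2 : ℕ) : ℝ) ^ 2 * ((B + p + q + 2 : ℕ) : ℝ) := by
      have : (0 : ℝ) < ((p + q + 2 : ℕ) : ℝ) := by exact_mod_cast Nat.succ_pos _
      have : (0 : ℝ) < ((B + p + q + 2 : ℕ) : ℝ) := by exact_mod_cast Nat.succ_pos _
      positivity
    linarith
  have hX : X.Nonempty := by
    rw [← Finset.card_pos]
    have h1 := hA.lo
    have h2 := hA.small
    have h3 : (0 : ℝ) < (X.card : ℝ) := by
      have : 0 < (1 - δ) * (Fintype.card V : ℝ) / 2 := by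
        have : 0 < 1 - δ := by linarith
        positivity
      linarith
    exact_mod_cast h3
  have hX' : (Xᶜ).Nonempty := by
    rw [← Finset.card_pos]
    have h1 := hA.lo'
    have h2 := hA.small
    have h3 : (0 : ℝ) < ((Xᶜ).card : ℝ) := by
      have : 0 < (1 - δ) * (Fintype.card V : ℝ) / 2 := by
        have : 0 < 1 - δ := by linarith
        positivity
      linarith
    exact_mod_cast h3
  have hsd : ∀ t, (sd X t).Nonempty := by
    intro t
    unfold sd
    split_ifs
    · exact hX
    · exact hX'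
  set N : ℕ := p + q + 1 with hN
  set L : ℕ := N + 1 + N with hL
  set c : List Bool := m ++ b :: m with hc
  have hcl : c.length = L := by
    rw [hc, List.length_append, List.length_cons, hml, hL]
    omega
  let o : Fin L → Option V := fun i => if (i : ℕ) = N then some v else none
  have ho : ∀ (i : Fin L) (u : V), o i = some u → (i : ℕ) = N ∧ u = v := by
    intro i u h
    by_cases hi : (i : ℕ) = N
    · refine ⟨hi, ?_⟩
      have h1 : o i = some v := if_pos hi
      rw [h1] at h
      exact (Option.some.inj h).symm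
    · have h1 : o i = none := if_neg hi
      rw [h1] at h
      cases h
  have hbx : ∀ i, (bx X (fun i : Fin L => c.getD i false) o i).Nonempty := by
    intro i
    unfold bx
    cases h : o i with
    | none => exact hsd _
    | some u => exact Finset.singleton_nonempty u
  -- letters of `c`
  have hc1 : ∀ i : ℕ, i < N → c.getD i false = m.getD i false := by
    intro i hi
    rw [hc, List.getD_append _ _ _ _ (by omega)]
  have hc2 : ∀ i : ℕ, i < N → c.getD (N + 1 + i) false = m.getD i false := by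
    intro i hi
    rw [hc, List.getD_append_right _ _ _ _ (by omega), hml]
    have : N + 1 + i - N = i + 1 := by omega
    rw [this, List.getD_cons_succ]
  -- the event
  let win : ℕ → Finset (Fin L) := fun a => Finset.univ.filter fun i : Fin L =>
    a ≤ (i : ℕ) ∧ (i : ℕ) < a + (N + 1)
  let P : (Fin L → V) → Prop := fun f => ∀ a, a ≤ N → (win a).image f ∈ H
  let ψ : Fin N × Bool → Fin L := fun z => if z.2 then ⟨N + 1 + z.1, by omega⟩ else ⟨z.1, by omega⟩
  have hψt : ∀ i : Fin N, ((ψ (i, true) : Fin L) : ℕ) = N + 1 + i := fun i => rfl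
  have hψf : ∀ i : Fin N, ((ψ (i, false) : Fin L) : ℕ) = i := fun i => rfl
  have hψ : Function.Injective ψ := by
    rintro ⟨i, s⟩ ⟨j, t⟩ h
    have h' := congrArg Fin.val h
    cases s <;> cases t
    · rw [hψf, hψf] at h'
      rw [Fin.ext h']
    · rw [hψf, hψt] at h'
      have := i.2
      omega
    · rw [hψf, hψt] at h'
      have := j.2
      omega
    · rw [hψt, hψt] at h'
      have h2 : i = j := Fin.ext (by omega)
      rw [h2]
  have hboxψ : (bx X (fun i : Fin L => c.getD i false) o) ∘ ψ =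
      fun z : Fin N × Bool => (fun i : Fin N => sd X (m.getD i false)) z.1 := by
    funext z
    obtain ⟨i, s⟩ := z
    have hi := i.2
    cases s
    · have h1 : o (ψ (i, false)) = none := by
        apply if_neg
        rw [hψf]
        omega
      show (o (ψ (i, false))).elim (sd X (c.getD (ψ (i, false) : Fin L) false)) (fun v => {v}) = _
      rw [h1, hψf, hc1 i hi]
      rfl
    · have h1 : o (ψ (i, true)) = none := by
        apply if_neg
        rw [hψt]
        omega
      show (o (ψ (i, true))).elim (sd X (c.getD (ψ (i, true) : Fin L) false)) (fun v => {v}) = _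
      rw [h1, hψt, hc2 i hi]
      rfl
  have hdens : τ ^ (2 ^ (p + q + 2)) ≤ dens (bx X (fun i : Fin L => c.getD i false) o) P := by
    have h1 := link_dens h02 H X hX hX' v m N hml
    have h2 := h20 V (Fin N) (fun i : Fin N => sd X (m.getD i false))
      (fun f => {v} ∪ Finset.univ.image f ∈ H) τ (fun i => hsd _) hτ.le (by rw [h1]; exact hD)
    rw [Fintype.card_fin] at h2
    have h3 := h02 V (Fin L) (Fin N × Bool) (bx X (fun i : Fin L => c.getD i false) o) ψ hbx hψ
      (fun g => ∀ s : Fin N → Bool, {v} ∪ Finset.univ.image (fun i => g (i, s i)) ∈ H)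
    rw [hboxψ] at h3
    have h4 : τ ^ (2 ^ (p + q + 2)) ≤ τ ^ (2 ^ N) := by
      apply pow_le_pow_of_le_one hτ.le hτ1
      exact Nat.pow_le_pow_right (by norm_num) (by omega)
    refine (h4.trans h2).trans ?_
    rw [← h3]
    refine (h01 V (Fin L) _ hbx).2.1 _ _ ?_
    intro f hf hQ a ha
    have h5 := hQ (fun i => decide ((i : ℕ) < a))
    have hfN : f ⟨N, by omega⟩ = v := by
      have h6 := hf ⟨N, by omega⟩
      have h7 : o ⟨N, by omega⟩ = some v := if_pos rfl
      unfold bx at h6
      rw [h7] at h6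
      exact Finset.mem_singleton.1 h6
    have h8 : (win a).image f = {v} ∪ Finset.univ.image
        (fun i : Fin N => (f ∘ ψ) (i, decide ((i : ℕ) < a))) := by
      ext u
      rw [Finset.mem_image, Finset.mem_union, Finset.mem_singleton, Finset.mem_image]
      constructor
      · rintro ⟨i, hi, rfl⟩
        rw [Finset.mem_filter] at hi
        obtain ⟨-, hi1, hi2⟩ := hi
        by_cases h9 : (i : ℕ) = N
        · left
          have : i = ⟨N, by omega⟩ := Fin.ext h9
          rw [this, hfN]
        · right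
          by_cases h10 : (i : ℕ) < N
          · refine ⟨⟨i, h10⟩, Finset.mem_univ _, ?_⟩
            have : decide (i.val < a) = false := by
              rw [decide_eq_false_iff_not]
              omega
            show f (ψ (⟨i, h10⟩, decide (i.val < a))) = f i
            rw [this]
            congr 1
          · refine ⟨⟨i - (N + 1), by omega⟩, Finset.mem_univ _, ?_⟩
            have : decide (i.val - (N + 1) < a) = true := by
              rw [decide_eq_true_iff]
              omega
            show f (ψ (⟨i - (N + 1), by omega⟩, decide (i.val - (N + 1) < a))) = f i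
            rw [this]
            congr 1
            apply Fin.ext
            rw [hψt]
            show N + 1 + (i.val - (N + 1)) = i.val
            omega
      · rintro (rfl | ⟨i, -, rfl⟩)
        · refine ⟨⟨N, by omega⟩, ?_, hfN⟩
          rw [Finset.mem_filter]
          refine ⟨Finset.mem_univ _, ?_, ?_⟩
          · show a ≤ N
            exact ha
          · show N < a + (N + 1)
            omega
        · have hi := i.2
          refine ⟨ψ (i, decide (i.val < a)), ?_, rfl⟩
          rw [Finset.mem_filter]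
          refine ⟨Finset.mem_univ _, ?_⟩
          by_cases h9 : i.val < a
          · rw [decide_eq_true h9, hψt]
            omega
          · rw [decide_eq_false h9, hψf]
            omega
    rw [h8]
    exact h5
  have hτk : 0 < τ ^ (2 ^ (p + q + 2)) := pow_pos hτ _
  obtain ⟨f, hinj, hfZ, hfo, hfX, -, hOK⟩ := h00 V H X Z p q B L δ ε (τ ^ (2 ^ (p + q + 2))) (η 0) η c
    (m ++ [b]).tail (b :: m).dropLast o P hA hε hε1 hτk hη0 hcl (by omega)
    (by rw [List.length_tail, List.length_append, hml]; rfl)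
    (by rw [List.length_dropLast, List.length_cons, hml]; rfl)
    (by
      intro i i' u h h'
      exact Fin.ext ((ho i u h).1.trans (ho i' u h').1.symm))
    (by
      intro i u h
      rw [(ho i u h).2]
      exact hvZ)
    hdens
    (by
      intro a ha
      by_cases hcase : N ≤ a ∧ a ≤ 2 * N
      · left
        refine ⟨hcase.1, by omega, ?_⟩
        intro f _ hP
        have h1 := hP (a - N) (by omega)
        have h2 : (Finset.univ.filter fun i : Fin L => a ≤ (i : ℕ) + (p + q + 1) ∧
            (i : ℕ) + (p + q + 1) < a + (p + q + 2)) = win (a - N) := by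
          ext i
          show _ ↔ i ∈ Finset.univ.filter fun i : Fin L =>
            a - N ≤ (i : ℕ) ∧ (i : ℕ) < a - N + (N + 1)
          rw [Finset.mem_filter, Finset.mem_filter]
          constructor
          · rintro ⟨h3, h4, h5⟩
            exact ⟨h3, by omega, by omega⟩
          · rintro ⟨h3, h4, h5⟩
            exact ⟨h3, by omega, by omega⟩
        rw [h2]
        exact h1
      · right
        have hm : m ≠ [] := by
          intro h
          rw [h, List.length_nil] at hml
          omega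
        have hw := word_eq b m hm a (by rw [hml]; omega)
        rw [hml] at hw
        have hw' : wt ((((m ++ [b]).tail ++ c ++ (b :: m).dropLast).drop a).take (p + q + 2)) =
            wt (b :: m) := hw
        refine ⟨by rw [hw']; exact hwt, ?_, ?_⟩
        · intro i u h1 h2 h3
          have := (ho i u h3).1
          omega
        · intro M' hM'
          have hM0 : M' = ∅ := by
            rw [Finset.eq_empty_iff_forall_notMem]
            intro u hu
            obtain ⟨i, h1, h2, h3⟩ := (hM' u).1 hu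
            have := (ho i u h3).1
            omega
          subst hM0
          refine ⟨hnon, ?_, ?_, ?_⟩
          · simp
          · simp
          · simp)
    (hZ.trans hκ) he0 hδ
  -- the final lists
  have hfl : (List.ofFn f).length = L := List.length_ofFn
  have hNL : N < (List.ofFn f).length := by rw [hfl]; omega
  have hfv : f ⟨N, by omega⟩ = v := hfo _ v (if_pos rfl)
  have hsplit : List.ofFn f = (List.ofFn f).take N ++ v :: (List.ofFn f).drop (N + 1) := by
    have h1 : (List.ofFn f)[N] :: (List.ofFn f).drop (N + 1) = (List.ofFn f).drop N :=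
      List.getElem_cons_drop hNL
    have h2 : (List.ofFn f)[N] = v := by
      rw [List.getElem_ofFn]
      exact hfv
    rw [h2] at h1
    rw [h1, List.take_append_drop]
  have hlet : ∀ i : ℕ, ∀ hi : i < L, i ≠ N → decide (f ⟨i, hi⟩ ∈ X) = c.getD i false := by
    intro i hi hiN
    have h1 := hfX ⟨i, hi⟩ (if_neg hiN)
    by_cases h2 : f ⟨i, hi⟩ ∈ X
    · rw [decide_eq_true h2]
      exact (h1.1 h2).symm
    · rw [decide_eq_false h2]
      have h3 : ¬ c.getD i false = true := fun h => h2 (h1.2 h)
      simpa using h3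
  refine ⟨(List.ofFn f).take N, (List.ofFn f).drop (N + 1), ?_, ?_, ?_, ?_, ?_⟩
  · apply List.ext_getElem
    · rw [List.length_map, List.length_take, hfl, hml]
      omega
    · intro i h1 h2
      rw [List.getElem_map, List.getElem_take, List.getElem_ofFn]
      have h3 : i < N := by rw [hml] at h2; exact h2
      rw [hlet i (by omega) (by omega), hc1 i h3, List.getD_eq_getElem _ _ h2]
  · apply List.ext_getElem
    · rw [List.length_map, List.length_drop, hfl, hml]
      omega
    · intro i h1 h2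
      rw [List.getElem_map, List.getElem_drop, List.getElem_ofFn]
      have h3 : i < N := by rw [hml] at h2; exact h2
      rw [hlet (N + 1 + i) (by omega) (by omega), hc2 i h3, List.getD_eq_getElem _ _ h2]
  · rw [← hsplit]
    exact List.nodup_ofFn.2 hinj
  · rw [← hsplit]
    intro u hu
    rw [List.mem_ofFn] at hu
    obtain ⟨i, rfl⟩ := hu
    exact hfZ i
  · rw [← hsplit]
    exact hOK

end Pool.Agent.KK.E.H19
end

/-! ### Helper84_KK.G_PAR -/
section
/-!
# G12: choice of the partition with the size of the change (variant of E24, proof of helper77)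
-/

set_option autoImplicit false

open Finset

namespace Pool.Agent.KK.E.H84

open Pool.Agent.KK.E.H77

theorem g_par (h02 : StmtE02) (h03 : StmtE03) (h06 : StmtE06) : StmtG12 := by
  classical
  intro V _ _ H X p q B δ ε hA hε hεδ hδ hD0
  set n : ℝ := (Fintype.card V : ℝ) with hn
  have hδ0 := hA.pos
  have hk2 : (2 : ℝ) ≤ ((p + q + 2 : ℕ) : ℝ) := by
    have : 2 ≤ p + q + 2 := by omega
    exact_mod_cast this
  set k : ℝ := ((p + q + 2 : ℕ) : ℝ) with hk
  have hkε : k * ε ≤ δ / 100 := by linarith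
  have hε2 : 2 * ε ≤ k * ε := mul_le_mul_of_nonneg_right hk2 hε
  have hn0 : 0 < n := by
    have h1 := hA.big
    have h2 : (0 : ℝ) < ((B + p + q + 2 : ℕ) : ℝ) := by
      have : 0 < B + p + q + 2 := by omega
      exact_mod_cast this
    have h3 : 0 < 100 * k ^ 2 * ((B + p + q + 2 : ℕ) : ℝ) := by positivity
    have h4 : 0 < δ * n := lt_of_lt_of_le h3 h1
    exact (mul_pos_iff_of_pos_left hδ0).1 h4
  have lo := hA.lo
  have hi := hA.hi
  have lo' := hA.lo'
  have hi' := hA.hi'
  rw [← hn] at lo hi lo' hi'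
  have hδn : δ * n ≤ n / 40 := by nlinarith
  have hδn0 : 0 < δ * n := mul_pos hδ0 hn0
  have hεn : ε * n ≤ δ * n / 200 := by nlinarith
  have hεn0 : 0 ≤ ε * n := mul_nonneg hε hn0.le
  have hX0 : (0 : ℝ) < X.card := by nlinarith
  have hXc0 : (0 : ℝ) < (Xᶜ).card := by nlinarith
  have hXne : X.Nonempty := Finset.card_pos.1 (by exact_mod_cast hX0)
  have hXcne : (Xᶜ).Nonempty := Finset.card_pos.1 (by exact_mod_cast hXc0)
  have hsum : (X.card : ℝ) + ((Xᶜ).card : ℝ) = n := by
    rw [hn]
    exact_mod_cast Finset.card_add_card_compl X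
  set X' : Finset V := univ.filter fun v => D H X {v} p (q + 1) ≤ D H X {v} (p + 1) q with hX'
  have h6 : ∀ v : V, 1 - 3 * δ ≤ D H X {v} (p + 1) q + D H X {v} p (q + 1) := fun v =>
    h06 V H X {v} p q B p q δ hA (by rw [Finset.card_singleton]; ring)
  have inX : ∀ v ∈ X', 9 / 20 ≤ D H X {v} (p + 1) q := by
    intro v hv
    rw [hX', Finset.mem_filter] at hv
    have := h6 v
    linarith [hv.2]
  have outX : ∀ v, v ∉ X' → 9 / 20 ≤ D H X {v} p (q + 1) := by
    intro v hv
    rw [hX', Finset.mem_filter] at hv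
    push Not at hv
    have := h6 v
    linarith [hv (Finset.mem_univ v)]
  have s1 : ((X \ X').card : ℝ) ≤ 3 * (ε * X.card) := by
    have a1 := avg1 h02 h03 H X p q hXne hXcne
    have a2 : ∑ v ∈ X, D H X {v} p (q + 1) ≤ ε * X.card := by
      rw [a1, div_le_iff₀ hX0] at hD0
      exact hD0
    have a3 : ((X \ X').card : ℝ) * (9 / 20) ≤ ∑ v ∈ X, D H X {v} p (q + 1) := by
      calc ((X \ X').card : ℝ) * (9 / 20) = ∑ v ∈ X \ X', (9 / 20 : ℝ) := by
            rw [Finset.sum_const, nsmul_eq_mul]
        _ ≤ ∑ v ∈ X \ X', D H X {v} p (q + 1) :=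
            Finset.sum_le_sum fun v hv => outX v (Finset.mem_sdiff.1 hv).2
        _ ≤ _ := Finset.sum_le_sum_of_subset_of_nonneg Finset.sdiff_subset
            fun v _ _ => D_nonneg _ _ _ _ _
    have a4 : 0 ≤ ε * (X.card : ℝ) := by positivity
    linarith
  have s2 : ((X' \ X).card : ℝ) ≤ 3 * (ε * (Xᶜ).card) := by
    have a1 := avg2 h02 h03 H X p q hXne hXcne
    have a2 : ∑ v ∈ Xᶜ, D H X {v} (p + 1) q ≤ ε * (Xᶜ).card := by
      rw [a1, div_le_iff₀ hXc0] at hD0
      exact hD0
    have a3 : ((X' \ X).card : ℝ) * (9 / 20) ≤ ∑ v ∈ Xᶜ, D H X {v} (p + 1) q := by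
      calc ((X' \ X).card : ℝ) * (9 / 20) = ∑ v ∈ X' \ X, (9 / 20 : ℝ) := by
            rw [Finset.sum_const, nsmul_eq_mul]
        _ ≤ ∑ v ∈ X' \ X, D H X {v} (p + 1) q :=
            Finset.sum_le_sum fun v hv => inX v (Finset.mem_sdiff.1 hv).1
        _ ≤ _ := by
            apply Finset.sum_le_sum_of_subset_of_nonneg _ fun v _ _ => D_nonneg _ _ _ _ _
            intro v hv
            rw [Finset.mem_compl]
            exact (Finset.mem_sdiff.1 hv).2
    have a4 : 0 ≤ ε * ((Xᶜ).card : ℝ) := by positivity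
    linarith
  have s3 : ((X \ X').card : ℝ) + ((X' \ X).card : ℝ) ≤ 3 * ε * n := by
    rw [← hsum]
    linarith
  have p1 : (0 : ℝ) ≤ ((X \ X').card : ℝ) := Nat.cast_nonneg _
  have p2 : (0 : ℝ) ≤ ((X' \ X).card : ℝ) := Nat.cast_nonneg _
  have e1 : (X.card : ℝ) = ((X ∩ X').card : ℝ) + ((X \ X').card : ℝ) := by
    exact_mod_cast (Finset.card_inter_add_card_sdiff X X').symm
  have e2 : (X'.card : ℝ) = ((X ∩ X').card : ℝ) + ((X' \ X).card : ℝ) := by
    rw [Finset.inter_comm]
    exact_mod_cast (Finset.card_inter_add_card_sdiff X' X).symm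
  have hsum' : (X'.card : ℝ) + ((X'ᶜ).card : ℝ) = n := by
    rw [hn]
    exact_mod_cast Finset.card_add_card_compl X'
  have c1 : Xᶜ \ X'ᶜ = X' \ X := by
    ext v
    simp only [Finset.mem_sdiff, Finset.mem_compl, not_not]
    exact and_comm
  have c2 : X'ᶜ \ Xᶜ = X \ X' := by
    ext v
    simp only [Finset.mem_sdiff, Finset.mem_compl, not_not]
    exact and_comm
  have hτ : ∀ b : Bool, ∑ v, |H77.wt (sd X b) v - H77.wt (sd X' b) v| ≤ 24 * ε := by
    intro b
    cases b
    · simp only [sd, Bool.false_eq_true, if_false]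
      apply wt_diff Xᶜ X'ᶜ n ε hn0
      · linarith
      · linarith
      · rw [c1, c2]
        linarith
    · simp only [sd, if_true]
      apply wt_diff X X' n ε hn0
      · linarith
      · linarith
      · exact s3
  have hne : ∀ b : Bool, (sd X b).Nonempty := by
    intro b
    cases b
    · exact hXcne
    · exact hXne
  have hne' : ∀ b : Bool, (sd X' b).Nonempty := by
    intro b
    cases b
    · apply Finset.card_pos.1
      have : (0 : ℝ) < (X'ᶜ).card := by linarith
      exact_mod_cast this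
    · apply Finset.card_pos.1
      have : (0 : ℝ) < X'.card := by linarith
      exact_mod_cast this
  have hl : ∀ (Z : Finset V) (a b : ℕ) (i : Fin a ⊕ Fin b), lets Z a b i =
      sd Z (Sum.elim (fun _ => true) (fun _ => false) i) := by
    intro Z a b i
    rcases i with i | i <;> rfl
  have hch : ∀ (M : Finset V) (a b : ℕ), a + b ≤ p + q + 2 →
      |D H X M a b - D H X' M a b| ≤ δ := by
    intro M a b hab
    have h1 := change (lets X a b) (lets X' a b) (24 * ε)
      (fun i => by rw [hl]; exact hne _) (fun i => by rw [hl]; exact hne' _)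
      (fun i => by rw [hl, hl]; exact hτ _) (fun f => M ∪ Finset.univ.image f ∈ H)
    rw [Fintype.card_sum, Fintype.card_fin, Fintype.card_fin] at h1
    refine h1.trans ?_
    have h2 : ((a + b : ℕ) : ℝ) ≤ k := by
      rw [hk]
      exact_mod_cast hab
    have h3 : ((a + b : ℕ) : ℝ) * (24 * ε) ≤ k * (24 * ε) :=
      mul_le_mul_of_nonneg_right h2 (by positivity)
    linarith
  refine ⟨X', ?_, ⟨?_, ?_⟩, ?_, ?_⟩
  · have u1 : (((X \ X') ∪ (X' \ X)).card : ℝ) ≤ ((X \ X').card : ℝ) + ((X' \ X).card : ℝ) := by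
      exact_mod_cast Finset.card_union_le _ _
    linarith
  · intro v hv
    have h1 := inX v hv
    have h2 := abs_le.1 (hch {v} (p + 1) q (by omega))
    linarith [h2.2]
  · intro v hv
    have h1 := outX v hv
    have h2 := abs_le.1 (hch {v} p (q + 1) (by omega))
    linarith [h2.2]
  · refine ⟨hA.uni, hA.dirac, by linarith, by linarith, ?_, ?_, ?_, ?_, ?_⟩
    · rw [← hn]
      linarith
    · rw [← hn]
      linarith
    · rw [← hn]
      linarith
    · rw [← hn]
      linarith
    · have := hA.big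
      rw [← hn] at this ⊢
      linarith
  · have h2 := abs_le.1 (hch ∅ (p + 1) (q + 1) (by omega))
    linarith [h2.1]

end Pool.Agent.KK.E.H84
end
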