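import Pool.Agent.KKM.Base

/-! # MP_747bc0_co, merged modules -/

/-! ### Helper70_KK.UNI -/
section
/-! MP_747bc0_co, block B, row UNI: a missing type determines all closed systems. -/

namespace Pool.Agent.KK.B.H70

open Function
open scoped Classical

theorem wdet_mono {k : ℕ} {V : Type} [Fintype V] {ν ν' : ℝ} (h : ν ≤ ν') {X : V → Prop}
    {D : Fin k → (Fin k → V) → Prop} (hW : WDet ν X D) : WDet ν' X D := by
  intro i W
  rcases hW i W with h1 | h1
  · exact Or.inl (h1.trans h)
  · exact Or.inr (h1.trans h)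

theorem ex_min5 {c1 c2 c3 c4 c5 : ℝ} (h1 : 0 < c1) (h2 : 0 < c2) (h3 : 0 < c3) (h4 : 0 < c4)
    (h5 : 0 < c5) : ∃ x : ℝ, 0 < x ∧ x ≤ c1 ∧ x ≤ c2 ∧ x ≤ c3 ∧ x ≤ c4 ∧ x ≤ c5 := by
  refine ⟨min c1 (min c2 (min c3 (min c4 c5))), ?_, ?_, ?_, ?_, ?_, ?_⟩
  · exact lt_min h1 (lt_min h2 (lt_min h3 (lt_min h4 h5)))
  · exact min_le_left _ _
  · exact (min_le_right _ _).trans (min_le_left _ _)
  · exact (min_le_right _ _).trans ((min_le_right _ _).trans (min_le_left _ _))
  · exact (min_le_right _ _).trans ((min_le_right _ _).trans ((min_le_right _ _).trans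
      (min_le_left _ _)))
  · exact (min_le_right _ _).trans ((min_le_right _ _).trans ((min_le_right _ _).trans
      (min_le_right _ _)))

theorem uni (nsp : NspStmt) (g0d : G0dStmt) (levS : LevStmt) (glb : GlbStmt)
    (res : ResStmt) (typS : TypStmt) : UniStmt := by
  intro k ν hk hν
  have hkR : (2 : ℝ) ≤ k := by exact_mod_cast hk
  have hk0 : (0 : ℝ) < k := by linarith
  obtain ⟨ν0, hν0pos, hν0ν, hν08, -⟩ : ∃ x : ℝ, 0 < x ∧ x ≤ ν ∧ x ≤ 1 / 8 ∧ True :=
    ⟨min ν (1 / 8), lt_min hν (by norm_num), min_le_left _ _, min_le_right _ _, trivial⟩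
  obtain ⟨κ, hκ⟩ : ∃ x : ℝ, x = ν0 ^ 2 / (3 * k) := ⟨_, rfl⟩
  have hκpos : 0 < κ := by rw [hκ]; positivity
  have h3k : 3 * (k : ℝ) * κ = ν0 ^ 2 := by
    rw [hκ]
    field_simp
  have hκ1 : κ ≤ 1 := by
    rw [hκ, div_le_one (by positivity)]
    nlinarith
  obtain ⟨θ, hθ⟩ : ∃ x : ℝ, x = κ / 15 := ⟨_, rfl⟩
  have hθpos : 0 < θ := by rw [hθ]; positivity
  have hθ8 : θ ≤ 1 / 8 := by rw [hθ]; linarith
  obtain ⟨δ, hδ⟩ : ∃ x : ℝ, x = θ / 4 := ⟨_, rfl⟩
  have hδpos : 0 < δ := by rw [hδ]; positivity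
  obtain ⟨C, hC⟩ : ∃ x : ℝ, x = 4 * (k.factorial : ℝ) * (k : ℝ) ^ 2 * (1 + (k : ℝ) / δ) ^ k :=
    ⟨_, rfl⟩
  have hCpos : 0 < C := by
    rw [hC]
    have : (0 : ℝ) < (k.factorial : ℝ) := by exact_mod_cast Nat.factorial_pos k
    positivity
  obtain ⟨β, hβ, hβ16, hβθ, h88', hCκ', hC4'⟩ := ex_min5 (c1 := 1 / 16) (c2 := θ ^ 2 / 22)
    (c3 := θ / (88 * k)) (c4 := κ / C) (c5 := (1 / 4 : ℝ) ^ k / (2 * C)) (by norm_num)
    (by positivity) (by positivity) (by positivity) (by positivity)
  have h88 : 88 * (k : ℝ) * β ≤ θ := by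
    rw [le_div_iff₀ (by positivity)] at h88'
    linarith
  have hCκ : C * β ≤ κ := by
    rw [le_div_iff₀ hCpos] at hCκ'
    linarith
  have hC4 : C * β < (1 / 4 : ℝ) ^ k := by
    rw [le_div_iff₀ (by positivity)] at hC4'
    have h1 : (0 : ℝ) < (1 / 4 : ℝ) ^ k := by positivity
    linarith
  have hβ1 : β ≤ 1 := by linarith
  have hβ3 : β ^ 3 ≤ 1 / 8 := by
    have h1 : β ^ 3 ≤ β := by
      calc β ^ 3 ≤ β ^ 1 := pow_le_pow_of_le_one hβ.le hβ1 (by norm_num)
        _ = β := pow_one β
    linarith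
  have h11 : 11 * β ≤ θ := by
    have h1 : 11 * β ≤ 88 * (k : ℝ) * β := by
      apply mul_le_mul_of_nonneg_right _ hβ.le
      linarith
    linarith
  refine ⟨β ^ 3, by positivity, ?_⟩
  intro V _ _ E X j hS hD hj1 hjk hX hty D hI hcl
  have hbad : ∀ D' : Fin k → (Fin k → V) → Prop, Indep D' → Closed E (β ^ 3) D' →
      dens (fun a => ¬ lev δ (G0 E D' β) k a) ≤ C * β := by
    intro D' hI' hC'
    have h1 := g0d k V E D' β hβ hβ1 hI' hC'
    have h2 := levS k V (G0 E D' β) δ k hδpos
    refine h2.trans ?_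
    have h3 : (0 : ℝ) ≤ (1 + (k : ℝ) / δ) ^ k := by positivity
    calc (1 + (k : ℝ) / δ) ^ k * dens (fun a => ¬ G0 E D' β a)
        ≤ (1 + (k : ℝ) / δ) ^ k * (4 * (k.factorial : ℝ) * (k : ℝ) ^ 2 * β) :=
          mul_le_mul_of_nonneg_left h1 h3
      _ = C * β := by rw [hC]; ring
  obtain ⟨i0, i1, h01⟩ : ∃ i0 i1 : Fin k, i0 ≠ i1 :=
    ⟨⟨0, by omega⟩, ⟨1, by omega⟩, fun h => by simpa using congrArg Fin.val h⟩
  obtain ⟨hTI, hTC, hTd⟩ := typS k V E X j i0 i1 h01 hj1 hjk (hX.trans hβ3)
  have hTC' : Closed E (β ^ 3) (TD (k := k) X j) := le_trans hTC hty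
  obtain ⟨a0, ⟨hSp, hval⟩, hlev0⟩ : ∃ a0 : Fin k → V, (Sp (TD X j) a0 i0 i1 ∧
      ∀ p, (TD X j i0 (update a0 i1 p) ↔ X p)) ∧ lev δ (G0 E (TD X j) β) k a0 := by
    by_contra hcon
    push Not at hcon
    have h1 : dens (fun a : Fin k → V => Sp (TD X j) a i0 i1 ∧
        ∀ p, (TD X j i0 (update a i1 p) ↔ X p)) ≤
        dens (fun a => ¬ lev δ (G0 E (TD X j) β) k a) := by
      apply dens_mono
      intro a ha
      exact hcon a ha
    have h2 := hbad _ hTI hTC'
    linarith
  have hG0 : G0 E (TD X j) β a0 := lev_le (Nat.zero_le k) hlev0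
  have hself := G0_self hG0 h01
  have hpm := (nsp k V E (TD X j) β a0 i0 i1 hβ hβ16 hS hD h01 hself.1 hself.2.1 hSp).1
  have hX0 : (fun p => TD X j i0 (update a0 i1 p)) = X := funext fun p => propext (hval p)
  rw [hX0] at hpm
  have hSS : SS (TD X j) i0 i1 a0 := ⟨1, hSp⟩
  have hdens : dens (fun a => ¬ LineDet κ X D a) ≤ κ := by
    refine (dens_mono fun a ha => ?_).trans ((hbad D hI hcl).trans hCκ)
    intro hlev
    apply ha
    have hL := glb k V E (TD X j) D β δ θ i0 i1 a0 a hβ hβ16 hθpos hθ8 hδpos.le (by rw [hδ])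
      hβθ h88 hS hD hTI hI h01 hlev0 hSS hlev
    have h15 : 15 * θ = κ := by rw [hθ]; ring
    intro i l hil
    rcases hL i l hil with h | h | h
    · exact Or.inl (h.trans (by linarith))
    · exact Or.inr (Or.inl (h.trans (by linarith)))
    · exact Or.inr (Or.inr (pm_mono (by linarith) (pm_trans h hpm)))
  exact wdet_mono hν0ν (res k V X D κ ν0 hκpos.le hν0pos.le h3k.le hI hdens)

end Pool.Agent.KK.B.H70
end

/-! ### Helper24_KK.MSX -/
section
/-! MP_747bc0_co, block B: MSX (a non-trivial closed system gives a missing type). -/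

namespace Pool.Agent.KK.B.H24

open Function
open scoped Classical
open Pool.Agent.KK.B

variable {k : ℕ} {V : Type} [Fintype V]

/-- a predicate of small density on every word has small density -/
theorem dens_words (X : V → Prop) (P : (Fin k → V) → Prop) {ν : ℝ}
    (h : ∀ W : Fin k → Bool, dens (fun a => P a ∧ wd X W a) ≤ ν) : dens P ≤ 2 ^ k * ν := by
  have h1 : dens P ≤ dens (fun a => ∃ W : Fin k → Bool, P a ∧ wd X W a) := by
    refine dens_mono fun a ha => ⟨fun l => decide (X (a l)), ha, fun l => ?_⟩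
    simp
  have h2 := dens_exists_le fun (W : Fin k → Bool) (a : Fin k → V) => P a ∧ wd X W a
  have h3 : ∑ W : Fin k → Bool, dens (fun a => P a ∧ wd X W a) ≤ ∑ _W : Fin k → Bool, ν :=
    Finset.sum_le_sum fun W _ => h W
  rw [Finset.sum_const, Finset.card_univ, Fintype.card_fun, Fintype.card_bool, Fintype.card_fin,
    nsmul_eq_mul] at h3
  push_cast at h3
  exact h1.trans (h2.trans h3)

/-- row MSX -/
theorem msx (gbx : GbxStmt) (mis : MisStmt) (min' : MinStmt) (wgr : WgrStmt) : MsxStmt := by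
  intro k ν hk hν
  have h4 : (0 : ℝ) < 4 ^ (k + 1) := by positivity
  obtain ⟨m, hm⟩ : ∃ m : ℝ, m = min ν (1 / 8) := ⟨_, rfl⟩
  have hm0 : 0 < m := by rw [hm]; exact lt_min hν (by norm_num)
  have hmν : m ≤ ν := by rw [hm]; exact min_le_left _ _
  have hm8 : m ≤ 1 / 8 := by rw [hm]; exact min_le_right _ _
  obtain ⟨ν', hν'⟩ : ∃ ν' : ℝ, ν' = m / 4 ^ (k + 1) := ⟨_, rfl⟩
  have hν'0 : 0 < ν' := by rw [hν']; exact div_pos hm0 h4
  have h1le : (1 : ℝ) ≤ 4 ^ (k + 1) := one_le_pow₀ (by norm_num)
  have hν'm : ν' ≤ m := by rw [hν']; exact div_le_self hm0.le h1le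
  have h2k : (2 : ℝ) ^ k * (3 * ν') ≤ m := by
    have e1 : m = 4 ^ (k + 1) * ν' := by rw [hν']; field_simp
    have e2 : (2 : ℝ) ^ k ≤ 4 ^ k := pow_le_pow_left₀ (by norm_num) (by norm_num) k
    have e3 : (4 : ℝ) ^ (k + 1) = 4 * 4 ^ k := by ring
    have e4 : (0 : ℝ) ≤ 4 ^ k := by positivity
    rw [e3] at e1
    have e5 : (2 : ℝ) ^ k * (3 * ν') ≤ 4 ^ k * (3 * ν') :=
      mul_le_mul_of_nonneg_right e2 (by positivity)
    have e6 : (4 : ℝ) ^ k * (3 * ν') ≤ 4 * 4 ^ k * ν' := by nlinarith
    calc (2 : ℝ) ^ k * (3 * ν') ≤ 4 ^ k * (3 * ν') := e5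
      _ ≤ 4 * 4 ^ k * ν' := e6
      _ = m := e1.symm
  obtain ⟨ε', hε'0, hε'⟩ := gbx k ν' (by omega) hν'0
  refine ⟨min ε' ν', lt_min hε'0 hν'0, ?_⟩
  intro V _ _ E D0 hS hDeg hI hC hT
  have hC' : Closed E ε' D0 := hC.trans (min_le_left _ _)
  have hT' : ¬ Triv ν' D0 := by
    intro h
    apply hT
    rcases h with h | h
    · exact Or.inl fun i => (h i).trans (hν'm.trans hmν)
    · exact Or.inr fun i => (h i).trans (hν'm.trans hmν)
  obtain ⟨X, hX, hall⟩ := hε' V E D0 hS hDeg hI hC' hT'
  have hW : WDet ν' X D0 := hall D0 hI hC'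
  refine ⟨X, ?_⟩
  by_contra hcon
  push Not at hcon
  have hXν : |dens X - 1 / 2| ≤ ν := hX.trans (hν'm.trans hmν)
  have hX8 : |dens X - 1 / 2| ≤ 1 / 8 := hX.trans (hν'm.trans hm8)
  have hX0 : 0 < dens X := by
    have := abs_le.1 hX8
    linarith [this.1]
  have hX1 : dens X < 1 := by
    have := abs_le.1 hX8
    linarith [this.2]
  -- the majority values are constant
  have hmaj : ∀ W W' i l, (maj D0 X i W ↔ maj D0 X l W') := by
    refine (wgr k (fun i W => maj D0 X i W) (fun t => ¬ (1 ≤ t ∧ t ≤ k - 1)) ?_ ?_).2 hk ?_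
    · exact fun i W b => min' k V D0 X i W b hI hX0 hX1
    · intro W hWt i l
      rw [not_not] at hWt
      by_contra hne
      have h5 := mis k V E D0 X (min ε' ν') ν' i l W hS hC hW hne
      have h6 := hcon (wt W) hWt.1 hWt.2 hXν
      have h7 : (2 : ℝ) ^ k * (min ε' ν' + 2 * ν') ≤ 2 ^ k * (3 * ν') := by
        refine mul_le_mul_of_nonneg_left ?_ (by positivity)
        have := min_le_right ε' ν'
        linarith
      linarith
    · intro t ht1 ht2 h
      exact h ⟨ht1, ht2⟩
  have h2ν : (2 : ℝ) ^ k * ν' ≤ ν := by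
    have e1 : (0 : ℝ) ≤ 2 ^ k * ν' := by positivity
    nlinarith
  apply hT
  have i0 : Fin k := ⟨0, by omega⟩
  by_cases h0 : maj D0 X i0 (fun _ => false)
  · right
    intro i
    refine (dens_words X (fun a => ¬ D0 i a) fun W => ?_).trans h2ν
    have h1 : maj D0 X i W := (hmaj _ W i0 i).1 h0
    unfold maj at h1
    rcases hW i W with h | h
    · exact h1.trans h
    · exact h
  · left
    intro i
    refine (dens_words X (D0 i) fun W => ?_).trans h2ν
    have h1 : ¬ maj D0 X i W := fun h => h0 ((hmaj _ W i0 i).2 h)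
    unfold maj at h1
    rw [not_le] at h1
    rcases hW i W with h | h
    · exact h
    · exact h1.le.trans h

end Pool.Agent.KK.B.H24
end

/-! ### Helper52_KK.BCNC -/
section
namespace Pool.Agent.KK.B.H52

open Function
open scoped Classical

section
variable {d : ℕ}

theorem cyc_prop (P : Fin (d + 2) → Prop) (h : ∀ i, P i → P (i + 1)) :
    ∀ (n : ℕ) (i j : Fin (d + 2)), (j - i).val = n → P i → P j := by
  intro n
  induction n with
  | zero =>
    intro i j hij hP
    have h1 : j - i = 0 := Fin.ext hij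
    rw [sub_eq_zero] at h1
    rw [h1]; exact hP
  | succ n ih =>
    intro i j hij hP
    apply ih (i + 1) j _ (h i hP)
    have h1 : j - i ≠ 0 := by
      intro h0
      rw [h0] at hij
      simp at hij
    have h2 : j - (i + 1) = j - i - 1 := by abel
    rw [h2, Fin.val_sub_one_of_ne_zero h1, hij]
    rfl

theorem exists_step (P : Fin (d + 2) → Prop) (h : ¬ ∀ i j, P i ↔ P j) :
    ∃ i, P i ∧ ¬ P (i + 1) := by
  by_contra hc
  push Not at hc
  apply h
  intro i j
  exact ⟨cyc_prop P hc _ i j rfl, cyc_prop P hc _ j i rfl⟩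

variable {V : Type} [Fintype V] [DecidableEq V]

theorem stp_le_add (H : Finset (Finset V)) (U D : Set (Sta V d)) (hD : D ⊆ U) :
    stp H D Dᶜ ≤ stp H D (U \ D) + stp H U Uᶜ := by
  unfold stp
  have h1 : {p : Sta V d × Sta V d | p.1 ∈ D ∧ p.2 ∈ Dᶜ ∧ St H p.1 p.2} ⊆
      {p : Sta V d × Sta V d | p.1 ∈ D ∧ p.2 ∈ U \ D ∧ St H p.1 p.2} ∪
      {p : Sta V d × Sta V d | p.1 ∈ U ∧ p.2 ∈ Uᶜ ∧ St H p.1 p.2} := by
    rintro p ⟨h1, h2, h3⟩
    by_cases hU : p.2 ∈ U
    · exact Or.inl ⟨h1, ⟨hU, h2⟩, h3⟩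
    · exact Or.inr ⟨hD h1, hU, h3⟩
  have h2 := (Set.ncard_le_ncard h1 (Set.toFinite _)).trans (Set.ncard_union_le _ _)
  exact_mod_cast h2

end

theorem cnc (hcnv : CnvStmt) : CncStmt := by
  intro d V _ _ _ H U hU
  have hn : (0 : ℝ) ≤ (Fintype.card V : ℝ) ^ (d + 2) := by positivity
  have hC := (hcnv d V H hU).2
  intro D hD
  refine le_trans ?_ (stp_le_add H U D hD)
  rw [hC D Dᶜ]
  apply mul_le_mul_of_nonneg_right _ hn
  refine le_trans (dens_mono ?_) (dens_exists_le
    (fun (i : Fin (d + 2)) (e : Fin (d + 2) → V) => LE H e ∧ sys D i e ∧ sys Dᶜ (i + 1) e))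
  rintro e ⟨h1, h2⟩
  obtain ⟨i, hi, hi'⟩ := exists_step (fun i => sys D i e) h2
  exact ⟨i, h1, hi, hi'⟩

end Pool.Agent.KK.B.H52
end

/-! ### Helper8_KK.E_WIN -/
section
/-! Squad KK, row E_WIN (StmtE05): window density. -/

set_option autoImplicit false

namespace Pool.Agent.KK.E.H8

open Pool.Agent.KK Pool.Agent.KK.E

theorem bx_nonempty {V : Type} [Fintype V] [DecidableEq V] {X : Finset V} (hX : X.Nonempty)
    (hXc : (Xᶜ).Nonempty) {ι : Type} (l : ι → Bool) (o : ι → Option V) (i : ι) :
    (bx X l o i).Nonempty := by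
  unfold bx
  rcases ho : o i with _ | v
  · simp only [Option.elim]
    unfold sd
    cases l i
    · simpa using hXc
    · simpa using hX
  · simp only [Option.elim]
    exact Finset.singleton_nonempty v

theorem e_win (hE02 : StmtE02) : StmtE05 := by
  classical
  intro V _ _ ι _ _ H X M l o w a b hX hXc hM ha hb
  let e1 := Finset.equivFinOfCardEq ha
  let e2 := Finset.equivFinOfCardEq hb
  let φ : Fin a ⊕ Fin b → ι := Sum.elim (fun j => (e1.symm j : ι)) (fun j => (e2.symm j : ι))
  have h1 : ∀ j, (e1.symm j : ι) ∈ w ∧ o (e1.symm j : ι) = none ∧ l (e1.symm j : ι) = true :=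
    fun j => Finset.mem_filter.1 (e1.symm j).2
  have h2 : ∀ j, (e2.symm j : ι) ∈ w ∧ o (e2.symm j : ι) = none ∧ l (e2.symm j : ι) = false :=
    fun j => Finset.mem_filter.1 (e2.symm j).2
  have hφ : Function.Injective φ := by
    intro x y hxy
    rcases x with x | x <;> rcases y with y | y
    · have : e1.symm x = e1.symm y := Subtype.ext hxy
      rw [e1.symm.injective this]
    · exfalso
      have h3 := (h1 x).2.2
      have h4 := (h2 y).2.2
      have h5 : (e1.symm x : ι) = (e2.symm y : ι) := hxy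
      rw [h5, h4] at h3
      exact Bool.noConfusion h3
    · exfalso
      have h3 := (h2 x).2.2
      have h4 := (h1 y).2.2
      have h5 : (e2.symm x : ι) = (e1.symm y : ι) := hxy
      rw [h5, h4] at h3
      exact Bool.noConfusion h3
    · have : e2.symm x = e2.symm y := Subtype.ext hxy
      rw [e2.symm.injective this]
  have hc : bx X l o ∘ φ = lets X a b := by
    funext x
    rcases x with x | x
    · change (o (e1.symm x : ι)).elim (sd X (l (e1.symm x : ι))) (fun v => {v}) = X
      rw [(h1 x).2.1, (h1 x).2.2]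
      rfl
    · change (o (e2.symm x : ι)).elim (sd X (l (e2.symm x : ι))) (fun v => {v}) = Xᶜ
      rw [(h2 x).2.1, (h2 x).2.2]
      rfl
  have h3 := hE02 V ι (Fin a ⊕ Fin b) (bx X l o) φ (bx_nonempty hX hXc l o) hφ
    (fun g => M ∪ Finset.univ.image g ∈ H)
  rw [hc] at h3
  unfold D
  rw [← h3]
  have key : ∀ f : ι → V, (∀ i, f i ∈ bx X l o i) →
      w.image f = M ∪ Finset.univ.image (f ∘ φ) := by
    intro f hf
    have hf1 : ∀ i v, o i = some v → f i = v := by
      intro i v hi
      have := hf i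
      unfold bx at this
      rw [hi] at this
      exact Finset.mem_singleton.1 this
    ext v
    rw [Finset.mem_union, Finset.mem_image, Finset.mem_image]
    constructor
    · rintro ⟨i, hi, rfl⟩
      rcases ho : o i with _ | u
      · right
        cases hl : l i
        · have hm : i ∈ w.filter fun i => o i = none ∧ l i = false :=
            Finset.mem_filter.2 ⟨hi, ho, hl⟩
          refine ⟨Sum.inr (e2 ⟨i, hm⟩), Finset.mem_univ _, ?_⟩
          change f (e2.symm (e2 ⟨i, hm⟩) : ι) = f i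
          rw [e2.symm_apply_apply]
        · have hm : i ∈ w.filter fun i => o i = none ∧ l i = true :=
            Finset.mem_filter.2 ⟨hi, ho, hl⟩
          refine ⟨Sum.inl (e1 ⟨i, hm⟩), Finset.mem_univ _, ?_⟩
          change f (e1.symm (e1 ⟨i, hm⟩) : ι) = f i
          rw [e1.symm_apply_apply]
      · left
        rw [hf1 i u ho]
        exact (hM u).2 ⟨i, hi, ho⟩
    · rintro (hv | ⟨x, -, rfl⟩)
      · obtain ⟨i, hi, ho⟩ := (hM v).1 hv
        exact ⟨i, hi, hf1 i v ho⟩
      · rcases x with x | x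
        · exact ⟨_, (h1 x).1, rfl⟩
        · exact ⟨_, (h2 x).1, rfl⟩
  unfold dens
  have hset : {f : ι → V | (∀ i, f i ∈ bx X l o i) ∧ w.image f ∈ H} =
      {f : ι → V | (∀ i, f i ∈ bx X l o i) ∧ M ∪ Finset.univ.image (f ∘ φ) ∈ H} := by
    ext f
    constructor
    · rintro ⟨hf, h⟩
      exact ⟨hf, key f hf ▸ h⟩
    · rintro ⟨hf, h⟩
      refine ⟨hf, ?_⟩
      rw [key f hf]
      exact h
  rw [hset]

end Pool.Agent.KK.E.H8
end

/-! ### Helper15_KK.E_COD -/
section
/-!
# Squad KK, row E_COD: the codegree inequality for densities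
-/

set_option autoImplicit false

namespace Pool.Agent.KK.E.H15

open Function

variable {V : Type} [Fintype V] [DecidableEq V]

theorem dens_eq {ι : Type} [Fintype ι] [DecidableEq ι] (c : ι → Finset V) (P : (ι → V) → Prop)
    [DecidablePred P] :
    dens c P = (((Fintype.piFinset c).filter P).card : ℝ) / ∏ i, ((c i).card : ℝ) := by
  unfold dens
  have h : {f : ι → V | (∀ i, f i ∈ c i) ∧ P f} = ((Fintype.piFinset c).filter P : Finset _) := by
    ext f
    rw [Finset.mem_coe, Finset.mem_filter, Fintype.mem_piFinset]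
    rfl
  rw [h, Set.ncard_coe_finset]

/-- the density on one coordinate -/
theorem dens_unit (X : Finset V) (hX : X.Nonempty) (P : (Unit → V) → Prop) (S : Finset V)
    (hS : ∀ x ∈ X, x ∈ S → P (fun _ => x)) :
    ((X ∩ S).card : ℝ) ≤ (X.card : ℝ) * dens (fun _ : Unit => X) P := by
  classical
  rw [dens_eq]
  have hp : (0 : ℝ) < X.card := by exact_mod_cast Finset.card_pos.2 hX
  have h1 : ∏ _i : Unit, (X.card : ℝ) = X.card := by
    rw [Finset.prod_const, Finset.card_univ, Fintype.card_unit, pow_one]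
  rw [h1, mul_div_cancel₀ _ hp.ne']
  have h2 : (X ∩ S).card ≤ ((Fintype.piFinset fun _ : Unit => X).filter P).card := by
    refine Finset.card_le_card_of_injOn (fun x => fun _ : Unit => x) (fun x hx => ?_)
      (fun x _ y _ h => congrFun h ())
    rw [Finset.mem_coe, Finset.mem_inter] at hx
    rw [Finset.mem_coe, Finset.mem_filter, Fintype.mem_piFinset]
    exact ⟨fun _ => hx.1, hS x hx.1 hx.2⟩
  exact_mod_cast h2

/-- the index bijection for one more letter `X` -/
def phX (a b : ℕ) : (Fin a ⊕ Fin b) ⊕ Unit → Fin (a + 1) ⊕ Fin b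
  | Sum.inl (Sum.inl i) => Sum.inl i.castSucc
  | Sum.inl (Sum.inr j) => Sum.inr j
  | Sum.inr _ => Sum.inl (Fin.last a)

/-- the index bijection for one more letter `Y` -/
def phY (a b : ℕ) : (Fin a ⊕ Fin b) ⊕ Unit → Fin a ⊕ Fin (b + 1)
  | Sum.inl (Sum.inl i) => Sum.inl i
  | Sum.inl (Sum.inr j) => Sum.inr j.castSucc
  | Sum.inr _ => Sum.inr (Fin.last b)

theorem phX_inj (a b : ℕ) : Injective (phX a b) := by
  rintro ((i | j) | u) ((i' | j') | u') h
  · have := Fin.castSucc_injective a (Sum.inl_injective h)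
    rw [this]
  · exact absurd h (by simp [phX])
  · exact absurd (Sum.inl_injective h) (Fin.castSucc_lt_last i).ne
  · exact absurd h (by simp [phX])
  · have : j = j' := Sum.inr_injective h
    rw [this]
  · exact absurd h (by simp [phX])
  · exact absurd (Sum.inl_injective h).symm (Fin.castSucc_lt_last i').ne
  · exact absurd h (by simp [phX])
  · rfl

theorem phX_surj (a b : ℕ) : Surjective (phX a b) := by
  rintro (i | j)
  · induction i using Fin.lastCases with
    | last => exact ⟨Sum.inr (), rfl⟩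
    | cast i => exact ⟨Sum.inl (Sum.inl i), rfl⟩
  · exact ⟨Sum.inl (Sum.inr j), rfl⟩

theorem phY_inj (a b : ℕ) : Injective (phY a b) := by
  rintro ((i | j) | u) ((i' | j') | u') h
  · have : i = i' := Sum.inl_injective h
    rw [this]
  · exact absurd h (by simp [phY])
  · exact absurd h (by simp [phY])
  · exact absurd h (by simp [phY])
  · have := Fin.castSucc_injective b (Sum.inr_injective h)
    rw [this]
  · exact absurd (Sum.inr_injective h) (Fin.castSucc_lt_last j).ne
  · exact absurd h (by simp [phY])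
  · exact absurd (Sum.inr_injective h).symm (Fin.castSucc_lt_last j').ne
  · rfl

theorem phY_surj (a b : ℕ) : Surjective (phY a b) := by
  rintro (i | j)
  · exact ⟨Sum.inl (Sum.inl i), rfl⟩
  · induction j using Fin.lastCases with
    | last => exact ⟨Sum.inr (), rfl⟩
    | cast j => exact ⟨Sum.inl (Sum.inr j), rfl⟩

theorem image_comp {ι κ : Type} [Fintype ι] [Fintype κ] (φ : κ → ι) (hφ : Surjective φ)
    (f : ι → V) : Finset.univ.image (f ∘ φ) = Finset.univ.image f := by
  ext v
  rw [Finset.mem_image, Finset.mem_image]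
  constructor
  · rintro ⟨x, -, hx⟩
    exact ⟨φ x, Finset.mem_univ _, hx⟩
  · rintro ⟨y, -, hy⟩
    obtain ⟨x, rfl⟩ := hφ y
    exact ⟨x, Finset.mem_univ _, hy⟩

theorem lets_ne {X : Finset V} (hX : X.Nonempty) (hY : (Xᶜ).Nonempty) (a b : ℕ)
    (i : Fin a ⊕ Fin b) : (lets X a b i).Nonempty := by
  rcases i with i | i
  · exact hX
  · exact hY

theorem D_succ_left (h2 : StmtE02) (h3 : StmtE03) (H : Finset (Finset V)) (X M : Finset V)
    (hX : X.Nonempty) (hY : (Xᶜ).Nonempty) (a b : ℕ) :
    D H X M (a + 1) b = avg (lets X a b) (fun f => dens (fun _ : Unit => X)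
      (fun g => M ∪ Finset.univ.image (Sum.elim f g) ∈ H)) := by
  have e1 := h2 V (Fin (a + 1) ⊕ Fin b) ((Fin a ⊕ Fin b) ⊕ Unit) (lets X (a + 1) b) (phX a b)
    (lets_ne hX hY _ _) (phX_inj a b) (fun g => M ∪ Finset.univ.image g ∈ H)
  have e2 : (lets X (a + 1) b) ∘ (phX a b) = Sum.elim (lets X a b) (fun _ : Unit => X) := by
    funext i
    rcases i with (i | j) | u
    · rfl
    · rfl
    · rfl
  have e3 := (h3 V (Fin a ⊕ Fin b) Unit (lets X a b) (fun _ : Unit => X) (lets_ne hX hY _ _)
    (fun _ => hX)).1 (fun g => M ∪ Finset.univ.image g ∈ H)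
  unfold D
  rw [e2] at e1
  rw [← e3, ← e1]
  refine congrArg (dens (lets X (a + 1) b)) (funext fun f => ?_)
  rw [image_comp _ (phX_surj a b)]

theorem D_succ_right (h2 : StmtE02) (h3 : StmtE03) (H : Finset (Finset V)) (X M : Finset V)
    (hX : X.Nonempty) (hY : (Xᶜ).Nonempty) (a b : ℕ) :
    D H X M a (b + 1) = avg (lets X a b) (fun f => dens (fun _ : Unit => Xᶜ)
      (fun g => M ∪ Finset.univ.image (Sum.elim f g) ∈ H)) := by
  have e1 := h2 V (Fin a ⊕ Fin (b + 1)) ((Fin a ⊕ Fin b) ⊕ Unit) (lets X a (b + 1)) (phY a b)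
    (lets_ne hX hY _ _) (phY_inj a b) (fun g => M ∪ Finset.univ.image g ∈ H)
  have e2 : (lets X a (b + 1)) ∘ (phY a b) = Sum.elim (lets X a b) (fun _ : Unit => Xᶜ) := by
    funext i
    rcases i with (i | j) | u
    · rfl
    · rfl
    · rfl
  have e3 := (h3 V (Fin a ⊕ Fin b) Unit (lets X a b) (fun _ : Unit => Xᶜ) (lets_ne hX hY _ _)
    (fun _ => hY)).1 (fun g => M ∪ Finset.univ.image g ∈ H)
  unfold D
  rw [e2] at e1
  rw [← e3, ← e1]
  refine congrArg (dens (lets X a (b + 1))) (funext fun f => ?_)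
  rw [image_comp _ (phY_surj a b)]

theorem image_elim {a b : ℕ} (f : Fin a ⊕ Fin b → V) (x : V) (M : Finset V) :
    M ∪ Finset.univ.image (Sum.elim f (fun _ : Unit => x)) =
      insert x (M ∪ Finset.univ.image f) := by
  ext v
  simp only [Finset.mem_union, Finset.mem_image, Finset.mem_univ, true_and, Finset.mem_insert]
  constructor
  · rintro (h | ⟨i | u, h⟩)
    · exact Or.inr (Or.inl h)
    · exact Or.inr (Or.inr ⟨i, h⟩)
    · exact Or.inl h.symm
  · rintro (h | h | ⟨i, h⟩)
    · exact Or.inr ⟨Sum.inr (), h.symm⟩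
    · exact Or.inl h
    · exact Or.inr ⟨Sum.inl i, h⟩

/-- Row E_COD. -/
theorem e_cod (h1 : StmtE01) (h2 : StmtE02) (h3 : StmtE03) (h4 : StmtE04) : StmtE06 := by
  classical
  intro V _ _ H X M p q B a b δ hA hM
  obtain ⟨n, hn⟩ : ∃ n : ℝ, n = Fintype.card V := ⟨_, rfl⟩
  have big := hA.big
  have lo := hA.lo
  have hi := hA.hi
  have lo' := hA.lo'
  have hi' := hA.hi'
  rw [← hn] at big lo hi lo' hi'
  have hδ := hA.pos
  have hδs := hA.small
  obtain ⟨K, hK⟩ : ∃ K : ℝ, K = ((p + q + 2 : ℕ) : ℝ) := ⟨_, rfl⟩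
  have hK2 : 2 ≤ K := by rw [hK]; push_cast; linarith [Nat.cast_nonneg (α := ℝ) p, Nat.cast_nonneg (α := ℝ) q]
  have hKB : K ≤ ((B + p + q + 2 : ℕ) : ℝ) := by
    rw [hK]
    exact_mod_cast (by omega : p + q + 2 ≤ B + p + q + 2)
  rw [← hK] at big
  have hK3 : 3 * K ^ 2 ≤ δ * n := by
    have g1 : 100 * K ^ 2 * K ≤ 100 * K ^ 2 * ((B + p + q + 2 : ℕ) : ℝ) :=
      mul_le_mul_of_nonneg_left hKB (by positivity)
    have g2 : 0 ≤ K ^ 2 * (K - 2) := mul_nonneg (sq_nonneg K) (by linarith)
    have g3 : 0 ≤ K ^ 2 := sq_nonneg K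
    nlinarith
  have hn0 : 0 < n := by
    have g1 : 0 < 3 * K ^ 2 := by positivity
    by_contra hc
    push Not at hc
    have := mul_nonpos_of_nonneg_of_nonpos hδ.le hc
    linarith
  have hXp : (0 : ℝ) < X.card := by
    have : 0 < (1 - δ) * n / 2 := by
      have : 0 < (1 - δ) * n := mul_pos (by linarith) hn0
      linarith
    linarith
  have hYp : (0 : ℝ) < (Xᶜ).card := by
    have : 0 < (1 - δ) * n / 2 := by
      have : 0 < (1 - δ) * n := mul_pos (by linarith) hn0
      linarith
    linarith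
  have hX : X.Nonempty := Finset.card_pos.1 (by exact_mod_cast hXp)
  have hY : (Xᶜ).Nonempty := Finset.card_pos.1 (by exact_mod_cast hYp)
  rw [D_succ_left h2 h3 H X M hX hY, D_succ_right h2 h3 H X M hX hY]
  obtain ⟨u, hu⟩ : ∃ u : (Fin a ⊕ Fin b → V) → ℝ, u = fun f => dens (fun _ : Unit => X)
      (fun g => M ∪ Finset.univ.image (Sum.elim f g) ∈ H) := ⟨_, rfl⟩
  obtain ⟨w, hw⟩ : ∃ w : (Fin a ⊕ Fin b → V) → ℝ, w = fun f => dens (fun _ : Unit => Xᶜ)
      (fun g => M ∪ Finset.univ.image (Sum.elim f g) ∈ H) := ⟨_, rfl⟩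
  rw [← hu, ← hw]
  have hu0 : ∀ f, 0 ≤ u f := fun f => by
    rw [hu]; exact ((h1 V Unit (fun _ => X) (fun _ => hX)).1 _).1
  have hw0 : ∀ f, 0 ≤ w f := fun f => by
    rw [hw]; exact ((h1 V Unit (fun _ => Xᶜ) (fun _ => hY)).1 _).1
  -- the good tuples
  have hgood : ∀ f : Fin a ⊕ Fin b → V, Injective f → (∀ i, f i ∉ M) → 1 - δ ≤ u f + w f := by
    intro f hf hfM
    obtain ⟨S, hS⟩ : ∃ S : Finset V, S = M ∪ Finset.univ.image f := ⟨_, rfl⟩
    have hdis : Disjoint M (Finset.univ.image f) := by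
      rw [Finset.disjoint_right]
      intro v hv
      obtain ⟨i, -, rfl⟩ := Finset.mem_image.1 hv
      exact hfM i
    have hSc : S.card = (p + q + 2) - 1 := by
      rw [hS, Finset.card_union_of_disjoint hdis, Finset.card_image_of_injective _ hf,
        Finset.card_univ, Fintype.card_sum, Fintype.card_fin, Fintype.card_fin]
      omega
    have hD := hA.dirac S hSc
    have hD' : n ≤ 2 * ((nb H S).card : ℝ) := by rw [hn]; exact_mod_cast hD
    have k1 : ((X ∩ nb H S).card : ℝ) ≤ (X.card : ℝ) * u f := by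
      rw [hu]
      refine dens_unit X hX _ (nb H S) fun x _ hx => ?_
      rw [image_elim, ← hS]
      exact ((Finset.mem_filter.1 hx).2).2
    have k2 : ((Xᶜ ∩ nb H S).card : ℝ) ≤ ((Xᶜ).card : ℝ) * w f := by
      rw [hw]
      refine dens_unit Xᶜ hY _ (nb H S) fun x _ hx => ?_
      rw [image_elim, ← hS]
      exact ((Finset.mem_filter.1 hx).2).2
    have k3 : ((nb H S).card : ℝ) = ((X ∩ nb H S).card : ℝ) + ((Xᶜ ∩ nb H S).card : ℝ) := by
      have : (nb H S).card = (X ∩ nb H S).card + (Xᶜ ∩ nb H S).card := by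
        rw [← Finset.card_union_of_disjoint, ← Finset.union_inter_distrib_right,
          Finset.union_compl, Finset.univ_inter]
        exact Finset.disjoint_of_subset_left Finset.inter_subset_left
          (Finset.disjoint_of_subset_right Finset.inter_subset_left disjoint_compl_right)
      exact_mod_cast this
    have k4 : (X.card : ℝ) * u f ≤ (1 + δ) * n / 2 * u f :=
      mul_le_mul_of_nonneg_right hi (hu0 f)
    have k5 : ((Xᶜ).card : ℝ) * w f ≤ (1 + δ) * n / 2 * w f :=
      mul_le_mul_of_nonneg_right hi' (hw0 f)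
    have k6 : n * 1 ≤ n * ((1 + δ) * (u f + w f)) := by nlinarith
    have k7 := le_of_mul_le_mul_left k6 hn0
    by_contra hc
    push Not at hc
    have k8 : (1 + δ) * (u f + w f) < (1 + δ) * (1 - δ) :=
      mul_lt_mul_of_pos_left hc (by linarith)
    nlinarith [sq_nonneg δ]
  -- the degenerate tuples
  have hbx : bx X (Sum.elim (fun _ : Fin a => true) (fun _ : Fin b => false))
      (fun _ => (none : Option V)) = lets X a b := by
    funext i
    rcases i with i | i
    · rfl
    · rfl
  have hdeg := h4 V (Fin a ⊕ Fin b) X M (Sum.elim (fun _ : Fin a => true) (fun _ : Fin b => false))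
    (fun _ => (none : Option V)) (by exact_mod_cast (hn ▸ hn0 : (0 : ℝ) < (Fintype.card V : ℝ)))
    (fun bb => by
      rw [← hn]
      have g : n ≤ 3 * ((1 - δ) * n / 2) := by nlinarith
      cases bb with
      | true => exact g.trans (by show 3 * ((1 - δ) * n / 2) ≤ 3 * (X.card : ℝ); linarith)
      | false => exact g.trans (by show 3 * ((1 - δ) * n / 2) ≤ 3 * ((Xᶜ).card : ℝ); linarith))
    (fun i i' v h => by cases h)
  rw [hbx, ← hn] at hdeg
  have hdeg2 : 3 * ((Fintype.card (Fin a ⊕ Fin b) : ℝ) ^ 2 +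
      (Fintype.card (Fin a ⊕ Fin b) : ℝ) * (M.card : ℝ)) / n ≤ δ := by
    rw [div_le_iff₀ hn0]
    have g1 : (Fintype.card (Fin a ⊕ Fin b) : ℝ) = (a : ℝ) + b := by
      rw [Fintype.card_sum, Fintype.card_fin, Fintype.card_fin]; push_cast; ring
    have g2 : (M.card : ℝ) + a + b + 1 = K := by rw [hK]; exact_mod_cast hM
    rw [g1]
    have g3 : 0 ≤ (a : ℝ) := Nat.cast_nonneg a
    have g4 : 0 ≤ (b : ℝ) := Nat.cast_nonneg b
    have g5 : 0 ≤ (M.card : ℝ) := Nat.cast_nonneg _
    have g6 : ((a : ℝ) + b) ^ 2 + ((a : ℝ) + b) * (M.card : ℝ) ≤ K ^ 2 := by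
      have e : ((a : ℝ) + b) ^ 2 + ((a : ℝ) + b) * (M.card : ℝ) = ((a : ℝ) + b) * (K - 1) := by
        rw [← g2]; ring
      rw [e, sq]
      exact mul_le_mul (by linarith) (by linarith) (by linarith) (by linarith)
    linarith
  have hdeg3 : dens (lets X a b) (fun f => ¬ (Injective f ∧
      ∀ i, (none : Option V) = none → f i ∉ M)) ≤ δ := hdeg.trans hdeg2
  have hgd : 1 - δ ≤ dens (lets X a b) (fun f => Injective f ∧
      ∀ i, (none : Option V) = none → f i ∉ M) := by
    have g : dens (lets X a b) (fun f => Injective f ∧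
      ∀ i, (none : Option V) = none → f i ∉ M) + dens (lets X a b) (fun f => ¬ (Injective f ∧
      ∀ i, (none : Option V) = none → f i ∉ M)) = 1 :=
      (h1 V (Fin a ⊕ Fin b) (lets X a b) (lets_ne hX hY a b)).2.2.2.1
      (fun f => Injective f ∧ ∀ i, (none : Option V) = none → f i ∉ M)
    linarith
  rw [dens_eq] at hgd
  have hpr : (0 : ℝ) < ∏ i, ((lets X a b i).card : ℝ) :=
    Finset.prod_pos fun i _ => by exact_mod_cast Finset.card_pos.2 (lets_ne hX hY a b i)
  rw [le_div_iff₀ hpr] at hgd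
  unfold avg
  rw [← add_div, ← Finset.sum_add_distrib, le_div_iff₀ hpr]
  obtain ⟨G, hG⟩ : ∃ G : Finset (Fin a ⊕ Fin b → V), G = (Fintype.piFinset (lets X a b)).filter
      (fun f => Injective f ∧ ∀ i, (none : Option V) = none → f i ∉ M) := ⟨_, rfl⟩
  rw [← hG] at hgd
  have hsum : (1 - δ) * (G.card : ℝ) ≤ ∑ f ∈ Fintype.piFinset (lets X a b), (u f + w f) := by
    calc (1 - δ) * (G.card : ℝ) = ∑ f ∈ G, (1 - δ) := by
          rw [Finset.sum_const, nsmul_eq_mul]; ring
      _ ≤ ∑ f ∈ G, (u f + w f) := by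
          refine Finset.sum_le_sum fun f hf => ?_
          rw [hG, Finset.mem_filter] at hf
          exact hgood f hf.2.1 fun i => hf.2.2 i rfl
      _ ≤ ∑ f ∈ Fintype.piFinset (lets X a b), (u f + w f) := by
          refine Finset.sum_le_sum_of_subset_of_nonneg ?_ fun f _ _ => ?_
          · rw [hG]; exact Finset.filter_subset _ _
          · have := hu0 f; have := hw0 f; linarith
  refine le_trans ?_ hsum
  have g1 : (1 - δ) * ((1 - δ) * ∏ i, ((lets X a b i).card : ℝ)) ≤ (1 - δ) * (G.card : ℝ) :=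
    mul_le_mul_of_nonneg_left hgd (by linarith)
  refine le_trans ?_ g1
  have g2 : (1 - δ) * ((1 - δ) * ∏ i, ((lets X a b i).card : ℝ)) =
      ((1 - δ) * (1 - δ)) * ∏ i, ((lets X a b i).card : ℝ) := by ring
  rw [g2]
  refine mul_le_mul_of_nonneg_right ?_ hpr.le
  nlinarith [sq_nonneg δ]

end Pool.Agent.KK.E.H15
end

/-! ### Helper81_KK.E_SYM -/
section
/-!
# Squad KK, row E_SYM: symmetry between `X` and its complement
-/

set_option autoImplicit false

namespace Pool.Agent.KK.E.H81

variable {V : Type} [Fintype V] [DecidableEq V]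

theorem inter_compl' (M X : Finset V) : M ∩ Xᶜ = M \ X := by
  ext v
  simp

theorem sdiff_compl' (M X : Finset V) : M \ Xᶜ = M ∩ X := by
  ext v
  simp

theorem amb_symm {H : Finset (Finset V)} {X : Finset V} {p q B : ℕ} {δ : ℝ}
    (h : Amb H X p q B δ) : Amb H Xᶜ q p B δ := by
  have e : q + p + 2 = p + q + 2 := by omega
  have e' : B + q + p + 2 = B + p + q + 2 := by omega
  constructor
  · rw [e]
    exact h.uni
  · rw [e]
    exact h.dirac
  · exact h.pos
  · exact h.small
  · exact h.lo'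
  · exact h.hi'
  · rw [compl_compl]
    exact h.lo
  · rw [compl_compl]
    exact h.hi
  · rw [e, e']
    exact h.big

theorem e_sym (h02 : StmtE02) : StmtE07 := by
  intro V _ _ H X hX hXc
  have hD : ∀ M a b, D H Xᶜ M b a = D H X M a b := by
    intro M a b
    have hne : ∀ i, (lets X a b i).Nonempty := by
      rintro (i | i)
      · exact hX
      · exact hXc
    have h1 := h02 V (Fin a ⊕ Fin b) (Fin b ⊕ Fin a) (lets X a b) Sum.swap hne
      (Equiv.sumComm (Fin b) (Fin a)).injective (fun f => M ∪ Finset.univ.image f ∈ H)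
    have h2 : lets X a b ∘ Sum.swap = lets Xᶜ b a := by
      funext i
      rcases i with i | i
      · rfl
      · simp [lets]
    rw [h2] at h1
    unfold D
    rw [← h1]
    congr 1
    funext f
    have h3 : Finset.univ.image (f ∘ (Sum.swap : Fin b ⊕ Fin a → Fin a ⊕ Fin b)) =
        Finset.univ.image f := by
      ext v
      simp only [Finset.mem_image, Finset.mem_univ, true_and, Function.comp]
      constructor
      · rintro ⟨i, hi⟩
        exact ⟨_, hi⟩
      · rintro ⟨i, hi⟩
        exact ⟨i.swap, by rw [Sum.swap_swap]; exact hi⟩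
    rw [h3]
  have hM : ∀ M a b, Mix H Xᶜ M b a = Mix H X M a b := by
    intro M a b
    have hne : ∀ i, (Sum.elim (lets X a b) (fun t : Bool => sd X t) i).Nonempty := by
      rintro ((i | i) | i)
      · exact hX
      · exact hXc
      · cases i
        · exact hXc
        · exact hX
    have hinj : Function.Injective
        (Sum.map Sum.swap not : (Fin b ⊕ Fin a) ⊕ Bool → (Fin a ⊕ Fin b) ⊕ Bool) :=
      Sum.map_injective.2 ⟨(Equiv.sumComm (Fin b) (Fin a)).injective, Bool.not_injective⟩
    have h1 := h02 V ((Fin a ⊕ Fin b) ⊕ Bool) ((Fin b ⊕ Fin a) ⊕ Bool)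
      (Sum.elim (lets X a b) (fun t : Bool => sd X t)) (Sum.map Sum.swap not) hne hinj
      (fun f => insert (f (Sum.inr true)) (M ∪ Finset.univ.image fun i => f (Sum.inl i)) ∈ H ∧
        insert (f (Sum.inr false)) (M ∪ Finset.univ.image fun i => f (Sum.inl i)) ∈ H)
    have h2 : Sum.elim (lets X a b) (fun t : Bool => sd X t) ∘ Sum.map Sum.swap not =
        Sum.elim (lets Xᶜ b a) (fun t : Bool => sd Xᶜ t) := by
      funext i
      rcases i with (i | i) | i
      · rfl
      · simp [lets]
      · cases i <;> simp [sd]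
    rw [h2] at h1
    unfold Mix
    rw [← h1]
    congr 1
    funext f
    have h3 : (Finset.univ.image fun i : Fin b ⊕ Fin a =>
        (f ∘ (Sum.map Sum.swap not : (Fin b ⊕ Fin a) ⊕ Bool → (Fin a ⊕ Fin b) ⊕ Bool))
          (Sum.inl i)) = Finset.univ.image fun i => f (Sum.inl i) := by
      ext v
      simp only [Finset.mem_image, Finset.mem_univ, true_and, Function.comp, Sum.map_inl]
      constructor
      · rintro ⟨i, hi⟩
        exact ⟨_, hi⟩
      · rintro ⟨i, hi⟩
        exact ⟨i.swap, by rw [Sum.swap_swap]; exact hi⟩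
    rw [h3]
    simp only [Function.comp, Sum.map_inr, Bool.not_true, Bool.not_false]
    exact propext and_comm
  have hN : ∀ p q η M, Non H Xᶜ q p η M ↔ Non H X p q η M := by
    intro p q η M
    unfold Non
    rw [inter_compl', sdiff_compl', hD]
    tauto
  refine ⟨hD, hM, hN, ?_, ?_⟩
  · intro p q η M
    unfold Mst
    simp only [hN]
  · intro p q B δ h
    exact amb_symm h

end Pool.Agent.KK.E.H81
end

/-! ### Helper47_KK.EBic -/
section
/-!
Squad KK, row E_BIC (E19): crossing of a gap with a bi-coloured minimal non-normal set (helper47).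
-/

set_option autoImplicit false

namespace Pool.Agent.KK.E.H47

open Pool.Agent.KK Pool.Agent.KK.E

/-! ### The letters of the word -/

theorem low_length (p q : ℕ) : (low p q).length = p + q + 1 := by
  simp only [low, List.length_append, List.length_replicate, List.length_singleton]
  omega

theorem high_length (p q : ℕ) : (high p q).length = p + q + 1 := by
  simp only [high, List.length_cons, List.length_append, List.length_replicate]
  omega

theorem word_low (p q i : ℕ) (hi : i < p + q + 1) :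
    (word p q).getD i false = (low p q).getD i false := by
  unfold word
  rw [List.append_assoc, List.getD_append]
  rw [low_length]
  exact hi

theorem word_mid (p q i : ℕ) (hi : p + q + 1 ≤ i) (hi2 : i < 2 * (p + q + 2) - 1) :
    (word p q).getD i false =
      (List.replicate (q + 1) false ++ List.replicate (p + 1) true).getD (i - (p + q + 1)) false := by
  unfold word
  rw [List.append_assoc, List.getD_append_right _ _ _ _ (by rw [low_length]; exact hi),
    low_length, List.getD_append]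
  rw [List.length_append, List.length_replicate, List.length_replicate]
  omega

theorem word_midY (p q i : ℕ) (hi : p + q + 1 ≤ i) (hi2 : i < p + q + 2 + q) :
    (word p q).getD i false = false := by
  rw [word_mid p q i hi (by omega), List.getD_append]
  · exact List.getD_replicate _ (by omega)
  · rw [List.length_replicate]
    omega

theorem word_midX (p q i : ℕ) (hi : p + q + 2 + q ≤ i) (hi2 : i < 2 * (p + q + 2) - 1) :
    (word p q).getD i false = true := by
  rw [word_mid p q i (by omega) hi2, List.getD_append_right _ _ _ _ (by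
    rw [List.length_replicate]; omega), List.length_replicate]
  exact List.getD_replicate _ (by omega)

theorem word_high (p q i : ℕ) (hi : 2 * (p + q + 2) - 1 ≤ i) :
    (word p q).getD i false = (high p q).getD (i - (2 * (p + q + 2) - 1)) false := by
  unfold word
  have h : (low p q ++ (List.replicate (q + 1) false ++ List.replicate (p + 1) true)).length =
      2 * (p + q + 2) - 1 := by
    rw [List.length_append, low_length, List.length_append, List.length_replicate,
      List.length_replicate]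
    omega
  rw [List.getD_append_right _ _ _ _ (by rw [h]; exact hi), h]

/-! ### Windows -/

/-- The window of length `k` starting at `a`. -/
def win (m k a : ℕ) : Finset (Fin m) :=
  Finset.univ.filter fun i : Fin m => a ≤ (i : ℕ) ∧ (i : ℕ) < a + k

theorem win_card (m k a : ℕ) (h : a + k ≤ m) (P : ℕ → Prop) [DecidablePred P] :
    ((win m k a).filter fun i : Fin m => P (i : ℕ)).card =
      ((Finset.range k).filter fun i => P (a + i)).card := by
  symm
  refine Finset.card_bij (fun i hi => ⟨a + i, by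
    have := Finset.mem_range.1 (Finset.mem_filter.1 hi).1
    omega⟩) ?_ ?_ ?_
  · intro i hi
    have h1 := Finset.mem_range.1 (Finset.mem_filter.1 hi).1
    have h2 := (Finset.mem_filter.1 hi).2
    refine Finset.mem_filter.2 ⟨Finset.mem_filter.2 ⟨Finset.mem_univ _, ?_, ?_⟩, h2⟩
    · show a ≤ a + i
      omega
    · show a + i < a + k
      omega
  · intro i hi j hj hij
    have := congrArg Fin.val hij
    simp only at this
    omega
  · intro j hj
    have h1 := (Finset.mem_filter.1 (Finset.mem_filter.1 hj).1).2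
    have h2 := (Finset.mem_filter.1 hj).2
    refine ⟨j.1 - a, Finset.mem_filter.2 ⟨Finset.mem_range.2 (by omega), ?_⟩, ?_⟩
    · have : a + (j.1 - a) = j.1 := by omega
      rw [this]
      exact h2
    · apply Fin.ext
      show a + (j.1 - a) = j.1
      omega

theorem win_card_all (m k a : ℕ) (h : a + k ≤ m) : (win m k a).card = k := by
  have h1 := win_card m k a h (fun _ => True)
  simp only [Finset.filter_true, Finset.card_range] at h1
  exact h1

section Main

variable {V : Type} [Fintype V] [DecidableEq V]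

/-- Number of positions of a set of positions with a given letter: fixed plus generic. -/
theorem fixed_count (X M' : Finset V) {m : ℕ} (l : Fin m → Bool) (o : Fin m → Option V)
    (w : Finset (Fin m)) (b : Bool)
    (hinj : ∀ i i' v, o i = some v → o i' = some v → i = i')
    (hM' : ∀ v, v ∈ M' ↔ ∃ i ∈ w, o i = some v)
    (hl : ∀ i v, o i = some v → (l i = true ↔ v ∈ X)) :
    (w.filter fun i => l i = b).card =
      (w.filter fun i => o i = none ∧ l i = b).card +
        (M'.filter fun v => decide (v ∈ X) = b).card := by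
  classical
  have h1 : (w.filter fun i => l i = b).card =
      (w.filter fun i => o i = none ∧ l i = b).card +
        (w.filter fun i => o i ≠ none ∧ l i = b).card := by
    rw [← Finset.card_union_of_disjoint]
    · congr 1
      ext i
      simp only [Finset.mem_filter, Finset.mem_union]
      tauto
    · rw [Finset.disjoint_left]
      intro i hi hi2
      exact (Finset.mem_filter.1 hi2).2.1 (Finset.mem_filter.1 hi).2.1
  rw [h1]
  congr 1
  refine Finset.card_bij (fun i hi => (o i).get (Option.isSome_iff_ne_none.2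
    (Finset.mem_filter.1 hi).2.1)) ?_ ?_ ?_
  · intro i hi
    have hi' := Finset.mem_filter.1 hi
    obtain ⟨v, hv⟩ := Option.ne_none_iff_exists'.1 hi'.2.1
    have h2 : (o i).get (Option.isSome_iff_ne_none.2 hi'.2.1) = v := by
      simp only [hv, Option.get_some]
    rw [h2]
    refine Finset.mem_filter.2 ⟨(hM' v).2 ⟨i, hi'.1, hv⟩, ?_⟩
    have h3 := hl i v hv
    rw [← hi'.2.2]
    by_cases hx : v ∈ X
    · rw [h3.2 hx]
      exact decide_eq_true hx
    · have : l i = false := by
        cases hli : l i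
        · rfl
        · exact absurd (h3.1 hli) hx
      rw [this]
      exact decide_eq_false hx
  · intro i hi j hj hij
    have hi' := Finset.mem_filter.1 hi
    have hj' := Finset.mem_filter.1 hj
    obtain ⟨v, hv⟩ := Option.ne_none_iff_exists'.1 hi'.2.1
    obtain ⟨v', hv'⟩ := Option.ne_none_iff_exists'.1 hj'.2.1
    simp only [hv, hv', Option.get_some] at hij
    rw [hij] at hv
    exact hinj i j v' hv hv'
  · intro v hv
    obtain ⟨hvM, hvX⟩ := Finset.mem_filter.1 hv
    obtain ⟨i, hi, hiv⟩ := (hM' v).1 hvM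
    have h3 := hl i v hiv
    refine ⟨i, Finset.mem_filter.2 ⟨hi, ?_, ?_⟩, ?_⟩
    · rw [hiv]
      exact Option.some_ne_none v
    · rw [← hvX]
      by_cases hx : v ∈ X
      · rw [h3.2 hx]
        exact (decide_eq_true hx).symm
      · have : l i = false := by
          cases hli : l i
          · rfl
          · exact absurd (h3.1 hli) hx
        rw [this]
        exact (decide_eq_false hx).symm
    · simp only [hiv, Option.get_some]

/-! ### The fixed positions -/

/-- The fixed positions. -/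
noncomputable def fx (X M : Finset V) (p q : ℕ) (i : Fin (3 * (p + q + 2) - 2)) : Option V :=
  if h : p + q + 1 ≤ (i : ℕ) ∧ (i : ℕ) < p + q + 1 + (M \ X).card then
    some ((M \ X).equivFin.symm ⟨(i : ℕ) - (p + q + 1), by omega⟩).1
  else if h : 2 * (p + q + 2) - 1 - (M ∩ X).card ≤ (i : ℕ) ∧ (i : ℕ) < 2 * (p + q + 2) - 1 then
    some ((M ∩ X).equivFin.symm ⟨(i : ℕ) - (2 * (p + q + 2) - 1 - (M ∩ X).card), by omega⟩).1
  else none

theorem fx_cases (X M : Finset V) (p q : ℕ) (i : Fin (3 * (p + q + 2) - 2)) (v : V)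
    (h : fx X M p q i = some v) :
    (p + q + 1 ≤ (i : ℕ) ∧ (i : ℕ) < p + q + 1 + (M \ X).card ∧ v ∈ M \ X) ∨
      (2 * (p + q + 2) - 1 - (M ∩ X).card ≤ (i : ℕ) ∧ (i : ℕ) < 2 * (p + q + 2) - 1 ∧
        v ∈ M ∩ X) := by
  unfold fx at h
  split_ifs at h with h1 h2
  · left
    refine ⟨h1.1, h1.2, ?_⟩
    rw [← Option.some_injective _ h]
    exact Subtype.property _
  · right
    refine ⟨h2.1, h2.2, ?_⟩
    rw [← Option.some_injective _ h]
    exact Subtype.property _

theorem fx_inj (X M : Finset V) (p q : ℕ) (i i' : Fin (3 * (p + q + 2) - 2)) (v : V)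
    (h : fx X M p q i = some v) (h' : fx X M p q i' = some v) : i = i' := by
  have hc := fx_cases X M p q i v h
  have hc' := fx_cases X M p q i' v h'
  unfold fx at h h'
  split_ifs at h with h1 h2
  · split_ifs at h' with h1' h2'
    · have e := Subtype.ext ((Option.some_injective _ h).trans (Option.some_injective _ h').symm)
      have e2 := congrArg Fin.val ((M \ X).equivFin.symm.injective e)
      simp only at e2
      apply Fin.ext
      omega
    · rcases hc with hc | hc
      · rcases hc' with hc' | hc'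
        · exact absurd ⟨hc'.1, hc'.2.1⟩ h1'
        · exact absurd (Finset.mem_inter.1 hc'.2.2).2 (Finset.mem_sdiff.1 hc.2.2).2
      · have hv : v ∈ M \ X := by
          rw [← Option.some_injective _ h]
          exact Subtype.property _
        exact absurd (Finset.mem_inter.1 hc.2.2).2 (Finset.mem_sdiff.1 hv).2
  · split_ifs at h' with h1' h2'
    · have hv : v ∈ M ∩ X := by
        rw [← Option.some_injective _ h]
        exact Subtype.property _
      have hv' : v ∈ M \ X := by
        rw [← Option.some_injective _ h']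
        exact Subtype.property _
      exact absurd (Finset.mem_inter.1 hv).2 (Finset.mem_sdiff.1 hv').2
    · have e := Subtype.ext ((Option.some_injective _ h).trans (Option.some_injective _ h').symm)
      have e2 := congrArg Fin.val ((M ∩ X).equivFin.symm.injective e)
      simp only at e2
      apply Fin.ext
      omega

theorem fx_surj (X M : Finset V) (p q : ℕ) (h1 : (M \ X).card ≤ q + 1)
    (h2 : (M ∩ X).card ≤ p + 1) (v : V) (hv : v ∈ M) : ∃ i, fx X M p q i = some v := by
  by_cases hx : v ∈ X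
  · have hm : v ∈ M ∩ X := Finset.mem_inter.2 ⟨hv, hx⟩
    have hj := ((M ∩ X).equivFin ⟨v, hm⟩).2
    refine ⟨⟨2 * (p + q + 2) - 1 - (M ∩ X).card + ((M ∩ X).equivFin ⟨v, hm⟩).1, by omega⟩, ?_⟩
    unfold fx
    rw [dif_neg, dif_pos]
    · have e : (⟨2 * (p + q + 2) - 1 - (M ∩ X).card + ((M ∩ X).equivFin ⟨v, hm⟩).1 -
          (2 * (p + q + 2) - 1 - (M ∩ X).card), by omega⟩ : Fin (M ∩ X).card) =
          (M ∩ X).equivFin ⟨v, hm⟩ := by
        apply Fin.ext
        show _ + _ - _ = _
        omega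
      rw [e, Equiv.symm_apply_apply]
    · constructor
      · show _ ≤ _ + _
        omega
      · show _ + _ < _
        omega
    · rintro ⟨_, hb⟩
      have hb' : 2 * (p + q + 2) - 1 - (M ∩ X).card + ((M ∩ X).equivFin ⟨v, hm⟩).1 <
        p + q + 1 + (M \ X).card := hb
      omega
  · have hm : v ∈ M \ X := Finset.mem_sdiff.2 ⟨hv, hx⟩
    have hj := ((M \ X).equivFin ⟨v, hm⟩).2
    refine ⟨⟨p + q + 1 + ((M \ X).equivFin ⟨v, hm⟩).1, by omega⟩, ?_⟩
    unfold fx
    rw [dif_pos]
    · have e : (⟨p + q + 1 + ((M \ X).equivFin ⟨v, hm⟩).1 - (p + q + 1), by omega⟩ :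
          Fin (M \ X).card) = (M \ X).equivFin ⟨v, hm⟩ := by
        apply Fin.ext
        show _ + _ - _ = _
        omega
      rw [e, Equiv.symm_apply_apply]
    · constructor
      · show _ ≤ _ + _
        omega
      · show _ + _ < _
        omega

/-- The letters. -/
def lt (p q : ℕ) (i : Fin (3 * (p + q + 2) - 2)) : Bool := (word p q).getD (i : ℕ) false

theorem fx_letter (X M : Finset V) (p q : ℕ) (h1 : (M \ X).card ≤ q + 1)
    (h2 : (M ∩ X).card ≤ p + 1) (i : Fin (3 * (p + q + 2) - 2)) (v : V)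
    (h : fx X M p q i = some v) : lt p q i = true ↔ v ∈ X := by
  unfold lt
  rcases fx_cases X M p q i v h with hc | hc
  · rw [word_midY p q i hc.1 (by omega)]
    constructor
    · intro h3
      exact absurd h3 (by decide)
    · intro h3
      exact absurd h3 (Finset.mem_sdiff.1 hc.2.2).2
  · rw [word_midX p q i (by omega) hc.2.1]
    constructor
    · intro _
      exact (Finset.mem_inter.1 hc.2.2).2
    · intro _
      rfl

/-! ### The windows -/

theorem win_letters (h18 : StmtE18) (p q a : ℕ) (ha : a + (p + q + 2) ≤ 3 * (p + q + 2) - 2) :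
    ((win (3 * (p + q + 2) - 2) (p + q + 2) a).filter fun i => lt p q i = true).card =
        (if a < p + q + 1 then p else if a = p + q + 1 then p + 1 else p + 2) ∧
      ((win (3 * (p + q + 2) - 2) (p + q + 2) a).filter fun i => lt p q i = false).card =
        (if a < p + q + 1 then q + 2 else if a = p + q + 1 then q + 1 else q) := by
  have h1 := win_card (3 * (p + q + 2) - 2) (p + q + 2) a ha
    (fun i => (word p q).getD i false = true)
  have h2 := (h18 p q a ha).2
  have h3 : ((win (3 * (p + q + 2) - 2) (p + q + 2) a).filter fun i => lt p q i = true).card =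
        (if a < p + q + 1 then p else if a = p + q + 1 then p + 1 else p + 2) := by
    rw [← h2]
    exact h1
  refine ⟨h3, ?_⟩
  have h4 := Finset.card_filter_add_card_filter_not
    (s := win (3 * (p + q + 2) - 2) (p + q + 2) a) (fun i => lt p q i = true)
  rw [win_card_all _ _ _ ha, h3] at h4
  have h5 : ((win (3 * (p + q + 2) - 2) (p + q + 2) a).filter fun i => ¬ lt p q i = true) =
      ((win (3 * (p + q + 2) - 2) (p + q + 2) a).filter fun i => lt p q i = false) := by
    ext i
    simp only [Finset.mem_filter, Bool.not_eq_true]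
  rw [h5] at h4
  split_ifs at h4 ⊢ <;> omega

/-- The fixed vertices in a window. -/
noncomputable def part (X M : Finset V) (p q a : ℕ) : Finset V :=
  M.filter fun v => ∃ i ∈ win (3 * (p + q + 2) - 2) (p + q + 2) a, fx X M p q i = some v

theorem mem_part (X M : Finset V) (p q a : ℕ) (v : V) :
    v ∈ part X M p q a ↔
      ∃ i ∈ win (3 * (p + q + 2) - 2) (p + q + 2) a, fx X M p q i = some v := by
  constructor
  · intro h
    exact (Finset.mem_filter.1 h).2
  · rintro ⟨i, hi, hv⟩
    refine Finset.mem_filter.2 ⟨?_, i, hi, hv⟩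
    rcases fx_cases X M p q i v hv with hc | hc
    · exact (Finset.mem_sdiff.1 hc.2.2).1
    · exact (Finset.mem_inter.1 hc.2.2).1

theorem window_dens (h05 : StmtE05) (h18 : StmtE18) (H : Finset (Finset V)) (X M : Finset V)
    (p q a : ℕ) (hX : X.Nonempty) (hXc : (Xᶜ).Nonempty) (h1 : (M \ X).card ≤ q + 1)
    (h2 : (M ∩ X).card ≤ p + 1) (ha : a + (p + q + 2) ≤ 3 * (p + q + 2) - 2) (e e' : ℕ)
    (he : (if a < p + q + 1 then p else if a = p + q + 1 then p + 1 else p + 2) = e)
    (he' : (if a < p + q + 1 then q + 2 else if a = p + q + 1 then q + 1 else q) = e') :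
    (part X M p q a ∩ X).card ≤ e ∧ (part X M p q a \ X).card ≤ e' ∧
      dens (bx X (lt p q) (fx X M p q))
        (fun f => (win (3 * (p + q + 2) - 2) (p + q + 2) a).image f ∈ H) =
      D H X (part X M p q a) (e - (part X M p q a ∩ X).card)
        (e' - (part X M p q a \ X).card) := by
  have hw := win_letters h18 p q a ha
  rw [he, he'] at hw
  have c1 := fixed_count X (part X M p q a) (lt p q) (fx X M p q)
    (win (3 * (p + q + 2) - 2) (p + q + 2) a) true (fx_inj X M p q) (mem_part X M p q a)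
    (fx_letter X M p q h1 h2)
  have c2 := fixed_count X (part X M p q a) (lt p q) (fx X M p q)
    (win (3 * (p + q + 2) - 2) (p + q + 2) a) false (fx_inj X M p q) (mem_part X M p q a)
    (fx_letter X M p q h1 h2)
  have s1 : ((part X M p q a).filter fun v => decide (v ∈ X) = true) = part X M p q a ∩ X := by
    ext v
    simp only [Finset.mem_filter, Finset.mem_inter, decide_eq_true_eq]
  have s2 : ((part X M p q a).filter fun v => decide (v ∈ X) = false) = part X M p q a \ X := by
    ext v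
    simp only [Finset.mem_filter, Finset.mem_sdiff, decide_eq_false_iff_not]
  rw [s1, hw.1] at c1
  rw [s2, hw.2] at c2
  refine ⟨by omega, by omega, ?_⟩
  exact h05 V (Fin (3 * (p + q + 2) - 2)) H X (part X M p q a) (lt p q) (fx X M p q)
    (win (3 * (p + q + 2) - 2) (p + q + 2) a) _ _ hX hXc (mem_part X M p q a)
    (by omega) (by omega)

theorem fx_first (X M : Finset V) (p q : ℕ) (hne : (M \ X).Nonempty) :
    ∃ v, fx X M p q ⟨p + q + 1, by omega⟩ = some v := by
  have h := Finset.card_pos.2 hne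
  refine ⟨((M \ X).equivFin.symm ⟨p + q + 1 - (p + q + 1), by omega⟩).1, ?_⟩
  unfold fx
  rw [dif_pos]
  exact ⟨le_refl _, by
    show p + q + 1 < p + q + 1 + (M \ X).card
    omega⟩

theorem fx_last (X M : Finset V) (p q : ℕ) (h1 : (M \ X).card ≤ q + 1)
    (hne : (M ∩ X).Nonempty) :
    ∃ v, fx X M p q ⟨2 * (p + q + 2) - 2, by omega⟩ = some v := by
  have h := Finset.card_pos.2 hne
  refine ⟨((M ∩ X).equivFin.symm ⟨2 * (p + q + 2) - 2 - (2 * (p + q + 2) - 1 - (M ∩ X).card),
      by omega⟩).1, ?_⟩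
  unfold fx
  rw [dif_neg, dif_pos]
  · constructor
    · show 2 * (p + q + 2) - 1 - (M ∩ X).card ≤ 2 * (p + q + 2) - 2
      omega
    · show 2 * (p + q + 2) - 2 < 2 * (p + q + 2) - 1
      omega
  · rintro ⟨_, hb⟩
    have hb' : 2 * (p + q + 2) - 2 < p + q + 1 + (M \ X).card := hb
    omega

theorem part_sub (X M : Finset V) (p q a : ℕ) : part X M p q a ⊆ M := Finset.filter_subset _ _

theorem part_ssub (X M : Finset V) (p q a : ℕ) (h1 : (M \ X).card ≤ q + 1)
    (hneX : (M ∩ X).Nonempty) (hneY : (M \ X).Nonempty) (ha : a ≠ p + q + 1) :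
    part X M p q a ⊂ M := by
  refine ⟨part_sub X M p q a, fun hsub => ?_⟩
  rcases Nat.lt_or_gt_of_ne ha with hlt | hgt
  · obtain ⟨v, hv⟩ := fx_last X M p q h1 hneX
    have hvM : v ∈ M := by
      rcases fx_cases X M p q _ v hv with hc | hc
      · exact (Finset.mem_sdiff.1 hc.2.2).1
      · exact (Finset.mem_inter.1 hc.2.2).1
    obtain ⟨i, hi, hiv⟩ := (mem_part X M p q a v).1 (hsub hvM)
    have hii := fx_inj X M p q _ _ v hv hiv
    have hi2 := (Finset.mem_filter.1 hi).2
    rw [← hii] at hi2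
    have h3 : 2 * (p + q + 2) - 2 < a + (p + q + 2) := hi2.2
    omega
  · obtain ⟨v, hv⟩ := fx_first X M p q hneY
    have hvM : v ∈ M := by
      rcases fx_cases X M p q _ v hv with hc | hc
      · exact (Finset.mem_sdiff.1 hc.2.2).1
      · exact (Finset.mem_inter.1 hc.2.2).1
    obtain ⟨i, hi, hiv⟩ := (mem_part X M p q a v).1 (hsub hvM)
    have hii := fx_inj X M p q _ _ v hv hiv
    have hi2 := (Finset.mem_filter.1 hi).2
    rw [← hii] at hi2
    have h3 : a ≤ p + q + 1 := hi2.1
    omega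

theorem part_full (X M : Finset V) (p q : ℕ) (h1 : (M \ X).card ≤ q + 1)
    (h2 : (M ∩ X).card ≤ p + 1) : part X M p q (p + q + 1) = M := by
  apply Finset.Subset.antisymm (part_sub X M p q _)
  intro v hv
  obtain ⟨i, hi⟩ := fx_surj X M p q h1 h2 v hv
  refine (mem_part X M p q _ v).2 ⟨i, ?_, hi⟩
  refine Finset.mem_filter.2 ⟨Finset.mem_univ _, ?_⟩
  rcases fx_cases X M p q i v hi with hc | hc <;> omega

theorem bx_nonempty {ι : Type} (X : Finset V) (hX : X.Nonempty) (hXc : (Xᶜ).Nonempty)
    (l : ι → Bool) (o : ι → Option V) (i : ι) : (bx X l o i).Nonempty := by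
  unfold bx
  cases o i with
  | none =>
    show (sd X (l i)).Nonempty
    unfold sd
    split_ifs
    · exact hX
    · exact hXc
  | some v => exact Finset.singleton_nonempty v

theorem eta_mono {k B : ℕ} {η θ : ℕ → ℝ} {h δ : ℝ} (hc : Cst k B η θ h δ) (hk : 2 ≤ k) :
    ∀ i j, i ≤ j → j ≤ k → η i ≤ η j := by
  intro i j hij
  induction j, hij using Nat.le_induction with
  | base =>
    intro _
    exact le_refl _
  | succ j hij ih =>
    intro hj
    have h1 := ih (by omega)
    have h2 := hc.step j (by omega)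
    have h3 := hc.pos j (by omega)
    have h4 : (1 : ℝ) ≤ 8 * (k : ℝ) * 4 ^ k * ((B : ℝ) + 1) := by
      have a1 : (2 : ℝ) ≤ k := by exact_mod_cast hk
      have a2 : (1 : ℝ) ≤ 4 ^ k := one_le_pow₀ (by norm_num)
      have a3 : (0 : ℝ) ≤ B := Nat.cast_nonneg B
      nlinarith [mul_nonneg (by linarith : (0 : ℝ) ≤ 8 * (k : ℝ) - 1)
        (by linarith : (0 : ℝ) ≤ (4 : ℝ) ^ k - 1),
        mul_nonneg (by positivity : (0 : ℝ) ≤ 8 * (k : ℝ) * 4 ^ k) a3]
    nlinarith

theorem window_ordinary (h01 : StmtE01) (h05 : StmtE05) (h17 : StmtE17) (h18 : StmtE18)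
    (H : Finset (Finset V)) (X M : Finset V) (p q B a : ℕ) (δ h : ℝ) (η θ : ℕ → ℝ)
    (hX : X.Nonempty) (hXc : (Xᶜ).Nonempty) (hamb : Amb H X p q B δ)
    (hc : Cst (p + q + 2) B η θ h δ) (hM : Mst H X p q η M) (hneX : (M ∩ X).Nonempty)
    (hneY : (M \ X).Nonempty) (hMk : M.card ≤ p + q + 2) (ha : a ≠ p + q + 1)
    (ha2 : a + (p + q + 2) ≤ 3 * (p + q + 2) - 2) :
    dens (bx X (lt p q) (fx X M p q))
        (fun f => ¬ (win (3 * (p + q + 2) - 2) (p + q + 2) a).image f ∈ H) ≤
      3 * δ + η (M.card - 1) := by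
  have h1 : (M \ X).card ≤ q + 1 := hM.1.2.1
  have h2 : (M ∩ X).card ≤ p + 1 := hM.1.1
  have hss := part_ssub X M p q a h1 hneX hneY ha
  have hnon := hM.2 _ hss
  have hcard := Finset.card_lt_card hss
  have hc1 : (part X M p q a ∩ X).card ≤ p + 1 :=
    (Finset.card_le_card (Finset.inter_subset_inter_right hss.1)).trans h2
  have hc2 : (part X M p q a \ X).card ≤ q + 1 :=
    (Finset.card_le_card (Finset.sdiff_subset_sdiff hss.1 (Finset.Subset.refl X))).trans h1
  have hmono := eta_mono hc (by omega) (part X M p q a).card (M.card - 1) (by omega) (by omega)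
  have hcompl := (h01 V (Fin (3 * (p + q + 2) - 2)) (bx X (lt p q) (fx X M p q))
    (bx_nonempty X hX hXc _ _)).2.2.2.1
    (fun f => (win (3 * (p + q + 2) - 2) (p + q + 2) a).image f ∈ H)
  have hE := h17 V H X (part X M p q a) p q B δ η hamb hnon hc1 hc2
  rcases Nat.lt_or_gt_of_ne ha with hlt | hgt
  · obtain ⟨e1, e2, e3⟩ := window_dens h05 h18 H X M p q a hX hXc h1 h2 ha2 p (q + 2)
      (if_pos hlt) (if_pos hlt)
    have := hE.2 e1
    rw [e3] at hcompl
    linarith
  · obtain ⟨e1, e2, e3⟩ := window_dens h05 h18 H X M p q a hX hXc h1 h2 ha2 (p + 2) q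
      (by rw [if_neg (by omega), if_neg ha]) (by rw [if_neg (by omega), if_neg ha])
    have := hE.1 e2
    rw [e3] at hcompl
    linarith

theorem window_special (h05 : StmtE05) (h18 : StmtE18)
    (H : Finset (Finset V)) (X M : Finset V) (p q : ℕ) (η : ℕ → ℝ)
    (hX : X.Nonempty) (hXc : (Xᶜ).Nonempty) (hM : Mst H X p q η M) :
    η M.card < dens (bx X (lt p q) (fx X M p q))
        (fun f => (win (3 * (p + q + 2) - 2) (p + q + 2) (p + q + 1)).image f ∈ H) := by
  have h1 : (M \ X).card ≤ q + 1 := hM.1.2.1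
  have h2 : (M ∩ X).card ≤ p + 1 := hM.1.1
  obtain ⟨e1, e2, e3⟩ := window_dens h05 h18 H X M p q (p + q + 1) hX hXc h1 h2 (by omega)
      (p + 1) (q + 1) (by rw [if_neg (by omega), if_pos rfl]) (by rw [if_neg (by omega), if_pos rfl])
  rw [e3, part_full X M p q h1 h2]
  exact hM.1.2.2

/-! ### The ends -/

theorem dens_end (h02 : StmtE02) (X : Finset V) (hX : X.Nonempty) (hXc : (Xᶜ).Nonempty)
    {ι : Type} [Fintype ι] (l : ι → Bool) (o : ι → Option V) (w : List Bool) (S : Set (List V))
    (β : ℝ) (φ : Fin w.length → ι) (hφ : Function.Injective φ) (ho : ∀ i, o (φ i) = none)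
    (hl : ∀ i, l (φ i) = w.get i) (halm : Alm X w S β) :
    dens (bx X l o) (fun f => List.ofFn (f ∘ φ) ∉ S) ≤ β := by
  have h := h02 V ι (Fin w.length) (bx X l o) φ (bx_nonempty X hX hXc l o) hφ
    (fun g => List.ofFn g ∉ S)
  rw [h]
  have e : bx X l o ∘ φ = fun i : Fin w.length => sd X (w.get i) := by
    funext i
    show (o (φ i)).elim (sd X (l (φ i))) _ = _
    rw [ho i, hl i]
    rfl
  rw [e]
  exact halm

/-- The first positions. -/
def emLow (p q : ℕ) (i : Fin (low p q).length) : Fin (3 * (p + q + 2) - 2) :=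
  ⟨i.1, by have h := i.2; have h' := low_length p q; omega⟩

/-- The last positions. -/
def emHigh (p q : ℕ) (i : Fin (high p q).length) : Fin (3 * (p + q + 2) - 2) :=
  ⟨2 * (p + q + 2) - 1 + i.1, by have h := i.2; have h' := high_length p q; omega⟩

theorem emLow_inj (p q : ℕ) : Function.Injective (emLow p q) := by
  intro i j h
  apply Fin.ext
  have := congrArg Fin.val h
  simp only [emLow] at this
  exact this

theorem emHigh_inj (p q : ℕ) : Function.Injective (emHigh p q) := by
  intro i j h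
  apply Fin.ext
  have := congrArg Fin.val h
  simp only [emHigh] at this
  omega

theorem fx_emLow (X M : Finset V) (p q : ℕ) (h2 : (M ∩ X).card ≤ p + 1)
    (i : Fin (low p q).length) : fx X M p q (emLow p q i) = none := by
  have hi := i.2
  have hl := low_length p q
  unfold fx
  rw [dif_neg, dif_neg]
  · rintro ⟨ha, _⟩
    have : 2 * (p + q + 2) - 1 - (M ∩ X).card ≤ i.1 := ha
    omega
  · rintro ⟨ha, _⟩
    have : p + q + 1 ≤ i.1 := ha
    omega

theorem fx_emHigh (X M : Finset V) (p q : ℕ) (h1 : (M \ X).card ≤ q + 1)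
    (i : Fin (high p q).length) : fx X M p q (emHigh p q i) = none := by
  unfold fx
  rw [dif_neg, dif_neg]
  · rintro ⟨_, ha⟩
    have : 2 * (p + q + 2) - 1 + i.1 < 2 * (p + q + 2) - 1 := ha
    omega
  · rintro ⟨_, ha⟩
    have : 2 * (p + q + 2) - 1 + i.1 < p + q + 1 + (M \ X).card := ha
    omega

theorem lt_emLow (p q : ℕ) (i : Fin (low p q).length) :
    lt p q (emLow p q i) = (low p q).get i := by
  have hi := i.2
  have hi' : i.1 < p + q + 1 := by
    have hl := low_length p q
    omega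
  show (word p q).getD i.1 false = _
  rw [word_low p q i.1 hi', List.getD_eq_getElem _ _ hi]
  rfl

theorem lt_emHigh (p q : ℕ) (i : Fin (high p q).length) :
    lt p q (emHigh p q i) = (high p q).get i := by
  have hi := i.2
  show (word p q).getD (2 * (p + q + 2) - 1 + i.1) false = _
  rw [word_high p q _ (by omega)]
  have : 2 * (p + q + 2) - 1 + i.1 - (2 * (p + q + 2) - 1) = i.1 := by omega
  rw [this, List.getD_eq_getElem _ _ hi]
  rfl

theorem take_ofFn (p q : ℕ) (f : Fin (3 * (p + q + 2) - 2) → V) :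
    (List.ofFn f).take (p + q + 2 - 1) = List.ofFn (f ∘ emLow p q) := by
  apply List.ext_getElem
  · rw [List.length_take, List.length_ofFn, List.length_ofFn, low_length]
    omega
  · intro n h1 h2
    rw [List.getElem_take, List.getElem_ofFn, List.getElem_ofFn]
    rfl

theorem drop_ofFn (p q : ℕ) (f : Fin (3 * (p + q + 2) - 2) → V) :
    (List.ofFn f).drop (2 * (p + q + 2) - 1) = List.ofFn (f ∘ emHigh p q) := by
  apply List.ext_getElem
  · rw [List.length_drop, List.length_ofFn, List.length_ofFn, high_length]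
    omega
  · intro n h1 h2
    rw [List.getElem_drop, List.getElem_ofFn, List.getElem_ofFn]
    rfl

theorem amb_third {H : Finset (Finset V)} {X : Finset V} {p q B : ℕ} {δ : ℝ}
    (h : Amb H X p q B δ) : 0 < Fintype.card V ∧
      (∀ b, (Fintype.card V : ℝ) ≤ 3 * ((sd X b).card : ℝ)) ∧ X.Nonempty ∧ (Xᶜ).Nonempty := by
  have hpos := h.pos
  have hsm := h.small
  have hn : (0 : ℝ) < Fintype.card V := by
    have hb := h.big
    have h1 : (0 : ℝ) < 100 * ((p + q + 2 : ℕ) : ℝ) ^ 2 * ((B + p + q + 2 : ℕ) : ℝ) := by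
      have a1 : (0 : ℝ) < ((p + q + 2 : ℕ) : ℝ) := by exact_mod_cast (by omega : 0 < p + q + 2)
      have a2 : (0 : ℝ) < ((B + p + q + 2 : ℕ) : ℝ) := by
        exact_mod_cast (by omega : 0 < B + p + q + 2)
      positivity
    have h2 : 0 < δ * (Fintype.card V : ℝ) := lt_of_lt_of_le h1 hb
    exact (pos_iff_pos_of_mul_pos h2).1 hpos
  have hX : (Fintype.card V : ℝ) ≤ 3 * (X.card : ℝ) := by
    have := h.lo
    nlinarith
  have hXc : (Fintype.card V : ℝ) ≤ 3 * ((Xᶜ).card : ℝ) := by
    have := h.lo'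
    nlinarith
  refine ⟨by exact_mod_cast hn, ?_, ?_, ?_⟩
  · intro b
    cases b
    · exact hXc
    · exact hX
  · apply Finset.card_pos.1
    have : (0 : ℝ) < (X.card : ℝ) := by linarith
    exact_mod_cast this
  · apply Finset.card_pos.1
    have : (0 : ℝ) < ((Xᶜ).card : ℝ) := by linarith
    exact_mod_cast this

theorem num_deg (K mm B W : ℝ) (hK : 2 ≤ K) (hm0 : 0 ≤ mm) (hm : mm ≤ 3 * K) (hB : 0 ≤ B)
    (hW : W ≤ B + K) : 3 * (mm ^ 2 + mm * W) ≤ 100 * K ^ 2 * (B + K) := by
  have e1 : mm ^ 2 ≤ 9 * K ^ 2 := by nlinarith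
  have e2 : mm * W ≤ mm * (B + K) := mul_le_mul_of_nonneg_left hW hm0
  have e3 : mm * (B + K) ≤ 3 * K * (B + K) := mul_le_mul_of_nonneg_right hm (by linarith)
  have e4 : 3 * (mm ^ 2 + mm * W) ≤ 36 * K ^ 2 + 9 * K * B := by nlinarith
  refine e4.trans ?_
  have e5 : 0 ≤ K * B := mul_nonneg (by linarith) hB
  have e6 : 0 ≤ K ^ 2 * (K - 2) := mul_nonneg (by positivity) (by linarith)
  have e7 : 0 ≤ (K - 2) * (K * B) := mul_nonneg (by linarith) e5
  nlinarith [sq_nonneg K]

theorem num_total (k : ℕ) (B δ β e e0 E h : ℝ) (hk : 2 ≤ k) (hB : 0 ≤ B) (hδ : 0 < δ)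
    (hβ : β ≤ δ) (he : 0 < e) (he0 : e0 ≤ e) (he00 : 0 < e0) (hh : 0 < h)
    (hh1 : h ≤ 1 / (8 * (k : ℝ) * 2 ^ k))
    (hstep : 8 * (k : ℝ) * 4 ^ k * (B + 1) * e ≤ E)
    (hds : 100 * (k : ℝ) * 4 ^ k * (B + 1) * δ ≤ e0 * h) :
    ((2 * k - 1 : ℕ) : ℝ) * (3 * δ + e) + 2 * β + δ < E := by
  have hK : (2 : ℝ) ≤ k := by exact_mod_cast hk
  have h4 : (1 : ℝ) ≤ 4 ^ k := one_le_pow₀ (by norm_num)
  have h2 : (1 : ℝ) ≤ 2 ^ k := one_le_pow₀ (by norm_num)
  have hc : ((2 * k - 1 : ℕ) : ℝ) ≤ 2 * (k : ℝ) := by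
    exact_mod_cast (by omega : 2 * k - 1 ≤ 2 * k)
  have hh2 : h ≤ 1 := by
    refine hh1.trans ?_
    rw [div_le_one (by positivity)]
    nlinarith
  have a1 : 100 * (k : ℝ) * δ ≤ e := by
    have b1 : 100 * (k : ℝ) * δ ≤ 100 * (k : ℝ) * 4 ^ k * (B + 1) * δ := by
      have b2 : (1 : ℝ) ≤ 4 ^ k * (B + 1) := by nlinarith
      have b3 : 0 ≤ 100 * (k : ℝ) * δ := by positivity
      nlinarith
    have b4 : e0 * h ≤ e0 := by nlinarith
    linarith
  have a2 : 8 * (k : ℝ) * e ≤ E := by
    have b2 : (1 : ℝ) ≤ 4 ^ k * (B + 1) := by nlinarith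
    have b3 : 0 ≤ 8 * (k : ℝ) * e := by positivity
    nlinarith
  have a3 : ((2 * k - 1 : ℕ) : ℝ) * (3 * δ + e) ≤ 2 * (k : ℝ) * (3 * δ + e) :=
    mul_le_mul_of_nonneg_right hc (by linarith)
  nlinarith

/-- **E19** Crossing with a bi-coloured minimal non-normal set. -/
theorem e19 (h01 : StmtE01) (h02 : StmtE02) (h04 : StmtE04) (h05 : StmtE05) (h16 : StmtE16)
    (h17 : StmtE17) (h18 : StmtE18) : StmtE19 := by
  intro V _ _ H X M F p q B δ h β η θ S T hamb hc hβ hM hneX hneY hFB hMF hS hT
  obtain ⟨hn0, hthird, hX, hXc⟩ := amb_third hamb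
  have h1 : (M \ X).card ≤ q + 1 := hM.1.2.1
  have h2 : (M ∩ X).card ≤ p + 1 := hM.1.1
  have hMk : M.card ≤ p + q + 2 := by
    have := Finset.card_inter_add_card_sdiff M X
    omega
  have hM1 : 1 ≤ M.card := by
    have := Finset.card_inter_add_card_sdiff M X
    have := Finset.card_pos.2 hneX
    omega
  have hbox := bx_nonempty X hX hXc (lt p q) (fx X M p q)
  obtain ⟨d1, d2, d3, d4, d5, d6⟩ := h01 V (Fin (3 * (p + q + 2) - 2))
    (bx X (lt p q) (fx X M p q)) hbox
  have hsp := window_special h05 h18 H X M p q η hX hXc hM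
  have hlow := dens_end h02 X hX hXc (lt p q) (fx X M p q) (low p q) S β (emLow p q)
    (emLow_inj p q) (fx_emLow X M p q h2) (lt_emLow p q) hS
  have hhigh := dens_end h02 X hX hXc (lt p q) (fx X M p q) (high p q) T β (emHigh p q)
    (emHigh_inj p q) (fx_emHigh X M p q h1) (lt_emHigh p q) hT
  have hdeg := h04 V (Fin (3 * (p + q + 2) - 2)) X (F ∪ M) (lt p q) (fx X M p q) hn0 hthird
    (fx_inj X M p q)
  -- the ordinary windows
  have hwin := d6 (Fin (2 * (p + q + 2) - 1)) (fun a f => (a : ℕ) ≠ p + q + 1 ∧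
    ¬ (win (3 * (p + q + 2) - 2) (p + q + 2) (a : ℕ)).image f ∈ H)
  have hη0 : 0 < η (M.card - 1) := hc.pos _ (by omega)
  have hδ := hamb.pos
  have hwin2 : ∑ a : Fin (2 * (p + q + 2) - 1), dens (bx X (lt p q) (fx X M p q))
      (fun f => (a : ℕ) ≠ p + q + 1 ∧
        ¬ (win (3 * (p + q + 2) - 2) (p + q + 2) (a : ℕ)).image f ∈ H) ≤
      ((2 * (p + q + 2) - 1 : ℕ) : ℝ) * (3 * δ + η (M.card - 1)) := by
    refine (Finset.sum_le_card_nsmul _ _ (3 * δ + η (M.card - 1)) ?_).trans_eq ?_
    · intro a _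
      by_cases ha : (a : ℕ) = p + q + 1
      · have hle := d2 (fun f => (a : ℕ) ≠ p + q + 1 ∧
          ¬ (win (3 * (p + q + 2) - 2) (p + q + 2) (a : ℕ)).image f ∈ H) (fun _ => False)
          (fun f _ hf => hf.1 ha)
        have hz : dens (bx X (lt p q) (fx X M p q)) (fun _ => False) = 0 := by
          have e1 := d4 (fun _ => False)
          have e2 := (d1 (fun _ => False)).1
          have e3 := (d1 (fun _ : Fin (3 * (p + q + 2) - 2) → V => ¬ False)).2
          have e4 := d4 (fun _ : Fin (3 * (p + q + 2) - 2) → V => ¬ False)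
          unfold dens at e1 e2 e3 e4 ⊢
          simp only [and_false, Set.setOf_false, Set.ncard_empty, Nat.cast_zero, zero_div]
        rw [hz] at hle
        linarith
      · refine (d2 _ _ ?_).trans (window_ordinary h01 h05 h17 h18 H X M p q B a δ h η θ hX hXc
          hamb hc hM hneX hneY hMk ha (by have := a.2; omega))
        intro f _ hf
        exact hf.2
    · rw [Finset.card_univ, Fintype.card_fin, nsmul_eq_mul]
  -- the total failing density
  have hcard : ((F ∪ M).card : ℝ) ≤ (B : ℝ) + (p + q + 2 : ℕ) := by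
    have e1 := Finset.card_union_le F M
    exact_mod_cast e1.trans (by omega)
  have hdeg2 : dens (bx X (lt p q) (fx X M p q))
      (fun f => ¬ (Function.Injective f ∧ ∀ i, fx X M p q i = none → f i ∉ F ∪ M)) ≤ δ := by
    refine hdeg.trans ?_
    have hbig := hamb.big
    have hn : (0 : ℝ) < Fintype.card V := by exact_mod_cast hn0
    rw [div_le_iff₀ hn]
    refine le_trans ?_ hbig
    rw [Fintype.card_fin]
    have hk : (2 : ℝ) ≤ ((p + q + 2 : ℕ) : ℝ) := by exact_mod_cast (by omega : 2 ≤ p + q + 2)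
    have hm : ((3 * (p + q + 2) - 2 : ℕ) : ℝ) ≤ 3 * ((p + q + 2 : ℕ) : ℝ) := by
      exact_mod_cast (by omega : 3 * (p + q + 2) - 2 ≤ 3 * (p + q + 2))
    have hB : (0 : ℝ) ≤ B := Nat.cast_nonneg B
    have hBk : ((B + p + q + 2 : ℕ) : ℝ) = (B : ℝ) + ((p + q + 2 : ℕ) : ℝ) := by
      push_cast
      ring
    rw [hBk]
    exact num_deg _ _ _ _ hk (Nat.cast_nonneg _) hm hB hcard
  have hnum := num_total (p + q + 2) B δ β (η (M.card - 1)) (η 0) (η M.card) h (by omega)
    (Nat.cast_nonneg B) hδ hβ hη0 (eta_mono hc (by omega) 0 (M.card - 1) (by omega) (by omega))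
    (hc.pos 0 (by omega)) hc.hpos hc.hsmall (by
      have := hc.step (M.card - 1) (by omega)
      rw [Nat.sub_add_cancel hM1] at this
      exact this) hc.dsmall
  -- the event
  have u1 := d3 (fun f => List.ofFn (f ∘ emHigh p q) ∉ T)
    (fun f => ¬ (Function.Injective f ∧ ∀ i, fx X M p q i = none → f i ∉ F ∪ M))
  have u2 := d3 (fun f => List.ofFn (f ∘ emLow p q) ∉ S)
    (fun f => List.ofFn (f ∘ emHigh p q) ∉ T ∨
      ¬ (Function.Injective f ∧ ∀ i, fx X M p q i = none → f i ∉ F ∪ M))
  have u3 := d3 (fun f => ∃ a : Fin (2 * (p + q + 2) - 1), (a : ℕ) ≠ p + q + 1 ∧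
      ¬ (win (3 * (p + q + 2) - 2) (p + q + 2) (a : ℕ)).image f ∈ H)
    (fun f => List.ofFn (f ∘ emLow p q) ∉ S ∨ (List.ofFn (f ∘ emHigh p q) ∉ T ∨
      ¬ (Function.Injective f ∧ ∀ i, fx X M p q i = none → f i ∉ F ∪ M)))
  set Bad : (Fin (3 * (p + q + 2) - 2) → V) → Prop := fun f =>
    (∃ a : Fin (2 * (p + q + 2) - 1), (a : ℕ) ≠ p + q + 1 ∧
      ¬ (win (3 * (p + q + 2) - 2) (p + q + 2) (a : ℕ)).image f ∈ H) ∨
    (List.ofFn (f ∘ emLow p q) ∉ S ∨ (List.ofFn (f ∘ emHigh p q) ∉ T ∨
      ¬ (Function.Injective f ∧ ∀ i, fx X M p q i = none → f i ∉ F ∪ M))) with hBad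
  have u4 := d3 (fun f =>
    (win (3 * (p + q + 2) - 2) (p + q + 2) (p + q + 1)).image f ∈ H ∧ ¬ Bad f) Bad
  have u5 := d2 (fun f => (win (3 * (p + q + 2) - 2) (p + q + 2) (p + q + 1)).image f ∈ H)
    (fun f => ((win (3 * (p + q + 2) - 2) (p + q + 2) (p + q + 1)).image f ∈ H ∧ ¬ Bad f) ∨
      Bad f) (fun f _ hf => by
        by_cases hb : Bad f
        · exact Or.inr hb
        · exact Or.inl ⟨hf, hb⟩)
  have u6 : 0 < dens (bx X (lt p q) (fx X M p q)) (fun f =>
    (win (3 * (p + q + 2) - 2) (p + q + 2) (p + q + 1)).image f ∈ H ∧ ¬ Bad f) := by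
    linarith
  obtain ⟨f, hfb, hfw, hfn⟩ := d5 _ u6
  rw [hBad] at hfn
  obtain ⟨g1, hfn⟩ := not_or.1 hfn
  obtain ⟨g2, hfn⟩ := not_or.1 hfn
  obtain ⟨g3, hfn⟩ := not_or.1 hfn
  have g2 := not_not.1 g2
  have g3 := not_not.1 g3
  obtain ⟨g4, g5⟩ := not_not.1 hfn
  have hfix : ∀ i v, fx X M p q i = some v → f i = v := by
    intro i v hv
    have := hfb i
    unfold bx at this
    rw [hv] at this
    exact Finset.mem_singleton.1 this
  refine ⟨List.ofFn f, ?_, ?_, ?_, ?_, ?_, ?_⟩
  · refine h16 V H (p + q + 2) (3 * (p + q + 2) - 2) f g4 ?_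
    intro a ha
    by_cases hae : a = p + q + 1
    · rw [hae]
      exact hfw
    · by_contra hcon
      exact g1 ⟨⟨a, by omega⟩, hae, hcon⟩
  · rw [List.length_ofFn]
  · rw [take_ofFn]
    exact g2
  · rw [drop_ofFn]
    exact g3
  · intro v hv
    obtain ⟨i, hi⟩ := fx_surj X M p q h1 h2 v hv
    rw [List.mem_toFinset, List.mem_ofFn]
    exact ⟨i, hfix i v hi⟩
  · rw [Finset.disjoint_left]
    intro v hv hvF
    rw [List.mem_toFinset, List.mem_ofFn] at hv
    obtain ⟨i, hi⟩ := hv
    cases ho : fx X M p q i with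
    | none =>
      have := g5 i ho
      rw [hi] at this
      exact this (Finset.mem_union_left _ hvF)
    | some w =>
      have hw := hfix i w ho
      rw [hi] at hw
      have hwM : w ∈ M := by
        rcases fx_cases X M p q i w ho with hc' | hc'
        · exact (Finset.mem_sdiff.1 hc'.2.2).1
        · exact (Finset.mem_inter.1 hc'.2.2).1
      rw [← hw] at hwM
      exact Finset.disjoint_left.1 hMF hwM hvF

end Main

end Pool.Agent.KK.E.H47
end

/-! ### Helper83_KK.ALF -/
section
/-!
# Row ALF of squad KK (MP_747bc0_co): assembly of alpha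
-/

set_option autoImplicit false

open scoped BigOperators

namespace Pool.Agent.KK.H83

section
variable {V : Type} [Fintype V] [DecidableEq V]

theorem p2_mono {q k : ℕ} {T : Fin q → Set (List V)} {γ γ' : ℝ} (h : γ ≤ γ')
    (hP : P2 k T γ) : P2 k T γ' := by
  unfold P2 at *
  exact hP.trans (mul_le_mul_of_nonneg_right h (by positivity))

theorem p3_mono {q k : ℕ} {H : Finset (Finset V)} {T : Fin q → Set (List V)} {γ γ' : ℝ}
    (h : γ ≤ γ') (hP : P3 H k T γ) : P3 H k T γ' := by
  unfold P3 at *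
  have hn : (0 : ℝ) ≤ Fintype.card V := by positivity
  refine le_trans ?_ (hP.trans (mul_le_mul_of_nonneg_right h (by positivity)))
  have hsub : {f : Fin (k - 1) → V | ((gn H k T f).card : ℝ) < (1 / 2 - γ') * Fintype.card V} ⊆
      {f : Fin (k - 1) → V | ((gn H k T f).card : ℝ) < (1 / 2 - γ) * Fintype.card V} := by
    intro f hf
    simp only [Set.mem_setOf_eq] at hf ⊢
    exact hf.trans_le (mul_le_mul_of_nonneg_right (by linarith) hn)
  exact_mod_cast Set.ncard_le_ncard hsub (Set.toFinite _)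

theorem closed_mono {d : ℕ} {H : Finset (Finset V)} {U : Set (Sta V d)} {ε ε' : ℝ}
    (h : ε ≤ ε') (hC : Closed H U ε) : Closed H U ε' :=
  ⟨hC.1.trans (mul_le_mul_of_nonneg_right h (by positivity)),
    hC.2.trans (mul_le_mul_of_nonneg_right h (by positivity))⟩

end

/-- The conclusion for `q` classes. -/
def Pq (d C₀ : ℕ) (γC ε μ κ : ℝ) (q : ℕ) (ε' : ℝ) (n₀ : ℕ) : Prop :=
  ∀ (V : Type) [Fintype V] [DecidableEq V] (H : Finset (Finset V))
      (U : Fin q → Set (Sta V d)) (i₀ : Fin q), n₀ ≤ Fintype.card V → Uni H (d + 2) →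
      Dirac H (d + 2) → Exch H (d + 2) μ κ →
      (∀ i, (1 / 3 : ℝ) ^ (d + 1) * (Fintype.card V : ℝ) ^ (d + 1) ≤ (U i).ncard) →
      (∀ i, Indec H (U i) ε ((1 / 3 : ℝ) ^ (d + 4))) → (∀ i, Closed H (U i) ε') →
      (∀ (f : Fin (d + 1) → V) (t t' : ZMod (d + 2)), (f, t) ∈ U i₀ → (f, t') ∈ U i₀) →
      ({g : Fin (d + 1) → V | ¬ ∃ (i : Fin q) (f : Fin (d + 1) → V) (t : ZMod (d + 2)),
          Finset.univ.image f = Finset.univ.image g ∧ (f, t) ∈ U i}.ncard : ℝ) ≤
        ε' * (Fintype.card V : ℝ) ^ (d + 1) →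
      ({e : Fin (d + 2) → V | Finset.univ.image e ∈ H ∧ ¬ ∃ (i : Fin q) (f : Fin (d + 2) → V)
          (t : ZMod (d + 2)), Finset.univ.image f = Finset.univ.image e ∧
          (Fin.init f, t) ∈ U i ∧ (Fin.tail f, t + 1) ∈ U i}.ncard : ℝ) ≤
        ε' * (Fintype.card V : ℝ) ^ (d + 2) →
      (∀ T : Fin q → Set (List V), (∀ i, ({s : Sta V d | s ∈ U i ∧
          List.ofFn s.1 ∉ T i}.ncard : ℝ) ≤ γC * (Fintype.card V : ℝ) ^ (d + 1)) →
        ∀ i j : Fin q, (i : ℕ) + 1 = j ∨ (j : ℕ) + 1 = i →
          Cross H (d + 2) (T i) (T j) C₀ ((d + 2) * C₀ + (d + 2))) →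
      Ham H (d + 2)

theorem pq_mono {d C₀ : ℕ} {γC ε μ κ : ℝ} {q : ℕ} {ε' ε'' : ℝ} {n₀ n₁ : ℕ} (h : ε'' ≤ ε')
    (hn : n₀ ≤ n₁) (hP : Pq d C₀ γC ε μ κ q ε' n₀) : Pq d C₀ γC ε μ κ q ε'' n₁ := by
  intro V _ _ H U i₀ h1 h2 h3 h4 h5 h6 h7 h8 h9 h10 h11
  exact hP V H U i₀ (hn.trans h1) h2 h3 h4 h5 h6 (fun i => closed_mono h (h7 i)) h8
    (h9.trans (mul_le_mul_of_nonneg_right h (by positivity)))
    (h10.trans (mul_le_mul_of_nonneg_right h (by positivity))) h11

theorem beta_lt (d : ℕ) : 2 * (1 / 3 : ℝ) ^ (d + 4) < (1 / 3 : ℝ) ^ (d + 1) := by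
  have h : (1 / 3 : ℝ) ^ (d + 4) = (1 / 3 : ℝ) ^ (d + 1) * (1 / 27) := by
    rw [show d + 4 = (d + 1) + 3 by ring, pow_add]; norm_num
  rw [h]
  have : (0 : ℝ) < (1 / 3 : ℝ) ^ (d + 1) := by positivity
  linarith

theorem beta_lt2 (d : ℕ) : 2 * (1 / 3 : ℝ) ^ (d + 4) < (1 / 2 : ℝ) ^ (d + 3) := by
  have h : (1 / 3 : ℝ) ^ (d + 4) = (1 / 3 : ℝ) ^ (d + 3) * (1 / 3) := by
    rw [show d + 4 = (d + 3) + 1 by ring, pow_succ]
  rw [h]
  have h1 : (0 : ℝ) < (1 / 3 : ℝ) ^ (d + 3) := by positivity
  have h2 : (1 / 3 : ℝ) ^ (d + 3) ≤ (1 / 2 : ℝ) ^ (d + 3) :=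
    pow_le_pow_left₀ (by norm_num) (by norm_num) _
  linarith

/-- One number of classes. -/
theorem pq_one (hAlp : AlpStmt) (hTcl : TclStmt) (hTou : TouStmt) (d C₀ : ℕ) (γC ε μ κ : ℝ)
    (hd : 1 ≤ d) (hγC : 0 < γC) (hε : 0 < ε) (hμ : 0 < μ) (hμ8 : μ ≤ 1 / 8) (hκ : 0 < κ)
    (q : ℕ) (hq : 0 < q) (hq2 : 2 * (q - 1) ≤ d + 2) :
    ∃ (ε' : ℝ) (n₀ : ℕ), 0 < ε' ∧ Pq d C₀ γC ε μ κ q ε' n₀ := by
  obtain ⟨M, c, hc, hT⟩ := hTcl d q ((1 / 3 : ℝ) ^ (d + 1)) ((1 / 3 : ℝ) ^ (d + 4)) ε hd hq
    (by positivity) hε (beta_lt d) (beta_lt2 d)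
  obtain ⟨γA, nA, hγA, hA⟩ := hAlp (d + 2) M q ((d + 2) * C₀) c κ μ (by omega) hc hκ hμ hμ8 hq
  obtain ⟨ε', nT, hε', hT'⟩ := hT (min γA γC) (lt_min hγA hγC)
  refine ⟨ε', max nA nT, hε', ?_⟩
  intro V _ _ H U i₀ hn hU hDi hEx hsz hInd hClo hinv hP2 hP3 hcr
  obtain ⟨hTup, hJ, hJA, hsize, hP2', hP3', hmost⟩ := hT' V H U i₀
    ((le_max_right _ _).trans hn) hU hDi hsz hInd hClo hinv hP2 hP3
  have hmin1 : min γA γC ≤ γA := min_le_left _ _
  have hmin2 : min γA γC ≤ γC := min_le_right _ _
  have hcr' := hcr (fun i => tups H (U i) ((1 / 2 : ℝ) ^ (d + 3))) (fun i =>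
    (hmost i).trans (mul_le_mul_of_nonneg_right hmin2 (by positivity)))
  have hTour : Tour H (d + 2) (fun i => tups H (U i) ((1 / 2 : ℝ) ^ (d + 3))) i₀
      ((d + 2) * C₀) :=
    hTou (d + 2) q C₀ ((d + 2) * C₀ + (d + 2)) V H _ i₀ hq2 le_rfl hcr'
  exact hA V H (fun i => tups H (U i) ((1 / 2 : ℝ) ^ (d + 3))) i₀ ((le_max_left _ _).trans hn)
    hU hDi hTup hJ hJA hsize (p2_mono hmin1 hP2') (p3_mono hmin1 hP3') hEx hTour

/-- All numbers of classes up to `Q`. -/
theorem pq_all (hAlp : AlpStmt) (hTcl : TclStmt) (hTou : TouStmt) (d C₀ : ℕ) (γC ε μ κ : ℝ)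
    (hd : 1 ≤ d) (hγC : 0 < γC) (hε : 0 < ε) (hμ : 0 < μ) (hμ8 : μ ≤ 1 / 8) (hκ : 0 < κ)
    (Q : ℕ) : ∃ (ε' : ℝ) (n₀ : ℕ), 0 < ε' ∧ ∀ q ≤ Q, 0 < q → 2 * (q - 1) ≤ d + 2 →
      Pq d C₀ γC ε μ κ q ε' n₀ := by
  induction Q with
  | zero => exact ⟨1, 0, one_pos, fun q hq hq0 => absurd hq (by omega)⟩
  | succ Q ih =>
    obtain ⟨ε₁, n₁, hε₁, h₁⟩ := ih
    by_cases hQ : 2 * ((Q + 1) - 1) ≤ d + 2
    · obtain ⟨ε₂, n₂, hε₂, h₂⟩ := pq_one hAlp hTcl hTou d C₀ γC ε μ κ hd hγC hε hμ hμ8 hκ
        (Q + 1) (Nat.succ_pos _) hQ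
      refine ⟨min ε₁ ε₂, max n₁ n₂, lt_min hε₁ hε₂, ?_⟩
      intro q hq hq0 hq2
      rcases Nat.lt_or_ge q (Q + 1) with hlt | hge
      · exact pq_mono (min_le_left _ _) (le_max_left _ _) (h₁ q (by omega) hq0 hq2)
      · have : q = Q + 1 := le_antisymm hq hge
        subst this
        exact pq_mono (min_le_right _ _) (le_max_right _ _) h₂
    · refine ⟨ε₁, n₁, hε₁, ?_⟩
      intro q hq hq0 hq2
      refine h₁ q ?_ hq0 hq2
      rcases Nat.lt_or_ge q (Q + 1) with hlt | hge
      · omega
      · have : q = Q + 1 := le_antisymm hq hge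
        subst this
        exact absurd hq2 hQ

section
variable {V : Type} [Fintype V] [DecidableEq V]

/-- Monotonicity of the runs. -/
theorem struc_b_mono {H : Finset (Finset V)} {d : ℕ} {X : Finset V} {q : ℕ} {a b : ℕ → ℕ}
    {μ γ : ℝ} (hS : Struc H d X q a b μ γ) (i : ℕ) : ∀ r : ℕ, i + r < q → b i + 2 * r ≤ b (i + r)
  | 0, _ => by simp
  | r + 1, h => by
    have h1 := struc_b_mono hS i r (by omega)
    have h2 := hS.gap (i + r) (by omega)
    have h3 := hS.le (i + r + 1) (by omega)
    have h4 : i + (r + 1) = i + r + 1 := by ring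
    rw [h4]
    omega

theorem struc_b_le {H : Finset (Finset V)} {d : ℕ} {X : Finset V} {q : ℕ} {a b : ℕ → ℕ}
    {μ γ : ℝ} (hS : Struc H d X q a b μ γ) {i j : ℕ} (hij : i ≤ j) (hj : j < q) :
    b i ≤ b j := by
  have := struc_b_mono hS i (j - i) (by omega)
  rw [show i + (j - i) = j by omega] at this
  omega

theorem struc_b_le2 {H : Finset (Finset V)} {d : ℕ} {X : Finset V} {q : ℕ} {a b : ℕ → ℕ}
    {μ γ : ℝ} (hS : Struc H d X q a b μ γ) {i : ℕ} (hi : i < q) : b i ≤ d + 2 :=
  (struc_b_le hS (show i ≤ q - 1 by omega) (by omega)).trans hS.last2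

theorem struc_gap_lt {H : Finset (Finset V)} {d : ℕ} {X : Finset V} {q : ℕ} {a b : ℕ → ℕ}
    {μ γ : ℝ} (hS : Struc H d X q a b μ γ) {i j : ℕ} (hij : i < j) (hj : j < q) :
    b i + 2 ≤ a j := by
  have h1 := hS.gap (j - 1) (by omega)
  rw [show j - 1 + 1 = j by omega] at h1
  have h2 := struc_b_le hS (show i ≤ j - 1 by omega) (by omega)
  omega

theorem struc_q_le {H : Finset (Finset V)} {d : ℕ} {X : Finset V} {q : ℕ} {a b : ℕ → ℕ}
    {μ γ : ℝ} (hS : Struc H d X q a b μ γ) : 2 * (q - 1) ≤ d + 2 := by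
  have h1 := struc_b_mono hS 0 (q - 1) (by have := hS.two_le; omega)
  rw [zero_add] at h1
  have := hS.last2
  omega

/-- The type between two runs is missing. -/
theorem struc_miss {H : Finset (Finset V)} {d : ℕ} {X : Finset V} {q : ℕ} {a b : ℕ → ℕ}
    {μ γ : ℝ} (hS : Struc H d X q a b μ γ) {i : ℕ} (hi : i + 1 < q) :
    b i + 1 ≤ d + 1 ∧ (td H (d + 2) X (b i + 1) : ℝ) ≤ γ * (Fintype.card V : ℝ) ^ (d + 2) := by
  have hg := hS.gap i hi
  have hl := hS.le (i + 1) hi
  have hb := struc_b_le2 hS hi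
  refine ⟨by omega, hS.miss (b i + 1) (by omega) ?_⟩
  rintro i' hi' ⟨h1, h2⟩
  rcases Nat.lt_or_ge i i' with h | h
  · have := struc_gap_lt hS h hi'
    omega
  · have := struc_b_le hS h (show i < q by omega)
    omega

end

theorem alf : AlfStmt := by
  intro hStr hCrs hAlp hTcl hClo hCvr hTim hCsy hTou
  intro k μ κ hk hμ hμ8 hκ
  obtain ⟨d, rfl⟩ : ∃ d, k = d + 2 := ⟨k - 2, by omega⟩
  have hd : 1 ≤ d := by omega
  obtain ⟨e, he, hStr'⟩ := hStr d ((1 / 3 : ℝ) ^ (d + 4)) hd (by positivity)
  obtain ⟨C₀, hCrs'⟩ := hCrs d hd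
  obtain ⟨γC, nC, hγC, hCrs''⟩ := hCrs' ((d + 2) * C₀ + (d + 2))
  have hCsy' := hCsy d C₀ ((d + 2) * C₀ + (d + 2)) nC γC hCrs''
  have hx : ∀ x : ℝ, ∃ (ε' : ℝ) (n : ℕ), 0 < ε' ∧ (0 < x → ∀ q ≤ d + 4, 0 < q →
      2 * (q - 1) ≤ d + 2 → Pq d C₀ γC (e x) μ κ q ε' n) := by
    intro x
    by_cases hx0 : 0 < x
    · obtain ⟨ε', n, h1, h2⟩ := pq_all hAlp hTcl hTou d C₀ γC (e x) μ κ hd hγC (he x hx0) hμ
        hμ8 hκ (d + 4)
      exact ⟨ε', n, h1, fun _ => h2⟩
    · exact ⟨1, 0, one_pos, fun h => absurd h hx0⟩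
  choose E N hE hP using hx
  obtain ⟨S, nS, hSpos, hStr''⟩ := hStr'
    (fun x => min (min γC (1 / 6)) (min (E x / ((d + 2) * (d + 3))) (κ * μ / (4 * (d + 3)))))
    (fun x _ => lt_min (lt_min hγC (by norm_num))
      (lt_min (div_pos (hE x) (by positivity)) (by positivity)))
  refine ⟨max (max nS nC) (max 1 (S.sup N)), ?_⟩
  intro V _ _ H hn hU hDi hEx
  have hnS : nS ≤ Fintype.card V := ((le_max_left _ _).trans (le_max_left _ _)).trans hn
  have hnC : nC ≤ Fintype.card V := ((le_max_right _ _).trans (le_max_left _ _)).trans hn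
  have hn1 : 1 ≤ Fintype.card V := ((le_max_left _ _).trans (le_max_right _ _)).trans hn
  have hnN : S.sup N ≤ Fintype.card V := ((le_max_right _ _).trans (le_max_right _ _)).trans hn
  have hnR : (1 : ℝ) ≤ Fintype.card V := by exact_mod_cast hn1
  obtain ⟨x, hxS, hcase⟩ := hStr'' V H hnS hU hDi
  have hx0 := hSpos x hxS
  have hNx : N x ≤ Fintype.card V := (Finset.le_sup (f := N) hxS).trans hnN
  have hPx := hP x hx0
  rcases hcase with hInd | ⟨X, q, a, b, hSt, hInd⟩
  · -- case 1: all states are one class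
    refine hPx 1 (by omega) one_pos (by omega) V H (fun _ => Set.univ) 0 hNx hU hDi hEx ?_ ?_ ?_
      ?_ ?_ ?_ ?_
    · intro _
      have hcard : (Set.univ : Set (Sta V d)).ncard = Fintype.card V ^ (d + 1) * (d + 2) := by
        rw [Set.ncard_univ, Nat.card_eq_fintype_card, Fintype.card_prod, Fintype.card_fun,
          Fintype.card_fin, ZMod.card]
      rw [hcard]
      push_cast
      have h1 : (1 / 3 : ℝ) ^ (d + 1) ≤ 1 := pow_le_one₀ (by norm_num) (by norm_num)
      have h2 : (0 : ℝ) ≤ (Fintype.card V : ℝ) ^ (d + 1) := by positivity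
      have h3 : (0 : ℝ) ≤ d := by positivity
      nlinarith [mul_le_mul_of_nonneg_right h1 h2, mul_nonneg h2 h3]
    · intro _; exact hInd
    · intro _
      have h0 : (0 : ℝ) ≤ E x * (Fintype.card V : ℝ) ^ (d + 2) :=
        mul_nonneg (hE x).le (by positivity)
      constructor
      · simpa using h0
      · simpa using h0
    · intro f t t' _; exact Set.mem_univ _
    · have h0 : (0 : ℝ) ≤ E x * (Fintype.card V : ℝ) ^ (d + 1) :=
        mul_nonneg (hE x).le (by positivity)
      have : {g : Fin (d + 1) → V | ¬ ∃ (i : Fin 1) (f : Fin (d + 1) → V) (t : ZMod (d + 2)),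
          Finset.univ.image f = Finset.univ.image g ∧
            (f, t) ∈ (fun _ : Fin 1 => (Set.univ : Set (Sta V d))) i} = ∅ := by
        ext g
        simp only [Set.mem_setOf_eq, Set.mem_empty_iff_false, iff_false, not_not]
        exact ⟨0, g, 0, rfl, Set.mem_univ _⟩
      rw [this]
      simpa using h0
    · have h0 : (0 : ℝ) ≤ E x * (Fintype.card V : ℝ) ^ (d + 2) :=
        mul_nonneg (hE x).le (by positivity)
      have : {e : Fin (d + 2) → V | Finset.univ.image e ∈ H ∧ ¬ ∃ (i : Fin 1)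
          (f : Fin (d + 2) → V) (t : ZMod (d + 2)),
          Finset.univ.image f = Finset.univ.image e ∧
            (Fin.init f, t) ∈ (fun _ : Fin 1 => (Set.univ : Set (Sta V d))) i ∧
            (Fin.tail f, t + 1) ∈ (fun _ : Fin 1 => (Set.univ : Set (Sta V d))) i} = ∅ := by
        ext g
        simp only [Set.mem_setOf_eq, Set.mem_empty_iff_false, iff_false, not_and, not_not]
        intro _
        exact ⟨0, g, 0, rfl, Set.mem_univ _, Set.mem_univ _⟩
      rw [this]
      simpa using h0
    · intro T _ i j hij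
      exfalso
      have := i.isLt
      have := j.isLt
      omega
  · -- case 2: the structure
    obtain ⟨γ, hγdef⟩ : ∃ γ : ℝ, γ = min (min γC (1 / 6))
      (min (E x / ((d + 2) * (d + 3))) (κ * μ / (4 * (d + 3)))) := ⟨_, rfl⟩
    have hSt : Struc H d X q a b x γ := by rw [hγdef]; exact hSt
    have hd3 : (0 : ℝ) < (d : ℝ) + 3 := by positivity
    have hd2 : (0 : ℝ) < (d : ℝ) + 2 := by positivity
    have hγ0 : 0 < γ := by
      rw [hγdef]
      exact lt_min (lt_min hγC (by norm_num))
        (lt_min (div_pos (hE x) (by positivity)) (by positivity))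
    have hγ1 : γ ≤ γC := by
      rw [hγdef]; exact (min_le_left _ _).trans (min_le_left _ _)
    have hγ2 : γ ≤ 1 / 6 := by
      rw [hγdef]; exact (min_le_left _ _).trans (min_le_right _ _)
    have hγ3 : ((d : ℝ) + 2) * (d + 3) * γ ≤ E x := by
      have : γ ≤ E x / ((d + 2) * (d + 3)) := by
        rw [hγdef]; exact (min_le_right _ _).trans (min_le_left _ _)
      rw [le_div_iff₀ (by positivity)] at this
      linarith
    have hγ4 : 2 * ((d : ℝ) + 3) * γ < κ * μ := by
      have : γ ≤ κ * μ / (4 * (d + 3)) := by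
        rw [hγdef]; exact (min_le_right _ _).trans (min_le_right _ _)
      rw [le_div_iff₀ (by positivity)] at this
      have h1 : 0 < γ * ((d : ℝ) + 3) := by positivity
      nlinarith
    have hγ5 : ((d : ℝ) + 3) * γ ≤ E x := by
      refine le_trans ?_ hγ3
      have h1 : 0 ≤ ((d : ℝ) + 3) * γ := by positivity
      have h2 : (0 : ℝ) ≤ d := by positivity
      nlinarith
    have hq2 := hSt.two_le
    have hqk := struc_q_le hSt
    obtain ⟨hCvr1, hCvr4, hCvr5⟩ := hCvr
    obtain ⟨hc1, hc2, hc3⟩ := hCvr1 d V H X q a b x γ hU hγ0.le hγ2 hSt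
    obtain ⟨i₀, hi₀, hinv⟩ := hTim d V H X q a b x γ μ κ (by omega) hU hγ0.le hγ2 hγ4 hμ hSt hEx
    refine hPx q (by omega) (by omega) hqk V H (fun i => cls X d (a i) (b i)) ⟨i₀, hi₀⟩ hNx hU
      hDi hEx ?_ ?_ ?_ ?_ ?_ ?_ ?_
    · intro i; exact hc3 i i.isLt
    · intro i; exact hInd i i.isLt
    · intro i
      exact closed_mono hγ3 (hClo d V H X q a b x γ hU hγ0.le hSt i i.isLt)
    · exact hCvr5 d V X (a i₀) (b i₀) hinv (hSt.le i₀ hi₀)
    · have h0 : (0 : ℝ) ≤ E x * (Fintype.card V : ℝ) ^ (d + 1) :=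
        mul_nonneg (hE x).le (by positivity)
      have : {g : Fin (d + 1) → V | ¬ ∃ (i : Fin q) (f : Fin (d + 1) → V) (t : ZMod (d + 2)),
          Finset.univ.image f = Finset.univ.image g ∧
            (f, t) ∈ (fun i : Fin q => cls X d (a i) (b i)) i} = ∅ := by
        ext g
        simp only [Set.mem_setOf_eq, Set.mem_empty_iff_false, iff_false, not_not]
        obtain ⟨i, hi, f, t, h1, h2⟩ := hc1 g
        exact ⟨⟨i, hi⟩, f, t, h1, h2⟩
      rw [this]
      simpa using h0
    · refine le_trans ?_ (hc2.trans (mul_le_mul_of_nonneg_right hγ5 (by positivity)))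
      have hsub : {e : Fin (d + 2) → V | Finset.univ.image e ∈ H ∧ ¬ ∃ (i : Fin q)
          (f : Fin (d + 2) → V) (t : ZMod (d + 2)),
          Finset.univ.image f = Finset.univ.image e ∧
            (Fin.init f, t) ∈ (fun i : Fin q => cls X d (a i) (b i)) i ∧
            (Fin.tail f, t + 1) ∈ (fun i : Fin q => cls X d (a i) (b i)) i} ⊆
          {e : Fin (d + 2) → V | Finset.univ.image e ∈ H ∧ ¬ ∃ i < q, ∃ (f : Fin (d + 2) → V)
            (t : ZMod (d + 2)), Finset.univ.image f = Finset.univ.image e ∧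
            (Fin.init f, t) ∈ cls X d (a i) (b i) ∧
            (Fin.tail f, t + 1) ∈ cls X d (a i) (b i)} := by
        rintro g ⟨h1, h2⟩
        refine ⟨h1, ?_⟩
        rintro ⟨i, hi, f, t, h3, h4, h5⟩
        exact h2 ⟨⟨i, hi⟩, f, t, h3, h4, h5⟩
      exact_mod_cast Set.ncard_le_ncard hsub (Set.toFinite _)
    · intro T hT
      have key : ∀ i : ℕ, ∀ hi : i + 1 < q,
          Cross H (d + 2) (T ⟨i, by omega⟩) (T ⟨i + 1, hi⟩) C₀ ((d + 2) * C₀ + (d + 2)) ∧
          Cross H (d + 2) (T ⟨i + 1, hi⟩) (T ⟨i, by omega⟩) C₀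
            ((d + 2) * C₀ + (d + 2)) := by
        intro i hi
        obtain ⟨hm1, hm2⟩ := struc_miss hSt hi
        have hg := hSt.gap i hi
        have hbal : |(X.card : ℝ) - Fintype.card V / 2| ≤ γC * Fintype.card V :=
          hSt.bal.trans (mul_le_mul_of_nonneg_right hγ1 (by positivity))
        have htd : (td H (d + 2) X (b i + 1) : ℝ) ≤ γC * (Fintype.card V : ℝ) ^ (d + 2) :=
          hm2.trans (mul_le_mul_of_nonneg_right hγ1 (by positivity))
        have hS1 : ({z : Sta V d | z ∈ can X d (b i + 1 - 1) ∧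
            List.ofFn z.1 ∉ T ⟨i, by omega⟩}.ncard : ℝ) ≤
            γC * (Fintype.card V : ℝ) ^ (d + 1) := by
          refine le_trans ?_ (hT ⟨i, by omega⟩)
          have hsub : {z : Sta V d | z ∈ can X d (b i + 1 - 1) ∧
              List.ofFn z.1 ∉ T ⟨i, by omega⟩} ⊆
              {s : Sta V d | s ∈ (fun i : Fin q => cls X d (a i) (b i)) ⟨i, by omega⟩ ∧
                List.ofFn s.1 ∉ T ⟨i, by omega⟩} := by
            rintro z ⟨h1, h2⟩
            rw [Nat.add_sub_cancel] at h1
            exact ⟨hCvr4 d V X (a i) (b i) (b i) (hSt.le i (by omega)) le_rfl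
              (struc_b_le2 hSt (by omega)) h1, h2⟩
          exact_mod_cast Set.ncard_le_ncard hsub (Set.toFinite _)
        have hS2 : ({z : Sta V d | z ∈ can X d (b i + 1 + 1) ∧
            List.ofFn z.1 ∉ T ⟨i + 1, hi⟩}.ncard : ℝ) ≤
            γC * (Fintype.card V : ℝ) ^ (d + 1) := by
          refine le_trans ?_ (hT ⟨i + 1, hi⟩)
          have hsub : {z : Sta V d | z ∈ can X d (b i + 1 + 1) ∧
              List.ofFn z.1 ∉ T ⟨i + 1, hi⟩} ⊆
              {s : Sta V d | s ∈ (fun i : Fin q => cls X d (a i) (b i)) ⟨i + 1, hi⟩ ∧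
                List.ofFn s.1 ∉ T ⟨i + 1, hi⟩} := by
            rintro z ⟨h1, h2⟩
            refine ⟨hCvr4 d V X (a (i + 1)) (b (i + 1)) (b i + 1 + 1) (by omega)
              (by have := hSt.le (i + 1) hi; omega) (by omega) h1, h2⟩
          exact_mod_cast Set.ncard_le_ncard hsub (Set.toFinite _)
        exact ⟨hCrs'' V H X (b i + 1) _ _ hnC hU hDi (by omega) hm1 hbal htd hS1 hS2,
          hCsy' V H X (b i + 1) _ _ hnC hU hDi (by omega) hm1 hbal htd hS1 hS2⟩
      intro i j hij
      rcases hij with h | h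
      · have hj := j.isLt
        have h' := (key i (by omega)).1
        have e1 : (⟨(i : ℕ), by omega⟩ : Fin q) = i := rfl
        have e2 : (⟨(i : ℕ) + 1, by omega⟩ : Fin q) = j := Fin.ext h
        rw [e1, e2] at h'
        exact h'
      · have hj := i.isLt
        have h' := (key j (by omega)).2
        have e1 : (⟨(j : ℕ), by omega⟩ : Fin q) = j := rfl
        have e2 : (⟨(j : ℕ) + 1, by omega⟩ : Fin q) = i := Fin.ext h
        rw [e1, e2] at h'
        exact h'

end Pool.Agent.KK.H83
end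

/-! ### Helper41_KK.GCRO -/
section
/-!
# Squad KK, block G, row G_CRO (G06): crossing with a bi-coloured set
-/

set_option autoImplicit false

namespace Pool.Agent.KK.E.H41

theorem wt_take (k : ℕ) (u : List Bool) :
    wt (u.take k) = ((Finset.range k).filter fun i => u.getD i false = true).card := by
  induction k with
  | zero => simp [wt]
  | succ k ih =>
      rw [List.take_add_one, Finset.range_add_one, Finset.filter_insert]
      unfold wt at ih ⊢
      rw [List.count_append, ih, List.getD_eq_getElem?_getD]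
      rcases h : u[k]? with _ | b
      · simp
      · cases b
        · simp
        · simp

theorem wt_win (k a : ℕ) (u : List Bool) :
    wt ((u.drop a).take k) =
      ((Finset.range k).filter fun i => u.getD (a + i) false = true).card := by
  rw [wt_take]
  refine congrArg Finset.card (Finset.filter_congr fun i _ => ?_)
  rw [List.getD_eq_getElem?_getD, List.getD_eq_getElem?_getD, List.getElem?_drop]

theorem win_append {α : Type} (u v : List α) (a k : ℕ) (h : a + k ≤ u.length) :
    ((u ++ v).drop a).take k = (u.drop a).take k := by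
  rw [List.drop_append_of_le_length (by omega), List.take_append_of_le_length (by
    rw [List.length_drop]
    omega)]

/-- G06 -/
theorem g_cro (hE18 : StmtE18) (hG03 : StmtG03) (hG04 : StmtG04) : StmtG06 := by
  intro V _ _ H X M Z p q B δ h ε η θ hA hC hM hZ hMZ hMX hMY
  obtain ⟨c, hc⟩ : ∃ c : List Bool,
      c = List.replicate (q + 1) false ++ List.replicate (p + 1) true := ⟨_, rfl⟩
  have hlc : c.length = p + q + 2 := by
    rw [hc, List.length_append, List.length_replicate, List.length_replicate]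
    omega
  have hwc : wt c = p + 1 := by
    rw [hc]
    unfold wt
    rw [List.count_append]
    simp [List.count_replicate]
  have hlL : (low p q).length = p + q + 1 := by
    simp [low]
    omega
  have hlR : (high p q).length = p + q + 1 := by
    simp [high]
    omega
  have hword : word p q = low p q ++ c ++ high p q := by
    rw [hc]
    rfl
  obtain ⟨m₁, hm₁⟩ := hMY
  obtain ⟨m₂, hm₂⟩ := hMX
  rw [Finset.mem_sdiff] at hm₁
  rw [Finset.mem_inter] at hm₂
  have hne : m₁ ≠ m₂ := fun h => hm₁.2 (h ▸ hm₂.2)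
  have hc0 : c.getD 0 false = false := by
    rw [hc, List.replicate_succ]
    rfl
  have hc1 : c.getD (p + q + 1) false = true := by
    rw [hc, List.getD_eq_getElem?_getD, List.getElem?_append_right (by
      rw [List.length_replicate]
      omega), List.length_replicate, List.getElem?_replicate, if_pos (by omega)]
    rfl
  obtain ⟨o, ho1, ho2, ho3, ho4, ho5⟩ := hG04 V X M p q c m₁ m₂ hlc hwc hM.1.1 hM.1.2.1 hm₁.1 hm₂.1
    hne (by
      rw [hc0]
      exact ⟨fun h => absurd h hm₁.2, fun h => absurd h (by decide)⟩) (by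
      rw [hc1]
      exact ⟨fun _ => rfl, fun _ => hm₂.2⟩)
  have hlLc : (low p q ++ c).length = p + q + 1 + (p + q + 2) := by
    rw [List.length_append, hlL, hlc]
  obtain ⟨l, hl1, hl2, -, hl4, hl5⟩ := hG03 V H X M Z p q B δ h ε η θ c (low p q) (high p q) o hA hC
    hM hZ hMZ hlc hwc hlL hlR (by
      intro a ha
      left
      have h1 : ((low p q ++ c).drop a).take (p + q + 2) =
          ((word p q).drop a).take (p + q + 2) := by
        rw [hword]
        exact (win_append _ _ a (p + q + 2) (by rw [hlLc]; omega)).symm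
      rw [h1, wt_win, (hE18 p q a (by omega)).2, if_pos ha]) (by
      intro a ha1 ha2
      right
      have h1 : ((c ++ high p q).drop a).take (p + q + 2) =
          ((word p q).drop (p + q + 1 + a)).take (p + q + 2) := by
        rw [hword, List.append_assoc, ← List.drop_drop, ← hlL, List.drop_left]
      rw [h1, wt_win, (hE18 p q (p + q + 1 + a) (by omega)).2, if_neg (by omega),
        if_neg (by omega)]) ho3 ho4 ho5 (by rw [ho1]; exact Option.some_ne_none _)
      (by rw [ho2]; exact Option.some_ne_none _)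
  exact ⟨l, hl1, hl2, by rw [hl4, hc], hl5⟩

end Pool.Agent.KK.E.H41
end

/-! ### Helper41_KK.GFAR -/
section
/-!
# Squad KK, block G, row G_FAR (G07): far flips with a bi-coloured pair
-/

set_option autoImplicit false

namespace Pool.Agent.KK.E.H41

/-! ## Words -/

/-- windows of a periodic word -/
theorem wt_per (A : List Bool) (a : ℕ) (ha : a + 2 ≤ A.length) :
    wt (((A.tail ++ A.dropLast).drop a).take A.length) = wt A := by
  have hadd : ∀ u v : List Bool, wt (u ++ v) = wt u + wt v := fun u v => List.count_append ..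
  have h1 : A.tail ++ A.dropLast = (A.drop 1) ++ A.take (A.length - 1) := by
    rw [List.drop_one, List.dropLast_eq_take]
  rw [h1, List.drop_append_of_le_length (by rw [List.length_drop]; omega), List.drop_drop,
    List.take_append, List.take_of_length_le (by rw [List.length_drop]; omega),
    List.length_drop, List.take_take, hadd]
  have h3 : min (A.length - (A.length - (1 + a))) (A.length - 1) = a + 1 := by omega
  rw [h3]
  have h4 : wt (A.take (a + 1)) + wt (A.drop (a + 1)) = wt A := by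
    rw [← hadd, List.take_append_drop]
  rw [Nat.add_comm 1 a]
  omega

theorem ofFn_getD {L : ℕ} (c : List Bool) (hc : c.length = L) :
    List.ofFn (fun i : Fin L => c.getD i false) = c := by
  apply List.ext_getElem
  · rw [List.length_ofFn, hc]
  · intro i h1 h2
    rw [List.getElem_ofFn]
    rw [List.getD_eq_getElem?_getD]
    simp [h2]

theorem card_fin_filter (k : ℕ) (P : ℕ → Prop) [DecidablePred P] :
    (Finset.univ.filter fun i : Fin k => P i).card = ((Finset.range k).filter P).card := by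
  have h : (Finset.range k).filter P =
      (Finset.univ.filter fun i : Fin k => P i).map Fin.valEmbedding := by
    ext x
    simp only [Finset.mem_filter, Finset.mem_range, Finset.mem_map, Finset.mem_univ, true_and,
      Fin.valEmbedding_apply]
    constructor
    · rintro ⟨h1, h2⟩
      exact ⟨⟨x, h1⟩, h2, rfl⟩
    · rintro ⟨i, h1, rfl⟩
      exact ⟨i.2, h1⟩
  rw [h, Finset.card_map]

/-- **G07** -/
theorem g_far (h01 : StmtE01) (h02 : StmtE02) (h05 : StmtE05) (h20 : StmtE20) (h00 : StmtG00) :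
    StmtG07 := by
  classical
  intro V _ _ H X M Z p q B δ h ε η θ m₁ m₂ hpq hA hC hM hZ hMZ hMX hMY hl hw
  -- basic numbers
  have hK1 : (1 : ℝ) ≤ ((p + q + 2 : ℕ) : ℝ) := by
    exact_mod_cast (by omega : 1 ≤ p + q + 2)
  have hnpos : 0 < (Fintype.card V : ℝ) := by
    have h1 := hA.big
    have h2 : (0 : ℝ) < 100 * ((p + q + 2 : ℕ) : ℝ) ^ 2 * ((B + p + q + 2 : ℕ) : ℝ) := by
      have h3 : (0 : ℝ) < ((B + p + q + 2 : ℕ) : ℝ) := by exact_mod_cast (by omega)
      positivity
    have h3 : 0 < δ * (Fintype.card V : ℝ) := lt_of_lt_of_le h2 h1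
    exact (pos_iff_pos_of_mul_pos h3).1 hA.pos
  have hXne : X.Nonempty := by
    rw [← Finset.card_pos]
    have h1 := hA.lo
    have h2 := hA.small
    have h3 : (0 : ℝ) < (X.card : ℝ) := by
      refine lt_of_lt_of_le ?_ h1
      have : 0 < 1 - δ := by linarith
      positivity
    exact_mod_cast h3
  have hX'ne : (Xᶜ).Nonempty := by
    rw [← Finset.card_pos]
    have h1 := hA.lo'
    have h2 := hA.small
    have h3 : (0 : ℝ) < ((Xᶜ).card : ℝ) := by
      refine lt_of_lt_of_le ?_ h1
      have : 0 < 1 - δ := by linarith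
      positivity
    exact_mod_cast h3
  have hsd : ∀ b, (sd X b).Nonempty := by
    intro b
    unfold sd
    split_ifs
    · exact hXne
    · exact hX'ne
  have hMc : M.card = 2 := by
    have h1 := Finset.card_inter_add_card_sdiff M X
    omega
  -- the two vertices
  obtain ⟨x₀, hx₀⟩ := Finset.card_eq_one.1 hMX
  obtain ⟨y₀, hy₀⟩ := Finset.card_eq_one.1 hMY
  have hx1 : x₀ ∈ M ∩ X := by rw [hx₀]; exact Finset.mem_singleton_self _
  have hy1 : y₀ ∈ M \ X := by rw [hy₀]; exact Finset.mem_singleton_self _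
  rw [Finset.mem_inter] at hx1
  rw [Finset.mem_sdiff] at hy1
  have hMmem : ∀ v, v ∈ M ↔ v = y₀ ∨ v = x₀ := by
    intro v
    constructor
    · intro hv
      by_cases h1 : v ∈ X
      · right
        have : v ∈ M ∩ X := Finset.mem_inter.2 ⟨hv, h1⟩
        rw [hx₀] at this
        exact Finset.mem_singleton.1 this
      · left
        have : v ∈ M \ X := Finset.mem_sdiff.2 ⟨hv, h1⟩
        rw [hy₀] at this
        exact Finset.mem_singleton.1 this
    · rintro (rfl | rfl)
      · exact hy1.1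
      · exact hx1.1
  have hxy : x₀ ≠ y₀ := fun h => hy1.2 (h ▸ hx1.2)
  -- constants
  have hη2 : 0 < η 2 := hC.cst.pos 2 (by omega)
  have hη1 : 0 < η 1 := hC.cst.pos 1 (by omega)
  have hη0 : 0 < η 0 := hC.cst.pos 0 (by omega)
  have hη01 : η 0 ≤ η 1 := by
    have h1 := hC.cst.step 0 (by omega)
    have h2 : (1 : ℝ) ≤ 8 * ((p + q + 2 : ℕ) : ℝ) * 4 ^ (p + q + 2) * ((B : ℝ) + 1) := by
      have h3 : (1 : ℝ) ≤ (4 : ℝ) ^ (p + q + 2) := one_le_pow₀ (by norm_num)
      have h4 : (1 : ℝ) ≤ (B : ℝ) + 1 := by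
        have : (0 : ℝ) ≤ (B : ℝ) := Nat.cast_nonneg _
        linarith
      have h5 : (1 : ℝ) ≤ 8 * ((p + q + 2 : ℕ) : ℝ) := by linarith
      exact one_le_mul_of_one_le_of_one_le (one_le_mul_of_one_le_of_one_le h5 h3) h4
    have h3 : η 0 ≤ 8 * ((p + q + 2 : ℕ) : ℝ) * 4 ^ (p + q + 2) * ((B : ℝ) + 1) * η 0 :=
      le_mul_of_one_le_left hη0.le h2
    exact h3.trans h1
  have hτ : 0 < (η 2) ^ (2 ^ (p + q + 2)) := pow_pos hη2 _
  have hθη : θ 2 ≤ η 2 := by
    have h1 := hC.cst.tsmall 2 (by omega) (by omega)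
    have h2 : η 2 ≤ 1 / 2 := hC.cst.half 2 (by omega)
    have h3 : h ≤ 1 := by
      have h4 := hC.cst.hsmall
      refine h4.trans ?_
      have h5 : (1 : ℝ) ≤ (2 : ℝ) ^ (p + q + 2) := one_le_pow₀ (by norm_num)
      have h6 : (1 : ℝ) ≤ 8 * ((p + q + 2 : ℕ) : ℝ) * 2 ^ (p + q + 2) :=
        one_le_mul_of_one_le_of_one_le (by linarith) h5
      rw [div_le_one (by linarith)]
      exact h6
    have h0 : 0 < h := hC.cst.hpos
    have h4 : η 2 * h / (16 * ((p + q + 2 : ℕ) : ℝ)) ≤ η 2 := by
      rw [div_le_iff₀ (by linarith)]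
      have h5 : η 2 * h ≤ η 2 * 1 := mul_le_mul_of_nonneg_left h3 hη2.le
      have h6 : η 2 * 1 ≤ η 2 * (16 * ((p + q + 2 : ℕ) : ℝ)) :=
        mul_le_mul_of_nonneg_left (by linarith) hη2.le
      exact h5.trans h6
    have h5 : 0 ≤ η 2 * h / (16 * ((p + q + 2 : ℕ) : ℝ)) := by positivity
    have h6 : (η 2 * h / (16 * ((p + q + 2 : ℕ) : ℝ))) ^ 3 ≤
        η 2 * h / (16 * ((p + q + 2 : ℕ) : ℝ)) :=
      pow_le_of_le_one h5 (by linarith) (by norm_num)
    linarith
  have hθ2 : 0 < θ 2 := hC.cst.tpos 2 (by omega) (by omega)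
  have hnum1 : 32 * ((p + q + 2 : ℕ) : ℝ) * η 1 ≤ ε * (η 2) ^ (2 ^ (p + q + 2)) := by
    have h1 := hC.thetaG 2 (by omega) (by omega)
    have h2 : (θ 2) ^ (2 ^ (p + q + 2)) ≤ (η 2) ^ (2 ^ (p + q + 2)) :=
      pow_le_pow_left₀ hθ2.le hθη _
    exact h1.trans (mul_le_mul_of_nonneg_left h2 hC.epos.le)
  have hnum2 : 100 * ((p + q + 2 : ℕ) : ℝ) * δ ≤ ε * (η 2) ^ (2 ^ (p + q + 2)) := by
    have h1 := hC.delG
    have h2 : ε * η 0 ≤ 1 * η 0 := mul_le_mul_of_nonneg_right hC.eone hη0.le
    have h3 : η 1 ≤ 32 * ((p + q + 2 : ℕ) : ℝ) * η 1 :=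
      le_mul_of_one_le_left hη1.le (by linarith)
    linarith
  have hnum3 : (Z.card : ℝ) ≤ (η 2) ^ (2 ^ (p + q + 2)) / (100 * ((p + q + 2 : ℕ) : ℝ)) *
      (Fintype.card V : ℝ) := by
    have h1 : δ ≤ (η 2) ^ (2 ^ (p + q + 2)) / (100 * ((p + q + 2 : ℕ) : ℝ)) := by
      rw [le_div_iff₀ (by linarith)]
      have h2 : ε * (η 2) ^ (2 ^ (p + q + 2)) ≤ 1 * (η 2) ^ (2 ^ (p + q + 2)) :=
        mul_le_mul_of_nonneg_right hC.eone hτ.le
      linarith
    have h2 := hA.big
    have h3 : (Z.card : ℝ) ≤ ((B + p + q + 2 : ℕ) : ℝ) := by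
      exact_mod_cast (by omega : Z.card ≤ B + p + q + 2)
    have h4 : ((B + p + q + 2 : ℕ) : ℝ) ≤
        100 * ((p + q + 2 : ℕ) : ℝ) ^ 2 * ((B + p + q + 2 : ℕ) : ℝ) := by
      refine le_mul_of_one_le_left (Nat.cast_nonneg _) ?_
      have h5 : (1 : ℝ) ≤ ((p + q + 2 : ℕ) : ℝ) ^ 2 := one_le_pow₀ hK1
      linarith
    have h5 : δ * (Fintype.card V : ℝ) ≤ (η 2) ^ (2 ^ (p + q + 2)) /
        (100 * ((p + q + 2 : ℕ) : ℝ)) * (Fintype.card V : ℝ) :=
      mul_le_mul_of_nonneg_right h1 hnpos.le
    linarith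
  -- the word
  obtain ⟨s, hs⟩ : ∃ s, s = m₂.length := ⟨_, rfl⟩
  obtain ⟨c, hc⟩ : ∃ c, c = m₂ ++ false :: m₁ ++ true :: m₂ := ⟨_, rfl⟩
  have hsk : s ≤ p + q := by omega
  have hcl : c.length = p + q + 2 + s := by
    rw [hc]
    simp only [List.length_append, List.length_cons]
    omega
  have hLl : (m₂ ++ false :: m₁).length = p + q + 1 := by
    rw [List.length_append, List.length_cons]
    omega
  have hc1 : c.getD s false = false := by
    rw [hc, List.append_assoc, List.getD_append_right _ _ _ _ (by omega), hs, Nat.sub_self]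
    rfl
  have hc2 : c.getD (p + q + 1) false = true := by
    rw [hc, List.getD_append_right _ _ _ _ (by omega), hLl, Nat.sub_self, List.getD_cons_zero]
  have hc3 : ∀ i, i < s → c.getD i false = m₂.getD i false := by
    intro i hi
    rw [hc, List.append_assoc, List.getD_append _ _ _ _ (by omega)]
  have hc4 : ∀ i, c.getD (p + q + 2 + i) false = m₂.getD i false := by
    intro i
    have h1 : p + q + 2 + i - (p + q + 1) = i + 1 := by omega
    rw [hc, List.getD_append_right _ _ _ _ (by omega), hLl, h1, List.getD_cons_succ]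
  -- fixed positions
  obtain ⟨o, ho⟩ : ∃ o : ℕ → Option V, o = fun i => if i = s then some y₀ else
      if i = p + q + 1 then some x₀ else none := ⟨_, rfl⟩
  have ho1 : o s = some y₀ := by rw [ho]; exact if_pos rfl
  have ho2 : o (p + q + 1) = some x₀ := by
    rw [ho]
    change (if p + q + 1 = s then some y₀ else if p + q + 1 = p + q + 1 then some x₀ else none) = _
    rw [if_neg (by omega), if_pos rfl]
  have ho3 : ∀ i, i ≠ s → i ≠ p + q + 1 → o i = none := by
    intro i h1 h2
    rw [ho]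
    change (if i = s then some y₀ else if i = p + q + 1 then some x₀ else none) = _
    rw [if_neg h1, if_neg h2]
  have ho4 : ∀ i v, o i = some v → (i = s ∧ v = y₀) ∨ (i = p + q + 1 ∧ v = x₀) := by
    intro i v hi
    by_cases h1 : i = s
    · left
      rw [h1, ho1, Option.some_inj] at hi
      exact ⟨h1, hi.symm⟩
    · by_cases h2 : i = p + q + 1
      · right
        rw [h2, ho2, Option.some_inj] at hi
        exact ⟨h2, hi.symm⟩
      · rw [ho3 i h1 h2] at hi
        exact absurd hi.symm (Option.some_ne_none _)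
  -- the density of the core event
  have hcnt : (Finset.univ.filter fun i : Fin (p + q + 2) => c.getD i false = true).card =
      p + 1 := by
    rw [card_fin_filter (p + q + 2) (fun i => c.getD i false = true), ← wt_take]
    have h1 : c.take (p + q + 2) = (m₂ ++ false :: m₁) ++ [true] := by
      rw [hc, List.take_append, hLl, List.take_of_length_le (by omega)]
      have h2 : p + q + 2 - (p + q + 1) = 1 := by omega
      rw [h2]
      rfl
    rw [h1]
    unfold wt at hw ⊢
    simp only [List.count_append, List.count_cons, List.count_nil]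
    simp only [beq_self_eq_true, if_true, Bool.false_eq_true, beq_iff_eq, if_false]
    omega
  have hcardT : ((Finset.univ : Finset (Fin (p + q + 2))).filter fun i : Fin (p + q + 2) =>
      o i = none ∧ c.getD i false = true).card = p := by
    have h1 : (Finset.univ.filter fun i : Fin (p + q + 2) => c.getD i false = true) =
        insert (Fin.last (p + q + 1)) (Finset.univ.filter fun i : Fin (p + q + 2) =>
          o i = none ∧ c.getD i false = true) := by
      ext i
      simp only [Finset.mem_filter, Finset.mem_univ, true_and, Finset.mem_insert]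
      constructor
      · intro h2
        by_cases h3 : (i : ℕ) = p + q + 1
        · left
          exact Fin.ext h3
        · right
          refine ⟨ho3 _ ?_ h3, h2⟩
          intro h4
          rw [h4, hc1] at h2
          exact absurd h2 (by decide)
      · rintro (rfl | ⟨-, h2⟩)
        · exact hc2
        · exact h2
    rw [h1, Finset.card_insert_of_notMem] at hcnt
    · omega
    · intro h2
      have h3 := (Finset.mem_filter.1 h2).2.1
      change o (p + q + 1) = none at h3
      rw [ho2] at h3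
      exact absurd h3 (Option.some_ne_none _)
  have hcntF : (Finset.univ.filter fun i : Fin (p + q + 2) => c.getD i false = false).card =
      q + 1 := by
    have h1 := Finset.card_filter_add_card_filter_not
      (s := (Finset.univ : Finset (Fin (p + q + 2)))) (fun i => c.getD i false = true)
    rw [hcnt, Finset.card_univ, Fintype.card_fin] at h1
    have h2 : (Finset.univ.filter fun i : Fin (p + q + 2) => ¬ c.getD i false = true) =
        Finset.univ.filter fun i : Fin (p + q + 2) => c.getD i false = false := by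
      ext i
      simp
    rw [h2] at h1
    omega
  have hcardF : ((Finset.univ : Finset (Fin (p + q + 2))).filter fun i : Fin (p + q + 2) =>
      o i = none ∧ c.getD i false = false).card = q := by
    have h1 : (Finset.univ.filter fun i : Fin (p + q + 2) => c.getD i false = false) =
        insert ⟨s, by omega⟩ (Finset.univ.filter fun i : Fin (p + q + 2) =>
          o i = none ∧ c.getD i false = false) := by
      ext i
      simp only [Finset.mem_filter, Finset.mem_univ, true_and, Finset.mem_insert]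
      constructor
      · intro h2
        by_cases h3 : (i : ℕ) = s
        · left
          exact Fin.ext h3
        · right
          refine ⟨ho3 _ h3 ?_, h2⟩
          intro h4
          rw [h4, hc2] at h2
          exact absurd h2 (by decide)
      · rintro (rfl | ⟨-, h2⟩)
        · exact hc1
        · exact h2
    rw [h1, Finset.card_insert_of_notMem] at hcntF
    · omega
    · intro h2
      have h3 := (Finset.mem_filter.1 h2).2.1
      change o s = none at h3
      rw [ho1] at h3
      exact absurd h3 (Option.some_ne_none _)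
  have hbk : ∀ i : Fin (p + q + 2), (bx X (fun i : Fin (p + q + 2) => c.getD i false)
      (fun i => o i) i).Nonempty := by
    intro i
    unfold bx
    simp only
    rcases o i with _ | v
    · exact hsd _
    · exact ⟨v, by simp⟩
  have hD : η 2 ≤ dens (bx X (fun i : Fin (p + q + 2) => c.getD i false) (fun i => o i))
      (fun f => Finset.univ.image f ∈ H) := by
    have h1 := h05 V (Fin (p + q + 2)) H X M (fun i : Fin (p + q + 2) => c.getD i false)
      (fun i => o i) Finset.univ p q hXne hX'ne (by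
        intro v
        rw [hMmem]
        constructor
        · rintro (rfl | rfl)
          · exact ⟨⟨s, by omega⟩, Finset.mem_univ _, ho1⟩
          · exact ⟨Fin.last _, Finset.mem_univ _, ho2⟩
        · rintro ⟨i, -, hi⟩
          rcases ho4 _ _ hi with h1 | h1
          · exact Or.inl h1.2
          · exact Or.inr h1.2) hcardT hcardF
    rw [h1]
    have h2 := hM.1.2.2
    rw [hMc, hMX, hMY] at h2
    exact h2.le
  have h20' := h20 V (Fin (p + q + 2)) (bx X (fun i : Fin (p + q + 2) => c.getD i false)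
    (fun i => o i)) (fun f => Finset.univ.image f ∈ H) (η 2) hbk hη2.le hD
  rw [Fintype.card_fin] at h20'
  -- the event
  obtain ⟨P, hP⟩ : ∃ P : (Fin (p + q + 2 + s) → V) → Prop, P = fun f => ∀ a, p + q + 1 ≤ a →
      a ≤ p + q + 1 + s →
      (Finset.univ.filter fun i : Fin (p + q + 2 + s) => a ≤ (i : ℕ) + (p + q + 1) ∧
        (i : ℕ) + (p + q + 1) < a + (p + q + 2)).image f ∈ H := ⟨_, rfl⟩
  obtain ⟨φ, hφ⟩ : ∃ φ : Fin (p + q + 2 + s) → Fin (p + q + 2) × Bool,
      φ = fun i : Fin (p + q + 2 + s) => ((⟨(i : ℕ) % (p + q + 2), Nat.mod_lt _ (by omega)⟩ :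
        Fin (p + q + 2)), decide (p + q + 2 ≤ (i : ℕ))) := ⟨_, rfl⟩
  have hφ1 : ∀ i : Fin (p + q + 2 + s), (i : ℕ) < p + q + 2 →
      (((φ i).1 : Fin _) : ℕ) = i ∧ (φ i).2 = false := by
    intro i hi
    rw [hφ]
    exact ⟨Nat.mod_eq_of_lt hi, decide_eq_false (by omega)⟩
  have hφ2 : ∀ i : Fin (p + q + 2 + s), p + q + 2 ≤ (i : ℕ) →
      (((φ i).1 : Fin _) : ℕ) = i - (p + q + 2) ∧ (φ i).2 = true := by
    intro i hi
    have hi2 := i.2
    rw [hφ]
    refine ⟨?_, decide_eq_true hi⟩
    change (i : ℕ) % (p + q + 2) = _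
    rw [Nat.mod_eq_sub_mod hi, Nat.mod_eq_of_lt (by omega)]
  have hφI : Function.Injective φ := by
    intro i j hij
    apply Fin.ext
    have h1 : (((φ i).1 : Fin (p + q + 2)) : ℕ) = (((φ j).1 : Fin (p + q + 2)) : ℕ) :=
      congrArg (fun z : Fin (p + q + 2) × Bool => ((z.1 : Fin (p + q + 2)) : ℕ)) hij
    have h2 := congrArg Prod.snd hij
    rcases Nat.lt_or_ge (i : ℕ) (p + q + 2) with hi | hi <;>
      rcases Nat.lt_or_ge (j : ℕ) (p + q + 2) with hj | hj
    · rw [(hφ1 i hi).1, (hφ1 j hj).1] at h1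
      exact h1
    · rw [(hφ1 i hi).2, (hφ2 j hj).2] at h2
      exact absurd h2 (by decide)
    · rw [(hφ2 i hi).2, (hφ1 j hj).2] at h2
      exact absurd h2 (by decide)
    · rw [(hφ2 i hi).1, (hφ2 j hj).1] at h1
      omega
  have hbox : (fun z : Fin (p + q + 2) × Bool => bx X (fun i : Fin (p + q + 2) => c.getD i false)
      (fun i => o i) z.1) ∘ φ = bx X (fun i : Fin (p + q + 2 + s) => c.getD i false)
      (fun i => o i) := by
    funext i
    change (o (((φ i).1 : Fin _) : ℕ)).elim (sd X (c.getD (((φ i).1 : Fin _) : ℕ) false)) _ =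
      (o (i : ℕ)).elim (sd X (c.getD (i : ℕ) false)) _
    rcases Nat.lt_or_ge (i : ℕ) (p + q + 2) with hi | hi
    · rw [(hφ1 i hi).1]
    · have hi2 := i.2
      rw [(hφ2 i hi).1, ho3 (i - (p + q + 2)) (by omega) (by omega),
        ho3 i (by omega) (by omega), hc3 _ (by omega)]
      have h1 := hc4 ((i : ℕ) - (p + q + 2))
      have h2 : p + q + 2 + ((i : ℕ) - (p + q + 2)) = i := by omega
      rw [h2] at h1
      rw [h1]
  have hbig : ∀ z : Fin (p + q + 2) × Bool, ((fun z : Fin (p + q + 2) × Bool =>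
      bx X (fun i : Fin (p + q + 2) => c.getD i false) (fun i => o i) z.1) z).Nonempty :=
    fun z => hbk z.1
  have hdens : (η 2) ^ (2 ^ (p + q + 2)) ≤
      dens (bx X (fun i : Fin (p + q + 2 + s) => c.getD i false) (fun i => o i)) P := by
    refine h20'.trans ?_
    rw [← hbox, ← h02 V (Fin (p + q + 2) × Bool) (Fin (p + q + 2 + s)) _ φ hbig hφI P]
    refine (h01 V (Fin (p + q + 2) × Bool) _ hbig).2.1 _ _ ?_
    intro g _ hg
    rw [hP]
    intro a ha1 ha2
    obtain ⟨b, hb⟩ : ∃ b, a = p + q + 1 + b := ⟨a - (p + q + 1), by omega⟩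
    have h1 := hg (fun j => decide ((j : ℕ) < b))
    have h2 : (Finset.univ.filter fun i : Fin (p + q + 2 + s) => a ≤ (i : ℕ) + (p + q + 1) ∧
        (i : ℕ) + (p + q + 1) < a + (p + q + 2)).image (g ∘ φ) =
        Finset.univ.image fun j : Fin (p + q + 2) => g (j, decide ((j : ℕ) < b)) := by
      ext v
      simp only [Finset.mem_image, Finset.mem_filter, Finset.mem_univ, true_and,
        Function.comp_apply]
      constructor
      · rintro ⟨i, ⟨hi1, hi2⟩, rfl⟩
        refine ⟨(φ i).1, congrArg g (Prod.ext rfl ?_)⟩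
        rcases Nat.lt_or_ge (i : ℕ) (p + q + 2) with hi | hi
        · rw [(hφ1 i hi).1, (hφ1 i hi).2]
          exact decide_eq_false (by omega)
        · rw [(hφ2 i hi).1, (hφ2 i hi).2]
          exact decide_eq_true (by omega)
      · rintro ⟨j, rfl⟩
        have hj := j.2
        by_cases hjb : (j : ℕ) < b
        · refine ⟨⟨p + q + 2 + j, by omega⟩, ⟨by simp only; omega, by simp only; omega⟩, ?_⟩
          have h3 := hφ2 ⟨p + q + 2 + j, by omega⟩ (by simp only; omega)
          refine congrArg g (Prod.ext (Fin.ext ?_) ?_)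
          · rw [h3.1]
            simp only
            omega
          · rw [h3.2]
            exact (decide_eq_true hjb).symm
        · refine ⟨⟨j, by omega⟩, ⟨by simp only; omega, by simp only; omega⟩, ?_⟩
          have h3 := hφ1 ⟨j, by omega⟩ (by simp only; omega)
          refine congrArg g (Prod.ext (Fin.ext ?_) ?_)
          · rw [h3.1]
          · rw [h3.2]
            exact (decide_eq_false hjb).symm
    rw [h2]
    exact h1
  -- letters of the neighbours
  have hfull1 : (m₂ ++ false :: m₁ ++ [false]).length = p + q + 2 := by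
    rw [List.length_append, hLl]
    rfl
  have hfull2 : (true :: m₁ ++ true :: m₂).length = p + q + 2 := by
    simp only [List.cons_append, List.length_cons, List.length_append]
    omega
  have hwA : wt (m₂ ++ false :: m₁ ++ [false]) = p := by
    have h1 : wt (m₂ ++ false :: m₁ ++ [false]) = wt m₁ + wt m₂ := by
      unfold wt
      simp
      omega
    rw [h1, hw]
  have hwB : wt (true :: m₁ ++ true :: m₂) = p + 2 := by
    have h1 : wt (true :: m₁ ++ true :: m₂) = wt m₁ + wt m₂ + 2 := by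
      unfold wt
      simp
      omega
    rw [h1, hw]
  have hres := h00 V H X Z p q B (p + q + 2 + s) δ ε ((η 2) ^ (2 ^ (p + q + 2))) (η 1) η c
    (m₂ ++ false :: m₁ ++ [false]).tail (true :: m₁ ++ true :: m₂).dropLast
    (fun i => o i) P hA hC.epos hC.eone hτ hη1.le hcl (by omega)
    (by rw [List.length_tail, hfull1]; omega) (by rw [List.length_dropLast, hfull2]; omega)
    (by
      intro i i' v hi hi'
      rcases ho4 _ _ hi with h1 | h1 <;> rcases ho4 _ _ hi' with h2 | h2
      · exact Fin.ext (h1.1.trans h2.1.symm)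
      · exact absurd (h2.2.symm.trans h1.2) hxy
      · exact absurd (h1.2.symm.trans h2.2) hxy
      · exact Fin.ext (h1.1.trans h2.1.symm))
    (by
      intro i v hi
      have h3 : v ∈ M := by
        rw [hMmem]
        rcases ho4 _ _ hi with h1 | h1
        · exact Or.inl h1.2
        · exact Or.inr h1.2
      exact Finset.disjoint_left.1 hMZ h3)
    hdens
    (by
      intro a ha
      by_cases hcore : p + q + 1 ≤ a ∧ a ≤ p + q + 1 + s
      · left
        refine ⟨hcore.1, by omega, fun f _ hPf => ?_⟩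
        rw [hP] at hPf
        exact hPf a hcore.1 hcore.2
      · right
        refine ⟨?_, ?_, ?_⟩
        · rcases Nat.lt_or_ge a (p + q + 1) with h1 | h1
          · left
            have h2 : ((((m₂ ++ false :: m₁ ++ [false]).tail ++ c ++
                (true :: m₁ ++ true :: m₂).dropLast).drop a).take (p + q + 2)) =
                (((m₂ ++ false :: m₁ ++ [false]).tail ++
                  (m₂ ++ false :: m₁ ++ [false]).dropLast).drop a).take
                  (m₂ ++ false :: m₁ ++ [false]).length := by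
              rw [hfull1, List.dropLast_concat, hc]
              have e1 : (m₂ ++ false :: m₁ ++ [false]).tail ++
                  (m₂ ++ false :: m₁ ++ true :: m₂) ++
                  (true :: m₁ ++ true :: m₂).dropLast =
                  ((m₂ ++ false :: m₁ ++ [false]).tail ++ (m₂ ++ false :: m₁)) ++
                  (true :: m₂ ++ (true :: m₁ ++ true :: m₂).dropLast) := by
                simp only [List.append_assoc]
              have e2 : ((m₂ ++ false :: m₁ ++ [false]).tail ++ (m₂ ++ false :: m₁)).length =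
                  2 * p + 2 * q + 2 := by
                rw [List.length_append, List.length_tail, hfull1, hLl]
                omega
              rw [e1]
              exact win_append _ _ a (p + q + 2) (by rw [e2]; omega)
            rw [h2, wt_per _ a (by rw [hfull1]; omega), hwA]
          · right
            have h3 : p + q + 2 + s ≤ a := by
              by_contra hcon
              exact hcore ⟨h1, by omega⟩
            obtain ⟨b, hb⟩ : ∃ b, a = p + q + 2 + s + b := ⟨a - (p + q + 2 + s), by omega⟩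
            have e1 : (m₂ ++ false :: m₁ ++ [false]).tail ++ c ++
                (true :: m₁ ++ true :: m₂).dropLast =
                ((m₂ ++ false :: m₁ ++ [false]).tail ++ m₂ ++ [false]) ++
                  ((true :: m₁ ++ true :: m₂).tail ++
                  (true :: m₁ ++ true :: m₂).dropLast) := by
              rw [hc]
              simp only [List.append_assoc, List.cons_append, List.tail_cons, List.nil_append]
            have e2 : ((m₂ ++ false :: m₁ ++ [false]).tail ++ m₂ ++ [false]).length =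
                p + q + 2 + s := by
              rw [List.length_append, List.length_append, List.length_tail, hfull1]
              simp only [List.length_cons, List.length_nil]
              omega
            have h2 : ((((m₂ ++ false :: m₁ ++ [false]).tail ++ c ++
                (true :: m₁ ++ true :: m₂).dropLast).drop a).take (p + q + 2)) =
                (((true :: m₁ ++ true :: m₂).tail ++
                  (true :: m₁ ++ true :: m₂).dropLast).drop b).take
                  (true :: m₁ ++ true :: m₂).length := by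
              rw [e1, hb, ← e2, List.drop_length_add_append, hfull2]
            rw [h2, wt_per _ b (by rw [hfull2]; omega), hwB]
        · intro i v _ _ hi
          rcases ho4 _ _ hi with ⟨h1, h2⟩ | ⟨h1, h2⟩
          · rw [h1, h2, hc1]
            exact ⟨fun h => absurd h hy1.2, fun h => absurd h (by decide)⟩
          · rw [h1, h2, hc2]
            exact ⟨fun _ => rfl, fun _ => hx1.2⟩
        · intro M' hM'
          have hsub : M' ⊆ M := by
            intro v hv
            obtain ⟨i, -, -, hi⟩ := (hM' v).1 hv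
            rw [hMmem]
            rcases ho4 _ _ hi with h1 | h1
            · exact Or.inl h1.2
            · exact Or.inr h1.2
          have hne : M' ≠ M := by
            intro hEq
            rcases Nat.lt_or_ge a (p + q + 1) with h1 | h1
            · have h2 : x₀ ∈ M' := by rw [hEq]; exact hx1.1
              obtain ⟨i, hi1, hi2, hi3⟩ := (hM' x₀).1 h2
              rcases ho4 _ _ hi3 with ⟨h4, h5⟩ | ⟨h4, h5⟩
              · exact hxy h5
              · omega
            · have h2 : y₀ ∈ M' := by rw [hEq]; exact hy1.1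
              obtain ⟨i, hi1, hi2, hi3⟩ := (hM' y₀).1 h2
              rcases ho4 _ _ hi3 with ⟨h4, h5⟩ | ⟨h4, h5⟩
              · exact hcore ⟨h1, by omega⟩
              · exact hxy h5.symm
          have hss : M' ⊂ M := Finset.ssubset_iff_subset_ne.2 ⟨hsub, hne⟩
          have hcard := Finset.card_lt_card hss
          rw [hMc] at hcard
          refine ⟨hM.2 M' hss, ?_, ?_, ?_⟩
          · have h1 := Finset.card_le_card (Finset.inter_subset_inter_right (u := X) hsub)
            omega
          · have h1 := Finset.card_le_card (Finset.sdiff_subset_sdiff hsub (subset_refl X))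
            omega
          · have h1 : M'.card = 0 ∨ M'.card = 1 := by omega
            rcases h1 with h1 | h1
            · rw [h1]
              exact hη01
            · rw [h1])
    hnum3 hnum1 hnum2
  obtain ⟨f, f1, f2, f3, f4, -, f6⟩ := hres
  refine ⟨List.ofFn f, List.nodup_ofFn.2 f1, ?_, ?_, f6⟩
  · intro v hv
    obtain ⟨i, rfl⟩ := (List.mem_ofFn' _ _).1 hv
    exact f2 i
  · rw [← hc, List.map_ofFn]
    conv_rhs => rw [← ofFn_getD c hcl]
    congr 1
    funext i
    change decide (f i ∈ X) = c.getD i false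
    have key : f i ∈ X ↔ c.getD i false = true := by
      rcases hoi : o i with _ | v
      · exact f4 i hoi
      · rw [f3 i v hoi]
        rcases ho4 _ _ hoi with ⟨h1, h2⟩ | ⟨h1, h2⟩
        · rw [h1, h2, hc1]
          exact ⟨fun h => absurd h hy1.2, fun h => absurd h (by decide)⟩
        · rw [h1, h2, hc2]
          exact ⟨fun _ => rfl, fun _ => hx1.2⟩
    by_cases hfi : f i ∈ X
    · rw [decide_eq_true hfi, key.1 hfi]
    · rw [decide_eq_false hfi]
      cases hci : c.getD i false
      · rfl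
      · exact absurd (key.2 hci) hfi

end Pool.Agent.KK.E.H41
end

/-! ### Helper3_KK.CHG -/
section
/-!
# Block G, row G17: change of the partition outside a small set
-/

set_option autoImplicit false

namespace Pool.Agent.KK.E.H3c

open Pool.Agent.KK Pool.Agent.KK.E

variable {V : Type} [Fintype V] [DecidableEq V]

/-- all completions -/
def AA : List (Slot V) → Finset (List V)
  | [] => {[]}
  | Sum.inl v :: s => (AA s).image (fun e => v :: e)
  | Sum.inr _ :: s => (Finset.univ ×ˢ AA s).image (fun p : V × List V => p.1 :: p.2)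

/-- completions with a free entry in `C` -/
def BB (C : Finset V) : List (Slot V) → Finset (List V)
  | [] => ∅
  | Sum.inl v :: s => (BB C s).image (fun e => v :: e)
  | Sum.inr _ :: s => (C ×ˢ AA s).image (fun p : V × List V => p.1 :: p.2) ∪
      (Finset.univ ×ˢ BB C s).image (fun p : V × List V => p.1 :: p.2)

theorem fr_inl (v : V) (s : List (Slot V)) : fr (Sum.inl v :: s) = fr s := by
  unfold fr
  rw [List.countP_cons]
  simp

theorem fr_inr (b : Bool) (s : List (Slot V)) : fr ((Sum.inr b : Slot V) :: s) = fr s + 1 := by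
  unfold fr
  rw [List.countP_cons]
  simp

theorem card_AA (s : List (Slot V)) : (AA s).card ≤ Fintype.card V ^ fr s := by
  induction s with
  | nil => simp [AA, fr]
  | cons x s ih =>
    rcases x with v | b
    · rw [fr_inl]
      exact le_trans Finset.card_image_le ih
    · rw [fr_inr]
      refine le_trans Finset.card_image_le ?_
      rw [Finset.card_product, Finset.card_univ, pow_succ, mul_comm]
      exact Nat.mul_le_mul_right _ ih

theorem card_BB (C : Finset V) (s : List (Slot V)) :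
    Fintype.card V * (BB C s).card ≤ fr s * C.card * Fintype.card V ^ fr s := by
  induction s with
  | nil => simp [BB]
  | cons x s ih =>
    rcases x with v | b
    · rw [fr_inl]
      exact le_trans (Nat.mul_le_mul_left _ Finset.card_image_le) ih
    · rw [fr_inr]
      have h1 : (BB C ((Sum.inr b : Slot V) :: s)).card ≤
          C.card * (AA s).card + Fintype.card V * (BB C s).card := by
        refine le_trans (Finset.card_union_le _ _) ?_
        refine Nat.add_le_add ?_ ?_
        · refine le_trans Finset.card_image_le ?_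
          rw [Finset.card_product]
        · refine le_trans Finset.card_image_le ?_
          rw [Finset.card_product, Finset.card_univ]
      have h2 := card_AA s
      calc Fintype.card V * (BB C ((Sum.inr b : Slot V) :: s)).card
          ≤ Fintype.card V * (C.card * (AA s).card + Fintype.card V * (BB C s).card) :=
            Nat.mul_le_mul_left _ h1
        _ ≤ Fintype.card V * (C.card * Fintype.card V ^ fr s +
              fr s * C.card * Fintype.card V ^ fr s) :=
            Nat.mul_le_mul_left _ (Nat.add_le_add (Nat.mul_le_mul_left _ h2) ih)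
        _ = (fr s + 1) * C.card * Fintype.card V ^ (fr s + 1) := by ring

theorem mem_AA {X : Finset V} {s : List (Slot V)} {e : List V}
    (h : List.Forall₂ (Fit X) s e) : e ∈ AA s := by
  induction h with
  | nil => simp [AA]
  | @cons x w s e hx _ ih =>
    rcases x with v | b
    · have hv : v = w := hx
      subst hv
      exact Finset.mem_image_of_mem _ ih
    · exact Finset.mem_image.2 ⟨(w, e), Finset.mem_product.2 ⟨Finset.mem_univ _, ih⟩, rfl⟩

theorem mem_BB {X X' C : Finset V} (hC : ∀ v, v ∉ C → (v ∈ X ↔ v ∈ X'))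
    {s : List (Slot V)} {e : List V} (h : List.Forall₂ (Fit X') s e) :
    e ∈ BB C s ∨ List.Forall₂ (Fit X) s e := by
  induction h with
  | nil => exact Or.inr List.Forall₂.nil
  | @cons x w s e hx hs ih =>
    rcases x with v | b
    · have hv : v = w := hx
      subst hv
      rcases ih with ih | ih
      · exact Or.inl (Finset.mem_image_of_mem _ ih)
      · exact Or.inr (List.Forall₂.cons rfl ih)
    · by_cases hw : w ∈ C
      · left
        apply Finset.mem_union_left
        exact Finset.mem_image.2 ⟨(w, e), Finset.mem_product.2 ⟨hw, mem_AA hs⟩, rfl⟩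
      · rcases ih with ih | ih
        · left
          apply Finset.mem_union_right
          exact Finset.mem_image.2 ⟨(w, e), Finset.mem_product.2 ⟨Finset.mem_univ _, ih⟩, rfl⟩
        · right
          refine List.Forall₂.cons ?_ ih
          have h1 : w ∈ X' ↔ b = true := hx
          exact (hC w hw).trans h1

theorem oks {H : Finset (Finset V)} {X X' C : Finset V} {k : ℕ} {ε : ℝ}
    (hC : ∀ v, v ∉ C → (v ∈ X ↔ v ∈ X')) (hε : 0 < ε)
    (hk : (k : ℝ) * (C.card : ℝ) ≤ ε * (Fintype.card V : ℝ)) {s : List (Slot V)}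
    (hs : s.length = k) (h : OKs H X ε s) : OKs H X' (2 * ε) s := by
  unfold OKs at h ⊢
  have hfin : (BadC H X s).Finite := by
    apply Set.Finite.subset (AA s).finite_toSet
    rintro e ⟨he, _⟩
    exact mem_AA he
  have hsub : BadC H X' s ⊆ BadC H X s ∪ (BB C s : Set (List V)) := by
    rintro e ⟨he, hn, hH⟩
    rcases mem_BB hC he with h1 | h1
    · exact Or.inr h1
    · exact Or.inl ⟨h1, hn, hH⟩
  have h1 : (BadC H X' s).ncard ≤ (BadC H X s).ncard + (BB C s).card := by
    refine le_trans (Set.ncard_le_ncard hsub (hfin.union (BB C s).finite_toSet)) ?_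
    refine le_trans (Set.ncard_union_le _ _) ?_
    rw [Set.ncard_coe_finset]
  have h2 : ((BB C s).card : ℝ) ≤ ε * (Fintype.card V : ℝ) ^ fr s := by
    have h3 := card_BB C s
    have hfr : fr s ≤ k := by
      rw [← hs]
      exact List.countP_le_length
    rcases Nat.eq_zero_or_pos (Fintype.card V) with h0 | h0
    · have hC0 : C.card = 0 := by
        have := Finset.card_le_univ C
        omega
      have hB : (BB C s).card = 0 := by
        by_contra hne
        obtain ⟨e, he⟩ := Finset.card_pos.1 (Nat.pos_of_ne_zero hne)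
        have hV : IsEmpty V := Fintype.card_eq_zero_iff.1 h0
        have : ∀ t : List (Slot V), BB C t = ∅ := by
          intro t
          cases t with
          | nil => rfl
          | cons x t =>
            rcases x with v | b
            · exact hV.elim v
            · simp [BB, Finset.card_eq_zero.1 hC0, Finset.univ_eq_empty]
        rw [this s] at he
        exact absurd he (Finset.notMem_empty _)
      rw [hB, Nat.cast_zero]
      positivity
    · have hn : (0 : ℝ) < (Fintype.card V : ℝ) := by exact_mod_cast h0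
      have h4 : (Fintype.card V : ℝ) * ((BB C s).card : ℝ) ≤
          (fr s : ℝ) * (C.card : ℝ) * (Fintype.card V : ℝ) ^ fr s := by exact_mod_cast h3
      have h5 : (fr s : ℝ) * (C.card : ℝ) ≤ ε * (Fintype.card V : ℝ) := by
        refine le_trans (mul_le_mul_of_nonneg_right ?_ (Nat.cast_nonneg _)) hk
        exact_mod_cast hfr
      have h6 : (Fintype.card V : ℝ) * ((BB C s).card : ℝ) ≤
          (Fintype.card V : ℝ) * (ε * (Fintype.card V : ℝ) ^ fr s) := by
        refine le_trans h4 ?_
        refine le_trans (mul_le_mul_of_nonneg_right h5 (by positivity)) (le_of_eq ?_)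
        ring
      exact le_of_mul_le_mul_left h6 hn
  have h7 : ((BadC H X' s).ncard : ℝ) ≤ ((BadC H X s).ncard : ℝ) + ((BB C s).card : ℝ) := by
    exact_mod_cast h1
  linarith

theorem okl {H : Finset (Finset V)} {X X' C : Finset V} {k : ℕ} {ε : ℝ}
    (hC : ∀ v, v ∉ C → (v ∈ X ↔ v ∈ X')) (hε : 0 < ε)
    (hk : (k : ℝ) * (C.card : ℝ) ≤ ε * (Fintype.card V : ℝ)) {L : List (Slot V)}
    (h : OKl H X k ε L) : OKl H X' k (2 * ε) L :=
  fun s hs hl => oks hC hε hk hl (h s hs hl)

theorem map_eq {X X' : Finset V} {l : List V} (h : ∀ v ∈ l, (v ∈ X ↔ v ∈ X')) :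
    l.map (fun v => decide (v ∈ X')) = l.map (fun v => decide (v ∈ X)) := by
  apply List.map_congr_left
  intro v hv
  exact decide_eq_decide.2 (h v hv).symm

theorem g17 : StmtG17 := by
  intro V _ _ H X X' C k ε hC hε hk
  refine ⟨?_, ?_⟩
  · intro K K₀ uL c uR hK h Z hZ
    obtain ⟨l, hnd, hl, hm, hok⟩ := h (Z ∪ C) (by
      have := Finset.card_union_le Z C
      omega)
    refine ⟨l, hnd, fun v hv hvZ => hl v hv (Finset.mem_union_left _ hvZ), ?_,
      okl hC hε hk hok⟩
    rw [← hm]
    exact map_eq (fun v hv => hC v (fun hvC => hl v hv (Finset.mem_union_right _ hvC)))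
  · intro κ κ' z m m' uL uR hκ h Z hZ hzZ
    obtain ⟨l₁, l₂, h1, h2, hnd, hl, hok⟩ := h ((Z ∪ C).erase z) (by
      have h3 : (((Z ∪ C).erase z).card : ℝ) ≤ (Z.card : ℝ) + (C.card : ℝ) := by
        have h4 : ((Z ∪ C).erase z).card ≤ Z.card + C.card :=
          le_trans (Finset.card_erase_le) (Finset.card_union_le Z C)
        exact_mod_cast h4
      linarith) (Finset.notMem_erase z _)
    have hne : ∀ u ∈ l₁ ++ z :: l₂, u ≠ z → u ∉ Z ∪ C := by
      intro u hu huz huZ
      exact hl u hu (Finset.mem_erase.2 ⟨huz, huZ⟩)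
    have hz1 : z ∉ l₁ := by
      intro hz
      exact (List.nodup_append.1 hnd).2.2 z hz z List.mem_cons_self rfl
    have hz2 : z ∉ l₂ := by
      have := (List.nodup_append.1 hnd).2.1
      exact (List.nodup_cons.1 this).1
    refine ⟨l₁ ++ z :: l₂, hnd, List.mem_append_right _ List.mem_cons_self, ?_, ?_,
      okl hC hε hk hok⟩
    · intro v hv hvZ
      by_cases hvz : v = z
      · rw [hvz] at hvZ
        exact hzZ hvZ
      · exact hne v hv hvz (Finset.mem_union_left _ hvZ)
    · rw [List.map_append, List.map_cons]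
      have e1 : l₁.map (fun v => decide (v ∈ X')) = m := by
        rw [← h1]
        apply map_eq
        intro v hv
        apply hC
        intro hvC
        refine hne v (List.mem_append_left _ hv) ?_ (Finset.mem_union_right _ hvC)
        rintro rfl
        exact hz1 hv
      have e2 : l₂.map (fun v => decide (v ∈ X')) = m' := by
        rw [← h2]
        apply map_eq
        intro v hv
        apply hC
        intro hvC
        refine hne v (List.mem_append_right _ (List.mem_cons_of_mem _ hv)) ?_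
          (Finset.mem_union_right _ hvC)
        rintro rfl
        exact hz2 hv
      rw [e1, e2]

end Pool.Agent.KK.E.H3c
end
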