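import Pool.Agent.KKM.Base

/-! # MP_747bc0_co, merged modules -/

/-! ### Helper69_KK.PLT -/
section
/-! MP_747bc0_co, block B: PLT (plane trichotomy). -/

namespace Pool.Agent.KK.B.H69

open Function
open scoped Classical
open Pool.Agent.KK.B

section general

variable {V : Type} [Fintype V]

theorem exists_le_of_prod {α β : Type*} [Fintype α] [Fintype β] [Nonempty α] {Q : α → β → Prop}
    {t : ℝ} (h : dens (fun x : α × β => Q x.1 x.2) ≤ t) : ∃ a, dens (Q a) ≤ t := by
  by_contra hc
  push Not at hc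
  rw [dens_prod] at h
  have h1 : (0 : ℝ) < Fintype.card α := by exact_mod_cast Fintype.card_pos
  rw [div_le_iff₀ h1] at h
  have h2 : ∑ _a : α, t < ∑ a, dens (Q a) :=
    Finset.sum_lt_sum_of_nonempty Finset.univ_nonempty fun a _ => hc a
  rw [Finset.sum_const, nsmul_eq_mul, Finset.card_univ] at h2
  linarith [mul_comm (Fintype.card α : ℝ) t]

theorem dens_swap {α β : Type*} [Fintype α] [Fintype β] (Q : α → β → Prop) :
    dens (fun x : β × α => Q x.2 x.1) = dens (fun x : α × β => Q x.1 x.2) :=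
  dens_equiv (Equiv.prodComm β α) (fun x : α × β => Q x.1 x.2)

/-- few points have a bad line -/
theorem dens_bad {α γ : Type*} [Fintype α] [Fintype γ] {Q : α → γ → Prop} {β : ℝ} (hβ : 0 < β)
    (h : dens (fun x : α × γ => Q x.1 x.2) ≤ β ^ 2) : dens (fun a => β < dens (Q a)) ≤ β := by
  have h1 := markov Q β
  have h2 : dens (fun a => β < dens (Q a)) * β ≤ β * β := by nlinarith
  exact le_of_mul_le_mul_right h2 hβ

theorem half_le [Nonempty V] {A B : V → Prop} {G : V → V → Prop} {β : ℝ} (hβ : 0 < β)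
    (hG : ∀ p, 1 / 2 ≤ dens (G p))
    (h : dens (fun x : V × V => G x.1 x.2 ∧ ¬ (A x.1 ↔ B x.2)) ≤ β ^ 2) (hA : β < dens A) :
    1 / 2 ≤ β + dens B := by
  have h1 := dens_bad (Q := fun p q => G p q ∧ ¬ (A p ↔ B q)) hβ h
  have h2 : ∃ p, A p ∧ ¬ β < dens (fun q => G p q ∧ ¬ (A p ↔ B q)) := by
    by_contra hc
    have h3 : dens A ≤ dens (fun p => β < dens (fun q => G p q ∧ ¬ (A p ↔ B q))) :=
      dens_mono fun p hp => by_contra fun h' => hc ⟨p, hp, h'⟩
    linarith
  obtain ⟨p, hp, hb⟩ := h2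
  rw [not_lt] at hb
  have h3 := hG p
  have h4 : dens (G p) ≤ dens (fun q => B q ∨ (G p q ∧ ¬ (A p ↔ B q))) := dens_mono fun q hq => by
    by_cases hB : B q
    · exact Or.inl hB
    · exact Or.inr ⟨hq, fun h5 => hB (h5.1 hp)⟩
  have h5 := dens_or_le B (fun q => G p q ∧ ¬ (A p ↔ B q))
  linarith

theorem line_three [Nonempty V] {B G : V → Prop} {β : ℝ} (hG : 1 / 2 ≤ dens G)
    (hB : dens B ≤ 1 / 2 + β) (h : dens (fun q => G q ∧ ¬ B q) ≤ β) :
    dens (fun q => ¬ (G q ↔ B q)) ≤ 3 * β := by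
  have h1 := dens_split G B
  have h2 := dens_split B G
  have h3 : dens (fun q => B q ∧ G q) = dens (fun q => G q ∧ B q) := dens_congr fun q => and_comm
  have h4 : dens (fun q => ¬ (G q ↔ B q)) ≤ dens (fun q => (G q ∧ ¬ B q) ∨ (B q ∧ ¬ G q)) :=
    dens_mono fun q hq => by tauto
  have h5 := dens_or_le (fun q => G q ∧ ¬ B q) (fun q => B q ∧ ¬ G q)
  linarith

/-- the last case -/
theorem last_case [Nonempty V] {A B : V → Prop} {G : V → V → Prop} {β : ℝ} (hβ : 0 < β)
    (hsym : ∀ p q, G p q ↔ G q p) (hG : ∀ p, 1 / 2 ≤ dens (G p))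
    (h : dens (fun x : V × V => G x.1 x.2 ∧ ¬ (A x.1 ↔ B x.2)) ≤ β ^ 2)
    (hB : |dens B - 1 / 2| ≤ β) : pm (8 * β) A B := by
  rw [abs_le] at hB
  have hbad := dens_bad (Q := fun p q => G p q ∧ ¬ (A p ↔ B q)) hβ h
  have hnB : dens (fun q => ¬ B q) ≤ 1 / 2 + β := by
    rw [dens_not]; linarith [hB.1]
  -- the plane
  have h4 : dens (fun x : V × V => ¬ (G x.1 x.2 ↔ (A x.1 ↔ B x.2))) ≤ 4 * β := by
    have h5 : dens (fun x : V × V => ¬ (G x.1 x.2 ↔ (A x.1 ↔ B x.2))) ≤
        dens (fun x : V × V => (β < dens (fun q => G x.1 q ∧ ¬ (A x.1 ↔ B q))) ∨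
          (dens (fun q => G x.1 q ∧ ¬ (A x.1 ↔ B q)) ≤ β ∧
            ¬ (G x.1 x.2 ↔ (A x.1 ↔ B x.2)))) := dens_mono fun x hx => by
      rcases lt_or_ge β (dens (fun q => G x.1 q ∧ ¬ (A x.1 ↔ B q))) with h6 | h6
      · exact Or.inl h6
      · exact Or.inr ⟨h6, hx⟩
    have h6 := dens_or_le (fun x : V × V => β < dens (fun q => G x.1 q ∧ ¬ (A x.1 ↔ B q)))
      (fun x : V × V => dens (fun q => G x.1 q ∧ ¬ (A x.1 ↔ B q)) ≤ β ∧
            ¬ (G x.1 x.2 ↔ (A x.1 ↔ B x.2)))
    have h7 : dens (fun x : V × V => β < dens (fun q => G x.1 q ∧ ¬ (A x.1 ↔ B q))) ≤ β := by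
      rw [dens_fst (β := V) (fun p : V => β < dens (fun q => G p q ∧ ¬ (A p ↔ B q)))]
      exact hbad
    have h8 : dens (fun x : V × V => dens (fun q => G x.1 q ∧ ¬ (A x.1 ↔ B q)) ≤ β ∧
            ¬ (G x.1 x.2 ↔ (A x.1 ↔ B x.2))) ≤ 3 * β := by
      refine dens_prod_le (Q := fun p r => dens (fun q => G p q ∧ ¬ (A p ↔ B q)) ≤ β ∧
            ¬ (G p r ↔ (A p ↔ B r))) (by linarith) fun p => ?_
      by_cases hb : dens (fun q => G p q ∧ ¬ (A p ↔ B q)) ≤ β
      · by_cases hA : A p
        · have h9 := line_three (B := B) (β := β) (hG p) (by linarith [hB.2]) (by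
            refine le_trans (dens_mono fun q hq => ?_) hb
            tauto)
          refine le_trans (dens_mono fun q hq => ?_) h9
          tauto
        · have h9 := line_three (B := fun q => ¬ B q) (β := β) (hG p) hnB (by
            refine le_trans (dens_mono fun q hq => ?_) hb
            tauto)
          refine le_trans (dens_mono fun q hq => ?_) h9
          tauto
      · have h9 : dens (fun r => dens (fun q => G p q ∧ ¬ (A p ↔ B q)) ≤ β ∧
            ¬ (G p r ↔ (A p ↔ B r))) ≤ dens (fun _ : V => False) :=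
          dens_mono fun r hr => hb hr.1
        rw [dens_false] at h9
        linarith
    linarith
  have h5 : dens (fun x : V × V => ¬ (G x.2 x.1 ↔ (A x.2 ↔ B x.1))) ≤ 4 * β := by
    rw [dens_swap (fun p q => ¬ (G p q ↔ (A p ↔ B q)))]
    exact h4
  have h6 : dens (fun x : V × V => ¬ ((A x.1 ↔ B x.1) ↔ (A x.2 ↔ B x.2))) ≤ 8 * β := by
    have h7 := dens_or_le (fun x : V × V => ¬ (G x.1 x.2 ↔ (A x.1 ↔ B x.2)))
      (fun x : V × V => ¬ (G x.2 x.1 ↔ (A x.2 ↔ B x.1)))
    have h8 : dens (fun x : V × V => ¬ ((A x.1 ↔ B x.1) ↔ (A x.2 ↔ B x.2))) ≤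
        dens (fun x : V × V => ¬ (G x.1 x.2 ↔ (A x.1 ↔ B x.2)) ∨
          ¬ (G x.2 x.1 ↔ (A x.2 ↔ B x.1))) := dens_mono fun x hx => by
      have h9 := hsym x.1 x.2
      tauto
    linarith
  obtain ⟨p, hp⟩ := exists_le_of_prod (Q := fun p q => ¬ ((A p ↔ B p) ↔ (A q ↔ B q))) h6
  by_cases hc : A p ↔ B p
  · left
    refine le_trans (dens_mono fun q hq => ?_) hp
    tauto
  · right
    refine le_trans (dens_mono fun q hq => ?_) hp
    tauto

end general

theorem plt : PltStmt := by
  intro k V _ _ E D β a i l hβ hβ1 hS hD hil hpl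
  set G : V → V → Prop := fun p q => E (update (update a l p) i q) with hGdef
  set A : V → Prop := fun p => D i (update a l p) with hAdef
  set B : V → Prop := fun q => D l (update a i q) with hBdef
  have hG : ∀ p, 1 / 2 ≤ dens (G p) := fun p => hD (update a l p) i
  have hcomm : ∀ p q, update (update a l p) i q = update (update a i q) l p := fun p q =>
    (update_comm hil q p a).symm
  have hsym : ∀ p q, G p q ↔ G q p := by
    intro p q
    have h1 := hS (Equiv.swap i l) (update (update a l p) i q)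
    have h2 : update (update a l p) i q ∘ Equiv.swap i l = update (update a l q) i p := by
      funext x
      rw [comp_apply]
      by_cases hx : x = i
      · subst hx
        rw [Equiv.swap_apply_left, update_self, update_of_ne hil.symm, update_self]
      · by_cases hx' : x = l
        · subst hx'
          rw [Equiv.swap_apply_right, update_self, update_of_ne hx, update_self]
        · rw [Equiv.swap_apply_of_ne_of_ne hx hx', update_of_ne hx, update_of_ne hx',
            update_of_ne hx, update_of_ne hx']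
    rw [h2] at h1
    exact h1.symm
  have hp : dens (fun x : V × V => G x.1 x.2 ∧ ¬ (A x.1 ↔ B x.2)) ≤ β ^ 2 := hpl
  have hp' : dens (fun x : V × V => G x.1 x.2 ∧ ¬ (B x.1 ↔ A x.2)) ≤ β ^ 2 := by
    have h1 := dens_swap (fun p q => G p q ∧ ¬ (A p ↔ B q))
    rw [← h1] at hp
    refine le_trans (dens_mono fun x hx => ?_) hp
    have h2 := hsym x.1 x.2
    tauto
  have hpn : dens (fun x : V × V => G x.1 x.2 ∧ ¬ ((¬ A x.1) ↔ (¬ B x.2))) ≤ β ^ 2 :=
    le_trans (dens_mono fun x hx => by tauto) hp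
  have hpn' : dens (fun x : V × V => G x.1 x.2 ∧ ¬ ((¬ B x.1) ↔ (¬ A x.2))) ≤ β ^ 2 :=
    le_trans (dens_mono fun x hx => by tauto) hp'
  have e1 : β < dens A → 1 / 2 ≤ β + dens B := half_le hβ hG hp
  have e2 : β < dens B → 1 / 2 ≤ β + dens A := half_le hβ hG hp'
  have e3 : β < dens (fun p => ¬ A p) → 1 / 2 ≤ β + dens (fun p => ¬ B p) := half_le hβ hG hpn
  have e4 : β < dens (fun p => ¬ B p) → 1 / 2 ≤ β + dens (fun p => ¬ A p) := half_le hβ hG hpn'
  change (dens A ≤ β ∧ dens B ≤ β) ∨ (dens (fun p => ¬ A p) ≤ β ∧ dens (fun q => ¬ B q) ≤ β) ∨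
    (((1 / 4 : ℝ) ≤ dens A ∧ dens A ≤ 3 / 4) ∧ |dens A - 1 / 2| ≤ β ∧ |dens B - 1 / 2| ≤ β ∧
      pm (8 * β) A B)
  by_cases c1 : dens A ≤ β
  · left
    refine ⟨c1, ?_⟩
    by_contra h1
    rw [not_le] at h1
    linarith [e2 h1]
  · by_cases c2 : dens (fun p => ¬ A p) ≤ β
    · right; left
      refine ⟨c2, ?_⟩
      by_contra h1
      rw [not_le] at h1
      linarith [e4 h1]
    · right; right
      rw [not_le] at c1 c2
      have f1 := e1 c1
      have f2 := e3 c2
      rw [dens_not] at f2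
      have f3 := e2 (by linarith)
      have f4 := e4 (by rw [dens_not]; linarith)
      rw [dens_not] at f4
      have g1 : |dens A - 1 / 2| ≤ β := by rw [abs_le]; constructor <;> linarith
      have g2 : |dens B - 1 / 2| ≤ β := by rw [abs_le]; constructor <;> linarith
      exact ⟨⟨by linarith, by linarith⟩, g1, g2, last_case hβ hsym hG hp g2⟩

end Pool.Agent.KK.B.H69
end

/-! ### Helper65_KK.BCLU -/
section
/-!
# Squad KK, row B_CLU: the class of all states is indecomposable
-/

set_option autoImplicit false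

open scoped BigOperators

namespace Pool.Agent.KK.B.H65

open Function
open scoped Classical

theorem clu (aug : AugStmt) (cnv : CnvStmt) (cnc : CncStmt) : CluStmt := by
  intro d V _ _ _ H c0 ν β ε hU hDi hε hβ hc0 htriv D _
  have hn : (0 : ℝ) < Fintype.card V := by exact_mod_cast Fintype.card_pos
  have hpow : (0 : ℝ) < (Fintype.card V : ℝ) ^ (d + 2) := by positivity
  have hpow1 : (0 : ℝ) < (Fintype.card V : ℝ) ^ (d + 1) := by positivity
  by_cases h : ε * (Fintype.card V : ℝ) ^ (d + 2) ≤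
      ({p : Sta V d × Sta V d | p.1 ∈ D ∧ p.2 ∈ Set.univ \ D ∧ St H p.1 p.2}.ncard : ℝ)
  · exact Or.inl h
  right
  have h1 : stp H D (Set.univ \ D) < ε * (Fintype.card V : ℝ) ^ (d + 2) := not_le.1 h
  have h2 : stp H (Set.univ : Set (Sta V d)) (Set.univ : Set (Sta V d))ᶜ = 0 := by
    unfold stp
    have h3 : {p : Sta V d × Sta V d | p.1 ∈ (Set.univ : Set (Sta V d)) ∧
        p.2 ∈ (Set.univ : Set (Sta V d))ᶜ ∧ St H p.1 p.2} = ∅ := by
      ext p
      constructor
      · rintro ⟨-, h4, -⟩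
        exact absurd (Set.mem_univ _) h4
      · intro h4
        exact absurd h4 (Set.notMem_empty _)
    rw [h3, Set.ncard_empty, Nat.cast_zero]
  have h3 := cnc d V H Set.univ hU D (Set.subset_univ _)
  have h4 : dens (fun e => LE H e ∧ ¬ Mono (sys D) e) ≤ ε := by
    refine le_of_mul_le_mul_right ?_ hpow
    linarith
  obtain ⟨-, -, haug⟩ := aug d V H hU hDi
  have hcl : Closed (augE H) c0 (sys D) := by
    unfold Closed
    exact (haug (fun e => ¬ Mono (sys D) e)).trans (by linarith)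
  obtain ⟨hcnv, -⟩ := cnv d V H hU
  have hsum : ∀ A : Set (Sta V d), (∀ i, dens (sys A i) ≤ ν) →
      (A.ncard : ℝ) ≤ β * (Fintype.card V : ℝ) ^ (d + 1) := by
    intro A hA
    rw [(hcnv A).2]
    refine mul_le_mul_of_nonneg_right ?_ hpow1.le
    calc ∑ i, dens (sys A i) ≤ ∑ _i : Fin (d + 2), ν := Finset.sum_le_sum fun i _ => hA i
      _ = ((d : ℝ) + 2) * ν := by
        rw [Finset.sum_const, Finset.card_univ, Fintype.card_fin, nsmul_eq_mul]
        push_cast
        ring
      _ ≤ β := hβ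
  rcases htriv (sys D) (hcnv D).1 hcl with ht | ht
  · exact Or.inl (hsum D ht)
  · right
    refine hsum _ fun i => ?_
    refine le_trans (le_of_eq ?_) (ht i)
    refine dens_congr fun a => ?_
    unfold sys
    exact ⟨fun h => h.2, fun h => ⟨Set.mem_univ _, h⟩⟩

end Pool.Agent.KK.B.H65
end

/-! ### Helper6_KK.B_RUN -/
section
/-! Block B, row RUN: the runs of present types. -/

set_option autoImplicit false

namespace Pool.Agent.KK.B.H6

theorem end_run {F : Finset ℕ} {k m : ℕ} (hm : m ≤ k) (hmF : m ∉ F) :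
    ∃ b, m ≤ b ∧ b ≤ k ∧ (∀ t, m ≤ t → t ≤ b → t ∉ F) ∧ (b = k ∨ b + 1 ∈ F) := by
  classical
  have hex : ∃ t, m ≤ t ∧ (t = k ∨ t + 1 ∈ F) := ⟨k, hm, Or.inl rfl⟩
  refine ⟨Nat.find hex, (Nat.find_spec hex).1, Nat.find_min' hex ⟨hm, Or.inl rfl⟩, ?_,
    (Nat.find_spec hex).2⟩
  intro t h1 h2
  rcases Nat.eq_or_lt_of_le h1 with h | h
  · rw [← h]
    exact hmF
  · have h3 := Nat.find_min hex (m := t - 1) (by omega)
    intro h4
    apply h3
    refine ⟨by omega, Or.inr ?_⟩
    have : t - 1 + 1 = t := by omega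
    rw [this]
    exact h4

theorem run_list {F : Finset ℕ} {k : ℕ} (hF : ∀ j ∈ F, j + 1 ∉ F) :
    ∀ n m : ℕ, k - m = n → m ≤ k → m ∉ F →
    ∃ (q : ℕ) (a b : ℕ → ℕ), 0 < q ∧ a 0 = m ∧
      (∀ i < q, a i ≤ b i ∧ b i ≤ k ∧ ∀ j, a i ≤ j → j ≤ b i → j ∉ F) ∧
      (∀ i, i + 1 < q → a (i + 1) = b i + 2) ∧ k - 1 ≤ b (q - 1) ∧
      (∀ j, m ≤ j → j ≤ k → (∀ i < q, ¬ (a i ≤ j ∧ j ≤ b i)) → j ∈ F) := by
  intro n
  induction n using Nat.strong_induction_on with
  | _ n ih =>
    intro m hn hm hmF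
    obtain ⟨e, he1, he2, he3, he4⟩ := end_run hm hmF
    by_cases hek : e + 2 ≤ k
    · have heF : e + 1 ∈ F := by
        rcases he4 with h | h
        · omega
        · exact h
      obtain ⟨q, a, b, h1, h2, h3, h4, h5, h6⟩ := ih (k - (e + 2)) (by omega) (e + 2) rfl hek
        (hF _ heF)
      refine ⟨q + 1, fun i => if i = 0 then m else a (i - 1),
        fun i => if i = 0 then e else b (i - 1), by omega, by simp, ?_, ?_, ?_, ?_⟩
      · intro i hi
        rcases Nat.eq_zero_or_pos i with h | h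
        · simp only [h, if_true]
          exact ⟨he1, he2, he3⟩
        · have hne : i ≠ 0 := by omega
          simp only [if_neg hne]
          exact h3 _ (by omega)
      · intro i hi
        rcases Nat.eq_zero_or_pos i with h | h
        · simp [h, h2]
        · have hne : i ≠ 0 := by omega
          have hne' : i + 1 ≠ 0 := by omega
          simp only [if_neg hne, if_neg hne']
          have h7 := h4 (i - 1) (by omega)
          have h8 : i - 1 + 1 = i + 1 - 1 := by omega
          rw [h8] at h7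
          exact h7
      · have hne : q + 1 - 1 ≠ 0 := by omega
        simp only [if_neg hne]
        exact h5
      · intro j hj1 hj2 hcon
        by_cases hje : j ≤ e
        · exact absurd ⟨by simpa using hj1, by simpa using hje⟩ (hcon 0 (by omega))
        · by_cases hj : j = e + 1
          · rw [hj]
            exact heF
          · apply h6 j (by omega) hj2
            intro i hi h7
            apply hcon (i + 1) (by omega)
            simpa using h7
    · refine ⟨1, fun _ => m, fun _ => e, by omega, rfl, fun _ _ => ⟨he1, he2, he3⟩, ?_,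
        (show k - 1 ≤ e by omega), ?_⟩
      · intro i hi
        omega
      · intro j hj1 hj2 hcon
        have h1 : ¬ j ≤ e := fun h => hcon 0 (by omega) ⟨hj1, h⟩
        have h2 : j = e + 1 := by omega
        rw [h2]
        rcases he4 with h | h
        · omega
        · exact h

theorem run : RunStmt := by
  intro k F hk hFk hF hex
  classical
  obtain ⟨m, hm, hm1, hmF, hm0⟩ : ∃ m, m ≤ k ∧ m ≤ 1 ∧ m ∉ F ∧ ∀ j, j < m → j ∈ F := by
    by_cases h0 : 0 ∈ F
    · refine ⟨1, by omega, le_rfl, hF 0 h0, ?_⟩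
      intro j hj
      have : j = 0 := by omega
      rw [this]
      exact h0
    · exact ⟨0, Nat.zero_le _, by omega, h0, fun j hj => by omega⟩
  obtain ⟨q, a, b, h1, h2, h3, h4, h5, h6⟩ := run_list hF (k - m) m rfl hm hmF
  have hq : 2 ≤ q := by
    by_contra hq
    have hq1 : q = 1 := by omega
    obtain ⟨j, hj, hj1, hj2⟩ := hex
    rw [hq1] at h5
    exact (h3 0 h1).2.2 j (by omega) (by
      have : b (1 - 1) = b 0 := rfl
      omega) hj
  refine ⟨q, a, b, hq, by omega, fun i hi => (h3 i hi).1, h4, h5, (h3 (q - 1) (by omega)).2.1,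
    ?_, fun i hi => (h3 i hi).2⟩
  intro j hj hcon
  by_cases hjm : j < m
  · exact hm0 j hjm
  · exact h6 j (by omega) hj hcon

end Pool.Agent.KK.B.H6
end

/-! ### Helper41_KK.BRG -/
section
/-!
# Squad KK, block B, row BRG: the structure theorem in the language of states
-/

set_option autoImplicit false

namespace Pool.Agent.KK.B.H41

open Function
open scoped Classical

theorem fin_min (S : Finset ℝ) (f : ℝ → ℝ) (hf : ∀ y ∈ S, 0 < f y) :
    ∃ t : ℝ, 0 < t ∧ ∀ y ∈ S, t ≤ f y := by
  induction S using Finset.induction_on with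
  | empty => exact ⟨1, one_pos, fun y hy => absurd hy (Finset.notMem_empty _)⟩
  | insert a s ha ih =>
      obtain ⟨t, ht, h⟩ := ih fun y hy => hf y (Finset.mem_insert_of_mem hy)
      refine ⟨min t (f a), lt_min ht (hf a (Finset.mem_insert_self _ _)), fun y hy => ?_⟩
      rcases Finset.mem_insert.1 hy with rfl | hy
      · exact min_le_right _ _
      · exact (min_le_left _ _).trans (h y hy)

theorem dens_mul {α : Type} [Fintype α] [Nonempty α] (P : α → Prop) [DecidablePred P] :
    dens P * (Fintype.card α : ℝ) = ((Finset.univ.filter P).card : ℝ) := by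
  rw [dens_eq]
  have h : (Fintype.card α : ℝ) ≠ 0 := by exact_mod_cast Fintype.card_ne_zero
  exact div_mul_cancel₀ _ h

theorem typ_eq {V : Type} [Fintype V] [DecidableEq V] {k : ℕ} (X : V → Prop) (f : Fin k → V) :
    xc (Finset.univ.filter X) f = typ X f := by
  unfold xc typ
  refine congrArg Finset.card ?_
  ext l
  rw [Finset.mem_filter, Finset.mem_filter, Finset.mem_filter]
  exact ⟨fun h => ⟨h.1, h.2.2⟩, fun h => ⟨h.1, Finset.mem_univ _, h.2⟩⟩

theorem td_eq {V : Type} [Fintype V] [DecidableEq V] [Nonempty V] {d : ℕ} (H : Finset (Finset V))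
    (X : V → Prop) (j : ℕ) : (td H (d + 2) (Finset.univ.filter X) j : ℝ) =
      dens (fun e : Fin (d + 2) → V => LE H e ∧ typ X e = j) *
        (Fintype.card V : ℝ) ^ (d + 2) := by
  have h1 : ((Fintype.card V : ℝ)) ^ (d + 2) = (Fintype.card (Fin (d + 2) → V) : ℝ) := by
    rw [Fintype.card_fun, Fintype.card_fin]
    push_cast
    rfl
  rw [h1, dens_mul]
  unfold td
  have h2 : {f : Fin (d + 2) → V | Finset.univ.image f ∈ H ∧ xc (Finset.univ.filter X) f = j} =
      ((Finset.univ.filter fun e : Fin (d + 2) → V => LE H e ∧ typ X e = j : Finset _) :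
        Set (Fin (d + 2) → V)) := by
    ext f
    rw [Finset.mem_coe, Finset.mem_filter]
    constructor
    · rintro ⟨h3, h4⟩
      exact ⟨Finset.mem_univ _, h3, by rw [← typ_eq]; exact h4⟩
    · rintro ⟨-, h3, h4⟩
      exact ⟨h3, by rw [typ_eq]; exact h4⟩
  rw [h2, Set.ncard_coe_finset]

theorem brg : BrgStmt := by
  intro hStr hAug hCli hClu hRun hClo d β hd hβ
  have hk : (0 : ℝ) < (d : ℝ) + 2 := by positivity
  have hk2 : (0 : ℝ) < 3 * ((d : ℝ) + 2) * 2 ^ (d + 2) := by positivity
  obtain ⟨b₀, hb₀def⟩ : ∃ b₀ : ℝ, b₀ = β / (3 * ((d : ℝ) + 2) * 2 ^ (d + 2)) := ⟨_, rfl⟩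
  have hb₀ : 0 < b₀ := by rw [hb₀def]; positivity
  have hb₀β : 3 * ((d : ℝ) + 2) * 2 ^ (d + 2) * b₀ ≤ β := by
    rw [hb₀def, mul_div_cancel₀ _ hk2.ne']
  obtain ⟨h, hh, hG⟩ := hStr (d + 2) (by omega) (fun _ => b₀) (fun _ _ => hb₀)
  refine ⟨fun x => min (h (2 * x) / 4) x, fun x hx => lt_min (by
    have := hh (2 * x) (by linarith)
    linarith) hx, ?_⟩
  intro g hg
  have hd23 : (0 : ℝ) < ((d : ℝ) + 2) * ((d : ℝ) + 3) := by positivity
  obtain ⟨g', hg'def⟩ : ∃ g' : ℝ → ℝ, g' = fun y => min (1 / 8) (min (g (y / 2))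
    (h y / (4 * (((d : ℝ) + 2) * ((d : ℝ) + 3))))) := ⟨_, rfl⟩
  have hg' : ∀ x, 0 < x → 0 < g' x := by
    intro x hx
    rw [hg'def]
    have h1 := hg (x / 2) (by linarith)
    have h2 := hh x hx
    exact lt_min (by norm_num) (lt_min h1 (by positivity))
  have hg1 : ∀ y, g' y ≤ 1 / 8 := fun y => by
    rw [hg'def]
    exact min_le_left _ _
  have hg2 : ∀ y, g' y ≤ g (y / 2) := fun y => by
    rw [hg'def]
    exact (min_le_right _ _).trans (min_le_left _ _)
  have hg3 : ∀ y, ((d : ℝ) + 2) * ((d : ℝ) + 3) * g' y ≤ h y / 4 := fun y => by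
    have h1 : g' y ≤ h y / (4 * (((d : ℝ) + 2) * ((d : ℝ) + 3))) := by
      rw [hg'def]
      exact (min_le_right _ _).trans (min_le_right _ _)
    calc ((d : ℝ) + 2) * ((d : ℝ) + 3) * g' y ≤
          ((d : ℝ) + 2) * ((d : ℝ) + 3) * (h y / (4 * (((d : ℝ) + 2) * ((d : ℝ) + 3)))) :=
          mul_le_mul_of_nonneg_left h1 hd23.le
      _ = h y / 4 := by field_simp
  obtain ⟨c0, S₀, hc0, hS₀, H0⟩ := hG g' hg' (β / ((d : ℝ) + 2)) (by positivity)
  obtain ⟨t1, ht1, ht1'⟩ := fin_min S₀ (fun y => min (h y / 4) (y / 2)) (fun y hy => by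
    have h1 := (hS₀ y hy).1
    have h2 := hh y h1
    exact lt_min (by linarith) (by linarith))
  obtain ⟨t, htdef⟩ : ∃ t : ℝ, t = min t1 (c0 / 2) := ⟨_, rfl⟩
  have ht : 0 < t := by rw [htdef]; exact lt_min ht1 (by linarith)
  have htc : t ≤ c0 / 2 := by rw [htdef]; exact min_le_right _ _
  have htt : t ≤ t1 := by rw [htdef]; exact min_le_left _ _
  obtain ⟨n₀, hn₀⟩ := exists_nat_gt (((d : ℝ) + 2) ^ 2 / t)
  refine ⟨insert (c0 / 2) (S₀.image fun y => y / 2), n₀ + 1, ?_, ?_⟩
  · intro x hx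
    rcases Finset.mem_insert.1 hx with rfl | hx
    · linarith
    · obtain ⟨y, hy, rfl⟩ := Finset.mem_image.1 hx
      have := (hS₀ y hy).1
      linarith
  intro V _ _ H hn hU hD
  have hcard : 0 < Fintype.card V := by omega
  have : Nonempty V := Fintype.card_pos_iff.1 hcard
  have hcard' : (0 : ℝ) < Fintype.card V := by exact_mod_cast hcard
  have hsmall : ((d : ℝ) + 2) ^ 2 / (Fintype.card V : ℝ) ≤ t := by
    rw [div_le_iff₀ hcard']
    rw [div_lt_iff₀ ht] at hn₀
    have h1 : (n₀ : ℝ) ≤ Fintype.card V := by exact_mod_cast (by omega : n₀ ≤ Fintype.card V)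
    nlinarith
  obtain ⟨hsy, hde, hau⟩ := hAug d V H hU hD
  rcases H0 V (augE H) hsy hde with h1 | ⟨X, y, F, hy, hX, hF1, hF2, hF3, hF4, hF5, -, -, hF6⟩
  · refine ⟨c0 / 2, Finset.mem_insert_self _ _, Or.inl ?_⟩
    refine hClu d V H c0 (β / ((d : ℝ) + 2)) β _ hU hD ?_ ?_ ?_ h1
    · have := hh (2 * (c0 / 2)) (by linarith)
      exact lt_min (by linarith) (by linarith)
    · rw [mul_div_cancel₀ _ hk.ne']
    · have := min_le_right (h (2 * (c0 / 2)) / 4) (c0 / 2)
      linarith
  · refine ⟨y / 2, Finset.mem_insert_of_mem (Finset.mem_image.2 ⟨y, hy, rfl⟩), Or.inr ?_⟩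
    have hy0 := (hS₀ y hy).1
    have hty := ht1' y hy
    have hty1 : t ≤ h y / 4 := htt.trans (hty.trans (min_le_left _ _))
    have hty2 : t ≤ y / 2 := htt.trans (hty.trans (min_le_right _ _))
    obtain ⟨q, a, b, hq, ha0, hab, hgap, hb1, hb2, hmiss, hpres⟩ := hRun (d + 2) F (by omega) hF1
      hF3 hF2
    have hpow : (0 : ℝ) ≤ (Fintype.card V : ℝ) ^ (d + 2) := by positivity
    have hXc : (((Finset.univ.filter X).card : ℕ) : ℝ) = dens X * Fintype.card V :=
      (dens_mul X).symm
    have hStruc : Struc H d (Finset.univ.filter X) q a b (y / 2) (g' y) := by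
      refine ⟨hq, ha0, hab, hgap, hb1, hb2, ?_, ?_, ?_⟩
      · rw [hXc]
        have h2 : dens X * (Fintype.card V : ℝ) - Fintype.card V / 2 =
            (dens X - 1 / 2) * Fintype.card V := by ring
        rw [h2, abs_mul, abs_of_pos hcard']
        exact mul_le_mul_of_nonneg_right hX hcard'.le
      · intro j hj hj'
        have h2 := hF4 j (hmiss j hj hj')
        rw [td_eq]
        apply mul_le_mul_of_nonneg_right _ hpow
        refine le_trans (dens_mono fun e he => ?_) h2
        exact ⟨fun _ => he.1, he.2⟩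
      · intro i hi j hj hj'
        have h2 := (hpres i hi).2 j hj hj'
        have h3 := hF5 j (by
          have := (hpres i hi).1
          omega) h2
        rw [td_eq]
        apply mul_le_mul_of_nonneg_right _ hpow
        have h4 := hau (fun e => typ X e = j)
        unfold tden at h3
        linarith
    refine ⟨Finset.univ.filter X, q, a, b, ?_, ?_⟩
    · refine ⟨hStruc.two_le, hStruc.first, hStruc.le, hStruc.gap, hStruc.last1, hStruc.last2,
        hStruc.bal.trans (mul_le_mul_of_nonneg_right (hg2 y) hcard'.le), ?_, hStruc.pres⟩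
      intro j hj hj'
      exact (hStruc.miss j hj hj').trans (mul_le_mul_of_nonneg_right (hg2 y) hpow)
    · intro i hi
      have hXX : (fun v => v ∈ Finset.univ.filter X) = X := by
        funext v
        rw [Finset.mem_filter]
        exact propext ⟨fun h => h.2, fun h => ⟨Finset.mem_univ _, h⟩⟩
      have hcl := hClo d V H (Finset.univ.filter X) q a b (y / 2) (g' y) hU (hg' y hy0).le
        hStruc i hi
      refine hCli d V H (Finset.univ.filter X) F (a i) (b i) (h y) b₀ β _
        (((d : ℝ) + 2) * ((d : ℝ) + 3) * g' y) hU hD ?_ (hab i hi) (hpres i hi).1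
        (hpres i hi).2 hb₀.le ?_ hb₀β ?_ ?_ ?_
      · rw [hXX]
        exact hX.trans (hg1 y)
      · have := hh (2 * (y / 2)) (by linarith)
        exact lt_min (by linarith) (by linarith)
      · have h2 := min_le_left (h (2 * (y / 2)) / 4) (y / 2)
        have h3 : (2 : ℝ) * (y / 2) = y := by ring
        have h4 := hg3 y
        have h5 := hh y hy0
        rw [h3] at h2
        show min (h (2 * (y / 2)) / 4) (y / 2) + ((d : ℝ) + 2) * ((d : ℝ) + 3) * g' y +
          ((d : ℝ) + 2) ^ 2 / (Fintype.card V : ℝ) ≤ h y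
        rw [h3]
        linarith
      · exact hcl.1
      · rw [hXX]
        exact hF6

end Pool.Agent.KK.B.H41
end

/-! ### Helper52_KK.Cnt -/
section
/-! Squad KK: counting lemmas (helper52), used by GDC and CNF. -/

set_option autoImplicit false

open scoped BigOperators

namespace Pool.Agent.KK.H52

section fib
variable {A B : Type} [Fintype A] [Fintype B]

theorem ncard_eq (S : Set A) [DecidablePred (· ∈ S)] :
    S.ncard = (Finset.univ.filter (· ∈ S)).card := by
  rw [← Set.ncard_coe_finset]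
  congr
  ext x
  simp

/-- many choices for the first component, then many for the second -/
theorem fib_count (S : Set A) (T : A → Set B) (s t : ℝ) (ht0 : 0 ≤ t)
    (hs : s ≤ (S.ncard : ℝ)) (ht : ∀ a ∈ S, t ≤ ((T a).ncard : ℝ)) :
    s * t ≤ ({p : A × B | p.1 ∈ S ∧ p.2 ∈ T p.1}.ncard : ℝ) := by
  classical
  set S' : Finset A := Finset.univ.filter (· ∈ S) with hS'
  set T' : A → Finset B := fun a => Finset.univ.filter (· ∈ T a) with hT'
  have h1 : ∑ a ∈ S', (T' a).card ≤ {p : A × B | p.1 ∈ S ∧ p.2 ∈ T p.1}.ncard := by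
    rw [← Finset.card_sigma, ncard_eq]
    apply Finset.card_le_card_of_injOn (fun x : (Σ _ : A, B) => (x.1, x.2))
    · rintro ⟨a, b⟩ hx
      have hx' : (⟨a, b⟩ : Σ _ : A, B) ∈ S'.sigma T' := hx
      rw [Finset.mem_sigma] at hx'
      show (a, b) ∈ Finset.univ.filter (· ∈ {p : A × B | p.1 ∈ S ∧ p.2 ∈ T p.1})
      rw [Finset.mem_filter]
      exact ⟨Finset.mem_univ _, (Finset.mem_filter.mp hx'.1).2, (Finset.mem_filter.mp hx'.2).2⟩
    · rintro ⟨a, b⟩ _ ⟨a', b'⟩ _ h
      simp only [Prod.mk.injEq] at h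
      obtain ⟨rfl, rfl⟩ := h
      rfl
  calc s * t ≤ (S'.card : ℝ) * t := by
        rw [ncard_eq] at hs
        exact mul_le_mul_of_nonneg_right hs ht0
    _ = ∑ _a ∈ S', t := by rw [Finset.sum_const, nsmul_eq_mul]
    _ ≤ ∑ a ∈ S', ((T' a).card : ℝ) := by
        apply Finset.sum_le_sum
        intro a ha
        have := ht a (Finset.mem_filter.mp ha).2
        rwa [ncard_eq] at this
    _ ≤ _ := by
        rw [← Nat.cast_sum]
        exact_mod_cast h1

theorem pi_count {m : ℕ} (S : Fin m → Set A) (s : ℝ) (hs0 : 0 ≤ s)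
    (hs : ∀ i, s ≤ ((S i).ncard : ℝ)) :
    s ^ m ≤ ({f : Fin m → A | ∀ i, f i ∈ S i}.ncard : ℝ) := by
  classical
  have h1 : {f : Fin m → A | ∀ i, f i ∈ S i}.ncard =
      (Fintype.piFinset fun i => Finset.univ.filter (· ∈ S i)).card := by
    rw [← Set.ncard_coe_finset]
    congr
    ext f
    simp [Fintype.mem_piFinset]
  rw [h1, Fintype.card_piFinset, Nat.cast_prod]
  calc s ^ m = ∏ _i : Fin m, s := by simp
    _ ≤ _ := by
        apply Finset.prod_le_prod
        · intro i _; exact hs0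
        · intro i _
          have := hs i
          rwa [ncard_eq] at this

end fib

section bad
variable {V : Type} [Fintype V]

theorem eq_count (m : ℕ) (i : Fin (m + 1)) (g : (Fin m → V) → V) :
    {u : Fin (m + 1) → V | u i = g (i.removeNth u)}.ncard ≤ Fintype.card V ^ m := by
  classical
  have h : {u : Fin (m + 1) → V | u i = g (i.removeNth u)}.ncard ≤
      (Set.univ : Set (Fin m → V)).ncard := by
    apply Set.ncard_le_ncard_of_injOn (fun u => i.removeNth u)
    · intro u _
      exact Set.mem_univ _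
    · intro u hu v hv huv
      have hu' : u i = g (i.removeNth u) := hu
      have hv' : v i = g (i.removeNth v) := hv
      have huv' : i.removeNth u = i.removeNth v := huv
      rw [← Fin.insertNth_self_removeNth i u, ← Fin.insertNth_self_removeNth i v, huv', hu', hv',
        huv']
  rw [Set.ncard_univ, Nat.card_eq_fintype_card, Fintype.card_fun, Fintype.card_fin] at h
  exact h

theorem pair_count (m : ℕ) (i j : Fin (m + 1)) (hij : i ≠ j) :
    {u : Fin (m + 1) → V | u i = u j}.ncard ≤ Fintype.card V ^ m := by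
  obtain ⟨j', rfl⟩ := Fin.exists_succAbove_eq (x := j) (y := i) hij.symm
  exact eq_count m i (fun w => w j')

theorem val_count (m : ℕ) (i : Fin (m + 1)) (a : V) :
    {u : Fin (m + 1) → V | u i = a}.ncard ≤ Fintype.card V ^ m :=
  eq_count m i (fun _ => a)

/-- functions which take a value in a given set -/
theorem hit_count (m : ℕ) (Z : Finset V) :
    {u : Fin m → V | ∃ i, u i ∈ Z}.ncard ≤ m * Z.card * Fintype.card V ^ (m - 1) := by
  classical
  cases m with
  | zero =>
    have : {u : Fin 0 → V | ∃ i, u i ∈ Z} = ∅ := by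
      ext u
      simp
    rw [this]
    simp
  | succ m =>
    have h1 : {u : Fin (m + 1) → V | ∃ i, u i ∈ Z} ⊆
        ⋃ p ∈ (Finset.univ ×ˢ Z : Finset (Fin (m + 1) × V)), {u : Fin (m + 1) → V | u p.1 = p.2} := by
      rintro u ⟨i, hi⟩
      rw [Set.mem_iUnion₂]
      exact ⟨(i, u i), Finset.mem_product.mpr ⟨Finset.mem_univ _, hi⟩, rfl⟩
    calc {u : Fin (m + 1) → V | ∃ i, u i ∈ Z}.ncard
        ≤ (⋃ p ∈ (Finset.univ ×ˢ Z : Finset (Fin (m + 1) × V)),
            {u : Fin (m + 1) → V | u p.1 = p.2}).ncard :=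
          Set.ncard_le_ncard h1 (Set.toFinite _)
      _ ≤ ∑ p ∈ (Finset.univ ×ˢ Z : Finset (Fin (m + 1) × V)),
            {u : Fin (m + 1) → V | u p.1 = p.2}.ncard := Finset.set_ncard_biUnion_le _ _
      _ ≤ ∑ _p ∈ (Finset.univ ×ˢ Z : Finset (Fin (m + 1) × V)), Fintype.card V ^ m :=
          Finset.sum_le_sum fun p _ => val_count m p.1 p.2
      _ = (m + 1) * Z.card * Fintype.card V ^ (m + 1 - 1) := by
          rw [Finset.sum_const, Finset.card_product, Finset.card_univ, Fintype.card_fin,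
            smul_eq_mul, Nat.add_sub_cancel]

/-- functions with a repetition together with a given injective list -/
theorem bad_count (m k : ℕ) (y : Fin k → V) (hy : Function.Injective y) :
    {u : Fin m → V | ¬ (List.ofFn u ++ List.ofFn y).Nodup}.ncard ≤
      (m + k) ^ 2 * Fintype.card V ^ (m - 1) := by
  classical
  cases m with
  | zero =>
    have : {u : Fin 0 → V | ¬ (List.ofFn u ++ List.ofFn y).Nodup} = ∅ := by
      ext u
      simp only [List.ofFn_zero, List.nil_append, Set.mem_empty_iff_false, iff_false]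
      intro h
      exact h (List.nodup_ofFn.mpr hy)
    rw [this]
    simp
  | succ m =>
    have h1 : {u : Fin (m + 1) → V | ¬ (List.ofFn u ++ List.ofFn y).Nodup} ⊆
        (⋃ p ∈ (Finset.univ : Finset (Fin (m + 1) × Fin (m + 1))).filter (fun p => p.1 ≠ p.2),
          {u : Fin (m + 1) → V | u p.1 = u p.2}) ∪
        ⋃ p ∈ (Finset.univ : Finset (Fin (m + 1) × Fin k)), {u : Fin (m + 1) → V | u p.1 = y p.2} := by
      intro u hu
      by_contra hc
      apply hu
      rw [Set.mem_union, not_or] at hc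
      rw [List.nodup_append]
      refine ⟨?_, List.nodup_ofFn.mpr hy, ?_⟩
      · rw [List.nodup_ofFn]
        intro i j hij
        by_contra hne
        apply hc.1
        rw [Set.mem_iUnion₂]
        exact ⟨(i, j), Finset.mem_filter.mpr ⟨Finset.mem_univ _, hne⟩, hij⟩
      · intro x hx z hz hxz
        rw [List.mem_ofFn] at hx hz
        obtain ⟨i, hi⟩ := hx
        obtain ⟨l, hl⟩ := hz
        apply hc.2
        rw [Set.mem_iUnion₂]
        exact ⟨(i, l), Finset.mem_univ _, by show u i = y l; rw [hi, hl, hxz]⟩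
    calc {u : Fin (m + 1) → V | ¬ (List.ofFn u ++ List.ofFn y).Nodup}.ncard
        ≤ _ := Set.ncard_le_ncard h1 (Set.toFinite _)
      _ ≤ _ := Set.ncard_union_le _ _
      _ ≤ (∑ p ∈ (Finset.univ : Finset (Fin (m + 1) × Fin (m + 1))).filter (fun p => p.1 ≠ p.2),
            {u : Fin (m + 1) → V | u p.1 = u p.2}.ncard) +
          ∑ p ∈ (Finset.univ : Finset (Fin (m + 1) × Fin k)),
            {u : Fin (m + 1) → V | u p.1 = y p.2}.ncard :=
          Nat.add_le_add (Finset.set_ncard_biUnion_le _ _) (Finset.set_ncard_biUnion_le _ _)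
      _ ≤ (∑ _p ∈ (Finset.univ : Finset (Fin (m + 1) × Fin (m + 1))).filter (fun p => p.1 ≠ p.2),
            Fintype.card V ^ m) +
          ∑ _p ∈ (Finset.univ : Finset (Fin (m + 1) × Fin k)), Fintype.card V ^ m :=
          Nat.add_le_add
            (Finset.sum_le_sum fun p hp => pair_count m p.1 p.2 (Finset.mem_filter.mp hp).2)
            (Finset.sum_le_sum fun p _ => val_count m p.1 (y p.2))
      _ ≤ (m + 1) * (m + 1) * Fintype.card V ^ m + (m + 1) * k * Fintype.card V ^ m := by
          rw [Finset.sum_const, Finset.sum_const, smul_eq_mul, smul_eq_mul, Finset.card_univ,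
            Fintype.card_prod, Fintype.card_fin, Fintype.card_fin]
          apply Nat.add_le_add_right
          apply Nat.mul_le_mul_right
          refine le_trans (Finset.card_filter_le _ _) ?_
          rw [Finset.card_univ, Fintype.card_prod, Fintype.card_fin]
      _ ≤ (m + 1 + k) ^ 2 * Fintype.card V ^ (m + 1 - 1) := by
          rw [Nat.add_sub_cancel, ← Nat.add_mul]
          apply Nat.mul_le_mul_right
          nlinarith

end bad

end Pool.Agent.KK.H52
end

/-! ### Helper52_KK.GDC -/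
section
/-! Squad KK, row GDC (helper52). -/

set_option autoImplicit false

open scoped BigOperators

namespace Pool.Agent.KK.H52

section defs
variable {V : Type}

/-- a piece -/
def pc {r : ℕ} (p : (Fin r → V) × (Fin r → V)) (x : V) : List V :=
  List.ofFn p.1 ++ [x] ++ List.ofFn p.2

/-- the chain of `i` -/
def wv {k : ℕ} (y z : Fin k → V) (v : Fin k → V × V × V) (i : Fin k) : Fin 5 → V :=
  ![y i, (v i).1, (v i).2.1, (v i).2.2, z i]

def ji {k : ℕ} (t : Fin (4 * k)) : Fin 4 × Fin k := finProdFinEquiv.symm t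

def prv {k : ℕ} (y z : Fin k → V) (v : Fin k → V × V × V) (t : Fin (4 * k)) : V :=
  wv y z v (ji t).2 (ji t).1.castSucc

def cur {k : ℕ} (y z : Fin k → V) (v : Fin k → V × V × V) (t : Fin (4 * k)) : V :=
  wv y z v (ji t).2 (ji t).1.succ

/-- blocks, chains, exchange tuples -/
abbrev Om (V : Type) (k : ℕ) : Type :=
  (((Fin k → V) × (Fin k → V) × (Fin k → V)) × (Fin k → V × V × V)) ×
    (Fin (4 * k) → (Fin (k - 1) → V) × (Fin (k - 1) → V))

def pcs {k : ℕ} (y : Fin k → V) (o : Om V k) : List (List V) :=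
  List.ofFn (fun t => pc (o.2 t) (cur y o.1.1.2.1 o.1.2 t)) ++
    [List.ofFn o.1.1.1 ++ List.ofFn o.1.1.2.2]

def pcq {k : ℕ} (y : Fin k → V) (o : Om V k) : List (List V) :=
  List.ofFn (fun t => pc (o.2 t) (prv y o.1.1.2.1 o.1.2 t)) ++
    [List.ofFn o.1.1.1 ++ List.ofFn o.1.1.2.1 ++ List.ofFn o.1.1.2.2]

theorem pc_len {r : ℕ} (p : (Fin r → V) × (Fin r → V)) (x : V) : (pc p x).length = 2 * r + 1 := by
  simp [pc]; omega

theorem pcs_len {k : ℕ} (y : Fin k → V) (o : Om V k) :
    (pcs y o).map List.length = gadLen k := by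
  unfold pcs gadLen
  rw [List.map_append, List.map_ofFn, List.map_singleton, ← List.ofFn_const]
  congr 1
  · congr 1
    funext t
    exact pc_len _ _
  · simp; omega

theorem flat_len {k : ℕ} (y : Fin k → V) (o : Om V k) :
    (pcs y o).flatten.length = (gadLen k).sum := by
  rw [List.length_flatten, pcs_len]

theorem pc_inj {r : ℕ} {p q : (Fin r → V) × (Fin r → V)} {x z : V} (h : pc p x = pc q z) :
    p = q ∧ x = z := by
  unfold pc at h
  have h1 := List.append_inj h (by simp)
  have h2 := List.append_inj h1.1 (by simp)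
  refine ⟨Prod.ext (List.ofFn_injective h2.1) (List.ofFn_injective h1.2), ?_⟩
  have := h2.2
  simpa using this

theorem pcs_inj {k : ℕ} (y : Fin k → V) (o o' : Om V k) (h : pcs y o = pcs y o') : o = o' := by
  unfold pcs at h
  have h1 := List.append_inj h (by simp)
  have h2 : (fun t => pc (o.2 t) (cur y o.1.1.2.1 o.1.2 t)) =
      (fun t => pc (o'.2 t) (cur y o'.1.1.2.1 o'.1.2 t)) := List.ofFn_injective h1.1
  have h3 : List.ofFn o.1.1.1 ++ List.ofFn o.1.1.2.2 = List.ofFn o'.1.1.1 ++ List.ofFn o'.1.1.2.2 := by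
    have := h1.2
    simpa using this
  have h4 := List.append_inj h3 (by simp)
  have hb1 : o.1.1.1 = o'.1.1.1 := List.ofFn_injective h4.1
  have hb3 : o.1.1.2.2 = o'.1.1.2.2 := List.ofFn_injective h4.2
  have hp : o.2 = o'.2 := by
    funext t
    exact (pc_inj (congrFun h2 t)).1
  have hc : ∀ t, cur y o.1.1.2.1 o.1.2 t = cur y o'.1.1.2.1 o'.1.2 t := fun t =>
    (pc_inj (congrFun h2 t)).2
  have hw : ∀ (j : Fin 4) (i : Fin k), wv y o.1.1.2.1 o.1.2 i j.succ =
      wv y o'.1.1.2.1 o'.1.2 i j.succ := by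
    intro j i
    have := hc (finProdFinEquiv (j, i))
    unfold cur ji at this
    rw [Equiv.symm_apply_apply] at this
    exact this
  have hb2 : o.1.1.2.1 = o'.1.1.2.1 := by
    funext i
    exact hw 3 i
  have hv : o.1.2 = o'.1.2 := by
    funext i
    exact Prod.ext (hw 0 i) (Prod.ext (hw 1 i) (hw 2 i))
  exact Prod.ext (Prod.ext (Prod.ext hb1 (Prod.ext hb2 hb3)) hv) hp

theorem pcs_flat_inj {k : ℕ} (y : Fin k → V) (o o' : Om V k)
    (h : (pcs y o).flatten = (pcs y o').flatten) : o = o' := by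
  apply pcs_inj y
  rw [List.eq_iff_flatten_eq]
  exact ⟨h, by rw [pcs_len, pcs_len]⟩

variable [DecidableEq V]

theorem count_ofFn {m : ℕ} (a : V) (f : Fin m → V) :
    (List.ofFn f).count a = ∑ i, [f i].count a := by
  induction m with
  | zero => simp
  | succ m ih =>
    rw [List.ofFn_succ, List.count_cons, Fin.sum_univ_succ, ih, List.count_singleton]
    ring

theorem count_pc {r : ℕ} (a : V) (p : (Fin r → V) × (Fin r → V)) (x : V) :
    (pc p x).count a = (List.ofFn p.1).count a + (List.ofFn p.2).count a + [x].count a := by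
  unfold pc
  rw [List.count_append, List.count_append]
  ring

theorem sum_ji {k : ℕ} (F : Fin 4 → Fin k → ℕ) :
    ∑ t : Fin (4 * k), F (ji t).1 (ji t).2 = ∑ j, ∑ i, F j i := by
  rw [← Fintype.sum_prod_type' F]
  exact Equiv.sum_comp (finProdFinEquiv (m := 4) (n := k)).symm (fun x => F x.1 x.2)

theorem perm_pcs {k : ℕ} (y : Fin k → V) (o : Om V k) :
    (pcq y o).flatten.Perm ((pcs y o).flatten ++ List.ofFn y) := by
  rw [List.perm_iff_count]
  intro a
  rw [List.count_append, List.count_flatten, List.count_flatten]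
  unfold pcs pcq
  rw [List.map_append, List.map_append, List.sum_append, List.sum_append, List.map_ofFn,
    List.map_ofFn, List.sum_ofFn, List.sum_ofFn]
  simp only [Function.comp, count_pc, List.map_cons, List.map_nil, List.sum_cons, List.sum_nil,
    List.count_append, Finset.sum_add_distrib]
  have h1 : ∑ t : Fin (4 * k), [cur y o.1.1.2.1 o.1.2 t].count a =
      ∑ j : Fin 4, ∑ i, [wv y o.1.1.2.1 o.1.2 i j.succ].count a :=
    sum_ji (fun j i => [wv y o.1.1.2.1 o.1.2 i j.succ].count a)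
  have h2 : ∑ t : Fin (4 * k), [prv y o.1.1.2.1 o.1.2 t].count a =
      ∑ j : Fin 4, ∑ i, [wv y o.1.1.2.1 o.1.2 i j.castSucc].count a :=
    sum_ji (fun j i => [wv y o.1.1.2.1 o.1.2 i j.castSucc].count a)
  have h3 : (List.ofFn y).count a = ∑ i, [wv y o.1.1.2.1 o.1.2 i 0].count a := count_ofFn a y
  have h4 : (List.ofFn o.1.1.2.1).count a = ∑ i, [wv y o.1.1.2.1 o.1.2 i 4].count a :=
    count_ofFn a _
  rw [h1, h2, h3, h4, Fin.sum_univ_four, Fin.sum_univ_four]
  have e1 : (Fin.castSucc (0 : Fin 4)) = (0 : Fin 5) := rfl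
  have e2 : (Fin.castSucc (1 : Fin 4)) = (1 : Fin 5) := rfl
  have e3 : (Fin.castSucc (2 : Fin 4)) = (2 : Fin 5) := rfl
  have e4 : (Fin.castSucc (3 : Fin 4)) = (3 : Fin 5) := rfl
  have e5 : (Fin.succ (0 : Fin 4)) = (1 : Fin 5) := rfl
  have e6 : (Fin.succ (1 : Fin 4)) = (2 : Fin 5) := rfl
  have e7 : (Fin.succ (2 : Fin 4)) = (3 : Fin 5) := rfl
  have e8 : (Fin.succ (3 : Fin 4)) = (4 : Fin 5) := rfl
  rw [e1, e2, e3, e4, e5, e6, e7, e8]
  omega

end defs

section gad
variable {V I : Type} [Fintype V] [DecidableEq V]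

theorem ends_pc {r : ℕ} (p : (Fin r → V) × (Fin r → V)) (x z : V) :
    SameEnds r (pc p x) (pc p z) := by
  have ht : ∀ x : V, (pc p x).take r = List.ofFn p.1 := by
    intro x
    unfold pc
    rw [List.append_assoc, List.take_append_of_le_length (by simp), List.take_of_length_le (by simp)]
  have hd : ∀ x : V, (pc p x).drop ((pc p x).length - r) = List.ofFn p.2 := by
    intro x
    rw [pc_len]
    unfold pc
    have : 2 * r + 1 - r = (List.ofFn p.1 ++ [x]).length := by simp; omega
    rw [this, List.drop_left]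
  exact ⟨by rw [ht, ht], by rw [hd, hd]⟩

theorem ends_block {k : ℕ} (hk : 1 ≤ k) (b z b' : Fin k → V) :
    SameEnds (k - 1) (List.ofFn b ++ List.ofFn b') (List.ofFn b ++ List.ofFn z ++ List.ofFn b') := by
  constructor
  · rw [List.append_assoc, List.take_append_of_le_length (by simp),
      List.take_append_of_le_length (by simp)]
  · have h1 : (List.ofFn b ++ List.ofFn b').length - (k - 1) =
        (List.ofFn b).length + 1 := by simp; omega
    have h2 : (List.ofFn b ++ List.ofFn z ++ List.ofFn b').length - (k - 1) =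
        (List.ofFn b ++ List.ofFn z).length + 1 := by simp; omega
    have key : ∀ l l' : List V, (l ++ l').drop (l.length + 1) = l'.drop 1 := by
      intro l l'
      rw [List.drop_append, List.drop_eq_nil_of_le (by omega), List.nil_append]
      congr 1
      omega
    rw [h1, h2, key, key]

theorem forall2_ofFn {m : ℕ} {α β : Type} (R : α → β → Prop) (f : Fin m → α) (g : Fin m → β)
    (h : ∀ t, R (f t) (g t)) : List.Forall₂ R (List.ofFn f) (List.ofFn g) := by
  induction m with
  | zero => simp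
  | succ m ih =>
    rw [List.ofFn_succ, List.ofFn_succ]
    exact List.Forall₂.cons (h 0) (ih _ _ fun t => h t.succ)

/-- exchange tuples of `x` and `z` -/
def Ex (H : Finset (Finset V)) (k : ℕ) (T : I → Set (List V)) (x z : V) :
    Set ((Fin (k - 1) → V) × (Fin (k - 1) → V)) :=
  {p | ∃ i, Seg H k (T i) (T i) (pc p x) ∧ Seg H k (T i) (T i) (pc p z)}

/-- blocks -/
def Bk (H : Finset (Finset V)) (k : ℕ) (T : I → Set (List V)) :
    Set ((Fin k → V) × (Fin k → V) × (Fin k → V)) :=
  {b | (∃ i, Seg H k (T i) (T i) (List.ofFn b.1 ++ List.ofFn b.2.2)) ∧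
    Path H k (List.ofFn b.1 ++ List.ofFn b.2.1 ++ List.ofFn b.2.2)}

/-- chains -/
def Cn (H : Finset (Finset V)) (k : ℕ) (T : I → Set (List V)) (c : ℝ) (y z : V) :
    Set (V × V × V) :=
  {v | Swp H k T c y v.1 ∧ Swp H k T c v.1 v.2.1 ∧ Swp H k T c v.2.1 v.2.2 ∧ Swp H k T c v.2.2 z}

/-- chains for all `i` -/
def TV (H : Finset (Finset V)) (k : ℕ) (T : I → Set (List V)) (c : ℝ) (y z : Fin k → V) :
    Set (Fin k → V × V × V) := {v | ∀ i, v i ∈ Cn H k T c (y i) (z i)}

/-- exchange tuples for all `t` -/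
def TP (H : Finset (Finset V)) (k : ℕ) (T : I → Set (List V)) (y z : Fin k → V)
    (v : Fin k → V × V × V) : Set (Fin (4 * k) → (Fin (k - 1) → V) × (Fin (k - 1) → V)) :=
  {p | ∀ t, p t ∈ Ex H k T (prv y z v t) (cur y z v t)}

/-- blocks with chains -/
def BV (H : Finset (Finset V)) (k : ℕ) (T : I → Set (List V)) (c : ℝ) (y : Fin k → V) :
    Set (((Fin k → V) × (Fin k → V) × (Fin k → V)) × (Fin k → V × V × V)) :=
  {q | q.1 ∈ Bk H k T ∧ q.2 ∈ TV H k T c y q.1.2.1}

/-- all choices -/
def Ch (H : Finset (Finset V)) (k : ℕ) (T : I → Set (List V)) (c : ℝ) (y : Fin k → V) :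
    Set (Om V k) := {o | o.1 ∈ BV H k T c y ∧ o.2 ∈ TP H k T y o.1.1.2.1 o.1.2}

omit [Fintype V] [DecidableEq V] in
theorem ji_cases {k : ℕ} (P : V → V → Prop) (y z : Fin k → V) (v : Fin k → V × V × V)
    (h0 : ∀ i, P (y i) (v i).1) (h1 : ∀ i, P (v i).1 (v i).2.1)
    (h2 : ∀ i, P (v i).2.1 (v i).2.2) (h3 : ∀ i, P (v i).2.2 (z i)) (t : Fin (4 * k)) :
    P (prv y z v t) (cur y z v t) := by
  unfold prv cur
  generalize (ji t).2 = i
  have : ∀ j : Fin 4, P (wv y z v i j.castSucc) (wv y z v i j.succ) := by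
    intro j
    fin_cases j
    · exact h0 i
    · exact h1 i
    · exact h2 i
    · exact h3 i
  exact this _

theorem bv_count (H : Finset (Finset V)) (k : ℕ) (T : I → Set (List V)) (c_b c₃ c_s : ℝ)
    (h₃ : 0 < c₃)
    (hb : c_b * (Fintype.card V : ℝ) ^ (3 * k) ≤ ((Bk H k T).ncard : ℝ))
    (hc : ∀ y z : V, c₃ * (Fintype.card V : ℝ) ^ 3 ≤ ((Cn H k T c_s y z).ncard : ℝ))
    (y : Fin k → V) :
    (c_b * (Fintype.card V : ℝ) ^ (3 * k)) * (c₃ * (Fintype.card V : ℝ) ^ 3) ^ k ≤
      ((BV H k T c_s y).ncard : ℝ) := by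
  have hn : (0 : ℝ) ≤ Fintype.card V := Nat.cast_nonneg _
  have h1 : ∀ b ∈ Bk H k T, (c₃ * (Fintype.card V : ℝ) ^ 3) ^ k ≤
      ((TV H k T c_s y b.2.1).ncard : ℝ) := by
    intro b _
    exact pi_count (fun i => Cn H k T c_s (y i) (b.2.1 i)) _ (by positivity)
      (fun i => hc _ _)
  exact fib_count (Bk H k T) (fun b => TV H k T c_s y b.2.1) _ _ (by positivity) hb h1

theorem ch_count (H : Finset (Finset V)) (k : ℕ) (T : I → Set (List V)) (c_b c₃ c_s : ℝ)
    (h₃ : 0 < c₃) (hs : 0 < c_s)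
    (hb : c_b * (Fintype.card V : ℝ) ^ (3 * k) ≤ ((Bk H k T).ncard : ℝ))
    (hc : ∀ y z : V, c₃ * (Fintype.card V : ℝ) ^ 3 ≤ ((Cn H k T c_s y z).ncard : ℝ))
    (y : Fin k → V) :
    (c_b * (Fintype.card V : ℝ) ^ (3 * k)) * (c₃ * (Fintype.card V : ℝ) ^ 3) ^ k *
      (c_s * (Fintype.card V : ℝ) ^ (2 * (k - 1))) ^ (4 * k) ≤ ((Ch H k T c_s y).ncard : ℝ) := by
  have hn : (0 : ℝ) ≤ Fintype.card V := Nat.cast_nonneg _
  have h1 : ∀ q ∈ BV H k T c_s y, (c_s * (Fintype.card V : ℝ) ^ (2 * (k - 1))) ^ (4 * k) ≤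
      ((TP H k T y q.1.2.1 q.2).ncard : ℝ) := by
    intro q hq
    refine pi_count (fun t => Ex H k T (prv y q.1.2.1 q.2 t) (cur y q.1.2.1 q.2 t)) _
      (by positivity) (fun t => ?_)
    exact ji_cases (fun x z => c_s * (Fintype.card V : ℝ) ^ (2 * (k - 1)) ≤
      ((Ex H k T x z).ncard : ℝ)) y q.1.2.1 q.2 (fun i => (hq.2 i).1) (fun i => (hq.2 i).2.1)
      (fun i => (hq.2 i).2.2.1) (fun i => (hq.2 i).2.2.2) t
  exact fib_count (BV H k T c_s y) (fun q => TP H k T y q.1.2.1 q.2) _ _ (by positivity)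
    (bv_count H k T c_b c₃ c_s h₃ hb hc y) h1

theorem gad_of {H : Finset (Finset V)} {k : ℕ} (hk : 1 ≤ k) {T : I → Set (List V)} {c : ℝ}
    {y : Fin k → V} {o : Om V k} (ho : o ∈ Ch H k T c y) (l : List V)
    (hl : l = (pcs y o).flatten) (hnd : (l ++ List.ofFn y).Nodup) :
    Gad H k T (gadLen k) l (List.ofFn y) := by
  have hlen : l.length = (gadLen k).sum := by rw [hl]; exact flat_len y o
  have hsp : (gadLen k).splitLengths l = pcs y o := by
    rw [List.eq_iff_flatten_eq]
    refine ⟨?_, ?_⟩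
    · rw [List.flatten_splitLengths _ _ hlen.le, hl]
    · rw [List.map_splitLengths_length _ _ hlen.ge, pcs_len]
  obtain ⟨⟨hB, hC⟩, hE⟩ := ho
  refine ⟨hnd, ?_, pcq y o, ?_, ?_⟩
  · rw [hsp]
    intro p hp
    unfold pcs at hp
    rw [List.mem_append, List.mem_ofFn] at hp
    rcases hp with ⟨t, rfl⟩ | hp
    · obtain ⟨i, _, h2⟩ := hE t
      exact ⟨i, h2⟩
    · rw [List.mem_singleton] at hp
      rw [hp]
      exact hB.1
  · rw [hsp]
    unfold pcs pcq
    apply List.rel_append
    · apply forall2_ofFn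
      intro t
      obtain ⟨i, h1, _⟩ := hE t
      exact ⟨ends_pc _ _ _, h1.1⟩
    · exact List.Forall₂.cons ⟨ends_block hk _ _ _, hB.2⟩ List.Forall₂.nil
  · rw [hl]
    exact perm_pcs y o

theorem gdc : GdcStmt := by
  intro k c_b c₃ c_s hk hb0 h₃0 hs0
  set M := (gadLen k).sum with hM
  set c₀ : ℝ := c_b * c₃ ^ k * c_s ^ (4 * k) with hc₀
  have hc₀pos : 0 < c₀ := by positivity
  have hMval : M = 3 * k + 3 * k + 2 * (k - 1) * (4 * k) := by
    rw [hM]
    unfold gadLen
    rw [List.sum_append, List.sum_replicate, List.sum_singleton, smul_eq_mul]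
    obtain ⟨r, rfl⟩ : ∃ r, k = r + 1 := ⟨k - 1, by omega⟩
    rw [Nat.add_sub_cancel]
    ring
  have hMpos : 0 < M := by rw [hMval]; omega
  obtain ⟨N, hN⟩ := exists_nat_ge (2 * ((M + k : ℕ) : ℝ) ^ 2 / c₀)
  refine ⟨c₀ / 2, N, by positivity, ?_⟩
  intro V I _ _ H T hn _ hB hC y hy
  have hnN : (N : ℝ) ≤ (Fintype.card V : ℝ) := by exact_mod_cast hn
  set n : ℝ := (Fintype.card V : ℝ) with hnd
  have hn0 : 0 ≤ n := Nat.cast_nonneg _
  have h1 := ch_count H k T c_b c₃ c_s h₃0 hs0 hB hC y
  have h2 : (c_b * n ^ (3 * k)) * (c₃ * n ^ 3) ^ k * (c_s * n ^ (2 * (k - 1))) ^ (4 * k) =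
      c₀ * n ^ M := by
    rw [mul_pow, mul_pow, ← pow_mul, ← pow_mul, hMval, pow_add, pow_add, hc₀]
    ring
  rw [← hnd, h2] at h1
  -- the functions given by the choices
  have hex : ∀ o : Om V k, ∃ u : Fin M → V, List.ofFn u = (pcs y o).flatten := by
    intro o
    have hlen : (pcs y o).flatten.length = M := flat_len y o
    have : ∀ (l : List V) (m : ℕ), l.length = m → ∃ u : Fin m → V, List.ofFn u = l := by
      rintro l m rfl
      exact ⟨l.get, List.ofFn_get l⟩
    exact this _ _ hlen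
  choose f hf using hex
  have h3 : (Ch H k T c_s y).ncard ≤
      {u : Fin M → V | ∃ o ∈ Ch H k T c_s y, List.ofFn u = (pcs y o).flatten}.ncard := by
    apply Set.ncard_le_ncard_of_injOn f
    · intro o ho
      exact ⟨o, ho, hf o⟩
    · intro o _ o' _ hoo
      apply pcs_flat_inj y
      rw [← hf o, ← hf o', hoo]
  have h4 : {u : Fin M → V | ∃ o ∈ Ch H k T c_s y, List.ofFn u = (pcs y o).flatten} ⊆
      {u : Fin M → V | Gad H k T (gadLen k) (List.ofFn u) (List.ofFn y)} ∪
      {u : Fin M → V | ¬ (List.ofFn u ++ List.ofFn y).Nodup} := by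
    rintro u ⟨o, ho, hu⟩
    by_cases hnd' : (List.ofFn u ++ List.ofFn y).Nodup
    · exact Or.inl (gad_of (by omega) ho _ hu hnd')
    · exact Or.inr hnd'
  have h5 := le_trans h3 (le_trans (Set.ncard_le_ncard h4 (Set.toFinite _))
    (Set.ncard_union_le _ _))
  have h6 := bad_count M k y hy
  have h7 : ((Ch H k T c_s y).ncard : ℝ) ≤
      ({u : Fin M → V | Gad H k T (gadLen k) (List.ofFn u) (List.ofFn y)}.ncard : ℝ) +
        ((M + k : ℕ) : ℝ) ^ 2 * n ^ (M - 1) := by
    have := le_trans h5 (Nat.add_le_add_left h6 _)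
    have h := (Nat.cast_le (α := ℝ)).mpr this
    push_cast at h ⊢
    exact h
  have h8 : ((M + k : ℕ) : ℝ) ^ 2 * n ^ (M - 1) ≤ c₀ / 2 * n ^ M := by
    have e1 : n ^ M = n * n ^ (M - 1) := by
      rw [← pow_succ']
      congr 1
      omega
    rw [e1, ← mul_assoc]
    apply mul_le_mul_of_nonneg_right _ (by positivity)
    have h9 := le_trans hN hnN
    rw [div_le_iff₀ hc₀pos] at h9
    linarith
  have h10 : c₀ / 2 * n ^ M = c₀ * n ^ M - c₀ / 2 * n ^ M := by ring
  rw [h10]
  linarith

end gad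

end Pool.Agent.KK.H52
end

/-! ### Helper52_KK.CNF -/
section
/-! Squad KK, row CNF (helper52). -/

set_option autoImplicit false

open scoped BigOperators

namespace Pool.Agent.KK.H52

theorem min_exists (g : ℕ → ℝ) (hg : ∀ m, 0 < g m) (M : ℕ) :
    ∃ x : ℝ, 0 < x ∧ ∀ m ≤ M, x ≤ g m := by
  induction M with
  | zero => exact ⟨g 0, hg 0, fun m hm => by rw [Nat.le_zero.mp hm]⟩
  | succ M ih =>
    obtain ⟨x, hx, h⟩ := ih
    refine ⟨min x (g (M + 1)), lt_min hx (hg _), fun m hm => ?_⟩
    rcases Nat.lt_or_ge m (M + 1) with h1 | h1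
    · exact le_trans (min_le_left _ _) (h m (by omega))
    · have : m = M + 1 := by omega
      rw [this]
      exact min_le_right _ _

theorem max_exists (g : ℕ → ℕ) (M : ℕ) : ∃ x : ℕ, ∀ m ≤ M, g m ≤ x := by
  induction M with
  | zero => exact ⟨g 0, fun m hm => by rw [Nat.le_zero.mp hm]⟩
  | succ M ih =>
    obtain ⟨x, h⟩ := ih
    refine ⟨max x (g (M + 1)), fun m hm => ?_⟩
    rcases Nat.lt_or_ge m (M + 1) with h1 | h1
    · exact le_trans (h m (by omega)) (le_max_left _ _)
    · have : m = M + 1 := by omega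
      rw [this]
      exact le_max_right _ _

theorem nodup_of_flatten {α : Type} {F : List (List α)} (h : F.flatten.Nodup)
    (h0 : ∀ w ∈ F, w ≠ []) : F.Nodup := by
  rw [List.nodup_flatten] at h
  have h2 := h.2
  refine List.Pairwise.imp_of_mem ?_ h2
  intro a b ha hb hab hne
  subst hne
  obtain ⟨x, hx⟩ := List.exists_mem_of_ne_nil a (h0 a ha)
  exact hab hx hx

theorem fin_set {α : Type} (F : List α) (P : α → Prop) : {w : α | w ∈ F ∧ P w}.Finite :=
  (List.finite_toSet F).subset fun _ hw => hw.1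

section
variable {V : Type} [Fintype V] [DecidableEq V]

theorem fam_step (H : Finset (Finset V)) (k m q : ℕ) (c δ : ℝ) (hk : 2 ≤ k) (hm : 0 < m)
    (hc : 0 < c) (T : Fin q → Set (List V)) (hT : ∀ i, Tup k (T i)) (Z : Finset V)
    (hZ : (m : ℝ) * Z.card ≤ c / 2 * Fintype.card V) (hq : q ≤ Fintype.card V)
    (hfam : ∀ 𝒟 : Finset (Finset (Fin m → V)), (𝒟.card : ℝ) ≤ (Fintype.card V : ℝ) ^ (2 * k - 1) →
      (∀ D ∈ 𝒟, c / 2 * (Fintype.card V : ℝ) ^ m ≤ D.card) →
      ∃ F : Finset (Fin m → V), (F.card : ℝ) ≤ δ * Fintype.card V ∧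
        (∀ u ∈ F, Function.Injective u) ∧
        (∀ u ∈ F, ∀ v ∈ F, u ≠ v → Disjoint (Set.range u) (Set.range v)) ∧
        ∀ D ∈ 𝒟, δ * (c / 2) / 8 * Fintype.card V ≤ (D ∩ F).card) :
    ∃ F : List (List V), F.flatten.Nodup ∧ (∀ w ∈ F, w.length = m) ∧
      (∀ v ∈ F.flatten, v ∉ Z) ∧ (F.length : ℝ) ≤ δ * Fintype.card V ∧
      ∀ i, ∀ a ∈ T i, ∀ b ∈ T i, c * (Fintype.card V : ℝ) ^ m ≤ con H k m a b →
        δ * (c / 2) / 8 * Fintype.card V ≤
          ({w : List V | w ∈ F ∧ Path H k (a ++ w ++ b)}.ncard : ℝ) := by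
  classical
  let X : Type := Fin q × (Fin (k - 1) → V) × (Fin (k - 1) → V)
  let D : X → Finset (Fin m → V) := fun x => Finset.univ.filter fun w =>
    Path H k (List.ofFn x.2.1 ++ List.ofFn w ++ List.ofFn x.2.2) ∧ ∀ j, w j ∉ Z
  let S : Finset X := Finset.univ.filter fun x =>
    c * (Fintype.card V : ℝ) ^ m ≤ con H k m (List.ofFn x.2.1) (List.ofFn x.2.2)
  have hcardX : Fintype.card X = q * (Fintype.card V ^ (k - 1) * Fintype.card V ^ (k - 1)) := by
    simp only [X, Fintype.card_prod, Fintype.card_fin, Fintype.card_fun]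
  have h1 : (((S.image D).card : ℕ) : ℝ) ≤ (Fintype.card V : ℝ) ^ (2 * k - 1) := by
    have : (S.image D).card ≤ Fintype.card V ^ (2 * k - 1) := by
      calc (S.image D).card ≤ S.card := Finset.card_image_le
        _ ≤ Fintype.card X := Finset.card_le_univ _
        _ = q * (Fintype.card V ^ (k - 1) * Fintype.card V ^ (k - 1)) := hcardX
        _ ≤ Fintype.card V * (Fintype.card V ^ (k - 1) * Fintype.card V ^ (k - 1)) :=
            Nat.mul_le_mul_right _ hq
        _ = Fintype.card V ^ (2 * k - 1) := by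
            rw [← pow_add, ← pow_succ']
            congr 1
            omega
    exact_mod_cast this
  have h2 : ∀ E ∈ S.image D, c / 2 * (Fintype.card V : ℝ) ^ m ≤ E.card := by
    intro E hE
    obtain ⟨x, hx, rfl⟩ := Finset.mem_image.mp hE
    have hx' := (Finset.mem_filter.mp hx).2
    have hsub : {w : Fin m → V | Path H k (List.ofFn x.2.1 ++ List.ofFn w ++ List.ofFn x.2.2)} ⊆
        (↑(D x) : Set (Fin m → V)) ∪ {w : Fin m → V | ∃ j, w j ∈ Z} := by
      intro w hw
      by_cases hz : ∃ j, w j ∈ Z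
      · exact Or.inr hz
      · push Not at hz
        refine Or.inl ?_
        rw [Finset.mem_coe, Finset.mem_filter]
        exact ⟨Finset.mem_univ _, hw, hz⟩
    have h3 := le_trans (Set.ncard_le_ncard hsub (Set.toFinite _)) (Set.ncard_union_le _ _)
    rw [Set.ncard_coe_finset] at h3
    have h4 := le_trans h3 (Nat.add_le_add_left (hit_count m Z) _)
    have h5 : (con H k m (List.ofFn x.2.1) (List.ofFn x.2.2) : ℝ) ≤
        (D x).card + m * Z.card * (Fintype.card V : ℝ) ^ (m - 1) := by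
      have := (Nat.cast_le (α := ℝ)).mpr h4
      push_cast at this
      exact this
    have h6 : (m : ℝ) * Z.card * (Fintype.card V : ℝ) ^ (m - 1) ≤
        c / 2 * (Fintype.card V : ℝ) ^ m := by
      have e1 : (Fintype.card V : ℝ) ^ m = Fintype.card V * (Fintype.card V : ℝ) ^ (m - 1) := by
        rw [← pow_succ']
        congr 1
        omega
      rw [e1, ← mul_assoc]
      exact mul_le_mul_of_nonneg_right hZ (by positivity)
    have h7 : c / 2 * (Fintype.card V : ℝ) ^ m =
        c * (Fintype.card V : ℝ) ^ m - c / 2 * (Fintype.card V : ℝ) ^ m := by ring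
    rw [h7]
    linarith
  obtain ⟨F, f1, f2, f3, f4⟩ := hfam (S.image D) h1 h2
  set F' := F.filter fun u => ∀ j, u j ∉ Z with hF'
  refine ⟨F'.toList.map List.ofFn, ?_, ?_, ?_, ?_, ?_⟩
  · rw [List.nodup_flatten]
    constructor
    · intro l hl
      obtain ⟨u, hu, rfl⟩ := List.mem_map.mp hl
      rw [Finset.mem_toList] at hu
      rw [List.nodup_ofFn]
      exact f2 u (Finset.mem_filter.mp hu).1
    · rw [List.pairwise_map]
      refine List.Pairwise.imp_of_mem ?_ F'.nodup_toList
      intro u v hu hv huv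
      rw [Finset.mem_toList] at hu hv
      have := f3 u (Finset.mem_filter.mp hu).1 v (Finset.mem_filter.mp hv).1 huv
      intro x hx hx2
      rw [List.mem_ofFn] at hx hx2
      exact Set.disjoint_left.mp this hx hx2
  · intro w hw
    obtain ⟨u, _, rfl⟩ := List.mem_map.mp hw
    exact List.length_ofFn
  · intro v hv
    rw [List.mem_flatten] at hv
    obtain ⟨l, hl, hvl⟩ := hv
    obtain ⟨u, hu, rfl⟩ := List.mem_map.mp hl
    rw [Finset.mem_toList] at hu
    rw [List.mem_ofFn] at hvl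
    obtain ⟨j, rfl⟩ := hvl
    exact (Finset.mem_filter.mp hu).2 j
  · rw [List.length_map, Finset.length_toList]
    have : (F'.card : ℝ) ≤ F.card := by exact_mod_cast Finset.card_filter_le _ _
    linarith
  · intro i a ha b hb hab
    have hla := (hT i a ha).1
    have hlb := (hT i b hb).1
    have hex : ∀ (l : List V), l.length = k - 1 → ∃ u : Fin (k - 1) → V, List.ofFn u = l := by
      intro l hl
      have : ∀ (l : List V) (m : ℕ), l.length = m → ∃ u : Fin m → V, List.ofFn u = l := by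
        rintro l m rfl
        exact ⟨l.get, List.ofFn_get l⟩
      exact this l _ hl
    obtain ⟨a', rfl⟩ := hex a hla
    obtain ⟨b', rfl⟩ := hex b hlb
    have hS : ((i, a', b') : X) ∈ S := Finset.mem_filter.mpr ⟨Finset.mem_univ _, hab⟩
    have h3 := f4 _ (Finset.mem_image_of_mem D hS)
    refine le_trans h3 ?_
    have h4 : ((D (i, a', b') ∩ F).image List.ofFn).card = (D (i, a', b') ∩ F).card :=
      Finset.card_image_of_injective _ List.ofFn_injective
    rw [← h4, ← Set.ncard_coe_finset]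
    have h5 : (↑((D (i, a', b') ∩ F).image List.ofFn) : Set (List V)) ⊆
        {w : List V | w ∈ F'.toList.map List.ofFn ∧
          Path H k (List.ofFn a' ++ w ++ List.ofFn b')} := by
      intro w hw
      rw [Finset.mem_coe, Finset.mem_image] at hw
      obtain ⟨u, hu, rfl⟩ := hw
      rw [Finset.mem_inter] at hu
      have hu1 := (Finset.mem_filter.mp hu.1).2
      refine ⟨List.mem_map.mpr ⟨u, ?_, rfl⟩, hu1.1⟩
      rw [Finset.mem_toList, hF', Finset.mem_filter]
      exact ⟨hu.2, hu1.2⟩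
    exact_mod_cast Set.ncard_le_ncard h5 (fin_set _ _)

end

theorem cnf (hF : FamStmt) : CnfStmt := by
  intro k M q c hk hc
  -- parameters of FAM
  have hg : ∀ m : ℕ, ∃ g : ℝ, 0 < g ∧ (0 < m → ∀ γ : ℝ, 0 < γ → γ ≤ g →
    ∃ n₀ : ℕ, ∀ (V : Type) [Fintype V] [DecidableEq V], n₀ ≤ Fintype.card V →
    ∀ 𝒟 : Finset (Finset (Fin m → V)), (𝒟.card : ℝ) ≤ (Fintype.card V : ℝ) ^ (2 * k - 1) →
      (∀ D ∈ 𝒟, c / 2 * (Fintype.card V : ℝ) ^ m ≤ D.card) →
      ∃ F : Finset (Fin m → V), (F.card : ℝ) ≤ γ * Fintype.card V ∧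
        (∀ u ∈ F, Function.Injective u) ∧
        (∀ u ∈ F, ∀ v ∈ F, u ≠ v → Disjoint (Set.range u) (Set.range v)) ∧
        ∀ D ∈ 𝒟, γ * (c / 2) / 8 * Fintype.card V ≤ (D ∩ F).card) := by
    intro m
    by_cases hm : 0 < m
    · obtain ⟨g, hg, h⟩ := hF m (2 * k - 1) (c / 2) hm (by positivity)
      exact ⟨g, hg, fun _ => h⟩
    · exact ⟨1, one_pos, fun h => absurd h hm⟩
  choose g hg0 hg1 using hg
  obtain ⟨x, hx0, hx⟩ := min_exists g hg0 M
  set K : ℝ := (M : ℝ) + 1 with hK
  have hK1 : 1 ≤ K := by rw [hK]; have : (0:ℝ) ≤ M := Nat.cast_nonneg _; linarith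
  have hK0 : 0 < K := by linarith
  set c' : ℝ := c / (16 * K ^ 2) with hc'
  have hc'0 : 0 < c' := by positivity
  set γ₀ : ℝ := min x (c / (4 * K)) with hγ₀
  have hγ₀0 : 0 < γ₀ := lt_min hx0 (by positivity)
  refine ⟨c', γ₀, hc'0, hγ₀0, ?_⟩
  intro γ hγ hγle
  set δ : ℝ := γ / K ^ 2 with hδ
  have hδ0 : 0 < δ := by positivity
  have hδγ : δ ≤ γ := by
    rw [hδ, div_le_iff₀ (by positivity)]
    have : (1:ℝ) ≤ K ^ 2 := one_le_pow₀ hK1
    nlinarith
  have hδx : δ ≤ x := le_trans hδγ (le_trans hγle (min_le_left _ _))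
  have hn : ∀ m : ℕ, ∃ n₀ : ℕ, 0 < m → m ≤ M → ∀ (V : Type) [Fintype V] [DecidableEq V],
      n₀ ≤ Fintype.card V →
    ∀ 𝒟 : Finset (Finset (Fin m → V)), (𝒟.card : ℝ) ≤ (Fintype.card V : ℝ) ^ (2 * k - 1) →
      (∀ D ∈ 𝒟, c / 2 * (Fintype.card V : ℝ) ^ m ≤ D.card) →
      ∃ F : Finset (Fin m → V), (F.card : ℝ) ≤ δ * Fintype.card V ∧
        (∀ u ∈ F, Function.Injective u) ∧
        (∀ u ∈ F, ∀ v ∈ F, u ≠ v → Disjoint (Set.range u) (Set.range v)) ∧
        ∀ D ∈ 𝒟, δ * (c / 2) / 8 * Fintype.card V ≤ (D ∩ F).card := by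
    intro m
    by_cases hm : 0 < m
    · by_cases hmM : m ≤ M
      · obtain ⟨n₀, h⟩ := hg1 m hm δ hδ0 (le_trans hδx (hx m hmM))
        exact ⟨n₀, fun _ _ => h⟩
      · exact ⟨0, fun _ h => absurd h hmM⟩
    · exact ⟨0, fun h => absurd h hm⟩
  choose n₀ hn₀ using hn
  obtain ⟨N, hN⟩ := max_exists n₀ M
  refine ⟨max N q, ?_⟩
  intro V _ _ H T hcard hT hJ W hW
  have hq : q ≤ Fintype.card V := le_trans (le_max_right _ _) hcard
  have hNc : N ≤ Fintype.card V := le_trans (le_max_left _ _) hcard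
  set n : ℝ := (Fintype.card V : ℝ) with hnd
  have hn0 : 0 ≤ n := Nat.cast_nonneg _
  have hcγ : c' + γ ≤ c / 2 / K := by
    have h1 : γ ≤ c / (4 * K) := le_trans hγle (min_le_right _ _)
    have h2 : c' ≤ c / (4 * K) := by
      rw [hc']
      apply div_le_div_of_nonneg_left hc.le (by positivity)
      nlinarith
    have h3 : c / 2 / K = c / (4 * K) + c / (4 * K) := by field_simp; norm_num
    linarith
  have hc'δ : c' * γ ≤ δ * (c / 2) / 8 := by
    rw [hc', hδ]
    apply le_of_eq
    field_simp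
    norm_num
  -- the family
  have main : ∀ m : ℕ, m ≤ M → ∃ F : List (List V), F.flatten.Nodup ∧ (∀ w ∈ F, w ≠ []) ∧
      (∀ v ∈ F.flatten, v ∉ W) ∧ (F.flatten.length : ℝ) ≤ m * (δ * M) * n ∧
      ∀ m' : ℕ, 0 < m' → m' ≤ m → ∀ i, ∀ a ∈ T i, ∀ b ∈ T i,
        c * n ^ m' ≤ con H k m' a b →
        c' * γ * n ≤ ({w : List V | w ∈ F ∧ Path H k (a ++ w ++ b)}.ncard : ℝ) := by
    intro m
    induction m with
    | zero =>
      intro _
      refine ⟨[], by simp, by simp, by simp, by simp, ?_⟩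
      intro m' h1 h2
      omega
    | succ m ih =>
      intro hm
      obtain ⟨F, e1, e2, e3, e4, e5⟩ := ih (by omega)
      have hMm : (m : ℝ) ≤ M := by exact_mod_cast (by omega : m ≤ M)
      have hFl : (F.flatten.length : ℝ) ≤ γ * n := by
        refine le_trans e4 ?_
        apply mul_le_mul_of_nonneg_right _ hn0
        have hM0 : (0:ℝ) ≤ M := Nat.cast_nonneg _
        calc (m : ℝ) * (δ * M) ≤ M * (δ * M) := mul_le_mul_of_nonneg_right hMm (by positivity)
          _ = γ * (M ^ 2 / K ^ 2) := by rw [hδ]; ring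
          _ ≤ γ * 1 := by
              apply mul_le_mul_of_nonneg_left _ hγ.le
              rw [div_le_one (by positivity)]
              apply pow_le_pow_left₀ hM0
              rw [hK]; linarith
          _ = γ := mul_one _
      set Z : Finset V := W ∪ F.flatten.toFinset with hZ
      have hZc : (Z.card : ℝ) ≤ (c' + γ) * n := by
        have h1 : Z.card ≤ W.card + F.flatten.length :=
          le_trans (Finset.card_union_le _ _) (Nat.add_le_add_left (List.toFinset_card_le _) _)
        have h2 : (Z.card : ℝ) ≤ W.card + F.flatten.length := by exact_mod_cast h1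
        linarith
      have hZm : ((m + 1 : ℕ) : ℝ) * Z.card ≤ c / 2 * n := by
        have h1 : ((m + 1 : ℕ) : ℝ) ≤ K := by
          rw [hK]
          push_cast
          linarith
        calc ((m + 1 : ℕ) : ℝ) * Z.card ≤ K * ((c' + γ) * n) :=
              mul_le_mul h1 hZc (Nat.cast_nonneg _) hK0.le
          _ ≤ K * (c / 2 / K * n) := by
              apply mul_le_mul_of_nonneg_left _ hK0.le
              exact mul_le_mul_of_nonneg_right hcγ hn0
          _ = c / 2 * n := by field_simp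
      obtain ⟨F2, g1, g2, g3, g4, g5⟩ := fam_step H k (m + 1) q c δ hk (by omega) hc T hT Z hZm hq
        (hn₀ (m + 1) (by omega) hm V (le_trans (hN (m + 1) hm) hNc))
      have hF2l : F2.flatten.length = F2.length * (m + 1) := by
        rw [List.length_flatten]
        have : F2.map List.length = List.replicate F2.length (m + 1) := by
          rw [List.eq_replicate_iff]
          refine ⟨by simp, ?_⟩
          intro b hb
          obtain ⟨w, hw, rfl⟩ := List.mem_map.mp hb
          exact g2 w hw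
        rw [this, List.sum_replicate, smul_eq_mul]
      refine ⟨F ++ F2, ?_, ?_, ?_, ?_, ?_⟩
      · rw [List.flatten_append, List.nodup_append]
        refine ⟨e1, g1, ?_⟩
        intro a ha b hb hab
        apply g3 b hb
        rw [hZ, Finset.mem_union, List.mem_toFinset]
        exact Or.inr (hab ▸ ha)
      · intro w hw
        rcases List.mem_append.mp hw with h | h
        · exact e2 w h
        · intro h0
          have := g2 w h
          rw [h0] at this
          simp at this
      · intro v hv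
        rw [List.flatten_append, List.mem_append] at hv
        rcases hv with h | h
        · exact e3 v h
        · intro hvW
          exact g3 v h (Finset.mem_union_left _ hvW)
      · rw [List.flatten_append, List.length_append, hF2l]
        push_cast
        have h1 : (F2.length : ℝ) * ((m : ℝ) + 1) ≤ δ * n * M := by
          apply mul_le_mul g4 _ (by positivity) (by positivity)
          have : ((m + 1 : ℕ) : ℝ) ≤ M := by exact_mod_cast hm
          push_cast at this
          exact this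
        nlinarith
      · intro m' h1 h2 i a ha b hb hab
        rcases Nat.lt_or_ge m' (m + 1) with h3 | h3
        · refine le_trans (e5 m' h1 (by omega) i a ha b hb hab) ?_
          have : {w : List V | w ∈ F ∧ Path H k (a ++ w ++ b)} ⊆
              {w : List V | w ∈ F ++ F2 ∧ Path H k (a ++ w ++ b)} :=
            fun w hw => ⟨List.mem_append_left _ hw.1, hw.2⟩
          exact_mod_cast Set.ncard_le_ncard this (fin_set _ _)
        · have hmm : m' = m + 1 := by omega
          subst hmm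
          have h4 := g5 i a ha b hb hab
          have h5 : c' * γ * n ≤ δ * (c / 2) / 8 * n := mul_le_mul_of_nonneg_right hc'δ hn0
          refine le_trans h5 (le_trans h4 ?_)
          have : {w : List V | w ∈ F2 ∧ Path H k (a ++ w ++ b)} ⊆
              {w : List V | w ∈ F ++ F2 ∧ Path H k (a ++ w ++ b)} :=
            fun w hw => ⟨List.mem_append_right _ hw.1, hw.2⟩
          exact_mod_cast Set.ncard_le_ncard this (fin_set _ _)
  obtain ⟨F, e1, e2, e3, e4, e5⟩ := main M le_rfl
  refine ⟨F, e1, nodup_of_flatten e1 e2, e2, e3, ?_, ?_⟩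
  · refine le_trans e4 ?_
    apply mul_le_mul_of_nonneg_right _ hn0
    have hM0 : (0:ℝ) ≤ M := Nat.cast_nonneg _
    calc (M : ℝ) * (δ * M) = γ * (M ^ 2 / K ^ 2) := by rw [hδ]; ring
      _ ≤ γ * 1 := by
          apply mul_le_mul_of_nonneg_left _ hγ.le
          rw [div_le_one (by positivity)]
          apply pow_le_pow_left₀ hM0
          rw [hK]; linarith
      _ = γ := mul_one _
  · intro i a ha b hb hab
    obtain ⟨m, hm, hcon⟩ := hJ i a ha b hb hab
    rcases Nat.eq_zero_or_pos m with h0 | h0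
    · left
      subst h0
      rw [pow_zero, mul_one] at hcon
      have hpos : 0 < con H k 0 a b := by
        have : (0 : ℝ) < con H k 0 a b := lt_of_lt_of_le hc hcon
        exact_mod_cast this
      unfold con at hpos
      have hne := (Set.ncard_pos (Set.toFinite _)).mp hpos
      obtain ⟨w, hw⟩ := hne
      have hw' : Path H k (a ++ List.ofFn w ++ b) := hw
      rw [List.ofFn_zero, List.append_nil] at hw'
      exact hw'
    · right
      exact e5 m h0 hm i a ha b hb hcon

end Pool.Agent.KK.H52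
end

/-! ### Helper72_KK.JSQ -/
section
/-!
# Squad KK, row JSQ: joining a sequence of segments with connectors from a family
-/

set_option autoImplicit false

namespace Pool.Agent.KK.H72

open Pool.Agent.KK

variable {V : Type} [Fintype V] [DecidableEq V]

omit [Fintype V] in
/-- Concatenation lemma. -/
theorem tight_cat (H : Finset (Finset V)) (k : ℕ) {u a v : List V} (h1 : Tight H k (u ++ a))
    (h2 : Tight H k (a ++ v)) (ha : k - 1 ≤ a.length) : Tight H k (u ++ a ++ v) := by
  intro s hs hk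
  obtain ⟨x, y, hxy⟩ := hs
  by_cases hx : u.length ≤ x.length
  · have hpre : u <+: x := by
      apply List.prefix_of_prefix_length_le (l₃ := u ++ a ++ v) _ _ hx
      · exact ⟨a ++ v, by rw [List.append_assoc]⟩
      · exact ⟨s ++ y, by rw [← hxy, List.append_assoc]⟩
    obtain ⟨x', rfl⟩ := hpre
    apply h2 s _ hk
    refine ⟨x', y, ?_⟩
    have h3 : u ++ (x' ++ s ++ y) = u ++ (a ++ v) := by
      rw [← List.append_assoc u a v, ← hxy]
      simp [List.append_assoc]
    exact List.append_cancel_left h3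
  · have hx' : x.length < u.length := not_le.1 hx
    have hpre : x ++ s <+: u ++ a := by
      apply List.prefix_of_prefix_length_le (l₃ := u ++ a ++ v)
      · exact ⟨y, hxy⟩
      · exact ⟨v, rfl⟩
      · rw [List.length_append, List.length_append]
        omega
    obtain ⟨z, hz⟩ := hpre
    exact h1 s ⟨x, z, hz⟩ hk

/-- consecutive segments are joined by the connectors -/
def Conn (H : Finset (Finset V)) (k : ℕ) : List (List V) → List (List V) → Prop
  | [], _ => True
  | [_], _ => True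
  | _ :: _ :: _, [] => False
  | p :: q :: ps, w :: ws =>
      Path H k (p.drop (p.length - (k - 1)) ++ w ++ q.take (k - 1)) ∧ Conn H k (q :: ps) ws

omit [Fintype V] in
theorem exists_conn (H : Finset (Finset V)) (k q : ℕ) (T : Fin q → Set (List V))
    (F : List (List V)) (N : ℕ)
    (hc : ∀ i, ∀ a ∈ T i, ∀ b ∈ T i, a.Disjoint b → Path H k (a ++ b) ∨
      N ≤ {w : List V | w ∈ F ∧ Path H k (a ++ w ++ b)}.ncard) :
    ∀ ps : List (List V), ps ≠ [] → ps.length ≤ N → ps.flatten.Nodup →
      ps.IsChain (fun p p' => ∃ i, p.drop (p.length - (k - 1)) ∈ T i ∧ p'.take (k - 1) ∈ T i) →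
      ∃ ws : List (List V), ws.length + 1 = ps.length ∧ (∀ w ∈ ws, w = [] ∨ w ∈ F) ∧
        (ws.filter (fun w => !w.isEmpty)).Nodup ∧ Conn H k ps ws := by
  intro ps
  induction ps with
  | nil => intro h; exact absurd rfl h
  | cons p ps ih =>
    intro _ hN hnd hch
    cases ps with
    | nil => exact ⟨[], by simp, by simp, by simp, trivial⟩
    | cons p' ps =>
      rw [List.isChain_cons_cons] at hch
      obtain ⟨⟨i, hi1, hi2⟩, hch⟩ := hch
      have hnd' : (p ++ (p' :: ps).flatten).Nodup := by simpa using hnd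
      obtain ⟨ws, hl, hF, hn, hC⟩ := ih (by simp) (by simp only [List.length_cons] at hN ⊢; omega)
        (List.Nodup.of_append_right hnd') hch
      have hdis : (p.drop (p.length - (k - 1))).Disjoint (p'.take (k - 1)) := by
        have h1 : p.Disjoint (p' :: ps).flatten := (List.disjoint_of_nodup_append hnd')
        intro x hx hx'
        refine h1 (List.mem_of_mem_drop hx) ?_
        rw [List.flatten_cons]
        exact List.mem_append_left _ (List.mem_of_mem_take hx')
      rcases hc i _ hi1 _ hi2 hdis with h | h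
      · refine ⟨[] :: ws, by simp only [List.length_cons] at hl ⊢; omega, ?_, ?_, ?_⟩
        · intro w hw
          rcases List.mem_cons.1 hw with rfl | hw
          · exact Or.inl rfl
          · exact hF w hw
        · simpa using hn
        · refine ⟨?_, hC⟩
          rw [List.append_nil]
          exact h
      · have hlt : ({w : List V | w ∈ ws}).ncard <
            {w : List V | w ∈ F ∧ Path H k (p.drop (p.length - (k - 1)) ++ w ++
              p'.take (k - 1))}.ncard := by
          refine lt_of_lt_of_le ?_ h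
          have h2 : ({w : List V | w ∈ ws}).ncard ≤ ws.length := by
            classical
            have h3 : {w : List V | w ∈ ws} = (ws.toFinset : Set (List V)) := by
              ext w; simp
            rw [h3, Set.ncard_coe_finset]
            exact List.toFinset_card_le ws
          simp only [List.length_cons] at hl hN
          omega
        obtain ⟨w, ⟨hwF, hwP⟩, hw⟩ := Set.exists_mem_notMem_of_ncard_lt_ncard hlt
          (List.finite_toSet ws)
        refine ⟨w :: ws, by simp only [List.length_cons] at hl ⊢; omega, ?_, ?_, ?_⟩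
        · intro w' hw'
          rcases List.mem_cons.1 hw' with rfl | hw'
          · exact Or.inr hwF
          · exact hF w' hw'
        · rw [List.filter_cons]
          split_ifs
          · rw [List.nodup_cons]
            exact ⟨fun h' => hw (List.mem_of_mem_filter h'), hn⟩
          · exact hn
        · exact ⟨hwP, hC⟩

omit [Fintype V] [DecidableEq V] in
theorem weave_perm : ∀ ps ws : List (List V), ws.length + 1 = ps.length →
    (weave ps ws).Perm (ps.flatten ++ ws.flatten) := by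
  intro ps
  induction ps with
  | nil => intro ws h; simp at h
  | cons p ps ih =>
    intro ws h
    cases ps with
    | nil =>
      have : ws = [] := by
        apply List.eq_nil_of_length_eq_zero
        simpa using h
      subst this
      simp [weave]
    | cons p' ps =>
      cases ws with
      | nil => simp at h
      | cons w ws =>
        have h' : ws.length + 1 = (p' :: ps).length := by
          simp only [List.length_cons] at h ⊢
          omega
        have := ih ws h'
        show (p ++ w ++ weave (p' :: ps) ws).Perm _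
        have e : (p :: p' :: ps).flatten ++ (w :: ws).flatten =
            p ++ (((p' :: ps).flatten ++ w) ++ ws.flatten) := by
          rw [List.flatten_cons, List.flatten_cons (l := w), List.append_assoc, List.append_assoc]
        rw [e, List.append_assoc]
        apply List.Perm.append_left
        refine (List.Perm.append_left w this).trans ?_
        rw [← List.append_assoc]
        exact List.Perm.append_right _ List.perm_append_comm

omit [Fintype V] [DecidableEq V] in
theorem weave_take (k : ℕ) : ∀ ps ws : List (List V), ws.length + 1 = ps.length →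
    (∀ p ∈ ps, k - 1 ≤ p.length) →
    (weave ps ws).take (k - 1) = (ps.head!).take (k - 1) ∧ k - 1 ≤ (weave ps ws).length := by
  intro ps ws h hp
  cases ps with
  | nil => simp at h
  | cons p ps =>
    cases ps with
    | nil => exact ⟨rfl, hp p (by simp)⟩
    | cons p' ps =>
      cases ws with
      | nil => simp at h
      | cons w ws =>
        have h1 := hp p (by simp)
        refine ⟨?_, ?_⟩
        · show (p ++ w ++ weave (p' :: ps) ws).take (k - 1) = p.take (k - 1)
          rw [List.append_assoc, List.take_append_of_le_length h1]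
        · show k - 1 ≤ (p ++ w ++ weave (p' :: ps) ws).length
          rw [List.append_assoc, List.length_append]
          omega

omit [Fintype V] [DecidableEq V] in
theorem weave_drop (k : ℕ) : ∀ ps ws : List (List V), ws.length + 1 = ps.length →
    (∀ p ∈ ps, k - 1 ≤ p.length) →
    (weave ps ws).drop ((weave ps ws).length - (k - 1)) =
      (ps.getLast!).drop ((ps.getLast!).length - (k - 1)) := by
  intro ps
  induction ps with
  | nil => intro ws h; simp at h
  | cons p ps ih =>
    intro ws h hp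
    cases ps with
    | nil => rfl
    | cons p' ps =>
      cases ws with
      | nil => simp at h
      | cons w ws =>
        have h' : ws.length + 1 = (p' :: ps).length := by
          simp only [List.length_cons] at h ⊢
          omega
        have hp' : ∀ x ∈ p' :: ps, k - 1 ≤ x.length := fun x hx => hp x (by simp [hx])
        have h2 := ih ws h' hp'
        have h3 := (weave_take k (p' :: ps) ws h' hp').2
        have h4 : (p :: p' :: ps).getLast! = (p' :: ps).getLast! := by
          simp [List.getLast!]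
        rw [h4, ← h2]
        show ((p ++ w) ++ weave (p' :: ps) ws).drop
          (((p ++ w) ++ weave (p' :: ps) ws).length - (k - 1)) = _
        rw [List.length_append, List.drop_append]
        have h5 : (p ++ w).drop ((p ++ w).length + (weave (p' :: ps) ws).length - (k - 1)) = [] := by
          apply List.drop_eq_nil_of_le
          omega
        rw [h5, List.nil_append]
        congr 1
        omega

omit [Fintype V] in
theorem weave_tight (H : Finset (Finset V)) (k : ℕ) : ∀ ps ws : List (List V),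
    ws.length + 1 = ps.length → (∀ p ∈ ps, Tight H k p ∧ k - 1 ≤ p.length) → Conn H k ps ws →
    Tight H k (weave ps ws) := by
  intro ps
  induction ps with
  | nil => intro ws h; simp at h
  | cons p ps ih =>
    intro ws h hp hC
    cases ps with
    | nil => exact (hp p (by simp)).1
    | cons p' ps =>
      cases ws with
      | nil => simp at h
      | cons w ws =>
        have h' : ws.length + 1 = (p' :: ps).length := by
          simp only [List.length_cons] at h ⊢
          omega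
        have hp' : ∀ x ∈ p' :: ps, Tight H k x ∧ k - 1 ≤ x.length :=
          fun x hx => hp x (by simp [hx])
        obtain ⟨hC1, hC2⟩ := hC
        have hT := ih ws h' hp' hC2
        have ht := weave_take k (p' :: ps) ws h' (fun x hx => (hp' x hx).2)
        have hp1 := hp p (by simp)
        show Tight H k (p ++ w ++ weave (p' :: ps) ws)
        have e1 : p = p.take (p.length - (k - 1)) ++ p.drop (p.length - (k - 1)) :=
          (List.take_append_drop _ _).symm
        have e2 : weave (p' :: ps) ws = p'.take (k - 1) ++ (weave (p' :: ps) ws).drop (k - 1) := by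
          conv_lhs => rw [← List.take_append_drop (k - 1) (weave (p' :: ps) ws)]
          rw [ht.1]
          rfl
        have l1 : k - 1 ≤ (p.drop (p.length - (k - 1))).length := by
          rw [List.length_drop]; omega
        have l2 : k - 1 ≤ (p'.take (k - 1)).length := by
          rw [List.length_take]
          have := (hp' p' (by simp)).2
          omega
        have s1 : Tight H k (p.take (p.length - (k - 1)) ++ p.drop (p.length - (k - 1)) ++
            (w ++ p'.take (k - 1))) := by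
          apply tight_cat H k _ _ l1
          · rw [← e1]; exact hp1.1
          · rw [← List.append_assoc]; exact hC1.2
        rw [← e1, ← List.append_assoc] at s1
        have s2 : Tight H k ((p ++ w) ++ p'.take (k - 1) ++ (weave (p' :: ps) ws).drop (k - 1)) := by
          apply tight_cat H k s1 _ l2
          rw [← e2]; exact hT
        rw [List.append_assoc (p ++ w), ← e2] at s2
        exact s2

omit [Fintype V] [DecidableEq V] in
theorem flatten_nodup (F ws : List (List V)) (l : List V) (h : (l ++ F.flatten).Nodup)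
    (hF : ∀ w ∈ ws, w = [] ∨ w ∈ F) (hn : (ws.filter (fun w => !w.isEmpty)).Nodup) :
    (l ++ ws.flatten).Nodup := by
  have h1 : ws.filter (fun w => !w.isEmpty) ⊆ F := by
    intro w hw
    rw [List.mem_filter] at hw
    rcases hF w hw.1 with h2 | h2
    · subst h2; simp at hw
    · exact h2
  obtain ⟨l', hl1, hl2⟩ := List.subperm_of_subset hn h1
  have h3 : (ws.filter (fun w => !w.isEmpty)).flatten = ws.flatten :=
    List.flatten_filter_not_isEmpty
  rw [← h3]
  have h4 : (l ++ (ws.filter (fun w => !w.isEmpty)).flatten).Perm (l ++ l'.flatten) :=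
    List.Perm.append_left l hl1.symm.flatten
  rw [h4.nodup_iff]
  exact h.sublist (List.Sublist.append_left hl2.flatten l)

/-- JSQ. -/
theorem jsq : JsqStmt := by
  intro k q V _ _ H T F ps _ _ _ hne hnd _ hp hch hc
  have hnd1 : ps.flatten.Nodup := List.Nodup.of_append_left hnd
  obtain ⟨ws, hl, hF, hn, hC⟩ := exists_conn H k q T F ps.length hc ps hne le_rfl hnd1 hch
  have hp2 : ∀ p ∈ ps, k - 1 ≤ p.length := fun p h => (hp p h).2
  have hN := flatten_nodup F ws ps.flatten hnd hF hn
  have hP := weave_perm ps ws hl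
  refine ⟨ws, hl, hF, hN, hP, ⟨?_, ?_⟩, (weave_take k ps ws hl hp2).1, weave_drop k ps ws hl hp2⟩
  · exact (hP.nodup_iff).2 hN
  · exact weave_tight H k ps ws hl (fun p h => ⟨(hp p h).1.2, (hp p h).2⟩) hC

end Pool.Agent.KK.H72
end

/-! ### Helper33_KK.COB1 -/
section
/-!
# Squad KK: row COB, part 1: blocks, cutting blocks, the averaging argument
-/

set_option autoImplicit false
set_option linter.unusedSectionVars false

open Finset

namespace Pool.Agent.KK.H33

open Pool.Agent.KK

variable {V : Type} [Fintype V] [DecidableEq V]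

/-- vertices of a block -/
def vs {k : ℕ} (B : Fin k → Finset V) : Finset V := univ.biUnion B

/-- vertices of a list of blocks -/
def cv {k : ℕ} : List (Fin k → Finset V) → Finset V
  | [] => ∅
  | B :: L => vs B ∪ cv L

/-- pairwise disjoint blocks -/
def Pw {k : ℕ} (L : List (Fin k → Finset V)) : Prop :=
  L.Pairwise fun B C => Disjoint (vs B) (vs C)

theorem mem_vs {k : ℕ} {B : Fin k → Finset V} {v : V} : v ∈ vs B ↔ ∃ j, v ∈ B j := by
  unfold vs
  simp

theorem mem_cv {k : ℕ} {L : List (Fin k → Finset V)} {v : V} :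
    v ∈ cv L ↔ ∃ B ∈ L, v ∈ vs B := by
  induction L with
  | nil => simp [cv]
  | cons B L ih =>
    unfold cv
    rw [mem_union, ih]
    simp

theorem cv_append {k : ℕ} (L M : List (Fin k → Finset V)) : cv (L ++ M) = cv L ∪ cv M := by
  ext v
  rw [mem_union, mem_cv, mem_cv, mem_cv]
  constructor
  · rintro ⟨B, hB, hv⟩
    rcases List.mem_append.1 hB with h | h
    · exact Or.inl ⟨B, h, hv⟩
    · exact Or.inr ⟨B, h, hv⟩
  · rintro (⟨B, hB, hv⟩ | ⟨B, hB, hv⟩)
    · exact ⟨B, List.mem_append_left _ hB, hv⟩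
    · exact ⟨B, List.mem_append_right _ hB, hv⟩

theorem disj_vs {k : ℕ} {B C : Fin k → Finset V} :
    Disjoint (vs B) (vs C) ↔ ∀ i j, Disjoint (B i) (C j) := by
  constructor
  · intro h i j
    exact disjoint_left.2 fun v hv hw =>
      disjoint_left.1 h (mem_vs.2 ⟨i, hv⟩) (mem_vs.2 ⟨j, hw⟩)
  · intro h
    refine disjoint_left.2 fun v hv hw => ?_
    obtain ⟨i, hi⟩ := mem_vs.1 hv
    obtain ⟨j, hj⟩ := mem_vs.1 hw
    exact disjoint_left.1 (h i j) hi hj

theorem disj_vs_right {k : ℕ} {B : Fin k → Finset V} {W : Finset V} :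
    Disjoint (vs B) W ↔ ∀ j, Disjoint (B j) W := by
  constructor
  · intro h i
    exact disjoint_left.2 fun v hv hw => disjoint_left.1 h (mem_vs.2 ⟨i, hv⟩) hw
  · intro h
    refine disjoint_left.2 fun v hv hw => ?_
    obtain ⟨i, hi⟩ := mem_vs.1 hv
    exact disjoint_left.1 (h i) hi hw

theorem disj_cv {k : ℕ} {L : List (Fin k → Finset V)} {W : Finset V} :
    Disjoint (cv L) W ↔ ∀ B ∈ L, Disjoint (vs B) W := by
  constructor
  · intro h B hB
    exact disjoint_left.2 fun v hv hw => disjoint_left.1 h (mem_cv.2 ⟨B, hB, hv⟩) hw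
  · intro h
    refine disjoint_left.2 fun v hv hw => ?_
    obtain ⟨B, hB, hi⟩ := mem_cv.1 hv
    exact disjoint_left.1 (h B hB) hi hw

theorem til_iff {q k s : ℕ} {H : Finset (Finset V)} {T : Fin q → Set (List V)} {W : Finset V}
    {L : List (Fin k → Finset V)} :
    Tiling H k T s W L ↔ (∀ B ∈ L, Block H k T s B) ∧ Disjoint (cv L) W ∧ Pw L := by
  unfold Tiling Pw
  rw [disj_cv]
  constructor
  · rintro ⟨h1, h2, h3⟩
    exact ⟨h1, fun B hB => disj_vs_right.2 (h2 B hB), h3.imp fun h => disj_vs.2 h⟩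
  · rintro ⟨h1, h2, h3⟩
    exact ⟨h1, fun B hB => disj_vs_right.1 (h2 B hB), h3.imp fun h => disj_vs.1 h⟩

theorem card_vs {q k s : ℕ} {H : Finset (Finset V)} {T : Fin q → Set (List V)}
    {B : Fin k → Finset V} (h : Block H k T s B) : (vs B).card = k * s := by
  unfold vs
  rw [card_biUnion]
  · rw [sum_congr rfl fun j _ => h.1 j]
    simp
  · intro i _ j _ hij
    exact h.2.1 i j hij

theorem card_cv {q k s : ℕ} {H : Finset (Finset V)} {T : Fin q → Set (List V)}
    {L : List (Fin k → Finset V)} (h : ∀ B ∈ L, Block H k T s B) (hp : Pw L) :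
    (cv L).card = k * s * L.length := by
  induction L with
  | nil => simp [cv]
  | cons B L ih =>
    have h1 := List.pairwise_cons.1 hp
    have h2 : Disjoint (vs B) (cv L) := by
      rw [disjoint_comm, disj_cv]
      exact fun C hC => (h1.1 C hC).symm
    show (vs B ∪ cv L).card = _
    rw [card_union_of_disjoint h2, card_vs (h B List.mem_cons_self),
      ih (fun C hC => h C (List.mem_cons_of_mem _ hC)) h1.2, List.length_cons]
    ring

theorem Block.sub {q k s t : ℕ} {H : Finset (Finset V)} {T : Fin q → Set (List V)}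
    {B C : Fin k → Finset V} (h : Block H k T t B) (hC : ∀ j, C j ⊆ B j)
    (hs : ∀ j, (C j).card = s) : Block H k T s C := by
  obtain ⟨_, h2, i, h3⟩ := h
  refine ⟨hs, fun a b hab => ?_, i, fun x hx => h3 x fun j => hC j (hx j)⟩
  exact disjoint_of_subset_left (hC a) (disjoint_of_subset_right (hC b) (h2 a b hab))

/-- cut `m` blocks of size `s` out of a part of a block -/
theorem cut {q k s t : ℕ} {H : Finset (Finset V)} {T : Fin q → Set (List V)}
    {B : Fin k → Finset V} (hB : Block H k T t B) : ∀ (m : ℕ) (D : Fin k → Finset V),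
    (∀ a, D a ⊆ B a) → (∀ a, m * s ≤ (D a).card) →
    ∃ L : List (Fin k → Finset V), L.length = m ∧ (∀ C ∈ L, Block H k T s C) ∧
      (∀ C ∈ L, vs C ⊆ vs D) ∧ Pw L := by
  intro m
  induction m with
  | zero =>
    intro D _ _
    exact ⟨[], rfl, by simp, by simp, List.Pairwise.nil⟩
  | succ m ih =>
    intro D hD hc
    have hex : ∀ a, ∃ C, C ⊆ D a ∧ C.card = s := fun a =>
      exists_subset_card_eq (by have := hc a; rw [Nat.succ_mul] at this; omega)
    choose C hC1 hC2 using hex
    obtain ⟨L, hL1, hL2, hL3, hL4⟩ := ih (fun a => D a \ C a)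
      (fun a => sdiff_subset.trans (hD a)) (fun a => by
        have h1 := hc a
        rw [Nat.succ_mul] at h1
        rw [card_sdiff_of_subset (hC1 a), hC2 a]
        omega)
    have hsub : vs (fun a => D a \ C a) ⊆ vs D := by
      intro v hv
      obtain ⟨a, ha⟩ := mem_vs.1 hv
      exact mem_vs.2 ⟨a, (mem_sdiff.1 ha).1⟩
    refine ⟨C :: L, by rw [List.length_cons, hL1], ?_, ?_, ?_⟩
    · intro E hE
      rcases List.mem_cons.1 hE with rfl | hE
      · exact Block.sub hB (fun a => (hC1 a).trans (hD a)) hC2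
      · exact hL2 E hE
    · intro E hE
      rcases List.mem_cons.1 hE with rfl | hE
      · intro v hv
        obtain ⟨a, ha⟩ := mem_vs.1 hv
        exact mem_vs.2 ⟨a, hC1 a ha⟩
      · exact (hL3 E hE).trans hsub
    · refine List.pairwise_cons.2 ⟨fun E hE => ?_, hL4⟩
      refine disjoint_left.2 fun v hv hw => ?_
      obtain ⟨a, ha⟩ := mem_vs.1 hv
      obtain ⟨b, hb⟩ := mem_vs.1 (hL3 E hE hw)
      have hb' := mem_sdiff.1 hb
      by_cases hab : a = b
      · subst hab
        exact hb'.2 ha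
      · exact disjoint_left.1 (hB.2.1 a b hab) (hD a (hC1 a ha)) (hD b hb'.1)

/-- cut all blocks of a tiling into `m` blocks -/
theorem cutAll {q k s t m : ℕ} {H : Finset (Finset V)} {T : Fin q → Set (List V)}
    (ht : t = m * s) : ∀ P : List (Fin k → Finset V), (∀ B ∈ P, Block H k T t B) → Pw P →
    ∃ L : List (Fin k → Finset V), L.length = m * P.length ∧ (∀ C ∈ L, Block H k T s C) ∧
      cv L ⊆ cv P ∧ Pw L := by
  intro P
  induction P with
  | nil =>
    intro _ _
    exact ⟨[], by simp, by simp, by simp [cv], List.Pairwise.nil⟩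
  | cons B P ih =>
    intro hb hp
    have h1 := List.pairwise_cons.1 hp
    obtain ⟨L, hL1, hL2, hL3, hL4⟩ := ih (fun C hC => hb C (List.mem_cons_of_mem _ hC)) h1.2
    have hB := hb B List.mem_cons_self
    obtain ⟨M, hM1, hM2, hM3, hM4⟩ := cut (s := s) hB m B (fun a => Subset.refl _) (fun a => by
      rw [hB.1 a, ht])
    refine ⟨M ++ L, ?_, ?_, ?_, ?_⟩
    · rw [List.length_append, hM1, hL1, List.length_cons]
      ring
    · intro C hC
      rcases List.mem_append.1 hC with h | h
      · exact hM2 C h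
      · exact hL2 C h
    · rw [cv_append]
      refine union_subset ?_ (hL3.trans subset_union_right)
      intro v hv
      obtain ⟨C, hC, hv⟩ := mem_cv.1 hv
      exact mem_union_left _ (hM3 C hC hv)
    · refine List.pairwise_append.2 ⟨hM4, hL4, fun C hC E hE => ?_⟩
      refine disjoint_left.2 fun v hv hw => ?_
      obtain ⟨A, hA, hvA⟩ := mem_cv.1 (hL3 (mem_cv.2 ⟨E, hE, hw⟩))
      exact disjoint_left.1 (h1.1 A hA) (hM3 C hC hv) hvA

/-- the result of the processing of one block -/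
theorem step {q k s ℓ : ℕ} {H : Finset (Finset V)} {T : Fin q → Set (List V)} (hℓ : 0 < ℓ)
    {B : Fin k → Finset V} {U : Finset V} (hB : Block H k T (ℓ * s) B) (hU : Disjoint (vs B) U)
    (h : ∃ (i j : Fin k) (P P' W W' : Finset V) (C C' : Fin k → Finset V), i ≠ j ∧
          P ⊆ B i ∧ P' ⊆ B j ∧ W ⊆ U ∧ W' ⊆ U ∧ Disjoint W W' ∧ P.card = s ∧ P'.card = s ∧
          W.card = (k - 1) * s ∧ W'.card = (k - 1) * s ∧
          Block H k T s C ∧ Block H k T s C' ∧
          Finset.univ.biUnion C = P ∪ W ∧ Finset.univ.biUnion C' = P' ∪ W') :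
    ∃ (L : List (Fin k → Finset V)) (X : Finset V), L.length = ℓ + 1 ∧
      (∀ C ∈ L, Block H k T s C) ∧ Pw L ∧ X ⊆ U ∧ X.card ≤ 2 * (k - 1) * s ∧
      cv L ⊆ vs B ∪ X := by
  obtain ⟨i, j, P, P', W, W', C, C', hij, hP, hP', hW, hW', hWW, cP, cP', cW, cW', bC, bC',
    eC, eC'⟩ := h
  obtain ⟨M, hM1, hM2, hM3, hM4⟩ := cut (s := s) hB (ℓ - 1)
    (fun a => B a \ (if a = i then P else if a = j then P' else ∅))
    (fun a => sdiff_subset) (fun a => by
      have hl : (ℓ - 1) * s + s = ℓ * s := by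
        obtain ⟨m, rfl⟩ : ∃ m, ℓ = m + 1 := ⟨ℓ - 1, by omega⟩
        rw [Nat.add_sub_cancel]
        ring
      have h1 : (if a = i then P else if a = j then P' else ∅).card ≤ s := by
        split_ifs
        · exact cP.le
        · exact cP'.le
        · simp
      have h2 := le_card_sdiff (if a = i then P else if a = j then P' else ∅) (B a)
      rw [hB.1 a] at h2
      omega)
  have hD : ∀ v, v ∈ vs (fun a => B a \ (if a = i then P else if a = j then P' else ∅)) →
      v ∈ vs B ∧ v ∉ P ∧ v ∉ P' := by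
    intro v hv
    obtain ⟨a, ha⟩ := mem_vs.1 hv
    obtain ⟨ha1, ha2⟩ := mem_sdiff.1 ha
    refine ⟨mem_vs.2 ⟨a, ha1⟩, fun hvP => ?_, fun hvP => ?_⟩
    · have hai : a = i := by
        by_contra hne
        exact disjoint_left.1 (hB.2.1 a i hne) ha1 (hP hvP)
      rw [if_pos hai] at ha2
      exact ha2 hvP
    · have haj : a = j := by
        by_contra hne
        exact disjoint_left.1 (hB.2.1 a j hne) ha1 (hP' hvP)
      have hai : a ≠ i := fun h => hij (h.symm.trans haj)
      rw [if_neg hai, if_pos haj] at ha2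
      exact ha2 hvP
  have vC : ∀ v, v ∈ vs C → v ∈ P ∨ v ∈ W := by
    intro v hv
    have : v ∈ P ∪ W := by rw [← eC]; exact hv
    exact mem_union.1 this
  have vC' : ∀ v, v ∈ vs C' → v ∈ P' ∨ v ∈ W' := by
    intro v hv
    have : v ∈ P' ∪ W' := by rw [← eC']; exact hv
    exact mem_union.1 this
  have PB : ∀ v, v ∈ P → v ∈ vs B := fun v hv => mem_vs.2 ⟨i, hP hv⟩
  have PB' : ∀ v, v ∈ P' → v ∈ vs B := fun v hv => mem_vs.2 ⟨j, hP' hv⟩
  have BU : ∀ v, v ∈ vs B → v ∉ U := fun v hv => disjoint_left.1 hU hv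
  refine ⟨C :: C' :: M, W ∪ W', ?_, ?_, ?_, union_subset hW hW', ?_, ?_⟩
  · rw [List.length_cons, List.length_cons, hM1]
    omega
  · intro E hE
    rcases List.mem_cons.1 hE with rfl | hE
    · exact bC
    rcases List.mem_cons.1 hE with rfl | hE
    · exact bC'
    · exact hM2 E hE
  · refine List.pairwise_cons.2 ⟨fun E hE => ?_, List.pairwise_cons.2 ⟨fun E hE => ?_, hM4⟩⟩
    · rcases List.mem_cons.1 hE with rfl | hE
      · refine disjoint_left.2 fun v hv hw => ?_
        rcases vC v hv with h1 | h1 <;> rcases vC' v hw with h2 | h2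
        · exact disjoint_left.1 (hB.2.1 i j hij) (hP h1) (hP' h2)
        · exact BU v (PB v h1) (hW' h2)
        · exact BU v (PB' v h2) (hW h1)
        · exact disjoint_left.1 hWW h1 h2
      · refine disjoint_left.2 fun v hv hw => ?_
        obtain ⟨g1, g2, _⟩ := hD v (hM3 E hE hw)
        rcases vC v hv with h1 | h1
        · exact g2 h1
        · exact BU v g1 (hW h1)
    · refine disjoint_left.2 fun v hv hw => ?_
      obtain ⟨g1, _, g2⟩ := hD v (hM3 E hE hw)
      rcases vC' v hv with h1 | h1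
      · exact g2 h1
      · exact BU v g1 (hW' h1)
  · have := card_union_le W W'
    rw [cW, cW'] at this
    calc (W ∪ W').card ≤ (k - 1) * s + (k - 1) * s := this
      _ = 2 * (k - 1) * s := by ring
  · intro v hv
    obtain ⟨E, hE, hvE⟩ := mem_cv.1 hv
    rw [mem_union, mem_union]
    rcases List.mem_cons.1 hE with rfl | hE
    · rcases vC v hvE with h1 | h1
      · exact Or.inl (PB v h1)
      · exact Or.inr (Or.inl h1)
    rcases List.mem_cons.1 hE with rfl | hE
    · rcases vC' v hvE with h1 | h1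
      · exact Or.inl (PB' v h1)
      · exact Or.inr (Or.inr h1)
    · exact Or.inl (hD v (hM3 E hE hvE)).1

/-- averaging over a list of blocks -/
theorem avg {k : ℕ} {ι : Type} (F : Finset ι) (g : ι → Finset V) (c : ℝ) :
    ∀ P : List (Fin k → Finset V), (∀ B ∈ P, ∑ f ∈ F, ((g f ∩ vs B).card : ℝ) ≤ c) →
    ∑ f ∈ F, ((g f ∩ cv P).card : ℝ) ≤ c * P.length := by
  intro P
  induction P with
  | nil => intro _; simp [cv]
  | cons B P ih =>
    intro h
    have h1 := ih fun C hC => h C (List.mem_cons_of_mem _ hC)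
    have h2 := h B List.mem_cons_self
    have h3 : ∀ f ∈ F, ((g f ∩ cv (B :: P)).card : ℝ) ≤
        ((g f ∩ vs B).card : ℝ) + ((g f ∩ cv P).card : ℝ) := by
      intro f _
      have : (g f ∩ cv (B :: P)).card ≤ (g f ∩ vs B).card + (g f ∩ cv P).card := by
        show (g f ∩ (vs B ∪ cv P)).card ≤ _
        rw [inter_union_distrib_left]
        exact card_union_le _ _
      exact_mod_cast this
    have h4 := sum_le_sum h3
    rw [sum_add_distrib] at h4
    rw [List.length_cons]
    push_cast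
    linarith

/-- some block contains many good neighbours for many tuples -/
theorem choose_block {k t : ℕ} {ι : Type} (F : Finset ι) (g : ι → Finset V) (N : ℝ) (hN : 0 < N)
    (hF : F.Nonempty) (P : List (Fin k → Finset V)) (hP : ∀ B ∈ P, (vs B).card = k * t)
    (hPN : (k * t * P.length : ℝ) ≤ N)
    (hg : ∀ f ∈ F, 47 / 100 * N ≤ ((g f ∩ cv P).card : ℝ)) :
    ∃ B ∈ P, 1 / 10 * (F.card : ℝ) ≤
      ((F.filter fun f => 4 / 10 * (k * t : ℝ) ≤ ((g f ∩ vs B).card : ℝ)).card : ℝ) := by
  classical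
  by_contra hcon
  push Not at hcon
  have hFc : (0 : ℝ) < F.card := by exact_mod_cast hF.card_pos
  have key : ∀ B ∈ P, ∑ f ∈ F, ((g f ∩ vs B).card : ℝ) ≤ 46 / 100 * (k * t : ℝ) * F.card := by
    intro B hB
    have h1 := hcon B hB
    have h2 : ∀ f ∈ F, ((g f ∩ vs B).card : ℝ) ≤ 4 / 10 * (k * t : ℝ) +
        (if 4 / 10 * (k * t : ℝ) ≤ ((g f ∩ vs B).card : ℝ) then 6 / 10 * (k * t : ℝ) else 0) := by
      intro f _
      split_ifs with hf
      · have : (g f ∩ vs B).card ≤ k * t := by
          rw [← hP B hB]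
          exact card_le_card inter_subset_right
        have h3 : ((g f ∩ vs B).card : ℝ) ≤ (k : ℝ) * t := by exact_mod_cast this
        linarith
      · push Not at hf
        linarith
    have h3 := sum_le_sum h2
    rw [sum_add_distrib, sum_const, ← sum_filter, sum_const, nsmul_eq_mul, nsmul_eq_mul] at h3
    have hkt : (0 : ℝ) ≤ (k : ℝ) * t := by positivity
    nlinarith
  have h1 := avg F g _ P key
  have h2 := card_nsmul_le_sum F (fun f => ((g f ∩ cv P).card : ℝ)) _ hg
  rw [nsmul_eq_mul] at h2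
  have h3 : 46 / 100 * ((k : ℝ) * t) * F.card * P.length ≤ 46 / 100 * N * F.card := by
    have := mul_le_mul_of_nonneg_left hPN (le_of_lt hFc)
    nlinarith
  nlinarith [mul_pos hFc hN]

/-- two parts of the block contain many good neighbours -/
theorem two_parts {k t : ℕ} (hk : 3 ≤ k) (ht : 0 < t) (g : Finset V) (B : Fin k → Finset V)
    (hB : ∀ j, (B j).card = t) (h : 4 / 10 * (k * t : ℝ) ≤ ((g ∩ vs B).card : ℝ)) :
    ∃ i j, i ≠ j ∧ 1 / (10 * k) * (t : ℝ) ≤ ((g ∩ B i).card : ℝ) ∧
      1 / (10 * k) * (t : ℝ) ≤ ((g ∩ B j).card : ℝ) := by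
  classical
  by_contra hcon
  push Not at hcon
  have hk' : (3 : ℝ) ≤ k := by exact_mod_cast hk
  have ht' : (0 : ℝ) < t := by exact_mod_cast ht
  have hη : 1 / (10 * k) * (t : ℝ) * k = t / 10 := by
    field_simp
  have hsum : ((g ∩ vs B).card : ℝ) ≤ ∑ j, ((g ∩ B j).card : ℝ) := by
    have h1 : g ∩ vs B = univ.biUnion fun j => g ∩ B j := by
      unfold vs
      rw [inter_biUnion]
    rw [h1]
    exact_mod_cast card_biUnion_le
  have hη0 : 0 ≤ 1 / (10 * k) * (t : ℝ) := by positivity
  by_cases hi : ∃ i, 1 / (10 * k) * (t : ℝ) ≤ ((g ∩ B i).card : ℝ)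
  · obtain ⟨i, hi⟩ := hi
    have h1 : ∀ j ∈ univ, ((g ∩ B j).card : ℝ) ≤ 1 / (10 * k) * (t : ℝ) +
        (if j = i then (t : ℝ) else 0) := by
      intro j _
      split_ifs with hj
      · have : (g ∩ B j).card ≤ t := by
          rw [← hB j]
          exact card_le_card inter_subset_right
        have h3 : ((g ∩ B j).card : ℝ) ≤ t := by exact_mod_cast this
        linarith
      · have := hcon i j (fun h => hj h.symm) hi
        linarith
    have h2 := sum_le_sum h1
    rw [sum_add_distrib, sum_const, sum_ite_eq' univ i, if_pos (mem_univ i), card_univ,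
      Fintype.card_fin, nsmul_eq_mul] at h2
    nlinarith
  · push Not at hi
    have h1 : ∀ j ∈ univ, ((g ∩ B j).card : ℝ) ≤ 1 / (10 * k) * (t : ℝ) := fun j _ => (hi j).le
    have h2 := sum_le_sum h1
    rw [sum_const, card_univ, Fintype.card_fin, nsmul_eq_mul] at h2
    nlinarith

end Pool.Agent.KK.H33
end

/-! ### Helper33_KK.COB2 -/
section
/-!
# Squad KK: row COB, part 2: counting pairs inside the uncovered set, the set of typical tuples
-/

set_option autoImplicit false
set_option linter.unusedSectionVars false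

open Finset

namespace Pool.Agent.KK.H33

open Pool.Agent.KK

variable {V : Type} [Fintype V] [DecidableEq V]

theorem ncard_filter {α : Type} [Fintype α] (p : α → Prop) [DecidablePred p] :
    ({x | p x} : Set α).ncard = (univ.filter p).card := by
  rw [← Set.ncard_coe_finset]
  congr 1
  ext x
  simp

theorem mem_gn {q k : ℕ} {H : Finset (Finset V)} {T : Fin q → Set (List V)}
    {f : Fin (k - 1) → V} {v : V} :
    v ∈ gn H k T f ↔ OrdIn H k T (insert v (univ.image f)) := by
  unfold gn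
  simp

theorem exists_ofFn {r : ℕ} (l : List V) (h : l.length = r) : ∃ g : Fin r → V, l = List.ofFn g := by
  subst h
  exact ⟨l.get, (List.ofFn_get l).symm⟩

theorem toFinset_ofFn {r : ℕ} (g : Fin r → V) : (List.ofFn g).toFinset = univ.image g := by
  ext v
  simp [List.mem_ofFn]

/-- tuples in `U` with an ordering in a class are few, if in every class they are few -/
theorem pairs_few {r q : ℕ} {H : Finset (Finset V)} {T : Fin q → Set (List V)} (U : Finset V)
    (ρ : ℝ)
    (hρ : ∀ i, ({g : Fin (r + 1) → V | (∀ j, g j ∈ U) ∧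
      EdgeIn H (r + 1) (T i) (List.ofFn g)}.ncard : ℝ) ≤ ρ) :
    ({g : Fin (r + 1) → V | (∀ j, g j ∈ U) ∧ OrdIn H (r + 1) T (univ.image g)}.ncard : ℝ) ≤
      q * (r + 1).factorial * ρ := by
  classical
  have hsub : {g : Fin (r + 1) → V | (∀ j, g j ∈ U) ∧ OrdIn H (r + 1) T (univ.image g)} ⊆
      ⋃ p : Fin q × Equiv.Perm (Fin (r + 1)), {g : Fin (r + 1) → V |
        g ∘ p.2 ∈ {g : Fin (r + 1) → V | (∀ j, g j ∈ U) ∧
          EdgeIn H (r + 1) (T p.1) (List.ofFn g)}} := by
    rintro g ⟨hg, i, l, hl, he⟩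
    obtain ⟨h, rfl⟩ := exists_ofFn l he.2.1
    have hinj : Function.Injective h := List.nodup_ofFn.1 he.1
    rw [toFinset_ofFn] at hl
    have hex : ∀ j, ∃ a, g a = h j := by
      intro j
      have : h j ∈ univ.image g := by
        rw [← hl]
        exact mem_image_of_mem _ (mem_univ _)
      obtain ⟨a, _, ha⟩ := mem_image.1 this
      exact ⟨a, ha⟩
    choose σ hσ using hex
    have hσi : Function.Injective σ := by
      intro a b hab
      apply hinj
      rw [← hσ a, ← hσ b, hab]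
    have hbij : Function.Bijective σ := Finite.injective_iff_bijective.1 hσi
    refine Set.mem_iUnion.2 ⟨(i, Equiv.ofBijective σ hbij), ?_⟩
    have hcomp : g ∘ (Equiv.ofBijective σ hbij) = h := by
      funext j
      exact hσ j
    show (∀ j, (g ∘ (Equiv.ofBijective σ hbij)) j ∈ U) ∧
      EdgeIn H (r + 1) (T i) (List.ofFn (g ∘ (Equiv.ofBijective σ hbij)))
    rw [hcomp]
    refine ⟨fun j => ?_, he⟩
    rw [← hσ j]
    exact hg _
  have h1 : ({g : Fin (r + 1) → V | (∀ j, g j ∈ U) ∧ OrdIn H (r + 1) T (univ.image g)}.ncard) ≤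
      ∑ p : Fin q × Equiv.Perm (Fin (r + 1)), ({g : Fin (r + 1) → V |
        g ∘ p.2 ∈ {g : Fin (r + 1) → V | (∀ j, g j ∈ U) ∧
          EdgeIn H (r + 1) (T p.1) (List.ofFn g)}}).ncard :=
    (Set.ncard_le_ncard hsub (Set.toFinite _)).trans (Set.ncard_iUnion_le_of_fintype _)
  have h2 : ∀ p : Fin q × Equiv.Perm (Fin (r + 1)), ((({g : Fin (r + 1) → V |
        g ∘ p.2 ∈ {g : Fin (r + 1) → V | (∀ j, g j ∈ U) ∧
          EdgeIn H (r + 1) (T p.1) (List.ofFn g)}}).ncard : ℕ) : ℝ) ≤ ρ := by
    intro p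
    refine le_trans ?_ (hρ p.1)
    have : ({g : Fin (r + 1) → V |
        g ∘ p.2 ∈ {g : Fin (r + 1) → V | (∀ j, g j ∈ U) ∧
          EdgeIn H (r + 1) (T p.1) (List.ofFn g)}}).ncard ≤
        ({g : Fin (r + 1) → V | (∀ j, g j ∈ U) ∧
          EdgeIn H (r + 1) (T p.1) (List.ofFn g)}).ncard := by
      refine Set.ncard_le_ncard_of_injOn (fun g => g ∘ p.2) (fun g hg => hg) ?_ (Set.toFinite _)
      intro g _ g' _ hgg
      funext j
      have := congrFun hgg (p.2.symm j)
      simpa using this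
    exact_mod_cast this
  calc ({g : Fin (r + 1) → V | (∀ j, g j ∈ U) ∧ OrdIn H (r + 1) T (univ.image g)}.ncard : ℝ)
      ≤ ∑ p : Fin q × Equiv.Perm (Fin (r + 1)), (({g : Fin (r + 1) → V |
        g ∘ p.2 ∈ {g : Fin (r + 1) → V | (∀ j, g j ∈ U) ∧
          EdgeIn H (r + 1) (T p.1) (List.ofFn g)}}).ncard : ℝ) := by exact_mod_cast h1
    _ ≤ ∑ p : Fin q × Equiv.Perm (Fin (r + 1)), ρ := sum_le_sum fun p _ => h2 p
    _ = q * (r + 1).factorial * ρ := by
        rw [sum_const, card_univ, Fintype.card_prod, Fintype.card_fin, Fintype.card_perm,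
          Fintype.card_fin, nsmul_eq_mul]
        push_cast
        ring

/-- pairs (tuple, good neighbour) inside `U` are `(r+1)`-tuples with an ordering in a class -/
theorem sum_pairs {r q : ℕ} {H : Finset (Finset V)} {T : Fin q → Set (List V)} (U : Finset V)
    (F : Finset (Fin (r + 1 - 1) → V)) (hF : ∀ f ∈ F, ∀ l, f l ∈ U) :
    ∑ f ∈ F, (gn H (r + 1) T f ∩ U).card ≤
      {g : Fin (r + 1) → V | (∀ j, g j ∈ U) ∧ OrdIn H (r + 1) T (univ.image g)}.ncard := by
  classical
  rw [ncard_filter, ← card_sigma]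
  have himg : ∀ (f : Fin r → V) (v : V),
      univ.image (Fin.cons v f : Fin (r + 1) → V) = insert v (univ.image f) := by
    intro f v
    ext w
    rw [mem_insert, mem_image, mem_image]
    constructor
    · rintro ⟨j, _, hj⟩
      rcases Fin.eq_zero_or_eq_succ j with rfl | ⟨i, rfl⟩
      · left
        rw [← hj, Fin.cons_zero]
      · right
        exact ⟨i, mem_univ _, by rw [← hj, Fin.cons_succ]⟩
    · rintro (rfl | ⟨i, _, hi⟩)
      · exact ⟨0, mem_univ _, Fin.cons_zero _ _⟩
      · exact ⟨i.succ, mem_univ _, by rw [Fin.cons_succ]; exact hi⟩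
  refine card_le_card_of_injOn
    (fun p : (Σ _ : Fin (r + 1 - 1) → V, V) => (Fin.cons p.2 p.1 : Fin (r + 1) → V)) ?_ ?_
  · rintro ⟨f, v⟩ hp
    have hp' := mem_sigma.1 (mem_coe.1 hp)
    have hv := mem_inter.1 hp'.2
    refine mem_coe.2 ((@mem_filter _ _ _ _ _).2 ⟨mem_univ _, fun j => ?_, ?_⟩)
    · rcases Fin.eq_zero_or_eq_succ j with rfl | ⟨i, rfl⟩
      · exact hv.2
      · exact hF f hp'.1 i
    · have := mem_gn.1 hv.1
      show OrdIn H (r + 1) T (univ.image (Fin.cons v f : Fin (r + 1) → V))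
      rw [himg]
      exact this
  · rintro ⟨f, v⟩ _ ⟨f', v'⟩ _ h
    have h' : (Fin.cons v f : Fin (r + 1) → V) = Fin.cons v' f' := h
    have hc := Fin.cons_inj.1 h'
    obtain ⟨h1, h2⟩ := hc
    subst h1
    subst h2
    rfl

open Classical in
/-- typical tuples: inside `U'`, many good neighbours, few of them in `U` -/
noncomputable def typ {q : ℕ} (H : Finset (Finset V)) (k : ℕ) (T : Fin q → Set (List V))
    (U U' : Finset V) (γ : ℝ) : Finset (Fin (k - 1) → V) :=
  univ.filter fun f => (∀ l, f l ∈ U') ∧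
    (1 / 2 - γ) * Fintype.card V ≤ ((gn H k T f).card : ℝ) ∧
    ((gn H k T f ∩ U).card : ℝ) ≤ 1 / 400 * Fintype.card V

/-- there are many typical tuples -/
theorem typ_card {q r : ℕ} {H : Finset (Finset V)} {T : Fin q → Set (List V)} {U U' : Finset V}
    {γ ξ : ℝ} (hξ : 0 < ξ) (hn : 0 < Fintype.card V) (hU' : U' ⊆ U)
    (hU : ξ / 2 * Fintype.card V ≤ (U'.card : ℝ)) (h3 : P3 H (r + 1) T γ)
    (hγ : γ ≤ 1 / 4 * (ξ / 2) ^ r)
    (hp : ({g : Fin (r + 1) → V | (∀ j, g j ∈ U) ∧ OrdIn H (r + 1) T (univ.image g)}.ncard : ℝ) ≤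
      1 / 1600 * (ξ / 2) ^ r * (Fintype.card V : ℝ) ^ (r + 1)) :
    1 / 2 * (ξ / 2) ^ r * (Fintype.card V : ℝ) ^ r ≤ ((typ H (r + 1) T U U' γ).card : ℝ) := by
  classical
  have hn' : (0 : ℝ) < Fintype.card V := by exact_mod_cast hn
  have hnr : (0 : ℝ) < (Fintype.card V : ℝ) ^ r := by positivity
  set A : Finset (Fin (r + 1 - 1) → V) := univ.filter fun f => ∀ l, f l ∈ U' with hA
  set B1 : Finset (Fin (r + 1 - 1) → V) := univ.filter fun f =>
    ((gn H (r + 1) T f).card : ℝ) < (1 / 2 - γ) * Fintype.card V with hB1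
  set B2 : Finset (Fin (r + 1 - 1) → V) := univ.filter fun f => (∀ l, f l ∈ U) ∧
    1 / 400 * (Fintype.card V : ℝ) < ((gn H (r + 1) T f ∩ U).card : ℝ) with hB2
  have hAc : (A.card : ℝ) = (U'.card : ℝ) ^ r := by
    have h1 : A = Fintype.piFinset fun _ : Fin (r + 1 - 1) => U' := by
      ext f
      rw [hA, mem_filter, Fintype.mem_piFinset]
      simp
    rw [h1, Fintype.card_piFinset, prod_const, card_univ, Fintype.card_fin]
    push_cast
    rfl
  have hA2 : (ξ / 2) ^ r * (Fintype.card V : ℝ) ^ r ≤ A.card := by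
    rw [hAc, ← mul_pow]
    exact pow_le_pow_left₀ (by positivity) hU r
  have hB1c : (B1.card : ℝ) ≤ γ * (Fintype.card V : ℝ) ^ r := by
    have h1 := h3
    unfold P3 at h1
    rw [ncard_filter] at h1
    exact h1
  have hB2c : (B2.card : ℝ) ≤ 1 / 4 * (ξ / 2) ^ r * (Fintype.card V : ℝ) ^ r := by
    have h1 := sum_pairs (H := H) (T := T) U B2 (fun f hf => (mem_filter.1 hf).2.1)
    have h2 : (B2.card : ℝ) * (1 / 400 * (Fintype.card V : ℝ)) ≤
        ∑ f ∈ B2, ((gn H (r + 1) T f ∩ U).card : ℝ) := by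
      have := card_nsmul_le_sum B2 (fun f => ((gn H (r + 1) T f ∩ U).card : ℝ))
        (1 / 400 * (Fintype.card V : ℝ)) (fun f hf => (mem_filter.1 hf).2.2.le)
      rw [nsmul_eq_mul] at this
      exact this
    have h3 : (∑ f ∈ B2, ((gn H (r + 1) T f ∩ U).card : ℝ)) ≤
        1 / 1600 * (ξ / 2) ^ r * (Fintype.card V : ℝ) ^ (r + 1) := by
      refine le_trans ?_ hp
      exact_mod_cast h1
    have h4 := h2.trans h3
    rw [pow_succ] at h4
    have h5 : (B2.card : ℝ) * (1 / 400) * (Fintype.card V : ℝ) ≤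
        1 / 1600 * (ξ / 2) ^ r * (Fintype.card V : ℝ) ^ r * (Fintype.card V : ℝ) := by
      nlinarith
    have h6 := le_of_mul_le_mul_right h5 hn'
    linarith
  have hsub : A ⊆ typ H (r + 1) T U U' γ ∪ B1 ∪ B2 := by
    intro f hf
    have hfA := (mem_filter.1 hf).2
    by_cases h1 : ((gn H (r + 1) T f).card : ℝ) < (1 / 2 - γ) * Fintype.card V
    · exact mem_union_left _ (mem_union_right _ (mem_filter.2 ⟨mem_univ _, h1⟩))
    by_cases h2 : 1 / 400 * (Fintype.card V : ℝ) < ((gn H (r + 1) T f ∩ U).card : ℝ)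
    · exact mem_union_right _ (mem_filter.2 ⟨mem_univ _, fun l => hU' (hfA l), h2⟩)
    · refine mem_union_left _ (mem_union_left _ ?_)
      unfold typ
      exact mem_filter.2 ⟨mem_univ _, hfA, not_lt.1 h1, not_lt.1 h2⟩
  have hc : (A.card : ℝ) ≤ (typ H (r + 1) T U U' γ).card + B1.card + B2.card := by
    have h1 := card_le_card hsub
    have h2 := card_union_le (typ H (r + 1) T U U' γ ∪ B1) B2
    have h3 := card_union_le (typ H (r + 1) T U U' γ) B1
    have : A.card ≤ (typ H (r + 1) T U U' γ).card + B1.card + B2.card := by omega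
    exact_mod_cast this
  have hγ' : γ * (Fintype.card V : ℝ) ^ r ≤ 1 / 4 * (ξ / 2) ^ r * (Fintype.card V : ℝ) ^ r :=
    mul_le_mul_of_nonneg_right hγ hnr.le
  linarith

end Pool.Agent.KK.H33
end

/-! ### Helper33_KK.COB3 -/
section
/-!
# Squad KK: row COB, part 3: the rounds
-/

set_option autoImplicit false
set_option linter.unusedSectionVars false

open Finset

namespace Pool.Agent.KK.H33

open Pool.Agent.KK

variable {V : Type} [Fintype V] [DecidableEq V]

/-- the state after `j` rounds: unprocessed blocks of size `t`, new blocks of size `s` -/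
def Sta3 {q : ℕ} (H : Finset (Finset V)) (k : ℕ) (T : Fin q → Set (List V)) (W U : Finset V)
    (t s ℓ b j : ℕ) : Prop :=
  ∃ P C : List (Fin k → Finset V), P.length + j = b ∧ (∀ B ∈ P, Block H k T t B) ∧
    Disjoint (cv P) W ∧ Disjoint (cv P) U ∧ Pw P ∧ (∀ B ∈ C, Block H k T s B) ∧
    Disjoint (cv C) W ∧ Pw C ∧ Disjoint (cv P) (cv C) ∧ C.length = (ℓ + 1) * j ∧
    (cv C ∩ U).card ≤ 2 * (k - 1) * s * j

/-- update of the state -/
theorem update {q k t s ℓ b j : ℕ} {H : Finset (Finset V)} {T : Fin q → Set (List V)}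
    {W U : Finset V} (hWU : Disjoint W U) (P1 P2 C L : List (Fin k → Finset V))
    (B : Fin k → Finset V) (X : Finset V)
    (h1 : (P1 ++ B :: P2).length + j = b) (h2 : ∀ B' ∈ P1 ++ B :: P2, Block H k T t B')
    (h3 : Disjoint (cv (P1 ++ B :: P2)) W) (h4 : Disjoint (cv (P1 ++ B :: P2)) U)
    (h5 : Pw (P1 ++ B :: P2)) (h6 : ∀ B' ∈ C, Block H k T s B') (h7 : Disjoint (cv C) W)
    (h8 : Pw C) (h9 : Disjoint (cv (P1 ++ B :: P2)) (cv C)) (h10 : C.length = (ℓ + 1) * j)
    (h11 : (cv C ∩ U).card ≤ 2 * (k - 1) * s * j) (g1 : L.length = ℓ + 1)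
    (g2 : ∀ B' ∈ L, Block H k T s B') (g3 : Pw L) (g4 : X ⊆ U \ cv C)
    (g5 : X.card ≤ 2 * (k - 1) * s) (g6 : cv L ⊆ vs B ∪ X) : Sta3 H k T W U t s ℓ b (j + 1) := by
  have inB : ∀ v, v ∈ vs B → v ∈ cv (P1 ++ B :: P2) := fun v hv =>
    mem_cv.2 ⟨B, by simp, hv⟩
  have inP : ∀ v, v ∈ cv (P1 ++ P2) → v ∈ cv (P1 ++ B :: P2) := by
    intro v hv
    obtain ⟨E, hE, hvE⟩ := mem_cv.1 hv
    refine mem_cv.2 ⟨E, ?_, hvE⟩
    rcases List.mem_append.1 hE with h | h
    · exact List.mem_append_left _ h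
    · exact List.mem_append_right _ (List.mem_cons_of_mem _ h)
  have hsub : (P1 ++ P2).Sublist (P1 ++ B :: P2) :=
    List.Sublist.append (List.Sublist.refl _) (List.sublist_cons_self _ _)
  have hL : ∀ v, v ∈ cv L → v ∈ vs B ∨ v ∈ X := fun v hv => mem_union.1 (g6 hv)
  have hX : ∀ v, v ∈ X → v ∈ U ∧ v ∉ cv C := fun v hv => mem_sdiff.1 (g4 hv)
  have hBP : ∀ v, v ∈ vs B → v ∉ cv (P1 ++ P2) := by
    intro v hv hw
    obtain ⟨E, hE, hvE⟩ := mem_cv.1 hw
    have h5' := List.pairwise_append.1 h5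
    rcases List.mem_append.1 hE with h | h
    · exact disjoint_left.1 (h5'.2.2 E h B List.mem_cons_self) hvE hv
    · exact disjoint_left.1 ((List.pairwise_cons.1 h5'.2.1).1 E h) hv hvE
  refine ⟨P1 ++ P2, L ++ C, ?_, ?_, ?_, ?_, ?_, ?_, ?_, ?_, ?_, ?_, ?_⟩
  · rw [List.length_append, List.length_cons] at h1
    rw [List.length_append]
    omega
  · intro E hE
    exact h2 E (hsub.subset hE)
  · exact disjoint_left.2 fun v hv hw => disjoint_left.1 h3 (inP v hv) hw
  · exact disjoint_left.2 fun v hv hw => disjoint_left.1 h4 (inP v hv) hw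
  · exact List.Pairwise.sublist hsub h5
  · intro E hE
    rcases List.mem_append.1 hE with h | h
    · exact g2 E h
    · exact h6 E h
  · refine disjoint_left.2 fun v hv hw => ?_
    rw [cv_append, mem_union] at hv
    rcases hv with hv | hv
    · rcases hL v hv with h | h
      · exact disjoint_left.1 h3 (inB v h) hw
      · exact disjoint_left.1 hWU hw (hX v h).1
    · exact disjoint_left.1 h7 hv hw
  · refine List.pairwise_append.2 ⟨g3, h8, fun D hD E hE => ?_⟩
    refine disjoint_left.2 fun v hv hw => ?_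
    have hvL : v ∈ cv L := mem_cv.2 ⟨D, hD, hv⟩
    have hvC : v ∈ cv C := mem_cv.2 ⟨E, hE, hw⟩
    rcases hL v hvL with h | h
    · exact disjoint_left.1 h9 (inB v h) hvC
    · exact (hX v h).2 hvC
  · refine disjoint_left.2 fun v hv hw => ?_
    rw [cv_append, mem_union] at hw
    rcases hw with hw | hw
    · rcases hL v hw with h | h
      · exact hBP v h hv
      · exact disjoint_left.1 h4 (inP v hv) (hX v h).1
    · exact disjoint_left.1 h9 (inP v hv) hw
  · rw [List.length_append, g1, h10]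
    ring
  · have hs : cv (L ++ C) ∩ U ⊆ X ∪ (cv C ∩ U) := by
      intro v hv
      obtain ⟨hv1, hv2⟩ := mem_inter.1 hv
      rw [cv_append, mem_union] at hv1
      rcases hv1 with h | h
      · rcases hL v h with h | h
        · exact absurd hv2 (disjoint_left.1 h4 (inB v h))
        · exact mem_union_left _ h
      · exact mem_union_right _ (mem_inter.2 ⟨h, hv2⟩)
    have h12 := (card_le_card hs).trans (card_union_le _ _)
    have h13 : 2 * (k - 1) * s * (j + 1) = 2 * (k - 1) * s + 2 * (k - 1) * s * j := by ring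
    omega

/-- one round -/
theorem round {q r t s ℓ b j : ℕ} {H : Finset (Finset V)} {T : Fin q → Set (List V)}
    {W U : Finset V} {γ ξ : ℝ} (hr : 3 ≤ r + 1) (hξ : 0 < ξ) (hn : 0 < Fintype.card V)
    (ht : t = ℓ * s) (hℓ : 0 < ℓ) (hs : 0 < s)
    (hWU : Disjoint W U) (hcard : U.card + W.card + (r + 1) * t * b = Fintype.card V)
    (hW : (W.card : ℝ) ≤ 1 / 200 * Fintype.card V) (hU : ξ * Fintype.card V ≤ (U.card : ℝ))
    (h3 : P3 H (r + 1) T γ) (hγ : γ ≤ 1 / 4 * (ξ / 2) ^ r) (hγ' : γ ≤ 1 / 400)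
    (hp : ({g : Fin (r + 1) → V | (∀ j, g j ∈ U) ∧ OrdIn H (r + 1) T (univ.image g)}.ncard : ℝ) ≤
      1 / 1600 * (ξ / 2) ^ r * (Fintype.card V : ℝ) ^ (r + 1))
    (hj1 : ((r + 1 : ℕ) * t * j : ℝ) ≤ 1 / 50 * Fintype.card V)
    (hj2 : (2 * r * s * j : ℝ) ≤ ξ / 2 * Fintype.card V)
    (hcoa : ∀ (B : Fin (r + 1) → Finset V) (U : Finset V), (∀ j, (B j).card = t) →
        (∀ i j, i ≠ j → Disjoint (B i) (B j)) → (∀ j, Disjoint (B j) U) →
        1 / 20 * (ξ / 2) ^ r * (Fintype.card V : ℝ) ^ r ≤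
          ({f : Fin (r + 1 - 1) → V | (∀ l, f l ∈ U) ∧ ∃ i j, i ≠ j ∧
            1 / (10 * (r + 1 : ℕ)) * (t : ℝ) ≤ ((gn H (r + 1) T f ∩ B i).card : ℝ) ∧
            1 / (10 * (r + 1 : ℕ)) * (t : ℝ) ≤ ((gn H (r + 1) T f ∩ B j).card : ℝ)}.ncard : ℝ) →
        ∃ (i j : Fin (r + 1)) (P P' W W' : Finset V) (C C' : Fin (r + 1) → Finset V), i ≠ j ∧
          P ⊆ B i ∧ P' ⊆ B j ∧ W ⊆ U ∧ W' ⊆ U ∧ Disjoint W W' ∧ P.card = s ∧ P'.card = s ∧
          W.card = (r + 1 - 1) * s ∧ W'.card = (r + 1 - 1) * s ∧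
          Block H (r + 1) T s C ∧ Block H (r + 1) T s C' ∧
          Finset.univ.biUnion C = P ∪ W ∧ Finset.univ.biUnion C' = P' ∪ W')
    (hst : Sta3 H (r + 1) T W U t s ℓ b j) : Sta3 H (r + 1) T W U t s ℓ b (j + 1) := by
  classical
  obtain ⟨P, C, h1, h2, h3', h4, h5, h6, h7, h8, h9, h10, h11⟩ := hst
  have hn' : (0 : ℝ) < Fintype.card V := by exact_mod_cast hn
  have ht0 : 0 < t := by rw [ht]; exact Nat.mul_pos hℓ hs
  -- the free set
  have hU' : ξ / 2 * Fintype.card V ≤ ((U \ cv C).card : ℝ) := by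
    have e1 : (U \ cv C).card + (cv C ∩ U).card = U.card := by
      rw [inter_comm]
      exact card_sdiff_add_card_inter U (cv C)
    have e2 : ((U \ cv C).card : ℝ) + ((cv C ∩ U).card : ℝ) = U.card := by exact_mod_cast e1
    have e3 : ((cv C ∩ U).card : ℝ) ≤ 2 * r * s * j := by
      have : (cv C ∩ U).card ≤ 2 * r * s * j := h11
      exact_mod_cast this
    linarith
  set F := typ H (r + 1) T U (U \ cv C) γ with hF
  have hFc := typ_card (H := H) (T := T) (U := U) (U' := U \ cv C) hξ hn sdiff_subset hU' h3 hγ hp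
  rw [← hF] at hFc
  have hFne : F.Nonempty := by
    rw [← card_pos]
    have : (0 : ℝ) < F.card := lt_of_lt_of_le (by positivity) hFc
    exact_mod_cast this
  have hcP : (cv P).card = (r + 1) * t * P.length := card_cv h2 h5
  -- good neighbours in the unprocessed blocks
  have hlow : ∀ f ∈ F, 47 / 100 * (Fintype.card V : ℝ) ≤
      ((gn H (r + 1) T f ∩ cv P).card : ℝ) := by
    intro f hf
    obtain ⟨_, _, f2, f3⟩ := mem_filter.1 hf
    have e1 : gn H (r + 1) T f ⊆ (gn H (r + 1) T f ∩ cv P) ∪ (gn H (r + 1) T f ∩ U) ∪ W ∪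
        (cv P ∪ U ∪ W)ᶜ := by
      intro v hv
      by_cases a1 : v ∈ cv P
      · exact mem_union_left _ (mem_union_left _ (mem_union_left _ (mem_inter.2 ⟨hv, a1⟩)))
      by_cases a2 : v ∈ U
      · exact mem_union_left _ (mem_union_left _ (mem_union_right _ (mem_inter.2 ⟨hv, a2⟩)))
      by_cases a3 : v ∈ W
      · exact mem_union_left _ (mem_union_right _ a3)
      · refine mem_union_right _ (mem_compl.2 fun h => ?_)
        rcases mem_union.1 h with h | h
        · rcases mem_union.1 h with h | h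
          · exact a1 h
          · exact a2 h
        · exact a3 h
    have e2 : ((cv P ∪ U ∪ W)ᶜ).card = (r + 1) * t * j := by
      have d1 : Disjoint (cv P ∪ U) W := disjoint_union_left.2 ⟨h3', hWU.symm⟩
      have d2 := card_union_of_disjoint d1
      have d3 := card_union_of_disjoint h4
      have d4 : (r + 1) * t * b = (r + 1) * t * P.length + (r + 1) * t * j := by
        rw [← h1]
        ring
      rw [card_compl, d2, d3, hcP]
      omega
    have e3 := card_le_card e1
    have e4 := card_union_le ((gn H (r + 1) T f ∩ cv P) ∪ (gn H (r + 1) T f ∩ U) ∪ W)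
      ((cv P ∪ U ∪ W)ᶜ)
    have e5 := card_union_le ((gn H (r + 1) T f ∩ cv P) ∪ (gn H (r + 1) T f ∩ U)) W
    have e6 := card_union_le (gn H (r + 1) T f ∩ cv P) (gn H (r + 1) T f ∩ U)
    rw [e2] at e4
    have e7 : (gn H (r + 1) T f).card ≤ (gn H (r + 1) T f ∩ cv P).card +
        (gn H (r + 1) T f ∩ U).card + W.card + (r + 1) * t * j := by omega
    have e8 : ((gn H (r + 1) T f).card : ℝ) ≤ ((gn H (r + 1) T f ∩ cv P).card : ℝ) +
        ((gn H (r + 1) T f ∩ U).card : ℝ) + (W.card : ℝ) + ((r + 1 : ℕ) * t * j : ℝ) := by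
      exact_mod_cast e7
    have e9 : γ * (Fintype.card V : ℝ) ≤ 1 / 400 * Fintype.card V :=
      mul_le_mul_of_nonneg_right hγ' hn'.le
    linarith
  have hPN : (((r + 1 : ℕ) : ℝ) * (t : ℝ) * (P.length : ℝ)) ≤ (Fintype.card V : ℝ) := by
    have : (r + 1) * t * P.length ≤ Fintype.card V := by
      rw [← hcP]
      exact card_le_univ _
    exact_mod_cast this
  obtain ⟨B, hBP, hBc⟩ := choose_block (k := r + 1) (t := t) F (fun f => gn H (r + 1) T f)
    (Fintype.card V : ℝ) hn' hFne P (fun B hB => card_vs (h2 B hB)) hPN hlow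
  have hB := h2 B hBP
  have hBU : Disjoint (vs B) (U \ cv C) :=
    disjoint_left.2 fun v hv hw =>
      disjoint_left.1 h4 (mem_cv.2 ⟨B, hBP, hv⟩) (mem_sdiff.1 hw).1
  have hcount : 1 / 20 * (ξ / 2) ^ r * (Fintype.card V : ℝ) ^ r ≤
          ({f : Fin (r + 1 - 1) → V | (∀ l, f l ∈ U \ cv C) ∧ ∃ i j, i ≠ j ∧
            1 / (10 * (r + 1 : ℕ)) * (t : ℝ) ≤ ((gn H (r + 1) T f ∩ B i).card : ℝ) ∧
            1 / (10 * (r + 1 : ℕ)) * (t : ℝ) ≤
              ((gn H (r + 1) T f ∩ B j).card : ℝ)}.ncard : ℝ) := by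
    rw [ncard_filter]
    have e1 : (F.filter fun f => 4 / 10 * (((r + 1 : ℕ) : ℝ) * (t : ℝ)) ≤
        ((gn H (r + 1) T f ∩ vs B).card : ℝ)) ⊆
        univ.filter (fun f : Fin (r + 1 - 1) → V => (∀ l, f l ∈ U \ cv C) ∧ ∃ i j, i ≠ j ∧
            1 / (10 * (r + 1 : ℕ)) * (t : ℝ) ≤ ((gn H (r + 1) T f ∩ B i).card : ℝ) ∧
            1 / (10 * (r + 1 : ℕ)) * (t : ℝ) ≤ ((gn H (r + 1) T f ∩ B j).card : ℝ)) := by
      intro f hf
      obtain ⟨hf1, hf2⟩ := mem_filter.1 hf
      obtain ⟨_, hf3, _⟩ := mem_filter.1 hf1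
      refine mem_filter.2 ⟨mem_univ _, hf3, ?_⟩
      exact two_parts hr ht0 _ B hB.1 hf2
    have e2 : (((F.filter fun f => 4 / 10 * (((r + 1 : ℕ) : ℝ) * (t : ℝ)) ≤
        ((gn H (r + 1) T f ∩ vs B).card : ℝ)).card : ℕ) : ℝ) ≤ _ :=
      Nat.cast_le.2 (card_le_card e1)
    refine le_trans ?_ e2
    refine le_trans ?_ hBc
    linarith
  have hres := hcoa B (U \ cv C) hB.1 hB.2.1 (disj_vs_right.1 hBU) hcount
  rw [ht] at hB
  obtain ⟨L, X, g1, g2, g3, g4, g5, g6⟩ := step hℓ hB hBU hres
  obtain ⟨P1, P2, rfl⟩ := List.append_of_mem hBP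
  exact update hWU P1 P2 C L B X h1 h2 h3' h4 h5 h6 h7 h8 h9 h10 h11 g1 g2 g3 g4 g5 g6

end Pool.Agent.KK.H33
end

/-! ### Helper33_KK.COB -/
section
/-!
# Squad KK: row COB (one round of the covering)
-/

set_option autoImplicit false
set_option linter.unusedSectionVars false

open Finset

namespace Pool.Agent.KK.H33

open Pool.Agent.KK

variable {V : Type} [Fintype V] [DecidableEq V]

/-- a longest tiling -/
theorem exists_max {q k t : ℕ} {H : Finset (Finset V)} {T : Fin q → Set (List V)} {W : Finset V}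
    (hk : 0 < k) (ht : 0 < t) (h0 : ∃ L, Tiling H k T t W L) :
    ∃ L, Tiling H k T t W L ∧ ∀ L', Tiling H k T t W L' → L'.length ≤ L.length := by
  have hb : ∀ L, Tiling H k T t W L → L.length ≤ Fintype.card V := by
    intro L hL
    obtain ⟨h1, _, h3⟩ := til_iff.1 hL
    have h4 := card_cv h1 h3
    have h5 := card_le_univ (cv L)
    have h6 : 1 * L.length ≤ k * t * L.length := Nat.mul_le_mul_right _ (Nat.mul_pos hk ht)
    omega
  have hne : {m : ℕ | ∃ L, Tiling H k T t W L ∧ L.length = m}.Nonempty := by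
    obtain ⟨L, hL⟩ := h0
    exact ⟨L.length, L, hL, rfl⟩
  have hbd : BddAbove {m : ℕ | ∃ L, Tiling H k T t W L ∧ L.length = m} :=
    ⟨Fintype.card V, by rintro m ⟨L, hL, rfl⟩; exact hb L hL⟩
  obtain ⟨L, hL, hLm⟩ := Nat.sSup_mem hne hbd
  refine ⟨L, hL, fun L' hL' => ?_⟩
  rw [hLm]
  exact le_csSup hbd ⟨L', hL', rfl⟩

/-- in the uncovered set of a longest tiling the tuples of every class are few -/
theorem few_of_max {q k t : ℕ} {ρ : ℝ} {H : Finset (Finset V)} {T : Fin q → Set (List V)}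
    {W : Finset V} {L : List (Fin k → Finset V)} (ht : 0 < t)
    (hErd : ∀ E : Set (Fin k → V), ρ * (Fintype.card V : ℝ) ^ k ≤ E.ncard →
      ∃ A : Fin k → Finset V, (∀ i, (A i).card = t) ∧ (∀ i j, i ≠ j → Disjoint (A i) (A j)) ∧
        ∀ x : Fin k → V, (∀ i, x i ∈ A i) → x ∈ E)
    (hL : Tiling H k T t W L) (hmax : ∀ L', Tiling H k T t W L' → L'.length ≤ L.length)
    (i : Fin q) :
    ({g : Fin k → V | (∀ j, g j ∈ (W ∪ cv L)ᶜ) ∧
      EdgeIn H k (T i) (List.ofFn g)}.ncard : ℝ) ≤ ρ * (Fintype.card V : ℝ) ^ k := by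
  classical
  by_contra hcon
  push Not at hcon
  obtain ⟨A, hA1, hA2, hA3⟩ := hErd _ hcon.le
  have hAU : ∀ a, ∀ v ∈ A a, v ∈ (W ∪ cv L)ᶜ := by
    intro a v hv
    have hex : ∀ j, ∃ w, w ∈ A j := fun j => by
      have : (A j).Nonempty := by
        rw [← card_pos, hA1 j]
        exact ht
      exact this
    choose w hw using hex
    have h1 := (hA3 (Function.update w a v) (fun j => by
      by_cases hja : j = a
      · subst hja
        rw [Function.update_self]
        exact hv
      · rw [Function.update_of_ne hja]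
        exact hw j)).1 a
    rw [Function.update_self] at h1
    exact h1
  obtain ⟨b1, b2, b3⟩ := til_iff.1 hL
  have hAv : ∀ v ∈ vs A, v ∉ W ∧ v ∉ cv L := by
    intro v hv
    obtain ⟨a, ha⟩ := mem_vs.1 hv
    have h1 := mem_compl.1 (hAU a v ha)
    exact ⟨fun h => h1 (mem_union_left _ h), fun h => h1 (mem_union_right _ h)⟩
  have hnew : Tiling H k T t W (A :: L) := by
    refine til_iff.2 ⟨?_, ?_, ?_⟩
    · intro B hB
      rcases List.mem_cons.1 hB with rfl | hB
      · exact ⟨hA1, hA2, i, fun x hx => (hA3 x hx).2⟩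
      · exact b1 B hB
    · show Disjoint (vs A ∪ cv L) W
      rw [disjoint_union_left]
      exact ⟨disjoint_left.2 fun v hv hw => (hAv v hv).1 hw, b2⟩
    · refine List.pairwise_cons.2 ⟨fun B hB => ?_, b3⟩
      exact disjoint_left.2 fun v hv hw => (hAv v hv).2 (mem_cv.2 ⟨B, hB, hw⟩)
  have := hmax _ hnew
  rw [List.length_cons] at this
  omega

/-- the final state gives the new tiling -/
theorem finish {q k t s ℓ b m : ℕ} {H : Finset (Finset V)} {T : Fin q → Set (List V)}
    {W U : Finset V} (ht : t = ℓ * s) (hst : Sta3 H k T W U t s ℓ b m) :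
    ∃ L, Tiling H k T s W L ∧ L.length = ℓ * b + m := by
  obtain ⟨P, C, h1, h2, h3', h4, h5, h6, h7, h8, h9, h10, h11⟩ := hst
  obtain ⟨L, g1, g2, g3, g4⟩ := cutAll ht P h2 h5
  refine ⟨L ++ C, til_iff.2 ⟨?_, ?_, ?_⟩, ?_⟩
  · intro E hE
    rcases List.mem_append.1 hE with h | h
    · exact g2 E h
    · exact h6 E h
  · rw [cv_append, disjoint_union_left]
    exact ⟨disjoint_of_subset_left g3 h3', h7⟩
  · refine List.pairwise_append.2 ⟨g4, h8, fun D hD E hE => ?_⟩
    refine disjoint_left.2 fun v hv hw => ?_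
    exact disjoint_left.1 h9 (g3 (mem_cv.2 ⟨D, hD, hv⟩)) (mem_cv.2 ⟨E, hE, hw⟩)
  · rw [List.length_append, g1, h10, ← h1]
    ring

/-- **COB** (one round of the covering) -/
theorem cob (hCoa : CoaStmt) (hErd : ErdStmt) : CobStmt := by
  intro k q ξ hk hq hξ
  obtain ⟨r, rfl⟩ : ∃ r, k = r + 1 := ⟨k - 1, by omega⟩
  have hk' : (3 : ℝ) ≤ ((r + 1 : ℕ) : ℝ) := by exact_mod_cast hk
  have hk0 : (0 : ℝ) < ((r + 1 : ℕ) : ℝ) := by linarith
  have hq' : (0 : ℝ) < q := by exact_mod_cast hq
  have hfac : 0 < (r + 1).factorial := Nat.factorial_pos _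
  have hfac' : (0 : ℝ) < ((r + 1).factorial : ℝ) := by exact_mod_cast hfac
  obtain ⟨ℓ, hℓdef⟩ : ∃ ℓ : ℕ, ℓ = 10 * (r + 1) * q * (r + 1).factorial := ⟨_, rfl⟩
  have hℓ : 0 < ℓ := by rw [hℓdef]; positivity
  have hℓ' : (0 : ℝ) < ℓ := by exact_mod_cast hℓ
  have hℓ1 : (1 : ℝ) ≤ ℓ := by exact_mod_cast hℓ
  set κ : ℝ := min (1 / (100 * ((r + 1 : ℕ) : ℝ))) (ξ / (16 * ((r + 1 : ℕ) : ℝ))) with hκ
  have hκ0 : 0 < κ := by
    rw [hκ]
    exact lt_min (by positivity) (by positivity)
  have hκ1 : κ * ((r + 1 : ℕ) : ℝ) ≤ 1 / 100 := by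
    have : κ ≤ 1 / (100 * ((r + 1 : ℕ) : ℝ)) := min_le_left _ _
    calc κ * ((r + 1 : ℕ) : ℝ) ≤ 1 / (100 * ((r + 1 : ℕ) : ℝ)) * ((r + 1 : ℕ) : ℝ) :=
          mul_le_mul_of_nonneg_right this hk0.le
      _ = 1 / 100 := by field_simp
  have hκ2 : κ * ((r + 1 : ℕ) : ℝ) ≤ ξ / 16 := by
    have : κ ≤ ξ / (16 * ((r + 1 : ℕ) : ℝ)) := min_le_right _ _
    calc κ * ((r + 1 : ℕ) : ℝ) ≤ ξ / (16 * ((r + 1 : ℕ) : ℝ)) * ((r + 1 : ℕ) : ℝ) :=
          mul_le_mul_of_nonneg_right this hk0.le
      _ = ξ / 16 := by field_simp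
  set γ : ℝ := min (1 / 400) (1 / 4 * (ξ / 2) ^ r) with hγ
  have hγ0 : 0 < γ := lt_min (by norm_num) (by positivity)
  refine ⟨ℓ, ((r + 1 : ℕ) : ℝ) * κ / ℓ, γ, hℓ, by positivity, hγ0, ?_⟩
  intro s hs
  have hs' : (0 : ℝ) < s := by exact_mod_cast hs
  obtain ⟨t, ht⟩ : ∃ t : ℕ, t = ℓ * s := ⟨_, rfl⟩
  have ht0 : 0 < t := by rw [ht]; exact Nat.mul_pos hℓ hs
  have ht' : (0 : ℝ) < t := by exact_mod_cast ht0
  have htr : (t : ℝ) = ℓ * s := by rw [ht]; push_cast; ring
  set ρ : ℝ := 1 / 1600 * (ξ / 2) ^ r / (q * ((r + 1).factorial : ℝ)) with hρ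
  have hρ0 : 0 < ρ := by positivity
  obtain ⟨n₁, hn₁⟩ := hErd (r + 1) t ρ (by omega) ht0 hρ0
  obtain ⟨n₂, hn₂⟩ := hCoa (r + 1) q t s (1 / (10 * ((r + 1 : ℕ) : ℝ))) (1 / 20 * (ξ / 2) ^ r)
    (by omega) hq hs (by positivity) (by
      rw [htr, hℓdef]
      push_cast
      have : ((r : ℝ) + 1) ≠ 0 := by positivity
      apply le_of_eq
      field_simp)
  obtain ⟨n₃, hn₃⟩ := exists_nat_ge (100 * ((r + 1 : ℕ) : ℝ) * t + 16 * ((r + 1 : ℕ) : ℝ) * s / ξ + 1)
  refine ⟨max n₁ (max n₂ n₃), ?_⟩
  intro V _ _ H T hn hUni hTup h3 W hW x hx hall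
  have hnn1 : n₁ ≤ Fintype.card V := (le_max_left _ _).trans hn
  have hnn2 : n₂ ≤ Fintype.card V := ((le_max_left _ _).trans (le_max_right _ _)).trans hn
  have hnn3 : n₃ ≤ Fintype.card V := ((le_max_right _ _).trans (le_max_right _ _)).trans hn
  have hN : 100 * ((r + 1 : ℕ) : ℝ) * t + 16 * ((r + 1 : ℕ) : ℝ) * s / ξ + 1 ≤
      (Fintype.card V : ℝ) := hn₃.trans (by exact_mod_cast hnn3)
  have hN1 : 100 * ((r + 1 : ℕ) : ℝ) * t ≤ (Fintype.card V : ℝ) := by
    have : 0 < 16 * ((r + 1 : ℕ) : ℝ) * s / ξ := by positivity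
    linarith
  have hN2 : 16 * ((r + 1 : ℕ) : ℝ) * s ≤ ξ * (Fintype.card V : ℝ) := by
    have h1 : 16 * ((r + 1 : ℕ) : ℝ) * s / ξ ≤ (Fintype.card V : ℝ) := by
      have : 0 < 100 * ((r + 1 : ℕ) : ℝ) * t := by positivity
      linarith
    rw [div_le_iff₀ hξ] at h1
    linarith
  have hN0 : (0 : ℝ) < Fintype.card V := by
    have h1 : 0 < 16 * ((r + 1 : ℕ) : ℝ) * s / ξ := by positivity
    have h2 : 0 < 100 * ((r + 1 : ℕ) : ℝ) * t := by positivity
    linarith
  have hn0 : 0 < Fintype.card V := by exact_mod_cast hN0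
  -- the longest tiling
  obtain ⟨L₀, hL₀, hxL₀⟩ := hx
  rw [← ht] at hL₀
  obtain ⟨L, hL, hmax⟩ := exists_max (by omega : 0 < r + 1) ht0 ⟨L₀, hL₀⟩
  have hlen := hmax _ hL₀
  obtain ⟨b1, b2, b3⟩ := til_iff.1 hL
  have hcL := card_cv b1 b3
  have hall' := hall L (by rw [← ht]; exact hL)
  have hWU : Disjoint W (W ∪ cv L)ᶜ :=
    disjoint_left.2 fun v hv hw => mem_compl.1 hw (mem_union_left _ hv)
  have hLU : Disjoint (cv L) (W ∪ cv L)ᶜ :=
    disjoint_left.2 fun v hv hw => mem_compl.1 hw (mem_union_right _ hv)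
  have hcard : ((W ∪ cv L)ᶜ).card + W.card + (r + 1) * t * L.length = Fintype.card V := by
    have h1 := card_union_of_disjoint b2.symm
    have h2 := card_compl_add_card (W ∪ cv L)
    omega
  have hUc : ξ * Fintype.card V ≤ (((W ∪ cv L)ᶜ).card : ℝ) := by
    have h1 : (((W ∪ cv L)ᶜ).card : ℝ) + W.card + ((r + 1 : ℕ) : ℝ) * t * L.length =
        Fintype.card V := by exact_mod_cast hcard
    rw [htr] at h1
    linarith
  have hfew := few_of_max (ρ := ρ) ht0
    (fun E hE => hn₁ V hnn1 E hE) hL hmax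
  have hp := pairs_few (H := H) (T := T) ((W ∪ cv L)ᶜ) (ρ * (Fintype.card V : ℝ) ^ (r + 1)) hfew
  have hp' : ({g : Fin (r + 1) → V | (∀ j, g j ∈ (W ∪ cv L)ᶜ) ∧
      OrdIn H (r + 1) T (univ.image g)}.ncard : ℝ) ≤
      1 / 1600 * (ξ / 2) ^ r * (Fintype.card V : ℝ) ^ (r + 1) := by
    refine hp.trans (le_of_eq ?_)
    rw [hρ]
    field_simp
  -- the number of rounds
  obtain ⟨m, hm⟩ : ∃ m : ℕ, m = ⌈κ * Fintype.card V / t⌉₊ := ⟨_, rfl⟩
  have hm1 : κ * Fintype.card V / t ≤ m := by rw [hm]; exact Nat.le_ceil _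
  have hm2 : (m : ℝ) ≤ κ * Fintype.card V / t + 1 := by
    rw [hm]
    exact (Nat.ceil_lt_add_one (by positivity)).le
  have hm3 : (m : ℝ) * t ≤ κ * Fintype.card V + t := by
    have := mul_le_mul_of_nonneg_right hm2 ht'.le
    have h2 : (κ * Fintype.card V / t + 1) * t = κ * Fintype.card V + t := by
      field_simp
    linarith
  have hst : ∀ j ≤ m, Sta3 H (r + 1) T W ((W ∪ cv L)ᶜ) t s ℓ L.length j := by
    intro j
    induction j with
    | zero =>
      intro _
      refine ⟨L, [], by simp, b1, b2, hLU, b3, by simp, by simp [cv], List.Pairwise.nil,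
        by simp [cv], by simp, by simp [cv]⟩
    | succ j ih =>
      intro hj
      have hjm : (j : ℝ) ≤ m := by exact_mod_cast (by omega : j ≤ m)
      have hjt : (j : ℝ) * t ≤ κ * Fintype.card V + t :=
        (mul_le_mul_of_nonneg_right hjm ht'.le).trans hm3
      refine round (q := q) (γ := γ) (ξ := ξ) hk hξ hn0 ht hℓ hs hWU hcard hW hUc h3
        (min_le_right _ _) (min_le_left _ _) hp' ?_ ?_ ?_ (ih (by omega))
      · calc ((r + 1 : ℕ) : ℝ) * t * j = ((r + 1 : ℕ) : ℝ) * (j * t) := by ring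
          _ ≤ ((r + 1 : ℕ) : ℝ) * (κ * Fintype.card V + t) :=
            mul_le_mul_of_nonneg_left hjt hk0.le
          _ = κ * ((r + 1 : ℕ) : ℝ) * Fintype.card V + ((r + 1 : ℕ) : ℝ) * t := by ring
          _ ≤ 1 / 100 * Fintype.card V + 1 / 100 * Fintype.card V := by
            have h1 := mul_le_mul_of_nonneg_right hκ1 hN0.le
            linarith
          _ = 1 / 50 * Fintype.card V := by ring
      · have hst1 : (s : ℝ) ≤ t := by
          rw [htr]
          nlinarith
        have h1 : (s : ℝ) * j ≤ κ * Fintype.card V + s := by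
          have e1 : (s : ℝ) * j ≤ s * (κ * Fintype.card V / t + 1) :=
            mul_le_mul_of_nonneg_left (hjm.trans hm2) hs'.le
          have e2 : (s : ℝ) * (κ * Fintype.card V / t) ≤ κ * Fintype.card V := by
            have e3 : (s : ℝ) * (κ * Fintype.card V / t) = κ * Fintype.card V * (s / t) := by
              field_simp
            have e4 : (s : ℝ) / t ≤ 1 := by
              rw [div_le_one ht']
              exact hst1
            rw [e3]
            exact mul_le_of_le_one_right (by positivity) e4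
          linarith
        have h2 : (r : ℝ) ≤ ((r + 1 : ℕ) : ℝ) := by push_cast; linarith
        have h3 : 0 ≤ κ * Fintype.card V + s := by positivity
        calc (2 * r * s * j : ℝ) = 2 * (r * (s * j)) := by ring
          _ ≤ 2 * (r * (κ * Fintype.card V + s)) := by
            have := mul_le_mul_of_nonneg_left h1 (Nat.cast_nonneg r : (0 : ℝ) ≤ r)
            linarith
          _ ≤ 2 * (((r + 1 : ℕ) : ℝ) * (κ * Fintype.card V + s)) := by
            have := mul_le_mul_of_nonneg_right h2 h3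
            linarith
          _ = 2 * (κ * ((r + 1 : ℕ) : ℝ) * Fintype.card V) + 2 * ((r + 1 : ℕ) : ℝ) * s := by ring
          _ ≤ ξ / 2 * Fintype.card V := by
            have e1 := mul_le_mul_of_nonneg_right hκ2 hN0.le
            have e2 : 0 < ξ * (Fintype.card V : ℝ) := by positivity
            linarith
      · intro B U' g1 g2 g3 g4
        exact hn₂ V H T hnn2 hUni hTup B U' g1 g2 g3 g4
  obtain ⟨M, hM, hMl⟩ := finish ht (hst m le_rfl)
  refine ⟨M, hM, ?_⟩
  rw [hMl]
  push_cast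
  have e1 : x * Fintype.card V ≤ ((r + 1 : ℕ) : ℝ) * (ℓ * s) * L.length := by
    refine hxL₀.trans ?_
    have : (L₀.length : ℝ) ≤ L.length := by exact_mod_cast hlen
    exact mul_le_mul_of_nonneg_left this (by positivity)
  have e2 : ((r + 1 : ℕ) : ℝ) * κ / ℓ * Fintype.card V ≤ ((r + 1 : ℕ) : ℝ) * s * m := by
    calc ((r + 1 : ℕ) : ℝ) * κ / ℓ * Fintype.card V
        = ((r + 1 : ℕ) : ℝ) * s * (κ * Fintype.card V / t) := by
          rw [htr]
          field_simp
      _ ≤ ((r + 1 : ℕ) : ℝ) * s * m := mul_le_mul_of_nonneg_left hm1 (by positivity)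
  push_cast at e1 e2
  calc (x + ((r : ℝ) + 1) * κ / ℓ) * Fintype.card V
      = x * Fintype.card V + ((r : ℝ) + 1) * κ / ℓ * Fintype.card V := by ring
    _ ≤ ((r : ℝ) + 1) * (ℓ * s) * L.length + ((r : ℝ) + 1) * s * m := add_le_add e1 e2
    _ = ((r : ℝ) + 1) * s * (ℓ * L.length + m) := by ring

end Pool.Agent.KK.H33
end

/-! ### Helper6_KK.COV -/
section
/-! Block C, row COV: the covering theorem. -/

set_option autoImplicit false

namespace Pool.Agent.KK.H6

section lists

variable {V : Type}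

theorem win {N k m : ℕ} (g : Fin N → V) (h : m + k ≤ N) :
    ((List.ofFn g).drop m).take k = List.ofFn (fun i : Fin k => g ⟨m + i, by omega⟩) := by
  apply List.ext_getElem
  · simp
    omega
  · intro i h1 h2
    simp

theorem infix_win {l L : List V} (h : l <:+: L) :
    ∃ m, m + l.length ≤ L.length ∧ l = (L.drop m).take l.length := by
  obtain ⟨s, t, hst⟩ := h
  refine ⟨s.length, ?_, ?_⟩
  · rw [← hst]
    simp
  · rw [← hst, List.append_assoc, List.drop_left, List.take_left]

theorem mod_surj {k : ℕ} (hk : 0 < k) (m : ℕ) (j : Fin k) : ∃ i : Fin k, (m + i) % k = j := by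
  refine ⟨⟨(j + (k - m % k)) % k, Nat.mod_lt _ hk⟩, ?_⟩
  have h1 : m % k < k := Nat.mod_lt _ hk
  have h2 : m = k * (m / k) + m % k := (Nat.div_add_mod m k).symm
  change (m + (j + (k - m % k)) % k) % k = j
  rw [Nat.add_mod_mod]
  have h3 : m + (j + (k - m % k)) = j + k * (m / k + 1) := by
    have h4 : k * (m / k + 1) = k * (m / k) + k := by ring
    omega
  rw [h3, Nat.add_mul_mod_self_left, Nat.mod_eq_of_lt j.2]

end lists

variable {V : Type} [Fintype V] [DecidableEq V]

/-- a block is the vertex set of a segment -/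
theorem block_seg {q : ℕ} {H : Finset (Finset V)} {k : ℕ} {T : Fin q → Set (List V)} {s : ℕ}
    (hk : 3 ≤ k) (hs : 0 < s) {B : Fin k → Finset V} (hB : Block H k T s B) :
    ∃ p : List V, (∀ v, v ∈ p ↔ ∃ j, v ∈ B j) ∧ p.length = s * k ∧
      ∃ i, Seg H k (T i) (T i) p := by
  obtain ⟨hc, hd, i₀, hi⟩ := hB
  have hk0 : 0 < k := by omega
  have hks : k ≤ s * k := Nat.le_mul_of_pos_left k hs
  let e : ∀ j, Fin s ≃ B j := fun j => ((B j).equivFinOfCardEq (hc j)).symm
  let g : Fin (s * k) → V := fun m => (e m.modNat m.divNat : V)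
  have hgB : ∀ m : Fin (s * k), ∀ j : Fin k, (m : ℕ) % k = j → g m ∈ B j := by
    intro m j hj
    have h1 : m.modNat = j := Fin.ext hj
    rw [← h1]
    exact (e m.modNat m.divNat).2
  have hinj : Function.Injective g := by
    intro m m' hm
    have h1 : m.modNat = m'.modNat := by
      by_contra hne
      have h2 := Finset.disjoint_left.1 (hd _ _ hne) (hgB m m.modNat rfl)
      apply h2
      rw [hm]
      exact hgB m' m'.modNat rfl
    have h2 : m.divNat = m'.divNat := by
      have h3 : (e m.modNat m.divNat : V) = (e m'.modNat m'.divNat : V) := hm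
      rw [h1] at h3
      exact (e m'.modNat).injective (Subtype.ext h3)
    apply (finProdFinEquiv (m := s) (n := k)).symm.injective
    exact Prod.ext h2 h1
  have hwin : ∀ m, (hm : m + k ≤ s * k) →
      ∃ x : Fin k → V, (∀ j, x j ∈ B j) ∧
        ∀ j, ∃ i : Fin k, x j = g ⟨m + i, by omega⟩ := by
    intro m hm
    have h1 : ∀ j : Fin k, ∃ i : Fin k, (m + i) % k = j := mod_surj hk0 m
    choose i hi' using h1
    exact ⟨fun j => g ⟨m + i j, by have := (i j).2; omega⟩, fun j => hgB _ j (hi' j),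
      fun j => ⟨i j, rfl⟩⟩
  refine ⟨List.ofFn g, ?_, List.length_ofFn, i₀, ⟨List.nodup_ofFn.2 hinj, ?_⟩, ?_, ?_, ?_⟩
  · intro v
    rw [List.mem_ofFn]
    constructor
    · rintro ⟨m, rfl⟩
      exact ⟨m.modNat, hgB m _ rfl⟩
    · rintro ⟨j, hv⟩
      obtain ⟨r, hr⟩ := (e j).surjective ⟨v, hv⟩
      refine ⟨finProdFinEquiv (r, j), ?_⟩
      have h1 : (finProdFinEquiv (r, j)).modNat = j ∧ (finProdFinEquiv (r, j)).divNat = r := by
        have h2 := (finProdFinEquiv (m := s) (n := k)).symm_apply_apply (r, j)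
        have h3 : ((finProdFinEquiv (r, j)).divNat, (finProdFinEquiv (r, j)).modNat) = (r, j) := h2
        exact ⟨(Prod.ext_iff.1 h3).2, (Prod.ext_iff.1 h3).1⟩
      change (e (finProdFinEquiv (r, j)).modNat (finProdFinEquiv (r, j)).divNat : V) = v
      rw [h1.1, h1.2, hr]
  · intro l hl hlk
    obtain ⟨m, hm, hlm⟩ := infix_win hl
    rw [hlk, List.length_ofFn] at hm
    rw [hlk, win g hm] at hlm
    obtain ⟨x, hx, hxi⟩ := hwin m hm
    obtain ⟨h1, h2, h3, -, -⟩ := hi x hx
    have h4 : (List.ofFn x).toFinset ⊆ l.toFinset := by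
      intro v hv
      rw [List.mem_toFinset, List.mem_ofFn] at hv
      obtain ⟨j, rfl⟩ := hv
      obtain ⟨i, hi2⟩ := hxi j
      rw [List.mem_toFinset, hlm, List.mem_ofFn]
      exact ⟨i, hi2.symm⟩
    have h5 : (List.ofFn x).toFinset = l.toFinset := by
      apply Finset.eq_of_subset_of_card_le h4
      rw [List.toFinset_card_of_nodup h1, h2]
      exact (List.toFinset_card_le l).trans hlk.le
    rw [← h5]
    exact h3
  · rw [List.length_ofFn]
    omega
  · have h0 : 0 + k ≤ s * k := by omega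
    let x : Fin k → V := fun j => g ⟨0 + j, by have := j.2; omega⟩
    have hx : ∀ j, x j ∈ B j := by
      intro j
      apply hgB
      change (0 + (j : ℕ)) % k = j
      rw [zero_add, Nat.mod_eq_of_lt j.2]
    obtain ⟨-, -, -, h1, -⟩ := hi x hx
    have h2 : List.ofFn x = ((List.ofFn g).drop 0).take k := (win g h0).symm
    rw [h2, List.drop_zero, List.take_take] at h1
    have h3 : min (k - 1) k = k - 1 := by omega
    rw [h3] at h1
    exact h1
  · have h0 : (s * k - k) + k ≤ s * k := by omega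
    let x : Fin k → V := fun j => g ⟨(s * k - k) + j, by have := j.2; omega⟩
    have hx : ∀ j, x j ∈ B j := by
      intro j
      apply hgB
      change ((s * k - k) + (j : ℕ)) % k = j
      have h1 : s * k - k = k * (s - 1) := by
        rw [Nat.mul_sub, mul_one, mul_comm]
      rw [h1, Nat.mul_add_mod, Nat.mod_eq_of_lt j.2]
    obtain ⟨-, -, -, -, h1⟩ := hi x hx
    have h2 : List.ofFn x = ((List.ofFn g).drop (s * k - k)).take k := (win g h0).symm
    rw [h2] at h1
    have h3 : ((List.ofFn g).drop (s * k - k)).take k = (List.ofFn g).drop (s * k - k) := by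
      apply List.take_of_length_le
      rw [List.length_drop, List.length_ofFn]
      omega
    rw [h3, List.drop_drop] at h1
    have h4 : (List.ofFn g).length - (k - 1) = s * k - k + 1 := by
      rw [List.length_ofFn]
      omega
    rw [h4]
    exact h1

/-- from a tiling to segments -/
theorem tiling_segs {q : ℕ} {H : Finset (Finset V)} {k : ℕ} {T : Fin q → Set (List V)} {s : ℕ}
    (hk : 3 ≤ k) (hs : 0 < s) {W : Finset V} {𝓑 : List (Fin k → Finset V)}
    (h𝓑 : Tiling H k T s W 𝓑) :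
    ∃ ps : List (List V), ps.flatten.Nodup ∧ (∀ v ∈ ps.flatten, v ∉ W) ∧
      (∀ p ∈ ps, p.length = s * k ∧ ∃ i, Seg H k (T i) (T i) p) ∧
      ps.flatten.length = k * s * 𝓑.length := by
  classical
  obtain ⟨h1, h2, h3⟩ := h𝓑
  have hex : ∀ B : Fin k → Finset V, ∃ p : List V, Block H k T s B →
      (∀ v, v ∈ p ↔ ∃ j, v ∈ B j) ∧ p.length = s * k ∧ ∃ i, Seg H k (T i) (T i) p := by
    intro B
    by_cases hB : Block H k T s B
    · obtain ⟨p, hp⟩ := block_seg hk hs hB
      exact ⟨p, fun _ => hp⟩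
    · exact ⟨[], fun h => absurd h hB⟩
  choose f hf using hex
  refine ⟨𝓑.map f, ?_, ?_, ?_, ?_⟩
  · rw [List.nodup_flatten]
    constructor
    · intro p hp
      obtain ⟨B, hB, rfl⟩ := List.mem_map.1 hp
      obtain ⟨i, hi⟩ := (hf B (h1 B hB)).2.2
      exact hi.1.1
    · rw [List.pairwise_map]
      refine h3.imp_of_mem ?_
      intro B C hB hC hBC v hv hv'
      obtain ⟨i, hi⟩ := ((hf B (h1 B hB)).1 v).1 hv
      obtain ⟨j, hj⟩ := ((hf C (h1 C hC)).1 v).1 hv'
      exact Finset.disjoint_left.1 (hBC i j) hi hj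
  · intro v hv
    obtain ⟨p, hp, hvp⟩ := List.mem_flatten.1 hv
    obtain ⟨B, hB, rfl⟩ := List.mem_map.1 hp
    obtain ⟨i, hi⟩ := ((hf B (h1 B hB)).1 v).1 hvp
    exact Finset.disjoint_left.1 (h2 B hB i) hi
  · intro p hp
    obtain ⟨B, hB, rfl⟩ := List.mem_map.1 hp
    exact (hf B (h1 B hB)).2
  · clear h2 h3
    induction 𝓑 with
    | nil => simp
    | cons B 𝓑 ih =>
      rw [List.map_cons, List.flatten_cons, List.length_append,
        ih (fun C hC => h1 C (List.mem_cons_of_mem _ hC)),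
        (hf B (h1 B List.mem_cons_self)).2.1, List.length_cons]
      ring

theorem cov (cob : CobStmt) : CovStmt := by
  intro k q L ξ hk hq hξ
  obtain ⟨ℓ, δ, γ, hℓ, hδ, hγ, hcob⟩ := cob k q ξ hk hq hξ
  choose n₁ hn₁ using fun (s : ℕ) (hs : 0 < s) => hcob s hs
  obtain ⟨s₀, hs₀⟩ : ∃ s₀, s₀ = L + 1 := ⟨_, rfl⟩
  have hs₀' : 0 < s₀ := by omega
  have hsp : ∀ r, 0 < ℓ ^ r * s₀ := fun r => Nat.mul_pos (pow_pos hℓ r) hs₀'
  obtain ⟨R, hR⟩ : ∃ R : ℕ, 1 < R * δ := by
    obtain ⟨R, hR⟩ := exists_nat_gt (1 / δ)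
    refine ⟨R, ?_⟩
    rwa [div_lt_iff₀ hδ] at hR
  refine ⟨γ, 1 + ∑ r ∈ Finset.range R, n₁ (ℓ ^ r * s₀) (hsp r), hγ, ?_⟩
  intro V _ _ H T hn hH hT hP3 W hW
  have hn0 : 0 < Fintype.card V := by omega
  have hnr : ∀ r < R, n₁ (ℓ ^ r * s₀) (hsp r) ≤ Fintype.card V := by
    intro r hr
    have h1 : n₁ (ℓ ^ r * s₀) (hsp r) ≤
        ∑ r ∈ Finset.range R, n₁ (ℓ ^ r * s₀) (hsp r) :=
      Finset.single_le_sum (f := fun r => n₁ (ℓ ^ r * s₀) (hsp r)) (fun _ _ => Nat.zero_le _)
        (Finset.mem_range.2 hr)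
    omega
  -- the good tiling
  have hgood : ∃ r, ∃ 𝓑, Tiling H k T (ℓ ^ r * s₀) W 𝓑 ∧
      (Fintype.card V : ℝ) < (k * (ℓ ^ r * s₀ : ℕ) * 𝓑.length : ℝ) + W.card +
        ξ * Fintype.card V := by
    by_contra hcon
    have hcon' : ∀ r 𝓑, Tiling H k T (ℓ ^ r * s₀) W 𝓑 →
        (k * (ℓ ^ r * s₀ : ℕ) * 𝓑.length : ℝ) + W.card + ξ * Fintype.card V ≤
          Fintype.card V := by
      intro r 𝓑 h
      by_contra h'
      exact hcon ⟨r, 𝓑, h, not_le.1 h'⟩
    have key : ∀ r ≤ R, ∃ 𝓑, Tiling H k T (ℓ ^ (R - r) * s₀) W 𝓑 ∧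
        (r * δ) * Fintype.card V ≤ (k * (ℓ ^ (R - r) * s₀ : ℕ) * 𝓑.length : ℝ) := by
      intro r
      induction r with
      | zero =>
        intro _
        exact ⟨[], ⟨by simp, by simp, List.Pairwise.nil⟩, by simp⟩
      | succ r ih =>
        intro hr
        obtain ⟨𝓑, h𝓑, hx⟩ := ih (by omega)
        have e1 : ℓ ^ (R - r) * s₀ = ℓ * (ℓ ^ (R - (r + 1)) * s₀) := by
          have : R - r = (R - (r + 1)) + 1 := by omega
          rw [this, pow_succ]
          ring
        have h1 := hn₁ _ (hsp (R - (r + 1))) V H T (hnr _ (by omega)) hH hT hP3 W hW (r * δ)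
          ⟨𝓑, by rw [← e1]; exact h𝓑, by
            rw [e1] at hx
            push_cast at hx ⊢
            exact hx⟩ (by
            intro 𝓒 h𝓒
            rw [← e1] at h𝓒
            have h2 := hcon' _ 𝓒 h𝓒
            rw [e1] at h2
            push_cast at h2 ⊢
            exact h2)
        obtain ⟨𝓒, h𝓒, hy⟩ := h1
        refine ⟨𝓒, h𝓒, ?_⟩
        push_cast at hy ⊢
        have e2 : ((r : ℝ) + 1) * δ = r * δ + δ := by ring
        rw [e2]
        exact hy
    obtain ⟨𝓑, h𝓑, hx⟩ := key R le_rfl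
    obtain ⟨ps, hps, -, -, hlen⟩ := tiling_segs hk (hsp (R - R)) h𝓑
    have h1 : ps.flatten.length ≤ Fintype.card V := hps.length_le_card
    rw [hlen] at h1
    have h2 : ((k * (ℓ ^ (R - R) * s₀) * 𝓑.length : ℕ) : ℝ) ≤ Fintype.card V := by
      exact_mod_cast h1
    have h3 : (0 : ℝ) < Fintype.card V := by exact_mod_cast hn0
    push_cast at h2 hx
    nlinarith
  obtain ⟨r, 𝓑, h𝓑, hlt⟩ := hgood
  obtain ⟨ps, hps, hpW, hseg, hlen⟩ := tiling_segs hk (hsp r) h𝓑
  refine ⟨ps, hps, hpW, ?_, ?_⟩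
  · intro p hp
    obtain ⟨h1, h2⟩ := hseg p hp
    refine ⟨?_, h2⟩
    rw [h1]
    have h3 : s₀ ≤ ℓ ^ r * s₀ := Nat.le_mul_of_pos_left _ (pow_pos hℓ r)
    have h4 : ℓ ^ r * s₀ ≤ ℓ ^ r * s₀ * k := Nat.le_mul_of_pos_right _ (by omega)
    omega
  · rw [hlen]
    push_cast at hlt ⊢
    linarith

end Pool.Agent.KK.H6
end

/-! ### Helper92_KK.WRD -/
section
/-!
# KK block BETA, row WRD: base words
-/

set_option autoImplicit false

namespace Pool.Agent.KK.H92

/-- sets which are changed in at most one place by a permutation -/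
theorem perm_set {α : Type} [Fintype α] [DecidableEq α] (σ : Equiv.Perm α) :
    ∀ t : ℕ, t ≤ Fintype.card α → ∃ S : Finset α, S.card = t ∧
      ((∀ i, σ i ∈ S ↔ i ∈ S) ∨ ∃ c c' : α, c ∉ S ∧ c' ∈ S ∧
        ∀ i, σ i ∈ S ↔ (i = c ∨ (i ≠ c' ∧ i ∈ S))) := by
  intro t
  induction t with
  | zero =>
    intro _
    refine ⟨∅, Finset.card_empty, Or.inl ?_⟩
    intro i
    exact ⟨fun h => absurd h (Finset.notMem_empty _), fun h => absurd h (Finset.notMem_empty _)⟩
  | succ t ih =>
    intro ht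
    obtain ⟨S, hS, h⟩ := ih (by omega)
    rcases h with h | ⟨c, c', hc, hc', h⟩
    · -- invariant set: add any element
      have h1 : S.card < (Finset.univ : Finset α).card := by
        rw [Finset.card_univ]
        omega
      obtain ⟨x, _, hx⟩ := Finset.exists_mem_notMem_of_card_lt_card h1
      refine ⟨insert x S, by rw [Finset.card_insert_of_notMem hx, hS], ?_⟩
      by_cases hfix : σ.symm x = x
      · left
        intro i
        rw [Finset.mem_insert, Finset.mem_insert, h i]
        have h2 : σ i = x ↔ i = x := by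
          constructor
          · intro h3
            rw [← hfix, ← h3, Equiv.symm_apply_apply]
          · intro h3
            rw [h3, ← hfix, Equiv.apply_symm_apply, hfix]
        rw [h2]
      · right
        refine ⟨σ.symm x, x, ?_, Finset.mem_insert_self _ _, ?_⟩
        · rw [Finset.mem_insert]
          rintro (h2 | h2)
          · exact hfix h2
          · apply hx
            rw [← h (σ.symm x), Equiv.apply_symm_apply] at h2
            exact h2
        · intro i
          rw [Finset.mem_insert, Finset.mem_insert, h i]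
          have h2 : σ i = x ↔ i = σ.symm x := by
            constructor
            · intro h3
              rw [← h3, Equiv.symm_apply_apply]
            · intro h3
              rw [h3, Equiv.apply_symm_apply]
          rw [h2]
          constructor
          · rintro (h3 | h3)
            · exact Or.inl h3
            · refine Or.inr ⟨?_, Or.inr h3⟩
              intro h4
              rw [h4] at h3
              exact hx h3
          · rintro (h3 | ⟨h3, h4 | h4⟩)
            · exact Or.inl h3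
            · exact absurd h4 h3
            · exact Or.inr h4
    · -- add the element `c`
      refine ⟨insert c S, by rw [Finset.card_insert_of_notMem hc, hS], ?_⟩
      have h2 : ∀ i, σ i = c ↔ i = σ.symm c := by
        intro i
        constructor
        · intro h3
          rw [← h3, Equiv.symm_apply_apply]
        · intro h3
          rw [h3, Equiv.apply_symm_apply]
      have h3 : ¬ (σ.symm c = c ∨ (σ.symm c ≠ c' ∧ σ.symm c ∈ S)) := by
        rw [← h (σ.symm c), Equiv.apply_symm_apply]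
        exact hc
      push Not at h3
      obtain ⟨h3, h4⟩ := h3
      have hcc' : c ≠ c' := by
        intro h5
        rw [h5] at hc
        exact hc hc'
      by_cases h5 : σ.symm c = c'
      · left
        intro i
        rw [Finset.mem_insert, Finset.mem_insert, h i, h2 i, h5]
        constructor
        · rintro (h6 | h6 | ⟨_, h6⟩)
          · exact Or.inr (h6 ▸ hc')
          · exact Or.inl h6
          · exact Or.inr h6
        · rintro (h6 | h6)
          · exact Or.inr (Or.inl h6)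
          · by_cases h7 : i = c'
            · exact Or.inl h7
            · exact Or.inr (Or.inr ⟨h7, h6⟩)
      · right
        refine ⟨σ.symm c, c', ?_, Finset.mem_insert_of_mem hc', ?_⟩
        · rw [Finset.mem_insert]
          rintro (h6 | h6)
          · exact h3 h6
          · exact h4 h5 h6
        · intro i
          rw [Finset.mem_insert, Finset.mem_insert, h i, h2 i]
          constructor
          · rintro (h6 | h6 | ⟨h6, h7⟩)
            · exact Or.inl h6
            · exact Or.inr ⟨h6 ▸ hcc', Or.inl h6⟩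
            · exact Or.inr ⟨h6, Or.inr h7⟩
          · rintro (h6 | ⟨h6, h7 | h7⟩)
            · exact Or.inl h6
            · exact Or.inr (Or.inl h7)
            · exact Or.inr (Or.inr ⟨h6, h7⟩)

theorem wt_ofFn : ∀ (k : ℕ) (f : Fin k → Bool),
    wt (List.ofFn f) = (Finset.univ.filter fun i => f i = true).card := by
  intro k
  induction k with
  | zero =>
    intro f
    simp [wt]
  | succ k ih =>
    intro f
    have h1 := ih (fun i => f i.succ)
    unfold wt at h1 ⊢
    rw [List.ofFn_succ, List.count_cons, h1, Fin.card_filter_univ_succ]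
    by_cases h : f 0 = true
    · rw [if_pos h, h]
      simp
    · rw [if_neg h]
      simp [h]

/-- **WRD** -/
theorem wrd : WrdStmt := by
  intro k t r ht hr
  have hk : NeZero k := ⟨by omega⟩
  obtain ⟨S, hS, hσ⟩ := perm_set (Equiv.addRight (⟨r, hr⟩ : Fin k)) t (by
    rw [Fintype.card_fin]
    omega)
  -- the word
  have hget : ∀ (b : Bool) (i : Fin k),
      (List.ofFn fun i : Fin k => decide (i ∈ S)).getD i b = decide (i ∈ S) := by
    intro b i
    rw [List.getD_eq_getElem _ _ (by rw [List.length_ofFn]; exact i.2), List.getElem_ofFn]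
  have hwt : wt (List.ofFn fun i : Fin k => decide (i ∈ S)) = t := by
    rw [wt_ofFn]
    have h1 : (Finset.univ.filter fun i : Fin k => decide (i ∈ S) = true) = S := by
      ext i
      simp
    rw [h1, hS]
  have hsh : ∀ i : Fin k, ((i : ℕ) + r) % k = ((Equiv.addRight (⟨r, hr⟩ : Fin k) i : Fin k) : ℕ) := by
    intro i
    rw [Equiv.coe_addRight, Fin.val_add]
  have hcompl : 2 ≤ (Sᶜ).card := by
    rw [Finset.card_compl, Fintype.card_fin, hS]
    omega
  rcases hσ with hσ | ⟨c, c', hc, hc', hσ⟩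
  · obtain ⟨c, hc, d, hd, hcd⟩ := Finset.one_lt_card.1 (lt_of_lt_of_le (by norm_num) hcompl)
    rw [Finset.mem_compl] at hc hd
    refine ⟨List.ofFn fun i : Fin k => decide (i ∈ S), c, c, d, List.length_ofFn, hwt, c.2, c.2,
      d.2, ?_, ?_, ?_, ?_, Or.inl ⟨rfl, ?_⟩⟩
    · intro h
      exact hcd (Fin.ext h.symm)
    · intro h
      exact hcd (Fin.ext h.symm)
    · rw [hget true d]
      exact decide_eq_false hd
    · rw [hget true c]
      exact decide_eq_false hc
    · intro i hi
      have h1 := hsh ⟨i, hi⟩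
      simp only at h1
      rw [h1, hget false, hget false ⟨i, hi⟩]
      rw [decide_eq_decide]
      exact hσ ⟨i, hi⟩
  · have h2 : 1 ≤ ((Sᶜ).erase c).card := by
      rw [Finset.card_erase_of_mem (Finset.mem_compl.2 hc)]
      omega
    obtain ⟨d, hd⟩ := Finset.card_pos.1 h2
    obtain ⟨hdc, hdS⟩ := Finset.mem_erase.1 hd
    rw [Finset.mem_compl] at hdS
    refine ⟨List.ofFn fun i : Fin k => decide (i ∈ S), c, c', d, List.length_ofFn, hwt, c.2, c'.2,
      d.2, ?_, ?_, ?_, ?_, Or.inr ⟨?_, ?_, ?_⟩⟩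
    · intro h
      exact hdc (Fin.ext h)
    · intro h
      have : d = c' := Fin.ext h
      rw [this] at hdS
      exact hdS hc'
    · rw [hget true d]
      exact decide_eq_false hdS
    · rw [hget true c]
      exact decide_eq_false hc
    · intro h
      have : c = c' := Fin.ext h
      rw [this] at hc
      exact hc hc'
    · rw [hget false c']
      exact decide_eq_true hc'
    · intro i hi
      have h1 := hsh ⟨i, hi⟩
      simp only at h1
      rw [h1, hget false, hget false ⟨i, hi⟩]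
      have h3 := hσ ⟨i, hi⟩
      have h4 : i = (c : ℕ) ↔ (⟨i, hi⟩ : Fin k) = c := ⟨fun h => Fin.ext h, fun h => congrArg Fin.val h⟩
      have h5 : i = (c' : ℕ) ↔ (⟨i, hi⟩ : Fin k) = c' :=
        ⟨fun h => Fin.ext h, fun h => congrArg Fin.val h⟩
      by_cases h6 : i = (c : ℕ)
      · rw [if_pos h6]
        exact decide_eq_true (h3.2 (Or.inl (h4.1 h6)))
      · rw [if_neg h6]
        by_cases h7 : i = (c' : ℕ)
        · rw [if_pos h7]
          apply decide_eq_false
          rw [h3]
          rintro (h8 | ⟨h8, _⟩)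
          · exact h6 (h4.2 h8)
          · exact h8 (h5.1 h7)
        · rw [if_neg h7, decide_eq_decide, h3]
          constructor
          · rintro (h8 | ⟨_, h8⟩)
            · exact absurd (h4.2 h8) h6
            · exact h8
          · intro h8
            exact Or.inr ⟨fun h9 => h7 (h5.2 h9), h8⟩

end Pool.Agent.KK.H92
end

/-! ### Helper97_KK.G_CST -/
section
/-!
# Squad KK, row G_CST (StmtG13), helper97 (adapted from Helper37_KK/E_CST)
-/

set_option autoImplicit false

namespace Pool.Agent.KK.E.H97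

theorem g_cst : StmtG13 := by
  intro k B ε hk hε hε1
  have hk0 : (0 : ℝ) < k := by
    have : 0 < k := by omega
    exact_mod_cast this
  have hk1 : (1 : ℝ) ≤ k := by
    have : 1 ≤ k := by omega
    exact_mod_cast this
  have hB : (0 : ℝ) < (B : ℝ) + 1 := by positivity
  obtain ⟨P, hP⟩ : ∃ P : ℝ, P = 8 * (k : ℝ) * 4 ^ k * ((B : ℝ) + 1) := ⟨_, rfl⟩
  have hP0 : 0 < P := by rw [hP]; positivity
  have h4 : (1 : ℝ) ≤ 4 ^ k * ((B : ℝ) + 1) := by
    have h2 : (1 : ℝ) ≤ 4 ^ k := one_le_pow₀ (by norm_num)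
    have h3 : (1 : ℝ) ≤ (B : ℝ) + 1 := by
      have : (0 : ℝ) ≤ B := Nat.cast_nonneg B
      linarith
    exact one_le_mul_of_one_le_of_one_le h2 h3
  have hPk : (k : ℝ) ≤ P := by
    have : P = 8 * (k : ℝ) * (4 ^ k * ((B : ℝ) + 1)) := by rw [hP]; ring
    rw [this]
    nlinarith
  obtain ⟨h, hh⟩ : ∃ h : ℝ, h = 1 / (8 * (k : ℝ) * 2 ^ k) := ⟨_, rfl⟩
  have hh0 : 0 < h := by rw [hh]; positivity
  have hh1 : h ≤ 1 := by
    rw [hh, div_le_one (by positivity)]
    have h2 : (1 : ℝ) ≤ 2 ^ k := one_le_pow₀ (by norm_num)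
    have h3 : (1 : ℝ) ≤ 8 * (k : ℝ) := by linarith
    exact one_le_mul_of_one_le_of_one_le h3 h2
  obtain ⟨G, hG⟩ : ∃ G : ℝ → ℝ, ∀ x, G x = min (ε * x / (32 * P))
      (ε * ((x * h / (16 * (k : ℝ))) ^ 3) ^ (2 ^ k) / (32 * (k : ℝ))) := ⟨_, fun x => rfl⟩
  obtain ⟨e, he0, hes⟩ : ∃ e : ℕ → ℝ, e 0 = 1 / 2 ∧ ∀ i, e (i + 1) = G (e i) :=
    ⟨fun n => Nat.rec (1 / 2) (fun _ x => G x) n, rfl, fun i => rfl⟩
  have hG0 : ∀ x, 0 < x → 0 < G x := by
    intro x hx
    rw [hG]
    exact lt_min (by positivity) (by positivity)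
  have hG1 : ∀ x, 0 < x → 32 * P * G x ≤ ε * x := by
    intro x hx
    have h1 : G x ≤ ε * x / (32 * P) := by
      rw [hG]
      exact min_le_left _ _
    rw [le_div_iff₀ (by positivity)] at h1
    linarith
  have hG2 : ∀ x, 32 * (k : ℝ) * G x ≤ ε * ((x * h / (16 * (k : ℝ))) ^ 3) ^ (2 ^ k) := by
    intro x
    have h1 : G x ≤ ε * ((x * h / (16 * (k : ℝ))) ^ 3) ^ (2 ^ k) / (32 * (k : ℝ)) := by
      rw [hG]
      exact min_le_right _ _
    rw [le_div_iff₀ (by positivity)] at h1
    linarith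
  have hep : ∀ i, 0 < e i := by
    intro i
    induction i with
    | zero => rw [he0]; norm_num
    | succ i ih => rw [hes]; exact hG0 _ ih
  have hG3 : ∀ x, 0 < x → P * G x ≤ x := by
    intro x hx
    have h1 := hG1 x hx
    have h2 := mul_pos hP0 (hG0 x hx)
    nlinarith
  have hG4 : ∀ x, 0 < x → 32 * (k : ℝ) * G x ≤ ε * x := by
    intro x hx
    have h1 := hG1 x hx
    have h2 := hG0 x hx
    have h3 := mul_le_mul_of_nonneg_right hPk h2.le
    linarith
  have hGx : ∀ x, 0 < x → G x ≤ x := by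
    intro x hx
    have h1 := hG4 x hx
    have h2 := hG0 x hx
    nlinarith
  have heh : ∀ i, e i ≤ 1 / 2 := by
    intro i
    induction i with
    | zero => rw [he0]
    | succ i ih => rw [hes]; exact (hGx _ (hep i)).trans ih
  have hC : (0 : ℝ) < 100 * (k : ℝ) * 4 ^ k * ((B : ℝ) + 1) := by positivity
  have hek := hep k
  have hehk : e k * h ≤ 1 / 2 := by
    have := mul_le_mul (heh k) hh1 hh0.le (by norm_num : (0 : ℝ) ≤ 1 / 2)
    linarith
  have hehp : 0 < e k * h := mul_pos hek hh0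
  refine ⟨fun m => e (k - m), fun i => (e (k - i) * h / (16 * (k : ℝ))) ^ 3, h,
    ε * (e k * h) / (100 * (k : ℝ) * 4 ^ k * ((B : ℝ) + 1)), by positivity, ?_, ?_⟩
  · rw [div_le_iff₀ hC]
    have h3 : ε * (e k * h) ≤ 1 / 2 := by nlinarith
    have e1 : 100 * (k : ℝ) * 4 ^ k * ((B : ℝ) + 1) = 100 * (k * (4 ^ k * ((B : ℝ) + 1))) := by ring
    rw [e1]
    have h5 : (1 : ℝ) ≤ k * (4 ^ k * ((B : ℝ) + 1)) := one_le_mul_of_one_le_of_one_le hk1 h4
    linarith
  · intro δ hδ hδ0
    rw [le_div_iff₀ hC] at hδ0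
    have hεe : ε * (e k * h) ≤ e k * h := by nlinarith
    refine ⟨⟨?_, ?_, hh0, ?_, ?_, ?_, ?_, ?_, hδ, ?_⟩, hε, hε1, ?_, ?_, ?_⟩
    · intro i _
      exact hep _
    · intro i _
      exact heh _
    · rw [hh]
    · intro i hi
      have e1 : k - i = (k - (i + 1)) + 1 := by omega
      change 8 * (k : ℝ) * 4 ^ k * ((B : ℝ) + 1) * e (k - i) ≤ e (k - (i + 1))
      rw [e1, hes, ← hP]
      exact hG3 _ (hep _)
    · intro i _ _
      have := hep (k - i)
      positivity
    · intro i _ _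
      exact le_rfl
    · intro i hi hik
      have e1 : k - (i - 1) = (k - i) + 1 := by omega
      change 16 * (k : ℝ) * e (k - (i - 1)) ≤ ((e (k - i) * h / (16 * (k : ℝ))) ^ 3) ^ (2 ^ k)
      rw [e1, hes]
      have h1 := hG2 (e (k - i))
      have h2 : 0 ≤ ((e (k - i) * h / (16 * (k : ℝ))) ^ 3) ^ (2 ^ k) := by
        have := hep (k - i)
        positivity
      have h3 := hG0 _ (hep (k - i))
      have h5 : ε * ((e (k - i) * h / (16 * (k : ℝ))) ^ 3) ^ (2 ^ k) ≤
          ((e (k - i) * h / (16 * (k : ℝ))) ^ 3) ^ (2 ^ k) := by nlinarith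
      have h6 : 0 < (k : ℝ) * G (e (k - i)) := mul_pos hk0 h3
      linarith
    · rw [Nat.sub_zero]
      linarith
    · intro i hi
      have e1 : k - i = (k - (i + 1)) + 1 := by omega
      change 32 * (k : ℝ) * e (k - i) ≤ ε * e (k - (i + 1))
      rw [e1, hes]
      exact hG4 _ (hep _)
    · intro i hi hik
      have e1 : k - (i - 1) = (k - i) + 1 := by omega
      change 32 * (k : ℝ) * e (k - (i - 1)) ≤
        ε * ((e (k - i) * h / (16 * (k : ℝ))) ^ 3) ^ (2 ^ k)
      rw [e1, hes]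
      exact hG2 _
    · change 100 * (k : ℝ) * δ ≤ ε * e (k - 0)
      rw [Nat.sub_zero]
      have e1 : δ * (100 * (k : ℝ) * 4 ^ k * ((B : ℝ) + 1)) =
          100 * (k : ℝ) * δ * (4 ^ k * ((B : ℝ) + 1)) := by ring
      rw [e1] at hδ0
      have h1 : 0 ≤ 100 * (k : ℝ) * δ := by positivity
      have h2 : 100 * (k : ℝ) * δ ≤ 100 * (k : ℝ) * δ * (4 ^ k * ((B : ℝ) + 1)) := by
        nlinarith
      have h3 : ε * (e k * h) ≤ ε * e k := by
        apply mul_le_mul_of_nonneg_left _ hε.le
        nlinarith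
      linarith

end Pool.Agent.KK.E.H97
end
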