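import Pool.Agent.KKM.Base

/-! # MP_747bc0_co, merged modules -/

/-! ### Helper22_KK.B_GLB -/
section
/-! MP_747bc0_co, block B, row GLB. -/

namespace Pool.Agent.KK.B.H22

open Function
open scoped Classical

theorem glb (hPlt : PltStmt) (hNsp : NspStmt) (hChn : ChnStmt) : GlbStmt := by
  intro k V _ _ E D0 D β δ θ i0 i1 a0 a hβ hβ16 hθ hθ8 hδ hδθ hβθ h88 hE hdeg hI0 hI hi hlev0
    hSS0 hlev i l hil
  obtain ⟨s, rfl⟩ : ∃ s, k = s + 1 := ⟨k - 1, by have := i0.isLt; omega⟩
  have hβ' : 11 * β ≤ θ := by nlinarith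
  have hG : G0 E D β a := lev_le (Nat.zero_le _) hlev
  obtain ⟨hst, hpl, -⟩ := G0_self hG hil
  rcases hPlt (s + 1) V E D β a i l hβ hβ16 hE hdeg hil hpl with ⟨h1, -⟩ | ⟨h1, -⟩ | ⟨hSp, -, -, -⟩
  · left
    linarith
  · right; left
    linarith
  · right; right
    obtain ⟨σ, hσi, hσl⟩ := exists_perm (k := s + 1) hil hi
    have hcomp : (a ∘ σ.symm) ∘ σ = a := by
      funext x
      simp
    have hsi : σ.symm i0 = i := by rw [← hσi, Equiv.symm_apply_apply]
    have hsl : σ.symm i1 = l := by rw [← hσl, Equiv.symm_apply_apply]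
    have hSS : SS D i0 i1 (a ∘ σ.symm) := by
      refine ⟨σ, ?_⟩
      rw [hcomp, hsi, hsl]
      exact hSp
    have hlev' : lev δ (G0 E D β) (s + 1) (a ∘ σ.symm) :=
      (lev_perm (G0_perm E D β) (s + 1) σ.symm a).mpr hlev
    have hM : (Finset.univ \ {i0, i1} : Finset (Fin (s + 1))).card ≤ s := by
      have h1 : (Finset.univ \ {i0, i1} : Finset (Fin (s + 1))).card ≤
          (Finset.univ.erase i0 : Finset (Fin (s + 1))).card := by
        apply Finset.card_le_card
        intro x hx
        rw [Finset.mem_sdiff, Finset.mem_insert, not_or] at hx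
        exact Finset.mem_erase.mpr ⟨hx.2.1, Finset.mem_univ _⟩
      rw [Finset.card_erase_of_mem (Finset.mem_univ _), Finset.card_univ, Fintype.card_fin] at h1
      simpa using h1
    have h1 := hChn (s + 1) V E D0 D β δ θ i0 i1 s (Finset.univ \ {i0, i1}) a0 (a ∘ σ.symm)
      hβ hβ16 hθ hθ8 hδ hδθ hβθ hE hdeg hI0 hI hi (by simp) (by simp) hM hlev0 hlev' hSS0 hSS
      (by
        intro x hx hx0 hx1
        exact absurd (Finset.mem_sdiff.mpr ⟨Finset.mem_univ _, by simp [hx0, hx1]⟩) hx)
    rw [nb_perm hE, hsi] at h1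
    have h2 := (hNsp (s + 1) V E D β a i l hβ hβ16 hE hdeg hil hst hpl hSp).1
    refine pm_mono ?_ (pm_symm (pm_trans h1 h2))
    push_cast at h88
    linarith

end Pool.Agent.KK.B.H22
end

/-! ### Helper41_KK.CHN -/
section
/-!
# Squad KK, block B, row CHN: all typical split planes have the same partition
-/

set_option autoImplicit false

namespace Pool.Agent.KK.B.H41

open Function
open scoped Classical

variable {k : ℕ} {V : Type} [Fintype V] [Nonempty V]

theorem nsp_at (hNsp : NspStmt) {E : (Fin k → V) → Prop} {D : Fin k → (Fin k → V) → Prop}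
    {β : ℝ} {i0 i1 : Fin k} {a : Fin k → V} (hβ : 0 < β) (hβ' : β ≤ 1 / 16) (hE : Symm E)
    (hdeg : Deg E) (h01 : i0 ≠ i1) (hG : G0 E D β a) (hSS : SS D i0 i1 a) :
    |dens (nb E a i0) - 1 / 2| ≤ 12 * β ∧ ∀ p, G0 E D β (update a i1 p) →
      pm (22 * β) (nb E a i0) (nb E (update a i1 p) i0) := by
  obtain ⟨σ, hσ⟩ := hSS
  have hil : σ.symm i0 ≠ σ.symm i1 := fun h => h01 (σ.symm.injective h)
  have hn : ∀ c : Fin k → V, nb E (c ∘ σ) (σ.symm i0) = nb E c i0 := by
    intro c
    rw [nb_perm hE, Equiv.apply_symm_apply]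
  have h1 := (G0_perm E D β σ a).2 hG
  have h2 := G0_self h1 hil
  have h3 := hNsp k V E D β (a ∘ σ) (σ.symm i0) (σ.symm i1) hβ hβ' hE hdeg hil h2.1 h2.2.1 hσ
  rw [hn] at h3
  refine ⟨h3.2, fun p hp => ?_⟩
  have h4 := (G0_perm E D β σ (update a i1 p)).2 hp
  have h5 := G0_self h4 hil
  have h6 : update a i1 p ∘ σ = update (a ∘ σ) (σ.symm i1) p := by
    rw [update_comp_perm, Equiv.apply_symm_apply]
  have h7 : ∀ p', update (update a i1 p ∘ σ) (σ.symm i1) p' = update (a ∘ σ) (σ.symm i1) p' := by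
    intro p'
    rw [h6, update_idem]
  have h8 : Sp D (update a i1 p ∘ σ) (σ.symm i0) (σ.symm i1) := by
    unfold Sp at hσ ⊢
    simp only [h7]
    exact hσ
  have h9 := hNsp k V E D β (update a i1 p ∘ σ) (σ.symm i0) (σ.symm i1) hβ hβ' hE hdeg hil
    h5.1 h5.2.1 h8
  rw [hn] at h9
  simp only [h7] at h9
  exact pm_mono (by linarith) (pm_trans h3.1 (pm_symm h9.1))

omit [Nonempty V] in
theorem near_of {κ : ℝ} {A A' Z Z' : V → Prop} (hZ : Z = A ∨ Z = fun v => ¬ A v)
    (hZ' : Z' = A' ∨ Z' = fun v => ¬ A' v) (h : near κ Z (fun v => ¬ Z' v)) : pm κ A A' := by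
  rcases hZ with rfl | rfl <;> rcases hZ' with rfl | rfl
  · exact Or.inr h
  · left
    unfold near at h ⊢
    refine (dens_mono fun v hv => ?_).trans h
    tauto
  · left
    unfold near at h ⊢
    refine (dens_mono fun v hv => ?_).trans h
    tauto
  · right
    unfold near at h ⊢
    refine (dens_mono fun v hv => ?_).trans h
    tauto

theorem half_of {A Z : V → Prop} {x : ℝ} (hZ : Z = A ∨ Z = fun v => ¬ A v)
    (h : |dens A - 1 / 2| ≤ x) : 1 / 2 - x ≤ dens Z := by
  rw [abs_le] at h
  rcases hZ with rfl | rfl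
  · linarith
  · rw [dens_not]
    linarith

/-- the case of equal tuples outside the plane -/
theorem base (hNsp : NspStmt) {E : (Fin k → V) → Prop} {D D' : Fin k → (Fin k → V) → Prop}
    {β δ : ℝ} {i0 i1 : Fin k} {a a' : Fin k → V} (hβ : 0 < β) (hβ' : β ≤ 1 / 16)
    (hδ : δ ≤ 1 / 32) (hE : Symm E) (hdeg : Deg E) (h01 : i0 ≠ i1)
    (hl : lev δ (G0 E D β) 1 a) (hl' : lev δ (G0 E D' β) 1 a') (hS : SS D i0 i1 a)
    (hS' : SS D' i0 i1 a') (h : ∀ x, x ≠ i0 → x ≠ i1 → a x = a' x) :
    pm (44 * β) (nb E a i0) (nb E a' i0) := by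
  obtain ⟨p, hp⟩ : ∃ p, G0 E D β (update a i1 p) ∧ G0 E D' β (update a' i1 p) := by
    by_contra hc
    push Not at hc
    have h1 : dens (fun _ : V => True) ≤ δ + δ := by
      refine (dens_mono (Q := fun p => ¬ G0 E D β (update a i1 p) ∨
        ¬ G0 E D' β (update a' i1 p)) fun p _ => ?_).trans ((dens_or_le _ _).trans
          (add_le_add (hl.2 i1) (hl'.2 i1)))
      by_cases h2 : G0 E D β (update a i1 p)
      · exact Or.inr (hc p h2)
      · exact Or.inl h2
    rw [dens_true] at h1
    linarith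
  have h1 := (nsp_at hNsp hβ hβ' hE hdeg h01 hl.1 hS).2 p hp.1
  have h2 := (nsp_at hNsp hβ hβ' hE hdeg h01 hl'.1 hS').2 p hp.2
  have h3 : nb E (update a i1 p) i0 = nb E (update a' i1 p) i0 := by
    funext q
    unfold nb
    have h4 : update (update a i1 p) i0 q = update (update a' i1 p) i0 q := by
      funext x
      by_cases hx : x = i0
      · rw [hx, update_self, update_self]
      · rw [update_of_ne hx, update_of_ne hx]
        by_cases hx1 : x = i1
        · rw [hx1, update_self, update_self]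
        · rw [update_of_ne hx1, update_of_ne hx1, h x hx hx1]
    rw [h4]
  rw [h3] at h1
  exact pm_mono (by linarith) (pm_trans h1 (pm_symm h2))

theorem b_chn (hNsp : NspStmt) (hExc : ExcStmt) : ChnStmt := by
  intro k V _ _ E D D' β δ θ i0 i1 s
  induction s with
  | zero =>
      intro M a a' hβ hβ' hθ hθ' hδ hδ' hβθ hE hdeg hD hD' h01 hM0 hM1 hM hl hl' hS hS' hag
      have hM2 : M = ∅ := Finset.card_eq_zero.1 (Nat.le_zero.1 hM)
      have h1 := base hNsp hβ hβ' (by linarith) hE hdeg h01 hl hl' hS hS' (fun x h0 h1 =>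
        hag x (by rw [hM2]; exact Finset.notMem_empty x) h0 h1)
      refine pm_mono ?_ h1
      push_cast
      linarith
  | succ s ih =>
      intro M a a' hβ hβ' hθ hθ' hδ hδ' hβθ hE hdeg hD hD' h01 hM0 hM1 hM hl hl' hS hS' hag
      have hs0 : (0 : ℝ) ≤ s := Nat.cast_nonneg s
      have hsβ : 0 ≤ (s : ℝ) * β := mul_nonneg hs0 hβ.le
      have hl1 : lev δ (G0 E D β) 1 a := lev_le (by omega) hl
      have hl1' : lev δ (G0 E D' β) 1 a' := lev_le (by omega) hl'
      rcases M.eq_empty_or_nonempty with hM2 | ⟨m, hm⟩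
      · have h1 := base hNsp hβ hβ' (by linarith) hE hdeg h01 hl1 hl1' hS hS' (fun x h0 h1 =>
          hag x (by rw [hM2]; exact Finset.notMem_empty x) h0 h1)
        refine pm_mono ?_ h1
        push_cast
        nlinarith
      · have hm0 : m ≠ i0 := fun h => hM0 (h ▸ hm)
        have hm1 : m ≠ i1 := fun h => hM1 (h ▸ hm)
        obtain ⟨Z, hZ, hZd⟩ := hExc k V E D β δ θ a i0 i1 m hβ hβ' hθ hθ' hδ hδ' hβθ hE hdeg hD
          h01 hm0 hm1 hl1 hS
        obtain ⟨Z', hZ', hZd'⟩ := hExc k V E D' β δ θ a' i0 i1 m hβ hβ' hθ hθ' hδ hδ' hβθ hE hdeg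
          hD' h01 hm0 hm1 hl1' hS'
        by_cases hbig : 5 * θ < dens (fun z => Z z ∧ Z' z)
        · -- a common continuation
          obtain ⟨w, hw⟩ : ∃ w, (Z w ∧ Z' w) ∧
              (SS D i0 i1 (update a m w) ∧
                pm (44 * β) (nb E (update a m w) i0) (nb E a i0)) ∧
              (SS D' i0 i1 (update a' m w) ∧
                pm (44 * β) (nb E (update a' m w) i0) (nb E a' i0)) ∧
              lev δ (G0 E D β) (s + 1) (update a m w) ∧
              lev δ (G0 E D' β) (s + 1) (update a' m w) := by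
            by_contra hc
            push Not at hc
            have h1 : dens (fun z => Z z ∧ Z' z) ≤ (2 * θ + 2 * θ) + (δ + δ) := by
              refine (dens_mono (Q := fun z =>
                ((Z z ∧ ¬ (SS D i0 i1 (update a m z) ∧
                  pm (44 * β) (nb E (update a m z) i0) (nb E a i0))) ∨
                (Z' z ∧ ¬ (SS D' i0 i1 (update a' m z) ∧
                  pm (44 * β) (nb E (update a' m z) i0) (nb E a' i0)))) ∨
                (¬ lev δ (G0 E D β) (s + 1) (update a m z) ∨
                  ¬ lev δ (G0 E D' β) (s + 1) (update a' m z))) fun z hz => ?_).trans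
                ((dens_or_le _ _).trans (add_le_add ((dens_or_le _ _).trans
                  (add_le_add hZd hZd')) ((dens_or_le _ _).trans
                  (add_le_add (hl.2 m) (hl'.2 m)))))
              by_cases e1 : SS D i0 i1 (update a m z) ∧
                  pm (44 * β) (nb E (update a m z) i0) (nb E a i0)
              · by_cases e2 : SS D' i0 i1 (update a' m z) ∧
                    pm (44 * β) (nb E (update a' m z) i0) (nb E a' i0)
                · by_cases e3 : lev δ (G0 E D β) (s + 1) (update a m z)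
                  · exact Or.inr (Or.inr (hc z hz e1 e2 e3))
                  · exact Or.inr (Or.inl e3)
                · exact Or.inl (Or.inr ⟨hz.2, e2⟩)
              · exact Or.inl (Or.inl ⟨hz.1, e1⟩)
            linarith
          obtain ⟨-, ⟨e1, e2⟩, ⟨e3, e4⟩, e5, e6⟩ := hw
          have h2 := ih (M.erase m) (update a m w) (update a' m w) hβ hβ' hθ hθ' hδ hδ' hβθ hE
            hdeg hD hD' h01 (fun h => hM0 (Finset.mem_of_mem_erase h))
            (fun h => hM1 (Finset.mem_of_mem_erase h)) (by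
              rw [Finset.card_erase_of_mem hm]
              omega) e5 e6 e1 e3 (by
              intro x hx hx0 hx1
              by_cases hxm : x = m
              · rw [hxm, update_self, update_self]
              · rw [update_of_ne hxm, update_of_ne hxm]
                exact hag x (fun h => hx (Finset.mem_erase.2 ⟨hxm, h⟩)) hx0 hx1)
          refine pm_mono ?_ (pm_trans (pm_trans (pm_symm e2) h2) e4)
          push_cast
          linarith
        · -- the opposite sides
          have hA := (nsp_at hNsp hβ hβ' hE hdeg h01 hl1.1 hS).1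
          have hA' := (nsp_at hNsp hβ hβ' hE hdeg h01 hl1'.1 hS').1
          have hz1 := half_of hZ hA
          have hz2 := half_of hZ' hA'
          have h1 : dens (fun z => ¬ (Z z ↔ ¬ Z' z)) ≤ 12 * θ := by
            have h2 : dens (fun z => ¬ (Z z ↔ ¬ Z' z)) ≤
                dens (fun z => Z z ∧ Z' z) + dens (fun z => ¬ Z z ∧ ¬ Z' z) := by
              refine (dens_mono (Q := fun z => (Z z ∧ Z' z) ∨ (¬ Z z ∧ ¬ Z' z)) fun z hz => ?_).trans
                (dens_or_le _ _)
              tauto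
            have h3 := dens_split (fun z => ¬ Z z) Z'
            have h4 := dens_split Z' Z
            have h5 : dens (fun z => ¬ Z z ∧ Z' z) = dens (fun z => Z' z ∧ ¬ Z z) :=
              dens_congr fun z => and_comm
            have h6 : dens (fun z => Z' z ∧ Z z) = dens (fun z => Z z ∧ Z' z) :=
              dens_congr fun z => and_comm
            rw [dens_not, h5] at h3
            rw [h6] at h4
            have h7 : 24 * β ≤ 2 * θ := by nlinarith
            linarith
          have h2 := near_of hZ hZ' h1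
          refine pm_mono ?_ h2
          push_cast
          nlinarith

end Pool.Agent.KK.B.H41
end

/-! ### Helper92_KK.E_TRI -/
section
/-!
# KK row E_TRI: the trichotomy
-/

set_option autoImplicit false

namespace Pool.Agent.KK.E.H92

section

variable {V : Type} [Fintype V] [DecidableEq V]

open Classical in
/-- the elements of `C` with property `R` -/
noncomputable def fl (C : Finset V) (R : V → Prop) : Finset V := C.filter R

theorem mem_fl {C : Finset V} {R : V → Prop} {x : V} : x ∈ fl C R ↔ x ∈ C ∧ R x := by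
  classical
  unfold fl
  rw [Finset.mem_filter]

theorem dens_unit (C : Finset V) (R : V → Prop) :
    dens (fun _ : Unit => C) (fun g => R (g ())) = ((fl C R).card : ℝ) / (C.card : ℝ) := by
  unfold dens
  have h1 : {f : Unit → V | (∀ i, f i ∈ C) ∧ R (f ())} = (fun x : V => fun _ : Unit => x) ''
      ((fl C R : Finset V) : Set V) := by
    ext f
    constructor
    · rintro ⟨h1, h2⟩
      exact ⟨f (), Finset.mem_coe.2 (mem_fl.2 ⟨h1 (), h2⟩), rfl⟩
    · rintro ⟨x, hx, rfl⟩
      obtain ⟨h1, h2⟩ := mem_fl.1 (Finset.mem_coe.1 hx)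
      exact ⟨fun _ => h1, h2⟩
  rw [h1, Set.ncard_image_of_injective, Set.ncard_coe_finset]
  · simp
  · intro x y h
    exact congrFun h ()

theorem dens_bool (c : Bool → Finset V) (R S : V → Prop) :
    dens c (fun g => R (g true) ∧ S (g false)) =
      (((fl (c true) R).card : ℝ) / ((c true).card : ℝ)) *
      (((fl (c false) S).card : ℝ) / ((c false).card : ℝ)) := by
  unfold dens
  have h1 : {f : Bool → V | (∀ i, f i ∈ c i) ∧ R (f true) ∧ S (f false)} =
      (fun p : V × V => fun t : Bool => if t = true then p.1 else p.2) ''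
      (((fl (c true) R : Finset V) : Set V) ×ˢ ((fl (c false) S : Finset V) : Set V)) := by
    ext f
    constructor
    · rintro ⟨h1, h2, h3⟩
      refine ⟨(f true, f false), ⟨Finset.mem_coe.2 (mem_fl.2 ⟨h1 true, h2⟩),
        Finset.mem_coe.2 (mem_fl.2 ⟨h1 false, h3⟩)⟩, ?_⟩
      funext t
      cases t <;> rfl
    · rintro ⟨⟨x, y⟩, ⟨hx, hy⟩, rfl⟩
      obtain ⟨h1, h2⟩ := mem_fl.1 (Finset.mem_coe.1 hx)
      obtain ⟨h3, h4⟩ := mem_fl.1 (Finset.mem_coe.1 hy)
      refine ⟨?_, h2, h4⟩
      intro t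
      cases t
      · exact h3
      · exact h1
  rw [h1, Set.ncard_image_of_injective, Set.ncard_prod, Set.ncard_coe_finset, Set.ncard_coe_finset,
    Fintype.prod_bool]
  · push_cast
    rw [mul_div_mul_comm]
  · rintro ⟨x, y⟩ ⟨x', y'⟩ h
    have e1 := congrFun h true
    have e2 := congrFun h false
    simp only [if_true] at e1
    simp at e2
    rw [e1, e2]

theorem avg_le (h1 : StmtE01) (h2 : StmtE02) (h3 : StmtE03) {ι κ : Type} [Fintype ι]
    [DecidableEq ι] [Fintype κ] (c : ι → Finset V) (d : κ → Finset V)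
    (hc : ∀ i, (c i).Nonempty) (hd : ∀ i, (d i).Nonempty) (P : (ι ⊕ κ → V) → Prop) (τ : ℝ)
    (hτ : 0 ≤ τ) : dens (Sum.elim c d) P ≤
      dens c (fun f => τ < dens d (fun g => P (Sum.elim f g))) + τ := by
  have hcd : ∀ i, (Sum.elim c d i).Nonempty := by
    rintro (i | i)
    exacts [hc i, hd i]
  set E : (ι → V) → Prop := fun f => τ < dens d (fun g => P (Sum.elim f g)) with hE
  have e1 := (h3 V ι κ c d hc hd).2.2 (fun f => ¬ E f) P τ hτ
    (by
      intro f _ hf
      exact not_lt.1 hf)
  have e2 : dens c (fun f => ¬ E f) ≤ 1 := ((h1 V ι c hc).1 _).2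
  have e3 := h2 V (ι ⊕ κ) ι (Sum.elim c d) Sum.inl hcd Sum.inl_injective E
  rw [Sum.elim_comp_inl] at e3
  have e4 : dens (Sum.elim c d) P ≤
      dens (Sum.elim c d) (fun h => E (h ∘ Sum.inl) ∨ (¬ E (h ∘ Sum.inl) ∧ P h)) := by
    apply (h1 V (ι ⊕ κ) (Sum.elim c d) hcd).2.1
    intro f _ hf
    by_cases h : E (f ∘ Sum.inl)
    · exact Or.inl h
    · exact Or.inr ⟨h, hf⟩
  have e5 := (h1 V (ι ⊕ κ) (Sum.elim c d) hcd).2.2.1 (fun h => E (h ∘ Sum.inl))
    (fun h => ¬ E (h ∘ Sum.inl) ∧ P h)
  have e6 : τ * dens c (fun f => ¬ E f) ≤ τ := by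
    nlinarith
  linarith

theorem flux_eq (h2 : StmtE02) {ι : Type} [Fintype ι] [DecidableEq ι] (c : ι → Finset V)
    (hc : ∀ i, (c i).Nonempty) (A B : (ι → V) → Prop) (i : ι) :
    dens (Sum.elim c (fun _ : Unit => c i))
      (fun g => A (g ∘ Sum.inl) ∧ B (Function.update (g ∘ Sum.inl) i (g (Sum.inr ())))) =
    dens (Sum.elim c (fun _ : Bool => c i))
      (fun g => A (Function.update (g ∘ Sum.inl) i (g (Sum.inr true))) ∧
        B (Function.update (g ∘ Sum.inl) i (g (Sum.inr false)))) := by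
  have hcc : ∀ j, (Sum.elim c (fun _ : Bool => c i) j).Nonempty := by
    rintro (j | j)
    exacts [hc j, hc i]
  set φ : ι ⊕ Unit → ι ⊕ Bool :=
    Sum.elim (fun j => if j = i then Sum.inr true else Sum.inl j) (fun _ => Sum.inr false) with hφ
  have hφi : Function.Injective φ := by
    rintro (j | j) (j' | j') h
    · rw [hφ, Sum.elim_inl, Sum.elim_inl] at h
      by_cases h3 : j = i <;> by_cases h4 : j' = i
      · rw [h3, h4]
      · rw [if_pos h3, if_neg h4] at h
        cases h
      · rw [if_neg h3, if_pos h4] at h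
        cases h
      · rw [if_neg h3, if_neg h4] at h
        rw [Sum.inl.inj h]
    · rw [hφ, Sum.elim_inl, Sum.elim_inr] at h
      by_cases h3 : j = i
      · rw [if_pos h3] at h
        cases h
      · rw [if_neg h3] at h
        cases h
    · rw [hφ, Sum.elim_inl, Sum.elim_inr] at h
      by_cases h3 : j' = i
      · rw [if_pos h3] at h
        cases h
      · rw [if_neg h3] at h
        cases h
    · rfl
  have e1 := h2 V (ι ⊕ Bool) (ι ⊕ Unit) (Sum.elim c (fun _ : Bool => c i)) φ hcc hφi
    (fun g => A (g ∘ Sum.inl) ∧ B (Function.update (g ∘ Sum.inl) i (g (Sum.inr ()))))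
  have e2 : (Sum.elim c (fun _ : Bool => c i)) ∘ φ = Sum.elim c (fun _ : Unit => c i) := by
    funext j
    rcases j with j | j
    · simp only [Function.comp, hφ, Sum.elim_inl]
      by_cases h3 : j = i
      · rw [if_pos h3, Sum.elim_inr, h3]
      · rw [if_neg h3, Sum.elim_inl]
    · rfl
  rw [e2] at e1
  rw [← e1]
  apply congrArg (dens (Sum.elim c (fun _ : Bool => c i)))
  funext g
  have e3 : (g ∘ φ) ∘ Sum.inl = Function.update (g ∘ Sum.inl) i (g (Sum.inr true)) := by
    funext j
    by_cases h3 : j = i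
    · rw [h3, Function.update_self]
      simp only [Function.comp, hφ, Sum.elim_inl]
      rw [if_pos trivial]
    · rw [Function.update_of_ne h3]
      simp only [Function.comp, hφ, Sum.elim_inl]
      rw [if_neg h3]
  rw [e3]
  have e4 : (g ∘ φ) (Sum.inr ()) = g (Sum.inr false) := rfl
  rw [e4, Function.update_idem]

/-- counting pairs -/
theorem pairs_le {C ZA ZB : Finset V} (hA : ZA ⊆ C) (hB : ZB ⊆ C) (R : V → V → Prop) {τ σ : ℝ}
    (h1 : ∀ y ∈ ZB, ((fl C fun z => R z y).card : ℝ) ≤ τ * C.card)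
    (h2 : ∀ z ∈ ZA, ((fl C fun y => ¬ R z y).card : ℝ) ≤ σ * C.card) (hτ : 0 ≤ τ) (hσ : 0 ≤ σ) :
    (ZA.card : ℝ) * ZB.card ≤ (τ + σ) * (C.card : ℝ) ^ 2 := by
  classical
  have e1 : (ZA.card : ℝ) * ZB.card = (∑ y ∈ ZB, ∑ z ∈ ZA, if R z y then (1 : ℝ) else 0) +
      ∑ z ∈ ZA, ∑ y ∈ ZB, if R z y then (0 : ℝ) else 1 := by
    rw [Finset.sum_comm, ← Finset.sum_add_distrib]
    have e2 : ∀ z ∈ ZA, ((∑ y ∈ ZB, if R z y then (1 : ℝ) else 0) +
        ∑ y ∈ ZB, if R z y then (0 : ℝ) else 1) = ZB.card := by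
      intro z _
      rw [← Finset.sum_add_distrib]
      have e3 : ∀ y ∈ ZB, ((if R z y then (1 : ℝ) else 0) + if R z y then (0 : ℝ) else 1) = 1 := by
        intro y _
        by_cases h : R z y
        · rw [if_pos h, if_pos h, add_zero]
        · rw [if_neg h, if_neg h, zero_add]
      rw [Finset.sum_congr rfl e3, Finset.sum_const, nsmul_eq_mul, mul_one]
    rw [Finset.sum_congr rfl e2, Finset.sum_const, nsmul_eq_mul]
  have e2 : (∑ y ∈ ZB, ∑ z ∈ ZA, if R z y then (1 : ℝ) else 0) ≤ ZB.card * (τ * C.card) := by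
    rw [← nsmul_eq_mul]
    apply Finset.sum_le_card_nsmul
    intro y hy
    refine le_trans ?_ (h1 y hy)
    rw [Finset.sum_ite, Finset.sum_const_zero, add_zero, Finset.sum_const, nsmul_eq_mul, mul_one]
    have e3 : (ZA.filter fun z => R z y) ⊆ fl C fun z => R z y := by
      intro z hz
      obtain ⟨h3, h4⟩ := Finset.mem_filter.1 hz
      exact mem_fl.2 ⟨hA h3, h4⟩
    exact_mod_cast Finset.card_le_card e3
  have e3 : (∑ z ∈ ZA, ∑ y ∈ ZB, if R z y then (0 : ℝ) else 1) ≤ ZA.card * (σ * C.card) := by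
    rw [← nsmul_eq_mul]
    apply Finset.sum_le_card_nsmul
    intro z hz
    refine le_trans ?_ (h2 z hz)
    rw [Finset.sum_ite, Finset.sum_const_zero, zero_add, Finset.sum_const, nsmul_eq_mul, mul_one]
    have e3 : (ZB.filter fun y => ¬ R z y) ⊆ fl C fun y => ¬ R z y := by
      intro y hy
      obtain ⟨h3, h4⟩ := Finset.mem_filter.1 hy
      exact mem_fl.2 ⟨hB h3, h4⟩
    exact_mod_cast Finset.card_le_card e3
  have e4 : (ZA.card : ℝ) ≤ C.card := by exact_mod_cast Finset.card_le_card hA
  have e5 : (ZB.card : ℝ) ≤ C.card := by exact_mod_cast Finset.card_le_card hB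
  have e6 : (0 : ℝ) ≤ C.card := Nat.cast_nonneg _
  have e7 : (ZB.card : ℝ) * (τ * C.card) ≤ C.card * (τ * C.card) :=
    mul_le_mul_of_nonneg_right e5 (by positivity)
  have e8 : (ZA.card : ℝ) * (σ * C.card) ≤ C.card * (σ * C.card) :=
    mul_le_mul_of_nonneg_right e4 (by positivity)
  rw [e1]
  nlinarith

/-- the image of an updated tuple -/
theorem image_update {ι : Type} [Fintype ι] [DecidableEq ι] (f : ι → V) (i : ι) (z : V) :
    Finset.univ.image (Function.update f i z) = insert z ((Finset.univ.erase i).image f) := by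
  ext x
  rw [Finset.mem_image, Finset.mem_insert, Finset.mem_image]
  constructor
  · rintro ⟨j, _, hj⟩
    by_cases h : j = i
    · rw [h, Function.update_self] at hj
      exact Or.inl hj.symm
    · rw [Function.update_of_ne h] at hj
      exact Or.inr ⟨j, Finset.mem_erase.2 ⟨h, Finset.mem_univ _⟩, hj⟩
  · rintro (h | ⟨j, hj, hjx⟩)
    · exact ⟨i, Finset.mem_univ _, by rw [Function.update_self, h]⟩
    · obtain ⟨h1, _⟩ := Finset.mem_erase.1 hj
      exact ⟨j, Finset.mem_univ _, by rw [Function.update_of_ne h1, hjx]⟩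

theorem swap_update {ι : Type} [Fintype ι] [DecidableEq ι] (M : Finset V) (f : ι → V) (i : ι)
    (y z : V) : insert y (M ∪ Finset.univ.image (Function.update f i z)) =
      insert z (M ∪ Finset.univ.image (Function.update f i y)) := by
  rw [image_update, image_update, Finset.union_insert, Finset.union_insert, Finset.insert_comm]

/-- density of the letters of colour `b` which complete `Q` to an edge -/
noncomputable def uu (H : Finset (Finset V)) (X M : Finset V) {ι : Type} [Fintype ι] (b : Bool)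
    (Q : ι → V) : ℝ :=
  ((fl (sd X b) fun x => insert x (M ∪ Finset.univ.image Q) ∈ H).card : ℝ) / ((sd X b).card : ℝ)

theorem flux_pairs {H : Finset (Finset V)} {X M : Finset V} {ι : Type} [Fintype ι]
    [DecidableEq ι] (b : Bool) (f : ι → V) (i : ι) {τ δ : ℝ} (hτ : 0 ≤ τ) (hδ : 0 ≤ δ)
    (hb : (sd X b).Nonempty) {ZH ZL : Finset V} (hH : ZH ⊆ sd X b) (hL : ZL ⊆ sd X b)
    (h1 : ∀ y ∈ ZL, uu H X M b (Function.update f i y) ≤ τ)
    (h2 : ∀ z ∈ ZH, 1 - δ - τ ≤ uu H X M b (Function.update f i z)) :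
    (ZH.card : ℝ) * ZL.card ≤ (2 * τ + δ) * ((sd X b).card : ℝ) ^ 2 := by
  classical
  have hC : (0 : ℝ) < (sd X b).card := by exact_mod_cast hb.card_pos
  have e1 := pairs_le (C := sd X b) hH hL
    (fun z y => insert z (M ∪ Finset.univ.image (Function.update f i y)) ∈ H) (τ := τ)
    (σ := τ + δ) (by
      intro y hy
      have h3 := h1 y hy
      unfold uu at h3
      rw [div_le_iff₀ hC] at h3
      exact h3) (by
      intro z hz
      have h3 := h2 z hz
      unfold uu at h3
      rw [le_div_iff₀ hC] at h3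
      have h4 : (fl (sd X b) fun y =>
          ¬ insert z (M ∪ Finset.univ.image (Function.update f i y)) ∈ H).card +
          (fl (sd X b) fun x => insert x (M ∪ Finset.univ.image (Function.update f i z)) ∈ H).card
          = (sd X b).card := by
        rw [← Finset.card_union_of_disjoint]
        · apply congrArg Finset.card
          ext y
          rw [Finset.mem_union, mem_fl, mem_fl, swap_update M f i z y]
          by_cases h5 : insert y (M ∪ Finset.univ.image (Function.update f i z)) ∈ H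
          · exact ⟨fun h => h.elim (fun h => h.1) fun h => h.1, fun h => Or.inr ⟨h, h5⟩⟩
          · exact ⟨fun h => h.elim (fun h => h.1) fun h => h.1, fun h => Or.inl ⟨h, h5⟩⟩
        · rw [Finset.disjoint_left]
          intro y hy hy'
          rw [mem_fl] at hy hy'
          rw [swap_update M f i z y] at hy
          exact hy.2 hy'.2
      have h5 : ((fl (sd X b) fun y =>
          ¬ insert z (M ∪ Finset.univ.image (Function.update f i y)) ∈ H).card : ℝ) +
          ((fl (sd X b) fun x =>
            insert x (M ∪ Finset.univ.image (Function.update f i z)) ∈ H).card : ℝ)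
          = ((sd X b).card : ℝ) := by exact_mod_cast h4
      linarith) hτ (by linarith)
  refine le_trans e1 (le_of_eq ?_)
  ring

/-- a good tuple is injective and avoids `M` -/
def Gd {ι : Type} (M : Finset V) (Q : ι → V) : Prop := Function.Injective Q ∧ ∀ i, Q i ∉ M

theorem card_of_good {ι : Type} [Fintype ι] {M : Finset V} {Q : ι → V} (h : Gd M Q) :
    (M ∪ Finset.univ.image Q).card = M.card + Fintype.card ι := by
  rw [Finset.card_union_of_disjoint, Finset.card_image_of_injective _ h.1, Finset.card_univ]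
  rw [Finset.disjoint_left]
  intro x hx hx'
  obtain ⟨i, _, hi⟩ := Finset.mem_image.1 hx'
  rw [← hi] at hx
  exact h.2 i hx

theorem good_of_edge {ι : Type} [Fintype ι] {H : Finset (Finset V)} {k : ℕ} (hU : Uni H k)
    {M : Finset V} {Q : ι → V} (hk : M.card + Fintype.card ι + 1 = k) {x : V}
    (hx : insert x (M ∪ Finset.univ.image Q) ∈ H) : Gd M Q := by
  have h1 := hU _ hx
  have h2 := Finset.card_insert_le x (M ∪ Finset.univ.image Q)
  have h3 := Finset.card_union_add_card_inter M (Finset.univ.image Q)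
  have h4 : (Finset.univ.image Q).card ≤ Fintype.card ι := Finset.card_image_le
  have h5 : (Finset.univ.image Q).card = (Finset.univ : Finset ι).card := by
    rw [Finset.card_univ]
    omega
  have h6 : (M ∩ Finset.univ.image Q).card = 0 := by omega
  constructor
  · have h7 := Finset.card_image_iff.1 h5
    intro a b hab
    exact h7 (Finset.mem_coe.2 (Finset.mem_univ a)) (Finset.mem_coe.2 (Finset.mem_univ b)) hab
  · intro i hi
    rw [Finset.card_eq_zero] at h6
    have h7 : Q i ∈ M ∩ Finset.univ.image Q :=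
      Finset.mem_inter.2 ⟨hi, Finset.mem_image_of_mem Q (Finset.mem_univ i)⟩
    rw [h6] at h7
    exact Finset.notMem_empty _ h7

theorem uu_nonneg {ι : Type} [Fintype ι] (H : Finset (Finset V)) (X M : Finset V) (b : Bool)
    (Q : ι → V) : 0 ≤ uu H X M b Q := by
  unfold uu
  positivity

theorem uu_bad {ι : Type} [Fintype ι] {H : Finset (Finset V)} {k : ℕ} (hU : Uni H k)
    {X M : Finset V} {Q : ι → V} (hk : M.card + Fintype.card ι + 1 = k) (b : Bool)
    (hQ : ¬ Gd M Q) : uu H X M b Q = 0 := by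
  unfold uu
  have h1 : (fl (sd X b) fun x => insert x (M ∪ Finset.univ.image Q) ∈ H) = ∅ := by
    rw [Finset.eq_empty_iff_forall_notMem]
    intro x hx
    exact hQ (good_of_edge hU hk (mem_fl.1 hx).2)
  rw [h1]
  simp

theorem uu_good {ι : Type} [Fintype ι] {H : Finset (Finset V)} {p q B : ℕ} {δ : ℝ}
    {X M : Finset V} {Q : ι → V} (hA : Amb H X p q B δ)
    (hk : M.card + Fintype.card ι + 1 = p + q + 2) (hX : X.Nonempty) (hX' : (Xᶜ).Nonempty)
    (hQ : Gd M Q) : 1 - δ ≤ uu H X M true Q + uu H X M false Q := by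
  classical
  set S : Finset V := M ∪ Finset.univ.image Q with hS
  have h1 : S.card = p + q + 1 := by
    rw [hS, card_of_good hQ]
    omega
  have h2 := hA.dirac S (by
    rw [h1]
    rfl)
  have h3 : (nb H S).card ≤ (fl (sd X true) fun x => insert x S ∈ H).card +
      (fl (sd X false) fun x => insert x S ∈ H).card := by
    refine le_trans (Finset.card_le_card ?_) (Finset.card_union_le _ _)
    intro v hv
    unfold nb at hv
    rw [Finset.mem_filter] at hv
    obtain ⟨_, _, hv2⟩ := hv
    rw [Finset.mem_union, mem_fl, mem_fl]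
    by_cases h : v ∈ X
    · exact Or.inl ⟨h, hv2⟩
    · exact Or.inr ⟨Finset.mem_compl.2 h, hv2⟩
  set U : ℝ := ((fl (sd X true) fun x => insert x S ∈ H).card : ℝ) with hUU
  set W : ℝ := ((fl (sd X false) fun x => insert x S ∈ H).card : ℝ) with hWW
  set n : ℝ := (Fintype.card V : ℝ) with hn
  have h4 : n ≤ 2 * (U + W) := by
    have h5 : ((Fintype.card V : ℕ) : ℝ) ≤ ((2 * ((fl (sd X true) fun x => insert x S ∈ H).card +
      (fl (sd X false) fun x => insert x S ∈ H).card) : ℕ) : ℝ) := by
      have : Fintype.card V ≤ 2 * ((fl (sd X true) fun x => insert x S ∈ H).card +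
        (fl (sd X false) fun x => insert x S ∈ H).card) := by omega
      exact_mod_cast this
    push_cast at h5
    exact h5
  have hc1 : (0 : ℝ) < (sd X true).card := by exact_mod_cast hX.card_pos
  have hc2 : (0 : ℝ) < (sd X false).card := by exact_mod_cast hX'.card_pos
  have hu : U = uu H X M true Q * ((sd X true).card : ℝ) := by
    unfold uu
    rw [div_mul_cancel₀ _ (ne_of_gt hc1)]
  have hw : W = uu H X M false Q * ((sd X false).card : ℝ) := by
    unfold uu
    rw [div_mul_cancel₀ _ (ne_of_gt hc2)]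
  have hhi : ((sd X true).card : ℝ) ≤ (1 + δ) * n / 2 := hA.hi
  have hhi' : ((sd X false).card : ℝ) ≤ (1 + δ) * n / 2 := hA.hi'
  have hn0 : 0 < n := by
    rw [hn]
    have : 0 < Fintype.card V := Fintype.card_pos_iff.2 ⟨hX.choose⟩
    exact_mod_cast this
  have hδ := hA.pos
  have hu0 := uu_nonneg H X M true Q
  have hw0 := uu_nonneg H X M false Q
  have e1 : uu H X M true Q * ((sd X true).card : ℝ) ≤ uu H X M true Q * ((1 + δ) * n / 2) :=
    mul_le_mul_of_nonneg_left hhi hu0
  have e2 : uu H X M false Q * ((sd X false).card : ℝ) ≤ uu H X M false Q * ((1 + δ) * n / 2) :=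
    mul_le_mul_of_nonneg_left hhi' hw0
  have e3 : n ≤ (uu H X M true Q + uu H X M false Q) * ((1 + δ) * n) := by
    rw [hu, hw] at h4
    nlinarith
  have e4 : 1 * n ≤ ((uu H X M true Q + uu H X M false Q) * (1 + δ)) * n := by linarith
  have e5 := le_of_mul_le_mul_right e4 hn0
  set s : ℝ := uu H X M true Q + uu H X M false Q with hs
  have hs0 : 0 ≤ s := by linarith
  by_contra hcon
  push Not at hcon
  have e6 : s * (1 + δ) < (1 - δ) * (1 + δ) :=
    mul_lt_mul_of_pos_right hcon (by linarith)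
  nlinarith [mul_pos hδ hδ]

theorem D_true (h2 : StmtE02) {H : Finset (Finset V)} {X M : Finset V} (a b : ℕ)
    (hX : X.Nonempty) (hX' : (Xᶜ).Nonempty) :
    D H X M (a + 1) b = dens (Sum.elim (lets X a b) (fun _ : Unit => sd X true))
      (fun g => insert (g (Sum.inr ())) (M ∪ Finset.univ.image (g ∘ Sum.inl)) ∈ H) := by
  have hne : ∀ i, (Sum.elim (lets X a b) (fun _ : Unit => sd X true) i).Nonempty := by
    rintro ((i | i) | i)
    exacts [hX, hX', hX]
  set φ : Fin (a + 1) ⊕ Fin b → (Fin a ⊕ Fin b) ⊕ Unit :=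
    Sum.elim (Fin.cases (Sum.inr ()) (fun i => Sum.inl (Sum.inl i)))
      (fun j => Sum.inl (Sum.inr j)) with hφ
  have hφi : Function.Injective φ := by
    rintro (i | j) (i' | j') h
    · revert h
      refine Fin.cases ?_ (fun i => ?_) i <;> refine Fin.cases ?_ (fun i' => ?_) i' <;> intro h
      · rfl
      · cases h
      · cases h
      · have h3 : (Sum.inl (Sum.inl i) : (Fin a ⊕ Fin b) ⊕ Unit) = Sum.inl (Sum.inl i') := h
        rw [Sum.inl.inj (Sum.inl.inj h3)]
    · revert h
      refine Fin.cases ?_ (fun i => ?_) i <;> intro h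
      · cases h
      · cases h
    · revert h
      refine Fin.cases ?_ (fun i => ?_) i' <;> intro h
      · cases h
      · cases h
    · have h3 : (Sum.inl (Sum.inr j) : (Fin a ⊕ Fin b) ⊕ Unit) = Sum.inl (Sum.inr j') := h
      rw [Sum.inr.inj (Sum.inl.inj h3)]
  have e1 := h2 V ((Fin a ⊕ Fin b) ⊕ Unit) (Fin (a + 1) ⊕ Fin b)
    (Sum.elim (lets X a b) (fun _ : Unit => sd X true)) φ hne hφi
    (fun f => M ∪ Finset.univ.image f ∈ H)
  have e2 : (Sum.elim (lets X a b) (fun _ : Unit => sd X true)) ∘ φ = lets X (a + 1) b := by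
    funext i
    rcases i with i | i
    · refine Fin.cases ?_ (fun i => ?_) i
      · rfl
      · rfl
    · rfl
  rw [e2] at e1
  unfold D
  rw [← e1]
  apply congrArg (dens (Sum.elim (lets X a b) (fun _ : Unit => sd X true)))
  funext g
  have e3 : M ∪ Finset.univ.image (g ∘ φ) =
      insert (g (Sum.inr ())) (M ∪ Finset.univ.image (g ∘ Sum.inl)) := by
    rw [← Finset.union_insert]
    apply congrArg (M ∪ ·)
    ext x
    simp only [Finset.mem_image, Finset.mem_univ, true_and, Finset.mem_insert, Sum.exists,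
      Fin.exists_fin_succ, Function.comp, hφ, Sum.elim_inl, Sum.elim_inr, Fin.cases_zero,
      Fin.cases_succ]
    constructor
    · rintro ((h | h) | h)
      · exact Or.inl h.symm
      · exact Or.inr (Or.inl h)
      · exact Or.inr (Or.inr h)
    · rintro (h | (h | h))
      · exact Or.inl (Or.inl h.symm)
      · exact Or.inl (Or.inr h)
      · exact Or.inr h
  rw [e3]

theorem D_false (h2 : StmtE02) {H : Finset (Finset V)} {X M : Finset V} (a b : ℕ)
    (hX : X.Nonempty) (hX' : (Xᶜ).Nonempty) :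
    D H X M a (b + 1) = dens (Sum.elim (lets X a b) (fun _ : Unit => sd X false))
      (fun g => insert (g (Sum.inr ())) (M ∪ Finset.univ.image (g ∘ Sum.inl)) ∈ H) := by
  have hne : ∀ i, (Sum.elim (lets X a b) (fun _ : Unit => sd X false) i).Nonempty := by
    rintro ((i | i) | i)
    exacts [hX, hX', hX']
  set φ : Fin a ⊕ Fin (b + 1) → (Fin a ⊕ Fin b) ⊕ Unit :=
    Sum.elim (fun i => Sum.inl (Sum.inl i))
      (Fin.cases (Sum.inr ()) (fun j => Sum.inl (Sum.inr j))) with hφ
  have hφi : Function.Injective φ := by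
    rintro (i | j) (i' | j') h
    · have h3 : (Sum.inl (Sum.inl i) : (Fin a ⊕ Fin b) ⊕ Unit) = Sum.inl (Sum.inl i') := h
      rw [Sum.inl.inj (Sum.inl.inj h3)]
    · revert h
      refine Fin.cases ?_ (fun i => ?_) j' <;> intro h
      · cases h
      · cases h
    · revert h
      refine Fin.cases ?_ (fun i => ?_) j <;> intro h
      · cases h
      · cases h
    · revert h
      refine Fin.cases ?_ (fun i => ?_) j <;> refine Fin.cases ?_ (fun i' => ?_) j' <;> intro h
      · rfl
      · cases h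
      · cases h
      · have h3 : (Sum.inl (Sum.inr i) : (Fin a ⊕ Fin b) ⊕ Unit) = Sum.inl (Sum.inr i') := h
        rw [Sum.inr.inj (Sum.inl.inj h3)]
  have e1 := h2 V ((Fin a ⊕ Fin b) ⊕ Unit) (Fin a ⊕ Fin (b + 1))
    (Sum.elim (lets X a b) (fun _ : Unit => sd X false)) φ hne hφi
    (fun f => M ∪ Finset.univ.image f ∈ H)
  have e2 : (Sum.elim (lets X a b) (fun _ : Unit => sd X false)) ∘ φ = lets X a (b + 1) := by
    funext i
    rcases i with i | i
    · rfl
    · refine Fin.cases ?_ (fun i => ?_) i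
      · rfl
      · rfl
  rw [e2] at e1
  unfold D
  rw [← e1]
  apply congrArg (dens (Sum.elim (lets X a b) (fun _ : Unit => sd X false)))
  funext g
  have e3 : M ∪ Finset.univ.image (g ∘ φ) =
      insert (g (Sum.inr ())) (M ∪ Finset.univ.image (g ∘ Sum.inl)) := by
    rw [← Finset.union_insert]
    apply congrArg (M ∪ ·)
    ext x
    simp only [Finset.mem_image, Finset.mem_univ, true_and, Finset.mem_insert, Sum.exists,
      Fin.exists_fin_succ, Function.comp, hφ, Sum.elim_inl, Sum.elim_inr, Fin.cases_zero,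
      Fin.cases_succ]
    constructor
    · rintro (h | (h | h))
      · exact Or.inr (Or.inl h)
      · exact Or.inl h.symm
      · exact Or.inr (Or.inr h)
    · rintro (h | (h | h))
      · exact Or.inr (Or.inl h.symm)
      · exact Or.inl h
      · exact Or.inr (Or.inr h)
  rw [e3]

/-- one conditional density -/
theorem cond_uu {H : Finset (Finset V)} {X M : Finset V} {ι : Type} [Fintype ι] (b : Bool)
    (Q : ι → V) :
    dens (fun _ : Unit => sd X b) (fun g => insert ((Sum.elim Q g : ι ⊕ Unit → V) (Sum.inr ()))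
      (M ∪ Finset.univ.image ((Sum.elim Q g : ι ⊕ Unit → V) ∘ Sum.inl)) ∈ H) = uu H X M b Q := by
  have h1 := dens_unit (sd X b) (fun x => insert x (M ∪ Finset.univ.image Q) ∈ H)
  exact h1

/-- **E10** -/
theorem e_tri (h1 : StmtE01) (h2 : StmtE02) (h3 : StmtE03) (h4 : StmtE04) (h8 : StmtE08) :
    StmtE10 := by
  classical
  intro V _ _ H X M p q B a b δ η₀ θ h hA hk hη hη1 hh hh1 hθ hδτ hD hMix
  have hδ := hA.pos
  have hsmall := hA.small
  set k : ℝ := ((p + q + 2 : ℕ) : ℝ) with hkk
  have hk2 : 2 ≤ k := by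
    rw [hkk]
    push_cast
    have : (0 : ℝ) ≤ (p : ℝ) := Nat.cast_nonneg _
    have : (0 : ℝ) ≤ (q : ℝ) := Nat.cast_nonneg _
    linarith
  set τ : ℝ := η₀ * h / (16 * k) with hτ
  have hτ0 : 0 < τ := by positivity
  have hτk : 16 * k * τ = η₀ * h := by
    rw [hτ]
    field_simp
  have hηh : η₀ * h ≤ 1 := by nlinarith
  have hτ32 : 32 * τ ≤ η₀ * h := by nlinarith
  set n : ℝ := (Fintype.card V : ℝ) with hn
  -- positivity of n
  have hbig := hA.big
  have hn0 : 0 < n := by
    have e1 : 0 < 100 * ((p + q + 2 : ℕ) : ℝ) ^ 2 * ((B + p + q + 2 : ℕ) : ℝ) := by positivity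
    have e2 : 0 < δ * n := lt_of_lt_of_le e1 hbig
    exact (pos_iff_pos_of_mul_pos e2).1 hδ
  have hXc : (0 : ℝ) < X.card := by
    have := hA.lo
    have e1 : 0 < (1 - δ) * n / 2 := by
      have : 0 < 1 - δ := by linarith
      positivity
    exact lt_of_lt_of_le e1 this
  have hXc' : (0 : ℝ) < (Xᶜ).card := by
    have := hA.lo'
    have e1 : 0 < (1 - δ) * n / 2 := by
      have : 0 < 1 - δ := by linarith
      positivity
    exact lt_of_lt_of_le e1 this
  have hX : X.Nonempty := Finset.card_pos.1 (by exact_mod_cast hXc)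
  have hX' : (Xᶜ).Nonempty := Finset.card_pos.1 (by exact_mod_cast hXc')
  have hsd : ∀ t, (sd X t).Nonempty := by
    intro t
    cases t
    · exact hX'
    · exact hX
  set c : Fin a ⊕ Fin b → Finset V := lets X a b with hc
  have hcne : ∀ i, (c i).Nonempty := by
    rintro (i | i)
    exacts [hX, hX']
  have hcard : M.card + Fintype.card (Fin a ⊕ Fin b) + 1 = p + q + 2 := by
    rw [Fintype.card_sum, Fintype.card_fin, Fintype.card_fin]
    omega
  -- elementary properties of densities in the box c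
  obtain ⟨hd01, hdmono, hdunion, hdcompl, _, _⟩ := h1 V (Fin a ⊕ Fin b) c hcne
  -- bad tuples are few
  have hbad : dens c (fun f => ¬ Gd M f) ≤ δ := by
    have e1 := h4 V (Fin a ⊕ Fin b) X M (Sum.elim (fun _ => true) (fun _ => false))
      (fun _ => none) (by
        have : 0 < (Fintype.card V : ℝ) := hn0
        exact_mod_cast this) (by
        intro t
        cases t
        · have e2 := hA.lo'
          change n ≤ 3 * ((Xᶜ).card : ℝ)
          nlinarith
        · have e2 := hA.lo
          change n ≤ 3 * (X.card : ℝ)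
          nlinarith) (by
        intro i i' v h5
        cases h5)
    have e2 : bx X (Sum.elim (fun _ : Fin a => true) (fun _ : Fin b => false)) (fun _ => none)
        = c := by
      funext i
      rcases i with i | i
      · rfl
      · rfl
    rw [e2] at e1
    have e3 : dens c (fun f => ¬ Gd M f) ≤ dens c (fun f => ¬ (Function.Injective f ∧
        ∀ i, (none : Option V) = none → f i ∉ M)) := by
      apply hdmono
      intro f _ h5 h6
      exact h5 ⟨h6.1, fun i => h6.2 i rfl⟩
    refine le_trans e3 (le_trans e1 ?_)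
    rw [div_le_iff₀ hn0]
    have e4 : ((Fintype.card (Fin a ⊕ Fin b) : ℕ) : ℝ) ≤ k := by
      rw [hkk]
      have : Fintype.card (Fin a ⊕ Fin b) ≤ p + q + 2 := by omega
      exact_mod_cast this
    have e5 : ((M.card : ℕ) : ℝ) ≤ k := by
      rw [hkk]
      have : M.card ≤ p + q + 2 := by omega
      exact_mod_cast this
    have e6 : (0 : ℝ) ≤ ((Fintype.card (Fin a ⊕ Fin b) : ℕ) : ℝ) := Nat.cast_nonneg _
    have e7 : (0 : ℝ) ≤ ((M.card : ℕ) : ℝ) := Nat.cast_nonneg _
    have e8 : ((Fintype.card (Fin a ⊕ Fin b) : ℕ) : ℝ) ^ 2 ≤ k ^ 2 := pow_le_pow_left₀ e6 e4 2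
    have e9 : ((Fintype.card (Fin a ⊕ Fin b) : ℕ) : ℝ) * ((M.card : ℕ) : ℝ) ≤ k * k :=
      mul_le_mul e4 e5 e7 (by linarith)
    have e10 : (1 : ℝ) ≤ ((B + p + q + 2 : ℕ) : ℝ) := by
      have : 1 ≤ B + p + q + 2 := by omega
      exact_mod_cast this
    have e11 : 100 * k ^ 2 * 1 ≤ 100 * k ^ 2 * ((B + p + q + 2 : ℕ) : ℝ) :=
      mul_le_mul_of_nonneg_left e10 (by positivity)
    have e12 : 100 * k ^ 2 * 1 ≤ δ * n := le_trans e11 hbig
    nlinarith
  -- the events
  set u : (Fin a ⊕ Fin b → V) → ℝ := fun Q => uu H X M true Q with hu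
  set w : (Fin a ⊕ Fin b → V) → ℝ := fun Q => uu H X M false Q with hw
  have hu0 : ∀ Q, 0 ≤ u Q := fun Q => uu_nonneg H X M true Q
  have hw0 : ∀ Q, 0 ≤ w Q := fun Q => uu_nonneg H X M false Q
  have hgood : ∀ Q, Gd M Q → 1 - δ ≤ u Q + w Q := fun Q hQ => uu_good hA hcard hX hX' hQ
  have hbadu : ∀ Q, ¬ Gd M Q → u Q = 0 := fun Q hQ => uu_bad hA.uni hcard true hQ
  have hbadw : ∀ Q, ¬ Gd M Q → w Q = 0 := fun Q hQ => uu_bad hA.uni hcard false hQ
  set EA : (Fin a ⊕ Fin b → V) → Prop := fun Q => τ < w Q ∧ u Q ≤ τ with hEA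
  set EB : (Fin a ⊕ Fin b → V) → Prop := fun Q => τ < u Q ∧ w Q ≤ τ with hEB
  -- both densities large
  have hboth : dens c (fun Q => τ < u Q ∧ τ < w Q) ≤ τ := by
    have e1 := (h3 V (Fin a ⊕ Fin b) Bool c (fun t => sd X t) hcne hsd).2.1
      (fun f => insert (f (Sum.inr true)) (M ∪ Finset.univ.image fun i => f (Sum.inl i)) ∈ H ∧
        insert (f (Sum.inr false)) (M ∪ Finset.univ.image fun i => f (Sum.inl i)) ∈ H)
      (τ ^ 2) (by positivity)
    have e2 : dens (Sum.elim c fun t => sd X t) (fun f =>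
        insert (f (Sum.inr true)) (M ∪ Finset.univ.image fun i => f (Sum.inl i)) ∈ H ∧
        insert (f (Sum.inr false)) (M ∪ Finset.univ.image fun i => f (Sum.inl i)) ∈ H) ≤ τ ^ 3 :=
      le_trans hMix hθ
    have e3 : dens c (fun Q => τ < u Q ∧ τ < w Q) ≤
        dens c (fun f => τ ^ 2 < dens (fun t => sd X t) (fun g =>
          insert ((Sum.elim f g : (Fin a ⊕ Fin b) ⊕ Bool → V) (Sum.inr true))
            (M ∪ Finset.univ.image fun i => (Sum.elim f g : (Fin a ⊕ Fin b) ⊕ Bool → V)
              (Sum.inl i)) ∈ H ∧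
          insert ((Sum.elim f g : (Fin a ⊕ Fin b) ⊕ Bool → V) (Sum.inr false))
            (M ∪ Finset.univ.image fun i => (Sum.elim f g : (Fin a ⊕ Fin b) ⊕ Bool → V)
              (Sum.inl i)) ∈ H)) := by
      apply hdmono
      rintro Q _ ⟨h5, h6⟩
      have e4 := dens_bool (fun t => sd X t)
        (fun x => insert x (M ∪ Finset.univ.image Q) ∈ H)
        (fun x => insert x (M ∪ Finset.univ.image Q) ∈ H)
      change τ ^ 2 < dens (fun t => sd X t) (fun g =>
        insert (g true) (M ∪ Finset.univ.image Q) ∈ H ∧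
        insert (g false) (M ∪ Finset.univ.image Q) ∈ H)
      rw [e4]
      change τ ^ 2 < u Q * w Q
      rw [pow_two]
      exact mul_lt_mul'' h5 h6 hτ0.le hτ0.le
    have e5 : τ ^ 2 * dens c (fun Q => τ < u Q ∧ τ < w Q) ≤ τ ^ 2 * τ := by
      have e6 := mul_le_mul_of_nonneg_left e3 (sq_nonneg τ)
      have e7 : τ ^ 2 * τ = τ ^ 3 := by ring
      rw [e7]
      exact le_trans e6 (le_trans e1 e2)
    exact le_of_mul_le_mul_left e5 (by positivity)
  -- the rest
  have hrest : dens c (fun Q => ¬ EA Q ∧ ¬ EB Q) ≤ τ + δ := by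
    have e1 : dens c (fun Q => ¬ EA Q ∧ ¬ EB Q) ≤
        dens c (fun Q => (τ < u Q ∧ τ < w Q) ∨ ¬ Gd M Q) := by
      apply hdmono
      rintro Q _ ⟨h5, h6⟩
      by_cases h7 : τ < u Q
      · by_cases h8 : τ < w Q
        · exact Or.inl ⟨h7, h8⟩
        · exact absurd ⟨h7, not_lt.1 h8⟩ h6
      · by_cases h8 : τ < w Q
        · exact absurd ⟨h8, not_lt.1 h7⟩ h5
        · right
          intro h9
          have e2 := hgood Q h9
          have e3 := not_lt.1 h7
          have e4 := not_lt.1 h8
          linarith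
    refine le_trans e1 (le_trans (hdunion _ _) ?_)
    linarith
  -- the flux
  have hflux : ∀ i, dens (Sum.elim c (fun _ : Unit => c i))
      (fun g => EA (g ∘ Sum.inl) ∧ EB (Function.update (g ∘ Sum.inl) i (g (Sum.inr ())))) ≤
      2 * τ + δ := by
    intro i
    rw [flux_eq h2 c hcne EA EB i]
    have hci : ∀ t : Bool, ((fun _ : Bool => c i) t).Nonempty := fun _ => hcne i
    have e1 := (h3 V (Fin a ⊕ Fin b) Bool c (fun _ => c i) hcne hci).2.2
      (fun _ => True) (fun g => EA (Function.update (g ∘ Sum.inl) i (g (Sum.inr true))) ∧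
        EB (Function.update (g ∘ Sum.inl) i (g (Sum.inr false)))) (2 * τ + δ) (by linarith) (by
        intro f _ _
        have e2 := dens_bool (fun _ : Bool => c i) (fun x => EA (Function.update f i x))
          (fun x => EB (Function.update f i x))
        change dens (fun _ : Bool => c i) (fun g => EA (Function.update f i (g true)) ∧
          EB (Function.update f i (g false))) ≤ 2 * τ + δ
        rw [e2]
        have hcc : (0 : ℝ) < ((c i).card : ℝ) := by exact_mod_cast (hcne i).card_pos
        rw [div_mul_div_comm, div_le_iff₀ (by positivity)]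
        have hsubA : fl (c i) (fun x => EA (Function.update f i x)) ⊆ c i :=
          fun x hx => (mem_fl.1 hx).1
        have hsubB : fl (c i) (fun x => EB (Function.update f i x)) ⊆ c i :=
          fun x hx => (mem_fl.1 hx).1
        rcases i with i | i
        · -- letter X: A is low, B is high
          have e3 := flux_pairs (H := H) (X := X) (M := M) true f (Sum.inl i) hτ0.le hδ.le
            (hsd true) (ZH := fl (c (Sum.inl i)) (fun x => EB (Function.update f (Sum.inl i) x)))
            (ZL := fl (c (Sum.inl i)) (fun x => EA (Function.update f (Sum.inl i) x)))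
            hsubB hsubA (by
              intro y hy
              exact (mem_fl.1 hy).2.2) (by
              intro z hz
              obtain ⟨_, h5, h6⟩ := mem_fl.1 hz
              have h7 : Gd M (Function.update f (Sum.inl i) z) := by
                by_contra h8
                have h9 := hbadu _ h8
                rw [h9] at h5
                linarith
              have h8 := hgood _ h7
              change 1 - δ - τ ≤ u (Function.update f (Sum.inl i) z)
              linarith)
          have e4 : ((sd X true).card : ℝ) = ((c (Sum.inl i)).card : ℝ) := rfl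
          rw [e4] at e3
          linarith
        · have e3 := flux_pairs (H := H) (X := X) (M := M) false f (Sum.inr i) hτ0.le hδ.le
            (hsd false) (ZH := fl (c (Sum.inr i)) (fun x => EA (Function.update f (Sum.inr i) x)))
            (ZL := fl (c (Sum.inr i)) (fun x => EB (Function.update f (Sum.inr i) x)))
            hsubA hsubB (by
              intro y hy
              exact (mem_fl.1 hy).2.2) (by
              intro z hz
              obtain ⟨_, h5, h6⟩ := mem_fl.1 hz
              have h7 : Gd M (Function.update f (Sum.inr i) z) := by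
                by_contra h8
                have h9 := hbadw _ h8
                rw [h9] at h5
                linarith
              have h8 := hgood _ h7
              change 1 - δ - τ ≤ w (Function.update f (Sum.inr i) z)
              linarith)
          have e4 : ((sd X false).card : ℝ) = ((c (Sum.inr i)).card : ℝ) := rfl
          rw [e4] at e3
          linarith)
    have e2 : dens c (fun _ => True) ≤ 1 := (hd01 _).2
    have e3 : (2 * τ + δ) * dens c (fun _ => True) ≤ 2 * τ + δ := by nlinarith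
    refine le_trans ?_ (le_trans e1 e3)
    have hne : ∀ j, (Sum.elim c (fun _ : Bool => c i) j).Nonempty := by
      rintro (j | j)
      exacts [hcne j, hcne i]
    apply (h1 V ((Fin a ⊕ Fin b) ⊕ Bool) (Sum.elim c (fun _ : Bool => c i)) hne).2.1
    intro g _ h5
    exact ⟨trivial, h5⟩
  -- isoperimetry
  have hiso := h8 V (Fin a ⊕ Fin b) c EA EB hcne (by
    rintro f ⟨h5, h6⟩ ⟨h7, h8⟩
    linarith)
  have hm : ((Fintype.card (Fin a ⊕ Fin b) : ℕ) : ℝ) ≤ k := by
    rw [hkk]
    have : Fintype.card (Fin a ⊕ Fin b) ≤ p + q + 2 := by omega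
    exact_mod_cast this
  have hPAB : dens c EA * dens c EB ≤ 5 * k * τ := by
    refine le_trans hiso ?_
    have e1 : (∑ i, dens (Sum.elim c (fun _ : Unit => c i))
        (fun g => EA (g ∘ Sum.inl) ∧ EB (Function.update (g ∘ Sum.inl) i (g (Sum.inr ()))))) ≤
        ((Fintype.card (Fin a ⊕ Fin b) : ℕ) : ℝ) * (2 * τ + δ) := by
      refine le_trans (Finset.sum_le_card_nsmul _ _ _ (fun i _ => hflux i)) ?_
      rw [Finset.card_univ, nsmul_eq_mul]
    have e2 : (0 : ℝ) ≤ ((Fintype.card (Fin a ⊕ Fin b) : ℕ) : ℝ) := Nat.cast_nonneg _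
    have e3 : ((Fintype.card (Fin a ⊕ Fin b) : ℕ) : ℝ) * dens c (fun f => ¬ EA f ∧ ¬ EB f) ≤
        ((Fintype.card (Fin a ⊕ Fin b) : ℕ) : ℝ) * (τ + δ) :=
      mul_le_mul_of_nonneg_left hrest e2
    have e4 : ((Fintype.card (Fin a ⊕ Fin b) : ℕ) : ℝ) * (3 * τ + 2 * δ) ≤ k * (3 * τ + 2 * δ) :=
      mul_le_mul_of_nonneg_right hm (by linarith)
    have e5 : k * (3 * τ + 2 * δ) ≤ k * (5 * τ) :=
      mul_le_mul_of_nonneg_left (by linarith) (by linarith)
    linarith
  -- the average of w
  have hPA : η₀ - 2 * τ ≤ dens c EA := by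
    rw [D_false h2 a b hX hX'] at hD
    have e1 := avg_le h1 h2 h3 c (fun _ : Unit => sd X false) hcne (fun _ => hsd false)
      (fun g => insert (g (Sum.inr ())) (M ∪ Finset.univ.image (g ∘ Sum.inl)) ∈ H) τ hτ0.le
    have e2 : dens c (fun f => τ < dens (fun _ : Unit => sd X false) (fun g =>
        insert ((Sum.elim f g : (Fin a ⊕ Fin b) ⊕ Unit → V) (Sum.inr ()))
          (M ∪ Finset.univ.image ((Sum.elim f g : (Fin a ⊕ Fin b) ⊕ Unit → V) ∘ Sum.inl)) ∈ H)) ≤
        dens c (fun Q => EA Q ∨ (τ < u Q ∧ τ < w Q)) := by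
      apply hdmono
      intro Q _ h5
      rw [cond_uu] at h5
      by_cases h6 : τ < u Q
      · exact Or.inr ⟨h6, h5⟩
      · exact Or.inl ⟨h5, not_lt.1 h6⟩
    have e3 := hdunion EA (fun Q => τ < u Q ∧ τ < w Q)
    linarith
  -- the average of u
  have hDu : D H X M (a + 1) b ≤ dens c EB + 2 * τ := by
    rw [D_true h2 a b hX hX']
    have e1 := avg_le h1 h2 h3 c (fun _ : Unit => sd X true) hcne (fun _ => hsd true)
      (fun g => insert (g (Sum.inr ())) (M ∪ Finset.univ.image (g ∘ Sum.inl)) ∈ H) τ hτ0.le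
    have e2 : dens c (fun f => τ < dens (fun _ : Unit => sd X true) (fun g =>
        insert ((Sum.elim f g : (Fin a ⊕ Fin b) ⊕ Unit → V) (Sum.inr ()))
          (M ∪ Finset.univ.image ((Sum.elim f g : (Fin a ⊕ Fin b) ⊕ Unit → V) ∘ Sum.inl)) ∈ H)) ≤
        dens c (fun Q => EB Q ∨ (τ < u Q ∧ τ < w Q)) := by
      apply hdmono
      intro Q _ h5
      rw [cond_uu] at h5
      by_cases h6 : τ < w Q
      · exact Or.inr ⟨h5, h6⟩
      · exact Or.inl ⟨h5, not_lt.1 h6⟩
    have e3 := hdunion EB (fun Q => τ < u Q ∧ τ < w Q)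
    linarith
  -- conclusion
  have hη2 : η₀ * h ≤ η₀ := by nlinarith
  have hPA2 : η₀ / 2 ≤ dens c EA := by linarith
  have hPB0 : 0 ≤ dens c EB := (hd01 _).1
  have e1 : η₀ / 2 * dens c EB ≤ η₀ * h * (5 / 16) := by
    have e2 : η₀ / 2 * dens c EB ≤ dens c EA * dens c EB :=
      mul_le_mul_of_nonneg_right hPA2 hPB0
    nlinarith
  have e2 : dens c EB ≤ 10 / 16 * h := by
    have e3 : η₀ * dens c EB ≤ η₀ * (10 / 16 * h) := by linarith
    exact le_of_mul_le_mul_left e3 hη
  have e3 : η₀ * h ≤ h := by nlinarith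
  linarith

end

end Pool.Agent.KK.E.H92
end

/-! ### Helper17_KK.E_VTX -/
section
/-!
# Row E_VTX (statement E13), author helper17

The inequality of a single vertex.
-/

set_option autoImplicit false

open Finset

namespace Pool.Agent.KK.E.H17

variable {V : Type} [Fintype V] [DecidableEq V]

/-- The minimal non-normal subsets of `X` disjoint from `F'`. -/
def Mon (H : Finset (Finset V)) (X F' : Finset V) (p q : ℕ) (η : ℕ → ℝ) (M : Finset V) : Prop :=
  Mst H X p q η M ∧ M ⊆ X ∧ Disjoint M F'

/-- The up-set. -/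
def Up (H : Finset (Finset V)) (X F' : Finset V) (p q : ℕ) (η : ℕ → ℝ) (v : V) (S : Finset V) :
    Prop :=
  ∃ A ⊆ S, v ∉ A ∧ Mon H X F' p q η (insert v A)

/-- The event `E_I`, as a property of the restriction of `f` to `I`. -/
def EA (H : Finset (Finset V)) (X F' : Finset V) (p q : ℕ) (η : ℕ → ℝ) (v : V) {ι : Type}
    [Fintype ι] (z : ι → V) : Prop :=
  Function.Injective z ∧ v ∉ Finset.univ.image z ∧ Mon H X F' p q η (insert v (Finset.univ.image z))

/-- The good event. -/
def Gd (H : Finset (Finset V)) (X F' : Finset V) (p q : ℕ) (η : ℕ → ℝ) (v : V)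
    (f : Fin (p + 1) ⊕ Fin (q + 1) → V) : Prop :=
  Gen H X p q η F' ∅ f ∧ v ∉ Finset.univ.image f ∧ insert v (Rx f) ∉ H

theorem up_mono (H : Finset (Finset V)) (X F' : Finset V) (p q : ℕ) (η : ℕ → ℝ) (v : V)
    (S S' : Finset V) (h : S ⊆ S') (hS : Up H X F' p q η v S) : Up H X F' p q η v S' := by
  obtain ⟨A, hA, h1⟩ := hS
  exact ⟨A, hA.trans h, h1⟩

theorem exists_mst (H : Finset (Finset V)) (X : Finset V) (p q : ℕ) (η : ℕ → ℝ) (N : Finset V)
    (hN : Non H X p q η N) : ∃ M ⊆ N, Mst H X p q η M := by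
  induction N using Finset.strongInduction with
  | H N ih =>
    by_cases h : ∃ M' ⊂ N, Non H X p q η M'
    · obtain ⟨M', h1, h2⟩ := h
      obtain ⟨M, h3, h4⟩ := ih M' h1 h2
      exact ⟨M, h3.trans h1.subset, h4⟩
    · refine ⟨N, Finset.Subset.refl N, hN, ?_⟩
      intro M' hM' h'
      exact h ⟨M', hM', h'⟩

theorem dens_one (h1 : StmtE01) {ι : Type} [Fintype ι] (c : ι → Finset V)
    (hc : ∀ i, (c i).Nonempty) (P : (ι → V) → Prop) (hP : ∀ f, (∀ i, f i ∈ c i) → P f) :
    dens c P = 1 := by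
  obtain ⟨h01, hmono, hor, hcompl, hpos, hsum⟩ := h1 V ι c hc
  have h2 := hcompl P
  have h3 : ¬ 0 < dens c (fun f => ¬ P f) := by
    intro h
    obtain ⟨f, hf, hf'⟩ := hpos _ h
    exact hf' (hP f hf)
  have h4 := (h01 (fun f => ¬ P f)).1
  linarith [not_lt.1 h3]

theorem dens_zero (h1 : StmtE01) {ι : Type} [Fintype ι] (c : ι → Finset V)
    (hc : ∀ i, (c i).Nonempty) (P : (ι → V) → Prop) (hP : ∀ f, (∀ i, f i ∈ c i) → ¬ P f) :
    dens c P = 0 := by
  obtain ⟨h01, hmono, hor, hcompl, hpos, hsum⟩ := h1 V ι c hc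
  have h3 : ¬ 0 < dens c P := by
    intro h
    obtain ⟨f, hf, hf'⟩ := hpos _ h
    exact hP f hf hf'
  exact le_antisymm (not_lt.1 h3) (h01 P).1

theorem lets_nonempty (X : Finset V) (hX : X.Nonempty) (hX' : (Xᶜ).Nonempty) (a b : ℕ) :
    ∀ i, (lets X a b i).Nonempty := by
  intro i
  rcases i with i | i
  · exact hX
  · exact hX'

theorem sd_nonempty (X : Finset V) (hX : X.Nonempty) (hX' : (Xᶜ).Nonempty) (b : Bool) :
    (sd X b).Nonempty := by
  cases b
  · exact hX'
  · exact hX

theorem non_edge (h1 : StmtE01) (H : Finset (Finset V)) (X : Finset V) (hX : X.Nonempty)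
    (hX' : (Xᶜ).Nonempty) (p q : ℕ) (η : ℕ → ℝ) (hη : η (p + q + 2) ≤ 1 / 2) (e : Finset V)
    (he : e ∈ H) (hc1 : (e ∩ X).card = p + 1) (hc2 : (e \ X).card = q + 1) :
    Non H X p q η e := by
  refine ⟨hc1.le, hc2.le, ?_⟩
  have hcard : e.card = p + q + 2 := by
    have := Finset.card_inter_add_card_sdiff e X
    omega
  rw [hcard, hc1, hc2, Nat.sub_self, Nat.sub_self]
  have h2 : D H X e 0 0 = 1 := by
    unfold D
    apply dens_one h1 _ (lets_nonempty X hX hX' 0 0)
    intro f hf
    have h3 : Finset.univ.image f = ∅ := by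
      rw [Finset.image_eq_empty]
      apply Finset.univ_eq_empty
    rw [h3, Finset.union_empty]
    exact he
  rw [h2]
  linarith

theorem part1 (h1 : StmtE01) (H : Finset (Finset V)) (X F' : Finset V) (hX : X.Nonempty)
    (hX' : (Xᶜ).Nonempty) (p q : ℕ) (η : ℕ → ℝ) (h : ℝ) (hη : η (p + q + 2) ≤ 1 / 2)
    (hGA : GA H X p q η h F') (v : V) (hvX : v ∈ X) (hvF : v ∉ F')
    (f : Fin (p + 1) ⊕ Fin (q + 1) → V) (hf : ∀ i, f i ∈ lets X (p + 1) (q + 1) i)
    (hg : Gen H X p q η F' ∅ f) (hv : v ∉ Finset.univ.image f) (he : insert v (Ry f) ∈ H) :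
    Up H X F' p q η v (Finset.univ.image (f ∘ fun i : Fin p => Sum.inl i.succ)) := by
  have hfx : ∀ i : Fin (p + 1), f (Sum.inl i) ∈ X := fun i => hf (Sum.inl i)
  have hfy : ∀ i : Fin (q + 1), f (Sum.inr i) ∉ X := fun i => Finset.mem_compl.1 (hf (Sum.inr i))
  obtain ⟨hinj, hW, hN⟩ := hg
  have hv' : ∀ i, f i ≠ v := by
    intro i hi
    exact hv (Finset.mem_image.2 ⟨i, Finset.mem_univ _, hi⟩)
  have heX : insert v (Ry f) ∩ X =
      insert v (Finset.univ.image (f ∘ fun i : Fin p => Sum.inl i.succ)) := by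
    ext u
    simp only [Ry, Finset.mem_inter, Finset.mem_insert, Finset.mem_image, Finset.mem_filter,
      Finset.mem_univ, true_and, Function.comp_apply]
    constructor
    · rintro ⟨h2 | ⟨i, hi, rfl⟩, h3⟩
      · exact Or.inl h2
      · rcases i with i | i
        · have hi0 : i ≠ 0 := fun h4 => hi (by rw [h4])
          obtain ⟨j, hj⟩ := Fin.exists_succ_eq.2 hi0
          exact Or.inr ⟨j, by rw [hj]⟩
        · exact absurd h3 (hfy i)
    · rintro (h2 | ⟨i, rfl⟩)
      · exact ⟨Or.inl h2, by rw [h2]; exact hvX⟩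
      · refine ⟨Or.inr ⟨Sum.inl i.succ, ?_, rfl⟩, hfx _⟩
        intro h4
        exact (Fin.succ_ne_zero i) (Sum.inl.inj h4)
  have heY : insert v (Ry f) \ X = Finset.univ.image (f ∘ fun i : Fin (q + 1) => Sum.inr i) := by
    ext u
    simp only [Ry, Finset.mem_sdiff, Finset.mem_insert, Finset.mem_image, Finset.mem_filter,
      Finset.mem_univ, true_and, Function.comp_apply]
    constructor
    · rintro ⟨h2 | ⟨i, hi, rfl⟩, h3⟩
      · exact absurd (by rw [h2]; exact hvX) h3
      · rcases i with i | i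
        · exact absurd (hfx i) h3
        · exact ⟨i, rfl⟩
    · rintro ⟨i, rfl⟩
      refine ⟨Or.inr ⟨Sum.inr i, ?_, rfl⟩, hfy _⟩
      intro h4
      exact Sum.inr_ne_inl h4
  have hinj1 : Function.Injective (f ∘ fun i : Fin p => (Sum.inl i.succ : Fin (p + 1) ⊕ Fin (q + 1))) :=
    hinj.comp fun a b hab => Fin.succ_injective _ (Sum.inl.inj hab)
  have hinj2 : Function.Injective (f ∘ fun i : Fin (q + 1) => (Sum.inr i : Fin (p + 1) ⊕ Fin (q + 1))) :=
    hinj.comp fun a b hab => Sum.inr.inj hab
  have hc1 : (insert v (Ry f) ∩ X).card = p + 1 := by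
    rw [heX, Finset.card_insert_of_notMem, Finset.card_image_of_injective _ hinj1]
    · simp
    · intro h2
      obtain ⟨i, _, hi⟩ := Finset.mem_image.1 h2
      exact hv' _ hi
  have hc2 : (insert v (Ry f) \ X).card = q + 1 := by
    rw [heY, Finset.card_image_of_injective _ hinj2]
    simp
  have hnon := non_edge h1 H X hX hX' p q η hη _ he hc1 hc2
  obtain ⟨M, hMe, hM⟩ := exists_mst H X p q η _ hnon
  have hvM : v ∈ M := by
    by_contra hvM
    refine hN M ?_ hM.1
    intro u hu
    rw [Finset.empty_union]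
    rcases Finset.mem_insert.1 (hMe hu) with h2 | h2
    · exact absurd (h2 ▸ hu) hvM
    · obtain ⟨i, _, hi⟩ := Finset.mem_image.1 h2
      exact Finset.mem_image.2 ⟨i, Finset.mem_univ _, hi⟩
  have hMF : Disjoint M F' := by
    rw [Finset.disjoint_left]
    intro u hu hu'
    rcases Finset.mem_insert.1 (hMe hu) with h2 | h2
    · exact hvF (h2 ▸ hu')
    · obtain ⟨i, _, hi⟩ := Finset.mem_image.1 h2
      apply hW i
      rw [hi]
      exact Finset.mem_union_right _ hu'
  have hMX : M ⊆ X := by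
    rcases hGA M hM hMF with h2 | h2
    · exact h2.1
    · exact absurd hvX (Finset.mem_compl.1 (h2.1 hvM))
  have hins : insert v (M.erase v) = M := Finset.insert_erase hvM
  refine ⟨M.erase v, ?_, Finset.notMem_erase v M, ?_⟩
  · intro u hu
    obtain ⟨hu1, hu2⟩ := Finset.mem_erase.1 hu
    have h3 : u ∈ insert v (Ry f) ∩ X := Finset.mem_inter.2 ⟨hMe hu2, hMX hu2⟩
    rw [heX] at h3
    exact (Finset.mem_insert.1 h3).resolve_left hu1
  · rw [hins]
    exact ⟨hM, hMX, hMF⟩

/-- The re-indexing of the coordinates. -/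
def psi {p q : ℕ} (I : Finset (Fin (p + 1))) :
    {a // a ∈ I} ⊕ ({a // a ∉ I} ⊕ Fin (q + 1)) ≃ Fin (p + 1) ⊕ Fin (q + 1) :=
  (Equiv.sumAssoc {a // a ∈ I} {a // a ∉ I} (Fin (q + 1))).symm.trans
    ((Equiv.sumCompl (fun a => a ∈ I)).sumCongr (Equiv.refl _))

theorem psi_inl {p q : ℕ} (I : Finset (Fin (p + 1))) (i : {a // a ∈ I}) :
    psi (q := q) I (Sum.inl i) = Sum.inl i.1 := rfl

theorem psi_inrl {p q : ℕ} (I : Finset (Fin (p + 1))) (i : {a // a ∉ I}) :
    psi (q := q) I (Sum.inr (Sum.inl i)) = Sum.inl i.1 := rfl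

theorem psi_inrr {p q : ℕ} (I : Finset (Fin (p + 1))) (i : Fin (q + 1)) :
    psi (q := q) I (Sum.inr (Sum.inr i)) = Sum.inr i := rfl

/-- Letters of the free coordinates. -/
def ltr {p q : ℕ} (I : Finset (Fin (p + 1))) : {a // a ∉ I} ⊕ Fin (q + 1) → Bool :=
  Sum.elim (fun _ => true) (fun _ => false)

/-- If the free coordinates are generic over `A` and the window is not an edge then the event is
good. -/
theorem good_of (H : Finset (Finset V)) (X F' : Finset V) (p q : ℕ) (η : ℕ → ℝ) (v : V)
    (I : Finset (Fin (p + 1))) (f : {a // a ∈ I} → V) (g : {a // a ∉ I} ⊕ Fin (q + 1) → V)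
    (hf : EA H X F' p q η v f)
    (hg : Gen H X p q η (insert v F') (Finset.univ.image f) g) {a : ℕ} (e : Fin a ≃ {a // a ∉ I})
    (hH : insert v (Finset.univ.image f) ∪ Finset.univ.image
      (g ∘ Sum.map e (Fin.succ : Fin q → Fin (q + 1))) ∉ H) :
    Gd H X F' p q η v (Sum.elim f g ∘ (psi I).symm) := by
  obtain ⟨hfi, hfv, hfM⟩ := hf
  obtain ⟨hgi, hgW, hgN⟩ := hg
  have him : ∀ u, u ∈ Finset.univ.image (Sum.elim f g ∘ (psi I).symm) ↔
      u ∈ Finset.univ.image f ∪ Finset.univ.image g := by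
    intro u
    simp only [Finset.mem_union, Finset.mem_image, Finset.mem_univ, true_and, Function.comp_apply]
    constructor
    · rintro ⟨i, hi⟩
      rcases hj : (psi I).symm i with j | j
      · rw [hj] at hi
        exact Or.inl ⟨j, hi⟩
      · rw [hj] at hi
        exact Or.inr ⟨j, hi⟩
    · rintro (⟨j, hj⟩ | ⟨j, hj⟩)
      · exact ⟨psi I (Sum.inl j), by rw [Equiv.symm_apply_apply]; exact hj⟩
      · exact ⟨psi I (Sum.inr j), by rw [Equiv.symm_apply_apply]; exact hj⟩
  have himv : v ∉ Finset.univ.image (Sum.elim f g ∘ (psi I).symm) := by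
    intro h2
    rw [him] at h2
    rcases Finset.mem_union.1 h2 with h3 | h3
    · exact hfv h3
    · obtain ⟨j, _, hj⟩ := Finset.mem_image.1 h3
      apply hgW j
      rw [hj]
      exact Finset.mem_union_right _ (Finset.mem_insert_self _ _)
  refine ⟨⟨?_, ?_, ?_⟩, himv, ?_⟩
  · refine Function.Injective.comp (Function.Injective.sumElim hfi hgi ?_) (Equiv.injective _)
    intro i j hij
    apply hgW j
    rw [← hij]
    exact Finset.mem_union_left _ (Finset.mem_image.2 ⟨i, Finset.mem_univ _, rfl⟩)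
  · intro i
    rw [Finset.empty_union]
    intro h2
    have h3 := (him _).1 (Finset.mem_image.2 ⟨i, Finset.mem_univ _, rfl⟩)
    rcases Finset.mem_union.1 h3 with h4 | h4
    · exact Finset.disjoint_left.1 hfM.2.2 (Finset.mem_insert_of_mem h4) h2
    · obtain ⟨j, _, hj⟩ := Finset.mem_image.1 h4
      apply hgW j
      rw [hj]
      exact Finset.mem_union_right _ (Finset.mem_insert_of_mem h2)
  · intro N hN
    apply hgN N
    intro u hu
    have h2 := hN hu
    rw [Finset.empty_union] at h2
    exact (him u).1 h2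
  · have h2 : insert v (Rx (Sum.elim f g ∘ (psi I).symm)) = insert v (Finset.univ.image f) ∪
        Finset.univ.image (g ∘ Sum.map e (Fin.succ : Fin q → Fin (q + 1))) := by
      ext u
      simp only [Rx, Finset.mem_insert, Finset.mem_union, Finset.mem_image, Finset.mem_univ,
        true_and, Finset.mem_filter, Function.comp_apply]
      constructor
      · rintro (h3 | ⟨i, hi, hu⟩)
        · exact Or.inl (Or.inl h3)
        · rcases hj : (psi I).symm i with j | j | j
          · rw [hj] at hu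
            exact Or.inl (Or.inr ⟨j, hu⟩)
          · rw [hj] at hu
            refine Or.inr ⟨Sum.inl (e.symm j), ?_⟩
            rw [Sum.map_inl, Equiv.apply_symm_apply]
            exact hu
          · rw [hj] at hu
            have hj0 : j ≠ 0 := by
              intro h4
              apply hi
              have h5 := (Equiv.symm_apply_eq _).1 hj
              rw [h5, psi_inrr, h4]
            obtain ⟨j', hj'⟩ := Fin.exists_succ_eq.2 hj0
            refine Or.inr ⟨Sum.inr j', ?_⟩
            rw [Sum.map_inr, hj']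
            exact hu
      · rintro ((h3 | ⟨j, hj⟩) | ⟨j, hj⟩)
        · exact Or.inl h3
        · refine Or.inr ⟨psi I (Sum.inl j), ?_, by rw [Equiv.symm_apply_apply]; exact hj⟩
          rw [psi_inl]
          exact Sum.inl_ne_inr
        · rcases j with j | j
          · refine Or.inr ⟨psi I (Sum.inr (Sum.inl (e j))), ?_, ?_⟩
            · rw [psi_inrl]
              exact Sum.inl_ne_inr
            · rw [Equiv.symm_apply_apply]
              exact hj
          · refine Or.inr ⟨psi I (Sum.inr (Sum.inr j.succ)), ?_, ?_⟩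
            · rw [psi_inrr]
              intro h4
              exact (Fin.succ_ne_zero j) (Sum.inr.inj h4)
            · rw [Equiv.symm_apply_apply]
              exact hj
    rw [h2]
    exact hH

/-- The bad part of `E_I`. -/
theorem bad_bound (h1 : StmtE01) (h2 : StmtE02) (h3 : StmtE03) (h12 : StmtE12)
    (H : Finset (Finset V)) (X F' : Finset V) (p q B : ℕ) (δ h ρ : ℝ) (η : ℕ → ℝ) (v : V)
    (hA : Amb H X p q B δ) (hpos : ∀ i, i ≤ p + q + 2 → 0 < η i) (hρ : 0 ≤ ρ)
    (hch : ∀ i i', i < i' → i' ≤ p + q + 2 → η i ≤ ρ * η i')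
    (hGA : GA H X p q η h F') (hF : F'.card ≤ B + (p + q + 2)) (hh : 0 ≤ h)
    (hX : X.Nonempty) (hX' : (Xᶜ).Nonempty) (hvX : v ∈ X) (I : Finset (Fin (p + 1))) :
    dens (lets X (p + 1) (q + 1)) (fun f =>
        EA H X F' p q η v (f ∘ fun i : {a // a ∈ I} => Sum.inl i.1) ∧ ¬ Gd H X F' p q η v f) ≤
      (2 ^ (p + q + 2) * ρ + δ + h) *
        dens (lets X (p + 1) (q + 1)) (fun f =>
          EA H X F' p q η v (f ∘ fun i : {a // a ∈ I} => Sum.inl i.1)) := by
  have hτ : 0 ≤ 2 ^ (p + q + 2) * ρ + δ + h := by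
    have := hA.pos
    positivity
  have hbox : (lets X (p + 1) (q + 1)) ∘ (psi I) =
      Sum.elim (fun _ : {a // a ∈ I} => X) (fun j => sd X (ltr (q := q) I j)) := by
    funext j
    rcases j with j | j | j <;> rfl
  have hne := lets_nonempty X hX hX' (p + 1) (q + 1)
  -- re-indexing of the left side
  have e1 : dens (lets X (p + 1) (q + 1)) (fun f =>
        EA H X F' p q η v (f ∘ fun i : {a // a ∈ I} => Sum.inl i.1) ∧ ¬ Gd H X F' p q η v f) =
      dens (Sum.elim (fun _ : {a // a ∈ I} => X) (fun j => sd X (ltr (q := q) I j)))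
        (fun g => EA H X F' p q η v (g ∘ Sum.inl) ∧ ¬ Gd H X F' p q η v (g ∘ (psi I).symm)) := by
    rw [← hbox, ← h2 V _ _ (lets X (p + 1) (q + 1)) (psi I) hne (psi I).injective
      (fun g => EA H X F' p q η v (g ∘ Sum.inl) ∧ ¬ Gd H X F' p q η v (g ∘ (psi I).symm))]
    have h4 : ∀ f : Fin (p + 1) ⊕ Fin (q + 1) → V, (f ∘ psi I) ∘ (psi I).symm = f := by
      intro f
      funext i
      simp
    have h5 : ∀ f : Fin (p + 1) ⊕ Fin (q + 1) → V, (f ∘ psi I) ∘ Sum.inl =
        f ∘ fun i : {a // a ∈ I} => Sum.inl i.1 := by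
      intro f
      rfl
    simp only [h4, h5]
  have e2 : dens (lets X (p + 1) (q + 1)) (fun f =>
          EA H X F' p q η v (f ∘ fun i : {a // a ∈ I} => Sum.inl i.1)) =
      dens (fun _ : {a // a ∈ I} => X) (fun z => EA H X F' p q η v z) := by
    have hi : Function.Injective (fun i : {a // a ∈ I} => (Sum.inl i.1 : Fin (p + 1) ⊕ Fin (q + 1))) :=
      fun a b hab => Subtype.ext (Sum.inl.inj hab)
    exact h2 V _ _ (lets X (p + 1) (q + 1)) _ hne hi (fun z => EA H X F' p q η v z)
  rw [e1, e2]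
  have hd : ∀ j, (sd X (ltr (q := q) I j)).Nonempty := fun j => sd_nonempty X hX hX' _
  refine (h3 V {a // a ∈ I} ({a // a ∉ I} ⊕ Fin (q + 1)) (fun _ => X)
    (fun j => sd X (ltr (q := q) I j)) (fun _ => hX) hd).2.2
    (fun z => EA H X F' p q η v z) (fun g => ¬ Gd H X F' p q η v (g ∘ (psi I).symm)) _ hτ ?_
  intro f hf hEA
  -- the number of free coordinates
  have hcI : (Finset.univ.image f).card = I.card := by
    rw [Finset.card_image_of_injective _ hEA.1]
    simp
  have hcard : I.card + Fintype.card ({a // a ∉ I} ⊕ Fin (q + 1)) = p + q + 2 := by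
    have h4 := Fintype.card_congr (psi (q := q) I)
    rw [Fintype.card_sum (α := {a // a ∈ I}), Fintype.card_coe] at h4
    rw [h4]
    simp
    omega
  have hcard' : Fintype.card {a // a ∉ I} = p + 1 - I.card := by
    rw [Fintype.card_sum, Fintype.card_fin] at hcard
    omega
  have hIle : I.card ≤ p + 1 := by
    have := Finset.card_le_univ I
    simpa using this
  have e : Fin (p + 1 - I.card) ≃ {a // a ∉ I} :=
    (Fintype.equivFinOfCardEq hcard').symm
  have hMst := hEA.2.2
  -- first part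
  have b1 : dens (fun j => sd X (ltr (q := q) I j))
      (fun g => ¬ Gen H X p q η (insert v F') (Finset.univ.image f) g) ≤
      2 ^ (p + q + 2) * ρ + δ := by
    refine h12 V ({a // a ∉ I} ⊕ Fin (q + 1)) H X (Finset.univ.image f) (insert v F') p q B δ ρ η
      (ltr (q := q) I) hA hpos hρ hch ?_ ?_ ?_
    · rw [hcI, hcard]
    · have := Finset.card_insert_le v F'
      omega
    · intro A' hA'
      apply hMst.1.2
      rw [Finset.ssubset_iff_subset_ne]
      refine ⟨hA'.trans (Finset.subset_insert _ _), ?_⟩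
      intro h4
      apply hEA.2.1
      apply hA'
      rw [h4]
      exact Finset.mem_insert_self _ _
  -- second part
  have b2 : dens (fun j => sd X (ltr (q := q) I j))
      (fun g => insert v (Finset.univ.image f) ∪ Finset.univ.image
        (g ∘ Sum.map e (Fin.succ : Fin q → Fin (q + 1))) ∈ H) ≤ h := by
    have hi : Function.Injective (Sum.map e (Fin.succ : Fin q → Fin (q + 1))) :=
      Function.Injective.sumMap e.injective (Fin.succ_injective q)
    have h4 := h2 V _ _ (fun j => sd X (ltr (q := q) I j))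
      (Sum.map e (Fin.succ : Fin q → Fin (q + 1))) hd hi
      (fun g => insert v (Finset.univ.image f) ∪ Finset.univ.image g ∈ H)
    rw [h4]
    have h5 : (fun j => sd X (ltr (q := q) I j)) ∘ (Sum.map e (Fin.succ : Fin q → Fin (q + 1))) =
        lets X (p + 1 - I.card) q := by
      funext j
      rcases j with j | j <;> rfl
    rw [h5]
    have h6 : (insert v (Finset.univ.image f)).card = I.card + 1 := by
      rw [Finset.card_insert_of_notMem hEA.2.1, hcI]
    rcases hGA _ hMst.1 hMst.2.2 with h7 | h7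
    · have h8 := h7.2
      rw [h6] at h8
      have h9 : p + 2 - (I.card + 1) = p + 1 - I.card := by omega
      rw [h9] at h8
      exact h8
    · exact absurd hvX (Finset.mem_compl.1 (h7.1 (Finset.mem_insert_self _ _)))
  obtain ⟨h01, hmono, hor, hcompl, hposi, hsum⟩ :=
    h1 V ({a // a ∉ I} ⊕ Fin (q + 1)) (fun j => sd X (ltr (q := q) I j)) hd
  calc dens (fun j => sd X (ltr (q := q) I j))
        (fun g => ¬ Gd H X F' p q η v (Sum.elim f g ∘ (psi I).symm))
      ≤ dens (fun j => sd X (ltr (q := q) I j)) (fun g =>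
        (¬ Gen H X p q η (insert v F') (Finset.univ.image f) g) ∨
        insert v (Finset.univ.image f) ∪ Finset.univ.image
        (g ∘ Sum.map e (Fin.succ : Fin q → Fin (q + 1))) ∈ H) := by
        apply hmono
        intro g hg hbad
        by_contra hcon
        rw [not_or, not_not] at hcon
        exact hbad (good_of H X F' p q η v I f g hEA hcon.1 e hcon.2)
    _ ≤ _ := hor _ _
    _ ≤ 2 ^ (p + q + 2) * ρ + δ + h := add_le_add b1 b2

theorem ea_bound (h1 : StmtE01) (h11 : StmtE11)
    (H : Finset (Finset V)) (X F' : Finset V) (p q : ℕ) (ρ : ℝ) (η : ℕ → ℝ) (v : V)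
    (hpos : ∀ i, i ≤ p + q + 2 → 0 < η i) (hρ : 0 ≤ ρ)
    (hch : ∀ i i', i < i' → i' ≤ p + q + 2 → η i ≤ ρ * η i')
    (hX : X.Nonempty) (hX' : (Xᶜ).Nonempty) (hvN : ¬ Non H X p q η {v})
    (I : Finset (Fin (p + 1))) :
    dens (fun _ : {a // a ∈ I} => X) (fun z => EA H X F' p q η v z) ≤ ρ := by
  obtain ⟨h01, hmono, hor, hcompl, hposi, hsum⟩ := h1 V {a // a ∈ I} (fun _ => X) (fun _ => hX)
  have hIle : I.card ≤ p + 1 := by
    have := Finset.card_le_univ I
    simpa using this
  rcases Nat.eq_zero_or_pos I.card with h0 | h0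
  · have hI : I = ∅ := Finset.card_eq_zero.1 h0
    rw [dens_zero h1 _ (fun _ => hX)]
    · exact hρ
    · intro z hz hEA
      have h4 : Finset.univ.image z = ∅ := by
        rw [← Finset.card_eq_zero, Finset.card_image_of_injective _ hEA.1]
        simpa using h0
      have h5 := hEA.2.2.1.1
      rw [h4] at h5
      exact hvN h5
  · have h4 := h11 V {a // a ∈ I} H X {v} p q η (fun _ => true) hX hX'
      (by rw [Finset.card_singleton]; exact (hpos 1 (by omega)).le)
      (by rw [Finset.card_singleton, Fintype.card_coe]; exact hpos _ (by omega)) hvN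
    rw [Finset.card_singleton, Fintype.card_coe] at h4
    have h5 : dens (fun _ : {a // a ∈ I} => X) (fun z => EA H X F' p q η v z) ≤
        dens (fun i : {a // a ∈ I} => sd X ((fun _ => true) i)) (fun z =>
          ({v} ∪ Finset.univ.image z).card = 1 + I.card ∧
            Non H X p q η ({v} ∪ Finset.univ.image z)) := by
      refine hmono _ _ ?_
      intro z hz hEA
      have h6 : {v} ∪ Finset.univ.image z = insert v (Finset.univ.image z) := rfl
      rw [h6]
      refine ⟨?_, hEA.2.2.1.1⟩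
      rw [Finset.card_insert_of_notMem hEA.2.1, Finset.card_image_of_injective _ hEA.1]
      simp
      omega
    refine h5.trans (h4.trans ?_)
    have h6 := hpos (1 + I.card) (by omega)
    rw [div_le_iff₀ h6]
    exact hch 1 (1 + I.card) (by omega) (by omega)

theorem up_iff (H : Finset (Finset V)) (X F' : Finset V) (p q : ℕ) (η : ℕ → ℝ) (v : V)
    (f : Fin (p + 1) ⊕ Fin (q + 1) → V) (hU : Up H X F' p q η v (Finset.univ.image (f ∘ Sum.inl))) :
    ∃ I : Finset (Fin (p + 1)), EA H X F' p q η v (f ∘ fun i : {a // a ∈ I} => Sum.inl i.1) := by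
  classical
  obtain ⟨A, hAS, hvA, hM⟩ := hU
  choose! r hr using fun (u : V) (hu : u ∈ A) => Finset.mem_image.1 (hAS hu)
  refine ⟨A.image r, ?_⟩
  have h2 : Finset.univ.image (f ∘ fun i : {a // a ∈ A.image r} => Sum.inl i.1) = A := by
    ext u
    simp only [Finset.mem_image, Finset.mem_univ, true_and, Function.comp_apply]
    constructor
    · rintro ⟨⟨i, hi⟩, rfl⟩
      obtain ⟨w, hw, rfl⟩ := Finset.mem_image.1 hi
      have h3 := (hr w hw).2
      rw [Function.comp_apply] at h3
      rw [h3]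
      exact hw
    · intro hu
      exact ⟨⟨r u, Finset.mem_image.2 ⟨u, hu, rfl⟩⟩, (hr u hu).2⟩
  refine ⟨?_, ?_, ?_⟩
  · rintro ⟨i, hi⟩ ⟨j, hj⟩ hij
    obtain ⟨w, hw, rfl⟩ := Finset.mem_image.1 hi
    obtain ⟨w', hw', rfl⟩ := Finset.mem_image.1 hj
    have h3 := (hr w hw).2
    have h4 := (hr w' hw').2
    have h5 : w = w' := by
      rw [← h3, ← h4]
      exact hij
    apply Subtype.ext
    exact congrArg r h5
  · rw [h2]
    exact hvA
  · rw [h2]
    exact hM

theorem up_of (H : Finset (Finset V)) (X F' : Finset V) (p q : ℕ) (η : ℕ → ℝ) (v : V)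
    (f : Fin (p + 1) ⊕ Fin (q + 1) → V) (I : Finset (Fin (p + 1)))
    (hI : EA H X F' p q η v (f ∘ fun i : {a // a ∈ I} => Sum.inl i.1)) :
    Up H X F' p q η v (Finset.univ.image (f ∘ Sum.inl)) := by
  refine ⟨_, ?_, hI.2.1, hI.2.2⟩
  intro u hu
  obtain ⟨i, _, hi⟩ := Finset.mem_image.1 hu
  exact Finset.mem_image.2 ⟨i.1, Finset.mem_univ _, hi⟩

theorem chain (k B : ℕ) (hk : 1 ≤ k) (η : ℕ → ℝ)
    (hpos : ∀ i, i ≤ k → 0 < η i)
    (step : ∀ i, i < k → 8 * (k : ℝ) * 4 ^ k * ((B : ℝ) + 1) * η i ≤ η (i + 1)) :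
    ∀ i i', i < i' → i' ≤ k → η i ≤ 1 / (8 * (k : ℝ) * 4 ^ k) * η i' := by
  have hk' : (1 : ℝ) ≤ (k : ℝ) := by exact_mod_cast hk
  have h4 : (1 : ℝ) ≤ 4 ^ k := one_le_pow₀ (by norm_num)
  have hK : (1 : ℝ) ≤ 8 * (k : ℝ) * 4 ^ k := by nlinarith
  have hK0 : (0 : ℝ) < 8 * (k : ℝ) * 4 ^ k := by linarith
  have hst : ∀ i, i < k → η i ≤ 1 / (8 * (k : ℝ) * 4 ^ k) * η (i + 1) := by
    intro i hi
    have h5 := step i hi
    have h6 := hpos i hi.le
    have h7 : 8 * (k : ℝ) * 4 ^ k * η i ≤ 8 * (k : ℝ) * 4 ^ k * ((B : ℝ) + 1) * η i := by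
      have hB : (0 : ℝ) ≤ (B : ℝ) := Nat.cast_nonneg B
      have h8 : 0 ≤ 8 * (k : ℝ) * 4 ^ k * η i * (B : ℝ) := by positivity
      nlinarith
    rw [one_div, inv_mul_eq_div, le_div_iff₀ hK0]
    linarith
  intro i i' hii'
  induction i', hii' using Nat.le_induction with
  | base =>
    intro h
    exact hst i (by omega)
  | succ m hm ih =>
    intro h
    have h5 := ih (by omega)
    have h6 := hst m (by omega)
    have h7 := hpos (m + 1) h
    have h8 : 1 / (8 * (k : ℝ) * 4 ^ k) ≤ 1 := by
      rw [div_le_one hK0]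
      exact hK
    have h9 : η m ≤ η (m + 1) := by
      refine h6.trans ?_
      nlinarith
    refine h5.trans ?_
    apply mul_le_mul_of_nonneg_left h9
    positivity

/-- The arithmetic at the end. -/
theorem arith (p k : ℕ) (hk : p + 1 < k) (τ ρ δ h Q : ℝ) (hQ : 0 ≤ Q)
    (hρ : ρ = 1 / (8 * (k : ℝ) * 4 ^ k)) (hh : h ≤ 1 / (8 * (k : ℝ) * 2 ^ k))
    (hδ : δ ≤ 1 / (8 * (k : ℝ) * 2 ^ k)) (hτ : τ = 2 ^ k * ρ + δ + h) :
    2 ^ (p + 1) * (τ * Q) ≤ Q / (2 * ((p : ℝ) + 1)) ∧ 2 ^ (p + 1) * ρ ≤ 1 / 2 := by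
  have hk0 : (0 : ℝ) < (k : ℝ) := by
    have : 0 < k := by omega
    exact_mod_cast this
  have hk1 : (1 : ℝ) ≤ (k : ℝ) := by
    have : 1 ≤ k := by omega
    exact_mod_cast this
  have hpk : (p : ℝ) + 1 ≤ (k : ℝ) := by
    have : p + 1 ≤ k := by omega
    exact_mod_cast this
  have h2 : (1 : ℝ) ≤ 2 ^ k := one_le_pow₀ (by norm_num)
  have h2' : (2 : ℝ) ^ (p + 1) ≤ 2 ^ k := pow_le_pow_right₀ (by norm_num) hk.le
  have h4 : (4 : ℝ) ^ k = 2 ^ k * 2 ^ k := by
    rw [← mul_pow]
    norm_num
  have hρ2 : 2 ^ k * ρ = 1 / (8 * (k : ℝ) * 2 ^ k) := by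
    rw [hρ, h4]
    field_simp
  have hρ0 : 0 ≤ ρ := by
    rw [hρ]
    positivity
  have hτ3 : τ ≤ 3 / (8 * (k : ℝ) * 2 ^ k) := by
    rw [hτ, hρ2]
    have : (3 : ℝ) / (8 * (k : ℝ) * 2 ^ k) = 1 / (8 * (k : ℝ) * 2 ^ k) + 1 / (8 * (k : ℝ) * 2 ^ k)
      + 1 / (8 * (k : ℝ) * 2 ^ k) := by ring
    rw [this]
    linarith
  constructor
  · have h5 : 2 ^ (p + 1) * (τ * Q) ≤ 2 ^ (p + 1) * (3 / (8 * (k : ℝ) * 2 ^ k) * Q) := by
      gcongr
    have h6 : 2 ^ (p + 1) * (3 / (8 * (k : ℝ) * 2 ^ k) * Q) ≤
        2 ^ k * (3 / (8 * (k : ℝ) * 2 ^ k) * Q) := by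
      gcongr
    have h7 : 2 ^ k * (3 / (8 * (k : ℝ) * 2 ^ k) * Q) = 3 / 8 * (Q / (k : ℝ)) := by
      field_simp
    have h8 : Q / (k : ℝ) ≤ Q / ((p : ℝ) + 1) := by
      gcongr
    have h9 : Q / (2 * ((p : ℝ) + 1)) = 1 / 2 * (Q / ((p : ℝ) + 1)) := by
      field_simp
    have h10 : 0 ≤ Q / ((p : ℝ) + 1) := by positivity
    rw [h9]
    linarith
  · have h5 : 2 ^ (p + 1) * ρ ≤ 2 ^ k * ρ := by
      gcongr
    have h6 : (1 : ℝ) / (8 * (k : ℝ) * 2 ^ k) ≤ 1 / 2 := by
      rw [div_le_div_iff₀ (by positivity) (by norm_num)]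
      nlinarith
    linarith

theorem e_vtx (h1 : StmtE01) (h2 : StmtE02) (h3 : StmtE03) (_h5 : StmtE05) (h9 : StmtE09)
    (h11 : StmtE11) (h12 : StmtE12) : StmtE13 := by
  intro V _ _ H X F' p q B δ h η θ v hA hC hGA hF _hN0 hvX hvF hvN
  have hpos := hC.pos
  have hk : 1 ≤ p + q + 2 := by omega
  have hX : X.Nonempty := ⟨v, hvX⟩
  have hX' : (Xᶜ).Nonempty := by
    rw [← Finset.card_pos]
    have h4 := hA.lo'
    have h5 := hA.big
    have h6 := hA.small
    have h7 := hA.pos
    have h8 : (1 : ℝ) ≤ ((p + q + 2 : ℕ) : ℝ) := by exact_mod_cast hk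
    have h8' : (1 : ℝ) ≤ ((B + p + q + 2 : ℕ) : ℝ) := by
      have : 1 ≤ B + p + q + 2 := by omega
      exact_mod_cast this
    have h10 : (0 : ℝ) < δ * (Fintype.card V : ℝ) := by
      refine lt_of_lt_of_le ?_ h5
      positivity
    have h11 : (0 : ℝ) < (Fintype.card V : ℝ) := by
      by_contra hcon
      have : (Fintype.card V : ℝ) = 0 := le_antisymm (not_lt.1 hcon) (Nat.cast_nonneg _)
      rw [this, mul_zero] at h10
      exact lt_irrefl _ h10
    have h13 : (0 : ℝ) < ((Xᶜ).card : ℝ) := by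
      refine lt_of_lt_of_le ?_ h4
      have : 0 < 1 - δ := by linarith
      positivity
    exact_mod_cast h13
  have hch := chain (p + q + 2) B hk η hpos hC.step
  have hρ0 : (0 : ℝ) ≤ 1 / (8 * ((p + q + 2 : ℕ) : ℝ) * 4 ^ (p + q + 2)) := by positivity
  have hη : η (p + q + 2) ≤ 1 / 2 := hC.half _ le_rfl
  have hne := lets_nonempty X hX hX' (p + 1) (q + 1)
  obtain ⟨h01, hmono, hor, hcompl, hposi, hsum⟩ :=
    h1 V (Fin (p + 1) ⊕ Fin (q + 1)) (lets X (p + 1) (q + 1)) hne
  set ρ : ℝ := 1 / (8 * ((p + q + 2 : ℕ) : ℝ) * 4 ^ (p + q + 2)) with hρdef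
  set Q1 : ℝ := dens (fun _ : Fin (p + 1) => X) (fun f => Up H X F' p q η v (Finset.univ.image f))
    with hQ1
  set Q0 : ℝ := dens (fun _ : Fin p => X) (fun f => Up H X F' p q η v (Finset.univ.image f))
    with hQ0
  set c := lets X (p + 1) (q + 1) with hc
  have hcard2 : (Finset.univ : Finset (Finset (Fin (p + 1)))).card = 2 ^ (p + 1) := by
    rw [Finset.card_univ, Fintype.card_finset, Fintype.card_fin]
  -- density of U
  have u1 : dens c (fun f => Up H X F' p q η v (Finset.univ.image (f ∘ Sum.inl))) = Q1 :=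
    h2 V _ _ c Sum.inl hne Sum.inl_injective (fun f => Up H X F' p q η v (Finset.univ.image f))
  have u0 : dens c (fun f => Up H X F' p q η v
      (Finset.univ.image (f ∘ fun i : Fin p => Sum.inl i.succ))) = Q0 :=
    h2 V _ _ c (fun i : Fin p => Sum.inl i.succ) hne
      (fun a b hab => Fin.succ_injective _ (Sum.inl.inj hab))
      (fun f => Up H X F' p q η v (Finset.univ.image f))
  have uI : ∀ I : Finset (Fin (p + 1)), dens c (fun f =>
      EA H X F' p q η v (f ∘ fun i : {a // a ∈ I} => Sum.inl i.1)) ≤ Q1 := by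
    intro I
    rw [← u1]
    apply hmono
    intro f hf hI
    exact up_of H X F' p q η v f I hI
  have uI' : ∀ I : Finset (Fin (p + 1)), dens c (fun f =>
      EA H X F' p q η v (f ∘ fun i : {a // a ∈ I} => Sum.inl i.1)) ≤ ρ := by
    intro I
    have hi : Function.Injective (fun i : {a // a ∈ I} => (Sum.inl i.1 : Fin (p + 1) ⊕ Fin (q + 1))) :=
      fun a b hab => Subtype.ext (Sum.inl.inj hab)
    rw [h2 V _ _ c (fun i : {a // a ∈ I} => (Sum.inl i.1 : Fin (p + 1) ⊕ Fin (q + 1))) hne hi
      (fun z => EA H X F' p q η v z)]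
    exact ea_bound h1 h11 H X F' p q ρ η v hpos hρ0 hch hX hX' hvN I
  have hQ1n : 0 ≤ Q1 := by
    rw [← u1]
    exact (h01 _).1
  have hQ1s : Q1 ≤ 2 ^ (p + 1) * ρ := by
    calc Q1 ≤ dens c (fun f => ∃ I : Finset (Fin (p + 1)),
          EA H X F' p q η v (f ∘ fun i : {a // a ∈ I} => Sum.inl i.1)) := by
          rw [← u1]
          apply hmono
          intro f hf hU
          exact up_iff H X F' p q η v f hU
      _ ≤ ∑ I : Finset (Fin (p + 1)), dens c (fun f =>
          EA H X F' p q η v (f ∘ fun i : {a // a ∈ I} => Sum.inl i.1)) :=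
          hsum (Finset (Fin (p + 1))) (fun I f =>
            EA H X F' p q η v (f ∘ fun i : {a // a ∈ I} => Sum.inl i.1))
      _ ≤ ∑ I : Finset (Fin (p + 1)), ρ := Finset.sum_le_sum fun I _ => uI' I
      _ = 2 ^ (p + 1) * ρ := by
          rw [Finset.sum_const, hcard2, nsmul_eq_mul]
          push_cast
          ring
  set τ : ℝ := 2 ^ (p + q + 2) * ρ + δ + h with hτdef
  have hτ0 : 0 ≤ τ := by
    have h4 := hC.hpos
    have h5 := hC.dpos
    positivity
  have hbad : dens c (fun f => Up H X F' p q η v (Finset.univ.image (f ∘ Sum.inl)) ∧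
      ¬ Gd H X F' p q η v f) ≤ 2 ^ (p + 1) * (τ * Q1) := by
    calc dens c (fun f => Up H X F' p q η v (Finset.univ.image (f ∘ Sum.inl)) ∧
          ¬ Gd H X F' p q η v f)
        ≤ dens c (fun f => ∃ I : Finset (Fin (p + 1)),
          EA H X F' p q η v (f ∘ fun i : {a // a ∈ I} => Sum.inl i.1) ∧
          ¬ Gd H X F' p q η v f) := by
          apply hmono
          rintro f hf ⟨hU, hb⟩
          obtain ⟨I, hI⟩ := up_iff H X F' p q η v f hU
          exact ⟨I, hI, hb⟩
      _ ≤ ∑ I : Finset (Fin (p + 1)), dens c (fun f =>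
          EA H X F' p q η v (f ∘ fun i : {a // a ∈ I} => Sum.inl i.1) ∧
          ¬ Gd H X F' p q η v f) :=
          hsum (Finset (Fin (p + 1))) (fun I f =>
            EA H X F' p q η v (f ∘ fun i : {a // a ∈ I} => Sum.inl i.1) ∧
            ¬ Gd H X F' p q η v f)
      _ ≤ ∑ I : Finset (Fin (p + 1)), τ * Q1 := by
          apply Finset.sum_le_sum
          intro I _
          refine (bad_bound h1 h2 h3 h12 H X F' p q B δ h ρ η v hA hpos hρ0 hch hGA hF
            hC.hpos.le hX hX' hvX I).trans ?_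
          exact mul_le_mul_of_nonneg_left (uI I) hτ0
      _ = 2 ^ (p + 1) * (τ * Q1) := by
          rw [Finset.sum_const, hcard2, nsmul_eq_mul]
          push_cast
          ring
  have hδ : δ ≤ 1 / (8 * ((p + q + 2 : ℕ) : ℝ) * 2 ^ (p + q + 2)) := by
    have h4 := hC.dsmall
    have h5 := hC.hsmall
    have h6 : η 0 ≤ 1 / 2 := hC.half 0 (by omega)
    have h7 := hC.hpos
    have h8 : η 0 * h ≤ h := by
      have := hpos 0 (by omega)
      nlinarith
    have h10 : (1 : ℝ) ≤ ((p + q + 2 : ℕ) : ℝ) := by exact_mod_cast hk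
    have h11 : (1 : ℝ) ≤ 4 ^ (p + q + 2) := one_le_pow₀ (by norm_num)
    have h13 : (1 : ℝ) ≤ (B : ℝ) + 1 := by
      have : (0 : ℝ) ≤ (B : ℝ) := Nat.cast_nonneg B
      linarith
    have h14 := hC.dpos
    have h15 : (1 : ℝ) ≤ 100 * ((p + q + 2 : ℕ) : ℝ) * 4 ^ (p + q + 2) * ((B : ℝ) + 1) := by
      have h16 : (1 : ℝ) ≤ 100 * ((p + q + 2 : ℕ) : ℝ) * 4 ^ (p + q + 2) := by nlinarith
      nlinarith
    have h16 : δ ≤ 100 * ((p + q + 2 : ℕ) : ℝ) * 4 ^ (p + q + 2) * ((B : ℝ) + 1) * δ := by
      nlinarith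
    linarith
  obtain ⟨ar1, ar2⟩ := arith p (p + q + 2) (by omega) τ ρ δ h Q1 hQ1n hρdef hC.hsmall hδ hτdef
  -- the growth inequality
  have hgr := h9 V X (Up H X F' p q η v) p hX (fun S S' h5 h6 => up_mono H X F' p q η v S S' h5 h6)
  rw [← hQ1, ← hQ0] at hgr
  have hgr2 : Q1 / (2 * ((p : ℝ) + 1)) ≤ Q1 - Q0 := by
    have h4 : Q1 * (1 / 2) ≤ Q1 * (1 - Q1) := by
      apply mul_le_mul_of_nonneg_left _ hQ1n
      linarith
    rw [div_le_iff₀ (by positivity)]
    nlinarith
  -- left side
  have hL : dens c (fun f => Gen H X p q η F' ∅ f ∧ v ∉ Finset.univ.image f ∧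
      insert v (Ry f) ∈ H) ≤ Q0 := by
    rw [← u0]
    apply hmono
    rintro f hf ⟨hg, hv, he⟩
    exact part1 h1 H X F' hX hX' p q η h hη hGA v hvX hvF f hf hg hv he
  have hR : Q1 ≤ dens c (fun f => Up H X F' p q η v (Finset.univ.image (f ∘ Sum.inl)) ∧
      ¬ Gd H X F' p q η v f) + dens c (fun f => Gd H X F' p q η v f) := by
    rw [← u1]
    refine le_trans ?_ (hor _ _)
    apply hmono
    intro f hf hU
    by_cases hg : Gd H X F' p q η v f
    · exact Or.inr hg
    · exact Or.inl ⟨hU, hg⟩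
  have hR' : dens c (fun f => Gd H X F' p q η v f) = dens c (fun f => Gen H X p q η F' ∅ f ∧
      v ∉ Finset.univ.image f ∧ insert v (Rx f) ∉ H) := rfl
  rw [← hR']
  linarith

end Pool.Agent.KK.E.H17
end

/-! ### Helper37_KK.E_CST -/
section
/-!
# Squad KK, row E_CST (StmtE23)
-/

set_option autoImplicit false

namespace Pool.Agent.KK.E.H37

theorem e_cst : StmtE23 := by
  intro k B hk
  have hk0 : (0 : ℝ) < k := by
    have : 0 < k := by omega
    exact_mod_cast this
  have hB : (0 : ℝ) < (B : ℝ) + 1 := by positivity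
  have hA : (0 : ℝ) < 8 * (k : ℝ) * 4 ^ k * ((B : ℝ) + 1) := by positivity
  have hA1 : (1 : ℝ) ≤ 8 * (k : ℝ) * 4 ^ k * ((B : ℝ) + 1) := by
    have h1 : (1 : ℝ) ≤ k := by
      have : 1 ≤ k := by omega
      exact_mod_cast this
    have h2 : (1 : ℝ) ≤ 4 ^ k := one_le_pow₀ (by norm_num)
    have h3 : (1 : ℝ) ≤ (B : ℝ) + 1 := by
      have : (0 : ℝ) ≤ B := Nat.cast_nonneg B
      linarith
    have h4 : (1 : ℝ) ≤ 8 * (k : ℝ) := by linarith
    have h5 : (1 : ℝ) ≤ 8 * (k : ℝ) * 4 ^ k := one_le_mul_of_one_le_of_one_le h4 h2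
    exact one_le_mul_of_one_le_of_one_le h5 h3
  obtain ⟨h, hh⟩ : ∃ h : ℝ, h = 1 / (8 * (k : ℝ) * 2 ^ k) := ⟨_, rfl⟩
  have hh0 : 0 < h := by rw [hh]; positivity
  obtain ⟨G, hG⟩ : ∃ G : ℝ → ℝ, ∀ x, G x = min (x / (8 * (k : ℝ) * 4 ^ k * ((B : ℝ) + 1)))
      (((x * h / (16 * (k : ℝ))) ^ 3) ^ (2 ^ k) / (16 * (k : ℝ))) := ⟨_, fun x => rfl⟩
  obtain ⟨e, he0, hes⟩ : ∃ e : ℕ → ℝ, e 0 = 1 / 2 ∧ ∀ i, e (i + 1) = G (e i) :=
    ⟨fun n => Nat.rec (1 / 2) (fun _ x => G x) n, rfl, fun i => rfl⟩
  have hG0 : ∀ x, 0 < x → 0 < G x := by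
    intro x hx
    rw [hG]
    exact lt_min (by positivity) (by positivity)
  have hG1 : ∀ x, 0 < x → 8 * (k : ℝ) * 4 ^ k * ((B : ℝ) + 1) * G x ≤ x := by
    intro x hx
    have h1 : G x ≤ x / (8 * (k : ℝ) * 4 ^ k * ((B : ℝ) + 1)) := by
      rw [hG]
      exact min_le_left _ _
    rw [le_div_iff₀ hA] at h1
    linarith
  have hG2 : ∀ x, 16 * (k : ℝ) * G x ≤ ((x * h / (16 * (k : ℝ))) ^ 3) ^ (2 ^ k) := by
    intro x
    have h1 : G x ≤ ((x * h / (16 * (k : ℝ))) ^ 3) ^ (2 ^ k) / (16 * (k : ℝ)) := by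
      rw [hG]
      exact min_le_right _ _
    rw [le_div_iff₀ (by positivity)] at h1
    linarith
  have hep : ∀ i, 0 < e i := by
    intro i
    induction i with
    | zero => rw [he0]; norm_num
    | succ i ih => rw [hes]; exact hG0 _ ih
  have hGx : ∀ x, 0 < x → G x ≤ x := by
    intro x hx
    have h1 := hG1 x hx
    have h2 := hG0 x hx
    nlinarith
  have heh : ∀ i, e i ≤ 1 / 2 := by
    intro i
    induction i with
    | zero => rw [he0]
    | succ i ih => rw [hes]; exact (hGx _ (hep i)).trans ih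
  have hC : (0 : ℝ) < 100 * (k : ℝ) * 4 ^ k * ((B : ℝ) + 1) := by positivity
  have hek := hep k
  refine ⟨fun m => e (k - m), fun i => (e (k - i) * h / (16 * (k : ℝ))) ^ 3, h,
    e k * h / (100 * (k : ℝ) * 4 ^ k * ((B : ℝ) + 1)), by positivity, ?_, ?_⟩
  · rw [div_le_iff₀ hC]
    have h1 : h ≤ 1 := by
      rw [hh, div_le_one (by positivity)]
      have h2 : (1 : ℝ) ≤ 2 ^ k := one_le_pow₀ (by norm_num)
      have h3 : (1 : ℝ) ≤ 8 * (k : ℝ) := by
        have : (1 : ℝ) ≤ k := by
          have : 1 ≤ k := by omega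
          exact_mod_cast this
        linarith
      exact one_le_mul_of_one_le_of_one_le h3 h2
    have h2 := heh k
    have h3 : e k * h ≤ 1 / 2 * 1 := mul_le_mul h2 h1 hh0.le (by norm_num)
    nlinarith
  · intro δ hδ hδ0
    refine ⟨?_, ?_, hh0, ?_, ?_, ?_, ?_, ?_, hδ, ?_⟩
    · intro i _
      exact hep _
    · intro i _
      exact heh _
    · rw [hh]
    · intro i hi
      have e1 : k - i = (k - (i + 1)) + 1 := by omega
      change 8 * (k : ℝ) * 4 ^ k * ((B : ℝ) + 1) * e (k - i) ≤ e (k - (i + 1))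
      rw [e1, hes]
      exact hG1 _ (hep _)
    · intro i _ _
      have := hep (k - i)
      positivity
    · intro i _ _
      exact le_rfl
    · intro i hi hik
      have e1 : k - (i - 1) = (k - i) + 1 := by omega
      change 16 * (k : ℝ) * e (k - (i - 1)) ≤ ((e (k - i) * h / (16 * (k : ℝ))) ^ 3) ^ (2 ^ k)
      rw [e1, hes]
      exact hG2 _
    · rw [le_div_iff₀ hC] at hδ0
      rw [Nat.sub_zero]
      linarith

end Pool.Agent.KK.E.H37
end

/-! ### Helper81_KK.FIB -/
section
/-!
# Squad KK, row FIB: a first filling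
-/

set_option autoImplicit false

namespace Pool.Agent.KK.H81

variable {V : Type} [Fintype V] [DecidableEq V]

/-- number of occurrences -/
def ct {α : Type} [DecidableEq α] (L : List α) (s : α) : ℕ := L.countP fun a => decide (a = s)

theorem ct_nil {α : Type} [DecidableEq α] (s : α) : ct ([] : List α) s = 0 := rfl

theorem ct_cons {α : Type} [DecidableEq α] (a : α) (L : List α) (s : α) :
    ct (a :: L) s = ct L s + if a = s then 1 else 0 := by
  unfold ct
  rw [List.countP_cons]
  simp

omit [Fintype V] [DecidableEq V] in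
theorem fx_inl (w : V) (L : List (Slot V)) : fx (Sum.inl w :: L) = w :: fx L := rfl

omit [Fintype V] [DecidableEq V] in
theorem fx_inr (b : Bool) (L : List (Slot V)) : fx (Sum.inr b :: L) = fx L := rfl

omit [Fintype V] in
theorem count_fx (L : List (Slot V)) (v : V) : ct (fx L) v = ct L (Sum.inl v) := by
  induction L with
  | nil => rfl
  | cons a L ih =>
    rcases a with w | b
    · rw [fx_inl, ct_cons, ct_cons, ih]
      simp
    · rw [fx_inr, ct_cons, ih]
      simp

omit [Fintype V] in
theorem cX_eq (X : Finset V) (L : List (Slot V)) :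
    cX X L = (fx L).countP (fun v => decide (v ∈ X)) + ct L (Sum.inr true) := by
  induction L with
  | nil => rfl
  | cons a L ih =>
    rcases a with w | b
    · have e : cX X (Sum.inl w :: L) = cX X L + if decide (w ∈ X) = true then 1 else 0 :=
        List.countP_cons
      rw [e, fx_inl, List.countP_cons, ct_cons, ih]
      simp
      omega
    · have e : cX X (Sum.inr b :: L) = cX X L + if b = true then 1 else 0 :=
        List.countP_cons
      rw [e, fx_inr, ct_cons, ih]
      simp
      omega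

omit [Fintype V] in
theorem length_eq (L : List (Slot V)) :
    L.length = (fx L).length + ct L (Sum.inr true) + ct L (Sum.inr false) := by
  induction L with
  | nil => rfl
  | cons a L ih =>
    rcases a with w | b
    · rw [fx_inl, List.length_cons, List.length_cons, ct_cons, ct_cons, ih]
      simp
      omega
    · rw [fx_inr, List.length_cons, ct_cons, ct_cons, ih]
      cases b <;> simp <;> omega

theorem card_get {α : Type} [DecidableEq α] (L : List α) (s : α) :
    (Finset.univ.filter fun i : Fin L.length => L.get i = s).card = ct L s := by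
  have h1 : (Finset.univ : Finset (Fin L.length)).val.map L.get = (L : Multiset α) := by
    rw [Fin.univ_val_map, List.ofFn_get]
  have h2 := congrArg (Multiset.countP (fun a => a = s)) h1
  rw [Multiset.coe_countP, Multiset.countP_map] at h2
  unfold ct
  rw [← h2]
  rfl

theorem ct_nodup {α : Type} [DecidableEq α] {L : List α} (hL : L.Nodup) (s : α) :
    ct L s = if s ∈ L then 1 else 0 := by
  have h := hL.count (a := s)
  rw [← h]
  unfold ct List.count
  congr 1

/-- the colour of a vertex -/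
def col (X : Finset V) (L : List (Slot V)) (v : V) : Slot V :=
  if v ∈ fx L then Sum.inl v else Sum.inr (decide (v ∈ X))

omit [Fintype V] in
theorem col_mem (X : Finset V) {L : List (Slot V)} {v : V} (h : v ∈ fx L) :
    col X L v = Sum.inl v := if_pos h

omit [Fintype V] in
theorem col_not (X : Finset V) {L : List (Slot V)} {v : V} (h : v ∉ fx L) :
    col X L v = Sum.inr (decide (v ∈ X)) := if_neg h

theorem card_col (X : Finset V) (L : List (Slot V)) (hL : L.length = Fintype.card V)
    (hn : (fx L).Nodup) (hX : cX X L = X.card) (s : Slot V) :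
    (Finset.univ.filter fun v : V => col X L v = s).card = ct L s := by
  set F : Finset V := (fx L).toFinset with hF
  have hmem : ∀ v, v ∈ fx L ↔ v ∈ F := fun v => by rw [hF, List.mem_toFinset]
  have hFc : F.card = (fx L).length := List.toFinset_card_of_nodup hn
  have hFX : (F.filter fun v => v ∈ X).card = (fx L).countP (fun v => decide (v ∈ X)) := by
    rw [List.countP_eq_length_filter, ← List.toFinset_card_of_nodup (hn.filter _)]
    congr 1
    ext v
    simp [hF]
  have h1 : (Finset.univ.filter fun v : V => v ∉ F ∧ v ∈ X).card + (F.filter fun v => v ∈ X).card =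
      X.card := by
    rw [← Finset.card_union_of_disjoint]
    · congr 1
      ext v
      simp only [Finset.mem_union, Finset.mem_filter, Finset.mem_univ, true_and]
      tauto
    · rw [Finset.disjoint_left]
      intro v hv hv'
      exact (Finset.mem_filter.1 hv).2.1 (Finset.mem_filter.1 hv').1
  have h2 : (Finset.univ.filter fun v : V => v ∉ F ∧ v ∈ X).card +
      (Finset.univ.filter fun v : V => v ∉ F ∧ v ∉ X).card + F.card = Fintype.card V := by
    rw [← Finset.card_union_of_disjoint, ← Finset.card_union_of_disjoint, ← Finset.card_univ]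
    · congr 1
      ext v
      simp only [Finset.mem_union, Finset.mem_filter, Finset.mem_univ, true_and, iff_true]
      tauto
    · rw [Finset.disjoint_left]
      intro v hv hv'
      rcases Finset.mem_union.1 hv with h | h
      · exact (Finset.mem_filter.1 h).2.1 hv'
      · exact (Finset.mem_filter.1 h).2.1 hv'
    · rw [Finset.disjoint_left]
      intro v hv hv'
      exact (Finset.mem_filter.1 hv').2.2 (Finset.mem_filter.1 hv).2.2
  have h3 := cX_eq X L
  have h4 := length_eq L
  rcases s with w | b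
  · rw [← count_fx, ct_nodup hn]
    by_cases hw : w ∈ fx L
    · rw [if_pos hw]
      have : (Finset.univ.filter fun v : V => col X L v = Sum.inl w) = {w} := by
        ext v
        rw [Finset.mem_filter, Finset.mem_singleton]
        constructor
        · rintro ⟨_, h⟩
          by_cases h5 : v ∈ fx L
          · rw [col_mem X h5] at h
            exact Sum.inl.inj h
          · rw [col_not X h5] at h
            simp at h
        · rintro rfl
          exact ⟨Finset.mem_univ _, col_mem X hw⟩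
      rw [this, Finset.card_singleton]
    · rw [if_neg hw, Finset.card_eq_zero, Finset.filter_eq_empty_iff]
      intro v _ h
      by_cases h5 : v ∈ fx L
      · rw [col_mem X h5] at h
        exact hw ((Sum.inl.inj h) ▸ h5)
      · rw [col_not X h5] at h
        simp at h
  · have key : (Finset.univ.filter fun v : V => col X L v = Sum.inr b) =
        Finset.univ.filter fun v : V => v ∉ F ∧ decide (v ∈ X) = b := by
      ext v
      rw [Finset.mem_filter, Finset.mem_filter, ← hmem]
      refine and_congr_right fun _ => ?_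
      by_cases h5 : v ∈ fx L
      · rw [col_mem X h5]
        simp [h5]
      · rw [col_not X h5]
        simp [h5]
    rw [key]
    cases b
    · have : (Finset.univ.filter fun v : V => v ∉ F ∧ decide (v ∈ X) = false) =
          Finset.univ.filter fun v : V => v ∉ F ∧ v ∉ X := by
        ext v
        simp
      rw [this]
      omega
    · have : (Finset.univ.filter fun v : V => v ∉ F ∧ decide (v ∈ X) = true) =
          Finset.univ.filter fun v : V => v ∉ F ∧ v ∈ X := by
        ext v
        simp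
      rw [this]
      omega

theorem fib : FibStmt := by
  intro V _ _ X L hL hn hX
  have hc : ∀ s : Slot V, Nonempty ({i : Fin L.length // L.get i = s} ≃
      {v : V // col X L v = s}) := by
    intro s
    refine Fintype.card_eq.1 ?_
    rw [Fintype.card_subtype, Fintype.card_subtype, card_get, card_col X L hL hn hX]
  refine ⟨Equiv.ofFiberEquiv (fun s => (hc s).some), fun i => ?_⟩
  exact Equiv.ofFiberEquiv_map (fun s => (hc s).some) i

end Pool.Agent.KK.H81
end

/-! ### Helper76_KK.RCH -/
section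
/-!
# Squad KK, row RCH: a chain of right moves
-/

set_option autoImplicit false

namespace Pool.Agent.KK.H76

theorem dvd_self_iff {k i c : ℕ} (hi : i < k) (hc : c < k) :
    (k : ℤ) ∣ (i : ℤ) - c ↔ i = c := by
  constructor
  · rintro ⟨m, hm⟩
    have h1 : m = 0 := by
      by_contra hne
      have h2 : (1 : ℤ) ≤ |m| := Int.one_le_abs hne
      have h3 : (k : ℤ) ≤ |(k : ℤ) * m| := by
        rw [abs_mul, Nat.abs_cast]
        nlinarith
      rw [← hm] at h3
      have h4 : |(i : ℤ) - c| < k := by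
        rw [abs_lt]
        constructor <;> omega
      omega
    rw [h1, mul_zero] at hm
    omega
  · rintro rfl
    rw [sub_self]
    exact dvd_zero _

theorem dvd_succ_iff {k i c : ℕ} (hi : i < k) (hc : c < k) :
    (k : ℤ) ∣ (i : ℤ) + 1 - c ↔ i = (c + k - 1) % k := by
  rcases Nat.eq_zero_or_pos c with rfl | hc0
  · have h1 : (0 + k - 1) % k = k - 1 := by
      rw [Nat.zero_add]
      exact Nat.mod_eq_of_lt (by omega)
    rw [h1]
    constructor
    · intro h
      have h2 : (k : ℤ) ∣ ((i + 1 : ℕ) : ℤ) := by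
        have : (i : ℤ) + 1 - (0 : ℕ) = ((i + 1 : ℕ) : ℤ) := by push_cast; ring
        rwa [this] at h
      have h3 : k ∣ i + 1 := by exact_mod_cast h2
      have h4 := Nat.le_of_dvd (by omega) h3
      omega
    · intro h
      have : (i : ℤ) + 1 - (0 : ℕ) = k := by push_cast; omega
      rw [this]
  · have h1 : (c + k - 1) % k = c - 1 := by
      have : c + k - 1 = (c - 1) + k := by omega
      rw [this, Nat.add_mod_right]
      exact Nat.mod_eq_of_lt (by omega)
    rw [h1]
    constructor
    · intro h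
      have h2 : (k : ℤ) ∣ (i : ℤ) - ((c - 1 : ℕ) : ℤ) := by
        have : (i : ℤ) - ((c - 1 : ℕ) : ℤ) = (i : ℤ) + 1 - c := by omega
        rw [this]
        exact h
      exact (dvd_self_iff hi (by omega)).1 h2
    · intro h
      have : (i : ℤ) + 1 - c = 0 := by omega
      rw [this]
      exact dvd_zero _

theorem wd_eq (k : ℕ) (h : ℤ → ℤ) : wd k h =
    (List.range k).map (fun i : ℕ => decide (h ((i : ℤ) + 1) = h (i : ℤ) + 1)) := by
  unfold wd
  have e : ∀ l : List ℕ, (do let a ← l; pure (a : ℤ) : List ℤ) =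
      l.map (fun a : ℕ => (a : ℤ)) := by
    intro l
    induction l with
    | nil => rfl
    | cons a l ih =>
      simp only [List.map_cons, ← ih]
      rfl
  rw [e, List.map_map]
  rfl

theorem wd_getD {k i : ℕ} (h : ℤ → ℤ) (hi : i < k) (b : Bool) :
    (wd k h).getD i b = decide (h ((i : ℤ) + 1) = h (i : ℤ) + 1) := by
  rw [wd_eq]
  rw [List.getD_eq_getElem _ _ (by simpa using hi)]
  simp

theorem per_length (w : List Bool) (a m : ℕ) : (per w a m).length = m := by
  unfold per
  simp

/-- RCH -/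
theorem rch (hHLO : HloStmt) (hHWD : HwdStmt) (hRST : RstStmt) (hTRA : TraStmt) : RchStmt := by
  intro V _ _ H X k p t ε K h h' hk ht htk hp hR hh hh' hle
  have main : ∀ (D : ℕ) (h : ℤ → ℤ), Hgt k t h → (∀ x, h' x ≤ h x) →
      (D : ℤ) = ∑ x ∈ Finset.range k, (h x - h' x) →
      ∃ a : ℕ, (a : ℤ) = 3 * t * D - (h ((k : ℤ) - 1) - h' ((k : ℤ) - 1)) ∧
      Pl V H X k p ε K (per (wd k h) 0 (k - 1)) (per (wd k h') 0 (k - 1)) (3 * k * D) a D := by
    intro D
    induction D with
    | zero =>
      intro h hh hle hD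
      have h1 : ∀ x ∈ Finset.range k, h x - h' x = 0 := by
        rw [Nat.cast_zero] at hD
        exact (Finset.sum_eq_zero_iff_of_nonneg (fun x _ => by
          have := hle x
          omega)).1 hD.symm
      have h2 : ∀ x : ℕ, x < k → h x = h' x := by
        intro x hx
        have := h1 x (Finset.mem_range.2 hx)
        omega
      have h3 : h ((k : ℕ) : ℤ) = h' ((k : ℕ) : ℤ) := by
        have e1 := hh.2 0
        have e2 := hh'.2 0
        have e3 := h2 0 (by omega)
        rw [zero_add] at e1 e2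
        rw [Nat.cast_zero] at e3
        rw [e1, e2, e3]
      have h4 : wd k h = wd k h' := by
        rw [wd_eq, wd_eq]
        apply List.map_congr_left
        intro i hi
        have hi' : i < k := List.mem_range.1 hi
        have e1 := h2 i hi'
        have e2 : h ((i : ℤ) + 1) = h' ((i : ℤ) + 1) := by
          rcases Nat.lt_or_ge (i + 1) k with h5 | h5
          · have := h2 (i + 1) h5
            push_cast at this
            exact this
          · have h6 : i + 1 = k := by omega
            have : ((i : ℤ) + 1) = ((k : ℕ) : ℤ) := by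
              rw [← h6]; push_cast; rfl
            rw [this]
            exact h3
        rw [e1, e2]
      refine ⟨0, ?_, ?_⟩
      · have e1 := h2 (k - 1) (by omega)
        have e2 : ((k - 1 : ℕ) : ℤ) = (k : ℤ) - 1 := by omega
        rw [e2] at e1
        rw [e1]
        push_cast
        ring
      · rw [h4, Nat.mul_zero]
        exact Pl.nil _ (per_length _ _ _)
    | succ D ih =>
      intro h hh hle hD
      have hex : ∃ x, h' x ≠ h x := by
        by_contra hcon
        push Not at hcon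
        have : ∑ x ∈ Finset.range k, (h x - h' x) = 0 :=
          Finset.sum_eq_zero fun x _ => by rw [hcon]; ring
        rw [this] at hD
        push_cast at hD
        omega
      obtain ⟨c, hck, hc1, hc2, hg, hle2⟩ := hHLO k t h h' ht htk hh hh' hle hex
      obtain ⟨g, hgdef⟩ : ∃ g : ℤ → ℤ, g = fun x => if (k : ℤ) ∣ x - c then h x - 1 else h x :=
        ⟨_, rfl⟩
      rw [← hgdef] at hg
      have hgx : ∀ x, g x = if (k : ℤ) ∣ x - c then h x - 1 else h x := by
        intro x; rw [hgdef]
      have hle3 : ∀ x, h' x ≤ g x := by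
        intro x; rw [hgx]; exact hle2 x
      have hgi : ∀ i : ℕ, i < k → g i = h i - if i = c then 1 else 0 := by
        intro i hi
        rw [hgx]
        by_cases hic : i = c
        · rw [if_pos ((dvd_self_iff hi hck).2 hic), if_pos hic]
        · rw [if_neg (fun hd => hic ((dvd_self_iff hi hck).1 hd)), if_neg hic, sub_zero]
      have hgi1 : ∀ i : ℕ, i < k → g ((i : ℤ) + 1) =
          h ((i : ℤ) + 1) - if i = (c + k - 1) % k then 1 else 0 := by
        intro i hi
        rw [hgx]
        by_cases hic : i = (c + k - 1) % k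
        · rw [if_pos ((dvd_succ_iff hi hck).2 hic), if_pos hic]
        · rw [if_neg (fun hd => hic ((dvd_succ_iff hi hck).1 hd)), if_neg hic, sub_zero]
      -- the step at the class before `c`
      obtain ⟨b, hb⟩ : ∃ b : ℕ, b = (c + k - 1) % k := ⟨_, rfl⟩
      have hbk : b < k := by rw [hb]; exact Nat.mod_lt _ (by omega)
      have hstep : h ((b : ℤ) + 1) = h (b : ℤ) + 1 := by
        rcases Nat.eq_zero_or_pos c with rfl | hc0
        · have h1 : b = k - 1 := by
            rw [hb, Nat.zero_add]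
            exact Nat.mod_eq_of_lt (by omega)
          have e1 := hh.2 0
          have e2 := hh.2 (-1)
          rw [Nat.cast_zero, zero_sub] at hc1
          have e3 : ((b : ℤ) + 1) = 0 + k := by omega
          have e4 : (b : ℤ) = -1 + k := by omega
          rw [e3, e4, e1, e2, hc1]
          ring
        · have h1 : b = c - 1 := by
            have : c + k - 1 = (c - 1) + k := by omega
            rw [hb, this, Nat.add_mod_right]
            exact Nat.mod_eq_of_lt (by omega)
          have e3 : ((b : ℤ) + 1) = c := by omega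
          have e4 : (b : ℤ) = (c : ℤ) - 1 := by omega
          rw [e3, e4, hc1]
      have hbc : b ≠ c := by
        rintro rfl
        rw [hc2] at hstep
        omega
      have hsum : (D : ℤ) = ∑ x ∈ Finset.range k, (g x - h' x) := by
        have e1 : ∑ x ∈ Finset.range k, (g x - h' x) =
            ∑ x ∈ Finset.range k, ((h x - h' x) - if x = c then 1 else 0) := by
          refine Finset.sum_congr rfl fun x hx => ?_
          rw [hgi x (Finset.mem_range.1 hx)]
          ring
        rw [e1, Finset.sum_sub_distrib, ← hD, Finset.sum_ite_eq',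
          if_pos (Finset.mem_range.2 hck)]
        push_cast
        ring
      obtain ⟨a, ha, hpl⟩ := ih g hg hle3 hsum
      obtain ⟨hWl, hWt⟩ := hHWD.1 k t h hh
      obtain ⟨hWl', hWt'⟩ := hHWD.1 k t g hg
      have hrst := hRST V H X k p ε K (wd k h) (wd k g) c hk hWl hWl' hck
        (by rw [hWt]; exact hp) (by rw [hWt]; exact hR)
        (by
          rw [← hb, wd_getD h hbk]
          simpa using hstep)
        (by
          rw [wd_getD h hck]
          have : ¬ h ((c : ℤ) + 1) = h (c : ℤ) + 1 := by omega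
          simpa using this)
        (by
          intro i hi
          rw [wd_getD g hi, wd_getD h hi, hgi i hi, hgi1 i hi, ← hb]
          by_cases hic : i = c
          · subst hic
            rw [if_pos rfl, if_pos rfl, if_neg hbc.symm]
            have : h ((i : ℤ) + 1) - 0 = h (i : ℤ) - 1 + 1 := by omega
            simpa using this
          · rw [if_neg hic, if_neg hic]
            by_cases hib : i = b
            · subst hib
              rw [if_pos rfl, if_pos rfl]
              have : ¬ h ((i : ℤ) + 1) - 1 = h (i : ℤ) - 0 + 1 := by omega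
              simpa using this
            · rw [if_neg hib, if_neg hib, sub_zero, sub_zero])
      rw [hWt] at hrst
      have htra := hTRA V H X k p ε K _ _ _ _ _ _ _ _ _ hrst hpl
      refine ⟨(3 * t - if c + 1 = k then 1 else 0) + a, ?_, ?_⟩
      · have e1 : g ((k : ℤ) - 1) = h ((k : ℤ) - 1) - if c + 1 = k then 1 else 0 := by
          have e2 : ((k - 1 : ℕ) : ℤ) = (k : ℤ) - 1 := by omega
          have e3 := hgi (k - 1) (by omega)
          rw [e2] at e3
          rw [e3]
          congr 1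
          by_cases hck1 : c + 1 = k
          · rw [if_pos hck1, if_pos (by omega)]
          · rw [if_neg hck1, if_neg (by omega)]
        rw [e1] at ha
        have e4 : (((3 * t - if c + 1 = k then 1 else 0 : ℕ)) : ℤ) =
            3 * t - if c + 1 = k then 1 else 0 := by
          split_ifs <;> omega
        rw [Nat.cast_add, e4, ha]
        push_cast
        ring
      · have e1 : 3 * k * (D + 1) = 3 * k + 3 * k * D := by ring
        have e2 : D + 1 = 1 + D := by ring
        rw [e1, e2]
        exact htra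
  have hnn : 0 ≤ ∑ x ∈ Finset.range k, (h x - h' x) := by
    refine Finset.sum_nonneg fun x _ => ?_
    have := hle x
    omega
  obtain ⟨D, hD⟩ := Int.eq_ofNat_of_zero_le hnn
  obtain ⟨a, ha, hpl⟩ := main D h hh hle hD.symm
  exact ⟨D, a, hD.symm, ha, hpl⟩

end Pool.Agent.KK.H76
end

/-! ### Helper42_KK.MKI -/
section
/-! MP_747bc0_co, squad KK, block BETA part 2, rows MKI TWO. -/

set_option autoImplicit false

namespace Pool.Agent.KK.H42

theorem rea_mono (V : Type) [Fintype V] [DecidableEq V] (H : Finset (Finset V)) (X D : Finset V)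
    (k p : ℕ) (ε K : ℝ) (q q' : ℕ) (u v : List Bool) (N a : ℕ)
    (h : Rea H X k p ε K D q u v N a) (hq : q ≤ q') : Rea H X k p ε K D q' u v N a := by
  intro Z h1 h2
  obtain ⟨L, h3, h4, h5, h6⟩ := h Z h1 h2
  exact ⟨L, h3, h4, h5.trans hq, h6⟩

theorem loops_real (hREL : RelStmt) (V : Type) [Fintype V] [DecidableEq V]
    (H : Finset (Finset V)) (X : Finset V) (k p : ℕ) (ε : ℝ) (K j t K₁ K₀ : ℕ) (K' : ℝ)
    (hk : 1 ≤ k) (hF : FW H X k p ε) (hK : K' + K₀ ≤ K) (hK1 : 2 * k * K₁ ≤ K₀)
    (h : Loops V H X k p ε K j t K₁) (N a : ℕ) (h1 : (j - 1) * N + K₁ ≤ k * a)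
    (h2 : k * a + K₁ ≤ (j + 1) * N) :
    Rea H X k p ε K' ∅ K₀ (cx k (blk k t)) (cx k (blk k t)) N a := by
  obtain ⟨q, hq, hpl⟩ := h N a h1 h2
  have h3 : 2 * k * q ≤ K₀ := (Nat.mul_le_mul_left (2 * k) hq).trans hK1
  have h4 : ((2 * k * q : ℕ) : ℝ) ≤ (K₀ : ℝ) := by exact_mod_cast h3
  push_cast at h4
  exact rea_mono V H X ∅ k p ε K' (2 * k * q) K₀ _ _ N a
    (hREL V H X k p ε K _ _ N a q K' hk hF hpl (by linarith)) h3

theorem mki (hLOR : LorStmt) (hLOP : LopStmt) (hLOL : LolStmt) (hREL : RelStmt) : MkiStmt := by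
  intro k hk
  obtain ⟨A, hA⟩ := hLOR k hk
  obtain ⟨B, hB⟩ := hLOP k hk
  obtain ⟨C, hC⟩ := hLOL k hk
  refine ⟨2 * k * (A + B + C) + (A + B + C), ?_⟩
  intro V _ _ H X p j ε K K' hj hjk hp hjp hF hkind hK' hKK
  have hmono : ∀ (t K₁ K₂ : ℕ), K₁ ≤ K₂ → Loops V H X k p ε K j t K₁ →
      Loops V H X k p ε K j t K₂ := by
    intro t K₁ K₂ h12 h N a h1 h2
    obtain ⟨q, hq, hpl⟩ := h N a (by omega) (by omega)
    exact ⟨q, hq.trans h12, hpl⟩
  obtain ⟨l1, l2⟩ : Loops V H X k p ε K j (j - 1) (A + B + C) ∧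
      Loops V H X k p ε K j (j + 1) (A + B + C) := by
    rcases hkind with h | h | h
    · obtain ⟨g1, g2⟩ := hB V H X p ε K j hj hjk hjp h
      exact ⟨hmono _ _ _ (by omega) g1, hmono _ _ _ (by omega) g2⟩
    · obtain ⟨g1, g2⟩ := hA V H X p ε K j hj hjk hjp h
      exact ⟨hmono _ _ _ (by omega) g1, hmono _ _ _ (by omega) g2⟩
    · obtain ⟨g1, g2⟩ := hC V H X p ε K j hj hjk hp hjp h
      exact ⟨hmono _ _ _ (by omega) g1, hmono _ _ _ (by omega) g2⟩
  generalize A + B + C = S at *
  constructor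
  · intro r N a _ h1 h2
    exact loops_real hREL V H X k p ε K j (j - 1) S _ K' (by omega) hF hKK (by omega) l1 N a
      (by omega) (by omega)
  · intro M
    obtain ⟨i, rfl⟩ : ∃ i, j = i + 1 := ⟨j - 1, by omega⟩
    have e0 : i + 1 - 1 = i := by omega
    refine ⟨k * (M + 2 * S), (i + 1 + 1) * (M + 2 * S) - (2 * M + S), ?_, ?_, ?_, ?_⟩
    · exact Nat.mul_mod_right k _
    · have : k * (M + 2 * S) = k * M + 2 * k * S := by ring
      omega
    · have h3 : 2 * M + S ≤ (i + 1 + 1) * (M + 2 * S) := by nlinarith [Nat.zero_le (i * (M + 2 * S))]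
      have h4 : (((i + 1 + 1) * (M + 2 * S) - (2 * M + S) : ℕ) : ℤ) =
          ((i : ℤ) + 1 + 1) * (M + 2 * S) - (2 * M + S) := by
        rw [Nat.cast_sub h3]
        push_cast
        ring
      rw [h4]
      push_cast
      have h5 : (k : ℤ) * (((i : ℤ) + 1 + 1) * (M + 2 * S) - (2 * M + S)) -
          ((i : ℤ) + 1 + 1) * (k * (M + 2 * S)) + 2 * k * M = -(k * S) := by ring
      rw [h5, abs_neg, abs_of_nonneg (by positivity)]
      nlinarith [mul_nonneg (Int.natCast_nonneg k) (Int.natCast_nonneg S), Int.natCast_nonneg S]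
    · refine loops_real hREL V H X k p ε K (i + 1) (i + 1 + 1) S _ K' (by omega) hF hKK (by omega)
        l2 _ _ ?_ ?_
      · rw [e0]
        have h3 : 2 * M + S ≤ (i + 1 + 1) * (M + 2 * S) := by
          nlinarith [Nat.zero_le (i * (M + 2 * S))]
        obtain ⟨d, hd⟩ : ∃ d, (i + 1 + 1) * (M + 2 * S) = d + (2 * M + S) :=
          ⟨(i + 1 + 1) * (M + 2 * S) - (2 * M + S), by omega⟩
        rw [hd, Nat.add_sub_cancel]
        have h5 : k * ((i + 1 + 1) * (M + 2 * S)) = k * d + k * (2 * M + S) := by rw [hd]; ring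
        nlinarith [h5, Nat.zero_le (k * S), Nat.mul_le_mul_right S (show 1 ≤ k by omega)]
      · have h3 : 2 * M + S ≤ (i + 1 + 1) * (M + 2 * S) := by
          nlinarith [Nat.zero_le (i * (M + 2 * S))]
        obtain ⟨d, hd⟩ : ∃ d, (i + 1 + 1) * (M + 2 * S) = d + (2 * M + S) :=
          ⟨(i + 1 + 1) * (M + 2 * S) - (2 * M + S), by omega⟩
        rw [hd, Nat.add_sub_cancel]
        have h5 : (i + 1 + 1) * (k * (M + 2 * S)) = k * d + k * (2 * M + S) := by
          calc (i + 1 + 1) * (k * (M + 2 * S)) = k * ((i + 1 + 1) * (M + 2 * S)) := by ring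
            _ = _ := by rw [hd]; ring
        rw [h5]
        nlinarith [Nat.zero_le (k * M), Nat.mul_le_mul_right S (show 1 ≤ k by omega)]

theorem two : TwoStmt := by
  intro k T K₀ R hk hkT
  refine ⟨1000 * (K₀ + R + k + 1), ?_⟩
  intro n x D hn hx hD
  subst hkT
  have hT : 2 ≤ T := by omega
  have hTr : (0 : ℝ) < (T : ℝ) := by
    have : 0 < T := by omega
    exact_mod_cast this
  -- integer forms
  have hx1 : 100 * (T : ℤ) * (2 * x - n) ≤ n ∧ -(n : ℤ) ≤ 100 * (T : ℤ) * (2 * x - n) := by
    obtain ⟨g1, g2⟩ := abs_le.1 hx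
    push_cast at g1 g2
    have g3 : (1 : ℝ) / (100 * (2 * (T : ℝ))) * (n : ℝ) * (200 * T) = n := by
      field_simp
      ring
    have g4 : (100 : ℝ) * T * (2 * x - n) ≤ n := by
      nlinarith [mul_le_mul_of_nonneg_right g2 (by positivity : (0 : ℝ) ≤ 200 * T)]
    have g5 : -(n : ℝ) ≤ (100 : ℝ) * T * (2 * x - n) := by
      nlinarith [mul_le_mul_of_nonneg_right g1 (by positivity : (0 : ℝ) ≤ 200 * T)]
    constructor
    · exact_mod_cast g4
    · exact_mod_cast g5
  have hD1 : 200 * (T * D) ≤ n := by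
    push_cast at hD
    have g3 : (1 : ℝ) / (100 * (2 * (T : ℝ))) * (n : ℝ) * (200 * T) = n := by
      field_simp
      ring
    have g4 : (200 : ℝ) * (T * D) ≤ n := by
      nlinarith [mul_le_mul_of_nonneg_right hD (by positivity : (0 : ℝ) ≤ 200 * T)]
    exact_mod_cast g4
  obtain ⟨hx2, hx3⟩ := hx1
  set E : ℤ := (T : ℤ) * (2 * x - n) with hE
  have hE1 : 100 * E ≤ n := by rw [hE]; linarith
  have hE2 : -(n : ℤ) ≤ 100 * E := by rw [hE]; linarith
  -- the number `M`
  set y : ℕ := (K₀ + R - E).toNat with hy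
  have hy1 : (K₀ : ℤ) + R - E ≤ y := Int.self_le_toNat _
  have hy2 : (y : ℤ) = K₀ + R - E ∨ (y : ℤ) = 0 := by
    rcases le_total 0 ((K₀ : ℤ) + R - E) with h | h
    · left
      exact Int.toNat_of_nonneg h
    · right
      rw [hy, Int.toNat_of_nonpos h]
      rfl
  refine ⟨y / (4 * T) + 1, ?_⟩
  set M : ℕ := y / (4 * T) + 1 with hM
  have hM1 : y ≤ 4 * (T * M) := by
    have h1 := Nat.div_add_mod y (4 * T)
    have h2 := Nat.mod_lt y (show 0 < 4 * T by omega)
    have h3 : 4 * (T * M) = 4 * T * (y / (4 * T)) + 4 * T := by rw [hM]; ring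
    omega
  have hM2 : 4 * (T * M) ≤ y + 4 * T := by
    have h1 := Nat.div_add_mod y (4 * T)
    have h3 : 4 * (T * M) = 4 * T * (y / (4 * T)) + 4 * T := by rw [hM]; ring
    omega
  intro N' a' hN' ha'
  push_cast at ha'
  obtain ⟨b1, b2⟩ := abs_le.1 ha'
  have hkM : 2 * T * M = 2 * (T * M) := by ring
  rw [hkM] at hN'
  -- bound of `a'`
  have ha1 : a' ≤ T * M + R := by
    have h1 : 2 * (T : ℤ) * a' ≤ R + T * N' := by
      nlinarith [mul_nonneg (Int.natCast_nonneg T) (Int.natCast_nonneg M)]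
    have h2 : 2 * T * a' ≤ R + T * N' := by exact_mod_cast h1
    have h3 : T * N' ≤ T * (2 * (T * M) + R) := Nat.mul_le_mul_left T hN'
    by_contra hcon
    have h4 : T * M + R + 1 ≤ a' := by omega
    have h5 : 2 * T * (T * M + R + 1) ≤ 2 * T * a' := Nat.mul_le_mul_left (2 * T) h4
    nlinarith [Nat.mul_le_mul_right R (show 1 ≤ T by omega)]
  have hyb : (y : ℤ) * 100 ≤ 100 * K₀ + 100 * R + n := by
    rcases hy2 with h | h
    · rw [h]
      linarith
    · rw [h]
      positivity
  have hyb' : y * 100 ≤ 100 * K₀ + 100 * R + n := by exact_mod_cast hyb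
  set P := T * M with hP
  set Q := T * D with hQ
  have e1 : 4 * (2 * T) * D = 8 * Q := by rw [hQ]; ring
  have e2 : 4 * T * D = 4 * Q := by rw [hQ]; ring
  have hNN : N' + 8 * Q ≤ n := by omega
  have hxn : 199 * n ≤ 400 * x := by
    have h1 : -(n : ℤ) ≤ 200 * (2 * x - n) := by
      rcases le_total 0 (2 * (x : ℤ) - n) with h | h
      · have : 0 ≤ 200 * (2 * (x : ℤ) - n) := by positivity
        have h0 : -(n : ℤ) ≤ 0 := by
          have := Int.natCast_nonneg n
          linarith
        linarith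
      · have h2 : (100 : ℤ) * T * (2 * x - n) ≤ 200 * (2 * x - n) := by
          have h3 : (200 : ℤ) ≤ 100 * T := by
            have : (2 : ℤ) ≤ T := by exact_mod_cast hT
            linarith
          exact mul_le_mul_of_nonpos_right h3 h
        linarith
    have h2 : (199 : ℤ) * n ≤ 400 * x := by
      linarith
    exact_mod_cast h2
  have hax : a' + 4 * Q ≤ x := by omega
  obtain ⟨U, hU⟩ : ∃ U, U + N' + 8 * Q = n := ⟨n - N' - 8 * Q, by omega⟩
  obtain ⟨W, hW⟩ : ∃ W, W + a' + 4 * Q = x := ⟨x - a' - 4 * Q, by omega⟩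
  have c1 : (U : ℤ) = (n : ℤ) - 8 * Q - N' := by omega
  have c2 : (W : ℤ) = (x : ℤ) - 4 * Q - a' := by omega
  have h6 : (P : ℤ) = T * M := by rw [hP]; push_cast; ring
  have h8 : 2 * (T : ℤ) * W - T * U = E - (2 * T * a' - T * N') := by
    rw [hE, c1, c2]
    ring
  refine ⟨U, W, by omega, by omega, ?_, ?_⟩
  · have h1 : (T : ℤ) * U + K₀ ≤ 2 * T * W := by
      have h2 : (y : ℤ) ≤ 4 * P := by exact_mod_cast hM1
      have h3 : 2 * (2 * (T : ℤ)) * M = 4 * P := by rw [h6]; ring
      rw [h3] at b1 b2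
      linarith
    exact_mod_cast h1
  · have h1 : 2 * (T : ℤ) * W + K₀ ≤ (T + 2) * U := by
      have h2 : 4 * (P : ℤ) ≤ (y : ℤ) + 4 * T := by exact_mod_cast hM2
      have h3 : (N' : ℤ) ≤ 2 * P + R := by exact_mod_cast hN'
      have h4 : 200 * (Q : ℤ) ≤ n := by exact_mod_cast hD1
      have h7 : (1000 : ℤ) * (K₀ + R + 2 * T + 1) ≤ n := by exact_mod_cast hn
      have h9 : 2 * (2 * (T : ℤ)) * M = 4 * P := by rw [h6]; ring
      rw [h9] at b1 b2
      have h11 : ((T : ℤ) + 2) * U = T * U + 2 * U := by ring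
      rw [h11]
      have g0 := Int.natCast_nonneg n
      have g1 := Int.natCast_nonneg K₀
      have g2 := Int.natCast_nonneg R
      have h12 : 100 * (E + y) ≤ 100 * K₀ + 100 * R + n := by
        rcases hy2 with h | h
        · rw [h]
          linarith
        · rw [h]
          linarith
      linarith
    exact_mod_cast h1

end Pool.Agent.KK.H42
end

/-! ### Helper55_KK.PST -/
section
/-!
# Squad KK, row PST: a pass is a loop of four periods
-/

set_option autoImplicit false

namespace Pool.Agent.KK.H55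

/-! ### elementary facts on `wt` and `per` -/

theorem wt_append (u v : List Bool) : wt (u ++ v) = wt u + wt v := List.count_append ..

theorem per_length (w : List Bool) (a m : ℕ) : (per w a m).length = m := by
  simp [per]

theorem per_add (w : List Bool) (a m m' : ℕ) :
    per w a (m + m') = per w a m ++ per w (a + m) m' := by
  unfold per
  rw [List.range_add, List.map_append, List.map_map]
  congr 1
  apply List.map_congr_left
  intro i _
  rw [Function.comp, Nat.add_assoc]

theorem per_one (w : List Bool) (a : ℕ) : per w a 1 = [w.getD (a % w.length) false] := by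
  simp [per]

theorem per_period (w : List Bool) (a m : ℕ) : per w (a + w.length) m = per w a m := by
  unfold per
  apply List.map_congr_left
  intro i _
  rw [show a + w.length + i = a + i + w.length by omega, Nat.add_mod_right]

theorem per_period_mul (w : List Bool) (a m n : ℕ) :
    per w (a + n * w.length) m = per w a m := by
  induction n with
  | zero => rw [Nat.zero_mul, Nat.add_zero]
  | succ n ih =>
    rw [show a + (n + 1) * w.length = a + n * w.length + w.length by ring, per_period, ih]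

theorem wt_per_mul (hPWT : PwtStmt) (w : List Bool) (a n : ℕ) :
    wt (per w a (n * w.length)) = n * wt w := by
  induction n with
  | zero => simp [per, wt]
  | succ n ih =>
    rw [show (n + 1) * w.length = n * w.length + w.length by ring, per_add, wt_append, ih,
      hPWT.1]
    ring

/-- a class with the letter `b` -/
theorem exists_class (w : List Bool) (b : Bool) (h1 : 1 ≤ wt w) (h2 : wt w + 1 ≤ w.length) :
    ∃ i, i < w.length ∧ w.getD i false = b := by
  have hmem : b ∈ w := by
    cases b with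
    | true => exact List.count_pos_iff.1 h1
    | false =>
      by_contra hb
      have h3 : List.count true w = w.length := by
        rw [List.count_eq_length]
        intro c hc
        cases c with
        | true => rfl
        | false => exact absurd hc hb
      unfold wt at h2
      omega
  obtain ⟨i, hi, he⟩ := List.mem_iff_getElem.1 hmem
  exact ⟨i, hi, by rw [List.getD_eq_getElem _ _ hi, he]⟩

theorem pst (hREL : RelStmt) (hCMO : CmoStmt) (hTKR : TkrStmt) (hPER : PerStmt)
    (hPWT : PwtStmt) : PstStmt := by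
  intro V _ _ H X k p t ε K K' w v hk hFW hw hwt ht1 htk htp hP hK hK0
  set b := decide (v ∈ X) with hb
  obtain ⟨i, hi, hib⟩ := exists_class w b (by omega) (by omega)
  rw [hw] at hi
  have hik : i % k = i := Nat.mod_eq_of_lt hi
  set m := per w (i + 1) (k - 1) with hm
  have hml : m.length = k - 1 := per_length ..
  -- the word from the class `i`
  have f0 : per w i k = b :: m := by
    have hk' : k = 1 + (k - 1) := by omega
    have g1 : per w i k = per w i (1 + (k - 1)) := by rw [← hk']
    rw [g1, per_add, per_one, hw, hik, hib]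
    rfl
  have f1 : per w (i + 1) k = m ++ [b] := by
    have hk' : k = (k - 1) + 1 := by omega
    have g1 : per w (i + 1) k = per w (i + 1) ((k - 1) + 1) := by rw [← hk']
    rw [g1, per_add, per_one, hw, show i + 1 + (k - 1) = i + k by omega, Nat.add_mod_right, hik,
      hib]
  have hwm : wt (b :: m) = t := by
    rw [← f0, ← hwt]
    have := hPWT.1 w i
    rwa [hw] at this
  have hp : wt w % 2 = p := by rw [hwt]; exact htp
  have hl : (m ++ [b]).tail = per w (i + 2) (k - 1) := by
    rw [← f1]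
    have hk' : k = 1 + (k - 1) := by omega
    have g1 : per w (i + 1) k = per w (i + 1) (1 + (k - 1)) := by rw [← hk']
    rw [g1, per_add, per_one]
    rfl
  have hr : (b :: m).dropLast = per w i (k - 1) := by
    rw [← f0]
    have hk' : k = (k - 1) + 1 := by omega
    have g1 : per w i k = per w i ((k - 1) + 1) := by rw [← hk']
    rw [g1, per_add, per_one, List.dropLast_concat]
  -- the gadget
  have hS := hP m (by omega) hwm
  rw [← hb, hl, hr] at hS
  have hc : (m ++ b :: m).length = 2 * k - 1 := by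
    rw [List.length_append, List.length_cons, hml]
    omega
  have R2 := hTKR V H X k p ε K v (per w (i + 2) (k - 1)) (m ++ b :: m) (per w i (k - 1))
    (by omega) (per_length ..) (per_length ..) (by rw [hc]; omega) hS
  -- free letters
  have hKn : K ≤ ((⌈K⌉₊ : ℕ) : ℝ) := Nat.le_ceil K
  have P1 := hPER V H X k p ε ⌈K⌉₊ w 0 (i + 2) (by omega) hw hp
  rw [Nat.zero_add, Nat.zero_add] at P1
  have R1 := hREL V H X k p ε ⌈K⌉₊ _ _ _ _ _ K (by omega) hFW P1
    (by rw [Nat.cast_zero, mul_zero, add_zero]; exact hKn)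
  have P3 := hPER V H X k p ε ⌈K⌉₊ w i (k - i) (by omega) hw hp
  have e1 : per w (i + (k - i)) (k - 1) = per w 0 (k - 1) := by
    have := per_period w 0 (k - 1)
    rw [hw, Nat.zero_add] at this
    rw [show i + (k - i) = k by omega]
    exact this
  rw [e1] at P3
  have R3 := hREL V H X k p ε ⌈K⌉₊ _ _ _ _ _ (K - 1) (by omega) hFW P3
    (by rw [Nat.cast_zero, mul_zero, add_zero]; linarith)
  -- composition
  have C1 := hCMO.2.1 V H X ∅ {v} k p ε K (K - 1) _ _ _ _ _ _ _ _ _ (by omega) R1 R2
    (Finset.disjoint_empty_left _) (by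
      rw [Finset.card_singleton]
      push_cast
      linarith)
  have C2 := hCMO.2.1 V H X (∅ ∪ {v}) ∅ k p ε (K - 1) K' _ _ _ _ _ _ _ _ _ (by omega) C1 R3
    (Finset.disjoint_empty_right _) (by
      rw [hc, Finset.card_empty]
      have h3 : ((2 * k * 0 + (2 * k - 1) : ℕ) : ℝ) = 2 * k - 1 := by
        rw [Nat.mul_zero, Nat.zero_add, Nat.cast_sub (by omega)]
        push_cast
        ring
      rw [h3]
      push_cast
      linarith)
  rw [Finset.empty_union, Finset.union_empty] at C2
  have hN : i + 2 + ((m ++ b :: m).length + (k - 1)) + (k - i) = 4 * k := by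
    rw [hc]
    omega
  -- the number of letters X
  have hfix : per w (k - 1 + (i + 2)) (2 * k - 1) = m ++ b :: m := by
    have g1 : per w (k - 1 + (i + 2)) (2 * k - 1) = per w (i + 1) ((k - 1) + k) := by
      have := per_period w (i + 1) (2 * k - 1)
      rw [hw] at this
      rw [show k - 1 + (i + 2) = i + 1 + k by omega, this,
        show 2 * k - 1 = (k - 1) + k by omega]
    have g2 : per w (i + k) k = per w i k := by
      have := per_period w i k
      rwa [hw] at this
    rw [g1, per_add, show i + 1 + (k - 1) = i + k by omega, g2, f0]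
  have hA : wt (per w (k - 1) (i + 2)) + (wt (m ++ b :: m) + wt (per w i (k - 1))) +
      wt (per w (i + k - 1) (k - i)) = 4 * t := by
    have g0 : wt (per w (k - 1) (4 * k)) = 4 * t := by
      have := wt_per_mul hPWT w (k - 1) 4
      rwa [hw, hwt] at this
    have g1 : per w (k - 1) (4 * k) =
        per w (k - 1) ((i + 2) + ((2 * k - 1) + ((k - 1) + (k - i)))) := by
      rw [show (i + 2) + ((2 * k - 1) + ((k - 1) + (k - i))) = 4 * k by omega]
    have g2 : per w (k - 1 + (i + 2) + (2 * k - 1)) (k - 1) = per w i (k - 1) := by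
      have := per_period_mul w i (k - 1) 3
      rw [hw] at this
      rw [show k - 1 + (i + 2) + (2 * k - 1) = i + 3 * k by omega]
      exact this
    have g3 : per w (k - 1 + (i + 2) + (2 * k - 1) + (k - 1)) (k - i) =
        per w (i + k - 1) (k - i) := by
      have := per_period_mul w (i + k - 1) (k - i) 3
      rw [hw] at this
      rw [show k - 1 + (i + 2) + (2 * k - 1) + (k - 1) = i + k - 1 + 3 * k by omega]
      exact this
    rw [← g0, g1, per_add w (k - 1) (i + 2) (2 * k - 1 + (k - 1 + (k - i))),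
      per_add w (k - 1 + (i + 2)) (2 * k - 1) (k - 1 + (k - i)), hfix,
      per_add w (k - 1 + (i + 2) + (2 * k - 1)) (k - 1) (k - i), g2, g3]
    simp only [wt_append]
    ring
  rw [hN, hA] at C2
  exact hCMO.2.2 V H X {v} k p ε ε K' K' _ _ _ _ _ _ C2 le_rfl le_rfl (by rw [hc]; omega)

end Pool.Agent.KK.H55
end
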