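import Pool.Agent.KKM.Base

/-! # MP_747bc0_co, merged modules -/

/-! ### Helper3_KK.E_DEN -/
section
/-! MP_747bc0_co, squad KK, row E_DEN: elementary properties of densities in a box. -/

set_option autoImplicit false

namespace Pool.Agent.KK.E.H3

variable {V : Type} {ι : Type} [Fintype ι]

theorem ncard_box [DecidableEq ι] (c : ι → Finset V) (P : (ι → V) → Prop) [DecidablePred P] :
    {f : ι → V | (∀ i, f i ∈ c i) ∧ P f}.ncard = ((Fintype.piFinset c).filter P).card := by
  rw [← Set.ncard_coe_finset]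
  congr 1
  ext f
  simp [Fintype.mem_piFinset]

theorem prod_card [DecidableEq ι] (c : ι → Finset V) :
    (∏ i, ((c i).card : ℝ)) = ((Fintype.piFinset c).card : ℝ) := by
  rw [Fintype.card_piFinset]
  push_cast
  rfl

variable [Fintype V] [DecidableEq V]

theorem dens_eq [DecidableEq ι] (c : ι → Finset V) (P : (ι → V) → Prop) [DecidablePred P] :
    dens c P = (((Fintype.piFinset c).filter P).card : ℝ) / ((Fintype.piFinset c).card : ℝ) := by
  unfold dens
  rw [ncard_box, prod_card]

theorem e_den : StmtE01 := by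
  intro V _ _ ι _ c hc
  classical
  have hN : (0 : ℝ) < ((Fintype.piFinset c).card : ℝ) := by
    have : (Fintype.piFinset c).Nonempty := by
      choose f hf using hc
      exact ⟨f, Fintype.mem_piFinset.2 hf⟩
    exact_mod_cast this.card_pos
  have hmono : ∀ P Q : (ι → V) → Prop, (∀ f, (∀ i, f i ∈ c i) → P f → Q f) →
      dens c P ≤ dens c Q := by
    intro P Q h
    rw [dens_eq, dens_eq]
    apply div_le_div_of_nonneg_right _ hN.le
    have h1 : (Fintype.piFinset c).filter P ⊆ (Fintype.piFinset c).filter Q := by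
      intro f hf
      rw [Finset.mem_filter] at hf ⊢
      exact ⟨hf.1, h f (Fintype.mem_piFinset.1 hf.1) hf.2⟩
    exact_mod_cast Finset.card_le_card h1
  refine ⟨fun P => ⟨?_, ?_⟩, hmono, fun P Q => ?_, fun P => ?_, fun P hP => ?_, ?_⟩
  · rw [dens_eq]
    positivity
  · rw [dens_eq]
    apply div_le_one_of_le₀ _ hN.le
    exact_mod_cast Finset.card_filter_le _ _
  · rw [dens_eq, dens_eq, dens_eq, ← add_div]
    apply div_le_div_of_nonneg_right _ hN.le
    rw [Finset.filter_or]
    exact_mod_cast Finset.card_union_le _ _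
  · rw [dens_eq, dens_eq, ← add_div, div_eq_one_iff_eq hN.ne']
    exact_mod_cast Finset.card_filter_add_card_filter_not (s := Fintype.piFinset c) P
  · rw [dens_eq] at hP
    have h1 : (0 : ℝ) < (((Fintype.piFinset c).filter P).card : ℝ) := by
      by_contra hcon
      have h2 : (((Fintype.piFinset c).filter P).card : ℝ) = 0 :=
        le_antisymm (not_lt.1 hcon) (by positivity)
      rw [h2, zero_div] at hP
      exact lt_irrefl _ hP
    obtain ⟨f, hf⟩ := Finset.card_pos.1 (by exact_mod_cast h1)
    rw [Finset.mem_filter] at hf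
    exact ⟨f, Fintype.mem_piFinset.1 hf.1, hf.2⟩
  · intro T _ P
    rw [dens_eq]
    have h1 : ∀ t, dens c (P t) = (((Fintype.piFinset c).filter (P t)).card : ℝ) /
        ((Fintype.piFinset c).card : ℝ) := fun t => dens_eq c (P t)
    rw [Finset.sum_congr rfl fun t _ => h1 t, ← Finset.sum_div]
    apply div_le_div_of_nonneg_right _ hN.le
    have h2 : (Fintype.piFinset c).filter (fun f => ∃ t, P t f) ⊆
        Finset.univ.biUnion fun t => (Fintype.piFinset c).filter (P t) := by
      intro f hf
      rw [Finset.mem_filter] at hf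
      obtain ⟨t, ht⟩ := hf.2
      exact Finset.mem_biUnion.2 ⟨t, Finset.mem_univ _, Finset.mem_filter.2 ⟨hf.1, ht⟩⟩
    exact_mod_cast (Finset.card_le_card h2).trans Finset.card_biUnion_le

end Pool.Agent.KK.E.H3
end

/-! ### Helper32_KK.E_PUL -/
section
/-!
# Squad KK, row E_PUL: pull-back of densities along an injection
-/

set_option autoImplicit false

open scoped BigOperators Classical

namespace Pool.Agent.KK.E.H32

section
variable {V ι κ : Type}

/-- the index type split along an injection -/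
noncomputable def spl (φ : κ → ι) (hφ : Function.Injective φ) :
    κ ⊕ ((Set.range φ)ᶜ : Set ι) ≃ ι :=
  (Equiv.sumCongr (Equiv.ofInjective φ hφ) (Equiv.refl _)).trans (Equiv.Set.sumCompl (Set.range φ))

theorem spl_inl (φ : κ → ι) (hφ : Function.Injective φ) (k : κ) :
    spl φ hφ (Sum.inl k) = φ k := by
  simp [spl]

theorem spl_inr (φ : κ → ι) (hφ : Function.Injective φ) (i : ((Set.range φ)ᶜ : Set ι)) :
    spl φ hφ (Sum.inr i) = i := by
  simp [spl]

end

/-- E02 -/
theorem e_pul : StmtE02 := by
  intro V _ _ ι κ _ _ c φ hc hφ P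
  obtain ⟨σ, hσ⟩ : ∃ σ, σ = spl φ hφ := ⟨_, rfl⟩
  have hl : ∀ k, σ (Sum.inl k) = φ k := by
    intro k
    rw [hσ]
    exact spl_inl φ hφ k
  have hr : ∀ i : ((Set.range φ)ᶜ : Set ι), σ (Sum.inr i) = i := by
    intro i
    rw [hσ]
    exact spl_inr φ hφ i
  obtain ⟨T, hT⟩ : ∃ T : Set (κ → V), T = {g | (∀ k, g k ∈ (c ∘ φ) k) ∧ P g} := ⟨_, rfl⟩
  obtain ⟨R, hR⟩ : ∃ R : Set (((Set.range φ)ᶜ : Set ι) → V), 
      R = {g | ∀ i : ((Set.range φ)ᶜ : Set ι), g i ∈ c (i : ι)} := ⟨_, rfl⟩
  have hRc : R.ncard = ∏ i : ((Set.range φ)ᶜ : Set ι), (c i).card := by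
    have h1 : R = ((Fintype.piFinset fun i : ((Set.range φ)ᶜ : Set ι) => c i :
        Finset (((Set.range φ)ᶜ : Set ι) → V)) : Set (((Set.range φ)ᶜ : Set ι) → V)) := by
      ext g
      rw [hR, Finset.mem_coe, Fintype.mem_piFinset]
      rfl
    rw [h1, Set.ncard_coe_finset, Fintype.card_piFinset]
  have hprod : ∏ i, ((c i).card : ℝ) = (∏ k, (((c ∘ φ) k).card : ℝ)) *
      ∏ i : ((Set.range φ)ᶜ : Set ι), ((c i).card : ℝ) := by
    rw [← Equiv.prod_comp σ, Fintype.prod_sum_type]
    congr 1
    · apply Finset.prod_congr rfl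
      intro k _
      rw [hl]
      rfl
    · apply Finset.prod_congr rfl
      intro i _
      rw [hr]
  obtain ⟨m, hm⟩ : ∃ m : (κ → V) × (((Set.range φ)ᶜ : Set ι) → V) → (ι → V),
      ∀ x, m x = Sum.elim x.1 x.2 ∘ σ.symm := ⟨_, fun _ => rfl⟩
  have hml : ∀ x k, m x (φ k) = x.1 k := by
    intro x k
    rw [hm, Function.comp_apply, ← hl, Equiv.symm_apply_apply, Sum.elim_inl]
  have hmr : ∀ (x : (κ → V) × (((Set.range φ)ᶜ : Set ι) → V)) (i : ((Set.range φ)ᶜ : Set ι)),
      m x i = x.2 i := by
    intro x i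
    rw [hm, Function.comp_apply]
    have h1 : σ.symm (i : ι) = Sum.inr i := by
      rw [Equiv.symm_apply_eq, hr]
    rw [h1, Sum.elim_inr]
  have hS : {f : ι → V | (∀ i, f i ∈ c i) ∧ P (f ∘ φ)} = m '' (T ×ˢ R) := by
    ext f
    constructor
    · rintro ⟨h1, h2⟩
      refine ⟨(f ∘ φ, fun i => f i), ⟨?_, ?_⟩, ?_⟩
      · rw [hT]
        exact ⟨fun k => h1 (φ k), h2⟩
      · rw [hR]
        exact fun i => h1 i
      · funext i
        by_cases hi : i ∈ Set.range φ
        · obtain ⟨k, rfl⟩ := hi
          exact hml _ k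
        · exact hmr (f ∘ φ, fun i => f i) ⟨i, hi⟩
    · rintro ⟨x, ⟨h1, h2⟩, rfl⟩
      rw [hT] at h1
      rw [hR] at h2
      have h3 : m x ∘ φ = x.1 := by
        funext k
        exact hml x k
      refine ⟨?_, ?_⟩
      · intro i
        by_cases hi : i ∈ Set.range φ
        · obtain ⟨k, rfl⟩ := hi
          rw [hml]
          exact h1.1 k
        · have h4 := hmr x ⟨i, hi⟩
          rw [h4]
          exact h2 ⟨i, hi⟩
      · rw [h3]
        exact h1.2
  have hinj : Function.Injective m := by
    intro x y h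
    apply Prod.ext
    · funext k
      rw [← hml x k, ← hml y k, h]
    · funext i
      rw [← hmr x i, ← hmr y i, h]
  have hcard : ({f : ι → V | (∀ i, f i ∈ c i) ∧ P (f ∘ φ)}.ncard : ℝ) = (T.ncard : ℝ) *
      ∏ i : ((Set.range φ)ᶜ : Set ι), ((c i).card : ℝ) := by
    rw [hS, Set.ncard_image_of_injective _ hinj, Set.ncard_prod, hRc]
    push_cast
    rfl
  have hpos : (0 : ℝ) < ∏ i : ((Set.range φ)ᶜ : Set ι), ((c i).card : ℝ) := by
    apply Finset.prod_pos
    intro i _
    have := Finset.card_pos.2 (hc i)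
    exact_mod_cast this
  show ({f : ι → V | (∀ i, f i ∈ c i) ∧ P (f ∘ φ)}.ncard : ℝ) / ∏ i, ((c i).card : ℝ) =
    ({f : κ → V | (∀ i, f i ∈ (c ∘ φ) i) ∧ P f}.ncard : ℝ) / ∏ i, (((c ∘ φ) i).card : ℝ)
  rw [hcard, hprod, hT, mul_div_mul_right _ _ hpos.ne']

end Pool.Agent.KK.E.H32
end

/-! ### Helper3_KK.E_FUB -/
section
/-! MP_747bc0_co, squad KK, row E_FUB: Fubini and Markov for densities in a box. -/

set_option autoImplicit false

namespace Pool.Agent.KK.E.H3

theorem card_sum {V : Type} {ι κ : Type} [Fintype ι] [Fintype κ] [DecidableEq V]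
    [DecidableEq ι] [DecidableEq κ] (c : ι → Finset V) (d : κ → Finset V)
    (P : (ι ⊕ κ → V) → Prop) [DecidablePred P] :
    ((Fintype.piFinset (Sum.elim c d)).filter P).card =
      ∑ f ∈ Fintype.piFinset c,
        ((Fintype.piFinset d).filter fun g => P (Sum.elim f g)).card := by
  rw [Finset.card_eq_sum_card_fiberwise (f := fun h : ι ⊕ κ → V => h ∘ Sum.inl)
    (t := Fintype.piFinset c)]
  · refine Finset.sum_congr rfl fun f hf => ?_
    refine Finset.card_bij' (fun h _ => h ∘ Sum.inr) (fun g _ => Sum.elim f g) ?_ ?_ ?_ ?_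
    · intro h hh
      rw [Finset.mem_filter, Finset.mem_filter, Fintype.mem_piFinset] at hh
      rw [Finset.mem_filter, Fintype.mem_piFinset]
      refine ⟨fun j => hh.1.1 (Sum.inr j), ?_⟩
      have h1 : Sum.elim f (h ∘ Sum.inr) = h := by
        rw [← hh.2]
        exact Sum.elim_comp_inl_inr h
      rw [h1]
      exact hh.1.2
    · intro g hg
      rw [Finset.mem_filter, Fintype.mem_piFinset] at hg
      rw [Finset.mem_filter, Finset.mem_filter, Fintype.mem_piFinset]
      refine ⟨⟨?_, hg.2⟩, Sum.elim_comp_inl f g⟩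
      rintro (i | j)
      · exact Fintype.mem_piFinset.1 hf i
      · exact hg.1 j
    · intro h hh
      rw [Finset.mem_filter, Finset.mem_filter] at hh
      rw [← hh.2]
      exact Sum.elim_comp_inl_inr h
    · intro g _
      exact Sum.elim_comp_inr f g
  · intro h hh
    rw [Finset.coe_filter] at hh
    have h1 := Fintype.mem_piFinset.1 hh.1
    exact Finset.mem_coe.2 (Fintype.mem_piFinset.2 fun i => h1 (Sum.inl i))

theorem fubini {V : Type} [Fintype V] [DecidableEq V] {ι κ : Type} [Fintype ι] [DecidableEq ι]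
    [Fintype κ] (c : ι → Finset V) (d : κ → Finset V) (P : (ι ⊕ κ → V) → Prop) :
    dens (Sum.elim c d) P = avg c (fun f => dens d (fun g => P (Sum.elim f g))) := by
  classical
  unfold avg
  rw [dens_eq, card_sum, prod_card]
  have h1 : ∀ f : ι → V, dens d (fun g => P (Sum.elim f g)) =
      (((Fintype.piFinset d).filter fun g => P (Sum.elim f g)).card : ℝ) /
        ((Fintype.piFinset d).card : ℝ) := fun f => dens_eq d _
  rw [Finset.sum_congr rfl fun f _ => h1 f, ← Finset.sum_div, div_div]
  have h2 : ((Fintype.piFinset (Sum.elim c d)).card : ℝ) =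
      ((Fintype.piFinset d).card : ℝ) * ((Fintype.piFinset c).card : ℝ) := by
    rw [← prod_card, ← prod_card, ← prod_card, Fintype.prod_sum_type, mul_comm]
    rfl
  rw [h2]
  push_cast
  rfl

theorem e_fub (_h : StmtE01) : StmtE03 := by
  intro V _ _ ι κ _ _ _ c d hc hd
  classical
  have hN : (0 : ℝ) < ((Fintype.piFinset c).card : ℝ) := by
    have : (Fintype.piFinset c).Nonempty := by
      choose f hf using hc
      exact ⟨f, Fintype.mem_piFinset.2 hf⟩
    exact_mod_cast this.card_pos
  refine ⟨fubini c d, fun P τ hτ => ?_, fun A P τ hτ h => ?_⟩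
  · rw [fubini]
    unfold avg
    rw [dens_eq, prod_card, ← mul_div_assoc]
    apply div_le_div_of_nonneg_right _ hN.le
    calc τ * (((Fintype.piFinset c).filter
            fun f => τ < dens d (fun g => P (Sum.elim f g))).card : ℝ)
        = ∑ _f ∈ (Fintype.piFinset c).filter
            (fun f => τ < dens d (fun g => P (Sum.elim f g))), τ := by
          rw [Finset.sum_const, nsmul_eq_mul, mul_comm]
      _ ≤ ∑ f ∈ (Fintype.piFinset c).filter
            (fun f => τ < dens d (fun g => P (Sum.elim f g))),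
            dens d (fun g => P (Sum.elim f g)) :=
          Finset.sum_le_sum fun f hf => (Finset.mem_filter.1 hf).2.le
      _ ≤ ∑ f ∈ Fintype.piFinset c, dens d (fun g => P (Sum.elim f g)) := by
          refine Finset.sum_le_sum_of_subset_of_nonneg (Finset.filter_subset _ _) fun f _ _ => ?_
          rw [dens_eq]
          positivity
  · rw [fubini]
    unfold avg
    rw [dens_eq, prod_card, ← mul_div_assoc]
    apply div_le_div_of_nonneg_right _ hN.le
    calc ∑ f ∈ Fintype.piFinset c,
          dens d (fun g => A (Sum.elim f g ∘ Sum.inl) ∧ P (Sum.elim f g))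
        ≤ ∑ f ∈ Fintype.piFinset c, if A f then τ else 0 := by
          refine Finset.sum_le_sum fun f hf => ?_
          simp only [Sum.elim_comp_inl]
          by_cases hA : A f
          · rw [if_pos hA]
            have h1 := h f (Fintype.mem_piFinset.1 hf) hA
            refine le_trans (le_of_eq ?_) h1
            congr 1
            funext g
            simp [hA]
          · rw [if_neg hA]
            refine le_of_eq ?_
            rw [dens_eq]
            have h1 : (Fintype.piFinset d).filter (fun g => A f ∧ P (Sum.elim f g)) = ∅ := by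
              refine Finset.filter_eq_empty_iff.2 fun g _ hg => hA hg.1
            rw [h1]
            simp
      _ = τ * (((Fintype.piFinset c).filter A).card : ℝ) := by
          rw [← Finset.sum_filter, Finset.sum_const, nsmul_eq_mul, mul_comm]

end Pool.Agent.KK.E.H3
end

/-! ### Helper92_KK.E_HYB -/
section
/-!
# KK row E_HYB: hybrid isoperimetry
-/

set_option autoImplicit false

namespace Pool.Agent.KK.E.H92

section

variable {V : Type} [Fintype V] [DecidableEq V]

/-- density of a product event -/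
theorem dens_prod {ι κ : Type} [Fintype ι] [Fintype κ] (c : ι → Finset V) (d : κ → Finset V)
    (A : (ι → V) → Prop) (B : (κ → V) → Prop) :
    dens (Sum.elim c d) (fun h => A (h ∘ Sum.inl) ∧ B (h ∘ Sum.inr)) = dens c A * dens d B := by
  unfold dens
  rw [Fintype.prod_sum_type]
  simp only [Sum.elim_inl, Sum.elim_inr]
  have h1 : {f : ι ⊕ κ → V | (∀ i, f i ∈ Sum.elim c d i) ∧ A (f ∘ Sum.inl) ∧ B (f ∘ Sum.inr)} =
      (fun p : (ι → V) × (κ → V) => (Sum.elim p.1 p.2 : ι ⊕ κ → V)) ''
        ({f | (∀ i, f i ∈ c i) ∧ A f} ×ˢ {g | (∀ i, g i ∈ d i) ∧ B g}) := by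
    ext f
    constructor
    · rintro ⟨h1, h2, h3⟩
      exact ⟨(f ∘ Sum.inl, f ∘ Sum.inr), ⟨⟨fun i => h1 (Sum.inl i), h2⟩,
        ⟨fun i => h1 (Sum.inr i), h3⟩⟩, Sum.elim_comp_inl_inr f⟩
    · rintro ⟨⟨g, h⟩, ⟨⟨h1, h2⟩, ⟨h3, h4⟩⟩, rfl⟩
      refine ⟨?_, ?_, ?_⟩
      · rintro (i | i)
        exacts [h1 i, h3 i]
      · rw [Sum.elim_comp_inl]
        exact h2
      · rw [Sum.elim_comp_inr]
        exact h4
  rw [h1, Set.ncard_image_of_injective, Set.ncard_prod]
  · push_cast
    rw [mul_div_mul_comm]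
  · rintro ⟨g, h⟩ ⟨g', h'⟩ hgh
    simp only at hgh
    have e1 : g = g' := by
      funext i
      exact congrFun hgh (Sum.inl i)
    have e2 : h = h' := by
      funext i
      exact congrFun hgh (Sum.inr i)
    rw [e1, e2]

/-- first the coordinates of the second copy -/
def hyb {ι : Type} [DecidableEq ι] (s : Finset ι) (g : ι ⊕ ι → V) : ι → V :=
  fun i => if i ∈ s then g (Sum.inr i) else g (Sum.inl i)

/-- injection of indices behind the hybrid -/
def hi {ι : Type} [DecidableEq ι] (s : Finset ι) : ι → ι ⊕ ι :=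
  fun i => if i ∈ s then Sum.inr i else Sum.inl i

theorem hi_inj {ι : Type} [DecidableEq ι] (s : Finset ι) : Function.Injective (hi s) := by
  intro i j h
  unfold hi at h
  by_cases h1 : i ∈ s <;> by_cases h2 : j ∈ s
  · rw [if_pos h1, if_pos h2] at h
    exact Sum.inr.inj h
  · rw [if_pos h1, if_neg h2] at h
    cases h
  · rw [if_neg h1, if_pos h2] at h
    cases h
  · rw [if_neg h1, if_neg h2] at h
    exact Sum.inl.inj h

theorem comp_hi {ι : Type} [DecidableEq ι] (s : Finset ι) (g : ι ⊕ ι → V) :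
    g ∘ hi s = hyb s g := by
  funext i
  unfold hyb hi
  simp only [Function.comp]
  by_cases h1 : i ∈ s
  · rw [if_pos h1, if_pos h1]
  · rw [if_neg h1, if_neg h1]

theorem box_hi {ι : Type} [DecidableEq ι] (c : ι → Finset V) (s : Finset ι) :
    (Sum.elim c c) ∘ hi s = c := by
  funext i
  unfold hi
  simp only [Function.comp]
  by_cases h1 : i ∈ s
  · rw [if_pos h1, Sum.elim_inr]
  · rw [if_neg h1, Sum.elim_inl]

/-- **E08** -/
theorem e_hyb (h1 : StmtE01) (h2 : StmtE02) : StmtE08 := by
  intro V _ _ ι _ _ c A B hc hAB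
  set rest : ℝ := dens c (fun f => ¬ A f ∧ ¬ B f) with hrest
  set flux : ι → ℝ := fun i => dens (Sum.elim c (fun _ : Unit => c i))
    (fun g => A (g ∘ Sum.inl) ∧ B (Function.update (g ∘ Sum.inl) i (g (Sum.inr ())))) with hflux
  have hcc : ∀ i, (Sum.elim c c i).Nonempty := by
    rintro (i | i)
    exacts [hc i, hc i]
  have key : ∀ s : Finset ι, dens (Sum.elim c c) (fun g => A (g ∘ Sum.inl) ∧ ¬ A (hyb s g)) ≤
      (∑ i ∈ s, flux i) + (s.card : ℝ) * rest := by
    intro s
    induction s using Finset.induction_on with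
    | empty =>
      rw [Finset.sum_empty, Finset.card_empty]
      have e1 : {f : ι ⊕ ι → V | (∀ i, f i ∈ Sum.elim c c i) ∧
          (A (f ∘ Sum.inl) ∧ ¬ A (hyb ∅ f))} = ∅ := by
        rw [Set.eq_empty_iff_forall_notMem]
        rintro f ⟨_, h3, h4⟩
        apply h4
        have e2 : hyb ∅ f = f ∘ Sum.inl := by
          funext i
          unfold hyb
          rw [if_neg (Finset.notMem_empty i)]
          rfl
        rw [e2]
        exact h3
      unfold dens
      rw [e1]
      simp
    | insert j s hj ih =>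
      rw [Finset.sum_insert hj, Finset.card_insert_of_notMem hj]
      -- three events
      have e1 : dens (Sum.elim c c) (fun g => A (g ∘ Sum.inl) ∧ ¬ A (hyb (insert j s) g)) ≤
          dens (Sum.elim c c) (fun g => (A (g ∘ Sum.inl) ∧ ¬ A (hyb s g)) ∨
            ((A (hyb s g) ∧ B (hyb (insert j s) g)) ∨
              (¬ A (hyb (insert j s) g) ∧ ¬ B (hyb (insert j s) g)))) := by
        apply (h1 V (ι ⊕ ι) (Sum.elim c c) hcc).2.1
        rintro g _ ⟨h3, h4⟩
        by_cases h5 : A (hyb s g)
        · by_cases h6 : B (hyb (insert j s) g)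
          · exact Or.inr (Or.inl ⟨h5, h6⟩)
          · exact Or.inr (Or.inr ⟨h4, h6⟩)
        · exact Or.inl ⟨h3, h5⟩
      have e2 := (h1 V (ι ⊕ ι) (Sum.elim c c) hcc).2.2.1
        (fun g => A (g ∘ Sum.inl) ∧ ¬ A (hyb s g))
        (fun g => (A (hyb s g) ∧ B (hyb (insert j s) g)) ∨
              (¬ A (hyb (insert j s) g) ∧ ¬ B (hyb (insert j s) g)))
      have e3 := (h1 V (ι ⊕ ι) (Sum.elim c c) hcc).2.2.1
        (fun g => A (hyb s g) ∧ B (hyb (insert j s) g))
        (fun g => ¬ A (hyb (insert j s) g) ∧ ¬ B (hyb (insert j s) g))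
      -- the rest
      have e4 : dens (Sum.elim c c)
          (fun g => ¬ A (hyb (insert j s) g) ∧ ¬ B (hyb (insert j s) g)) = rest := by
        have e5 := h2 V (ι ⊕ ι) ι (Sum.elim c c) (hi (insert j s)) hcc (hi_inj _)
          (fun f => ¬ A f ∧ ¬ B f)
        rw [box_hi] at e5
        rw [hrest, ← e5]
        apply congrArg (dens (Sum.elim c c))
        funext g
        rw [comp_hi]
      -- the flux
      have e5 : dens (Sum.elim c c) (fun g => A (hyb s g) ∧ B (hyb (insert j s) g)) = flux j := by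
        have hφ : Function.Injective
            (Sum.elim (hi s) (fun _ : Unit => Sum.inr j) : ι ⊕ Unit → ι ⊕ ι) := by
          rintro (i | i) (i' | i') h
          · rw [Sum.elim_inl, Sum.elim_inl] at h
            rw [hi_inj s h]
          · rw [Sum.elim_inl, Sum.elim_inr] at h
            exfalso
            unfold hi at h
            by_cases h3 : i ∈ s
            · rw [if_pos h3] at h
              rw [Sum.inr.inj h] at h3
              exact hj h3
            · rw [if_neg h3] at h
              cases h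
          · rw [Sum.elim_inl, Sum.elim_inr] at h
            exfalso
            unfold hi at h
            by_cases h3 : i' ∈ s
            · rw [if_pos h3] at h
              rw [← Sum.inr.inj h] at h3
              exact hj h3
            · rw [if_neg h3] at h
              cases h
          · rfl
        have e6 := h2 V (ι ⊕ ι) (ι ⊕ Unit) (Sum.elim c c)
          (Sum.elim (hi s) (fun _ : Unit => Sum.inr j)) hcc hφ
          (fun g => A (g ∘ Sum.inl) ∧ B (Function.update (g ∘ Sum.inl) j (g (Sum.inr ()))))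
        have e7 : (Sum.elim c c) ∘ (Sum.elim (hi s) (fun _ : Unit => Sum.inr j)) =
            Sum.elim c (fun _ : Unit => c j) := by
          funext i
          rcases i with i | i
          · simp only [Function.comp, Sum.elim_inl]
            exact congrFun (box_hi c s) i
          · simp only [Function.comp, Sum.elim_inr]
        rw [e7] at e6
        rw [hflux]
        simp only
        rw [← e6]
        apply congrArg (dens (Sum.elim c c))
        funext g
        have e8 : (g ∘ (Sum.elim (hi s) (fun _ : Unit => Sum.inr j) : ι ⊕ Unit → ι ⊕ ι)) ∘ Sum.inl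
            = hyb s g := by
          rw [← comp_hi]
          rfl
        have e9 : Function.update (hyb s g) j
            ((g ∘ (Sum.elim (hi s) (fun _ : Unit => Sum.inr j) : ι ⊕ Unit → ι ⊕ ι))
              (Sum.inr ())) = hyb (insert j s) g := by
          funext i
          by_cases h3 : i = j
          · rw [h3, Function.update_self]
            unfold hyb
            rw [if_pos (Finset.mem_insert_self _ _)]
            rfl
          · rw [Function.update_of_ne h3]
            unfold hyb
            by_cases h4 : i ∈ s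
            · rw [if_pos h4, if_pos (Finset.mem_insert_of_mem h4)]
            · rw [if_neg h4, if_neg]
              intro h5
              rcases Finset.mem_insert.1 h5 with h5 | h5
              · exact h3 h5
              · exact h4 h5
        rw [e8, e9]
      rw [e4, e5] at e3
      push_cast
      linarith
  have hfin := key Finset.univ
  have e1 := dens_prod c c A B
  have e2 : dens (Sum.elim c c) (fun h => A (h ∘ Sum.inl) ∧ B (h ∘ Sum.inr)) ≤
      dens (Sum.elim c c) (fun g => A (g ∘ Sum.inl) ∧ ¬ A (hyb Finset.univ g)) := by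
    apply (h1 V (ι ⊕ ι) (Sum.elim c c) hcc).2.1
    rintro g _ ⟨h3, h4⟩
    refine ⟨h3, ?_⟩
    have e3 : hyb Finset.univ g = g ∘ Sum.inr := by
      funext i
      unfold hyb
      rw [if_pos (Finset.mem_univ i)]
      rfl
    rw [e3]
    intro h5
    exact hAB _ h5 h4
  rw [← e1]
  rw [Finset.card_univ] at hfin
  exact le_trans e2 hfin

end

end Pool.Agent.KK.E.H92
end

/-! ### Helper39_KK.E_OFN -/
section
/-! MP_747bc0_co, squad KK, block E, row E_OFN (StmtE16). -/

set_option autoImplicit false

namespace Pool.Agent.KK.E.H39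

/-- row E_OFN -/
theorem e_ofn : StmtE16 := by
  intro V _ _ H k m f hf hw
  refine ⟨List.nodup_ofFn.2 hf, ?_⟩
  rintro s ⟨t, u, h⟩ hs
  have hlen : t.length + s.length + u.length = m := by
    have h1 := congrArg List.length h
    rw [List.length_append, List.length_append, List.length_ofFn] at h1
    exact h1
  have hget : ∀ (j : ℕ) (hj : j < s.length), ∃ hm : t.length + j < m,
      s[j] = f ⟨t.length + j, hm⟩ := by
    intro j hj
    have hm : t.length + j < m := by omega
    refine ⟨hm, ?_⟩
    have h1 : (List.ofFn f)[t.length + j]? = some (f ⟨t.length + j, hm⟩) := by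
      rw [List.getElem?_eq_getElem (by rw [List.length_ofFn]; exact hm), List.getElem_ofFn]
    rw [← h, List.append_assoc, List.getElem?_append_right (by omega),
      Nat.add_sub_cancel_left, List.getElem?_append_left hj, List.getElem?_eq_getElem hj] at h1
    exact Option.some.inj h1
  have h2 := hw t.length (by omega)
  have h3 : s.toFinset =
      (Finset.univ.filter fun i : Fin m => t.length ≤ (i : ℕ) ∧ (i : ℕ) < t.length + k).image f := by
    ext v
    rw [List.mem_toFinset, Finset.mem_image]
    constructor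
    · intro hv
      obtain ⟨j, hj, rfl⟩ := List.mem_iff_getElem.1 hv
      obtain ⟨hm, h4⟩ := hget j hj
      refine ⟨⟨t.length + j, hm⟩, ?_, h4.symm⟩
      rw [Finset.mem_filter]
      exact ⟨Finset.mem_univ _, by simp, by simp; omega⟩
    · rintro ⟨i, hi, rfl⟩
      rw [Finset.mem_filter] at hi
      obtain ⟨-, h4, h5⟩ := hi
      have hj : (i : ℕ) - t.length < s.length := by omega
      obtain ⟨hm, h6⟩ := hget _ hj
      have h7 : (⟨t.length + ((i : ℕ) - t.length), hm⟩ : Fin m) = i := by
        apply Fin.ext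
        simp only
        omega
      rw [h7] at h6
      rw [← h6]
      exact List.getElem_mem hj
  rw [h3]
  exact h2

end Pool.Agent.KK.E.H39
end

/-! ### Helper25_KK.TOU -/
section
/-!
# Squad KK, row TOU: a closed tour from crossings
-/

set_option autoImplicit false

open scoped BigOperators

namespace Pool.Agent.KK.H25

/-- the order of the classes: up to `q - 1`, down to `0`, up to `i₀` -/
def ord (q i₀ l : ℕ) : ℕ :=
  if l ≤ q - 1 - i₀ then i₀ + l else if l ≤ 2 * (q - 1) - i₀ then 2 * (q - 1) - i₀ - l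
  else l - (2 * (q - 1) - i₀)

theorem ord_lt {q i₀ l : ℕ} (hi : i₀ < q) (hl : l ≤ 2 * (q - 1)) : ord q i₀ l < q := by
  unfold ord
  split_ifs <;> omega

theorem ord_zero {q i₀ : ℕ} (hi : i₀ < q) : ord q i₀ 0 = i₀ := by
  unfold ord
  split_ifs <;> omega

theorem ord_end {q i₀ : ℕ} (hi : i₀ < q) : ord q i₀ (2 * (q - 1)) = i₀ := by
  unfold ord
  split_ifs <;> omega

theorem ord_step {q i₀ l : ℕ} (hi : i₀ < q) (hl : l < 2 * (q - 1)) :
    ord q i₀ l + 1 = ord q i₀ (l + 1) ∨ ord q i₀ (l + 1) + 1 = ord q i₀ l := by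
  unfold ord
  split_ifs <;> omega

theorem ord_all {q i₀ i : ℕ} (hi : i₀ < q) (h : i < q) :
    ∃ l ≤ 2 * (q - 1), ord q i₀ l = i := by
  by_cases h1 : i₀ ≤ i
  · refine ⟨i - i₀, by omega, ?_⟩
    unfold ord
    rw [if_pos (by omega)]
    omega
  · refine ⟨2 * (q - 1) - i₀ - i, by omega, ?_⟩
    unfold ord
    rw [if_neg (by omega), if_pos (by omega)]
    omega

/-- disjoint crossing paths, one for each step -/
theorem paths {V : Type} [Fintype V] [DecidableEq V] (H : Finset (Finset V)) (k C₀ C t : ℕ)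
    (S T : ℕ → Set (List V)) (ht : t ≤ k) (hC : k * C₀ + k ≤ C)
    (h : ∀ l < t, Cross H k (S l) (T l) C₀ C) :
    ∃ x : ℕ → List V, (∀ l < t, Seg H k (S l) (T l) (x l) ∧ (x l).length ≤ C₀) ∧
      ∀ l < t, ∀ l' < l, ∀ v ∈ x l, v ∉ x l' := by
  classical
  -- the steps of the second kind
  let B : Fin t → Prop := fun l => ¬ ∀ W : Finset V, W.card ≤ C →
    ∃ p, Seg H k (S l) (T l) p ∧ p.length ≤ C₀ ∧ ∀ v ∈ p, v ∉ W
  have hB : ∀ l : {l : Fin t // B l}, ∃ Z : Finset V, k ≤ Z.card ∧ ∀ z ∈ Z,
      ∀ W : Finset V, W.card ≤ C → z ∉ W →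
        ∃ p, Seg H k (S (l : Fin t)) (T (l : Fin t)) p ∧ p.length ≤ C₀ ∧ ∀ v ∈ p, v ∉ W := by
    intro l
    rcases h l.1 l.1.2 with h1 | h1
    · exact absurd h1 l.2
    · exact h1
  choose Z hZk hZ using hB
  have hcard : Fintype.card {l : Fin t // B l} ≤ t := by
    refine (Fintype.card_subtype_le _).trans ?_
    rw [Fintype.card_fin]
  obtain ⟨z, hzi, hz⟩ := (Finset.all_card_le_biUnion_card_iff_exists_injective Z).1 (by
    intro s
    rcases s.eq_empty_or_nonempty with h0 | ⟨l, hl⟩
    · rw [h0]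
      simp
    · have h1 : s.card ≤ t := (Finset.card_le_univ s).trans hcard
      have h2 : (Z l).card ≤ (s.biUnion Z).card :=
        Finset.card_le_card (Finset.subset_biUnion_of_mem Z hl)
      have h3 := hZk l
      omega)
  let R : Finset V := Finset.univ.image z
  have hR : R.card ≤ t := (Finset.card_image_le).trans (by
    rw [Finset.card_univ]
    exact hcard)
  have main : ∀ m ≤ t, ∃ x : ℕ → List V,
      (∀ l < m, Seg H k (S l) (T l) (x l) ∧ (x l).length ≤ C₀) ∧
      (∀ l < m, ∀ l' < l, ∀ v ∈ x l, v ∉ x l') ∧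
      ∀ l < m, ∀ i : {l : Fin t // B l}, z i ∈ x l → ((i : Fin t) : ℕ) = l := by
    intro m
    induction m with
    | zero =>
      intro _
      exact ⟨fun _ => [], fun l hl => by omega, fun l hl => by omega, fun l hl => by omega⟩
    | succ m ih =>
      intro hm
      obtain ⟨x, hx1, hx2, hx3⟩ := ih (by omega)
      let U : Finset V := (Finset.range m).biUnion fun l => (x l).toFinset
      have hU : U.card ≤ m * C₀ := by
        refine Finset.card_biUnion_le.trans ?_
        have h1 : ∀ l ∈ Finset.range m, (x l).toFinset.card ≤ C₀ := fun l hl =>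
          (List.toFinset_card_le _).trans (hx1 l (Finset.mem_range.1 hl)).2
        refine (Finset.sum_le_sum h1).trans ?_
        rw [Finset.sum_const, Finset.card_range, smul_eq_mul]
      have hUm : ∀ v, v ∉ U → ∀ l < m, v ∉ x l := by
        intro v hv l hl h1
        apply hv
        rw [Finset.mem_biUnion]
        exact ⟨l, Finset.mem_range.2 hl, List.mem_toFinset.2 h1⟩
      have hmk : m * C₀ ≤ k * C₀ := Nat.mul_le_mul_right _ (by omega)
      -- the next path
      have hnext : ∃ p, Seg H k (S m) (T m) p ∧ p.length ≤ C₀ ∧ (∀ v ∈ p, v ∉ U) ∧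
          ∀ i : {l : Fin t // B l}, z i ∈ p → ((i : Fin t) : ℕ) = m := by
        by_cases hb : B ⟨m, by omega⟩
        · let b : {l : Fin t // B l} := ⟨⟨m, by omega⟩, hb⟩
          have hzb : z b ∉ R.erase (z b) ∪ U := by
            rw [Finset.mem_union]
            rintro (h1 | h1)
            · exact (Finset.notMem_erase _ _) h1
            · rw [Finset.mem_biUnion] at h1
              obtain ⟨l, hl, h2⟩ := h1
              have hl' := Finset.mem_range.1 hl
              have h3 := hx3 l hl' b (List.mem_toFinset.1 h2)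
              have h4 : m = l := h3
              omega
          have hW : (R.erase (z b) ∪ U).card ≤ C := by
            refine (Finset.card_union_le _ _).trans ?_
            have h1 : (R.erase (z b)).card ≤ R.card := Finset.card_le_card (Finset.erase_subset _ _)
            omega
          obtain ⟨p, hp1, hp2, hp3⟩ := hZ b (z b) (hz b) _ hW hzb
          refine ⟨p, hp1, hp2, fun v hv h1 => hp3 v hv (Finset.mem_union_right _ h1), ?_⟩
          intro i hi
          by_contra hne
          have h1 : z i ≠ z b := by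
            intro h2
            apply hne
            rw [hzi h2]
          exact hp3 _ hi (Finset.mem_union_left _ (Finset.mem_erase.2
            ⟨h1, Finset.mem_image_of_mem _ (Finset.mem_univ _)⟩))
        · have hb' := not_not.1 hb
          have hW : (R ∪ U).card ≤ C := by
            refine (Finset.card_union_le _ _).trans ?_
            omega
          obtain ⟨p, hp1, hp2, hp3⟩ := hb' _ hW
          refine ⟨p, hp1, hp2, fun v hv h1 => hp3 v hv (Finset.mem_union_right _ h1), ?_⟩
          intro i hi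
          exact absurd (Finset.mem_union_left _ (Finset.mem_image_of_mem _ (Finset.mem_univ _)))
            (hp3 _ hi)
      obtain ⟨p, hp1, hp2, hp3, hp4⟩ := hnext
      refine ⟨Function.update x m p, ?_, ?_, ?_⟩
      · intro l hl
        by_cases hlm : l = m
        · subst hlm
          rw [Function.update_self]
          exact ⟨hp1, hp2⟩
        · rw [Function.update_of_ne hlm]
          exact hx1 l (by omega)
      · intro l hl l' hl' v
        by_cases hlm : l = m
        · subst hlm
          rw [Function.update_self, Function.update_of_ne (by omega)]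
          intro hv
          exact hUm v (hp3 v hv) l' hl'
        · rw [Function.update_of_ne hlm, Function.update_of_ne (by omega)]
          exact hx2 l (by omega) l' hl' v
      · intro l hl i
        by_cases hlm : l = m
        · subst hlm
          rw [Function.update_self]
          exact hp4 i
        · rw [Function.update_of_ne hlm]
          exact hx3 l (by omega) i
  obtain ⟨x, hx1, hx2, -⟩ := main t le_rfl
  exact ⟨x, hx1, hx2⟩

theorem tou : TouStmt := by
  intro k q C₀ C V _ _ H T i₀ hqk hC h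
  have hi := i₀.2
  have hlt : ∀ l, min (ord q i₀ l) (q - 1) < q := fun l => by omega
  let j : ℕ → Fin q := fun l => ⟨min (ord q i₀ l) (q - 1), hlt l⟩
  have hj : ∀ l ≤ 2 * (q - 1), ((j l : Fin q) : ℕ) = ord q i₀ l := by
    intro l hl
    have h1 := ord_lt hi hl
    change min (ord q i₀ l) (q - 1) = _
    omega
  obtain ⟨x, hx1, hx2⟩ := paths H k C₀ C (2 * (q - 1)) (fun l => T (j l)) (fun l => T (j (l + 1)))
    hqk hC (by
      intro l hl
      apply h
      rw [hj l hl.le, hj (l + 1) hl]
      exact ord_step hi hl)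
  refine ⟨2 * (q - 1), j, fun l => x l, ?_, ?_, ?_, ?_, ?_, ?_⟩
  · apply Fin.ext
    rw [hj 0 (by omega), ord_zero hi]
  · apply Fin.ext
    rw [hj _ le_rfl, ord_end hi]
  · intro i
    obtain ⟨l, hl, hl2⟩ := ord_all hi i.2
    exact ⟨l, hl, Fin.ext (by rw [hj l hl, hl2])⟩
  · intro l
    exact (hx1 l l.2).1
  · rw [List.nodup_flatten]
    refine ⟨?_, ?_⟩
    · intro p hp
      rw [List.mem_ofFn] at hp
      obtain ⟨l, rfl⟩ := hp
      exact (hx1 l l.2).1.1.1
    · rw [List.pairwise_ofFn]
      intro l l' hll v hv hv'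
      exact hx2 l' l'.2 l hll v hv' hv
  · rw [List.length_flatten]
    have h1 := List.sum_le_card_nsmul ((List.ofFn fun l : Fin (2 * (q - 1)) => x l).map
      List.length) C₀ (by
        intro c hc
        rw [List.mem_map] at hc
        obtain ⟨p, hp, rfl⟩ := hc
        rw [List.mem_ofFn] at hp
        obtain ⟨l, rfl⟩ := hp
        exact (hx1 l l.2).2)
    rw [List.length_map, List.length_ofFn, smul_eq_mul] at h1
    exact h1.trans (Nat.mul_le_mul_right _ hqk)

end Pool.Agent.KK.H25
end

/-! ### Helper3_KK.CYC -/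
section
/-! MP_747bc0_co, squad KK, block BETA, rows CYC TRA NEA. -/

set_option autoImplicit false

namespace Pool.Agent.KK.H3

theorem infix_iff_drop {α : Type} (M s : List α) (k : ℕ) :
    (s <:+: M ∧ s.length = k) ↔ ∃ i, i + k ≤ M.length ∧ s = (M.drop i).take k := by
  constructor
  · rintro ⟨⟨t, u, h⟩, hk⟩
    refine ⟨t.length, ?_, ?_⟩
    · rw [← h, List.length_append, List.length_append, hk]
      omega
    · rw [← h, List.append_assoc, List.drop_left, ← hk, List.take_left]
  · rintro ⟨i, hi, rfl⟩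
    refine ⟨(List.take_prefix _ _).isInfix.trans (List.drop_suffix _ _).isInfix, ?_⟩
    rw [List.length_take, List.length_drop]
    omega

theorem cyc : CycStmt := by
  intro α L k hk hkL s
  rw [infix_iff_drop]
  have hlen : (L ++ L.take (k - 1)).length = L.length + (k - 1) := by
    rw [List.length_append, List.length_take]
    omega
  have key : ∀ i < L.length, ((L ++ L.take (k - 1)).drop i).take k = (L.rotate i).take k := by
    intro i hi
    rw [List.rotate_eq_drop_append_take hi.le, List.drop_append_of_le_length hi.le,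
      List.take_append, List.take_append, List.take_take, List.take_take, List.length_drop]
    congr 2
    omega
  constructor
  · rintro ⟨i, hi, rfl⟩
    rw [hlen] at hi
    exact ⟨i, by omega, key i (by omega)⟩
  · rintro ⟨i, hi, rfl⟩
    refine ⟨i, ?_, (key i hi).symm⟩
    rw [hlen]
    omega

theorem tra : TraStmt := by
  intro V _ _ H X k p ε K u v w N N' a a' q q' h1 h2
  induction h2 with
  | nil => exact h1
  | letter v N' a' q' b _ hw ih =>
    have h3 := Pl.letter _ _ _ _ _ b ih hw
    rw [Nat.add_assoc a] at h3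
    exact h3
  | gadget v N' a' q' c uR _ hc1 hc2 huR hS ih =>
    have h3 := Pl.gadget _ _ _ _ _ c uR ih hc1 hc2 huR hS
    have e1 : N + N' + c.length + (k - 1) = N + (N' + c.length + (k - 1)) := by omega
    have e2 : a + a' + wt c + wt uR = a + (a' + wt c + wt uR) := by omega
    rw [e1, e2] at h3
    exact h3

theorem badC_finite {V : Type} [Fintype V] [DecidableEq V] (H : Finset (Finset V)) (X : Finset V)
    (s : List (Slot V)) : (BadC H X s).Finite :=
  (List.finite_length_eq V s.length).subset fun _ he => he.1.length_eq.symm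

theorem nea : NeaStmt := by
  intro V _ _ H X k p γ hk hγ hN u hu hp
  obtain ⟨b, u', rfl⟩ : ∃ b u', u = b :: u' := by
    cases u with
    | nil =>
      simp only [List.length_nil] at hu
      omega
    | cons b u' => exact ⟨b, u', rfl⟩
  have hsub : BadC H X (fw (b :: u')) ⊆
      ⋃ v ∈ (Finset.univ.filter fun v : V => decide (v ∈ X) = b),
        BadC H X (Sum.inl v :: fw u') := by
    rintro e ⟨he1, he2, he3⟩
    change List.Forall₂ (Fit X) (Sum.inr b :: fw u') e at he1
    cases he1 with
    | cons h1 h2 =>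
      rename_i w e'
      refine Set.mem_biUnion (x := w) ?_ ⟨List.Forall₂.cons rfl h2, he2, he3⟩
      rw [Finset.mem_coe, Finset.mem_filter]
      refine ⟨Finset.mem_univ _, ?_⟩
      have h3 : w ∈ X ↔ b = true := h1
      by_cases hw : w ∈ X
      · rw [h3.1 hw]
        simpa using hw
      · have : b = false := by
          cases b
          · rfl
          · exact absurd (h3.2 rfl) hw
        rw [this]
        simpa using hw
  have hcard : (BadC H X (fw (b :: u'))).ncard ≤
      ∑ v ∈ (Finset.univ.filter fun v : V => decide (v ∈ X) = b),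
        (BadC H X (Sum.inl v :: fw u')).ncard := by
    refine (Set.ncard_le_ncard hsub ?_).trans ?_
    · exact Set.Finite.biUnion (Finset.finite_toSet _) fun v _ => badC_finite H X _
    · exact Finset.set_ncard_biUnion_le _ _
  calc ((BadC H X (fw (b :: u'))).ncard : ℝ)
      ≤ ∑ v ∈ (Finset.univ.filter fun v : V => decide (v ∈ X) = b),
        ((BadC H X (Sum.inl v :: fw u')).ncard : ℝ) := by exact_mod_cast hcard
    _ ≤ ∑ _v ∈ (Finset.univ.filter fun v : V => decide (v ∈ X) = b),
        γ * (Fintype.card V : ℝ) ^ (k - 1) := by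
        refine Finset.sum_le_sum fun v hv => ?_
        have hv' := (Finset.mem_filter.1 hv).2
        have h4 := (hN v [] u' (by simpa [Nat.add_comm] using hu)).1 (by
          rw [hv']
          exact hp)
        exact h4
    _ = ((Finset.univ.filter fun v : V => decide (v ∈ X) = b).card : ℝ) *
        (γ * (Fintype.card V : ℝ) ^ (k - 1)) := by
        rw [Finset.sum_const, nsmul_eq_mul]
    _ ≤ (Fintype.card V : ℝ) * (γ * (Fintype.card V : ℝ) ^ (k - 1)) := by
        gcongr
        exact Finset.card_le_univ _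
    _ = γ * (Fintype.card V : ℝ) ^ k := by
        have : (Fintype.card V : ℝ) ^ k =
            (Fintype.card V : ℝ) ^ (k - 1) * (Fintype.card V : ℝ) := by
          rw [← pow_succ]
          congr 1
          omega
        rw [this]
        ring

end Pool.Agent.KK.H3
end

/-! ### Helper42_KK.W1 -/
section
/-! MP_747bc0_co, squad KK, block BETA, rows SRV SCO PCO. -/

set_option autoImplicit false

namespace Pool.Agent.KK.H42

variable {V : Type} [Fintype V] [DecidableEq V]

theorem fr_reverse (s : List (Slot V)) : fr s.reverse = fr s := by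
  unfold fr
  rw [List.countP_reverse]

theorem badC_reverse (H : Finset (Finset V)) (X : Finset V) (s : List (Slot V)) :
    BadC H X s.reverse = List.reverse '' BadC H X s := by
  ext e
  constructor
  · rintro ⟨h1, h2, h3⟩
    refine ⟨e.reverse, ⟨?_, ?_, ?_⟩, List.reverse_reverse e⟩
    · rw [← List.forall₂_reverse_iff, List.reverse_reverse]
      exact h1
    · exact List.nodup_reverse.2 h2
    · rw [List.toFinset_reverse]
      exact h3
  · rintro ⟨e', ⟨h1, h2, h3⟩, rfl⟩
    refine ⟨?_, ?_, ?_⟩
    · rw [List.forall₂_reverse_iff]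
      exact h1
    · exact List.nodup_reverse.2 h2
    · rw [List.toFinset_reverse]
      exact h3

theorem oks_reverse (H : Finset (Finset V)) (X : Finset V) (ε : ℝ) (s : List (Slot V))
    (h : OKs H X ε s) : OKs H X ε s.reverse := by
  unfold OKs at *
  rw [badC_reverse, Set.ncard_image_of_injective _ List.reverse_injective, fr_reverse]
  exact h

theorem okl_reverse (H : Finset (Finset V)) (X : Finset V) (k : ℕ) (ε : ℝ) (L : List (Slot V))
    (h : OKl H X k ε L) : OKl H X k ε L.reverse := by
  intro s hs hk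
  have h1 : s.reverse <:+: L := by
    rw [← List.reverse_infix, List.reverse_reverse]
    exact hs
  have h2 := h s.reverse h1 (by rw [List.length_reverse]; exact hk)
  have h3 := oks_reverse H X ε _ h2
  rwa [List.reverse_reverse] at h3

theorem fw_reverse (u : List Bool) : (fw u.reverse : List (Slot V)) = (fw u).reverse := by
  unfold fw
  rw [List.map_reverse]

theorem vx_reverse (u : List V) : (vx u.reverse : List (Slot V)) = (vx u).reverse := by
  unfold vx
  rw [List.map_reverse]

theorem srv : SrvStmt := by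
  intro V _ _ H X k ε K uL c uR h Z hZ
  obtain ⟨l, h1, h2, h3, h4⟩ := h Z hZ
  refine ⟨l.reverse, List.nodup_reverse.2 h1, fun v hv => h2 v (List.mem_reverse.1 hv), ?_, ?_⟩
  · rw [List.map_reverse, h3]
  · have h5 := okl_reverse H X k ε _ h4
    rw [List.reverse_append, List.reverse_append, ← fw_reverse, ← fw_reverse, ← vx_reverse,
      ← List.append_assoc] at h5
    exact h5

/-- complement of a slot -/
def cs : Slot V → Slot V := Sum.map id not

theorem fit_cs (X : Finset V) (s : Slot V) (w : V) : Fit Xᶜ (cs s) w ↔ Fit X s w := by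
  cases s with
  | inl v => rfl
  | inr b =>
    change (w ∈ Xᶜ ↔ (!b) = true) ↔ (w ∈ X ↔ b = true)
    rw [Finset.mem_compl]
    cases b <;> simp

theorem fr_cs (s : List (Slot V)) : fr (s.map cs) = fr s := by
  unfold fr
  rw [List.countP_map]
  congr 1
  funext x
  cases x <;> rfl

theorem forall2_cs (X : Finset V) (s : List (Slot V)) (e : List V) :
    List.Forall₂ (Fit Xᶜ) (s.map cs) e ↔ List.Forall₂ (Fit X) s e := by
  rw [List.forall₂_map_left_iff]
  constructor
  · intro h
    exact h.imp fun a b hab => (fit_cs X a b).1 hab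
  · intro h
    exact h.imp fun a b hab => (fit_cs X a b).2 hab

theorem badC_cs (H : Finset (Finset V)) (X : Finset V) (s : List (Slot V)) :
    BadC H Xᶜ (s.map cs) = BadC H X s := by
  ext e
  unfold BadC
  simp only [Set.mem_setOf_eq]
  rw [forall2_cs]

theorem okl_cs (H : Finset (Finset V)) (X : Finset V) (k : ℕ) (ε : ℝ) (L : List (Slot V))
    (h : OKl H X k ε L) : OKl H Xᶜ k ε (L.map cs) := by
  intro s hs hk
  obtain ⟨s', hs', rfl⟩ : ∃ s', s' <:+: L ∧ s'.map cs = s := by
    obtain ⟨t, u, htu⟩ := hs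
    obtain ⟨a, b, hab, h1, h2⟩ := List.map_eq_append_iff.1 htu.symm
    obtain ⟨a', b', hab', h3, h4⟩ := List.map_eq_append_iff.1 h1
    exact ⟨b', ⟨a', b, by rw [hab, hab']⟩, h4⟩
  rw [List.length_map] at hk
  have h2 := h s' hs' hk
  unfold OKs at *
  rw [badC_cs, fr_cs]
  exact h2

theorem fw_cs (u : List Bool) : ((fw u).map cs : List (Slot V)) = fw (u.map not) := by
  unfold fw
  rw [List.map_map, List.map_map]
  rfl

theorem vx_cs (u : List V) : ((vx u).map cs : List (Slot V)) = vx u := by
  unfold vx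
  rw [List.map_map]
  rfl

theorem sup_cs (H : Finset (Finset V)) (X : Finset V) (k : ℕ)
    (ε : ℝ) (K : ℕ) (uL c uR : List Bool) (h : Sup H X k ε K uL c uR) :
    Sup H Xᶜ k ε K (uL.map not) (c.map not) (uR.map not) := by
  intro Z hZ
  obtain ⟨l, h1, h2, h3, h4⟩ := h Z hZ
  refine ⟨l, h1, h2, ?_, ?_⟩
  · rw [← h3, List.map_map]
    refine List.map_congr_left fun v _ => ?_
    simp only [Function.comp, Finset.mem_compl, decide_not]
  · have h5 := okl_cs H X k ε _ h4
    rw [List.map_append, List.map_append, fw_cs, fw_cs, vx_cs] at h5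
    exact h5

theorem map_not_not (u : List Bool) : (u.map not).map not = u := by
  rw [List.map_map]
  have : (not ∘ not) = id := by
    funext b
    cases b <;> rfl
  rw [this, List.map_id]

theorem sco : ScoStmt := by
  intro V _ _ H X k ε K uL c uR
  constructor
  · exact sup_cs H X k ε K uL c uR
  · intro h
    have h2 := sup_cs H Xᶜ k ε K _ _ _ h
    rwa [compl_compl, map_not_not, map_not_not, map_not_not] at h2

theorem pl_len (H : Finset (Finset V)) (X : Finset V) (k p : ℕ)
    (ε : ℝ) (K : ℕ) (u v : List Bool) (N a q : ℕ) (h : Pl V H X k p ε K u v N a q) :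
    u.length = k - 1 ∧ v.length = k - 1 := by
  induction h with
  | nil h => exact ⟨h, h⟩
  | letter v N a q b _ _ ih =>
    refine ⟨ih.1, ?_⟩
    rw [List.length_tail, List.length_append, ih.2]
    simp
  | gadget v N a q c uR _ _ _ h3 _ ih => exact ⟨ih.1, h3⟩

theorem wt_not (u : List Bool) : wt (u.map not) + wt u = u.length := by
  unfold wt
  induction u with
  | nil => rfl
  | cons b u ih =>
    cases b
    · simp only [List.map_cons, Bool.not_false, List.count_cons_self, List.length_cons]
      rw [List.count_cons_of_ne (by decide)]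
      omega
    · simp only [List.map_cons, Bool.not_true, List.count_cons_self, List.length_cons]
      rw [List.count_cons_of_ne (by decide)]
      omega

theorem pco' (H : Finset (Finset V)) (X : Finset V) (k p : ℕ)
    (ε : ℝ) (K : ℕ) (u v : List Bool) (N a q : ℕ) (hk : 1 ≤ k) (hp : p < 2)
    (h : Pl V H X k p ε K u v N a q) : a ≤ N ∧
      Pl V H Xᶜ k ((k + p) % 2) ε K (u.map not) (v.map not) N (N - a) q := by
  induction h with
  | nil h =>
    refine ⟨le_refl _, Pl.nil _ ?_⟩
    rw [List.length_map]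
    exact h
  | letter v N a q b hpl hw ih =>
    obtain ⟨ih1, ih2⟩ := ih
    have hl := pl_len H X k p ε K _ _ _ _ _ hpl
    have hb := wt_not [b]
    have hvb := wt_not (v ++ [b])
    simp only [List.length_cons, List.length_nil, List.length_append] at hb hvb
    have h3 := Pl.letter _ _ _ _ _ (!b) ih2 (by
      have e : v.map not ++ [!b] = (v ++ [b]).map not := by
        rw [List.map_append]
        rfl
      rw [e]
      omega)
    have e1 : N + 1 - (a + wt [b]) = N - a + wt [!b] := by
      have e2 : wt ([b].map not) = wt [!b] := rfl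
      omega
    refine ⟨by omega, ?_⟩
    rw [e1, List.map_tail, List.map_append]
    exact h3
  | gadget v N a q c uR hpl h1 h2 h3 hS ih =>
    obtain ⟨ih1, ih2⟩ := ih
    have hc := wt_not c
    have huR := wt_not uR
    have h4 := Pl.gadget _ _ _ _ _ (c.map not) (uR.map not) ih2 (by rw [List.length_map]; exact h1)
      (by rw [List.length_map]; exact h2) (by rw [List.length_map]; exact h3)
      (sup_cs H X k ε K _ _ _ hS)
    rw [List.length_map] at h4
    have e1 : N + c.length + (k - 1) - (a + wt c + wt uR) =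
        N - a + wt (c.map not) + wt (uR.map not) := by omega
    refine ⟨by omega, ?_⟩
    rw [e1]
    exact h4

theorem pco : PcoStmt := by
  intro V _ _ H X k p ε K u v N a q hk hp h
  exact pco' H X k p ε K u v N a q hk hp h

end Pool.Agent.KK.H42
end

/-! ### Helper61_KK.HLO -/
section
/-!
# KK, row HLO: lowering a height function
-/

set_option autoImplicit false

namespace Pool.Agent.KK.H61

open Pool.Agent.KK

theorem Hgt.mul {k t : ℕ} {h : ℤ → ℤ} (hh : Hgt k t h) (x m : ℤ) :
    h (x + k * m) = h x + t * m := by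
  have hn : ∀ (n : ℕ) (x : ℤ), h (x + k * n) = h x + t * n := by
    intro n
    induction n with
    | zero => intro x; simp
    | succ n ih =>
      intro x
      have e : x + (k : ℤ) * ((n + 1 : ℕ) : ℤ) = (x + k * n) + k := by push_cast; ring
      rw [e, hh.2, ih]; push_cast; ring
  rcases Int.eq_nat_or_neg m with ⟨n, rfl | rfl⟩
  · exact hn n x
  · have := hn n (x + k * (-(n : ℤ)))
    have e : x + (k : ℤ) * (-(n : ℤ)) + k * n = x := by ring
    rw [e] at this
    linarith

theorem hlo : HloStmt := by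
  intro k t h h' ht0 htk hh hh' hle ⟨x0, hx0⟩
  have hk : 0 < k := lt_trans ht0 htk
  have hkz : (0 : ℤ) < k := by exact_mod_cast hk
  -- maximum of `h - h'`
  obtain ⟨xm, hxm, hmax⟩ := Finset.exists_max_image (Finset.Ico (0 : ℤ) k) (fun x => h x - h' x)
    ⟨0, by simp [hk]⟩
  have hper : ∀ x m : ℤ, h (x + k * m) - h' (x + k * m) = h x - h' x := by
    intro x m; rw [Hgt.mul hh, Hgt.mul hh']; ring
  have hred : ∀ x : ℤ, h x - h' x = h (x % k) - h' (x % k) := by
    intro x
    have := hper (x % k) (x / k)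
    rw [Int.emod_add_mul_ediv] at this
    exact this
  have hM : ∀ x : ℤ, h x - h' x ≤ h xm - h' xm := by
    intro x
    rw [hred x]
    exact hmax _ (by simp [Int.emod_nonneg _ hkz.ne', Int.emod_lt_of_pos _ hkz])
  set M := h xm - h' xm with hMdef
  have hMpos : 0 < M := by
    have h1 := hM x0
    have h2 := hle x0
    have h3 : h' x0 < h x0 := lt_of_le_of_ne h2 hx0
    linarith
  -- step to the right
  have hstepR : ∀ x, h x - h' x = M → h (x + 1) = h x + 1 → h (x + 1) - h' (x + 1) = M := by
    intro x hx h1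
    have h2 := hM (x + 1)
    rcases hh'.1 x with h3 | h3 <;> linarith
  have hex1 : ∃ x, h x - h' x = M ∧ h (x + 1) = h x := by
    by_contra hcon
    push Not at hcon
    have key : ∀ n : ℕ, h (xm + n) - h' (xm + n) = M ∧ h (xm + n) = h xm + n := by
      intro n
      induction n with
      | zero => simp [hMdef]
      | succ n ih =>
        have h1 := hcon (xm + n) ih.1
        have h2 : h (xm + n + 1) = h (xm + n) + 1 := (hh.1 (xm + n)).resolve_left h1
        have h3 := hstepR _ ih.1 h2
        have e : xm + ((n + 1 : ℕ) : ℤ) = xm + n + 1 := by push_cast; ring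
        rw [e]
        refine ⟨h3, ?_⟩
        rw [h2, ih.2]; push_cast; ring
    have h1 := (key k).2
    rw [hh.2] at h1
    have : (t : ℤ) = k := by linarith
    have : t = k := by exact_mod_cast this
    omega
  obtain ⟨x1, hx1, hx1'⟩ := hex1
  have hstepL : ∀ x, h x - h' x = M → h x = h (x - 1) → h (x - 1) - h' (x - 1) = M := by
    intro x hx h1
    have h2 := hM (x - 1)
    have h4 := hh'.1 (x - 1)
    rw [sub_add_cancel] at h4
    rcases h4 with h3 | h3 <;> linarith
  have hex2 : ∃ x, h x - h' x = M ∧ h (x + 1) = h x ∧ h x = h (x - 1) + 1 := by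
    by_contra hcon
    push Not at hcon
    have key : ∀ n : ℕ, h (x1 - n) - h' (x1 - n) = M ∧ h (x1 - n + 1) = h (x1 - n) ∧
        h (x1 - n) = h x1 := by
      intro n
      induction n with
      | zero => simp [hx1, hx1']
      | succ n ih =>
        have h1 := hcon (x1 - n) ih.1 ih.2.1
        have h4 := hh.1 (x1 - n - 1)
        rw [sub_add_cancel] at h4
        have h2 : h (x1 - n) = h (x1 - n - 1) := h4.resolve_right h1
        have h3 := hstepL _ ih.1 h2
        have e : x1 - ((n + 1 : ℕ) : ℤ) = x1 - n - 1 := by push_cast; ring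
        rw [e]
        refine ⟨h3, ?_, ?_⟩
        · rw [sub_add_cancel]; exact h2
        · rw [← h2, ih.2.2]
    have h1 := (key k).2.2
    have h2 := hh.2 (x1 - k)
    rw [sub_add_cancel, h1] at h2
    have : (t : ℤ) = 0 := by linarith
    have : t = 0 := by exact_mod_cast this
    omega
  obtain ⟨x2, hx2, hx2r, hx2l⟩ := hex2
  -- reduce mod `k`
  have hc0 : 0 ≤ x2 % k := Int.emod_nonneg _ hkz.ne'
  have hc1 : x2 % k < k := Int.emod_lt_of_pos _ hkz
  obtain ⟨c, hc⟩ := Int.eq_ofNat_of_zero_le hc0
  have hx2e : x2 = (c : ℤ) + k * (x2 / k) := by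
    have := Int.emod_add_mul_ediv x2 k
    rw [hc] at this
    exact this.symm
  have hck : c < k := by
    have : (c : ℤ) < k := by rw [← hc]; exact hc1
    exact_mod_cast this
  set m := x2 / (k : ℤ) with hm
  have hA : h c - h' c = M := by
    rw [hx2e, hper] at hx2; exact hx2
  have hB : h ((c : ℤ) + 1) = h c := by
    have e : x2 + 1 = ((c : ℤ) + 1) + k * m := by rw [hx2e]; ring
    rw [e, Hgt.mul hh] at hx2r
    rw [hx2e, Hgt.mul hh] at hx2r
    linarith
  have hC : h c = h ((c : ℤ) - 1) + 1 := by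
    have e : x2 - 1 = ((c : ℤ) - 1) + k * m := by rw [hx2e]; ring
    rw [e, Hgt.mul hh] at hx2l
    rw [hx2e, Hgt.mul hh] at hx2l
    linarith
  refine ⟨c, hck, hC, hB, ⟨?_, ?_⟩, ?_⟩
  · intro x
    by_cases h1 : (k : ℤ) ∣ x - c
    · have h2 : ¬ (k : ℤ) ∣ x + 1 - c := by
        intro h2
        have h3 : (k : ℤ) ∣ 1 := by
          have := dvd_sub h2 h1
          have e : x + 1 - c - (x - c) = 1 := by ring
          rwa [e] at this
        have h4 := Int.le_of_dvd one_pos h3
        have : k ≤ 1 := by exact_mod_cast h4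
        omega
      simp only [h1, h2, if_true, if_false]
      obtain ⟨m', hm'⟩ := h1
      have e1 : x = c + k * m' := by linarith
      have e2 : x + 1 = (c + 1) + k * m' := by linarith
      right
      rw [e2, Hgt.mul hh, hB, e1, Hgt.mul hh]; ring
    · by_cases h2 : (k : ℤ) ∣ x + 1 - c
      · simp only [h1, h2, if_true, if_false]
        obtain ⟨m', hm'⟩ := h2
        have e1 : x = (c - 1) + k * m' := by linarith
        have e2 : x + 1 = c + k * m' := by linarith
        left
        rw [e2, Hgt.mul hh, e1, Hgt.mul hh, hC]; ring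
      · simp only [h1, h2, if_false]
        exact hh.1 x
  · intro x
    have h1 : (k : ℤ) ∣ x + k - c ↔ (k : ℤ) ∣ x - c := by
      have e : x + k - c = (x - c) + k := by ring
      rw [e]; exact dvd_add_self_right
    by_cases h2 : (k : ℤ) ∣ x - c
    · simp only [h1, h2, if_true]; rw [hh.2]; ring
    · simp only [h1, h2, if_false]; rw [hh.2]
  · intro x
    by_cases h2 : (k : ℤ) ∣ x - c
    · simp only [h2, if_true]
      obtain ⟨m', hm'⟩ := h2
      have e1 : x = c + k * m' := by linarith
      have := hper c m'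
      rw [← e1] at this
      linarith
    · simp only [h2, if_false]; exact hle x

end Pool.Agent.KK.H61
end

/-! ### Helper61_KK.HWD -/
section
/-!
# KK, row HWD: words and heights
-/

set_option autoImplicit false

namespace Pool.Agent.KK.H61

open Pool.Agent.KK

theorem wt_wd_aux (h : ℤ → ℤ) (h1 : ∀ x, h (x + 1) = h x ∨ h (x + 1) = h x + 1) (n : ℕ) :
    ((wt ((List.range n).map fun i : ℕ => decide (h ((i : ℤ) + 1) = h (i : ℤ) + 1)) : ℕ) : ℤ) =
      h n - h 0 := by
  induction n with
  | zero => simp [wt]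
  | succ n ih =>
    unfold wt at ih ⊢
    rw [List.range_succ, List.map_append, List.count_append]
    push_cast
    rw [ih]
    rcases h1 n with h2 | h2
    · have h3 : ¬ h (n : ℤ) = h (n : ℤ) + 1 := by linarith
      simp [h2]
    · simp [h2]; ring

theorem wt_take_succ (W : List Bool) (r : ℕ) (hr : r < W.length) :
    wt (W.take (r + 1)) = wt (W.take r) + if W[r] = true then 1 else 0 := by
  unfold wt
  rw [List.take_succ_eq_append_getElem hr, List.count_append]
  congr 1
  cases W[r] <;> simp

/-- the word of a height function without the implicit coercion of lists -/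
theorem wd_eq (k : ℕ) (h : ℤ → ℤ) :
    wd k h = (List.range k).map fun i : ℕ => decide (h ((i : ℤ) + 1) = h (i : ℤ) + 1) := by
  unfold wd
  simp [List.bind_eq_flatMap, List.pure_def, List.map_eq_flatMap, List.flatMap_assoc]

theorem hwd : HwdStmt := by
  refine ⟨?_, ?_⟩
  · intro k t h hh
    refine ⟨by simp [wd_eq], ?_⟩
    have h1 := wt_wd_aux h hh.1 k
    have h2 := hh.2 0
    rw [zero_add] at h2
    rw [wd_eq]
    rw [h2] at h1
    have : ((wt ((List.range k).map fun i : ℕ => decide (h ((i : ℤ) + 1) = h (i : ℤ) + 1)) : ℕ) : ℤ)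
        = (t : ℤ) := by rw [h1]; ring
    exact_mod_cast this
  · intro W hW
    have hkz : (0 : ℤ) < W.length := by exact_mod_cast hW
    set k := W.length with hk
    set h : ℤ → ℤ := fun x => (x / k) * wt W + wt (W.take (x % k).toNat) with hdef
    have hr0 : ∀ x : ℤ, 0 ≤ x % k := fun x => Int.emod_nonneg _ hkz.ne'
    have hr1 : ∀ x : ℤ, x % k < k := fun x => Int.emod_lt_of_pos _ hkz
    have hrn : ∀ x : ℤ, (x % k).toNat < W.length := by
      intro x
      have := hr0 x; have := hr1 x
      omega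
    have hsucc : ∀ x : ℤ, h (x + 1) = h x + if W[(x % k).toNat]'(hrn x) = true then 1 else 0 := by
      intro x
      have e1 : h (x + 1) = (x / k) * wt W + wt (W.take ((x % k).toNat + 1)) := by
        have h2 := Int.emod_add_mul_ediv x k
        rcases lt_or_ge (x % k + 1) (k : ℤ) with h3 | h3
        · have e2 : (x + 1) / k = x / k := by
            have : x + 1 = (x % k + 1) + k * (x / k) := by linarith
            rw [this, Int.add_mul_ediv_left _ _ hkz.ne',
              Int.ediv_eq_zero_of_lt (by linarith [hr0 x]) h3]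
            ring
          have e3 : (x + 1) % k = x % k + 1 := by
            have : x + 1 = (x % k + 1) + k * (x / k) := by linarith
            rw [this, Int.add_mul_emod_self_left, Int.emod_eq_of_lt (by linarith [hr0 x]) h3]
          simp only [hdef, e2, e3]
          congr 3
          have := hr0 x
          congr 1
          omega
        · have h3' : x % k + 1 = k := le_antisymm (by linarith [hr1 x]) h3
          have h5 : x + 1 = k * (x / k + 1) := by linarith
          have e2 : (x + 1) / k = x / k + 1 := by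
            rw [h5, Int.mul_ediv_cancel_left _ hkz.ne']
          have e3 : (x + 1) % k = 0 := by
            rw [h5]; exact Int.mul_emod_right _ _
          have e4 : W.take ((x % k).toNat + 1) = W := by
            apply List.take_of_length_le
            have := hr0 x
            omega
          simp only [hdef, e2, e3, e4]
          simp [wt]
          ring
      rw [e1, wt_take_succ W _ (hrn x)]
      simp only [hdef]
      push_cast
      ring
    have hper : ∀ x : ℤ, h (x + k) = h x + wt W := by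
      intro x
      have e2 : (x + k) / k = x / k + 1 := Int.add_ediv_of_dvd_right (dvd_refl _) |>.trans (by
        rw [Int.ediv_self hkz.ne'])
      have e3 : (x + k) % k = x % k := by simp
      simp only [hdef, e2, e3]
      ring
    refine ⟨h, ⟨?_, hper⟩, ?_, ?_, ?_⟩
    · intro x
      rw [hsucc]
      split_ifs
      · right; rfl
      · left; ring
    · apply List.ext_getElem
      · simp [wd_eq, hk]
      · intro i h1 h2
        simp only [wd_eq, List.getElem_map, List.getElem_range]
        rw [hsucc]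
        have e : ((i : ℤ) % k).toNat = i := by
          rw [Int.emod_eq_of_lt (by positivity) (by exact_mod_cast h2)]
          simp
        simp only [e]
        cases hW : W[i] <;> simp
    · simp [hdef, wt]
    · intro x hx0 hx1
      have e1 : x / k = 0 := Int.ediv_eq_zero_of_lt hx0 hx1
      simp only [hdef, e1]
      refine ⟨by positivity, ?_⟩
      have h2 : wt (W.take (x % k).toNat) ≤ wt W := by
        unfold wt
        exact (List.take_sublist _ _).count_le _
      have : ((wt (W.take (x % k).toNat) : ℕ) : ℤ) ≤ (wt W : ℕ) := by exact_mod_cast h2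
      linarith

end Pool.Agent.KK.H61
end

/-! ### Helper61_KK.RCO -/
section
/-!
# KK, row RCO: all words of a level with right moves are connected, with both parities
-/

set_option autoImplicit false

namespace Pool.Agent.KK.H61

open Pool.Agent.KK

theorem Hgt.sub_const {k t : ℕ} {h : ℤ → ℤ} (hh : Hgt k t h) (s : ℤ) :
    Hgt k t (fun x => h x - s) := by
  refine ⟨?_, ?_⟩
  · intro x
    rcases hh.1 x with h1 | h1
    · left; simp only [h1]
    · right; simp only [h1]; ring
  · intro x
    simp only [hh.2]; ring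

theorem wd_sub_const (k : ℕ) (h : ℤ → ℤ) (s : ℤ) : wd k (fun x => h x - s) = wd k h := by
  rw [wd_eq, wd_eq]
  apply List.map_congr_left
  intro i _
  simp only [decide_eq_decide]
  constructor <;> intro h1 <;> linarith

theorem rcon (hRch : RchStmt) : RconStmt := by
  intro V _ _ H X k p t ε K W W' δ hk ht0 htk htp hR hW hW' hwW hwW' hδ
  obtain ⟨h, hh, hwd1, h0, hb⟩ := hwd.2 W (by omega)
  obtain ⟨h', hh', hwd', h0', hb'⟩ := hwd.2 W' (by omega)
  rw [hW, hwW] at hh
  rw [hW', hwW'] at hh'
  rw [hW] at hwd1 hb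
  rw [hW'] at hwd' hb'
  rw [hwW] at hb
  rw [hwW'] at hb'
  have hkz : (0 : ℤ) < k := by exact_mod_cast (by omega : 0 < k)
  have hkz2 : (2 : ℤ) ≤ k := by exact_mod_cast hk
  have htz : (t : ℤ) + 1 ≤ k := by exact_mod_cast htk
  have ht0z : (0 : ℤ) ≤ t := by positivity
  -- the shift
  have key : ∀ s : ℕ, t ≤ s → s ≤ t + 1 → ∃ M a e q : ℕ, q ≤ 2 * k ^ 2 ∧ M ≤ 6 * k ^ 2 ∧
      a + e = t * M ∧ e ≤ 2 * k ∧ (e : ℤ) = h ((k : ℤ) - 1) - h' ((k : ℤ) - 1) + s ∧
      Pl V H X k p ε K (per W 0 (k - 1)) (per W' 0 (k - 1)) (k * M) a q := by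
    intro s hs1 hs2
    have hs1z : (t : ℤ) ≤ s := by exact_mod_cast hs1
    have hs2z : (s : ℤ) ≤ t + 1 := by exact_mod_cast hs2
    have hle : ∀ x, (fun x => h' x - (s : ℤ)) x ≤ h x := by
      intro x
      have e := Int.emod_add_mul_ediv x k
      have hr0 : 0 ≤ x % k := Int.emod_nonneg _ hkz.ne'
      have hr1 : x % k < k := Int.emod_lt_of_pos _ hkz
      have h1 := Hgt.mul hh (x % k) (x / k)
      have h2 := Hgt.mul hh' (x % k) (x / k)
      rw [e] at h1 h2
      have h3 := (hb _ hr0 hr1).1
      have h4 := (hb' _ hr0 hr1).2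
      simp only
      rw [h1, h2]
      linarith
    obtain ⟨D, a, hD, ha, hP⟩ := hRch V H X k p t ε K h (fun x => h' x - (s : ℤ)) hk ht0 htk htp hR
      hh (Hgt.sub_const hh' s) hle
    rw [wd_sub_const, hwd1, hwd'] at hP
    have hk1 : (0 : ℤ) ≤ (k : ℤ) - 1 := by linarith
    have hk2 : (k : ℤ) - 1 < k := by linarith
    have b1 := hb _ hk1 hk2
    have b2 := hb' _ hk1 hk2
    have he0 : 0 ≤ h ((k : ℤ) - 1) - h' ((k : ℤ) - 1) + s := by linarith
    obtain ⟨e, he⟩ := Int.eq_ofNat_of_zero_le he0
    have hDle : (D : ℤ) ≤ k * (2 * k) := by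
      rw [hD]
      calc ∑ x ∈ Finset.range k, (h x - (h' x - (s : ℤ)))
          ≤ ∑ x ∈ Finset.range k, (2 * (k : ℤ)) := by
            apply Finset.sum_le_sum
            intro x hx
            have hx' : x < k := Finset.mem_range.mp hx
            have c1 := hb (x : ℤ) (by positivity) (by exact_mod_cast hx')
            have c2 := hb' (x : ℤ) (by positivity) (by exact_mod_cast hx')
            linarith
        _ = k * (2 * k) := by
            rw [Finset.sum_const, Finset.card_range, nsmul_eq_mul]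
    have hDn : D ≤ 2 * k ^ 2 := by
      have : (D : ℤ) ≤ ((2 * k ^ 2 : ℕ) : ℤ) := by
        push_cast; nlinarith
      exact_mod_cast this
    refine ⟨3 * D, a, e, D, hDn, by omega, ?_, ?_, by rw [he], ?_⟩
    · have : ((a + e : ℕ) : ℤ) = ((t * (3 * D) : ℕ) : ℤ) := by
        push_cast
        rw [ha, ← he]
        ring
      exact_mod_cast this
    · have : (e : ℤ) ≤ ((2 * k : ℕ) : ℤ) := by
        rw [← he]; push_cast; linarith
      exact_mod_cast this
    · have e1 : k * (3 * D) = 3 * k * D := by ring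
      rw [e1]; exact hP
  obtain ⟨M, a, e, q, c1, c2, c3, c4, c5, c6⟩ := key t le_rfl (by omega)
  obtain ⟨M', a', e', q', c1', c2', c3', c4', c5', c6'⟩ := key (t + 1) (by omega) le_rfl
  have hee : e' = e + 1 := by
    have : (e' : ℤ) = e + 1 := by
      rw [c5, c5']; push_cast; ring
    exact_mod_cast this
  by_cases hpar : e % 2 = δ
  · exact ⟨M, a, e, q, c1, c2, c3, c4, hpar, c6⟩
  · exact ⟨M', a', e', q', c1', c2', c3', c4', by omega, c6'⟩

end Pool.Agent.KK.H61
end

/-! ### Helper65_KK.LOR -/
section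
/-!
# Squad KK, row LOR: loops from right moves
-/

set_option autoImplicit false

open scoped BigOperators

namespace Pool.Agent.KK.H65L

open Pool.Agent.KK

theorem wt_le (u : List Bool) : wt u ≤ u.length := List.count_le_length

theorem wt_append (u v : List Bool) : wt (u ++ v) = wt u + wt v := List.count_append

theorem wt_reverse (u : List Bool) : wt u.reverse = wt u := List.count_reverse

theorem pl_le {V : Type} [Fintype V] [DecidableEq V] {H : Finset (Finset V)} {X : Finset V}
    {k p : ℕ} {ε : ℝ} {K : ℕ} {u v : List Bool} {N a q : ℕ} (h : Pl V H X k p ε K u v N a q) :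
    a ≤ N := by
  induction h with
  | nil _ => exact le_rfl
  | letter v N a q b _ _ ih =>
    have h1 := wt_le [b]
    simp only [List.length_cons, List.length_nil] at h1
    omega
  | gadget v N a q c uR _ _ _ h3 _ ih =>
    have h1 := wt_le c
    have h2 := wt_le uR
    omega

theorem per_mod (w : List Bool) (a m : ℕ) : per w (a % w.length) m = per w a m := by
  unfold per
  refine List.map_congr_left fun i _ => ?_
  rw [Nat.mod_add_mod]

theorem exists_res {k C r : ℕ} (hk : 0 < k) (hr : r < k) : ∃ ρ < k, (C + ρ) % k = r := by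
  have h0 := Nat.mod_lt C hk
  have h1 := Nat.div_add_mod C k
  by_cases h : C % k ≤ r
  · refine ⟨r - C % k, by omega, ?_⟩
    have h2 : C + (r - C % k) = k * (C / k) + r := by omega
    rw [h2, Nat.mul_add_mod, Nat.mod_eq_of_lt hr]
  · refine ⟨r + k - C % k, by omega, ?_⟩
    have h2 : C + (r + k - C % k) = k * (C / k + 1) + r := by
      rw [mul_add, mul_one]
      omega
    rw [h2, Nat.mul_add_mod, Nat.mod_eq_of_lt hr]

/-- the bound -/
def BB (k : ℕ) : ℕ := 12 * k ^ 3 + 9 * k + 4 * k ^ 2 + 2

section core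

variable {V : Type} [Fintype V] [DecidableEq V] {H : Finset (Finset V)} {X : Finset V}
  {k p : ℕ} {ε : ℝ} {K : ℕ}

/-- rotation of a word -/
theorem rot (per_ : PerStmt) (pwt : PwtStmt) {w : List Bool} (hk : 1 ≤ k) (hw : w.length = k)
    (hp : wt w % 2 = p) (ρ : ℕ) : ∃ a, Pl V H X k p ε K (per w 0 (k - 1))
      (per (per w ρ k) 0 (k - 1)) ρ a 0 ∧ (per w ρ k).length = k ∧ wt (per w ρ k) = wt w := by
  obtain ⟨h1, h2, h3, h4, h5, h6, h7⟩ := pwt
  have h := per_ V H X k p ε K w 0 ρ hk hw hp
  have e1 : per (per w ρ k) 0 (k - 1) = per w (0 + ρ) (k - 1) := by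
    have := h5 w ρ 0 (k - 1) (by omega)
    rw [hw] at this
    rw [this, add_zero, zero_add]
  have e2 : wt (per w ρ k) = wt w := by
    have := h1 w ρ
    rw [hw] at this
    exact this
  rw [← e1] at h
  exact ⟨_, h, h3 w ρ k, e2⟩

theorem core_s (rcon : RconStmt) (per_ : PerStmt) (tra : TraStmt) (pwt : PwtStmt)
    {s j : ℕ} {S W₁ W₂ : List Bool} {Nu au Nd ad : ℕ} (hk : 3 ≤ k) (hs : s + 1 = j)
    (hjk : j + 2 ≤ k) (hjp : (j + 1) % 2 = p) (hR : RMoves H X k ε K (j + 1))
    (hW₁ : W₁.length = k) (hW₂ : W₂.length = k) (hw₁ : wt W₁ = j + 1) (hw₂ : wt W₂ = j + 1)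
    (hU : Pl V H X k p ε K S (per W₁ 0 (k - 1)) Nu au 1)
    (hD : Pl V H X k p ε K (per W₂ 0 (k - 1)) S Nd ad 1) (hNu : Nu ≤ 4 * k) (hNd : Nd ≤ 4 * k)
    (r δ : ℕ) (hr : r < k) (hδ : δ < 2) :
    ∃ N₁ a₁ q₁ N₂ a₂ q₂ : ℕ, N₁ + N₂ ≤ BB k ∧ q₁ + q₂ ≤ BB k ∧
      a₁ + a₂ ≤ BB k ∧ (N₁ + N₂) % k = r ∧ (a₁ + a₂ + s * ((N₁ + N₂) / k)) % 2 = δ ∧
      Pl V H X k p ε K S (per W₁ 0 (k - 1)) N₁ a₁ q₁ ∧
      Pl V H X k p ε K (per W₁ 0 (k - 1)) S N₂ a₂ q₂ := by
  have hk0 : 0 < k := by omega
  obtain ⟨ρ, hρk, hρ⟩ := exists_res (C := Nu + Nd) hk0 hr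
  obtain ⟨aρ, hrot, hl, hwt⟩ := rot (V := V) (H := H) (X := X) (p := p) (ε := ε) (K := K) per_ pwt
    (w := W₁) (by omega) hW₁ (by rw [hw₁]; exact hjp) ρ
  obtain ⟨M, a, e, q, hq, hM, hae, he, heδ, hpl⟩ := rcon V H X k p (j + 1) ε K (per W₁ ρ k) W₂
    ((au + ad + aρ + s * ((Nu + Nd + ρ) / k) + δ) % 2) (by omega) (by omega) (by omega) hjp hR hl
    hW₂ (by rw [hwt, hw₁]) hw₂ (Nat.mod_lt _ (by norm_num))
  have hback := tra V H X k p ε K _ _ _ _ _ _ _ _ _ hrot
    (tra V H X k p ε K _ _ _ _ _ _ _ _ _ hpl hD)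
  have hMk : k * M ≤ 6 * k ^ 3 := by
    calc k * M ≤ k * (6 * k ^ 2) := Nat.mul_le_mul_left _ hM
      _ = 6 * k ^ 3 := by ring
  have hN : Nu + (ρ + (k * M + Nd)) ≤ BB k := by
    unfold BB
    have : 0 ≤ k ^ 3 := Nat.zero_le _
    have : 0 ≤ k ^ 2 := Nat.zero_le _
    omega
  have hqq : 1 + (0 + (q + 1)) ≤ BB k := by
    unfold BB
    omega
  have ha1 := pl_le hU
  have ha2 := pl_le hback
  refine ⟨Nu, au, 1, _, _, _, hN, hqq, by omega, ?_, ?_, hU, hback⟩
  · have e1 : Nu + (ρ + (k * M + Nd)) = k * M + (Nu + Nd + ρ) := by ring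
    rw [e1, Nat.mul_add_mod, hρ]
  · have e1 : Nu + (ρ + (k * M + Nd)) = (Nu + Nd + ρ) + k * M := by ring
    rw [e1, Nat.add_mul_div_left _ _ hk0]
    obtain ⟨D, hDd⟩ : ∃ D, D = (Nu + Nd + ρ) / k := ⟨_, rfl⟩
    rw [← hDd] at heδ ⊢
    obtain ⟨P, hP⟩ : ∃ P, P = s * M := ⟨_, rfl⟩
    have h1 : (j + 1) * M = P + 2 * M := by
      rw [hP, ← hs]
      ring
    have h2 : s * (D + M) = s * D + P := by rw [hP]; ring
    rw [h2]
    rw [h1] at hae
    omega

theorem core_t (rcon : RconStmt) (per_ : PerStmt) (tra : TraStmt) (pwt : PwtStmt)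
    {s j : ℕ} {S W₁ W₂ T : List Bool} {Nu au Nd ad : ℕ} (hk : 3 ≤ k) (hs : s + 1 = j)
    (hjk : j + 2 ≤ k) (hjp : (j + 1) % 2 = p) (hR : RMoves H X k ε K (j + 1))
    (hW₁ : W₁.length = k) (hW₂ : W₂.length = k) (hw₁ : wt W₁ = j + 1) (hw₂ : wt W₂ = j + 1)
    (hT : T.length = k) (hwT : wt T = j + 1)
    (hU : Pl V H X k p ε K S (per W₁ 0 (k - 1)) Nu au 1)
    (hD : Pl V H X k p ε K (per W₂ 0 (k - 1)) S Nd ad 1) (hNu : Nu ≤ 4 * k) (hNd : Nd ≤ 4 * k)
    (r δ : ℕ) (hr : r < k) (hδ : δ < 2) :
    ∃ N₁ a₁ q₁ N₂ a₂ q₂ : ℕ, N₁ + N₂ ≤ BB k ∧ q₁ + q₂ ≤ BB k ∧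
      a₁ + a₂ ≤ BB k ∧ (N₁ + N₂) % k = r ∧ (a₁ + a₂ + (j + 1) * ((N₁ + N₂) / k)) % 2 = δ ∧
      Pl V H X k p ε K (per T 0 (k - 1)) S N₁ a₁ q₁ ∧
      Pl V H X k p ε K S (per T 0 (k - 1)) N₂ a₂ q₂ := by
  have hk0 : 0 < k := by omega
  obtain ⟨ρ, hρk, hρ⟩ := exists_res (C := Nu + Nd) hk0 hr
  obtain ⟨aρ, hrot, hl, hwt⟩ := rot (V := V) (H := H) (X := X) (p := p) (ε := ε) (K := K) per_ pwt
    (w := W₁) (by omega) hW₁ (by rw [hw₁]; exact hjp) ρ
  obtain ⟨M', a', e', q', hq', hM', hae', he', heδ', hpl'⟩ := rcon V H X k p (j + 1) ε K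
    (per W₁ ρ k) T 0 (by omega) (by omega) (by omega) hjp hR hl
    hT (by rw [hwt, hw₁]) hwT (by norm_num)
  obtain ⟨M, a, e, q, hq, hM, hae, he, heδ, hpl⟩ := rcon V H X k p (j + 1) ε K T W₂
    ((au + ad + aρ + (j + 1) * ((Nu + Nd + ρ) / k) + δ) % 2) (by omega) (by omega) (by omega) hjp
    hR hT hW₂ hwT hw₂ (Nat.mod_lt _ (by norm_num))
  have hdown := tra V H X k p ε K _ _ _ _ _ _ _ _ _ hpl hD
  have hup := tra V H X k p ε K _ _ _ _ _ _ _ _ _ hU
    (tra V H X k p ε K _ _ _ _ _ _ _ _ _ hrot hpl')
  have hMk : k * M ≤ 6 * k ^ 3 := by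
    calc k * M ≤ k * (6 * k ^ 2) := Nat.mul_le_mul_left _ hM
      _ = 6 * k ^ 3 := by ring
  have hMk' : k * M' ≤ 6 * k ^ 3 := by
    calc k * M' ≤ k * (6 * k ^ 2) := Nat.mul_le_mul_left _ hM'
      _ = 6 * k ^ 3 := by ring
  have hN : k * M + Nd + (Nu + (ρ + k * M')) ≤ BB k := by
    unfold BB
    omega
  have hqq : q + 1 + (1 + (0 + q')) ≤ BB k := by
    unfold BB
    omega
  have ha1 := pl_le hdown
  have ha2 := pl_le hup
  refine ⟨_, _, _, _, _, _, hN, hqq, by omega, ?_, ?_, hdown, hup⟩
  · have e1 : k * M + Nd + (Nu + (ρ + k * M')) = k * (M + M') + (Nu + Nd + ρ) := by ring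
    rw [e1, Nat.mul_add_mod, hρ]
  · have e1 : k * M + Nd + (Nu + (ρ + k * M')) = (Nu + Nd + ρ) + k * (M + M') := by ring
    rw [e1, Nat.add_mul_div_left _ _ hk0]
    obtain ⟨D, hDd⟩ : ∃ D, D = (Nu + Nd + ρ) / k := ⟨_, rfl⟩
    rw [← hDd] at heδ ⊢
    obtain ⟨P, hP⟩ : ∃ P, P = (j + 1) * M := ⟨_, rfl⟩
    obtain ⟨P', hP'⟩ : ∃ P', P' = (j + 1) * M' := ⟨_, rfl⟩
    have h2 : (j + 1) * (D + (M + M')) = (j + 1) * D + P + P' := by rw [hP, hP']; ring
    rw [h2]
    rw [← hP] at hae
    rw [← hP'] at hae'
    omega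

end core

theorem lor (rcon : RconStmt) (per_ : PerStmt) (tra : TraStmt) (srv : SrvStmt) (blr : BlrStmt)
    (pwt : PwtStmt) (glu : GluStmt) : LorStmt := by
  intro k hk
  obtain ⟨K₀, hB, hglu⟩ := glu k (BB k) (by omega)
  refine ⟨K₀, ?_⟩
  intro V _ _ H X p ε K j hj hjk' hjp hKR
  obtain ⟨hjk, hR, α, c, uR, hc1, hc2, huR, hwR, hSup⟩ := hKR
  obtain ⟨s, hs⟩ : ∃ s, s + 1 = j := ⟨j - 1, by omega⟩
  have hjs : j - 1 = s := by omega
  rw [hjs] at hSup ⊢
  have hsp : s % 2 = p := by omega
  have hblk := blr k s (by omega) (by omega)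
  have hblkT := blr k (j + 1) (by omega) (by omega)
  obtain ⟨hrev, -, hlen, hwt⟩ := hblk
  obtain ⟨-, -, hlenT, hwtT⟩ := hblkT
  have hk1 : 1 ≤ k := by omega
  -- the words of level `j + 1`
  obtain ⟨b, hb⟩ : ∃ b : Bool, wt uR + wt [b] = j + 1 := by
    rcases hwR with h | h
    · refine ⟨true, ?_⟩
      have : wt [true] = 1 := rfl
      omega
    · refine ⟨false, ?_⟩
      have : wt [false] = 0 := rfl
      omega
  have hW₁ : (uR ++ [b]).length = k := by
    rw [List.length_append, huR, List.length_singleton]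
    omega
  have hW₂ : (uR.reverse ++ [b]).length = k := by
    rw [List.length_append, List.length_reverse, huR, List.length_singleton]
    omega
  have hw₁ : wt (uR ++ [b]) = j + 1 := by rw [wt_append]; exact hb
  have hw₂ : wt (uR.reverse ++ [b]) = j + 1 := by rw [wt_append, wt_reverse]; exact hb
  have hp₁ : per (uR ++ [b]) 0 (k - 1) = uR := by
    rw [pwt.2.2.2.2.2.1 _ _ (by omega), ← huR, List.take_left']
    rfl
  have hp₂ : per (uR.reverse ++ [b]) 0 (k - 1) = uR.reverse := by
    rw [pwt.2.2.2.2.2.1 _ _ (by omega)]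
    have : k - 1 = uR.reverse.length := by rw [List.length_reverse, huR]
    rw [this, List.take_left']
    rfl
  -- crossing upwards
  obtain ⟨Nu, au, hNu, hU⟩ : ∃ Nu au, Nu ≤ 4 * k ∧
      Pl V H X k p ε K (per (blk k s) 0 (k - 1)) (per (uR ++ [b]) 0 (k - 1)) Nu au 1 := by
    have h1 := per_ V H X k p ε K (blk k s) 0 (α % k) hk1 hlen (by rw [hwt]; exact hsp)
    have e1 : per (blk k s) (0 + α % k) (k - 1) = per (blk k s) α (k - 1) := by
      rw [zero_add]
      have := per_mod (blk k s) α (k - 1)
      rwa [hlen] at this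
    rw [e1] at h1
    have h2 := Pl.gadget _ _ _ _ _ c uR h1 hc1 hc2 huR hSup
    rw [hp₁]
    have h3 := Nat.mod_lt α (show 0 < k by omega)
    exact ⟨_, _, by omega, h2⟩
  -- crossing downwards
  obtain ⟨Nd, ad, hNd, hD⟩ : ∃ Nd ad, Nd ≤ 4 * k ∧
      Pl V H X k p ε K (per (uR.reverse ++ [b]) 0 (k - 1)) (per (blk k s) 0 (k - 1)) Nd ad 1 := by
    obtain ⟨β, hβ⟩ := hrev α (k - 1)
    have h1 := srv V H X k ε K _ _ _ hSup
    have h2 : Pl V H X k p ε K uR.reverse uR.reverse 0 0 0 :=
      Pl.nil _ (by rw [List.length_reverse, huR])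
    have h3 := Pl.gadget _ _ _ _ _ c.reverse _ h2 (by rw [List.length_reverse]; exact hc1)
      (by rw [List.length_reverse]; exact hc2)
      (by rw [List.length_reverse, pwt.2.2.1]) h1
    rw [hβ] at h3
    have h4 := per_ V H X k p ε K (blk k s) (β % k) (k - β % k) hk1 hlen
      (by rw [hwt]; exact hsp)
    have h5 := Nat.mod_lt β (show 0 < k by omega)
    have e1 : per (blk k s) (β % k) (k - 1) = per (blk k s) β (k - 1) := by
      have := per_mod (blk k s) β (k - 1)
      rwa [hlen] at this
    have e2 : per (blk k s) (β % k + (k - β % k)) (k - 1) = per (blk k s) 0 (k - 1) := by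
      have h6 : β % k + (k - β % k) = 0 + (blk k s).length := by rw [hlen]; omega
      rw [h6, pwt.2.1]
    rw [e1, e2] at h4
    have h7 := tra V H X k p ε K _ _ _ _ _ _ _ _ _ h3 h4
    rw [hp₂]
    refine ⟨_, _, ?_, h7⟩
    rw [List.length_reverse]
    omega
  refine ⟨?_, ?_⟩
  · refine hglu V H X p ε K j s (j + 1) (uR ++ [b]) (Or.inl ⟨hs, rfl⟩) hjk' hsp hW₁ hw₁ ?_
    intro r δ hr hδ
    exact core_s rcon per_ tra pwt hk hs hjk hjp hR hW₁ hW₂ hw₁ hw₂ hU hD hNu hNd r δ hr hδ
  · refine hglu V H X p ε K j (j + 1) s (blk k s) (Or.inr ⟨rfl, hs⟩) hjk' hjp hlen hwt ?_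
    intro r δ hr hδ
    exact core_t rcon per_ tra pwt hk hs hjk hjp hR hW₁ hW₂ hw₁ hw₂ hlenT hwtT hU hD hNu hNd
      r δ hr hδ

end Pool.Agent.KK.H65L
end

/-! ### Helper42_KK.LOL -/
section
/-! MP_747bc0_co, squad KK, block BETA, row LOL. -/

set_option autoImplicit false

namespace Pool.Agent.KK.H42

theorem kindL_to_kindR (hBLR : BlrStmt) (V : Type) [Fintype V] [DecidableEq V]
    (H : Finset (Finset V)) (X : Finset V) (k : ℕ) (ε : ℝ) (K j : ℕ) (hj : 1 ≤ j)
    (hjk : j + 1 ≤ k) (h : KindL V H X k ε K j) : KindR V H Xᶜ k ε K (k - j) := by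
  obtain ⟨h2, hM, a, uL, c, hc1, hc2, hu, hw, hS⟩ := h
  refine ⟨by omega, ?_, ?_⟩
  · intro m hm hmw
    have hn := wt_not m
    have h3 := hM (m.map not) (by rw [List.length_map]; exact hm) (by omega)
    have h4 := sup_cs H X k ε K _ _ _ h3
    simp only [List.map_append, List.map_cons, List.map_nil, Bool.not_false, Bool.not_true,
      map_not_not] at h4
    exact h4
  · obtain ⟨hr, hc, hl, hwt⟩ := hBLR k (j + 1) hjk (by omega)
    obtain ⟨b, hb⟩ := hr a (k - 1)
    obtain ⟨b', hb'⟩ := hc b (k - 1)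
    have hn := wt_not uL
    refine ⟨b', (c.map not).reverse, (uL.map not).reverse, ?_, ?_, ?_, ?_, ?_⟩
    · rw [List.length_reverse, List.length_map]
      exact hc1
    · rw [List.length_reverse, List.length_map]
      exact hc2
    · rw [List.length_reverse, List.length_map]
      exact hu
    · have e : wt (uL.map not).reverse = wt (uL.map not) := by
        unfold wt
        rw [List.count_reverse]
      rw [e]
      omega
    · have h4 := srv V H Xᶜ k ε K _ _ _ (sup_cs H X k ε K _ _ _ hS)
      rw [← List.map_reverse, hb, hb'] at h4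
      have e2 : k - (j + 1) = k - j - 1 := by omega
      rw [e2] at h4
      exact h4

theorem per_mod (w : List Bool) (a m : ℕ) : per w (a % w.length) m = per w a m := by
  unfold per
  refine List.map_congr_left fun i _ => ?_
  rw [Nat.mod_add_mod]

/-- conjugation of a closed plan by letters -/
theorem conj (hPER : PerStmt) (hPWT : PwtStmt) (V : Type) [Fintype V] [DecidableEq V]
    (H : Finset (Finset V)) (X : Finset V) (k p : ℕ) (ε : ℝ) (K : ℕ) (w : List Bool) (b : ℕ)
    (N a q : ℕ) (hk : 1 ≤ k) (hw : w.length = k) (hp : wt w % 2 = p)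
    (h : Pl V H X k p ε K (per w b (k - 1)) (per w b (k - 1)) N a q) :
    Pl V H X k p ε K (per w 0 (k - 1)) (per w 0 (k - 1)) (N + k) (a + wt w) q := by
  obtain ⟨p1, p2, p3, p4, -, -, -⟩ := hPWT
  rw [← per_mod w b, hw] at h
  have hb : b % k < k := Nat.mod_lt _ (by omega)
  set c := b % k with hc
  have h1 := hPER V H X k p ε K w 0 c hk hw hp
  have h2 := hPER V H X k p ε K w c (k - c) hk hw hp
  have e1 : c + (k - c) = 0 + w.length := by omega
  rw [e1, p2] at h2
  rw [Nat.zero_add] at h1
  have h3 := H3.tra V H X k p ε K _ _ _ _ _ _ _ _ _ h1 (H3.tra V H X k p ε K _ _ _ _ _ _ _ _ _ h h2)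
  have e2 : c + (N + (k - c)) = N + k := by omega
  have e3 : 0 + (q + 0) = q := by omega
  have e4 : wt (per w (k - 1) c) + wt (per w (c + k - 1) (k - c)) = wt w := by
    have h5 := p4 w (k - 1) c (k - c)
    have h6 := p1 w
    have e5 : c + (k - c) = w.length := by omega
    have e6 : k - 1 + c = c + k - 1 := by omega
    rw [e5, e6] at h5
    have h7 := h6 (k - 1)
    rw [h5] at h7
    rw [← h7]
    unfold wt
    rw [List.count_append]
  have e7 : 0 + k - 1 = k - 1 := by omega
  have e8 : wt (per w (0 + k - 1) c) + (a + wt (per w (c + k - 1) (k - c))) = a + wt w := by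
    rw [e7]
    omega
  rw [e2, e3, e8] at h3
  exact h3

theorem loops_compl (hBLR : BlrStmt) (hPER : PerStmt) (hPWT : PwtStmt) (V : Type) [Fintype V]
    [DecidableEq V] (H : Finset (Finset V)) (X : Finset V) (k p : ℕ) (ε : ℝ) (K j t t' K₀ : ℕ)
    (hk : 1 ≤ k) (hj : 1 ≤ j) (hjk : j + 1 ≤ k) (hp : p < 2) (ht : t + t' = k) (htp : t % 2 = p)
    (h : Loops V H Xᶜ k ((k + p) % 2) ε K (k - j) t' K₀) :
    Loops V H X k p ε K j t (K₀ + k * k + k) := by
  intro N a h1 h2
  have hN : K₀ + k * k + k ≤ N := by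
    obtain ⟨i, rfl⟩ : ∃ i, j = i + 1 := ⟨j - 1, by omega⟩
    have e : i + 1 - 1 = i := by omega
    rw [e] at h1
    nlinarith [h1, h2]
  have hta : t * k + K₀ ≤ k * a := by
    have h4 : t * k ≤ k * k := Nat.mul_le_mul_right k (by omega)
    calc t * k + K₀ ≤ K₀ + k * k + k := by omega
      _ ≤ (j - 1) * N + (K₀ + k * k + k) := Nat.le_add_left _ _
      _ ≤ k * a := h1
  have hta' : t ≤ a := by
    have h5 : k * t ≤ k * a := by
      rw [Nat.mul_comm k t]
      omega
    exact Nat.le_of_mul_le_mul_left h5 hk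
  obtain ⟨N', rfl⟩ : ∃ N', N = N' + k := ⟨N - k, by omega⟩
  obtain ⟨a', rfl⟩ : ∃ a', a = a' + t := ⟨a - t, by omega⟩
  have haN : a' ≤ N' := by
    have h6 : (j + 1) * (N' + k) ≤ k * (N' + k) := Nat.mul_le_mul_right _ hjk
    have h7 : k * (a' + t) + (K₀ + k * k + k) ≤ k * (N' + k) := h2.trans h6
    have h8 : k * a' ≤ k * N' := by nlinarith [h7]
    exact Nat.le_of_mul_le_mul_left h8 hk
  have hc1 : (k - j - 1) * N' + K₀ ≤ k * (N' - a') := by
    obtain ⟨i, rfl⟩ : ∃ i, k = j + 1 + i := ⟨k - (j + 1), by omega⟩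
    obtain ⟨d, rfl⟩ : ∃ d, N' = a' + d := ⟨N' - a', by omega⟩
    have e1 : j + 1 + i - j - 1 = i := by omega
    have e2 : a' + d - a' = d := by omega
    rw [e1, e2]
    nlinarith [h2, Nat.zero_le (i * (j + 1)), Nat.zero_le (i * i)]
  have hc2 : k * (N' - a') + K₀ ≤ (k - j + 1) * N' := by
    obtain ⟨i, rfl⟩ : ∃ i, k = j + 1 + i := ⟨k - (j + 1), by omega⟩
    obtain ⟨d, rfl⟩ : ∃ d, N' = a' + d := ⟨N' - a', by omega⟩
    obtain ⟨l, rfl⟩ : ∃ l, j = l + 1 := ⟨j - 1, by omega⟩
    have e1 : l + 1 + 1 + i - (l + 1) + 1 = i + 2 := by omega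
    have e2 : a' + d - a' = d := by omega
    have e3 : l + 1 - 1 = l := by omega
    rw [e1, e2]
    rw [e3] at h1
    have h9 : (l + 1 + 1 + i) * t ≤ (l + 1 + 1 + i) * (l + 1 + 1 + i) :=
      Nat.mul_le_mul_left _ (by omega)
    nlinarith [h1, h9]
  obtain ⟨q, hq, hpl⟩ := h N' (N' - a') hc1 hc2
  obtain ⟨-, hpl2⟩ := pco' H Xᶜ k ((k + p) % 2) ε K _ _ _ _ _ hk (Nat.mod_lt _ (by norm_num)) hpl
  rw [compl_compl] at hpl2
  obtain ⟨-, hc, -, -⟩ := hBLR k t' (by omega) hk
  obtain ⟨b, hb⟩ := hc 0 (k - 1)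
  have e4 : k - t' = t := by omega
  have e5 : (k + (k + p) % 2) % 2 = p := by omega
  have e6 : N' - (N' - a') = a' := by omega
  rw [hb, e4, e5, e6] at hpl2
  obtain ⟨-, -, hl, hwt⟩ := hBLR k t (by omega) hk
  have h10 := conj hPER hPWT V H X k p ε K (blk k t) b N' a' q hk hl (by rw [hwt]; exact htp) hpl2
  rw [hwt] at h10
  exact ⟨q, by omega, h10⟩

theorem lol (hBLR : BlrStmt) (hPER : PerStmt) (hPWT : PwtStmt) (hLOR : LorStmt) : LolStmt := by
  intro k hk
  obtain ⟨K₀, hK⟩ := hLOR k hk
  refine ⟨K₀ + k * k + k, ?_⟩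
  intro V _ _ H X p ε K j hj hjk hp hjp hL
  have hR := kindL_to_kindR hBLR V H X k ε K j hj hjk hL
  obtain ⟨l1, l2⟩ := hK V H Xᶜ ((k + p) % 2) ε K (k - j) (by omega) (by omega) (by omega) hR
  constructor
  · exact loops_compl hBLR hPER hPWT V H X k p ε K j (j - 1) (k - j + 1) K₀ (by omega) hj hjk hp
      (by omega) (by omega) l2
  · exact loops_compl hBLR hPER hPWT V H X k p ε K j (j + 1) (k - j - 1) K₀ (by omega) hj hjk hp
      (by omega) (by omega) l1

end Pool.Agent.KK.H42
end

/-! ### Helper70_KK.VLst -/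
section
/-! MP_747bc0_co, squad KK, block BETA part 2: lists of slots, rows NEO TKR CMO (helper70; the lemmas
on lists are taken from `Helper3_KK/REA.lean`). -/

set_option autoImplicit false

namespace Pool.Agent.KK.H70

open Pool.Agent.KK.H3

section lists

variable {α : Type}

/-- a window of `A ++ B` is a window of `A` or of the last entries of `A` and `B` -/
theorem infix_split {A' W B s : List α} {k : ℕ} (hW : W.length + 1 = k)
    (hs : s.length = k) (h : s <:+: (A' ++ W) ++ B) : s <:+: A' ++ W ∨ s <:+: W ++ B := by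
  obtain ⟨i, hi, rfl⟩ := (infix_iff_drop _ _ _).1 ⟨h, hs⟩
  rw [List.length_append, List.length_append] at hi
  by_cases h1 : i + k ≤ (A' ++ W).length
  · left
    have h2 : (((A' ++ W) ++ B).drop i).take k = ((A' ++ W).drop i).take k := by
      rw [List.drop_append_of_le_length (by omega), List.take_append_of_le_length]
      rw [List.length_drop]
      omega
    rw [h2]
    exact (List.take_prefix _ _).isInfix.trans (List.drop_suffix _ _).isInfix
  · right
    rw [List.length_append] at h1
    have h2 : ((A' ++ W) ++ B).drop i = (W ++ B).drop (i - A'.length) := by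
      rw [List.append_assoc, List.drop_append, List.drop_eq_nil_of_le (by omega),
        List.nil_append]
    rw [h2]
    exact (List.take_prefix _ _).isInfix.trans (List.drop_suffix _ _).isInfix

end lists

variable {V : Type} [Fintype V] [DecidableEq V]

omit [Fintype V] [DecidableEq V] in
theorem fr_fw (u : List Bool) : fr (fw u : List (Slot V)) = u.length := by
  unfold fr fw
  rw [List.countP_map]
  exact List.countP_eq_length.2 fun _ _ => rfl

omit [Fintype V] [DecidableEq V] in
theorem fw_length (u : List Bool) : (fw u : List (Slot V)).length = u.length := by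
  unfold fw
  rw [List.length_map]

omit [Fintype V] [DecidableEq V] in
theorem fw_append (u v : List Bool) : (fw (u ++ v) : List (Slot V)) = fw u ++ fw v := by
  unfold fw
  rw [List.map_append]

omit [Fintype V] [DecidableEq V] in
theorem fw_inj {u v : List Bool} (h : (fw u : List (Slot V)) = fw v) : u = v :=
  List.map_injective_iff.2 Sum.inr_injective h

omit [Fintype V] in
theorem cX_append (X : Finset V) (s t : List (Slot V)) : cX X (s ++ t) = cX X s + cX X t := by
  unfold cX
  rw [List.countP_append]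

omit [Fintype V] in
theorem cX_fw (X : Finset V) (u : List Bool) : cX X (fw u) = wt u := by
  induction u with
  | nil => rfl
  | cons b u ih =>
    have h1 : (fw (b :: u) : List (Slot V)) = Sum.inr b :: fw u := rfl
    rw [h1]
    unfold cX wt at *
    rw [List.countP_cons, List.count_cons, ih]
    cases b <;> simp

omit [Fintype V] in
theorem cX_vx (X : Finset V) (l : List V) :
    cX X (vx l) = wt (l.map fun v => decide (v ∈ X)) := by
  induction l with
  | nil => rfl
  | cons b u ih =>
    have h1 : (vx (b :: u) : List (Slot V)) = Sum.inl b :: vx u := rfl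
    rw [h1]
    unfold cX wt at *
    rw [List.map_cons, List.countP_cons, List.count_cons, ih]
    by_cases hb : b ∈ X <;> simp [hb]

omit [Fintype V] [DecidableEq V] in
theorem fx_append (s t : List (Slot V)) : fx (s ++ t) = fx s ++ fx t := by
  unfold fx
  rw [List.filterMap_append]

omit [Fintype V] [DecidableEq V] in
theorem fx_fw (u : List Bool) : fx (fw u : List (Slot V)) = [] := by
  induction u with
  | nil => rfl
  | cons b u ih =>
    have h1 : (fw (b :: u) : List (Slot V)) = Sum.inr b :: fw u := rfl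
    rw [h1]
    unfold fx at *
    rw [List.filterMap_cons]
    exact ih

omit [Fintype V] [DecidableEq V] in
theorem fx_vx (l : List V) : fx (vx l : List (Slot V)) = l := by
  induction l with
  | nil => rfl
  | cons b u ih =>
    have h1 : (vx (b :: u) : List (Slot V)) = Sum.inl b :: vx u := rfl
    rw [h1]
    unfold fx at *
    rw [List.filterMap_cons]
    change b :: _ = _
    rw [ih]

omit [Fintype V] [DecidableEq V] in
/-- a window of length `k` between two free words of length `k - 1` with something fixed in the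
middle is not free -/
theorem no_free {k : ℕ} {v uR s : List Bool} {l : List V} (hv : v.length + 1 = k)
    (hR : uR.length + 1 = k) (hl : 1 ≤ l.length) (hs : s.length = k)
    (h : (fw s : List (Slot V)) <:+: fw v ++ (vx l ++ fw uR)) : False := by
  obtain ⟨i, hi, he⟩ := (infix_iff_drop _ _ _).1 ⟨h, (fw_length s).trans hs⟩
  have hvx : (vx l : List (Slot V)).length = l.length := by
    unfold vx
    rw [List.length_map]
  rw [List.length_append, List.length_append, fw_length, fw_length, hvx] at hi
  obtain ⟨j, hj⟩ : ∃ j, j = max i v.length := ⟨_, rfl⟩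
  have hj1 : v.length ≤ j := by omega
  have hj2 : j < v.length + l.length := by omega
  have hj3 : i ≤ j := by omega
  have hj4 : j - i < k := by omega
  have e1 : (fw s : List (Slot V))[j - i]? = (fw v ++ (vx l ++ fw uR))[j]? := by
    rw [he, List.getElem?_take_of_lt hj4, List.getElem?_drop]
    congr 1
    omega
  have e2 : (fw v ++ (vx l ++ fw uR) : List (Slot V))[j]? = some (Sum.inl l[j - v.length]) := by
    rw [List.getElem?_append_right (by rw [fw_length]; exact hj1), fw_length,
      List.getElem?_append_left (by rw [hvx]; omega)]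
    unfold vx
    rw [List.getElem?_map, List.getElem?_eq_getElem (by omega)]
    rfl
  have e3 : (fw s : List (Slot V))[j - i]? = some (Sum.inr s[j - i]) := by
    unfold fw
    rw [List.getElem?_map, List.getElem?_eq_getElem (by omega)]
    rfl
  rw [e3, e2] at e1
  exact absurd (Option.some.inj e1) (by simp)

/-! ### NEO -/

omit [DecidableEq V] in
theorem ncard_len (m : ℕ) : {l : List V | l.length = m}.ncard = Fintype.card V ^ m := by
  rw [← Nat.card_coe_set_eq]
  have h : Nat.card (List.Vector V m) = Fintype.card V ^ m := by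
    rw [Nat.card_eq_fintype_card, card_vector]
  exact h

/-- completions of a window with a given first vertex -/
theorem badC_inl (H : Finset (Finset V)) (X : Finset V) (v : V) (s : List (Slot V)) :
    (BadC H X (Sum.inl v :: s)).ncard ≤ Fintype.card V ^ s.length := by
  have hsub : BadC H X (Sum.inl v :: s) ⊆ (fun e => v :: e) '' {l : List V | l.length = s.length} := by
    rintro e ⟨he1, _⟩
    cases he1 with
    | cons h1 h2 =>
      rename_i w e' _
      have h3 : v = w := h1
      exact ⟨e', h2.length_eq.symm, by rw [h3]⟩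
  have hfin : {l : List V | l.length = s.length}.Finite := List.finite_length_eq V s.length
  calc (BadC H X (Sum.inl v :: s)).ncard
      ≤ ((fun e => v :: e) '' {l : List V | l.length = s.length}).ncard :=
        Set.ncard_le_ncard hsub (hfin.image _)
    _ ≤ {l : List V | l.length = s.length}.ncard := Set.ncard_image_le hfin
    _ = _ := ncard_len _

theorem neo : NeoStmt := by
  intro V _ _ H X D k p γ ρ ε hk hγ hN hD hε u hu hp
  unfold OKs
  rw [fr_fw, hu]
  obtain ⟨b, u', rfl⟩ : ∃ b u', u = b :: u' := by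
    cases u with
    | nil =>
      simp only [List.length_nil] at hu
      omega
    | cons b u' => exact ⟨b, u', rfl⟩
  have hu' : u'.length = k - 1 := by
    rw [List.length_cons] at hu
    omega
  have hsub : BadC H X (fw (b :: u')) ⊆
      ⋃ v ∈ (Finset.univ.filter fun v : V => decide (v ∈ X) = b),
        BadC H X (Sum.inl v :: fw u') := by
    rintro e ⟨he1, he2, he3⟩
    change List.Forall₂ (Fit X) (Sum.inr b :: fw u') e at he1
    cases he1 with
    | cons h1 h2 =>
      rename_i w e'
      refine Set.mem_biUnion (x := w) ?_ ⟨List.Forall₂.cons rfl h2, he2, he3⟩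
      rw [Finset.mem_coe, Finset.mem_filter]
      refine ⟨Finset.mem_univ _, ?_⟩
      have h3 : w ∈ X ↔ b = true := h1
      by_cases hw : w ∈ X
      · rw [h3.1 hw]
        simpa using hw
      · have : b = false := by
          cases b
          · rfl
          · exact absurd (h3.2 rfl) hw
        rw [this]
        simpa using hw
  have hcard : (BadC H X (fw (b :: u'))).ncard ≤
      ∑ v ∈ (Finset.univ.filter fun v : V => decide (v ∈ X) = b),
        (BadC H X (Sum.inl v :: fw u')).ncard := by
    refine (Set.ncard_le_ncard hsub ?_).trans ?_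
    · exact Set.Finite.biUnion (Finset.finite_toSet _) fun v _ => badC_finite H X _
    · exact Finset.set_ncard_biUnion_le _ _
  have hn0 : (0 : ℝ) ≤ (Fintype.card V : ℝ) := Nat.cast_nonneg _
  have hpw : (0 : ℝ) ≤ (Fintype.card V : ℝ) ^ (k - 1) := pow_nonneg hn0 _
  calc ((BadC H X (fw (b :: u'))).ncard : ℝ)
      ≤ ∑ v ∈ (Finset.univ.filter fun v : V => decide (v ∈ X) = b),
        ((BadC H X (Sum.inl v :: fw u')).ncard : ℝ) := by exact_mod_cast hcard
    _ ≤ ∑ v ∈ (Finset.univ.filter fun v : V => decide (v ∈ X) = b),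
        (γ * (Fintype.card V : ℝ) ^ (k - 1) +
          if v ∈ D then (Fintype.card V : ℝ) ^ (k - 1) else 0) := by
        refine Finset.sum_le_sum fun v hv => ?_
        have hv' := (Finset.mem_filter.1 hv).2
        by_cases hvD : v ∈ D
        · rw [if_pos hvD]
          have h5 := badC_inl H X v (fw u')
          rw [fw_length, hu'] at h5
          have h6 : ((BadC H X (Sum.inl v :: fw u')).ncard : ℝ) ≤
              (Fintype.card V : ℝ) ^ (k - 1) := by exact_mod_cast h5
          have h7 := mul_nonneg hγ hpw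
          linarith
        · rw [if_neg hvD, add_zero]
          exact hN v hvD [] u' (by
            rw [List.length_nil, hu']
            omega) (by
            rw [hv']
            exact hp)
    _ ≤ ∑ v : V, (γ * (Fintype.card V : ℝ) ^ (k - 1) +
          if v ∈ D then (Fintype.card V : ℝ) ^ (k - 1) else 0) := by
        refine Finset.sum_le_sum_of_subset_of_nonneg (Finset.filter_subset _ _) ?_
        intro v _ _
        have h7 := mul_nonneg hγ hpw
        split_ifs
        · linarith
        · linarith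
    _ = (Fintype.card V : ℝ) * (γ * (Fintype.card V : ℝ) ^ (k - 1)) +
        (D.card : ℝ) * (Fintype.card V : ℝ) ^ (k - 1) := by
        rw [Finset.sum_add_distrib, Finset.sum_const, nsmul_eq_mul, Finset.card_univ,
          Finset.sum_ite_mem, Finset.univ_inter, Finset.sum_const, nsmul_eq_mul]
    _ ≤ (Fintype.card V : ℝ) * (γ * (Fintype.card V : ℝ) ^ (k - 1)) +
        (ρ * (Fintype.card V : ℝ)) * (Fintype.card V : ℝ) ^ (k - 1) := by
        gcongr
    _ = (γ + ρ) * (Fintype.card V : ℝ) ^ k := by
        have : (Fintype.card V : ℝ) ^ k =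
            (Fintype.card V : ℝ) ^ (k - 1) * (Fintype.card V : ℝ) := by
          rw [← pow_succ]
          congr 1
          omega
        rw [this]
        ring
    _ ≤ ε * (Fintype.card V : ℝ) ^ k := by
        gcongr

/-! ### TKR -/

theorem tkr : TkrStmt := by
  intro V _ _ H X k p ε K z uL c uR hk huL huR hc hS Z hZ hZK
  have hz : z ∉ Z := fun h => (Finset.disjoint_left.1 hZ h) (Finset.mem_singleton_self z)
  obtain ⟨l, hl1, hzl, hl2, hl3, hl4⟩ := hS Z hZK hz
  have hlc : l.length = c.length := by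
    rw [← hl3, List.length_map]
  have hvx : (vx l : List (Slot V)).length = l.length := by
    unfold vx
    rw [List.length_map]
  have hfx : fx (vx l ++ fw uR : List (Slot V)) = l := by
    rw [fx_append, fx_fw, fx_vx, List.append_nil]
  refine ⟨vx l ++ fw uR, ?_, ?_, ?_, ?_, ?_, huL, huR, ?_, ?_, ?_, ?_⟩
  · rw [List.length_append, hvx, fw_length, hlc, huR]
  · rw [cX_append, cX_fw, cX_vx, hl3]
  · rw [hfx, hlc]
  · rw [hfx]
    exact hl2
  · rw [hfx]
    intro x hx
    rw [Finset.mem_singleton] at hx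
    rw [hx]
    exact hzl
  · rw [hfx]
    exact hl1
  · exact (List.suffix_append _ _).trans (List.suffix_append _ _)
  · rw [← List.append_assoc]
    exact hl4
  · intro s hs hsk
    exact (no_free (k := k) (by omega) (by omega) (by omega) hsk hs).elim

/-! ### CMO -/

omit [Fintype V] [DecidableEq V] in
/-- windows of a composition -/
theorem split2 {k : ℕ} (hk : 1 ≤ k) {u v : List Bool} (hv : v.length = k - 1)
    {L L' s : List (Slot V)} (hsuf : fw v <:+ fw u ++ L) (hs : s.length = k)
    (h : s <:+: fw u ++ (L ++ L')) : s <:+: fw u ++ L ∨ s <:+: fw v ++ L' := by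
  obtain ⟨A, hA⟩ := hsuf
  rw [← List.append_assoc, ← hA] at h
  rcases infix_split (k := k) (by rw [fw_length, hv]; exact Nat.sub_add_cancel hk) hs h with h | h
  · left
    rw [hA] at h
    exact h
  · right
    exact h

theorem lst_comp (H : Finset (Finset V)) (X : Finset V) (k p : ℕ)
    (ε : ℝ) (u v w : List Bool) (L L' : List (Slot V)) (hk : 1 ≤ k)
    (h1 : Lst H X k p ε u v L) (h2 : Lst H X k p ε v w L') (h3 : ∀ x ∈ fx L, x ∉ fx L') :
    Lst H X k p ε u w (L ++ L') := by
  obtain ⟨hu, hv, hnd, hsuf, hok, hpar⟩ := h1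
  obtain ⟨_, hw, hnd', hsuf', hok', hpar'⟩ := h2
  refine ⟨hu, hw, ?_, ?_, ?_, ?_⟩
  · rw [fx_append]
    refine List.nodup_append.2 ⟨hnd, hnd', ?_⟩
    intro x hx y hy hxy
    subst hxy
    exact h3 x hx hy
  · obtain ⟨A, hA⟩ := hsuf
    refine hsuf'.trans ⟨A, ?_⟩
    rw [← List.append_assoc, ← List.append_assoc, hA]
  · intro s hs hsk
    rcases split2 hk hv hsuf hsk hs with h | h
    · exact hok s h hsk
    · exact hok' s h hsk
  · intro s hs hsk
    rcases split2 hk hv hsuf ((fw_length s).trans hsk) hs with h | h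
    · exact hpar s h hsk
    · exact hpar' s h hsk

theorem cmo : CmoStmt := by
  refine ⟨?_, ?_, ?_⟩
  · intro V _ _ H X k p ε u v w L L' hk h1 h2 h3
    exact lst_comp H X k p ε u v w L L' hk h1 h2 h3
  · intro V _ _ H X D D' k p ε K K' q q' u v w N N' a a' hk hR hR' hDD hK Z hZ hZK
    obtain ⟨hZD, hZD'⟩ := Finset.disjoint_union_right.1 hZ
    obtain ⟨L, hL1, hL2, hL3, hL4, hL5, hL6⟩ := hR (Z ∪ D')
      (Finset.disjoint_union_left.2 ⟨hZD, hDD.symm⟩) (by
        have h1 : ((Z ∪ D').card : ℝ) ≤ (Z.card : ℝ) + (D'.card : ℝ) := by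
          exact_mod_cast Finset.card_union_le Z D'
        have h2 : (0 : ℝ) ≤ (q : ℝ) := Nat.cast_nonneg _
        linarith)
    obtain ⟨L', hM1, hM2, hM3, hM4, hM5, hM6⟩ := hR' (Z ∪ (fx L).toFinset)
      (Finset.disjoint_union_left.2 ⟨hZD', by
        rw [Finset.disjoint_left]
        intro x hx hx'
        exact hL4 x (List.mem_toFinset.1 hx) (Finset.mem_union_right _ hx')⟩) (by
        have h1 : ((Z ∪ (fx L).toFinset).card : ℝ) ≤ (Z.card : ℝ) + (q : ℝ) := by
          have h2 : (Z ∪ (fx L).toFinset).card ≤ Z.card + q :=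
            (Finset.card_union_le _ _).trans (Nat.add_le_add_left
              ((List.toFinset_card_le _).trans hL3) _)
          exact_mod_cast h2
        have h2 : (0 : ℝ) ≤ (D'.card : ℝ) := Nat.cast_nonneg _
        linarith)
    refine ⟨L ++ L', ?_, ?_, ?_, ?_, ?_, ?_⟩
    · rw [List.length_append, hL1, hM1]
    · rw [cX_append, hL2, hM2]
    · rw [fx_append, List.length_append]
      exact Nat.add_le_add hL3 hM3
    · intro x hx
      rw [fx_append, List.mem_append] at hx
      rcases hx with hx | hx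
      · exact fun h => hL4 x hx (Finset.mem_union_left _ h)
      · exact fun h => hM4 x hx (Finset.mem_union_left _ h)
    · intro x hx
      rw [fx_append, List.mem_append]
      rcases Finset.mem_union.1 hx with hx | hx
      · exact Or.inl (hL5 x hx)
      · exact Or.inr (hM5 x hx)
    · refine lst_comp H X k p ε u v w L L' hk hL6 hM6 ?_
      intro x hx hx'
      exact hM4 x hx' (Finset.mem_union_right _ (List.mem_toFinset.2 hx))
  · intro V _ _ H X D k p ε ε' K K' q q' u v N a hR hε hK hq Z hZ hZK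
    obtain ⟨L, hL1, hL2, hL3, hL4, hL5, hu, hv, hnd, hsuf, hok, hpar⟩ := hR Z hZ (hZK.trans hK)
    refine ⟨L, hL1, hL2, hL3.trans hq, hL4, hL5, hu, hv, hnd, hsuf, ?_, hpar⟩
    intro s hs hsk
    have h1 := hok s hs hsk
    unfold OKs at *
    refine h1.trans ?_
    gcongr

end Pool.Agent.KK.H70
end

/-! ### Helper52_KK.SRT -/
section
/-! MP_747bc0_co, squad KK, block BETA part 2, row SRT. -/

set_option autoImplicit false

namespace Pool.Agent.KK.H52

open Pool.Agent.KK.H42

section

variable {V : Type} [Fintype V] [DecidableEq V]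

theorem supT_rev (H : Finset (Finset V)) (X : Finset V) (k : ℕ)
    (ε K : ℝ) (z : V) (uL c uR : List Bool) (h : SupT H X k ε K z uL c uR) :
    SupT H X k ε K z uR.reverse c.reverse uL.reverse := by
  intro Z hZ hz
  obtain ⟨l, h1, h0, h2, h3, h4⟩ := h Z hZ hz
  refine ⟨l.reverse, List.nodup_reverse.2 h1, List.mem_reverse.2 h0,
    fun v hv => h2 v (List.mem_reverse.1 hv), ?_, ?_⟩
  · rw [List.map_reverse, h3]
  · have h5 := okl_reverse H X k ε _ h4
    rw [List.reverse_append, List.reverse_append, ← fw_reverse, ← fw_reverse, ← vx_reverse,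
      ← List.append_assoc] at h5
    exact h5

theorem supT_cs (H : Finset (Finset V)) (X : Finset V) (k : ℕ)
    (ε K : ℝ) (z : V) (uL c uR : List Bool) (h : SupT H X k ε K z uL c uR) :
    SupT H Xᶜ k ε K z (uL.map not) (c.map not) (uR.map not) := by
  intro Z hZ hz
  obtain ⟨l, h1, h0, h2, h3, h4⟩ := h Z hZ hz
  refine ⟨l, h1, h0, h2, ?_, ?_⟩
  · rw [← h3, List.map_map]
    refine List.map_congr_left fun v _ => ?_
    simp only [Function.comp, Finset.mem_compl, decide_not]
  · have h5 := okl_cs H X k ε _ h4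
    rw [List.map_append, List.map_append, fw_cs, fw_cs, vx_cs] at h5
    exact h5

theorem tok_cs (H : Finset (Finset V)) (X : Finset V) (k j : ℕ)
    (ε K : ℝ) (z : V) (hj : 1 ≤ j) (hjk : j + 1 ≤ k) (h : Tok H X k ε K j z) :
    Tok H Xᶜ k ε K (k - j) z := by
  intro m₁ m₂ hl hw
  have e1 := wt_not m₁
  have e2 := wt_not m₂
  have hr : ∀ m : List Bool, wt m.reverse = wt m := by
    intro m
    unfold wt
    rw [List.count_reverse]
  have h1 := h (m₂.map not).reverse (m₁.map not).reverse (by
    rw [List.length_reverse, List.length_reverse, List.length_map, List.length_map]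
    omega) (by
    rw [hr, hr]
    omega)
  have h2 := supT_rev H Xᶜ k ε K z _ _ _ (supT_cs H X k ε K z _ _ _ h1)
  have hd : decide (z ∈ Xᶜ) = !(decide (z ∈ X)) := by
    by_cases hz : z ∈ X <;> simp [hz]
  have hnn : (not ∘ not) = id := by
    funext b
    cases b <;> rfl
  have f1 : (((true :: (m₂.map not).reverse ++ true :: (m₁.map not).reverse).dropLast).map
      not).reverse = (m₁ ++ false :: m₂ ++ [false]).tail := by
    rw [List.map_dropLast, ← List.tail_reverse]
    congr 1
    simp [List.map_append, List.map_reverse, hnn]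
  have f2 : (((((m₂.map not).reverse ++ false :: (m₁.map not).reverse ++ [false]).tail).map
      not).reverse) = (true :: m₁ ++ true :: m₂).dropLast := by
    rw [List.map_tail, ← List.dropLast_reverse]
    congr 1
    simp [List.map_append, List.map_reverse, hnn]
  have f3 : (((m₂.map not).reverse ++ false :: (m₁.map not).reverse ++ decide (z ∈ X) ::
      ((m₂.map not).reverse ++ true :: (m₁.map not).reverse)).map not).reverse =
      m₁ ++ false :: m₂ ++ decide (z ∈ Xᶜ) :: (m₁ ++ true :: m₂) := by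
    rw [hd]
    simp [List.map_append, List.map_reverse, hnn]
  rw [f1, f2, f3] at h2
  exact h2

end

theorem srt : SrtStmt := by
  refine ⟨?_, ?_, ?_⟩
  · intro V _ _ H X k ε K z uL c uR h
    exact supT_rev H X k ε K z uL c uR h
  · intro V _ _ H X k ε K z uL c uR
    constructor
    · exact supT_cs H X k ε K z uL c uR
    · intro h
      have h2 := supT_cs H Xᶜ k ε K z _ _ _ h
      rwa [compl_compl, map_not_not, map_not_not, map_not_not] at h2
  · intro V _ _ H X k j ε K z hj hjk h
    exact tok_cs H X k j ε K z hj hjk h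

end Pool.Agent.KK.H52
end

/-! ### Helper70_KK.CLZ -/
section
/-! MP_747bc0_co, squad KK, block BETA part 2, row CLZ (closing; after `Helper97_KK/ASM.lean`). -/

set_option autoImplicit false

namespace Pool.Agent.KK.H70

/-- Windows of length `k` of the cyclic list. -/
theorem windows {α : Type} (L L' U : List α) (k : ℕ) (hk : 1 ≤ k) (hL : L = L' ++ U)
    (hU : U.length = k - 1) (s : List α) (hs : s <:+: L ++ L.take (k - 1)) (hsk : s.length = k) :
    s <:+: U ++ L := by
  obtain ⟨a, b, hab⟩ := hs
  by_cases h : a.length + k ≤ L.length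
  · -- inside `L`
    have h1 : s <:+: L := by
      rcases List.append_eq_append_iff.mp hab with ⟨a', h1, _⟩ | ⟨c', h1, _⟩
      · exact ⟨a, a', by rw [h1]⟩
      · have h2 : (a ++ s).length = L.length + c'.length := by rw [h1, List.length_append]
        rw [List.length_append, hsk] at h2
        have h3 : c' = [] := List.length_eq_zero_iff.mp (by omega)
        rw [h3, List.append_nil] at h1
        exact ⟨a, [], by rw [List.append_nil, h1]⟩
    exact h1.trans (List.suffix_append U L).isInfix
  · have hlen : L.length = L'.length + (k - 1) := by rw [hL, List.length_append, hU]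
    have hab' : a ++ (s ++ b) = L' ++ (U ++ L.take (k - 1)) := by
      rw [← List.append_assoc, hab]
      conv_lhs => rw [hL]
      rw [List.append_assoc, ← hL]
    have h2 : s <:+: U ++ L.take (k - 1) := by
      rcases List.append_eq_append_iff.mp hab' with ⟨a', h1, h2⟩ | ⟨c', h1, h2⟩
      · have h3 : L'.length = a.length + a'.length := by rw [h1, List.length_append]
        have h4 : a' = [] := List.length_eq_zero_iff.mp (by omega)
        rw [h4, List.nil_append] at h2
        exact ⟨[], b, by rw [List.nil_append, h2]⟩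
      · exact ⟨c', b, by rw [List.append_assoc, h2]⟩
    refine h2.trans ?_
    have h3 : U ++ L.take (k - 1) <+: U ++ L :=
      (List.prefix_append_right_inj U).mpr (List.take_prefix _ _)
    exact h3.isInfix

theorem clz (hBUL : BulkStmt) : ClzStmt := by
  intro k hk
  obtain ⟨ε, hε0, hε1, n₁, hbulk⟩ := hBUL k hk
  refine ⟨ε, hε0, hε1, max n₁ k, ?_⟩
  intro V _ _ H X D p γ u L hn hγε hnear hD hL1 hL4 hL2 hX1 hX2 hlst
  obtain ⟨hu, _, hL3, hsuf, hOK, hpar⟩ := hlst
  have hn1 : n₁ ≤ Fintype.card V := (le_max_left _ _).trans hn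
  have hn2 : k ≤ Fintype.card V := (le_max_right _ _).trans hn
  have hU : (fw u : List (Slot V)).length = k - 1 := by
    rw [fw_length, hu]
  have hsufL : (fw u : List (Slot V)) <:+ L := by
    refine List.suffix_of_suffix_length_le hsuf (List.suffix_append _ _) ?_
    rw [hU, hL1]
    omega
  obtain ⟨L', hL'⟩ := hsufL
  have hwin : ∀ s : List (Slot V), s <:+: L ++ L.take (k - 1) → s.length = k →
      s <:+: fw u ++ L :=
    fun s hs hsk => windows L L' (fw u) k (by omega) hL'.symm hU s hs hsk
  refine hbulk V H X L hn1 hL1 hL3 hL4 hL2 hX1 hX2 ?_ ?_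
  · intro s hs hsk
    exact hOK s (hwin s hs hsk) hsk
  · intro v u₁ u₂ hlen hv hs
    have e : (fw u₁ ++ Sum.inr (decide (v ∈ X)) :: fw u₂ : List (Slot V)) =
        fw (u₁ ++ decide (v ∈ X) :: u₂) := by
      unfold fw
      simp
    rw [e] at hs
    have hlk : (u₁ ++ decide (v ∈ X) :: u₂).length = k := by
      rw [List.length_append, List.length_cons]
      omega
    have hs' := hwin _ hs (by rw [fw_length, hlk])
    have hp := hpar _ hs' hlk
    have h1 := hnear v (fun h => hv (hD v h)) u₁ u₂ hlen hp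
    refine h1.trans ?_
    apply mul_le_mul_of_nonneg_right hγε
    positivity

end Pool.Agent.KK.H70
end

/-! ### Helper70_KK.FIN -/
section
/-! MP_747bc0_co, squad KK, block BETA part 2, row FIN: from a closed list to a Hamilton cycle. -/

set_option autoImplicit false

namespace Pool.Agent.KK.H70

/-- four periods -/
theorem per4 (hPWT : PwtStmt) (w : List Bool) (a m : ℕ) :
    per w (a + 4 * w.length) m = per w a m ∧ wt (per w a (4 * w.length)) = 4 * wt w := by
  obtain ⟨h1, h2, _, h4, _⟩ := hPWT
  constructor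
  · have e : a + 4 * w.length = a + w.length + w.length + w.length + w.length := by ring
    rw [e, h2, h2, h2, h2]
  · have e : 4 * w.length = w.length + (w.length + (w.length + w.length)) := by ring
    rw [e, h4, h4, h4]
    unfold wt at *
    rw [List.count_append, List.count_append, List.count_append, h1, h1, h1, h1]
    ring

theorem fin (hREL : RelStmt) (hPER : PerStmt) (hPWT : PwtStmt) (hPST : PstStmt)
    (hABQ : AbqStmt) (hCLZ : ClzStmt) : FinStmt := by
  intro k hk
  obtain ⟨ε, hε0, hε1, n₁, hclz⟩ := hCLZ k (by omega)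
  refine ⟨ε, hε0, hε1, ?_⟩
  intro κ hκ
  have hk0 : (0 : ℝ) < (k : ℝ) := by
    have : (0 : ℕ) < k := by omega
    exact_mod_cast this
  obtain ⟨ρ, hρdef⟩ : ∃ ρ : ℝ, ρ = min (ε / 2) (min (κ / (16 * k)) (ε / (16 * k))) := ⟨_, rfl⟩
  have hρ0 : 0 < ρ := by
    rw [hρdef]
    refine lt_min (by positivity) (lt_min (by positivity) (by positivity))
  have hρ1 : ρ ≤ ε / 2 := by
    rw [hρdef]
    exact min_le_left _ _
  have hρ2 : ρ ≤ κ / (16 * k) := by
    rw [hρdef]
    exact (min_le_right _ _).trans (min_le_left _ _)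
  have hρ3 : ρ ≤ ε / (16 * k) := by
    rw [hρdef]
    exact (min_le_right _ _).trans (min_le_right _ _)
  refine ⟨ρ, hρ0, ?_⟩
  intro Q
  refine ⟨max n₁ (max ⌈((Q : ℝ) + 2 * k) / (κ / 2)⌉₊ ⌈(Q : ℝ) / (ε / 2)⌉₊), ?_⟩
  intro V _ _ H X D D₁ p t q N a w hn hnear hD hX1 hX2 hwl hwt ht1 htk htp hpas hqQ hrea hN ha
  have hn1 : n₁ ≤ Fintype.card V := (le_max_left _ _).trans hn
  have hn0 : (0 : ℝ) ≤ (Fintype.card V : ℝ) := Nat.cast_nonneg _
  have hn2 : (Q : ℝ) + 2 * k ≤ κ / 2 * (Fintype.card V : ℝ) := by
    have h1 : ⌈((Q : ℝ) + 2 * k) / (κ / 2)⌉₊ ≤ Fintype.card V :=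
      (le_max_left _ _).trans ((le_max_right _ _).trans hn)
    have h2 : ((Q : ℝ) + 2 * k) / (κ / 2) ≤ (Fintype.card V : ℝ) :=
      (Nat.le_ceil _).trans (by exact_mod_cast h1)
    rw [div_le_iff₀ (by positivity)] at h2
    linarith
  have hn3 : (Q : ℝ) ≤ ε / 2 * (Fintype.card V : ℝ) := by
    have h1 : ⌈(Q : ℝ) / (ε / 2)⌉₊ ≤ Fintype.card V :=
      (le_max_right _ _).trans ((le_max_right _ _).trans hn)
    have h2 : (Q : ℝ) / (ε / 2) ≤ (Fintype.card V : ℝ) :=
      (Nat.le_ceil _).trans (by exact_mod_cast h1)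
    rw [div_le_iff₀ (by positivity)] at h2
    linarith
  have hDκ : 2 * (k : ℝ) * D.card ≤ κ / 8 * (Fintype.card V : ℝ) := by
    have h1 : (D.card : ℝ) ≤ κ / (16 * k) * (Fintype.card V : ℝ) :=
      hD.trans (mul_le_mul_of_nonneg_right hρ2 hn0)
    have h2 : 2 * (k : ℝ) * D.card ≤ 2 * (k : ℝ) * (κ / (16 * k) * (Fintype.card V : ℝ)) :=
      mul_le_mul_of_nonneg_left h1 (by positivity)
    have h3 : 2 * (k : ℝ) * (κ / (16 * k) * (Fintype.card V : ℝ)) =
        κ / 8 * (Fintype.card V : ℝ) := by
      field_simp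
      ring
    rw [h3] at h2
    exact h2
  have hDε : 2 * (k : ℝ) * D.card ≤ ε / 8 * (Fintype.card V : ℝ) := by
    have h1 : (D.card : ℝ) ≤ ε / (16 * k) * (Fintype.card V : ℝ) :=
      hD.trans (mul_le_mul_of_nonneg_right hρ3 hn0)
    have h2 : 2 * (k : ℝ) * D.card ≤ 2 * (k : ℝ) * (ε / (16 * k) * (Fintype.card V : ℝ)) :=
      mul_le_mul_of_nonneg_left h1 (by positivity)
    have h3 : 2 * (k : ℝ) * (ε / (16 * k) * (Fintype.card V : ℝ)) =
        ε / 8 * (Fintype.card V : ℝ) := by
      field_simp
      ring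
    rw [h3] at h2
    exact h2
  have hFW : FW H X k p ε :=
    neo V H X D k p (ε / 2) ρ ε (by omega) (by positivity) hnear hD (by linarith)
  -- main list
  obtain ⟨L₀, hL1, hL2, hL3, _, _, hL6⟩ := hrea ∅ (Finset.disjoint_empty_left _) (by
    rw [Finset.card_empty]
    norm_num)
  -- the capacity
  obtain ⟨K', hK'⟩ : ∃ K' : ℝ, K' = κ * (Fintype.card V : ℝ) - 2 * k := ⟨_, rfl⟩
  have hQ0 : (0 : ℝ) ≤ (Q : ℝ) := Nat.cast_nonneg _
  have hκn : 0 ≤ κ * (Fintype.card V : ℝ) := by positivity
  have hK'0 : 0 ≤ K' := by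
    rw [hK']
    linarith
  have hcxl : (cx k w).length = k - 1 := by
    unfold cx
    exact hPWT.2.2.1 w 0 (k - 1)
  -- passes
  have hpass : ∀ v ∈ D, Rea H X k p ε K' {v} (2 * k) (cx k w) (cx k w) (4 * k) (4 * t) := by
    intro v _
    refine hPST V H X k p t ε (κ * (Fintype.card V : ℝ)) K' w v (by omega) hFW hwl hwt ht1 htk htp
      (hpas v) ?_ hK'0
    rw [hK']
    linarith
  -- free periods
  have hfree : Rea H X k p ε K' ∅ 0 (cx k w) (cx k w) (4 * k) (4 * t) := by
    have h1 := hPER V H X k p ε ⌈K'⌉₊ w 0 (4 * k) (by omega) hwl (by rw [hwt]; exact htp)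
    have h2 := (per4 hPWT w 0 (k - 1)).1
    have h3 := (per4 hPWT w (0 + k - 1) 0).2
    rw [hwl] at h2 h3
    rw [h2, h3, hwt] at h1
    have h4 := hREL V H X k p ε ⌈K'⌉₊ _ _ _ _ 0 K' (by omega) hFW h1 (by
      have := Nat.le_ceil K'
      push_cast
      linarith)
    rw [Nat.mul_zero] at h4
    exact h4
  obtain ⟨L₁, hM1, hM2, hM3, hM4, hM5, hM6⟩ := hABQ V H X D k p t ε K' (cx k w) (by omega) hcxl
    hpass hfree (fx L₀).toFinset (by
      have h1 : ((fx L₀).toFinset.card : ℝ) ≤ (Q : ℝ) := by
        exact_mod_cast (List.toFinset_card_le _).trans (hL3.trans hqQ)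
      rw [hK']
      linarith)
  refine hclz V H X D p (ε / 2) (cx k w) (L₀ ++ L₁) hn1 (by linarith) hnear ?_ ?_ ?_ ?_ hX1 hX2 ?_
  · intro x hx
    rw [fx_append, List.mem_append]
    rcases hM5 x hx with h | h
    · exact Or.inl (List.mem_toFinset.1 h)
    · exact Or.inr h
  · rw [List.length_append, hL1, hM1]
    exact hN
  · have h1 : (fx (L₀ ++ L₁)).length ≤ Q + 2 * k * D.card := by
      rw [fx_append, List.length_append]
      exact Nat.add_le_add (hL3.trans hqQ) hM3
    have h2 : ((fx (L₀ ++ L₁)).length : ℝ) ≤ (Q : ℝ) + 2 * k * D.card := by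
      exact_mod_cast h1
    have h3 : 0 ≤ ε * (Fintype.card V : ℝ) := by positivity
    linarith
  · rw [cX_append, hL2, hM2]
    exact ha
  · refine lst_comp H X k p ε (cx k w) (cx k w) (cx k w) L₀ L₁ (by omega) hL6 hM6 ?_
    intro x hx hx'
    exact hM4 x hx' (List.mem_toFinset.2 hx)

end Pool.Agent.KK.H70
end

/-! ### Helper79_KK.EXT -/
section
/-!
# Squad KK, row EXT: excursions downwards with two tokens
-/

set_option autoImplicit false

namespace Pool.Agent.KK.H79

open Pool.Agent.KK

/-- two classes with letter X and the word with Y there -/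
theorem two_true {w : List Bool} {j : ℕ} (hw : wt w = j + 1) (hj : 1 ≤ j) :
    ∃ (c d : ℕ) (w₁ : List Bool), c < w.length ∧ d < w.length ∧ c ≠ d ∧ w₁.length = w.length ∧
      wt w₁ + 1 = j ∧ w₁.getD c true = false ∧ w₁.getD d true = false ∧
      ∀ i < w.length, w.getD i false = if i = c ∨ i = d then true else w₁.getD i false := by
  have h1 : true ∈ w := List.count_pos_iff.1 (by unfold wt at hw; omega)
  obtain ⟨c, hc, hc1⟩ := List.mem_iff_getElem.1 h1
  have h2 : wt (w.set c false) = j := by
    unfold wt at hw ⊢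
    rw [List.count_set hc, hc1, hw]
    simp
  have h3 : true ∈ w.set c false := List.count_pos_iff.1 (by unfold wt at h2; omega)
  obtain ⟨d, hd, hd1⟩ := List.mem_iff_getElem.1 h3
  have hd' : d < w.length := by rwa [List.length_set] at hd
  have hcd : c ≠ d := by
    rintro rfl
    rw [List.getElem_set_self] at hd1
    exact absurd hd1 (by decide)
  have hwd : w[d] = true := by
    rw [List.getElem_set_ne hcd] at hd1
    exact hd1
  refine ⟨c, d, (w.set c false).set d false, hc, hd', hcd, ?_, ?_, ?_, ?_, ?_⟩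
  · rw [List.length_set, List.length_set]
  · unfold wt at h2 ⊢
    rw [List.count_set hd, hd1, h2]
    simp
    omega
  · have hl : c < ((w.set c false).set d false).length := by
      rw [List.length_set, List.length_set]
      exact hc
    rw [List.getD_eq_getElem _ _ hl, List.getElem_set_ne hcd.symm, List.getElem_set_self]
  · have hl : d < ((w.set c false).set d false).length := by
      rw [List.length_set, List.length_set]
      exact hd'
    rw [List.getD_eq_getElem _ _ hl, List.getElem_set_self]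
  · intro i hi
    have hl : i < ((w.set c false).set d false).length := by
      rw [List.length_set, List.length_set]
      exact hi
    rw [List.getD_eq_getElem _ _ hi, List.getD_eq_getElem _ _ hl]
    by_cases hic : i = c
    · rw [if_pos (Or.inl hic)]
      subst hic
      exact hc1
    · by_cases hid : i = d
      · rw [if_pos (Or.inr hid)]
        subst hid
        exact hwd
      · rw [if_neg (by tauto), List.getElem_set_ne (Ne.symm hid), List.getElem_set_ne (Ne.symm hic)]

/-- weight of several periods -/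
theorem wt_per_mul (hPwt : PwtStmt) (w : List Bool) (a M : ℕ) :
    wt (per w a (w.length * M)) = wt w * M := by
  obtain ⟨p1, p2, p3, p4, _⟩ := hPwt
  induction M with
  | zero => simp [per, wt]
  | succ M ih =>
    rw [Nat.mul_succ, p4, Nat.mul_succ]
    have h1 : wt (per w a (w.length * M) ++ per w (a + w.length * M) w.length) =
        wt (per w a (w.length * M)) + wt (per w (a + w.length * M) w.length) := by
      unfold wt
      rw [List.count_append]
    rw [h1, ih, p1]

/-- the context does not change after several periods -/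
theorem per_mul (hPwt : PwtStmt) (w : List Bool) (a M m : ℕ) :
    per w (a + w.length * M) m = per w a m := by
  obtain ⟨p1, p2, p3, p4, _⟩ := hPwt
  induction M with
  | zero => rw [Nat.mul_zero, Nat.add_zero]
  | succ M ih => rw [Nat.mul_succ, ← Nat.add_assoc, p2, ih]

/-- EXT -/
theorem ext (hPut : PutStmt) (hPdt : PdtStmt) (hRel : RelStmt) (hCmo : CmoStmt)
    (hPer : PerStmt) (hPwt : PwtStmt) : ExtStmt := by
  intro k hk
  refine ⟨100 * k ^ 2, ?_⟩
  intro V _ _ H X p j ε K K' z₁ z₂ w hj hjk hp hz hFW hT₁ hT₂ hK' hK hwl hww M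
  obtain ⟨c, d, w₁, hc, hd, hcd, hl₁, hw₁, hg₁, hg₂, hgg⟩ := two_true hww hj
  rw [hwl] at hc hd hl₁ hgg
  have hpar : wt w₁ % 2 = p := by
    rw [← hp]
    omega
  have hkR : (3 : ℝ) ≤ (k : ℝ) := by exact_mod_cast hk
  have hk2 : (k : ℝ) ≤ (k : ℝ) ^ 2 := by nlinarith
  have hK1 : K' + 100 * (k : ℝ) ^ 2 ≤ K := by
    have := hK
    push_cast at this
    exact this
  -- the three pieces
  obtain ⟨a₁, ha₁, hR₁⟩ := hPdt V H X k p j ε K (K' + 10 * k) w₁ w c d z₁ (by omega) hFW hl₁ hwl
    hc hd hcd hw₁ hpar hT₁ hg₁ hg₂ hgg (by nlinarith) (by positivity)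
  obtain ⟨a₂, ha₂, hR₂, _⟩ := hPut V H X k p j ε K (K' + 10 * k) w₁ w c d z₂ (by omega) hFW hl₁
    hwl hc hd hcd hw₁ hpar hT₂ hg₁ hg₂ hgg (by nlinarith) (by positivity)
  obtain ⟨Kn, hKn⟩ := exists_nat_ge (K' + 10 * (k : ℝ))
  have hP := hPer V H X k p ε Kn w₁ 0 (k * M) (by omega) hl₁ hpar
  have e1 : per w₁ (0 + k * M) (k - 1) = per w₁ 0 (k - 1) := by
    have := per_mul hPwt w₁ 0 M (k - 1)
    rwa [hl₁] at this
  have e2 : wt (per w₁ (0 + k - 1) (k * M)) = wt w₁ * M := by
    have := wt_per_mul hPwt w₁ (0 + k - 1) M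
    rwa [hl₁] at this
  rw [e1, e2] at hP
  have hR₀ := hRel V H X k p ε Kn _ _ _ _ _ (K' + 10 * k) (by omega) hFW hP (by simpa using hKn)
  -- composition
  obtain ⟨_, hC, hMn⟩ := hCmo
  have hA := hC V H X {z₁} ∅ k p ε (K' + 10 * k) (K' + 5 * k) (2 * k) (2 * k * 0) _ _ _ _ _ _ _
    (by omega) hR₁ hR₀ (by simp) (by push_cast; simp; nlinarith)
  have hR₂' := hMn V H X {z₂} k p ε ε (K' + 10 * k) (K' + 5 * k) (2 * k) (2 * k) _ _ _ _ hR₂
    le_rfl (by nlinarith) le_rfl
  have hB := hC V H X ({z₁} ∪ ∅) {z₂} k p ε (K' + 5 * k) K' (2 * k + 2 * k * 0) (2 * k)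
    _ _ _ _ _ _ _ (by omega) hA hR₂' (by simpa using hz)
    (by push_cast; simp; nlinarith)
  refine ⟨4 * k + k * M + 4 * k, a₁ + wt w₁ * M + a₂, ?_, ?_, ?_, ?_⟩
  · have : 4 * k + k * M + 4 * k = k * (M + 8) := by ring
    rw [this, Nat.mul_mod_right]
  · nlinarith
  · have hw₁' : (wt w₁ : ℤ) = j - 1 := by
      have : ((wt w₁ + 1 : ℕ) : ℤ) = j := by rw [hw₁]
      push_cast at this
      linarith
    have e3 : (k : ℤ) * ((a₁ + wt w₁ * M + a₂ : ℕ) : ℤ) -
        (j + 1) * ((4 * k + k * M + 4 * k : ℕ) : ℤ) + 2 * k * M =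
        k * (a₁ + a₂) - 8 * k * (j + 1) := by
      push_cast
      rw [hw₁']
      ring
    rw [e3]
    have h1 : (a₁ : ℤ) ≤ 4 * k := by exact_mod_cast ha₁
    have h2 : (a₂ : ℤ) + 1 ≤ 4 * k := by exact_mod_cast ha₂
    have h3 : (j : ℤ) + 1 ≤ k := by exact_mod_cast hjk
    have h4 : (0 : ℤ) ≤ a₁ := Int.natCast_nonneg _
    have h5 : (0 : ℤ) ≤ a₂ := Int.natCast_nonneg _
    have h6 : (0 : ℤ) ≤ j := Int.natCast_nonneg _
    have h7 : (0 : ℤ) ≤ k := Int.natCast_nonneg _
    rw [abs_le]
    push_cast
    constructor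
    · nlinarith
    · nlinarith
  · have hfin := hMn V H X ({z₁} ∪ ∅ ∪ {z₂}) k p ε ε K' K' (2 * k + 2 * k * 0 + 2 * k)
      (100 * k ^ 2) _ _ _ _ hB le_rfl le_rfl (by nlinarith)
    have hset : ({z₁} ∪ ∅ ∪ {z₂} : Finset V) = {z₁, z₂} := by
      ext x
      simp
    rw [hset] at hfin
    exact hfin

end Pool.Agent.KK.H79
end

/-! ### Helper70_KK.NPO -/
section
/-! MP_747bc0_co, squad KK, block BETA part 2, row NPO: few atypical vertices. -/

set_option autoImplicit false

namespace Pool.Agent.KK.H70

open Pool.Agent.KK.H3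

variable {V : Type} [Fintype V] [DecidableEq V]

omit [Fintype V] in
/-- the labels of a completion -/
theorem lab_fit (X : Finset V) {s : List (Slot V)} {e : List V} (h : List.Forall₂ (Fit X) s e) :
    e.map (fun w => decide (w ∈ X)) =
      s.map (Sum.elim (fun w => decide (w ∈ X)) id) := by
  induction h with
  | nil => rfl
  | cons h1 _ ih =>
    rename_i a b _ _ _
    rw [List.map_cons, List.map_cons, ih]
    congr 1
    cases a with
    | inl v =>
      have h2 : v = b := h1
      rw [h2]
      rfl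
    | inr c =>
      have h2 : b ∈ X ↔ c = true := h1
      change decide (b ∈ X) = c
      cases c
      · rw [decide_eq_false_iff_not]
        intro h3
        exact absurd (h2.1 h3) (by simp)
      · rw [decide_eq_true_iff]
        exact h2.2 rfl

omit [Fintype V] in
theorem lab_slot (X : Finset V) (v : V) (u₁ u₂ : List Bool) :
    (fw u₁ ++ Sum.inl v :: fw u₂ : List (Slot V)).map (Sum.elim (fun w => decide (w ∈ X)) id) =
      u₁ ++ decide (v ∈ X) :: u₂ := by
  unfold fw
  rw [List.map_append, List.map_cons, List.map_map, List.map_map]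
  have h : (Sum.elim (fun w => decide (w ∈ X)) id) ∘ (Sum.inr : Bool → Slot V) = id := rfl
  rw [h, List.map_id, List.map_id]
  rfl

omit [Fintype V] in
theorem wt_ofFn (X : Finset V) {k : ℕ} (f : Fin k → V) :
    wt ((List.ofFn f).map fun w => decide (w ∈ X)) = xc X f := by
  unfold wt xc
  rw [List.map_ofFn, List.count, List.ofFn_eq_map, List.countP_map, Finset.card_def,
    Finset.filter_val, ← Multiset.countP_eq_card_filter, Fin.univ_def, Multiset.coe_countP]
  refine List.countP_congr fun x _ => ?_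
  simp

omit [Fintype V] [DecidableEq V] in
theorem exists_ofFn {k : ℕ} (e : List V) (h : e.length = k) : ∃ f : Fin k → V, List.ofFn f = e := by
  subst h
  exact ⟨e.get, List.ofFn_get e⟩

/-- functions with one given value and a value in a small set -/
theorem card_two (S : Finset V) {k : ℕ} (i₀ i : Fin k) (hi : i ≠ i₀) (v : V) :
    {f : Fin k → V | f i₀ = v ∧ f i ∈ S}.ncard ≤ S.card * Fintype.card V ^ (k - 2) := by
  have hsub : {f : Fin k → V | f i₀ = v ∧ f i ∈ S} ⊆
      ((Fintype.piFinset fun j => if j = i₀ then {v} else if j = i then S else Finset.univ :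
        Finset (Fin k → V)) : Set (Fin k → V)) := by
    rintro f ⟨h1, h2⟩
    rw [Finset.mem_coe, Fintype.mem_piFinset]
    intro j
    split_ifs with h3 h4
    · rw [h3, h1]
      exact Finset.mem_singleton_self v
    · rw [h4]
      exact h2
    · exact Finset.mem_univ _
  refine (Set.ncard_le_ncard hsub (Finset.finite_toSet _)).trans ?_
  rw [Set.ncard_coe_finset, Fintype.card_piFinset]
  rw [← Finset.mul_prod_erase Finset.univ _ (Finset.mem_univ i₀), if_pos rfl,
    Finset.card_singleton, one_mul]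
  have hi' : i ∈ Finset.univ.erase i₀ := Finset.mem_erase.2 ⟨hi, Finset.mem_univ _⟩
  rw [← Finset.mul_prod_erase _ _ hi', if_neg hi, if_pos rfl]
  have hc : ((Finset.univ.erase i₀).erase i).card = k - 2 := by
    rw [Finset.card_erase_of_mem hi', Finset.card_erase_of_mem (Finset.mem_univ _),
      Finset.card_univ, Fintype.card_fin]
    omega
  rw [Finset.prod_congr rfl (g := fun _ => Fintype.card V), Finset.prod_const, hc]
  intro j hj
  have hj1 := Finset.ne_of_mem_erase hj
  have hj2 := Finset.ne_of_mem_erase (Finset.mem_of_mem_erase hj)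
  rw [if_neg hj2, if_neg hj1, Finset.card_univ]

theorem npo : NpoStmt := by
  classical
  intro V _ _ H A X k p η γ ρ hk hp hη hγ hρ hNP hS
  obtain ⟨_, _, hB⟩ := hNP
  obtain ⟨B, hBdef⟩ : ∃ B : Set (Fin k → V), B = {f : Fin k → V | Function.Injective f ∧
    ¬ (Finset.univ.image f ∈ H ↔ xc A f % 2 = p % 2)} := ⟨_, rfl⟩
  rw [← hBdef] at hB
  have hBfin : B.Finite := Set.toFinite B
  obtain ⟨F, hF⟩ : ∃ F : Finset (Fin k → V), F = hBfin.toFinset := ⟨_, rfl⟩
  have hFcard : (F.card : ℝ) ≤ η * (Fintype.card V : ℝ) ^ k := by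
    rw [hF, ← Set.ncard_eq_toFinset_card B hBfin]
    exact hB
  obtain ⟨b, hb⟩ : ∃ b : V → ℕ,
    b = fun v => (F.filter fun f => v ∈ Finset.univ.image f).card := ⟨_, rfl⟩
  have hn0 : (0 : ℝ) ≤ (Fintype.card V : ℝ) := Nat.cast_nonneg _
  have hk0 : (0 : ℝ) ≤ (k : ℝ) := Nat.cast_nonneg _
  have hsum : ∑ v : V, b v ≤ k * F.card := by
    rw [hb]
    calc ∑ v : V, (F.filter fun f => v ∈ Finset.univ.image f).card
        = ∑ v : V, ∑ f ∈ F, (if v ∈ Finset.univ.image f then 1 else 0) := by
          refine Finset.sum_congr rfl fun v _ => ?_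
          rw [Finset.card_filter]
      _ = ∑ f ∈ F, ∑ v : V, (if v ∈ Finset.univ.image f then 1 else 0) := Finset.sum_comm
      _ = ∑ f ∈ F, (Finset.univ.image f).card := by
          refine Finset.sum_congr rfl fun f _ => ?_
          rw [Finset.sum_ite_mem, Finset.univ_inter, Finset.card_eq_sum_ones]
      _ ≤ ∑ _f ∈ F, k := by
          refine Finset.sum_le_sum fun f _ => ?_
          refine Finset.card_image_le.trans ?_
          rw [Finset.card_univ, Fintype.card_fin]
      _ = k * F.card := by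
          rw [Finset.sum_const, smul_eq_mul, mul_comm]
  obtain ⟨D₀, hD₀⟩ : ∃ D₀ : Finset V, D₀ = Finset.univ.filter fun v =>
    γ * (Fintype.card V : ℝ) ^ (k - 1) < (b v : ℝ) := ⟨_, rfl⟩
  have hD₀card : (D₀.card : ℝ) ≤ k * η / γ * (Fintype.card V : ℝ) := by
    rcases Nat.eq_zero_or_pos (Fintype.card V) with h0 | h0
    · have h1 : D₀.card = 0 := by
        have := Finset.card_le_univ D₀
        omega
      rw [h1, h0]
      simp
    · have h0' : (0 : ℝ) < (Fintype.card V : ℝ) := by exact_mod_cast h0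
      have h1 : (D₀.card : ℝ) * (γ * (Fintype.card V : ℝ) ^ (k - 1)) ≤
          k * (η * (Fintype.card V : ℝ) ^ k) := by
        calc (D₀.card : ℝ) * (γ * (Fintype.card V : ℝ) ^ (k - 1))
            = ∑ _v ∈ D₀, γ * (Fintype.card V : ℝ) ^ (k - 1) := by
              rw [Finset.sum_const, nsmul_eq_mul]
          _ ≤ ∑ v ∈ D₀, (b v : ℝ) := by
              refine Finset.sum_le_sum fun v hv => ?_
              rw [hD₀] at hv
              exact (Finset.mem_filter.1 hv).2.le
          _ ≤ ∑ v : V, (b v : ℝ) :=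
              Finset.sum_le_sum_of_subset_of_nonneg (Finset.subset_univ _)
                fun v _ _ => Nat.cast_nonneg _
          _ ≤ (k : ℝ) * F.card := by exact_mod_cast hsum
          _ ≤ k * (η * (Fintype.card V : ℝ) ^ k) := by gcongr
      have hpw : (Fintype.card V : ℝ) ^ k =
          (Fintype.card V : ℝ) ^ (k - 1) * (Fintype.card V : ℝ) := by
        rw [← pow_succ]
        congr 1
        omega
      rw [hpw] at h1
      have hpos : 0 < γ * (Fintype.card V : ℝ) ^ (k - 1) := by positivity
      have h2 : (D₀.card : ℝ) ≤ (k * (η * ((Fintype.card V : ℝ) ^ (k - 1) *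
          (Fintype.card V : ℝ)))) / (γ * (Fintype.card V : ℝ) ^ (k - 1)) := by
        rw [le_div_iff₀ hpos]
        exact h1
      refine h2.trans_eq ?_
      field_simp
  refine ⟨D₀ ∪ symmDiff X A, ?_, ?_⟩
  · have h1 : ((D₀ ∪ symmDiff X A).card : ℝ) ≤ (D₀.card : ℝ) + ((symmDiff X A).card : ℝ) := by
      exact_mod_cast Finset.card_union_le _ _
    have h2 : (k * η / γ + ρ) * (Fintype.card V : ℝ) =
      k * η / γ * (Fintype.card V : ℝ) + ρ * (Fintype.card V : ℝ) := by ring
    rw [h2]
    linarith
  · intro v hv u₁ u₂ hlen hpar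
    have hv1 : v ∉ D₀ := fun h => hv (Finset.mem_union_left _ h)
    have hv2 : v ∉ symmDiff X A := fun h => hv (Finset.mem_union_right _ h)
    have hbv : (b v : ℝ) ≤ γ * (Fintype.card V : ℝ) ^ (k - 1) := by
      by_contra h
      refine hv1 ?_
      rw [hD₀, Finset.mem_filter]
      exact ⟨Finset.mem_univ _, not_le.1 h⟩
    obtain ⟨i₀, hi₀⟩ : ∃ i₀ : Fin k, i₀.val = u₁.length := ⟨⟨u₁.length, by omega⟩, rfl⟩
    have hsub : BadC H X (fw u₁ ++ Sum.inl v :: fw u₂) ⊆ List.ofFn ''
        ((⋃ i ∈ (Finset.univ.erase i₀ : Finset (Fin k)),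
          {f : Fin k → V | f i₀ = v ∧ f i ∈ symmDiff X A}) ∪
          ((F.filter fun f => v ∈ Finset.univ.image f : Finset (Fin k → V)) :
            Set (Fin k → V))) := by
      rintro e ⟨he1, he2, he3⟩
      have hel : e.length = k := by
        rw [← he1.length_eq, List.length_append, List.length_cons, fw_length, fw_length]
        omega
      obtain ⟨f, rfl⟩ := exists_ofFn e hel
      refine ⟨f, ?_, rfl⟩
      have hfi₀ : f i₀ = v := by
        have h1 := (List.forall₂_iff_get.1 he1).2 u₁.length (by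
          rw [List.length_append, List.length_cons, fw_length, fw_length]
          omega) (by
          rw [List.length_ofFn]
          omega)
        have h2 : (fw u₁ ++ Sum.inl v :: fw u₂ : List (Slot V)).get ⟨u₁.length, by
            rw [List.length_append, List.length_cons, fw_length, fw_length]
            omega⟩ = Sum.inl v := by
          rw [List.get_eq_getElem]
          simp only
          rw [List.getElem_append_right (by rw [fw_length])]
          simp [fw_length]
        rw [h2, List.get_ofFn] at h1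
        have h3 : v = f _ := h1
        rw [h3]
        congr 1
        exact Fin.ext hi₀
      by_cases hex : ∃ i : Fin k, i ≠ i₀ ∧ f i ∈ symmDiff X A
      · left
        obtain ⟨i, hi, hfi⟩ := hex
        exact Set.mem_biUnion (x := i) (Finset.mem_coe.2
          (Finset.mem_erase.2 ⟨hi, Finset.mem_univ _⟩)) ⟨hfi₀, hfi⟩
      · right
        have hall : ∀ i, f i ∈ X ↔ f i ∈ A := by
          intro i
          have h1 : f i ∉ symmDiff X A := by
            by_cases hi : i = i₀
            · rw [hi, hfi₀]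
              exact hv2
            · exact fun h => hex ⟨i, hi, h⟩
          rw [Finset.mem_symmDiff] at h1
          tauto
        have hxc : xc A f = xc X f := by
          unfold xc
          congr 1
          refine Finset.filter_congr fun i _ => ?_
          exact (hall i).symm
        have h2 : xc X f % 2 = p := by
          rw [← wt_ofFn, lab_fit X he1, lab_slot]
          exact hpar
        rw [Finset.mem_coe, Finset.mem_filter, hF, Set.Finite.mem_toFinset, hBdef]
        refine ⟨⟨List.nodup_ofFn.1 he2, ?_⟩, ?_⟩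
        · have h3 : Finset.univ.image f = (List.ofFn f).toFinset := by
            ext x
            simp
          rw [h3, hxc, h2, Nat.mod_eq_of_lt hp]
          intro h4
          exact he3 (h4.2 rfl)
        · rw [← hfi₀]
          exact Finset.mem_image_of_mem _ (Finset.mem_univ _)
    have hcard : (BadC H X (fw u₁ ++ Sum.inl v :: fw u₂)).ncard ≤
        (k - 1) * ((symmDiff X A).card * Fintype.card V ^ (k - 2)) + b v := by
      refine (Set.ncard_le_ncard hsub (Set.toFinite _)).trans ?_
      refine (Set.ncard_image_le (Set.toFinite _)).trans ?_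
      refine (Set.ncard_union_le _ _).trans ?_
      rw [Set.ncard_coe_finset, hb]
      refine Nat.add_le_add_right ?_ _
      refine (Finset.set_ncard_biUnion_le _ _).trans ?_
      have h1 : (k - 1) * ((symmDiff X A).card * Fintype.card V ^ (k - 2)) =
          ∑ _i ∈ (Finset.univ.erase i₀ : Finset (Fin k)),
            (symmDiff X A).card * Fintype.card V ^ (k - 2) := by
        rw [Finset.sum_const, Finset.card_erase_of_mem (Finset.mem_univ _), Finset.card_univ,
          Fintype.card_fin, smul_eq_mul]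
      rw [h1]
      refine Finset.sum_le_sum fun i hi => ?_
      exact card_two _ i₀ i (Finset.ne_of_mem_erase hi) v
    have hcard' : ((BadC H X (fw u₁ ++ Sum.inl v :: fw u₂)).ncard : ℝ) ≤
        (k : ℝ) * (((symmDiff X A).card : ℝ) * (Fintype.card V : ℝ) ^ (k - 2)) + b v := by
      have h1 : (BadC H X (fw u₁ ++ Sum.inl v :: fw u₂)).ncard ≤
        k * ((symmDiff X A).card * Fintype.card V ^ (k - 2)) + b v :=
        hcard.trans (Nat.add_le_add_right (Nat.mul_le_mul_right _ (Nat.sub_le _ _)) _)
      exact_mod_cast h1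
    have hpw : (Fintype.card V : ℝ) ^ (k - 1) =
        (Fintype.card V : ℝ) * (Fintype.card V : ℝ) ^ (k - 2) := by
      rw [← pow_succ']
      congr 1
      omega
    have h5 : (k : ℝ) * (((symmDiff X A).card : ℝ) * (Fintype.card V : ℝ) ^ (k - 2)) ≤
        k * ρ * (Fintype.card V : ℝ) ^ (k - 1) := by
      rw [hpw]
      have h6 : ((symmDiff X A).card : ℝ) * (Fintype.card V : ℝ) ^ (k - 2) ≤
          (ρ * (Fintype.card V : ℝ)) * (Fintype.card V : ℝ) ^ (k - 2) := by
        gcongr
      calc (k : ℝ) * (((symmDiff X A).card : ℝ) * (Fintype.card V : ℝ) ^ (k - 2))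
          ≤ k * ((ρ * (Fintype.card V : ℝ)) * (Fintype.card V : ℝ) ^ (k - 2)) := by gcongr
        _ = _ := by ring
    have h7 : (γ + k * ρ) * (Fintype.card V : ℝ) ^ (k - 1) =
      γ * (Fintype.card V : ℝ) ^ (k - 1) + k * ρ * (Fintype.card V : ℝ) ^ (k - 1) := by ring
    rw [h7]
    linarith

end Pool.Agent.KK.H70
end

/-! ### Helper32_KK.G_EXC -/
section
/-!
# Squad KK, row G_EXC: exceptional vertices are few
-/

set_option autoImplicit false

open scoped BigOperators Classical

namespace Pool.Agent.KK.E.H32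

theorem image_elim {V κ : Type} [DecidableEq V] [Fintype κ] (f : Unit → V) (g : κ → V) :
    (∅ ∪ Finset.univ.image (Sum.elim f g) : Finset V) = {f ()} ∪ Finset.univ.image g := by
  ext v
  rw [Finset.empty_union, Finset.mem_image, Finset.mem_union, Finset.mem_singleton,
    Finset.mem_image]
  constructor
  · rintro ⟨i, _, hi⟩
    rcases i with i | i
    · left
      rw [← hi]
      rfl
    · right
      exact ⟨i, Finset.mem_univ _, hi⟩
  · rintro (h | ⟨i, _, hi⟩)
    · exact ⟨Sum.inl (), Finset.mem_univ _, h.symm⟩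
    · exact ⟨Sum.inr i, Finset.mem_univ _, hi⟩

theorem image_surj {V κ κ' : Type} [DecidableEq V] [Fintype κ] [Fintype κ'] (h : κ → V)
    (φ : κ' → κ) (hφ : Function.Surjective φ) :
    Finset.univ.image (h ∘ φ) = Finset.univ.image h := by
  ext v
  rw [Finset.mem_image, Finset.mem_image]
  constructor
  · rintro ⟨i, _, hi⟩
    exact ⟨φ i, Finset.mem_univ _, hi⟩
  · rintro ⟨i, _, hi⟩
    obtain ⟨j, rfl⟩ := hφ i
    exact ⟨j, Finset.mem_univ _, hi⟩

theorem dens_unit {V : Type} [Fintype V] [DecidableEq V] (A C : Finset V)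
    (R : (Unit → V) → Prop) (hC : ∀ v, v ∈ C ↔ v ∈ A ∧ R fun _ => v) :
    dens (fun _ : Unit => A) R = (C.card : ℝ) / A.card := by
  unfold dens
  have h1 : {f : Unit → V | (∀ i, f i ∈ A) ∧ R f} = (fun v (_ : Unit) => v) '' (C : Set V) := by
    ext f
    constructor
    · rintro ⟨h1, h2⟩
      refine ⟨f (), ?_, ?_⟩
      · rw [Finset.mem_coe, hC]
        exact ⟨h1 (), h2⟩
      · funext i
        rfl
    · rintro ⟨v, hv, rfl⟩
      rw [Finset.mem_coe, hC] at hv
      exact ⟨fun _ => hv.1, hv.2⟩
  have h2 : Function.Injective (fun (v : V) (_ : Unit) => v) := fun v w h => congrFun h ()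
  rw [h1, Set.ncard_image_of_injective _ h2, Set.ncard_coe_finset]
  congr 1
  simp

theorem gen {V : Type} [Fintype V] [DecidableEq V] (e02 : StmtE02) (e03 : StmtE03)
    (H : Finset (Finset V)) (A C : Finset V) (hA : A.Nonempty) {κ κ' : Type} [Fintype κ]
    [Fintype κ'] (d : κ → Finset V) (hd : ∀ i, (d i).Nonempty) (φ : κ' → Unit ⊕ κ)
    (hφ : Function.Bijective φ) (τ : ℝ) (hτ : 0 < τ)
    (hC : ∀ v, v ∈ C ↔ v ∈ A ∧ τ < dens d (fun g => {v} ∪ Finset.univ.image g ∈ H)) :
    (C.card : ℝ) * τ ≤
      dens ((Sum.elim (fun _ : Unit => A) d) ∘ φ) (fun g => ∅ ∪ Finset.univ.image g ∈ H) *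
        A.card := by
  have hA0 : (0 : ℝ) < A.card := by
    have := Finset.card_pos.2 hA
    exact_mod_cast this
  have h1 := (e03 V Unit κ (fun _ => A) d (fun _ => hA) hd).2.1
    (fun h : Unit ⊕ κ → V => ∅ ∪ Finset.univ.image h ∈ H) τ hτ
  have h2 : dens (Sum.elim (fun _ : Unit => A) d) (fun h => ∅ ∪ Finset.univ.image h ∈ H) =
      dens ((Sum.elim (fun _ : Unit => A) d) ∘ φ) (fun g => ∅ ∪ Finset.univ.image g ∈ H) := by
    rw [← e02 V (Unit ⊕ κ) κ' (Sum.elim (fun _ : Unit => A) d) φ (by
      intro i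
      rcases i with i | i
      · exact hA
      · exact hd i) hφ.1 (fun g => ∅ ∪ Finset.univ.image g ∈ H)]
    congr 1
    funext h
    rw [image_surj h φ hφ.2]
  have h3 : dens (fun _ : Unit => A) (fun f => τ < dens d (fun g =>
      ∅ ∪ Finset.univ.image (Sum.elim f g) ∈ H)) = (C.card : ℝ) / A.card := by
    apply dens_unit
    intro v
    rw [hC]
    have h4 : (fun g : κ → V => ∅ ∪ Finset.univ.image (Sum.elim (fun _ : Unit => v) g) ∈ H) =
        fun g : κ → V => {v} ∪ Finset.univ.image g ∈ H := by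
      funext g
      rw [image_elim]
    rw [h4]
  have h5 : τ * dens (fun _ : Unit => A) (fun f => τ < dens d (fun g =>
      ∅ ∪ Finset.univ.image (Sum.elim f g) ∈ H)) ≤
      dens (Sum.elim (fun _ : Unit => A) d) (fun h => ∅ ∪ Finset.univ.image h ∈ H) := h1
  rw [h3, h2, ← mul_div_assoc, div_le_iff₀ hA0] at h5
  linarith

/-- the first letter split off on the left -/
def phl (p q : ℕ) : Fin (p + 1) ⊕ Fin q → Unit ⊕ (Fin p ⊕ Fin q) :=
  Sum.elim (Fin.cases (Sum.inl ()) fun j => Sum.inr (Sum.inl j)) fun j => Sum.inr (Sum.inr j)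

theorem phl_bij (p q : ℕ) : Function.Bijective (phl p q) := by
  constructor
  · intro x y h
    rcases x with x | x <;> rcases y with y | y
    · refine Fin.cases ?_ (fun i => ?_) x h <;> refine Fin.cases ?_ (fun j => ?_) y
      · intro _
        rfl
      · intro h
        simp [phl] at h
      · intro h
        simp [phl] at h
      · intro h
        simp [phl] at h
        rw [h]
    · revert h
      refine Fin.cases ?_ (fun i => ?_) x
      · intro h
        simp [phl] at h
      · intro h
        simp [phl] at h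
    · revert h
      refine Fin.cases ?_ (fun i => ?_) y
      · intro h
        simp [phl] at h
      · intro h
        simp [phl] at h
    · simp [phl] at h
      rw [h]
  · intro z
    rcases z with z | z | z
    · exact ⟨Sum.inl 0, rfl⟩
    · exact ⟨Sum.inl z.succ, by simp [phl]⟩
    · exact ⟨Sum.inr z, rfl⟩

/-- the first letter split off on the right -/
def phr (p q : ℕ) : Fin p ⊕ Fin (q + 1) → Unit ⊕ (Fin p ⊕ Fin q) :=
  Sum.elim (fun j => Sum.inr (Sum.inl j)) (Fin.cases (Sum.inl ()) fun j => Sum.inr (Sum.inr j))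

theorem phr_bij (p q : ℕ) : Function.Bijective (phr p q) := by
  constructor
  · intro x y h
    rcases x with x | x <;> rcases y with y | y
    · simp [phr] at h
      rw [h]
    · revert h
      refine Fin.cases ?_ (fun i => ?_) y
      · intro h
        simp [phr] at h
      · intro h
        simp [phr] at h
    · revert h
      refine Fin.cases ?_ (fun i => ?_) x
      · intro h
        simp [phr] at h
      · intro h
        simp [phr] at h
    · refine Fin.cases ?_ (fun i => ?_) x h <;> refine Fin.cases ?_ (fun j => ?_) y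
      · intro _
        rfl
      · intro h
        simp [phr] at h
      · intro h
        simp [phr] at h
      · intro h
        simp [phr] at h
        rw [h]
  · intro z
    rcases z with z | z | z
    · exact ⟨Sum.inr 0, rfl⟩
    · exact ⟨Sum.inl z, rfl⟩
    · exact ⟨Sum.inr z.succ, by simp [phr]⟩

theorem lets_l {V : Type} [Fintype V] [DecidableEq V] (X : Finset V) (p q : ℕ) :
    (Sum.elim (fun _ : Unit => X) (lets X p q)) ∘ phl p q = lets X (p + 1) q := by
  funext x
  rcases x with x | x
  · refine Fin.cases ?_ (fun i => ?_) x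
    · rfl
    · simp [phl, lets]
  · rfl

theorem lets_r {V : Type} [Fintype V] [DecidableEq V] (X : Finset V) (p q : ℕ) :
    (Sum.elim (fun _ : Unit => Xᶜ) (lets X p q)) ∘ phr p q = lets X p (q + 1) := by
  funext x
  rcases x with x | x
  · rfl
  · refine Fin.cases ?_ (fun i => ?_) x
    · rfl
    · simp [phr, lets]

theorem lets_ne {V : Type} [Fintype V] [DecidableEq V] {X : Finset V} (h1 : X.Nonempty)
    (h2 : (Xᶜ).Nonempty) (p q : ℕ) (i : Fin p ⊕ Fin q) : (lets X p q i).Nonempty := by
  rcases i with i | i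
  · exact h1
  · exact h2

/-- G11 -/
theorem g_exc (_ : StmtE01) (e02 : StmtE02) (e03 : StmtE03) : StmtG11 := by
  intro V _ _ H X p q η hX hX' hη
  obtain ⟨C, hC⟩ : ∃ C : Finset V, ∀ v, v ∈ C ↔ Non H X p q η {v} :=
    ⟨Finset.univ.filter fun v => Non H X p q η {v}, fun v => by simp⟩
  refine ⟨C, hC, ?_⟩
  have hN1 : ∀ v ∈ X, (v ∈ C ↔ η 1 < D H X {v} p (q + 1)) := by
    intro v hv
    rw [hC]
    have e1 : ({v} : Finset V) ∩ X = {v} := Finset.inter_eq_left.2 (Finset.singleton_subset_iff.2 hv)
    have e2 : ({v} : Finset V) \ X = ∅ := Finset.sdiff_eq_empty_iff_subset.2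
      (Finset.singleton_subset_iff.2 hv)
    unfold Non
    rw [e1, e2, Finset.card_singleton, Finset.card_empty]
    constructor
    · rintro ⟨_, _, h⟩
      exact h
    · intro h
      exact ⟨by omega, by omega, h⟩
  have hN2 : ∀ v ∉ X, (v ∈ C ↔ η 1 < D H X {v} (p + 1) q) := by
    intro v hv
    rw [hC]
    have e1 : ({v} : Finset V) ∩ X = ∅ := Finset.singleton_inter_of_notMem hv
    have e2 : ({v} : Finset V) \ X = {v} := Finset.sdiff_eq_self_of_disjoint
      (Finset.disjoint_singleton_left.2 hv)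
    unfold Non
    rw [e1, e2, Finset.card_singleton, Finset.card_empty]
    constructor
    · rintro ⟨_, _, h⟩
      exact h
    · intro h
      exact ⟨by omega, by omega, h⟩
  have h1 := gen e02 e03 H X (C ∩ X) hX (lets X p (q + 1)) (lets_ne hX hX' p (q + 1))
    (phl p (q + 1)) (phl_bij p (q + 1)) (η 1) hη (by
      intro v
      rw [Finset.mem_inter]
      constructor
      · rintro ⟨h, hv⟩
        exact ⟨hv, (hN1 v hv).1 h⟩
      · rintro ⟨hv, h⟩
        exact ⟨(hN1 v hv).2 h, hv⟩)
  have h2 := gen e02 e03 H Xᶜ (C ∩ Xᶜ) hX' (lets X (p + 1) q) (lets_ne hX hX' (p + 1) q)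
    (phr (p + 1) q) (phr_bij (p + 1) q) (η 1) hη (by
      intro v
      rw [Finset.mem_inter, Finset.mem_compl]
      constructor
      · rintro ⟨h, hv⟩
        exact ⟨hv, (hN2 v hv).1 h⟩
      · rintro ⟨hv, h⟩
        exact ⟨(hN2 v hv).2 h, hv⟩)
  rw [lets_l] at h1
  rw [lets_r] at h2
  have h3 : (C.card : ℝ) = ((C ∩ X).card : ℝ) + ((C ∩ Xᶜ).card : ℝ) := by
    have h4 : (C ∩ X).card + (C ∩ Xᶜ).card = C.card := by
      rw [← Finset.sdiff_eq_inter_compl, Finset.card_inter_add_card_sdiff]
    exact_mod_cast h4.symm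
  have h5 : (X.card : ℝ) + ((Xᶜ : Finset V).card : ℝ) = Fintype.card V := by
    have h6 := Finset.card_add_card_compl X
    exact_mod_cast h6
  rw [h3, ← h5]
  show _ ≤ dens (lets X (p + 1) (q + 1)) (fun g => ∅ ∪ Finset.univ.image g ∈ H) * _
  nlinarith

end Pool.Agent.KK.E.H32
end
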