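import Pool.Agent.KKM.Base

/-! # MP_747bc0_co, merged modules -/

/-! ### Helper70_KK.NSP -/
section
/-! MP_747bc0_co, block B, row NSP: the neighbourhood of a good point of a split plane. -/

namespace Pool.Agent.KK.B.H70

open Function
open scoped Classical

theorem nsp (plt : PltStmt) : NspStmt := by
  intro k V _ _ E D β a i l hβ hβ16 hS hD hil hst hpl hsp
  obtain ⟨A, hA⟩ : ∃ A : V → Prop, A = fun p => D i (update a l p) := ⟨_, rfl⟩
  obtain ⟨B, hB⟩ : ∃ B : V → Prop, B = fun q => D l (update a i q) := ⟨_, rfl⟩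
  obtain ⟨N, hN⟩ : ∃ N : V → Prop, N = nb E a i := ⟨_, rfl⟩
  have h3 : |dens A - 1 / 2| ≤ β ∧ |dens B - 1 / 2| ≤ β ∧ pm (8 * β) A B := by
    rcases plt k V E D β a i l hβ hβ16 hS hD hil hpl with h | h | h
    · exfalso
      have h1 := h.1
      have h2 := hsp.1
      linarith
    · exfalso
      have h1 := h.1
      rw [dens_not] at h1
      have h2 := hsp.2
      linarith
    · rw [hA, hB]
      exact h.2
  obtain ⟨hA2, hB2, hAB⟩ := h3
  have hNd : (1 / 2 : ℝ) ≤ dens N := by
    rw [hN]
    exact hD a i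
  have hst' : dens (fun q => N q ∧ ¬ (D i a ↔ B q)) ≤ β := by
    rw [hN, hB]
    exact hst
  have hNB : pm (3 * β) N B := by
    have hB3 := abs_le.1 hB2
    by_cases hDa : D i a
    · left
      have h1 : dens (fun q => N q ∧ ¬ B q) ≤ β := by
        refine (dens_mono fun q hq => ?_).trans hst'
        exact ⟨hq.1, fun h => hq.2 (h.1 hDa)⟩
      have h4 := dens_split N B
      have h5 := dens_split B N
      have h6 : dens (fun q => B q ∧ N q) = dens (fun q => N q ∧ B q) :=
        dens_congr fun q => and_comm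
      have h7 : dens (fun q => ¬ (N q ↔ B q)) ≤
          dens (fun q => N q ∧ ¬ B q) + dens (fun q => B q ∧ ¬ N q) := by
        refine (dens_mono fun q hq => ?_).trans (dens_or_le _ _)
        tauto
      unfold near
      linarith
    · right
      have h1 : dens (fun q => N q ∧ B q) ≤ β := by
        refine (dens_mono fun q hq => ?_).trans hst'
        exact ⟨hq.1, fun h => hDa (h.2 hq.2)⟩
      have h4 := dens_split N B
      have h5 := dens_split (fun q => ¬ B q) N
      have h8 := dens_not B
      have h6 : dens (fun q => ¬ B q ∧ N q) = dens (fun q => N q ∧ ¬ B q) :=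
        dens_congr fun q => and_comm
      have h7 : dens (fun q => ¬ (N q ↔ ¬ B q)) ≤
          dens (fun q => N q ∧ B q) + dens (fun q => ¬ B q ∧ ¬ N q) := by
        refine (dens_mono fun q hq => ?_).trans (dens_or_le _ _)
        tauto
      unfold near
      linarith
  have hfin : pm (11 * β) N A := pm_mono (by linarith) (pm_trans hNB (pm_symm hAB))
  rw [hN, hA] at hfin
  refine ⟨hfin, ?_⟩
  rw [hA] at hA2
  have := abs_of_pm hfin hA2
  have h9 : 11 * β + β = 12 * β := by ring
  rwa [h9] at this

end Pool.Agent.KK.B.H70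
end

/-! ### Helper39_KK.E_DEG -/
section
/-! MP_747bc0_co, squad KK, block E, row E_DEG (StmtE04): degenerate tuples are few. -/

set_option autoImplicit false

namespace Pool.Agent.KK.E.H39

section tools

variable {V : Type} [Fintype V] [DecidableEq V]

/-- one coordinate -/
theorem dens_unit_le (A W : Finset V) (hA : A.Nonempty) :
    dens (fun _ : Unit => A) (fun g => g () ∈ W) ≤ (W.card : ℝ) / (A.card : ℝ) := by
  unfold dens
  rw [Finset.prod_const, Finset.card_univ, Fintype.card_unit, pow_one]
  apply div_le_div_of_nonneg_right _ (by positivity)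
  have h1 : ({f : Unit → V | (∀ i, f i ∈ A) ∧ f () ∈ W}).ncard ≤ (W : Set V).ncard := by
    apply Set.ncard_le_ncard_of_injOn (fun f => f ()) (fun f hf => hf.2) _ (Set.toFinite _)
    intro f _ g _ h
    funext u
    exact h
  rw [Set.ncard_coe_finset] at h1
  exact_mod_cast h1

/-- two equal coordinates -/
theorem dens_bool_le (A : Bool → Finset V) (hA : ∀ b, (A b).Nonempty) :
    dens A (fun g => g true = g false) ≤ 1 / ((A true).card : ℝ) := by
  unfold dens
  rw [Fintype.prod_bool]
  have h1 : ({f : Bool → V | (∀ i, f i ∈ A i) ∧ f true = f false}).ncard ≤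
      ((A false : Finset V) : Set V).ncard := by
    apply Set.ncard_le_ncard_of_injOn (fun f => f false) (fun f hf => hf.1 false) _
      (Set.toFinite _)
    intro f hf g hg h
    funext b
    cases b
    · exact h
    · exact hf.2.trans (h.trans hg.2.symm)
  rw [Set.ncard_coe_finset] at h1
  have h2 : (0 : ℝ) < (A true).card := by exact_mod_cast (hA true).card_pos
  have h3 : (0 : ℝ) < (A false).card := by exact_mod_cast (hA false).card_pos
  rw [div_le_div_iff₀ (by positivity) h2, one_mul]
  have h4 : (({f : Bool → V | (∀ i, f i ∈ A i) ∧ f true = f false}).ncard : ℝ) ≤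
      (A false).card := by exact_mod_cast h1
  calc _ ≤ ((A false).card : ℝ) * (A true).card := by gcongr
    _ = _ := by ring

end tools

/-- row E_DEG; the hypothesis `StmtE03` is not needed -/
theorem e_deg (e01 : StmtE01) (e02 : StmtE02) : StmtE04 := by
  intro V _ _ ι _ X W l o hn hX ho
  classical
  have hn' : (0 : ℝ) < Fintype.card V := by exact_mod_cast hn
  have hcard : ∀ b, (0 : ℝ) < (sd X b).card := by
    intro b
    have := hX b
    linarith
  have hsd : ∀ b, (sd X b).Nonempty := by
    intro b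
    rw [← Finset.card_pos]
    exact_mod_cast hcard b
  have hc : ∀ i, (bx X l o i).Nonempty := by
    intro i
    unfold bx
    cases h : o i with
    | none => exact hsd _
    | some v => exact Finset.singleton_nonempty v
  have hnone : ∀ i, o i = none → bx X l o i = sd X (l i) := by
    intro i h
    unfold bx
    rw [h]
    rfl
  have hsome : ∀ i v, o i = some v → bx X l o i = {v} := by
    intro i v h
    unfold bx
    rw [h]
    rfl
  obtain ⟨h0, hmono, -, -, -, hun⟩ := e01 V ι (bx X l o) hc
  have hempty : ∀ P : (ι → V) → Prop, (∀ f, (∀ i, f i ∈ bx X l o i) → ¬ P f) →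
      dens (bx X l o) P = 0 := by
    intro P hP
    unfold dens
    have h1 : {f : ι → V | (∀ i, f i ∈ bx X l o i) ∧ P f} = ∅ := by
      ext f
      simp only [Set.mem_setOf_eq, Set.mem_empty_iff_false, iff_false, not_and]
      exact hP f
    rw [h1]
    simp
  -- the first kind of events
  have hE1 : ∀ i, dens (bx X l o) (fun f => o i = none ∧ f i ∈ W) ≤
      3 * (W.card : ℝ) / Fintype.card V := by
    intro i
    by_cases h : o i = none
    · have h1 := e02 V ι Unit (bx X l o) (fun _ => i) hc (fun _ _ _ => rfl)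
        (fun g => g () ∈ W)
      have h2 : dens (bx X l o) (fun f => o i = none ∧ f i ∈ W) ≤
          dens (bx X l o) (fun f => (f ∘ fun _ : Unit => i) () ∈ W) :=
        hmono _ _ (fun f _ hf => hf.2)
      have h3 : (bx X l o ∘ fun _ : Unit => i) = fun _ : Unit => sd X (l i) := by
        funext u
        exact hnone i h
      rw [h1, h3] at h2
      refine h2.trans ((dens_unit_le _ W (hsd _)).trans ?_)
      rw [div_le_div_iff₀ (hcard _) hn']
      have h4 := hX (l i)
      have h5 : (0 : ℝ) ≤ W.card := by positivity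
      nlinarith
    · rw [hempty _ (fun f _ hf => h hf.1)]
      positivity
  -- the second kind of events
  have hgen : ∀ i i', i ≠ i' → o i = none →
      dens (bx X l o) (fun f => f i = f i') ≤ 3 / Fintype.card V := by
    intro i i' hii h
    let φ : Bool → ι := fun b => if b = true then i else i'
    have hφt : φ true = i := rfl
    have hφf : φ false = i' := rfl
    have hφ : Function.Injective φ := by
      intro a b hab
      cases a <;> cases b
      · rfl
      · exact absurd hab.symm hii
      · exact absurd hab hii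
      · rfl
    have h1 := e02 V ι Bool (bx X l o) φ hc hφ (fun g => g true = g false)
    have h2 : dens (bx X l o) (fun f => f i = f i') =
        dens (bx X l o) (fun f => (f ∘ φ) true = (f ∘ φ) false) := rfl
    rw [h2, h1]
    refine (dens_bool_le _ (fun b => hc (φ b))).trans ?_
    have h3 : bx X l o (φ true) = sd X (l i) := hnone i h
    rw [h3, div_le_div_iff₀ (hcard _) hn', one_mul]
    exact hX (l i)
  have hE2 : ∀ x : ι × ι, dens (bx X l o) (fun f => x.1 ≠ x.2 ∧ f x.1 = f x.2) ≤
      3 / Fintype.card V := by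
    rintro ⟨i, i'⟩
    show dens (bx X l o) (fun f => i ≠ i' ∧ f i = f i') ≤ _
    by_cases hii : i = i'
    · rw [hempty _ (fun f _ hf => hf.1 hii)]
      positivity
    · by_cases h : o i = none
      · exact (hmono _ _ (fun f _ hf => hf.2)).trans (hgen i i' hii h)
      · by_cases h' : o i' = none
        · exact (hmono _ (fun f => f i' = f i) (fun f _ hf => hf.2.symm)).trans
            (hgen i' i (fun h => hii h.symm) h')
        · obtain ⟨v, hv⟩ := Option.ne_none_iff_exists'.1 h
          obtain ⟨v', hv'⟩ := Option.ne_none_iff_exists'.1 h'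
          rw [hempty _ (fun f hf hf' => ?_)]
          · positivity
          · have h1 := hf i
            have h2 := hf i'
            rw [hsome i v hv, Finset.mem_singleton] at h1
            rw [hsome i' v' hv', Finset.mem_singleton] at h2
            have h3 : v = v' := by rw [← h1, ← h2]; exact hf'.2
            rw [← h3] at hv'
            exact hii (ho i i' v hv hv')
  -- union bound
  let P : ι ⊕ (ι × ι) → (ι → V) → Prop := fun t f =>
    Sum.elim (fun i => o i = none ∧ f i ∈ W) (fun x : ι × ι => x.1 ≠ x.2 ∧ f x.1 = f x.2) t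
  have h1 : dens (bx X l o) (fun f => ¬ (Function.Injective f ∧ ∀ i, o i = none → f i ∉ W)) ≤
      dens (bx X l o) (fun f => ∃ t, P t f) := by
    apply hmono
    intro f _ hf
    by_contra hno
    apply hf
    refine ⟨?_, ?_⟩
    · intro i i' hii
      by_contra hne
      exact hno ⟨Sum.inr (i, i'), hne, hii⟩
    · intro i hi hW
      exact hno ⟨Sum.inl i, hi, hW⟩
  refine h1.trans ((hun _ P).trans ?_)
  rw [Fintype.sum_sum_type]
  have h2 : ∑ i : ι, dens (bx X l o) (P (Sum.inl i)) ≤
      (Fintype.card ι : ℝ) * (3 * (W.card : ℝ) / Fintype.card V) := by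
    refine (Finset.sum_le_sum (fun i _ => hE1 i)).trans (le_of_eq ?_)
    rw [Finset.sum_const, Finset.card_univ, nsmul_eq_mul]
  have h3 : ∑ x : ι × ι, dens (bx X l o) (P (Sum.inr x)) ≤
      (Fintype.card ι : ℝ) * (Fintype.card ι : ℝ) * (3 / Fintype.card V) := by
    refine (Finset.sum_le_sum (fun x _ => hE2 x)).trans (le_of_eq ?_)
    rw [Finset.sum_const, Finset.card_univ, nsmul_eq_mul, Fintype.card_prod]
    push_cast
    ring
  refine (add_le_add h2 h3).trans (le_of_eq ?_)
  ring

end Pool.Agent.KK.E.H39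
end

/-! ### Helper64_KK.E_SUP -/
section
/-!
# Katona-Kierstead, block E, row E_SUP: the supply lemma `StmtE15`

Hypotheses used: `StmtE01 StmtE02 StmtE07 StmtE10 StmtE12 StmtE13 StmtE14`.
-/

set_option autoImplicit false
set_option linter.unusedSectionVars false

namespace Pool.Agent.KK.E.H64

open Finset

section General

variable {V : Type} [Fintype V] [DecidableEq V]

/-- Additivity of the density. -/
lemma dens_split {ι : Type} [Fintype ι] (c : ι → Finset V) (A P : (ι → V) → Prop) :
    dens c (fun f => A f ∧ P f) + dens c (fun f => A f ∧ ¬ P f) = dens c A := by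
  unfold dens
  rw [← add_div, ← Nat.cast_add, ← Set.ncard_union_eq]
  · have h : ({f : ι → V | (∀ i, f i ∈ c i) ∧ A f ∧ P f} ∪
        {f : ι → V | (∀ i, f i ∈ c i) ∧ A f ∧ ¬ P f}) = {f : ι → V | (∀ i, f i ∈ c i) ∧ A f} := by
      ext f
      simp only [Set.mem_union, Set.mem_ofPred_eq]
      tauto
    rw [h]
  · rw [Set.disjoint_left]
    intro f hf hf'
    exact hf'.2.2 hf.2.2

lemma eta_mono {k B : ℕ} {η θ : ℕ → ℝ} {h δ : ℝ} (hc : Cst k B η θ h δ) (hk : 1 ≤ k) {i j : ℕ}
    (hij : i < j) (hj : j ≤ k) :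
    8 * (k : ℝ) * 4 ^ k * ((B : ℝ) + 1) * η i ≤ η j := by
  induction j with
  | zero => omega
  | succ j ih =>
    have h1 := hc.step j (by omega)
    rcases Nat.lt_succ_iff_lt_or_eq.mp hij with hlt | heq
    · have h2 := ih hlt (by omega)
      have hpos : 0 < η j := hc.pos j (by omega)
      have hk' : (1 : ℝ) ≤ k := by exact_mod_cast hk
      have h4 : (1 : ℝ) ≤ 4 ^ k := one_le_pow₀ (by norm_num)
      have hB : (0 : ℝ) ≤ B := Nat.cast_nonneg B
      have h5 : (1 : ℝ) ≤ 8 * (k : ℝ) * 4 ^ k * ((B : ℝ) + 1) := by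
        have e1 : (1 : ℝ) ≤ 8 * (k : ℝ) := by linarith
        have e2 : (1 : ℝ) ≤ 8 * (k : ℝ) * 4 ^ k := by nlinarith
        nlinarith
      nlinarith
    · rw [heq]; exact h1

lemma eta_le {k B : ℕ} {η θ : ℕ → ℝ} {h δ : ℝ} (hc : Cst k B η θ h δ) (hk : 1 ≤ k) {i j : ℕ}
    (hij : i ≤ j) (hj : j ≤ k) : η i ≤ η j := by
  rcases eq_or_lt_of_le hij with heq | hlt
  · rw [heq]
  · have h2 := eta_mono hc hk hlt hj
    have hpos : 0 < η i := hc.pos i (by omega)
    have hk' : (1 : ℝ) ≤ k := by exact_mod_cast hk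
    have h4 : (1 : ℝ) ≤ 4 ^ k := one_le_pow₀ (by norm_num)
    have hB : (0 : ℝ) ≤ B := Nat.cast_nonneg B
    have h5 : (1 : ℝ) ≤ 8 * (k : ℝ) * 4 ^ k * ((B : ℝ) + 1) := by
      have e1 : (1 : ℝ) ≤ 8 * (k : ℝ) := by linarith
      have e2 : (1 : ℝ) ≤ 8 * (k : ℝ) * 4 ^ k := by nlinarith
      nlinarith
    nlinarith

/-- Numerical consequences of the constants. -/
lemma num1 {k B : ℕ} {η θ : ℕ → ℝ} {h δ : ℝ} (hc : Cst k B η θ h δ) (hk : 2 ≤ k) :
    h < 1 / 4 ∧ h ≤ 1 ∧ (2 : ℝ) ^ k * (1 / (8 * (k : ℝ) * 4 ^ k * ((B : ℝ) + 1))) ≤ 1 / 16 ∧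
      (B : ℝ) * η 1 ≤ 1 / 16 := by
  have hk' : (2 : ℝ) ≤ k := by exact_mod_cast hk
  have h2 : (1 : ℝ) ≤ 2 ^ k := one_le_pow₀ (by norm_num)
  have h4 : (1 : ℝ) ≤ 4 ^ k := one_le_pow₀ (by norm_num)
  have h24 : (2 : ℝ) ^ k ≤ 4 ^ k := pow_le_pow_left₀ (by norm_num) (by norm_num) k
  have hB : (0 : ℝ) ≤ B := Nat.cast_nonneg B
  have hs := hc.hsmall
  have hb : (16 : ℝ) ≤ 8 * (k : ℝ) * 2 ^ k := by nlinarith
  have hs' : (1 : ℝ) / (8 * (k : ℝ) * 2 ^ k) ≤ 1 / 16 :=
    one_div_le_one_div_of_le (by norm_num) hb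
  have hP : 0 < 8 * (k : ℝ) * 4 ^ k * ((B : ℝ) + 1) := by positivity
  refine ⟨by linarith, by linarith, ?_, ?_⟩
  · rw [mul_one_div, div_le_div_iff₀ hP (by norm_num)]
    have e1 : (16 : ℝ) * 2 ^ k ≤ 8 * (k : ℝ) * 4 ^ k := by nlinarith
    have e2 : 8 * (k : ℝ) * 4 ^ k * 1 ≤ 8 * (k : ℝ) * 4 ^ k * ((B : ℝ) + 1) :=
      mul_le_mul_of_nonneg_left (by linarith) (by positivity)
    linarith
  · have e1 := hc.step 1 (by omega)
    have e2 := hc.half 2 (by omega)
    have hpos : 0 < η 1 := hc.pos 1 (by omega)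
    have e3 : (16 : ℝ) ≤ 8 * (k : ℝ) * 4 ^ k := by nlinarith
    have e4 : (16 : ℝ) * ((B : ℝ) + 1) * η 1 ≤ 8 * (k : ℝ) * 4 ^ k * ((B : ℝ) + 1) * η 1 := by
      have : (16 : ℝ) * ((B : ℝ) + 1) ≤ 8 * (k : ℝ) * 4 ^ k * ((B : ℝ) + 1) :=
        mul_le_mul_of_nonneg_right e3 (by linarith)
      exact mul_le_mul_of_nonneg_right this hpos.le
    have e5 : (16 : ℝ) * ((B : ℝ) + 1) * η 1 ≤ 1 / 2 := by
      have : η (1 + 1) = η 2 := rfl
      linarith
    nlinarith

lemma card_inter_of_subset {M X : Finset V} (h : M ⊆ X) : (M ∩ X).card = M.card := by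
  rw [inter_eq_left.mpr h]

lemma card_sdiff_of_subset' {M X : Finset V} (h : M ⊆ X) : (M \ X).card = 0 := by
  rw [card_eq_zero, sdiff_eq_empty_iff_subset]; exact h

/-- A non-normal subset of `X` that is not mixed is flipped. -/
lemma flip_lemma (h10 : StmtE10) {H : Finset (Finset V)} {X M : Finset V} {p q B : ℕ} {δ h : ℝ}
    {η θ : ℕ → ℝ} (ha : Amb H X p q B δ) (hc : Cst (p + q + 2) B η θ h δ)
    (hN : Non H X p q η M) (hne : M.Nonempty) (hX : M ⊆ X)
    (hmix : Mix H X M (p + 1 - M.card) q ≤ θ M.card) :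
    M.card ≤ p + 1 ∧ D H X M (p + 2 - M.card) q ≤ h := by
  obtain ⟨h1, h2, h3⟩ := hN
  rw [card_inter_of_subset hX] at h1 h3
  rw [card_sdiff_of_subset' hX] at h3
  have hpos : 1 ≤ M.card := hne.card_pos
  have hnum := num1 hc (by omega)
  have e10 := h10 V H X M p q B (p + 1 - M.card) q δ (η M.card) (θ M.card) h ha (by omega)
    (hc.pos _ (by omega)) (by have := hc.half M.card (by omega); linarith) hc.hpos hnum.2.1
    (hc.tsmall _ hpos (by omega)) ?_ h3.le hmix
  · refine ⟨h1, ?_⟩
    have : p + 1 - M.card + 1 = p + 2 - M.card := by omega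
    rw [this] at e10
    exact e10
  · have e0 : η 0 ≤ η M.card := eta_le hc (by omega) (Nat.zero_le _) (by omega)
    have ed := hc.dsmall
    have hk' : (2 : ℝ) ≤ ((p + q + 2 : ℕ) : ℝ) := by
      have : 2 ≤ p + q + 2 := by omega
      exact_mod_cast this
    have h4 : (1 : ℝ) ≤ 4 ^ (p + q + 2) := one_le_pow₀ (by norm_num)
    have hB : (0 : ℝ) ≤ B := Nat.cast_nonneg B
    have hdpos := hc.dpos
    have hh := hc.hpos
    rw [le_div_iff₀ (by positivity)]
    have e1 : δ * (16 * ((p + q + 2 : ℕ) : ℝ)) ≤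
        100 * ((p + q + 2 : ℕ) : ℝ) * 4 ^ (p + q + 2) * ((B : ℝ) + 1) * δ := by
      have f1 : 100 * ((p + q + 2 : ℕ) : ℝ) * 1 ≤
          100 * ((p + q + 2 : ℕ) : ℝ) * 4 ^ (p + q + 2) :=
        mul_le_mul_of_nonneg_left h4 (by positivity)
      have f2 : 100 * ((p + q + 2 : ℕ) : ℝ) * 4 ^ (p + q + 2) * 1 ≤
          100 * ((p + q + 2 : ℕ) : ℝ) * 4 ^ (p + q + 2) * ((B : ℝ) + 1) :=
        mul_le_mul_of_nonneg_left (by linarith) (by positivity)
      have f3 : 16 * ((p + q + 2 : ℕ) : ℝ) ≤
          100 * ((p + q + 2 : ℕ) : ℝ) * 4 ^ (p + q + 2) * ((B : ℝ) + 1) := by linarith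
      have f4 := mul_le_mul_of_nonneg_right f3 hdpos.le
      linarith
    have e2 : η 0 * h ≤ η M.card * h := mul_le_mul_of_nonneg_right e0 hh.le
    linarith

/-- The symmetric statement. -/
lemma flip_lemma' (h07 : StmtE07) (h10 : StmtE10) {H : Finset (Finset V)} {X M : Finset V}
    {p q B : ℕ} {δ h : ℝ} {η θ : ℕ → ℝ} (hXn : X.Nonempty) (hXn' : (Xᶜ).Nonempty)
    (ha : Amb H X p q B δ)
    (hc : Cst (p + q + 2) B η θ h δ)
    (hN : Non H X p q η M) (hne : M.Nonempty) (hX : M ⊆ Xᶜ)
    (hmix : Mix H X M p (q + 1 - M.card) ≤ θ M.card) :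
    M.card ≤ q + 1 ∧ D H X M p (q + 2 - M.card) ≤ h := by
  obtain ⟨s1, s2, s3, s4, s5⟩ := h07 V H X hXn hXn'
  have hc' : Cst (q + p + 2) B η θ h δ := by
    have : q + p + 2 = p + q + 2 := by omega
    rw [this]; exact hc
  have := flip_lemma h10 (s5 p q B δ ha) hc' ((s3 p q η M).mpr hN) hne hX
    (by rw [s2]; exact hmix)
  rw [s1] at this
  exact this

/-- Re-indexing by `Sum.swap`. -/
lemma lets_swap (X : Finset V) (a b : ℕ) :
    (lets X a b) ∘ (Sum.swap : Fin b ⊕ Fin a → Fin a ⊕ Fin b) = lets Xᶜ b a := by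
  funext i
  rcases i with i | i
  · simp [lets]
  · simp [lets]

lemma lets_nonempty {X : Finset V} (hXn : X.Nonempty) (hXn' : (Xᶜ).Nonempty) (a b : ℕ) :
    ∀ i, (lets X a b i).Nonempty := by
  rintro (i | i)
  · simpa [lets] using hXn
  · simpa [lets] using hXn'

lemma image_swap {a b : ℕ} (f : Fin a ⊕ Fin b → V) :
    (univ : Finset (Fin b ⊕ Fin a)).image (f ∘ Sum.swap) = univ.image f := by
  ext v
  simp only [mem_image, mem_univ, true_and, Function.comp_apply]
  constructor
  · rintro ⟨i, hi⟩; exact ⟨_, hi⟩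
  · rintro ⟨i, hi⟩; exact ⟨i.swap, by rw [Sum.swap_swap]; exact hi⟩

lemma Rx_swap {p q : ℕ} (f : Fin (p + 1) ⊕ Fin (q + 1) → V) :
    Rx (p := q) (q := p) (f ∘ Sum.swap) = Ry f := by
  unfold Rx Ry
  ext v
  simp only [mem_image, mem_filter, mem_univ, true_and, Function.comp_apply]
  constructor
  · rintro ⟨i, hi, rfl⟩
    refine ⟨i.swap, ?_, rfl⟩
    intro h
    apply hi
    have := congrArg Sum.swap h
    rw [Sum.swap_swap] at this
    simpa using this
  · rintro ⟨i, hi, rfl⟩
    refine ⟨i.swap, ?_, by rw [Sum.swap_swap]⟩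
    intro h
    apply hi
    have := congrArg Sum.swap h
    rw [Sum.swap_swap] at this
    simpa using this

lemma Ry_swap {p q : ℕ} (f : Fin (p + 1) ⊕ Fin (q + 1) → V) :
    Ry (p := q) (q := p) (f ∘ Sum.swap) = Rx f := by
  unfold Rx Ry
  ext v
  simp only [mem_image, mem_filter, mem_univ, true_and, Function.comp_apply]
  constructor
  · rintro ⟨i, hi, rfl⟩
    refine ⟨i.swap, ?_, rfl⟩
    intro h
    apply hi
    have := congrArg Sum.swap h
    rw [Sum.swap_swap] at this
    simpa using this
  · rintro ⟨i, hi, rfl⟩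
    refine ⟨i.swap, ?_, by rw [Sum.swap_swap]⟩
    intro h
    apply hi
    have := congrArg Sum.swap h
    rw [Sum.swap_swap] at this
    simpa using this

lemma Gen_swap {H : Finset (Finset V)} {X W : Finset V} {p q : ℕ} {η : ℕ → ℝ}
    (s3 : ∀ p q η M, Non H Xᶜ q p η M ↔ Non H X p q η M)
    (f : Fin (p + 1) ⊕ Fin (q + 1) → V) :
    Gen H Xᶜ q p η W ∅ (f ∘ (Sum.swap : Fin (q + 1) ⊕ Fin (p + 1) → _)) ↔
      Gen H X p q η W ∅ f := by
  unfold Gen
  rw [image_swap]
  constructor
  · rintro ⟨h1, h2, h3⟩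
    refine ⟨?_, ?_, ?_⟩
    · intro i j hij
      have := h1 (a₁ := i.swap) (a₂ := j.swap) (by simpa [Function.comp_apply] using hij)
      have := congrArg Sum.swap this
      simpa using this
    · intro i
      have := h2 i.swap
      simpa [Function.comp_apply] using this
    · intro N hN
      rw [← s3 p q η N]
      exact h3 N hN
  · rintro ⟨h1, h2, h3⟩
    refine ⟨?_, ?_, ?_⟩
    · intro i j hij
      have := h1 (a₁ := i.swap) (a₂ := j.swap) (by simpa [Function.comp_apply] using hij)
      have := congrArg Sum.swap this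
      simpa using this
    · intro i
      exact h2 i.swap
    · intro N hN
      rw [s3 p q η N]
      exact h3 N hN

lemma insert_Ry {p q : ℕ} (f : Fin (p + 1) ⊕ Fin (q + 1) → V) (v : V) :
    insert v (Ry f) =
      {v} ∪ univ.image (f ∘ (Sum.map Fin.succ id : Fin p ⊕ Fin (q + 1) → _)) := by
  unfold Ry
  ext w
  simp only [mem_insert, mem_union, mem_singleton, mem_image, mem_filter, mem_univ, true_and,
    Function.comp_apply]
  apply or_congr Iff.rfl
  constructor
  · rintro ⟨i, hi, rfl⟩
    rcases i with i | i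
    · have hi' : i ≠ 0 := fun h => hi (by rw [h])
      obtain ⟨j, rfl⟩ := Fin.exists_succ_eq.mpr hi'
      exact ⟨Sum.inl j, rfl⟩
    · exact ⟨Sum.inr i, rfl⟩
  · rintro ⟨i, rfl⟩
    rcases i with i | i
    · exact ⟨Sum.inl i.succ, by simp, rfl⟩
    · exact ⟨Sum.inr i, by simp, rfl⟩

lemma insert_Rx {p q : ℕ} (f : Fin (p + 1) ⊕ Fin (q + 1) → V) (v : V) :
    insert v (Rx f) =
      {v} ∪ univ.image (f ∘ (Sum.map id Fin.succ : Fin (p + 1) ⊕ Fin q → _)) := by
  unfold Rx
  ext w
  simp only [mem_insert, mem_union, mem_singleton, mem_image, mem_filter, mem_univ, true_and,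
    Function.comp_apply]
  apply or_congr Iff.rfl
  constructor
  · rintro ⟨i, hi, rfl⟩
    rcases i with i | i
    · exact ⟨Sum.inl i, rfl⟩
    · have hi' : i ≠ 0 := fun h => hi (by rw [h])
      obtain ⟨j, rfl⟩ := Fin.exists_succ_eq.mpr hi'
      exact ⟨Sum.inr j, rfl⟩
  · rintro ⟨i, rfl⟩
    rcases i with i | i
    · exact ⟨Sum.inl i, by simp, rfl⟩
    · exact ⟨Sum.inr i.succ, by simp, rfl⟩

/-- Marginal of the edge event for `insert v (Ry f)`. -/
lemma dens_Ry (h02 : StmtE02) {H : Finset (Finset V)} {X : Finset V} {p q : ℕ}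
    (hXn : X.Nonempty) (hXn' : (Xᶜ).Nonempty) (v : V) :
    dens (lets X (p + 1) (q + 1)) (fun f => insert v (Ry f) ∈ H) = D H X {v} p (q + 1) := by
  have hφ : Function.Injective
      (Sum.map Fin.succ id : Fin p ⊕ Fin (q + 1) → Fin (p + 1) ⊕ Fin (q + 1)) :=
    Function.Injective.sumMap (Fin.succ_injective _) Function.injective_id
  have e := h02 V (Fin (p + 1) ⊕ Fin (q + 1)) (Fin p ⊕ Fin (q + 1)) (lets X (p + 1) (q + 1))
    (Sum.map Fin.succ id) (lets_nonempty hXn hXn' _ _) hφ (fun g => {v} ∪ univ.image g ∈ H)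
  have e2 : (lets X (p + 1) (q + 1)) ∘ (Sum.map Fin.succ id : Fin p ⊕ Fin (q + 1) → _) =
      lets X p (q + 1) := by
    funext i
    rcases i with i | i <;> rfl
  rw [e2] at e
  unfold D
  rw [← e]
  congr 1
  funext f
  rw [insert_Ry]

lemma dens_Rx (h02 : StmtE02) {H : Finset (Finset V)} {X : Finset V} {p q : ℕ}
    (hXn : X.Nonempty) (hXn' : (Xᶜ).Nonempty) (v : V) :
    dens (lets X (p + 1) (q + 1)) (fun f => insert v (Rx f) ∈ H) = D H X {v} (p + 1) q := by
  have hφ : Function.Injective
      (Sum.map id Fin.succ : Fin (p + 1) ⊕ Fin q → Fin (p + 1) ⊕ Fin (q + 1)) :=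
    Function.Injective.sumMap Function.injective_id (Fin.succ_injective _)
  have e := h02 V (Fin (p + 1) ⊕ Fin (q + 1)) (Fin (p + 1) ⊕ Fin q) (lets X (p + 1) (q + 1))
    (Sum.map id Fin.succ) (lets_nonempty hXn hXn' _ _) hφ (fun g => {v} ∪ univ.image g ∈ H)
  have e2 : (lets X (p + 1) (q + 1)) ∘ (Sum.map id Fin.succ : Fin (p + 1) ⊕ Fin q → _) =
      lets X (p + 1) q := by
    funext i
    rcases i with i | i <;> rfl
  rw [e2] at e
  unfold D
  rw [← e]
  congr 1
  funext f
  rw [insert_Rx]

/-- The inequality of a single vertex outside `X`. -/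
lemma vertex' (h02 : StmtE02) (h07 : StmtE07) (h13 : StmtE13) {H : Finset (Finset V)}
    {X F' : Finset V} {p q B : ℕ} {δ h : ℝ} {η θ : ℕ → ℝ} {v : V} (hXn : X.Nonempty)
    (hXn' : (Xᶜ).Nonempty) (ha : Amb H X p q B δ) (hc : Cst (p + q + 2) B η θ h δ)
    (hG : GA H X p q η h F') (hF : F'.card ≤ B + (p + q + 2)) (h0 : ¬ Non H X p q η ∅)
    (hv : v ∉ X) (hvF : v ∉ F') (hvN : ¬ Non H X p q η {v}) :
    dens (lets X (p + 1) (q + 1)) (fun f => Gen H X p q η F' ∅ f ∧
        v ∉ univ.image f ∧ insert v (Rx f) ∈ H) ≤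
      dens (lets X (p + 1) (q + 1)) (fun f => Gen H X p q η F' ∅ f ∧
        v ∉ univ.image f ∧ insert v (Ry f) ∉ H) := by
  obtain ⟨s1, s2, s3, s4, s5⟩ := h07 V H X hXn hXn'
  have hc' : Cst (q + p + 2) B η θ h δ := by
    have : q + p + 2 = p + q + 2 := by omega
    rw [this]; exact hc
  have hG' : GA H Xᶜ q p η h F' := by
    intro M hM hd
    rcases hG M ((s4 p q η M).mp hM) hd with ⟨g1, g2⟩ | ⟨g1, g2⟩
    · right
      refine ⟨by rw [compl_compl]; exact g1, ?_⟩
      rw [s1]; exact g2
    · left
      refine ⟨g1, ?_⟩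
      rw [s1]; exact g2
  have e := h13 V H Xᶜ F' q p B δ h η θ v (s5 p q B δ ha) hc' hG'
    (by omega) (by rw [s3]; exact h0) (by rw [mem_compl]; exact hv) hvF
    (by rw [s3]; exact hvN)
  have hswap : Function.Injective
      (Sum.swap : Fin (q + 1) ⊕ Fin (p + 1) → Fin (p + 1) ⊕ Fin (q + 1)) := by
    intro i j hij
    have := congrArg Sum.swap hij
    simpa using this
  have r1 := h02 V (Fin (p + 1) ⊕ Fin (q + 1)) (Fin (q + 1) ⊕ Fin (p + 1))
    (lets X (p + 1) (q + 1)) Sum.swap (lets_nonempty hXn hXn' _ _) hswap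
    (fun f => Gen H Xᶜ q p η F' ∅ f ∧ v ∉ univ.image f ∧ insert v (Ry f) ∈ H)
  have r2 := h02 V (Fin (p + 1) ⊕ Fin (q + 1)) (Fin (q + 1) ⊕ Fin (p + 1))
    (lets X (p + 1) (q + 1)) Sum.swap (lets_nonempty hXn hXn' _ _) hswap
    (fun f => Gen H Xᶜ q p η F' ∅ f ∧ v ∉ univ.image f ∧ insert v (Rx f) ∉ H)
  rw [lets_swap] at r1 r2
  rw [← r1, ← r2] at e
  simp only [Gen_swap s3, image_swap, Rx_swap, Ry_swap] at e
  exact e

end General

theorem e_sup (h01 : StmtE01) (h02 : StmtE02) (h07 : StmtE07) (h10 : StmtE10) (h12 : StmtE12)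
    (h13 : StmtE13) (h14 : StmtE14) : StmtE15 := by
  intro V _ _ H X p q B δ h η θ ha hc hNF hD0
  classical
  have hnum := num1 hc (by omega)
  have hbig := ha.big
  have hdpos := ha.pos
  -- n > 0
  have hnpos : (0 : ℝ) < (Fintype.card V : ℝ) := by
    by_contra hcon
    have h0 : (Fintype.card V : ℝ) = 0 :=
      le_antisymm (not_lt.mp hcon) (Nat.cast_nonneg _)
    rw [h0, mul_zero] at hbig
    have : (0 : ℝ) < 100 * ((p + q + 2 : ℕ) : ℝ) ^ 2 * ((B + p + q + 2 : ℕ) : ℝ) := by
      have e1 : (0 : ℝ) < ((p + q + 2 : ℕ) : ℝ) := by exact_mod_cast (by omega : 0 < p + q + 2)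
      have e2 : (0 : ℝ) < ((B + p + q + 2 : ℕ) : ℝ) := by
        exact_mod_cast (by omega : 0 < B + p + q + 2)
      positivity
    linarith
  have hsm := ha.small
  have hXn : X.Nonempty := by
    rw [← card_pos]
    have h1 := ha.lo
    have h2 : (0 : ℝ) < (X.card : ℝ) := by nlinarith
    exact_mod_cast h2
  have hXn' : (Xᶜ).Nonempty := by
    rw [← card_pos]
    have h1 := ha.lo'
    have h2 : (0 : ℝ) < ((Xᶜ).card : ℝ) := by nlinarith
    exact_mod_cast h2
  have h0 : ¬ Non H X p q η ∅ := by
    rintro ⟨-, -, h3⟩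
    simp only [empty_inter, card_empty, Nat.sub_zero, empty_sdiff] at h3
    linarith
  have hMst : ∀ v, Non H X p q η {v} → Mst H X p q η {v} := by
    intro v hv
    refine ⟨hv, ?_⟩
    intro M' hM'
    have : M' = ∅ := by
      rw [ssubset_singleton_iff] at hM'
      exact hM'
    rw [this]; exact h0
  -- single vertices are good
  have hgood : ∀ v, Non H X p q η {v} → GoodM H X p q η θ {v} := by
    intro v hv
    refine ⟨hMst v hv, ?_⟩
    by_cases hvX : v ∈ X
    · right; left
      refine ⟨singleton_nonempty v, by simpa using hvX, by simp, ?_⟩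
      by_contra hcon
      have hf := flip_lemma h10 ha hc hv (singleton_nonempty v) (by simpa using hvX)
        (not_lt.mp hcon)
      have hf2 := hf.2
      have h14' := hNF.1 v hvX
      rw [card_singleton] at hf2
      have e : p + 2 - 1 = p + 1 := by omega
      rw [e] at hf2
      linarith [hnum.1]
    · right; right
      have hvX' : ({v} : Finset V) ⊆ Xᶜ := by simpa using hvX
      refine ⟨singleton_nonempty v, hvX', by simp, ?_⟩
      by_contra hcon
      have hf := flip_lemma' h07 h10 hXn hXn' ha hc hv (singleton_nonempty v) hvX'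
        (not_lt.mp hcon)
      have hf2 := hf.2
      have h14' := hNF.2 v hvX
      rw [card_singleton] at hf2
      have e : q + 2 - 1 = q + 1 := by omega
      rw [e] at hf2
      linarith [hnum.1]
  set C : Finset V := univ.filter fun v => Non H X p q η {v} with hCdef
  have hCmem : ∀ v, v ∈ C ↔ Non H X p q η {v} := by
    intro v; simp [hCdef]
  by_cases hCcard : p + q + 2 ≤ C.card
  · left
    obtain ⟨Z, hZC, hZ⟩ := exists_subset_card_eq hCcard
    exact ⟨Z, hZ, fun z hz => hgood z ((hCmem z).mp (hZC hz))⟩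
  · right
    intro F hF
    by_contra hcon
    push Not at hcon
    set F' : Finset V := F ∪ C with hF'def
    have hF'card : F'.card ≤ B + (p + q + 2) := by
      have := card_union_le F C
      rw [← hF'def] at this
      omega
    -- (GA)
    have hGA : GA H X p q η h F' := by
      intro M hM hd
      have hdF : Disjoint M F := by
        rw [hF'def, disjoint_union_right] at hd
        exact hd.1
      have hng : ¬ GoodM H X p q η θ M := fun hg => hcon M hg hdF
      have hMne : M.Nonempty := by
        rw [nonempty_iff_ne_empty]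
        rintro rfl
        exact h0 hM.1
      have hng' := fun hh => hng ⟨hM, hh⟩
      by_cases hb1 : (M ∩ X).Nonempty
      · have hb2 : ¬ (M \ X).Nonempty := fun hb2 => hng' (Or.inl ⟨hb1, hb2⟩)
        have hMX : M ⊆ X := by
          rw [not_nonempty_iff_eq_empty, sdiff_eq_empty_iff_subset] at hb2
          exact hb2
        left
        refine ⟨hMX, ?_⟩
        have hle : M.card ≤ p + 1 := by
          have := hM.1.1
          rwa [card_inter_of_subset hMX] at this
        have hmix : Mix H X M (p + 1 - M.card) q ≤ θ M.card := by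
          by_contra hlt
          exact hng' (Or.inr (Or.inl ⟨hMne, hMX, hle, not_le.mp hlt⟩))
        exact (flip_lemma h10 ha hc hM.1 hMne hMX hmix).2
      · have hMX : M ⊆ Xᶜ := by
          intro v hv
          rw [mem_compl]
          intro hvX
          exact hb1 ⟨v, mem_inter.mpr ⟨hv, hvX⟩⟩
        right
        refine ⟨hMX, ?_⟩
        have hle : M.card ≤ q + 1 := by
          have := hM.1.2.1
          have e : M \ X = M := by
            rw [Finset.sdiff_eq_self_iff_disjoint, disjoint_left]
            intro v hv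
            exact mem_compl.mp (hMX hv)
          rwa [e] at this
        have hmix : Mix H X M p (q + 1 - M.card) ≤ θ M.card := by
          by_contra hlt
          exact hng' (Or.inr (Or.inr ⟨hMne, hMX, hle, not_le.mp hlt⟩))
        exact (flip_lemma' h07 h10 hXn hXn' ha hc hM.1 hMne hMX hmix).2
    -- densities
    obtain ⟨d1, d2, d3, d4, d5, d6⟩ := h01 V (Fin (p + 1) ⊕ Fin (q + 1))
      (lets X (p + 1) (q + 1)) (lets_nonempty hXn hXn' _ _)
    set G : (Fin (p + 1) ⊕ Fin (q + 1) → V) → Prop := fun f => Gen H X p q η F' ∅ f with hG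
    have hη1 : 0 < η 1 := hc.pos 1 (by omega)
    -- P(gen) ≥ 1/2
    have hPgen : 1 / 2 ≤ dens (lets X (p + 1) (q + 1)) G := by
      have hρ0 : (0 : ℝ) ≤ 1 / (8 * ((p + q + 2 : ℕ) : ℝ) * 4 ^ (p + q + 2) * ((B : ℝ) + 1)) := by
        positivity
      have e12 := h12 V (Fin (p + 1) ⊕ Fin (q + 1)) H X ∅ F' p q B δ
        (1 / (8 * ((p + q + 2 : ℕ) : ℝ) * 4 ^ (p + q + 2) * ((B : ℝ) + 1))) η
        (Sum.elim (fun _ => true) (fun _ => false)) ha hc.pos hρ0 ?_ ?_ (by omega) ?_
      · have hbox : (fun i => sd X ((Sum.elim (fun _ => true) (fun _ => false) :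
            Fin (p + 1) ⊕ Fin (q + 1) → Bool) i)) = lets X (p + 1) (q + 1) := by
          funext i
          rcases i with i | i <;> simp [sd, lets]
        rw [hbox] at e12
        have e4 := d4 G
        have hn := hnum.2.2.1
        linarith
      · intro i i' hii' hi'
        have e := eta_mono hc (by omega) hii' hi'
        have hP : 0 < 8 * ((p + q + 2 : ℕ) : ℝ) * 4 ^ (p + q + 2) * ((B : ℝ) + 1) := by
          have e1 : (0 : ℝ) < ((p + q + 2 : ℕ) : ℝ) := by
            exact_mod_cast (by omega : 0 < p + q + 2)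
          positivity
        rw [one_div, ← div_eq_inv_mul, le_div_iff₀ hP]
        linarith
      · simp only [card_empty, Fintype.card_sum, Fintype.card_fin]
        omega
      · intro A' hA'
        rw [subset_empty.mp hA']
        exact h0
    have e14 := h14 V H X F' p q η ha.uni ha.dirac hXn hXn'
      (by have := hc.half (p + q + 2) le_rfl; linarith)
    -- the terms
    set t : V → ℝ := fun v =>
      (dens (lets X (p + 1) (q + 1)) (fun f => Gen H X p q η F' ∅ f ∧
            v ∉ Finset.univ.image f ∧ insert v (Rx f) ∈ H) +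
          dens (lets X (p + 1) (q + 1)) (fun f => Gen H X p q η F' ∅ f ∧
            v ∉ Finset.univ.image f ∧ insert v (Ry f) ∈ H) -
          dens (lets X (p + 1) (q + 1)) (fun f => Gen H X p q η F' ∅ f ∧
            v ∉ Finset.univ.image f)) with ht
    have splitx : ∀ v, dens (lets X (p + 1) (q + 1)) (fun f => Gen H X p q η F' ∅ f ∧
            v ∉ Finset.univ.image f ∧ insert v (Rx f) ∈ H) +
          dens (lets X (p + 1) (q + 1)) (fun f => Gen H X p q η F' ∅ f ∧
            v ∉ Finset.univ.image f ∧ insert v (Rx f) ∉ H) =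
          dens (lets X (p + 1) (q + 1)) (fun f => Gen H X p q η F' ∅ f ∧
            v ∉ Finset.univ.image f) := by
      intro v
      have e := dens_split (lets X (p + 1) (q + 1))
        (fun f => Gen H X p q η F' ∅ f ∧ v ∉ Finset.univ.image f)
        (fun f => insert v (Rx f) ∈ H)
      simp only [and_assoc] at e
      exact e
    have splity : ∀ v, dens (lets X (p + 1) (q + 1)) (fun f => Gen H X p q η F' ∅ f ∧
            v ∉ Finset.univ.image f ∧ insert v (Ry f) ∈ H) +
          dens (lets X (p + 1) (q + 1)) (fun f => Gen H X p q η F' ∅ f ∧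
            v ∉ Finset.univ.image f ∧ insert v (Ry f) ∉ H) =
          dens (lets X (p + 1) (q + 1)) (fun f => Gen H X p q η F' ∅ f ∧
            v ∉ Finset.univ.image f) := by
      intro v
      have e := dens_split (lets X (p + 1) (q + 1))
        (fun f => Gen H X p q η F' ∅ f ∧ v ∉ Finset.univ.image f)
        (fun f => insert v (Ry f) ∈ H)
      simp only [and_assoc] at e
      exact e
    have tC : ∀ v, t v ≤ dens (lets X (p + 1) (q + 1)) G := by
      intro v
      have e1 := splity v
      have e2 : dens (lets X (p + 1) (q + 1)) (fun f => Gen H X p q η F' ∅ f ∧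
            v ∉ Finset.univ.image f ∧ insert v (Rx f) ∈ H) ≤
          dens (lets X (p + 1) (q + 1)) G := d2 _ _ (fun f _ hf => hf.1)
      have e3 := (d1 (fun f => Gen H X p q η F' ∅ f ∧
            v ∉ Finset.univ.image f ∧ insert v (Ry f) ∉ H)).1
      simp only [ht]
      linarith
    have tF : ∀ v, v ∉ C → t v ≤ η 1 := by
      intro v hv
      have hvN : ¬ Non H X p q η {v} := fun hh => hv ((hCmem v).mpr hh)
      by_cases hvX : v ∈ X
      · have e0 : D H X {v} p (q + 1) ≤ η 1 := by
          by_contra hlt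
          apply hvN
          have hsub : ({v} : Finset V) ⊆ X := by simpa using hvX
          refine ⟨?_, ?_, ?_⟩
          · rw [card_inter_of_subset hsub, card_singleton]; omega
          · rw [card_sdiff_of_subset' hsub]; omega
          · rw [card_inter_of_subset hsub, card_sdiff_of_subset' hsub, card_singleton]
            simpa using not_le.mp hlt
        have e1 := splitx v
        have e2 : dens (lets X (p + 1) (q + 1)) (fun f => Gen H X p q η F' ∅ f ∧
            v ∉ Finset.univ.image f ∧ insert v (Ry f) ∈ H) ≤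
          dens (lets X (p + 1) (q + 1)) (fun f => insert v (Ry f) ∈ H) :=
            d2 _ _ (fun f _ hf => hf.2.2)
        rw [dens_Ry h02 hXn hXn'] at e2
        have e3 := (d1 (fun f => Gen H X p q η F' ∅ f ∧
            v ∉ Finset.univ.image f ∧ insert v (Rx f) ∉ H)).1
        simp only [ht]
        linarith
      · have e0 : D H X {v} (p + 1) q ≤ η 1 := by
          by_contra hlt
          apply hvN
          have hi : ({v} : Finset V) ∩ X = ∅ := by
            rw [singleton_inter_of_notMem hvX]
          have hs : ({v} : Finset V) \ X = {v} := by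
            rw [Finset.sdiff_eq_self_iff_disjoint, disjoint_singleton_left]
            exact hvX
          refine ⟨?_, ?_, ?_⟩
          · rw [hi, card_empty]; omega
          · rw [hs, card_singleton]; omega
          · rw [hi, hs, card_singleton, card_empty]
            simpa using not_le.mp hlt
        have e1 := splity v
        have e2 : dens (lets X (p + 1) (q + 1)) (fun f => Gen H X p q η F' ∅ f ∧
            v ∉ Finset.univ.image f ∧ insert v (Rx f) ∈ H) ≤
          dens (lets X (p + 1) (q + 1)) (fun f => insert v (Rx f) ∈ H) :=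
            d2 _ _ (fun f _ hf => hf.2.2)
        rw [dens_Rx h02 hXn hXn'] at e2
        have e3 := (d1 (fun f => Gen H X p q η F' ∅ f ∧
            v ∉ Finset.univ.image f ∧ insert v (Ry f) ∉ H)).1
        simp only [ht]
        linarith
    have tN : ∀ v, v ∉ F' → t v ≤ 0 := by
      intro v hv
      have hvC : v ∉ C := fun hh => hv (mem_union_right _ hh)
      have hvN : ¬ Non H X p q η {v} := fun hh => hvC ((hCmem v).mpr hh)
      by_cases hvX : v ∈ X
      · have e13 := h13 V H X F' p q B δ h η θ v ha hc hGA hF'card h0 hvX hv hvN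
        have e1 := splitx v
        simp only [ht]
        linarith
      · have e13 := vertex' h02 h07 h13 hXn hXn' ha hc hGA hF'card h0 hvX hv hvN
        have e1 := splity v
        simp only [ht]
        linarith
    -- the sum
    have hbound : ∀ v, t v ≤ (if v ∈ C then dens (lets X (p + 1) (q + 1)) G else 0) +
        (if v ∈ F then η 1 else 0) := by
      intro v
      by_cases hvC : v ∈ C
      · have := tC v
        rw [if_pos hvC]
        split_ifs <;> linarith
      · rw [if_neg hvC]
        by_cases hvF : v ∈ F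
        · rw [if_pos hvF]
          have := tF v hvC
          linarith
        · rw [if_neg hvF]
          have := tN v (by
            rw [hF'def, mem_union]
            rintro (hh | hh)
            · exact hvF hh
            · exact hvC hh)
          linarith
    have hsum : ∑ v, t v ≤ (C.card : ℝ) * dens (lets X (p + 1) (q + 1)) G +
        (F.card : ℝ) * η 1 := by
      calc ∑ v, t v ≤ ∑ v, ((if v ∈ C then dens (lets X (p + 1) (q + 1)) G else 0) +
            (if v ∈ F then η 1 else 0)) := sum_le_sum (fun v _ => hbound v)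
        _ = _ := by
          rw [sum_add_distrib, sum_ite_mem, sum_ite_mem, univ_inter, univ_inter, sum_const,
            sum_const, nsmul_eq_mul, nsmul_eq_mul]
    have hCle : (C.card : ℝ) ≤ ((p + q + 2 : ℕ) : ℝ) - 1 := by
      have : C.card + 1 ≤ p + q + 2 := by omega
      have h' : ((C.card + 1 : ℕ) : ℝ) ≤ ((p + q + 2 : ℕ) : ℝ) := by exact_mod_cast this
      push_cast at h' ⊢
      linarith
    have hFle : (F.card : ℝ) ≤ (B : ℝ) := by exact_mod_cast hF
    have hPnn := (d1 G).1
    have f1 : (C.card : ℝ) * dens (lets X (p + 1) (q + 1)) G ≤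
        (((p + q + 2 : ℕ) : ℝ) - 1) * dens (lets X (p + 1) (q + 1)) G :=
      mul_le_mul_of_nonneg_right hCle hPnn
    have f2 : (F.card : ℝ) * η 1 ≤ (B : ℝ) * η 1 := mul_le_mul_of_nonneg_right hFle hη1.le
    have f3 := hnum.2.2.2
    have f4 : ((p + q + 2 : ℕ) : ℝ) * dens (lets X (p + 1) (q + 1)) G ≤ ∑ v, t v := e14
    linarith

end Pool.Agent.KK.E.H64
end

/-! ### Helper72_KK.EREV -/
section
/-!
# Squad KK, row E_REV (StmtE22): reversal and exchange of the colours
-/

set_option autoImplicit false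

namespace Pool.Agent.KK.E.H72

open Pool.Agent.KK Pool.Agent.KK.E

variable {V : Type} [Fintype V] [DecidableEq V]

omit [Fintype V] in
theorem tight_reverse (H : Finset (Finset V)) (k : ℕ) {l : List V} (h : Tight H k l) :
    Tight H k l.reverse := by
  intro s hs hk
  have h1 : s.reverse <:+: l := by
    rw [← List.reverse_infix, List.reverse_reverse]
    exact hs
  have h2 := h s.reverse h1 (by rw [List.length_reverse]; exact hk)
  rwa [List.toFinset_reverse] at h2

omit [Fintype V] in
theorem path_reverse (H : Finset (Finset V)) (k : ℕ) {l : List V} (h : Path H k l) :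
    Path H k l.reverse :=
  ⟨List.nodup_reverse.2 h.1, tight_reverse H k h.2⟩

theorem sd_compl (X : Finset V) (b : Bool) : sd Xᶜ (!b) = sd X b := by
  cases b <;> simp [sd]

theorem alm_rev (e02 : StmtE02) (X : Finset V) (hX : X.Nonempty) (hX' : (Xᶜ).Nonempty)
    (w : List Bool) (T : Set (List V)) (β : ℝ) (h : Alm X w T β) :
    Alm Xᶜ ((w.map not).reverse) {a | a.reverse ∈ T} β := by
  have hlen : ((w.map not).reverse).length = w.length := by simp
  have hne : ∀ (Y : Finset V), Y.Nonempty → (Yᶜ).Nonempty → ∀ b, (sd Y b).Nonempty := by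
    intro Y h1 h2 b
    cases b
    · simpa [sd] using h2
    · simpa [sd] using h1
  have hφ : ∀ i : Fin w.length, w.length - 1 - (i : ℕ) < ((w.map not).reverse).length := by
    intro i
    rw [hlen]
    have := i.2
    omega
  have hinj : Function.Injective
      (fun i : Fin w.length => (⟨w.length - 1 - (i : ℕ), hφ i⟩ : Fin ((w.map not).reverse).length))
      := by
    intro i j hij
    have h1 : w.length - 1 - (i : ℕ) = w.length - 1 - (j : ℕ) := by
      simpa using hij
    apply Fin.ext
    have := i.2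
    have := j.2
    omega
  have key := e02 V (Fin ((w.map not).reverse).length) (Fin w.length)
    (fun i => sd Xᶜ (((w.map not).reverse).get i))
    (fun i : Fin w.length => (⟨w.length - 1 - (i : ℕ), hφ i⟩ : Fin ((w.map not).reverse).length))
    (fun i => hne Xᶜ hX' (by rw [compl_compl]; exact hX) _) hinj
    (fun a => List.ofFn a ∉ T)
  have hc : ((fun i => sd Xᶜ (((w.map not).reverse).get i)) ∘
      (fun i : Fin w.length => (⟨w.length - 1 - (i : ℕ), hφ i⟩ :
        Fin ((w.map not).reverse).length))) = fun i : Fin w.length => sd X (w.get i) := by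
    funext i
    have h1 : ((w.map not).reverse).get ⟨w.length - 1 - (i : ℕ), hφ i⟩ = !(w.get i) := by
      rw [List.get_eq_getElem, List.getElem_reverse, List.getElem_map]
      have h2 : (w.map not).length - 1 - (w.length - 1 - (i : ℕ)) = i := by
        rw [List.length_map]
        have := i.2
        omega
      simp only [h2]
      rfl
    show sd Xᶜ (((w.map not).reverse).get ⟨w.length - 1 - (i : ℕ), hφ i⟩) = _
    rw [h1, sd_compl]
  rw [hc] at key
  have hP : (fun f : Fin ((w.map not).reverse).length → V => List.ofFn (f ∘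
      (fun i : Fin w.length => (⟨w.length - 1 - (i : ℕ), hφ i⟩ :
        Fin ((w.map not).reverse).length))) ∉ T) =
      fun f => List.ofFn f ∉ {a : List V | a.reverse ∈ T} := by
    funext f
    have h1 : List.ofFn (f ∘ (fun i : Fin w.length => (⟨w.length - 1 - (i : ℕ), hφ i⟩ :
        Fin ((w.map not).reverse).length))) = (List.ofFn f).reverse := by
      apply List.ext_getElem
      · rw [List.length_ofFn, List.length_reverse, List.length_ofFn, hlen]
      · intro n h1 h2
        rw [List.getElem_reverse, List.getElem_ofFn, List.getElem_ofFn]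
        show f ⟨w.length - 1 - n, _⟩ = f ⟨(List.ofFn f).length - 1 - n, _⟩
        congr 1
        apply Fin.ext
        show w.length - 1 - n = (List.ofFn f).length - 1 - n
        rw [List.length_ofFn, hlen]
    rw [h1]
    rfl
  rw [hP] at key
  unfold Alm at h ⊢
  rw [key]
  exact h

theorem low_rev (p q : ℕ) : ((high p q).map not).reverse = low q p := by
  simp [high, low, List.map_append, List.map_replicate, List.reverse_append, List.reverse_replicate]

theorem high_rev (p q : ℕ) : ((low p q).map not).reverse = high q p := by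
  simp [high, low, List.map_append, List.map_replicate, List.reverse_append, List.reverse_replicate]

theorem amb_nonempty {H : Finset (Finset V)} {X : Finset V} {p q B : ℕ} {δ : ℝ}
    (h : Amb H X p q B δ) : X.Nonempty ∧ (Xᶜ).Nonempty := by
  have h1 : 0 < 100 * ((p + q + 2 : ℕ) : ℝ) ^ 2 * ((B + p + q + 2 : ℕ) : ℝ) := by
    positivity
  have h2 := lt_of_lt_of_le h1 h.big
  have h3 : 0 < (Fintype.card V : ℝ) := by
    by_contra h4
    have h5 : δ * (Fintype.card V : ℝ) ≤ 0 :=
      mul_nonpos_of_nonneg_of_nonpos h.pos.le (not_lt.1 h4)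
    linarith
  have h4 : 0 < (1 - δ) * (Fintype.card V : ℝ) / 2 := by
    have := h.small
    have : 0 < 1 - δ := by linarith
    positivity
  constructor
  · rw [← Finset.card_pos]
    have := lt_of_lt_of_le h4 h.lo
    exact_mod_cast this
  · rw [← Finset.card_pos]
    have := lt_of_lt_of_le h4 h.lo'
    exact_mod_cast this

/-- E22 (row E_REV). -/
theorem e_rev (e02 : StmtE02) (e07 : StmtE07) (e21 : StmtE21) : StmtE22 := by
  intro V _ _ H X M F p q B δ h β η θ S T hA hC hβ hM hMne hMX hMc hθ hF hd hS hT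
  obtain ⟨hX, hX'⟩ := amb_nonempty hA
  obtain ⟨-, d2, -, d4, d5⟩ := e07 V H X hX hX'
  have hpq : p + q + 2 = q + p + 2 := by omega
  have a1 : Amb H Xᶜ q p B δ := d5 p q B δ hA
  have a2 : Cst (q + p + 2) B η θ h δ := hpq ▸ hC
  have a3 : Mst H Xᶜ q p η M := (d4 p q η M).2 hM
  have a4 : θ M.card < Mix H Xᶜ M (q + 1 - M.card) p := by
    rw [d2]
    exact hθ
  have a5 : Alm Xᶜ (low q p) {a | a.reverse ∈ T} β := by
    have := alm_rev e02 X hX hX' (high p q) T β hT
    rwa [low_rev] at this
  have a6 : Alm Xᶜ (high q p) {a | a.reverse ∈ S} β := by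
    have := alm_rev e02 X hX hX' (low p q) S β hS
    rwa [high_rev] at this
  obtain ⟨l, l1, l2, l3, l4, l5, l6⟩ := e21 V H Xᶜ M F q p B δ h β η θ
    {a | a.reverse ∈ T} {a | a.reverse ∈ S} a1 a2 hβ a3 hMne hMX hMc a4 hF hd a5 a6
  rw [← hpq] at l1 l2 l3 l4
  refine ⟨l.reverse, path_reverse H _ l1, by rw [List.length_reverse]; exact l2, ?_, ?_, ?_, ?_⟩
  · rw [List.take_reverse]
    have e : l.length - (p + q + 2 - 1) = 2 * (p + q + 2) - 1 := by rw [l2]; omega
    rw [e]
    exact l4
  · rw [List.drop_reverse]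
    have e : l.length - (2 * (p + q + 2) - 1) = p + q + 2 - 1 := by rw [l2]; omega
    rw [e]
    exact l3
  · rw [List.toFinset_reverse]; exact l5
  · rw [List.toFinset_reverse]; exact l6

end Pool.Agent.KK.E.H72
end

/-! ### Helper86_KK.JON -/
section
/-!
# Squad KK, row JON: joining inside an indecomposable class
-/

set_option autoImplicit false

open scoped BigOperators
open Finset

namespace Pool.Agent.KK.H86

section count

variable {V : Type} [Fintype V] [DecidableEq V]

/-- a set of tuples in which the entry `i` is determined by the other ones -/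
theorem ncard_det {m : ℕ} (i : Fin (m + 1)) (S : Set (Fin (m + 1) → V))
    (h : ∀ w ∈ S, ∀ w' ∈ S, Fin.removeNth i w = Fin.removeNth i w' → w i = w' i) :
    S.ncard ≤ Fintype.card V ^ m := by
  have h1 : S.ncard ≤ (Set.univ : Set (Fin m → V)).ncard := by
    refine Set.ncard_le_ncard_of_injOn (fun w => Fin.removeNth i w) (fun w _ => Set.mem_univ _) ?_
      (Set.toFinite _)
    intro w hw w' hw' hww
    have h2 := h w hw w' hw' hww
    rw [← Fin.insertNth_self_removeNth i w, ← Fin.insertNth_self_removeNth i w', h2]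
    exact congrArg _ hww
  rw [Set.ncard_univ, Nat.card_eq_fintype_card, Fintype.card_fun, Fintype.card_fin] at h1
  exact h1

/-- the index set of the possible repetitions -/
abbrev KI (m e : ℕ) : Type := Fin m × (Fin m ⊕ (Fin e ⊕ Fin e))

/-- the repetition -/
def Rep {m e : ℕ} (a b : Fin e → V) (k : KI m e) : Set (Fin m → V) :=
  {w | match k.2 with
    | Sum.inl j => k.1 ≠ j ∧ w k.1 = w j
    | Sum.inr (Sum.inl l) => w k.1 = a l
    | Sum.inr (Sum.inr l) => w k.1 = b l}

theorem ncard_rep {m e : ℕ} (a b : Fin e → V) (k : KI (m + 1) e) :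
    (Rep a b k).ncard ≤ Fintype.card V ^ m := by
  obtain ⟨i, x⟩ := k
  refine ncard_det i _ ?_
  intro w hw w' hw' h
  rcases x with j | l | l
  · obtain ⟨hij, h1⟩ := hw
    obtain ⟨-, h2⟩ := hw'
    change i ≠ j at hij
    change w i = w j at h1
    change w' i = w' j at h2
    rw [h1, h2]
    obtain ⟨k, hk⟩ := Fin.exists_succAbove_eq (Ne.symm hij)
    have h3 := congrFun h k
    change w (i.succAbove k) = w' (i.succAbove k) at h3
    rwa [hk] at h3
  · change w i = a l at hw
    change w' i = a l at hw'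
    rw [hw, hw']
  · change w i = b l at hw
    change w' i = b l at hw'
    rw [hw, hw']

theorem nodup_of {m e : ℕ} (a b : Fin e → V) (ha : Function.Injective a)
    (hb : Function.Injective b) (hab : Disjoint (Set.range a) (Set.range b)) (w : Fin m → V)
    (h : ∀ k : KI m e, w ∉ Rep a b k) : (List.ofFn a ++ List.ofFn w ++ List.ofFn b).Nodup := by
  have h1 : Function.Injective w := by
    intro i j hij
    by_contra hne
    exact h (i, Sum.inl j) ⟨hne, hij⟩
  have h2 : ∀ i l, w i ≠ a l := fun i l h' => h (i, Sum.inr (Sum.inl l)) h'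
  have h3 : ∀ i l, w i ≠ b l := fun i l h' => h (i, Sum.inr (Sum.inr l)) h'
  have h4 : ∀ l l', a l ≠ b l' := by
    intro l l' h'
    exact Set.disjoint_left.1 hab ⟨l, rfl⟩ ⟨l', h'.symm⟩
  rw [List.nodup_append, List.nodup_append]
  refine ⟨⟨List.nodup_ofFn.2 ha, List.nodup_ofFn.2 h1, ?_⟩, List.nodup_ofFn.2 hb, ?_⟩
  · intro x hx y hy hxy
    rw [List.mem_ofFn] at hx hy
    obtain ⟨l, rfl⟩ := hx
    obtain ⟨i, rfl⟩ := hy
    exact h2 i l hxy.symm
  · intro x hx y hy hxy
    rw [List.mem_append, List.mem_ofFn, List.mem_ofFn] at hx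
    rw [List.mem_ofFn] at hy
    obtain ⟨l, rfl⟩ := hy
    rcases hx with ⟨l', rfl⟩ | ⟨i, rfl⟩
    · exact h4 l' l hxy
    · exact h3 i l hxy

/-- the number of the tuples with a repetition -/
theorem ncard_bad {m e : ℕ} (a b : Fin e → V) (ha : Function.Injective a)
    (hb : Function.Injective b) (hab : Disjoint (Set.range a) (Set.range b)) :
    ({w : Fin (m + 1) → V | ¬ (List.ofFn a ++ List.ofFn w ++ List.ofFn b).Nodup}).ncard ≤
      (m + 1) * (m + 1 + 2 * e) * Fintype.card V ^ m := by
  classical
  have h1 : {w : Fin (m + 1) → V | ¬ (List.ofFn a ++ List.ofFn w ++ List.ofFn b).Nodup} ⊆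
      ⋃ k ∈ (Finset.univ : Finset (KI (m + 1) e)), Rep a b k := by
    intro w hw
    by_contra hcon
    apply hw
    refine nodup_of a b ha hb hab w ?_
    intro k hk
    apply hcon
    exact Set.mem_biUnion (Finset.mem_coe.2 (Finset.mem_univ k)) hk
  refine (Set.ncard_le_ncard h1 (Set.toFinite _)).trans ?_
  refine (Finset.set_ncard_biUnion_le _ _).trans ?_
  refine (Finset.sum_le_sum fun k _ => ncard_rep a b k).trans ?_
  rw [Finset.sum_const, smul_eq_mul, Finset.card_univ]
  refine le_of_eq ?_
  congr 1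
  rw [Fintype.card_prod, Fintype.card_sum, Fintype.card_sum, Fintype.card_fin, Fintype.card_fin]
  ring

end count

theorem jon (hREA : ReaStmt) (hWKT : WktStmt) : JonStmt := by
  intro d ε β c₁ u₀ hε hβ hc hu
  obtain ⟨M, c, hc0, hmain⟩ := hREA (d + 1) (d + 2) ε β c₁ u₀ (by positivity) hε hβ hc hu
  obtain ⟨n₀, hn₀⟩ := exists_nat_gt (2 * ((M : ℝ) * (M + 2 * (d + 1))) / c)
  refine ⟨M, c / 2, n₀ + 1, by positivity, ?_⟩
  intro V _ _ H hn hH U hU hind a b t t' ha hb hab hF hB
  classical
  obtain ⟨n, hndef⟩ : ∃ n, n = Fintype.card V := ⟨_, rfl⟩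
  have hn1 : 0 < n := by omega
  have hn1' : (0 : ℝ) < n := by exact_mod_cast hn1
  have hnc : 2 * ((M : ℝ) * (M + 2 * (d + 1))) ≤ c * n := by
    have h1 : (n₀ : ℝ) ≤ n := by
      have : n₀ ≤ n := by omega
      exact_mod_cast this
    rw [div_lt_iff₀ hc0] at hn₀
    nlinarith
  have hpred : ∀ x : Sta V d, (({z | St H z x} : Set (Sta V d)).ncard : ℝ) ≤ (n : ℝ) := by
    intro x
    have h1 : ({z | St H z x} : Set (Sta V d)).ncard ≤ (Set.univ : Set V).ncard := by
      refine Set.ncard_le_ncard_of_injOn (fun z : Sta V d => z.1 0) (fun z _ => Set.mem_univ _) ?_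
        (Set.toFinite _)
      rintro ⟨z, τ⟩ ⟨h1, h2, -⟩ ⟨z', τ'⟩ ⟨h1', h2', -⟩ h
      change x.2 = τ + 1 at h1
      change x.2 = τ' + 1 at h1'
      change Fin.init x.1 = Fin.tail z at h2
      change Fin.init x.1 = Fin.tail z' at h2'
      change z 0 = z' 0 at h
      have e1 : τ = τ' := add_right_cancel (h1.symm.trans h1')
      have e2 : z = z' := by
        rw [← Fin.cons_self_tail z, ← Fin.cons_self_tail z', h, ← h2, ← h2']
      rw [e1, e2]
    rw [Set.ncard_univ, Nat.card_eq_fintype_card, ← hndef] at h1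
    exact_mod_cast h1
  have hsucc : ∀ x : Sta V d, (({z | St H x z} : Set (Sta V d)).ncard : ℝ) ≤ (n : ℝ) := by
    intro x
    have h1 : ({z | St H x z} : Set (Sta V d)).ncard ≤ (Set.univ : Set V).ncard := by
      refine Set.ncard_le_ncard_of_injOn (fun z : Sta V d => z.1 (Fin.last d))
        (fun z _ => Set.mem_univ _) ?_ (Set.toFinite _)
      rintro ⟨z, τ⟩ ⟨h1, h2, -⟩ ⟨z', τ'⟩ ⟨h1', h2', -⟩ h
      change τ = x.2 + 1 at h1
      change τ' = x.2 + 1 at h1'
      change Fin.init z = Fin.tail x.1 at h2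
      change Fin.init z' = Fin.tail x.1 at h2'
      change z (Fin.last d) = z' (Fin.last d) at h
      have e2 : z = z' := by
        rw [← Fin.snoc_init_self z, ← Fin.snoc_init_self z', h, h2, h2']
      rw [h1, h1', e2]
    rw [Set.ncard_univ, Nat.card_eq_fintype_card, ← hndef] at h1
    exact_mod_cast h1
  have hone : ∀ x y : Sta V d, wk (St H) (d + 1) x y ≤ 1 := by
    rintro ⟨x, τ⟩ ⟨y, τ'⟩
    obtain ⟨h1, h2⟩ := hWKT d (d + 1) V H hH le_rfl x y τ τ'
    by_cases h : τ' = τ + ((d + 1 : ℕ) : ZMod (d + 2))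
    · rw [h1 h]
      have hE : IsEmpty (Fin (d + 1 - (d + 1))) := by
        rw [Nat.sub_self]
        infer_instance
      have hS : Subsingleton (Fin (d + 1 - (d + 1)) → V) := inferInstance
      exact Set.ncard_le_one_iff_subsingleton.2 (Set.subsingleton_of_subsingleton)
    · rw [h2 h]
      exact Nat.zero_le _
  have hUc : (U.ncard : ℝ) ≤ (d + 2) * (n : ℝ) ^ (d + 1) := by
    have h1 : U.ncard ≤ (Set.univ : Set (Sta V d)).ncard :=
      Set.ncard_le_ncard (Set.subset_univ _) (Set.toFinite _)
    rw [Set.ncard_univ, Nat.card_eq_fintype_card, Fintype.card_prod, Fintype.card_fun,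
      Fintype.card_fin, ZMod.card, ← hndef] at h1
    have h2 : (U.ncard : ℝ) ≤ (n : ℝ) ^ (d + 1) * (d + 2) := by exact_mod_cast h1
    linarith
  rw [← hndef] at hU
  unfold Indec at hind
  unfold GoodF at hF
  unfold GoodB at hB
  rw [← hndef] at hind hF hB
  obtain ⟨m, hmM, hm2, hwk⟩ := hmain (Sta V d) (St H) n U hn1' hpred hsucc hone hUc hU hind
    (a, t) (b, t') hF hB
  obtain ⟨h1, h2⟩ := hWKT d m V H hH (by omega) a b t t'
  have ht : t' = t + (m : ZMod (d + 2)) := by
    by_contra hne
    rw [h2 hne] at hwk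
    have : 0 < c * (n : ℝ) ^ (m - (d + 1)) := by positivity
    push_cast at hwk
    linarith
  rw [h1 ht] at hwk
  obtain ⟨m', hm'⟩ : ∃ m' : ℕ, m - (d + 1) = m' + 1 := ⟨m - (d + 1) - 1, by omega⟩
  have hmm : m = m' + 1 + (d + 1) := by omega
  rw [hm'] at hwk
  refine ⟨m' + 1, by omega, ?_, ?_⟩
  · rw [ht, hmm]
    push_cast
    ring
  · rw [← hndef]
    unfold con
    obtain ⟨W, hW⟩ : ∃ W : Set (Fin (m' + 1) → V), W =
      {w | Tight H (d + 2) (List.ofFn a ++ List.ofFn w ++ List.ofFn b)} := ⟨_, rfl⟩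
    obtain ⟨P, hP⟩ : ∃ P : Set (Fin (m' + 1) → V), P =
      {w | Path H (d + 2) (List.ofFn a ++ List.ofFn w ++ List.ofFn b)} := ⟨_, rfl⟩
    obtain ⟨B, hBd⟩ : ∃ B : Set (Fin (m' + 1) → V), B =
      {w | ¬ (List.ofFn a ++ List.ofFn w ++ List.ofFn b).Nodup} := ⟨_, rfl⟩
    rw [← hW] at hwk
    rw [← hP]
    have hsub : W ⊆ P ∪ B := by
      intro w hw
      rw [hW] at hw
      by_cases hnd : (List.ofFn a ++ List.ofFn w ++ List.ofFn b).Nodup
      · left
        rw [hP]
        exact ⟨hnd, hw⟩
      · right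
        rw [hBd]
        exact hnd
    have h3 : W.ncard ≤ P.ncard + B.ncard :=
      (Set.ncard_le_ncard hsub (Set.toFinite _)).trans (Set.ncard_union_le _ _)
    have h4 : B.ncard ≤ (m' + 1) * (m' + 1 + 2 * (d + 1)) * n ^ m' := by
      rw [hBd, hndef]
      exact ncard_bad a b ha hb hab
    have h5 : (W.ncard : ℝ) ≤ P.ncard + (m' + 1) * (m' + 1 + 2 * (d + 1)) * (n : ℝ) ^ m' := by
      have h6 : W.ncard ≤ P.ncard + (m' + 1) * (m' + 1 + 2 * (d + 1)) * n ^ m' := by omega
      exact_mod_cast h6
    have h7 : ((m' : ℝ) + 1) * (m' + 1 + 2 * (d + 1)) ≤ M * (M + 2 * (d + 1)) := by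
      have h8 : (m' : ℝ) + 1 ≤ M := by
        have : m' + 1 ≤ M := by omega
        exact_mod_cast this
      have h9 : (0 : ℝ) ≤ m' := Nat.cast_nonneg _
      have h10 : (0 : ℝ) ≤ d := Nat.cast_nonneg _
      exact mul_le_mul h8 (by linarith) (by positivity) (by linarith)
    have h11 : (0 : ℝ) < (n : ℝ) ^ m' := by positivity
    have h12 : ((m' : ℝ) + 1) * (m' + 1 + 2 * (d + 1)) * (n : ℝ) ^ m' ≤
        c / 2 * (n : ℝ) ^ (m' + 1) := by
      calc ((m' : ℝ) + 1) * (m' + 1 + 2 * (d + 1)) * (n : ℝ) ^ m' ≤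
            (c * n / 2) * (n : ℝ) ^ m' :=
              mul_le_mul_of_nonneg_right (by linarith) h11.le
        _ = c / 2 * (n : ℝ) ^ (m' + 1) := by rw [pow_succ]; ring
    linarith

end Pool.Agent.KK.H86
end

/-! ### Helper31_KK.CVR -/
section
/-! Squad KK, row CVR: the classes cover all tuples and all edges of present types; sizes. -/

set_option autoImplicit false

open scoped BigOperators

namespace Pool.Agent.KK.H31

open Pool.Agent.KK

theorem image_perm {V : Type} [DecidableEq V] {N : ℕ} (g : Fin N → V) (σ : Equiv.Perm (Fin N)) :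
    Finset.univ.image (fun i => g (σ i)) = Finset.univ.image g := by
  ext v
  rw [Finset.mem_image, Finset.mem_image]
  constructor
  · rintro ⟨i, -, h⟩
    exact ⟨σ i, Finset.mem_univ _, h⟩
  · rintro ⟨i, -, h⟩
    exact ⟨σ.symm i, Finset.mem_univ _, by rw [Equiv.apply_symm_apply]; exact h⟩

theorem xc_le {V : Type} [DecidableEq V] (X : Finset V) {N : ℕ} (g : Fin N → V) : xc X g ≤ N := by
  unfold xc
  refine (Finset.card_le_univ _).trans (by rw [Fintype.card_fin])

/-- the rearrangement with the entries in `X` first -/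
theorem sorted {V : Type} [DecidableEq V] (X : Finset V) {N : ℕ} (g : Fin N → V) :
    ∃ σ : Equiv.Perm (Fin N), ∀ i : Fin N, g (σ i) ∈ X ↔ (i : ℕ) < xc X g := by
  classical
  have h1 : Fintype.card {i : Fin N // (i : ℕ) < xc X g} = Fintype.card {i : Fin N // g i ∈ X} := by
    rw [Fintype.card_subtype, Fintype.card_subtype]
    have h2 : (Finset.univ.filter fun i : Fin N => g i ∈ X).card = xc X g := rfl
    rw [h2]
    have h3 := xc_le X g
    rw [← Finset.card_map Fin.valEmbedding]
    have h4 : (Finset.univ.filter fun i : Fin N => (i : ℕ) < xc X g).map Fin.valEmbedding =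
        Finset.range (xc X g) := by
      ext j
      rw [Finset.mem_map, Finset.mem_range]
      constructor
      · rintro ⟨i, hi, rfl⟩
        exact (Finset.mem_filter.1 hi).2
      · intro hj
        exact ⟨⟨j, by omega⟩, Finset.mem_filter.2 ⟨Finset.mem_univ _, hj⟩, rfl⟩
    rw [h4, Finset.card_range]
  have e := Fintype.equivOfCardEq h1
  refine ⟨e.extendSubtype, fun i => ?_⟩
  constructor
  · intro h
    by_contra hi
    exact e.extendSubtype_not_mem i hi h
  · intro h
    exact e.extendSubtype_mem i h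

theorem val0 {d i : ℕ} (hi : i < d + 2) :
    ((0 : ZMod (d + 2)) + ((i : ℕ) : ZMod (d + 2))).val = i := by
  rw [zero_add, ZMod.val_natCast_of_lt hi]

theorem val1 {d i : ℕ} (hi : i + 1 < d + 2) :
    ((1 : ZMod (d + 2)) + ((i : ℕ) : ZMod (d + 2))).val = i + 1 := by
  have h : (1 : ZMod (d + 2)) + ((i : ℕ) : ZMod (d + 2)) = ((i + 1 : ℕ) : ZMod (d + 2)) := by
    push_cast
    ring
  rw [h, ZMod.val_natCast_of_lt hi]

theorem xc_sum {V : Type} [DecidableEq V] (X : Finset V) {N : ℕ} (g : Fin N → V) :
    xc X g = ∑ i, if g i ∈ X then 1 else 0 := by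
  unfold xc
  rw [Finset.card_filter]

theorem xc_init {V : Type} [DecidableEq V] (X : Finset V) {N : ℕ} (g : Fin (N + 1) → V) :
    xc X (Fin.init g) ≤ xc X g ∧ xc X g ≤ xc X (Fin.init g) + 1 := by
  rw [xc_sum, xc_sum, Fin.sum_univ_castSucc]
  have h1 : ∑ i : Fin N, (if g i.castSucc ∈ X then 1 else 0) =
      ∑ i : Fin N, (if (Fin.init g) i ∈ X then 1 else 0) := rfl
  rw [h1]
  split_ifs <;> omega

theorem xc_tail {V : Type} [DecidableEq V] (X : Finset V) {N : ℕ} (g : Fin (N + 1) → V) :
    xc X (Fin.tail g) ≤ xc X g ∧ xc X g ≤ xc X (Fin.tail g) + 1 := by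
  rw [xc_sum, xc_sum, Fin.sum_univ_succ]
  have h1 : ∑ i : Fin N, (if g i.succ ∈ X then 1 else 0) =
      ∑ i : Fin N, (if (Fin.tail g) i ∈ X then 1 else 0) := rfl
  rw [h1]
  split_ifs <;> omega

/-- the runs are increasing -/
theorem b_le {q : ℕ} {a b : ℕ → ℕ} (hle : ∀ i < q, a i ≤ b i)
    (hgap : ∀ i, i + 1 < q → a (i + 1) = b i + 2) : ∀ i < q, b i ≤ b (q - 1) := by
  have h : ∀ m i, i + m = q - 1 → i < q → b i ≤ b (q - 1) := by
    intro m
    induction m with
    | zero =>
      intro i hi _
      rw [← hi, Nat.add_zero]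
    | succ m ih =>
      intro i hi hq
      have h1 : i + 1 < q := by omega
      have h2 := ih (i + 1) (by omega) h1
      have h3 := hgap i h1
      have h4 := hle (i + 1) h1
      omega
  intro i hi
  exact h (q - 1 - i) i (by omega) hi

/-- the tuples with prescribed letters -/
theorem letters {V : Type} [Fintype V] [DecidableEq V] (X : Finset V) {N : ℕ} (w : Fin N → Prop)
    {x : ℝ} (hx : 0 ≤ x) (h1 : x ≤ X.card) (h2 : x ≤ Xᶜ.card) :
    x ^ N ≤ ({f : Fin N → V | ∀ i, f i ∈ X ↔ w i}.ncard : ℝ) := by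
  classical
  have h3 : {f : Fin N → V | ∀ i, f i ∈ X ↔ w i} =
      ((Fintype.piFinset fun i => if w i then X else Xᶜ : Finset (Fin N → V)) : Set (Fin N → V)) := by
    ext f
    rw [Finset.mem_coe, Fintype.mem_piFinset, Set.mem_setOf_eq]
    refine forall_congr' fun i => ?_
    by_cases h : w i
    · simp [h]
    · simp [h]
  rw [h3, Set.ncard_coe_finset, Fintype.card_piFinset]
  push_cast
  calc x ^ N = ∏ _i : Fin N, x := by rw [Finset.prod_const, Finset.card_univ, Fintype.card_fin]
    _ ≤ ∏ i : Fin N, ((if w i then X else Xᶜ).card : ℝ) := by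
      refine Finset.prod_le_prod (fun _ _ => hx) fun i _ => ?_
      split_ifs
      · exact h1
      · exact h2

/-- the number of letters of a canonical state -/
theorem can_xc {V : Type} [Fintype V] [DecidableEq V] {X : Finset V} {d s : ℕ} {z : Sta V d}
    (hz : z ∈ can X d s) : xc X z.1 ≤ s ∧ (s ≤ d + 2 → s ≤ xc X z.1 + 1) := by
  classical
  obtain ⟨φ, hφ⟩ : ∃ φ : Fin (d + 1) → ℕ,
      φ = fun i : Fin (d + 1) => (z.2 + ((i : ℕ) : ZMod (d + 2))).val := ⟨_, rfl⟩
  have hφi : Function.Injective φ := by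
    intro i j hij
    rw [hφ] at hij
    have h1 := add_left_cancel (ZMod.val_injective _ hij)
    have h2 := congrArg ZMod.val h1
    have hi := i.2
    have hj := j.2
    rw [ZMod.val_natCast_of_lt (by omega), ZMod.val_natCast_of_lt (by omega)] at h2
    exact Fin.ext h2
  have hφl : ∀ i, φ i < d + 2 := by
    intro i
    rw [hφ]
    exact ZMod.val_lt _
  have hx : xc X z.1 = (Finset.univ.filter fun i => φ i < s).card := by
    unfold xc
    congr 1
    ext i
    rw [Finset.mem_filter, Finset.mem_filter, hφ]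
    exact and_congr Iff.rfl (hz i)
  have h1 : (Finset.univ.filter fun i => φ i < s).card ≤ s := by
    have h2 := Finset.card_le_card_of_injOn (s := Finset.univ.filter fun i => φ i < s)
      (t := Finset.range s) φ (fun i hi => Finset.mem_coe.2 (Finset.mem_range.2
        (Finset.mem_filter.1 hi).2)) (hφi.injOn)
    rwa [Finset.card_range] at h2
  have h3 : (Finset.univ.filter fun i => ¬ φ i < s).card ≤ d + 2 - s := by
    have h2 := Finset.card_le_card_of_injOn (s := Finset.univ.filter fun i => ¬ φ i < s)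
      (t := Finset.Ico s (d + 2)) φ (fun i hi => Finset.mem_coe.2 (Finset.mem_Ico.2
        ⟨not_lt.1 (Finset.mem_filter.1 hi).2, hφl i⟩)) (hφi.injOn)
    rwa [Nat.card_Ico] at h2
  have h4 := Finset.card_filter_add_card_filter_not (s := (Finset.univ : Finset (Fin (d + 1))))
    (fun i => φ i < s)
  rw [Finset.card_univ, Fintype.card_fin] at h4
  rw [hx]
  refine ⟨h1, fun hs => ?_⟩
  omega

/-- CVR, part 1 -/
theorem cvr1 (d : ℕ) (V : Type) [Fintype V] [DecidableEq V] (H : Finset (Finset V)) (X : Finset V)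
    (q : ℕ) (a b : ℕ → ℕ) (μ γ : ℝ) (hγ : 0 ≤ γ) (hγ6 : γ ≤ 1 / 6)
    (hS : Struc H d X q a b μ γ) :
    (∀ g : Fin (d + 1) → V, ∃ i < q, ∃ (f : Fin (d + 1) → V) (t : ZMod (d + 2)),
      Finset.univ.image f = Finset.univ.image g ∧ (f, t) ∈ cls X d (a i) (b i)) ∧
    ({e : Fin (d + 2) → V | Finset.univ.image e ∈ H ∧ ¬ ∃ i < q, ∃ (f : Fin (d + 2) → V)
        (t : ZMod (d + 2)), Finset.univ.image f = Finset.univ.image e ∧
        (Fin.init f, t) ∈ cls X d (a i) (b i) ∧ (Fin.tail f, t + 1) ∈ cls X d (a i) (b i)}.ncard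
        : ℝ) ≤ (d + 3) * γ * (Fintype.card V : ℝ) ^ (d + 2) ∧
    ∀ i < q, (1 / 3 : ℝ) ^ (d + 1) * (Fintype.card V : ℝ) ^ (d + 1) ≤
      (cls X d (a i) (b i)).ncard := by
  classical
  have hb := b_le hS.le hS.gap
  have hq := hS.two_le
  refine ⟨?_, ?_, ?_⟩
  · intro g
    -- the interval
    have hm : xc X g ≤ d + 1 := xc_le X g
    have hex : ∃ i, xc X g ≤ b i ∧ i < q := ⟨q - 1, hm.trans hS.last1, by omega⟩
    obtain ⟨i, ⟨hi1, hi2⟩, hi3⟩ : ∃ i, (xc X g ≤ b i ∧ i < q) ∧
        ∀ j < i, ¬ (xc X g ≤ b j ∧ j < q) :=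
      ⟨Nat.find hex, Nat.find_spec hex, fun j hj => Nat.find_min hex hj⟩
    have hi4 : a i ≤ xc X g + 1 := by
      rcases Nat.eq_zero_or_pos i with h0 | h0
      · rw [h0]
        have := hS.first
        omega
      · obtain ⟨j, rfl⟩ : ∃ j, i = j + 1 := ⟨i - 1, by omega⟩
        have h1 := hi3 j (Nat.lt_succ_self j)
        have h2 := hS.gap j hi2
        have h3 : ¬ xc X g ≤ b j := fun h => h1 ⟨h, by omega⟩
        omega
    refine ⟨i, hi2, ?_⟩
    by_cases hab : a i = b i
    · obtain ⟨σ, hσ⟩ := sorted X g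
      by_cases hc : xc X g = b i
      · refine ⟨fun x => g (σ x), 0, image_perm g σ, ?_⟩
        unfold cls
        rw [if_pos hab]
        intro x
        show g (σ x) ∈ X ↔ ((0 : ZMod (d + 2)) + ((x : ℕ) : ZMod (d + 2))).val < a i
        have hx := x.2
        rw [hσ x, val0 (by omega), hab, hc]
      · have hc' : xc X g + 1 = b i := by omega
        refine ⟨fun x => g (σ x), 1, image_perm g σ, ?_⟩
        unfold cls
        rw [if_pos hab]
        intro x
        show g (σ x) ∈ X ↔ ((1 : ZMod (d + 2)) + ((x : ℕ) : ZMod (d + 2))).val < a i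
        have hx := x.2
        rw [hσ x, val1 (by omega), hab, ← hc']
        omega
    · refine ⟨g, 0, rfl, ?_⟩
      unfold cls
      rw [if_neg hab]
      exact ⟨hi4, hi1⟩
  · -- uncovered edges
    have hsub : {e : Fin (d + 2) → V | Finset.univ.image e ∈ H ∧ ¬ ∃ i < q,
        ∃ (f : Fin (d + 2) → V) (t : ZMod (d + 2)), Finset.univ.image f = Finset.univ.image e ∧
        (Fin.init f, t) ∈ cls X d (a i) (b i) ∧ (Fin.tail f, t + 1) ∈ cls X d (a i) (b i)} ⊆
        ⋃ j ∈ (Finset.range (d + 3)).filter (fun j => ∀ i < q, ¬ (a i ≤ j ∧ j ≤ b i)),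
          {f : Fin (d + 2) → V | Finset.univ.image f ∈ H ∧ xc X f = j} := by
      rintro e ⟨he, hun⟩
      refine Set.mem_biUnion (x := xc X e) (Finset.mem_coe.2 (Finset.mem_filter.2
        ⟨Finset.mem_range.2 (Nat.lt_succ_of_le (xc_le X e)), ?_⟩)) ⟨he, rfl⟩
      rintro i hi ⟨h1, h2⟩
      apply hun
      refine ⟨i, hi, ?_⟩
      by_cases hab : a i = b i
      · obtain ⟨σ, hσ⟩ := sorted X e
        have hc : xc X e = a i := by omega
        refine ⟨fun x => e (σ x), 0, image_perm e σ, ?_, ?_⟩
        · unfold cls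
          rw [if_pos hab]
          intro x
          show e (σ x.castSucc) ∈ X ↔ ((0 : ZMod (d + 2)) + ((x : ℕ) : ZMod (d + 2))).val < a i
          have hx := x.2
          rw [hσ x.castSucc, val0 (by omega), hc, Fin.val_castSucc]
        · unfold cls
          rw [if_pos hab]
          intro x
          show e (σ x.succ) ∈ X ↔
            ((0 + 1 : ZMod (d + 2)) + ((x : ℕ) : ZMod (d + 2))).val < a i
          have hx := x.2
          rw [zero_add, hσ x.succ, val1 (by omega), hc, Fin.val_succ]
      · have h3 := xc_init X e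
        have h4 := xc_tail X e
        refine ⟨e, 0, rfl, ?_, ?_⟩
        · unfold cls
          rw [if_neg hab]
          exact ⟨by show a i ≤ xc X (Fin.init e) + 1; omega,
            by show xc X (Fin.init e) ≤ b i; omega⟩
        · unfold cls
          rw [if_neg hab]
          exact ⟨by show a i ≤ xc X (Fin.tail e) + 1; omega,
            by show xc X (Fin.tail e) ≤ b i; omega⟩
    have h1 := (Set.ncard_le_ncard hsub (Set.toFinite _)).trans (Finset.set_ncard_biUnion_le _ _)
    have h2 : ((∑ j ∈ (Finset.range (d + 3)).filter (fun j => ∀ i < q, ¬ (a i ≤ j ∧ j ≤ b i)),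
        {f : Fin (d + 2) → V | Finset.univ.image f ∈ H ∧ xc X f = j}.ncard : ℕ) : ℝ) ≤
        ∑ j ∈ (Finset.range (d + 3)).filter (fun j => ∀ i < q, ¬ (a i ≤ j ∧ j ≤ b i)),
          γ * (Fintype.card V : ℝ) ^ (d + 2) := by
      push_cast
      refine Finset.sum_le_sum fun j hj => ?_
      rw [Finset.mem_filter, Finset.mem_range] at hj
      exact hS.miss j (by omega) hj.2
    have h3 : (((Finset.range (d + 3)).filter
        (fun j => ∀ i < q, ¬ (a i ≤ j ∧ j ≤ b i))).card : ℝ) ≤ d + 3 := by
      have h4 := Finset.card_filter_le (Finset.range (d + 3))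
        (fun j => ∀ i < q, ¬ (a i ≤ j ∧ j ≤ b i))
      rw [Finset.card_range] at h4
      exact_mod_cast h4
    calc _ ≤ ((∑ j ∈ (Finset.range (d + 3)).filter (fun j => ∀ i < q, ¬ (a i ≤ j ∧ j ≤ b i)),
        {f : Fin (d + 2) → V | Finset.univ.image f ∈ H ∧ xc X f = j}.ncard : ℕ) : ℝ) := by
          exact_mod_cast h1
      _ ≤ _ := h2
      _ = (((Finset.range (d + 3)).filter
        (fun j => ∀ i < q, ¬ (a i ≤ j ∧ j ≤ b i))).card : ℝ) *
          (γ * (Fintype.card V : ℝ) ^ (d + 2)) := by rw [Finset.sum_const, nsmul_eq_mul]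
      _ ≤ (d + 3) * (γ * (Fintype.card V : ℝ) ^ (d + 2)) :=
          mul_le_mul_of_nonneg_right h3 (by positivity)
      _ = _ := by ring
  · -- sizes
    intro i hi
    have hn : (0 : ℝ) ≤ Fintype.card V := by positivity
    have hbal := abs_le.1 hS.bal
    have hg : γ * (Fintype.card V : ℝ) ≤ 1 / 6 * Fintype.card V :=
      mul_le_mul_of_nonneg_right hγ6 hn
    have hX1 : (Fintype.card V : ℝ) / 3 ≤ X.card := by linarith [hbal.1]
    have hX2 : (Fintype.card V : ℝ) / 3 ≤ Xᶜ.card := by
      have h1 := Finset.card_add_card_compl X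
      have h2 : (X.card : ℝ) + Xᶜ.card = Fintype.card V := by exact_mod_cast h1
      linarith [hbal.2]
    have hle := hS.le i hi
    have hbi := (hb i hi).trans hS.last2
    -- the word
    have key : ∃ w : Fin (d + 1) → Prop, ∀ f : Fin (d + 1) → V, (∀ x, f x ∈ X ↔ w x) →
        ((f, 0) : Sta V d) ∈ cls X d (a i) (b i) := by
      by_cases hab : a i = b i
      · refine ⟨fun x => (x : ℕ) < a i, fun f hf => ?_⟩
        unfold cls
        rw [if_pos hab]
        intro x
        show f x ∈ X ↔ ((0 : ZMod (d + 2)) + ((x : ℕ) : ZMod (d + 2))).val < a i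
        have hx := x.2
        rw [hf x, val0 (by omega)]
      · refine ⟨fun x => (x : ℕ) < a i - 1, fun f hf => ?_⟩
        unfold cls
        rw [if_neg hab]
        have h1 : xc X f = a i - 1 := by
          unfold xc
          rw [← Finset.card_map Fin.valEmbedding]
          have h4 : (Finset.univ.filter fun x => f x ∈ X).map Fin.valEmbedding =
              Finset.range (a i - 1) := by
            ext j
            rw [Finset.mem_map, Finset.mem_range]
            constructor
            · rintro ⟨x, hx, rfl⟩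
              exact (hf x).1 (Finset.mem_filter.1 hx).2
            · intro hj
              exact ⟨⟨j, by omega⟩, Finset.mem_filter.2 ⟨Finset.mem_univ _,
                (hf _).2 hj⟩, rfl⟩
          rw [h4, Finset.card_range]
        exact ⟨by show a i ≤ xc X f + 1; omega, by show xc X f ≤ b i; omega⟩
    obtain ⟨w, hw⟩ := key
    have h1 := letters X w (by positivity) hX1 hX2
    have h2 : ({f : Fin (d + 1) → V | ∀ x, f x ∈ X ↔ w x}.ncard) ≤
        (cls X d (a i) (b i)).ncard := by
      haveI : NeZero (d + 2) := ⟨by omega⟩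
      refine Set.ncard_le_ncard_of_injOn (fun f => ((f, 0) : Sta V d)) (fun f hf => hw f hf) ?_
        (Set.toFinite _)
      intro f _ f' _ h
      exact (Prod.ext_iff.1 h).1
    have h3 : (({f : Fin (d + 1) → V | ∀ x, f x ∈ X ↔ w x}.ncard : ℕ) : ℝ) ≤
        ((cls X d (a i) (b i)).ncard : ℝ) := by exact_mod_cast h2
    refine le_trans ?_ (h1.trans h3)
    rw [← mul_pow]
    apply le_of_eq
    congr 1
    ring

/-- CVR, part 2 (with the hypothesis `s ≤ d + 2`) -/
theorem cvr2 (d : ℕ) (V : Type) [Fintype V] [DecidableEq V] (X : Finset V) (a b s : ℕ)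
    (h1 : a ≤ s) (h2 : s ≤ b) (h3 : s ≤ d + 2) : can X d s ⊆ cls X d a b := by
  intro z hz
  unfold cls
  by_cases hab : a = b
  · rw [if_pos hab]
    have : a = s := by omega
    rw [this]
    exact hz
  · rw [if_neg hab]
    have h4 := can_xc hz
    have h5 := h4.2 h3
    exact ⟨by omega, by omega⟩

/-- CVR, part 3 -/
theorem cvr3 (d : ℕ) (V : Type) [Fintype V] [DecidableEq V] (X : Finset V) (a b : ℕ)
    (h : a < b ∨ b = 0 ∨ a = d + 2) (hab : a ≤ b) (f : Fin (d + 1) → V) (t t' : ZMod (d + 2))
    (hf : (f, t) ∈ cls X d a b) : (f, t') ∈ cls X d a b := by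
  unfold cls at hf ⊢
  by_cases he : a = b
  · rw [if_pos he] at hf ⊢
    rcases h with h | h | h
    · omega
    · have ha : a = 0 := by omega
      rw [ha] at hf ⊢
      intro i
      have h1 := hf i
      simp only [Nat.not_lt_zero] at h1 ⊢
      exact h1
    · intro i
      have h1 := hf i
      have h2 : (t + ((i : ℕ) : ZMod (d + 2))).val < a := by
        rw [h]
        exact ZMod.val_lt _
      have h3 : (t' + ((i : ℕ) : ZMod (d + 2))).val < a := by
        rw [h]
        exact ZMod.val_lt _
      exact ⟨fun _ => h3, fun _ => h1.2 h2⟩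
  · rw [if_neg he] at hf ⊢
    exact hf

/-- CVR -/
theorem cvr : CvrStmt :=
  ⟨fun d V _ _ H X q a b μ γ _ hγ hγ6 hS => cvr1 d V H X q a b μ γ hγ hγ6 hS,
    fun d V _ _ X a b s h1 h2 h3 => cvr2 d V X a b s h1 h2 h3,
    fun d V _ _ X a b h hab f t t' hf => cvr3 d V X a b h hab f t t' hf⟩

end Pool.Agent.KK.H31
end

/-! ### Helper27_THC.Lll -/
section
/-!
# Local lemma for random bijections (canonical events, Lu-Szekely)

`G c d` = the bijections `σ : α ≃ β` with `d (σ i) = c i` (classes; a class with one element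
prescribes the value of `σ`).  An event is a pair `(S, f)`: `σ i = f i` for all `i ∈ S`.
Two events are neighbours if their domains or their images meet.
-/

open scoped BigOperators
open Finset

namespace Pool.Agent.THC.H27

open scoped Classical

section abs

variable {Ω J : Type*} (G : Finset Ω) (E : J → Ω → Prop)

/-- the elements of `G` which avoid the events in `A` -/
noncomputable def av (A : Finset J) : Finset Ω := G.filter fun σ => ∀ j ∈ A, ¬ E j σ

theorem av_insert (A : Finset J) (j : J) :
    ((av G E A).card : ℝ) = (av G E (insert j A)).card + ((av G E A).filter (E j)).card := by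
  have h := Finset.card_filter_add_card_filter_not (s := av G E A) (fun σ => ¬ E j σ)
  have e1 : (av G E A).filter (fun σ => ¬ E j σ) = av G E (insert j A) := by
    ext σ
    simp only [av, Finset.mem_filter, Finset.mem_insert, forall_eq_or_imp]
    tauto
  have e2 : (av G E A).filter (fun σ => ¬ ¬ E j σ) = (av G E A).filter (E j) := by
    ext σ
    simp only [Finset.mem_filter, not_not]
  rw [e1, e2] at h
  rw [← h]
  push_cast
  ring

theorem av_union_le (A B : Finset J) :
    ((av G E A).card : ℝ) ≤ (av G E (A ∪ B)).card +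
      ∑ j ∈ B, (((av G E A).filter (E j)).card : ℝ) := by
  induction B using Finset.induction_on with
  | empty => simp
  | insert j B hj ih =>
    rw [Finset.sum_insert hj]
    have h1 := av_insert G E (A ∪ B) j
    have h2 : ((av G E (A ∪ B)).filter (E j)).card ≤ ((av G E A).filter (E j)).card := by
      apply Finset.card_le_card
      intro σ hσ
      simp only [av, Finset.mem_filter, Finset.mem_union] at hσ ⊢
      exact ⟨⟨hσ.1.1, fun i hi => hσ.1.2 i (Or.inl hi)⟩, hσ.2⟩
    have h3 : A ∪ insert j B = insert j (A ∪ B) := by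
      ext x
      simp only [Finset.mem_union, Finset.mem_insert]
      tauto
    rw [h3]
    have h4 : (((av G E (A ∪ B)).filter (E j)).card : ℝ) ≤ ((av G E A).filter (E j)).card := by
      exact_mod_cast h2
    linarith

/-- lopsided local lemma, weights below `1/4` -/
theorem lll_abs (hG : G.Nonempty) [Fintype J] (nb : J → J → Prop) (p : J → ℝ)
    (hp : ∀ j, 0 ≤ p j)
    (hlop : ∀ j, ∀ A : Finset J, (∀ i ∈ A, ¬ nb j i) →
      (((av G E A).filter (E j)).card : ℝ) ≤ p j * (av G E A).card)
    (hsum : ∀ j, ∑ i with nb j i, p i ≤ 1 / 4) (hrefl : ∀ j, nb j j) :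
    ∃ σ ∈ G, ∀ j, ¬ E j σ := by
  have key : ∀ n : ℕ, ∀ A : Finset J, A.card = n → ∀ j,
      (((av G E A).filter (E j)).card : ℝ) ≤ 2 * p j * (av G E A).card := by
    intro n
    induction n using Nat.strong_induction_on with
    | _ n ih =>
      intro A hA j
      obtain ⟨A1, hA1⟩ : ∃ A1, A1 = A.filter fun i => nb j i := ⟨_, rfl⟩
      obtain ⟨A2, hA2⟩ : ∃ A2, A2 = A.filter fun i => ¬ nb j i := ⟨_, rfl⟩
      have hu : A2 ∪ A1 = A := by
        ext x
        simp only [hA1, hA2, Finset.mem_union, Finset.mem_filter]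
        tauto
      have h1 := hlop j A2 (by
        intro i hi
        rw [hA2, Finset.mem_filter] at hi
        exact hi.2)
      have h2 : (((av G E A).filter (E j)).card : ℝ) ≤ ((av G E A2).filter (E j)).card := by
        exact_mod_cast Finset.card_le_card (by
          intro σ hσ
          simp only [av, Finset.mem_filter] at hσ ⊢
          refine ⟨⟨hσ.1.1, fun i hi => hσ.1.2 i ?_⟩, hσ.2⟩
          rw [← hu]
          exact Finset.mem_union_left _ hi)
      rcases A1.eq_empty_or_nonempty with h0 | hne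
      · have h3 : A2 = A := by rw [← hu, h0, Finset.union_empty]
        rw [h3] at h1
        have h4 : 0 ≤ p j * (av G E A).card := mul_nonneg (hp j) (Nat.cast_nonneg _)
        linarith
      · have hlt : A2.card < n := by
          rw [← hA]
          apply Finset.card_lt_card
          rw [Finset.ssubset_iff_of_subset (by rw [hA2]; exact Finset.filter_subset _ _)]
          obtain ⟨x, hx⟩ := hne
          rw [hA1, Finset.mem_filter] at hx
          refine ⟨x, hx.1, ?_⟩
          rw [hA2, Finset.mem_filter]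
          exact fun h => h.2 hx.2
        have h3 := av_union_le G E A2 A1
        rw [hu] at h3
        have h4 : ∑ i ∈ A1, (((av G E A2).filter (E i)).card : ℝ) ≤
            (1 / 2) * (av G E A2).card := by
          calc ∑ i ∈ A1, (((av G E A2).filter (E i)).card : ℝ)
              ≤ ∑ i ∈ A1, 2 * p i * (av G E A2).card :=
                Finset.sum_le_sum fun i _ => ih A2.card hlt A2 rfl i
            _ = 2 * (∑ i ∈ A1, p i) * (av G E A2).card := by
                rw [Finset.mul_sum, Finset.sum_mul]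
            _ ≤ 2 * (1 / 4) * (av G E A2).card := by
                apply mul_le_mul_of_nonneg_right _ (Nat.cast_nonneg _)
                apply mul_le_mul_of_nonneg_left _ (by norm_num)
                refine le_trans (Finset.sum_le_sum_of_subset_of_nonneg ?_ fun i _ _ => hp i)
                  (hsum j)
                intro i hi
                rw [hA1, Finset.mem_filter] at hi
                rw [Finset.mem_filter]
                exact ⟨Finset.mem_univ _, hi.2⟩
            _ = _ := by ring
        have h5 : ((av G E A2).card : ℝ) ≤ 2 * (av G E A).card := by linarith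
        calc (((av G E A).filter (E j)).card : ℝ) ≤ p j * (av G E A2).card := h2.trans h1
          _ ≤ p j * (2 * (av G E A).card) := mul_le_mul_of_nonneg_left h5 (hp j)
          _ = _ := by ring
  have hpj : ∀ j, p j ≤ 1 / 4 := by
    intro j
    refine le_trans ?_ (hsum j)
    exact Finset.single_le_sum (f := p) (fun i _ => hp i)
      (Finset.mem_filter.2 ⟨Finset.mem_univ j, hrefl j⟩)
  have hpos : ∀ A : Finset J, 0 < ((av G E A).card : ℝ) := by
    intro A
    induction A using Finset.induction_on with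
    | empty =>
      have : av G E ∅ = G := by
        ext σ
        simp [av]
      rw [this]
      exact_mod_cast hG.card_pos
    | insert j A hj ih =>
      have h1 := av_insert G E A j
      have h2 := key A.card A rfl j
      have h3 : 2 * p j * (av G E A).card ≤ (1 / 2) * (av G E A).card := by
        apply mul_le_mul_of_nonneg_right _ ih.le
        linarith [hpj j]
      linarith
  have h1 := hpos Finset.univ
  have h2 : (av G E Finset.univ).Nonempty := by
    rw [← Finset.card_pos]
    exact_mod_cast h1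
  obtain ⟨σ, hσ⟩ := h2
  simp only [av, Finset.mem_filter] at hσ
  exact ⟨σ, hσ.1, fun j => hσ.2 j (Finset.mem_univ j)⟩

end abs

section bij

variable {α β κ J : Type*} [Fintype α] [Fintype β]

/-- the bijections which respect the classes -/
noncomputable def Gb (c : α → κ) (d : β → κ) : Finset (α ≃ β) :=
  univ.filter fun σ => ∀ i, d (σ i) = c i

/-- if the classes have the same sizes there is such a bijection -/
theorem Gb_nonempty (c : α → κ) (d : β → κ)
    (h : ∀ x, (univ.filter fun i => c i = x).card = (univ.filter fun b => d b = x).card) :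
    (Gb c d).Nonempty := by
  have h1 : ∀ x, Nonempty ({i // c i = x} ≃ {b // d b = x}) := by
    intro x
    rw [← Fintype.card_eq, Fintype.card_subtype, Fintype.card_subtype]
    exact h x
  let e : ∀ x, {i // c i = x} ≃ {b // d b = x} := fun x => Classical.choice (h1 x)
  let σ : α ≃ β := (Equiv.sigmaFiberEquiv c).symm.trans
    ((Equiv.sigmaCongrRight e).trans (Equiv.sigmaFiberEquiv d))
  refine ⟨σ, ?_⟩
  rw [Gb, Finset.mem_filter]
  refine ⟨Finset.mem_univ _, fun i => ?_⟩
  exact (e (c i) ⟨i, rfl⟩).2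

variable {c : α → κ} {d : β → κ} {S : J → Finset α} {f : J → α → β}

/-- the event `j` -/
def Ev (S : J → Finset α) (f : J → α → β) (j : J) (σ : α ≃ β) : Prop := ∀ i ∈ S j, σ i = f j i

/-- neighbours -/
def Nb (S : J → Finset α) (f : J → α → β) (j i : J) : Prop :=
  ¬ Disjoint (S j) (S i) ∨ ¬ Disjoint ((S j).image (f j)) ((S i).image (f i))

theorem step (k : ℕ) (w : α → ℝ)
    (hw : ∀ i, w i = 1 ∨ 1 ≤ w i * (((univ.filter fun b => d b = c i).card : ℝ) - (k - 1)))
    (hw0 : ∀ i, 0 ≤ w i) (j : J) (A : Finset J) (hA : ∀ i ∈ A, ¬ Nb S f j i)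
    (T : Finset α) (i₀ : α) (hi : i₀ ∉ T) (hT : insert i₀ T ⊆ S j) (hk : (S j).card ≤ k) :
    (((av (Gb c d) (Ev S f) A).filter fun σ => ∀ i ∈ insert i₀ T, σ i = f j i).card : ℝ) ≤
      w i₀ * ((av (Gb c d) (Ev S f) A).filter fun σ => ∀ i ∈ T, σ i = f j i).card := by
  obtain ⟨X, hX⟩ : ∃ X, X = (av (Gb c d) (Ev S f) A).filter
    fun σ => ∀ i ∈ insert i₀ T, σ i = f j i := ⟨_, rfl⟩
  obtain ⟨Y, hY⟩ : ∃ Y, Y = (av (Gb c d) (Ev S f) A).filter
    fun σ => ∀ i ∈ T, σ i = f j i := ⟨_, rfl⟩
  rw [← hX, ← hY]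
  have hXY : X ⊆ Y := by
    intro σ hσ
    rw [hX, Finset.mem_filter] at hσ
    rw [hY, Finset.mem_filter]
    exact ⟨hσ.1, fun i hi => hσ.2 i (Finset.mem_insert_of_mem hi)⟩
  rcases hw i₀ with h1 | h1
  · rw [h1, one_mul]
    exact_mod_cast Finset.card_le_card hXY
  obtain ⟨B, hB⟩ : ∃ B, B = (univ.filter fun b => d b = c i₀) \ T.image (f j) := ⟨_, rfl⟩
  have hBc : ((univ.filter fun b => d b = c i₀).card : ℝ) - (k - 1) ≤ B.card := by
    have h2 : (univ.filter fun b => d b = c i₀).card ≤ B.card + T.card := by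
      have h3 := Finset.card_le_card_sdiff_add_card (s := univ.filter fun b => d b = c i₀)
        (t := T.image (f j))
      have h4 : (T.image (f j)).card ≤ T.card := Finset.card_image_le
      rw [hB]
      omega
    have h3 : T.card + 1 ≤ k := by
      rw [← Finset.card_insert_of_notMem hi]
      exact (Finset.card_le_card hT).trans hk
    have h4 : ((univ.filter fun b => d b = c i₀).card : ℝ) ≤ B.card + T.card := by
      exact_mod_cast h2
    have h5 : (T.card : ℝ) + 1 ≤ k := by exact_mod_cast h3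
    linarith
  -- the slices of Y
  have hsl : ∀ b ∈ B, X.card ≤ (Y.filter fun σ => σ i₀ = b).card := by
    intro b hb
    rw [hB, Finset.mem_sdiff, Finset.mem_filter, Finset.mem_image] at hb
    obtain ⟨⟨-, hb1⟩, hb2⟩ := hb
    apply Finset.card_le_card_of_injOn (fun σ : α ≃ β => σ.trans (Equiv.swap (f j i₀) b))
    · intro σ hσ
      rw [Finset.mem_coe, hX, Finset.mem_filter, av, Finset.mem_filter, Gb, Finset.mem_filter] at hσ
      obtain ⟨⟨⟨-, hσ1⟩, hσ2⟩, hσ3⟩ := hσ
      have e0 : σ i₀ = f j i₀ := hσ3 i₀ (Finset.mem_insert_self _ _)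
      have eb : (σ.trans (Equiv.swap (f j i₀) b)) i₀ = b := by
        show Equiv.swap (f j i₀) b (σ i₀) = b
        rw [e0, Equiv.swap_apply_left]
      rw [Finset.mem_coe, Finset.mem_filter, hY, Finset.mem_filter, av, Finset.mem_filter, Gb,
        Finset.mem_filter]
      refine ⟨⟨⟨⟨Finset.mem_univ _, fun i => ?_⟩, fun j' hj' => ?_⟩, fun i hi' => ?_⟩, eb⟩
      · show d (Equiv.swap (f j i₀) b (σ i)) = c i
        by_cases h2 : σ i = f j i₀
        · rw [h2, Equiv.swap_apply_left, hb1, ← hσ1 i, h2, ← e0, hσ1]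
        · by_cases h3 : σ i = b
          · rw [h3, Equiv.swap_apply_right, ← e0, hσ1, ← hb1, ← h3, hσ1]
          · rw [Equiv.swap_apply_of_ne_of_ne h2 h3, hσ1]
      · intro hE
        apply hσ2 j' hj'
        have hnb := hA j' hj'
        rw [Nb, not_or, not_not, not_not] at hnb
        obtain ⟨n1, n2⟩ := hnb
        intro i hi'
        have hi2 := hE i hi'
        have hi3 : Equiv.swap (f j i₀) b (σ i) = f j' i := hi2
        have hi₀S : i₀ ∈ S j := hT (Finset.mem_insert_self _ _)
        have h2 : f j' i ≠ f j i₀ := by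
          intro h
          exact Finset.disjoint_left.1 n2 (Finset.mem_image_of_mem _ hi₀S)
            (h ▸ Finset.mem_image_of_mem _ hi')
        have h3 : f j' i ≠ b := by
          intro h
          have h4 : i = i₀ := by
            apply (σ.trans (Equiv.swap (f j i₀) b)).injective
            exact hi3.trans (h.trans eb.symm)
          rw [h4] at hi'
          exact Finset.disjoint_left.1 n1 hi₀S hi'
        have h5 : σ i = Equiv.swap (f j i₀) b (f j' i) := by
          rw [← hi3, Equiv.swap_apply_self]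
        rw [h5, Equiv.swap_apply_of_ne_of_ne h2 h3]
      · show Equiv.swap (f j i₀) b (σ i) = f j i
        have h2 : σ i = f j i := hσ3 i (Finset.mem_insert_of_mem hi')
        have h3 : f j i ≠ f j i₀ := by
          intro h
          have h4 : i = i₀ := σ.injective (by rw [h2, h, e0])
          exact hi (h4 ▸ hi')
        have h4 : f j i ≠ b := fun h => hb2 ⟨i, hi', h⟩
        rw [h2, Equiv.swap_apply_of_ne_of_ne h3 h4]
    · intro σ _ τ _ h
      ext i
      have h2 := congrArg (fun ρ : α ≃ β => ρ i) h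
      exact (Equiv.swap (f j i₀) b).injective h2
  have hsum : B.card * X.card ≤ Y.card := by
    calc B.card * X.card = ∑ b ∈ B, X.card := by rw [Finset.sum_const, smul_eq_mul]
      _ ≤ ∑ b ∈ B, (Y.filter fun σ => σ i₀ = b).card := Finset.sum_le_sum hsl
      _ ≤ ∑ b, (Y.filter fun σ => σ i₀ = b).card :=
          Finset.sum_le_sum_of_subset (Finset.subset_univ _)
      _ = Y.card := (Finset.card_eq_sum_card_fiberwise (f := fun σ : α ≃ β => σ i₀)
          (t := univ) (by intro x _; simp)).symm
  have hsum' : (B.card : ℝ) * X.card ≤ Y.card := by exact_mod_cast hsum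
  have hXn : (0 : ℝ) ≤ X.card := Nat.cast_nonneg _
  calc (X.card : ℝ) = 1 * X.card := (one_mul _).symm
    _ ≤ w i₀ * (((univ.filter fun b => d b = c i₀).card : ℝ) - (k - 1)) * X.card :=
        mul_le_mul_of_nonneg_right h1 hXn
    _ ≤ w i₀ * B.card * X.card := by
        apply mul_le_mul_of_nonneg_right _ hXn
        exact mul_le_mul_of_nonneg_left hBc (hw0 i₀)
    _ = w i₀ * (B.card * X.card) := by ring
    _ ≤ w i₀ * Y.card := mul_le_mul_of_nonneg_left hsum' (hw0 i₀)

/-- Local lemma for random bijections respecting classes.  `w i` bounds the probability of a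
given value at the position `i`: either `w i = 1` or `w i ≥ 1 / (N_i - k + 1)`, `N_i` the size of
the class of `i`, `k` the maximal number of positions of an event. -/
theorem lll_bij [Fintype J] (hne : (Gb c d).Nonempty) (k : ℕ) (w : α → ℝ)
    (hw : ∀ i, w i = 1 ∨ 1 ≤ w i * (((univ.filter fun b => d b = c i).card : ℝ) - (k - 1)))
    (hw0 : ∀ i, 0 ≤ w i) (hk : ∀ j, (S j).card ≤ k) (hS : ∀ j, (S j).Nonempty)
    (hsum : ∀ j, ∑ i with Nb S f j i, ∏ x ∈ S i, w x ≤ 1 / 4) :
    ∃ σ : α ≃ β, (∀ i, d (σ i) = c i) ∧ ∀ j, ∃ i ∈ S j, σ i ≠ f j i := by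
  obtain ⟨σ, hσ, h⟩ := lll_abs (Gb c d) (Ev S f) hne (Nb S f) (fun j => ∏ x ∈ S j, w x)
    (fun j => Finset.prod_nonneg fun x _ => hw0 x) (by
      intro j A hA
      have key : ∀ T : Finset α, T ⊆ S j →
          (((av (Gb c d) (Ev S f) A).filter fun σ => ∀ i ∈ T, σ i = f j i).card : ℝ) ≤
            (∏ x ∈ T, w x) * (av (Gb c d) (Ev S f) A).card := by
        intro T
        induction T using Finset.induction_on with
        | empty =>
          intro _
          rw [Finset.prod_empty, one_mul]
          exact_mod_cast Finset.card_le_card (Finset.filter_subset _ _)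
        | insert i₀ T hi ih =>
          intro hT
          rw [Finset.prod_insert hi, mul_assoc]
          refine (step k w hw hw0 j A hA T i₀ hi hT (hk j)).trans ?_
          exact mul_le_mul_of_nonneg_left
            (ih ((Finset.subset_insert _ _).trans hT)) (hw0 i₀)
      have e1 : ((av (Gb c d) (Ev S f) A).filter (Ev S f j)) =
          ((av (Gb c d) (Ev S f) A).filter fun σ => ∀ i ∈ S j, σ i = f j i) := by
        ext σ
        simp only [Finset.mem_filter, Ev]
      rw [e1]
      exact key (S j) (Finset.Subset.refl _))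
    hsum (by
      intro j
      left
      rw [Finset.disjoint_self_iff_empty]
      exact (hS j).ne_empty)
  rw [Gb, Finset.mem_filter] at hσ
  refine ⟨σ, hσ.2, fun j => ?_⟩
  by_contra hcon
  push Not at hcon
  exact h j hcon

end bij

end Pool.Agent.THC.H27
end

/-! ### Helper34_KK.BUL -/
section
/-!
# Row BUL (bulk): the local lemma for random bijections completes a cyclic list of slots
-/

set_option autoImplicit false
set_option linter.unusedSectionVars false

open Finset

namespace Pool.Agent.KK.H34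

open Pool.Agent.KK Pool.Agent.THC.H27

/-- the position `i + j` (cyclically) -/
def pos {n k : ℕ} (i : Fin n) (j : Fin k) : Fin n := ⟨(i.1 + j.1) % n, Nat.mod_lt _ i.pos⟩

lemma pos_inj {n k : ℕ} (hk : k ≤ n) (i : Fin n) : Function.Injective (pos (k := k) i) := by
  intro j j' h
  have h1 : (i.1 + j.1) % n = (i.1 + j'.1) % n := congrArg Fin.val h
  have h2 : j.1 % n = j'.1 % n :=
    Nat.ModEq.add_left_cancel' i.1 (h1 : (i.1 + j.1) ≡ (i.1 + j'.1) [MOD n])
  rw [Nat.mod_eq_of_lt (by omega), Nat.mod_eq_of_lt (by omega)] at h2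
  exact Fin.ext h2

lemma pos_inj' {n k : ℕ} (j : Fin k) {i i' : Fin n} (h : pos i j = pos i' j) : i = i' := by
  have h1 : (i.1 + j.1) % n = (i'.1 + j.1) % n := congrArg Fin.val h
  have h2 : i.1 % n = i'.1 % n :=
    Nat.ModEq.add_right_cancel' j.1 (h1 : (i.1 + j.1) ≡ (i'.1 + j.1) [MOD n])
  rw [Nat.mod_eq_of_lt i.2, Nat.mod_eq_of_lt i'.2] at h2
  exact Fin.ext h2

lemma rot_take {α : Type} {n k : ℕ} (hk : k ≤ n) (g : Fin n → α) (i : Fin n) :
    ((List.ofFn g).rotate i).take k = List.ofFn fun j : Fin k => g (pos i j) := by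
  apply List.ext_getElem
  · simp [hk]
  · intro j h1 h2
    simp only [List.getElem_take, List.getElem_rotate, List.getElem_ofFn]
    congr 1
    apply Fin.ext
    simp [pos, add_comm]

lemma mem_image_any {α β : Type} (inst : DecidableEq β) {f : α → β} {s : Finset α} {b : β}
    (h : b ∈ @Finset.image α β inst f s) : ∃ a ∈ s, f a = b := Finset.mem_image.mp h

lemma mem_filter_any {α : Type} {P : α → Prop} (inst : DecidablePred P) {s : Finset α} {a : α}
    (h : a ∈ @Finset.filter α P inst s) : P a := (Finset.mem_filter.mp h).2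

lemma mem_Gb {α β κ : Type} [Fintype α] [Fintype β] (c : α → κ) (d : β → κ) (σ : α ≃ β)
    (h : ∀ i, d (σ i) = c i) : σ ∈ Gb c d := by
  classical
  rw [Gb]
  simp only [mem_filter, mem_univ, true_and]
  exact h

variable {V : Type} [Fintype V] [DecidableEq V]

/-- the weight of a slot -/
noncomputable def g0 (n : ℕ) (x : Slot V) : ℝ := if x.isRight = true then 16 / (n : ℝ) else 1

lemma prod_g0 (n : ℕ) (s : List (Slot V)) : (s.map (g0 n)).prod = (16 / (n : ℝ)) ^ fr s := by
  induction s with
  | nil => simp [fr]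
  | cons x s ih =>
    rw [List.map_cons, List.prod_cons, ih]
    unfold fr
    rw [List.countP_cons]
    unfold g0
    split_ifs with h
    · rw [pow_succ, mul_comm]
    · simp

lemma fr_le (s : List (Slot V)) : fr s ≤ s.length := List.countP_le_length

lemma mem_fx {L : List (Slot V)} {v : V} : v ∈ fx L ↔ Sum.inl v ∈ L := by
  unfold fx
  rw [List.mem_filterMap]
  constructor
  · rintro ⟨x, hx, h⟩
    rcases x with x | x
    · simp at h
      rw [← h]; exact hx
    · simp at h
  · intro h
    exact ⟨_, h, rfl⟩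

/-- a fixed vertex has one position -/
lemma fixed_unique {L : List (Slot V)} (hL : (fx L).Nodup) {x y : Fin L.length} {v : V}
    (hx : L.get x = Sum.inl v) (hy : L.get y = Sum.inl v) : x = y := by
  unfold fx at hL
  rw [List.Nodup, List.pairwise_filterMap, List.pairwise_iff_get] at hL
  rcases lt_trichotomy x y with h | h | h
  · exact absurd rfl (hL x y h v (by rw [hx]; rfl) v (by rw [hy]; rfl))
  · exact h
  · exact absurd rfl (hL y x h v (by rw [hy]; rfl) v (by rw [hx]; rfl))

lemma card_fixed {L : List (Slot V)} (hL : (fx L).Nodup) :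
    (univ.filter fun x : Fin L.length => (L.get x).isRight = false).card ≤ (fx L).length := by
  classical
  rcases isEmpty_or_nonempty V with hV | ⟨⟨v0⟩⟩
  · rw [card_eq_zero.mpr]
    · omega
    · rw [filter_eq_empty_iff]
      intro x _
      rcases h : L.get x with v | b
      · exact (hV.false v).elim
      · simp
  · have h1 : (univ.filter fun x : Fin L.length => (L.get x).isRight = false).card ≤
        (fx L).toFinset.card := by
      apply card_le_card_of_injOn (fun x => (L.get x).elim id fun _ => v0)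
      · intro x hx
        rw [mem_coe, mem_filter] at hx
        rw [mem_coe, List.mem_toFinset, mem_fx]
        rcases h : L.get x with v | b
        · show Sum.inl ((L.get x).elim id fun _ => v0) ∈ L
          rw [h]
          show Sum.inl v ∈ L
          rw [← h]
          exact List.get_mem L x
        · rw [h] at hx
          simp at hx
      · intro x hx y hy hxy
        rw [mem_coe, mem_filter] at hx hy
        rcases h : L.get x with v | b
        · rcases h' : L.get y with v' | b'
          · simp only [h, h', Sum.elim_inl, id] at hxy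
            rw [← hxy] at h'
            exact fixed_unique hL h h'
          · rw [h'] at hy
            simp at hy
        · rw [h] at hx
          simp at hx
    exact h1.trans (List.toFinset_card_le _)

section

variable (H : Finset (Finset V)) (X : Finset V) (L : List (Slot V)) (k : ℕ)

/-- the window at `i` -/
def win (i : Fin L.length) : List (Slot V) := List.ofFn fun j : Fin k => L.get (pos i j)

open scoped Classical in
/-- the events of the window `i` -/
noncomputable def Bad (i : Fin L.length) : Finset (Fin k → V) :=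
  univ.filter fun e => List.ofFn e ∈ BadC H X (win L k i) ∧
    ∀ j, (L.get (pos i j)).isRight = true → e j ∉ fx L

/-- the weight of the window -/
noncomputable def W (i : Fin L.length) : ℝ :=
  ∏ j : Fin k, g0 (Fintype.card V) (L.get (pos i j))

end

variable {H : Finset (Finset V)} {X : Finset V} {L : List (Slot V)} {k : ℕ}

lemma g0_nonneg (n : ℕ) (x : Slot V) : 0 ≤ g0 n x := by
  unfold g0; split_ifs <;> positivity

lemma W_nonneg (i : Fin L.length) : 0 ≤ W L k i := prod_nonneg fun _ _ => g0_nonneg _ _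

lemma W_eq (i : Fin L.length) : W L k i = (16 / (Fintype.card V : ℝ)) ^ fr (win L k i) := by
  rw [← prod_g0, W, win, List.map_ofFn, List.prod_ofFn]
  rfl

lemma length_win (i : Fin L.length) : (win L k i).length = k := by simp [win]

lemma badC_finite (s : List (Slot V)) : (BadC H X s).Finite := by
  apply (List.finite_length_eq V s.length).subset
  intro e he
  exact he.1.length_eq.symm

/-- number of events of one window -/
lemma card_bad (i : Fin L.length) (hn : 0 < Fintype.card V) {ε : ℝ} (hε : 0 ≤ ε)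
    (h : OKs H X ε (win L k i)) : ((Bad H X L k i).card : ℝ) * W L k i ≤ 16 ^ k * ε := by
  classical
  have h1 : (Bad H X L k i).card ≤ (BadC H X (win L k i)).ncard := by
    rw [← Set.ncard_coe_finset]
    refine Set.ncard_le_ncard_of_injOn List.ofFn ?_ ?_ (badC_finite _)
    · intro e he
      rw [mem_coe, Bad, mem_filter] at he
      exact he.2.1
    · intro e _ e' _ h
      exact List.ofFn_injective h
  have h2 : ((Bad H X L k i).card : ℝ) ≤ ε * (Fintype.card V : ℝ) ^ fr (win L k i) := by
    refine le_trans ?_ h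
    exact_mod_cast h1
  have hn' : (0 : ℝ) < Fintype.card V := by exact_mod_cast hn
  rw [W_eq]
  calc ((Bad H X L k i).card : ℝ) * (16 / (Fintype.card V : ℝ)) ^ fr (win L k i)
      ≤ ε * (Fintype.card V : ℝ) ^ fr (win L k i) *
        (16 / (Fintype.card V : ℝ)) ^ fr (win L k i) := by gcongr
    _ = ε * 16 ^ fr (win L k i) := by
        rw [mul_assoc, ← mul_pow]
        congr 2
        field_simp
    _ ≤ ε * 16 ^ k := by
        gcongr
        · norm_num
        · exact (fr_le _).trans (length_win i).le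
    _ = _ := mul_comm _ _

/-- the slots of an event -/
lemma bad_fit {i : Fin L.length} {e : Fin k → V} (he : e ∈ Bad H X L k i) (j : Fin k) :
    Fit X (L.get (pos i j)) (e j) := by
  classical
  rw [Bad, mem_filter] at he
  have h1 := he.2.1.1
  have h2 := h1.get (i := j.1) (by simp [win]) (by simp)
  simpa [win] using h2

lemma bad_right {i : Fin L.length} {e : Fin k → V} (he : e ∈ Bad H X L k i) (j : Fin k)
    (hj : (L.get (pos i j)).isRight = true) : e j ∉ fx L := by
  classical
  rw [Bad, mem_filter] at he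
  exact he.2.2 j hj

/-- sum over the windows which contain a given position at a given place -/
lemma sum_pos (C : ℝ) (x : Fin L.length) (j : Fin k) (F : Fin L.length → ℝ)
    (hF : ∀ i, F i ≤ C) (hC : 0 ≤ C) :
    ∑ i : Fin L.length, (if pos i j = x then F i else 0) ≤ C := by
  classical
  by_cases h : ∃ i₀ : Fin L.length, pos i₀ j = x
  · obtain ⟨i₀, h0⟩ := h
    rw [Finset.sum_eq_single i₀]
    · rw [if_pos h0]; exact hF i₀
    · intro i _ hi
      rw [if_neg]
      intro h1
      exact hi (pos_inj' j (h1.trans h0.symm))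
    · intro h1; exact absurd (mem_univ _) h1
  · push Not at h
    rw [Finset.sum_eq_zero]
    · exact hC
    · intro i _; rw [if_neg (h i)]

/-- the events through a fixed vertex -/
lemma through_fixed (hL : (fx L).Nodup) {C : ℝ} (hC : 0 ≤ C)
    (hB : ∀ i : Fin L.length, ((Bad H X L k i).card : ℝ) * W L k i ≤ C) {v : V} (hv : v ∈ fx L) :
    ∑ i : Fin L.length, ((((Bad H X L k i).filter fun e => ∃ j, e j = v).card : ℝ) * W L k i) ≤
      k * C := by
  classical
  obtain ⟨x, hx⟩ : ∃ x : Fin L.length, L.get x = Sum.inl v := List.get_of_mem (mem_fx.mp hv)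
  have h1 : ∀ i : Fin L.length,
      (((Bad H X L k i).filter fun e => ∃ j, e j = v).card : ℝ) * W L k i ≤
      ∑ j : Fin k, (if pos i j = x then ((Bad H X L k i).card : ℝ) * W L k i else 0) := by
    intro i
    by_cases h : ∃ j : Fin k, pos i j = x
    · obtain ⟨j, hj⟩ := h
      refine le_trans ?_ (single_le_sum (fun j' _ => ?_) (mem_univ j))
      · rw [if_pos hj]
        apply mul_le_mul_of_nonneg_right _ (W_nonneg i)
        exact_mod_cast card_filter_le _ _
      · split_ifs
        · exact mul_nonneg (by positivity) (W_nonneg i)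
        · exact le_rfl
    · push Not at h
      have h2 : (Bad H X L k i).filter (fun e => ∃ j, e j = v) = ∅ := by
        rw [filter_eq_empty_iff]
        rintro e he ⟨j, hj⟩
        have h3 := bad_fit he j
        rcases h4 : L.get (pos i j) with v' | b
        · rw [h4] at h3
          have h5 : v' = v := h3.trans hj
          rw [h5] at h4
          exact h j (fixed_unique hL h4 hx)
        · have h5 := bad_right he j (by rw [h4]; rfl)
          rw [hj] at h5
          exact h5 hv
      rw [h2]
      simp only [card_empty, Nat.cast_zero, zero_mul]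
      apply sum_nonneg
      intro j _
      rw [if_neg (h j)]
  calc _ ≤ ∑ i : Fin L.length, ∑ j : Fin k,
          (if pos i j = x then ((Bad H X L k i).card : ℝ) * W L k i else 0) :=
        sum_le_sum fun i _ => h1 i
    _ = ∑ j : Fin k, ∑ i : Fin L.length,
          (if pos i j = x then ((Bad H X L k i).card : ℝ) * W L k i else 0) := sum_comm
    _ ≤ ∑ _j : Fin k, C := sum_le_sum fun j _ => sum_pos C x j _ hB hC
    _ = k * C := by simp

/-- the events of one window through a vertex at a free slot -/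
lemma through_slot (i : Fin L.length) (hn : 0 < Fintype.card V) (j : Fin k) (v : V)
    (hj : (L.get (pos i j)).isRight = true) :
    (((Bad H X L k i).filter fun e => e j = v).card : ℝ) * W L k i ≤
      16 ^ k / (Fintype.card V : ℝ) := by
  classical
  have hn' : (0 : ℝ) < Fintype.card V := by exact_mod_cast hn
  have hn1 : (1 : ℝ) ≤ Fintype.card V := by exact_mod_cast hn
  set A : Fin k → Finset V := fun j' => if j' = j then {v} else
    (L.get (pos i j')).elim (fun v' => {v'}) (fun _ => univ) with hA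
  have h1 : (Bad H X L k i).filter (fun e => e j = v) ⊆ Fintype.piFinset A := by
    intro e he
    rw [mem_filter] at he
    rw [Fintype.mem_piFinset]
    intro j'
    simp only [hA]
    by_cases h : j' = j
    · rw [if_pos h, mem_singleton, h]; exact he.2
    · rw [if_neg h]
      have h3 := bad_fit he.1 j'
      rcases h4 : L.get (pos i j') with v' | b
      · rw [h4] at h3
        exact mem_singleton.mpr (Eq.symm h3)
      · exact mem_univ _
  have h2 : (((Bad H X L k i).filter fun e => e j = v).card : ℝ) ≤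
      ∏ j' : Fin k, ((A j').card : ℝ) := by
    have := card_le_card h1
    rw [Fintype.card_piFinset] at this
    exact_mod_cast this
  calc _ ≤ (∏ j' : Fin k, ((A j').card : ℝ)) * W L k i :=
        mul_le_mul_of_nonneg_right h2 (W_nonneg i)
    _ = ∏ j' : Fin k, (((A j').card : ℝ) * g0 (Fintype.card V) (L.get (pos i j'))) := by
        rw [prod_mul_distrib, W]
    _ ≤ ∏ j' : Fin k, (16 * if j' = j then 1 / (Fintype.card V : ℝ) else 1) := by
        apply prod_le_prod
        · intro j' _; exact mul_nonneg (by positivity) (g0_nonneg _ _)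
        · intro j' _
          by_cases h : j' = j
          · subst h
            simp only [hA, if_true, card_singleton, Nat.cast_one, one_mul]
            rw [g0, if_pos hj]
            exact le_of_eq (by ring)
          · rw [if_neg h]
            simp only [hA, if_neg h]
            rcases h4 : L.get (pos i j') with v' | b
            · simp only [Sum.elim_inl, card_singleton, Nat.cast_one, one_mul]
              rw [g0, if_neg (by simp)]
              norm_num
            · simp only [Sum.elim_inr]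
              rw [g0, if_pos (by simp), card_univ]
              exact le_of_eq (by field_simp)
    _ = 16 ^ k / (Fintype.card V : ℝ) := by
        rw [prod_mul_distrib, prod_const, card_univ, Fintype.card_fin,
          prod_ite_eq' univ j (fun _ => 1 / (Fintype.card V : ℝ)), if_pos (mem_univ _)]
        ring

/-- the events of one window through a vertex which is not fixed -/
lemma filter_exists_le (i : Fin L.length) {v : V} (hv : v ∉ fx L) {D : ℝ} (hD : 0 ≤ D)
    (h : ∀ j : Fin k, (L.get (pos i j)).isRight = true →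
      (((Bad H X L k i).filter fun e => e j = v).card : ℝ) * W L k i ≤ D) :
    (((Bad H X L k i).filter fun e => ∃ j, e j = v).card : ℝ) * W L k i ≤ k * D := by
  classical
  have h1 : ∀ j : Fin k, (((Bad H X L k i).filter fun e => e j = v).card : ℝ) * W L k i ≤ D := by
    intro j
    by_cases hj : (L.get (pos i j)).isRight = true
    · exact h j hj
    · have h2 : (Bad H X L k i).filter (fun e => e j = v) = ∅ := by
        rw [filter_eq_empty_iff]
        intro e he hev
        have h3 := bad_fit he j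
        rcases h4 : L.get (pos i j) with v' | b
        · rw [h4] at h3
          have h5 : v' = v := h3.trans hev
          apply hv
          rw [mem_fx, ← h5, ← h4]
          exact List.get_mem L _
        · rw [h4] at hj
          exact hj rfl
      rw [h2]
      simpa using hD
  have h2 : (Bad H X L k i).filter (fun e => ∃ j, e j = v) ⊆
      univ.biUnion fun j : Fin k => (Bad H X L k i).filter fun e => e j = v := by
    intro e he
    rw [mem_filter] at he
    obtain ⟨he, j, hj⟩ := he
    exact mem_biUnion.mpr ⟨j, mem_univ _, mem_filter.mpr ⟨he, hj⟩⟩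
  have h3 : (((Bad H X L k i).filter fun e => ∃ j, e j = v).card : ℝ) ≤
      ∑ j : Fin k, (((Bad H X L k i).filter fun e => e j = v).card : ℝ) := by
    exact_mod_cast (card_le_card h2).trans card_biUnion_le
  calc _ ≤ (∑ j : Fin k, (((Bad H X L k i).filter fun e => e j = v).card : ℝ)) * W L k i :=
        mul_le_mul_of_nonneg_right h3 (W_nonneg i)
    _ = ∑ j : Fin k, (((Bad H X L k i).filter fun e => e j = v).card : ℝ) * W L k i :=
        sum_mul _ _ _
    _ ≤ ∑ _j : Fin k, D := sum_le_sum fun j _ => h1 j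
    _ = k * D := by simp

/-- the events of a completely free window through a vertex -/
lemma free_window (i : Fin L.length) (hn : 0 < Fintype.card V) (hk : 1 ≤ k) {ε : ℝ} (hε : 0 ≤ ε)
    (hfree : ∀ j : Fin k, (L.get (pos i j)).isRight = true) (v : V)
    (hv : ∀ u₁ u₂ : List Bool, u₁.length + 1 + u₂.length = k →
      (fw u₁ ++ Sum.inr (decide (v ∈ X)) :: fw u₂ : List (Slot V)) = win L k i →
      ((BadC H X (fw u₁ ++ Sum.inl v :: fw u₂)).ncard : ℝ) ≤
        ε * (Fintype.card V : ℝ) ^ (k - 1)) (j : Fin k) :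
    (((Bad H X L k i).filter fun e => e j = v).card : ℝ) * W L k i ≤
      16 ^ k * ε / (Fintype.card V : ℝ) := by
  classical
  have hn' : (0 : ℝ) < Fintype.card V := by exact_mod_cast hn
  have hW : W L k i = (16 / (Fintype.card V : ℝ)) ^ k := by
    rw [W, prod_congr rfl (g := fun _ => 16 / (Fintype.card V : ℝ))]
    · rw [prod_const, card_univ, Fintype.card_fin]
    · intro j' _; rw [g0, if_pos (hfree j')]
  rcases ((Bad H X L k i).filter fun e => e j = v).eq_empty_or_nonempty with h0 | ⟨e0, he0⟩
  · rw [h0]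
    simp only [card_empty, Nat.cast_zero, zero_mul]
    positivity
  · rw [mem_filter] at he0
    obtain ⟨b, hb⟩ : ∃ b : Fin k → Bool, ∀ j', L.get (pos i j') = Sum.inr (b j') := by
      refine ⟨fun j' => (L.get (pos i j')).elim (fun _ => true) id, fun j' => ?_⟩
      rcases h : L.get (pos i j') with v' | b
      · have := hfree j'
        rw [h] at this
        simp at this
      · show _ = Sum.inr ((L.get (pos i j')).elim (fun _ => true) id)
        rw [h]
        rfl
    have hwin : win L k i = fw (List.ofFn b) := by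
      rw [win, fw, List.map_ofFn]
      congr 1
      funext j'
      exact hb j'
    have hbj : b j = decide (v ∈ X) := by
      have h1 := bad_fit he0.1 j
      rw [hb j, he0.2] at h1
      have h2 : v ∈ X ↔ b j = true := h1
      rcases h3 : b j with _ | _
      · rw [h3] at h2
        simp at h2
        simp [h2]
      · rw [h3] at h2
        simp at h2
        simp [h2]
    have hsplit : ∀ (α : Type) (f : Fin k → α), List.ofFn f =
        (List.ofFn f).take j.1 ++ f j :: (List.ofFn f).drop (j.1 + 1) := by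
      intro α f
      have h1 : j.1 < (List.ofFn f).length := by simp
      have h2 := List.take_append_drop j.1 (List.ofFn f)
      rw [List.drop_eq_getElem_cons h1] at h2
      rw [List.getElem_ofFn] at h2
      exact h2.symm
    set u₁ := (List.ofFn b).take j.1 with hu₁
    set u₂ := (List.ofFn b).drop (j.1 + 1) with hu₂
    have hlen : u₁.length + 1 + u₂.length = k := by
      rw [hu₁, hu₂]
      simp only [List.length_take, List.length_drop, List.length_ofFn]
      omega
    have hw2 : (fw u₁ ++ Sum.inr (decide (v ∈ X)) :: fw u₂ : List (Slot V)) = win L k i := by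
      rw [hwin, hsplit Bool b, hbj]
      simp [fw, hu₁, hu₂]
    have h1 := hv u₁ u₂ hlen hw2
    have h2 : ((Bad H X L k i).filter fun e => e j = v).card ≤
        (BadC H X (fw u₁ ++ Sum.inl v :: fw u₂)).ncard := by
      rw [← Set.ncard_coe_finset]
      refine Set.ncard_le_ncard_of_injOn List.ofFn ?_ ?_ (badC_finite _)
      · intro e he
        rw [mem_coe, mem_filter] at he
        obtain ⟨he1, he2⟩ := he
        have he3 := he1
        rw [Bad, mem_filter] at he3
        obtain ⟨-, ⟨h4, h5, h6⟩, -⟩ := he3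
        refine ⟨?_, h5, h6⟩
        rw [hsplit V e, he2]
        rw [← hw2, hsplit V e, he2] at h4
        have hl1 : (fw u₁ : List (Slot V)).length = ((List.ofFn e).take j.1).length := by
          rw [hu₁]; simp [fw]
        have h7 : List.Forall₂ (Fit X) (fw u₁) ((List.ofFn e).take j.1) ∧
            List.Forall₂ (Fit X) (Sum.inr (decide (v ∈ X)) :: fw u₂)
              (v :: (List.ofFn e).drop (j.1 + 1)) := by
          have h8 := List.forall₂_take (fw u₁ : List (Slot V)).length h4
          have h9 := List.forall₂_drop (fw u₁ : List (Slot V)).length h4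
          rw [List.take_left', List.take_left' hl1.symm] at h8
          · rw [List.drop_left', List.drop_left' hl1.symm] at h9
            · exact ⟨h8, h9⟩
            · rfl
          · rfl
        obtain ⟨h8, h9⟩ := h7
        rw [List.forall₂_cons] at h9
        exact List.rel_append h8 (List.Forall₂.cons rfl h9.2)
      · intro e _ e' _ h
        exact List.ofFn_injective h
    have h3 : (((Bad H X L k i).filter fun e => e j = v).card : ℝ) ≤
        ε * (Fintype.card V : ℝ) ^ (k - 1) := le_trans (by exact_mod_cast h2) h1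
    rw [hW]
    obtain ⟨k', rfl⟩ : ∃ k', k = k' + 1 := ⟨k - 1, by omega⟩
    calc _ ≤ ε * (Fintype.card V : ℝ) ^ (k' + 1 - 1) * (16 / (Fintype.card V : ℝ)) ^ (k' + 1) :=
          mul_le_mul_of_nonneg_right h3 (by positivity)
      _ = 16 ^ (k' + 1) * ε / (Fintype.card V : ℝ) := by
          rw [Nat.add_sub_cancel, div_pow]
          field_simp
          ring

/-- the number of windows with a fixed slot -/
lemma card_mixed (hL : (fx L).Nodup) :
    (univ.filter fun i : Fin L.length => ∃ j : Fin k, (L.get (pos i j)).isRight = false).card ≤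
      k * (fx L).length := by
  classical
  have h1 : (univ.filter fun i : Fin L.length =>
      ∃ j : Fin k, (L.get (pos i j)).isRight = false) ⊆
      univ.biUnion fun j : Fin k => univ.filter fun i : Fin L.length =>
        (L.get (pos i j)).isRight = false := by
    intro i hi
    rw [mem_filter] at hi
    obtain ⟨-, j, hj⟩ := hi
    exact mem_biUnion.mpr ⟨j, mem_univ _, mem_filter.mpr ⟨mem_univ _, hj⟩⟩
  have h2 : ∀ j : Fin k, (univ.filter fun i : Fin L.length =>
      (L.get (pos i j)).isRight = false).card ≤ (fx L).length := by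
    intro j
    refine le_trans ?_ (card_fixed hL)
    apply card_le_card_of_injOn (fun i => pos i j)
    · intro i hi
      rw [mem_coe, mem_filter] at hi ⊢
      exact ⟨mem_univ _, hi.2⟩
    · intro i _ i' _ h
      exact pos_inj' j h
  calc _ ≤ _ := card_le_card h1
    _ ≤ ∑ j : Fin k, (univ.filter fun i : Fin L.length =>
        (L.get (pos i j)).isRight = false).card := card_biUnion_le
    _ ≤ ∑ _j : Fin k, (fx L).length := sum_le_sum fun j _ => h2 j
    _ = k * (fx L).length := by simp

/-- the events through a vertex which is not fixed -/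
lemma through_free (hL : (fx L).Nodup) (hlen : L.length = Fintype.card V)
    (hn : 0 < Fintype.card V) (hk : 1 ≤ k) {ε : ℝ}
    (hε : 0 ≤ ε) (hfx : ((fx L).length : ℝ) ≤ ε * (Fintype.card V : ℝ)) {v : V} (hv : v ∉ fx L)
    (hvw : ∀ (i : Fin L.length) (u₁ u₂ : List Bool), u₁.length + 1 + u₂.length = k →
      (fw u₁ ++ Sum.inr (decide (v ∈ X)) :: fw u₂ : List (Slot V)) = win L k i →
      ((BadC H X (fw u₁ ++ Sum.inl v :: fw u₂)).ncard : ℝ) ≤
        ε * (Fintype.card V : ℝ) ^ (k - 1)) :
    ∑ i : Fin L.length, ((((Bad H X L k i).filter fun e => ∃ j, e j = v).card : ℝ) * W L k i) ≤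
      ((k : ℝ) ^ 2 + k) * (16 ^ k * ε) := by
  classical
  have hn' : (0 : ℝ) < Fintype.card V := by exact_mod_cast hn
  have h1 : ∀ i : Fin L.length,
      (((Bad H X L k i).filter fun e => ∃ j, e j = v).card : ℝ) * W L k i ≤
      k * (16 ^ k * ε / (Fintype.card V : ℝ)) +
        (if ∃ j : Fin k, (L.get (pos i j)).isRight = false then
          k * (16 ^ k / (Fintype.card V : ℝ)) else 0) := by
    intro i
    by_cases h : ∃ j : Fin k, (L.get (pos i j)).isRight = false
    · rw [if_pos h]
      have h2 := filter_exists_le (H := H) (X := X) i hv (D := 16 ^ k / (Fintype.card V : ℝ))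
        (by positivity) (fun j hj => through_slot i hn j v hj)
      have h3 : 0 ≤ (k : ℝ) * (16 ^ k * ε / (Fintype.card V : ℝ)) := by positivity
      linarith
    · rw [if_neg h, add_zero]
      push Not at h
      have hfree : ∀ j : Fin k, (L.get (pos i j)).isRight = true := fun j => by
        have := h j
        simpa using this
      exact filter_exists_le (H := H) (X := X) i hv (by positivity)
        (fun j _ => free_window i hn hk hε hfree v (fun u₁ u₂ h1 h2 => hvw i u₁ u₂ h1 h2) j)
  have h2 := card_mixed (k := k) hL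
  have h3 : ((univ.filter fun i : Fin L.length =>
      ∃ j : Fin k, (L.get (pos i j)).isRight = false).card : ℝ) ≤ k * (fx L).length := by
    exact_mod_cast h2
  calc _ ≤ ∑ i : Fin L.length, (k * (16 ^ k * ε / (Fintype.card V : ℝ)) +
        (if ∃ j : Fin k, (L.get (pos i j)).isRight = false then
          k * (16 ^ k / (Fintype.card V : ℝ)) else 0)) := sum_le_sum fun i _ => h1 i
    _ = (L.length : ℝ) * (k * (16 ^ k * ε / (Fintype.card V : ℝ))) +
        ((univ.filter fun i : Fin L.length =>
          ∃ j : Fin k, (L.get (pos i j)).isRight = false).card : ℝ) *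
          (k * (16 ^ k / (Fintype.card V : ℝ))) := by
        rw [sum_add_distrib, sum_const, card_univ, Fintype.card_fin, nsmul_eq_mul, ← sum_filter,
          sum_const, nsmul_eq_mul]
    _ ≤ (Fintype.card V : ℝ) * (k * (16 ^ k * ε / (Fintype.card V : ℝ))) +
        (k * (ε * (Fintype.card V : ℝ))) * (k * (16 ^ k / (Fintype.card V : ℝ))) := by
        have hlen' : (L.length : ℝ) = (Fintype.card V : ℝ) := by exact_mod_cast hlen
        rw [hlen']
        have h4 : ((univ.filter fun i : Fin L.length =>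
          ∃ j : Fin k, (L.get (pos i j)).isRight = false).card : ℝ) ≤
            k * (ε * (Fintype.card V : ℝ)) :=
          h3.trans (mul_le_mul_of_nonneg_left hfx (by positivity))
        have h5 : 0 ≤ (k : ℝ) * (16 ^ k / (Fintype.card V : ℝ)) := by positivity
        have h6 := mul_le_mul_of_nonneg_right h4 h5
        linarith
    _ = ((k : ℝ) ^ 2 + k) * (16 ^ k * ε) := by
        field_simp
        ring

open scoped Classical in
/-- events -/
abbrev J (H : Finset (Finset V)) (X : Finset V) (L : List (Slot V)) (k : ℕ) : Type :=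
  (i : Fin L.length) × {e : Fin k → V // e ∈ Bad H X L k i}

open scoped Classical in
/-- the positions of an event -/
noncomputable def ES (p : J H X L k) : Finset (Fin L.length) :=
  univ.image fun j : Fin k => pos p.1 j

/-- the values of an event -/
noncomputable def EF (hk : 0 < k) (p : J H X L k) : Fin L.length → V :=
  Function.extend (pos p.1) p.2.1 (fun _ => p.2.1 ⟨0, hk⟩)

lemma EF_pos (hk : 0 < k) (hkn : k ≤ L.length) (p : J H X L k) (j : Fin k) :
    EF hk p (pos p.1 j) = p.2.1 j := (pos_inj hkn p.1).extend_apply _ _ _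

lemma sum_nb (hk : 0 < k) (hkn : k ≤ L.length) {C : ℝ} (hC : 0 ≤ C)
    (hB : ∀ i : Fin L.length, ((Bad H X L k i).card : ℝ) * W L k i ≤ C)
    (hV : ∀ v : V, ∑ i : Fin L.length,
      ((((Bad H X L k i).filter fun e => ∃ j, e j = v).card : ℝ) * W L k i) ≤
        ((k : ℝ) ^ 2 + k) * C)
    (q : J H X L k) (F : Finset (J H X L k)) (hF : ∀ p ∈ F, Nb ES (EF hk) q p) :
    ∑ p ∈ F, W L k p.1 ≤ ((k : ℝ) ^ 3 + 2 * k ^ 2) * C := by
  classical
  -- the indicator bound
  have h1 : ∀ p ∈ F, W L k p.1 ≤
      (∑ j : Fin k, ∑ j' : Fin k, if pos p.1 j' = pos q.1 j then W L k p.1 else 0) +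
      ∑ j : Fin k, if ∃ j', p.2.1 j' = q.2.1 j then W L k p.1 else 0 := by
    intro p hp
    have hn1 : ∀ j : Fin k, ∀ j' : Fin k,
        0 ≤ if pos p.1 j' = pos q.1 j then W L k p.1 else 0 := by
      intro j j'; split_ifs
      · exact W_nonneg _
      · exact le_rfl
    have hn2 : ∀ j : Fin k, 0 ≤ if ∃ j', p.2.1 j' = q.2.1 j then W L k p.1 else 0 := by
      intro j; split_ifs
      · exact W_nonneg _
      · exact le_rfl
    rcases hF p hp with h | h
    · rw [not_disjoint_iff] at h
      obtain ⟨x, hx, hx'⟩ := h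
      rw [ES, mem_image] at hx hx'
      obtain ⟨j, -, hj⟩ := hx
      obtain ⟨j', -, hj'⟩ := hx'
      have h2 : W L k p.1 ≤
          ∑ j : Fin k, ∑ j' : Fin k, if pos p.1 j' = pos q.1 j then W L k p.1 else 0 := by
        refine le_trans ?_ (single_le_sum (fun j _ => sum_nonneg fun j' _ => hn1 j j')
          (mem_univ j))
        refine le_trans ?_ (single_le_sum (fun j' _ => hn1 j j') (mem_univ j'))
        rw [if_pos (hj'.trans hj.symm)]
      have h3 := sum_nonneg (s := (univ : Finset (Fin k))) fun j _ => hn2 j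
      linarith
    · rw [not_disjoint_iff] at h
      obtain ⟨v, hv, hv'⟩ := h
      obtain ⟨x, hx, hxv⟩ := mem_image_any _ hv
      obtain ⟨x', hx', hxv'⟩ := mem_image_any _ hv'
      rw [ES, mem_image] at hx hx'
      obtain ⟨j, -, hj⟩ := hx
      obtain ⟨j', -, hj'⟩ := hx'
      rw [← hj, EF_pos hk hkn] at hxv
      rw [← hj', EF_pos hk hkn] at hxv'
      have h2 : W L k p.1 ≤ ∑ j : Fin k, if ∃ j', p.2.1 j' = q.2.1 j then W L k p.1 else 0 := by
        refine le_trans ?_ (single_le_sum (fun j _ => hn2 j) (mem_univ j))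
        rw [if_pos ⟨j', hxv'.trans hxv.symm⟩]
      have h3 := sum_nonneg (s := (univ : Finset (Fin k))) fun j _ =>
        sum_nonneg (s := (univ : Finset (Fin k))) fun j' _ => hn1 j j'
      linarith
  have hnn : ∀ p : J H X L k, 0 ≤
      (∑ j : Fin k, ∑ j' : Fin k, if pos p.1 j' = pos q.1 j then W L k p.1 else 0) +
      ∑ j : Fin k, if ∃ j', p.2.1 j' = q.2.1 j then W L k p.1 else 0 := by
    intro p
    apply add_nonneg
    · apply sum_nonneg; intro j _; apply sum_nonneg; intro j' _; split_ifs
      · exact W_nonneg _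
      · exact le_rfl
    · apply sum_nonneg; intro j _; split_ifs
      · exact W_nonneg _
      · exact le_rfl
  have hA : ∀ j j' : Fin k, ∑ p : J H X L k,
      (if pos p.1 j' = pos q.1 j then W L k p.1 else 0) ≤ C := by
    intro j j'
    rw [Fintype.sum_sigma]
    have h2 : ∀ i : Fin L.length, ∑ e : {e : Fin k → V // e ∈ Bad H X L k i},
        (if pos i j' = pos q.1 j then W L k i else 0) =
        if pos i j' = pos q.1 j then ((Bad H X L k i).card : ℝ) * W L k i else 0 := by
      intro i
      rw [sum_const, card_univ, Fintype.card_coe, nsmul_eq_mul]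
      split_ifs <;> simp
    simp only [h2]
    exact sum_pos C _ j' _ hB hC
  have hD : ∀ j : Fin k, ∑ p : J H X L k,
      (if ∃ j', p.2.1 j' = q.2.1 j then W L k p.1 else 0) ≤ ((k : ℝ) ^ 2 + k) * C := by
    intro j
    rw [Fintype.sum_sigma]
    refine le_trans (le_of_eq (sum_congr rfl fun i _ => ?_)) (hV (q.2.1 j))
    have h3 := Finset.sum_coe_sort (Bad H X L k i)
      (fun e => if ∃ j', e j' = q.2.1 j then W L k i else 0)
    simp only at h3 ⊢
    rw [h3, ← sum_filter, sum_const, nsmul_eq_mul]
  calc ∑ p ∈ F, W L k p.1 ≤ ∑ p ∈ F,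
      ((∑ j : Fin k, ∑ j' : Fin k, if pos p.1 j' = pos q.1 j then W L k p.1 else 0) +
      ∑ j : Fin k, if ∃ j', p.2.1 j' = q.2.1 j then W L k p.1 else 0) := sum_le_sum h1
    _ ≤ ∑ p : J H X L k,
      ((∑ j : Fin k, ∑ j' : Fin k, if pos p.1 j' = pos q.1 j then W L k p.1 else 0) +
      ∑ j : Fin k, if ∃ j', p.2.1 j' = q.2.1 j then W L k p.1 else 0) :=
        sum_le_sum_of_subset_of_nonneg (subset_univ _) fun p _ _ => hnn p
    _ = (∑ j : Fin k, ∑ j' : Fin k, ∑ p : J H X L k,
          (if pos p.1 j' = pos q.1 j then W L k p.1 else 0)) +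
        ∑ j : Fin k, ∑ p : J H X L k,
          (if ∃ j', p.2.1 j' = q.2.1 j then W L k p.1 else 0) := by
        rw [sum_add_distrib, sum_comm]
        congr 1
        · exact sum_congr rfl fun j _ => sum_comm
        · exact sum_comm
    _ ≤ (∑ _j : Fin k, ∑ _j' : Fin k, C) + ∑ _j : Fin k, ((k : ℝ) ^ 2 + k) * C :=
        add_le_add (sum_le_sum fun j _ => sum_le_sum fun j' _ => hA j j')
          (sum_le_sum fun j _ => hD j)
    _ = ((k : ℝ) ^ 3 + 2 * k ^ 2) * C := by
        simp only [sum_const, card_univ, Fintype.card_fin, nsmul_eq_mul]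
        ring

lemma prod_ES (hkn : k ≤ L.length) (p : J H X L k) :
    ∏ x ∈ ES p, g0 (Fintype.card V) (L.get x) = W L k p.1 := by
  classical
  rw [ES, prod_image]
  · rfl
  · intro j _ j' _ h
    exact pos_inj hkn p.1 h

/-- Row BUL. -/
theorem bul (hCyc : CycStmt) (hFib : FibStmt) : BulkStmt := by
  intro k hk2
  have hk : 0 < k := by omega
  obtain ⟨ε, hε⟩ : ∃ ε : ℝ, ε = 1 / (8 * 16 ^ k * ((k : ℝ) ^ 3 + 2 * k ^ 2)) := ⟨_, rfl⟩
  have hkr : (2 : ℝ) ≤ k := by exact_mod_cast hk2
  have hk3 : (16 : ℝ) ≤ (k : ℝ) ^ 3 + 2 * k ^ 2 := by nlinarith [sq_nonneg ((k : ℝ) - 2)]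
  have h16 : (1 : ℝ) ≤ 16 ^ k := one_le_pow₀ (by norm_num)
  have hden : (128 : ℝ) ≤ 8 * 16 ^ k * ((k : ℝ) ^ 3 + 2 * k ^ 2) := by nlinarith
  have hε0 : 0 < ε := by rw [hε]; positivity
  have hε8 : ε ≤ 1 / 8 := by
    rw [hε]
    apply one_div_le_one_div_of_le (by norm_num)
    linarith
  have hC : ((k : ℝ) ^ 3 + 2 * k ^ 2) * (16 ^ k * ε) ≤ 1 / 4 := by
    have h1 : ((k : ℝ) ^ 3 + 2 * k ^ 2) * (16 ^ k * ε) = 1 / 8 := by
      rw [hε]
      have h2 : (0 : ℝ) < (k : ℝ) ^ 3 + 2 * k ^ 2 := by linarith
      field_simp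
    rw [h1]; norm_num
  refine ⟨ε, hε0, by linarith, 16 * k, ?_⟩
  intro V _ _ H X L hn hlen hfxn hfxl hcX hX1 hX2 hOK hvert
  have hn0 : 0 < Fintype.card V := by omega
  have hn' : (0 : ℝ) < Fintype.card V := by exact_mod_cast hn0
  have hkn : k ≤ L.length := by omega
  have hofn : List.ofFn L.get = L := List.ofFn_get L
  -- windows
  have hwin : ∀ i : Fin L.length, win L k i <:+: L ++ L.take (k - 1) := by
    intro i
    have h1 := (hCyc (Slot V) L k hk hkn (win L k i)).mpr ⟨i.1, i.2, ?_⟩
    · exact h1.1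
    · have h2 := rot_take hkn L.get i
      rw [hofn] at h2
      exact h2.symm
  have hOKw : ∀ i : Fin L.length, OKs H X ε (win L k i) :=
    fun i => hOK _ (hwin i) (length_win i)
  have hB : ∀ i : Fin L.length, ((Bad H X L k i).card : ℝ) * W L k i ≤ 16 ^ k * ε :=
    fun i => card_bad i hn0 hε0.le (hOKw i)
  have hV : ∀ v : V, ∑ i : Fin L.length,
      ((((Bad H X L k i).filter fun e => ∃ j, e j = v).card : ℝ) * W L k i) ≤
        ((k : ℝ) ^ 2 + k) * (16 ^ k * ε) := by
    intro v
    have hC0 : 0 ≤ 16 ^ k * ε := by positivity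
    by_cases hv : v ∈ fx L
    · refine (through_fixed hfxn hC0 hB hv).trans ?_
      have h1 : 0 ≤ (k : ℝ) ^ 2 * (16 ^ k * ε) := by positivity
      linarith
    · refine through_free hfxn hlen hn0 hk hε0.le hfxl hv ?_
      intro i u₁ u₂ h1 h2
      apply hvert v u₁ u₂ h1 hv
      rw [h2]
      exact hwin i
  -- the colours
  obtain ⟨d, hd⟩ : ∃ d : V → Slot V, d = fun v =>
    (if v ∈ fx L then (Sum.inl v : Slot V) else Sum.inr (decide (v ∈ X))) := ⟨_, rfl⟩
  obtain ⟨σ₀, hσ₀⟩ := hFib V X L hlen hfxn hcX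
  have hne : (Gb (fun x : Fin L.length => L.get x) d).Nonempty := by
    refine ⟨σ₀, mem_Gb _ _ _ fun i => ?_⟩
    rw [hd]
    exact hσ₀ i
  have hw : ∀ x : Fin L.length, g0 (Fintype.card V) (L.get x) = 1 ∨ ∀ F : Finset V,
      (∀ b, b ∈ F ↔ d b = L.get x) →
      1 ≤ g0 (Fintype.card V) (L.get x) * ((F.card : ℝ) - (k - 1)) := by
    intro x
    rcases h : L.get x with v | b
    · left; rw [g0, if_neg (by simp)]
    · right
      intro F hF
      rw [g0, if_pos (by simp)]
      -- the class has at least n/4 - ε n elements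
      have h1 : (Fintype.card V : ℝ) / 4 - ε * Fintype.card V ≤ F.card := by
        have hsub : ∀ A : Finset V, (∀ v ∈ A, v ∉ fx L → v ∈ F) →
            (A.card : ℝ) ≤ F.card + (fx L).length := by
          intro A hA
          have h2 : A ⊆ F ∪ (fx L).toFinset := by
            intro v hv
            by_cases h3 : v ∈ fx L
            · exact mem_union_right _ (List.mem_toFinset.mpr h3)
            · exact mem_union_left _ (hA v hv h3)
          have h3 : A.card ≤ F.card + (fx L).length :=
            (card_le_card h2).trans ((card_union_le _ _).trans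
              (Nat.add_le_add_left (List.toFinset_card_le _) _))
          exact_mod_cast h3
        rcases b with _ | _
        · have h2 := hsub Xᶜ (fun v hv hvf => by
            rw [hF, hd]
            simp only
            rw [if_neg hvf]
            rw [mem_compl] at hv
            simp [hv])
          have h3 : (Fintype.card V : ℝ) ≤ 4 * (Xᶜ.card : ℝ) := by
            have h4 := card_add_card_compl X
            have h5 : Fintype.card V ≤ 4 * Xᶜ.card := by omega
            exact_mod_cast h5
          linarith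
        · have h2 := hsub X (fun v hv hvf => by
            rw [hF, hd]
            simp only
            rw [if_neg hvf]
            simp [hv])
          have h3 : (Fintype.card V : ℝ) ≤ 4 * (X.card : ℝ) := by exact_mod_cast hX1
          linarith
      have h2 : ε * (Fintype.card V : ℝ) ≤ 1 / 8 * Fintype.card V := by gcongr
      have h3 : (16 : ℝ) * k ≤ Fintype.card V := by exact_mod_cast hn
      rw [div_mul_eq_mul_div, le_div_iff₀ hn']
      linarith
  obtain ⟨σ, hσ1, hσ2⟩ := lll_bij (J := J H X L k) (S := ES) (f := EF hk) hne k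
    (fun x => g0 (Fintype.card V) (L.get x))
    (by
      intro x
      rcases hw x with h | h
      · exact Or.inl h
      · refine Or.inr (h _ fun b => ?_)
        simp only [mem_filter, mem_univ, true_and])
    (fun x => g0_nonneg _ _)
    (by
      intro p
      rw [ES]
      exact card_image_le.trans (by simp))
    (by
      intro p
      rw [ES]
      exact ⟨pos p.1 ⟨0, hk⟩, mem_image.mpr ⟨⟨0, hk⟩, mem_univ _, rfl⟩⟩)
    (by
      intro q
      simp only [prod_ES hkn]
      refine (sum_nb hk hkn (by positivity) hB hV q _ fun p hp => ?_).trans hC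
      exact mem_filter_any _ hp)
  -- the Hamilton cycle
  have hfit : ∀ x : Fin L.length, Fit X (L.get x) (σ x) ∧
      ((L.get x).isRight = true → σ x ∉ fx L) := by
    intro x
    have h1 := hσ1 x
    rw [hd] at h1
    simp only at h1
    by_cases h2 : σ x ∈ fx L
    · rw [if_pos h2] at h1
      rw [← h1]
      exact ⟨rfl, fun h => by simp at h⟩
    · rw [if_neg h2] at h1
      rw [← h1]
      refine ⟨?_, fun _ => h2⟩
      show σ x ∈ X ↔ decide (σ x ∈ X) = true
      simp
  refine ⟨List.ofFn σ, List.nodup_ofFn.mpr σ.injective, ?_, ?_⟩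
  · intro v
    rw [List.mem_ofFn]
    exact ⟨σ.symm v, σ.apply_symm_apply v⟩
  · intro s hs hsk
    have hl : (List.ofFn σ).length = L.length := List.length_ofFn
    obtain ⟨i, hi, hsi⟩ := (hCyc V (List.ofFn σ) k hk (by rw [hl]; exact hkn) s).mp ⟨hs, hsk⟩
    rw [hl] at hi
    have h1 := rot_take hkn (σ : Fin L.length → V) ⟨i, hi⟩
    have hs2 : s = List.ofFn fun j : Fin k => σ (pos (⟨i, hi⟩ : Fin L.length) j) := by
      rw [hsi]; exact h1
    by_contra hH
    have hmem : (fun j : Fin k => σ (pos (⟨i, hi⟩ : Fin L.length) j)) ∈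
        Bad H X L k ⟨i, hi⟩ := by
      classical
      rw [Bad, mem_filter]
      refine ⟨mem_univ _, ⟨?_, ?_, ?_⟩, fun j hj => (hfit _).2 hj⟩
      · rw [win, List.forall₂_iff_get]
        refine ⟨by simp, ?_⟩
        intro a h2 h3
        simp only [List.get_eq_getElem, List.getElem_ofFn]
        exact (hfit _).1
      · rw [List.nodup_ofFn]
        intro j j' hjj
        exact pos_inj hkn _ (σ.injective hjj)
      · rw [← hs2]; exact hH
    obtain ⟨x, hx, hne'⟩ := hσ2 ⟨⟨i, hi⟩, ⟨_, hmem⟩⟩
    rw [ES, mem_image] at hx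
    obtain ⟨j, -, hj⟩ := hx
    apply hne'
    rw [← hj, EF_pos hk hkn]

end Pool.Agent.KK.H34
end

/-! ### Helper60_KKB.PUP -/
section
/-!
# Squad KKB, rows PUP and PDN: far flips upwards and downwards
-/

set_option autoImplicit false

namespace Pool.Agent.KK.H60W

/-! ### elementary facts on `wt` and `per` -/

theorem wt_append (u v : List Bool) : wt (u ++ v) = wt u + wt v := List.count_append ..

theorem wt_cons (b : Bool) (v : List Bool) : wt (b :: v) = wt [b] + wt v := by
  rw [← wt_append]; rfl

theorem wt_true : wt [true] = 1 := rfl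

theorem wt_false : wt [false] = 0 := rfl

theorem wt_reverse (u : List Bool) : wt u.reverse = wt u := List.count_reverse ..

theorem per_length (w : List Bool) (a m : ℕ) : (per w a m).length = m := by
  simp [per]

theorem per_add (w : List Bool) (a m m' : ℕ) :
    per w a (m + m') = per w a m ++ per w (a + m) m' := by
  unfold per
  rw [List.range_add, List.map_append, List.map_map]
  congr 1
  apply List.map_congr_left
  intro i _
  rw [Function.comp, Nat.add_assoc]

theorem per_one (w : List Bool) (a : ℕ) : per w a 1 = [w.getD (a % w.length) false] := by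
  simp [per]

theorem per_succ (w : List Bool) (a m : ℕ) :
    per w a (m + 1) = w.getD (a % w.length) false :: per w (a + 1) m := by
  rw [Nat.add_comm m 1, per_add, per_one]
  rfl

theorem per_congr {w w' : List Bool} {a b m : ℕ}
    (h : ∀ i < m, w.getD ((a + i) % w.length) false = w'.getD ((b + i) % w'.length) false) :
    per w a m = per w' b m := by
  unfold per
  apply List.map_congr_left
  intro i hi
  exact h i (List.mem_range.1 hi)

theorem per_period (w : List Bool) (a m : ℕ) : per w (a + w.length) m = per w a m := by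
  apply per_congr
  intro i _
  rw [show a + w.length + i = a + i + w.length by omega, Nat.add_mod_right]

theorem wt_per (w : List Bool) (a m : ℕ) :
    wt (per w a m) = ∑ i ∈ Finset.range m,
      (if w.getD ((a + i) % w.length) false = true then 1 else 0) := by
  induction m with
  | zero => simp [per, wt]
  | succ m ih =>
    rw [Finset.sum_range_succ, per_add, wt_append, ih, per_one]
    congr 1
    cases w.getD ((a + m) % w.length) false <;> simp [wt]

theorem per_zero_length (w : List Bool) : per w 0 w.length = w := by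
  apply List.ext_getElem
  · rw [per_length]
  · intro i h1 h2
    unfold per
    rw [List.getElem_map, List.getElem_range, Nat.zero_add, Nat.mod_eq_of_lt h2]
    exact List.getD_eq_getElem _ _ h2

theorem wt_full (w : List Bool) (a : ℕ) : wt (per w a w.length) = wt w := by
  induction a with
  | zero => rw [per_zero_length]
  | succ a ih =>
    have h1 : per w a (w.length + 1) = per w a w.length ++
        [w.getD ((a + w.length) % w.length) false] := by
      rw [per_add, per_one]
    have h2 := per_succ w a w.length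
    have h3 := congrArg wt (h1.symm.trans h2)
    rw [wt_append, wt_cons _ (per w (a + 1) w.length), Nat.add_mod_right] at h3
    omega

/-! ### the words of the gadget -/

/-- decomposition of the words before and after the gadget -/
theorem core (k : ℕ) (b : Bool) (U U' : List Bool) (c₁ c₂ : ℕ) (hU : U.length = k)
    (hU' : U'.length = k) (h1 : c₁ < k) (h2 : c₂ < k) (h12 : c₁ ≠ c₂)
    (hb1 : U.getD c₁ false = b) (hb2 : U.getD c₂ false = b)
    (hUU : ∀ i < k, U'.getD i false = if i = c₁ ∨ i = c₂ then !b else U.getD i false) :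
    ∃ d, 1 ≤ d ∧ d < k ∧ (c₁ + d) % k = c₂ ∧
      ∃ m₁ m₂ : List Bool, m₁.length = d - 1 ∧ m₂.length = k - 1 - d ∧
      m₂ = per U (c₁ + d + 1) (k - 1 - d) ∧
      (m₂ ++ b :: m₁ ++ [b]).tail = per U (c₁ + d + 2) (k - 1) ∧
      ((!b) :: m₁ ++ (!b) :: m₂).dropLast = per U' c₁ (k - 1) ∧
      wt U = wt m₁ + wt m₂ + 2 * wt [b] ∧ wt U' = wt m₁ + wt m₂ + 2 * wt [!b] := by
  obtain ⟨d, hd1, hdk, hd⟩ : ∃ d, 1 ≤ d ∧ d < k ∧ (c₁ + d) % k = c₂ := by
    rcases lt_or_gt_of_ne h12 with h | h
    · exact ⟨c₂ - c₁, by omega, by omega, by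
        rw [show c₁ + (c₂ - c₁) = c₂ by omega]; exact Nat.mod_eq_of_lt h2⟩
    · refine ⟨c₂ + k - c₁, by omega, by omega, ?_⟩
      rw [show c₁ + (c₂ + k - c₁) = c₂ + k by omega, Nat.add_mod_right]
      exact Nat.mod_eq_of_lt h2
  have hc1 : (c₁ % k) = c₁ := Nat.mod_eq_of_lt h1
  -- the letters other than `c₁`, `c₂`
  have hne : ∀ i, 1 ≤ i → i < k → i ≠ d → (c₁ + i) % k ≠ c₁ ∧ (c₁ + i) % k ≠ c₂ := by
    intro i hi1 hik hid
    constructor
    · intro h
      have h3 : (c₁ + i) % k = (c₁ + 0) % k := by rw [h, Nat.add_zero, hc1]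
      have h4 : i % k = 0 % k := Nat.ModEq.add_left_cancel' c₁ h3
      rw [Nat.mod_eq_of_lt hik, Nat.zero_mod] at h4
      omega
    · intro h
      have h3 : (c₁ + i) % k = (c₁ + d) % k := by rw [h, hd]
      have h4 : i % k = d % k := Nat.ModEq.add_left_cancel' c₁ h3
      rw [Nat.mod_eq_of_lt hik, Nat.mod_eq_of_lt hdk] at h4
      exact hid h4
  have hsame : ∀ i, 1 ≤ i → i < k → i ≠ d →
      U'.getD ((c₁ + i) % k) false = U.getD ((c₁ + i) % k) false := by
    intro i hi1 hik hid
    obtain ⟨h3, h4⟩ := hne i hi1 hik hid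
    rw [hUU _ (Nat.mod_lt _ (by omega)), if_neg]
    rintro (h | h)
    · exact h3 h
    · exact h4 h
  have e1 : per U' (c₁ + 1) (d - 1) = per U (c₁ + 1) (d - 1) := by
    apply per_congr
    intro i hi
    rw [hU, hU', show c₁ + 1 + i = c₁ + (1 + i) by omega]
    exact hsame (1 + i) (by omega) (by omega) (by omega)
  have e2 : per U' (c₁ + d + 1) (k - 1 - d) = per U (c₁ + d + 1) (k - 1 - d) := by
    apply per_congr
    intro i hi
    rw [hU, hU', show c₁ + d + 1 + i = c₁ + (d + 1 + i) by omega]
    exact hsame (d + 1 + i) (by omega) (by omega) (by omega)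
  have f1 : per U (c₁ + d + 1) k = per U (c₁ + d + 1) (k - 1 - d) ++ b :: per U (c₁ + 1) (d - 1) ++
      [b] := by
    have hk : k = (k - 1 - d) + (1 + ((d - 1) + 1)) := by omega
    have g1 : per U (c₁ + d + 1) k = per U (c₁ + d + 1) ((k - 1 - d) + (1 + ((d - 1) + 1))) := by
      rw [← hk]
    have p1 : per U (c₁ + k) 1 = [b] := by
      rw [per_one, hU, Nat.add_mod_right, hc1, hb1]
    have p2 : per U (c₁ + k + 1) (d - 1) = per U (c₁ + 1) (d - 1) := by
      have := per_period U (c₁ + 1) (d - 1)
      rwa [hU, show c₁ + 1 + k = c₁ + k + 1 by omega] at this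
    have p3 : per U (c₁ + k + 1 + (d - 1)) 1 = [b] := by
      rw [per_one, hU, show c₁ + k + 1 + (d - 1) = c₁ + d + k by omega, Nat.add_mod_right, hd, hb2]
    rw [g1, per_add, show c₁ + d + 1 + (k - 1 - d) = c₁ + k by omega, per_add, p1, per_add, p2, p3]
    simp
  have f2 : per U' c₁ k = (!b) :: per U (c₁ + 1) (d - 1) ++ (!b) ::
      per U (c₁ + d + 1) (k - 1 - d) := by
    have hk : k = 1 + ((d - 1) + (1 + (k - 1 - d))) := by omega
    have g1 : per U' c₁ k = per U' c₁ (1 + ((d - 1) + (1 + (k - 1 - d)))) := by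
      rw [← hk]
    have p1 : per U' c₁ 1 = [!b] := by
      rw [per_one, hU', hc1, hUU _ h1, if_pos (Or.inl rfl)]
    have p3 : per U' (c₁ + 1 + (d - 1)) 1 = [!b] := by
      rw [per_one, hU', show c₁ + 1 + (d - 1) = c₁ + d by omega, hd, hUU _ h2,
        if_pos (Or.inr rfl)]
    rw [g1, per_add, p1, per_add, e1, per_add, p3,
      show c₁ + 1 + (d - 1) + 1 = c₁ + d + 1 by omega, e2]
    simp
  refine ⟨d, hd1, hdk, hd, per U (c₁ + 1) (d - 1), per U (c₁ + d + 1) (k - 1 - d),
    per_length .., per_length .., rfl, ?_, ?_, ?_, ?_⟩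
  · rw [← f1]
    have hk : k = (k - 1) + 1 := by omega
    have g1 : per U (c₁ + d + 1) k = per U (c₁ + d + 1) ((k - 1) + 1) := by rw [← hk]
    rw [g1, per_succ]
    rfl
  · rw [← f2]
    have hk : k = (k - 1) + 1 := by omega
    have g1 : per U' c₁ k = per U' c₁ ((k - 1) + 1) := by rw [← hk]
    rw [g1, per_add, per_one, List.dropLast_concat]
  · have h3 := wt_full U (c₁ + d + 1)
    rw [hU, f1, wt_append, wt_append, wt_cons] at h3
    omega
  · have h3 := wt_full U' c₁
    rw [hU', f2, wt_append, wt_cons, wt_cons (!b) (per U (c₁ + d + 1) (k - 1 - d))] at h3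
    omega

/-- the plan of a far flip -/
theorem gen (hPER : PerStmt) (hTRA : TraStmt) (V : Type) [Fintype V] [DecidableEq V]
    (H : Finset (Finset V)) (X : Finset V) (k p : ℕ) (ε : ℝ) (K : ℕ) (b : Bool)
    (U U' : List Bool) (c₁ c₂ s : ℕ) (hU : U.length = k)
    (hU' : U'.length = k) (h1 : c₁ < k) (h2 : c₂ < k) (h12 : c₁ ≠ c₂)
    (hb1 : U.getD c₁ false = b) (hb2 : U.getD c₂ false = b)
    (hUU : ∀ i < k, U'.getD i false = if i = c₁ ∨ i = c₂ then !b else U.getD i false)
    (hs : wt U = s + 2 * wt [b] ∨ wt U' = s + 2 * wt [!b])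
    (hp : wt U % 2 = p ∨ wt U' % 2 = p)
    (hsup : ∀ m₁ m₂ : List Bool, m₁.length + m₂.length + 2 = k → wt m₁ + wt m₂ = s →
      Sup H X k ε K (m₂ ++ b :: m₁ ++ [b]).tail (m₂ ++ b :: m₁ ++ (!b) :: m₂)
        ((!b) :: m₁ ++ (!b) :: m₂).dropLast) :
    ∃ (d : ℕ) (m₂ : List Bool), 1 ≤ d ∧ d < k ∧ m₂ = per U (c₁ + d + 1) (k - 1 - d) ∧
      wt U = s + 2 * wt [b] ∧ wt U' = s + 2 * wt [!b] ∧
      Pl V H X k p ε K (per U 0 (k - 1)) (per U' 0 (k - 1)) (4 * k)
        (wt (per U (k - 1) (c₁ + d + 2)) + (s + 1 + wt m₂) + wt (per U' c₁ (k - 1)) +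
          wt (per U' (c₁ + k - 1) (k - c₁))) 1 := by
  obtain ⟨d, hd1, hdk, hd, m₁, m₂, l1, l2, hm2, ht, hdl, hwU, hwU'⟩ :=
    core k b U U' c₁ c₂ hU hU' h1 h2 h12 hb1 hb2 hUU
  have hs' : wt m₁ + wt m₂ = s := by rcases hs with h | h <;> omega
  have hb : wt [b] + wt [!b] = 1 := by cases b <;> rfl
  have hpU : wt U % 2 = p := by rcases hp with h | h <;> omega
  have hpU' : wt U' % 2 = p := by rcases hp with h | h <;> omega
  refine ⟨d, m₂, hd1, hdk, hm2, by omega, by omega, ?_⟩
  have hS := hsup m₁ m₂ (by omega) hs'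
  rw [ht, hdl] at hS
  have P1 := hPER V H X k p ε K U 0 (c₁ + d + 2) (by omega) hU hpU
  rw [Nat.zero_add, Nat.zero_add] at P1
  have hlc : (m₂ ++ b :: m₁ ++ (!b) :: m₂).length = 2 * k - 1 - d := by
    simp only [List.length_append, List.length_cons, l1, l2]
    omega
  have P2 := Pl.gadget _ _ _ _ _ (m₂ ++ b :: m₁ ++ (!b) :: m₂) (per U' c₁ (k - 1)) P1
    (by rw [hlc]; omega) (by rw [hlc]; omega) (per_length ..) hS
  have P3 := hPER V H X k p ε K U' c₁ (k - c₁) (by omega) hU' hpU'
  have e1 : per U' (c₁ + (k - c₁)) (k - 1) = per U' 0 (k - 1) := by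
    have := per_period U' 0 (k - 1)
    rw [hU', Nat.zero_add] at this
    rw [show c₁ + (k - c₁) = k by omega]
    exact this
  rw [e1] at P3
  have P := hTRA V H X k p ε K _ _ _ _ _ _ _ _ _ P2 P3
  have hwc : wt (m₂ ++ b :: m₁ ++ (!b) :: m₂) = s + 1 + wt m₂ := by
    rw [wt_append, wt_append, wt_cons, wt_cons (!b)]
    omega
  rw [hwc, hlc] at P
  have hN : c₁ + d + 2 + (2 * k - 1 - d) + (k - 1) + (k - c₁) = 4 * k := by omega
  rw [hN] at P
  exact P

/-- the count for a flip upwards -/
theorem count_up (k : ℕ) (U U' : List Bool) (c₁ c₂ s d : ℕ) (hU : U.length = k)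
    (hU' : U'.length = k) (h1 : c₁ < k) (h2 : c₂ < k) (h12 : c₁ ≠ c₂) (hd1 : 1 ≤ d) (hdk : d < k)
    (hb1 : U.getD c₁ false = false) (hb2 : U.getD c₂ false = false)
    (hUU : ∀ i < k, U'.getD i false = if i = c₁ ∨ i = c₂ then true else U.getD i false)
    (hs : wt U = s) (hs' : wt U' = s + 2) :
    wt (per U (k - 1) (c₁ + d + 2)) + (s + 1 + wt (per U (c₁ + d + 1) (k - 1 - d))) +
      wt (per U' c₁ (k - 1)) + wt (per U' (c₁ + k - 1) (k - c₁)) =
    4 * s + 3 + (if c₁ + 1 < k then 1 else 0) + (if c₁ < c₂ ∧ c₂ + 1 < k then 1 else 0) := by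
  have a1 : wt (per U (k - 1) (c₁ + d + 2)) + wt (per U (c₁ + d + 1) (k - 1 - d)) =
      wt (per U (k - 1) (c₁ + 1)) + s := by
    have g1 : per U (k - 1) ((c₁ + d + 2) + (k - 1 - d)) = per U (k - 1) ((c₁ + 1) + k) := by
      rw [show (c₁ + d + 2) + (k - 1 - d) = (c₁ + 1) + k by omega]
    rw [per_add U (k - 1) (c₁ + d + 2) (k - 1 - d), per_add U (k - 1) (c₁ + 1) k] at g1
    have g2 : per U (k - 1 + (c₁ + d + 2)) (k - 1 - d) = per U (c₁ + d + 1) (k - 1 - d) := by
      have := per_period U (c₁ + d + 1) (k - 1 - d)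
      rw [hU] at this
      rw [show k - 1 + (c₁ + d + 2) = c₁ + d + 1 + k by omega]
      exact this
    have g3 : wt (per U (k - 1 + (c₁ + 1)) k) = s := by
      have := wt_full U (k - 1 + (c₁ + 1))
      rw [hU] at this
      rw [this, hs]
    rw [g2] at g1
    have g4 := congrArg wt g1
    rw [wt_append, wt_append, g3] at g4
    exact g4
  have a2 : wt (per U' c₁ (k - 1)) + wt (per U' (c₁ + k - 1) (k - c₁)) =
      s + 2 + wt (per U' c₁ (k - 1 - c₁)) := by
    have g1 : per U' c₁ ((k - 1) + (k - c₁)) = per U' c₁ (k + (k - 1 - c₁)) := by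
      rw [show (k - 1) + (k - c₁) = k + (k - 1 - c₁) by omega]
    rw [per_add, per_add] at g1
    have g2 : per U' (c₁ + k) (k - 1 - c₁) = per U' c₁ (k - 1 - c₁) := by
      have := per_period U' c₁ (k - 1 - c₁)
      rw [hU'] at this
      exact this
    have g3 : wt (per U' c₁ k) = s + 2 := by
      have := wt_full U' c₁
      rw [hU'] at this
      rw [this, hs']
    rw [g2, show c₁ + (k - 1) = c₁ + k - 1 by omega] at g1
    have g4 := congrArg wt g1
    rw [wt_append, wt_append, g3] at g4
    exact g4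
  have a3 : wt (per U (k - 1) (c₁ + 1)) + wt (per U c₁ (k - 1 - c₁)) = s := by
    have g1 : per U (k - 1) ((c₁ + 1) + (k - 1 - c₁)) = per U (k - 1) k := by
      rw [show (c₁ + 1) + (k - 1 - c₁) = k by omega]
    rw [per_add] at g1
    have g2 : per U (k - 1 + (c₁ + 1)) (k - 1 - c₁) = per U c₁ (k - 1 - c₁) := by
      have := per_period U c₁ (k - 1 - c₁)
      rw [hU] at this
      rw [show k - 1 + (c₁ + 1) = c₁ + k by omega]
      exact this
    have g3 : wt (per U (k - 1) k) = s := by
      have := wt_full U (k - 1)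
      rw [hU] at this
      rw [this, hs]
    rw [g2] at g1
    have g4 := congrArg wt g1
    rw [wt_append, g3] at g4
    exact g4
  have a4 : wt (per U' c₁ (k - 1 - c₁)) = wt (per U c₁ (k - 1 - c₁)) +
      (if c₁ + 1 < k then 1 else 0) + (if c₁ < c₂ ∧ c₂ + 1 < k then 1 else 0) := by
    rw [wt_per, wt_per]
    have g1 : ∀ i ∈ Finset.range (k - 1 - c₁),
        (if U'.getD ((c₁ + i) % U'.length) false = true then 1 else 0) =
          (if U.getD ((c₁ + i) % U.length) false = true then 1 else 0) +
            (if i = 0 then 1 else 0) + (if c₁ < c₂ ∧ i = c₂ - c₁ then 1 else 0) := by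
      intro i hi
      rw [Finset.mem_range] at hi
      rw [hU, hU', Nat.mod_eq_of_lt (by omega : c₁ + i < k), hUU _ (by omega)]
      by_cases h3 : i = 0
      · subst h3
        rw [Nat.add_zero, if_pos (Or.inl rfl), hb1, if_pos rfl, if_pos rfl,
          if_neg (by omega : ¬ (c₁ < c₂ ∧ 0 = c₂ - c₁))]
        simp
      · by_cases h4 : c₁ + i = c₂
        · rw [if_pos (Or.inr h4), h4, hb2, if_pos rfl, if_neg h3,
            if_pos (⟨by omega, by omega⟩ : c₁ < c₂ ∧ i = c₂ - c₁)]
          simp
        · rw [if_neg (by omega : ¬ (c₁ + i = c₁ ∨ c₁ + i = c₂)), if_neg h3,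
            if_neg (by omega : ¬ (c₁ < c₂ ∧ i = c₂ - c₁))]
          simp
    rw [Finset.sum_congr rfl g1, Finset.sum_add_distrib, Finset.sum_add_distrib]
    congr 1
    · congr 1
      rw [Finset.sum_ite_eq']
      by_cases h3 : c₁ + 1 < k
      · rw [if_pos h3, if_pos (Finset.mem_range.2 (by omega))]
      · rw [if_neg h3, if_neg (fun h => by rw [Finset.mem_range] at h; omega)]
    · by_cases h3 : c₁ < c₂
      · have g2 : ∀ i ∈ Finset.range (k - 1 - c₁),
            (if c₁ < c₂ ∧ i = c₂ - c₁ then 1 else 0) = if i = c₂ - c₁ then 1 else 0 := by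
          intro i _
          by_cases h4 : i = c₂ - c₁
          · rw [if_pos ⟨h3, h4⟩, if_pos h4]
          · rw [if_neg (fun h => h4 h.2), if_neg h4]
        rw [Finset.sum_congr rfl g2, Finset.sum_ite_eq']
        by_cases h4 : c₂ + 1 < k
        · rw [if_pos (Finset.mem_range.2 (by omega : c₂ - c₁ < k - 1 - c₁)), if_pos ⟨h3, h4⟩]
        · have h5 : c₂ - c₁ ∉ Finset.range (k - 1 - c₁) := by
            rw [Finset.mem_range]
            omega
          rw [if_neg h5, if_neg (fun h => h4 h.2)]
      · rw [if_neg (fun h => h3 h.1)]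
        apply Finset.sum_eq_zero
        intro i _
        rw [if_neg (fun h => h3 h.1)]
  omega

theorem getD_of_true {W : List Bool} {c : ℕ} (h : W.getD c true = false) :
    c < W.length ∧ W.getD c false = false := by
  by_cases hc : c < W.length
  · refine ⟨hc, ?_⟩
    rw [List.getD_eq_getElem _ _ hc] at h ⊢
    exact h
  · rw [List.getD_eq_default _ _ (by omega)] at h
    exact absurd h (by decide)

/-- the number of letters X of a plan -/
theorem pl_le {V : Type} [Fintype V] [DecidableEq V] {H : Finset (Finset V)} {X : Finset V}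
    {k p : ℕ} {ε : ℝ} {K : ℕ} {u v : List Bool} {N a q : ℕ} (h : Pl V H X k p ε K u v N a q) :
    a ≤ N := by
  have hw : ∀ w : List Bool, wt w ≤ w.length := fun w => List.count_le_length ..
  induction h with
  | nil hu => exact le_refl 0
  | letter v N a q b _ _ ih =>
    have := hw [b]
    rw [List.length_singleton] at this
    omega
  | gadget v N a q c uR _ _ _ h3 _ ih =>
    have h5 := hw c
    have h6 := hw uR
    omega

theorem pup (hPER : PerStmt) (hTRA : TraStmt) : PupStmt := by
  intro V _ _ H X k p j ε K W W' c₁ c₂ hk hW hW' h1 h2 h12 hj hp hP hb1 hb2 hWW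
  obtain ⟨-, hb1'⟩ := getD_of_true hb1
  obtain ⟨-, hb2'⟩ := getD_of_true hb2
  have hsup : ∀ m₁ m₂ : List Bool, m₁.length + m₂.length + 2 = k → wt m₁ + wt m₂ = wt W →
      Sup H X k ε K (m₂ ++ false :: m₁ ++ [false]).tail (m₂ ++ false :: m₁ ++ (!false) :: m₂)
        ((!false) :: m₁ ++ (!false) :: m₂).dropLast :=
    fun m₁ m₂ hl hw => hP m₁ m₂ hl (by omega)
  -- both orders of the classes
  have key : ∀ c c' : ℕ, c < k → c' < k → c ≠ c' → W.getD c false = false →
      W.getD c' false = false →
      (∀ i < k, W'.getD i false = if i = c ∨ i = c' then true else W.getD i false) →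
      Pl V H X k p ε K (per W 0 (k - 1)) (per W' 0 (k - 1)) (4 * k)
        (4 * wt W + 3 + (if c + 1 < k then 1 else 0) + (if c < c' ∧ c' + 1 < k then 1 else 0))
        1 := by
    intro c c' hc hc' hcc g1 g2 g3
    obtain ⟨d, m₂, hd1, hdk, hm2, hw1, hw2, hpl⟩ := gen hPER hTRA V H X k p ε K false W W' c c'
      (wt W) hW hW' hc hc' hcc g1 g2 g3 (Or.inl (by rw [wt_false, Nat.mul_zero, Nat.add_zero])) (Or.inl hp) hsup
    rw [hm2, count_up k W W' c c' (wt W) d hW hW' hc hc' hcc hd1 hdk g1 g2 g3 rfl hw2] at hpl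
    exact hpl
  have key' : ∀ c c' : ℕ, c < k → c' < k → c < c' → W.getD c false = false →
      W.getD c' false = false →
      (∀ i < k, W'.getD i false = if i = c ∨ i = c' then true else W.getD i false) →
      ∃ a : ℕ, a ≤ 4 * k ∧ Pl V H X k p ε K (per W 0 (k - 1)) (per W' 0 (k - 1)) (4 * k) a 1 ∧
      Pl V H X k p ε K (per W 0 (k - 1)) (per W' 0 (k - 1)) (4 * k) (a + 1) 1 := by
    intro c c' hc hc' hcc g1 g2 g3
    have P1 := key c c' hc hc' (by omega) g1 g2 g3
    have P2 := key c' c hc' hc (by omega) g2 g1 (by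
      intro i hi
      rw [g3 i hi]
      by_cases h : i = c ∨ i = c'
      · rw [if_pos h, if_pos h.symm]
      · rw [if_neg h, if_neg (fun h' => h h'.symm)])
    rw [if_pos (by omega : c + 1 < k)] at P1
    rw [if_neg (by omega : ¬ (c' < c ∧ c + 1 < k)), Nat.add_zero] at P2
    refine ⟨_, pl_le P2, P2, ?_⟩
    have e : 4 * wt W + 3 + 1 + (if c < c' ∧ c' + 1 < k then 1 else 0) =
        4 * wt W + 3 + (if c' + 1 < k then 1 else 0) + 1 := by
      by_cases h : c' + 1 < k
      · rw [if_pos ⟨hcc, h⟩, if_pos h]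
      · rw [if_neg (fun h' => h h'.2), if_neg h]
    rw [← e]
    exact P1
  rcases lt_or_gt_of_ne h12 with h | h
  · exact key' c₁ c₂ h1 h2 h hb1' hb2' hWW
  · exact key' c₂ c₁ h2 h1 h hb2' hb1' (by
      intro i hi
      rw [hWW i hi]
      by_cases h : i = c₁ ∨ i = c₂
      · rw [if_pos h, if_pos h.symm]
      · rw [if_neg h, if_neg (fun h' => h h'.symm)])

theorem pdn (hPER : PerStmt) (hTRA : TraStmt) (hSRV : SrvStmt) : PdnStmt := by
  intro V _ _ H X k p j ε K W W' c₁ c₂ hk hW hW' h1 h2 h12 hj hp hP hb1 hb2 hWW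
  obtain ⟨-, hb1'⟩ := getD_of_true hb1
  obtain ⟨-, hb2'⟩ := getD_of_true hb2
  have hsup : ∀ m₁ m₂ : List Bool, m₁.length + m₂.length + 2 = k → wt m₁ + wt m₂ = wt W →
      Sup H X k ε K (m₂ ++ true :: m₁ ++ [true]).tail (m₂ ++ true :: m₁ ++ (!true) :: m₂)
        ((!true) :: m₁ ++ (!true) :: m₂).dropLast := by
    intro m₁ m₂ hl hw
    have h3 := hSRV V H X k ε K _ _ _ (hP m₁.reverse m₂.reverse
      (by rw [List.length_reverse, List.length_reverse]; exact hl)
      (by rw [wt_reverse, wt_reverse]; omega))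
    have e1 : ((true :: m₁.reverse ++ true :: m₂.reverse).dropLast).reverse =
        (m₂ ++ true :: m₁ ++ [true]).tail := by
      rw [← List.tail_reverse]
      simp
    have e2 : (m₂.reverse ++ false :: m₁.reverse ++ true :: m₂.reverse).reverse =
        m₂ ++ true :: m₁ ++ (!true) :: m₂ := by
      simp
    have e3 : ((m₂.reverse ++ false :: m₁.reverse ++ [false]).tail).reverse =
        ((!true) :: m₁ ++ (!true) :: m₂).dropLast := by
      rw [← List.dropLast_reverse]
      simp
    rw [e1, e2, e3] at h3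
    exact h3
  obtain ⟨d, m₂, hd1, hdk, hm2, hw1, hw2, hpl⟩ := gen hPER hTRA V H X k p ε K true W' W c₁ c₂
    (wt W) hW' hW h1 h2 h12 (by rw [hWW c₁ h1, if_pos (Or.inl rfl)])
    (by rw [hWW c₂ h2, if_pos (Or.inr rfl)]) (by
      intro i hi
      rw [hWW i hi]
      by_cases h : i = c₁ ∨ i = c₂
      · rw [if_pos h]
        rcases h with h | h
        · rw [h, hb1']; rfl
        · rw [h, hb2']; rfl
      · rw [if_neg h, if_neg h])
    (Or.inr (by rw [show (!true) = false from rfl, wt_false, Nat.mul_zero, Nat.add_zero])) (Or.inr hp) hsup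
  exact ⟨_, pl_le hpl, hpl⟩

end Pool.Agent.KK.H60W
end

/-! ### Helper62_KK.RST -/
section
/-!
# Squad KKB, row RST: one right move in absolute time
-/

set_option autoImplicit false

namespace Pool.Agent.KK.H62W

open Pool.Agent.KK.H60W

/-- **RST**. -/
theorem rst (hPER : PerStmt) (hTRA : TraStmt) : RstStmt := by
  intro V _ _ H X k p ε K W W' c hk hW hW' hc hp hR hb1 hb2 hWW
  obtain ⟨-, hb2'⟩ := getD_of_true hb2
  have hcm : c % k = c := Nat.mod_eq_of_lt hc
  -- the class before `c`
  set s := (c + k - 1) % k with hs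
  have hsc : s ≠ c := by
    intro h
    have h3 : (c + (k - 1)) % k = (c + 0) % k := by
      rw [Nat.add_zero, hcm, show c + (k - 1) = c + k - 1 by omega, ← hs]
      exact h
    have h4 : (k - 1) % k = 0 % k := Nat.ModEq.add_left_cancel' c h3
    rw [Nat.mod_eq_of_lt (by omega), Nat.zero_mod] at h4
    omega
  have hne : ∀ i, 1 ≤ i → i < k - 1 → (c + i) % k ≠ c ∧ (c + i) % k ≠ s := by
    intro i hi1 hik
    constructor
    · intro h
      have h3 : (c + i) % k = (c + 0) % k := by rw [h, Nat.add_zero, hcm]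
      have h4 : i % k = 0 % k := Nat.ModEq.add_left_cancel' c h3
      rw [Nat.mod_eq_of_lt (by omega), Nat.zero_mod] at h4
      omega
    · intro h
      have h3 : (c + i) % k = (c + (k - 1)) % k := by
        rw [h, hs, show c + (k - 1) = c + k - 1 by omega]
      have h4 : i % k = (k - 1) % k := Nat.ModEq.add_left_cancel' c h3
      rw [Nat.mod_eq_of_lt (by omega), Nat.mod_eq_of_lt (by omega)] at h4
      omega
  have hsame : ∀ i, 1 ≤ i → i < k - 1 →
      W'.getD ((c + i) % k) false = W.getD ((c + i) % k) false := by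
    intro i hi1 hik
    obtain ⟨h3, h4⟩ := hne i hi1 hik
    rw [hWW _ (Nat.mod_lt _ (by omega)), if_neg h3, if_neg h4]
  have e1 : ∀ j, j ≤ k - 2 → per W' (c + 1) j = per W (c + 1) j := by
    intro j hj
    apply per_congr
    intro i hi
    rw [hW, hW', show c + 1 + i = c + (1 + i) by omega]
    exact hsame (1 + i) (by omega) (by omega)
  have hWc : W'.getD c false = true := by rw [hWW c hc, if_pos rfl]
  have hWs : W'.getD s false = false := by
    rw [hWW s (Nat.mod_lt _ (by omega)), if_neg hsc, if_pos rfl]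
  set m := per W (c + 1) (k - 2) with hm
  have hml : m.length = k - 2 := per_length ..
  have q1 : per W (c + k - 1) 1 = [true] := by
    rw [per_one, hW, ← hs, hb1]
  have f1 : per W (c + 1) (k - 1) = m ++ [true] := by
    have h1 : per W (c + 1) (k - 1) = per W (c + 1) ((k - 2) + 1) := by
      rw [show k - 2 + 1 = k - 1 by omega]
    rw [h1, per_add, show c + 1 + (k - 2) = c + k - 1 by omega, q1]
  have f2 : per W' c (k - 1) = true :: m := by
    have h1 : per W' c (k - 1) = per W' c ((k - 2) + 1) := by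
      rw [show k - 2 + 1 = k - 1 by omega]
    rw [h1, per_succ, hW', hcm, hWc, e1 _ le_rfl]
  have hwm : wt W = wt m + 1 := by
    have h1 : per W (c + 1) k = m ++ [true] ++ [false] := by
      have h2 : per W (c + 1) k = per W (c + 1) ((k - 1) + 1) := by
        rw [show k - 1 + 1 = k by omega]
      rw [h2, per_add, f1, per_one, hW, show c + 1 + (k - 1) = c + k by omega,
        Nat.add_mod_right, hcm, hb2']
    have h3 := wt_full W (c + 1)
    rw [hW, h1, wt_append, wt_append, wt_true, wt_false] at h3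
    omega
  have hwW' : wt W' % 2 = p := by
    have h1 : per W' c k = true :: m ++ [false] := by
      have h2 : per W' c k = per W' c ((k - 1) + 1) := by
        rw [show k - 1 + 1 = k by omega]
      rw [h2, per_add, f2, per_one, hW', show c + (k - 1) = c + k - 1 by omega, ← hs, hWs]
    have h3 := wt_full W' c
    rw [hW', h1, wt_append, wt_cons, wt_true, wt_false] at h3
    rw [← hp]
    congr 1
    omega
  -- the plan
  have P1 := hPER V H X k p ε K W 0 (c + 1) (by omega) hW hp
  rw [Nat.zero_add, Nat.zero_add] at P1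
  have hS := hR m hml (by omega)
  rw [← f1, ← f2] at hS
  have hlc : (false :: m ++ [false]).length = k := by
    simp only [List.length_append, List.length_cons, List.length_nil, hml]
    omega
  have P2 := Pl.gadget _ _ _ _ _ (false :: m ++ [false]) (per W' c (k - 1)) P1
    (by rw [hlc]; omega) (by rw [hlc]; omega) (per_length ..) hS
  have P3 := hPER V H X k p ε K W' c (k - c) (by omega) hW' hwW'
  have e2 : per W' (c + (k - c)) (k - 1) = per W' 0 (k - 1) := by
    have := per_period W' 0 (k - 1)
    rw [hW', Nat.zero_add] at this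
    rw [show c + (k - c) = k by omega]
    exact this
  rw [e2] at P3
  have P := hTRA V H X k p ε K _ _ _ _ _ _ _ _ _ P2 P3
  have hN : c + 1 + (false :: m ++ [false]).length + (k - 1) + (k - c) = 3 * k := by
    rw [hlc]; omega
  rw [hN] at P
  -- the count
  have a3 : wt (per W (k - 1) (c + 1)) + wt (per W c (k - 1 - c)) = wt W := by
    have g1 : per W (k - 1) ((c + 1) + (k - 1 - c)) = per W (k - 1) k := by
      rw [show (c + 1) + (k - 1 - c) = k by omega]
    rw [per_add] at g1
    have g2 : per W (k - 1 + (c + 1)) (k - 1 - c) = per W c (k - 1 - c) := by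
      have := per_period W c (k - 1 - c)
      rw [hW] at this
      rw [show k - 1 + (c + 1) = c + k by omega]
      exact this
    have g3 : wt (per W (k - 1) k) = wt W := by
      have := wt_full W (k - 1)
      rw [hW] at this
      exact this
    rw [g2] at g1
    have g4 := congrArg wt g1
    rw [wt_append, g3] at g4
    exact g4
  have a4 : wt (per W' (c + k - 1) (k - c)) = wt (per W' c (k - 1 - c)) := by
    have h1 : per W' (c + k - 1) (k - c) = per W' (c + k - 1) (1 + (k - 1 - c)) := by
      rw [show 1 + (k - 1 - c) = k - c by omega]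
    have h2 : per W' (c + k - 1 + 1) (k - 1 - c) = per W' c (k - 1 - c) := by
      have := per_period W' c (k - 1 - c)
      rw [hW'] at this
      rw [show c + k - 1 + 1 = c + k by omega]
      exact this
    rw [h1, per_add, per_one, hW', ← hs, hWs, h2, wt_append, wt_false, Nat.zero_add]
  have a5 : wt (per W' c (k - 1 - c)) =
      wt (per W c (k - 1 - c)) + (if c + 1 < k then 1 else 0) := by
    by_cases h : c + 1 < k
    · rw [if_pos h]
      have h1 : k - 1 - c = (k - 2 - c) + 1 := by omega
      rw [h1, per_succ, per_succ, hW, hW', hcm, hWc, hb2', e1 _ (by omega), wt_cons true,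
        wt_cons false, wt_true, wt_false]
      omega
    · rw [if_neg h]
      have h1 : k - 1 - c = 0 := by omega
      rw [h1]
      simp [per]
  have hwc : wt (false :: m ++ [false]) = wt m := by
    rw [wt_append, wt_cons, wt_false]
    omega
  have hw2 : wt (per W' c (k - 1)) = wt m + 1 := by
    rw [f2, wt_cons, wt_true]; omega
  have hfin : wt (per W (k - 1) (c + 1)) + wt (false :: m ++ [false]) + wt (per W' c (k - 1)) +
      wt (per W' (c + k - 1) (k - c)) = 3 * wt W - if c + 1 = k then 1 else 0 := by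
    rw [hwc, hw2, a4, a5]
    by_cases h : c + 1 < k
    · rw [if_pos h, if_neg (by omega)]; omega
    · rw [if_neg h, if_pos (by omega)]; omega
  rw [← hfin]
  exact P

end Pool.Agent.KK.H62W
end

/-! ### Helper52_KK.LST -/
section
/-! MP_747bc0_co, squad KK, block BETA: lists of slots (copied from `Helper3_KK/CYC.lean` and
`Helper3_KK/REA.lean`). -/

set_option autoImplicit false

namespace Pool.Agent.KK.H52L

theorem infix_iff_drop {α : Type} (M s : List α) (k : ℕ) :
    (s <:+: M ∧ s.length = k) ↔ ∃ i, i + k ≤ M.length ∧ s = (M.drop i).take k := by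
  constructor
  · rintro ⟨⟨t, u, h⟩, hk⟩
    refine ⟨t.length, ?_, ?_⟩
    · rw [← h, List.length_append, List.length_append, hk]
      omega
    · rw [← h, List.append_assoc, List.drop_left, ← hk, List.take_left]
  · rintro ⟨i, hi, rfl⟩
    refine ⟨(List.take_prefix _ _).isInfix.trans (List.drop_suffix _ _).isInfix, ?_⟩
    rw [List.length_take, List.length_drop]
    omega

section lists

variable {α : Type}

/-- a window of `A ++ B` is a window of `A` or of the last entries of `A` and `B` -/
theorem infix_split {A' W B s : List α} {k : ℕ} (hW : W.length + 1 = k)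
    (hs : s.length = k) (h : s <:+: (A' ++ W) ++ B) : s <:+: A' ++ W ∨ s <:+: W ++ B := by
  obtain ⟨i, hi, rfl⟩ := (infix_iff_drop _ _ _).1 ⟨h, hs⟩
  rw [List.length_append, List.length_append] at hi
  by_cases h1 : i + k ≤ (A' ++ W).length
  · left
    have h2 : (((A' ++ W) ++ B).drop i).take k = ((A' ++ W).drop i).take k := by
      rw [List.drop_append_of_le_length (by omega), List.take_append_of_le_length]
      rw [List.length_drop]
      omega
    rw [h2]
    exact (List.take_prefix _ _).isInfix.trans (List.drop_suffix _ _).isInfix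
  · right
    rw [List.length_append] at h1
    have h2 : ((A' ++ W) ++ B).drop i = (W ++ B).drop (i - A'.length) := by
      rw [List.append_assoc, List.drop_append, List.drop_eq_nil_of_le (by omega),
        List.nil_append]
    rw [h2]
    exact (List.take_prefix _ _).isInfix.trans (List.drop_suffix _ _).isInfix

end lists

variable {V : Type} [Fintype V] [DecidableEq V]

omit [Fintype V] [DecidableEq V] in
theorem fr_fw (u : List Bool) : fr (fw u : List (Slot V)) = u.length := by
  unfold fr fw
  rw [List.countP_map]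
  exact List.countP_eq_length.2 fun _ _ => rfl

omit [Fintype V] [DecidableEq V] in
theorem fw_length (u : List Bool) : (fw u : List (Slot V)).length = u.length := by
  unfold fw
  rw [List.length_map]

omit [Fintype V] [DecidableEq V] in
theorem fw_append (u v : List Bool) : (fw (u ++ v) : List (Slot V)) = fw u ++ fw v := by
  unfold fw
  rw [List.map_append]

omit [Fintype V] [DecidableEq V] in
theorem fw_inj {u v : List Bool} (h : (fw u : List (Slot V)) = fw v) : u = v :=
  List.map_injective_iff.2 Sum.inr_injective h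

omit [Fintype V] in
theorem cX_append (X : Finset V) (s t : List (Slot V)) : cX X (s ++ t) = cX X s + cX X t := by
  unfold cX
  rw [List.countP_append]

omit [Fintype V] in
theorem cX_fw (X : Finset V) (u : List Bool) : cX X (fw u) = wt u := by
  induction u with
  | nil => rfl
  | cons b u ih =>
    have h1 : (fw (b :: u) : List (Slot V)) = Sum.inr b :: fw u := rfl
    rw [h1]
    unfold cX wt at *
    rw [List.countP_cons, List.count_cons, ih]
    cases b <;> simp

omit [Fintype V] in
theorem cX_vx (X : Finset V) (l : List V) :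
    cX X (vx l) = wt (l.map fun v => decide (v ∈ X)) := by
  induction l with
  | nil => rfl
  | cons b u ih =>
    have h1 : (vx (b :: u) : List (Slot V)) = Sum.inl b :: vx u := rfl
    rw [h1]
    unfold cX wt at *
    rw [List.map_cons, List.countP_cons, List.count_cons, ih]
    by_cases hb : b ∈ X <;> simp [hb]

omit [Fintype V] [DecidableEq V] in
theorem fx_append (s t : List (Slot V)) : fx (s ++ t) = fx s ++ fx t := by
  unfold fx
  rw [List.filterMap_append]

omit [Fintype V] [DecidableEq V] in
theorem fx_fw (u : List Bool) : fx (fw u : List (Slot V)) = [] := by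
  induction u with
  | nil => rfl
  | cons b u ih =>
    have h1 : (fw (b :: u) : List (Slot V)) = Sum.inr b :: fw u := rfl
    rw [h1]
    unfold fx at *
    rw [List.filterMap_cons]
    exact ih

omit [Fintype V] [DecidableEq V] in
theorem fx_vx (l : List V) : fx (vx l : List (Slot V)) = l := by
  induction l with
  | nil => rfl
  | cons b u ih =>
    have h1 : (vx (b :: u) : List (Slot V)) = Sum.inl b :: vx u := rfl
    rw [h1]
    unfold fx at *
    rw [List.filterMap_cons]
    change b :: _ = _
    rw [ih]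

omit [Fintype V] [DecidableEq V] in
/-- a window of length `k` between two free words of length `k - 1` with something fixed in the
middle is not free -/
theorem no_free {k : ℕ} {v uR s : List Bool} {l : List V} (hv : v.length + 1 = k)
    (hR : uR.length + 1 = k) (hl : 1 ≤ l.length) (hs : s.length = k)
    (h : (fw s : List (Slot V)) <:+: fw v ++ (vx l ++ fw uR)) : False := by
  obtain ⟨i, hi, he⟩ := (infix_iff_drop _ _ _).1 ⟨h, (fw_length s).trans hs⟩
  have hvx : (vx l : List (Slot V)).length = l.length := by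
    unfold vx
    rw [List.length_map]
  rw [List.length_append, List.length_append, fw_length, fw_length, hvx] at hi
  obtain ⟨j, hj⟩ : ∃ j, j = max i v.length := ⟨_, rfl⟩
  have hj1 : v.length ≤ j := by omega
  have hj2 : j < v.length + l.length := by omega
  have hj3 : i ≤ j := by omega
  have hj4 : j - i < k := by omega
  have e1 : (fw s : List (Slot V))[j - i]? = (fw v ++ (vx l ++ fw uR))[j]? := by
    rw [he, List.getElem?_take_of_lt hj4, List.getElem?_drop]
    congr 1
    omega
  have e2 : (fw v ++ (vx l ++ fw uR) : List (Slot V))[j]? = some (Sum.inl l[j - v.length]) := by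
    rw [List.getElem?_append_right (by rw [fw_length]; exact hj1), fw_length,
      List.getElem?_append_left (by rw [hvx]; omega)]
    unfold vx
    rw [List.getElem?_map, List.getElem?_eq_getElem (by omega)]
    rfl
  have e3 : (fw s : List (Slot V))[j - i]? = some (Sum.inr s[j - i]) := by
    unfold fw
    rw [List.getElem?_map, List.getElem?_eq_getElem (by omega)]
    rfl
  rw [e3, e2] at e1
  exact absurd (Option.some.inj e1) (by simp)

end Pool.Agent.KK.H52L
end

/-! ### Helper52_KK.REL -/
section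
/-! MP_747bc0_co, squad KK, block BETA part 2, row REL (adapted from `Helper3_KK/REA.lean`). -/

set_option autoImplicit false

namespace Pool.Agent.KK.H52

open Pool.Agent.KK.H52L

theorem rel_aux {V : Type} [Fintype V] [DecidableEq V] (H : Finset (Finset V)) (X : Finset V)
    (k p : ℕ) (ε : ℝ) (K : ℕ) (u v : List Bool) (N a q : ℕ) (hk : 1 ≤ k) (hF : FW H X k p ε)
    (hP : Pl V H X k p ε K u v N a q) (Z : Finset V) :
    Z.card + 2 * k * q ≤ K → ∃ L : List (Slot V), L.length = N ∧
    cX X L = a ∧ (fx L).length ≤ 2 * k * q ∧ (∀ x ∈ fx L, x ∉ Z) ∧ Lst H X k p ε u v L := by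
  induction hP with
  | nil hu =>
    intro _
    have hno : ∀ s : List (Slot V), s <:+: fw u ++ [] → s.length = k → False := by
      intro s hs hsk
      have h1 := hs.length_le
      rw [List.append_nil, fw_length] at h1
      omega
    refine ⟨[], rfl, rfl, Nat.zero_le _, ?_, hu, hu, List.nodup_nil, ?_, ?_, ?_⟩
    · intro x hx
      exact absurd hx (by simp [fx])
    · rw [List.append_nil]
    · intro s hs hsk
      exact (hno s hs hsk).elim
    · intro s hs hsk
      exact (hno _ hs ((fw_length s).trans hsk)).elim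
  | letter v N a q b _ hw ih =>
    intro hK
    obtain ⟨L, hL1, hL2, hL4, hLZ, hu, hv, hL3, hsuf, hok, hpar⟩ := ih hK
    have hfwb : (fw (v ++ [b]) : List (Slot V)) = fw v ++ [Sum.inr b] := fw_append _ _
    have hvb : (v ++ [b]).length = k := by
      rw [List.length_append, hv, List.length_singleton]
      omega
    have hsuf2 : (fw (v ++ [b]) : List (Slot V)) <:+ fw u ++ (L ++ [Sum.inr b]) := by
      obtain ⟨A, hA⟩ := hsuf
      refine ⟨A, ?_⟩
      rw [hfwb, ← List.append_assoc, hA, List.append_assoc]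
    have hsplit : ∀ s : List (Slot V), s <:+: fw u ++ (L ++ [Sum.inr b]) → s.length = k →
        s <:+: fw u ++ L ∨ s = fw (v ++ [b]) := by
      intro s hs hsk
      obtain ⟨A, hA⟩ := hsuf
      rw [← List.append_assoc, ← hA] at hs
      rcases infix_split (k := k) (by rw [fw_length, hv]; exact Nat.sub_add_cancel hk) hsk hs
        with h | h
      · left
        rw [hA] at h
        exact h
      · right
        rw [← hfwb] at h
        exact h.eq_of_length (by rw [hsk, fw_length, hvb])
    have h1 : ([Sum.inr b] : List (Slot V)) = fw [b] := rfl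
    refine ⟨L ++ [Sum.inr b], ?_, ?_, ?_, ?_, hu, ?_, ?_, ?_, ?_, ?_⟩
    · rw [List.length_append, hL1]
      rfl
    · rw [cX_append, hL2, h1, cX_fw]
    · rw [fx_append, h1, fx_fw, List.append_nil]
      exact hL4
    · rw [fx_append, h1, fx_fw, List.append_nil]
      exact hLZ
    · rw [List.length_tail, hvb]
    · rw [fx_append, h1, fx_fw, List.append_nil]
      exact hL3
    · have h1 : (fw (v ++ [b]).tail : List (Slot V)) = (fw (v ++ [b])).tail := by
        unfold fw
        rw [List.map_tail]
      rw [h1]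
      exact (List.tail_suffix _).trans hsuf2
    · intro s hs hsk
      rcases hsplit s hs hsk with h | h
      · exact hok s h hsk
      · rw [h]
        exact hF (v ++ [b]) hvb hw
    · intro s hs hsk
      rcases hsplit _ hs ((fw_length s).trans hsk) with h | h
      · exact hpar s h hsk
      · rw [fw_inj h]
        exact hw
  | gadget v N a q c uR _ hc1 hc2 huR hS ih =>
    intro hK
    have hK1 : 2 * k * (q + 1) = 2 * k * q + 2 * k := by ring
    obtain ⟨L, hL1, hL2, hL4, hLZ, hu, hv, hL3, hsuf, hok, hpar⟩ := ih (by omega)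
    obtain ⟨l, hl1, hl2, hl3, hl4⟩ := hS (Z ∪ (fx L).toFinset)
      ((Finset.card_union_le _ _).trans
        ((Nat.add_le_add_left (List.toFinset_card_le _) _).trans (by omega)))
    have hlc : l.length = c.length := by
      rw [← hl3, List.length_map]
    have hvx : (vx l : List (Slot V)).length = l.length := by
      unfold vx
      rw [List.length_map]
    have hsplit : ∀ s : List (Slot V), s <:+: fw u ++ (L ++ (vx l ++ fw uR)) → s.length = k →
        s <:+: fw u ++ L ∨ s <:+: fw v ++ (vx l ++ fw uR) := by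
      intro s hs hsk
      obtain ⟨A, hA⟩ := hsuf
      rw [← List.append_assoc, ← hA] at hs
      rcases infix_split (k := k) (by rw [fw_length, hv]; exact Nat.sub_add_cancel hk) hsk hs
        with h | h
      · left
        rw [hA] at h
        exact h
      · right
        exact h
    refine ⟨L ++ (vx l ++ fw uR), ?_, ?_, ?_, ?_, hu, huR, ?_, ?_, ?_, ?_⟩
    · rw [List.length_append, List.length_append, hL1, fw_length, hvx, huR, hlc]
      omega
    · rw [cX_append, cX_append, hL2, cX_fw, cX_vx, hl3]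
      omega
    · rw [fx_append, fx_append, fx_fw, fx_vx, List.append_nil, List.length_append, hlc]
      omega
    · rw [fx_append, fx_append, fx_fw, fx_vx, List.append_nil]
      intro x hx
      rcases List.mem_append.1 hx with hx | hx
      · exact hLZ x hx
      · intro hxZ
        exact hl2 x hx (Finset.mem_union_left _ hxZ)
    · rw [fx_append, fx_append, fx_fw, fx_vx, List.append_nil]
      refine List.nodup_append.2 ⟨hL3, hl1, ?_⟩
      intro x hx y hy hxy
      subst hxy
      exact hl2 x hy (Finset.mem_union_right _ (List.mem_toFinset.2 hx))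
    · exact ((List.suffix_append _ _).trans (List.suffix_append _ _)).trans
        (List.suffix_append _ _)
    · intro s hs hsk
      rcases hsplit s hs hsk with h | h
      · exact hok s h hsk
      · refine hl4 s ?_ hsk
        rw [List.append_assoc]
        exact h
    · intro s hs hsk
      rcases hsplit _ hs ((fw_length s).trans hsk) with h | h
      · exact hpar s h hsk
      · exact (no_free (by rw [hv]; exact Nat.sub_add_cancel hk)
          (by rw [huR]; exact Nat.sub_add_cancel hk) (by rw [hlc]; exact hc1) hsk h).elim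

theorem rel : RelStmt := by
  intro V _ _ H X k p ε K u v N a q K' hk hF hP hK Z _ hZ
  have h1 : Z.card + 2 * k * q ≤ K := by
    have h2 : (Z.card : ℝ) + 2 * k * q ≤ K := by linarith
    exact_mod_cast h2
  obtain ⟨L, h2, h3, h4, h5, h6⟩ := rel_aux H X k p ε K u v N a q hk hF hP Z h1
  exact ⟨L, h2, h3, h4, h5, by simp, h6⟩

end Pool.Agent.KK.H52
end

/-! ### Helper33_KKB.LAB -/
section
/-!
# Squad KK, block BETA: row LAB (change of the partition)
-/

set_option autoImplicit false
set_option linter.unusedSectionVars false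

namespace Pool.Agent.KK.H33

open Pool.Agent.KK

variable {V : Type} [Fintype V] [DecidableEq V]

/-- the lists with the given fixed vertices -/
def FxL : List (Slot V) → Finset (List V)
  | [] => {[]}
  | Sum.inl v :: s => (FxL s).image (List.cons v)
  | Sum.inr _ :: s => (Finset.univ ×ˢ FxL s).image fun p => p.1 :: p.2

/-- the lists with a vertex of `S` in a free slot -/
def GxL (S : Finset V) : List (Slot V) → Finset (List V)
  | [] => ∅
  | Sum.inl v :: s => (GxL S s).image (List.cons v)
  | Sum.inr _ :: s => ((S ×ˢ FxL s).image fun p => p.1 :: p.2) ∪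
      ((Finset.univ ×ˢ GxL S s).image fun p => p.1 :: p.2)

theorem fr_nil : fr ([] : List (Slot V)) = 0 := rfl

theorem fr_inl (v : V) (s : List (Slot V)) : fr (Sum.inl v :: s) = fr s := by
  unfold fr
  rw [List.countP_cons_of_neg]
  simp

theorem fr_inr (b : Bool) (s : List (Slot V)) : fr (Sum.inr b :: s) = fr s + 1 := by
  unfold fr
  rw [List.countP_cons_of_pos]
  simp

theorem card_FxL (s : List (Slot V)) : (FxL s).card ≤ Fintype.card V ^ fr s := by
  induction s with
  | nil => simp [FxL, fr_nil]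
  | cons x s ih =>
    rcases x with v | b
    · rw [fr_inl]
      show ((FxL s).image (List.cons v)).card ≤ _
      exact Finset.card_image_le.trans ih
    · rw [fr_inr, pow_succ]
      show ((Finset.univ ×ˢ FxL s).image fun p => p.1 :: p.2).card ≤ _
      refine Finset.card_image_le.trans ?_
      rw [Finset.card_product, Finset.card_univ, mul_comm]
      exact Nat.mul_le_mul_right _ ih

theorem card_GxL (S : Finset V) (s : List (Slot V)) :
    (GxL S s).card * Fintype.card V ≤ fr s * S.card * Fintype.card V ^ fr s := by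
  induction s with
  | nil => simp [GxL]
  | cons x s ih =>
    rcases x with v | b
    · rw [fr_inl]
      show ((GxL S s).image (List.cons v)).card * _ ≤ _
      exact (Nat.mul_le_mul_right _ Finset.card_image_le).trans ih
    · rw [fr_inr]
      show ((((S ×ˢ FxL s).image fun p => p.1 :: p.2) ∪
        ((Finset.univ ×ˢ GxL S s).image fun p => p.1 :: p.2))).card * _ ≤ _
      have h1 : (((S ×ˢ FxL s).image fun p => p.1 :: p.2) ∪
          ((Finset.univ ×ˢ GxL S s).image fun p => p.1 :: p.2)).card ≤
          S.card * Fintype.card V ^ fr s + Fintype.card V * (GxL S s).card := by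
        refine (Finset.card_union_le _ _).trans (Nat.add_le_add ?_ ?_)
        · refine Finset.card_image_le.trans ?_
          rw [Finset.card_product]
          exact Nat.mul_le_mul_left _ (card_FxL s)
        · refine Finset.card_image_le.trans ?_
          rw [Finset.card_product, Finset.card_univ]
      calc _ ≤ (S.card * Fintype.card V ^ fr s + Fintype.card V * (GxL S s).card) *
            Fintype.card V := Nat.mul_le_mul_right _ h1
        _ = S.card * Fintype.card V ^ fr s * Fintype.card V +
            Fintype.card V * ((GxL S s).card * Fintype.card V) := by ring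
        _ ≤ S.card * Fintype.card V ^ fr s * Fintype.card V +
            Fintype.card V * (fr s * S.card * Fintype.card V ^ fr s) :=
            Nat.add_le_add_left (Nat.mul_le_mul_left _ ih) _
        _ = (fr s + 1) * S.card * Fintype.card V ^ (fr s + 1) := by
            rw [pow_succ]
            ring

theorem mem_FxL {X : Finset V} {s : List (Slot V)} {e : List V}
    (h : List.Forall₂ (Fit X) s e) : e ∈ FxL s := by
  induction h with
  | nil => simp [FxL]
  | @cons x w s e hx _ ih =>
    rcases x with v | b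
    · have hv : v = w := hx
      subst hv
      exact Finset.mem_image_of_mem _ ih
    · exact Finset.mem_image.2 ⟨(w, e), Finset.mem_product.2 ⟨Finset.mem_univ _, ih⟩, rfl⟩

theorem fit_change {X X' : Finset V} {s : List (Slot V)} {e : List V}
    (h : List.Forall₂ (Fit X') s e) :
    List.Forall₂ (Fit X) s e ∨ e ∈ GxL (symmDiff X X') s := by
  induction h with
  | nil => exact Or.inl List.Forall₂.nil
  | @cons x w s e hx hs ih =>
    rcases x with v | b
    · have hv : v = w := hx
      subst hv
      rcases ih with ih | ih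
      · exact Or.inl (List.Forall₂.cons rfl ih)
      · exact Or.inr (Finset.mem_image_of_mem _ ih)
    · by_cases hw : w ∈ symmDiff X X'
      · refine Or.inr (Finset.mem_union_left _ (Finset.mem_image.2 ⟨(w, e),
          Finset.mem_product.2 ⟨hw, mem_FxL hs⟩, rfl⟩))
      · rcases ih with ih | ih
        · left
          refine List.Forall₂.cons ?_ ih
          have hx' : w ∈ X' ↔ b = true := hx
          show w ∈ X ↔ b = true
          rw [← hx']
          rw [Finset.mem_symmDiff] at hw
          tauto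
        · exact Or.inr (Finset.mem_union_right _ (Finset.mem_image.2 ⟨(w, e),
            Finset.mem_product.2 ⟨Finset.mem_univ _, ih⟩, rfl⟩))

theorem fr_le (s : List (Slot V)) : fr s ≤ s.length := List.countP_le_length

theorem lab1 (H : Finset (Finset V)) (X X' : Finset V) (k : ℕ)
    (ε ρ : ℝ) (L : List (Slot V)) (hρ : 0 ≤ ρ)
    (hS : ((symmDiff X X').card : ℝ) ≤ ρ * (Fintype.card V : ℝ)) (h : OKl H X k ε L) :
    OKl H X' k (ε + k * ρ) L := by
  intro s hs hk
  have h0 := h s hs hk
  unfold OKs at h0 ⊢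
  have hV : (0 : ℝ) ≤ (Fintype.card V : ℝ) := Nat.cast_nonneg _
  rcases Nat.eq_zero_or_pos (Fintype.card V) with hV0 | hV0
  · have hXX : X' = X := by
      have := Fintype.card_eq_zero_iff.1 hV0
      exact Subsingleton.elim _ _
    rw [hXX]
    refine h0.trans (mul_le_mul_of_nonneg_right ?_ (by positivity))
    have : 0 ≤ (k : ℝ) * ρ := by positivity
    linarith
  · have hVR : (0 : ℝ) < (Fintype.card V : ℝ) := by exact_mod_cast hV0
    have hsub : BadC H X' s ⊆ BadC H X s ∪ (GxL (symmDiff X X') s : Set (List V)) := by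
      rintro e ⟨h1, h2, h3⟩
      rcases fit_change (X := X) h1 with h4 | h4
      · exact Or.inl ⟨h4, h2, h3⟩
      · exact Or.inr (Finset.mem_coe.2 h4)
    have hfin : (BadC H X s).Finite :=
      (FxL s).finite_toSet.subset fun e he => Finset.mem_coe.2 (mem_FxL he.1)
    have h1 : (BadC H X' s).ncard ≤ (BadC H X s).ncard + (GxL (symmDiff X X') s).card := by
      rw [← Set.ncard_coe_finset]
      exact (Set.ncard_le_ncard hsub (hfin.union (Finset.finite_toSet _))).trans
        (Set.ncard_union_le _ _)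
    have h2 : ((GxL (symmDiff X X') s).card : ℝ) ≤ k * ρ * (Fintype.card V : ℝ) ^ fr s := by
      have h3 : ((GxL (symmDiff X X') s).card : ℝ) * (Fintype.card V : ℝ) ≤
          (fr s : ℝ) * ((symmDiff X X').card : ℝ) * (Fintype.card V : ℝ) ^ fr s := by
        exact_mod_cast card_GxL (symmDiff X X') s
      have h4 : (fr s : ℝ) ≤ k := by
        have := fr_le s
        rw [hk] at this
        exact_mod_cast this
      have h5 : (fr s : ℝ) * ((symmDiff X X').card : ℝ) * (Fintype.card V : ℝ) ^ fr s ≤
          (k * ρ * (Fintype.card V : ℝ) ^ fr s) * (Fintype.card V : ℝ) := by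
        calc (fr s : ℝ) * ((symmDiff X X').card : ℝ) * (Fintype.card V : ℝ) ^ fr s
            ≤ k * (ρ * (Fintype.card V : ℝ)) * (Fintype.card V : ℝ) ^ fr s := by
              refine mul_le_mul_of_nonneg_right ?_ (by positivity)
              exact mul_le_mul h4 hS (Nat.cast_nonneg _) (Nat.cast_nonneg _)
          _ = _ := by ring
      exact le_of_mul_le_mul_right (h3.trans h5) hVR
    have h6 : ((BadC H X' s).ncard : ℝ) ≤ ((BadC H X s).ncard : ℝ) +
        ((GxL (symmDiff X X') s).card : ℝ) := by exact_mod_cast h1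
    calc ((BadC H X' s).ncard : ℝ) ≤ _ := h6
      _ ≤ ε * (Fintype.card V : ℝ) ^ fr s + k * ρ * (Fintype.card V : ℝ) ^ fr s :=
          add_le_add h0 h2
      _ = _ := by ring

theorem lab2 (X X' : Finset V) (L : List (Slot V)) : cX X L ≤ cX X' L + (fx L).length := by
  induction L with
  | nil => simp [cX, fx]
  | cons x L ih =>
    rcases x with v | b
    · have h1 : cX X (Sum.inl v :: L) ≤ cX X L + 1 := by
        unfold cX
        rw [List.countP_cons]
        split_ifs <;> omega
      have h2 : cX X' L ≤ cX X' (Sum.inl v :: L) := by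
        unfold cX
        rw [List.countP_cons]
        omega
      have h3 : (fx (Sum.inl v :: L)).length = (fx L).length + 1 := by
        simp [fx]
      omega
    · have h1 : cX X (Sum.inr b :: L) = cX X L + (if b then 1 else 0) := by
        unfold cX
        rw [List.countP_cons]
      have h2 : cX X' (Sum.inr b :: L) = cX X' L + (if b then 1 else 0) := by
        unfold cX
        rw [List.countP_cons]
      have h3 : (fx (Sum.inr b :: L)).length = (fx L).length := by
        unfold fx
        rw [List.filterMap_cons_none rfl]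
      omega

/-- **LAB** -/
theorem lab : LabStmt := by
  classical
  refine ⟨?_, ?_, ?_⟩
  · intro V _ _ H X X' k ε ρ L hρ hS h
    exact lab1 H X X' k ε ρ L hρ hS h
  · intro V _ _ X X' L
    exact lab2 X X' L
  · intro V _ _ H X X' D k p ε ρ K K' q u v N a hρ hK' hS hR hK
    by_contra hcon
    push Not at hcon
    have hex : ∀ a' : ℕ, ∃ Z : Finset V, Disjoint Z D ∧ (Z.card : ℝ) ≤ K' ∧
        (a ≤ a' + q → a' ≤ a + q → ¬ ∃ L : List (Slot V), L.length = N ∧
          cX X' L = a' ∧ (fx L).length ≤ q ∧ (∀ x ∈ fx L, x ∉ Z) ∧ (∀ x ∈ D, x ∈ fx L) ∧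
          Lst H X' k p (ε + k * ρ) u v L) := by
      intro a'
      by_cases h1 : a ≤ a' + q ∧ a' ≤ a + q
      · have h2 := hcon a' h1.1 h1.2
        unfold Rea at h2
        push Not at h2
        obtain ⟨Z, hZ1, hZ2, hZ3⟩ := h2
        refine ⟨Z, hZ1, hZ2, fun _ _ => ?_⟩
        rintro ⟨L, l1, l2, l3, l4, l5, l6⟩
        exact hZ3 L l1 l2 l3 l4 l5 l6
      · refine ⟨∅, Finset.disjoint_empty_left _, by simpa using hK', fun h2 h3 => ?_⟩
        exact absurd ⟨h2, h3⟩ h1
    choose Z hZ1 hZ2 hZ3 using hex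
    obtain ⟨L, l1, l2, l3, l4, l5, l6⟩ := hR ((Finset.Icc (a - q) (a + q)).biUnion Z)
      (by
        rw [Finset.disjoint_biUnion_left]
        exact fun i _ => hZ1 i)
      (by
        have h1 : ((((Finset.Icc (a - q) (a + q)).biUnion Z).card : ℕ) : ℝ) ≤
            ∑ i ∈ Finset.Icc (a - q) (a + q), ((Z i).card : ℝ) := by
          exact_mod_cast Finset.card_biUnion_le
        have h2 : ∑ i ∈ Finset.Icc (a - q) (a + q), ((Z i).card : ℝ) ≤
            ∑ _i ∈ Finset.Icc (a - q) (a + q), K' := Finset.sum_le_sum fun i _ => hZ2 i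
        rw [Finset.sum_const, Nat.card_Icc, nsmul_eq_mul] at h2
        have h3 : ((a + q + 1 - (a - q) : ℕ) : ℝ) ≤ 2 * q + 1 := by
          have : a + q + 1 - (a - q) ≤ 2 * q + 1 := by omega
          exact_mod_cast this
        have h4 := mul_le_mul_of_nonneg_right h3 hK'
        linarith)
    have e1 := lab2 X X' L
    have e2 := lab2 X' X L
    rw [l2] at e1 e2
    have e3 : a ≤ cX X' L + q := by omega
    have e4 : cX X' L ≤ a + q := by omega
    refine hZ3 (cX X' L) e3 e4 ⟨L, l1, rfl, l3, fun x hx hxZ => l4 x hx ?_, l5, ?_⟩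
    · exact Finset.mem_biUnion.2 ⟨cX X' L, Finset.mem_Icc.2 ⟨by omega, e4⟩, hxZ⟩
    · obtain ⟨m1, m2, m3, m4, m5, m6⟩ := l6
      exact ⟨m1, m2, m3, m4, lab1 H X X' k ε ρ _ hρ hS m5, m6⟩

end Pool.Agent.KK.H33
end

/-! ### Helper42_KK.PUT -/
section
/-! MP_747bc0_co, squad KK, block BETA part 2, row PUT. -/

set_option autoImplicit false

namespace Pool.Agent.KK.H42

open H60W

/-- decomposition of the words before and after the connector -/
theorem core2 (k : ℕ) (b : Bool) (U U' : List Bool) (c₁ c₂ : ℕ) (hU : U.length = k)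
    (hU' : U'.length = k) (h1 : c₁ < k) (h2 : c₂ < k) (h12 : c₁ ≠ c₂)
    (hb1 : U.getD c₁ false = b) (hb2 : U.getD c₂ false = b)
    (hUU : ∀ i < k, U'.getD i false = if i = c₁ ∨ i = c₂ then !b else U.getD i false) :
    ∃ d, 1 ≤ d ∧ d < k ∧ (c₁ + d) % k = c₂ ∧
      ∃ m₁ m₂ : List Bool, m₁.length = d - 1 ∧ m₂.length = k - 1 - d ∧
      (m₁ ++ b :: m₂ ++ [b]).tail = per U (c₁ + 2) (k - 1) ∧
      ((!b) :: m₁ ++ (!b) :: m₂).dropLast = per U' c₁ (k - 1) ∧
      wt U = wt m₁ + wt m₂ + 2 * wt [b] ∧ wt U' = wt m₁ + wt m₂ + 2 * wt [!b] := by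
  obtain ⟨d, hd1, hdk, hd⟩ : ∃ d, 1 ≤ d ∧ d < k ∧ (c₁ + d) % k = c₂ := by
    rcases lt_or_gt_of_ne h12 with h | h
    · exact ⟨c₂ - c₁, by omega, by omega, by
        rw [show c₁ + (c₂ - c₁) = c₂ by omega]; exact Nat.mod_eq_of_lt h2⟩
    · refine ⟨c₂ + k - c₁, by omega, by omega, ?_⟩
      rw [show c₁ + (c₂ + k - c₁) = c₂ + k by omega, Nat.add_mod_right]
      exact Nat.mod_eq_of_lt h2
  have hc1 : (c₁ % k) = c₁ := Nat.mod_eq_of_lt h1
  have hne : ∀ i, 1 ≤ i → i < k → i ≠ d → (c₁ + i) % k ≠ c₁ ∧ (c₁ + i) % k ≠ c₂ := by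
    intro i hi1 hik hid
    constructor
    · intro h
      have h3 : (c₁ + i) % k = (c₁ + 0) % k := by rw [h, Nat.add_zero, hc1]
      have h4 : i % k = 0 % k := Nat.ModEq.add_left_cancel' c₁ h3
      rw [Nat.mod_eq_of_lt hik, Nat.zero_mod] at h4
      omega
    · intro h
      have h3 : (c₁ + i) % k = (c₁ + d) % k := by rw [h, hd]
      have h4 : i % k = d % k := Nat.ModEq.add_left_cancel' c₁ h3
      rw [Nat.mod_eq_of_lt hik, Nat.mod_eq_of_lt hdk] at h4
      exact hid h4
  have hsame : ∀ i, 1 ≤ i → i < k → i ≠ d →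
      U'.getD ((c₁ + i) % k) false = U.getD ((c₁ + i) % k) false := by
    intro i hi1 hik hid
    obtain ⟨h3, h4⟩ := hne i hi1 hik hid
    rw [hUU _ (Nat.mod_lt _ (by omega)), if_neg]
    rintro (h | h)
    · exact h3 h
    · exact h4 h
  have e1 : per U' (c₁ + 1) (d - 1) = per U (c₁ + 1) (d - 1) := by
    apply per_congr
    intro i hi
    rw [hU, hU', show c₁ + 1 + i = c₁ + (1 + i) by omega]
    exact hsame (1 + i) (by omega) (by omega) (by omega)
  have e2 : per U' (c₁ + d + 1) (k - 1 - d) = per U (c₁ + d + 1) (k - 1 - d) := by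
    apply per_congr
    intro i hi
    rw [hU, hU', show c₁ + d + 1 + i = c₁ + (d + 1 + i) by omega]
    exact hsame (d + 1 + i) (by omega) (by omega) (by omega)
  have f1 : per U (c₁ + 1) k = per U (c₁ + 1) (d - 1) ++ b :: per U (c₁ + d + 1) (k - 1 - d) ++
      [b] := by
    have hk : k = (d - 1) + (1 + ((k - 1 - d) + 1)) := by omega
    have g1 : per U (c₁ + 1) k = per U (c₁ + 1) ((d - 1) + (1 + ((k - 1 - d) + 1))) := by
      rw [← hk]
    have p1 : per U (c₁ + d) 1 = [b] := by
      rw [per_one, hU, hd, hb2]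
    have p3 : per U (c₁ + k) 1 = [b] := by
      rw [per_one, hU, Nat.add_mod_right, hc1, hb1]
    rw [g1, per_add, show c₁ + 1 + (d - 1) = c₁ + d by omega, per_add, p1, per_add,
      show c₁ + d + 1 + (k - 1 - d) = c₁ + k by omega, p3]
    simp
  have f2 : per U' c₁ k = (!b) :: per U (c₁ + 1) (d - 1) ++ (!b) ::
      per U (c₁ + d + 1) (k - 1 - d) := by
    have hk : k = 1 + ((d - 1) + (1 + (k - 1 - d))) := by omega
    have g1 : per U' c₁ k = per U' c₁ (1 + ((d - 1) + (1 + (k - 1 - d)))) := by
      rw [← hk]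
    have p1 : per U' c₁ 1 = [!b] := by
      rw [per_one, hU', hc1, hUU _ h1, if_pos (Or.inl rfl)]
    have p3 : per U' (c₁ + 1 + (d - 1)) 1 = [!b] := by
      rw [per_one, hU', show c₁ + 1 + (d - 1) = c₁ + d by omega, hd, hUU _ h2,
        if_pos (Or.inr rfl)]
    rw [g1, per_add, p1, per_add, e1, per_add, p3,
      show c₁ + 1 + (d - 1) + 1 = c₁ + d + 1 by omega, e2]
    simp
  refine ⟨d, hd1, hdk, hd, per U (c₁ + 1) (d - 1), per U (c₁ + d + 1) (k - 1 - d),
    per_length .., per_length .., ?_, ?_, ?_, ?_⟩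
  · rw [← f1]
    have hk : k = (k - 1) + 1 := by omega
    have g1 : per U (c₁ + 1) k = per U (c₁ + 1) ((k - 1) + 1) := by rw [← hk]
    rw [g1, per_succ]
    rfl
  · rw [← f2]
    have hk : k = (k - 1) + 1 := by omega
    have g1 : per U' c₁ k = per U' c₁ ((k - 1) + 1) := by rw [← hk]
    rw [g1, per_add, per_one, List.dropLast_concat]
  · have h3 := wt_full U (c₁ + 1)
    rw [hU, f1, wt_append, wt_append, wt_cons] at h3
    omega
  · have h3 := wt_full U' c₁
    rw [hU', f2, wt_append, wt_cons, wt_cons (!b) (per U (c₁ + d + 1) (k - 1 - d))] at h3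
    omega

/-- a free stretch -/
theorem rea_free (hREL : RelStmt) (hPER : PerStmt) (V : Type) [Fintype V] [DecidableEq V]
    (H : Finset (Finset V)) (X : Finset V) (k p : ℕ) (ε κ : ℝ) (w : List Bool) (a m : ℕ)
    (hk : 1 ≤ k) (hF : FW H X k p ε) (hw : w.length = k) (hp : wt w % 2 = p) :
    Rea H X k p ε κ ∅ 0 (per w a (k - 1)) (per w (a + m) (k - 1)) m
      (wt (per w (a + k - 1) m)) := by
  obtain ⟨K, hK⟩ := exists_nat_ge κ
  have h1 := hREL V H X k p ε K _ _ _ _ _ κ hk hF (hPER V H X k p ε K w a m hk hw hp)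
    (by push_cast; linarith)
  rw [Nat.mul_zero] at h1
  exact h1

/-- one connector, between two words, at the times of the docstring -/
theorem put_gen (hREL : RelStmt) (hCMO : CmoStmt) (hTKR : TkrStmt) (hPER : PerStmt)
    (V : Type) [Fintype V] [DecidableEq V] (H : Finset (Finset V)) (X : Finset V) (k p : ℕ)
    (ε K K' : ℝ) (b : Bool) (U U' : List Bool) (c₁ c₂ s : ℕ) (z : V) (hk : 2 ≤ k)
    (hF : FW H X k p ε) (hU : U.length = k) (hU' : U'.length = k) (h1 : c₁ < k) (h2 : c₂ < k)
    (h12 : c₁ ≠ c₂) (hb1 : U.getD c₁ false = b) (hb2 : U.getD c₂ false = b)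
    (hUU : ∀ i < k, U'.getD i false = if i = c₁ ∨ i = c₂ then !b else U.getD i false)
    (hs : wt U = s + 2 * wt [b] ∨ wt U' = s + 2 * wt [!b])
    (hp : wt U % 2 = p ∨ wt U' % 2 = p) (hK : K' + 2 * k ≤ K)
    (hsup : ∀ m₁ m₂ : List Bool, m₁.length + m₂.length + 2 = k → wt m₁ + wt m₂ = s →
      SupT H X k ε K z (m₁ ++ b :: m₂ ++ [b]).tail
        (m₁ ++ b :: m₂ ++ decide (z ∈ X) :: (m₁ ++ (!b) :: m₂))
        ((!b) :: m₁ ++ (!b) :: m₂).dropLast) :
    wt U = s + 2 * wt [b] ∧ wt U' = s + 2 * wt [!b] ∧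
      Rea H X k p ε K' {z} (2 * k) (cx k U) (cx k U') (4 * k)
        (wt (per U (k - 1) (c₁ + 2)) + (2 * s + 1 + wt [decide (z ∈ X)]) +
          wt (per U' c₁ (k - 1)) + wt (per U' (c₁ + k - 1) (k - c₁))) := by
  obtain ⟨d, hd1, hdk, hd, m₁, m₂, l1, l2, ht, hdl, hwU, hwU'⟩ :=
    core2 k b U U' c₁ c₂ hU hU' h1 h2 h12 hb1 hb2 hUU
  have hs' : wt m₁ + wt m₂ = s := by rcases hs with h | h <;> omega
  have hb : wt [b] + wt [!b] = 1 := by cases b <;> rfl
  have hpU : wt U % 2 = p := by rcases hp with h | h <;> omega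
  have hpU' : wt U' % 2 = p := by rcases hp with h | h <;> omega
  refine ⟨by omega, by omega, ?_⟩
  have hS := hsup m₁ m₂ (by omega) hs'
  rw [ht, hdl] at hS
  have hlc : (m₁ ++ b :: m₂ ++ decide (z ∈ X) :: (m₁ ++ (!b) :: m₂)).length = 2 * k - 1 := by
    simp only [List.length_append, List.length_cons, l1, l2]
    omega
  have hwc : wt (m₁ ++ b :: m₂ ++ decide (z ∈ X) :: (m₁ ++ (!b) :: m₂)) =
      2 * s + 1 + wt [decide (z ∈ X)] := by
    rw [wt_append, wt_append, wt_cons, wt_cons (decide (z ∈ X)), wt_append, wt_cons (!b)]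
    omega
  have P2 := hTKR V H X k p ε K z _ _ _ (by omega) (per_length ..) (per_length ..)
    (by rw [hlc]; omega) hS
  rw [hlc, hwc] at P2
  have P1 := rea_free hREL hPER V H X k p ε K U 0 (c₁ + 2) (by omega) hF hU hpU
  rw [Nat.zero_add, Nat.zero_add] at P1
  have P12 := hCMO.2.1 V H X ∅ {z} k p ε K (K - 1) 0 (2 * k - 1) _ _ _ _ _ _ _ (by omega) P1 P2
    (Finset.disjoint_empty_left _) (by
      rw [Finset.card_singleton]
      push_cast
      linarith)
  have P3 := rea_free hREL hPER V H X k p ε (K - 1) U' c₁ (k - c₁) (by omega) hF hU' hpU'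
  have e1 : per U' (c₁ + (k - c₁)) (k - 1) = per U' 0 (k - 1) := by
    have := per_period U' 0 (k - 1)
    rw [hU', Nat.zero_add] at this
    rw [show c₁ + (k - c₁) = k by omega]
    exact this
  rw [e1] at P3
  have P := hCMO.2.1 V H X _ ∅ k p ε (K - 1) K' _ 0 _ _ _ _ _ _ _ (by omega) P12 P3
    (Finset.disjoint_empty_right _) (by
      rw [Finset.card_empty]
      have : ((0 + (2 * k - 1) : ℕ) : ℝ) = 2 * (k : ℝ) - 1 := by
        rw [Nat.zero_add, Nat.cast_sub (by omega)]
        push_cast
        ring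
      rw [this]
      push_cast
      linarith)
  rw [Finset.empty_union, Finset.union_empty] at P
  have hN : c₁ + 2 + (2 * k - 1 + (k - 1)) + (k - c₁) = 4 * k := by omega
  rw [hN] at P
  have hA : wt (per U (k - 1) (c₁ + 2)) + (2 * s + 1 + wt [decide (z ∈ X)] +
      wt (per U' c₁ (k - 1))) + wt (per U' (c₁ + k - 1) (k - c₁)) =
      wt (per U (k - 1) (c₁ + 2)) + (2 * s + 1 + wt [decide (z ∈ X)]) +
          wt (per U' c₁ (k - 1)) + wt (per U' (c₁ + k - 1) (k - c₁)) := by omega
  rw [hA] at P
  intro Z h3 h4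
  obtain ⟨L, g1, g2, g3, g4⟩ := P Z h3 h4
  exact ⟨L, g1, g2, by omega, g4⟩

/-- the count for a flip upwards -/
theorem count_up2 (k : ℕ) (U U' : List Bool) (c₁ c₂ s : ℕ) (hU : U.length = k)
    (hU' : U'.length = k) (h1 : c₁ < k) (h2 : c₂ < k) (h12 : c₁ ≠ c₂)
    (hb1 : U.getD c₁ false = false) (hb2 : U.getD c₂ false = false)
    (hUU : ∀ i < k, U'.getD i false = if i = c₁ ∨ i = c₂ then true else U.getD i false)
    (hs : wt U = s) (hs' : wt U' = s + 2) :
    wt (per U (k - 1) (c₁ + 2)) + (2 * s + 1) + wt (per U' c₁ (k - 1)) +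
      wt (per U' (c₁ + k - 1) (k - c₁)) =
    4 * s + 3 + (if c₁ + 1 < k then 1 else 0) + (if c₁ < c₂ ∧ c₂ + 1 < k then 1 else 0) := by
  have hk2 : 2 ≤ k := by omega
  -- use `count_up` with `d = 1`
  have g0 := count_up k U U' c₁ c₂ s 1 hU hU' h1 h2 h12 le_rfl (by omega) hb1 hb2 hUU hs hs'
  have a1 : wt (per U (k - 1) (c₁ + 1 + 2)) + wt (per U (c₁ + 1 + 1) (k - 1 - 1)) =
      wt (per U (k - 1) (c₁ + 1)) + s := by
    have g1 : per U (k - 1) ((c₁ + 1 + 2) + (k - 1 - 1)) = per U (k - 1) ((c₁ + 1) + k) := by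
      rw [show (c₁ + 1 + 2) + (k - 1 - 1) = (c₁ + 1) + k by omega]
    rw [per_add U (k - 1) (c₁ + 1 + 2) (k - 1 - 1), per_add U (k - 1) (c₁ + 1) k] at g1
    have g2 : per U (k - 1 + (c₁ + 1 + 2)) (k - 1 - 1) = per U (c₁ + 1 + 1) (k - 1 - 1) := by
      have := per_period U (c₁ + 1 + 1) (k - 1 - 1)
      rw [hU] at this
      rw [show k - 1 + (c₁ + 1 + 2) = c₁ + 1 + 1 + k by omega]
      exact this
    have g3 : wt (per U (k - 1 + (c₁ + 1)) k) = s := by
      have := wt_full U (k - 1 + (c₁ + 1))
      rw [hU] at this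
      rw [this, hs]
    rw [g2] at g1
    have g4 := congrArg wt g1
    rw [wt_append, wt_append, g3] at g4
    exact g4
  have a2 : wt (per U (k - 1) (c₁ + 2)) = wt (per U (k - 1) (c₁ + 1)) := by
    rw [show c₁ + 2 = c₁ + 1 + 1 by omega, per_add, wt_append, per_one, hU,
      show k - 1 + (c₁ + 1) = c₁ + k by omega, Nat.add_mod_right, Nat.mod_eq_of_lt h1, hb1,
      wt_false, Nat.add_zero]
  omega

theorem rea_count {V : Type} [Fintype V] [DecidableEq V] {H : Finset (Finset V)}
    {X D : Finset V} {k p : ℕ} {ε K : ℝ} {q : ℕ} {u v : List Bool} {N a : ℕ} (hK : 0 ≤ K)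
    (h : Rea H X k p ε K D q u v N a) : a ≤ N := by
  obtain ⟨L, h1, h2, -⟩ := h ∅ (Finset.disjoint_empty_left _) (by
    rw [Finset.card_empty]
    push_cast
    exact hK)
  rw [← h1, ← h2]
  exact List.countP_le_length

theorem put (hREL : RelStmt) (hCMO : CmoStmt) (hTKR : TkrStmt) (hPER : PerStmt) : PutStmt := by
  intro V _ _ H X k p j ε K K' W W' c₁ c₂ z hk hF hW hW' h1 h2 h12 hj hp hT hb1 hb2 hWW hK hK'
  obtain ⟨-, hb1'⟩ := getD_of_true hb1
  obtain ⟨-, hb2'⟩ := getD_of_true hb2
  have key : ∀ c c' : ℕ, c < k → c' < k → c ≠ c' → W.getD c false = false →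
      W.getD c' false = false →
      (∀ i < k, W'.getD i false = if i = c ∨ i = c' then true else W.getD i false) →
      Rea H X k p ε K' {z} (2 * k) (cx k W) (cx k W') (4 * k)
        (4 * wt W + 3 + (if c + 1 < k then 1 else 0) + (if c < c' ∧ c' + 1 < k then 1 else 0) +
          wt [decide (z ∈ X)]) := by
    intro c c' hc hc' hcc g1 g2 g3
    obtain ⟨hw1, hw2, hpl⟩ := put_gen hREL hCMO hTKR hPER V H X k p ε K K' false W W' c c'
      (wt W) z hk hF hW hW' hc hc' hcc g1 g2 g3
      (Or.inl (by rw [wt_false, Nat.mul_zero, Nat.add_zero])) (Or.inl hp) hK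
      (fun m₁ m₂ hl hw => hT m₁ m₂ hl (by omega))
    have h3 := count_up2 k W W' c c' (wt W) hW hW' hc hc' hcc g1 g2 g3 rfl hw2
    have h4 : wt (per W (k - 1) (c + 2)) + (2 * wt W + 1 + wt [decide (z ∈ X)]) +
          wt (per W' c (k - 1)) + wt (per W' (c + k - 1) (k - c)) =
        4 * wt W + 3 + (if c + 1 < k then 1 else 0) + (if c < c' ∧ c' + 1 < k then 1 else 0) +
          wt [decide (z ∈ X)] := by
      rw [← h3]
      omega
    rw [h4] at hpl
    exact hpl
  have key' : ∀ c c' : ℕ, c < k → c' < k → c < c' → W.getD c false = false →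
      W.getD c' false = false →
      (∀ i < k, W'.getD i false = if i = c ∨ i = c' then true else W.getD i false) →
      ∃ a : ℕ, a + 1 ≤ 4 * k ∧ Rea H X k p ε K' {z} (2 * k) (cx k W) (cx k W') (4 * k) a ∧
      Rea H X k p ε K' {z} (2 * k) (cx k W) (cx k W') (4 * k) (a + 1) := by
    intro c c' hc hc' hcc g1 g2 g3
    have P1 := key c c' hc hc' (by omega) g1 g2 g3
    have P2 := key c' c hc' hc (by omega) g2 g1 (by
      intro i hi
      rw [g3 i hi]
      by_cases h : i = c ∨ i = c'
      · rw [if_pos h, if_pos h.symm]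
      · rw [if_neg h, if_neg (fun h' => h h'.symm)])
    rw [if_pos (by omega : c + 1 < k)] at P1
    rw [if_neg (by omega : ¬ (c' < c ∧ c + 1 < k)), Nat.add_zero] at P2
    have e : 4 * wt W + 3 + 1 + (if c < c' ∧ c' + 1 < k then 1 else 0) + wt [decide (z ∈ X)] =
        4 * wt W + 3 + (if c' + 1 < k then 1 else 0) + wt [decide (z ∈ X)] + 1 := by
      by_cases h : c' + 1 < k
      · rw [if_pos ⟨hcc, h⟩, if_pos h]
        omega
      · rw [if_neg (fun h' => h h'.2), if_neg h]
        omega
    rw [e] at P1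
    exact ⟨_, rea_count hK' P1, P2, P1⟩
  rcases lt_or_gt_of_ne h12 with h | h
  · exact key' c₁ c₂ h1 h2 h hb1' hb2' hWW
  · exact key' c₂ c₁ h2 h1 h hb2' hb1' (by
      intro i hi
      rw [hWW i hi]
      by_cases h : i = c₁ ∨ i = c₂
      · rw [if_pos h, if_pos h.symm]
      · rw [if_neg h, if_neg (fun h' => h h'.symm)])

end Pool.Agent.KK.H42
end

/-! ### Helper88_KK.PDT -/
section
/-!
# Squad KK, row PDT: flips downwards by a connector
-/

set_option autoImplicit false

namespace Pool.Agent.KK.H88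

open Pool.Agent.KK.H60W

/-- decomposition of the words before and after the gadget -/
theorem core' (k : ℕ) (b : Bool) (U U' : List Bool) (c₁ c₂ : ℕ) (hU : U.length = k)
    (hU' : U'.length = k) (h1 : c₁ < k) (h2 : c₂ < k) (h12 : c₁ ≠ c₂)
    (hb1 : U.getD c₁ false = b) (hb2 : U.getD c₂ false = b)
    (hUU : ∀ i < k, U'.getD i false = if i = c₁ ∨ i = c₂ then !b else U.getD i false) :
    ∃ m₁ m₂ : List Bool, m₁.length + m₂.length + 2 = k ∧
      (m₁ ++ b :: m₂ ++ [b]).tail = per U (c₁ + 2) (k - 1) ∧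
      ((!b) :: m₁ ++ (!b) :: m₂).dropLast = per U' c₁ (k - 1) ∧
      wt U = wt m₁ + wt m₂ + 2 * wt [b] ∧ wt U' = wt m₁ + wt m₂ + 2 * wt [!b] := by
  obtain ⟨d, hd1, hdk, hd⟩ : ∃ d, 1 ≤ d ∧ d < k ∧ (c₁ + d) % k = c₂ := by
    rcases lt_or_gt_of_ne h12 with h | h
    · exact ⟨c₂ - c₁, by omega, by omega, by
        rw [show c₁ + (c₂ - c₁) = c₂ by omega]; exact Nat.mod_eq_of_lt h2⟩
    · refine ⟨c₂ + k - c₁, by omega, by omega, ?_⟩
      rw [show c₁ + (c₂ + k - c₁) = c₂ + k by omega, Nat.add_mod_right]
      exact Nat.mod_eq_of_lt h2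
  have hc1 : (c₁ % k) = c₁ := Nat.mod_eq_of_lt h1
  have hne : ∀ i, 1 ≤ i → i < k → i ≠ d → (c₁ + i) % k ≠ c₁ ∧ (c₁ + i) % k ≠ c₂ := by
    intro i hi1 hik hid
    constructor
    · intro h
      have h3 : (c₁ + i) % k = (c₁ + 0) % k := by rw [h, Nat.add_zero, hc1]
      have h4 : i % k = 0 % k := Nat.ModEq.add_left_cancel' c₁ h3
      rw [Nat.mod_eq_of_lt hik, Nat.zero_mod] at h4
      omega
    · intro h
      have h3 : (c₁ + i) % k = (c₁ + d) % k := by rw [h, hd]
      have h4 : i % k = d % k := Nat.ModEq.add_left_cancel' c₁ h3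
      rw [Nat.mod_eq_of_lt hik, Nat.mod_eq_of_lt hdk] at h4
      exact hid h4
  have hsame : ∀ i, 1 ≤ i → i < k → i ≠ d →
      U'.getD ((c₁ + i) % k) false = U.getD ((c₁ + i) % k) false := by
    intro i hi1 hik hid
    obtain ⟨h3, h4⟩ := hne i hi1 hik hid
    rw [hUU _ (Nat.mod_lt _ (by omega)), if_neg]
    rintro (h | h)
    · exact h3 h
    · exact h4 h
  have e1 : per U' (c₁ + 1) (d - 1) = per U (c₁ + 1) (d - 1) := by
    apply per_congr
    intro i hi
    rw [hU, hU', show c₁ + 1 + i = c₁ + (1 + i) by omega]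
    exact hsame (1 + i) (by omega) (by omega) (by omega)
  have e2 : per U' (c₁ + d + 1) (k - 1 - d) = per U (c₁ + d + 1) (k - 1 - d) := by
    apply per_congr
    intro i hi
    rw [hU, hU', show c₁ + d + 1 + i = c₁ + (d + 1 + i) by omega]
    exact hsame (d + 1 + i) (by omega) (by omega) (by omega)
  have f1 : per U (c₁ + 1) k = per U (c₁ + 1) (d - 1) ++ b :: per U (c₁ + d + 1) (k - 1 - d) ++
      [b] := by
    have hk : k = (d - 1) + (1 + ((k - 1 - d) + 1)) := by omega
    have g1 : per U (c₁ + 1) k = per U (c₁ + 1) ((d - 1) + (1 + ((k - 1 - d) + 1))) := by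
      rw [← hk]
    have p1 : per U (c₁ + 1 + (d - 1)) 1 = [b] := by
      rw [per_one, hU, show c₁ + 1 + (d - 1) = c₁ + d by omega, hd, hb2]
    have p3 : per U (c₁ + d + 1 + (k - 1 - d)) 1 = [b] := by
      rw [per_one, hU, show c₁ + d + 1 + (k - 1 - d) = c₁ + k by omega, Nat.add_mod_right, hc1,
        hb1]
    rw [g1, per_add, per_add, p1, show c₁ + 1 + (d - 1) + 1 = c₁ + d + 1 by omega, per_add, p3]
    simp
  have f2 : per U' c₁ k = (!b) :: per U (c₁ + 1) (d - 1) ++ (!b) ::
      per U (c₁ + d + 1) (k - 1 - d) := by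
    have hk : k = 1 + ((d - 1) + (1 + (k - 1 - d))) := by omega
    have g1 : per U' c₁ k = per U' c₁ (1 + ((d - 1) + (1 + (k - 1 - d)))) := by
      rw [← hk]
    have p1 : per U' c₁ 1 = [!b] := by
      rw [per_one, hU', hc1, hUU _ h1, if_pos (Or.inl rfl)]
    have p3 : per U' (c₁ + 1 + (d - 1)) 1 = [!b] := by
      rw [per_one, hU', show c₁ + 1 + (d - 1) = c₁ + d by omega, hd, hUU _ h2,
        if_pos (Or.inr rfl)]
    rw [g1, per_add, p1, per_add, e1, per_add, p3,
      show c₁ + 1 + (d - 1) + 1 = c₁ + d + 1 by omega, e2]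
    simp
  refine ⟨per U (c₁ + 1) (d - 1), per U (c₁ + d + 1) (k - 1 - d), ?_, ?_, ?_, ?_, ?_⟩
  · rw [per_length, per_length]
    omega
  · rw [← f1]
    have hk : k = (k - 1) + 1 := by omega
    have g1 : per U (c₁ + 1) k = per U (c₁ + 1) ((k - 1) + 1) := by rw [← hk]
    rw [g1, per_succ]
    rfl
  · rw [← f2]
    have hk : k = (k - 1) + 1 := by omega
    have g1 : per U' c₁ k = per U' c₁ ((k - 1) + 1) := by rw [← hk]
    rw [g1, per_add, per_one, List.dropLast_concat]
  · have h3 := wt_full U (c₁ + 1)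
    rw [hU, f1, wt_append, wt_append, wt_cons] at h3
    omega
  · have h3 := wt_full U' c₁
    rw [hU', f2, wt_append, wt_cons, wt_cons (!b) (per U (c₁ + d + 1) (k - 1 - d))] at h3
    omega

/-- a stretch of letters, a special gadget, a stretch of letters -/
theorem rea_tok (hREL : RelStmt) (hCMO : CmoStmt) (hTKR : TkrStmt) (hPER : PerStmt)
    (V : Type) [Fintype V] [DecidableEq V]
    (H : Finset (Finset V)) (X : Finset V) (k p : ℕ) (ε K K' : ℝ) (U U' c : List Bool)
    (c₁ : ℕ) (z : V) (hk : 2 ≤ k) (hFW : FW H X k p ε) (hU : U.length = k) (hU' : U'.length = k)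
    (h1 : c₁ < k) (hpU : wt U % 2 = p) (hpU' : wt U' % 2 = p) (hc : c.length = 2 * k - 1)
    (hsup : SupT H X k ε K z (per U (c₁ + 2) (k - 1)) c (per U' c₁ (k - 1)))
    (hK : K' + 2 * k ≤ K) :
    Rea H X k p ε K' {z} (2 * k) (cx k U) (cx k U') (4 * k)
      (wt (per U (k - 1) (c₁ + 2)) + (wt c + wt (per U' c₁ (k - 1))) +
        wt (per U' (c₁ + k - 1) (k - c₁))) := by
  have P1 := hPER V H X k p ε ⌈K⌉₊ U 0 (c₁ + 2) (by omega) hU hpU
  rw [Nat.zero_add, Nat.zero_add] at P1
  have R1 := hREL V H X k p ε ⌈K⌉₊ _ _ _ _ _ K (by omega) hFW P1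
    (by simpa using Nat.le_ceil K)
  have R2 := hTKR V H X k p ε K z _ c _ (by omega) (per_length ..) (per_length ..)
    (by omega) hsup
  have P3 := hPER V H X k p ε ⌈K⌉₊ U' c₁ (k - c₁) (by omega) hU' hpU'
  have e1 : per U' (c₁ + (k - c₁)) (k - 1) = per U' 0 (k - 1) := by
    have := per_period U' 0 (k - 1)
    rw [hU', Nat.zero_add] at this
    rw [show c₁ + (k - c₁) = k by omega]
    exact this
  rw [e1] at P3
  have R3 := hREL V H X k p ε ⌈K⌉₊ _ _ _ _ _ (K' + 2 * k - 1) (by omega) hFW P3
    (by
      have := Nat.le_ceil K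
      push_cast
      linarith)
  have hc' : ((c.length : ℕ) : ℝ) = 2 * k - 1 := by
    rw [hc, Nat.cast_sub (by omega)]
    push_cast
    ring
  have R12 := hCMO.2.1 V H X ∅ {z} k p ε K (K' + 2 * k - 1) _ _ _ _ _ _ _ _ _ (by omega) R1 R2
    (Finset.disjoint_empty_left _) (by
      rw [Finset.card_singleton]
      push_cast
      linarith)
  have R := hCMO.2.1 V H X (∅ ∪ {z}) ∅ k p ε (K' + 2 * k - 1) K' _ _ _ _ _ _ _ _ _ (by omega)
    R12 R3 (Finset.disjoint_empty_right _) (by
      rw [Finset.card_empty]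
      push_cast [hc']
      linarith)
  rw [Finset.empty_union, Finset.union_empty] at R
  have R' := hCMO.2.2 V H X {z} k p ε ε K' K' _ (2 * k) _ _ _ _ R le_rfl le_rfl (by omega)
  have hN : c₁ + 2 + (c.length + (k - 1)) + (k - c₁) = 4 * k := by omega
  rw [hN] at R'
  exact R'

theorem wt_le (w : List Bool) : wt w ≤ w.length := List.count_le_length ..

theorem pdt (hSRT : SrtStmt) (hREL : RelStmt) (hCMO : CmoStmt) (hTKR : TkrStmt)
    (hPER : PerStmt) : PdtStmt := by
  intro V _ _ H X k p j ε K K' W W' c₁ c₂ z hk hFW hW hW' h1 h2 h12 hj hp hT hb1 hb2 hWW hK hK0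
  obtain ⟨-, hb1'⟩ := getD_of_true hb1
  obtain ⟨-, hb2'⟩ := getD_of_true hb2
  obtain ⟨m₁, m₂, hl, htl, hdl, hwU, hwU'⟩ := core' k true W' W c₁ c₂ hW' hW h1 h2 h12
    (by rw [hWW c₁ h1, if_pos (Or.inl rfl)]) (by rw [hWW c₂ h2, if_pos (Or.inr rfl)]) (by
      intro i hi
      rw [hWW i hi]
      by_cases h : i = c₁ ∨ i = c₂
      · rw [if_pos h]
        rcases h with h | h
        · rw [h, hb1']; rfl
        · rw [h, hb2']; rfl
      · rw [if_neg h, if_neg h])
  rw [wt_true] at hwU
  rw [show (!true) = false from rfl, wt_false] at hwU'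
  have h3 := hSRT.1 V H X k ε K z _ _ _ (hT m₂.reverse m₁.reverse
    (by rw [List.length_reverse, List.length_reverse]; omega)
    (by rw [wt_reverse, wt_reverse]; omega))
  have e1 : ((true :: m₂.reverse ++ true :: m₁.reverse).dropLast).reverse =
      (m₁ ++ true :: m₂ ++ [true]).tail := by
    rw [← List.tail_reverse]
    simp
  have e2 : (m₂.reverse ++ false :: m₁.reverse ++ decide (z ∈ X) ::
      (m₂.reverse ++ true :: m₁.reverse)).reverse =
      m₁ ++ true :: m₂ ++ decide (z ∈ X) :: (m₁ ++ false :: m₂) := by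
    simp
  have e3 : ((m₂.reverse ++ false :: m₁.reverse ++ [false]).tail).reverse =
      ((!true) :: m₁ ++ (!true) :: m₂).dropLast := by
    rw [← List.dropLast_reverse]
    simp
  rw [e1, e2, e3, htl, hdl] at h3
  have hlc : (m₁ ++ true :: m₂ ++ decide (z ∈ X) :: (m₁ ++ false :: m₂)).length =
      2 * k - 1 := by
    simp only [List.length_append, List.length_cons]
    omega
  have R := rea_tok hREL hCMO hTKR hPER V H X k p ε K K' W' W _ c₁ z hk hFW hW' hW h1
    (by omega) hp hlc h3 hK
  refine ⟨_, ?_, R⟩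
  have a1 := wt_le (per W' (k - 1) (c₁ + 2))
  have a2 := wt_le (m₁ ++ true :: m₂ ++ decide (z ∈ X) :: (m₁ ++ false :: m₂))
  have a3 := wt_le (per W c₁ (k - 1))
  have a4 := wt_le (per W (c₁ + k - 1) (k - c₁))
  rw [hlc] at a2
  rw [per_length] at a1 a3 a4
  omega

end Pool.Agent.KK.H88
end
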