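import Pool.Agent.KKM.Base

/-! # MP_747bc0_co, merged modules -/

/-! ### Helper69_KK.MIS -/
section
/-! MP_747bc0_co, block B: MIS (a word with different majority values has a missing type). -/

namespace Pool.Agent.KK.B.H69

open Function
open scoped Classical
open Pool.Agent.KK.B

variable {k : ℕ} {V : Type} [Fintype V]

/-- two words of the same weight differ by a permutation of the letters -/
theorem exists_perm_word {W W' : Fin k → Bool} (h : wt W' = wt W) :
    ∃ σ : Equiv.Perm (Fin k), ∀ l, W (σ l) = W' l := by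
  have h1 : Fintype.card {l // W' l = true} = Fintype.card {l // W l = true} := by
    rw [Fintype.card_subtype, Fintype.card_subtype]
    exact h
  let e : {l // W' l = true} ≃ {l // W l = true} := Fintype.equivOfCardEq h1
  refine ⟨e.extendSubtype, fun l => ?_⟩
  by_cases hl : W' l = true
  · rw [hl]
    exact e.extendSubtype_mem l hl
  · have h2 := e.extendSubtype_not_mem l hl
    rw [Bool.not_eq_true] at hl h2
    rw [hl, h2]

theorem dens_word {E : (Fin k → V) → Prop} (hE : Symm E) (X : V → Prop) {W W' : Fin k → Bool}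
    (h : wt W' = wt W) :
    dens (fun e => E e ∧ wd X W' e) = dens (fun e => E e ∧ wd X W e) := by
  obtain ⟨σ, hσ⟩ := exists_perm_word h
  rw [← dens_perm σ (fun e => E e ∧ wd X W' e)]
  refine dens_congr fun a => and_congr (hE σ a) ?_
  constructor
  · intro h1 l
    have h2 := h1 (σ.symm l)
    rw [comp_apply, Equiv.apply_symm_apply] at h2
    rw [h2, ← hσ (σ.symm l), Equiv.apply_symm_apply]
  · intro h1 l
    rw [comp_apply, ← hσ l]
    exact h1 (σ l)

theorem mis_aux [Nonempty V] {E : (Fin k → V) → Prop} {D : Fin k → (Fin k → V) → Prop}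
    {X : V → Prop} {ε ν : ℝ} {i l : Fin k} {W : Fin k → Bool} (hE : Symm E) (hC : Closed E ε D)
    (hW : WDet ν X D) (hi : maj D X i W) (hl : ¬ maj D X l W) :
    tden E X (wt W) ≤ 2 ^ k * (ε + 2 * ν) := by
  unfold maj at hi hl
  rw [not_le] at hl
  have h1 : dens (fun a => ¬ D i a ∧ wd X W a) ≤ ν := by
    rcases hW i W with h | h
    · exact hi.trans h
    · exact h
  have h2 : dens (fun a => D l a ∧ wd X W a) ≤ ν := by
    rcases hW l W with h | h
    · exact h
    · exact hl.le.trans h
  have h3 : dens (fun e => E e ∧ wd X W e) ≤ ε + 2 * ν := by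
    have h4 : dens (fun e => E e ∧ wd X W e) ≤ dens (fun e => (E e ∧ ¬ Mono D e) ∨
        ((¬ D i e ∧ wd X W e) ∨ (D l e ∧ wd X W e))) := dens_mono fun e he => by
      by_cases hm : Mono D e
      · right
        by_cases hd : D i e
        · exact Or.inr ⟨(hm i l).1 hd, he.2⟩
        · exact Or.inl ⟨hd, he.2⟩
      · exact Or.inl ⟨he.1, hm⟩
    have h5 := dens_or_le (fun e => E e ∧ ¬ Mono D e)
      (fun e => (¬ D i e ∧ wd X W e) ∨ (D l e ∧ wd X W e))
    have h6 := dens_or_le (fun e => ¬ D i e ∧ wd X W e) (fun e => D l e ∧ wd X W e)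
    have h7 : dens (fun e => E e ∧ ¬ Mono D e) ≤ ε := hC
    linarith
  have h0 : 0 ≤ ε + 2 * ν := (dens_nonneg _).trans h3
  have h4 : tden E X (wt W) ≤
      dens (fun e => ∃ W' : {W' : Fin k → Bool // wt W' = wt W}, E e ∧ wd X W'.1 e) := by
    unfold tden
    refine dens_mono fun e he => ?_
    refine ⟨⟨fun l => decide (X (e l)), ?_⟩, he.1, fun l => ?_⟩
    · rw [← he.2]
      unfold wt typ
      refine congrArg Finset.card ?_
      ext l
      simp
    · simp
  refine h4.trans ((dens_exists_le _).trans ?_)
  have h5 : ∑ W' : {W' : Fin k → Bool // wt W' = wt W}, dens (fun e => E e ∧ wd X W'.1 e) ≤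
      ∑ _W' : {W' : Fin k → Bool // wt W' = wt W}, (ε + 2 * ν) :=
    Finset.sum_le_sum fun W' _ => by
      rw [dens_word hE X W'.2]
      exact h3
  refine h5.trans ?_
  rw [Finset.sum_const, nsmul_eq_mul, Finset.card_univ]
  refine mul_le_mul_of_nonneg_right ?_ h0
  have h6 : Fintype.card {W' : Fin k → Bool // wt W' = wt W} ≤ Fintype.card (Fin k → Bool) :=
    Fintype.card_subtype_le _
  rw [Fintype.card_fun, Fintype.card_bool, Fintype.card_fin] at h6
  exact_mod_cast h6

theorem mis : MisStmt := by
  intro k V _ _ E D X ε ν i l W hE hC hW hne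
  by_cases hi : maj D X i W
  · by_cases hl : maj D X l W
    · exact absurd (iff_of_true hi hl) hne
    · exact mis_aux hE hC hW hi hl
  · by_cases hl : maj D X l W
    · exact mis_aux hE hC hW hl hi
    · exact absurd (iff_of_false hi hl) hne

end Pool.Agent.KK.B.H69
end

/-! ### Helper52_KK.BAUG -/
section
namespace Pool.Agent.KK.B.H52

open Function
open scoped Classical

section
variable {V : Type} [Fintype V] [DecidableEq V] {d : ℕ}

theorem symm_augE (H : Finset (Finset V)) : Symm (augE (d := d) H) := by
  intro σ a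
  unfold augE
  have h1 : Injective (a ∘ σ) ↔ Injective a := Equiv.injective_comp σ a
  have h2 : Finset.univ.image (a ∘ σ) = Finset.univ.image a := by
    ext v
    simp only [Finset.mem_image, Finset.mem_univ, true_and, comp_apply]
    constructor
    · rintro ⟨x, hx⟩
      exact ⟨σ x, hx⟩
    · rintro ⟨x, hx⟩
      exact ⟨σ.symm x, by rw [Equiv.apply_symm_apply]; exact hx⟩
  rw [h1, h2]

theorem image_update (a : Fin (d + 2) → V) (i : Fin (d + 2)) (v : V) :
    Finset.univ.image (update a i v) = insert v ((Finset.univ.erase i).image a) := by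
  ext w
  simp only [Finset.mem_image, Finset.mem_univ, true_and, Finset.mem_insert, Finset.mem_erase,
    and_true]
  constructor
  · rintro ⟨x, hx⟩
    by_cases h : x = i
    · subst h
      rw [update_self] at hx
      exact Or.inl hx.symm
    · rw [update_of_ne h] at hx
      exact Or.inr ⟨x, h, hx⟩
  · rintro (h | ⟨x, hxi, hx⟩)
    · exact ⟨i, by rw [update_self]; exact h.symm⟩
    · exact ⟨x, by rw [update_of_ne hxi]; exact hx⟩

theorem deg_augE [Nonempty V] (H : Finset (Finset V)) (hD : Dirac H (d + 2)) :
    Deg (augE (d := d) H) := by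
  intro a i
  have hn : (0 : ℝ) < Fintype.card V := by exact_mod_cast Fintype.card_pos
  by_cases hinj : ∀ l l' : Fin (d + 2), l ≠ i → l' ≠ i → a l = a l' → l = l'
  · have hS : ((Finset.univ.erase i).image a).card = d + 2 - 1 := by
      rw [Finset.card_image_of_injOn]
      · rw [Finset.card_erase_of_mem (Finset.mem_univ _), Finset.card_univ, Fintype.card_fin]
      · intro l hl l' hl' hll
        rw [Finset.mem_coe, Finset.mem_erase] at hl hl'
        exact hinj l l' hl.1 hl'.1 hll
    have h1 := hD _ hS
    have h2 : KK.nb H ((Finset.univ.erase i).image a) ⊆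
        Finset.univ.filter (fun v => augE H (update a i v)) := by
      intro v hv
      unfold KK.nb at hv
      rw [Finset.mem_filter] at hv
      rw [Finset.mem_filter]
      refine ⟨Finset.mem_univ _, fun _ => ?_⟩
      rw [image_update]
      exact hv.2.2
    have h3 := Finset.card_le_card h2
    rw [dens_eq, div_le_div_iff₀ two_pos hn, one_mul]
    have h4 : Fintype.card V ≤ (Finset.univ.filter (fun v => augE H (update a i v))).card * 2 := by
      omega
    exact_mod_cast h4
  · push Not at hinj
    obtain ⟨l, l', hl, hl', hll, hne⟩ := hinj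
    have h1 : ∀ v : V, augE H (update a i v) ↔ True := by
      intro v
      refine ⟨fun _ => trivial, fun _ hI => ?_⟩
      exfalso
      apply hne
      apply hI
      rw [update_of_ne hl, update_of_ne hl']
      exact hll
    rw [dens_congr h1, dens_true]
    norm_num

theorem dens_eq_const [Nonempty V] (c : V) :
    dens (fun z : V => z = c) ≤ 1 / (Fintype.card V : ℝ) := by
  rw [dens_eq]
  have h : Finset.univ.filter (fun z : V => z = c) = {c} := by
    ext z
    simp
  rw [h, Finset.card_singleton]
  norm_num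

theorem dens_coord [Nonempty V] (i j : Fin (d + 2)) (hij : i ≠ j) :
    dens (fun e : Fin (d + 2) → V => e i = e j) ≤ 1 / (Fintype.card V : ℝ) := by
  rw [← dens_update i (fun e : Fin (d + 2) → V => e i = e j)]
  have h1 : ∀ x : (Fin (d + 2) → V) × V, (update x.1 i x.2 i = update x.1 i x.2 j) ↔
      (x.2 = x.1 j) := by
    intro x
    rw [update_self, update_of_ne hij.symm]
  rw [dens_congr h1]
  exact dens_prod_le (Q := fun (a : Fin (d + 2) → V) (z : V) => z = a j) (by positivity)
    (fun a => dens_eq_const (a j))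

end

theorem aug : AugStmt := by
  intro d V _ _ _ H _hU hD
  refine ⟨symm_augE H, deg_augE H hD, ?_⟩
  intro P
  have h1 : dens (fun e : Fin (d + 2) → V => augE H e ∧ P e) ≤
      dens (fun e : Fin (d + 2) → V => (LE H e ∧ P e) ∨
        ∃ p : Fin (d + 2) × Fin (d + 2), p.1 ≠ p.2 ∧ e p.1 = e p.2) := by
    refine dens_mono ?_
    rintro e ⟨h, hP⟩
    by_cases hI : Injective e
    · exact Or.inl ⟨h hI, hP⟩
    · right
      rw [Injective] at hI
      push Not at hI
      obtain ⟨x, y, hxy, hne⟩ := hI
      exact ⟨(x, y), hne, hxy⟩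
  refine h1.trans ((dens_or_le _ _).trans ?_)
  have h2 : dens (fun e : Fin (d + 2) → V =>
      ∃ p : Fin (d + 2) × Fin (d + 2), p.1 ≠ p.2 ∧ e p.1 = e p.2) ≤
      ((d : ℝ) + 2) ^ 2 / (Fintype.card V : ℝ) := by
    refine (dens_exists_le _).trans ?_
    calc ∑ p : Fin (d + 2) × Fin (d + 2), dens (fun e : Fin (d + 2) → V => p.1 ≠ p.2 ∧ e p.1 = e p.2)
        ≤ ∑ _p : Fin (d + 2) × Fin (d + 2), 1 / (Fintype.card V : ℝ) := by
          refine Finset.sum_le_sum fun p _ => ?_
          by_cases hp : p.1 = p.2
          · have : ∀ e : Fin (d + 2) → V, (p.1 ≠ p.2 ∧ e p.1 = e p.2) ↔ False := by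
              intro e
              exact ⟨fun h => h.1 hp, fun h => h.elim⟩
            rw [dens_congr this, dens_false]
            positivity
          · exact (dens_mono fun e h => h.2).trans (dens_coord p.1 p.2 hp)
      _ = ((d : ℝ) + 2) ^ 2 / (Fintype.card V : ℝ) := by
          rw [Finset.sum_const, Finset.card_univ, Fintype.card_prod, Fintype.card_fin, nsmul_eq_mul]
          push_cast
          ring
  linarith

end Pool.Agent.KK.B.H52
end

/-! ### Helper94_KK.E_BLO -/
section
/-!
# Squad KK, row E_BLO: blow-up with two copies of every vertex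
-/

set_option autoImplicit false

namespace Pool.Agent.KK.E.H94

open Pool.Agent.KK Pool.Agent.KK.E

section

variable {V : Type} [Fintype V] [DecidableEq V]

theorem dens_sum {ι : Type} [Fintype ι] [DecidableEq ι] (c : ι → Finset V) (P : (ι → V) → Prop)
    [DecidablePred P] :
    dens c P = (∑ f ∈ Fintype.piFinset c, if P f then (1 : ℝ) else 0) /
      ∏ i, ((c i).card : ℝ) := by
  unfold dens
  congr 1
  have h : {f : ι → V | (∀ i, f i ∈ c i) ∧ P f} =
      (((Fintype.piFinset c).filter P : Finset (ι → V)) : Set (ι → V)) := by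
    ext f
    simp [Fintype.mem_piFinset]
  rw [h, Set.ncard_coe_finset, Finset.card_filter]
  push_cast
  rfl

theorem prod_pos' {ι : Type} [Fintype ι] (c : ι → Finset V) (hc : ∀ i, (c i).Nonempty) :
    (0 : ℝ) < ∏ i, ((c i).card : ℝ) :=
  Finset.prod_pos fun i _ => by exact_mod_cast (hc i).card_pos

theorem card_box {ι : Type} [Fintype ι] [DecidableEq ι] (c : ι → Finset V) :
    ((Fintype.piFinset c).card : ℝ) = ∏ i, ((c i).card : ℝ) := by
  rw [Fintype.card_piFinset]
  push_cast
  rfl

/-- resampling one coordinate -/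
theorem resample {ι : Type} [Fintype ι] [DecidableEq ι] (c : ι → Finset V) (j : ι)
    (F : (ι → V) → ℝ) :
    ∑ g ∈ Fintype.piFinset c, ∑ z ∈ c j, F (Function.update g j z) =
      (c j).card * ∑ g ∈ Fintype.piFinset c, F g := by
  rw [← Finset.sum_product']
  have h1 : ∑ x ∈ Fintype.piFinset c ×ˢ c j, F (Function.update x.1 j x.2) =
      ∑ x ∈ Fintype.piFinset c ×ˢ c j, F x.1 := by
    have hmem : ∀ x ∈ Fintype.piFinset c ×ˢ c j,
        (Function.update x.1 j x.2, x.1 j) ∈ Fintype.piFinset c ×ˢ c j := by
      intro x hx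
      rw [Finset.mem_product, Fintype.mem_piFinset] at hx ⊢
      refine ⟨fun i => ?_, hx.1 j⟩
      by_cases hi : i = j
      · subst hi
        change Function.update x.1 i x.2 i ∈ c i
        rw [Function.update_self]
        exact hx.2
      · change Function.update x.1 j x.2 i ∈ c i
        rw [Function.update_of_ne hi]
        exact hx.1 i
    have hinv : ∀ x ∈ Fintype.piFinset c ×ˢ c j,
        (Function.update (Function.update x.1 j x.2) j (x.1 j), (Function.update x.1 j x.2) j) =
          x := by
      intro x _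
      rw [Function.update_idem, Function.update_eq_self, Function.update_self]
    exact Finset.sum_nbij' (fun x => (Function.update x.1 j x.2, x.1 j))
      (fun x => (Function.update x.1 j x.2, x.1 j)) hmem hmem hinv hinv (fun x _ => rfl)
  rw [h1, Finset.sum_product]
  rw [Finset.mul_sum]
  refine Finset.sum_congr rfl fun g _ => ?_
  change ∑ _y ∈ c j, F g = _
  rw [Finset.sum_const, nsmul_eq_mul]

/-- Cauchy-Schwarz for one doubled coordinate -/
theorem double {ι : Type} [Fintype ι] [DecidableEq ι] (c : ι → Finset V) (j k : ι) (hjk : j ≠ k)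
    (hc : c j = c k) (hn : ∀ i, (c i).Nonempty) (a : (ι → V) → ℝ)
    (ha : ∀ g y, a (Function.update g k y) = a g) :
    (∑ g ∈ Fintype.piFinset c, a g) ^ 2 ≤ (∏ i, ((c i).card : ℝ)) *
      ∑ g ∈ Fintype.piFinset c, a g * a (Function.update g j (g k)) := by
  have hn0 : (0 : ℝ) < (c j).card := by exact_mod_cast (hn j).card_pos
  obtain ⟨r, hr⟩ : ∃ r : (ι → V) → ℝ, ∀ g, r g = ∑ x ∈ c j, a (Function.update g j x) :=
    ⟨_, fun _ => rfl⟩
  have h1 : ∑ g ∈ Fintype.piFinset c, r g = (c j).card * ∑ g ∈ Fintype.piFinset c, a g := by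
    rw [← resample c j a]
    exact Finset.sum_congr rfl fun g _ => hr g
  have h2 : ∑ g ∈ Fintype.piFinset c, r g * a (Function.update g j (g k)) = (c j).card *
      ∑ g ∈ Fintype.piFinset c, a g * a (Function.update g j (g k)) := by
    rw [← resample c j (fun g => a g * a (Function.update g j (g k)))]
    refine Finset.sum_congr rfl fun g _ => ?_
    rw [hr, Finset.sum_mul]
    refine Finset.sum_congr rfl fun x _ => ?_
    rw [Function.update_idem, Function.update_of_ne hjk.symm]
  have h3 : ∑ g ∈ Fintype.piFinset c, r g ^ 2 = (c j).card *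
      ∑ g ∈ Fintype.piFinset c, r g * a (Function.update g j (g k)) := by
    rw [hc, ← resample c k (fun g => r g * a (Function.update g j (g k)))]
    refine Finset.sum_congr rfl fun g _ => ?_
    have e1 : ∀ y, r (Function.update g k y) = r g := by
      intro y
      rw [hr, hr]
      refine Finset.sum_congr rfl fun x _ => ?_
      rw [Function.update_comm hjk.symm, ha]
    have e2 : r g = ∑ x ∈ c k, a (Function.update g j x) := by rw [hr, hc]
    calc r g ^ 2 = r g * ∑ x ∈ c k, a (Function.update g j x) := by rw [← e2, pow_two]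
      _ = ∑ x ∈ c k, r g * a (Function.update g j x) := Finset.mul_sum _ _ _
      _ = _ := by
          refine Finset.sum_congr rfl fun x _ => ?_
          rw [e1, Function.update_self, Function.update_comm hjk.symm, ha]
  have h4 : (∑ g ∈ Fintype.piFinset c, r g) ^ 2 ≤
      ((Fintype.piFinset c).card : ℝ) * ∑ g ∈ Fintype.piFinset c, r g ^ 2 :=
    sq_sum_le_card_mul_sum_sq
  rw [h1, h3, h2, card_box] at h4
  have h5 : (0 : ℝ) < ((c j).card : ℝ) ^ 2 := by positivity
  refine le_of_mul_le_mul_left ?_ h5
  nlinarith [h4]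

end

theorem e_blo (e02 : StmtE02) : StmtE20 := by
  intro V _ _ ι _ c P d hc hd hdP
  classical
  obtain ⟨c', hc'⟩ : ∃ c' : ι × Bool → Finset V, ∀ z, c' z = c z.1 := ⟨_, fun _ => rfl⟩
  have hcc : (fun z : ι × Bool => c z.1) = c' := funext fun z => (hc' z).symm
  rw [hcc]
  have hne : ∀ z, (c' z).Nonempty := fun z => by rw [hc']; exact hc _
  obtain ⟨Q, hQ⟩ : ∃ Q : Finset ι → (ι × Bool → V) → Prop, ∀ t g, Q t g ↔
      ∀ s : ι → Bool, (∀ i, i ∉ t → s i = false) → P fun i => g (i, s i) :=
    ⟨_, fun _ _ => Iff.rfl⟩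
  have key : ∀ t : Finset ι, d ^ (2 ^ t.card) ≤ dens c' (Q t) := by
    intro t
    induction t using Finset.induction_on with
    | empty =>
      rw [Finset.card_empty, pow_zero, pow_one]
      refine hdP.trans (le_of_eq ?_)
      have h1 := e02 V (ι × Bool) ι c' (fun i => (i, false)) hne
        (fun a b h => (Prod.mk.inj h).1) P
      have h2 : c' ∘ (fun i : ι => (i, false)) = c := funext fun i => hc' _
      rw [h2] at h1
      rw [← h1]
      congr 1
      funext g
      apply propext
      rw [hQ]
      constructor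
      · intro h s hs
        have : s = fun _ => false := funext fun i => hs i (Finset.notMem_empty i)
        rw [this]
        exact h
      · intro h
        exact h (fun _ => false) fun _ _ => rfl
    | insert i t hi ih =>
      rw [Finset.card_insert_of_notMem hi, pow_succ, pow_mul]
      have h0 : (0 : ℝ) ≤ d ^ 2 ^ t.card := by positivity
      refine (pow_le_pow_left₀ h0 ih 2).trans ?_
      have hpos := prod_pos' c' hne
      rw [dens_sum, dens_sum, div_pow, div_le_div_iff₀ (by positivity) hpos]
      have hj : ((i, false) : ι × Bool) ≠ (i, true) := by simp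
      have h1 := double c' (i, false) (i, true) hj (by rw [hc', hc']) hne
        (fun g => if Q t g then (1 : ℝ) else 0) (by
          intro g y
          have : Q t (Function.update g (i, true) y) ↔ Q t g := by
            rw [hQ, hQ]
            refine forall_congr' fun s => forall_congr' fun hs => ?_
            have e : (fun k => Function.update g (i, true) y (k, s k)) =
                fun k => g (k, s k) := by
              funext k
              rw [Function.update_of_ne]
              intro h
              have h3 := (Prod.mk.inj h)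
              rw [h3.1, hs i hi] at h3
              exact Bool.false_ne_true h3.2
            rw [e]
          simp only [this])
      have h2 : ∀ g : ι × Bool → V,
          (if Q t g then (1 : ℝ) else 0) *
            (if Q t (Function.update g (i, false) (g (i, true))) then (1 : ℝ) else 0) =
          if Q (insert i t) g then (1 : ℝ) else 0 := by
        intro g
        have h3 : Q (insert i t) g ↔ Q t g ∧
            Q t (Function.update g (i, false) (g (i, true))) := by
          rw [hQ, hQ, hQ]
          constructor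
          · intro h
            refine ⟨fun s hs => h s fun k hk => hs k fun h' => hk (Finset.mem_insert_of_mem h'),
              fun s hs => ?_⟩
            have h4 := h (Function.update s i true) (by
              intro k hk
              rw [Finset.mem_insert, not_or] at hk
              rw [Function.update_of_ne hk.1]
              exact hs k hk.2)
            have e : (fun k => g (k, Function.update s i true k)) =
                fun k => Function.update g (i, false) (g (i, true)) (k, s k) := by
              funext k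
              by_cases hk : k = i
              · subst hk
                rw [hs k hi, Function.update_self, Function.update_self]
              · rw [Function.update_of_ne hk, Function.update_of_ne]
                intro h'
                exact hk (Prod.mk.inj h').1
            rwa [e] at h4
          · rintro ⟨h4, h5⟩ s hs
            by_cases hsi : s i = false
            · apply h4
              intro k hk
              by_cases hki : k = i
              · rw [hki, hsi]
              · exact hs k (by rw [Finset.mem_insert, not_or]; exact ⟨hki, hk⟩)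
            · have hsi' : s i = true := by simpa using hsi
              have h6 := h5 (Function.update s i false) (by
                intro k hk
                by_cases hki : k = i
                · rw [hki, Function.update_self]
                · rw [Function.update_of_ne hki]
                  exact hs k (by rw [Finset.mem_insert, not_or]; exact ⟨hki, hk⟩))
              have e : (fun k => Function.update g (i, false) (g (i, true))
                  (k, Function.update s i false k)) = fun k => g (k, s k) := by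
                funext k
                by_cases hk : k = i
                · subst hk
                  rw [Function.update_self, Function.update_self, hsi']
                · rw [Function.update_of_ne hk, Function.update_of_ne]
                  intro h'
                  exact hk (Prod.mk.inj h').1
              rwa [e] at h6
        by_cases ha : Q t g
        · by_cases hb : Q t (Function.update g (i, false) (g (i, true)))
          · rw [if_pos ha, if_pos hb, if_pos (h3.2 ⟨ha, hb⟩), one_mul]
          · rw [if_neg hb, if_neg fun h => hb (h3.1 h).2, mul_zero]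
        · rw [if_neg ha, if_neg fun h => ha (h3.1 h).1, zero_mul]
      rw [Finset.sum_congr rfl fun g _ => h2 g] at h1
      calc (∑ f ∈ Fintype.piFinset c', if Q t f then (1 : ℝ) else 0) ^ 2 *
            ∏ z, ((c' z).card : ℝ)
          ≤ ((∏ z, ((c' z).card : ℝ)) *
            ∑ g ∈ Fintype.piFinset c', if Q (insert i t) g then (1 : ℝ) else 0) *
            ∏ z, ((c' z).card : ℝ) := mul_le_mul_of_nonneg_right h1 hpos.le
        _ = _ := by ring
  have h := key Finset.univ
  rw [Finset.card_univ] at h
  refine h.trans (le_of_eq ?_)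
  congr 1
  funext g
  apply propext
  rw [hQ]
  constructor
  · intro h' s
    exact h' s fun i hi => absurd (Finset.mem_univ i) hi
  · intro h' s _
    exact h' s

end Pool.Agent.KK.E.H94
end

/-! ### Helper92_KK.CHN -/
section
/-!
# KK row CHN: swap chains of length four
-/

set_option autoImplicit false

open scoped BigOperators

namespace Pool.Agent.KK.H92

section

variable {V : Type} [Fintype V] [DecidableEq V]

open Classical in
/-- ordered adjacent pairs in `A × B` -/
noncomputable def prs (S : V → V → Prop) (A B : Finset V) : Finset (V × V) :=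
  (A ×ˢ B).filter fun p => S p.1 p.2

theorem mem_prs {S : V → V → Prop} {A B : Finset V} {p : V × V} :
    p ∈ prs S A B ↔ p.1 ∈ A ∧ p.2 ∈ B ∧ S p.1 p.2 := by
  classical
  unfold prs
  rw [Finset.mem_filter, Finset.mem_product]
  exact ⟨fun h => ⟨h.1.1, h.1.2, h.2⟩, fun h => ⟨⟨h.1, h.2.1⟩, h.2.2⟩⟩

open Classical in
/-- neighbours in `B` -/
noncomputable def nin (S : V → V → Prop) (B : Finset V) (x : V) : Finset V :=
  B.filter fun y => S x y

theorem mem_nin {S : V → V → Prop} {B : Finset V} {x y : V} :
    y ∈ nin S B x ↔ y ∈ B ∧ S x y := by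
  classical
  unfold nin
  rw [Finset.mem_filter]

theorem card_prs (S : V → V → Prop) (A B : Finset V) :
    (prs S A B).card = ∑ x ∈ A, (nin S B x).card := by
  classical
  rw [← Finset.card_sigma]
  apply Finset.card_bij (fun p _ => (⟨p.1, p.2⟩ : (_ : V) × V))
  · rintro ⟨a, b⟩ h
    obtain ⟨h1, h2, h3⟩ := mem_prs.1 h
    exact Finset.mem_sigma.2 ⟨h1, mem_nin.2 ⟨h2, h3⟩⟩
  · rintro ⟨a, b⟩ _ ⟨a', b'⟩ _ h
    cases h
    rfl
  · rintro ⟨a, b⟩ h
    obtain ⟨h1, h2⟩ := Finset.mem_sigma.1 h
    obtain ⟨h3, h4⟩ := mem_nin.1 h2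
    exact ⟨(a, b), mem_prs.2 ⟨h1, h3, h4⟩, rfl⟩

/-- weak form of Mantel -/
theorem mantel {S : V → V → Prop}
    (hS : ∀ x y z, x ≠ y → y ≠ z → x ≠ z → S x y ∨ S y z ∨ S x z) (A : Finset V) :
    A.card ^ 2 ≤ 4 * (prs S A A).card + 4 * A.card := by
  classical
  rcases A.eq_empty_or_nonempty with hA | hA
  · rw [hA]
    simp
  obtain ⟨x₀, hx₀, hmax⟩ := Finset.exists_max_image A
    (fun x => (A.filter fun y => y ≠ x ∧ ¬ S x y).card) hA
  set B : Finset V := A.filter fun y => y ≠ x₀ ∧ ¬ S x₀ y with hB
  have hBA : B ⊆ A := Finset.filter_subset _ _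
  -- pairs inside B
  have h1 : B.offDiag.card ≤ (prs S A A).card := by
    apply Finset.card_le_card
    rintro ⟨a, b⟩ h
    rw [Finset.mem_offDiag] at h
    obtain ⟨ha, hb, hab⟩ := h
    rw [mem_prs]
    refine ⟨hBA ha, hBA hb, ?_⟩
    rw [hB, Finset.mem_filter] at ha hb
    rcases hS x₀ a b (Ne.symm ha.2.1) hab (Ne.symm hb.2.1) with h | h | h
    · exact absurd h ha.2.2
    · exact h
    · exact absurd h hb.2.2
  rw [Finset.offDiag_card] at h1
  -- degrees
  have h2 : ∀ x ∈ A, A.card ≤ (nin S A x).card + (1 + B.card) := by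
    intro x hx
    have h3 : A ⊆ nin S A x ∪ ({x} ∪ A.filter fun y => y ≠ x ∧ ¬ S x y) := by
      intro y hy
      rw [Finset.mem_union, Finset.mem_union, Finset.mem_singleton, Finset.mem_filter, mem_nin]
      by_cases h4 : S x y
      · exact Or.inl ⟨hy, h4⟩
      · by_cases h5 : y = x
        · exact Or.inr (Or.inl h5)
        · exact Or.inr (Or.inr ⟨hy, h5, h4⟩)
    refine le_trans (Finset.card_le_card h3) ?_
    refine le_trans (Finset.card_union_le _ _) ?_
    apply Nat.add_le_add_left
    refine le_trans (Finset.card_union_le _ _) ?_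
    rw [Finset.card_singleton]
    exact Nat.add_le_add_left (hmax x hx) 1
  have h3 : A.card * A.card ≤ (prs S A A).card + A.card * (1 + B.card) := by
    rw [card_prs]
    have h4 : ∑ x ∈ A, A.card ≤ ∑ x ∈ A, ((nin S A x).card + (1 + B.card)) :=
      Finset.sum_le_sum h2
    rw [Finset.sum_const, smul_eq_mul, Finset.sum_add_distrib, Finset.sum_const, smul_eq_mul] at h4
    exact h4
  set a := A.card
  set b := B.card
  set p := (prs S A A).card
  have h1' : b * b ≤ p + b := by omega
  by_cases hab : a ≤ 2 * b
  · nlinarith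
  · push Not at hab
    nlinarith

/-- counting triples -/
theorem triples {P : Finset (V × V)} {W : V × V → Finset V} {C : Set (V × V × V)} {r : ℝ}
    (h : ∀ p ∈ P, ∀ w ∈ W p, (p.1, p.2, w) ∈ C) (hr : ∀ p ∈ P, r ≤ ((W p).card : ℝ)) :
    (P.card : ℝ) * r ≤ (C.ncard : ℝ) := by
  classical
  have h1 : (P.sigma W).card ≤ C.ncard := by
    rw [Set.ncard_eq_toFinset_card' C]
    apply Finset.card_le_card_of_injOn (fun q => (q.1.1, q.1.2, q.2))
    · rintro ⟨p, w⟩ hq
      rw [Finset.mem_coe, Finset.mem_sigma] at hq
      rw [Finset.mem_coe, Set.mem_toFinset]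
      exact h p hq.1 w hq.2
    · rintro ⟨⟨a, b⟩, w⟩ _ ⟨⟨a', b'⟩, w'⟩ _ hq
      simp only [Prod.mk.injEq] at hq
      obtain ⟨h1, h2, h3⟩ := hq
      subst h1
      subst h2
      subst h3
      rfl
  have h2 : (P.card : ℝ) * r ≤ ((P.sigma W).card : ℝ) := by
    rw [Finset.card_sigma]
    push_cast
    rw [← nsmul_eq_mul]
    exact Finset.card_nsmul_le_sum _ _ _ hr
  refine le_trans h2 ?_
  exact_mod_cast h1

/-- **CHN** -/
theorem chn : ChnStmt := by
  classical
  intro δ κ hδ hδ1 hκ
  set κ' : ℝ := δ ^ 2 / 32 with hκ'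
  have hκ'0 : 0 < κ' := by positivity
  refine ⟨min (κ' ^ 3 / 64) (κ * δ / 8), ⌈16 / κ'⌉₊ + ⌈33 / δ ^ 2⌉₊ + ⌈2 / κ⌉₊ + ⌈8 / δ⌉₊ + 1, ?_, ?_⟩
  · exact lt_min (by positivity) (by positivity)
  intro V _ _ hn S hsym hthree hdeg hpart y z
  set n : ℝ := (Fintype.card V : ℝ) with hnn
  have hn' : ((⌈16 / κ'⌉₊ + ⌈33 / δ ^ 2⌉₊ + ⌈2 / κ⌉₊ + ⌈8 / δ⌉₊ + 1 : ℕ) : ℝ) ≤ n := by
    rw [hnn]
    exact_mod_cast hn
  push_cast at hn'
  have hc1 := Nat.le_ceil (16 / κ')
  have hc2 := Nat.le_ceil (33 / δ ^ 2)
  have hc3 := Nat.le_ceil (2 / κ)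
  have hc4 := Nat.le_ceil (8 / δ)
  have hp1 : (0 : ℝ) < 16 / κ' := by positivity
  have hp2 : (0 : ℝ) < 33 / δ ^ 2 := by positivity
  have hp3 : (0 : ℝ) < 2 / κ := by positivity
  have hp4 : (0 : ℝ) < 8 / δ := by positivity
  have hn0 : 0 < n := by linarith
  have hn1 : 16 ≤ κ' * n := by
    have : 16 / κ' ≤ n := by linarith
    rw [div_le_iff₀ hκ'0] at this
    linarith
  have hn2 : 33 ≤ δ ^ 2 * n := by
    have : 33 / δ ^ 2 ≤ n := by linarith
    rw [div_le_iff₀ (by positivity)] at this
    linarith
  have hn3 : 2 ≤ κ * n := by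
    have : 2 / κ ≤ n := by linarith
    rw [div_le_iff₀ hκ] at this
    linarith
  have hn4 : 8 ≤ δ * n := by
    have : 8 / δ ≤ n := by linarith
    rw [div_le_iff₀ hδ] at this
    linarith
  set Ny : Finset V := nin S Finset.univ y with hNy
  set Nz : Finset V := nin S Finset.univ z with hNz
  have hNmem : ∀ x v : V, v ∈ nin S Finset.univ x ↔ S x v := by
    intro x v
    rw [mem_nin]
    exact ⟨fun h => h.2, fun h => ⟨Finset.mem_univ _, h⟩⟩
  have hNcard : ∀ x : V, δ * n ≤ ((nin S Finset.univ x).card : ℝ) := by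
    intro x
    have h1 := hdeg x
    have h2 : {y | S x y}.ncard = (nin S Finset.univ x).card := by
      rw [← Set.ncard_coe_finset]
      apply congrArg Set.ncard
      ext v
      rw [Finset.mem_coe, hNmem]
      rfl
    rw [h2] at h1
    exact h1
  have hcardle : ∀ A : Finset V, (A.card : ℝ) ≤ n := by
    intro A
    rw [hnn]
    exact_mod_cast Finset.card_le_univ A
  by_cases hcase : κ' * n ^ 2 ≤ ((prs S Ny Nz).card : ℝ)
  · -- case A
    refine le_trans (mul_le_mul_of_nonneg_right (min_le_left _ _) (by positivity)) ?_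
    set A : Finset V := Ny.filter fun u => κ' * n / 2 ≤ ((nin S Nz u).card : ℝ) with hA
    have h1 : ((prs S Ny Nz).card : ℝ) ≤ A.card * n + n * (κ' * n / 2) := by
      rw [card_prs]
      push_cast
      have h2 : ∀ u ∈ Ny, ((nin S Nz u).card : ℝ) ≤ (if u ∈ A then n else 0) + κ' * n / 2 := by
        intro u hu
        by_cases huA : u ∈ A
        · rw [if_pos huA]
          have := hcardle (nin S Nz u)
          have : 0 ≤ κ' * n / 2 := by positivity
          linarith
        · rw [if_neg huA]
          have h3 : ¬ κ' * n / 2 ≤ ((nin S Nz u).card : ℝ) := by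
            intro h
            exact huA (Finset.mem_filter.2 ⟨hu, h⟩)
          push Not at h3
          linarith
      refine le_trans (Finset.sum_le_sum h2) ?_
      rw [Finset.sum_add_distrib, Finset.sum_ite_mem, Finset.sum_const, Finset.sum_const,
        nsmul_eq_mul, nsmul_eq_mul]
      have h3 : Ny ∩ A = A := Finset.inter_eq_right.2 (Finset.filter_subset _ _)
      rw [h3]
      have h4 : (Ny.card : ℝ) * (κ' * n / 2) ≤ n * (κ' * n / 2) :=
        mul_le_mul_of_nonneg_right (hcardle Ny) (by positivity)
      linarith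
    have hAc : κ' * n / 2 ≤ (A.card : ℝ) := by
      have h2 : κ' * n / 2 * n ≤ (A.card : ℝ) * n := by nlinarith
      exact le_of_mul_le_mul_right h2 hn0
    have h2 : ((A.card ^ 2 : ℕ) : ℝ) ≤ ((4 * (prs S A A).card + 4 * A.card : ℕ) : ℝ) := by
      exact_mod_cast mantel hthree A
    push_cast at h2
    have hA8 : (8 : ℝ) ≤ A.card := by linarith
    have h3 : (A.card : ℝ) ^ 2 / 8 ≤ ((prs S A A).card : ℝ) := by nlinarith
    have h4 := triples (P := prs S A A) (W := fun p => nin S Nz p.2)
      (C := {v : V × V × V | S y v.1 ∧ S v.1 v.2.1 ∧ S v.2.1 v.2.2 ∧ S v.2.2 z})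
      (r := κ' * n / 2) (by
        rintro ⟨v, u⟩ hp w hw
        obtain ⟨hv, hu, hvu⟩ := mem_prs.1 hp
        obtain ⟨hw1, hw2⟩ := mem_nin.1 hw
        refine ⟨?_, hvu, hw2, ?_⟩
        · exact (hNmem y v).1 (Finset.mem_of_mem_filter _ hv)
        · exact hsym _ _ ((hNmem z w).1 hw1)) (by
        rintro ⟨v, u⟩ hp
        obtain ⟨_, hu, _⟩ := mem_prs.1 hp
        exact (Finset.mem_filter.1 hu).2)
    refine le_trans ?_ h4
    have h5 : (κ' * n / 2) ^ 2 / 8 ≤ ((prs S A A).card : ℝ) := by
      refine le_trans ?_ h3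
      have h6 : 0 ≤ κ' * n / 2 := by positivity
      have h7 : (κ' * n / 2) ^ 2 ≤ (A.card : ℝ) ^ 2 := pow_le_pow_left₀ h6 hAc 2
      linarith
    have h6 : (κ' * n / 2) ^ 2 / 8 * (κ' * n / 2) ≤ ((prs S A A).card : ℝ) * (κ' * n / 2) :=
      mul_le_mul_of_nonneg_right h5 (by positivity)
    refine le_trans (le_of_eq ?_) h6
    ring
  · -- case B
    push Not at hcase
    refine le_trans (mul_le_mul_of_nonneg_right (min_le_right _ _) (by positivity)) ?_
    set I : Finset V := Ny ∩ Nz with hI
    have h1 : ((I.card ^ 2 : ℕ) : ℝ) ≤ ((4 * (prs S I I).card + 4 * I.card : ℕ) : ℝ) := by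
      exact_mod_cast mantel hthree I
    push_cast at h1
    have h2 : ((prs S I I).card : ℝ) ≤ ((prs S Ny Nz).card : ℝ) := by
      have : (prs S I I).card ≤ (prs S Ny Nz).card := by
        apply Finset.card_le_card
        intro p hp
        obtain ⟨ha, hb, hab⟩ := mem_prs.1 hp
        exact mem_prs.2 ⟨Finset.mem_of_mem_inter_left ha, Finset.mem_of_mem_inter_right hb, hab⟩
      exact_mod_cast this
    have hIc : (I.card : ℝ) < δ / 2 * n := by
      by_contra hcon
      push Not at hcon
      have h3 : (δ / 2 * n) ^ 2 ≤ (I.card : ℝ) ^ 2 := pow_le_pow_left₀ (by positivity) hcon 2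
      have h4 := hcardle I
      have h5 : (δ / 2 * n) ^ 2 ≤ 4 * (κ' * n ^ 2) + 4 * n := by linarith
      rw [hκ'] at h5
      have h6 : δ ^ 2 * n * n ≤ 32 * n := by nlinarith
      have h7 := le_of_mul_le_mul_right h6 hn0
      linarith
    set W : Finset V := Nz \ Ny with hW
    have hWc : δ / 2 * n ≤ (W.card : ℝ) := by
      have h3 : Nz.card ≤ W.card + I.card := by
        have h4 : Nz ⊆ W ∪ I := by
          intro v hv
          by_cases h5 : v ∈ Ny
          · exact Finset.mem_union_right _ (Finset.mem_inter.2 ⟨h5, hv⟩)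
          · exact Finset.mem_union_left _ (Finset.mem_sdiff.2 ⟨hv, h5⟩)
        exact le_trans (Finset.card_le_card h4) (Finset.card_union_le _ _)
      have h3' : (Nz.card : ℝ) ≤ W.card + I.card := by exact_mod_cast h3
      have h4 := hNcard z
      rw [← hNz] at h4
      linarith
    have h3 := hpart (Ny : Set V) (by
        rw [Set.ncard_coe_finset]
        have := hNcard y
        have h5 : 0 < δ * n := by positivity
        rw [← hNy] at this
        linarith) (by
        rw [← Finset.coe_compl, Set.ncard_coe_finset]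
        refine le_trans hWc ?_
        have : W.card ≤ (Nyᶜ).card := by
          apply Finset.card_le_card
          intro v hv
          rw [Finset.mem_compl]
          exact (Finset.mem_sdiff.1 hv).2
        exact_mod_cast this)
    have h4 : {p : V × V | p.1 ∈ (Ny : Set V) ∧ p.2 ∉ (Ny : Set V) ∧ S p.1 p.2}.ncard
        = (prs S Ny Nyᶜ).card := by
      rw [← Set.ncard_coe_finset]
      apply congrArg Set.ncard
      ext p
      rw [Finset.mem_coe, mem_prs, Finset.mem_compl]
      rfl
    rw [h4] at h3
    set P : Finset (V × V) := (prs S Ny Nyᶜ).filter fun p => p.2 ≠ y with hP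
    have hPc : κ * n ^ 2 - n ≤ (P.card : ℝ) := by
      have h5 : (prs S Ny Nyᶜ).card ≤ P.card + Fintype.card V := by
        have h6 : prs S Ny Nyᶜ ⊆ P ∪ (Finset.univ.image fun v : V => (v, y)) := by
          rintro ⟨a, b⟩ hp
          by_cases hb : b = y
          · apply Finset.mem_union_right
            rw [hb]
            exact Finset.mem_image_of_mem _ (Finset.mem_univ a)
          · apply Finset.mem_union_left
            exact Finset.mem_filter.2 ⟨hp, hb⟩
        refine le_trans (Finset.card_le_card h6) ?_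
        refine le_trans (Finset.card_union_le _ _) ?_
        apply Nat.add_le_add_left
        exact Finset.card_image_le
      have h5' : ((prs S Ny Nyᶜ).card : ℝ) ≤ P.card + n := by
        rw [hnn]
        exact_mod_cast h5
      linarith
    have h5 := triples (P := P) (W := fun p => (W.erase y).erase p.2)
      (C := {v : V × V × V | S y v.1 ∧ S v.1 v.2.1 ∧ S v.2.1 v.2.2 ∧ S v.2.2 z})
      (r := δ / 2 * n - 2) (by
        rintro ⟨u, v⟩ hp w hw
        obtain ⟨hp1, hvy⟩ := Finset.mem_filter.1 hp
        obtain ⟨hu, hv, huv⟩ := mem_prs.1 hp1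
        obtain ⟨hwv, hw2⟩ := Finset.mem_erase.1 hw
        obtain ⟨hwy, hw3⟩ := Finset.mem_erase.1 hw2
        obtain ⟨hwz, hwNy⟩ := Finset.mem_sdiff.1 hw3
        have hvN : ¬ S y v := by
          intro h
          exact (Finset.mem_compl.1 hv) ((hNmem y v).2 h)
        have hwN : ¬ S y w := by
          intro h
          exact hwNy ((hNmem y w).2 h)
        refine ⟨(hNmem y u).1 hu, huv, ?_, hsym _ _ ((hNmem z w).1 hwz)⟩
        rcases hthree y v w (Ne.symm hvy) (Ne.symm hwv) (Ne.symm hwy) with h | h | h
        · exact absurd h hvN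
        · exact h
        · exact absurd h hwN) (by
        rintro ⟨u, v⟩ _
        have h6 := Finset.pred_card_le_card_erase (s := W) (a := y)
        have h7 := Finset.pred_card_le_card_erase (s := W.erase y) (a := v)
        have h8 : W.card ≤ ((W.erase y).erase v).card + 2 := by omega
        have h8' : (W.card : ℝ) ≤ (((W.erase y).erase v).card : ℝ) + 2 := by exact_mod_cast h8
        simp only
        linarith)
    refine le_trans ?_ h5
    have h6 : κ * n ^ 2 / 2 ≤ (P.card : ℝ) := by nlinarith
    have h7 : δ * n / 4 ≤ δ / 2 * n - 2 := by linarith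
    have h8 : κ * n ^ 2 / 2 * (δ * n / 4) ≤ (P.card : ℝ) * (δ / 2 * n - 2) :=
      mul_le_mul h6 h7 (by positivity) (by positivity)
    refine le_trans (le_of_eq ?_) h8
    ring

end

end Pool.Agent.KK.H92
end

/-! ### Helper44_KK.RPL -/
section
/-! Row RPL of squad KK (MP_747bc0_co): replacing segments in a woven list. -/

set_option autoImplicit false

namespace Pool.Agent.KK.H44

set_option linter.unusedSectionVars false
variable {V : Type} [DecidableEq V]

theorem tight_infix {H : Finset (Finset V)} {k : ℕ} {l l' : List V} (h : l' <:+: l)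
    (ht : Tight H k l) : Tight H k l' :=
  fun s hs hl => ht s (hs.trans h) hl

/-- Gluing of tight lists along a common part of length at least `k - 1`. -/
theorem tight_glue {H : Finset (Finset V)} {k : ℕ} {u a v : List V} (hk : 1 ≤ k)
    (ha : k - 1 ≤ a.length) (h1 : Tight H k (u ++ a)) (h2 : Tight H k (a ++ v)) :
    Tight H k (u ++ a ++ v) := by
  intro s hs hl
  obtain ⟨x, y, hxy⟩ := hs
  -- `x ++ s ++ y = u ++ a ++ v`
  by_cases hx : u.length ≤ x.length
  · -- the window starts in `a ++ v`
    apply h2 s _ hl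
    have e : x = u ++ x.drop u.length := by
      have h3 : x.take u.length = u := by
        have h4 := congrArg (List.take u.length) hxy
        rw [List.append_assoc x s y, List.append_assoc u a v, List.take_append_of_le_length hx,
          List.take_append_of_le_length (le_refl _), List.take_length] at h4
        exact h4
      conv_lhs => rw [← List.take_append_drop u.length x, h3]
    rw [e, List.append_assoc u a v, List.append_assoc, List.append_assoc] at hxy
    have h5 := List.append_cancel_left hxy
    exact ⟨x.drop u.length, y, by rw [List.append_assoc]; exact h5⟩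
  · -- the window ends before the end of `a`
    push Not at hx
    apply h1 s _ hl
    have hlen : (x ++ s).length ≤ (u ++ a).length := by
      simp only [List.length_append]
      omega
    have h4 := congrArg (List.take (x ++ s).length) hxy
    rw [List.take_append_of_le_length (le_refl _), List.take_length,
      List.take_append_of_le_length hlen] at h4
    refine ⟨x, (u ++ a).drop (x ++ s).length, ?_⟩
    conv_rhs => rw [← List.take_append_drop (x ++ s).length (u ++ a)]
    rw [h4.symm]

theorem tight_ctx {H : Finset (Finset V)} {k : ℕ} {L R p q : List V} (hk : 1 ≤ k)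
    (hs : SameEnds (k - 1) p q) (_ : k - 1 ≤ p.length) (hq : k - 1 ≤ q.length)
    (hqt : Tight H k q) (h : Tight H k (L ++ p ++ R)) : Tight H k (L ++ q ++ R) := by
  obtain ⟨h1, h2⟩ := hs
  have hLa : Tight H k (L ++ q.take (k - 1)) := by
    apply tight_infix _ h
    rw [← h1]
    refine ⟨[], p.drop (k - 1) ++ R, ?_⟩
    simp only [List.nil_append, List.append_assoc]
    rw [← List.append_assoc (p.take (k - 1)), List.take_append_drop]
  have hbR : Tight H k (q.drop (q.length - (k - 1)) ++ R) := by
    apply tight_infix _ h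
    rw [← h2]
    refine ⟨L ++ p.take (p.length - (k - 1)), [], ?_⟩
    simp only [List.append_nil, List.append_assoc]
    rw [← List.append_assoc (p.take (p.length - (k - 1))), List.take_append_drop]
  have h3 : Tight H k (L ++ q) := by
    have h4 := tight_glue (u := L) (a := q.take (k - 1)) (v := q.drop (k - 1)) hk
      (by rw [List.length_take]; omega) hLa (by rw [List.take_append_drop]; exact hqt)
    rwa [List.append_assoc, List.take_append_drop] at h4
  have h5 := tight_glue (u := L ++ q.take (q.length - (k - 1)))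
    (a := q.drop (q.length - (k - 1))) (v := R) hk
    (by rw [List.length_drop]; omega)
    (by rw [List.append_assoc, List.take_append_drop]; exact h3) hbR
  rwa [List.append_assoc L, List.take_append_drop] at h5

theorem weave_ctx {H : Finset (Finset V)} {k : ℕ} (hk : 1 ≤ k) (R : List V) :
    ∀ (ps qs ws : List (List V)) (L : List V),
      List.Forall₂ (fun p q => SameEnds (k - 1) p q ∧ k - 1 ≤ p.length ∧ k - 1 ≤ q.length ∧
        Tight H k q) ps qs →
      Tight H k (L ++ weave ps ws ++ R) → Tight H k (L ++ weave qs ws ++ R) := by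
  intro ps
  induction ps with
  | nil =>
    intro qs ws L hf h
    rw [List.forall₂_nil_left_iff] at hf
    rw [hf]; exact h
  | cons p ps ih =>
    intro qs ws L hf h
    obtain ⟨q, qs', hpq, hf', rfl⟩ := List.forall₂_cons_left_iff.1 hf
    obtain ⟨h1, h2, h3, h4⟩ := hpq
    cases ps with
    | nil =>
      rw [List.forall₂_nil_left_iff] at hf'
      rw [hf']
      exact tight_ctx hk h1 h2 h3 h4 h
    | cons p2 ps =>
      obtain ⟨q2, qs2, hpq2, hf2, rfl⟩ := List.forall₂_cons_left_iff.1 hf'
      cases ws with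
      | nil =>
        simp only [weave] at h ⊢
        have e1 : L ++ (p ++ weave (p2 :: ps) []) ++ R = L ++ p ++ (weave (p2 :: ps) [] ++ R) := by
          simp only [List.append_assoc]
        rw [e1] at h
        have h5 := tight_ctx hk h1 h2 h3 h4 h
        have e2 : L ++ q ++ (weave (p2 :: ps) [] ++ R) = (L ++ q) ++ weave (p2 :: ps) [] ++ R := by
          simp only [List.append_assoc]
        rw [e2] at h5
        have h6 := ih (q2 :: qs2) [] (L ++ q) hf' h5
        have e3 : L ++ (q ++ weave (q2 :: qs2) []) ++ R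
            = (L ++ q) ++ weave (q2 :: qs2) [] ++ R := by
          simp only [List.append_assoc]
        rw [e3]; exact h6
      | cons w ws =>
        simp only [weave] at h ⊢
        have e1 : L ++ (p ++ w ++ weave (p2 :: ps) ws) ++ R
            = L ++ p ++ (w ++ weave (p2 :: ps) ws ++ R) := by
          simp only [List.append_assoc]
        rw [e1] at h
        have h5 := tight_ctx hk h1 h2 h3 h4 h
        have e2 : L ++ q ++ (w ++ weave (p2 :: ps) ws ++ R)
            = (L ++ q ++ w) ++ weave (p2 :: ps) ws ++ R := by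
          simp only [List.append_assoc]
        rw [e2] at h5
        have h6 := ih (q2 :: qs2) ws (L ++ q ++ w) hf' h5
        have e3 : L ++ (q ++ w ++ weave (q2 :: qs2) ws) ++ R
            = (L ++ q ++ w) ++ weave (q2 :: qs2) ws ++ R := by
          simp only [List.append_assoc]
        rw [e3]; exact h6

theorem weave_cons (p : List V) (ps ws : List (List V)) :
    ∃ X : List V, weave (p :: ps) ws = p ++ X := by
  cases ps with
  | nil => exact ⟨[], by simp [weave]⟩
  | cons p2 ps =>
    cases ws with
    | nil => exact ⟨weave (p2 :: ps) [], by simp [weave]⟩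
    | cons w ws => exact ⟨w ++ weave (p2 :: ps) ws, by simp [weave, List.append_assoc]⟩

theorem drop_last_append {r : ℕ} (X Y : List V) (h : r ≤ Y.length) :
    (X ++ Y).drop ((X ++ Y).length - r) = Y.drop (Y.length - r) := by
  have e : (X ++ Y).length - r = X.length + (Y.length - r) := by
    rw [List.length_append]; omega
  rw [e, ← List.drop_drop, List.drop_left]

theorem weave_length {r : ℕ} :
    ∀ (ps ws : List (List V)), ps ≠ [] → (∀ p ∈ ps, r ≤ p.length) →
      r ≤ (weave ps ws).length := by
  intro ps ws h0 h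
  cases ps with
  | nil => exact absurd rfl h0
  | cons p ps =>
    obtain ⟨X, hX⟩ := weave_cons p ps ws
    rw [hX, List.length_append]
    have := h p (List.mem_cons_self ..)
    omega

theorem weave_drop {r : ℕ} :
    ∀ (ps qs ws : List (List V)), ps ≠ [] →
      List.Forall₂ (fun p q : List V => SameEnds r p q ∧ r ≤ p.length ∧ r ≤ q.length) ps qs →
      (weave ps ws).drop ((weave ps ws).length - r) =
        (weave qs ws).drop ((weave qs ws).length - r) := by
  intro ps
  induction ps with
  | nil => intro qs ws h; exact absurd rfl h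
  | cons p ps ih =>
    intro qs ws _ hf
    obtain ⟨q, qs', hpq, hf', rfl⟩ := List.forall₂_cons_left_iff.1 hf
    obtain ⟨h1, h2, h3⟩ := hpq
    cases ps with
    | nil =>
      rw [List.forall₂_nil_left_iff] at hf'
      rw [hf']
      simp only [weave]
      exact h1.2
    | cons p2 ps =>
      obtain ⟨q2, qs2, hpq2, hf2, rfl⟩ := List.forall₂_cons_left_iff.1 hf'
      have hlen1 : ∀ p ∈ p2 :: ps, r ≤ p.length := by
        intro x hx
        obtain ⟨n, hn, hn'⟩ := List.mem_iff_getElem.1 hx
        have := (List.forall₂_iff_get.1 hf').2 n hn (by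
          rw [← (List.forall₂_iff_get.1 hf').1]; exact hn)
        rw [← hn']
        exact this.2.1
      have hlen2 : ∀ p ∈ q2 :: qs2, r ≤ p.length := by
        intro x hx
        obtain ⟨n, hn, hn'⟩ := List.mem_iff_getElem.1 hx
        have := (List.forall₂_iff_get.1 hf').2 n (by
          rw [(List.forall₂_iff_get.1 hf').1]; exact hn) hn
        rw [← hn']
        exact this.2.2
      cases ws with
      | nil =>
        simp only [weave]
        rw [drop_last_append _ _ (weave_length _ _ (by simp) hlen1),
          drop_last_append _ _ (weave_length _ _ (by simp) hlen2)]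
        exact ih (q2 :: qs2) [] (by simp) hf'
      | cons w ws =>
        simp only [weave]
        rw [drop_last_append _ _ (weave_length _ _ (by simp) hlen1),
          drop_last_append _ _ (weave_length _ _ (by simp) hlen2)]
        exact ih (q2 :: qs2) ws (by simp) hf'

theorem weave_take {r : ℕ} (ps qs ws : List (List V)) (h0 : ps ≠ [])
    (hf : List.Forall₂ (fun p q : List V => SameEnds r p q ∧ r ≤ p.length ∧ r ≤ q.length) ps qs) :
    (weave ps ws).take r = (weave qs ws).take r := by
  cases ps with
  | nil => exact absurd rfl h0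
  | cons p ps =>
    obtain ⟨q, qs', hpq, hf', rfl⟩ := List.forall₂_cons_left_iff.1 hf
    obtain ⟨h1, h2, h3⟩ := hpq
    obtain ⟨X, hX⟩ := weave_cons p ps ws
    obtain ⟨Y, hY⟩ := weave_cons q qs' ws
    rw [hX, hY, List.take_append_of_le_length h2, List.take_append_of_le_length h3]
    exact h1.1

theorem rpl : RplStmt := by
  intro k V _ _ H hk ps qs ws h0 hf
  have hf' : List.Forall₂ (fun p q : List V => SameEnds (k - 1) p q ∧ k - 1 ≤ p.length ∧
      k - 1 ≤ q.length) ps qs := hf.imp (fun p q h => ⟨h.1, h.2.1, h.2.2.1⟩)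
  have hk1 : 1 ≤ k := by omega
  refine ⟨fun h => ⟨?_, weave_take ps qs ws h0 hf', weave_drop ps qs ws h0 hf'⟩, fun e h => ?_⟩
  · have := weave_ctx hk1 [] ps qs ws [] hf (by simpa using h)
    simpa using this
  · rw [← weave_take ps qs ws h0 hf']
    have := weave_ctx hk1 (e ++ (weave ps ws).take (k - 1)) ps qs ws [] hf
      (by simpa [List.append_assoc] using h)
    simpa [List.append_assoc] using this

end Pool.Agent.KK.H44
end

/-! ### Helper44_KK.GRJ -/
section
/-! Row GRJ of squad KK (MP_747bc0_co): greedy joining. -/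

set_option autoImplicit false

namespace Pool.Agent.KK.H44

variable {V : Type} [Fintype V] [DecidableEq V]

/-- Number of functions `Fin m → V` which meet `Z`. -/
theorem meet_card (m : ℕ) (Z : Finset V) :
    ({w : Fin m → V | ∃ i, w i ∈ Z}.ncard : ℝ) * Fintype.card V ≤
      m * Z.card * (Fintype.card V : ℝ) ^ m := by
  classical
  have h1 : {w : Fin m → V | ∃ i, w i ∈ Z} ⊆
      ((Finset.univ : Finset (Fin m)).biUnion fun i =>
        Fintype.piFinset (fun j => if j = i then Z else Finset.univ) : Finset (Fin m → V)) := by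
    intro w hw
    obtain ⟨i, hi⟩ := hw
    simp only [Finset.coe_biUnion, Set.mem_iUnion, Finset.mem_coe, Fintype.mem_piFinset]
    refine ⟨i, Finset.mem_univ _, fun j => ?_⟩
    by_cases h : j = i
    · subst h; simpa using hi
    · simp [h]
  have h2 := Set.ncard_le_ncard h1 (Finset.finite_toSet _)
  rw [Set.ncard_coe_finset] at h2
  have h3 : ((Finset.univ : Finset (Fin m)).biUnion fun i =>
        Fintype.piFinset (fun j => if j = i then Z else (Finset.univ : Finset V))).card
        * Fintype.card V ≤ m * Z.card * Fintype.card V ^ m := by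
    calc _ ≤ (∑ i : Fin m, (Fintype.piFinset
          (fun j => if j = i then Z else (Finset.univ : Finset V))).card) * Fintype.card V :=
          Nat.mul_le_mul_right _ Finset.card_biUnion_le
      _ = ∑ i : Fin m, (Fintype.piFinset
          (fun j => if j = i then Z else (Finset.univ : Finset V))).card * Fintype.card V := by
          rw [Finset.sum_mul]
      _ = ∑ i : Fin m, Z.card * Fintype.card V ^ m := by
          apply Finset.sum_congr rfl
          intro i _
          rw [Fintype.card_piFinset]
          have hm : m = (m - 1) + 1 := by have := i.2; omega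
          rw [← Finset.mul_prod_erase Finset.univ _ (Finset.mem_univ i)]
          simp only [if_true]
          have h5 : ∏ j ∈ Finset.univ.erase i, (if j = i then Z else (Finset.univ : Finset V)).card
              = Fintype.card V ^ (m - 1) := by
            rw [Finset.prod_congr rfl (g := fun _ => Fintype.card V)]
            · rw [Finset.prod_const, Finset.card_erase_of_mem (Finset.mem_univ i)]
              simp
            · intro j hj
              rw [if_neg (Finset.ne_of_mem_erase hj), Finset.card_univ]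
          rw [h5, mul_assoc, ← pow_succ, ← hm]
      _ = _ := by simp [mul_assoc]
  have h4 : ({w : Fin m → V | ∃ i, w i ∈ Z}.ncard) * Fintype.card V ≤
      m * Z.card * Fintype.card V ^ m := (Nat.mul_le_mul_right _ h2).trans h3
  exact_mod_cast h4

/-- One connector avoiding `Z`. -/
theorem connect {H : Finset (Finset V)} {k m : ℕ} {c : ℝ} {a b : List V} (Z : Finset V)
    (hc : 0 < c) (h : c * (Fintype.card V : ℝ) ^ m ≤ con H k m a b)
    (hZ : (m : ℝ) * Z.card < c * Fintype.card V) :
    ∃ w : List V, w.length = m ∧ (∀ v ∈ w, v ∉ Z) ∧ Path H k (a ++ w ++ b) := by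
  have hn : (0 : ℝ) < Fintype.card V := by
    by_contra hcon
    have h0 : (Fintype.card V : ℝ) = 0 := le_antisymm (not_lt.1 hcon) (Nat.cast_nonneg _)
    rw [h0, mul_zero] at hZ
    have : (0 : ℝ) ≤ (m : ℝ) * Z.card := by positivity
    linarith
  by_contra hcon
  push Not at hcon
  have hsub : {w : Fin m → V | Path H k (a ++ List.ofFn w ++ b)} ⊆
      {w : Fin m → V | ∃ i, w i ∈ Z} := by
    intro w hw
    by_contra hw2
    simp only [Set.mem_setOf_eq, not_exists] at hw2
    refine hcon (List.ofFn w) (by simp) ?_ hw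
    intro v hv
    rw [List.mem_ofFn] at hv
    obtain ⟨i, rfl⟩ := hv
    exact hw2 i
  have h1 : (con H k m a b : ℝ) ≤ ({w : Fin m → V | ∃ i, w i ∈ Z}.ncard : ℝ) := by
    exact_mod_cast Set.ncard_le_ncard hsub (Set.toFinite _)
  have h2 := meet_card m Z
  have h3 : c * (Fintype.card V : ℝ) ^ m * Fintype.card V ≤
      m * Z.card * (Fintype.card V : ℝ) ^ m := by
    refine le_trans ?_ h2
    exact mul_le_mul_of_nonneg_right (h.trans h1) hn.le
  have h4 : (0 : ℝ) < (Fintype.card V : ℝ) ^ m := pow_pos hn m
  have h5 : (m : ℝ) * Z.card * (Fintype.card V : ℝ) ^ m <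
      c * Fintype.card V * (Fintype.card V : ℝ) ^ m := mul_lt_mul_of_pos_right hZ h4
  linarith

theorem card_toFinset_le (l : List V) : (l.toFinset.card : ℝ) ≤ l.length := by
  exact_mod_cast l.toFinset_card_le

theorem flatten_length_le (M : ℕ) : ∀ ws : List (List V), (∀ w ∈ ws, w.length ≤ M) →
    ws.flatten.length ≤ M * ws.length := by
  intro ws
  induction ws with
  | nil => intro _; simp
  | cons w ws ih =>
    intro h
    have h1 := ih (fun x hx => h x (List.mem_cons_of_mem _ hx))
    have h2 := h w (List.mem_cons_self ..)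
    simp only [List.flatten_cons, List.length_append, List.length_cons]
    nlinarith

/-- Joining two segments by a connector. -/
theorem seg_join {H : Finset (Finset V)} {k : ℕ} {T : Set (List V)} {p w q : List V}
    (hk : 2 ≤ k) (hp : Seg H k T T p) (hq : Seg H k T T q) (hn : (p ++ w ++ q).Nodup)
    (h : Tight H k (p.drop (p.length - (k - 1)) ++ w ++ q.take (k - 1))) :
    Seg H k T T (p ++ w ++ q) := by
  obtain ⟨⟨hpn, hpt⟩, hpl, hp1, hp2⟩ := hp
  obtain ⟨⟨hqn, hqt⟩, hql, hq1, hq2⟩ := hq
  have hk1 : 1 ≤ k := by omega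
  refine ⟨⟨hn, ?_⟩, ?_, ?_, ?_⟩
  · -- tightness
    have h1 := tight_glue (u := p.take (p.length - (k - 1)))
      (a := p.drop (p.length - (k - 1))) (v := w ++ q.take (k - 1)) hk1
      (by rw [List.length_drop]; omega)
      (by rw [List.take_append_drop]; exact hpt)
      (by rw [← List.append_assoc]; exact h)
    rw [List.take_append_drop] at h1
    have h2 := tight_glue (u := p ++ w) (a := q.take (k - 1)) (v := q.drop (k - 1)) hk1
      (by rw [List.length_take]; omega)
      (by rw [List.append_assoc]; exact h1)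
      (by rw [List.take_append_drop]; exact hqt)
    rwa [List.append_assoc, List.take_append_drop] at h2
  · simp only [List.length_append]; omega
  · rw [List.append_assoc, List.take_append_of_le_length hpl]; exact hp1
  · rw [drop_last_append _ _ hql]; exact hq2

theorem grj_aux (k M : ℕ) (c : ℝ) (H : Finset (Finset V)) (T : Set (List V)) (hk : 2 ≤ k)
    (hc : 0 < c) (hJ : Joins H k T c M) :
    ∀ (ps : List (List V)) (W : Finset V), ps ≠ [] → (∀ p ∈ ps, Seg H k T T p) →
      ps.flatten.Nodup →
      (M : ℝ) * (W.card + ps.flatten.length + M * ps.length) < c * Fintype.card V →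
      ∃ ws : List (List V), ws.length + 1 = ps.length ∧ (∀ w ∈ ws, w.length ≤ M) ∧
        (∀ w ∈ ws, ∀ v ∈ w, v ∉ W) ∧ (ps.flatten ++ ws.flatten).Nodup ∧
        (weave ps ws).Perm (ps.flatten ++ ws.flatten) ∧ Seg H k T T (weave ps ws) := by
  intro ps
  induction ps with
  | nil => intro W h; exact absurd rfl h
  | cons p ps ih =>
    intro W _ hseg hnd hM
    cases ps with
    | nil =>
      refine ⟨[], by simp, by simp, by simp, by simpa using hnd, by simp [weave], ?_⟩
      simp only [weave]
      exact hseg p (List.mem_cons_self ..)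
    | cons p2 ps =>
      have hnd' : p.Nodup ∧ (p2 :: ps).flatten.Nodup ∧ p.Disjoint (p2 :: ps).flatten := by
        rw [List.flatten_cons] at hnd
        exact List.nodup_append'.1 hnd
      obtain ⟨hn1, hn2, hn3⟩ := hnd'
      have hlen : ((p :: p2 :: ps).flatten.length : ℝ) = p.length + (p2 :: ps).flatten.length := by
        rw [List.flatten_cons, List.length_append]; push_cast; ring
      have hcw : ((W ∪ p.toFinset).card : ℝ) ≤ W.card + p.length := by
        have h1 : ((W ∪ p.toFinset).card : ℝ) ≤ W.card + p.toFinset.card := by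
          exact_mod_cast Finset.card_union_le _ _
        have h2 := card_toFinset_le p
        linarith
      have hM0 : (0 : ℝ) ≤ M := Nat.cast_nonneg _
      obtain ⟨ws, hw1, hw2, hw3, hw4, hw5, hw6⟩ := ih (W ∪ p.toFinset) (by simp)
        (fun x hx => hseg x (List.mem_cons_of_mem _ hx)) hn2 (by
          refine lt_of_le_of_lt ?_ hM
          apply mul_le_mul_of_nonneg_left _ hM0
          rw [hlen]
          have h3 : (((p2 :: ps).length : ℕ) : ℝ) ≤ ((p :: p2 :: ps).length : ℕ) := by
            exact_mod_cast Nat.le_succ _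
          have h4 := mul_le_mul_of_nonneg_left h3 hM0
          linarith)
      set Q := weave (p2 :: ps) ws with hQ
      have hp := hseg p (List.mem_cons_self ..)
      -- disjointness of `p` and `Q`
      have hpw : p.Disjoint ws.flatten := by
        intro v hv hv2
        obtain ⟨w, hw, hvw⟩ := List.mem_flatten.1 hv2
        exact hw3 w hw v hvw (Finset.mem_union_right _ (List.mem_toFinset.2 hv))
      have hpQ : p.Disjoint Q := by
        intro v hv hv2
        rw [hw5.mem_iff, List.mem_append] at hv2
        rcases hv2 with h | h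
        · exact hn3 hv h
        · exact hpw hv h
      have hab : (p.drop (p.length - (k - 1))).Disjoint (Q.take (k - 1)) :=
        fun v hv hv2 => hpQ (List.mem_of_mem_drop hv) (List.mem_of_mem_take hv2)
      obtain ⟨m, hm, hcon⟩ := hJ _ hp.2.2.2 _ hw6.2.2.1 hab
      have hQlen : (Q.length : ℝ) ≤ (p2 :: ps).flatten.length + M * ws.length := by
        rw [hw5.length_eq, List.length_append]
        have := flatten_length_le M ws hw2
        exact_mod_cast Nat.add_le_add_left this _
      obtain ⟨w, hwl, hwZ, hwp⟩ := connect (W ∪ p.toFinset ∪ Q.toFinset) hc hcon (by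
        refine lt_of_le_of_lt ?_ hM
        have h1 : ((W ∪ p.toFinset ∪ Q.toFinset).card : ℝ) ≤
            (W ∪ p.toFinset).card + Q.toFinset.card := by
          exact_mod_cast Finset.card_union_le _ _
        have h2 := card_toFinset_le Q
        have h3 : (m : ℝ) ≤ M := by exact_mod_cast hm
        have h4 : (((p :: p2 :: ps).length : ℕ) : ℝ) = ws.length + 1 + 1 := by
          rw [List.length_cons, ← hw1]; push_cast; ring
        have h5 : ((W ∪ p.toFinset ∪ Q.toFinset).card : ℝ) ≤
            W.card + (p :: p2 :: ps).flatten.length + M * (p :: p2 :: ps).length := by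
          rw [hlen, h4]; nlinarith
        exact mul_le_mul h3 h5 (Nat.cast_nonneg _) hM0)
      have hwW : ∀ v ∈ w, v ∉ W ∧ v ∉ p ∧ v ∉ Q := by
        intro v hv
        have h := hwZ v hv
        simp only [Finset.mem_union, List.mem_toFinset, not_or] at h
        exact ⟨h.1.1, h.1.2, h.2⟩
      have hwn : w.Nodup := by
        have h := hwp.1
        exact ((List.nodup_append'.1 (List.nodup_append'.1 h).1).2.1)
      have hall : (p ++ w ++ Q).Nodup := by
        rw [List.nodup_append', List.nodup_append']
        refine ⟨⟨hn1, hwn, fun v hv hv2 => (hwW v hv2).2.1 hv⟩, hw6.1.1, ?_⟩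
        intro v hv hv2
        rcases List.mem_append.1 hv with h | h
        · exact hpQ h hv2
        · exact (hwW v h).2.2 hv2
      have hperm : (weave (p :: p2 :: ps) (w :: ws)).Perm
          ((p :: p2 :: ps).flatten ++ (w :: ws).flatten) := by
        simp only [weave]
        rw [List.flatten_cons (l := p), List.flatten_cons (l := w)]
        have h1 : (p ++ w ++ Q).Perm (p ++ w ++ ((p2 :: ps).flatten ++ ws.flatten)) :=
          List.Perm.append_left _ hw5
        refine h1.trans ?_
        rw [List.append_assoc, List.append_assoc]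
        apply List.Perm.append_left
        rw [← List.append_assoc, ← List.append_assoc]
        exact List.Perm.append_right _ List.perm_append_comm
      refine ⟨w :: ws, by simp only [List.length_cons] at hw1 ⊢; omega, ?_, ?_, ?_, hperm, ?_⟩
      · intro x hx
        rcases List.mem_cons.1 hx with rfl | hx
        · omega
        · exact hw2 x hx
      · intro x hx v hv
        rcases List.mem_cons.1 hx with rfl | hx
        · exact (hwW v hv).1
        · exact fun hvW => hw3 x hx v hv (Finset.mem_union_left _ hvW)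
      · rw [← hperm.nodup_iff]
        simp only [weave]
        exact hall
      · simp only [weave]
        exact seg_join hk hp hw6 hall hwp.2

theorem grj : GrjStmt := by
  intro k M c V _ _ H T hk hc _ hJ ps W h0 hseg hnd hM
  exact grj_aux k M c H T hk hc hJ ps W h0 hseg hnd hM

end Pool.Agent.KK.H44
end

/-! ### Helper41_KK.ABS0 -/
section
/-!
# Squad KK, row ABS, part 1: lists, multisets, greedy choice
-/

set_option autoImplicit false

namespace Pool.Agent.KK.H41

variable {V : Type}

/-- the multiset of the entries -/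
def ms (P : List (List V)) : Multiset V := (P.flatten : Multiset V)

theorem ms_nil : ms ([] : List (List V)) = 0 := rfl

theorem ms_cons (p : List V) (P : List (List V)) : ms (p :: P) = (p : Multiset V) + ms P := by
  unfold ms
  rw [List.flatten_cons, Multiset.coe_add]

theorem ms_append (P Q : List (List V)) : ms (P ++ Q) = ms P + ms Q := by
  unfold ms
  rw [List.flatten_append, Multiset.coe_add]

theorem ms_flatMap {α : Type} (l : List α) (f : α → List (List V)) :
    ms (l.flatMap f) = (l.map fun a => ms (f a)).sum := by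
  induction l with
  | nil => rfl
  | cons a l ih => rw [List.flatMap_cons, ms_append, ih, List.map_cons, List.sum_cons]

theorem ms_ofFn {q : ℕ} (A : Fin q → List V) : ms (List.ofFn A) = ∑ i, (A i : Multiset V) := by
  induction q with
  | zero => rw [List.ofFn_zero]; rfl
  | succ q ih => rw [List.ofFn_succ, ms_cons, ih, Fin.sum_univ_succ]

theorem split_cls {q : ℕ} (R : List V → List V → Prop) (cls : List V → Fin q)
    (P P' : List (List V)) (h : List.Forall₂ R P P') :
    ∃ qs : Fin q → List (List V),
      (∀ i, List.Forall₂ R (P.filter fun p => cls p = i) (qs i)) ∧ ∑ i, ms (qs i) = ms P' := by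
  induction h with
  | nil =>
      refine ⟨fun _ => [], fun i => ?_, ?_⟩
      · exact List.Forall₂.nil
      · rw [ms_nil]
        exact Finset.sum_eq_zero fun i _ => rfl
  | @cons a b P P' hab h ih =>
      obtain ⟨qs, h1, h2⟩ := ih
      refine ⟨fun i => if cls a = i then b :: qs i else qs i, fun i => ?_, ?_⟩
      · by_cases hi : cls a = i
        · rw [List.filter_cons_of_pos (by simpa using hi)]
          simp only [if_pos hi]
          exact List.Forall₂.cons hab (h1 i)
        · rw [List.filter_cons_of_neg (by simpa using hi)]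
          simp only [if_neg hi]
          exact h1 i
      · have h3 : ∀ i, ms (if cls a = i then b :: qs i else qs i) =
            (if cls a = i then (b : Multiset V) else 0) + ms (qs i) := by
          intro i
          by_cases hi : cls a = i
          · rw [if_pos hi, if_pos hi, ms_cons]
          · rw [if_neg hi, if_neg hi, zero_add]
        rw [ms_cons, ← h2, Finset.sum_congr rfl fun i _ => h3 i, Finset.sum_add_distrib,
          Finset.sum_ite_eq, if_pos (Finset.mem_univ _)]

/-- greedy choice of objects with disjoint supports -/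
theorem greedy [DecidableEq V] {α : Type} [Nonempty α] {q : ℕ} (vx : α → Finset V)
    (P : Fin q → α → Prop) (b : ℕ) (Z0 : Finset V)
    (h : ∀ i (Z : Finset V), Z0 ⊆ Z → Z.card ≤ Z0.card + q * b →
      ∃ x, P i x ∧ (vx x).card ≤ b ∧ Disjoint (vx x) Z) :
    ∃ x : Fin q → α, (∀ i, P i (x i) ∧ (vx (x i)).card ≤ b ∧ Disjoint (vx (x i)) Z0) ∧
      ∀ i j, i ≠ j → Disjoint (vx (x i)) (vx (x j)) := by
  classical
  have key : ∀ s : Finset (Fin q), ∃ x : Fin q → α,
      (∀ i ∈ s, P i (x i) ∧ (vx (x i)).card ≤ b ∧ Disjoint (vx (x i)) Z0) ∧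
      ∀ i ∈ s, ∀ j ∈ s, i ≠ j → Disjoint (vx (x i)) (vx (x j)) := by
    intro s
    induction s using Finset.induction_on with
    | empty =>
        exact ⟨fun _ => Classical.arbitrary α, fun i hi => absurd hi (Finset.notMem_empty _),
          fun i hi => absurd hi (Finset.notMem_empty _)⟩
    | insert a s ha ih =>
        obtain ⟨x, h1, h2⟩ := ih
        let Z : Finset V := Z0 ∪ s.biUnion fun i => vx (x i)
        have hZ : Z.card ≤ Z0.card + q * b := by
          refine (Finset.card_union_le _ _).trans (Nat.add_le_add_left ?_ _)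
          refine (Finset.card_biUnion_le_card_mul s _ b fun i hi => (h1 i hi).2.1).trans ?_
          apply Nat.mul_le_mul_right
          calc s.card ≤ (Finset.univ : Finset (Fin q)).card := Finset.card_le_univ s
            _ = q := by rw [Finset.card_univ, Fintype.card_fin]
        obtain ⟨y, hy1, hy2, hy3⟩ := h a Z Finset.subset_union_left hZ
        refine ⟨Function.update x a y, ?_, ?_⟩
        · intro i hi
          rcases Finset.mem_insert.1 hi with rfl | hi
          · rw [Function.update_self]
            exact ⟨hy1, hy2, Finset.disjoint_of_subset_right Finset.subset_union_left hy3⟩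
          · have hne : i ≠ a := fun h => ha (h ▸ hi)
            rw [Function.update_of_ne hne]
            exact h1 i hi
        · have hyd : ∀ i ∈ s, Disjoint (vx y) (vx (x i)) := fun i hi =>
            Finset.disjoint_of_subset_right ((Finset.subset_biUnion_of_mem
              (fun i => vx (x i)) hi).trans Finset.subset_union_right) hy3
          intro i hi j hj hij
          rcases Finset.mem_insert.1 hi with rfl | hi
          · rcases Finset.mem_insert.1 hj with rfl | hj
            · exact absurd rfl hij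
            · rw [Function.update_self, Function.update_of_ne (Ne.symm hij)]
              exact hyd j hj
          · have hne : i ≠ a := fun h => ha (h ▸ hi)
            by_cases hja : j = a
            · rw [hja, Function.update_self, Function.update_of_ne hne]
              exact (hyd i hi).symm
            · have hj' : j ∈ s := (Finset.mem_insert.1 hj).resolve_left hja
              rw [Function.update_of_ne hne, Function.update_of_ne hja]
              exact h2 i hi j hj' hij
  obtain ⟨x, h1, h2⟩ := key Finset.univ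
  exact ⟨x, fun i => h1 i (Finset.mem_univ _), fun i j => h2 i (Finset.mem_univ _) j
    (Finset.mem_univ _)⟩

theorem weave_ms : ∀ (ps ws : List (List V)), ws.length + 1 = ps.length →
    (weave ps ws : Multiset V) = ms ps + ms ws
  | [], ws, h => by simp at h
  | [p], ws, h => by
      have h1 : ws = [] := by
        apply List.eq_nil_of_length_eq_zero
        simpa using h
      rw [h1, ms_cons, ms_nil]
      simp [weave]
  | p :: q :: ps, [], h => by simp at h
  | p :: q :: ps, w :: ws, h => by
      have h1 : ws.length + 1 = (q :: ps).length := by simpa using h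
      have h2 := weave_ms (q :: ps) ws h1
      rw [weave, ms_cons, ms_cons w, ← Multiset.coe_add, ← Multiset.coe_add, h2]
      abel

/-- absorbing the lists one after the other -/
theorem abs_map {α : Type} [DecidableEq α] (F : Finset α) (sp : α → List (List V))
    (R : List V → List V → Prop) (GR : α → List V → Prop)
    (hG : ∀ u y, GR u y → ∃ Q, List.Forall₂ R (sp u) Q ∧ ms Q = ms (sp u) + (y : Multiset V))
    (hR : ∀ u ∈ F, List.Forall₂ R (sp u) (sp u)) (N : ℕ) :
    ∀ ys : List (List V), ys.length ≤ N →
      (∀ y ∈ ys, ∀ U : Finset α, U.card < N → ∃ u ∈ F, u ∉ U ∧ GR u y) →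
      ∃ (Qm : α → List (List V)) (U : Finset α), U.card ≤ ys.length ∧ (∀ u, u ∉ U → Qm u = sp u) ∧
        (∀ u ∈ F, List.Forall₂ R (sp u) (Qm u)) ∧
        ∑ u ∈ F, ms (Qm u) = ∑ u ∈ F, ms (sp u) + ms ys := by
  intro ys
  induction ys with
  | nil =>
      intro _ _
      exact ⟨sp, ∅, by simp, fun u _ => rfl, hR, by rw [ms_nil, add_zero]⟩
  | cons y ys ih =>
      intro hN hys
      rw [List.length_cons] at hN
      obtain ⟨Qm, U, h1, h2, h3, h4⟩ := ih (by omega) fun y hy =>
        hys y (List.mem_cons_of_mem _ hy)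
      obtain ⟨u, hu, huU, hg⟩ := hys y List.mem_cons_self U (by omega)
      obtain ⟨Q, hQ1, hQ2⟩ := hG u y hg
      refine ⟨Function.update Qm u Q, insert u U, ?_, ?_, ?_, ?_⟩
      · rw [List.length_cons]
        exact (Finset.card_insert_le _ _).trans (by omega)
      · intro v hv
        rw [Finset.mem_insert, not_or] at hv
        rw [Function.update_of_ne hv.1]
        exact h2 v hv.2
      · intro v hv
        by_cases hvu : v = u
        · rw [hvu, Function.update_self]
          exact hQ1
        · rw [Function.update_of_ne hvu]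
          exact h3 v hv
      · have h5 : ∀ v, ms (Function.update Qm u Q v) =
            Function.update (fun v => ms (Qm v)) u (ms Q) v := by
          intro v
          by_cases hvu : v = u
          · rw [hvu, Function.update_self, Function.update_self]
          · rw [Function.update_of_ne hvu, Function.update_of_ne hvu]
        rw [Finset.sum_congr rfl fun v _ => h5 v, Finset.sum_update_of_mem hu, hQ2, ms_cons]
        have h6 : ∑ v ∈ F, ms (Qm v) = ms (sp u) + ∑ v ∈ F \ {u}, ms (Qm v) := by
          rw [← h2 u huU, Finset.sdiff_singleton_eq_erase]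
          exact (Finset.add_sum_erase F (fun v => ms (Qm v)) hu).symm
        rw [h6] at h4
        calc ms (sp u) + (y : Multiset V) + ∑ v ∈ F \ {u}, ms (Qm v) =
            (ms (sp u) + ∑ v ∈ F \ {u}, ms (Qm v)) + (y : Multiset V) := by abel
          _ = _ := by rw [h4]; abel

theorem forall₂_flatMap {α : Type} (R : List V → List V → Prop) (f g : α → List (List V)) :
    ∀ l : List α, (∀ u ∈ l, List.Forall₂ R (f u) (g u)) →
      List.Forall₂ R (l.flatMap f) (l.flatMap g)
  | [], _ => List.Forall₂.nil
  | a :: l, h => by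
      rw [List.flatMap_cons, List.flatMap_cons]
      exact List.rel_append (h a List.mem_cons_self)
        (forall₂_flatMap R f g l fun u hu => h u (List.mem_cons_of_mem _ hu))

end Pool.Agent.KK.H41
end

/-! ### Helper41_KK.ABS1 -/
section
/-!
# Squad KK, row ABS, part 2: the construction for a given family of gadgets
-/

set_option autoImplicit false

namespace Pool.Agent.KK.H41

theorem ms_filter {V : Type} {q : ℕ} (cls : List V → Fin q) (P : List (List V)) :
    ∑ i, ms (P.filter fun p => cls p = i) = ms P := by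
  obtain ⟨qs, h1, h2⟩ := split_cls (fun a b => a = b) cls P P (List.forall₂_same.2 fun _ _ => rfl)
  rw [← h2]
  refine Finset.sum_congr rfl fun i _ => ?_
  have h3 := h1 i
  rw [List.forall₂_eq_eq_eq] at h3
  rw [h3]

theorem length_filter {V : Type} {q : ℕ} (cls : List V → Fin q) (P : List (List V)) :
    ∑ i, (P.filter fun p => cls p = i).length = P.length := by
  induction P with
  | nil => simp
  | cons a P ih =>
      have h : ∀ i, ((a :: P).filter fun p => cls p = i).length =
          (if cls a = i then 1 else 0) + (P.filter fun p => cls p = i).length := by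
        intro i
        by_cases hi : cls a = i
        · rw [List.filter_cons_of_pos (by simpa using hi), if_pos hi, List.length_cons]
          omega
        · rw [List.filter_cons_of_neg (by simpa using hi), if_neg hi, zero_add]
      rw [Finset.sum_congr rfl fun i _ => h i, Finset.sum_add_distrib, ih, Finset.sum_ite_eq,
        if_pos (Finset.mem_univ _), List.length_cons]
      omega

theorem card_ms {V : Type} (P : List (List V)) : (ms P).card = P.flatten.length := rfl

theorem flatten_le {V : Type} {M : ℕ} : ∀ ws : List (List V), (∀ w ∈ ws, w.length ≤ M) →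
    ws.flatten.length ≤ M * ws.length
  | [], _ => by simp
  | w :: ws, h => by
      rw [List.flatten_cons, List.length_append, List.length_cons, Nat.mul_succ]
      have h1 := h w List.mem_cons_self
      have h2 := flatten_le ws fun w' hw' => h w' (List.mem_cons_of_mem _ hw')
      omega

theorem tight_short {V : Type} [Fintype V] [DecidableEq V] {H : Finset (Finset V)} {k : ℕ}
    {a : List V} (ha : a.length < k) : Tight H k a := by
  intro s hs hk
  have h1 := hs.length_le
  omega

theorem sameEnds_refl {V : Type} (r : ℕ) (p : List V) : SameEnds r p p := ⟨rfl, rfl⟩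

theorem core (hGRJ : GrjStmt) (hRPL : RplStmt) (k M q : ℕ) (ls : List ℕ) (c : ℝ) (hk : 2 ≤ k)
    (hc : 0 < c) (hq : 0 < q) (V : Type) [Fintype V] [DecidableEq V] (H : Finset (Finset V))
    (T : Fin q → Set (List V)) (hT : ∀ i, Tup k (T i)) (hJ : ∀ i, Joins H k (T i) c M)
    (hRi : ∀ i, Rich (T i) c) (W : Finset V) (F : Finset (Fin ls.sum → V))
    (hFi : ∀ u ∈ F, Function.Injective u)
    (hFd : ∀ u ∈ F, ∀ v ∈ F, u ≠ v → Disjoint (Set.range u) (Set.range v))
    (hFs : ∀ u ∈ F, ∀ p ∈ ls.splitLengths (List.ofFn u), ∃ i, Seg H k (T i) (T i) p)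
    (hFW : ∀ u ∈ F, ∀ i, u i ∉ W)
    (b1 : ((W.card + F.card * ls.sum + q * (k - 1) : ℕ) : ℝ) ≤ c * Fintype.card V)
    (b2 : ((M * ((W.card + F.card * ls.sum + q * (k - 1) + q * (M * (F.card * ls.length + 1))) +
      ((k - 1) + F.card * ls.sum) + M * (F.card * ls.length + 1)) : ℕ) : ℝ) < c * Fintype.card V)
    (N : ℕ) (hN : ∀ y : Fin k → V, Function.Injective y → ∀ U : Finset (Fin ls.sum → V),
      U.card < N → ∃ u ∈ F, u ∉ U ∧ Gad H k T ls (List.ofFn u) (List.ofFn y)) :
    ∃ A : Fin q → List V, (∀ i, Seg H k (T i) (T i) (A i)) ∧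
      (List.ofFn A).flatten.Nodup ∧ (∀ i, ∀ v ∈ A i, v ∉ W) ∧
      (List.ofFn A).flatten.length ≤
        F.card * ls.sum + q * (k - 1) + M * (F.card * ls.length) ∧
      ∀ ys : List (List V), (∀ y ∈ ys, y.length = k) →
        ((List.ofFn A).flatten ++ ys.flatten).Nodup → ys.length ≤ N →
        ∃ B : Fin q → List V, (∀ i, Path H k (B i) ∧ SameEnds (k - 1) (A i) (B i)) ∧
          (List.ofFn B).flatten.Perm ((List.ofFn A).flatten ++ ys.flatten) := by
  classical
  let sp : (Fin ls.sum → V) → List (List V) := fun u => ls.splitLengths (List.ofFn u)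
  have hsp : ∀ u, (sp u).flatten = List.ofFn u := fun u =>
    List.flatten_splitLengths _ _ (by rw [List.length_ofFn])
  have hmsp : ∀ u, ms (sp u) = (List.ofFn u : Multiset V) := by
    intro u
    unfold ms
    rw [hsp]
  let P : List (List V) := F.toList.flatMap sp
  have hPms : ms P = ∑ u ∈ F, ms (sp u) := by
    rw [ms_flatMap, Finset.sum_map_toList]
  have hmem : ∀ p ∈ P, ∃ u ∈ F, p ∈ sp u := by
    intro p hp
    obtain ⟨u, hu, hpu⟩ := List.mem_flatMap.1 hp
    exact ⟨u, Finset.mem_toList.1 hu, hpu⟩
  have hPf : P.flatten = F.toList.flatMap fun u => List.ofFn u := by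
    show (F.toList.flatMap sp).flatten = _
    induction F.toList with
    | nil => rfl
    | cons a l ih => rw [List.flatMap_cons, List.flatten_append, ih, hsp, List.flatMap_cons]
  have hPnd : P.flatten.Nodup := by
    rw [hPf, List.nodup_flatMap]
    refine ⟨fun u hu => List.nodup_ofFn.2 (hFi u (Finset.mem_toList.1 hu)), ?_⟩
    apply List.Nodup.pairwise_of_forall_ne (Finset.nodup_toList F)
    intro u hu v hv huv x hx hx'
    obtain ⟨i, rfl⟩ := (List.mem_ofFn' u x).1 hx
    exact Set.disjoint_left.1 (hFd u (Finset.mem_toList.1 hu) v (Finset.mem_toList.1 hv) huv)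
      ⟨i, rfl⟩ ((List.mem_ofFn' v _).1 hx')
  have hPfl : P.flatten.length = F.card * ls.sum := by
    rw [hPf, List.length_flatMap]
    have h1 : (F.toList.map fun u => (List.ofFn u).length) = F.toList.map fun _ => ls.sum :=
      List.map_congr_left fun u _ => List.length_ofFn
    rw [h1, List.map_const', List.sum_replicate, Finset.length_toList, smul_eq_mul]
  have hPl : P.length = F.card * ls.length := by
    show (F.toList.flatMap sp).length = _
    rw [List.length_flatMap]
    have h1 : (F.toList.map fun u => (sp u).length) = F.toList.map fun _ => ls.length :=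
      List.map_congr_left fun u _ => List.length_splitLengths _ _
    rw [h1, List.map_const', List.sum_replicate, Finset.length_toList, smul_eq_mul]
  have hPW : ∀ v ∈ P.flatten, v ∉ W := by
    intro v hv
    rw [hPf] at hv
    obtain ⟨u, hu, hvu⟩ := List.mem_flatMap.1 hv
    obtain ⟨i, rfl⟩ := (List.mem_ofFn' u v).1 hvu
    exact hFW u (Finset.mem_toList.1 hu) i
  -- the classes of the pieces
  have hcls : ∀ p : List V, ∃ i, p ∈ P → Seg H k (T i) (T i) p := by
    intro p
    by_cases hp : p ∈ P
    · obtain ⟨u, hu, hpu⟩ := hmem p hp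
      obtain ⟨i, hi⟩ := hFs u hu p hpu
      exact ⟨i, fun _ => hi⟩
    · exact ⟨⟨0, hq⟩, fun h => absurd h hp⟩
  choose cls hcls using hcls
  -- the extra tuples
  let Z0 : Finset V := W ∪ P.flatten.toFinset
  have hZ0 : Z0.card ≤ W.card + F.card * ls.sum := by
    refine (Finset.card_union_le _ _).trans (Nat.add_le_add_left ?_ _)
    rw [← hPfl]
    exact List.toFinset_card_le _
  obtain ⟨a, ha1, ha2⟩ := greedy (α := List V) (q := q) (fun x => x.toFinset)
    (fun i x => x ∈ T i) (k - 1) Z0 (by
      intro i Z _ hZ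
      have h1 : (Z.card : ℝ) ≤ c * Fintype.card V := by
        refine le_trans ?_ b1
        exact_mod_cast (by omega : Z.card ≤ W.card + F.card * ls.sum + q * (k - 1))
      obtain ⟨x, hx, hxZ⟩ := hRi i Z h1
      refine ⟨x, hx, ?_, ?_⟩
      · rw [← (hT i x hx).1]
        exact List.toFinset_card_le _
      · rw [Finset.disjoint_left]
        intro v hv
        exact hxZ v (List.mem_toFinset.1 hv))
  have haT : ∀ i, a i ∈ T i := fun i => (ha1 i).1
  have haZ : ∀ i, ∀ v ∈ a i, v ∉ W ∧ v ∉ P.flatten := by
    intro i v hv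
    have h1 := Finset.disjoint_left.1 (ha1 i).2.2 (List.mem_toFinset.2 hv)
    constructor
    · exact fun h => h1 (Finset.mem_union_left _ h)
    · exact fun h => h1 (Finset.mem_union_right _ (List.mem_toFinset.2 h))
  have haa : ∀ i j, i ≠ j → ∀ v ∈ a i, v ∉ a j := by
    intro i j hij v hv hv'
    exact Finset.disjoint_left.1 (ha2 i j hij) (List.mem_toFinset.2 hv) (List.mem_toFinset.2 hv')
  -- the segments of the class `i`
  let Pc : Fin q → List (List V) := fun i => P.filter fun p => cls p = i
  let ps : Fin q → List (List V) := fun i => a i :: Pc i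
  have hPcP : ∀ i, ∀ v ∈ (Pc i).flatten, v ∈ P.flatten := by
    intro i v hv
    obtain ⟨p, hp, hvp⟩ := List.mem_flatten.1 hv
    exact List.mem_flatten.2 ⟨p, (List.mem_filter.1 hp).1, hvp⟩
  have hPcnd : ∀ i, (Pc i).flatten.Nodup := by
    intro i
    exact hPnd.sublist (List.Sublist.flatten List.filter_sublist)
  have hPcc : ∀ i j, i ≠ j → ∀ v ∈ (Pc i).flatten, v ∉ (Pc j).flatten := by
    intro i j hij v hv hv'
    obtain ⟨p, hp, hvp⟩ := List.mem_flatten.1 hv
    obtain ⟨p', hp', hvp'⟩ := List.mem_flatten.1 hv'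
    obtain ⟨hpP, hpi⟩ := List.mem_filter.1 hp
    obtain ⟨hpP', hpi'⟩ := List.mem_filter.1 hp'
    have hne : p ≠ p' := by
      intro h
      apply hij
      have h1 : cls p = i := by simpa using hpi
      have h2 : cls p' = j := by simpa using hpi'
      rw [← h1, ← h2, h]
    have h3 := (List.nodup_flatten.1 hPnd).2
    have : Std.Symm (List.Disjoint (α := V)) := ⟨fun _ _ h => h.symm⟩
    exact (List.Pairwise.forall h3 hpP hpP' hne) hvp hvp'
  have hPcl : ∀ i, (Pc i).length ≤ F.card * ls.length := by
    intro i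
    rw [← hPl]
    exact List.length_filter_le _ _
  have hPcfl : ∀ i, (Pc i).flatten.length ≤ F.card * ls.sum := by
    intro i
    rw [← hPfl]
    exact (List.Sublist.flatten List.filter_sublist).length_le
  have hpsl : ∀ i, (ps i).length = (Pc i).length + 1 := fun i => List.length_cons
  have hpsf : ∀ i, (ps i).flatten = a i ++ (Pc i).flatten := fun i => List.flatten_cons
  have hal : ∀ i, (a i).length = k - 1 := fun i => (hT i _ (haT i)).1
  have hpsnd : ∀ i, (ps i).flatten.Nodup := by
    intro i
    rw [hpsf, List.nodup_append']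
    exact ⟨(hT i _ (haT i)).2, hPcnd i, fun v hv hv' => (haZ i v hv).2 (hPcP i v hv')⟩
  have hseg : ∀ i, ∀ p ∈ ps i, Seg H k (T i) (T i) p := by
    intro i p hp
    rcases List.mem_cons.1 hp with rfl | hp
    · refine ⟨⟨(hT i _ (haT i)).2, tight_short (by rw [hal i]; omega)⟩, (hal i).ge, ?_, ?_⟩
      · rw [List.take_of_length_le (hal i).le]
        exact haT i
      · rw [hal i, Nat.sub_self, List.drop_zero]
        exact haT i
    · obtain ⟨hpP, hpi⟩ := List.mem_filter.1 hp
      have h1 : cls p = i := by simpa using hpi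
      rw [← h1]
      exact hcls p hpP
  -- the connectors
  let Z1 : Finset V := Z0 ∪ Finset.univ.biUnion fun i => (a i).toFinset
  have hZ1 : Z1.card ≤ W.card + F.card * ls.sum + q * (k - 1) := by
    refine (Finset.card_union_le _ _).trans (Nat.add_le_add hZ0 ?_)
    refine (Finset.card_biUnion_le_card_mul _ _ (k - 1) fun i _ => (ha1 i).2.1).trans ?_
    rw [Finset.card_univ, Fintype.card_fin]
  obtain ⟨ws, hw1, hw2⟩ := greedy (α := List (List V)) (q := q) (fun x => x.flatten.toFinset)
    (fun i x => x.length + 1 = (ps i).length ∧ (∀ w ∈ x, w.length ≤ M) ∧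
      (weave (ps i) x).Perm ((ps i).flatten ++ x.flatten) ∧ Seg H k (T i) (T i) (weave (ps i) x))
    (M * (F.card * ls.length + 1)) Z1 (by
      intro i Z _ hZ
      have h1 : (M : ℝ) * (Z.card + (ps i).flatten.length + M * (ps i).length) <
          c * Fintype.card V := by
        refine lt_of_le_of_lt ?_ b2
        have h2 : (ps i).flatten.length ≤ (k - 1) + F.card * ls.sum := by
          rw [hpsf, List.length_append, hal]
          exact Nat.add_le_add_left (hPcfl i) _
        have h3 : (ps i).length ≤ F.card * ls.length + 1 := by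
          rw [hpsl]
          exact Nat.add_le_add_right (hPcl i) 1
        have h4 : M * (Z.card + (ps i).flatten.length + M * (ps i).length) ≤
            M * ((W.card + F.card * ls.sum + q * (k - 1) + q * (M * (F.card * ls.length + 1))) +
              ((k - 1) + F.card * ls.sum) + M * (F.card * ls.length + 1)) := by
          apply Nat.mul_le_mul_left
          apply Nat.add_le_add
          · apply Nat.add_le_add _ h2
            exact hZ.trans (Nat.add_le_add_right hZ1 _)
          · exact Nat.mul_le_mul_left M h3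
        exact_mod_cast h4
      obtain ⟨x, hx1, hx2, hx3, -, hx5, hx6⟩ := hGRJ k M c V H (T i) hk hc (hT i) (hJ i) (ps i) Z
        (List.cons_ne_nil _ _) (hseg i) (hpsnd i) h1
      refine ⟨x, ⟨hx1, hx2, hx5, hx6⟩, ?_, ?_⟩
      · refine (List.toFinset_card_le _).trans ((flatten_le x hx2).trans ?_)
        apply Nat.mul_le_mul_left
        have h2 := hPcl i
        have h3 := hpsl i
        omega
      · rw [Finset.disjoint_left]
        intro v hv
        obtain ⟨w, hw, hvw⟩ := List.mem_flatten.1 (List.mem_toFinset.1 hv)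
        exact hx3 w hw v hvw)
  have hwZ : ∀ i, ∀ v ∈ (ws i).flatten, v ∉ W ∧ v ∉ P.flatten ∧ ∀ j, v ∉ a j := by
    intro i v hv
    have h1 := Finset.disjoint_left.1 (hw1 i).2.2 (List.mem_toFinset.2 hv)
    refine ⟨?_, ?_, ?_⟩
    · exact fun h => h1 (Finset.mem_union_left _ (Finset.mem_union_left _ h))
    · exact fun h => h1 (Finset.mem_union_left _ (Finset.mem_union_right _
        (List.mem_toFinset.2 h)))
    · exact fun j h => h1 (Finset.mem_union_right _ (Finset.mem_biUnion.2
        ⟨j, Finset.mem_univ _, List.mem_toFinset.2 h⟩))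
  have hww : ∀ i j, i ≠ j → ∀ v ∈ (ws i).flatten, v ∉ (ws j).flatten := by
    intro i j hij v hv hv'
    exact Finset.disjoint_left.1 (hw2 i j hij) (List.mem_toFinset.2 hv) (List.mem_toFinset.2 hv')
  let A : Fin q → List V := fun i => weave (ps i) (ws i)
  have hAmem : ∀ i v, v ∈ A i ↔ v ∈ a i ∨ v ∈ (Pc i).flatten ∨ v ∈ (ws i).flatten := by
    intro i v
    rw [(hw1 i).1.2.2.1.mem_iff, hpsf, List.mem_append, List.mem_append, or_assoc]
  have hAms : ∀ i, (A i : Multiset V) = (a i : Multiset V) + ms (Pc i) + ms (ws i) := by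
    intro i
    rw [← ms_cons]
    exact weave_ms (ps i) (ws i) (hw1 i).1.1
  refine ⟨A, fun i => (hw1 i).1.2.2.2, ?_, ?_, ?_, ?_⟩
  · rw [List.nodup_flatten]
    constructor
    · intro l hl
      obtain ⟨i, rfl⟩ := (List.mem_ofFn' A l).1 hl
      exact (hw1 i).1.2.2.2.1.1
    · rw [List.pairwise_ofFn]
      intro i j hij v hv hv'
      have hne : i ≠ j := hij.ne
      rcases (hAmem i v).1 hv with h1 | h1 | h1 <;> rcases (hAmem j v).1 hv' with h2 | h2 | h2
      · exact haa i j hne v h1 h2
      · exact (haZ i v h1).2 (hPcP j v h2)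
      · exact (hwZ j v h2).2.2 i h1
      · exact (haZ j v h2).2 (hPcP i v h1)
      · exact hPcc i j hne v h1 h2
      · exact (hwZ j v h2).2.1 (hPcP i v h1)
      · exact (hwZ i v h1).2.2 j h2
      · exact (hwZ i v h1).2.1 (hPcP j v h2)
      · exact hww i j hne v h1 h2
  · intro i v hv
    rcases (hAmem i v).1 hv with h1 | h1 | h1
    · exact (haZ i v h1).1
    · exact hPW v (hPcP i v h1)
    · exact (hwZ i v h1).1
  · -- the total length
    have h1 : (List.ofFn A).flatten.length = ∑ i, ((k - 1) + (Pc i).flatten.length +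
        (ws i).flatten.length) := by
      rw [← card_ms, ms_ofFn, Multiset.card_sum]
      refine Finset.sum_congr rfl fun i _ => ?_
      rw [hAms i, Multiset.card_add, Multiset.card_add]
      show (a i).length + (Pc i).flatten.length + (ws i).flatten.length = _
      rw [hal i]
    have h2 : ∑ i, (Pc i).flatten.length = F.card * ls.sum := by
      have h3 := congrArg Multiset.card (ms_filter cls P)
      rw [Multiset.card_sum, card_ms, hPfl] at h3
      exact h3
    have h3 : ∑ i, (ws i).flatten.length ≤ M * (F.card * ls.length) := by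
      calc ∑ i, (ws i).flatten.length ≤ ∑ i, M * (Pc i).length := by
            refine Finset.sum_le_sum fun i _ => ?_
            have h4 := flatten_le (ws i) (hw1 i).1.2.1
            have h5 : (ws i).length = (Pc i).length := by
              have := (hw1 i).1.1
              have := hpsl i
              omega
            rw [h5] at h4
            exact h4
        _ = M * (F.card * ls.length) := by
            rw [← Finset.mul_sum, ← hPl]
            congr 1
            exact length_filter cls P
    rw [h1, Finset.sum_add_distrib, Finset.sum_add_distrib, h2, Finset.sum_const,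
      Finset.card_univ, Fintype.card_fin, smul_eq_mul]
    omega
  · intro ys hys hnd hN'
    have hysnd : ys.flatten.Nodup := (List.nodup_append'.1 hnd).2.1
    obtain ⟨Qm, -, -, -, hQ3, hQ4⟩ := abs_map F sp
      (fun p p' => SameEnds (k - 1) p p' ∧ Path H k p')
      (fun u y => Gad H k T ls (List.ofFn u) y)
      (by
        intro u y hg
        obtain ⟨-, -, Q, hQ1, hQ2⟩ := hg
        refine ⟨Q, hQ1, ?_⟩
        rw [hmsp u, Multiset.coe_add]
        exact Multiset.coe_eq_coe.2 hQ2)
      (by
        intro u hu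
        refine List.forall₂_same.2 fun p hp => ⟨sameEnds_refl _ _, ?_⟩
        obtain ⟨i, hi⟩ := hFs u hu p hp
        exact hi.1) N ys hN' (by
        intro y hy U hU
        have hyk := hys y hy
        have hynd : y.Nodup := (List.nodup_flatten.1 hysnd).1 y hy
        have h1 : List.ofFn (fun i : Fin k => y.get (Fin.cast hyk.symm i)) = y := by
          apply List.ext_getElem
          · rw [List.length_ofFn, hyk]
          · intro n h1 h2
            simp
        obtain ⟨u, hu, huU, hg⟩ := hN (fun i : Fin k => y.get (Fin.cast hyk.symm i))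
          (fun i j hij => Fin.cast_injective _ (hynd.injective_get hij)) U hU
        rw [h1] at hg
        exact ⟨u, hu, huU, hg⟩)
    let P' : List (List V) := F.toList.flatMap Qm
    have hP' : List.Forall₂ (fun p p' => SameEnds (k - 1) p p' ∧ Path H k p') P P' :=
      forall₂_flatMap _ sp Qm F.toList fun u hu => hQ3 u (Finset.mem_toList.1 hu)
    obtain ⟨qs, hq1, hq2⟩ := split_cls _ cls P P' hP'
    let B : Fin q → List V := fun i => weave (a i :: qs i) (ws i)
    have hlen : ∀ i, (ws i).length + 1 = (a i :: qs i).length := by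
      intro i
      rw [List.length_cons, ← (hq1 i).length_eq, (hw1 i).1.1]
      exact List.length_cons
    have hperm : (List.ofFn B).flatten.Perm ((List.ofFn A).flatten ++ ys.flatten) := by
      apply Multiset.coe_eq_coe.1
      rw [← Multiset.coe_add]
      show ms (List.ofFn B) = ms (List.ofFn A) + ms ys
      rw [ms_ofFn, ms_ofFn, Finset.sum_congr rfl fun i _ => hAms i,
        Finset.sum_congr rfl fun i _ => weave_ms (a i :: qs i) (ws i) (hlen i)]
      simp only [ms_cons, Finset.sum_add_distrib]
      rw [hq2]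
      have h1 : ms P' = ms P + ms ys := by
        rw [ms_flatMap, Finset.sum_map_toList, hQ4, hPms]
      have h2 : ∑ i, ms (Pc i) = ms P := ms_filter cls P
      rw [h1, h2]
      abel
    have hBnd : (List.ofFn B).flatten.Nodup := hperm.symm.nodup hnd
    refine ⟨B, fun i => ?_, hperm⟩
    have h2 := (hRPL k V H hk (ps i) (a i :: qs i) (ws i) (List.cons_ne_nil _ _) (by
      refine List.Forall₂.cons ⟨sameEnds_refl _ _, (hal i).ge, (hal i).ge,
        tight_short (by rw [hal i]; omega)⟩ ?_
      have h3 : ∀ p ∈ Pc i, k - 1 ≤ p.length := fun p hp =>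
        (hseg i p (List.mem_cons_of_mem _ hp)).2.1
      refine List.Forall₂.imp ?_ ((List.forall₂_and_left _ _).2 ⟨h3, hq1 i⟩)
      rintro p p' ⟨hp, he, hpath⟩
      refine ⟨he, hp, ?_, hpath.2⟩
      have h4 := congrArg List.length he.1
      rw [List.length_take, List.length_take, min_eq_left hp] at h4
      omega)).1 (hw1 i).1.2.2.2.1.2
    refine ⟨⟨?_, h2.1⟩, h2.2⟩
    exact (List.nodup_flatten.1 hBnd).1 (B i) ((List.mem_ofFn' B _).2 ⟨i, rfl⟩)

end Pool.Agent.KK.H41
end

/-! ### Helper41_KK.ABS2 -/
section
/-!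
# Squad KK, row ABS, part 3: the choice of the family and of the constants
-/

set_option autoImplicit false

namespace Pool.Agent.KK.H41

theorem big (a X : ℝ) (ha : 0 < a) : ∃ n₀ : ℕ, ∀ n : ℕ, n₀ ≤ n → X < a * n := by
  obtain ⟨n₀, h0⟩ := exists_nat_gt (X / a)
  refine ⟨n₀, fun n hn => ?_⟩
  have h1 : (n₀ : ℝ) ≤ n := by exact_mod_cast hn
  have h2 : X / a < n := lt_of_lt_of_le h0 h1
  rw [div_lt_iff₀ ha] at h2
  linarith

/-- few members of a disjoint family meet a small set -/
theorem meet_le {V : Type} [DecidableEq V] {s : ℕ} (F : Finset (Fin s → V))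
    (hF : ∀ u ∈ F, ∀ v ∈ F, u ≠ v → Disjoint (Set.range u) (Set.range v)) (W : Finset V) :
    (F.filter fun u => ∃ i, u i ∈ W).card ≤ W.card := by
  classical
  rcases Nat.eq_zero_or_pos s with rfl | hs
  · have h1 : (F.filter fun u => ∃ i, u i ∈ W) = ∅ := by
      rw [Finset.filter_eq_empty_iff]
      rintro u _ ⟨i, _⟩
      exact i.elim0
    rw [h1, Finset.card_empty]
    exact Nat.zero_le _
  · apply Finset.card_le_card_of_injOn
      (fun u => if h : ∃ i, u i ∈ W then u h.choose else u ⟨0, hs⟩)
    · intro u hu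
      have h1 := (Finset.mem_filter.1 (Finset.mem_coe.1 hu)).2
      simp only [dif_pos h1]
      exact Finset.mem_coe.2 h1.choose_spec
    · intro u hu v hv huv
      have h1 := Finset.mem_filter.1 (Finset.mem_coe.1 hu)
      have h2 := Finset.mem_filter.1 (Finset.mem_coe.1 hv)
      simp only [dif_pos h1.2, dif_pos h2.2] at huv
      by_contra hne
      exact Set.disjoint_left.1 (hF u h1.1 v h2.1 hne) ⟨h1.2.choose, rfl⟩ ⟨h2.2.choose, huv.symm⟩

theorem abs_row (hFAM : FamStmt) (hGRJ : GrjStmt) (hRPL : RplStmt) : AbsStmt := by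
  intro k M q C ls c hk hc hq hls
  obtain ⟨γF, hγF, hfam⟩ := hFAM ls.sum k c hls hc
  obtain ⟨K, hKdef⟩ : ∃ K : ℝ, K = 2 * ((ls.sum : ℝ) + M * ls.length + 1) := ⟨_, rfl⟩
  have hK : 0 < K := by rw [hKdef]; positivity
  obtain ⟨a1, ha1def⟩ : ∃ a1 : ℝ, a1 = M * (2 * ls.sum + (q + 1) * M * ls.length) + ls.sum :=
    ⟨_, rfl⟩
  have ha1 : 0 ≤ a1 := by rw [ha1def]; positivity
  refine ⟨c / (16 * K), min (K * γF) (K * (c / 2) / (a1 + 1)), by positivity, by positivity, ?_⟩
  intro γ hγ hγ0
  have hγ1 : γ / K ≤ γF := by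
    rw [div_le_iff₀ hK]
    linarith [hγ0.trans (min_le_left _ _)]
  have hγ2 : γ / K * a1 ≤ c / 2 := by
    have h1 := hγ0.trans (min_le_right _ _)
    rw [le_div_iff₀ (by linarith)] at h1
    rw [div_mul_eq_mul_div, div_le_iff₀ hK]
    nlinarith
  have hγ' : 0 < γ / K := by positivity
  obtain ⟨nF, hnF⟩ := hfam (γ / K) hγ' hγ1
  obtain ⟨n1, hn1⟩ := big (c / 2) (M * (C + q * k + q * M + k + M) + C + q * k) (by positivity)
  obtain ⟨n2, hn2⟩ := big (γ / 2) (q * k) (by positivity)
  obtain ⟨n3, hn3⟩ := big (γ * c / (16 * K)) C (by positivity)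
  refine ⟨max (max nF n1) (max n2 n3), ?_⟩
  intro V _ _ H T hn hT hJ hRi hG W hW
  classical
  have hnF' := hnF V ((le_max_left _ _).trans ((le_max_left _ _).trans hn))
  have hn1' := hn1 _ ((le_max_right _ _).trans ((le_max_left _ _).trans hn))
  have hn2' := hn2 _ ((le_max_left _ _).trans ((le_max_right _ _).trans hn))
  have hn3' := hn3 _ ((le_max_right _ _).trans ((le_max_right _ _).trans hn))
  let Dy : (Fin k → V) → Finset (Fin ls.sum → V) := fun y =>
    Finset.univ.filter fun u => Gad H k T ls (List.ofFn u) (List.ofFn y)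
  have hDy : ∀ y, {u : Fin ls.sum → V | Gad H k T ls (List.ofFn u) (List.ofFn y)}.ncard =
      (Dy y).card := by
    intro y
    have h1 : {u : Fin ls.sum → V | Gad H k T ls (List.ofFn u) (List.ofFn y)} =
        ((Dy y : Finset _) : Set _) := by
      ext u
      simp [Dy]
    rw [h1, Set.ncard_coe_finset]
  obtain ⟨F0, hF0c, hF0i, hF0d, hF0D⟩ := hnF'
    (((Finset.univ : Finset (Fin k → V)).filter Function.Injective).image Dy) (by
      have h1 : (((Finset.univ : Finset (Fin k → V)).filter Function.Injective).image Dy).card ≤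
          Fintype.card V ^ k := by
        refine Finset.card_image_le.trans ((Finset.card_filter_le _ _).trans ?_)
        rw [Finset.card_univ, Fintype.card_fun, Fintype.card_fin]
      exact_mod_cast h1) (by
      intro D hD
      obtain ⟨y, hy, rfl⟩ := Finset.mem_image.1 hD
      rw [← hDy]
      exact hG y (Finset.mem_filter.1 hy).2)
  let F : Finset (Fin ls.sum → V) := F0.filter fun u => (∀ i, u i ∉ W) ∧
    ∃ y : Fin k → V, Function.Injective y ∧ Gad H k T ls (List.ofFn u) (List.ofFn y)
  have hFsub : ∀ u ∈ F, u ∈ F0 := fun u hu => (Finset.mem_filter.1 hu).1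
  have hFc : (F.card : ℝ) ≤ γ / K * Fintype.card V := by
    refine le_trans ?_ hF0c
    exact_mod_cast Finset.card_filter_le _ _
  have hWC : (W.card : ℝ) ≤ C := by exact_mod_cast hW
  have hk1 : ((k - 1 : ℕ) : ℝ) ≤ k := by exact_mod_cast Nat.sub_le k 1
  have hk0 : (0 : ℝ) ≤ ((k - 1 : ℕ) : ℝ) := Nat.cast_nonneg _
  have hqk : (q : ℝ) * ((k - 1 : ℕ) : ℝ) ≤ q * k := mul_le_mul_of_nonneg_left hk1 (Nat.cast_nonneg _)
  have hn0 : (0 : ℝ) ≤ Fintype.card V := Nat.cast_nonneg _
  have hFa : (F.card : ℝ) * a1 ≤ c / 2 * Fintype.card V := by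
    calc (F.card : ℝ) * a1 ≤ γ / K * Fintype.card V * a1 := mul_le_mul_of_nonneg_right hFc ha1
      _ = γ / K * a1 * Fintype.card V := by ring
      _ ≤ c / 2 * Fintype.card V := mul_le_mul_of_nonneg_right hγ2 hn0
  have hM0 : (0 : ℝ) ≤ M := Nat.cast_nonneg _
  have hq0 : (0 : ℝ) ≤ q := Nat.cast_nonneg _
  have hC0 : (0 : ℝ) ≤ C := Nat.cast_nonneg _
  have hkk : (0 : ℝ) ≤ k := Nat.cast_nonneg _
  have hF00 : (0 : ℝ) ≤ F.card := Nat.cast_nonneg _
  have hs0 : (0 : ℝ) ≤ ls.sum := Nat.cast_nonneg _
  have hL0 : (0 : ℝ) ≤ ls.length := Nat.cast_nonneg _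
  have hb1 : ((W.card + F.card * ls.sum + q * (k - 1) : ℕ) : ℝ) ≤ c * Fintype.card V := by
    simp only [Nat.cast_add, Nat.cast_mul, Nat.cast_one]
    have h1 : (F.card : ℝ) * ls.sum ≤ F.card * a1 := by
      apply mul_le_mul_of_nonneg_left _ hF00
      rw [ha1def]
      have : (0 : ℝ) ≤ M * (2 * ls.sum + (q + 1) * M * ls.length) := by positivity
      linarith
    have h2 : (0 : ℝ) ≤ M * (C + q * k + q * M + k + M) := by positivity
    linarith
  have hb2 : ((M * ((W.card + F.card * ls.sum + q * (k - 1) +
      q * (M * (F.card * ls.length + 1))) + ((k - 1) + F.card * ls.sum) +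
      M * (F.card * ls.length + 1)) : ℕ) : ℝ) < c * Fintype.card V := by
    simp only [Nat.cast_add, Nat.cast_mul, Nat.cast_one]
    have h1 : (M : ℝ) * (((W.card : ℝ) + F.card * ls.sum + q * ((k - 1 : ℕ) : ℝ) +
        q * (M * (F.card * ls.length + 1))) + (((k - 1 : ℕ) : ℝ) + F.card * ls.sum) +
        M * (F.card * ls.length + 1)) =
        M * (W.card + q * ((k - 1 : ℕ) : ℝ) + q * M + ((k - 1 : ℕ) : ℝ) + M) +
        F.card * (M * (2 * ls.sum + (q + 1) * M * ls.length)) := by ring
    have h2 : (M : ℝ) * (W.card + q * ((k - 1 : ℕ) : ℝ) + q * M + ((k - 1 : ℕ) : ℝ) + M) ≤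
        M * (C + q * k + q * M + k + M) := by
      apply mul_le_mul_of_nonneg_left _ hM0
      linarith
    have h3 : (F.card : ℝ) * (M * (2 * ls.sum + (q + 1) * M * ls.length)) ≤ F.card * a1 := by
      apply mul_le_mul_of_nonneg_left _ hF00
      rw [ha1def]
      linarith
    have h4 : (0 : ℝ) ≤ q * k := by positivity
    rw [h1]
    linarith
  obtain ⟨A, hA1, hA2, hA3, hA4, hA5⟩ := core hGRJ hRPL k M q ls c hk hc hq V H T hT hJ hRi W F
    (fun u hu => hF0i u (hFsub u hu))
    (fun u hu v hv huv => hF0d u (hFsub u hu) v (hFsub v hv) huv)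
    (fun u hu => by
      obtain ⟨y, -, hy⟩ := (Finset.mem_filter.1 hu).2.2
      exact hy.2.1)
    (fun u hu => (Finset.mem_filter.1 hu).2.1) hb1 hb2 ⌊c / (16 * K) * γ * Fintype.card V⌋₊ (by
      intro y hy U hU
      have h1 := hF0D (Dy y) (Finset.mem_image.2 ⟨y, Finset.mem_filter.2 ⟨Finset.mem_univ _, hy⟩,
        rfl⟩)
      have h2 : Dy y ∩ F0 ⊆ (Dy y ∩ F) ∪ F0.filter fun u => ∃ i, u i ∈ W := by
        intro u hu
        obtain ⟨hu1, hu2⟩ := Finset.mem_inter.1 hu
        by_cases hw : ∃ i, u i ∈ W
        · exact Finset.mem_union_right _ (Finset.mem_filter.2 ⟨hu2, hw⟩)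
        · refine Finset.mem_union_left _ (Finset.mem_inter.2 ⟨hu1, Finset.mem_filter.2
            ⟨hu2, fun i hi => hw ⟨i, hi⟩, y, hy, (Finset.mem_filter.1 hu1).2⟩⟩)
      have h3 : (Dy y ∩ F0).card ≤ (Dy y ∩ F).card + C :=
        (Finset.card_le_card h2).trans ((Finset.card_union_le _ _).trans
          (Nat.add_le_add_left ((meet_le F0 hF0d W).trans hW) _))
      have h4 : ((Dy y ∩ F0).card : ℝ) ≤ (Dy y ∩ F).card + C := by exact_mod_cast h3
      have h5 : c / (16 * K) * γ * Fintype.card V ≤ (Dy y ∩ F).card := by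
        have h6 : γ / K * c / 8 * (Fintype.card V : ℝ) =
            c / (16 * K) * γ * Fintype.card V + γ * c / (16 * K) * Fintype.card V := by
          field_simp
          ring
        linarith
      have h6 : U.card < (Dy y ∩ F).card := by
        have h7 : (U.card : ℝ) < (Dy y ∩ F).card := by
          have h8 : (U.card : ℝ) < (⌊c / (16 * K) * γ * Fintype.card V⌋₊ : ℝ) := by
            exact_mod_cast hU
          have h9 : (⌊c / (16 * K) * γ * Fintype.card V⌋₊ : ℝ) ≤
              c / (16 * K) * γ * Fintype.card V := Nat.floor_le (by positivity)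
          linarith
        exact_mod_cast h7
      obtain ⟨u, hu1, hu2⟩ := Finset.exists_mem_notMem_of_card_lt_card h6
      obtain ⟨hu3, hu4⟩ := Finset.mem_inter.1 hu1
      exact ⟨u, hu4, hu2, (Finset.mem_filter.1 hu3).2⟩)
  refine ⟨A, hA1, hA2, hA3, ?_, ?_⟩
  · have h1 : ((List.ofFn A).flatten.length : ℝ) ≤
        F.card * ls.sum + q * ((k - 1 : ℕ) : ℝ) + M * (F.card * ls.length) := by
      exact_mod_cast hA4
    have h2 : (F.card : ℝ) * ls.sum + M * (F.card * ls.length) ≤ γ / 2 * Fintype.card V := by
      calc (F.card : ℝ) * ls.sum + M * (F.card * ls.length) =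
            F.card * (ls.sum + M * ls.length) := by ring
        _ ≤ F.card * (K / 2) := by
            apply mul_le_mul_of_nonneg_left _ hF00
            rw [hKdef]
            linarith
        _ ≤ γ / K * Fintype.card V * (K / 2) := mul_le_mul_of_nonneg_right hFc (by positivity)
        _ = γ / 2 * Fintype.card V := by
            field_simp
    linarith
  · intro ys hys hnd hlen
    exact hA5 ys hys hnd (Nat.le_floor hlen)

end Pool.Agent.KK.H41
end

/-! ### Helper92_KK.ALP -/
section
/-!
# KK row ALP: the alpha theorem in abstract form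
-/

set_option autoImplicit false

open scoped BigOperators

namespace Pool.Agent.KK.H92

variable {V : Type} [Fintype V] [DecidableEq V]

/-- counting up to rearrangement -/
theorem perm_count {m : ℕ} (X Z : Set (Fin m → V)) (hZ : ∀ g ∈ Z, Function.Injective g)
    (h : ∀ f ∈ X, ∃ g ∈ Z, Finset.univ.image f = Finset.univ.image g) :
    X.ncard ≤ m.factorial * Z.ncard := by
  classical
  have hsub : X ⊆ (fun p : (Fin m → V) × Equiv.Perm (Fin m) => p.1 ∘ p.2) '' (Z ×ˢ Set.univ) := by
    intro f hf
    obtain ⟨g, hg, him⟩ := h f hf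
    have hgi := hZ g hg
    have hfi : Function.Injective f := by
      have h1 : (Finset.univ.image f).card = m := by
        rw [him, Finset.card_image_of_injective _ hgi, Finset.card_univ, Fintype.card_fin]
      have h2 : (Finset.univ.image f).card = (Finset.univ : Finset (Fin m)).card := by
        rw [h1, Finset.card_univ, Fintype.card_fin]
      have h3 := Finset.card_image_iff.1 h2
      intro a b hab
      exact h3 (Finset.mem_coe.2 (Finset.mem_univ a)) (Finset.mem_coe.2 (Finset.mem_univ b)) hab
    have hex : ∀ j, ∃ i, g i = f j := by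
      intro j
      have : f j ∈ Finset.univ.image g := by
        rw [← him]
        exact Finset.mem_image_of_mem f (Finset.mem_univ j)
      obtain ⟨i, _, hi⟩ := Finset.mem_image.1 this
      exact ⟨i, hi⟩
    choose σ hσ using hex
    have hσi : Function.Injective σ := by
      intro a b hab
      apply hfi
      rw [← hσ a, ← hσ b, hab]
    refine ⟨(g, Equiv.ofBijective σ (Finite.injective_iff_bijective.1 hσi)),
      ⟨hg, Set.mem_univ _⟩, ?_⟩
    funext j
    exact hσ j
  calc X.ncard ≤ _ := Set.ncard_le_ncard hsub (Set.toFinite _)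
    _ ≤ (Z ×ˢ (Set.univ : Set (Equiv.Perm (Fin m)))).ncard := Set.ncard_image_le (Set.toFinite _)
    _ = m.factorial * Z.ncard := by
      rw [Set.ncard_prod, Set.ncard_univ, Nat.card_eq_fintype_card, Fintype.card_perm,
        Fintype.card_fin, mul_comm]

theorem image_cons {m : ℕ} (v : V) (g : Fin m → V) :
    Finset.univ.image (Fin.cons v g : Fin (m + 1) → V) = insert v (Finset.univ.image g) := by
  ext x
  simp only [Finset.mem_image, Finset.mem_univ, true_and, Finset.mem_insert, Fin.exists_fin_succ,
    Fin.cons_zero, Fin.cons_succ]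
  constructor
  · rintro (h | h)
    exacts [Or.inl h.symm, Or.inr h]
  · rintro (h | h)
    exacts [Or.inl h.symm, Or.inr h]

/-- the tuples which form an edge with `u` -/
def Lf (H : Finset (Finset V)) (m : ℕ) (u : V) : Finset (Fin (m + 1) → V) :=
  Finset.univ.filter fun f => u ∉ Finset.univ.image f ∧ insert u (Finset.univ.image f) ∈ H

theorem mem_Lf {H : Finset (Finset V)} {m : ℕ} {u : V} {f : Fin (m + 1) → V} :
    f ∈ Lf H m u ↔ u ∉ Finset.univ.image f ∧ insert u (Finset.univ.image f) ∈ H := by
  unfold Lf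
  rw [Finset.mem_filter]
  exact ⟨fun h => h.2, fun h => ⟨Finset.mem_univ _, h⟩⟩

theorem comm_eq (H : Finset (Finset V)) (m : ℕ) (u v : V) :
    comm H (m + 2) u v = (Lf H m u ∩ Lf H m v).card := by
  rw [← Set.ncard_coe_finset]
  unfold comm
  apply congrArg Set.ncard
  ext f
  rw [Finset.mem_coe, Finset.mem_inter, mem_Lf, mem_Lf]
  constructor
  · rintro ⟨h1, h2, h3, h4⟩
    exact ⟨⟨h1, h3⟩, h2, h4⟩
  · rintro ⟨⟨h1, h3⟩, h2, h4⟩
    exact ⟨h1, h2, h3, h4⟩

open Classical in
/-- injective tuples which avoid `u` -/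
noncomputable def Good (m : ℕ) (u : V) : Finset (Fin m → V) :=
  Finset.univ.filter fun g => Function.Injective g ∧ u ∉ Finset.univ.image g

theorem mem_Good {m : ℕ} {u : V} {g : Fin m → V} :
    g ∈ Good m u ↔ Function.Injective g ∧ u ∉ Finset.univ.image g := by
  unfold Good
  rw [Finset.mem_filter]
  exact ⟨fun h => h.2, fun h => ⟨Finset.mem_univ _, h⟩⟩

theorem card_Good (m : ℕ) (u : V) : (Fintype.card V - m) ^ m ≤ (Good m u).card := by
  classical
  have h1 : Fintype.card (Fin m ↪ {x : V // x ≠ u}) ≤ (Good m u).card := by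
    rw [← Finset.card_univ]
    apply Finset.card_le_card_of_injOn (fun e => fun i => (e i : V))
    · intro e _
      rw [Finset.mem_coe, mem_Good]
      constructor
      · intro a b hab
        exact e.injective (Subtype.ext hab)
      · intro hu
        obtain ⟨i, _, hi⟩ := Finset.mem_image.1 hu
        exact (e i).2 hi
    · intro e _ e' _ he
      ext i
      exact congrFun he i
  rw [Fintype.card_embedding_eq, Fintype.card_fin] at h1
  have h2 : Fintype.card {x : V // x ≠ u} = Fintype.card V - 1 := by
    simp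
  rw [h2] at h1
  refine le_trans ?_ h1
  have h3 := Nat.pow_sub_le_descFactorial (Fintype.card V - 1) m
  have h4 : Fintype.card V - 1 + 1 = Fintype.card V := by
    have : 0 < Fintype.card V := Fintype.card_pos_iff.2 ⟨u⟩
    omega
  rw [h4] at h3
  exact h3

theorem card_Lf {H : Finset (Finset V)} {m : ℕ} (hD : Dirac H (m + 2)) (u : V) :
    Fintype.card V * (Good m u).card ≤ 2 * (Lf H m u).card := by
  classical
  have h1 : ((Good m u).sigma fun g => nb H (insert u (Finset.univ.image g))).card ≤
      (Lf H m u).card := by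
    apply Finset.card_le_card_of_injOn (fun p => (Fin.cons p.2 p.1 : Fin (m + 1) → V))
    · rintro ⟨g, v⟩ hp
      rw [Finset.mem_coe, Finset.mem_sigma] at hp
      obtain ⟨hg, hv⟩ := hp
      obtain ⟨_, hu⟩ := mem_Good.1 hg
      unfold nb at hv
      rw [Finset.mem_filter] at hv
      obtain ⟨_, hv1, hv2⟩ := hv
      rw [Finset.mem_coe, mem_Lf]
      simp only
      rw [image_cons]
      refine ⟨?_, ?_⟩
      · intro h
        rcases Finset.mem_insert.1 h with h | h
        · apply hv1
          rw [← h]
          exact Finset.mem_insert_self _ _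
        · exact hu h
      · rw [Finset.insert_comm]
        exact hv2
    · rintro ⟨g, v⟩ _ ⟨g', v'⟩ _ he
      have h1 := Fin.cons_injective2 he
      obtain ⟨h1, h2⟩ := h1
      subst h1
      subst h2
      rfl
  rw [Finset.card_sigma] at h1
  calc Fintype.card V * (Good m u).card = ∑ g ∈ Good m u, Fintype.card V := by
        rw [Finset.sum_const, smul_eq_mul, mul_comm]
    _ ≤ ∑ g ∈ Good m u, 2 * (nb H (insert u (Finset.univ.image g))).card := by
        apply Finset.sum_le_sum
        intro g hg
        apply hD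
        obtain ⟨hi, hu⟩ := mem_Good.1 hg
        rw [Finset.card_insert_of_notMem hu, Finset.card_image_of_injective _ hi,
          Finset.card_univ, Fintype.card_fin]
        rfl
    _ = 2 * ∑ g ∈ Good m u, (nb H (insert u (Finset.univ.image g))).card := by
        rw [Finset.mul_sum]
    _ ≤ 2 * (Lf H m u).card := Nat.mul_le_mul_left 2 h1

theorem card_image_Lf {H : Finset (Finset V)} {m : ℕ} (hU : Uni H (m + 2)) {u : V}
    {f : Fin (m + 1) → V} (hf : f ∈ Lf H m u) : (Finset.univ.image f).card = m + 1 := by
  obtain ⟨h1, h2⟩ := mem_Lf.1 hf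
  have h3 := hU _ h2
  rw [Finset.card_insert_of_notMem h1] at h3
  omega

theorem sum_comm_ge {H : Finset (Finset V)} {m : ℕ} (hU : Uni H (m + 2)) (hD : Dirac H (m + 2))
    (u : V) : Fintype.card V * (Lf H m u).card ≤ 2 * ∑ v : V, (Lf H m u ∩ Lf H m v).card := by
  classical
  have h1 : ∑ v : V, (Lf H m u ∩ Lf H m v).card
      = ∑ f ∈ Lf H m u, (nb H (Finset.univ.image f)).card := by
    have h2 : ∀ v : V, (Lf H m u ∩ Lf H m v).card
        = ∑ f ∈ Lf H m u, if f ∈ Lf H m v then 1 else 0 := by
      intro v
      rw [← Finset.filter_mem_eq_inter, Finset.card_filter]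
    rw [Finset.sum_congr rfl fun v _ => h2 v, Finset.sum_comm]
    apply Finset.sum_congr rfl
    intro f _
    rw [← Finset.card_filter]
    apply congrArg Finset.card
    ext v
    unfold nb
    rw [Finset.mem_filter, Finset.mem_filter, mem_Lf]
  rw [h1, Finset.mul_sum]
  calc Fintype.card V * (Lf H m u).card = ∑ f ∈ Lf H m u, Fintype.card V := by
        rw [Finset.sum_const, smul_eq_mul, mul_comm]
    _ ≤ ∑ f ∈ Lf H m u, 2 * (nb H (Finset.univ.image f)).card := by
        apply Finset.sum_le_sum
        intro f hf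
        exact hD _ (card_image_Lf hU hf)

/-- almost all tuples are good -/
theorem good_real (m n : ℕ) (hn : 100 * m ^ 2 + 1 ≤ n) :
    99 / 100 * (n : ℝ) ^ m ≤ (((n - m) ^ m : ℕ) : ℝ) := by
  have hmn : m ≤ n := by nlinarith
  have hn0 : (0 : ℝ) < n := by
    have : 0 < n := by omega
    exact_mod_cast this
  rw [Nat.cast_pow, Nat.cast_sub hmn]
  have h1 : (n : ℝ) - m = n * (1 + -((m : ℝ) / n)) := by
    field_simp
    ring
  rw [h1, mul_pow]
  have h2 : (m : ℝ) * (m / n) ≤ 1 / 100 := by
    rw [← mul_div_assoc, div_le_div_iff₀ hn0 (by norm_num)]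
    have h3 : ((100 * m ^ 2 + 1 : ℕ) : ℝ) ≤ n := by exact_mod_cast hn
    push_cast at h3
    nlinarith
  have h3 : (m : ℝ) / n ≤ 1 := by
    rw [div_le_one hn0]
    exact_mod_cast hmn
  have h4 := one_add_mul_le_pow (a := -((m : ℝ) / n)) (by linarith) m
  have h5 : (99 : ℝ) / 100 ≤ (1 + -((m : ℝ) / n)) ^ m := by
    refine le_trans ?_ h4
    linarith
  have h6 : (0 : ℝ) ≤ (n : ℝ) ^ m := by positivity
  nlinarith

theorem Lf_real {H : Finset (Finset V)} {m : ℕ} (hD : Dirac H (m + 2)) (u : V)
    (hn : 100 * m ^ 2 + 1 ≤ Fintype.card V) :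
    99 / 200 * (Fintype.card V : ℝ) ^ (m + 1) ≤ ((Lf H m u).card : ℝ) := by
  have h1 := good_real m (Fintype.card V) hn
  have h2 : (((Fintype.card V - m) ^ m : ℕ) : ℝ) ≤ ((Good m u).card : ℝ) := by
    exact_mod_cast card_Good m u
  have h3 : ((Fintype.card V * (Good m u).card : ℕ) : ℝ) ≤ ((2 * (Lf H m u).card : ℕ) : ℝ) := by
    exact_mod_cast card_Lf hD u
  push_cast at h3
  have h4 : (0 : ℝ) ≤ (Fintype.card V : ℝ) := Nat.cast_nonneg _
  have h5 : (Fintype.card V : ℝ) * (99 / 100 * (Fintype.card V : ℝ) ^ m) ≤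
      (Fintype.card V : ℝ) * ((Good m u).card : ℝ) :=
    mul_le_mul_of_nonneg_left (le_trans h1 h2) h4
  rw [pow_succ]
  linarith

theorem card_fun (m : ℕ) : Fintype.card (Fin m → V) = Fintype.card V ^ m := by
  rw [Fintype.card_fun, Fintype.card_fin]

/-- of three vertices two are adjacent -/
theorem three {H : Finset (Finset V)} {m : ℕ} (hD : Dirac H (m + 2)) {μ : ℝ} (hμ : μ ≤ 1 / 8)
    (hn : 100 * m ^ 2 + 1 ≤ Fintype.card V) (x y z : V) :
    μ * (Fintype.card V : ℝ) ^ (m + 1) ≤ comm H (m + 2) x y ∨
    μ * (Fintype.card V : ℝ) ^ (m + 1) ≤ comm H (m + 2) y z ∨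
    μ * (Fintype.card V : ℝ) ^ (m + 1) ≤ comm H (m + 2) x z := by
  classical
  by_contra hcon
  push Not at hcon
  obtain ⟨h1, h2, h3⟩ := hcon
  rw [comm_eq] at h1 h2 h3
  have hx := Lf_real hD x hn
  have hy := Lf_real hD y hn
  have hz := Lf_real hD z hn
  have e1 := Finset.card_union_add_card_inter (Lf H m x) (Lf H m y)
  have e2 := Finset.card_union_add_card_inter (Lf H m x ∪ Lf H m y) (Lf H m z)
  have e3 : ((Lf H m x ∪ Lf H m y) ∩ Lf H m z).card ≤
      (Lf H m x ∩ Lf H m z).card + (Lf H m y ∩ Lf H m z).card := by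
    rw [Finset.union_inter_distrib_right]
    exact Finset.card_union_le _ _
  have e4 : (Lf H m x ∪ Lf H m y ∪ Lf H m z).card ≤ Fintype.card V ^ (m + 1) := by
    rw [← card_fun]
    exact Finset.card_le_univ _
  have hN : (0 : ℝ) < (Fintype.card V : ℝ) ^ (m + 1) := by
    have : 0 < Fintype.card V := by omega
    positivity
  have e1' : ((Lf H m x ∪ Lf H m y).card : ℝ) + ((Lf H m x ∩ Lf H m y).card : ℝ)
      = (Lf H m x).card + (Lf H m y).card := by exact_mod_cast e1
  have e2' : ((Lf H m x ∪ Lf H m y ∪ Lf H m z).card : ℝ)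
      + (((Lf H m x ∪ Lf H m y) ∩ Lf H m z).card : ℝ)
      = (Lf H m x ∪ Lf H m y).card + (Lf H m z).card := by exact_mod_cast e2
  have e3' : (((Lf H m x ∪ Lf H m y) ∩ Lf H m z).card : ℝ) ≤
      (Lf H m x ∩ Lf H m z).card + (Lf H m y ∩ Lf H m z).card := by exact_mod_cast e3
  have e4' : ((Lf H m x ∪ Lf H m y ∪ Lf H m z).card : ℝ) ≤ (Fintype.card V : ℝ) ^ (m + 1) := by
    exact_mod_cast e4
  have hμ' : μ * (Fintype.card V : ℝ) ^ (m + 1) ≤ 1 / 8 * (Fintype.card V : ℝ) ^ (m + 1) :=
    mul_le_mul_of_nonneg_right hμ hN.le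
  linarith

/-- degrees in the exchange graph -/
theorem degree {H : Finset (Finset V)} {m : ℕ} (hU : Uni H (m + 2)) (hD : Dirac H (m + 2)) {μ : ℝ}
    (hμ : μ ≤ 1 / 8) (hn : 100 * m ^ 2 + 1 ≤ Fintype.card V) (u : V) :
    1 / 9 * (Fintype.card V : ℝ) ≤
      ({v : V | μ * (Fintype.card V : ℝ) ^ (m + 1) ≤ comm H (m + 2) u v}.ncard : ℝ) := by
  classical
  have hn1 : 0 < Fintype.card V := by omega
  have hn2 : (0 : ℝ) < (Fintype.card V : ℝ) := by exact_mod_cast hn1
  set n : ℝ := (Fintype.card V : ℝ) with hnn
  have hn0 : 0 < n := hn2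
  have hN : 0 < n ^ (m + 1) := by positivity
  set A : Finset V := Finset.univ.filter fun v => μ * n ^ (m + 1) ≤ (comm H (m + 2) u v : ℝ)
    with hA
  have hAn : ({v : V | μ * n ^ (m + 1) ≤ (comm H (m + 2) u v : ℝ)}.ncard : ℝ) = (A.card : ℝ) := by
    rw [← Set.ncard_coe_finset, hA]
    simp
  rw [hAn]
  have h1 := Lf_real hD u hn
  have h2 : ((Fintype.card V * (Lf H m u).card : ℕ) : ℝ) ≤
      ((2 * ∑ v : V, (Lf H m u ∩ Lf H m v).card : ℕ) : ℝ) := by
    exact_mod_cast sum_comm_ge hU hD u
  push_cast at h2
  have h3 : ∀ v : V, ((Lf H m u ∩ Lf H m v).card : ℝ) ≤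
      (if v ∈ A then n ^ (m + 1) else 0) + 1 / 8 * n ^ (m + 1) := by
    intro v
    by_cases hv : v ∈ A
    · rw [if_pos hv]
      have h4 : ((Lf H m u ∩ Lf H m v).card : ℝ) ≤ n ^ (m + 1) := by
        have h5 : (Lf H m u ∩ Lf H m v).card ≤ Fintype.card V ^ (m + 1) := by
          rw [← card_fun]
          exact Finset.card_le_univ _
        rw [hnn]
        exact_mod_cast h5
      linarith
    · rw [if_neg hv]
      have h4 : ¬ μ * n ^ (m + 1) ≤ (comm H (m + 2) u v : ℝ) := by
        intro h
        apply hv
        rw [hA, Finset.mem_filter]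
        exact ⟨Finset.mem_univ _, h⟩
      push Not at h4
      rw [comm_eq] at h4
      have h5 : μ * n ^ (m + 1) ≤ 1 / 8 * n ^ (m + 1) := mul_le_mul_of_nonneg_right hμ hN.le
      linarith
  have h4 : (∑ v : V, ((Lf H m u ∩ Lf H m v).card : ℝ)) ≤
      A.card * n ^ (m + 1) + n * (1 / 8 * n ^ (m + 1)) := by
    refine le_trans (Finset.sum_le_sum fun v _ => h3 v) ?_
    rw [Finset.sum_add_distrib, Finset.sum_ite_mem, Finset.univ_inter, Finset.sum_const,
      Finset.sum_const, Finset.card_univ, nsmul_eq_mul, nsmul_eq_mul]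
  have h5 : n * (99 / 200 * n ^ (m + 1)) ≤ n * ((Lf H m u).card : ℝ) :=
    mul_le_mul_of_nonneg_left h1 hn0.le
  have h6 : 1 / 9 * n * n ^ (m + 1) ≤ A.card * n ^ (m + 1) := by
    nlinarith [mul_pos hn0 hN]
  exact le_of_mul_le_mul_right h6 hN

theorem nodup_ofFn_card {m : ℕ} (g : Fin m → V) : (List.ofFn g).toFinset = Finset.univ.image g := by
  ext x
  simp [List.mem_ofFn]

/-- lists in a class are tuples -/
theorem list_eq_ofFn {m : ℕ} (l : List V) (h : l.length = m) :
    ∃ g : Fin m → V, l = List.ofFn g := by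
  subst h
  exact ⟨fun i => l.get i, (List.ofFn_get l).symm⟩

/-- tuples in the common link which belong to a class -/
theorem swap_count {H : Finset (Finset V)} {m q : ℕ} {T : Fin q → Set (List V)}
    (hT : ∀ i, Tup (m + 2) (T i)) {μ γ : ℝ} (hP : P2 (m + 2) T γ) (hγ : γ ≤ μ / 2) {u v : V}
    (huv : μ * (Fintype.card V : ℝ) ^ (m + 1) ≤ comm H (m + 2) u v) :
    μ / 2 / ((m + 1).factorial : ℝ) * (Fintype.card V : ℝ) ^ (m + 1) ≤
        ({f : Fin (m + 1) → V | (∃ i, List.ofFn f ∈ T i) ∧
          u ∉ Finset.univ.image f ∧ v ∉ Finset.univ.image f ∧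
          insert u (Finset.univ.image f) ∈ H ∧ insert v (Finset.univ.image f) ∈ H}.ncard : ℝ) := by
  classical
  set Y : Set (Fin (m + 1) → V) :=
    {f | ¬ ∃ i, ∃ l ∈ T i, l.toFinset = Finset.univ.image f} with hY
  have hP' : (Y.ncard : ℝ) ≤ γ * (Fintype.card V : ℝ) ^ (m + 1) := hP
  set X : Set (Fin (m + 1) → V) := {f | u ∉ Finset.univ.image f ∧ v ∉ Finset.univ.image f ∧
    insert u (Finset.univ.image f) ∈ H ∧ insert v (Finset.univ.image f) ∈ H} with hX
  have huv' : μ * (Fintype.card V : ℝ) ^ (m + 1) ≤ (X.ncard : ℝ) := huv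
  set Z : Set (Fin (m + 1) → V) := {f | (∃ i, List.ofFn f ∈ T i) ∧
          u ∉ Finset.univ.image f ∧ v ∉ Finset.univ.image f ∧
          insert u (Finset.univ.image f) ∈ H ∧ insert v (Finset.univ.image f) ∈ H} with hZ
  have h1 : (X \ Y).ncard ≤ (m + 1).factorial * Z.ncard := by
    apply perm_count
    · rintro g ⟨⟨i, hi⟩, _⟩
      exact List.nodup_ofFn.1 (hT i _ hi).2
    · rintro f ⟨hf, hfY⟩
      have h2 : ∃ i, ∃ l ∈ T i, l.toFinset = Finset.univ.image f := by
        by_contra h
        exact hfY h
      obtain ⟨i, l, hl, hlf⟩ := h2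
      obtain ⟨g, rfl⟩ := list_eq_ofFn (m := m + 1) l (hT i l hl).1
      rw [nodup_ofFn_card] at hlf
      refine ⟨g, ⟨⟨i, hl⟩, ?_⟩, hlf.symm⟩
      rw [hlf]
      exact hf
  have h2 : X.ncard ≤ (X \ Y).ncard + Y.ncard := by
    have h3 : X ⊆ (X \ Y) ∪ Y := by
      intro x hx
      by_cases h : x ∈ Y
      · exact Or.inr h
      · exact Or.inl ⟨hx, h⟩
    exact le_trans (Set.ncard_le_ncard h3 (Set.toFinite _)) (Set.ncard_union_le _ _)
  have h3 : (X.ncard : ℝ) ≤ (m + 1).factorial * (Z.ncard : ℝ) + Y.ncard := by
    have : X.ncard ≤ (m + 1).factorial * Z.ncard + Y.ncard := le_trans h2 (by omega)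
    exact_mod_cast this
  have hfac : (0 : ℝ) < ((m + 1).factorial : ℝ) := by exact_mod_cast Nat.factorial_pos _
  have hN : (0 : ℝ) ≤ (Fintype.card V : ℝ) ^ (m + 1) := by positivity
  rw [div_mul_eq_mul_div, div_le_iff₀ hfac]
  have h4 : γ * (Fintype.card V : ℝ) ^ (m + 1) ≤ μ / 2 * (Fintype.card V : ℝ) ^ (m + 1) :=
    mul_le_mul_of_nonneg_right hγ hN
  linarith

/-- many edges with both end tuples in one class -/
theorem edge_count {H : Finset (Finset V)} {m q : ℕ} {T : Fin q → Set (List V)}
    (hP : P3 H (m + 2) T (1 / 8)) :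
    1 / 4 / ((m + 2).factorial : ℝ) * (Fintype.card V : ℝ) ^ (m + 2) ≤
      ({f : Fin (m + 2) → V | ∃ i, EdgeIn H (m + 2) (T i) (List.ofFn f)}.ncard : ℝ) := by
  classical
  set n : ℝ := (Fintype.card V : ℝ) with hnn
  have hn0 : 0 ≤ n := Nat.cast_nonneg _
  set gg : (Fin (m + 1) → V) → Finset V := fun f => gn H (m + 2) T f with hgg
  set E : Finset (Fin (m + 1) → V) :=
    Finset.univ.filter fun f => ((gg f).card : ℝ) < (1 / 2 - 1 / 8) * n with hE
  have hEc : (E.card : ℝ) ≤ 1 / 8 * n ^ (m + 1) := by
    have h1 : ({f : Fin (m + 1) → V | ((gg f).card : ℝ) < (1 / 2 - 1 / 8) * n}.ncard : ℝ) ≤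
      1 / 8 * n ^ (m + 1) := hP
    have h2 : ({f : Fin (m + 1) → V | ((gg f).card : ℝ) < (1 / 2 - 1 / 8) * n}).ncard = E.card := by
      rw [← Set.ncard_coe_finset, hE]
      simp
    rw [h2] at h1
    exact h1
  have hEn : E.card ≤ Fintype.card V ^ (m + 1) := by
    rw [← card_fun]
    exact Finset.card_le_univ _
  have hEC : ((Eᶜ).card : ℝ) = n ^ (m + 1) - E.card := by
    rw [Finset.card_compl, card_fun, Nat.cast_sub hEn]
    push_cast
    rfl
  set X : Set (Fin (m + 2) → V) := {p | OrdIn H (m + 2) T (Finset.univ.image p)} with hX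
  set Z : Set (Fin (m + 2) → V) := {f | ∃ i, EdgeIn H (m + 2) (T i) (List.ofFn f)} with hZ
  have h1 : X.ncard ≤ (m + 2).factorial * Z.ncard := by
    apply perm_count
    · rintro g ⟨i, hi⟩
      exact List.nodup_ofFn.1 hi.1
    · rintro p ⟨i, l, hl, hle⟩
      obtain ⟨g, rfl⟩ := list_eq_ofFn (m := m + 2) l hle.2.1
      rw [nodup_ofFn_card] at hl
      exact ⟨g, ⟨i, hle⟩, hl.symm⟩
  have h2 : ((Eᶜ).sigma fun f => gg f).card ≤ X.ncard := by
    rw [Set.ncard_eq_toFinset_card' X]
    apply Finset.card_le_card_of_injOn (fun p => (Fin.cons p.2 p.1 : Fin (m + 2) → V))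
    · rintro ⟨f, v⟩ hp
      rw [Finset.mem_coe, Finset.mem_sigma] at hp
      obtain ⟨_, hv⟩ := hp
      rw [Finset.mem_coe, Set.mem_toFinset]
      simp only [hgg] at hv
      unfold gn at hv
      rw [Finset.mem_filter] at hv
      change OrdIn H (m + 2) T (Finset.univ.image (Fin.cons v f : Fin (m + 2) → V))
      rw [image_cons]
      exact hv.2
    · rintro ⟨g, v⟩ _ ⟨g', v'⟩ _ he
      have h1 := Fin.cons_injective2 he
      obtain ⟨h1, h2⟩ := h1
      subst h1
      subst h2
      rfl
  have h3 : ((Eᶜ).card : ℝ) * ((1 / 2 - 1 / 8) * n) ≤ (((Eᶜ).sigma fun f => gg f).card : ℝ) := by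
    rw [Finset.card_sigma]
    push_cast
    rw [← nsmul_eq_mul]
    apply Finset.card_nsmul_le_sum
    intro f hf
    rw [Finset.mem_compl, hE, Finset.mem_filter] at hf
    by_contra hcon
    push Not at hcon
    exact hf ⟨Finset.mem_univ _, hcon⟩
  have h4 : (((Eᶜ).sigma fun f => gg f).card : ℝ) ≤ (m + 2).factorial * (Z.ncard : ℝ) := by
    have : ((Eᶜ).sigma fun f => gg f).card ≤ (m + 2).factorial * Z.ncard := le_trans h2 h1
    exact_mod_cast this
  have hfac : (0 : ℝ) < ((m + 2).factorial : ℝ) := by exact_mod_cast Nat.factorial_pos _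
  rw [div_mul_eq_mul_div, div_le_iff₀ hfac]
  have h5 : 7 / 8 * n ^ (m + 1) ≤ ((Eᶜ).card : ℝ) := by
    rw [hEC]
    linarith
  have h6 : 7 / 8 * n ^ (m + 1) * ((1 / 2 - 1 / 8) * n) ≤ ((Eᶜ).card : ℝ) * ((1 / 2 - 1 / 8) * n) := by
    apply mul_le_mul_of_nonneg_right h5
    positivity
  have h7 : n ^ (m + 2) = n ^ (m + 1) * n := pow_succ n (m + 1)
  have h8 : 0 ≤ n ^ (m + 1) * n := by positivity
  rw [h7]
  nlinarith

/-- the classes contain tuples outside every small set -/
theorem rich_of_size {m : ℕ} {T : Set (List V)} {c : ℝ} (hc : 0 < c) (hV : 0 < Fintype.card V)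
    (hT : c * (Fintype.card V : ℝ) ^ (m + 1) ≤
      ({f : Fin (m + 1) → V | List.ofFn f ∈ T}.ncard : ℝ)) : Rich T (c / (m + 2)) := by
  classical
  intro W hW
  by_contra hcon
  push Not at hcon
  have hn0 : (0 : ℝ) < Fintype.card V := by exact_mod_cast hV
  have h1 : ({f : Fin (m + 1) → V | List.ofFn f ∈ T}).ncard ≤
      (m + 1) * (W.card * Fintype.card V ^ m) := by
    have h2 : {f : Fin (m + 1) → V | List.ofFn f ∈ T} ⊆
        ((Finset.univ : Finset (Fin (m + 1))).biUnion
          (fun j => ((W ×ˢ (Finset.univ : Finset (Fin m → V))).image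
            (fun p => (Fin.insertNth j p.1 p.2 : Fin (m + 1) → V)))) : Finset (Fin (m + 1) → V)) := by
      intro f hf
      obtain ⟨v, hv, hvW⟩ := hcon _ hf
      obtain ⟨j, hj⟩ := (List.mem_ofFn' f v).1 hv
      rw [Finset.mem_coe, Finset.mem_biUnion]
      refine ⟨j, Finset.mem_univ _, Finset.mem_image.2 ⟨(v, j.removeNth f), ?_, ?_⟩⟩
      · rw [Finset.mem_product]
        exact ⟨hvW, Finset.mem_univ _⟩
      · simp only
        rw [← hj]
        exact Fin.insertNth_self_removeNth j f
    refine le_trans (Set.ncard_le_ncard h2 (Set.toFinite _)) ?_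
    rw [Set.ncard_coe_finset]
    refine le_trans Finset.card_biUnion_le ?_
    refine le_trans (Finset.sum_le_card_nsmul _ _ (W.card * Fintype.card V ^ m) ?_) ?_
    · intro j _
      refine le_trans Finset.card_image_le ?_
      rw [Finset.card_product, Finset.card_univ, card_fun]
    · rw [Finset.card_univ, Fintype.card_fin, smul_eq_mul]
  have h2 : (({f : Fin (m + 1) → V | List.ofFn f ∈ T}).ncard : ℝ) ≤
      (m + 1) * (W.card * (Fintype.card V : ℝ) ^ m) := by exact_mod_cast h1
  have hm : (0 : ℝ) < (m : ℝ) + 2 := by positivity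
  rw [div_mul_eq_mul_div, le_div_iff₀ hm] at hW
  have h3 : 0 < (Fintype.card V : ℝ) ^ m := by positivity
  have h4 : c * (Fintype.card V : ℝ) ^ (m + 1) ≤ (m + 1) * (W.card * (Fintype.card V : ℝ) ^ m) :=
    le_trans hT h2
  rw [pow_succ] at h4
  have h5 : c * (Fintype.card V : ℝ) * (Fintype.card V : ℝ) ^ m ≤
      ((m + 1) * W.card) * (Fintype.card V : ℝ) ^ m := by linarith
  have h6 := le_of_mul_le_mul_right h5 h3
  have h7 : 0 < c * (Fintype.card V : ℝ) := by positivity
  have h8 : (0 : ℝ) ≤ (W.card : ℝ) := Nat.cast_nonneg _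
  rcases h8.eq_or_lt with h9 | h9
  · rw [← h9] at h6
    linarith
  · nlinarith

/-- smaller constants -/
theorem Rich.mono {T : Set (List V)} {c c' : ℝ} (h : Rich T c) (hc : c' ≤ c) : Rich T c' := by
  intro W hW
  apply h W
  refine le_trans hW ?_
  exact mul_le_mul_of_nonneg_right hc (Nat.cast_nonneg _)

theorem joins_mono {H : Finset (Finset V)} {k M : ℕ} {T : Set (List V)} {c c' : ℝ} (hc : c' ≤ c)
    (h : Joins H k T c M) : Joins H k T c' M := by
  intro a ha b hb hab
  obtain ⟨m, hm, h1⟩ := h a ha b hb hab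
  refine ⟨m, hm, le_trans ?_ h1⟩
  exact mul_le_mul_of_nonneg_right hc (by positivity)

theorem joinsAll_mono {H : Finset (Finset V)} {k M : ℕ} {T : Set (List V)} {c c' : ℝ} (hc : c' ≤ c)
    (h : JoinsAll H k T c M) : JoinsAll H k T c' M := by
  intro a ha b hb hab t
  obtain ⟨m, hm, h0, h1⟩ := h a ha b hb hab t
  refine ⟨m, hm, h0, le_trans ?_ h1⟩
  exact mul_le_mul_of_nonneg_right hc (by positivity)

theorem P3_mono {H : Finset (Finset V)} {k q : ℕ} {T : Fin q → Set (List V)} {γ γ' : ℝ}
    (h : γ ≤ γ') (hP : P3 H k T γ) : P3 H k T γ' := by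
  unfold P3 at hP ⊢
  have h1 : {f : Fin (k - 1) → V | ((gn H k T f).card : ℝ) < (1 / 2 - γ') * Fintype.card V} ⊆
      {f : Fin (k - 1) → V | ((gn H k T f).card : ℝ) < (1 / 2 - γ) * Fintype.card V} := by
    intro f hf
    have hf' : ((gn H k T f).card : ℝ) < (1 / 2 - γ') * Fintype.card V := hf
    refine lt_of_lt_of_le hf' ?_
    exact mul_le_mul_of_nonneg_right (by linarith) (Nat.cast_nonneg _)
  have h2 := Set.ncard_le_ncard h1 (Set.toFinite _)
  have h3 : (({f : Fin (k - 1) → V |
      ((gn H k T f).card : ℝ) < (1 / 2 - γ') * Fintype.card V}.ncard : ℕ) : ℝ) ≤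
      (({f : Fin (k - 1) → V |
      ((gn H k T f).card : ℝ) < (1 / 2 - γ) * Fintype.card V}.ncard : ℕ) : ℝ) := by
    exact_mod_cast h2
  refine le_trans h3 (le_trans hP ?_)
  exact mul_le_mul_of_nonneg_right h (by positivity)

/-- **ALP** -/
theorem alp (chn : ChnStmt) (swc : SwcStmt) (blk : BlkStmt) (gdc : GdcStmt) (asm : AsmStmt)
    (cov : CovStmt) : AlpStmt := by
  intro k M q C c κ μ hk hc hκ hμ hμ8 hq
  obtain ⟨m, rfl⟩ : ∃ m, k = m + 2 := ⟨k - 2, by omega⟩
  -- the constants
  obtain ⟨c₃, n₁, hc₃, hchn⟩ := chn (1 / 9) κ (by norm_num) (by norm_num) hκ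
  have hfac1 : (0 : ℝ) < ((m + 1).factorial : ℝ) := by exact_mod_cast Nat.factorial_pos _
  have hfac2 : (0 : ℝ) < ((m + 2).factorial : ℝ) := by exact_mod_cast Nat.factorial_pos _
  obtain ⟨cs, n₂, hcs, hswc⟩ := swc (m + 2) q (μ / 2 / ((m + 1).factorial : ℝ)) (by omega) hq
    (by positivity)
  obtain ⟨cb, n₃, hcb, hblk⟩ := blk (m + 2) q (1 / 4 / ((m + 2).factorial : ℝ)) (by omega) hq
    (by positivity)
  obtain ⟨cg, n₄, hcg, hgdc⟩ := gdc (m + 2) cb c₃ cs (by omega) hcb hc₃ hcs
  have hm2 : (0 : ℝ) < (m : ℝ) + 2 := by positivity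
  set cA : ℝ := min (c / (m + 2)) cg with hcA
  have hcA0 : 0 < cA := lt_min (by positivity) hcg
  have hcA1 : cA ≤ c := by
    refine le_trans (min_le_left _ _) ?_
    rw [div_le_iff₀ hm2]
    have : (0 : ℝ) ≤ m := Nat.cast_nonneg _
    nlinarith
  have hls : 0 < (gadLen (m + 2)).sum := by
    unfold gadLen
    simp
  obtain ⟨ξ, L, n₅, hξ, hasm⟩ := asm (m + 2) M q C (gadLen (m + 2)) cA (by omega) hcA0 hq hls
  obtain ⟨γc, n₆, hγc, hcov⟩ := cov (m + 2) q L ξ hk hq hξ
  refine ⟨min γc (min (μ / 2) (1 / 8)), n₁ + n₂ + n₃ + n₄ + n₅ + n₆ + (100 * m ^ 2 + 1), ?_, ?_⟩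
  · exact lt_min hγc (lt_min (by positivity) (by norm_num))
  intro V _ _ H T i₀ hn hU hD hT hJ hJA hsize hP2 hP3 hpart htour
  have hn7 : 100 * m ^ 2 + 1 ≤ Fintype.card V := by omega
  have hV : 0 < Fintype.card V := by omega
  have hγ1 : min γc (min (μ / 2) (1 / 8)) ≤ μ / 2 :=
    le_trans (min_le_right _ _) (min_le_left _ _)
  have hγ2 : min γc (min (μ / 2) (1 / 8)) ≤ 1 / 8 :=
    le_trans (min_le_right _ _) (min_le_right _ _)
  -- the exchange graph
  have hS : ∀ u v : V, μ * (Fintype.card V : ℝ) ^ (m + 1) ≤ comm H (m + 2) u v →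
      Swp H (m + 2) T cs u v := by
    intro u v huv
    apply hswc V H T (by omega) hU hT u v
    exact swap_count hT hP2 hγ1 huv
  have hch : ∀ y z : V, c₃ * (Fintype.card V : ℝ) ^ 3 ≤
        ({v : V × V × V | Swp H (m + 2) T cs y v.1 ∧ Swp H (m + 2) T cs v.1 v.2.1 ∧
          Swp H (m + 2) T cs v.2.1 v.2.2 ∧ Swp H (m + 2) T cs v.2.2 z}.ncard : ℝ) := by
    intro y z
    have h1 := hchn V (by omega)
      (fun u v => μ * (Fintype.card V : ℝ) ^ (m + 1) ≤ comm H (m + 2) u v) (by
        intro x y hxy
        have h2 : comm H (m + 2) x y = comm H (m + 2) y x := by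
          rw [comm_eq, comm_eq, Finset.inter_comm]
        rw [← h2]
        exact hxy) (by
        intro x y z _ _ _
        exact three hD hμ8 hn7 x y z) (by
        intro x
        exact degree hU hD hμ8 hn7 x) (by
        intro A hA1 hA2
        apply hpart A
        · refine le_trans (le_of_eq ?_) hA1
          ring
        · refine le_trans (le_of_eq ?_) hA2
          ring) y z
    refine le_trans h1 ?_
    have h2 : {v : V × V × V | μ * (Fintype.card V : ℝ) ^ (m + 1) ≤ comm H (m + 2) y v.1 ∧
        μ * (Fintype.card V : ℝ) ^ (m + 1) ≤ comm H (m + 2) v.1 v.2.1 ∧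
        μ * (Fintype.card V : ℝ) ^ (m + 1) ≤ comm H (m + 2) v.2.1 v.2.2 ∧
        μ * (Fintype.card V : ℝ) ^ (m + 1) ≤ comm H (m + 2) v.2.2 z} ⊆
        {v : V × V × V | Swp H (m + 2) T cs y v.1 ∧ Swp H (m + 2) T cs v.1 v.2.1 ∧
          Swp H (m + 2) T cs v.2.1 v.2.2 ∧ Swp H (m + 2) T cs v.2.2 z} := by
      rintro v ⟨h1, h2, h3, h4⟩
      exact ⟨hS _ _ h1, hS _ _ h2, hS _ _ h3, hS _ _ h4⟩
    exact_mod_cast Set.ncard_le_ncard h2 (Set.toFinite _)
  -- the gadgets
  have hb := hblk V H T (by omega) hU hT (edge_count (P3_mono hγ2 hP3))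
  have hgad := hgdc V (Fin q) H T (by omega) hT hb hch
  refine hasm V H T i₀ (by omega) hT (fun i => joins_mono hcA1 (hJ i)) (joinsAll_mono hcA1 hJA)
    (fun i => Rich.mono (rich_of_size hc hV (hsize i)) (min_le_left _ _)) ?_ htour ?_
  · intro y hy
    refine le_trans ?_ (hgad y hy)
    exact mul_le_mul_of_nonneg_right (min_le_right _ _) (by positivity)
  · exact hcov V H T (by omega) hU hT (P3_mono (min_le_left _ _) hP3)

end Pool.Agent.KK.H92
end

/-! ### Helper56_KK.GSL1 -/
section
/-!
# G_GSL, part 1: windows of the block between free letters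
-/

set_option autoImplicit false

namespace Pool.Agent.KK.E.H56

variable {L : ℕ}

/-- positions: the free letters, the block, the free letters -/
def TT (L : ℕ) (c uL uR : List Bool) : List (Option (Fin L) × Bool) :=
  uL.map (fun b => ((none : Option (Fin L)), b)) ++
    (List.ofFn (fun i : Fin L => (some i, c.getD i false)) ++ uR.map (fun b => (none, b)))

/-- the slot of a position -/
def sl {V : Type} (f : Fin L → V) (x : Option (Fin L) × Bool) : Slot V :=
  x.1.elim (Sum.inr x.2) fun i => Sum.inl (f i)

theorem TT_sl {V : Type} (f : Fin L → V) (c uL uR : List Bool) :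
    (TT L c uL uR).map (sl f) = fw uL ++ vx (List.ofFn f) ++ fw uR := by
  unfold TT fw vx
  rw [List.map_append, List.map_append, List.map_map, List.map_map, List.append_assoc]
  congr 1
  congr 1
  rw [List.map_ofFn, List.map_ofFn]
  rfl

theorem TT_snd {c uL uR : List Bool} (hc : c.length = L) :
    (TT L c uL uR).map Prod.snd = uL ++ c ++ uR := by
  unfold TT
  rw [List.map_append, List.map_append, List.map_map, List.map_map, List.append_assoc]
  have h1 : (List.ofFn (fun i : Fin L => (some i, c.getD i false))).map Prod.snd = c := by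
    rw [List.map_ofFn]
    apply List.ext_getElem
    · rw [List.length_ofFn, hc]
    · intro i h1 h2
      rw [List.getElem_ofFn]
      simp only [Function.comp_apply]
      rw [List.getD_eq_getElem _ _ h2]
  rw [h1]
  congr 1
  · exact List.map_id _
  · congr 1
    exact List.map_id _

theorem TT_length (c uL uR : List Bool) : (TT L c uL uR).length = uL.length + (L + uR.length) := by
  unfold TT
  rw [List.length_append, List.length_append, List.length_map, List.length_map, List.length_ofFn]

theorem TT_nodup (c uL uR : List Bool) : ((TT L c uL uR).filterMap Prod.fst).Nodup := by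
  have h1 : (TT L c uL uR).filterMap Prod.fst = List.finRange L := by
    unfold TT
    rw [List.filterMap_append, List.filterMap_append, List.filterMap_map, List.filterMap_map,
      List.ofFn_eq_map, List.filterMap_map]
    have h2 : ∀ u : List Bool, u.filterMap
        (Prod.fst ∘ fun b => ((none : Option (Fin L)), b)) = [] := by
      intro u
      rw [List.filterMap_eq_nil_iff]
      intro b _
      rfl
    rw [h2, h2, List.nil_append, List.append_nil]
    exact List.filterMap_some
  rw [h1]
  exact List.nodup_finRange L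

/-- the window -/
def Tw (L : ℕ) (c uL uR : List Bool) (a k : ℕ) : List (Option (Fin L) × Bool) :=
  ((TT L c uL uR).drop a).take k

theorem Tw_nodup (c uL uR : List Bool) (a k : ℕ) :
    ((Tw L c uL uR a k).filterMap Prod.fst).Nodup := by
  refine List.Nodup.sublist ?_ (TT_nodup c uL uR)
  exact List.Sublist.filterMap _ ((List.take_sublist k _).trans (List.drop_sublist a _))

theorem mem_Tw {c uL uR : List Bool} {a k : ℕ} {x : Option (Fin L) × Bool} :
    x ∈ Tw L c uL uR a k ↔ ∃ j, a ≤ j ∧ j < a + k ∧ (TT L c uL uR)[j]? = some x := by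
  unfold Tw
  rw [List.mem_iff_getElem?]
  constructor
  · rintro ⟨t, ht⟩
    rw [List.getElem?_take] at ht
    split_ifs at ht with h
    rw [List.getElem?_drop] at ht
    exact ⟨a + t, by omega, by omega, ht⟩
  · rintro ⟨j, h1, h2, h3⟩
    refine ⟨j - a, ?_⟩
    rw [List.getElem?_take, if_pos (by omega), List.getElem?_drop]
    rw [show a + (j - a) = j by omega]
    exact h3

theorem TT_get {c uL uR : List Bool} {j : ℕ} {x : Option (Fin L) × Bool}
    (h : (TT L c uL uR)[j]? = some x) :
    ((j < uL.length ∨ uL.length + L ≤ j) ∧ x.1 = none) ∨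
      ∃ i : Fin L, j = (i : ℕ) + uL.length ∧ x = (some i, c.getD i false) := by
  unfold TT at h
  rw [List.getElem?_append] at h
  split_ifs at h with h1
  · rw [List.length_map] at h1
    rw [List.getElem?_map, Option.map_eq_some_iff] at h
    obtain ⟨b, _, hb⟩ := h
    left
    exact ⟨Or.inl h1, by rw [← hb]⟩
  · rw [List.length_map] at h1 h
    rw [List.getElem?_append] at h
    split_ifs at h with h2
    · rw [List.length_ofFn] at h2
      right
      rw [List.getElem?_ofFn, dif_pos h2, Option.some_inj] at h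
      exact ⟨⟨j - uL.length, h2⟩, by simp only; omega, h.symm⟩
    · rw [List.length_ofFn] at h2
      rw [List.getElem?_map, Option.map_eq_some_iff] at h
      obtain ⟨b, _, hb⟩ := h
      left
      exact ⟨Or.inr (by omega), by rw [← hb]⟩

theorem TT_get' (c uL uR : List Bool) (i : Fin L) :
    (TT L c uL uR)[(i : ℕ) + uL.length]? = some (some i, c.getD i false) := by
  unfold TT
  rw [List.getElem?_append_right (by rw [List.length_map]; omega), List.length_map,
    List.getElem?_append_left (by rw [List.length_ofFn]; omega),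
    Nat.add_sub_cancel, List.getElem?_ofFn, dif_pos i.2]

theorem mem_Tw_some {c uL uR : List Bool} {a k : ℕ} {i : Fin L} {b : Bool} :
    (some i, b) ∈ Tw L c uL uR a k ↔
      (a ≤ (i : ℕ) + uL.length ∧ (i : ℕ) + uL.length < a + k) ∧ c.getD i false = b := by
  rw [mem_Tw]
  constructor
  · rintro ⟨j, h1, h2, h3⟩
    rcases TT_get h3 with ⟨_, h⟩ | ⟨i', hj, hi⟩
    · exact absurd h (by simp)
    · rw [Prod.mk.injEq, Option.some_inj] at hi
      obtain ⟨rfl, rfl⟩ := hi
      rw [← hj]
      exact ⟨⟨h1, h2⟩, rfl⟩
  · rintro ⟨⟨h1, h2⟩, rfl⟩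
    exact ⟨_, h1, h2, TT_get' c uL uR i⟩

theorem mem_Tw_none {c uL uR : List Bool} {a k : ℕ} {b : Bool}
    (h : (none, b) ∈ Tw L c uL uR a k) : a < uL.length ∨ uL.length + L < a + k := by
  rw [mem_Tw] at h
  obtain ⟨j, h1, h2, h3⟩ := h
  rcases TT_get h3 with ⟨h | h, _⟩ | ⟨i', hj, hi⟩
  · left; omega
  · right; omega
  · exact absurd (congrArg Prod.fst hi) (by simp)

theorem count_eq {V : Type} [DecidableEq V] (f : Fin L → V) (b : Bool)
    (T : List (Option (Fin L) × Bool)) (hT : (T.filterMap Prod.fst).Nodup) :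
    (T.map Prod.snd).count b = (T.map (sl f)).count (Sum.inr b) +
      (Finset.univ.filter fun i : Fin L => (some i, b) ∈ T).card := by
  classical
  induction T with
  | nil => simp
  | cons x T ih =>
    obtain ⟨o, b'⟩ := x
    rw [List.map_cons, List.map_cons, List.count_cons, List.count_cons]
    cases o with
    | none =>
      rw [List.filterMap_cons_none (by rfl)] at hT
      rw [ih hT]
      have h1 : (Finset.univ.filter fun i : Fin L => (some i, b) ∈ (none, b') :: T) =
          (Finset.univ.filter fun i : Fin L => (some i, b) ∈ T) := by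
        apply Finset.filter_congr
        intro i _
        rw [List.mem_cons]
        simp
      rw [h1]
      have h2 : (sl f ((none : Option (Fin L)), b') == Sum.inr b) = (b' == b) := rfl
      rw [h2]
      simp only
      omega
    | some i =>
      rw [List.filterMap_cons_some (b := i) (by rfl), List.nodup_cons] at hT
      rw [ih hT.2]
      have h2 : (sl f (some i, b') == Sum.inr b) = false := rfl
      rw [h2]
      have hi : ∀ b'', (some i, b'') ∉ T := by
        intro b'' h
        apply hT.1
        rw [List.mem_filterMap]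
        exact ⟨_, h, rfl⟩
      by_cases hb : b' = b
      · subst hb
        have h1 : (Finset.univ.filter fun j : Fin L => (some j, b') ∈ (some i, b') :: T) =
            insert i (Finset.univ.filter fun j : Fin L => (some j, b') ∈ T) := by
          ext j
          rw [Finset.mem_insert, Finset.mem_filter, Finset.mem_filter, List.mem_cons]
          simp
        rw [h1, Finset.card_insert_of_notMem]
        · simp
          omega
        · rw [Finset.mem_filter]
          exact fun h => hi _ h.2
      · have h1 : (Finset.univ.filter fun j : Fin L => (some j, b) ∈ (some i, b') :: T) =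
            (Finset.univ.filter fun j : Fin L => (some j, b) ∈ T) := by
          apply Finset.filter_congr
          intro j _
          rw [List.mem_cons]
          constructor
          · rintro (h | h)
            · exact absurd (congrArg Prod.snd h).symm hb
            · exact h
          · exact fun h => Or.inr h
        rw [h1]
        simp [hb]

theorem fx_eq {V : Type} [DecidableEq V] (f : Fin L → V) (T : List (Option (Fin L) × Bool)) (v : V) :
    v ∈ (fx (T.map (sl f))).toFinset ↔ ∃ (i : Fin L) (b : Bool), (some i, b) ∈ T ∧ f i = v := by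
  unfold fx
  rw [List.mem_toFinset, List.mem_filterMap]
  constructor
  · rintro ⟨s, hs, hv⟩
    rw [List.mem_map] at hs
    obtain ⟨⟨o, b⟩, hx, rfl⟩ := hs
    cases o with
    | none => exact absurd hv (by simp [sl])
    | some i =>
      refine ⟨i, b, hx, ?_⟩
      simpa [sl] using hv
  · rintro ⟨i, b, h, rfl⟩
    exact ⟨Sum.inl (f i), List.mem_map.2 ⟨_, h, rfl⟩, rfl⟩

theorem infix_window {α : Type} {s l : List α} (h : s <:+: l) :
    ∃ a, a + s.length ≤ l.length ∧ s = (l.drop a).take s.length := by
  obtain ⟨u, v, rfl⟩ := h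
  refine ⟨u.length, ?_, ?_⟩
  · simp only [List.length_append]
    omega
  · rw [List.append_assoc, List.drop_left, List.take_left]

end Pool.Agent.KK.E.H56
end

/-! ### Helper56_KK.GSL2 -/
section
/-!
# G_GSL, part 2: the density of the bad events of an ordinary window
-/

set_option autoImplicit false

namespace Pool.Agent.KK.E.H56

variable {V : Type} [Fintype V] [DecidableEq V] {L : ℕ}

theorem sd_ne {X : Finset V} (hX : X.Nonempty) (hX' : (Xᶜ).Nonempty) (b : Bool) :
    (sd X b).Nonempty := by
  cases b
  · exact hX'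
  · exact hX

theorem bx_ne {X : Finset V} (hX : X.Nonempty) (hX' : (Xᶜ).Nonempty) {ι : Type} (l : ι → Bool)
    (o : ι → Option V) (i : ι) : (bx X l o i).Nonempty := by
  unfold bx
  cases o i with
  | none => exact sd_ne hX hX' _
  | some v => exact Finset.singleton_nonempty v

theorem card_fixed {X M' : Finset V} {l : Fin L → Bool} {o : Fin L → Option V}
    {I : Finset (Fin L)} (hM' : ∀ v, v ∈ M' ↔ ∃ i ∈ I, o i = some v)
    (inj : ∀ i i' v, o i = some v → o i' = some v → i = i')
    (hlet : ∀ i ∈ I, ∀ v, o i = some v → (v ∈ X ↔ l i = true)) (b : Bool) :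
    (I.filter fun i => l i = b ∧ ¬ o i = none).card =
      (M'.filter fun v => decide (v ∈ X) = b).card := by
  refine Finset.card_bij (fun i hi => (o i).get
    (Option.isSome_iff_ne_none.2 (Finset.mem_filter.1 hi).2.2)) ?_ ?_ ?_
  · intro i hi
    have h1 := Finset.mem_filter.1 hi
    obtain ⟨v, hv⟩ := Option.ne_none_iff_exists'.1 h1.2.2
    have h2 : (o i).get (Option.isSome_iff_ne_none.2 h1.2.2) = v := by
      simp only [hv, Option.get_some]
    rw [h2, Finset.mem_filter]
    refine ⟨(hM' v).2 ⟨i, h1.1, hv⟩, ?_⟩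
    have h3 := hlet i h1.1 v hv
    rw [h1.2.1] at h3
    cases b
    · rw [decide_eq_false_iff_not]
      intro h4
      exact absurd (h3.1 h4) (by decide)
    · rw [decide_eq_true_iff]
      exact h3.2 rfl
  · intro i hi i' hi' h
    have h1 := Finset.mem_filter.1 hi
    have h1' := Finset.mem_filter.1 hi'
    obtain ⟨v, hv⟩ := Option.ne_none_iff_exists'.1 h1.2.2
    obtain ⟨v', hv'⟩ := Option.ne_none_iff_exists'.1 h1'.2.2
    have h2 : (o i).get (Option.isSome_iff_ne_none.2 h1.2.2) = v := by
      simp only [hv, Option.get_some]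
    have h2' : (o i').get (Option.isSome_iff_ne_none.2 h1'.2.2) = v' := by
      simp only [hv', Option.get_some]
    rw [h2, h2'] at h
    rw [← h] at hv'
    exact inj i i' v hv hv'
  · intro v hv
    have h1 := Finset.mem_filter.1 hv
    obtain ⟨i, hi, hiv⟩ := (hM' v).1 h1.1
    have h2 : ¬ o i = none := by rw [hiv]; simp
    have h3 : l i = b := by
      have h4 := hlet i hi v hiv
      have h5 := h1.2
      cases b
      · rw [decide_eq_false_iff_not] at h5
        cases h6 : l i
        · rfl
        · exact absurd (h4.2 h6) h5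
      · rw [decide_eq_true_iff] at h5
        exact h4.1 h5
    refine ⟨i, Finset.mem_filter.2 ⟨hi, h3, h2⟩, ?_⟩
    simp only [hiv, Option.get_some]

theorem card_free {l : Fin L → Bool} {o : Fin L → Option V} {I : Finset (Fin L)} (b : Bool) :
    (Finset.univ.filter fun j : {i : Fin L // i ∈ I ∧ o i = none} => l j = b).card =
      (I.filter fun i => l i = b ∧ o i = none).card := by
  rw [← Finset.card_map ⟨Subtype.val, Subtype.val_injective⟩]
  congr 1
  ext i
  rw [Finset.mem_map, Finset.mem_filter]
  constructor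
  · rintro ⟨j, hj, rfl⟩
    exact ⟨j.2.1, (Finset.mem_filter.1 hj).2, j.2.2⟩
  · rintro ⟨h1, h2, h3⟩
    exact ⟨⟨i, h1, h3⟩, Finset.mem_filter.2 ⟨Finset.mem_univ _, h2⟩, rfl⟩

theorem card_split {l : Fin L → Bool} {o : Fin L → Option V} {I : Finset (Fin L)} (b : Bool) :
    (I.filter fun i => l i = b).card = (I.filter fun i => l i = b ∧ o i = none).card +
      (I.filter fun i => l i = b ∧ ¬ o i = none).card := by
  rw [← Finset.filter_filter, ← Finset.filter_filter]
  exact (Finset.card_filter_add_card_filter_not (s := I.filter fun i => l i = b)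
    (fun i => o i = none)).symm

theorem dens_ord (e01 : StmtE01) (e02 : StmtE02) (g02 : StmtG02) {H : Finset (Finset V)}
    {X M' : Finset V} (hX : X.Nonempty) (hX' : (Xᶜ).Nonempty) {l : Fin L → Bool}
    {o : Fin L → Option V} {I : Finset (Fin L)} (hM' : ∀ v, v ∈ M' ↔ ∃ i ∈ I, o i = some v)
    (inj : ∀ i i' v, o i = some v → o i' = some v → i = i')
    (hlet : ∀ i ∈ I, ∀ v, o i = some v → (v ∈ X ↔ l i = true)) {a' b' A B : ℕ} {ε : ℝ}
    (hε : 0 < ε) (hA : A + (M' ∩ X).card = a' + (I.filter fun i => l i = true).card)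
    (hB : B + (M' \ X).card = b' + (I.filter fun i => l i = false).card) :
    ε * dens (bx X l o) (fun f => D H X (I.image f) a' b' < 1 - ε) ≤ 1 - D H X M' A B := by
  classical
  have hXc : M' ∩ X = M'.filter fun v => decide (v ∈ X) = true := by
    ext v
    rw [Finset.mem_inter, Finset.mem_filter, decide_eq_true_iff]
  have hXd : M' \ X = M'.filter fun v => decide (v ∈ X) = false := by
    ext v
    rw [Finset.mem_sdiff, Finset.mem_filter, decide_eq_false_iff_not]
  rw [hXc, ← card_fixed hM' inj hlet true, card_split (o := o) true] at hA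
  rw [hXd, ← card_fixed hM' inj hlet false, card_split (o := o) false] at hB
  have hA2 : A = a' + (Finset.univ.filter
      fun j : {i : Fin L // i ∈ I ∧ o i = none} => l j = true).card := by
    rw [card_free]; omega
  have hB2 : B = b' + (Finset.univ.filter
      fun j : {i : Fin L // i ∈ I ∧ o i = none} => l j = false).card := by
    rw [card_free]; omega
  have h1 := g02 V {i : Fin L // i ∈ I ∧ o i = none} H X M' (fun j => l j) a' b' _ _ ε hX hX' hε
    rfl rfl
  rw [← hA2, ← hB2] at h1
  refine le_trans (mul_le_mul_of_nonneg_left ?_ hε.le) h1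
  have h2 := e02 V (Fin L) {i : Fin L // i ∈ I ∧ o i = none} (bx X l o) Subtype.val
    (bx_ne hX hX' l o) Subtype.val_injective
    (fun z => D H X (M' ∪ Finset.univ.image z) a' b' < 1 - ε)
  have h3 : (bx X l o) ∘ (Subtype.val : {i : Fin L // i ∈ I ∧ o i = none} → Fin L) =
      fun j : {i : Fin L // i ∈ I ∧ o i = none} => sd X (l (j : Fin L)) := by
    funext j
    simp only [Function.comp_apply, bx, j.2.2, Option.elim_none]
  rw [h3] at h2
  rw [← h2]
  refine (e01 V (Fin L) (bx X l o) (bx_ne hX hX' l o)).2.1 _ _ ?_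
  intro f hf h4
  have h5 : M' ∪ Finset.univ.image (f ∘ (Subtype.val : {i : Fin L // i ∈ I ∧ o i = none} → Fin L)) =
      I.image f := by
    ext v
    rw [Finset.mem_union, Finset.mem_image, Finset.mem_image, hM']
    constructor
    · rintro (⟨i, hi, hiv⟩ | ⟨j, _, hj⟩)
      · refine ⟨i, hi, ?_⟩
        have h6 := hf i
        unfold bx at h6
        rw [hiv] at h6
        exact Finset.mem_singleton.1 h6
      · exact ⟨j, j.2.1, hj⟩
    · rintro ⟨i, hi, rfl⟩
      by_cases h6 : o i = none
      · exact Or.inr ⟨⟨i, hi, h6⟩, Finset.mem_univ _, rfl⟩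
      · obtain ⟨v, hv⟩ := Option.ne_none_iff_exists'.1 h6
        refine Or.inl ⟨i, hi, ?_⟩
        have h7 := hf i
        unfold bx at h7
        rw [hv] at h7
        rw [hv, Finset.mem_singleton.1 h7]
  rw [h5]
  exact h4

end Pool.Agent.KK.E.H56
end

/-! ### Helper56_KK.GSL -/
section
/-!
# G_GSL: the general supply lemma
-/

set_option autoImplicit false

namespace Pool.Agent.KK.E.H56

variable {V : Type} [Fintype V] [DecidableEq V] {L : ℕ}

/-- the positions of the block in the window -/
def Iw (L m a k : ℕ) : Finset (Fin L) :=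
  Finset.univ.filter fun i : Fin L => a ≤ (i : ℕ) + m ∧ (i : ℕ) + m < a + k

theorem Iw_filter {c uL uR : List Bool} {a k : ℕ} (b : Bool) :
    (Finset.univ.filter fun i : Fin L => (some i, b) ∈ Tw L c uL uR a k) =
      (Iw L uL.length a k).filter fun i : Fin L => c.getD i false = b := by
  ext i
  unfold Iw
  rw [Finset.mem_filter, Finset.mem_filter, Finset.mem_filter, mem_Tw_some]
  simp

theorem win_count (f : Fin L → V) {c uL uR : List Bool} {a k : ℕ} (hc : c.length = L) (b : Bool) :
    (((uL ++ c ++ uR).drop a).take k).count b =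
      (((fw uL ++ vx (List.ofFn f) ++ fw uR).drop a).take k).count (Sum.inr b) +
        ((Iw L uL.length a k).filter fun i : Fin L => c.getD i false = b).card := by
  rw [← TT_snd hc, ← TT_sl f c uL uR, ← List.map_drop, ← List.map_take, ← List.map_drop,
    ← List.map_take, ← Iw_filter (uR := uR)]
  exact count_eq f b _ (Tw_nodup c uL uR a k)

theorem win_fx (f : Fin L → V) (c : List Bool) {uL uR : List Bool} {a k : ℕ} :
    (fx (((fw uL ++ vx (List.ofFn f) ++ fw uR).drop a).take k)).toFinset =
      (Iw L uL.length a k).image f := by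
  rw [← TT_sl f c uL uR, ← List.map_drop, ← List.map_take]
  ext v
  rw [fx_eq, Finset.mem_image]
  constructor
  · rintro ⟨i, b, hi, hv⟩
    have h1 := (mem_Tw_some (c := c) (uL := uL) (uR := uR)).1 hi
    exact ⟨i, by unfold Iw; rw [Finset.mem_filter]; exact ⟨Finset.mem_univ _, h1.1⟩, hv⟩
  · rintro ⟨i, hi, hv⟩
    unfold Iw at hi
    rw [Finset.mem_filter] at hi
    exact ⟨i, _, mem_Tw_some.2 ⟨hi.2, rfl⟩, hv⟩

theorem core_count (f : Fin L → V) (c : List Bool) {uL uR : List Bool} {a k : ℕ}
    (h1 : uL.length ≤ a) (h2 : a + k ≤ uL.length + L) (b : Bool) :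
    (((fw uL ++ vx (List.ofFn f) ++ fw uR).drop a).take k).count (Sum.inr b) = 0 := by
  rw [← TT_sl f c uL uR, ← List.map_drop, ← List.map_take]
  have h3 : ∀ T : List (Option (Fin L) × Bool), (∀ b, (none, b) ∉ T) →
      (T.map (sl f)).count (Sum.inr b) = 0 := by
    intro T hT
    induction T with
    | nil => rfl
    | cons x T ih =>
      obtain ⟨o, b'⟩ := x
      cases o with
      | none => exact absurd (List.mem_cons_self) (hT b')
      | some i =>
        rw [List.map_cons, List.count_cons, ih fun b h => hT b (List.mem_cons_of_mem _ h)]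
        have h4 : (sl f (some i, b') == Sum.inr b) = false := rfl
        rw [h4]
        simp
  refine h3 _ fun b hb => ?_
  rcases mem_Tw_none hb with h | h <;> omega

theorem dens_false {ι : Type} [Fintype ι] (c : ι → Finset V) : dens c (fun _ => False) = 0 := by
  unfold dens
  simp

theorem D_edge (e01 : StmtE01) {H : Finset (Finset V)} {X M : Finset V} (hX : X.Nonempty)
    (hX' : (Xᶜ).Nonempty) (hM : M ∈ H) : D H X M 0 0 = 1 := by
  have hne : ∀ i, (lets X 0 0 i).Nonempty := by
    intro i
    rcases i with i | i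
    · exact hX
    · exact hX'
  have h1 := e01 V (Fin 0 ⊕ Fin 0) (lets X 0 0) hne
  have h2 := h1.2.2.2.1 (fun f => M ∪ Finset.univ.image f ∈ H)
  have h3 := h1.2.1 (fun f => ¬ (M ∪ Finset.univ.image f ∈ H)) (fun _ => False) (by
    intro f _ h
    apply h
    have h4 : M ∪ Finset.univ.image f = M := by
      rw [Finset.univ_eq_empty, Finset.image_empty, Finset.union_empty]
    rw [h4]
    exact hM)
  rw [dens_false] at h3
  have h4 := (h1.1 (fun f => ¬ (M ∪ Finset.univ.image f ∈ H))).1
  unfold D
  linarith

theorem OKs_of (g01 : StmtG01) {H : Finset (Finset V)} {X : Finset V} (hX : X.Nonempty)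
    (hX' : (Xᶜ).Nonempty) {ε : ℝ} {s : List (Slot V)} (h : ¬ D H X (fx s).toFinset
      (s.count (Sum.inr true)) (s.count (Sum.inr false)) < 1 - ε) : OKs H X ε s := by
  unfold OKs
  refine le_trans (g01 V H X s hX hX') ?_
  refine mul_le_mul_of_nonneg_right ?_ (by positivity)
  linarith

/-- the bad event of one window -/
theorem win_dens (e01 : StmtE01) (e02 : StmtE02) (e17 : StmtE17) (g01 : StmtG01)
    (g02 : StmtG02) {H : Finset (Finset V)} {X : Finset V} {p q B : ℕ} {δ ε e₀ : ℝ}
    {η : ℕ → ℝ} {c uL uR : List Bool} {o : Fin L → Option V} {P : (Fin L → V) → Prop}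
    (hA : Amb H X p q B δ) (hX : X.Nonempty) (hX' : (Xᶜ).Nonempty) (hε : 0 < ε) (he₀ : 0 ≤ e₀)
    (hc : c.length = L) (huL : uL.length = p + q + 1) (huR : uR.length = p + q + 1)
    (inj : ∀ i i' v, o i = some v → o i' = some v → i = i') {a : ℕ}
    (ha : a + (p + q + 2) ≤ L + 2 * (p + q + 1))
    (hw : (p + q + 1 ≤ a ∧ a + (p + q + 2) ≤ L + (p + q + 1) ∧
          ∀ f : Fin L → V, (∀ i, f i ∈ bx X (fun i : Fin L => c.getD i false) o i) → P f →
            (Finset.univ.filter fun i : Fin L => a ≤ (i : ℕ) + (p + q + 1) ∧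
              (i : ℕ) + (p + q + 1) < a + (p + q + 2)).image f ∈ H) ∨
        ((wt (((uL ++ c ++ uR).drop a).take (p + q + 2)) = p ∨
            wt (((uL ++ c ++ uR).drop a).take (p + q + 2)) = p + 2) ∧
          (∀ (i : Fin L) (v : V), a ≤ (i : ℕ) + (p + q + 1) →
            (i : ℕ) + (p + q + 1) < a + (p + q + 2) → o i = some v →
            (v ∈ X ↔ c.getD i false = true)) ∧
          ∀ M' : Finset V, (∀ v, v ∈ M' ↔ ∃ i : Fin L, a ≤ (i : ℕ) + (p + q + 1) ∧
            (i : ℕ) + (p + q + 1) < a + (p + q + 2) ∧ o i = some v) →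
            ¬ Non H X p q η M' ∧ (M' ∩ X).card ≤ p + 1 ∧ (M' \ X).card ≤ q + 1 ∧
              η M'.card ≤ e₀)) :
    ε * dens (bx X (fun i : Fin L => c.getD i false) o) (fun f => P f ∧ ¬ OKs H X ε
      (((fw uL ++ vx (List.ofFn f) ++ fw uR).drop a).take (p + q + 2))) ≤ 3 * δ + e₀ := by
  classical
  have hδ := hA.pos
  have hE := e01 V (Fin L) (bx X (fun i : Fin L => c.getD i false) o) (bx_ne hX hX' _ o)
  rcases hw with ⟨hw1, hw2, hw3⟩ | ⟨hw1, hw2, hw3⟩
  · have h1 := hE.2.1 (fun f => P f ∧ ¬ OKs H X ε
      (((fw uL ++ vx (List.ofFn f) ++ fw uR).drop a).take (p + q + 2))) (fun _ => False) (by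
        rintro f hf ⟨hP, hbad⟩
        apply hbad
        refine OKs_of g01 hX hX' ?_
        rw [core_count f c (by omega) (by omega), core_count f c (by omega) (by omega),
          win_fx f c]
        have h2 := hw3 f hf hP
        rw [D_edge e01 hX hX' (by unfold Iw; rw [huL]; exact h2)]
        linarith)
    rw [dens_false] at h1
    have h2 : ε * dens (bx X (fun i : Fin L => c.getD i false) o) (fun f => P f ∧ ¬ OKs H X ε
      (((fw uL ++ vx (List.ofFn f) ++ fw uR).drop a).take (p + q + 2))) ≤ ε * 0 :=
      mul_le_mul_of_nonneg_left h1 hε.le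
    linarith
  · obtain ⟨M', hM'⟩ : ∃ M' : Finset V, M' = Finset.univ.filter fun v =>
      ∃ i ∈ Iw L (p + q + 1) a (p + q + 2), o i = some v := ⟨_, rfl⟩
    have hM1 : ∀ v, v ∈ M' ↔ ∃ i ∈ Iw L (p + q + 1) a (p + q + 2), o i = some v := by
      intro v
      rw [hM', Finset.mem_filter]
      simp
    have hM2 : ∀ v, v ∈ M' ↔ ∃ i : Fin L, a ≤ (i : ℕ) + (p + q + 1) ∧
            (i : ℕ) + (p + q + 1) < a + (p + q + 2) ∧ o i = some v := by
      intro v
      rw [hM1]
      constructor
      · rintro ⟨i, hi, h⟩
        unfold Iw at hi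
        rw [Finset.mem_filter] at hi
        exact ⟨i, hi.2.1, hi.2.2, h⟩
      · rintro ⟨i, h1, h2, h⟩
        exact ⟨i, by unfold Iw; rw [Finset.mem_filter]; exact ⟨Finset.mem_univ _, h1, h2⟩, h⟩
    obtain ⟨hN1, hN2, hN3, hN4⟩ := hw3 M' hM2
    have hlet : ∀ i ∈ Iw L (p + q + 1) a (p + q + 2), ∀ v, o i = some v →
        (v ∈ X ↔ c.getD i false = true) := by
      intro i hi v hv
      unfold Iw at hi
      rw [Finset.mem_filter] at hi
      exact hw2 i v hi.2.1 hi.2.2 hv
    obtain ⟨w, hwd⟩ : ∃ w, w = ((uL ++ c ++ uR).drop a).take (p + q + 2) := ⟨_, rfl⟩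
    have hwl : w.length = p + q + 2 := by
      rw [hwd, List.length_take, List.length_drop, List.length_append, List.length_append, huL, huR,
        hc]
      omega
    have hcnt : w.count true + w.count false = p + q + 2 := by
      rw [← hwl]
      have h1 := List.count_not_add_count w false
      exact h1
    -- the fixed vertices have letters
    have hfix : ∀ b, ((Iw L (p + q + 1) a (p + q + 2)).filter fun i : Fin L => c.getD i false = b).card =
        ((Iw L (p + q + 1) a (p + q + 2)).filter fun i : Fin L =>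
          c.getD i false = b ∧ o i = none).card +
        (M'.filter fun v => decide (v ∈ X) = b).card := by
      intro b
      rw [card_split (l := fun i : Fin L => c.getD i false) (o := o) b]
      rw [card_fixed (l := fun i : Fin L => c.getD i false) hM1 inj hlet b]
    have hXc : M' ∩ X = M'.filter fun v => decide (v ∈ X) = true := by
      ext v
      rw [Finset.mem_inter, Finset.mem_filter, decide_eq_true_iff]
    have hXd : M' \ X = M'.filter fun v => decide (v ∈ X) = false := by
      ext v
      rw [Finset.mem_sdiff, Finset.mem_filter, decide_eq_false_iff_not]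
    have hfT := hfix true
    have hfF := hfix false
    rw [← hXc] at hfT
    rw [← hXd] at hfF
    obtain ⟨f₀⟩ : Nonempty (Fin L → V) := by
      obtain ⟨v, _⟩ := hX
      exact ⟨fun _ => v⟩
    have hcT := win_count f₀ (uL := uL) (uR := uR) (a := a) (k := p + q + 2) hc true
    have hcF := win_count f₀ (uL := uL) (uR := uR) (a := a) (k := p + q + 2) hc false
    rw [← hwd, huL] at hcT hcF
    obtain ⟨a', ha'⟩ : ∃ a', a' = w.count true -
      ((Iw L (p + q + 1) a (p + q + 2)).filter fun i : Fin L => c.getD i false = true).card := ⟨_, rfl⟩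
    obtain ⟨b', hb'⟩ : ∃ b', b' = w.count false -
      ((Iw L (p + q + 1) a (p + q + 2)).filter fun i : Fin L => c.getD i false = false).card := ⟨_, rfl⟩
    have hwt : w.count true = p ∨ w.count true = p + 2 := by
      rw [hwd]
      exact hw1
    have h2 : ∀ A B', A + (M' ∩ X).card = w.count true → B' + (M' \ X).card = w.count false →
        ε * dens (bx X (fun i : Fin L => c.getD i false) o) (fun f => P f ∧ ¬ OKs H X ε
          (((fw uL ++ vx (List.ofFn f) ++ fw uR).drop a).take (p + q + 2))) ≤
            1 - D H X M' A B' := by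
      intro A B' h3 h4
      refine le_trans (mul_le_mul_of_nonneg_left ?_ hε.le)
        (dens_ord e01 e02 g02 hX hX' (l := fun i : Fin L => c.getD i false) (o := o)
          (a' := a') (b' := b') hM1 inj hlet hε (by omega) (by omega))
      refine hE.2.1 _ _ ?_
      rintro f _ ⟨_, hbad⟩
      by_contra hcon
      apply hbad
      refine OKs_of g01 hX hX' ?_
      have h5 := win_count f (uL := uL) (uR := uR) (a := a) (k := p + q + 2) hc true
      have h6 := win_count f (uL := uL) (uR := uR) (a := a) (k := p + q + 2) hc false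
      rw [← hwd, huL] at h5 h6
      rw [win_fx f c, huL]
      have h7 : (((fw uL ++ vx (List.ofFn f) ++ fw uR).drop a).take (p + q + 2)).count
          (Sum.inr true) = a' := by omega
      have h8 : (((fw uL ++ vx (List.ofFn f) ++ fw uR).drop a).take (p + q + 2)).count
          (Sum.inr false) = b' := by omega
      rw [h7, h8]
      exact hcon
    have h17 := e17 V H X M' p q B δ η hA hN1 hN2 hN3
    rcases hwt with hwt | hwt
    · have h3 := h2 (p - (M' ∩ X).card) (q + 2 - (M' \ X).card) (by omega) (by omega)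
      have h4 := h17.2 (by omega)
      linarith
    · have h3 := h2 (p + 2 - (M' ∩ X).card) (q - (M' \ X).card) (by omega) (by omega)
      have h4 := h17.1 (by omega)
      linarith

theorem g00 (e01 : StmtE01) (e02 : StmtE02) (e04 : StmtE04) (e17 : StmtE17) (g01 : StmtG01)
    (g02 : StmtG02) : StmtG00 := by
  intro V _ _ H X Z p q B L δ ε τ e₀ η c uL uR o P hA hε hε1 hτ he₀ hc hL huL huR inj hoZ hP hw
    hZ hne hnd
  classical
  obtain ⟨k, hk⟩ : ∃ k : ℝ, k = ((p + q + 2 : ℕ) : ℝ) := ⟨_, rfl⟩
  have hk2 : 2 ≤ k := by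
    rw [hk]
    push_cast
    have h1 : (0 : ℝ) ≤ p := Nat.cast_nonneg p
    have h2 : (0 : ℝ) ≤ q := Nat.cast_nonneg q
    linarith
  have hbig := hA.big
  have hδ := hA.pos
  have hsm := hA.small
  rw [← hk] at hZ hne hnd hbig
  obtain ⟨n, hn⟩ : ∃ n : ℝ, n = (Fintype.card V : ℝ) := ⟨_, rfl⟩
  have hlo := hA.lo
  have hlo' := hA.lo'
  rw [← hn] at hZ hbig hlo hlo'
  have hBk : (1 : ℝ) ≤ ((B + p + q + 2 : ℕ) : ℝ) := by
    exact_mod_cast (by omega : 1 ≤ B + p + q + 2)
  have hδn : 100 * k ^ 2 ≤ δ * n := by
    refine le_trans ?_ hbig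
    have : 0 ≤ 100 * k ^ 2 := by positivity
    nlinarith
  have hn0 : 0 < n := by
    by_contra hcon
    have h1 : δ * n ≤ 0 := mul_nonpos_of_nonneg_of_nonpos hδ.le (not_lt.1 hcon)
    have h2 : 0 < 100 * k ^ 2 := by positivity
    linarith
  have hXn : n ≤ 3 * (X.card : ℝ) := by nlinarith
  have hXn' : n ≤ 3 * ((Xᶜ).card : ℝ) := by nlinarith
  have hX : X.Nonempty := by
    rw [Finset.nonempty_iff_ne_empty]
    rintro rfl
    rw [Finset.card_empty, Nat.cast_zero] at hXn
    linarith
  have hX' : (Xᶜ).Nonempty := by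
    rw [Finset.nonempty_iff_ne_empty]
    intro h
    rw [h, Finset.card_empty, Nat.cast_zero] at hXn'
    linarith
  have hsd : ∀ b, (Fintype.card V : ℝ) ≤ 3 * ((sd X b).card : ℝ) := by
    intro b
    rw [← hn]
    cases b
    · exact hXn'
    · exact hXn
  have hV : 0 < Fintype.card V := by
    have : (0 : ℝ) < (Fintype.card V : ℝ) := by rw [← hn]; exact hn0
    exact_mod_cast this
  have hE := e01 V (Fin L) (bx X (fun i : Fin L => c.getD i false) o) (bx_ne hX hX' _ o)
  obtain ⟨bad, hbad⟩ : ∃ bad : Fin (L + (p + q + 1)) → (Fin L → V) → Prop,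
    bad = fun a f => P f ∧ ¬ OKs H X ε
      (((fw uL ++ vx (List.ofFn f) ++ fw uR).drop a).take (p + q + 2)) := ⟨_, rfl⟩
  have hbd : ∀ a, ε * dens (bx X (fun i : Fin L => c.getD i false) o) (bad a) ≤ 3 * δ + e₀ := by
    intro a
    rw [hbad]
    exact win_dens e01 e02 e17 g01 g02 hA hX hX' hε he₀ hc huL huR inj (by omega)
      (hw a (by omega))
  obtain ⟨deg, hdeg⟩ : ∃ deg : (Fin L → V) → Prop,
    deg = fun f => ¬ (Function.Injective f ∧ ∀ i, o i = none → f i ∉ Z) := ⟨_, rfl⟩
  have hdg := e04 V (Fin L) X Z (fun i : Fin L => c.getD i false) o hV hsd inj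
  rw [← hdeg, ← hn, Fintype.card_fin] at hdg
  have hLk : (L : ℝ) ≤ 3 * k := by
    rw [hk]
    exact_mod_cast hL
  have hL0 : (0 : ℝ) ≤ L := Nat.cast_nonneg L
  have hZ0 : (0 : ℝ) ≤ Z.card := Nat.cast_nonneg _
  have hk0 : 0 < k := by linarith
  have hετ : ε * τ ≤ τ := by nlinarith
  have hdg2 : 3 * ((L : ℝ) ^ 2 + L * Z.card) / n ≤ τ / 10 := by
    rw [div_le_iff₀ hn0]
    have h1 : (L : ℝ) * Z.card ≤ 3 * τ / 100 * n := by
      calc (L : ℝ) * Z.card ≤ (3 * k) * (τ / (100 * k) * n) :=
            mul_le_mul hLk hZ hZ0 (by positivity)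
        _ = 3 * τ / 100 * n := by field_simp
    have h2 : (L : ℝ) ^ 2 ≤ 9 * k ^ 2 := by
      calc (L : ℝ) ^ 2 ≤ (3 * k) ^ 2 := pow_le_pow_left₀ hL0 hLk 2
        _ = 9 * k ^ 2 := by ring
    have h3 : 200 * δ ≤ τ := by
      have : 100 * 2 * δ ≤ 100 * k * δ := by nlinarith
      linarith
    have h4 : 200 * (δ * n) ≤ τ * n := by
      calc 200 * (δ * n) = (200 * δ) * n := by ring
        _ ≤ τ * n := mul_le_mul_of_nonneg_right h3 hn0.le
    have h5 : 0 < τ * n := by positivity
    linarith
  have hsum : ∑ a : Fin (L + (p + q + 1)),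
      dens (bx X (fun i : Fin L => c.getD i false) o) (bad a) ≤ τ / 4 := by
    have h1 : ∀ a ∈ (Finset.univ : Finset (Fin (L + (p + q + 1)))),
        dens (bx X (fun i : Fin L => c.getD i false) o) (bad a) ≤ (3 * δ + e₀) / ε := by
      intro a _
      rw [le_div_iff₀ hε, mul_comm]
      exact hbd a
    refine le_trans (Finset.sum_le_card_nsmul _ _ _ h1) ?_
    rw [Finset.card_univ, Fintype.card_fin, nsmul_eq_mul]
    have h2 : ((L + (p + q + 1) : ℕ) : ℝ) ≤ 4 * k := by
      have h3 : ((p + q + 1 : ℕ) : ℝ) ≤ k := by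
        rw [hk]
        exact_mod_cast (by omega : p + q + 1 ≤ p + q + 2)
      rw [Nat.cast_add]
      linarith
    have h3 : 0 ≤ (3 * δ + e₀) / ε := by positivity
    refine le_trans (mul_le_mul_of_nonneg_right h2 h3) ?_
    rw [← mul_div_assoc, div_le_iff₀ hε]
    have h4 : 4 * k * (3 * δ + e₀) = 12 * (k * δ) + 4 * (k * e₀) := by ring
    have h5 : 100 * (k * δ) ≤ ε * τ := by linarith
    have h6 : 32 * (k * e₀) ≤ ε * τ := by linarith
    rw [h4]
    have h7 : τ / 4 * ε = ε * τ / 4 := by ring
    rw [h7]
    have h8 : 0 < ε * τ := by positivity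
    linarith
  -- the union bound
  obtain ⟨Q, hQ⟩ : ∃ Q : (Fin L → V) → Prop, Q = fun f => P f ∧ ¬ deg f ∧ ∀ a, ¬ bad a f :=
    ⟨_, rfl⟩
  have h1 := hE.2.2.2.1 Q
  have h2 := hE.2.1 (fun f => ¬ Q f) (fun f => ¬ P f ∨ (deg f ∨ ∃ a, bad a f)) (by
    intro f _ h
    rw [hQ] at h
    simp only at h
    by_cases a1 : P f
    · by_cases a2 : deg f
      · exact Or.inr (Or.inl a2)
      · right; right
        by_contra a3
        exact h ⟨a1, a2, fun a ha => a3 ⟨a, ha⟩⟩
    · exact Or.inl a1)
  have h3 := hE.2.2.1 (fun f => ¬ P f) (fun f => deg f ∨ ∃ a, bad a f)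
  have h4 := hE.2.2.1 deg (fun f => ∃ a, bad a f)
  have h5 := hE.2.2.2.2.2 (Fin (L + (p + q + 1))) bad
  have h6 := hE.2.2.2.1 P
  have h7 : 0 < dens (bx X (fun i : Fin L => c.getD i false) o) Q := by
    have h8 : dens (bx X (fun i : Fin L => c.getD i false) o) (fun f => ¬ Q f) ≤
        dens (bx X (fun i : Fin L => c.getD i false) o) (fun f => ¬ P f) +
          (dens (bx X (fun i : Fin L => c.getD i false) o) deg + ∑ a : Fin (L + (p + q + 1)),
            dens (bx X (fun i : Fin L => c.getD i false) o) (bad a)) := by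
      linarith
    linarith
  obtain ⟨f, hf, hQf⟩ := hE.2.2.2.2.1 Q h7
  rw [hQ] at hQf
  obtain ⟨hPf, hdf, hbf⟩ := hQf
  rw [hdeg] at hdf
  obtain ⟨hinj, hfZ⟩ := not_not.1 hdf
  have hfix : ∀ i v, o i = some v → f i = v := by
    intro i v hiv
    have h8 := hf i
    unfold bx at h8
    rw [hiv] at h8
    exact Finset.mem_singleton.1 h8
  refine ⟨f, hinj, ?_, hfix, ?_, hPf, ?_⟩
  · intro i
    by_cases h8 : o i = none
    · exact hfZ i h8
    · obtain ⟨v, hv⟩ := Option.ne_none_iff_exists'.1 h8
      rw [hfix i v hv]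
      exact hoZ i v hv
  · intro i hi
    have h8 := hf i
    unfold bx at h8
    rw [hi] at h8
    simp only [Option.elim_none] at h8
    cases h9 : c.getD i false
    · rw [h9] at h8
      have h10 : f i ∈ Xᶜ := h8
      rw [Finset.mem_compl] at h10
      simp [h10]
    · rw [h9] at h8
      have h10 : f i ∈ X := h8
      simp [h10]
  · intro s hs hsl
    obtain ⟨a, ha, hsa⟩ := infix_window hs
    rw [hsl] at ha hsa
    have hlen : (fw uL ++ vx (List.ofFn f) ++ fw uR : List (Slot V)).length =
        L + 2 * (p + q + 1) := by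
      unfold fw vx
      rw [List.length_append, List.length_append, List.length_map, List.length_map,
        List.length_map, List.length_ofFn, huL, huR]
      omega
    rw [hlen] at ha
    have h8 := hbf ⟨a, by omega⟩
    rw [hbad] at h8
    by_contra hcon
    apply h8
    refine ⟨hPf, ?_⟩
    rw [← hsa]
    exact hcon

end Pool.Agent.KK.E.H56
end

/-! ### Helper81_KK.G_BAD -/
section
/-!
# G_BAD (squad KK, block G): bad completions of a window by `D`

Proof of `StmtG01`.  (StmtE02 is not needed.)
-/

set_option autoImplicit false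

namespace Pool.Agent.KK.E.H81

open Pool.Agent.KK

theorem gb_q2 (V : Type) [DecidableEq V] (v : V) (b : Bool) :
    ((Sum.inl v : Slot V) == Sum.inr b) = false := rfl

theorem gb_q3 (V : Type) [DecidableEq V] (a b : Bool) :
    ((Sum.inr a : Slot V) == Sum.inr b) = (a == b) := by
  cases a <;> cases b <;> rfl

/-- The free entries of a completion, split by letters. -/
theorem gb_split (V : Type) [Fintype V] [DecidableEq V] (X : Finset V) :
    ∀ s : List (Slot V), ∃ Φ : List V → List V × List V,
      (∀ e, List.Forall₂ (Fit X) s e → (Φ e).1.length = s.count (Sum.inr true) ∧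
        (Φ e).2.length = s.count (Sum.inr false) ∧ (∀ v ∈ (Φ e).1, v ∈ X) ∧
        (∀ v ∈ (Φ e).2, v ∈ Xᶜ) ∧
        e.toFinset = (fx s).toFinset ∪ ((Φ e).1.toFinset ∪ (Φ e).2.toFinset)) ∧
      (∀ e e', List.Forall₂ (Fit X) s e → List.Forall₂ (Fit X) s e' → Φ e = Φ e' → e = e') := by
  intro s
  induction s with
  | nil =>
    refine ⟨fun _ => ([], []), ?_, ?_⟩
    · intro e he
      cases he
      refine ⟨by simp, by simp, by simp, by simp, by simp [fx]⟩
    · intro e e' he he' _
      cases he
      cases he'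
      rfl
  | cons x s ih =>
    obtain ⟨Φ, h1, h2⟩ := ih
    rcases x with v | b
    · refine ⟨fun e => Φ e.tail, ?_, ?_⟩
      · intro e he
        cases he with
        | cons hw hs =>
          rename_i w e
          obtain ⟨a1, a2, a3, a4, a5⟩ := h1 _ hs
          have hw' : v = w := hw
          subst hw'
          refine ⟨?_, ?_, a3, a4, ?_⟩
          · simp only [List.tail_cons]
            rw [a1]
            simp [List.count_cons, gb_q2]
          · simp only [List.tail_cons]
            rw [a2]
            simp [List.count_cons, gb_q2]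
          · simp only [List.tail_cons, List.toFinset_cons, a5, fx, List.filterMap_cons,
              Sum.getLeft?_inl, Finset.insert_union]
      · intro e e' he he' hee
        cases he with
        | cons hw hs =>
          cases he' with
          | cons hw' hs' =>
            have e1 := h2 _ _ hs hs' hee
            have e2 : _ = _ := Eq.trans (Eq.symm (show v = _ from hw)) (show v = _ from hw')
            rw [e1, e2]
    · cases b with
      | true =>
        refine ⟨fun e => match e with
          | [] => ([], [])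
          | w :: e => (w :: (Φ e).1, (Φ e).2), ?_, ?_⟩
        · intro e he
          cases he with
          | cons hw hs =>
            rename_i w e
            obtain ⟨a1, a2, a3, a4, a5⟩ := h1 _ hs
            have hw' : w ∈ X := (show (w ∈ X ↔ true = true) from hw).2 rfl
            refine ⟨?_, ?_, ?_, a4, ?_⟩
            · simp [List.count_cons, gb_q3, a1]
            · simp [List.count_cons, gb_q3, a2]
            · intro u hu
              rcases List.mem_cons.1 hu with rfl | hu
              · exact hw'
              · exact a3 u hu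
            · simp only [List.toFinset_cons, a5, fx, List.filterMap_cons, Sum.getLeft?_inr,
                Finset.insert_union, Finset.union_insert]
        · intro e e' he he' hee
          cases he with
          | cons hw hs =>
            cases he' with
            | cons hw' hs' =>
              simp only [Prod.mk.injEq, List.cons.injEq] at hee
              obtain ⟨⟨b1, b2⟩, b3⟩ := hee
              rw [b1, h2 _ _ hs hs' (Prod.ext b2 b3)]
      | false =>
        refine ⟨fun e => match e with
          | [] => ([], [])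
          | w :: e => ((Φ e).1, w :: (Φ e).2), ?_, ?_⟩
        · intro e he
          cases he with
          | cons hw hs =>
            rename_i w e
            obtain ⟨a1, a2, a3, a4, a5⟩ := h1 _ hs
            have hw' : w ∈ Xᶜ := by
              rw [Finset.mem_compl]
              intro hX
              have := (show (w ∈ X ↔ false = true) from hw).1 hX
              cases this
            refine ⟨?_, ?_, a3, ?_, ?_⟩
            · simp [List.count_cons, gb_q3, a1]
            · simp [List.count_cons, gb_q3, a2]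
            · intro u hu
              rcases List.mem_cons.1 hu with rfl | hu
              · exact hw'
              · exact a4 u hu
            · simp only [List.toFinset_cons, a5, fx, List.filterMap_cons, Sum.getLeft?_inr,
                Finset.insert_union, Finset.union_insert]
        · intro e e' he he' hee
          cases he with
          | cons hw hs =>
            cases he' with
            | cons hw' hs' =>
              simp only [Prod.mk.injEq, List.cons.injEq] at hee
              obtain ⟨b1, b2, b3⟩ := hee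
              rw [b2, h2 _ _ hs hs' (Prod.ext b1 b3)]

/-- Number of free slots. -/
theorem gb_fr (V : Type) [Fintype V] [DecidableEq V] : ∀ s : List (Slot V),
    s.count (Sum.inr true) + s.count (Sum.inr false) = fr s := by
  intro s
  induction s with
  | nil => simp [fr]
  | cons x s ih =>
    unfold fr at ih ⊢
    rcases x with v | b
    · simp only [List.count_cons, List.countP_cons, gb_q2, Sum.isRight_inl]
      simpa using ih
    · cases b with
      | true =>
        simp only [List.count_cons, List.countP_cons, gb_q3, Sum.isRight_inr]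
        simp
        omega
      | false =>
        simp only [List.count_cons, List.countP_cons, gb_q3, Sum.isRight_inr]
        simp
        omega

/-- **G01**. -/
theorem g_bad (_h2 : StmtE02) : StmtG01 := by
  intro V _ _ H X s hX hY
  classical
  obtain ⟨Φ, h1, h2⟩ := gb_split V X s
  obtain ⟨v₀, hv₀⟩ := hX
  set a := s.count (Sum.inr true) with ha
  set b := s.count (Sum.inr false) with hb
  set M := (fx s).toFinset with hM
  -- the box
  set c : Fin a ⊕ Fin b → Finset V := lets X a b with hc
  set A : Set (Fin a ⊕ Fin b → V) :=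
    {f | (∀ i, f i ∈ c i) ∧ M ∪ Finset.univ.image f ∈ H} with hA
  set B : Set (Fin a ⊕ Fin b → V) :=
    {f | (∀ i, f i ∈ c i) ∧ M ∪ Finset.univ.image f ∉ H} with hB
  have hAB : A ∪ B = {f | ∀ i, f i ∈ c i} := by
    ext f
    simp only [hA, hB, Set.mem_union, Set.mem_ofPred_eq]
    tauto
  have hdis : Disjoint A B := by
    rw [Set.disjoint_left]
    rintro f ⟨_, hf⟩ ⟨_, hf'⟩
    exact hf' hf
  have hcard : A.ncard + B.ncard = ∏ i, (c i).card := by
    rw [← Set.ncard_union_eq hdis (Set.toFinite _) (Set.toFinite _), hAB]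
    have : {f : Fin a ⊕ Fin b → V | ∀ i, f i ∈ c i} = ↑(Fintype.piFinset c) := by
      ext f
      simp
    rw [this, Set.ncard_coe_finset, Fintype.card_piFinset]
  have hprod : ((∏ i, (c i).card : ℕ) : ℝ) ≤ (Fintype.card V : ℝ) ^ fr s := by
    rw [hc]
    have e1 : (∏ i, (lets X a b i).card) = X.card ^ a * Xᶜ.card ^ b := by
      rw [Fintype.prod_sum_type]
      simp [lets]
    rw [e1, ← gb_fr V s, pow_add]
    push_cast
    have x1 : (X.card : ℝ) ≤ (Fintype.card V : ℝ) := by exact_mod_cast Finset.card_le_univ X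
    have x2 : (Xᶜ.card : ℝ) ≤ (Fintype.card V : ℝ) := by exact_mod_cast Finset.card_le_univ Xᶜ
    exact mul_le_mul (pow_le_pow_left₀ (by positivity) x1 _)
      (pow_le_pow_left₀ (by positivity) x2 _) (by positivity) (by positivity)
  have hpos : 0 < ((∏ i, (c i).card : ℕ) : ℝ) := by
    have : 0 < ∏ i, (c i).card := by
      apply Finset.prod_pos
      intro i _
      rcases i with i | i
      · exact Finset.card_pos.2 ⟨v₀, hv₀⟩
      · exact Finset.card_pos.2 hY
    exact_mod_cast this
  have hD : D H X M a b = (A.ncard : ℝ) / ((∏ i, (c i).card : ℕ) : ℝ) := by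
    unfold D dens
    push_cast
    rfl
  have hB1 : (B.ncard : ℝ) = (1 - D H X M a b) * ((∏ i, (c i).card : ℕ) : ℝ) := by
    have hc' : (A.ncard : ℝ) + (B.ncard : ℝ) = ((∏ i, (c i).card : ℕ) : ℝ) := by
      exact_mod_cast hcard
    rw [hD, sub_mul, div_mul_cancel₀ _ hpos.ne', one_mul]
    linarith
  have hD1 : 0 ≤ 1 - D H X M a b := by
    have h0 : 0 ≤ (B.ncard : ℝ) := Nat.cast_nonneg _
    rw [hB1] at h0
    exact nonneg_of_mul_nonneg_left h0 hpos
  have hinj : (BadC H X s).ncard ≤ B.ncard := by
    refine Set.ncard_le_ncard_of_injOn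
      (fun e => Sum.elim (fun i : Fin a => (Φ e).1.getD i v₀) (fun i : Fin b => (Φ e).2.getD i v₀))
      ?_ ?_ (Set.toFinite _)
    · rintro e ⟨he, hnd, heH⟩
      obtain ⟨a1, a2, a3, a4, a5⟩ := h1 e he
      refine ⟨?_, ?_⟩
      · rintro (i | i)
        · have hi : (i : ℕ) < (Φ e).1.length := by rw [a1]; exact i.2
          show (Φ e).1.getD i v₀ ∈ X
          rw [List.getD_eq_getElem _ _ hi]
          exact a3 _ (List.getElem_mem hi)
        · have hi : (i : ℕ) < (Φ e).2.length := by rw [a2]; exact i.2
          show (Φ e).2.getD i v₀ ∈ Xᶜ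
          rw [List.getD_eq_getElem _ _ hi]
          exact a4 _ (List.getElem_mem hi)
      · have e2 : Finset.univ.image (Sum.elim (fun i : Fin a => (Φ e).1.getD i v₀)
            (fun i : Fin b => (Φ e).2.getD i v₀)) = (Φ e).1.toFinset ∪ (Φ e).2.toFinset := by
          ext u
          simp only [Finset.mem_image, Finset.mem_univ, true_and, Finset.mem_union,
            List.mem_toFinset]
          constructor
          · rintro ⟨i | i, rfl⟩
            · left
              have hi : (i : ℕ) < (Φ e).1.length := by rw [a1]; exact i.2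
              show (Φ e).1.getD i v₀ ∈ _
              rw [List.getD_eq_getElem _ _ hi]
              exact List.getElem_mem hi
            · right
              have hi : (i : ℕ) < (Φ e).2.length := by rw [a2]; exact i.2
              show (Φ e).2.getD i v₀ ∈ _
              rw [List.getD_eq_getElem _ _ hi]
              exact List.getElem_mem hi
          · rintro (hu | hu)
            · obtain ⟨i, hi, rfl⟩ := List.mem_iff_getElem.1 hu
              refine ⟨Sum.inl ⟨i, by rw [← a1]; exact hi⟩, ?_⟩
              show (Φ e).1.getD i v₀ = _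
              rw [List.getD_eq_getElem _ _ hi]
            · obtain ⟨i, hi, rfl⟩ := List.mem_iff_getElem.1 hu
              refine ⟨Sum.inr ⟨i, by rw [← a2]; exact hi⟩, ?_⟩
              show (Φ e).2.getD i v₀ = _
              rw [List.getD_eq_getElem _ _ hi]
        show M ∪ Finset.univ.image (Sum.elim (fun i : Fin a => (Φ e).1.getD i v₀)
            (fun i : Fin b => (Φ e).2.getD i v₀)) ∉ H
        rw [e2, ← a5]
        exact heH
    · rintro e ⟨he, _, _⟩ e' ⟨he', _, _⟩ hee
      obtain ⟨a1, a2, -, -, -⟩ := h1 e he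
      obtain ⟨b1, b2, -, -, -⟩ := h1 e' he'
      apply h2 e e' he he'
      apply Prod.ext
      · apply List.ext_getElem (by rw [a1, b1])
        intro i hi hi'
        have := congrFun hee (Sum.inl ⟨i, by rw [← a1]; exact hi⟩)
        have h3 : (Φ e).1.getD i v₀ = (Φ e').1.getD i v₀ := this
        rw [List.getD_eq_getElem _ _ hi, List.getD_eq_getElem _ _ hi'] at h3
        exact h3
      · apply List.ext_getElem (by rw [a2, b2])
        intro i hi hi'
        have := congrFun hee (Sum.inr ⟨i, by rw [← a2]; exact hi⟩)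
        have h3 : (Φ e).2.getD i v₀ = (Φ e').2.getD i v₀ := this
        rw [List.getD_eq_getElem _ _ hi, List.getD_eq_getElem _ _ hi'] at h3
        exact h3
  calc ((BadC H X s).ncard : ℝ) ≤ (B.ncard : ℝ) := by exact_mod_cast hinj
    _ = (1 - D H X M a b) * ((∏ i, (c i).card : ℕ) : ℝ) := hB1
    _ ≤ (1 - D H X M a b) * (Fintype.card V : ℝ) ^ fr s := mul_le_mul_of_nonneg_left hprod hD1

end Pool.Agent.KK.E.H81
end
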