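import Pool.Agent.KKM.Base

/-! # MP_747bc0_co, merged modules -/

/-! ### Helper39_KK.LEV -/
section
/-! MP_747bc0_co, squad KK, block B, row LEV: typical points of every level. -/

set_option autoImplicit false

namespace Pool.Agent.KK.B.H39

open Function
open scoped Classical

/-- row B_LEV -/
theorem lev_row : LevStmt := by
  intro k V _ G δ s hδ
  induction s with
  | zero =>
    rw [pow_zero, one_mul]
    exact le_of_eq rfl
  | succ s ih =>
    have h1 : ∀ m : Fin k, dens (fun a : Fin k → V =>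
        δ < dens (fun z => ¬ lev δ G s (update a m z))) ≤
        dens (fun a => ¬ lev δ G s a) / δ := by
      intro m
      rw [le_div_iff₀ hδ]
      refine (markov (fun (a : Fin k → V) (z : V) => ¬ lev δ G s (update a m z)) δ).trans ?_
      exact le_of_eq (dens_update m (fun a => ¬ lev δ G s a))
    have h2 : dens (fun a => ¬ lev δ G (s + 1) a) ≤ dens (fun a => ¬ lev δ G s a) +
        dens (fun a : Fin k → V => ∃ m : Fin k, δ < dens (fun z => ¬ lev δ G s (update a m z))) := by
      refine (dens_mono (fun a ha => ?_)).trans (dens_or_le _ _)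
      by_cases h : lev δ G s a
      · right
        by_contra hno
        apply ha
        refine ⟨h, fun m => ?_⟩
        by_contra hm
        exact hno ⟨m, lt_of_not_ge hm⟩
      · exact Or.inl h
    have h3 : dens (fun a : Fin k → V => ∃ m : Fin k,
        δ < dens (fun z => ¬ lev δ G s (update a m z))) ≤
        (k : ℝ) * (dens (fun a => ¬ lev δ G s a) / δ) := by
      refine (dens_exists_le (fun (m : Fin k) (a : Fin k → V) =>
        δ < dens (fun z => ¬ lev δ G s (update a m z)))).trans ?_
      refine (Finset.sum_le_sum (fun m _ => h1 m)).trans ?_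
      rw [Finset.sum_const, Finset.card_univ, Fintype.card_fin, nsmul_eq_mul]
    have h4 : 0 ≤ 1 + (k : ℝ) / δ := by positivity
    calc dens (fun a => ¬ lev δ G (s + 1) a) ≤ dens (fun a => ¬ lev δ G s a) +
          (k : ℝ) * (dens (fun a => ¬ lev δ G s a) / δ) := h2.trans (by linarith)
      _ = (1 + (k : ℝ) / δ) * dens (fun a => ¬ lev δ G s a) := by ring
      _ ≤ (1 + (k : ℝ) / δ) * ((1 + (k : ℝ) / δ) ^ s * dens (fun a => ¬ G a)) :=
          mul_le_mul_of_nonneg_left ih h4
      _ = _ := by ring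

end Pool.Agent.KK.B.H39
end

/-! ### Helper87_KK.NBR -/
section
/-! MP_747bc0_co, squad KK, row B_NBR (the types next to a missing type are nearly complete). -/

namespace Pool.Agent.KK.B.H87

open Function
open scoped Classical

variable {k : ℕ} {V : Type} [Fintype V]

/-- the type without the coordinate `i` -/
noncomputable def sty (X : V → Prop) (i : Fin k) (e : Fin k → V) : ℕ :=
  (Finset.univ.filter (fun l : Fin k => l ≠ i ∧ X (e l))).card

theorem sty_update (X : V → Prop) (i : Fin k) (e : Fin k → V) (q : V) :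
    sty X i (update e i q) = sty X i e := by
  unfold sty
  congr 1
  ext l
  simp only [Finset.mem_filter, Finset.mem_univ, true_and]
  refine and_congr_right fun hl => ?_
  rw [update_of_ne hl]

theorem typ_pos (X : V → Prop) (i : Fin k) (e : Fin k → V) (h : X (e i)) :
    typ X e = sty X i e + 1 := by
  unfold typ sty
  have h1 : Finset.univ.filter (fun l : Fin k => X (e l)) =
      insert i (Finset.univ.filter (fun l : Fin k => l ≠ i ∧ X (e l))) := by
    ext l
    simp only [Finset.mem_filter, Finset.mem_univ, true_and, Finset.mem_insert]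
    constructor
    · intro hl
      by_cases hli : l = i
      · exact Or.inl hli
      · exact Or.inr ⟨hli, hl⟩
    · rintro (hl | hl)
      · subst hl; exact h
      · exact hl.2
  rw [h1, Finset.card_insert_of_notMem (by simp)]

theorem typ_neg (X : V → Prop) (i : Fin k) (e : Fin k → V) (h : ¬ X (e i)) :
    typ X e = sty X i e := by
  unfold typ sty
  congr 1
  ext l
  simp only [Finset.mem_filter, Finset.mem_univ, true_and]
  constructor
  · intro hl
    refine ⟨fun hli => ?_, hl⟩
    subst hli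
    exact h hl
  · exact fun hl => hl.2

/-- the core estimate on the lines of direction `i` -/
theorem core [Nonempty V] (E : (Fin k → V) → Prop) (hE : Deg E) (Z : V → Prop) (ν : ℝ) (hν : 0 < ν)
    (hZ : |dens Z - 1 / 2| ≤ ν) (i : Fin k) (T : (Fin k → V) → Prop)
    (hT : ∀ a q, T (update a i q) ↔ T a)
    (h : dens (fun e => T e ∧ ¬ Z (e i) ∧ E e) ≤ ν) :
    dens (fun e => T e ∧ Z (e i) ∧ ¬ E e) ≤ 2 * Real.sqrt ν + ν := by
  have hs : 0 < Real.sqrt ν := Real.sqrt_pos.2 hν
  have hss : Real.sqrt ν * Real.sqrt ν = ν := Real.mul_self_sqrt hν.le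
  set Q : (Fin k → V) → V → Prop := fun a q => T a ∧ ¬ Z q ∧ E (update a i q) with hQ
  have h1 : dens (fun x : (Fin k → V) × V => Q x.1 x.2) ≤ ν := by
    have h2 := dens_update i (fun e => T e ∧ ¬ Z (e i) ∧ E e)
    refine le_trans (le_of_eq ?_) h
    rw [← h2]
    refine dens_congr fun x => ?_
    simp only [hQ]
    rw [hT, update_self]
  have h3 : dens (fun a => Real.sqrt ν < dens (Q a)) ≤ Real.sqrt ν := by
    have h4 := markov Q (Real.sqrt ν)
    by_contra hc
    push Not at hc
    nlinarith
  have h5 := dens_update i (fun e => T e ∧ Z (e i) ∧ ¬ E e)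
  rw [← h5]
  have h6 : dens (fun x : (Fin k → V) × V => T (update x.1 i x.2) ∧ Z (update x.1 i x.2 i) ∧
      ¬ E (update x.1 i x.2)) ≤
      dens (fun x : (Fin k → V) × V => (Real.sqrt ν < dens (Q x.1)) ∨
        (¬ (Real.sqrt ν < dens (Q x.1)) ∧ T x.1 ∧ Z x.2 ∧ ¬ E (update x.1 i x.2))) := by
    refine dens_mono fun x hx => ?_
    rw [hT, update_self] at hx
    by_cases hb : Real.sqrt ν < dens (Q x.1)
    · exact Or.inl hb
    · exact Or.inr ⟨hb, hx⟩
  refine h6.trans ((dens_or_le _ _).trans ?_)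
  have h7 : dens (fun x : (Fin k → V) × V => Real.sqrt ν < dens (Q x.1)) ≤ Real.sqrt ν := by
    rw [dens_fst (fun a => Real.sqrt ν < dens (Q a))]
    exact h3
  have h8 : dens (fun x : (Fin k → V) × V =>
      ¬ (Real.sqrt ν < dens (Q x.1)) ∧ T x.1 ∧ Z x.2 ∧ ¬ E (update x.1 i x.2)) ≤
      ν + Real.sqrt ν := by
    refine dens_prod_le (Q := fun (a : Fin k → V) (q : V) =>
      ¬ (Real.sqrt ν < dens (Q a)) ∧ T a ∧ Z q ∧ ¬ E (update a i q)) (by positivity) fun a => ?_
    by_cases hb : Real.sqrt ν < dens (Q a)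
    · refine (dens_mono (Q := fun _ => False) fun q hq => hq.1 hb).trans ?_
      rw [dens_false]
      positivity
    · by_cases ha : T a
      · push Not at hb
        have e1 : dens (fun q => E (update a i q) ∧ ¬ Z q) ≤ Real.sqrt ν := by
          refine (dens_mono fun q hq => ?_).trans hb
          exact ⟨ha, hq.2, hq.1⟩
        have e2 := dens_split (fun q => E (update a i q)) Z
        have e3 := dens_split Z (fun q => E (update a i q))
        have e4 : dens (fun q => Z q ∧ E (update a i q)) = dens (fun q => E (update a i q) ∧ Z q) :=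
          dens_congr fun q => and_comm
        have e5 := hE a i
        rw [abs_le] at hZ
        have e6 : dens (fun q => ¬ (Real.sqrt ν < dens (Q a)) ∧ T a ∧ Z q ∧ ¬ E (update a i q)) ≤
            dens (fun q => Z q ∧ ¬ E (update a i q)) := dens_mono fun q hq => hq.2.2
        refine e6.trans ?_
        linarith [hZ.2]
      · refine (dens_mono (Q := fun _ => False) fun q hq => ha hq.2.1).trans ?_
        rw [dens_false]
        positivity
  linarith

theorem core3 [Nonempty V] (E : (Fin k → V) → Prop) (hE : Deg E) (Z : V → Prop) (ν : ℝ) (hν : 0 < ν)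
    (hν1 : ν ≤ 1) (hZ : |dens Z - 1 / 2| ≤ ν) (i : Fin k) (T : (Fin k → V) → Prop)
    (hT : ∀ a q, T (update a i q) ↔ T a)
    (h : dens (fun e => T e ∧ ¬ Z (e i) ∧ E e) ≤ ν) :
    dens (fun e => T e ∧ Z (e i) ∧ ¬ E e) ≤ 3 * Real.sqrt ν := by
  have h1 := core E hE Z ν hν hZ i T hT h
  have h2 : ν ≤ Real.sqrt ν := by
    have hs : 0 ≤ Real.sqrt ν := Real.sqrt_nonneg _
    have hss : Real.sqrt ν * Real.sqrt ν = ν := Real.mul_self_sqrt hν.le
    have h3 : Real.sqrt ν ≤ 1 := Real.sqrt_le_one.2 hν1
    nlinarith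
  linarith

theorem union_bd (P : Fin k → (Fin k → V) → Prop) (R : (Fin k → V) → Prop) (c : ℝ)
    (hR : ∀ e, R e → ∃ i, P i e) (hP : ∀ i, dens (P i) ≤ c) : dens R ≤ (k : ℝ) * c := by
  refine (dens_mono hR).trans ((dens_exists_le P).trans ?_)
  calc ∑ i, dens (P i) ≤ ∑ _i : Fin k, c := Finset.sum_le_sum fun i _ => hP i
    _ = (k : ℝ) * c := by
      rw [Finset.sum_const, nsmul_eq_mul, Finset.card_univ, Fintype.card_fin]

theorem nbr : NbrStmt := by
  intro k V _ _ E X j ν hk hE hν hX ht
  have hk1 : (1 : ℝ) ≤ k := by exact_mod_cast hk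
  by_cases hν1 : ν ≤ 1
  · constructor
    · have h := union_bd (fun i e => sty X i e = j ∧ X (e i) ∧ ¬ E e)
        (fun e => typ X e = j + 1 ∧ ¬ E e) (3 * Real.sqrt ν) ?_ ?_
      · calc dens (fun e => typ X e = j + 1 ∧ ¬ E e) ≤ (k : ℝ) * (3 * Real.sqrt ν) := h
          _ = 3 * (k : ℝ) * Real.sqrt ν := by ring
      · rintro e ⟨he, hne⟩
        have h1 : 0 < typ X e := by omega
        unfold typ at h1
        obtain ⟨i, hi⟩ := Finset.card_pos.1 h1
        rw [Finset.mem_filter] at hi
        have h2 := typ_pos X i e hi.2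
        exact ⟨i, by omega, hi.2, hne⟩
      · intro i
        refine core3 E hE X ν hν hν1 hX i (fun e => sty X i e = j)
          (fun a q => by simp only [sty_update]) ?_
        refine le_trans (dens_mono fun e he => ?_) ht
        exact ⟨he.2.2, (typ_neg X i e he.2.1).trans he.1⟩
    · intro hj1 hjk
      have hX' : |dens (fun v => ¬ X v) - 1 / 2| ≤ ν := by
        rw [dens_not]
        rw [abs_le] at hX ⊢
        constructor <;> linarith [hX.1, hX.2]
      have h := union_bd (fun i e => sty X i e = j - 1 ∧ ¬ X (e i) ∧ ¬ E e)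
        (fun e => typ X e = j - 1 ∧ ¬ E e) (3 * Real.sqrt ν) ?_ ?_
      · calc dens (fun e => typ X e = j - 1 ∧ ¬ E e) ≤ (k : ℝ) * (3 * Real.sqrt ν) := h
          _ = 3 * (k : ℝ) * Real.sqrt ν := by ring
      · rintro e ⟨he, hne⟩
        have h1 : ∃ i, ¬ X (e i) := by
          by_contra hc
          push Not at hc
          have h2 : typ X e = k := by
            unfold typ
            rw [Finset.filter_true_of_mem (fun l _ => hc l), Finset.card_univ, Fintype.card_fin]
          omega
        obtain ⟨i, hi⟩ := h1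
        exact ⟨i, (typ_neg X i e hi).symm.trans he, hi, hne⟩
      · intro i
        refine core3 E hE (fun v => ¬ X v) ν hν hν1 hX' i (fun e => sty X i e = j - 1)
          (fun a q => by simp only [sty_update]) ?_
        refine le_trans (dens_mono fun e he => ?_) ht
        have h3 : X (e i) := not_not.1 he.2.1
        refine ⟨he.2.2, ?_⟩
        rw [typ_pos X i e h3, he.1]
        omega
  · push Not at hν1
    have h1 : 1 ≤ Real.sqrt ν := by
      rw [Real.one_le_sqrt]
      exact hν1.le
    have h2 : (1 : ℝ) ≤ 3 * (k : ℝ) * Real.sqrt ν := by nlinarith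
    exact ⟨(dens_le_one _).trans h2, fun _ _ => (dens_le_one _).trans h2⟩

end Pool.Agent.KK.B.H87
end

/-! ### Helper89_KK.ASM1 -/
section
/-! Squad KK, row ASM: auxiliary lemmas. -/

set_option autoImplicit false

open scoped BigOperators

namespace Pool.Agent.KK.H89

section
variable {V : Type} [DecidableEq V]

/-- gluing tight lists along `k - 1` entries -/
theorem tight_glue {H : Finset (Finset V)} {k : ℕ} {u a v : List V} (ha : k - 1 ≤ a.length)
    (h1 : Tight H k (u ++ a)) (h2 : Tight H k (a ++ v)) : Tight H k (u ++ a ++ v) := by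
  rintro s ⟨p, q, hpq⟩ hs
  rcases List.append_eq_append_iff.1 hpq with ⟨c, hc1, hc2⟩ | ⟨c, hc1, hc2⟩
  · exact h1 s ⟨p, c, hc1.symm⟩ hs
  · rw [List.append_assoc u a c] at hc1
    rcases List.append_eq_append_iff.1 hc1 with ⟨d, hd1, hd2⟩ | ⟨d, hd1, hd2⟩
    · -- `u = p ++ d`, `s = d ++ (a ++ c)`
      have hl : d.length + (a.length + c.length) = k := by
        rw [← hs, hd2, List.length_append, List.length_append]
      rcases Nat.eq_zero_or_pos d.length with h0 | h0
      · have hd0 : d = [] := List.length_eq_zero_iff.1 h0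
        refine h2 s ⟨[], q, ?_⟩ hs
        rw [hd2, hd0, hc2]
        simp
      · have hc0 : c = [] := List.length_eq_zero_iff.1 (by omega)
        refine h1 s ⟨p, [], ?_⟩ hs
        rw [hd2, hd1, hc0]
        simp
    · -- `p = u ++ d`, `a ++ c = d ++ s`
      refine h2 s ⟨d, q, ?_⟩ hs
      rw [hc2, ← List.append_assoc, hd2]

end

/-- inserting elements into a labelled chain -/
theorem ins {α : Type} {q : ℕ} (s e : α → Fin q → Prop) (z : α × Fin q) :
    ∀ (I : List α) (S : List (α × Fin q)), (∀ i, ∃ p ∈ S, p.2 = i) →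
      List.IsChain (fun u v : α × Fin q => e u.1 u.2 ∧ s v.1 u.2) (S ++ [z]) →
      (∀ u ∈ I, ∃ i, s u i ∧ e u i) →
      ∃ S' : List (α × Fin q), (S'.map Prod.fst).Perm (S.map Prod.fst ++ I) ∧
        S'.head? = S.head? ∧
        List.IsChain (fun u v : α × Fin q => e u.1 u.2 ∧ s v.1 u.2) (S' ++ [z]) := by
  intro I
  induction I with
  | nil =>
    intro S _ hc _
    exact ⟨S, by simp, rfl, hc⟩
  | cons u I ih =>
    intro S hl hc hI
    obtain ⟨i, hsi, hei⟩ := hI u (by simp)
    obtain ⟨p, hp, hpi⟩ := hl i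
    obtain ⟨S₁, S₂, rfl⟩ := List.append_of_mem hp
    have g1 : ∀ j, ∃ x ∈ S₁ ++ p :: (u, i) :: S₂, x.2 = j := by
      intro j
      obtain ⟨x, hx, hxj⟩ := hl j
      refine ⟨x, ?_, hxj⟩
      rw [List.mem_append, List.mem_cons] at hx
      rw [List.mem_append, List.mem_cons, List.mem_cons]
      tauto
    have g2 : List.IsChain (fun u v : α × Fin q => e u.1 u.2 ∧ s v.1 u.2)
        ((S₁ ++ p :: (u, i) :: S₂) ++ [z]) := by
      rw [List.append_assoc, List.cons_append] at hc
      rw [List.append_assoc, List.cons_append, List.cons_append]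
      rw [List.isChain_split] at hc
      rw [List.isChain_split]
      refine ⟨hc.1, ?_⟩
      have h4 := hc.2
      have hS : S₂ ++ [z] ≠ [] := by simp
      rw [List.isChain_cons] at h4
      rw [List.isChain_cons_cons, List.isChain_cons]
      have hpe : e p.1 i := by
        obtain ⟨y, hy⟩ : ∃ y, (S₂ ++ [z]).head? = some y := by
          cases S₂ with
          | nil => exact ⟨z, rfl⟩
          | cons y _ => exact ⟨y, rfl⟩
        rw [← hpi]
        exact (h4.1 y hy).1
      refine ⟨⟨by rw [hpi]; exact hpe, by rw [hpi]; exact hsi⟩, ?_, h4.2⟩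
      intro y hy
      have := h4.1 y hy
      exact ⟨hei, by rw [← hpi]; exact this.2⟩
    obtain ⟨S', h1, h2, h3⟩ := ih (S₁ ++ p :: (u, i) :: S₂) g1 g2
      (fun x hx => hI x (List.mem_cons_of_mem _ hx))
    refine ⟨S', h1.trans ?_, h2.trans ?_, h3⟩
    · classical
      refine List.perm_iff_count.2 fun x => ?_
      simp only [List.map_append, List.map_cons, List.count_append, List.count_cons]
      omega
    · cases S₁ <;> rfl

/-- cutting a list into pieces of length `k` -/
theorem chop {α : Type} (k : ℕ) : ∀ (m : ℕ) (l : List α), l.length = m * k →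
    ∃ ys : List (List α), ys.length = m ∧ (∀ y ∈ ys, y.length = k) ∧ ys.flatten = l := by
  intro m
  induction m with
  | zero =>
    intro l hl
    have : l = [] := List.length_eq_zero_iff.1 (by simpa using hl)
    exact ⟨[], rfl, by simp, by simp [this]⟩
  | succ m ih =>
    intro l hl
    obtain ⟨ys, h1, h2, h3⟩ := ih (l.drop k) (by rw [List.length_drop, hl, Nat.succ_mul]; omega)
    refine ⟨l.take k :: ys, by simp [h1], ?_, ?_⟩
    · intro y hy
      rcases List.mem_cons.1 hy with rfl | hy
      · rw [List.length_take, hl, Nat.succ_mul]; omega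
      · exact h2 y hy
    · rw [List.flatten_cons, h3, List.take_append_drop]

/-- the vertices of a woven list -/
theorem weave_perm {α : Type} : ∀ (ps ws : List (List α)), ws.length < ps.length →
    (weave ps ws).Perm (ps.flatten ++ ws.flatten)
  | [], _, h => by simp at h
  | [p], ws, h => by
      have : ws = [] := by simpa using h
      subst this
      simp [weave]
  | p :: q :: ps, [], _ => by
      rw [weave, List.flatten_nil, List.append_nil, List.flatten_cons]
      refine List.Perm.append_left p ?_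
      have := weave_perm (q :: ps) [] (by simp)
      simpa using this
  | p :: q :: ps, w :: ws, h => by
      rw [weave]
      have h1 := weave_perm (q :: ps) ws (by simp at h ⊢; omega)
      classical
      rw [List.perm_iff_count] at h1 ⊢
      intro x
      have := h1 x
      simp only [List.flatten_cons, List.count_append] at this ⊢
      omega

/-- functions which meet a small set -/
theorem hit_card {V : Type} [Fintype V] [DecidableEq V] (m : ℕ) (W : Finset V) :
    {w : Fin m → V | ∃ i, w i ∈ W}.ncard ≤ m * (W.card * Fintype.card V ^ (m - 1)) := by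
  classical
  have h1 : {w : Fin m → V | ∃ i, w i ∈ W} =
      ((Finset.univ.filter fun w : Fin m → V => ∃ i, w i ∈ W : Finset (Fin m → V)) :
        Set (Fin m → V)) := by
    ext w; simp
  rw [h1, Set.ncard_coe_finset]
  have h2 : (Finset.univ.filter fun w : Fin m → V => ∃ i, w i ∈ W) ⊆
      Finset.univ.biUnion fun i : Fin m =>
        Fintype.piFinset (fun j => if j = i then W else Finset.univ) := by
    intro w hw
    obtain ⟨i, hi⟩ := (Finset.mem_filter.1 hw).2
    refine Finset.mem_biUnion.2 ⟨i, Finset.mem_univ _, Fintype.mem_piFinset.2 fun j => ?_⟩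
    split_ifs with h
    · rw [h]; exact hi
    · exact Finset.mem_univ _
  refine (Finset.card_le_card h2).trans (Finset.card_biUnion_le.trans ?_)
  have h3 : ∀ i : Fin m, (Fintype.piFinset (fun j => if j = i then W else Finset.univ)).card =
      W.card * Fintype.card V ^ (m - 1) := by
    intro i
    rw [Fintype.card_piFinset, ← Finset.mul_prod_erase Finset.univ _ (Finset.mem_univ i),
      if_pos rfl]
    congr 1
    rw [Finset.prod_congr rfl (g := fun _ => Fintype.card V)]
    · rw [Finset.prod_const, Finset.card_erase_of_mem (Finset.mem_univ i), Finset.card_univ,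
        Fintype.card_fin]
    · intro j hj
      rw [if_neg (Finset.ne_of_mem_erase hj), Finset.card_univ]
  rw [Finset.sum_congr rfl fun i _ => h3 i, Finset.sum_const, Finset.card_univ,
    Fintype.card_fin, smul_eq_mul]

/-- a connector which avoids a small set -/
theorem conn {V : Type} [Fintype V] [DecidableEq V] {H : Finset (Finset V)} {k m M C : ℕ}
    {a b : List V} {c : ℝ} (W : Finset V) (hm : m ≤ M) (hW : W.card ≤ C)
    (hn : (M : ℝ) * C < c * Fintype.card V) (hc : 0 < c) (hV : 0 < Fintype.card V)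
    (h : c * (Fintype.card V : ℝ) ^ m ≤ con H k m a b) :
    ∃ w : List V, w.length = m ∧ Path H k (a ++ w ++ b) ∧ ∀ v ∈ w, v ∉ W := by
  classical
  by_contra hno
  push Not at hno
  have h1 : {w : Fin m → V | Path H k (a ++ List.ofFn w ++ b)} ⊆
      {w : Fin m → V | ∃ i, w i ∈ W} := by
    intro w hw
    obtain ⟨v, hv, hvW⟩ := hno (List.ofFn w) (List.length_ofFn) hw
    obtain ⟨i, hi⟩ := (List.mem_ofFn' w v).1 hv
    exact ⟨i, by rw [hi]; exact hvW⟩
  have h2 := (Set.ncard_le_ncard h1 (Set.toFinite _)).trans (hit_card m W)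
  have h3 : (con H k m a b : ℝ) ≤ m * (W.card * (Fintype.card V : ℝ) ^ (m - 1)) := by
    unfold con
    exact_mod_cast h2
  have hnpos : (0 : ℝ) < Fintype.card V := by exact_mod_cast hV
  rcases Nat.eq_zero_or_pos m with h0 | h0
  · subst h0
    simp only [Nat.cast_zero, zero_mul, pow_zero, mul_one] at h3 h
    linarith
  · obtain ⟨j, rfl⟩ := Nat.exists_eq_succ_of_ne_zero h0.ne'
    rw [Nat.succ_sub_one] at h3
    have h4 : c * Fintype.card V * (Fintype.card V : ℝ) ^ j ≤
        ((j + 1 : ℕ) : ℝ) * W.card * (Fintype.card V : ℝ) ^ j := by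
      calc c * Fintype.card V * (Fintype.card V : ℝ) ^ j
          = c * (Fintype.card V : ℝ) ^ (j + 1) := by ring
        _ ≤ _ := h.trans h3
        _ = _ := by ring
    have h5 := le_of_mul_le_mul_right h4 (pow_pos hnpos j)
    have h6 : ((j + 1 : ℕ) : ℝ) * W.card ≤ M * C := by
      have : (j + 1) * W.card ≤ M * C := Nat.mul_le_mul hm hW
      exact_mod_cast this
    linarith

end Pool.Agent.KK.H89
end

/-! ### Helper89_KK.ASM2 -/
section
/-! Squad KK, row ASM: the sequence of the segments. -/

set_option autoImplicit false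

open scoped BigOperators

namespace Pool.Agent.KK.H89

variable {V : Type} [Fintype V] [DecidableEq V]

omit [Fintype V] in
/-- the skeleton of the sequence is a chain -/
theorem skel {q k : ℕ} {H : Finset (Finset V)} {T : Fin q → Set (List V)} (A : Fin q → List V)
    (j : ℕ → Fin q) (b : List V) (hb : b ∈ T (j 0)) (hbl : b.length = k - 1) :
    ∀ (t : ℕ) (x : Fin t → List V),
      (∀ l : Fin t, Seg H k (T (j l)) (T (j (l + 1))) (x l)) →
      ∀ z : (Fin q ⊕ List V) × Fin q, (Sum.elim A id z.1).take (k - 1) ∈ T (j t) →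
      List.IsChain (fun u v : (Fin q ⊕ List V) × Fin q =>
        (Sum.elim A id u.1).drop ((Sum.elim A id u.1).length - (k - 1)) ∈ T u.2 ∧
          (Sum.elim A id v.1).take (k - 1) ∈ T u.2)
        (((Sum.inr b, j 0) :: List.ofFn (fun l : Fin t =>
          ((Sum.inr (x l), j (l + 1)) : (Fin q ⊕ List V) × Fin q))) ++ [z]) := by
  intro t
  induction t with
  | zero =>
    intro x _ z hz
    rw [List.ofFn_zero, List.singleton_append, List.isChain_cons_cons]
    refine ⟨⟨?_, hz⟩, List.isChain_singleton _⟩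
    simp only [Sum.elim_inr, id_eq]
    rw [hbl, Nat.sub_self, List.drop_zero]
    exact hb
  | succ t ih =>
    intro x hx z hz
    rw [List.ofFn_succ', List.concat_eq_append]
    have h1 := ih (fun l => x l.castSucc) (fun l => hx l.castSucc)
      (Sum.inr (x (Fin.last t)), j (t + 1)) (hx (Fin.last t)).2.2.1
    have h2 : ((Sum.inr b, j 0) :: (List.ofFn (fun l : Fin t =>
          ((Sum.inr (x l.castSucc), j (l.castSucc + 1)) : (Fin q ⊕ List V) × Fin q)) ++
            [(Sum.inr (x (Fin.last t)), j (Fin.last t + 1))])) ++ [z] =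
        (((Sum.inr b, j 0) :: List.ofFn (fun l : Fin t =>
          ((Sum.inr (x l.castSucc), j (l + 1)) : (Fin q ⊕ List V) × Fin q))) ++
            [(Sum.inr (x (Fin.last t)), j (t + 1))]) ++ [z] := rfl
    rw [h2]
    refine h1.append (List.isChain_singleton _) ?_
    intro u hu v hv
    rw [List.getLast?_concat, Option.mem_some_iff] at hu
    rw [List.head?_singleton, Option.mem_some_iff] at hv
    subst hu hv
    exact ⟨(hx (Fin.last t)).2.2.2, hz⟩

/-- the sequence of the segments -/
theorem seq_exists {q k : ℕ} {H : Finset (Finset V)} {T : Fin q → Set (List V)}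
    (A : Fin q → List V) (hA : ∀ i, Seg H k (T i) (T i) (A i))
    (ps : List (List V)) (hps : ∀ p ∈ ps, ∃ i, Seg H k (T i) (T i) p)
    (t : ℕ) (j : ℕ → Fin q) (x : Fin t → List V) (hj : ∀ i, ∃ l ≤ t, j l = i)
    (hx : ∀ l : Fin t, Seg H k (T (j l)) (T (j (l + 1))) (x l))
    (a b : List V) (ha : a ∈ T (j t)) (hb : b ∈ T (j 0)) (hal : a.length = k - 1)
    (hbl : b.length = k - 1) :
    ∃ S : List (Fin q ⊕ List V),
      S.Perm ((Sum.inr b :: (List.ofFn x).map Sum.inr) ++
        ((List.finRange q).map Sum.inl ++ ps.map Sum.inr)) ∧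
      S.head? = some (Sum.inr b) ∧
      ((S ++ [Sum.inr a]).map (Sum.elim A id)).IsChain
        (fun p p' : List V => ∃ i, p.drop (p.length - (k - 1)) ∈ T i ∧
          p'.take (k - 1) ∈ T i) := by
  have haT : (Sum.elim A id (Sum.inr a : Fin q ⊕ List V)).take (k - 1) ∈ T (j t) := by
    simp only [Sum.elim_inr, id_eq]
    rw [← hal, List.take_length]
    exact ha
  have h0 := skel A j b hb hbl t x hx (Sum.inr a, j t) haT
  obtain ⟨S', h1, h2, h3⟩ := ins
    (fun (u : Fin q ⊕ List V) i => (Sum.elim A id u).take (k - 1) ∈ T i)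
    (fun (u : Fin q ⊕ List V) i =>
      (Sum.elim A id u).drop ((Sum.elim A id u).length - (k - 1)) ∈ T i)
    (Sum.inr a, j t) ((List.finRange q).map Sum.inl ++ ps.map Sum.inr)
    ((Sum.inr b, j 0) :: List.ofFn (fun l : Fin t =>
          ((Sum.inr (x l), j (l + 1)) : (Fin q ⊕ List V) × Fin q)))
    (by
      intro i
      obtain ⟨l, hl, hli⟩ := hj i
      rcases Nat.eq_zero_or_pos l with h | h
      · subst h
        exact ⟨_, List.mem_cons_self, hli⟩
      · obtain ⟨l', rfl⟩ := Nat.exists_eq_succ_of_ne_zero h.ne'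
        refine ⟨(Sum.inr (x ⟨l', hl⟩), j (l' + 1)), List.mem_cons_of_mem _ ?_, hli⟩
        rw [List.mem_ofFn']
        exact ⟨⟨l', hl⟩, rfl⟩) h0
    (by
      intro u hu
      rcases List.mem_append.1 hu with h | h
      · obtain ⟨i, -, rfl⟩ := List.mem_map.1 h
        exact ⟨i, (hA i).2.2.1, (hA i).2.2.2⟩
      · obtain ⟨p, hp, rfl⟩ := List.mem_map.1 h
        obtain ⟨i, hi⟩ := hps p hp
        exact ⟨i, hi.2.2.1, hi.2.2.2⟩)
  refine ⟨S'.map Prod.fst, ?_, ?_, ?_⟩
  · refine h1.trans (List.Perm.of_eq ?_)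
    rw [List.map_cons, List.map_ofFn, List.map_ofFn]
    rfl
  · rw [List.head?_map, h2]
    rfl
  · have h4 : (S'.map Prod.fst ++ [Sum.inr a] : List (Fin q ⊕ List V)) =
        (S' ++ [(Sum.inr a, j t)]).map Prod.fst := by simp
    rw [h4, List.map_map, List.isChain_map]
    exact h3.imp fun u v h => ⟨u.2, h⟩

end Pool.Agent.KK.H89
end

/-! ### Helper89_KK.ASM -/
section
/-! Squad KK, row ASM: the assembly theorem. -/

set_option autoImplicit false

open scoped BigOperators

namespace Pool.Agent.KK.H89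

/-- large numbers -/
theorem ev (α β : ℝ) (hα : 0 < α) : ∃ n₀ : ℕ, ∀ n : ℕ, n₀ ≤ n → β ≤ α * n := by
  refine ⟨⌈β / α⌉₊, fun n hn => ?_⟩
  have h1 : β / α ≤ n := (Nat.le_ceil _).trans (by exact_mod_cast hn)
  rw [div_le_iff₀ hα] at h1
  linarith

theorem tight_short {V : Type} [DecidableEq V] {H : Finset (Finset V)} {k : ℕ} (hk : 2 ≤ k)
    {l : List V} (hl : l.length = k - 1) : Tight H k l := by
  rintro s ⟨p, r, h⟩ hs
  have := congrArg List.length h
  simp only [List.length_append] at this
  omega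

/-- the combinatorial part of the assembly -/
theorem asm_core {V : Type} [Fintype V] [DecidableEq V] {H : Finset (Finset V)} {k q : ℕ}
    {T : Fin q → Set (List V)} (jsq : JsqStmt) (rpl : RplStmt) (hk : 2 ≤ k)
    (hT : ∀ i, Tup k (T i)) (t : ℕ) (j : ℕ → Fin q) (x : Fin t → List V)
    (hj : ∀ i, ∃ l ≤ t, j l = i)
    (hx : ∀ l : Fin t, Seg H k (T (j l)) (T (j (l + 1))) (x l)) (a b : List V)
    (ha : a ∈ T (j t)) (hb : b ∈ T (j 0)) (w : ℕ → List V)
    (hwm : ∀ r, (w r).length ≡ r [MOD k])
    (hwp : ∀ r, Path H k (a ++ w r ++ b))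
    (A : Fin q → List V) (hA : ∀ i, Seg H k (T i) (T i) (A i)) (F ps : List (List V))
    (hF1 : F.Nodup) (hF2 : ∀ v ∈ F, v ≠ [])
    (hps : ∀ p ∈ ps, ∃ i, Seg H k (T i) (T i) p)
    (hnd : ((b ++ (List.ofFn x).flatten ++ (List.ofFn A).flatten ++ ps.flatten ++ a) ++
      F.flatten).Nodup)
    (hwd : ∀ r < k, ∀ v ∈ w r,
      v ∉ (List.ofFn x).flatten ++ (List.ofFn A).flatten ++ ps.flatten ++ F.flatten)
    (hFc : ∀ i, ∀ c ∈ T i, ∀ d ∈ T i, c.Disjoint d → Path H k (c ++ d) ∨
      t + q + ps.length + 2 ≤ {w : List V | w ∈ F ∧ Path H k (c ++ w ++ d)}.ncard)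
    (N : ℕ)
    (hN : Fintype.card V ≤ (b ++ (List.ofFn x).flatten ++ (List.ofFn A).flatten ++
      ps.flatten ++ a).length + N * k)
    (habs : ∀ ys : List (List V), (∀ y ∈ ys, y.length = k) →
          ((List.ofFn A).flatten ++ ys.flatten).Nodup → ys.length ≤ N →
          ∃ B : Fin q → List V, (∀ i, Path H k (B i) ∧ SameEnds (k - 1) (A i) (B i)) ∧
            (List.ofFn B).flatten.Perm ((List.ofFn A).flatten ++ ys.flatten)) :
    Ham H k := by
  classical
  have hal : a.length = k - 1 := (hT _ a ha).1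
  have hbl : b.length = k - 1 := (hT _ b hb).1
  have hand : a.Nodup := (hT _ a ha).2
  have hbnd : b.Nodup := (hT _ b hb).2
  obtain ⟨S, hSp, hSh, hSc⟩ := seq_exists A hA ps hps t j x hj hx a b ha hb hal hbl
  -- the lists of segments
  have hmap : ∀ B : Fin q → List V, ((S ++ [Sum.inr a]).map (Sum.elim B id)).Perm
      ((b :: List.ofFn x) ++ (List.ofFn B ++ ps) ++ [a]) := by
    intro B
    refine ((hSp.append_right [Sum.inr a]).map (Sum.elim B id)).trans (List.Perm.of_eq ?_)
    rw [List.map_append, List.map_append, List.map_append, List.map_cons, List.map_map,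
      List.map_map, List.map_map]
    have e1 : (Sum.elim B id : Fin q ⊕ List V → List V) ∘ Sum.inr = id := rfl
    have e2 : (Sum.elim B id : Fin q ⊕ List V → List V) ∘ Sum.inl = B := rfl
    have e3 : List.map B (List.finRange q) = List.ofFn B := List.ofFn_eq_map.symm
    rw [e1, e2, List.map_id, List.map_id, e3]
    rfl
  have hflat : ∀ B : Fin q → List V, ((S ++ [Sum.inr a]).map (Sum.elim B id)).flatten.Perm
      (b ++ (List.ofFn x).flatten ++ (List.ofFn B).flatten ++ ps.flatten ++ a) := by
    intro B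
    refine (hmap B).flatten.trans (List.Perm.of_eq ?_)
    simp only [List.flatten_append, List.flatten_cons, List.flatten_nil, List.append_nil,
      List.append_assoc]
  set PL : List (List V) := (S ++ [Sum.inr a]).map (Sum.elim A id) with hPL
  have hPLflat := hflat A
  rw [← hPL] at hPLflat
  have hPLlen : PL.length = t + q + ps.length + 2 := by
    have := (hmap A).length_eq
    rw [← hPL] at this
    rw [this]
    simp only [List.length_append, List.length_cons, List.length_ofFn, List.length_nil]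
    omega
  have hPLne : PL ≠ [] := by
    intro h
    rw [h] at hPLlen
    simp at hPLlen
  have hPLF : (PL.flatten ++ F.flatten).Nodup :=
    ((hPLflat.append_right F.flatten).nodup_iff).2 hnd
  have hgood : ∀ B : Fin q → List V, (∀ i, Path H k (B i) ∧ k - 1 ≤ (B i).length) →
      ∀ p ∈ (S ++ [Sum.inr a]).map (Sum.elim B id), Path H k p ∧ k - 1 ≤ p.length := by
    intro B hB p hp
    have hp' := (hmap B).mem_iff.1 hp
    simp only [List.mem_append, List.mem_cons, List.not_mem_nil, or_false] at hp'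
    rcases hp' with ((h | h) | (h | h)) | h
    · rw [h]; exact ⟨⟨hbnd, tight_short hk hbl⟩, hbl.ge⟩
    · obtain ⟨l, rfl⟩ := (List.mem_ofFn' _ _).1 h
      exact ⟨(hx l).1, (hx l).2.1⟩
    · obtain ⟨l, rfl⟩ := (List.mem_ofFn' _ _).1 h
      exact hB l
    · obtain ⟨i, hi⟩ := hps p h
      exact ⟨hi.1, hi.2.1⟩
    · rw [h]; exact ⟨⟨hand, tight_short hk hal⟩, hal.ge⟩
  have hPLgood : ∀ p ∈ PL, Path H k p ∧ k - 1 ≤ p.length :=
    hgood A fun i => ⟨(hA i).1, (hA i).2.1⟩
  obtain ⟨ws, hws1, hws2, hws3, hws4, hws5, hws6, hws7⟩ := jsq k q V H T F PL hk hT hF1 hPLne hPLF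
    hF2 hPLgood hSc (by rw [hPLlen]; exact hFc)
  obtain ⟨S'', hS''⟩ : ∃ S'', S = Sum.inr b :: S'' := by
    cases S with
    | nil => simp at hSh
    | cons y S'' =>
      rw [List.head?_cons, Option.some_inj] at hSh
      exact ⟨S'', by rw [hSh]⟩
  have hhead : PL.head! = b := by
    rw [hPL, hS'']
    rfl
  have hlast : PL.getLast! = a := by
    rw [hPL, List.map_append, List.map_singleton, List.getLast!_eq_getLast?_getD,
      List.getLast?_concat]
    rfl
  rw [hhead, ← hbl, List.take_length] at hws6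
  rw [hlast, hal, Nat.sub_self, List.drop_zero] at hws7
  rw [hbl] at hws6
  set P : List V := weave PL ws with hP
  have hPnd : P.Nodup := hws5.1
  have hPlen : P.length ≤ Fintype.card V := hPnd.length_le_card
  -- the closing connector
  set r := (Fintype.card V - P.length) % k with hr
  have hrk : r < k := Nat.mod_lt _ (by omega)
  have hPa : P = P.take (P.length - (k - 1)) ++ a := by
    rw [← hws7, List.take_append_drop]
  have hclose : Tight H k (P ++ w r ++ b) := by
    rw [hPa, List.append_assoc _ (w r) b, List.append_assoc _ a]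
    have h1 : Tight H k (a ++ (w r ++ b)) := by
      rw [← List.append_assoc]; exact (hwp r).2
    have h2 : Tight H k (P.take (P.length - (k - 1)) ++ a) := by
      rw [← hPa]; exact hws5.2
    rw [← List.append_assoc]
    exact tight_glue hal.ge h2 h1
  have hwnd : (w r).Nodup := ((List.nodup_append.1 (List.nodup_append.1 (hwp r).1).1)).2.1
  have hwa : ∀ v ∈ w r, v ∉ a := fun v hv hva =>
    (List.nodup_append.1 (List.nodup_append.1 (hwp r).1).1).2.2 v hva v hv rfl
  have hwb : ∀ v ∈ w r, v ∉ b := fun v hv hvb =>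
    (List.nodup_append.1 (hwp r).1).2.2 v (List.mem_append_right _ hv) v hvb rfl
  have hPw : (P ++ w r).Nodup := by
    rw [List.nodup_append]
    refine ⟨hPnd, hwnd, ?_⟩
    rintro v hv v' hv' rfl
    have h1 := hws4.mem_iff.1 hv
    have h2 := hwd r hrk v hv'
    simp only [List.mem_append, not_or] at h2
    rcases List.mem_append.1 h1 with h | h
    · have h3 := hPLflat.mem_iff.1 h
      simp only [List.mem_append] at h3
      have h4 := hwa v hv'
      have h5 := hwb v hv'
      tauto
    · obtain ⟨w', hw', hvw⟩ := List.mem_flatten.1 h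
      rcases hws2 w' hw' with h3 | h3
      · rw [h3] at hvw
        simp at hvw
      · exact h2.2 (List.mem_flatten.2 ⟨w', h3, hvw⟩)
  -- the remaining vertices
  set R : Finset V := Finset.univ \ (P ++ w r).toFinset with hR
  have hRcard : R.card + (P.length + (w r).length) = Fintype.card V := by
    have h1 := Finset.card_sdiff_add_card_eq_card (Finset.subset_univ (P ++ w r).toFinset)
    rw [List.toFinset_card_of_nodup hPw, List.length_append, Finset.card_univ] at h1
    exact h1
  have hdvd : k ∣ R.card := by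
    have h1 : (w r).length ≡ Fintype.card V - P.length [MOD k] :=
      (hwm r).trans (Nat.mod_modEq _ _)
    have h2 := (Nat.modEq_iff_dvd' (by omega)).1 h1
    have h3 : Fintype.card V - P.length - (w r).length = R.card := by omega
    rwa [h3] at h2
  obtain ⟨m, hm⟩ := hdvd
  obtain ⟨ys, hys1, hys2, hys3⟩ := chop k m R.toList (by rw [Finset.length_toList, hm, mul_comm])
  have hAP : ∀ v ∈ (List.ofFn A).flatten, v ∈ P := by
    intro v hv
    refine hws4.mem_iff.2 (List.mem_append_left _ (hPLflat.mem_iff.2 ?_))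
    simp only [List.mem_append]
    tauto
  have hRP : ∀ v ∈ R, v ∉ P ++ w r := by
    intro v hv h
    exact (Finset.mem_sdiff.1 hv).2 (List.mem_toFinset.2 h)
  have hAnd : (List.ofFn A).flatten.Nodup := by
    have h1 := (List.nodup_append.1 hnd).1
    have h2 := (List.nodup_append.1 h1).1
    have h3 := (List.nodup_append.1 h2).1
    exact (List.nodup_append.1 h3).2.1
  have hPlen2 : (b ++ (List.ofFn x).flatten ++ (List.ofFn A).flatten ++
      ps.flatten ++ a).length ≤ P.length := by
    rw [← hPLflat.length_eq, hws4.length_eq, List.length_append]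
    omega
  obtain ⟨B, hB1, hB2⟩ := habs ys hys2 (by
      rw [hys3, List.nodup_append]
      refine ⟨hAnd, Finset.nodup_toList _, ?_⟩
      rintro v hv v' hv' rfl
      exact hRP v (Finset.mem_toList.1 hv') (List.mem_append_left _ (hAP v hv)))
    (by
      rw [hys1]
      have h1 : R.card ≤ N * k := by omega
      rw [hm, mul_comm] at h1
      exact Nat.le_of_mul_le_mul_right h1 (by omega))
  have hBl : ∀ i, k - 1 ≤ (B i).length := by
    intro i
    have h1 := (hB1 i).2.1
    have h2 := congrArg List.length h1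
    rw [List.length_take, List.length_take] at h2
    have := (hA i).2.1
    omega
  set QL : List (List V) := (S ++ [Sum.inr a]).map (Sum.elim B id) with hQL
  have hQLflat := hflat B
  rw [← hQL] at hQLflat
  have hQLgood : ∀ p ∈ QL, Path H k p ∧ k - 1 ≤ p.length :=
    hgood B fun i => ⟨(hB1 i).1, hBl i⟩
  have hall : List.Forall₂ (fun p q => SameEnds (k - 1) p q ∧ k - 1 ≤ p.length ∧
      k - 1 ≤ q.length ∧ Tight H k q) PL QL := by
    rw [hPL, hQL, List.forall₂_map_left_iff, List.forall₂_map_right_iff, List.forall₂_same]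
    intro u hu
    have h1 := hPLgood _ (List.mem_map_of_mem hu)
    have h2 := hQLgood _ (List.mem_map_of_mem hu)
    refine ⟨?_, h1.2, h2.2, h2.1.2⟩
    cases u with
    | inl i => exact (hB1 i).2
    | inr p => exact ⟨rfl, rfl⟩
  obtain ⟨hr1, hr2⟩ := rpl k V H hk PL QL ws hPLne hall
  have hends := (hr1 hws5.2).2
  have hcyc := hr2 (w r) (by
    rw [← hP, hws6]
    exact hclose)
  have htakeQ : (weave QL ws).take (k - 1) = b := by
    rw [← hends.1, ← hP, hws6]
  have hQlen : k - 1 ≤ (weave QL ws).length := by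
    have h1 := congrArg List.length htakeQ
    rw [List.length_take, hbl] at h1
    omega
  have hQLlen : QL.length = PL.length := by rw [hQL, hPL, List.length_map, List.length_map]
  have hperm : (weave QL ws ++ w r).Perm ((P ++ w r) ++ R.toList) := by
    have h1 := weave_perm QL ws (by omega)
    rw [hys3] at hB2
    rw [List.perm_iff_count] at h1 hQLflat hPLflat hws4 hB2 ⊢
    intro v
    have e1 := h1 v
    have e2 := hQLflat v
    have e3 := hPLflat v
    have e4 := hws4 v
    have e5 := hB2 v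
    simp only [List.count_append] at e1 e2 e3 e4 e5 ⊢
    omega
  have hfull : ((P ++ w r) ++ R.toList).Nodup := by
    rw [List.nodup_append]
    refine ⟨hPw, Finset.nodup_toList _, ?_⟩
    rintro v hv v' hv' rfl
    exact hRP v (Finset.mem_toList.1 hv') hv
  refine ⟨weave QL ws ++ w r, hperm.nodup_iff.2 hfull, ?_, ?_⟩
  · intro v
    rw [hperm.mem_iff, List.mem_append, Finset.mem_toList]
    by_cases hv : v ∈ P ++ w r
    · exact Or.inl hv
    · refine Or.inr (Finset.mem_sdiff.2 ⟨Finset.mem_univ _, ?_⟩)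
      rwa [List.mem_toFinset]
  · rw [List.take_append_of_le_length hQlen]
    exact hcyc

theorem length_le_flatten {α : Type} (m : ℕ) : ∀ L : List (List α), (∀ l ∈ L, m ≤ l.length) →
    L.length * m ≤ L.flatten.length
  | [], _ => by simp
  | l :: L, h => by
    have h1 := length_le_flatten m L fun l' hl' => h l' (List.mem_cons_of_mem _ hl')
    have h2 := h l List.mem_cons_self
    rw [List.length_cons, List.flatten_cons, List.length_append, Nat.succ_mul]
    omega

theorem asm (abs : AbsStmt) (cnf : CnfStmt) (jsq : JsqStmt) (rpl : RplStmt) : AsmStmt := by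
  intro k M q C ls c hk hc hq hls
  obtain ⟨c₁, γ₁₀, hc₁, hγ₁₀, habs⟩ := abs k M q (C + 2 * k + k * M) ls c hk hc hq hls
  obtain ⟨c₂, γ₂₀, hc₂, hγ₂₀, hcnf⟩ := cnf k M q c hk hc
  have hkR : (2 : ℝ) ≤ k := by exact_mod_cast hk
  obtain ⟨γ₁, hγ₁, hγ₁a, hγ₁b, hγ₁c⟩ : ∃ γ₁ : ℝ, 0 < γ₁ ∧ γ₁ ≤ γ₁₀ ∧ 2 * γ₁ ≤ c₂ ∧
      3 * γ₁ ≤ 1 / 200 := by
    refine ⟨min γ₁₀ (min (c₂ / 2) (1 / 600)), ?_, min_le_left _ _, ?_, ?_⟩
    · exact lt_min hγ₁₀ (lt_min (by linarith) (by norm_num))
    · have := (min_le_right γ₁₀ (min (c₂ / 2) (1 / 600))).trans (min_le_left _ _)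
      linarith
    · have := (min_le_right γ₁₀ (min (c₂ / 2) (1 / 600))).trans (min_le_right _ _)
      linarith
  obtain ⟨γ₂, hγ₂, hγ₂a, hγ₂b, hγ₂c⟩ : ∃ γ₂ : ℝ, 0 < γ₂ ∧ γ₂ ≤ γ₂₀ ∧ γ₂ ≤ γ₁ ∧
      γ₂ ≤ c₁ * γ₁ * k / 4 := by
    have hpos : 0 < c₁ * γ₁ * k / 4 := by positivity
    refine ⟨min γ₂₀ (min γ₁ (c₁ * γ₁ * k / 4)), lt_min hγ₂₀ (lt_min hγ₁ hpos),
      min_le_left _ _, ?_, ?_⟩
    · exact (min_le_right _ _).trans (min_le_left _ _)
    · exact (min_le_right _ _).trans (min_le_right _ _)
  obtain ⟨n₁, habs⟩ := habs γ₁ hγ₁ hγ₁a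
  obtain ⟨n₂, hcnf⟩ := hcnf γ₂ hγ₂ hγ₂a
  have hcg : 0 < c₂ * γ₂ := mul_pos hc₂ hγ₂
  have hcg1 : 0 < c₁ * γ₁ * k / 4 := by positivity
  obtain ⟨n₃, hn₃⟩ := ev c (C + k) hc
  obtain ⟨n₄, hn₄⟩ := ev c (M * C + 1) hc
  obtain ⟨n₅, hn₅⟩ := ev γ₁ (C + 2 * k + k * M) hγ₁
  obtain ⟨n₆, hn₆⟩ := ev (c₁ * γ₁ * k / 4) (k * M + k) hcg1
  obtain ⟨n₇, hn₇⟩ := ev (c₂ * γ₂ / 2) (C + q + 2) (by linarith)
  refine ⟨c₁ * γ₁ * k / 4, ⌈2 / (c₂ * γ₂)⌉₊,
    n₁ + n₂ + n₃ + n₄ + n₅ + n₆ + n₇ + 1, hcg1, ?_⟩
  intro V _ _ H T i₀ hn hT hJ hJA hR hG hTour hCov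
  classical
  have hnpos : 0 < Fintype.card V := by omega
  have hnR : (0 : ℝ) < Fintype.card V := by exact_mod_cast hnpos
  have e3 := hn₃ (Fintype.card V) (by omega)
  have e4 := hn₄ (Fintype.card V) (by omega)
  have e5 := hn₅ (Fintype.card V) (by omega)
  have e6 := hn₆ (Fintype.card V) (by omega)
  have e7 := hn₇ (Fintype.card V) (by omega)
  obtain ⟨t, j, x, hj0, hjt, hjall, hx, hxnd, hxlen⟩ := hTour
  -- the crossing paths
  set W₀ : Finset V := (List.ofFn x).flatten.toFinset with hW₀
  have hW₀c : W₀.card ≤ C := (List.toFinset_card_le _).trans hxlen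
  obtain ⟨a, haT, haW⟩ := hR i₀ W₀ (by
    have : (W₀.card : ℝ) ≤ C := by exact_mod_cast hW₀c
    linarith)
  have hal : a.length = k - 1 := (hT _ a haT).1
  obtain ⟨b, hbT, hbW⟩ := hR i₀ (W₀ ∪ a.toFinset) (by
    have h1 : (W₀ ∪ a.toFinset).card ≤ C + k := by
      refine (Finset.card_union_le _ _).trans ?_
      have := List.toFinset_card_le a
      omega
    have h2 : ((W₀ ∪ a.toFinset).card : ℝ) ≤ C + k := by exact_mod_cast h1
    linarith)
  have hbl : b.length = k - 1 := (hT _ b hbT).1
  have hab : ∀ v ∈ b, v ∉ a := fun v hv hva =>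
    hbW v hv (Finset.mem_union_right _ (List.mem_toFinset.2 hva))
  have hbx : ∀ v ∈ b, v ∉ W₀ := fun v hv hva => hbW v hv (Finset.mem_union_left _ hva)
  -- the closing connectors
  have hw : ∀ r : ℕ, ∃ w : List V, w.length ≤ M ∧ w.length ≡ r [MOD k] ∧
      Path H k (a ++ w ++ b) ∧ ∀ v ∈ w, v ∉ W₀ := by
    intro r
    obtain ⟨m, hmM, hmr, hm⟩ := hJA a haT b hbT (fun v hva hvb => hab v hvb hva) r
    obtain ⟨w, hw1, hw2, hw3⟩ := conn (C := C) W₀ hmM hW₀c (by linarith) hc hnpos hm
    exact ⟨w, by rw [hw1]; exact hmM, by rw [hw1]; exact hmr, hw2, hw3⟩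
  choose w hwM hwm hwp hwx using hw
  set W₁ : Finset V := W₀ ∪ a.toFinset ∪ b.toFinset ∪
    (Finset.range k).biUnion fun r => (w r).toFinset with hW₁
  have hbiU : ((Finset.range k).biUnion fun r => (w r).toFinset).card ≤ k * M := by
    refine Finset.card_biUnion_le.trans ?_
    calc ∑ r ∈ Finset.range k, (w r).toFinset.card ≤ ∑ _r ∈ Finset.range k, M :=
          Finset.sum_le_sum fun r _ => (List.toFinset_card_le _).trans (hwM r)
      _ = k * M := by rw [Finset.sum_const, Finset.card_range, smul_eq_mul]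
  have hW₁c : W₁.card ≤ W₀.card + a.length + b.length + k * M := by
    refine (Finset.card_union_le _ _).trans (Nat.add_le_add ?_ hbiU)
    refine (Finset.card_union_le _ _).trans (Nat.add_le_add ?_ (List.toFinset_card_le _))
    exact (Finset.card_union_le _ _).trans (Nat.add_le_add le_rfl (List.toFinset_card_le _))
  obtain ⟨A, hA, hAnd, hAW, hAlen, habsorb⟩ := habs V H T (by omega) hT hJ hR hG W₁ (by omega)
  set AA := (List.ofFn A).flatten with hAA
  set W₂ : Finset V := W₁ ∪ AA.toFinset with hW₂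
  have hW₂c : W₂.card ≤ W₁.card + AA.length :=
    (Finset.card_union_le _ _).trans (Nat.add_le_add le_rfl (List.toFinset_card_le _))
  have hW₁R : (W₁.card : ℝ) ≤ C + 2 * k + k * M := by
    have : W₁.card ≤ C + 2 * k + k * M := by omega
    exact_mod_cast this
  have hW₂R : (W₂.card : ℝ) ≤ 2 * γ₁ * Fintype.card V := by
    have h1 : (W₂.card : ℝ) ≤ W₁.card + AA.length := by exact_mod_cast hW₂c
    linarith
  obtain ⟨F, hF1, hF2, hF3, hF4, hF5, hF6⟩ := hcnf V H T (by omega) hT hJ W₂ (by
    have := mul_le_mul_of_nonneg_right hγ₁b hnR.le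
    linarith)
  set W₃ : Finset V := W₂ ∪ F.flatten.toFinset with hW₃
  have hW₃c : W₃.card ≤ W₂.card + F.flatten.length :=
    (Finset.card_union_le _ _).trans (Nat.add_le_add le_rfl (List.toFinset_card_le _))
  have hW₃R : (W₃.card : ℝ) ≤ 1 / 200 * Fintype.card V := by
    have h1 : (W₃.card : ℝ) ≤ W₂.card + F.flatten.length := by exact_mod_cast hW₃c
    have h2 := mul_le_mul_of_nonneg_right hγ₂b hnR.le
    have h3 := mul_le_mul_of_nonneg_right hγ₁c hnR.le
    linarith
  obtain ⟨ps, hps1, hps2, hps3, hps4⟩ := hCov W₃ hW₃R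
  -- sizes
  have ht : t ≤ C := by
    have h1 := length_le_flatten 1 (List.ofFn x) (by
      intro l hl
      obtain ⟨i, rfl⟩ := (List.mem_ofFn' _ _).1 hl
      have := (hx i).2.1
      omega)
    rw [List.length_ofFn, mul_one] at h1
    exact h1.trans hxlen
  have hpsn : ps.length * ⌈2 / (c₂ * γ₂)⌉₊ ≤ Fintype.card V :=
    (length_le_flatten _ ps fun l hl => (hps3 l hl).1).trans hps1.length_le_card
  have hpsR : (ps.length : ℝ) ≤ c₂ * γ₂ / 2 * Fintype.card V := by
    have h1 : (2 / (c₂ * γ₂) : ℝ) ≤ (⌈2 / (c₂ * γ₂)⌉₊ : ℝ) := Nat.le_ceil _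
    have h2 : (ps.length : ℝ) * (⌈2 / (c₂ * γ₂)⌉₊ : ℝ) ≤ Fintype.card V := by
      exact_mod_cast hpsn
    have h3 : (ps.length : ℝ) * (2 / (c₂ * γ₂)) ≤ Fintype.card V :=
      (mul_le_mul_of_nonneg_left h1 (Nat.cast_nonneg _)).trans h2
    have h4 : (ps.length : ℝ) = (ps.length : ℝ) * (2 / (c₂ * γ₂)) * (c₂ * γ₂ / 2) := by
      field_simp
    rw [h4, mul_comm (c₂ * γ₂ / 2)]
    exact mul_le_mul_of_nonneg_right h3 (by linarith)
  have hnum : ((t + q + ps.length + 2 : ℕ) : ℝ) ≤ c₂ * γ₂ * Fintype.card V := by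
    push_cast
    have h1 : (t : ℝ) ≤ C := by exact_mod_cast ht
    linarith
  have haX : ∀ v ∈ a, v ∈ W₁ := fun v hv => by
    rw [hW₁]; simp only [Finset.mem_union, List.mem_toFinset]; tauto
  have hbX : ∀ v ∈ b, v ∈ W₁ := fun v hv => by
    rw [hW₁]; simp only [Finset.mem_union, List.mem_toFinset]; tauto
  have hxX : ∀ v ∈ (List.ofFn x).flatten, v ∈ W₁ := fun v hv => by
    rw [hW₁, hW₀]; simp only [Finset.mem_union, List.mem_toFinset]; tauto
  have hwX : ∀ r < k, ∀ v ∈ w r, v ∈ W₁ := fun r hr v hv => by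
    rw [hW₁, Finset.mem_union, Finset.mem_biUnion]
    exact Or.inr ⟨r, Finset.mem_range.2 hr, List.mem_toFinset.2 hv⟩
  have hAA1 : ∀ v ∈ AA, v ∉ W₁ := by
    intro v hv
    obtain ⟨l, hl, hvl⟩ := List.mem_flatten.1 hv
    obtain ⟨i, rfl⟩ := (List.mem_ofFn' _ _).1 hl
    exact hAW i v hvl
  have hFW1 : ∀ v ∈ F.flatten, v ∉ W₁ := fun v hv h => hF4 v hv (Finset.mem_union_left _ h)
  have hFAA : ∀ v ∈ F.flatten, v ∉ AA := fun v hv h =>
    hF4 v hv (Finset.mem_union_right _ (List.mem_toFinset.2 h))
  have hpW1 : ∀ v ∈ ps.flatten, v ∉ W₁ := fun v hv h => hps2 v hv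
    (Finset.mem_union_left _ (Finset.mem_union_left _ h))
  have hpAA : ∀ v ∈ ps.flatten, v ∉ AA := fun v hv h => hps2 v hv
    (Finset.mem_union_left _ (Finset.mem_union_right _ (List.mem_toFinset.2 h)))
  have hpF : ∀ v ∈ ps.flatten, v ∉ F.flatten := fun v hv h => hps2 v hv
    (Finset.mem_union_right _ (List.mem_toFinset.2 h))
  have hax : ∀ v ∈ a, v ∉ (List.ofFn x).flatten := fun v hv h =>
    haW v hv (List.mem_toFinset.2 h)
  have hbx' : ∀ v ∈ b, v ∉ (List.ofFn x).flatten := fun v hv h =>
    hbx v hv (List.mem_toFinset.2 h)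
  refine asm_core jsq rpl hk hT t j x hjall hx a b (by rw [hjt]; exact haT)
    (by rw [hj0]; exact hbT) w hwm hwp A hA F ps hF2 hF3
    (fun p hp => (hps3 p hp).2) ?_ ?_ ?_ ⌊c₁ * γ₁ * Fintype.card V⌋₊ ?_ ?_
  · rw [List.nodup_append, List.nodup_append, List.nodup_append, List.nodup_append,
      List.nodup_append]
    refine ⟨⟨⟨⟨⟨(hT _ b hbT).2, hxnd, ?_⟩, hAnd, ?_⟩, hps1, ?_⟩, (hT _ a haT).2, ?_⟩, hF1, ?_⟩
    · rintro v hv v' hv' rfl
      exact hbx' v hv hv'
    · rintro v hv v' hv' rfl
      rcases List.mem_append.1 hv with h | h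
      · exact hAA1 v hv' (hbX v h)
      · exact hAA1 v hv' (hxX v h)
    · rintro v hv v' hv' rfl
      simp only [List.mem_append] at hv
      rcases hv with (h | h) | h
      · exact hpW1 v hv' (hbX v h)
      · exact hpW1 v hv' (hxX v h)
      · exact hpAA v hv' h
    · rintro v hv v' hv' rfl
      simp only [List.mem_append] at hv
      rcases hv with ((h | h) | h) | h
      · exact hab v h hv'
      · exact hax v hv' h
      · exact hAA1 v h (haX v hv')
      · exact hpW1 v h (haX v hv')
    · rintro v hv v' hv' rfl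
      simp only [List.mem_append] at hv
      rcases hv with (((h | h) | h) | h) | h
      · exact hFW1 v hv' (hbX v h)
      · exact hFW1 v hv' (hxX v h)
      · exact hFAA v hv' h
      · exact hpF v h hv'
      · exact hFW1 v hv' (haX v h)
  · intro r hr v hv hmem
    simp only [List.mem_append] at hmem
    rcases hmem with ((h | h) | h) | h
    · exact hwx r v hv (List.mem_toFinset.2 h)
    · exact hAA1 v h (hwX r hr v hv)
    · exact hpW1 v h (hwX r hr v hv)
    · exact hFW1 v h (hwX r hr v hv)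
  · intro i u hu v hv huv
    rcases hF6 i u hu v hv huv with h | h
    · exact Or.inl h
    · refine Or.inr ?_
      have := hnum.trans h
      exact_mod_cast this
  · have h1 : (W₃.card : ℝ) ≤ (List.ofFn x).flatten.length + a.length + b.length + k * M +
        AA.length + F.flatten.length := by
      have h2 : W₃.card ≤ (List.ofFn x).flatten.length + a.length + b.length + k * M +
          AA.length + F.flatten.length := by
        have h3 : W₀.card ≤ (List.ofFn x).flatten.length := List.toFinset_card_le _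
        omega
      exact_mod_cast h2
    have h2 : c₁ * γ₁ * Fintype.card V < (⌊c₁ * γ₁ * Fintype.card V⌋₊ : ℝ) + 1 :=
      Nat.lt_floor_add_one _
    have h3 := mul_le_mul_of_nonneg_right hγ₂c hnR.le
    have h4 : c₁ * γ₁ * Fintype.card V * k ≤
        ((⌊c₁ * γ₁ * Fintype.card V⌋₊ : ℝ) + 1) * k :=
      mul_le_mul_of_nonneg_right h2.le (by linarith)
    have h5 : (Fintype.card V : ℝ) ≤ ((b ++ (List.ofFn x).flatten ++ AA ++
        ps.flatten ++ a).length : ℝ) + (⌊c₁ * γ₁ * Fintype.card V⌋₊ : ℝ) * k := by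
      simp only [List.length_append, Nat.cast_add]
      nlinarith
    exact_mod_cast h5
  · intro ys hy1 hy2 hy3
    refine habsorb ys hy1 hy2 ?_
    have h1 : (ys.length : ℝ) ≤ (⌊c₁ * γ₁ * Fintype.card V⌋₊ : ℝ) := by exact_mod_cast hy3
    exact h1.trans (Nat.floor_le (by positivity))

end Pool.Agent.KK.H89
end

/-! ### Helper97_KK.DIC -/
section
/-! Squad KK, row DIC (helper97): exchange dichotomy. -/

set_option autoImplicit false

open scoped BigOperators

namespace Pool.Agent.KK.H97D

open Finset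
open scoped Classical

/-- number of elements with property `p`, as a real number -/
noncomputable def c {α : Type} (p : α → Prop) : ℝ := ({x | p x}.ncard : ℝ)

theorem c_eq {α : Type} [Fintype α] (p : α → Prop) :
    c p = ∑ x, (if p x then (1 : ℝ) else 0) := by
  unfold c
  have h : {x | p x}.ncard = (univ.filter p).card := by
    rw [Set.ncard_eq_toFinset_card']
    congr 1
    ext x
    simp
  rw [h, Finset.card_filter]
  push_cast
  rfl

theorem c_eq' {α : Type} [Fintype α] (p : α → Prop) [DecidablePred p] :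
    ∑ x, (if p x then (1 : ℝ) else 0) = c p := by
  rw [c_eq]
  apply Finset.sum_congr rfl
  intro x _
  congr

theorem c_nonneg {α : Type} (p : α → Prop) : 0 ≤ c p := by
  unfold c
  positivity

theorem c_mono {α : Type} [Fintype α] {p q : α → Prop} (h : ∀ x, p x → q x) : c p ≤ c q := by
  rw [c_eq, c_eq]
  apply Finset.sum_le_sum
  intro x _
  by_cases hp : p x
  · rw [if_pos hp, if_pos (h x hp)]
  · rw [if_neg hp]
    split_ifs <;> norm_num

theorem c_congr {α : Type} {p q : α → Prop} (h : ∀ x, p x ↔ q x) : c p = c q := by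
  have : p = q := funext fun x => propext (h x)
  rw [this]

theorem c_or {α : Type} [Fintype α] (p q : α → Prop) : c (fun x => p x ∨ q x) ≤ c p + c q := by
  rw [c_eq, c_eq, c_eq, ← Finset.sum_add_distrib]
  apply Finset.sum_le_sum
  intro x _
  by_cases hp : p x <;> by_cases hq : q x <;> simp [hp, hq]

theorem c_split {α : Type} [Fintype α] (p : α → Prop) : c p + c (fun x => ¬ p x) = Fintype.card α := by
  rw [c_eq, c_eq, ← Finset.sum_add_distrib]
  rw [← Finset.card_univ, Finset.card_eq_sum_ones]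
  push_cast
  apply Finset.sum_congr rfl
  intro x _
  by_cases hp : p x <;> simp [hp]

theorem c_le_card {α : Type} [Fintype α] (p : α → Prop) : c p ≤ Fintype.card α := by
  have := c_split p
  have := c_nonneg (fun x => ¬ p x)
  linarith

theorem c_prod {α β : Type} [Fintype α] [Fintype β] (p : α → β → Prop) :
    c (fun x : α × β => p x.1 x.2) = ∑ a, c (p a) := by
  rw [c_eq, Fintype.sum_prod_type]
  apply Finset.sum_congr rfl
  intro a _
  rw [c_eq]

theorem c_equiv {α β : Type} [Fintype α] [Fintype β] (e : α ≃ β) (p : β → Prop) :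
    c (fun x => p (e x)) = c p := by
  rw [c_eq, c_eq]
  exact Equiv.sum_comp e (fun y => if p y then (1 : ℝ) else 0)

theorem c_fst {α β : Type} [Fintype α] [Fintype β] (p : α → Prop) :
    c (fun x : α × β => p x.1) = Fintype.card β * c p := by
  rw [c_prod (fun a (_ : β) => p a), c_eq p, Finset.mul_sum]
  apply Finset.sum_congr rfl
  intro a _
  rw [c_eq]
  by_cases h : p a
  · simp [h]
  · simp [h]

theorem c_snd {α β : Type} [Fintype α] [Fintype β] (p : α → β → Prop) :
    c (fun x : α × β => p x.1 x.2) = ∑ b, c (fun a => p a b) := by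
  have : c (fun x : α × β => p x.1 x.2) = c (fun x : β × α => p x.2 x.1) := by
    rw [← c_equiv (Equiv.prodComm β α)]
    rfl
  rw [this, c_prod (fun b a => p a b)]

theorem c_cons {V : Type} [Fintype V] {m : ℕ} (p : (Fin (m + 1) → V) → Prop) :
    c p = ∑ v, c (fun f : Fin m → V => p (Fin.cons v f)) := by
  rw [← c_equiv (Fin.consEquiv (fun _ : Fin (m + 1) => V)), ← c_prod]
  rfl

/-- two large sets with a small intersection are nearly complementary -/
theorem agree {α : Type} [Fintype α] (p q : α → Prop) (μ : ℝ)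
    (hp : (1 / 2 - μ) * Fintype.card α ≤ c p) (hq : (1 / 2 - μ) * Fintype.card α ≤ c q)
    (h : c (fun x => p x ∧ q x) ≤ μ * Fintype.card α) :
    c (fun x => p x ↔ q x) ≤ 4 * μ * Fintype.card α := by
  have key : c (fun x => p x ↔ q x) + c p + c q = Fintype.card α + 2 * c (fun x => p x ∧ q x) := by
    rw [c_eq, c_eq, c_eq, c_eq, ← Finset.sum_add_distrib, ← Finset.sum_add_distrib,
      Finset.mul_sum, ← Finset.card_univ, Finset.card_eq_sum_ones]
    push_cast
    rw [← Finset.sum_add_distrib]
    apply Finset.sum_congr rfl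
    intro x _
    by_cases hp : p x <;> by_cases hq : q x <;> simp [hp, hq]
    norm_num
  nlinarith

theorem select {V : Type} [Fintype V] (A : V → Prop) (ex : V → V → Prop) (κ n : ℝ) (hκ : 0 < κ)
    (hκ' : κ < 1 / 648) (hn0 : 0 < n) (hA : n / 18 ≤ c A)
    (hA' : n / 18 ≤ c (fun v => ¬ A v))
    (hE : c (fun p : V × V => A p.1 ∧ ¬ A p.2 ∧ ex p.1 p.2) < κ * n ^ 2) :
    ∃ v₀ u₀, ¬ A v₀ ∧ A u₀ ∧ ¬ ex u₀ v₀ ∧ c (fun u => A u ∧ ex u v₀) ≤ 18 * κ * n ∧
      c (fun v => ¬ A v ∧ ex u₀ v) ≤ 36 * κ * n := by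
  obtain ⟨v₀, hv, hv'⟩ : ∃ v₀, ¬ A v₀ ∧ c (fun u => A u ∧ ex u v₀) ≤ 18 * κ * n := by
    by_contra hcon
    push Not at hcon
    have h1 : c (fun p : V × V => A p.1 ∧ ¬ A p.2 ∧ ex p.1 p.2) =
        ∑ v, c (fun u => A u ∧ ¬ A v ∧ ex u v) :=
      c_snd (fun u v => A u ∧ ¬ A v ∧ ex u v)
    have h2 : ∑ v, (if ¬ A v then (1 : ℝ) else 0) * (18 * κ * n) ≤
        ∑ v, c (fun u => A u ∧ ¬ A v ∧ ex u v) := by
      apply Finset.sum_le_sum
      intro v _
      by_cases hv : A v
      · rw [if_neg (by simpa using hv)]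
        have := c_nonneg (fun u => A u ∧ ¬ A v ∧ ex u v)
        linarith
      · rw [if_pos hv, one_mul]
        refine (hcon v hv).le.trans (c_mono ?_)
        intro u hu
        exact ⟨hu.1, hv, hu.2⟩
    rw [← Finset.sum_mul, c_eq' (fun v => ¬ A v), ← h1] at h2
    have h3 : n / 18 * (18 * κ * n) ≤ c (fun v => ¬ A v) * (18 * κ * n) :=
      mul_le_mul_of_nonneg_right hA' (by positivity)
    nlinarith
  obtain ⟨u₀, hu, hu1, hu2⟩ : ∃ u₀, A u₀ ∧ ¬ ex u₀ v₀ ∧
      c (fun v => ¬ A v ∧ ex u₀ v) ≤ 36 * κ * n := by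
    by_contra hcon
    push Not at hcon
    set B : V → Prop := fun u => A u ∧ 36 * κ * n < c (fun v => ¬ A v ∧ ex u v) with hB
    have h0 : c A ≤ c (fun u => A u ∧ ex u v₀) + c B := by
      refine le_trans (c_mono ?_) (c_or _ _)
      intro u hu
      by_cases h : ex u v₀
      · exact Or.inl ⟨hu, h⟩
      · exact Or.inr ⟨hu, hcon u hu h⟩
    have h1 : c (fun p : V × V => A p.1 ∧ ¬ A p.2 ∧ ex p.1 p.2) =
        ∑ u, c (fun v => A u ∧ ¬ A v ∧ ex u v) :=
      c_prod (fun u v => A u ∧ ¬ A v ∧ ex u v)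
    have h2 : ∑ u, (if B u then (1 : ℝ) else 0) * (36 * κ * n) ≤
        ∑ u, c (fun v => A u ∧ ¬ A v ∧ ex u v) := by
      apply Finset.sum_le_sum
      intro u _
      by_cases hu : B u
      · rw [if_pos hu, one_mul]
        refine hu.2.le.trans (c_mono ?_)
        intro v hv
        exact ⟨hu.1, hv.1, hv.2⟩
      · rw [if_neg hu]
        have := c_nonneg (fun v => A u ∧ ¬ A v ∧ ex u v)
        linarith
    rw [← Finset.sum_mul, c_eq' B, ← h1] at h2
    have h3 : c B * (36 * κ * n) < κ * n ^ 2 := lt_of_le_of_lt h2 hE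
    have h4 : c B < n / 36 := by
      by_contra hc
      push Not at hc
      have : n / 36 * (36 * κ * n) ≤ c B * (36 * κ * n) :=
        mul_le_mul_of_nonneg_right hc (by positivity)
      nlinarith
    have h5 : 18 * κ * n < n / 36 := by nlinarith
    linarith
  exact ⟨v₀, u₀, hv, hu, hu1, hv', hu2⟩

/-- link tuples of a vertex -/
def Lk {V : Type} [Fintype V] [DecidableEq V] (H : Finset (Finset V)) (m : ℕ) (u : V)
    (f : Fin m → V) : Prop := u ∉ univ.image f ∧ insert u (univ.image f) ∈ H

theorem image_cons {V : Type} [DecidableEq V] {m : ℕ} (v : V) (f : Fin m → V) :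
    (univ.image (Fin.cons v f : Fin (m + 1) → V)) = insert v (univ.image f) := by
  ext x
  simp only [mem_image, mem_univ, true_and, mem_insert]
  constructor
  · rintro ⟨i, rfl⟩
    refine Fin.cases ?_ ?_ i
    · left; rfl
    · intro j
      right
      exact ⟨j, by simp⟩
  · rintro (rfl | ⟨j, rfl⟩)
    · exact ⟨0, by simp⟩
    · exact ⟨j.succ, by simp⟩

theorem c_fix {V : Type} [Fintype V] {m : ℕ} (i : Fin m) (F : (Fin m → V) → V)
    (hF : ∀ f g : Fin m → V, (∀ j, j ≠ i → f j = g j) → F f = F g) :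
    c (fun f : Fin m → V => f i = F f) ≤ (Fintype.card V : ℝ) ^ (m - 1) := by
  unfold c
  have h : {f : Fin m → V | f i = F f}.ncard ≤ (Fintype.card V) ^ (m - 1) := by
    have hcard : (Fintype.card V) ^ (m - 1) = (Set.univ : Set ({x : Fin m // x ≠ i} → V)).ncard := by
      rw [Set.ncard_univ, Nat.card_eq_fintype_card, Fintype.card_fun]
      congr 1
      have := Set.card_ne_eq i
      rw [Fintype.card_fin] at this
      rw [← this]
      rfl
    rw [hcard]
    refine Set.ncard_le_ncard_of_injOn (fun f x => f x.1) (fun _ _ => Set.mem_univ _) ?_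
      (Set.toFinite _)
    intro f hf g hg hfg
    have h1 : ∀ j, j ≠ i → f j = g j := fun j hj => congrFun hfg ⟨j, hj⟩
    funext j
    by_cases hj : j = i
    · subst hj
      have h2 : f j = F f := hf
      have h3 : g j = F g := hg
      rw [h2, h3, hF f g h1]
    · exact h1 j hj
  exact_mod_cast h

theorem c_exists {α ι : Type} [Fintype α] [Fintype ι] (p : ι → α → Prop) :
    c (fun x => ∃ i, p i x) ≤ ∑ i, c (p i) := by
  have h : ∑ i, c (p i) = ∑ x, ∑ i, (if p i x then (1 : ℝ) else 0) := by
    rw [Finset.sum_comm]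
    apply Finset.sum_congr rfl
    intro i _
    rw [c_eq]
  rw [h, c_eq]
  apply Finset.sum_le_sum
  intro x _
  by_cases hx : ∃ i, p i x
  · rw [if_pos hx]
    obtain ⟨i, hi⟩ := hx
    have := Finset.single_le_sum (f := fun i => if p i x then (1 : ℝ) else 0) (s := univ)
      (fun i _ => by split_ifs <;> norm_num) (Finset.mem_univ i)
    simpa [hi] using this
  · rw [if_neg hx]
    apply Finset.sum_nonneg
    intro i _
    split_ifs <;> norm_num

/-- few tuples are not injective or meet `u` -/
theorem bad_tuples {V : Type} [Fintype V] (m : ℕ) (u : V) :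
    c (fun g : Fin m → V => ¬ (Function.Injective g ∧ ∀ i, g i ≠ u)) ≤
      (m ^ 2 + m : ℝ) * (Fintype.card V : ℝ) ^ (m - 1) := by
  have h1 : c (fun g : Fin m → V => ¬ (Function.Injective g ∧ ∀ i, g i ≠ u)) ≤
      c (fun g : Fin m → V => ∃ p : Fin m × Fin m, p.1 ≠ p.2 ∧ g p.1 = g p.2) +
      c (fun g : Fin m → V => ∃ i, g i = u) := by
    refine le_trans (c_mono ?_) (c_or _ _)
    intro g hg
    by_cases h : Function.Injective g
    · right
      by_contra hc
      push Not at hc
      exact hg ⟨h, hc⟩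
    · left
      unfold Function.Injective at h
      push Not at h
      obtain ⟨a, b, hab, hne⟩ := h
      exact ⟨(a, b), hne, hab⟩
  have h2 : c (fun g : Fin m → V => ∃ p : Fin m × Fin m, p.1 ≠ p.2 ∧ g p.1 = g p.2) ≤
      (m : ℝ) ^ 2 * (Fintype.card V : ℝ) ^ (m - 1) := by
    refine (c_exists _).trans ?_
    refine (Finset.sum_le_sum (g := fun _ => (Fintype.card V : ℝ) ^ (m - 1)) ?_).trans ?_
    · rintro ⟨a, b⟩ _
      by_cases hab : a = b
      · have : c (fun g : Fin m → V => (a, b).1 ≠ (a, b).2 ∧ g (a, b).1 = g (a, b).2) = 0 := by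
          rw [c_eq]
          apply Finset.sum_eq_zero
          intro g _
          rw [if_neg]
          rintro ⟨h, _⟩
          exact h hab
        rw [this]
        positivity
      · refine le_trans (c_mono (q := fun g : Fin m → V => g a = g b) (fun g hg => hg.2)) ?_
        exact c_fix a (fun g => g b) (fun f g h => h b (Ne.symm hab))
    · rw [Finset.sum_const, Finset.card_univ, Fintype.card_prod, Fintype.card_fin, nsmul_eq_mul]
      push_cast
      apply le_of_eq
      ring
  have h3 : c (fun g : Fin m → V => ∃ i, g i = u) ≤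
      (m : ℝ) * (Fintype.card V : ℝ) ^ (m - 1) := by
    refine (c_exists _).trans ?_
    refine (Finset.sum_le_sum (g := fun _ => (Fintype.card V : ℝ) ^ (m - 1)) ?_).trans ?_
    · intro i _
      exact c_fix i (fun _ => u) (fun _ _ _ => rfl)
    · rw [Finset.sum_const, Finset.card_univ, Fintype.card_fin, nsmul_eq_mul]
  linarith

/-- lower bound for the number of link tuples -/
theorem link_lower (m : ℕ) (hm : 1 ≤ m) (μ : ℝ) (hμ : 0 < μ) : ∃ n₀ : ℕ, 0 < n₀ ∧
    ∀ (V : Type) [Fintype V] [DecidableEq V] (H : Finset (Finset V)), n₀ ≤ Fintype.card V →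
    Dirac H (m + 2) → ∀ u : V,
      (1 / 2 - μ) * (Fintype.card V : ℝ) ^ (m + 1) ≤ c (Lk H (m + 1) u) := by
  refine ⟨⌈(m ^ 2 + m : ℝ) / μ⌉₊ + 1, by omega, ?_⟩
  intro V _ _ H hn hD u
  have hn1 : (m ^ 2 + m : ℝ) / μ ≤ (Fintype.card V : ℝ) := by
    refine (Nat.le_ceil _).trans ?_
    exact_mod_cast (Nat.le_succ _).trans hn
  have hn0 : (0 : ℝ) < Fintype.card V := by
    have : 0 < Fintype.card V := by omega
    exact_mod_cast this
  set n : ℝ := (Fintype.card V : ℝ) with hnn
  -- fibres
  have h1 : c (Lk H (m + 1) u) = ∑ g : Fin m → V, c (fun v => Lk H (m + 1) u (Fin.cons v g)) := by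
    rw [c_cons, ← c_prod (fun v g => Lk H (m + 1) u (Fin.cons v g)), c_snd (fun v g => Lk H (m + 1) u (Fin.cons v g))]
  have h2 : ∑ g : Fin m → V, (if Function.Injective g ∧ ∀ i, g i ≠ u then (1 : ℝ) else 0) * (n / 2) ≤
      ∑ g : Fin m → V, c (fun v => Lk H (m + 1) u (Fin.cons v g)) := by
    apply Finset.sum_le_sum
    intro g _
    by_cases hg : Function.Injective g ∧ ∀ i, g i ≠ u
    · rw [if_pos hg, one_mul]
      have hu : u ∉ univ.image g := by
        simp only [mem_image, mem_univ, true_and, not_exists]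
        exact hg.2
      have hcard : (insert u (univ.image g)).card = m + 2 - 1 := by
        rw [Finset.card_insert_of_notMem hu, Finset.card_image_of_injective _ hg.1,
          Finset.card_univ, Fintype.card_fin]
        omega
      have h3 := hD _ hcard
      have h4 : c (fun v => v ∈ nb H (insert u (univ.image g))) ≤
          c (fun v => Lk H (m + 1) u (Fin.cons v g)) := by
        apply c_mono
        intro v hv
        unfold nb at hv
        rw [mem_filter] at hv
        obtain ⟨_, hv1, hv2⟩ := hv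
        unfold Lk
        rw [image_cons]
        refine ⟨?_, ?_⟩
        · rw [mem_insert] at hv1 ⊢
          push Not at hv1 ⊢
          exact ⟨hv1.1.symm, hu⟩
        · rw [Finset.insert_comm]
          exact hv2
      have h5 : c (fun v => v ∈ nb H (insert u (univ.image g))) =
          ((nb H (insert u (univ.image g))).card : ℝ) := by
        unfold c
        rw [← Set.ncard_coe_finset]
        rfl
      have h6 : n ≤ 2 * ((nb H (insert u (univ.image g))).card : ℝ) := by
        rw [hnn]
        exact_mod_cast h3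
      rw [h5] at h4
      linarith
    · rw [if_neg hg]
      have := c_nonneg (fun v => Lk H (m + 1) u (Fin.cons v g))
      linarith
  rw [← h1, ← Finset.sum_mul, c_eq' (fun g : Fin m → V => Function.Injective g ∧ ∀ i, g i ≠ u)] at h2
  have h3 := bad_tuples (V := V) m u
  have h4 := c_split (fun g : Fin m → V => Function.Injective g ∧ ∀ i, g i ≠ u)
  rw [Fintype.card_fun, Fintype.card_fin] at h4
  push_cast at h4
  rw [← hnn] at h3 h4
  have h5 : (m ^ 2 + m : ℝ) * n ^ (m - 1) ≤ μ * n ^ m := by
    have e : n ^ m = n ^ (m - 1) * n := by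
      rw [← pow_succ]
      congr 1
      omega
    rw [e]
    rw [div_le_iff₀ hμ] at hn1
    have : 0 ≤ n ^ (m - 1) := by positivity
    nlinarith [mul_le_mul_of_nonneg_right hn1 this]
  have h6 : (1 - μ) * n ^ m * (n / 2) ≤ c (Lk H (m + 1) u) := by
    refine le_trans ?_ h2
    apply mul_le_mul_of_nonneg_right _ (by positivity)
    nlinarith
  refine le_trans ?_ h6
  have e : n ^ (m + 1) = n ^ m * n := pow_succ _ _
  rw [e]
  have : 0 ≤ n ^ m * n := by positivity
  nlinarith

theorem comm_eq {V : Type} [Fintype V] [DecidableEq V] (H : Finset (Finset V)) (m : ℕ) (u v : V) :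
    ((comm H (m + 2) u v : ℕ) : ℝ) = c (fun f => Lk H (m + 1) u f ∧ Lk H (m + 1) v f) := by
  unfold comm c
  congr 2
  ext f
  simp only [Set.mem_setOf_eq, Lk]
  constructor
  · rintro ⟨h1, h2, h3, h4⟩
    exact ⟨⟨h1, h3⟩, h2, h4⟩
  · rintro ⟨⟨h1, h3⟩, h2, h4⟩
    exact ⟨h1, h2, h3, h4⟩

theorem image_cons_mem {V : Type} [Fintype V] [DecidableEq V] (H : Finset (Finset V)) (m : ℕ)
    (hU : Uni H (m + 2)) (v : V) (f : Fin (m + 1) → V) :
    univ.image (Fin.cons v f : Fin (m + 2) → V) ∈ H ↔ Lk H (m + 1) v f := by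
  rw [image_cons]
  unfold Lk
  constructor
  · intro h
    refine ⟨?_, h⟩
    intro hv
    have h1 := hU _ h
    rw [Finset.insert_eq_of_mem hv] at h1
    have h2 : (univ.image f).card ≤ m + 1 := by
      refine Finset.card_image_le.trans ?_
      rw [Finset.card_univ, Fintype.card_fin]
    omega
  · intro h
    exact h.2

theorem xc_cons {V : Type} [Fintype V] [DecidableEq V] (X : Finset V) {m : ℕ} (v : V)
    (f : Fin m → V) :
    xc X (Fin.cons v f : Fin (m + 1) → V) = (if v ∈ X then 1 else 0) + xc X f := by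
  unfold xc
  rw [Finset.card_filter, Finset.card_filter, Fin.sum_univ_succ]
  simp only [Fin.cons_zero, Fin.cons_succ]

theorem xc_perm {V : Type} [Fintype V] [DecidableEq V] (X : Finset V) {m : ℕ} (x : Fin m → V)
    (σ : Equiv.Perm (Fin m)) : xc X (x ∘ σ) = xc X x := by
  unfold xc
  rw [Finset.card_filter, Finset.card_filter]
  exact Equiv.sum_comp σ (fun i => if x i ∈ X then 1 else 0)

theorem image_perm {V : Type} [DecidableEq V] {m : ℕ} (x : Fin m → V)
    (σ : Equiv.Perm (Fin m)) : univ.image (x ∘ σ) = univ.image x := by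
  ext v
  simp only [mem_image, mem_univ, true_and, Function.comp]
  constructor
  · rintro ⟨i, rfl⟩
    exact ⟨σ i, rfl⟩
  · rintro ⟨i, rfl⟩
    exact ⟨σ.symm i, by simp⟩

section
variable {V : Type} [Fintype V] [DecidableEq V]

/-- parity property -/
def Q (H : Finset (Finset V)) (X : Finset V) {m : ℕ} (x : Fin m → V) : Prop :=
  univ.image x ∈ H ↔ xc X x % 2 = 0

/-- bad tuples for the first coordinate -/
def Bad (H : Finset (Finset V)) (X : Finset V) (v₀ : V) {m : ℕ} (x : Fin (m + 2) → V) : Prop :=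
  ¬ (univ.image x ∈ H ↔ (Lk H (m + 1) v₀ (Fin.tail x) ↔ x 0 ∉ X))

theorem step0 (H : Finset (Finset V)) (X : Finset V) (v₀ : V) {m : ℕ} (z z' : Fin (m + 2) → V)
    (ht : Fin.tail z = Fin.tail z') (h : ¬ Bad H X v₀ z) (h' : ¬ Bad H X v₀ z') :
    Q H X z ↔ Q H X z' := by
  unfold Bad at h h'
  rw [not_not] at h h'
  have e : xc X z = (if z 0 ∈ X then 1 else 0) + xc X (Fin.tail z) := by
    rw [← xc_cons, Fin.cons_self_tail]
  have e' : xc X z' = (if z' 0 ∈ X then 1 else 0) + xc X (Fin.tail z) := by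
    rw [ht, ← xc_cons, Fin.cons_self_tail]
  unfold Q
  rw [h, h', e, e', ← ht]
  have hp : xc X (Fin.tail z) % 2 = 0 ∨ xc X (Fin.tail z) % 2 = 1 := by omega
  by_cases h1 : z 0 ∈ X <;> by_cases h2 : z' 0 ∈ X <;>
    by_cases h3 : Lk H (m + 1) v₀ (Fin.tail z) <;>
    simp only [h1, h2, h3, if_true, if_false, not_true, not_false_iff, true_iff, false_iff,
      iff_true, iff_false, zero_add] <;> omega

theorem stepj (H : Finset (Finset V)) (X : Finset V) (v₀ : V) {m : ℕ} (j : Fin (m + 2))
    (z z' : Fin (m + 2) → V) (hz : ∀ i, i ≠ j → z i = z' i)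
    (h : ¬ Bad H X v₀ (z ∘ Equiv.swap 0 j)) (h' : ¬ Bad H X v₀ (z' ∘ Equiv.swap 0 j)) :
    Q H X z ↔ Q H X z' := by
  have h1 : Q H X (z ∘ Equiv.swap 0 j) ↔ Q H X (z' ∘ Equiv.swap 0 j) := by
    refine step0 H X v₀ _ _ ?_ h h'
    funext i
    unfold Fin.tail
    simp only [Function.comp]
    apply hz
    intro hc
    have : Equiv.swap 0 j (Fin.succ i) = Equiv.swap 0 j 0 := by
      rw [hc, Equiv.swap_apply_left]
    exact Fin.succ_ne_zero i ((Equiv.swap 0 j).injective this)
  unfold Q at h1 ⊢
  rw [image_perm, image_perm, xc_perm, xc_perm] at h1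
  exact h1

/-- exchange the first `j` coordinates of two tuples -/
def mixE (V : Type) (m j : ℕ) : ((Fin m → V) × (Fin m → V)) ≃ ((Fin m → V) × (Fin m → V)) where
  toFun p := (fun i => if i.1 < j then p.2 i else p.1 i, fun i => if i.1 < j then p.1 i else p.2 i)
  invFun p := (fun i => if i.1 < j then p.2 i else p.1 i, fun i => if i.1 < j then p.1 i else p.2 i)
  left_inv := by
    rintro ⟨x, y⟩
    apply Prod.ext <;> funext i <;> by_cases h : i.1 < j <;> simp [h]
  right_inv := by
    rintro ⟨x, y⟩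
    apply Prod.ext <;> funext i <;> by_cases h : i.1 < j <;> simp [h]

omit [DecidableEq V] in
theorem c_mix {m : ℕ} (j : ℕ) (B : (Fin m → V) → Prop) :
    c (fun p : (Fin m → V) × (Fin m → V) => B (mixE V m j p).1) =
      (Fintype.card V : ℝ) ^ m * c B := by
  rw [c_equiv (mixE V m j) (fun p => B p.1), c_fst, Fintype.card_fun, Fintype.card_fin]
  push_cast
  rfl

theorem hybrid (H : Finset (Finset V)) (X : Finset V) (v₀ : V) {m : ℕ} (x y : Fin (m + 2) → V)
    (h : ∀ j : Fin (m + 2), ¬ (Bad H X v₀ ((mixE V (m + 2) j.1 (x, y)).1 ∘ Equiv.swap 0 j) ∨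
      Bad H X v₀ ((mixE V (m + 2) (j.1 + 1) (x, y)).1 ∘ Equiv.swap 0 j))) :
    Q H X x ↔ Q H X y := by
  have key : ∀ j ≤ m + 2, (Q H X (mixE V (m + 2) j (x, y)).1 ↔ Q H X x) := by
    intro j
    induction j with
    | zero =>
      intro _
      have : (mixE V (m + 2) 0 (x, y)).1 = x := by
        funext i
        simp [mixE]
      rw [this]
    | succ j ih =>
      intro hj
      rw [← ih (by omega)]
      have hh := h ⟨j, by omega⟩
      push Not at hh
      refine (stepj H X v₀ ⟨j, by omega⟩ _ _ ?_ hh.1 hh.2).symm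
      intro i hi
      have hij : i.1 ≠ j := fun hc => hi (Fin.ext hc)
      simp only [mixE, Equiv.coe_fn_mk]
      by_cases h1 : i.1 < j
      · rw [if_pos h1, if_pos (by omega)]
      · rw [if_neg h1, if_neg (by omega)]
  have h1 := key (m + 2) le_rfl
  have h2 : (mixE V (m + 2) (m + 2) (x, y)).1 = y := by
    funext i
    simp [mixE]
  rw [h2] at h1
  exact h1.symm

/-- bound for the bad pairs -/
theorem pairs (H : Finset (Finset V)) (X : Finset V) (v₀ : V) (m : ℕ) :
    c (fun p : (Fin (m + 2) → V) × (Fin (m + 2) → V) => ¬ (Q H X p.1 ↔ Q H X p.2)) ≤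
      2 * (m + 2 : ℝ) * (Fintype.card V : ℝ) ^ (m + 2) *
        c (fun x : Fin (m + 2) → V => Bad H X v₀ x) := by
  have hB : ∀ (j : Fin (m + 2)) (t : ℕ),
      c (fun p : (Fin (m + 2) → V) × (Fin (m + 2) → V) =>
        Bad H X v₀ ((mixE V (m + 2) t p).1 ∘ Equiv.swap 0 j)) =
      (Fintype.card V : ℝ) ^ (m + 2) * c (fun x : Fin (m + 2) → V => Bad H X v₀ x) := by
    intro j t
    rw [c_mix t (fun x => Bad H X v₀ (x ∘ Equiv.swap 0 j))]
    congr 1
    exact c_equiv (Equiv.arrowCongr (Equiv.swap 0 j) (Equiv.refl V))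
      (fun x : Fin (m + 2) → V => Bad H X v₀ x)
  have h1 : c (fun p : (Fin (m + 2) → V) × (Fin (m + 2) → V) => ¬ (Q H X p.1 ↔ Q H X p.2)) ≤
      c (fun p : (Fin (m + 2) → V) × (Fin (m + 2) → V) => ∃ j : Fin (m + 2),
        Bad H X v₀ ((mixE V (m + 2) j.1 p).1 ∘ Equiv.swap 0 j) ∨
        Bad H X v₀ ((mixE V (m + 2) (j.1 + 1) p).1 ∘ Equiv.swap 0 j)) := by
    apply c_mono
    rintro ⟨x, y⟩ hxy
    by_contra hc
    push Not at hc
    apply hxy
    apply hybrid H X v₀ x y
    intro j
    push Not
    exact hc j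
  refine h1.trans ((c_exists _).trans ?_)
  refine (Finset.sum_le_sum (g := fun _ => 2 * ((Fintype.card V : ℝ) ^ (m + 2) *
    c (fun x : Fin (m + 2) → V => Bad H X v₀ x))) ?_).trans ?_
  · intro j _
    refine (c_or _ _).trans ?_
    rw [hB j j.1, hB j (j.1 + 1)]
    apply le_of_eq
    ring
  · rw [Finset.sum_const, Finset.card_univ, Fintype.card_fin, nsmul_eq_mul]
    push_cast
    apply le_of_eq
    ring

end

theorem dic : DicStmt := by
  intro k η hk hη
  obtain ⟨m, rfl⟩ : ∃ m, k = m + 2 := ⟨k - 2, by omega⟩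
  have hm : 1 ≤ m := by omega
  set K : ℝ := (m + 2 : ℝ) with hK
  have hKp : 0 < K := by positivity
  set μ : ℝ := min (1 / 8) (η / (32 * K)) with hμd
  set κ : ℝ := min (1 / 1000) (η / (216 * K)) with hκd
  have hμ : 0 < μ := by
    rw [hμd, lt_min_iff]
    exact ⟨by norm_num, by positivity⟩
  have hκ : 0 < κ := by
    rw [hκd, lt_min_iff]
    exact ⟨by norm_num, by positivity⟩
  have hμ1 : μ * (32 * K) ≤ η := by
    have := min_le_right (1 / 8 : ℝ) (η / (32 * K))
    rw [← hμd, le_div_iff₀ (by positivity)] at this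
    exact this
  have hκ1 : κ * (216 * K) ≤ η := by
    have := min_le_right (1 / 1000 : ℝ) (η / (216 * K))
    rw [← hκd, le_div_iff₀ (by positivity)] at this
    exact this
  have hκ2 : κ < 1 / 648 := by
    have := min_le_left (1 / 1000 : ℝ) (η / (216 * K))
    rw [← hκd] at this
    linarith
  obtain ⟨n₀, hn₀, hlow⟩ := link_lower m hm μ hμ
  refine ⟨μ, κ, n₀, hμ, min_le_left _ _, hκ, ?_⟩
  intro V _ _ H hn hU hD
  by_cases hex : Exch H (m + 2) μ κ
  · exact Or.inl hex
  right
  unfold Exch at hex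
  push Not at hex
  obtain ⟨A, hA, hA', hE⟩ := hex
  have hn0 : (0 : ℝ) < Fintype.card V := by
    have : 0 < Fintype.card V := by omega
    exact_mod_cast this
  set n : ℝ := (Fintype.card V : ℝ) with hnn
  have hN1 : ((Fintype.card (Fin (m + 1) → V) : ℕ) : ℝ) = n ^ (m + 1) := by
    rw [Fintype.card_fun, Fintype.card_fin]
    push_cast
    rfl
  obtain ⟨v₀, u₀, hv₀, hu₀, hne, hs1, hs2⟩ := select (fun v => v ∈ A)
    (fun u v => μ * n ^ (m + 1) ≤ comm H (m + 2) u v) κ n hκ hκ2 hn0
    (by
      have : c (fun v => v ∈ A) = (A.ncard : ℝ) := rfl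
      rw [this]
      linarith)
    (by
      have : c (fun v => ¬ v ∈ A) = (Aᶜ.ncard : ℝ) := rfl
      rw [this]
      linarith) hE
  have hD4 : ∀ u v, ¬ μ * n ^ (m + 1) ≤ comm H (m + 2) u v →
      c (fun f => Lk H (m + 1) u f ↔ Lk H (m + 1) v f) ≤ 4 * μ * n ^ (m + 1) := by
    intro u v h
    push Not at h
    rw [comm_eq] at h
    have := agree (Lk H (m + 1) u) (Lk H (m + 1) v) μ (by rw [hN1]; exact hlow V H hn hD u)
      (by rw [hN1]; exact hlow V H hn hD v) (by rw [hN1]; exact h.le)
    rw [hN1] at this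
    exact this
  set X : Finset V := univ.filter (fun v => v ∈ A) with hX
  have hXA : ∀ v, v ∈ X ↔ v ∈ A := by
    intro v
    rw [hX, mem_filter]
    simp
  -- the bad tuples
  have hBad : c (fun x : Fin (m + 2) → V => Bad H X v₀ x) ≤ (8 * μ + 54 * κ) * n ^ (m + 2) := by
    rw [c_cons]
    have hfib : ∀ v, c (fun f : Fin (m + 1) → V => Bad H X v₀ (Fin.cons v f : Fin (m + 2) → V)) ≤
        8 * μ * n ^ (m + 1) +
        (if v ∈ A ∧ μ * n ^ (m + 1) ≤ comm H (m + 2) v v₀ then (1 : ℝ) else 0) * n ^ (m + 1) +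
        (if ¬ v ∈ A ∧ μ * n ^ (m + 1) ≤ comm H (m + 2) u₀ v then (1 : ℝ) else 0) *
          n ^ (m + 1) := by
      intro v
      have hNp : 0 < n ^ (m + 1) := by positivity
      have hμN : 0 < μ * n ^ (m + 1) := by positivity
      have hi1 : 0 ≤ (if v ∈ A ∧ μ * n ^ (m + 1) ≤ comm H (m + 2) v v₀ then (1 : ℝ) else 0) *
          n ^ (m + 1) := by
        split_ifs <;> nlinarith
      have hi2 : 0 ≤ (if ¬ v ∈ A ∧ μ * n ^ (m + 1) ≤ comm H (m + 2) u₀ v then (1 : ℝ) else 0) *
          n ^ (m + 1) := by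
        split_ifs <;> nlinarith
      have htriv := c_le_card (fun f : Fin (m + 1) → V =>
        Bad H X v₀ (Fin.cons v f : Fin (m + 2) → V))
      rw [hN1] at htriv
      have hbad : ∀ f : Fin (m + 1) → V, Bad H X v₀ (Fin.cons v f : Fin (m + 2) → V) ↔
          ¬ (Lk H (m + 1) v f ↔ (Lk H (m + 1) v₀ f ↔ v ∉ A)) := by
        intro f
        unfold Bad
        rw [image_cons_mem H m hU, Fin.tail_cons, Fin.cons_zero, hXA]
      by_cases hvA : v ∈ A
      · by_cases hexv : μ * n ^ (m + 1) ≤ comm H (m + 2) v v₀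
        · rw [if_pos ⟨hvA, hexv⟩] at hi1 ⊢
          linarith
        · have h1 : c (fun f : Fin (m + 1) → V => Bad H X v₀ (Fin.cons v f : Fin (m + 2) → V)) ≤
              c (fun f => Lk H (m + 1) v f ↔ Lk H (m + 1) v₀ f) := by
            apply c_mono
            intro f hf
            rw [hbad] at hf
            tauto
          have h2 := hD4 v v₀ hexv
          linarith
      · by_cases hexv : μ * n ^ (m + 1) ≤ comm H (m + 2) u₀ v
        · rw [if_pos (show ¬ v ∈ A ∧ μ * n ^ (m + 1) ≤ comm H (m + 2) u₀ v from ⟨hvA, hexv⟩)]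
            at hi2 ⊢
          linarith
        · have h1 : c (fun f : Fin (m + 1) → V => Bad H X v₀ (Fin.cons v f : Fin (m + 2) → V)) ≤
              c (fun f => Lk H (m + 1) u₀ f ↔ Lk H (m + 1) v f) +
              c (fun f => Lk H (m + 1) u₀ f ↔ Lk H (m + 1) v₀ f) := by
            refine le_trans (c_mono ?_) (c_or _ _)
            intro f hf
            rw [hbad] at hf
            tauto
          have h2 := hD4 u₀ v hexv
          have h3 := hD4 u₀ v₀ hne
          linarith
    refine (Finset.sum_le_sum (fun v _ => hfib v)).trans ?_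
    rw [Finset.sum_add_distrib, Finset.sum_add_distrib, Finset.sum_const, Finset.card_univ,
      nsmul_eq_mul, ← hnn, ← Finset.sum_mul, ← Finset.sum_mul,
      c_eq' (fun v => v ∈ A ∧ μ * n ^ (m + 1) ≤ comm H (m + 2) v v₀),
      c_eq' (fun v => ¬ v ∈ A ∧ μ * n ^ (m + 1) ≤ comm H (m + 2) u₀ v)]
    have hNp : 0 < n ^ (m + 1) := by positivity
    have e : n ^ (m + 2) = n * n ^ (m + 1) := by ring
    rw [e]
    have h1 := mul_le_mul_of_nonneg_right hs1 hNp.le
    have h2 := mul_le_mul_of_nonneg_right hs2 hNp.le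
    nlinarith
  have hpairs := pairs H X v₀ m
  rw [← hnn, c_snd (fun x y : Fin (m + 2) → V => ¬ (Q H X x ↔ Q H X y))] at hpairs
  have hNN : ((Fintype.card (Fin (m + 2) → V) : ℕ) : ℝ) = n ^ (m + 2) := by
    rw [Fintype.card_fun, Fintype.card_fin]
    push_cast
    rfl
  have hNp : 0 < n ^ (m + 2) := by positivity
  have hη' : 2 * K * (8 * μ + 54 * κ) ≤ η := by nlinarith
  obtain ⟨y, _, hy⟩ : ∃ y ∈ (univ : Finset (Fin (m + 2) → V)),
      c (fun x : Fin (m + 2) → V => ¬ (Q H X x ↔ Q H X y)) ≤ η * n ^ (m + 2) := by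
    apply Finset.exists_le_of_sum_le (g := fun _ => η * n ^ (m + 2))
    · rw [Finset.univ_nonempty_iff]
      have : 0 < Fintype.card (Fin (m + 2) → V) := by
        rw [← hNN] at hNp
        exact_mod_cast hNp
      exact Fintype.card_pos_iff.mp this
    · rw [Finset.sum_const, Finset.card_univ, nsmul_eq_mul, hNN]
      refine hpairs.trans ?_
      have h1 : 2 * (m + 2 : ℝ) * n ^ (m + 2) * c (fun x : Fin (m + 2) → V => Bad H X v₀ x) ≤
          2 * K * n ^ (m + 2) * ((8 * μ + 54 * κ) * n ^ (m + 2)) := by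
        rw [← hK]
        apply mul_le_mul_of_nonneg_left hBad
        positivity
      refine h1.trans ?_
      have h2 : 0 ≤ n ^ (m + 2) * n ^ (m + 2) := by positivity
      nlinarith [mul_le_mul_of_nonneg_right hη' h2]
  refine ⟨X, if Q H X y then 0 else 1, ?_, ?_, ?_⟩
  · have : (X.card : ℝ) = A.ncard := by
      have : A = (X : Set V) := by
        ext v
        simp [hXA]
      rw [this, Set.ncard_coe_finset]
    rw [this]
    linarith
  · have : ((Xᶜ).card : ℝ) = (Aᶜ).ncard := by
      have : Aᶜ = ((Xᶜ : Finset V) : Set V) := by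
        ext v
        simp [hXA]
      rw [this, Set.ncard_coe_finset]
    rw [this]
    linarith
  · refine le_trans ?_ hy
    refine c_mono (p := fun f : Fin (m + 2) → V => Function.Injective f ∧
      ¬ (Finset.univ.image f ∈ H ↔ xc X f % 2 = (if Q H X y then 0 else 1) % 2)) ?_
    rintro f ⟨_, hf⟩ hq
    apply hf
    by_cases hQ : Q H X y
    · rw [if_pos hQ]
      exact hq.mpr hQ
    · rw [if_neg hQ]
      have hQf : ¬ Q H X f := fun h => hQ (hq.mp h)
      unfold Q at hQf
      have h2 : xc X f % 2 = 0 ∨ xc X f % 2 = 1 := by omega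
      by_cases h3 : Finset.univ.image f ∈ H
      · simp only [h3, true_iff] at hQf ⊢
        omega
      · simp only [h3, false_iff, not_not] at hQf ⊢
        omega

end Pool.Agent.KK.H97D
end

/-! ### Helper32_KK.CSY -/
section
/-!
# Squad KK, row CSY: crossing downwards
-/

set_option autoImplicit false

open scoped BigOperators

namespace Pool.Agent.KK.H32

section
variable {V : Type} [Fintype V] [DecidableEq V]

theorem xc_compl (X : Finset V) {m : ℕ} (f : Fin m → V) : xc Xᶜ f + xc X f = m := by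
  unfold xc
  have h1 : (Finset.univ.filter fun i => f i ∈ Xᶜ) = (Finset.univ.filter fun i => ¬ f i ∈ X) := by
    apply Finset.filter_congr
    intro i _
    exact Finset.mem_compl
  rw [h1, add_comm, Finset.card_filter_add_card_filter_not, Finset.card_univ, Fintype.card_fin]

theorem td_compl (H : Finset (Finset V)) (X : Finset V) (m j : ℕ) (hj : j ≤ m) :
    td H m Xᶜ (m - j) = td H m X j := by
  unfold td
  congr 1
  ext f
  have h := xc_compl X f
  constructor
  · rintro ⟨h1, h2⟩
    exact ⟨h1, by omega⟩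
  · rintro ⟨h1, h2⟩
    exact ⟨h1, by omega⟩

/-- shifting by `s` modulo `m` -/
theorem val_shift (d s : ℕ) (hs : s ≤ d + 2) (u : ZMod (d + 2)) :
    (u + (s : ZMod (d + 2))).val < s ↔ ¬ u.val < d + 2 - s := by
  have hu : u.val < d + 2 := ZMod.val_lt u
  have h1 : (u + (s : ZMod (d + 2))).val = (u.val + s) % (d + 2) := by
    rw [ZMod.val_add, ZMod.val_natCast, Nat.add_mod_mod]
  rw [h1]
  by_cases h : u.val + s < d + 2
  · rw [Nat.mod_eq_of_lt h]
    omega
  · have h2 : (u.val + s) % (d + 2) = u.val + s - (d + 2) := by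
      rw [Nat.mod_eq_sub_mod (by omega)]
      exact Nat.mod_eq_of_lt (by omega)
    rw [h2]
    omega

theorem can_compl (X : Finset V) (d s : ℕ) (hs : s ≤ d + 2) (z : Sta V d)
    (hz : z ∈ can Xᶜ d (d + 2 - s)) :
    ((z.1, z.2 + (s : ZMod (d + 2))) : Sta V d) ∈ can X d s := by
  intro i
  have h := hz i
  show z.1 i ∈ X ↔ (z.2 + (s : ZMod (d + 2)) + ((i : ℕ) : ZMod (d + 2))).val < s
  rw [Finset.mem_compl] at h
  have h1 : z.2 + (s : ZMod (d + 2)) + ((i : ℕ) : ZMod (d + 2)) =
      z.2 + ((i : ℕ) : ZMod (d + 2)) + (s : ZMod (d + 2)) := by ring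
  rw [h1, val_shift d s hs, ← h, not_not]

theorem ncard_compl (X : Finset V) (d s : ℕ) (hs : s ≤ d + 2) (T : Set (List V)) :
    {z : Sta V d | z ∈ can Xᶜ d (d + 2 - s) ∧ List.ofFn z.1 ∉ T}.ncard ≤
      {z : Sta V d | z ∈ can X d s ∧ List.ofFn z.1 ∉ T}.ncard := by
  apply Set.ncard_le_ncard_of_injOn (fun z : Sta V d => (z.1, z.2 + (s : ZMod (d + 2))))
  · intro z hz
    exact ⟨can_compl X d s hs z hz.1, hz.2⟩
  · intro z _ w _ h
    have h1 := congrArg Prod.fst h
    have h2 := congrArg Prod.snd h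
    exact Prod.ext h1 (add_right_cancel h2)

end

/-- CSY -/
theorem csy : CsyStmt := by
  intro d C₀ C n₀ γ hyp V _ _ H X j S T hn hU hD h1 hj hX htd hS hT
  have hc : (((Xᶜ : Finset V).card : ℕ) : ℝ) = Fintype.card V - X.card := by
    rw [Finset.card_compl, Nat.cast_sub (Finset.card_le_univ X)]
  apply hyp V H Xᶜ (d + 2 - j) T S hn hU hD (by omega) (by omega)
  · rw [hc]
    have h2 : (Fintype.card V : ℝ) - X.card - Fintype.card V / 2 =
        -((X.card : ℝ) - Fintype.card V / 2) := by ring
    rw [h2, abs_neg]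
    exact hX
  · rw [td_compl H X (d + 2) j (by omega)]
    exact htd
  · have h2 := ncard_compl X d (j + 1) (by omega) T
    have h3 : d + 2 - (j + 1) = d + 2 - j - 1 := by omega
    rw [h3] at h2
    exact le_trans (by exact_mod_cast h2) hT
  · have h2 := ncard_compl X d (j - 1) (by omega) S
    have h3 : d + 2 - (j - 1) = d + 2 - j + 1 := by omega
    rw [h3] at h2
    exact le_trans (by exact_mod_cast h2) hS

end Pool.Agent.KK.H32
end

/-! ### Helper15_KK.LOP -/
section
/-!
# Squad KK, block BETA, row LOP: loops from the far flips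
-/

set_option autoImplicit false

namespace Pool.Agent.KK.H15

theorem blk_getD {k t i : ℕ} (ht : t ≤ k) (hi : i < k) (d : Bool) :
    (blk k t).getD i d = decide (i < t) := by
  unfold blk
  rw [List.getD_eq_getElem?_getD]
  by_cases h : i < t
  · rw [List.getElem?_append_left (by rw [List.length_replicate]; exact h),
      List.getElem?_replicate, if_pos h, Option.getD_some]
    exact (decide_eq_true h).symm
  · rw [List.getElem?_append_right (by rw [List.length_replicate]; omega),
      List.length_replicate, List.getElem?_replicate, if_pos (by omega), Option.getD_some]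
    exact (decide_eq_false h).symm

theorem per_getD {w : List Bool} {a m i : ℕ} (hi : i < m) (d : Bool) :
    (per w a m).getD i d = w.getD ((a + i) % w.length) false := by
  unfold per
  rw [List.getD_eq_getElem?_getD, List.getElem?_map, List.getElem?_range hi]
  rfl

theorem mod1 {k i : ℕ} (hi : i < k) : (k - 1 + i) % k = if i = 0 then k - 1 else i - 1 := by
  split_ifs with h
  · rw [h, Nat.add_zero, Nat.mod_eq_of_lt (by omega)]
  · have : k - 1 + i = (i - 1) + k := by omega
    rw [this, Nat.add_mod_right, Nat.mod_eq_of_lt (by omega)]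

theorem mod2 {k i : ℕ} (hk : 2 ≤ k) (hi : i < k) :
    (k - 2 + i) % k = if i < 2 then k - 2 + i else i - 2 := by
  split_ifs with h
  · rw [Nat.mod_eq_of_lt (by omega)]
  · have : k - 2 + i = (i - 2) + k := by omega
    rw [this, Nat.add_mod_right, Nat.mod_eq_of_lt (by omega)]

theorem dec_if {P Q R : Prop} [Decidable P] [Decidable Q] [Decidable R] (h : P ↔ (Q ∨ R)) :
    decide P = if Q then true else decide R := by
  by_cases hQ : Q
  · rw [if_pos hQ]; exact decide_eq_true (h.2 (Or.inl hQ))
  · rw [if_neg hQ]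
    by_cases hR : R
    · rw [decide_eq_true hR]; exact decide_eq_true (h.2 (Or.inr hR))
    · rw [decide_eq_false hR]
      exact decide_eq_false fun hP => (h.1 hP).elim hQ hR

section

variable {V : Type} [Fintype V] [DecidableEq V] {H : Finset (Finset V)} {X : Finset V} {k p : ℕ}
  {ε : ℝ} {K : ℕ}

/-- repeating a closed plan -/
theorem rep (htra : TraStmt) {u : List Bool} {N a q : ℕ} (hu : u.length = k - 1)
    (h : Pl V H X k p ε K u u N a q) (r : ℕ) :
    Pl V H X k p ε K u u (r * N) (r * a) (r * q) := by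
  induction r with
  | zero =>
    rw [Nat.zero_mul, Nat.zero_mul, Nat.zero_mul]
    exact Pl.nil u hu
  | succ r ih =>
    have h1 := htra V H X k p ε K u u u (r * N) N (r * a) a (r * q) q ih h
    rw [Nat.succ_mul, Nat.succ_mul, Nat.succ_mul]
    exact h1

/-- the last letter of a rotation round -/
theorem last (hper : PerStmt) (hpwt : PwtStmt) (htra : TraStmt) {u : List Bool} {w : List Bool}
    (hk : 2 ≤ k) (hw : w.length = k) (hp : wt w % 2 = p) {N a q : ℕ}
    (h : Pl V H X k p ε K u (per (per w (k - 1) k) 0 (k - 1)) N a q) :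
    ∃ b ≤ 1, Pl V H X k p ε K u (per w 0 (k - 1)) (N + 1) (a + b) q := by
  obtain ⟨-, p2, p3, -, p5, -, -⟩ := hpwt
  have h1 := hper V H X k p ε K w (k - 1) 1 (by omega) hw hp
  have e1 : per (per w (k - 1) k) 0 (k - 1) = per w (k - 1) (k - 1) := by
    have := p5 w (k - 1) 0 (k - 1) (by omega)
    rw [hw] at this
    exact this
  have e2 : per w (k - 1 + 1) (k - 1) = per w 0 (k - 1) := by
    have := p2 w 0 (k - 1)
    rw [hw, Nat.zero_add] at this
    rw [← this]
    congr 1
    omega
  rw [e1] at h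
  rw [e2] at h1
  refine ⟨wt (per w (k - 1 + k - 1) 1), ?_, ?_⟩
  · unfold wt
    refine List.count_le_length.trans ?_
    rw [p3]
  · exact htra V H X k p ε K _ _ _ N 1 a _ q 0 h h1

/-- the rotation round at the lower level -/
theorem round_lo (hpup : PupStmt) (hpdn : PdnStmt) (hper : PerStmt) (hpwt : PwtStmt)
    (htra : TraStmt) (hblr : BlrStmt) {s : ℕ} (hk : 3 ≤ k) (hs : s + 2 ≤ k) (hp : s % 2 = p)
    (hP : KindP V H X k ε K (s + 1)) :
    ∃ a ≤ 8 * k + 1, Pl V H X k p ε K (per (blk k s) 0 (k - 1)) (per (blk k s) 0 (k - 1))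
      (8 * k + 1) a 2 := by
  obtain ⟨-, -, l1, w1⟩ := hblr k s (by omega) (by omega)
  obtain ⟨-, -, l2, w2⟩ := hblr k (s + 2) hs (by omega)
  obtain ⟨a1, ha1, hP1, -⟩ := hpup V H X k p (s + 1) ε K (blk k s) (blk k (s + 2)) s (s + 1)
    (by omega) l1 l2 (by omega) (by omega) (by omega) (by rw [w1]) (by rw [w1]; exact hp) hP
    (by rw [blk_getD (by omega) (by omega)]; exact decide_eq_false (by omega))
    (by rw [blk_getD (by omega) (by omega)]; exact decide_eq_false (by omega))
    (fun i hi => by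
      rw [blk_getD (by omega) hi, blk_getD (by omega) hi]
      exact dec_if (by omega))
  have lr : (per (blk k s) (k - 1) k).length = k := hpwt.2.2.1 _ _ _
  have wr : wt (per (blk k s) (k - 1) k) = s := by
    have := hpwt.1 (blk k s) (k - 1)
    rw [l1, w1] at this
    exact this
  obtain ⟨a2, ha2, hP2⟩ := hpdn V H X k p (s + 1) ε K (per (blk k s) (k - 1) k) (blk k (s + 2)) 0
    (s + 1) (by omega) lr l2 (by omega) (by omega) (by omega) (by rw [wr]) (by rw [wr]; exact hp) hP
    (by
      rw [per_getD (by omega), l1, mod1 (by omega), if_pos rfl, blk_getD (by omega) (by omega)]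
      exact decide_eq_false (by omega))
    (by
      rw [per_getD (by omega), l1, mod1 (by omega), if_neg (by omega),
        blk_getD (by omega) (by omega)]
      exact decide_eq_false (by omega))
    (fun i hi => by
      rw [blk_getD (by omega) hi, per_getD hi, l1, mod1 hi]
      by_cases h0 : i = 0
      · rw [if_pos h0, blk_getD (by omega) (by omega)]
        exact dec_if (by omega)
      · rw [if_neg h0, blk_getD (by omega) (by omega)]
        exact dec_if (by omega))
  have h3 := htra V H X k p ε K _ _ _ _ _ _ _ _ _ hP1 hP2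
  obtain ⟨b, hb, h4⟩ := last hper hpwt htra (by omega) l1 (by rw [w1]; exact hp) h3
  refine ⟨a1 + a2 + b, by omega, ?_⟩
  have e : 4 * k + 4 * k + 1 = 8 * k + 1 := by omega
  rw [e] at h4
  exact h4

/-- the rotation round at the upper level -/
theorem round_hi (hpup : PupStmt) (hpdn : PdnStmt) (hper : PerStmt) (hpwt : PwtStmt)
    (htra : TraStmt) (hblr : BlrStmt) {s : ℕ} (hk : 3 ≤ k) (hs : s + 2 ≤ k) (hp : s % 2 = p)
    (hP : KindP V H X k ε K (s + 1)) :
    ∃ a ≤ 8 * k + 1, Pl V H X k p ε K (per (blk k (s + 2)) 0 (k - 1))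
      (per (blk k (s + 2)) 0 (k - 1)) (8 * k + 1) a 2 := by
  obtain ⟨-, -, l1, w1⟩ := hblr k s (by omega) (by omega)
  obtain ⟨-, -, l2, w2⟩ := hblr k (s + 2) hs (by omega)
  have lr : (per (blk k s) (k - 2) k).length = k := hpwt.2.2.1 _ _ _
  have wr : wt (per (blk k s) (k - 2) k) = s := by
    have := hpwt.1 (blk k s) (k - 2)
    rw [l1, w1] at this
    exact this
  have lr2 : (per (blk k (s + 2)) (k - 1) k).length = k := hpwt.2.2.1 _ _ _
  -- the classes 0 and 1 are removed
  obtain ⟨a1, ha1, hP1⟩ := hpdn V H X k p (s + 1) ε K (per (blk k s) (k - 2) k) (blk k (s + 2)) 0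
    1 (by omega) lr l2 (by omega) (by omega) (by omega) (by rw [wr]) (by rw [wr]; exact hp) hP
    (by
      rw [per_getD (by omega), l1, mod2 (by omega) (by omega), if_pos (by omega),
        blk_getD (by omega) (by omega)]
      exact decide_eq_false (by omega))
    (by
      rw [per_getD (by omega), l1, mod2 (by omega) (by omega), if_pos (by omega),
        blk_getD (by omega) (by omega)]
      exact decide_eq_false (by omega))
    (fun i hi => by
      rw [blk_getD (by omega) hi, per_getD hi, l1, mod2 (by omega) hi]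
      by_cases h0 : i < 2
      · rw [if_pos h0, blk_getD (by omega) (by omega)]
        exact dec_if (by omega)
      · rw [if_neg h0, blk_getD (by omega) (by omega)]
        exact dec_if (by omega))
  -- the classes 1 and s + 2 (mod k) are added
  obtain ⟨c, hc⟩ : ∃ c : ℕ, c = if s + 2 = k then 0 else s + 2 := ⟨_, rfl⟩
  have hck : c < k := by rw [hc]; split_ifs <;> omega
  have hc1 : 1 ≠ c := by rw [hc]; split_ifs <;> omega
  obtain ⟨a2, ha2, hP2, -⟩ := hpup V H X k p (s + 1) ε K (per (blk k s) (k - 2) k)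
    (per (blk k (s + 2)) (k - 1) k) 1 c (by omega) lr lr2 (by omega) hck hc1 (by rw [wr])
    (by rw [wr]; exact hp) hP
    (by
      rw [per_getD (by omega), l1, mod2 (by omega) (by omega), if_pos (by omega),
        blk_getD (by omega) (by omega)]
      exact decide_eq_false (by omega))
    (by
      rw [per_getD hck, l1, mod2 (by omega) hck]
      by_cases h0 : c < 2
      · rw [if_pos h0, blk_getD (by omega) (by omega)]
        refine decide_eq_false ?_
        rw [hc] at h0 ⊢
        split_ifs at h0 ⊢ with h9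
        · omega
        · omega
      · rw [if_neg h0, blk_getD (by omega) (by omega)]
        refine decide_eq_false ?_
        rw [hc] at h0 ⊢
        split_ifs at h0 ⊢ with h9
        · omega
        · omega)
    (fun i hi => by
      rw [per_getD hi, per_getD hi, l1, l2, mod2 (by omega) hi, mod1 hi]
      by_cases h9 : s + 2 = k
      · rw [if_pos h9] at hc
        by_cases h0 : i = 0
        · rw [if_pos h0, if_pos (show i < 2 by omega), blk_getD (by omega) (by omega),
            blk_getD (by omega) (by omega)]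
          exact dec_if (by omega)
        · by_cases h1 : i < 2
          · rw [if_neg h0, if_pos h1, blk_getD (by omega) (by omega),
              blk_getD (by omega) (by omega)]
            exact dec_if (by omega)
          · rw [if_neg h0, if_neg h1, blk_getD (by omega) (by omega),
              blk_getD (by omega) (by omega)]
            exact dec_if (by omega)
      · rw [if_neg h9] at hc
        by_cases h0 : i = 0
        · rw [if_pos h0, if_pos (show i < 2 by omega), blk_getD (by omega) (by omega),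
            blk_getD (by omega) (by omega)]
          exact dec_if (by omega)
        · by_cases h1 : i < 2
          · rw [if_neg h0, if_pos h1, blk_getD (by omega) (by omega),
              blk_getD (by omega) (by omega)]
            exact dec_if (by omega)
          · rw [if_neg h0, if_neg h1, blk_getD (by omega) (by omega),
              blk_getD (by omega) (by omega)]
            exact dec_if (by omega))
  have h3 := htra V H X k p ε K _ _ _ _ _ _ _ _ _ hP1 hP2
  obtain ⟨b, hb, h4⟩ := last hper hpwt htra (by omega) l2 (by rw [w2]; omega) h3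
  refine ⟨a1 + a2 + b, by omega, ?_⟩
  have e : 4 * k + 4 * k + 1 = 8 * k + 1 := by omega
  rw [e] at h4
  exact h4

end

/-- arithmetic of the lengths -/
theorem len_mod {k r : ℕ} (hr : r < k) : (r * (8 * k + 1) + 8 * k) % k = r := by
  have : r * (8 * k + 1) + 8 * k = r + k * (8 * r + 8) := by ring
  rw [this, Nat.add_mul_mod_self_left, Nat.mod_eq_of_lt hr]

theorem bnd {k r a : ℕ} (hr : r < k) (ha : a ≤ 8 * k + 1) : r * a ≤ 8 * k ^ 2 + k := by
  calc r * a ≤ k * (8 * k + 1) := Nat.mul_le_mul hr.le ha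
    _ = 8 * k ^ 2 + k := by ring

/-- Row LOP. -/
theorem lop (hpup : PupStmt) (hpdn : PdnStmt) (hper : PerStmt) (htra : TraStmt) (hblr : BlrStmt)
    (hpwt : PwtStmt) (hglu : GluStmt) : LopStmt := by
  intro k hk
  obtain ⟨K₀, hB, hG⟩ := hglu k (8 * k ^ 2 + 20 * k + 10) (by omega)
  refine ⟨K₀, ?_⟩
  intro V _ _ H X p ε K j hj hjk hjp hP
  obtain ⟨s, rfl⟩ : ∃ s, j = s + 1 := ⟨j - 1, by omega⟩
  have hs : s + 2 ≤ k := by omega
  have hp : s % 2 = p := by omega
  obtain ⟨-, -, l1, w1⟩ := hblr k s (by omega) (by omega)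
  obtain ⟨-, -, l2, w2⟩ := hblr k (s + 2) hs (by omega)
  have lc1 : (per (blk k s) 0 (k - 1)).length = k - 1 := hpwt.2.2.1 _ _ _
  have lc2 : (per (blk k (s + 2)) 0 (k - 1)).length = k - 1 := hpwt.2.2.1 _ _ _
  obtain ⟨a1, ha1, hU1, hU2⟩ := hpup V H X k p (s + 1) ε K (blk k s) (blk k (s + 2)) s (s + 1)
    (by omega) l1 l2 (by omega) (by omega) (by omega) (by rw [w1]) (by rw [w1]; exact hp) hP
    (by rw [blk_getD (by omega) (by omega)]; exact decide_eq_false (by omega))
    (by rw [blk_getD (by omega) (by omega)]; exact decide_eq_false (by omega))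
    (fun i hi => by
      rw [blk_getD (by omega) hi, blk_getD (by omega) hi]
      exact dec_if (by omega))
  obtain ⟨a2, ha2, hD⟩ := hpdn V H X k p (s + 1) ε K (blk k s) (blk k (s + 2)) s (s + 1)
    (by omega) l1 l2 (by omega) (by omega) (by omega) (by rw [w1]) (by rw [w1]; exact hp) hP
    (by rw [blk_getD (by omega) (by omega)]; exact decide_eq_false (by omega))
    (by rw [blk_getD (by omega) (by omega)]; exact decide_eq_false (by omega))
    (fun i hi => by
      rw [blk_getD (by omega) hi, blk_getD (by omega) hi]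
      exact dec_if (by omega))
  obtain ⟨aL, haL, hRL⟩ := round_lo hpup hpdn hper hpwt htra hblr hk hs hp hP
  obtain ⟨aH, haH, hRH⟩ := round_hi hpup hpdn hper hpwt htra hblr hk hs hp hP
  constructor
  · refine hG V H X p ε K (s + 1) (s + 1 - 1) (s + 2) (blk k (s + 2))
      (Or.inl ⟨by omega, by omega⟩) (by omega) (by omega) l2 w2 ?_
    intro r δ hr hδ
    have e0 : s + 1 - 1 = s := by omega
    rw [e0]
    have hrr := rep htra lc1 hRL r
    have t1 := htra V H X k p ε K _ _ _ _ _ _ _ _ _ hrr hU1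
    have t2 := htra V H X k p ε K _ _ _ _ _ _ _ _ _ hrr hU2
    have b1 := bnd hr haL
    have b2 := bnd hr (le_refl (8 * k + 1))
    have el : r * (8 * k + 1) + 4 * k + 4 * k = r * (8 * k + 1) + 8 * k := by omega
    by_cases hpar : (r * aL + a1 + a2 + s * ((r * (8 * k + 1) + 8 * k) / k)) % 2 = δ
    · refine ⟨_, _, _, _, _, _, ?_, ?_, ?_, ?_, ?_, t1, hD⟩
      · omega
      · omega
      · omega
      · rw [el]; exact len_mod hr
      · rw [el]; exact hpar
    · refine ⟨_, _, _, _, _, _, ?_, ?_, ?_, ?_, ?_, t2, hD⟩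
      · omega
      · omega
      · omega
      · rw [el]; exact len_mod hr
      · rw [el]; omega
  · refine hG V H X p ε K (s + 1) (s + 2) s (blk k s)
      (Or.inr ⟨by omega, by omega⟩) (by omega) (by omega) l1 w1 ?_
    intro r δ hr hδ
    have hrr := rep htra lc2 hRH r
    have t1 := htra V H X k p ε K _ _ _ _ _ _ _ _ _ hrr hD
    have b1 := bnd hr haH
    have b2 := bnd hr (le_refl (8 * k + 1))
    have el : r * (8 * k + 1) + 4 * k + 4 * k = r * (8 * k + 1) + 8 * k := by omega
    by_cases hpar : (r * aH + a2 + a1 + (s + 2) * ((r * (8 * k + 1) + 8 * k) / k)) % 2 = δ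
    · refine ⟨_, _, _, _, _, _, ?_, ?_, ?_, ?_, ?_, t1, hU1⟩
      · omega
      · omega
      · omega
      · rw [el]; exact len_mod hr
      · rw [el]; exact hpar
    · refine ⟨_, _, _, _, _, _, ?_, ?_, ?_, ?_, ?_, t1, hU2⟩
      · omega
      · omega
      · omega
      · rw [el]; exact len_mod hr
      · rw [el]; omega

end Pool.Agent.KK.H15
end

/-! ### Helper42_KK.NPS -/
section
/-! MP_747bc0_co, squad KK, block BETA part 2, row NPS. -/

set_option autoImplicit false

namespace Pool.Agent.KK.H42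

section

variable {V : Type} [Fintype V] [DecidableEq V]

theorem xc_snoc (A : Finset V) {m : ℕ} (f : Fin m → V) (v : V) :
    xc A (Fin.snoc (α := fun _ => V) f v) = xc A f + if v ∈ A then 1 else 0 := by
  unfold xc
  rw [Finset.card_filter, Finset.card_filter, Fin.sum_univ_castSucc]
  simp only [Fin.snoc_castSucc, Fin.snoc_last]

theorem image_snoc {m : ℕ} (f : Fin m → V) (v : V) :
    Finset.univ.image (Fin.snoc (α := fun _ => V) f v) = insert v (Finset.univ.image f) := by
  ext x
  simp only [Finset.mem_image, Finset.mem_univ, true_and, Finset.mem_insert]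
  constructor
  · rintro ⟨i, rfl⟩
    refine Fin.lastCases ?_ (fun j => ?_) i
    · left
      rw [Fin.snoc_last]
    · right
      exact ⟨j, by rw [Fin.snoc_castSucc]⟩
  · rintro (rfl | ⟨j, rfl⟩)
    · exact ⟨Fin.last m, by rw [Fin.snoc_last]⟩
    · exact ⟨j.castSucc, by rw [Fin.snoc_castSucc]⟩

theorem inj_snoc {m : ℕ} (f : Fin m → V) (v : V) (hf : Function.Injective f)
    (hv : v ∉ Finset.univ.image f) : Function.Injective (Fin.snoc (α := fun _ => V) f v) := by
  intro i j
  refine Fin.lastCases ?_ (fun i' => ?_) i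
  · refine Fin.lastCases ?_ (fun j' => ?_) j
    · intro _
      rfl
    · intro h
      rw [Fin.snoc_last, Fin.snoc_castSucc] at h
      exact absurd (Finset.mem_image.2 ⟨j', Finset.mem_univ _, h.symm⟩) hv
  · refine Fin.lastCases ?_ (fun j' => ?_) j
    · intro h
      rw [Fin.snoc_last, Fin.snoc_castSucc] at h
      exact absurd (Finset.mem_image.2 ⟨i', Finset.mem_univ _, h⟩) hv
    · intro h
      rw [Fin.snoc_castSucc, Fin.snoc_castSucc] at h
      rw [hf h]

/-- next vertices -/
def nx (H : Finset (Finset V)) (A B : Finset V) (k t m : ℕ) (f : Fin m → V) : Finset V :=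
  if m + 1 = k then nb H (Finset.univ.image f) ∩ B
  else (if m < t then A else Aᶜ) \ Finset.univ.image f

/-- greedy family of tuples -/
def fm (H : Finset (Finset V)) (A B : Finset V) (k t : ℕ) : (m : ℕ) → Finset (Fin m → V)
  | 0 => Finset.univ
  | m + 1 => (fm H A B k t m).biUnion fun f => (nx H A B k t m f).image fun v =>
      Fin.snoc (α := fun _ => V) f v

theorem fm_card (H : Finset (Finset V)) (A B : Finset V) (k t m : ℕ) (c : ℝ)
    (h : ∀ f ∈ fm H A B k t m, c ≤ ((nx H A B k t m f).card : ℝ)) :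
    ((fm H A B k t m).card : ℝ) * c ≤ ((fm H A B k t (m + 1)).card : ℝ) := by
  have h2 : (fm H A B k t (m + 1)).card = ∑ f ∈ fm H A B k t m, (nx H A B k t m f).card := by
    change ((fm H A B k t m).biUnion fun f => (nx H A B k t m f).image fun v =>
      Fin.snoc (α := fun _ => V) f v).card = _
    rw [Finset.card_biUnion]
    · refine Finset.sum_congr rfl fun f _ => ?_
      rw [Finset.card_image_of_injective]
      intro a b hab
      have h3 := congrFun hab (Fin.last m)
      simp only [Fin.snoc_last] at h3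
      exact h3
    · intro f _ g _ hfg
      rw [Function.onFun, Finset.disjoint_left]
      intro x hx hx'
      obtain ⟨a, -, ha⟩ := Finset.mem_image.1 hx
      obtain ⟨b, -, hb⟩ := Finset.mem_image.1 hx'
      apply hfg
      funext i
      have h3 := congrFun (ha.trans hb.symm) i.castSucc
      simp only [Fin.snoc_castSucc] at h3
      exact h3
  rw [h2, Nat.cast_sum]
  calc ((fm H A B k t m).card : ℝ) * c = ∑ f ∈ fm H A B k t m, c := by
        rw [Finset.sum_const, nsmul_eq_mul]
    _ ≤ ∑ f ∈ fm H A B k t m, ((nx H A B k t m f).card : ℝ) :=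
        Finset.sum_le_sum fun f hf => h f hf

theorem fm_inv (H : Finset (Finset V)) (A B : Finset V) (k t m : ℕ) (hm : m + 1 ≤ k) :
    ∀ f ∈ fm H A B k t m, Function.Injective f ∧ xc A f = min m t := by
  induction m with
  | zero =>
    intro f _
    refine ⟨fun i => i.elim0, ?_⟩
    unfold xc
    simp
  | succ m ih =>
    intro f hf
    obtain ⟨g, hg, hf2⟩ := Finset.mem_biUnion.1 hf
    obtain ⟨v, hv, rfl⟩ := Finset.mem_image.1 hf2
    obtain ⟨h1, h2⟩ := ih (by omega) g hg
    unfold nx at hv
    rw [if_neg (by omega : ¬ m + 1 = k)] at hv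
    obtain ⟨hv1, hv2⟩ := Finset.mem_sdiff.1 hv
    refine ⟨inj_snoc g v h1 hv2, ?_⟩
    rw [xc_snoc, h2]
    by_cases hmt : m < t
    · rw [if_pos hmt] at hv1
      rw [if_pos hv1]
      omega
    · rw [if_neg hmt] at hv1
      rw [if_neg (Finset.mem_compl.1 hv1)]
      omega

theorem core (H : Finset (Finset V)) (A B : Finset V) (k t p : ℕ) (η : ℝ) (hk : 3 ≤ k)
    (ht : t ≤ 1) (hn : 180 * k ≤ Fintype.card V) (hD : Dirac H k)
    (hN : NearPar H k A p η)
    (hB : (B = A ∧ (t + 1) % 2 ≠ p % 2) ∨ (B = Aᶜ ∧ t % 2 ≠ p % 2)) :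
    (Fintype.card V : ℝ) / 2 - (Bᶜ).card ≤ 20 ^ k * η * (Fintype.card V : ℝ) := by
  obtain ⟨hA1, hA2, hA3⟩ := hN
  have hn0 : (0 : ℝ) < (Fintype.card V : ℝ) := by
    have : 0 < Fintype.card V := by omega
    exact_mod_cast this
  have hn1 : 180 * (k : ℝ) ≤ (Fintype.card V : ℝ) := by exact_mod_cast hn
  have hη : 0 ≤ η := by
    by_contra hcon
    have h1 := hA3
    have h2 : η * (Fintype.card V : ℝ) ^ k < 0 :=
      mul_neg_of_neg_of_pos (not_le.1 hcon) (by positivity)
    have h3 : (0 : ℝ) ≤ ({f : Fin k → V | Function.Injective f ∧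
      ¬ (Finset.univ.image f ∈ H ↔ xc A f % 2 = p % 2)}.ncard : ℝ) := Nat.cast_nonneg _
    linarith
  by_cases hc : (Fintype.card V : ℝ) / 2 - (Bᶜ).card ≤ 0
  · have : 0 ≤ 20 ^ k * η * (Fintype.card V : ℝ) := by positivity
    linarith
  have hc' := not_le.1 hc
  -- growth of the family up to `k - 1`
  have hgrow : ∀ m, m + 1 ≤ k → ((Fintype.card V : ℝ) / 20) ^ m ≤ ((fm H A B k t m).card : ℝ) := by
    intro m
    induction m with
    | zero =>
      intro _
      have : (fm H A B k t 0).card = 1 := by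
        change (Finset.univ : Finset (Fin 0 → V)).card = 1
        simp
      rw [this]
      simp
    | succ m ih =>
      intro hm
      have h1 := ih (by omega)
      refine le_trans ?_ (fm_card H A B k t m ((Fintype.card V : ℝ) / 20) ?_)
      · rw [pow_succ]
        exact mul_le_mul_of_nonneg_right h1 (by positivity)
      · intro f _
        unfold nx
        rw [if_neg (by omega : ¬ m + 1 = k)]
        have h2 : (if m < t then A else Aᶜ).card ≤
            ((if m < t then A else Aᶜ) \ Finset.univ.image f).card + k := by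
          have h3 := Finset.le_card_sdiff (Finset.univ.image f) (if m < t then A else Aᶜ)
          have h4 : (Finset.univ.image f).card ≤ m := by
            have := Finset.card_image_le (s := (Finset.univ : Finset (Fin m))) (f := f)
            rwa [Finset.card_univ, Fintype.card_fin] at this
          omega
        have h5 : (((if m < t then A else Aᶜ).card : ℕ) : ℝ) ≤
            (((if m < t then A else Aᶜ) \ Finset.univ.image f).card : ℝ) + k := by
          exact_mod_cast h2
        have h6 : (Fintype.card V : ℝ) / 18 ≤ (((if m < t then A else Aᶜ).card : ℕ) : ℝ) := by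
          by_cases hmt : m < t
          · rw [if_pos hmt]
            exact hA1
          · rw [if_neg hmt]
            exact hA2
        linarith
  obtain ⟨m, rfl⟩ : ∃ m, k = m + 1 := ⟨k - 1, by omega⟩
  have h1 := hgrow m le_rfl
  have h2 := fm_card H A B (m + 1) t m ((Fintype.card V : ℝ) / 2 - (Bᶜ).card) (by
    intro f hf
    obtain ⟨hf1, -⟩ := fm_inv H A B (m + 1) t m le_rfl f hf
    unfold nx
    rw [if_pos rfl]
    have h3 : (Finset.univ.image f).card = m + 1 - 1 := by
      rw [Finset.card_image_of_injective _ hf1, Finset.card_univ, Fintype.card_fin]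
      rfl
    have h4 := hD _ h3
    have h5 : (nb H (Finset.univ.image f)).card ≤
        (nb H (Finset.univ.image f) ∩ B).card + (Bᶜ).card := by
      have h6 := Finset.card_sdiff_add_card_inter (nb H (Finset.univ.image f)) B
      have h7 : (nb H (Finset.univ.image f) \ B).card ≤ (Bᶜ).card := by
        apply Finset.card_le_card
        intro x hx
        exact Finset.mem_compl.2 (Finset.mem_sdiff.1 hx).2
      omega
    have h6 : (Fintype.card V : ℝ) ≤ 2 * ((nb H (Finset.univ.image f)).card : ℝ) := by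
      exact_mod_cast h4
    have h7 : ((nb H (Finset.univ.image f)).card : ℝ) ≤
        ((nb H (Finset.univ.image f) ∩ B).card : ℝ) + ((Bᶜ).card : ℝ) := by exact_mod_cast h5
    linarith)
  have h3 : (fm H A B (m + 1) t (m + 1)).card ≤ {f : Fin (m + 1) → V | Function.Injective f ∧
      ¬ (Finset.univ.image f ∈ H ↔ xc A f % 2 = p % 2)}.ncard := by
    rw [← Set.ncard_coe_finset]
    refine Set.ncard_le_ncard ?_ (Set.toFinite _)
    intro f hf
    have hf' : f ∈ fm H A B (m + 1) t (m + 1) := hf
    obtain ⟨g, hg, hf2⟩ := Finset.mem_biUnion.1 hf'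
    obtain ⟨v, hv, rfl⟩ := Finset.mem_image.1 hf2
    obtain ⟨hg1, hg2⟩ := fm_inv H A B (m + 1) t m le_rfl g hg
    unfold nx at hv
    rw [if_pos rfl] at hv
    obtain ⟨hv1, hv2⟩ := Finset.mem_inter.1 hv
    obtain ⟨-, hv3, hv4⟩ := Finset.mem_filter.1 hv1
    refine ⟨inj_snoc g v hg1 hv3, ?_⟩
    rw [image_snoc, xc_snoc, hg2, iff_true_left hv4]
    rcases hB with ⟨rfl, hp⟩ | ⟨rfl, hp⟩
    · rw [if_pos hv2]
      omega
    · rw [if_neg (Finset.mem_compl.1 hv2)]
      omega
  have h4 : ((fm H A B (m + 1) t (m + 1)).card : ℝ) ≤ η * (Fintype.card V : ℝ) ^ (m + 1) := by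
    refine le_trans ?_ hA3
    exact_mod_cast h3
  have h5 : ((Fintype.card V : ℝ) / 20) ^ m * ((Fintype.card V : ℝ) / 2 - (Bᶜ).card) ≤
      η * (Fintype.card V : ℝ) ^ (m + 1) :=
    (mul_le_mul_of_nonneg_right h1 hc'.le).trans (h2.trans h4)
  have h6 : ((Fintype.card V : ℝ) / 20) ^ m * ((Fintype.card V : ℝ) / 2 - (Bᶜ).card) ≤
      ((Fintype.card V : ℝ) / 20) ^ m * (20 ^ m * η * (Fintype.card V : ℝ)) := by
    refine h5.trans (le_of_eq ?_)
    rw [div_pow, pow_succ]
    field_simp
  have h7 : (Fintype.card V : ℝ) / 2 - (Bᶜ).card ≤ 20 ^ m * η * (Fintype.card V : ℝ) :=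
    le_of_mul_le_mul_left h6 (by positivity)
  refine h7.trans ?_
  have h8 : (20 : ℝ) ^ m ≤ 20 ^ (m + 1) := pow_le_pow_right₀ (by norm_num) (by omega)
  gcongr

end

theorem nps : NpsStmt := by
  intro k hk
  refine ⟨180 * k, ?_⟩
  intro V _ _ H A p η hn _ hD hN
  have h1 := core H A A k (p % 2) p η hk (by omega) hn hD hN (Or.inl ⟨rfl, by omega⟩)
  have h2 := core H A Aᶜ k (1 - p % 2) p η hk (by omega) hn hD hN (Or.inr ⟨rfl, by omega⟩)
  rw [compl_compl] at h2
  have h3 : (Aᶜ).card + A.card = Fintype.card V := by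
    have h3 := Finset.card_add_card_compl A
    omega
  have h4 : ((Aᶜ).card : ℝ) + (A.card : ℝ) = (Fintype.card V : ℝ) := by exact_mod_cast h3
  rw [abs_le]
  constructor
  · linarith
  · linarith

end Pool.Agent.KK.H42
end

/-! ### Helper92_KK.ONE -/
section
/-!
# KK block BETA, row ONE: arithmetic of one gap
-/

set_option autoImplicit false

namespace Pool.Agent.KK.H92

/-- **ONE** -/
theorem one : OneStmt := by
  intro k K₀ hk
  refine ⟨4 * K₀ + 1, ?_⟩
  intro n x D j hn hj hjk h1 h2 hx hD
  obtain ⟨i, rfl⟩ : ∃ i, j = i + 1 := ⟨j - 1, by omega⟩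
  have hi : i + 1 - 1 = i := rfl
  rw [hi] at h1 ⊢
  have hk0 : (0 : ℝ) < k := by
    have : 0 < k := by omega
    exact_mod_cast this
  have hnR : (4 * (K₀ : ℝ) + 1) ≤ n := by exact_mod_cast hn
  have hn0 : (0 : ℝ) < n := by
    have : (0 : ℝ) ≤ K₀ := Nat.cast_nonneg _
    linarith
  have hkn : (k : ℝ) * (1 / (100 * k) * (n : ℝ)) = n / 100 := by
    field_simp
  obtain ⟨hx1, hx2⟩ := abs_le.1 hx
  have hkx1 : (k : ℝ) * n / 2 - n / 100 ≤ k * x := by
    have := mul_le_mul_of_nonneg_left hx1 hk0.le
    rw [mul_neg, hkn] at this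
    linarith
  have hkx2 : (k : ℝ) * x ≤ k * n / 2 + n / 100 := by
    have := mul_le_mul_of_nonneg_left hx2 hk0.le
    rw [hkn] at this
    linarith
  have hkD : (k : ℝ) * D ≤ n / 100 := by
    have := mul_le_mul_of_nonneg_left hD hk0.le
    rw [hkn] at this
    exact this
  have hD0 : (0 : ℝ) ≤ D := Nat.cast_nonneg _
  have h1' : (2 * (i : ℝ) + 1) ≤ k := by
    have : 2 * i + 1 ≤ k := by omega
    exact_mod_cast this
  have h2' : (k : ℝ) + 1 ≤ 2 * (i : ℝ) + 4 := by
    have : k + 1 ≤ 2 * i + 4 := by omega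
    exact_mod_cast this
  have hik : (i : ℝ) ≤ k := by linarith [(Nat.cast_nonneg i : (0 : ℝ) ≤ (i : ℝ))]
  have hiD : (i : ℝ) * D ≤ n / 100 := le_trans (mul_le_mul_of_nonneg_right hik hD0) hkD
  have e1 : 4 * k * D ≤ n := by
    have : (4 * (k : ℝ) * D) ≤ n := by linarith
    exact_mod_cast this
  have hk1 : (1 : ℝ) ≤ k := by
    have : 1 ≤ k := by omega
    exact_mod_cast this
  have hxlow : (n : ℝ) / 2 - n / 100 ≤ x := by
    have h3 : 1 / (100 * (k : ℝ)) * n ≤ n / 100 := by
      rw [← hkn]
      have h4 : 0 ≤ 1 / (100 * (k : ℝ)) * n := by positivity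
      nlinarith
    linarith
  have e2 : 4 * i * D ≤ x := by
    have : (4 * (i : ℝ) * D) ≤ x := by linarith
    exact_mod_cast this
  refine ⟨n - 4 * k * D, x - 4 * i * D, by omega, by omega, ?_, ?_⟩
  · have : ((i * (n - 4 * k * D) + K₀ : ℕ) : ℝ) ≤ ((k * (x - 4 * i * D) : ℕ) : ℝ) := by
      push_cast
      rw [Nat.cast_sub e1, Nat.cast_sub e2]
      push_cast
      nlinarith
    exact_mod_cast this
  · have : ((k * (x - 4 * i * D) + K₀ : ℕ) : ℝ) ≤ (((i + 1 + 1) * (n - 4 * k * D) : ℕ) : ℝ) := by
      push_cast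
      rw [Nat.cast_sub e1, Nat.cast_sub e2]
      push_cast
      nlinarith
    exact_mod_cast this

end Pool.Agent.KK.H92
end

/-! ### Helper24_KK.CRY -/
section
/-!
# KK, row G_CRY (StmtG14): complement and reversal of the mixed crossing (helper24)
-/

set_option autoImplicit false

namespace Pool.Agent.KK.H24

open Pool.Agent.KK Pool.Agent.KK.E

variable {V : Type} [Fintype V] [DecidableEq V]

/-- Complement of the letter of a slot. -/
def cm : Slot V → Slot V := Sum.map id not

omit [Fintype V] [DecidableEq V] in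
theorem cm_cm (x : Slot V) : cm (cm x) = x := by
  rcases x with v | b
  · rfl
  · simp [cm]

omit [Fintype V] [DecidableEq V] in
theorem map_cm_cm (s : List (Slot V)) : (s.map cm).map cm = s := by
  rw [List.map_map]
  have : (cm ∘ cm : Slot V → Slot V) = id := by
    funext x
    exact cm_cm x
  rw [this, List.map_id]

theorem fit_cm (X : Finset V) (x : Slot V) (w : V) : Fit Xᶜ (cm x) w ↔ Fit X x w := by
  rcases x with v | b
  · simp [cm, Fit]
  · cases b <;> simp [cm, Fit]

theorem badC_cm (H : Finset (Finset V)) (X : Finset V) (s : List (Slot V)) :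
    BadC H Xᶜ (s.map cm) = BadC H X s := by
  unfold BadC
  ext e
  simp only [Set.mem_setOf_eq, List.forall₂_map_left_iff]
  have : (fun (x : Slot V) (w : V) => Fit Xᶜ (cm x) w) = Fit X := by
    funext x w
    exact propext (fit_cm X x w)
  rw [this]

omit [Fintype V] [DecidableEq V] in
theorem fr_cm (s : List (Slot V)) : fr (s.map cm) = fr s := by
  unfold fr
  rw [List.countP_map]
  have : (Sum.isRight ∘ cm : Slot V → Bool) = Sum.isRight := by
    funext x
    rcases x with v | b <;> rfl
  rw [this]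

theorem oks_cm (H : Finset (Finset V)) (X : Finset V) (ε : ℝ) (s : List (Slot V)) :
    OKs H Xᶜ ε (s.map cm) ↔ OKs H X ε s := by
  unfold OKs
  rw [badC_cm, fr_cm]

theorem okl_cm (H : Finset (Finset V)) (X : Finset V) (k : ℕ) (ε : ℝ) (L : List (Slot V))
    (h : OKl H Xᶜ k ε (L.map cm)) : OKl H X k ε L := by
  intro s hs hl
  rw [← oks_cm]
  exact h _ (hs.map cm) (by simpa using hl)

theorem badC_reverse (H : Finset (Finset V)) (X : Finset V) (s : List (Slot V)) :
    BadC H X s.reverse = List.reverse '' BadC H X s := by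
  ext e
  simp only [BadC, Set.mem_setOf_eq, Set.mem_image]
  constructor
  · rintro ⟨h1, h2, h3⟩
    refine ⟨e.reverse, ⟨?_, by simpa using h2, by simpa using h3⟩, List.reverse_reverse e⟩
    have := List.forall₂_reverse_iff.2 h1
    simpa using this
  · rintro ⟨f, ⟨h1, h2, h3⟩, rfl⟩
    exact ⟨List.forall₂_reverse_iff.2 h1, by simpa using h2, by simpa using h3⟩

theorem oks_reverse (H : Finset (Finset V)) (X : Finset V) (ε : ℝ) (s : List (Slot V)) :
    OKs H X ε s.reverse ↔ OKs H X ε s := by
  unfold OKs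
  have h1 : fr s.reverse = fr s := by
    unfold fr
    rw [List.countP_reverse]
  rw [badC_reverse, Set.ncard_image_of_injective _ List.reverse_injective, h1]

theorem okl_reverse (H : Finset (Finset V)) (X : Finset V) (k : ℕ) (ε : ℝ) (L : List (Slot V))
    (h : OKl H X k ε L.reverse) : OKl H X k ε L := by
  intro s hs hl
  rw [← oks_reverse]
  exact h _ (List.reverse_infix.2 hs) (by simpa using hl)

omit [Fintype V] [DecidableEq V] in
theorem fw_cm (u : List Bool) : (fw u : List (Slot V)).map cm = fw (u.map not) := by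
  simp only [fw, List.map_map]
  rfl

omit [Fintype V] [DecidableEq V] in
theorem vx_cm (l : List V) : (vx l : List (Slot V)).map cm = vx l := by
  simp only [vx, List.map_map]
  rfl

theorem g14 (e07 : StmtE07) (g09 : StmtG09) : StmtG14 := by
  intro V _ _ H X M Z p q B δ h ε η θ hA hC hM hZ hMZ hne hMX hcard hmix
  have hX : X.Nonempty := by
    rw [← Finset.card_pos]
    have h0 := hA.big
    have h1 := hA.lo
    have h2 : (0 : ℝ) < δ * (Fintype.card V : ℝ) := by
      refine lt_of_lt_of_le ?_ h0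
      positivity
    have h3 : (0 : ℝ) < (Fintype.card V : ℝ) := by
      by_contra hc
      push Not at hc
      nlinarith [hA.pos]
    have h4 : (0 : ℝ) < (X.card : ℝ) := by
      nlinarith [hA.small]
    exact_mod_cast h4
  have hX' : (Xᶜ).Nonempty := by
    rw [← Finset.card_pos]
    have h0 := hA.big
    have h1 := hA.lo'
    have h2 : (0 : ℝ) < δ * (Fintype.card V : ℝ) := by
      refine lt_of_lt_of_le ?_ h0
      positivity
    have h3 : (0 : ℝ) < (Fintype.card V : ℝ) := by
      by_contra hc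
      push Not at hc
      nlinarith [hA.pos]
    have h4 : (0 : ℝ) < ((Xᶜ).card : ℝ) := by
      nlinarith [hA.small]
    exact_mod_cast h4
  obtain ⟨-, s2, -, s4, s5⟩ := e07 V H X hX hX'
  have hpq : q + p + 2 = p + q + 2 := by omega
  have hpq1 : q + p + 1 = p + q + 1 := by omega
  have hA' : Amb H Xᶜ q p B δ := s5 p q B δ hA
  have hM' : Mst H Xᶜ q p η M := (s4 p q η M).2 hM
  have hmix' : θ M.card < Mix H Xᶜ M (q + 1 - M.card) p := by
    rw [s2 M p (q + 1 - M.card)]
    exact hmix
  obtain ⟨l, l1, l2, l3, l4⟩ := g09 V H Xᶜ M Z q p B δ h ε η θ hA' (by rw [hpq]; exact hC) hM' hZ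
    hMZ hne hMX hcard hmix'
  have hdec : ∀ v : V, decide (v ∈ X) = !(decide (v ∈ Xᶜ)) := by
    intro v
    by_cases hv : v ∈ X <;> simp [hv]
  refine ⟨l.reverse, List.nodup_reverse.2 l1, fun v hv => l2 v (List.mem_reverse.1 hv), ?_, ?_⟩
  · have h1 : l.reverse.map (fun v => decide (v ∈ X)) =
        ((l.map (fun v => decide (v ∈ Xᶜ))).map not).reverse := by
      rw [List.map_reverse, List.map_map]
      congr 1
      apply List.map_congr_left
      intro v _
      exact hdec v
    rw [h1, l3]
    simp [List.reverse_append, List.map_append, List.append_assoc]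
  · apply okl_reverse
    apply okl_cm
    have h2 : List.map cm (fw ((List.replicate (M.card + 1) false ++ List.replicate p true ++
          List.replicate q false).take (p + q + 1)).reverse ++ vx l.reverse ++
            fw (high p q)).reverse =
        fw (low q p) ++ vx l ++
        fw ((List.replicate (M.card + 1) true ++ List.replicate p false ++
          List.replicate q true).take (q + p + 1)) := by
      rw [List.reverse_append, List.reverse_append, List.map_append, List.map_append]
      have a1 : List.map cm (fw (high p q) : List (Slot V)).reverse = fw (low q p) := by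
        rw [List.map_reverse, fw_cm]
        unfold fw low high
        rw [← List.map_reverse]
        congr 1
        simp
      have a2 : List.map cm (vx l.reverse : List (Slot V)).reverse = vx l := by
        rw [List.map_reverse, vx_cm]
        unfold vx
        rw [← List.map_reverse, List.reverse_reverse]
      have a3 : List.map cm (fw ((List.replicate (M.card + 1) false ++ List.replicate p true ++
          List.replicate q false).take (p + q + 1)).reverse : List (Slot V)).reverse =
          fw ((List.replicate (M.card + 1) true ++ List.replicate p false ++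
          List.replicate q true).take (q + p + 1)) := by
        rw [List.map_reverse, fw_cm]
        unfold fw
        rw [← List.map_reverse, ← List.map_reverse, List.reverse_reverse, hpq1]
        congr 1
        rw [List.map_take]
        simp
      rw [a1, a2, a3, List.append_assoc (fw (low q p))]
    rw [h2, ← hpq]
    exact l4

end Pool.Agent.KK.H24
end
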