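import Pool.Agent.KKM.R01
import Pool.Agent.KKM.R02
import Pool.Agent.KKM.R03
import Pool.Agent.KKM.R04
import Pool.Agent.KKM.R05
import Pool.Agent.KKM.R06
import Pool.Agent.KKM.R07
import Pool.Agent.KKM.R08
import Pool.Agent.KKM.R09
import Pool.Agent.KKM.R10
import Pool.Agent.KKM.R11
import Pool.Agent.KKM.R12
import Pool.Agent.KKM.R13
import Pool.Agent.KKM.R14

/-! # MP_747bc0_co, merged modules -/

/-! ### KK.AsmB1 -/
section
/-! Assembly of block B, first part (structure theorem for labelled tuples). -/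

namespace Pool.Agent.KK.B

theorem plt : PltStmt := H69.plt
theorem nsp : NspStmt := H70.nsp plt
theorem exc : ExcStmt := H40.exc plt nsp

/-- the structure theorem, from the two rows CHN and MSX -/
theorem str_of (chn : PltStmt → NspStmt → ExcStmt → ChnStmt)
    (msx : GbxStmt → MisStmt → MinStmt → WgrStmt → MsxStmt) : StrStmt := by
  have hchn := chn plt nsp exc
  have hglb : GlbStmt := H22.glb plt nsp hchn
  have hntr : NtrStmt := H3.ntr plt H39.res_row
  have huni : UniStmt := H70.uni nsp H31.g0d H39.lev_row hglb H39.res_row H70.typ'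
  have hgbx : GbxStmt := H45.gbx nsp H31.g0d H39.lev_row hglb H39.res_row hntr
  have hmsx : MsxStmt := msx hgbx H69.mis H70.minT H70.wgr
  exact H80.str huni hmsx H69.mis H87.nbr

end Pool.Agent.KK.B
end

/-! ### KK.AsmB -/
section
/-! Assembly of block B: the structure theorem `KK.StrStmt` of `StmtsD`. -/

namespace Pool.Agent.KK.B

/-- the structure theorem for labelled tuples -/
theorem strB : StrStmt :=
  str_of (fun _ hn he => H41.b_chn hn he) (fun hg hm hi hw => H24.msx hg hm hi hw)

end Pool.Agent.KK.B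

namespace Pool.Agent.KK

/-- THE OUTPUT OF BLOCK B -/
theorem strKK : StrStmt :=
  B.H41.brg B.strB B.H52.aug (B.H91.cli B.H52.aug B.H19.cnv (B.H52.cnc B.H19.cnv))
    (B.H65.clu B.H52.aug B.H19.cnv (B.H52.cnc B.H19.cnv)) B.H6.run H41.clo

end Pool.Agent.KK
end

/-! ### KK.AsmE -/
section
/-!
# Block E assembled: unconditional theorems
-/

set_option autoImplicit false

namespace Pool.Agent.KK.E

theorem p01 : StmtE01 := H3.e_den
theorem p02 : StmtE02 := H32.e_pul
theorem p03 : StmtE03 := H3.e_fub p01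
theorem p04 : StmtE04 := H39.e_deg p01 p02
theorem p05 : StmtE05 := H8.e_win p02
theorem p06 : StmtE06 := H15.e_cod p01 p02 p03 p04
theorem p07 : StmtE07 := H81.e_sym p02
theorem p08 : StmtE08 := H92.e_hyb p01 p02
theorem p09 : StmtE09 := H8.e_gro p01 p02 p08
theorem p10 : StmtE10 := H92.e_tri p01 p02 p03 p04 p08
theorem p11 : StmtE11 := H62.e_mar p01 p02 p03
theorem p12 : StmtE12 := H2.e_gen p01 p02 p04 p11
theorem p13 : StmtE13 := H17.e_vtx p01 p02 p03 p05 p09 p11 p12
theorem p14 : StmtE14 := H77.e_cnt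
theorem p15 : StmtE15 := H64.e_sup p01 p02 p07 p10 p12 p13 p14
theorem p16 : StmtE16 := H39.e_ofn
theorem p17 : StmtE17 := H37.e_ord p06
theorem p18 : StmtE18 := H37.e_wrd
theorem p19 : StmtE19 := H47.e19 p01 p02 p04 p05 p16 p17 p18
theorem p20 : StmtE20 := H94.e_blo p02
theorem p21 : StmtE21 := H40.e_mix p01 p02 p04 p05 p16 p17 p18 p20
theorem p22 : StmtE22 := H72.e_rev p02 p07 p21
theorem p23 : StmtE23 := H37.e_cst
theorem p24 : StmtE24 := H77.e_par p02 p03 p06
theorem p25 : StmtE25 := H84.e_one p15 p19 p21 p22 p23 p24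
theorem crs : Pool.Agent.KK.CrsStmt := H94.e_crs p25

end Pool.Agent.KK.E
end

/-! ### KK.AsmAlpha -/
section
/-! # MP_747bc0_co: alpha, assembled -/

namespace Pool.Agent.KK

open Pool.Agent.KK

theorem famKK : FamStmt := H74.fam
theorem ckqKK : CkqStmt := H74.ckq
theorem erdKK : ErdStmt := H74.erd
theorem reaKK : ReaStmt := H86.rea
theorem wktKK : WktStmt := H62.wkt
theorem jonKK : JonStmt := H86.jon reaKK wktKK
theorem chnKK : ChnStmt := H92.chn
theorem gdcKK : GdcStmt := H52.gdc
theorem rplKK : RplStmt := H44.rpl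
theorem grjKK : GrjStmt := H44.grj
theorem absKK : AbsStmt := H41.abs_row famKK grjKK rplKK
theorem cnfKK : CnfStmt := H52.cnf famKK
theorem jsqKK : JsqStmt := H72.jsq
theorem asmKK : AsmStmt := H89.asm absKK cnfKK jsqKK rplKK
theorem swcKK : SwcStmt := H31.swc ckqKK
theorem blkKK : BlkStmt := H97.blk ckqKK
theorem coaKK : CoaStmt := H91.coa erdKK
theorem cobKK : CobStmt := H33.cob coaKK erdKK
theorem covKK : CovStmt := H6.cov cobKK
theorem alpKK : AlpStmt := H92.alp chnKK swcKK blkKK gdcKK asmKK covKK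
theorem tclKK : TclStmt := H16.tcl jonKK
theorem dicKK : DicStmt := H97D.dic
theorem cloKK : CloStmt := H41.clo
theorem cvrKK : CvrStmt := H31.cvr
theorem timKK : TimStmt := H65.tim
theorem csyKK : CsyStmt := H32.csy
theorem touKK : TouStmt := H25.tou

theorem alphaKK : AlphaStmt :=
  H83.alf strKK E.crs alpKK tclKK cloKK cvrKK timKK csyKK touKK

end Pool.Agent.KK
end

/-! ### KK.AsmBeta -/
section
/-!
# Block BETA: assembly
-/

set_option autoImplicit false

namespace Pool.Agent.KK

theorem bulkKK : BulkStmt := H34.bul H3.cyc H81.fib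

theorem pupKK : PupStmt := H60W.pup H3.per_ H3.tra

theorem pdnKK : PdnStmt := H60W.pdn H3.per_ H3.tra H42.srv

theorem rstKK : RstStmt := H62W.rst H3.per_ H3.tra

theorem rchKK : RchStmt := H76.rch H61.hlo H61.hwd rstKK H3.tra

theorem rconKK : RconStmt := H61.rcon rchKK

theorem gluKK : GluStmt := H61.glu H3.per_ H3.pwt H3.tra

theorem lorKK : LorStmt := H65L.lor rconKK H3.per_ H3.tra H42.srv H3.blr H3.pwt gluKK

theorem lopKK : LopStmt := H15.lop pupKK pdnKK H3.per_ H3.tra H3.blr H3.pwt gluKK

theorem lolKK : LolStmt := H42.lol H3.blr H3.per_ H3.pwt lorKK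

theorem putKK : PutStmt := H42.put H52.rel H70.cmo H70.tkr H3.per_

theorem pdtKK : PdtStmt := H88.pdt H52.srt H52.rel H70.cmo H70.tkr H3.per_

theorem extKK : ExtStmt := H79.ext putKK pdtKK H52.rel H70.cmo H3.per_ H3.pwt

theorem mkiKK : MkiStmt := H42.mki lorKK lopKK lolKK H52.rel

theorem abqKK : AbqStmt := H90.abq H70.cmo

theorem clzKK : ClzStmt := H70.clz bulkKK

theorem mtoKK : MtoStmt := H92.mto H92.wrd putKK pdtKK H52.rel H70.cmo

theorem finKK_of (pst : PstStmt) : FinStmt :=
  H70.fin H52.rel H3.per_ H3.pwt pst abqKK clzKK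

theorem betKK_of (gad : GadStmt) (pst : PstStmt) : BetStmt :=
  H91.beh gad (finKK_of pst) H70.neo H70.cmo H52.srt H33.lab mtoKK extKK mkiKK H76.npa H42.nps
    H70.npo H92.one H42.two H3.blr

theorem pstKK : PstStmt := H55.pst H52.rel H70.cmo H70.tkr H3.per_ H3.pwt

/-- The parity case, from the gadgets of one gap (block G). -/
theorem betKK_gad (gad : GadStmt) : BetStmt := betKK_of gad pstKK

end Pool.Agent.KK
end

/-! ### KK.AsmG -/
section
/-! # MP_747bc0_co: block G assembled (gadgets for atypical vertices) -/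

namespace Pool.Agent.KK.E

theorem q01 : StmtG01 := H81.g_bad p02
theorem q02 : StmtG02 := H33.g_mkv p01 p02 p03
theorem q00 : StmtG00 := H56.g00 p01 p02 p04 p17 q01 q02
theorem q03 : StmtG03 := H33.g_swg p01 p05 q00
theorem q04 : StmtG04 := H52.g_pla
theorem q05 : StmtG05 := H52.g_mov q03 q04
theorem q06 : StmtG06 := H41.g_cro p18 q03 q04
theorem q08 : StmtG08 := H76.g_tok p01 p02 p20 q00
theorem q09 : StmtG09 := H44.g_crm p01 p02 p18 p20 q00
theorem q10 : StmtG10 := H19.g_pas p01 p02 p20 q00
theorem q11 : StmtG11 := H32.g_exc p01 p02 p03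
theorem q12 : StmtG12 := H84.g_par p02 p03 p06
theorem q13 : StmtG13 := H97.g_cst
theorem q14 : StmtG14 := Pool.Agent.KK.H24.g14 p07 q09
theorem q17 : StmtG17 := H3c.g17
theorem q07 : StmtG07 := H41.g_far p01 p02 p05 p20 q00
theorem q15 : StmtG15 := H84.g_knd q05 q06 q07 q09 q14
theorem gadKK : Pool.Agent.KK.GadStmt :=
  Pool.Agent.KK.H24.g16 p01 p02 p03 p07 p10 p15 p17 q08 q10 q11 q12 q13 q15 q17

end Pool.Agent.KK.E
end

/-! ### Helper74_KK.Fin -/
section
/-! Final form of the theorem: from lists to cyclic orderings. -/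

set_option autoImplicit false

namespace Pool.Agent.KK.H74

open Pool.Agent.KK

theorem ham_cyc {V : Type} [Fintype V] [DecidableEq V] (H : Finset (Finset V)) (k n : ℕ)
    (hk : 1 ≤ k) (hkn : k ≤ n) (hV : Fintype.card V = n) (h : Ham H k) :
    ∃ σ : ZMod n ≃ V, ∀ i : ZMod n,
      (Finset.range k).image (fun j : ℕ => σ (i + (j : ZMod n))) ∈ H := by
  obtain ⟨l, hnd, hall, ht⟩ := h
  have hlen : l.length = n := by
    have h1 : l.toFinset = Finset.univ := by
      ext v; simp [hall v]
    have h2 := List.toFinset_card_of_nodup hnd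
    rw [h1, Finset.card_univ, hV] at h2
    exact h2.symm
  have hn : 0 < n := by omega
  have : NeZero n := ⟨by omega⟩
  have hval : ∀ i : ZMod n, i.val < l.length := fun i => by rw [hlen]; exact ZMod.val_lt i
  let f : ZMod n → V := fun i => l.get ⟨i.val, hval i⟩
  have hinj : Function.Injective f := by
    intro a b hab
    have h1 := (List.nodup_iff_injective_get.mp hnd) hab
    have h2 : a.val = b.val := by
      have := congrArg Fin.val h1
      simpa using this
    exact ZMod.val_injective n h2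
  have hcard : Fintype.card (ZMod n) = Fintype.card V := by rw [ZMod.card, hV]
  have hbij : Function.Bijective f := (Fintype.bijective_iff_injective_and_card f).mpr ⟨hinj, hcard⟩
  refine ⟨Equiv.ofBijective f hbij, ?_⟩
  intro i
  set L := l ++ l.take (k - 1) with hL
  have hLlen : L.length = n + (k - 1) := by
    rw [hL, List.length_append, List.length_take, hlen]
    omega
  have hget : ∀ j < k, ∀ (hj : i.val + j < L.length), L[i.val + j] = f (i + (j : ZMod n)) := by
    intro j hj hj2
    have hi := ZMod.val_lt i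
    have hjv : ((j : ZMod n)).val = j % n := ZMod.val_natCast n j
    have hadd : (i + (j : ZMod n)).val = (i.val + j) % n := by
      rw [ZMod.val_add, hjv, Nat.add_mod_mod]
    show L[i.val + j] = l.get ⟨(i + (j : ZMod n)).val, hval _⟩
    rw [List.get_eq_getElem]
    by_cases hc : i.val + j < n
    · have h1 : (i + (j : ZMod n)).val = i.val + j := by rw [hadd, Nat.mod_eq_of_lt hc]
      simp only [hL, h1]
      rw [List.getElem_append_left]
    · have h1 : (i + (j : ZMod n)).val = i.val + j - n := by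
        rw [hadd, Nat.mod_eq_sub_mod (by omega), Nat.mod_eq_of_lt (by omega)]
      simp only [hL, h1]
      rw [List.getElem_append_right (by omega)]
      rw [List.getElem_take]
      simp only [hlen]
  have hs : ((L.drop i.val).take k).toFinset ∈ H := by
    apply ht
    · exact (List.take_prefix _ _).isInfix.trans (List.drop_suffix _ _).isInfix
    · rw [List.length_take, List.length_drop, hLlen]
      have hi := ZMod.val_lt i
      omega
  have he : (Finset.range k).image (fun j : ℕ => (Equiv.ofBijective f hbij) (i + (j : ZMod n))) =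
      ((L.drop i.val).take k).toFinset := by
    ext v
    simp only [Finset.mem_image, Finset.mem_range, Equiv.ofBijective_apply, List.mem_toFinset]
    have hi := ZMod.val_lt i
    constructor
    · rintro ⟨j, hj, rfl⟩
      rw [← hget j hj (by rw [hLlen]; omega)]
      rw [List.mem_iff_getElem]
      refine ⟨j, ?_, ?_⟩
      · rw [List.length_take, List.length_drop, hLlen]; omega
      · rw [List.getElem_take, List.getElem_drop]
    · intro hv
      rw [List.mem_iff_getElem] at hv
      obtain ⟨j, hj, hv⟩ := hv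
      rw [List.length_take, List.length_drop, hLlen] at hj
      refine ⟨j, by omega, ?_⟩
      rw [← hget j (by omega) (by rw [hLlen]; omega)]
      rw [List.getElem_take, List.getElem_drop] at hv
      exact hv
  rw [he]
  exact hs

/-- The theorem in Mathlib terms. -/
theorem final (hM : Main) (k : ℕ) (hk : 3 ≤ k) : ∃ n₀ : ℕ, ∀ n : ℕ, n₀ ≤ n →
    ∀ (V : Type) [Fintype V] [DecidableEq V], Fintype.card V = n →
    ∀ E : Set (Finset V), (∀ e ∈ E, e.card = k) →
    (∀ S : Finset V, S.card = k - 1 → n ≤ 2 * {v : V | v ∉ S ∧ insert v S ∈ E}.ncard) →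
    ∃ σ : ZMod n ≃ V, ∀ i : ZMod n,
      (Finset.range k).image (fun j : ℕ => σ (i + (j : ZMod n))) ∈ E := by
  obtain ⟨n₀, h⟩ := hM k hk
  refine ⟨max n₀ k, ?_⟩
  intro n hn V _ _ hV E hE hδ
  classical
  let H : Finset (Finset V) := Finset.univ.filter (· ∈ E)
  have hmem : ∀ e, e ∈ H ↔ e ∈ E := fun e => by simp [H]
  have hU : Uni H k := fun e he => hE e ((hmem e).mp he)
  have hD : Dirac H k := by
    intro S hS
    rw [hV]
    have h1 := hδ S hS
    have h2 : {v : V | v ∉ S ∧ insert v S ∈ E}.ncard = (nb H S).card := by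
      rw [← Set.ncard_coe_finset]
      apply congrArg
      ext v
      simp [nb, hmem]
    rw [h2] at h1
    exact h1
  have hh := h V H (by rw [hV]; exact le_trans (le_max_left _ _) hn) hU hD
  obtain ⟨σ, hσ⟩ := ham_cyc H k n (by omega) (le_trans (le_max_right _ _) hn) hV hh
  exact ⟨σ, fun i => (hmem _).mp (hσ i)⟩

end Pool.Agent.KK.H74
end

/-! ### KK.Master -/
section
/-! # MP_747bc0_co: the main theorem -/

namespace Pool.Agent.KK

theorem mainKK : Main := main_of alphaKK (betKK_gad E.gadKK) dicKK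

end Pool.Agent.KK
end
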