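import Pool.Agent.KKM.Base

/-! # MP_747bc0_co, merged modules -/

/-! ### Helper84_KK.E_ONE -/
section
set_option autoImplicit false

namespace Pool.Agent.KK.E.H84

open Pool.Agent.KK Pool.Agent.KK.E

theorem good_cr (h19 : StmtE19) (h21 : StmtE21) (h22 : StmtE22)
    (V : Type) [Fintype V] [DecidableEq V] (H : Finset (Finset V)) (X : Finset V)
    (p q B : ℕ) (δ h β : ℝ) (η θ : ℕ → ℝ) (S T : Set (List V))
    (hA : Amb H X p q B δ) (hC : Cst (p + q + 2) B η θ h δ) (hβ : β ≤ δ)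
    (hS : Alm X (low p q) S β) (hT : Alm X (high p q) T β)
    (M F : Finset V) (hM : GoodM H X p q η θ M) (hF : F.card ≤ B) (hMF : Disjoint M F) :
    ∃ l, Cr H (p + q + 2) S T M F l := by
  obtain ⟨hMst, hcase⟩ := hM
  rcases hcase with ⟨h1, h2⟩ | ⟨h1, h2, h3, h4⟩ | ⟨h1, h2, h3, h4⟩
  · exact h19 V H X M F p q B δ h β η θ S T hA hC hβ hMst h1 h2 hF hMF hS hT
  · exact h21 V H X M F p q B δ h β η θ S T hA hC hβ hMst h1 h2 h3 h4 hF hMF hS hT
  · exact h22 V H X M F p q B δ h β η θ S T hA hC hβ hMst h1 h2 h3 h4 hF hMF hS hT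

theorem eta_bound (k B : ℕ) (η θ : ℕ → ℝ) (h e : ℝ) (hk : 2 ≤ k) (hC : Cst k B η θ h e)
    (he : 0 < e) : 100 * e ≤ η 0 := by
  have h1 := hC.dsmall
  have h2 := hC.hsmall
  have h3 := hC.hpos
  have h4 := hC.pos 0 (Nat.zero_le _)
  have hk2 : (2 : ℝ) ≤ (k : ℝ) := by exact_mod_cast hk
  have h7 : (1 : ℝ) ≤ 4 ^ k := one_le_pow₀ (by norm_num)
  have h7' : (1 : ℝ) ≤ 2 ^ k := one_le_pow₀ (by norm_num)
  have h5 : h ≤ 1 := by
    refine le_trans h2 ?_
    have hpos : (0 : ℝ) < 8 * (k : ℝ) * 2 ^ k := by positivity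
    rw [div_le_one hpos]
    calc (1 : ℝ) ≤ 8 * (k : ℝ) := by linarith
      _ = 8 * (k : ℝ) * 1 := by ring
      _ ≤ 8 * (k : ℝ) * 2 ^ k := mul_le_mul_of_nonneg_left h7' (by positivity)
  have h6 : η 0 * h ≤ η 0 := by
    calc η 0 * h ≤ η 0 * 1 := mul_le_mul_of_nonneg_left h5 h4.le
      _ = η 0 := mul_one _
  have hB : (0 : ℝ) ≤ (B : ℝ) := Nat.cast_nonneg B
  have h8 : (100 : ℝ) ≤ 100 * (k : ℝ) * 4 ^ k * ((B : ℝ) + 1) := by
    calc (100 : ℝ) ≤ 100 * (k : ℝ) := by linarith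
      _ = 100 * (k : ℝ) * 1 := by ring
      _ ≤ 100 * (k : ℝ) * 4 ^ k := mul_le_mul_of_nonneg_left h7 (by positivity)
      _ = 100 * (k : ℝ) * 4 ^ k * 1 := by ring
      _ ≤ 100 * (k : ℝ) * 4 ^ k * ((B : ℝ) + 1) :=
        mul_le_mul_of_nonneg_left (by linarith) (by positivity)
  have h9 : 100 * e ≤ 100 * (k : ℝ) * 4 ^ k * ((B : ℝ) + 1) * e :=
    mul_le_mul_of_nonneg_right h8 he.le
  linarith

theorem e_one (h15 : StmtE15) (h19 : StmtE19) (h21 : StmtE21) (h22 : StmtE22)
    (h23 : StmtE23) (h24 : StmtE24) : StmtE25 := by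
  intro p q B
  obtain ⟨η, θ, h, δ₀, hδ₀, hδ₀', hcst⟩ := h23 (p + q + 2) B (by omega)
  set k : ℕ := p + q + 2 with hk
  have hk2 : (2 : ℝ) ≤ (k : ℝ) := by
    have : 2 ≤ k := by omega
    exact_mod_cast this
  set d : ℝ := δ₀ / 8 with hd
  have hd0 : 0 < d := by rw [hd]; linarith
  have hd80 : d ≤ 1 / 80 := by rw [hd]; linarith
  have h4d : 0 < 4 * d := by linarith
  have h4d' : 4 * d ≤ δ₀ := by rw [hd]; linarith
  have hC := hcst (4 * d) h4d h4d'
  set ε : ℝ := d / (100 * (k : ℝ)) with hε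
  have hkpos : (0 : ℝ) < 100 * (k : ℝ) := by linarith
  have hε0 : 0 < ε := by rw [hε]; exact div_pos hd0 hkpos
  have hεk : 100 * (k : ℝ) * ε = d := by
    rw [hε]; field_simp
  have hεd : ε ≤ d / 2 := by
    have : 200 * ε ≤ 100 * (k : ℝ) * ε := by
      apply mul_le_mul_of_nonneg_right _ hε0.le
      linarith
    linarith
  refine ⟨ε, hε0, ⌈100 * ((p + q + 2 : ℕ) : ℝ) ^ 2 * ((B + p + q + 2 : ℕ) : ℝ) / d⌉₊, ?_⟩
  intro V _ _ H X hn hU hD hX hDX S T hS hT
  set n : ℝ := (Fintype.card V : ℝ) with hnn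
  have hn0 : 0 ≤ n := by rw [hnn]; positivity
  have hcompl : ((Xᶜ).card : ℝ) = n - (X.card : ℝ) := by
    have h1 : (Xᶜ).card + X.card = Fintype.card V := by
      rw [add_comm]; exact Finset.card_add_card_compl X
    have h2 : ((Xᶜ).card : ℝ) + (X.card : ℝ) = n := by
      rw [hnn]; exact_mod_cast h1
    linarith
  have hXabs := abs_le.mp hX
  have hεn : ε * n ≤ d / 2 * n := mul_le_mul_of_nonneg_right hεd hn0
  have hbig : 100 * ((p + q + 2 : ℕ) : ℝ) ^ 2 * ((B + p + q + 2 : ℕ) : ℝ) ≤ d * n := by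
    have h1 : 100 * ((p + q + 2 : ℕ) : ℝ) ^ 2 * ((B + p + q + 2 : ℕ) : ℝ) / d ≤ n :=
      le_trans (Nat.le_ceil _) (by rw [hnn]; exact_mod_cast hn)
    rw [div_le_iff₀ hd0] at h1
    linarith
  have hA : Amb H X p q B d := by
    refine ⟨hU, hD, hd0, by linarith, ?_, ?_, ?_, ?_, hbig⟩
    · nlinarith [hXabs.1]
    · nlinarith [hXabs.2]
    · rw [hcompl]; nlinarith [hXabs.2]
    · rw [hcompl]; nlinarith [hXabs.1]
  obtain ⟨X', hNF, hA', hD', hAlm⟩ := h24 V H X p q B d ε hA hε0.le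
    (by rw [← hk, hεk]) (by linarith) hDX
  have hlow : (low p q).length ≤ p + q + 2 := by
    simp [low]; omega
  have hhigh : (high p q).length ≤ p + q + 2 := by
    simp [high]; omega
  have hS' := hAlm (low p q) S ε hlow hS
  have hT' := hAlm (high p q) T ε hhigh hT
  have hβ : ε + d ≤ 4 * d := by linarith
  have hη0 : ε + d ≤ η 0 := by
    have := eta_bound k B η θ h (4 * d) (by omega) hC h4d
    linarith
  rcases h15 V H X' p q B (4 * d) h η θ hA' hC hNF (le_trans hD' hη0) with ⟨Z, hZ, hZg⟩ | hall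
  · left
    refine ⟨Z, hZ, ?_⟩
    intro z hz F hF hzF
    exact good_cr h19 h21 h22 V H X' p q B (4 * d) h (ε + d) η θ S T hA' hC hβ hS' hT'
      {z} F (hZg z hz) hF (by simpa using hzF)
  · right
    intro F hF
    obtain ⟨M, hM, hMF⟩ := hall F hF
    obtain ⟨l, hl⟩ := good_cr h19 h21 h22 V H X' p q B (4 * d) h (ε + d) η θ S T hA' hC hβ
      hS' hT' M F hM hF hMF
    exact ⟨l, hl.1, hl.2.1, hl.2.2.1, hl.2.2.2.1, Finset.empty_subset _, hl.2.2.2.2.2⟩

end Pool.Agent.KK.E.H84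
end

/-! ### Helper94_KK.E_CRS -/
section
/-!
# Squad KK, row E_CRS: `CrsStmt` from `StmtE25`
-/

set_option autoImplicit false

namespace Pool.Agent.KK.E.H94

open Pool.Agent.KK Pool.Agent.KK.E

section

variable {V : Type} [Fintype V] [DecidableEq V]

/-- from a counting bound to a density bound -/
theorem dens_le {ι : Type} [Fintype ι] (c : ι → Finset V) (P : (ι → V) → Prop) (γ : ℝ)
    (hγ : 0 ≤ γ) (hn : 0 < Fintype.card V)
    (hc : ∀ i, (Fintype.card V : ℝ) / 3 ≤ (c i).card)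
    (hcount : ({f : ι → V | (∀ i, f i ∈ c i) ∧ P f}.ncard : ℝ) ≤
      γ * (Fintype.card V : ℝ) ^ Fintype.card ι) :
    dens c P ≤ γ * 3 ^ Fintype.card ι := by
  have hn' : (0 : ℝ) < Fintype.card V := by exact_mod_cast hn
  have h1 : ((Fintype.card V : ℝ) / 3) ^ Fintype.card ι ≤ ∏ i, ((c i).card : ℝ) := by
    have h0 : ((Fintype.card V : ℝ) / 3) ^ Fintype.card ι =
        ∏ _i : ι, ((Fintype.card V : ℝ) / 3) := by
      rw [Finset.prod_const, Finset.card_univ]
    rw [h0]
    exact Finset.prod_le_prod (fun _ _ => by positivity) fun i _ => hc i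
  have h2 : (0 : ℝ) < ((Fintype.card V : ℝ) / 3) ^ Fintype.card ι := by positivity
  unfold dens
  rw [div_le_iff₀ (h2.trans_le h1)]
  calc ({f : ι → V | (∀ i, f i ∈ c i) ∧ P f}.ncard : ℝ)
      ≤ γ * (Fintype.card V : ℝ) ^ Fintype.card ι := hcount
    _ = γ * 3 ^ Fintype.card ι * ((Fintype.card V : ℝ) / 3) ^ Fintype.card ι := by
        rw [div_pow]
        field_simp
    _ ≤ γ * 3 ^ Fintype.card ι * ∏ i, ((c i).card : ℝ) :=
        mul_le_mul_of_nonneg_left h1 (by positivity)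

theorem mem_sd (X : Finset V) (b : Bool) (v : V) : v ∈ sd X b ↔ (v ∈ X ↔ b = true) := by
  unfold sd
  cases b <;> simp

/-- the words: from the canonical states to `Alm` -/
theorem alm_of (d s t₀ : ℕ) (X : Finset V) (w : List Bool) (hw : w.length = d + 1)
    (S : Set (List V)) (γ : ℝ) (hγ : 0 ≤ γ) (hn : 0 < Fintype.card V)
    (hX : ∀ b, (Fintype.card V : ℝ) / 3 ≤ (sd X b).card)
    (hwt : ∀ i (hi : i < w.length), w[i] = true ↔ (t₀ + i) % (d + 2) < s)
    (hcount : ({z : Sta V d | z ∈ can X d s ∧ List.ofFn z.1 ∉ S}.ncard : ℝ) ≤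
        γ * (Fintype.card V : ℝ) ^ (d + 1)) :
    Alm X w S (γ * 3 ^ (d + 2)) := by
  unfold Alm
  have h1 : dens (fun i : Fin w.length => sd X (w.get i)) (fun a => List.ofFn a ∉ S) ≤
      γ * 3 ^ Fintype.card (Fin w.length) := by
    apply dens_le _ _ γ hγ hn (fun i => hX _)
    have hcw : Fintype.card (Fin w.length) = d + 1 := by rw [Fintype.card_fin, hw]
    rw [hcw]
    refine le_trans ?_ hcount
    have h2 : {f : Fin w.length → V | (∀ i, f i ∈ sd X (w.get i)) ∧ List.ofFn f ∉ S}.ncard ≤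
        {z : Sta V d | z ∈ can X d s ∧ List.ofFn z.1 ∉ S}.ncard := by
      refine Set.ncard_le_ncard_of_injOn
        (fun f => ((fun i : Fin (d + 1) => f (Fin.cast hw.symm i)), (t₀ : ZMod (d + 2)))) ?_ ?_
        (Set.toFinite _)
      · rintro f ⟨hf1, hf2⟩
        refine ⟨?_, ?_⟩
        · intro i
          change f (Fin.cast hw.symm i) ∈ X ↔
            ((t₀ : ZMod (d + 2)) + ((i : ℕ) : ZMod (d + 2))).val < s
          rw [(mem_sd X _ _).1 (hf1 (Fin.cast hw.symm i)), ← Nat.cast_add, ZMod.val_natCast,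
            ← hwt i (by rw [hw]; exact i.2)]
          rfl
        · change List.ofFn (fun i : Fin (d + 1) => f (Fin.cast hw.symm i)) ∉ S
          rw [List.ofFn_congr hw f] at hf2
          exact hf2
      · intro f _ g _ hfg
        have h3 := (Prod.mk.inj hfg).1
        funext i
        have h4 := congrFun h3 (Fin.cast hw i)
        exact h4
    exact_mod_cast h2
  refine h1.trans ?_
  rw [Fintype.card_fin, hw]
  have : (3 : ℝ) ^ (d + 1) ≤ 3 ^ (d + 2) := pow_le_pow_right₀ (by norm_num) (by omega)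
  exact mul_le_mul_of_nonneg_left this hγ

theorem low_get (p q i : ℕ) (hi : i < (low p q).length) :
    (low p q)[i] = true ↔ (p + 2 + i) % (p + q + 2) < p := by
  have hl : (low p q).length = q + p + 1 := by simp [low]; omega
  rw [hl] at hi
  unfold low
  rcases lt_or_ge i q with h | h
  · have e1 : (p + 2 + i) % (p + q + 2) = p + 2 + i := Nat.mod_eq_of_lt (by omega)
    rw [e1]
    rw [List.getElem_append_left (by simp; omega), List.getElem_append_left (by simpa using h),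
      List.getElem_replicate]
    simp
    omega
  · rcases lt_or_ge i (q + p) with h' | h'
    · have e1 : (p + 2 + i) % (p + q + 2) = i - q := by
        rw [show p + 2 + i = (i - q) + (p + q + 2) by omega, Nat.add_mod_right]
        exact Nat.mod_eq_of_lt (by omega)
      rw [e1]
      rw [List.getElem_append_left (by simpa using h'),
        List.getElem_append_right (by simpa using h), List.getElem_replicate]
      simp
      omega
    · have e1 : (p + 2 + i) % (p + q + 2) = p := by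
        rw [show p + 2 + i = p + (p + q + 2) by omega, Nat.add_mod_right]
        exact Nat.mod_eq_of_lt (by omega)
      rw [e1]
      rw [List.getElem_append_right (by simpa using h')]
      simp

theorem high_get (p q i : ℕ) (hi : i < (high p q).length) :
    (high p q)[i] = true ↔ (p + 1 + i) % (p + q + 2) < p + 2 := by
  have hl : (high p q).length = q + p + 1 := by simp [high]
  rw [hl] at hi
  unfold high
  rcases i with _ | i
  · have e1 : (p + 1 + 0) % (p + q + 2) = p + 1 := Nat.mod_eq_of_lt (by omega)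
    rw [e1]
    simp
  · rw [List.getElem_cons_succ]
    rcases lt_or_ge i q with h | h
    · have e1 : (p + 1 + (i + 1)) % (p + q + 2) = p + 1 + (i + 1) :=
        Nat.mod_eq_of_lt (by omega)
      rw [e1]
      rw [List.getElem_append_left (by simpa using h), List.getElem_replicate]
      simp
      omega
    · have e1 : (p + 1 + (i + 1)) % (p + q + 2) = i - q := by
        rw [show p + 1 + (i + 1) = (i - q) + (p + q + 2) by omega, Nat.add_mod_right]
        exact Nat.mod_eq_of_lt (by omega)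
      rw [e1]
      rw [List.getElem_append_right (by simpa using h), List.getElem_replicate]
      simp
      omega

end

theorem e_crs : StmtECRS := by
  intro h25 d hd
  refine ⟨3 * (d + 2) - 2, fun C => ?_⟩
  choose e he n h using h25
  have hne : (Finset.Icc 1 (d + 1)).Nonempty := ⟨1, by simp⟩
  obtain ⟨m, hm⟩ : ∃ m : ℝ, m = (Finset.Icc 1 (d + 1)).inf' hne
    (fun j => e (j - 1) (d + 1 - j) C) := ⟨_, rfl⟩
  have hm0 : 0 < m := by
    rw [hm, Finset.lt_inf'_iff]
    intro j _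
    exact he _ _ _
  obtain ⟨γ, hγ⟩ : ∃ γ : ℝ, γ = min (m / 3 ^ (d + 2)) (1 / 6) := ⟨_, rfl⟩
  have hγ0 : 0 < γ := by
    rw [hγ]
    exact lt_min (by positivity) (by norm_num)
  have hγ1 : γ * 3 ^ (d + 2) ≤ m := by
    have : γ ≤ m / 3 ^ (d + 2) := hγ ▸ min_le_left _ _
    exact (le_div_iff₀ (by positivity)).1 this
  have hγ6 : γ ≤ 1 / 6 := hγ ▸ min_le_right _ _
  refine ⟨γ, max 1 ((Finset.Icc 1 (d + 1)).sup fun j => n (j - 1) (d + 1 - j) C), hγ0, ?_⟩
  intro V _ _ H X j S T hn hU hDi hj1 hj2 hX htd hS hT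
  have hjm : j ∈ Finset.Icc 1 (d + 1) := Finset.mem_Icc.2 ⟨hj1, hj2⟩
  have hn1 : 0 < Fintype.card V := lt_of_lt_of_le Nat.zero_lt_one ((le_max_left _ _).trans hn)
  have hnj : n (j - 1) (d + 1 - j) C ≤ Fintype.card V :=
    (Finset.le_sup (f := fun j => n (j - 1) (d + 1 - j) C) hjm).trans ((le_max_right _ _).trans hn)
  have hmj : m ≤ e (j - 1) (d + 1 - j) C := by
    rw [hm]
    exact Finset.inf'_le _ hjm
  obtain ⟨p, hp⟩ : ∃ p, p = j - 1 := ⟨_, rfl⟩
  obtain ⟨q, hq⟩ : ∃ q, q = d + 1 - j := ⟨_, rfl⟩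
  rw [← hp, ← hq] at hnj hmj
  have hj : j = p + 1 := by omega
  have hd' : d = p + q := by omega
  subst hd'
  subst hj
  have hn' : (0 : ℝ) < Fintype.card V := by exact_mod_cast hn1
  have hXl := (abs_le.1 hX).1
  have hXr := (abs_le.1 hX).2
  have hγn : γ * Fintype.card V ≤ Fintype.card V / 6 := by nlinarith
  have hXc : ((Xᶜ).card : ℝ) = Fintype.card V - X.card := by
    rw [Finset.card_compl, Nat.cast_sub (Finset.card_le_univ X)]
  have hsd : ∀ b, (Fintype.card V : ℝ) / 3 ≤ (sd X b).card := by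
    intro b
    cases b
    · change (Fintype.card V : ℝ) / 3 ≤ ((Xᶜ).card : ℝ)
      rw [hXc]
      linarith
    · change (Fintype.card V : ℝ) / 3 ≤ (X.card : ℝ)
      linarith
  have h3 : (1 : ℝ) ≤ 3 ^ (p + q + 2) := one_le_pow₀ (by norm_num)
  have hγm : γ ≤ e p q C := by
    have : γ ≤ γ * 3 ^ (p + q + 2) := le_mul_of_one_le_right hγ0.le h3
    linarith
  -- the three hypotheses of E25
  have hD : D H X ∅ (p + 1) (q + 1) ≤ e p q C := by
    refine le_trans ?_ hmj
    refine le_trans ?_ hγ1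
    unfold D
    have hcard : Fintype.card (Fin (p + 1) ⊕ Fin (q + 1)) = p + q + 2 := by
      rw [Fintype.card_sum, Fintype.card_fin, Fintype.card_fin]
      omega
    have h4 := dens_le (lets X (p + 1) (q + 1))
      (fun f => ∅ ∪ Finset.univ.image f ∈ H) γ hγ0.le hn1 (by
        intro i
        rcases i with i | i
        · exact hsd true
        · exact hsd false) (by
        rw [hcard]
        refine le_trans ?_ htd
        have e0 : Fin (p + q + 2) ≃ Fin (p + 1) ⊕ Fin (q + 1) :=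
          (finCongr (by omega)).trans finSumFinEquiv.symm
        have h5 : {f : Fin (p + 1) ⊕ Fin (q + 1) → V |
            (∀ i, f i ∈ lets X (p + 1) (q + 1) i) ∧ ∅ ∪ Finset.univ.image f ∈ H}.ncard ≤
            td H (p + q + 2) X (p + 1) := by
          unfold td
          refine Set.ncard_le_ncard_of_injOn (fun f => f ∘ e0) ?_ ?_ (Set.toFinite _)
          · rintro f ⟨hf1, hf2⟩
            refine ⟨?_, ?_⟩
            · have e1 : Finset.univ.image (f ∘ e0) = Finset.univ.image f := by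
                rw [← Finset.image_image]
                congr 1
                exact Finset.image_univ_equiv e0
              rw [e1]
              rwa [Finset.empty_union] at hf2
            · unfold xc
              have e2 : (Finset.univ.filter fun i => (f ∘ e0) i ∈ X) =
                  (Finset.univ.filter fun i => f i ∈ X).map e0.symm.toEmbedding := by
                ext i
                simp only [Finset.mem_filter, Finset.mem_univ, true_and, Finset.mem_map,
                  Equiv.coe_toEmbedding, Function.comp_apply]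
                constructor
                · intro hi
                  exact ⟨e0 i, hi, e0.symm_apply_apply i⟩
                · rintro ⟨a, ha, rfl⟩
                  rwa [e0.apply_symm_apply]
              rw [e2, Finset.card_map]
              have e3 : (Finset.univ.filter fun i => f i ∈ X) =
                  (Finset.univ : Finset (Fin (p + 1))).map Function.Embedding.inl := by
                ext i
                simp only [Finset.mem_filter, Finset.mem_univ, true_and, Finset.mem_map,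
                  Function.Embedding.inl_apply]
                rcases i with i | i
                · have h6 : f (Sum.inl i) ∈ X := hf1 (Sum.inl i)
                  exact ⟨fun _ => ⟨i, rfl⟩, fun _ => h6⟩
                · have h6 : f (Sum.inr i) ∈ Xᶜ := hf1 (Sum.inr i)
                  rw [Finset.mem_compl] at h6
                  constructor
                  · intro h7
                    exact absurd h7 h6
                  · rintro ⟨a, ha⟩
                    exact absurd ha (by simp)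
              rw [e3, Finset.card_map, Finset.card_univ, Fintype.card_fin]
          · intro f _ g _ hfg
            exact e0.surjective.injective_comp_right hfg
        exact_mod_cast h5)
    rw [hcard] at h4
    exact h4
  have hlow : Alm X (low p q) S (e p q C) := by
    have h4 := alm_of (p + q) p (p + 2) X (low p q) (by simp [low]; omega) S γ hγ0.le hn1 hsd
      (fun i hi => low_get p q i hi) (by
        have e1 : p + 1 - 1 = p := by omega
        rw [e1] at hS
        exact hS)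
    unfold Alm at h4 ⊢
    linarith
  have hhigh : Alm X (high p q) T (e p q C) := by
    have h4 := alm_of (p + q) (p + 2) (p + 1) X (high p q) (by simp [high]; omega) T γ hγ0.le
      hn1 hsd (fun i hi => high_get p q i hi) hT
    unfold Alm at h4 ⊢
    linarith
  have hres := h p q C V H X hnj hU hDi
    (hX.trans (mul_le_mul_of_nonneg_right hγm hn'.le)) hD S T hlow hhigh
  have hcr : ∀ (M F : Finset V) (l : List V), Cr H (p + q + 2) S T M F l →
      Seg H (p + q + 2) S T l ∧ l.length ≤ 3 * (p + q + 2) - 2 ∧ ∀ v ∈ l, v ∉ F := by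
    rintro M F l ⟨h1, h2, h3, h4, -, h5⟩
    refine ⟨⟨h1, by omega, h3, ?_⟩, h2.le, ?_⟩
    · have e1 : l.length - (p + q + 2 - 1) = 2 * (p + q + 2) - 1 := by omega
      rw [e1]
      exact h4
    · intro v hv hF
      exact Finset.disjoint_left.1 h5 (List.mem_toFinset.2 hv) hF
  rcases hres with ⟨Z, hZ, hZ2⟩ | h1
  · right
    refine ⟨Z, hZ.ge, fun z hz W hW hzW => ?_⟩
    obtain ⟨l, hl⟩ := hZ2 z hz W hW hzW
    exact ⟨l, hcr _ _ _ hl⟩
  · left
    intro W hW
    obtain ⟨l, hl⟩ := h1 W hW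
    exact ⟨l, hcr _ _ _ hl⟩

end Pool.Agent.KK.E.H94
end

/-! ### Helper24_KK.GAD -/
section
/-!
# KK, row G_GAD (StmtG16): the gap theorem (helper24)
-/

set_option autoImplicit false

namespace Pool.Agent.KK.H24

open Pool.Agent.KK Pool.Agent.KK.E

section Mono

variable {V : Type} [Fintype V] [DecidableEq V]

theorem oks_mono {H : Finset (Finset V)} {X : Finset V} {ε ε' : ℝ} (h : ε ≤ ε')
    {s : List (Slot V)} (hs : OKs H X ε s) : OKs H X ε' s :=
  le_trans hs (mul_le_mul_of_nonneg_right h (by positivity))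

theorem okl_mono {H : Finset (Finset V)} {X : Finset V} {k : ℕ} {ε ε' : ℝ} (h : ε ≤ ε')
    {L : List (Slot V)} (hs : OKl H X k ε L) : OKl H X k ε' L :=
  fun s h1 h2 => oks_mono h (hs s h1 h2)

theorem sup_mono {H : Finset (Finset V)} {X : Finset V} {k : ℕ} {ε ε' : ℝ} (h : ε ≤ ε')
    {K : ℕ} {uL c uR : List Bool} (hs : Sup H X k ε K uL c uR) : Sup H X k ε' K uL c uR := by
  intro Z hZ
  obtain ⟨l, h1, h2, h3, h4⟩ := hs Z hZ
  exact ⟨l, h1, h2, h3, okl_mono h h4⟩

theorem supT_mono {H : Finset (Finset V)} {X : Finset V} {k : ℕ} {ε ε' K : ℝ} (h : ε ≤ ε')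
    {z : V} {uL c uR : List Bool} (hs : SupT H X k ε K z uL c uR) :
    SupT H X k ε' K z uL c uR := by
  intro Z hZ hz
  obtain ⟨l, h1, h2, h3, h4, h5⟩ := hs Z hZ hz
  exact ⟨l, h1, h2, h3, h4, okl_mono h h5⟩

end Mono

section Kinds

variable {V : Type} [Fintype V] [DecidableEq V]

/-- Change of the partition for the three kinds. -/
theorem kinds_change {H : Finset (Finset V)} {X X' : Finset V} {k : ℕ} {ε ε' : ℝ} {K K₀ j : ℕ}
    (hS : ∀ uL c uR : List Bool, Sup H X k ε (K + K₀) uL c uR → Sup H X' k ε' K uL c uR)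
    (h : KindP V H X k ε (K + K₀) j ∨ KindR V H X k ε (K + K₀) j ∨ KindL V H X k ε (K + K₀) j) :
    KindP V H X' k ε' K j ∨ KindR V H X' k ε' K j ∨ KindL V H X' k ε' K j := by
  rcases h with h | ⟨h1, h2, a, c, uR, h3, h4, h5, h6, h7⟩ | ⟨h1, h2, a, uL, c, h3, h4, h5, h6, h7⟩
  · left
    intro m₁ m₂ h1 h2
    exact hS _ _ _ (h m₁ m₂ h1 h2)
  · right
    left
    exact ⟨h1, fun m e1 e2 => hS _ _ _ (h2 m e1 e2), a, c, uR, h3, h4, h5, h6, hS _ _ _ h7⟩
  · right
    right
    exact ⟨h1, fun m e1 e2 => hS _ _ _ (h2 m e1 e2), a, uL, c, h3, h4, h5, h6, hS _ _ _ h7⟩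

end Kinds

section Density

variable {V : Type} [Fintype V] [DecidableEq V]

theorem card_lets (X : Finset V) (a b : ℕ) (f : Fin a ⊕ Fin b → V)
    (hf : ∀ i, f i ∈ lets X a b i) : (Finset.univ.filter fun i => f i ∈ X).card = a := by
  have h1 : (Finset.univ.filter fun i => f i ∈ X) =
      (Finset.univ : Finset (Fin a)).map Function.Embedding.inl := by
    ext i
    rcases i with i | i
    · have := hf (Sum.inl i)
      simp only [lets, Sum.elim_inl] at this
      simp [this]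
    · have := hf (Sum.inr i)
      simp only [lets, Sum.elim_inr, Finset.mem_compl] at this
      simp [this]
  rw [h1, Finset.card_map, Finset.card_univ, Fintype.card_fin]

theorem density_le (H : Finset (Finset V)) (X : Finset V) (p q : ℕ) (γ : ℝ) (hγ : 0 ≤ γ)
    (hn : 0 < Fintype.card V) (hX : ∀ b, (Fintype.card V : ℝ) / 3 ≤ (sd X b).card)
    (hcount : ({f : Fin (p + q + 2) → V | Finset.univ.image f ∈ H ∧
        (Finset.univ.filter fun i => f i ∈ X).card = p + 1}.ncard : ℝ) ≤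
          γ * (Fintype.card V : ℝ) ^ (p + q + 2)) :
    D H X ∅ (p + 1) (q + 1) ≤ γ * 3 ^ (p + q + 2) := by
  have hcard : Fintype.card (Fin (p + 1) ⊕ Fin (q + 1)) = p + q + 2 := by
    rw [Fintype.card_sum, Fintype.card_fin, Fintype.card_fin]
    omega
  obtain ⟨e⟩ : Nonempty (Fin (p + q + 2) ≃ Fin (p + 1) ⊕ Fin (q + 1)) :=
    ⟨Fintype.equivOfCardEq (by rw [hcard, Fintype.card_fin])⟩
  unfold D
  have h1 := Pool.Agent.KK.E.H94.dens_le (lets X (p + 1) (q + 1))
    (fun f => ∅ ∪ Finset.univ.image f ∈ H) γ hγ hn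
    (by
      intro i
      rcases i with i | i
      · exact hX true
      · exact hX false)
    (by
      rw [hcard]
      refine le_trans ?_ hcount
      have h2 : {f : Fin (p + 1) ⊕ Fin (q + 1) → V | (∀ i, f i ∈ lets X (p + 1) (q + 1) i) ∧
          ∅ ∪ Finset.univ.image f ∈ H}.ncard ≤
          {f : Fin (p + q + 2) → V | Finset.univ.image f ∈ H ∧
            (Finset.univ.filter fun i => f i ∈ X).card = p + 1}.ncard := by
        refine Set.ncard_le_ncard_of_injOn (fun f => f ∘ e) ?_ ?_ (Set.toFinite _)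
        · rintro f ⟨hf1, hf2⟩
          refine ⟨?_, ?_⟩
          · have h3 : Finset.univ.image (f ∘ e) = Finset.univ.image f := by
              ext v
              simp only [Finset.mem_image, Finset.mem_univ, true_and, Function.comp_apply]
              exact (e.surjective.exists (p := fun y => f y = v)).symm
            change Finset.univ.image (f ∘ e) ∈ H
            rw [h3]
            simpa using hf2
          · change (Finset.univ.filter fun i => f (e i) ∈ X).card = p + 1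
            refine Eq.trans ?_ (card_lets X (p + 1) (q + 1) f hf1)
            apply Finset.card_bijective e e.bijective
            intro i
            simp
        · intro f _ g _ hfg
          funext i
          have := congrFun hfg (e.symm i)
          simpa using this
      exact_mod_cast h2)
  rwa [hcard] at h1

end Density

/-- The set of exceptional vertices consists of connectors. -/
theorem mix_of_non (e07 : StmtE07) (e10 : StmtE10) (V : Type) [Fintype V] [DecidableEq V]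
    (H : Finset (Finset V)) (X : Finset V) (p q B : ℕ) (δ h : ℝ) (η θ : ℕ → ℝ)
    (hX : X.Nonempty) (hX' : (Xᶜ).Nonempty) (hpq : 1 ≤ p + q)
    (hA : Amb H X p q B δ) (hC : Cst (p + q + 2) B η θ h δ) (hNF : NF H X p q) (v : V)
    (hv : Non H X p q η {v}) : θ 1 < Mix H X {v} p q := by
  by_contra hcon
  push Not at hcon
  have hk2 : (2 : ℝ) ≤ ((p + q + 2 : ℕ) : ℝ) := by
    have : 2 ≤ p + q + 2 := by omega
    exact_mod_cast this
  have hk1 : 1 < p + q + 2 := by omega
  have hη1 := hC.pos 1 (by omega)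
  have hη1' := hC.half 1 (by omega)
  have h2k : (1 : ℝ) ≤ 2 ^ (p + q + 2) := one_le_pow₀ (by norm_num)
  have h4k : (1 : ℝ) ≤ 4 ^ (p + q + 2) := one_le_pow₀ (by norm_num)
  have hh : h ≤ 1 / 16 := by
    refine le_trans hC.hsmall ?_
    apply one_div_le_one_div_of_le (by norm_num)
    nlinarith
  have hh0 := hC.hpos
  -- the bound for `δ`
  have hδ : δ ≤ η 1 * h / (16 * ((p + q + 2 : ℕ) : ℝ)) := by
    have h1 := hC.dsmall
    have h2 := hC.step 0 (by omega)
    have hη0 := hC.pos 0 (by omega)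
    have hB : (0 : ℝ) ≤ (B : ℝ) := Nat.cast_nonneg B
    have hd := hC.dpos
    rw [le_div_iff₀ (by positivity)]
    have h3 : η 0 ≤ η 1 := by
      have h5 : (1 : ℝ) ≤ 8 * ((p + q + 2 : ℕ) : ℝ) * 4 ^ (p + q + 2) * ((B : ℝ) + 1) := by
        have a1 : (1 : ℝ) ≤ 8 * ((p + q + 2 : ℕ) : ℝ) := by linarith
        have a2 := one_le_mul_of_one_le_of_one_le a1 h4k
        exact one_le_mul_of_one_le_of_one_le a2 (by linarith)
      calc η 0 = 1 * η 0 := (one_mul _).symm
        _ ≤ 8 * ((p + q + 2 : ℕ) : ℝ) * 4 ^ (p + q + 2) * ((B : ℝ) + 1) * η 0 :=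
          mul_le_mul_of_nonneg_right h5 hη0.le
        _ ≤ η (0 + 1) := h2
        _ = η 1 := rfl
    have h4 : η 0 * h ≤ η 1 * h := mul_le_mul_of_nonneg_right h3 hh0.le
    refine le_trans ?_ (le_trans h1 h4)
    have a3 : δ * (16 * ((p + q + 2 : ℕ) : ℝ)) ≤ 100 * ((p + q + 2 : ℕ) : ℝ) * δ := by
      have : 0 ≤ ((p + q + 2 : ℕ) : ℝ) * δ := by positivity
      nlinarith
    have a4 : (1 : ℝ) ≤ 4 ^ (p + q + 2) * ((B : ℝ) + 1) :=
      one_le_mul_of_one_le_of_one_le h4k (by linarith)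
    calc δ * (16 * ((p + q + 2 : ℕ) : ℝ)) ≤ 100 * ((p + q + 2 : ℕ) : ℝ) * δ := a3
      _ = 100 * ((p + q + 2 : ℕ) : ℝ) * δ * 1 := (mul_one _).symm
      _ ≤ 100 * ((p + q + 2 : ℕ) : ℝ) * δ * (4 ^ (p + q + 2) * ((B : ℝ) + 1)) :=
        mul_le_mul_of_nonneg_left a4 (by positivity)
      _ = 100 * ((p + q + 2 : ℕ) : ℝ) * 4 ^ (p + q + 2) * ((B : ℝ) + 1) * δ := by ring
  obtain ⟨-, -, hv3⟩ := hv
  rw [Finset.card_singleton] at hv3
  by_cases hvX : v ∈ X
  · have e1 : ({v} ∩ X : Finset V) = {v} := Finset.inter_eq_left.2 (by simpa using hvX)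
    have e2 : ({v} \ X : Finset V) = ∅ := by
      rw [Finset.sdiff_eq_empty_iff_subset]
      simpa using hvX
    rw [e1, e2, Finset.card_singleton, Finset.card_empty, Nat.add_sub_cancel, Nat.sub_zero] at hv3
    have h1 := e10 V H X {v} p q B p q δ (η 1) (θ 1) h hA
      (by rw [Finset.card_singleton]; omega) hη1 (by linarith) hh0 (by linarith)
      (hC.tsmall 1 le_rfl hk1) hδ hv3.le hcon
    have h2 := hNF.1 v hvX
    linarith
  · obtain ⟨s1, s2, -, -, s5⟩ := e07 V H X hX hX'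
    have e1 : ({v} ∩ X : Finset V) = ∅ := by
      ext w
      simp only [Finset.mem_inter, Finset.mem_singleton, Finset.notMem_empty, iff_false, not_and]
      rintro rfl
      exact hvX
    have e2 : ({v} \ X : Finset V) = {v} := by
      ext w
      simp only [Finset.mem_sdiff, Finset.mem_singleton, and_iff_left_iff_imp]
      rintro rfl
      exact hvX
    rw [e1, e2, Finset.card_singleton, Finset.card_empty, Nat.add_sub_cancel, Nat.sub_zero] at hv3
    have hqp : q + p + 2 = p + q + 2 := by omega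
    have h1 := e10 V H Xᶜ {v} q p B q p δ (η 1) (θ 1) h (s5 p q B δ hA)
      (by rw [Finset.card_singleton]; omega) hη1 (by linarith) hh0 (by linarith)
      (by rw [hqp]; exact hC.tsmall 1 le_rfl hk1) (by rw [hqp]; exact hδ)
      (by rw [s1 {v} (p + 1) q]; exact hv3.le) (by rw [s2 {v} p q]; exact hcon)
    rw [s1 {v} p (q + 1)] at h1
    have h2 := hNF.2 v hvX
    linarith

/-- The link of every vertex in the letters of a pass at the level `p`. -/
theorem link_lower (e17 : StmtE17) (V : Type) [Fintype V] [DecidableEq V]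
    (H : Finset (Finset V)) (X C : Finset V) (p q B : ℕ) (δ : ℝ) (η : ℕ → ℝ)
    (hA : Amb H X p q B δ) (hNF : NF H X p q) (hη : η 1 ≤ 1 / 4)
    (hC : ∀ v, v ∈ C ↔ Non H X p q η {v}) (v : V) (m : List Bool)
    (hm : m.length = p + q + 1) (hw : wt (decide (v ∈ X \ C) :: m) = p) :
    η 1 ≤ D H X {v} (m.count true) (m.count false) := by
  have hlen : m.count true + m.count false = p + q + 1 := by
    rw [← hm]
    exact List.count_true_add_count_false m
  unfold wt at hw
  have hsm := hA.small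
  by_cases hv : v ∈ X \ C
  · have hvX : v ∈ X := (Finset.mem_sdiff.1 hv).1
    have hvC : v ∉ C := (Finset.mem_sdiff.1 hv).2
    rw [decide_eq_true hv, List.count_cons_self] at hw
    have hn : ¬ Non H X p q η {v} := fun hc => hvC ((hC v).2 hc)
    have e1 : ({v} ∩ X : Finset V) = {v} := Finset.inter_eq_left.2 (by simpa using hvX)
    have e2 : ({v} \ X : Finset V) = ∅ := by
      rw [Finset.sdiff_eq_empty_iff_subset]
      simpa using hvX
    have h1 := (e17 V H X {v} p q B δ η hA hn (by rw [e1, Finset.card_singleton]; omega)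
      (by rw [e2, Finset.card_empty]; omega)).2 (by rw [e1, Finset.card_singleton]; omega)
    rw [e1, e2, Finset.card_singleton, Finset.card_empty, Nat.sub_zero] at h1
    have a1 : m.count true = p - 1 := by omega
    have a2 : m.count false = q + 2 := by omega
    rw [a1, a2]
    linarith
  · rw [decide_eq_false hv, List.count_cons_of_ne (by decide)] at hw
    have a2 : m.count false = q + 1 := by omega
    rw [hw, a2]
    by_cases hvX : v ∈ X
    · have hvC : v ∈ C := by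
        by_contra hc
        exact hv (Finset.mem_sdiff.2 ⟨hvX, hc⟩)
      have h1 := ((hC v).1 hvC).2.2
      have e1 : ({v} ∩ X : Finset V) = {v} := Finset.inter_eq_left.2 (by simpa using hvX)
      have e2 : ({v} \ X : Finset V) = ∅ := by
        rw [Finset.sdiff_eq_empty_iff_subset]
        simpa using hvX
      rw [e1, e2, Finset.card_singleton, Finset.card_empty, Nat.add_sub_cancel,
        Nat.sub_zero] at h1
      exact h1.le
    · have h1 := hNF.2 v hvX
      linarith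

/-- Numerical consequences of the constants. -/
theorem numbers (k B : ℕ) (η θ : ℕ → ℝ) (h δ ε : ℝ) (hk : 3 ≤ k)
    (hC : CstG k B η θ h δ ε) :
    0 < η 0 ∧ 0 < η 1 ∧ η 1 ≤ 1 / 4 ∧ 0 < θ 1 ∧ θ 1 ≤ η 1 ∧
      32 * (k : ℝ) * η 0 ≤ ε * (η 1) ^ (2 ^ k) ∧ 100 * (k : ℝ) * δ ≤ ε * (η 1) ^ (2 ^ k) := by
  have hk3 : (3 : ℝ) ≤ (k : ℝ) := by exact_mod_cast hk
  have c := hC.cst
  have h0 := c.pos 0 (by omega)
  have h1 := c.pos 1 (by omega)
  have h2 := c.half 2 (by omega)
  have hs := c.step 1 (by omega)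
  have hB : (0 : ℝ) ≤ (B : ℝ) := Nat.cast_nonneg B
  have h4k : (1 : ℝ) ≤ 4 ^ k := one_le_pow₀ (by norm_num)
  have h2k : (1 : ℝ) ≤ 2 ^ k := one_le_pow₀ (by norm_num)
  have hq : η 1 ≤ 1 / 4 := by
    have h5 : (2 : ℝ) ≤ 8 * (k : ℝ) * 4 ^ k * ((B : ℝ) + 1) := by
      have a1 : (2 : ℝ) ≤ 8 * (k : ℝ) := by linarith
      calc (2 : ℝ) ≤ 8 * (k : ℝ) := a1
        _ = 8 * (k : ℝ) * 1 := (mul_one _).symm
        _ ≤ 8 * (k : ℝ) * (4 ^ k * ((B : ℝ) + 1)) :=
          mul_le_mul_of_nonneg_left (one_le_mul_of_one_le_of_one_le h4k (by linarith))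
            (by positivity)
        _ = 8 * (k : ℝ) * 4 ^ k * ((B : ℝ) + 1) := by ring
    have h6 : 2 * η 1 ≤ 8 * (k : ℝ) * 4 ^ k * ((B : ℝ) + 1) * η 1 :=
      mul_le_mul_of_nonneg_right h5 h1.le
    have h7 : η (1 + 1) = η 2 := rfl
    rw [h7] at hs
    linarith
  have ht := c.tpos 1 le_rfl (by omega)
  have hh : h ≤ 1 := by
    refine le_trans c.hsmall ?_
    rw [div_le_one (by positivity)]
    nlinarith
  have hts : θ 1 ≤ η 1 := by
    have h5 := c.tsmall 1 le_rfl (by omega)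
    have h6 : η 1 * h / (16 * (k : ℝ)) ≤ η 1 := by
      rw [div_le_iff₀ (by positivity)]
      have : η 1 * h ≤ η 1 := mul_le_of_le_one_right h1.le hh
      nlinarith
    have h7 : 0 ≤ η 1 * h / (16 * (k : ℝ)) := by
      have := c.hpos
      positivity
    have h8 : (η 1 * h / (16 * (k : ℝ))) ^ 3 ≤ η 1 * h / (16 * (k : ℝ)) :=
      pow_le_of_le_one h7 (by linarith) (by norm_num)
    linarith
  have hpow : (θ 1) ^ (2 ^ k) ≤ (η 1) ^ (2 ^ k) := pow_le_pow_left₀ ht.le hts _
  have hG := hC.thetaG 1 le_rfl (by omega)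
  have hG' : 32 * (k : ℝ) * η 0 ≤ ε * (η 1) ^ (2 ^ k) := by
    refine le_trans hG ?_
    exact mul_le_mul_of_nonneg_left hpow hC.epos.le
  refine ⟨h0, h1, hq, ht, hts, hG', ?_⟩
  refine le_trans hC.delG ?_
  have h9 : ε * η 0 ≤ η 0 := mul_le_of_le_one_left h0.le hC.eone
  refine le_trans h9 (le_trans ?_ hG')
  have h10 : 1 ≤ 32 * (k : ℝ) := by linarith
  exact le_mul_of_one_le_left h0.le h10

/-- **G16**. -/
theorem g16 : StmtG16 := by
  intro _ _ _ e07 e10 e15 e17 g08 g10 g11 g12 g13 g15 g17 k hk ε K hε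
  -- constants
  obtain ⟨ε₁, hε₁⟩ : ∃ x : ℝ, x = min ε 1 / 4 := ⟨_, rfl⟩
  have hm0 : 0 < min ε 1 := lt_min hε one_pos
  have hm1 : min ε 1 ≤ ε := min_le_left _ _
  have hm2 : min ε 1 ≤ 1 := min_le_right _ _
  have hε₁0 : 0 < ε₁ := by rw [hε₁]; linarith
  have hε₁1 : ε₁ ≤ 1 := by rw [hε₁]; linarith
  have hε₁2 : 2 * ε₁ ≤ ε := by rw [hε₁]; linarith
  obtain ⟨B, hB⟩ : ∃ B : ℕ, B = (k + 3) * (K + k + 1) := ⟨_, rfl⟩
  obtain ⟨η, θ, h, δ₀, hδ₀, hδ₀', hcst⟩ := g13 k B ε₁ (by omega) hε₁0 hε₁1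
  have hk3 : (3 : ℝ) ≤ (k : ℝ) := by exact_mod_cast hk
  obtain ⟨n0, n1, n2, n3, n4, n5, -⟩ := numbers k B η θ h δ₀ ε₁ hk (hcst δ₀ hδ₀ le_rfl)
  obtain ⟨κ, hκ⟩ : ∃ x : ℝ, x = (θ 1) ^ (2 ^ k) / (200 * (k : ℝ)) := ⟨_, rfl⟩
  have hθ0 : 0 < (θ 1) ^ (2 ^ k) := pow_pos n3 _
  have hκ0 : 0 < κ := by rw [hκ]; positivity
  have hκ2 : 2 * κ = (θ 1) ^ (2 ^ k) / (100 * (k : ℝ)) := by
    rw [hκ]
    field_simp
    norm_num
  refine ⟨κ, hκ0, fun ρ hρ => ?_⟩
  obtain ⟨μ, hμ⟩ : ∃ x : ℝ, x = min (min (ε₁ / (k : ℝ)) κ) (ρ / 2) := ⟨_, rfl⟩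
  have hμ0 : 0 < μ := by
    rw [hμ]
    exact lt_min (lt_min (by positivity) hκ0) (by linarith)
  have hμ1 : μ ≤ ε₁ / (k : ℝ) := by
    rw [hμ]
    exact (min_le_left _ _).trans (min_le_left _ _)
  have hμ2 : μ ≤ κ := by
    rw [hμ]
    exact (min_le_left _ _).trans (min_le_right _ _)
  have hμ3 : μ ≤ ρ / 2 := by
    rw [hμ]
    exact min_le_right _ _
  obtain ⟨δ, hδ⟩ : ∃ x : ℝ, x = min (δ₀ / 8) (η 1 * μ / 4) := ⟨_, rfl⟩
  have hδ0 : 0 < δ := by
    rw [hδ]
    exact lt_min (by linarith) (by positivity)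
  have hδ1 : δ ≤ δ₀ / 8 := by
    rw [hδ]
    exact min_le_left _ _
  have hδ2 : δ ≤ η 1 * μ / 4 := by
    rw [hδ]
    exact min_le_right _ _
  have h4δ : 4 * δ ≤ δ₀ := by linarith
  have hC4 := hcst (4 * δ) (by linarith) h4δ
  obtain ⟨-, -, -, -, -, -, n6⟩ := numbers k B η θ h (4 * δ) ε₁ hk hC4
  obtain ⟨ε', hε'⟩ : ∃ x : ℝ, x = δ / (100 * (k : ℝ)) := ⟨_, rfl⟩
  have hε'0 : 0 < ε' := by rw [hε']; positivity
  have hε'1 : 100 * (k : ℝ) * ε' = δ := by
    rw [hε']
    field_simp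
  have hε'2 : ε' ≤ δ := by
    have : ε' ≤ 100 * (k : ℝ) * ε' := le_mul_of_one_le_left hε'0.le (by linarith)
    linarith
  obtain ⟨γ, hγ⟩ : ∃ x : ℝ, x = min (ε' / 3 ^ k) (δ / 4) := ⟨_, rfl⟩
  have hγ0 : 0 < γ := by
    rw [hγ]
    exact lt_min (by positivity) (by linarith)
  have hγ1 : γ * 3 ^ k ≤ ε' := by
    have : γ ≤ ε' / 3 ^ k := by
      rw [hγ]
      exact min_le_left _ _
    exact (le_div_iff₀ (by positivity)).1 this
  have hγ2 : γ ≤ δ / 4 := by
    rw [hγ]
    exact min_le_right _ _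
  refine ⟨γ, hγ0, ⌈100 * (k : ℝ) ^ 2 * ((B + k : ℕ) : ℝ) / δ⌉₊ + ⌈(K : ℝ) / κ⌉₊ + 1, ?_⟩
  intro V _ _ H X₀ j hn hU hDi hj1 hj2 hX₀ hcount
  obtain ⟨p, hp⟩ : ∃ p, p = j - 1 := ⟨_, rfl⟩
  obtain ⟨q, hq⟩ : ∃ q, q = k - 1 - j := ⟨_, rfl⟩
  have hjp : j = p + 1 := by omega
  have hkp : k = p + q + 2 := by omega
  subst hjp
  subst hkp
  clear hp hq
  have hpq : 1 ≤ p + q := by omega
  obtain ⟨n, hnn⟩ : ∃ x : ℝ, x = (Fintype.card V : ℝ) := ⟨_, rfl⟩
  have hcV : 0 < Fintype.card V := by omega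
  have hn0 : 0 < n := by
    rw [hnn]
    exact_mod_cast hcV
  have hbig : 100 * ((p + q + 2 : ℕ) : ℝ) ^ 2 * ((B + (p + q + 2) : ℕ) : ℝ) ≤ δ * n := by
    have h1 : 100 * ((p + q + 2 : ℕ) : ℝ) ^ 2 * ((B + (p + q + 2) : ℕ) : ℝ) / δ ≤ n := by
      refine le_trans (Nat.le_ceil _) ?_
      rw [hnn]
      exact_mod_cast (show ⌈100 * ((p + q + 2 : ℕ) : ℝ) ^ 2 *
        ((B + (p + q + 2) : ℕ) : ℝ) / δ⌉₊ ≤ Fintype.card V by omega)
    rw [div_le_iff₀ hδ0] at h1
    linarith
  have hKn : (K : ℝ) ≤ κ * n := by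
    have h1 : (K : ℝ) / κ ≤ n := by
      refine le_trans (Nat.le_ceil _) ?_
      rw [hnn]
      exact_mod_cast (show ⌈(K : ℝ) / κ⌉₊ ≤ Fintype.card V by omega)
    rw [div_le_iff₀ hκ0] at h1
    linarith
  rw [← hnn] at hX₀
  have hXabs := abs_le.1 hX₀
  have hXc : ((X₀ᶜ).card : ℝ) = n - X₀.card := by
    rw [Finset.card_compl, Nat.cast_sub (Finset.card_le_univ X₀), hnn]
  have hγn : γ * n ≤ δ / 4 * n := mul_le_mul_of_nonneg_right hγ2 hn0.le
  have hδn : 0 < δ * n := by positivity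
  have hδs : δ ≤ 1 / 80 := by linarith
  have hA₀ : Amb H X₀ p q B δ := by
    refine ⟨hU, hDi, hδ0, by linarith, ?_, ?_, ?_, ?_, ?_⟩
    · rw [← hnn]; nlinarith [hXabs.1]
    · rw [← hnn]; nlinarith [hXabs.2]
    · rw [hXc, ← hnn]; nlinarith [hXabs.2]
    · rw [hXc, ← hnn]; nlinarith [hXabs.1]
    · rw [← hnn]
      have : B + (p + q + 2) = B + p + q + 2 := by omega
      rw [← this]
      exact hbig
  have hD₀ : D H X₀ ∅ (p + 1) (q + 1) ≤ ε' := by
    refine le_trans (density_le H X₀ p q γ hγ0.le hcV ?_ hcount) hγ1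
    have hδn' : δ * n ≤ n / 80 := by nlinarith
    intro b
    rw [← hnn]
    cases b
    · change n / 3 ≤ ((X₀ᶜ).card : ℝ)
      rw [hXc]
      linarith [hXabs.2]
    · change n / 3 ≤ (X₀.card : ℝ)
      linarith [hXabs.1]
  obtain ⟨X₁, hX₁, hNF, hA₁, hD₁⟩ := g12 V H X₀ p q B δ ε' hA₀ hε'0.le hε'1.le (by linarith) hD₀
  rw [← hnn] at hX₁
  -- nonempty sides
  have hX₁ne : X₁.Nonempty := by
    rw [← Finset.card_pos]
    have h1 := hA₁.lo
    rw [← hnn] at h1
    have : (0 : ℝ) < (X₁.card : ℝ) := by nlinarith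
    exact_mod_cast this
  have hX₁ne' : (X₁ᶜ).Nonempty := by
    rw [← Finset.card_pos]
    have h1 := hA₁.lo'
    rw [← hnn] at h1
    have : (0 : ℝ) < ((X₁ᶜ).card : ℝ) := by nlinarith
    exact_mod_cast this
  have hη100 : 100 * (4 * δ) ≤ η 0 :=
    Pool.Agent.KK.E.H84.eta_bound (p + q + 2) B η θ h (4 * δ) (by omega) hC4.cst (by linarith)
  have hDη : D H X₁ ∅ (p + 1) (q + 1) ≤ η 0 := by linarith
  have hnon : ¬ Non H X₁ p q η ∅ := by
    rintro ⟨-, -, h3⟩
    rw [Finset.empty_inter, Finset.empty_sdiff, Finset.card_empty, Nat.sub_zero,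
      Nat.sub_zero] at h3
    linarith
  obtain ⟨C, hCm, hCc⟩ := g11 V H X₁ p q η hX₁ne hX₁ne' n1
  rw [← hnn] at hCc
  have hCμ : (C.card : ℝ) ≤ μ * n := by
    have h1 : D H X₁ ∅ (p + 1) (q + 1) * n ≤ (η 1 * μ) * n := by
      apply mul_le_mul_of_nonneg_right _ hn0.le
      have : 0 < η 1 * μ := by positivity
      linarith
    have h2 : (C.card : ℝ) * η 1 ≤ (μ * n) * η 1 := by
      calc (C.card : ℝ) * η 1 ≤ (η 1 * μ) * n := hCc.trans h1
        _ = (μ * n) * η 1 := by ring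
    exact le_of_mul_le_mul_right h2 n1
  have hkC : ((p + q + 2 : ℕ) : ℝ) * (C.card : ℝ) ≤ ε₁ * (Fintype.card V : ℝ) := by
    rw [← hnn]
    have h1 : μ * n ≤ ε₁ / ((p + q + 2 : ℕ) : ℝ) * n := mul_le_mul_of_nonneg_right hμ1 hn0.le
    have h2 : (C.card : ℝ) ≤ ε₁ / ((p + q + 2 : ℕ) : ℝ) * n := hCμ.trans h1
    calc ((p + q + 2 : ℕ) : ℝ) * (C.card : ℝ)
        ≤ ((p + q + 2 : ℕ) : ℝ) * (ε₁ / ((p + q + 2 : ℕ) : ℝ) * n) :=
          mul_le_mul_of_nonneg_left h2 (by positivity)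
      _ = ε₁ * n := by
          field_simp
  have hCκ : (C.card : ℝ) ≤ κ * n :=
    hCμ.trans (mul_le_mul_of_nonneg_right hμ2 hn0.le)
  have hXX : ∀ v, v ∉ C → (v ∈ X₁ ↔ v ∈ X₁ \ C) := by
    intro v hv
    rw [Finset.mem_sdiff]
    exact ⟨fun h => ⟨h, hv⟩, fun h => h.1⟩
  obtain ⟨c1, c2⟩ := g17 V H X₁ (X₁ \ C) C (p + q + 2) ε₁ hXX hε₁0 hkC
  refine ⟨X₁ \ C, ?_, ?_, ?_⟩
  · -- closeness
    rw [← hnn]
    have h1 : symmDiff (X₁ \ C) X₀ ⊆ C ∪ ((X₀ \ X₁) ∪ (X₁ \ X₀)) := by
      intro v hv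
      rw [Finset.mem_symmDiff] at hv
      simp only [Finset.mem_union, Finset.mem_sdiff] at hv ⊢
      tauto
    have h2 : ((symmDiff (X₁ \ C) X₀).card : ℝ) ≤
        (C.card : ℝ) + (((X₀ \ X₁) ∪ (X₁ \ X₀)).card : ℝ) := by
      exact_mod_cast (Finset.card_le_card h1).trans (Finset.card_union_le _ _)
    have h3 : μ * n ≤ ρ / 2 * n := mul_le_mul_of_nonneg_right hμ3 hn0.le
    have h4 : δ ≤ ρ / 2 := by
      have a1 : η 1 * μ ≤ μ := mul_le_of_le_one_left hμ0.le (by linarith)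
      linarith
    have h5 : δ * n ≤ ρ / 2 * n := mul_le_mul_of_nonneg_right h4 hn0.le
    linarith
  · -- passes
    intro _ v m hm hw
    have hm' : m.length = p + q + 1 := by omega
    rw [Nat.add_sub_cancel] at hw
    have hl := link_lower e17 V H X₁ C p q B (4 * δ) η hA₁ hNF n2 hCm v m hm' hw
    have h1 := g10 V H X₁ p q B (4 * δ) ε₁ (2 * κ * n) (η 1) η v (decide (v ∈ X₁ \ C)) m hpq hA₁
      hnon hε₁0 hε₁1 n1 (by linarith) n0.le hm' (Or.inl hw) hl
      (by
        rw [← hnn, hκ2]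
        apply mul_le_mul_of_nonneg_right _ hn0.le
        apply div_le_div_of_nonneg_right _ (by positivity)
        exact pow_le_pow_left₀ n3.le n4 _)
      n5 n6
    rw [← hnn]
    have h2 := c2 (2 * κ * n) (κ * n) v m m _ _ (by linarith) h1
    exact supT_mono hε₁2 h2
  · -- gadgets
    by_cases hCk : p + q + 2 ≤ C.card
    · left
      refine ⟨C, hCk, fun z hz m₁ m₂ h1 h2 => ?_⟩
      have hmix := mix_of_non e07 e10 V H X₁ p q B (4 * δ) h η θ hX₁ne hX₁ne' hpq hA₁ hC4.cst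
        hNF z ((hCm z).1 hz)
      have h3 := g08 V H X₁ p q B (4 * δ) h ε₁ (2 * κ * n) η θ z m₁ m₂ hpq hA₁ hC4 hnon hmix
        (by omega) (by omega) (by rw [← hnn, hκ2])
      have h4 := c2 (2 * κ * n) K z _ _ _ _ (by linarith) h3
      exact supT_mono hε₁2 h4
    · right
      push Not at hCk
      rcases e15 V H X₁ p q B (4 * δ) h η θ hA₁ hC4.cst hNF hDη with ⟨Z, hZ, hZg⟩ | hall
      · exfalso
        have h1 : Z ⊆ C := fun z hz => (hCm z).2 (hZg z hz).1.1
        have h2 := Finset.card_le_card h1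
        omega
      · have hB' : B = (p + q + 5) * (K + (p + q + 2) + 1) := hB
        have h1 := g15 V H X₁ C p q (K + (p + q + 2)) (4 * δ) h ε₁ η θ hpq
          (by rw [← hB']; exact hA₁) (by rw [← hB']; exact hC4) hnon hCm hCk.le
          (by rw [← hB']; exact hall)
        apply kinds_change (K := K) (K₀ := p + q + 2) _ h1
        intro uL c uR hs
        exact sup_mono hε₁2 (c1 K (p + q + 2) uL c uR hCk.le hs)

end Pool.Agent.KK.H24
end
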